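import Pool.Agent.H2.AG1

set_option autoImplicit false

namespace Pool.Agent.H2.AG

open scoped RealInnerProductSpace
open Filter Topology

lemma inner_comb {U : Type} [Fintype U] (q : U → ℕ) (hq : Function.Injective q) (c : U → ℝ) (d : ℝ)
    (hd : 0 ≤ d) (hc : ∀ u, |c u| ≤ d) (i : ℕ) : |⟪∑ u, c u • bb (q u), bb i⟫| ≤ d := by
  classical
  rw [sum_inner]
  simp only [real_inner_smul_left, ib]
  by_cases h : ∃ u, q u = i
  · obtain ⟨u, rfl⟩ := h
    rw [Finset.sum_eq_single u]
    · simpa using hc u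
    · intro v _ hv
      rw [if_neg (fun h => hv (hq h)), mul_zero]
    · simp
  · rw [Finset.sum_eq_zero]
    · simpa using hd
    · intro v _
      rw [if_neg (fun h' => h ⟨v, h'⟩), mul_zero]

lemma sum_sqrt (s : ℕ) : ∑ j ∈ Finset.range s, 1 / √((j : ℝ) + 1) ≤ 2 * √s := by
  induction s with
  | zero => simp
  | succ s ih =>
    rw [Finset.sum_range_succ]
    push_cast
    have h1 : 0 < √((s : ℝ) + 1) := Real.sqrt_pos.mpr (by positivity)
    have h2 := Real.sq_sqrt (show (0 : ℝ) ≤ s + 1 by positivity)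
    have h3 := Real.sq_sqrt (show (0 : ℝ) ≤ s by positivity)
    have : 1 / √((s : ℝ) + 1) ≤ 2 * √((s : ℝ) + 1) - 2 * √s := by
      rw [div_le_iff₀ h1]
      nlinarith [sq_nonneg (√((s : ℝ) + 1) - √s)]
    linarith

/-- weights -/
noncomputable def ww (j : ℕ) : ℝ := 1 / √((j : ℝ) + 1)

lemma ww_pos (j : ℕ) : 0 < ww j := by unfold ww; positivity

lemma ww_sq (j : ℕ) : ww j ^ 2 = 1 / ((j : ℝ) + 1) := by
  rw [ww, div_pow, Real.sq_sqrt (by positivity), one_pow]

lemma ww_le (j : ℕ) : ww j ≤ 1 := by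
  have h1 := ww_sq j
  have h2 : 1 / ((j : ℝ) + 1) ≤ 1 := by
    rw [div_le_one (by positivity)]; linarith [Nat.cast_nonneg (α := ℝ) j]
  nlinarith [ww_pos j]

theorem curves {Cv : Type} (len : Cv → ℕ) (pt : (γ : Cv) → Fin (len γ) × Bool → ℕ)
    (hinj : ∀ γ, Function.Injective (pt γ))
    (hint : ∀ γ γ', γ ≠ γ' → ∀ T : Finset (Fin (len γ) × Bool),
      (∀ u ∈ T, ∃ u', pt γ' u' = pt γ u) → T.card ≤ 2)
    (hord : ∀ (π : Equiv.Perm ℕ) (m : ℕ), 1 ≤ m → ∃ (γ : Cv) (N : ℕ), len γ = m ∧
      ∑ j : Fin (len γ), 1 / (((j : ℕ) : ℝ) + 1) ≤ 8 * ∑ j : Fin (len γ),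
        if π.symm (pt γ (j, true)) < N ∧ ¬ π.symm (pt γ (j, false)) < N
        then 1 / (((j : ℕ) : ℝ) + 1) else 0) :
    ∃ G : Cv × ℕ → HH, (∀ g i, |⟪G g, bb i⟫| ≤ 1) ∧
    (∀ g, ∀ s : ℕ, ∃ g0, (∀ (ξ : HH) (t : ℝ), (∀ i, |⟪bb i, ξ⟫| ≤ t) →
      |⟪G g0, ξ⟫| ≤ 4 * √s * t) ∧ ∀ i, (s : ℝ) * ⟪G g - G g0, bb i⟫ ^ 2 ≤ 1) ∧
    (∀ (π : Equiv.Perm ℕ) (R : ℝ), ∃ (N : ℕ) (f : HH), f ∈ Submodule.span ℝ (Set.range bb) ∧
      ‖f‖ ≤ 1 ∧ (∀ g, |⟪G g, f⟫| ≤ 1) ∧
      ∃ g, R ≤ ⟪G g, ∑ k ∈ Finset.range N, ⟪bb (π k), f⟫ • bb (π k)⟫) := by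
  classical
  let G : Cv × ℕ → HH := fun g =>
    ∑ u : Fin (len g.1) × Bool, (if (u.1 : ℕ) < g.2 then ww u.1 else 0) • bb (pt g.1 u)
  have hG : ∀ γ k, G (γ, k)
      = ∑ u : Fin (len γ) × Bool, (if (u.1 : ℕ) < k then ww u.1 else 0) • bb (pt γ u) :=
    fun _ _ => rfl
  have hB : ∀ g i, |⟪G g, bb i⟫| ≤ 1 := by
    rintro ⟨γ, k⟩ i
    refine inner_comb _ (hinj γ) _ 1 zero_le_one (fun u => ?_) i
    split_ifs
    · rw [abs_of_pos (ww_pos _)]; exact ww_le _
    · simp
  have hGpt : ∀ γ k u, ⟪G (γ, k), bb (pt γ u)⟫ = if (u.1 : ℕ) < k then ww u.1 else 0 := by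
    intro γ k u
    rw [hG, sum_inner, Finset.sum_eq_single u]
    · rw [real_inner_smul_left, ib, if_pos rfl, mul_one]
    · intro v _ hv
      rw [real_inner_smul_left, ib, if_neg (fun h => hv (hinj γ h)), mul_zero]
    · simp
  refine ⟨G, hB, ?_, ?_⟩
  · rintro ⟨γ, k⟩ s
    refine ⟨(γ, min k s), fun ξ t ht => ?_, fun i => ?_⟩
    · have ht0 : 0 ≤ t := (abs_nonneg _).trans (ht 0)
      rw [hG, sum_inner]
      refine (Finset.abs_sum_le_sum_abs _ _).trans ?_
      have h1 : ∀ u : Fin (len γ) × Bool,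
          |⟪(if (u.1 : ℕ) < min k s then ww u.1 else 0) • bb (pt γ u), ξ⟫|
            ≤ (if (u.1 : ℕ) < s then ww u.1 else 0) * t := by
        intro u
        rw [real_inner_smul_left, abs_mul]
        have := ww_pos u.1
        apply mul_le_mul _ (ht _) (abs_nonneg _)
        · split_ifs <;> positivity
        · split_ifs with h1 h2 h2
          · rw [abs_of_pos this]
          · exact absurd (lt_of_lt_of_le h1 (min_le_right _ _)) h2
          · simpa using this.le
          · simp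
      refine (Finset.sum_le_sum fun u _ => h1 u).trans ?_
      rw [← Finset.sum_mul]
      apply mul_le_mul_of_nonneg_right _ ht0
      rw [Fintype.sum_prod_type]
      simp only [Finset.sum_const, Finset.card_univ, Fintype.card_bool, nsmul_eq_mul]
      rw [← Finset.mul_sum, Fin.sum_univ_eq_sum_range (fun j => if j < s then ww j else 0),
        ← Finset.sum_filter]
      have h2 : ∑ j ∈ (Finset.range (len γ)).filter (· < s), ww j ≤ ∑ j ∈ Finset.range s, ww j := by
        apply Finset.sum_le_sum_of_subset_of_nonneg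
        · intro j hj; simpa using (Finset.mem_filter.mp hj).2
        · intro j _ _; exact (ww_pos j).le
      have h3 := sum_sqrt s
      simp only [ww] at h2 ⊢
      push_cast
      linarith
    · have h1 : |⟪G (γ, k) - G (γ, min k s), bb i⟫| ≤ ww s := by
        rw [hG, hG, ← Finset.sum_sub_distrib]
        simp only [← sub_smul]
        refine inner_comb _ (hinj γ) _ _ (ww_pos s).le (fun u => ?_) i
        split_ifs with h1 h2 h2
        · simpa using (ww_pos s).le
        · rw [sub_zero, abs_of_pos (ww_pos _)]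
          have : s ≤ u.1 := by
            rw [lt_min_iff] at h2; omega
          unfold ww
          gcongr
        · exact absurd (lt_of_lt_of_le h2 (min_le_left _ _)) h1
        · simpa using (ww_pos s).le
      have h2 : ⟪G (γ, k) - G (γ, min k s), bb i⟫ ^ 2 ≤ ww s ^ 2 := by
        rw [← sq_abs]; gcongr
      rw [ww_sq] at h2
      calc _ ≤ (s : ℝ) * (1 / ((s : ℝ) + 1)) := by gcongr
        _ ≤ 1 := by rw [mul_one_div, div_le_one (by positivity)]; linarith
  · intro π R
    obtain ⟨m, hm, hm1⟩ := ((Real.tendsto_sum_range_one_div_nat_succ_atTop.eventually_ge_atTop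
      (128 * R ^ 2 + 2)).and (eventually_ge_atTop 1)).exists
    obtain ⟨γ, N, rfl, hγ⟩ := hord π m hm1
    rw [← Fin.sum_univ_eq_sum_range (fun j => 1 / ((j : ℝ) + 1))] at hm
    set Hm := ∑ j : Fin (len γ), 1 / (((j : ℕ) : ℝ) + 1) with hHm
    let good : Fin (len γ) → Prop := fun j =>
      π.symm (pt γ (j, true)) < N ∧ ¬ π.symm (pt γ (j, false)) < N
    let d : Fin (len γ) × Bool → ℝ := fun u =>
      if good u.1 then (if u.2 = true then ww u.1 else -ww u.1) else 0
    let f0 : HH := ∑ u, d u • bb (pt γ u)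
    have hd : ∀ u, |d u| ≤ ww u.1 := by
      intro u
      have := ww_pos u.1
      simp only [d]
      split_ifs
      · rw [abs_of_pos this]
      · rw [abs_neg, abs_of_pos this]
      · simpa using this.le
    set ρ := √(2 * Hm) with hρ
    have hρ2 : ρ ^ 2 = 2 * Hm := Real.sq_sqrt (by nlinarith [sq_nonneg R])
    have hρ0 : 0 ≤ ρ := Real.sqrt_nonneg _
    have hρ1 : 2 ≤ ρ := by nlinarith [sq_nonneg R]
    have hρR : 16 * R ≤ ρ := by
      apply (abs_le_of_sq_le_sq' _ hρ0).2
      nlinarith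
    have n0 : ‖f0‖ ≤ ρ := by
      apply (abs_le_of_sq_le_sq' _ hρ0).2
      have e0 : ⟪f0, f0⟫ = ∑ u, (starRingEnd ℝ) (d u) * d u :=
        (bb_on.comp _ (hinj γ)).inner_sum d d Finset.univ
      rw [← real_inner_self_eq_norm_sq, e0, hρ2, hHm]
      have : ∀ u : Fin (len γ) × Bool, (starRingEnd ℝ) (d u) * d u ≤ 1 / (((u.1 : ℕ) : ℝ) + 1) := by
        intro u
        rw [← ww_sq, conj_trivial, ← sq, ← sq_abs]
        gcongr
        exact hd u
      refine (Finset.sum_le_sum fun u _ => this u).trans ?_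
      rw [Fintype.sum_prod_type]
      simp [Finset.mul_sum]
    have n1 : ∀ g, |⟪G g, f0⟫| ≤ ρ := by
      rintro ⟨γ', k⟩
      simp only [f0, inner_sum, real_inner_smul_right]
      by_cases h : γ = γ'
      · subst h
        simp only [hGpt]
        rw [Fintype.sum_prod_type, Finset.sum_eq_zero]
        · simpa using hρ0
        · intro j _
          simp only [d, Fintype.sum_bool]
          split_ifs <;> simp_all
      · refine le_trans ?_ hρ1
        have hT := hint γ γ' h (Finset.univ.filter fun u => ∃ u', pt γ' u' = pt γ u)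
          (fun u hu => (Finset.mem_filter.mp hu).2)
        rw [← Finset.sum_filter_add_sum_filter_not Finset.univ (fun u => ∃ u', pt γ' u' = pt γ u)]
        have z : ∑ u ∈ Finset.univ.filter (fun u => ¬ ∃ u', pt γ' u' = pt γ u),
            d u * ⟪G (γ', k), bb (pt γ u)⟫ = 0 := by
          refine Finset.sum_eq_zero fun u hu => ?_
          have hu' := (Finset.mem_filter.mp hu).2
          rw [hG, sum_inner, Finset.sum_eq_zero, mul_zero]
          intro v _
          rw [real_inner_smul_left, ib, if_neg (fun h => hu' ⟨v, h⟩), mul_zero]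
        rw [z, add_zero]
        refine (Finset.abs_sum_le_sum_abs _ _).trans ?_
        have : ∀ u, |d u * ⟪G (γ', k), bb (pt γ u)⟫| ≤ 1 := by
          intro u
          rw [abs_mul]
          have h1 := (hd u).trans (ww_le _)
          have h2 := hB (γ', k) (pt γ u)
          calc _ ≤ 1 * (1 : ℝ) := by gcongr
            _ = 1 := one_mul _
        refine (Finset.sum_le_sum fun u _ => this u).trans ?_
        rw [Finset.sum_const, nsmul_eq_mul, mul_one]
        exact_mod_cast hT
    have n2 : Hm ≤ 8 * ⟪G (γ, len γ), ∑ k ∈ Finset.range N, ⟪bb (π k), f0⟫ • bb (π k)⟫ := by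
      refine hγ.trans (le_of_eq ?_)
      congr 1
      have e1 : ∀ i, ∑ k ∈ Finset.range N, ⟪bb (π k), bb i⟫ • bb (π k)
          = if π.symm i < N then bb i else 0 := by
        intro i
        obtain ⟨l, rfl⟩ := π.surjective i
        simp only [ib, π.apply_eq_iff_eq, Equiv.symm_apply_apply, ite_smul, one_smul, zero_smul]
        rw [Finset.sum_ite_eq']
        simp
      have e2 : ∑ k ∈ Finset.range N, ⟪bb (π k), f0⟫ • bb (π k)
          = ∑ u, d u • if π.symm (pt γ u) < N then bb (pt γ u) else 0 := by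
        simp only [f0, inner_sum, real_inner_smul_right, Finset.sum_smul]
        rw [Finset.sum_comm]
        refine Finset.sum_congr rfl fun u _ => ?_
        rw [← e1, Finset.smul_sum]
        simp only [mul_smul]
      rw [e2, inner_sum, Fintype.sum_prod_type]
      refine Finset.sum_congr rfl fun j _ => ?_
      simp only [Fintype.sum_bool, real_inner_smul_right, d]
      by_cases hj : good j
      · have hj' := hj
        obtain ⟨h1, h2⟩ := hj'
        rw [if_pos (show _ ∧ _ from hj), if_pos hj, if_pos hj, if_pos h1, if_neg h2, hGpt,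
          if_pos j.2, inner_zero_right, ← ww_sq]
        simp [sq]
      · rw [if_neg (show ¬ (_ ∧ _) from hj), if_neg hj, if_neg hj]; simp
    have hρp : 0 < ρ := by linarith
    refine ⟨N, ρ⁻¹ • f0, ?_, ?_, ?_, (γ, len γ), ?_⟩
    · refine Submodule.smul_mem _ _ (Submodule.sum_mem _ fun u _ => Submodule.smul_mem _ _ ?_)
      exact Submodule.subset_span ⟨_, rfl⟩
    · rw [norm_smul, norm_inv, Real.norm_eq_abs, abs_of_pos hρp, inv_mul_le_iff₀ hρp, mul_one]
      exact n0
    · intro g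
      rw [real_inner_smul_right, abs_mul, abs_inv, abs_of_pos hρp, inv_mul_le_iff₀ hρp, mul_one]
      exact n1 g
    · simp only [real_inner_smul_right, mul_smul]
      rw [← Finset.smul_sum, real_inner_smul_right, le_inv_mul_iff₀ hρp]
      nlinarith

end Pool.Agent.H2.AG
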