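import Pool.Agent.H2.AG2

set_option autoImplicit false

namespace Pool.Agent.H2.AG

open Filter Topology

/-- columns -/
abbrev CC (m : ℕ) : Type := Fin m × Bool

/-- the primes -/
noncomputable def PP (m : ℕ) : ℕ :=
  (Nat.exists_infinite_primes (Fintype.card (CC m ⊕ Equiv.Perm (CC m)) + 12)).choose

lemma PP_ge (m : ℕ) : Fintype.card (CC m ⊕ Equiv.Perm (CC m)) + 12 ≤ PP m :=
  (Nat.exists_infinite_primes _).choose_spec.1

instance PP_prime (m : ℕ) : Fact (PP m).Prime := ⟨(Nat.exists_infinite_primes _).choose_spec.2⟩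

/-- the fields -/
abbrev KK (m : ℕ) : Type := ZMod (PP m)

/-- distinct field elements -/
noncomputable def emb (m : ℕ) : CC m ⊕ Equiv.Perm (CC m) ↪ KK m :=
  (Function.Embedding.nonempty_of_card_le (by
    rw [ZMod.card]; have := PP_ge m; omega)).some

/-- slopes -/
noncomputable def lam {m : ℕ} (σ : Equiv.Perm (CC m)) (x : CC m) : KK m :=
  (emb m (.inl x) - emb m (.inr σ))⁻¹

lemma emb_ne {m : ℕ} (σ : Equiv.Perm (CC m)) (x : CC m) :
    emb m (.inl x) - emb m (.inr σ) ≠ 0 := by
  rw [sub_ne_zero]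
  intro h
  exact absurd ((emb m).injective h) (by simp)

lemma lam_inj {m : ℕ} (σ : Equiv.Perm (CC m)) : Function.Injective (lam σ) := by
  intro x y h
  have := (emb m).injective (sub_left_injective (inv_injective h))
  simpa using this

lemma three {m : ℕ} {σ σ' : Equiv.Perm (CC m)} {a b a' b' : KK m} (ha : a ≠ 0) {x y z : CC m}
    (hxy : x ≠ y) (hxz : x ≠ z) (hyz : y ≠ z)
    (hx : a' * lam σ' x + b' = a * lam σ x + b) (hy : a' * lam σ' y + b' = a * lam σ y + b)
    (hz : a' * lam σ' z + b' = a * lam σ z + b) : σ = σ' ∧ a = a' ∧ b = b' := by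
  have key : ∀ x : CC m, a' * lam σ' x + b' = a * lam σ x + b →
      (b - b') * emb m (.inl x) ^ 2
        + (a - a' - (b - b') * (emb m (.inr σ) + emb m (.inr σ'))) * emb m (.inl x)
        + ((b - b') * emb m (.inr σ) * emb m (.inr σ') - a * emb m (.inr σ')
          + a' * emb m (.inr σ)) = 0 := by
    intro x hx
    have h1 := emb_ne σ x
    have h2 := emb_ne σ' x
    simp only [lam] at hx
    field_simp at hx
    linear_combination -hx
  have ne : ∀ {x y : CC m}, x ≠ y → emb m (.inl x) - emb m (.inl y) ≠ 0 := by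
    intro x y h
    rw [sub_ne_zero]
    intro h'
    exact h (by simpa using (emb m).injective h')
  have k1 := key x hx
  have k2 := key y hy
  have k3 := key z hz
  have n1 := ne hxy
  have n2 := ne hxz
  have n3 := ne hyz
  set X := emb m (.inl x)
  set Y := emb m (.inl y)
  set Z := emb m (.inl z)
  set c := emb m (.inr σ) with hc
  set c' := emb m (.inr σ') with hc'
  set α := b - b' with hα
  set β := a - a' - α * (c + c') with hβ
  set δ := α * c * c' - a * c' + a' * c with hδ
  have e1 : α * (X + Y) + β = 0 := by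
    apply mul_left_cancel₀ n1; linear_combination k1 - k2
  have e2 : α * (X + Z) + β = 0 := by
    apply mul_left_cancel₀ n2; linear_combination k1 - k3
  have e3 : α = 0 := by
    apply mul_left_cancel₀ n3; linear_combination e1 - e2
  have e4 : β = 0 := by rw [e3] at e1; linear_combination e1
  have e5 : δ = 0 := by rw [e3, e4] at k1; linear_combination k1
  have e6 : a = a' := by rw [e3] at hβ; linear_combination e4 - hβ
  have e7 : c = c' := by
    apply mul_left_cancel₀ ha
    rw [e3, ← e6] at hδ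
    linear_combination e5 - hδ
  refine ⟨?_, e6, sub_eq_zero.mp e3⟩
  have := (emb m).injective (hc.symm.trans (e7.trans hc'))
  simpa using this

/-- the ground set -/
abbrev II : Type := Σ m : ℕ, CC m × KK m

/-- numbering of the ground set -/
noncomputable def iota : II → ℕ := (Countable.exists_injective_nat (α := II)).choose

lemma iota_inj : Function.Injective iota := (Countable.exists_injective_nat (α := II)).choose_spec

/-- curves -/
structure Cv where
  /-- block -/
  m : ℕ
  /-- arrangement -/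
  σ : Equiv.Perm (CC m)
  /-- slope -/
  a : KK m
  /-- intercept -/
  b : KK m
  ha : a ≠ 0

/-- points of a curve -/
noncomputable def pt (γ : Cv) (u : Fin γ.m × Bool) : ℕ :=
  iota ⟨γ.m, γ.σ u, γ.a * lam γ.σ (γ.σ u) + γ.b⟩

lemma pt_inj (γ : Cv) : Function.Injective (pt γ) := by
  intro u v h
  have := iota_inj h
  simp only [Sigma.mk.injEq, heq_eq_eq, Prod.mk.injEq, true_and] at this
  exact γ.σ.injective this.1

lemma pt_int (γ γ' : Cv) (hne : γ ≠ γ') (T : Finset (Fin γ.m × Bool))
    (hT : ∀ u ∈ T, ∃ u', pt γ' u' = pt γ u) : T.card ≤ 2 := by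
  by_contra h
  obtain ⟨x, y, z, hx, hy, hz, hxy, hxz, hyz⟩ := Finset.two_lt_card_iff.mp (not_le.mp h)
  obtain ⟨m, σ, a, b, ha⟩ := γ
  obtain ⟨m', σ', a', b', ha'⟩ := γ'
  obtain ⟨x', hx'⟩ := hT x hx
  obtain rfl : m' = m := congrArg Sigma.fst (iota_inj hx')
  have key : ∀ u ∈ T, a' * lam σ' (σ u) + b' = a * lam σ (σ u) + b := by
    intro u hu
    obtain ⟨u', hu'⟩ := hT u hu
    have := iota_inj hu'
    simp only [Sigma.mk.injEq, heq_eq_eq, Prod.mk.injEq, true_and] at this
    rw [← this.2, this.1]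
  obtain ⟨rfl, rfl, rfl⟩ := three ha (σ.injective.ne hxy) (σ.injective.ne hxz) (σ.injective.ne hyz)
    (key x hx) (key y hy) (key z hz)
  exact hne rfl

lemma count {K : Type} [Field K] [Fintype K] [DecidableEq K] (hK : 12 ≤ Fintype.card K)
    (l l' : K) (hl : l ≠ l') (A B : Finset K) (hA : Fintype.card K ≤ 2 * A.card)
    (hB : 2 * B.card < Fintype.card K + 2) :
    Fintype.card K ^ 2 ≤ 8 * (Finset.univ.filter fun p : K × K =>
      p.1 ≠ 0 ∧ p.1 * l + p.2 ∈ A ∧ ¬ p.1 * l' + p.2 ∈ B).card := by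
  have h1 : (A ×ˢ Bᶜ).card ≤ (Finset.univ.filter fun p : K × K =>
      p.1 * l + p.2 ∈ A ∧ ¬ p.1 * l' + p.2 ∈ B).card := by
    apply Finset.card_le_card_of_surjOn (fun p : K × K => (p.1 * l + p.2, p.1 * l' + p.2))
    rintro ⟨y, y'⟩ hy
    simp only [Finset.coe_product, Set.mem_prod, Finset.mem_coe, Finset.mem_compl] at hy
    have hl' : l - l' ≠ 0 := sub_ne_zero.mpr hl
    have e1 : (y - y') / (l - l') * l + (y - (y - y') / (l - l') * l) = y := by ring
    have e2 : (y - y') / (l - l') * l' + (y - (y - y') / (l - l') * l) = y' := by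
      field_simp; ring
    refine ⟨((y - y') / (l - l'), y - (y - y') / (l - l') * l), ?_, ?_⟩
    · simp only [Finset.coe_filter, Finset.mem_univ, true_and, Set.mem_setOf_eq, e1, e2]
      exact hy
    · simp only [e1, e2]
  have h2 : (Finset.univ.filter fun p : K × K => p.1 * l + p.2 ∈ A ∧ ¬ p.1 * l' + p.2 ∈ B).card
      ≤ (Finset.univ.filter fun p : K × K =>
        p.1 ≠ 0 ∧ p.1 * l + p.2 ∈ A ∧ ¬ p.1 * l' + p.2 ∈ B).card + Fintype.card K := by
    have : (Finset.univ.filter fun p : K × K => p.1 * l + p.2 ∈ A ∧ ¬ p.1 * l' + p.2 ∈ B)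
        ⊆ (Finset.univ.filter fun p : K × K =>
        p.1 ≠ 0 ∧ p.1 * l + p.2 ∈ A ∧ ¬ p.1 * l' + p.2 ∈ B) ∪ ({0} ×ˢ Finset.univ) := by
      intro p hp
      simp only [Finset.mem_filter, Finset.mem_univ, true_and, Finset.mem_union,
        Finset.mem_product, Finset.mem_singleton, and_true] at hp ⊢
      tauto
    refine (Finset.card_le_card this).trans ((Finset.card_union_le _ _).trans ?_)
    simp
  rw [Finset.card_product, Finset.card_compl] at h1
  have h3 := B.card_le_univ
  obtain ⟨c, hc⟩ : ∃ c, Fintype.card K = B.card + c := ⟨Fintype.card K - B.card, by omega⟩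
  have h4 : Fintype.card K - B.card = c := by omega
  rw [h4] at h1
  set P := Fintype.card K
  have h5 : P * P ≤ 4 * (A.card * c) + P := by
    have : P ≤ 2 * c + 1 := by omega
    have h6 : P * P ≤ P * (2 * c + 1) := Nat.mul_le_mul_left _ this
    have h7 : P * (2 * c) ≤ 2 * A.card * (2 * c) := Nat.mul_le_mul_right _ hA
    nlinarith
  nlinarith

lemma order (π : Equiv.Perm ℕ) (m : ℕ) (hm : 1 ≤ m) : ∃ (γ : Cv) (N : ℕ), γ.m = m ∧
      ∑ j : Fin γ.m, 1 / (((j : ℕ) : ℝ) + 1) ≤ 8 * ∑ j : Fin γ.m,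
        if π.symm (pt γ (j, true)) < N ∧ ¬ π.symm (pt γ (j, false)) < N
        then 1 / (((j : ℕ) : ℝ) + 1) else 0 := by
  classical
  have hP : Fintype.card (KK m) = PP m := ZMod.card _
  have hP12 : 12 ≤ Fintype.card (KK m) := by rw [hP]; have := PP_ge m; omega
  let A : ℕ → CC m → Finset (KK m) := fun N x =>
    Finset.univ.filter fun y => π.symm (iota ⟨m, x, y⟩) < N
  let S : ℕ → Finset (CC m) := fun N =>
    Finset.univ.filter fun x => Fintype.card (KK m) ≤ 2 * (A N x).card
  have hex : ∃ N, m ≤ (S N).card := by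
    refine ⟨(Finset.univ.sup fun p : CC m × KK m => π.symm (iota ⟨m, p⟩)) + 1, ?_⟩
    have : S ((Finset.univ.sup fun p : CC m × KK m => π.symm (iota ⟨m, p⟩)) + 1) = Finset.univ := by
      apply Finset.filter_true_of_mem
      intro x _
      have : A ((Finset.univ.sup fun p : CC m × KK m => π.symm (iota ⟨m, p⟩)) + 1) x
          = Finset.univ := by
        apply Finset.filter_true_of_mem
        intro y _
        exact Nat.lt_succ_of_le (Finset.le_sup (f := fun p : CC m × KK m => π.symm (iota ⟨m, p⟩))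
          (Finset.mem_univ (x, y)))
      rw [this, Finset.card_univ]; omega
    rw [this]; simp; omega
  have h0 : ¬ m ≤ (S 0).card := by
    have : S 0 = ∅ := by
      apply Finset.filter_false_of_mem
      intro x _
      have : A 0 x = ∅ := by simp [A]
      rw [this]; simp only [Finset.card_empty]; omega
    rw [this]; simp; omega
  obtain ⟨N, hN1, hN2⟩ : ∃ N, ¬ m ≤ (S N).card ∧ m ≤ (S (N + 1)).card := by
    have h1 := Nat.find_spec hex
    rcases h : Nat.find hex with _ | N
    · rw [h] at h1; exact absurd h1 h0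
    · exact ⟨N, Nat.find_min hex (by omega), by rwa [h] at h1⟩
  have hA : ∀ x, A N x ⊆ A (N + 1) x := by
    intro x y hy
    simp only [A, Finset.mem_filter, Finset.mem_univ, true_and] at hy ⊢
    omega
  have hA' : ∀ x, (A (N + 1) x).card ≤ (A N x).card + 1 := by
    intro x
    have : A (N + 1) x ⊆ A N x ∪ Finset.univ.filter fun y => π.symm (iota ⟨m, x, y⟩) = N := by
      intro y hy
      simp only [A, Finset.mem_filter, Finset.mem_univ, true_and, Finset.mem_union] at hy ⊢
      omega
    refine (Finset.card_le_card this).trans ((Finset.card_union_le _ _).trans ?_)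
    apply Nat.add_le_add_left
    rw [Finset.card_le_one]
    intro y hy y' hy'
    have h1 := (Finset.mem_filter.mp hy).2
    have h2 := (Finset.mem_filter.mp hy').2
    have := iota_inj (π.symm.injective (h1.trans h2.symm))
    simpa using this
  have hS : S N ⊆ S (N + 1) := by
    intro x hx
    simp only [S, Finset.mem_filter, Finset.mem_univ, true_and] at hx ⊢
    have := Finset.card_le_card (hA x)
    omega
  obtain ⟨C, hC1, hC2, hC3⟩ := Finset.exists_subsuperset_card_eq hS (not_le.mp hN1).le hN2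
  obtain ⟨σ, hσ⟩ := Equiv.Perm.exists_map_finset_eq
    ((Finset.univ : Finset (Fin m)) ×ˢ ({true} : Finset Bool)) C (by simp [hC3])
  have s1 : ∀ j, Fintype.card (KK m) ≤ 2 * (A (N + 1) (σ (j, true))).card := by
    intro j
    have : σ (j, true) ∈ C := by rw [← hσ]; simp
    exact (Finset.mem_filter.mp (hC2 this)).2
  have s2 : ∀ j, 2 * (A (N + 1) (σ (j, false))).card < Fintype.card (KK m) + 2 := by
    intro j
    have h1 : σ (j, false) ∉ C := by rw [← hσ]; simp
    have h2 : σ (j, false) ∉ S N := fun h => h1 (hC1 h)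
    simp only [S, Finset.mem_filter, Finset.mem_univ, true_and] at h2
    have := hA' (σ (j, false))
    omega
  let good : KK m × KK m → Fin m → Prop := fun p j =>
    p.1 ≠ 0 ∧ p.1 * lam σ (σ (j, true)) + p.2 ∈ A (N + 1) (σ (j, true))
      ∧ ¬ p.1 * lam σ (σ (j, false)) + p.2 ∈ A (N + 1) (σ (j, false))
  have hsum : ∑ _p : KK m × KK m, ∑ j : Fin m, 1 / (((j : ℕ) : ℝ) + 1)
      ≤ ∑ p : KK m × KK m, 8 * ∑ j : Fin m, if good p j then 1 / (((j : ℕ) : ℝ) + 1) else 0 := by
    simp only [Finset.mul_sum]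
    rw [Finset.sum_comm, Finset.sum_comm (f := fun p j => 8 * if good p j then _ else (0 : ℝ))]
    refine Finset.sum_le_sum fun j _ => ?_
    rw [← Finset.mul_sum, ← Finset.sum_filter, Finset.sum_const, Finset.sum_const, nsmul_eq_mul,
      nsmul_eq_mul, ← mul_assoc]
    apply mul_le_mul_of_nonneg_right _ (by positivity)
    have := count hP12 (lam σ (σ (j, true))) (lam σ (σ (j, false)))
      ((lam_inj σ).ne (σ.injective.ne (by simp))) _ _ (s1 j) (s2 j)
    rw [Finset.card_univ, Fintype.card_prod, ← sq]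
    exact_mod_cast this
  obtain ⟨p, -, hp⟩ := Finset.exists_le_of_sum_le Finset.univ_nonempty hsum
  have hp1 : p.1 ≠ 0 := by
    intro h
    have : ∀ j, ¬ good p j := fun j hj => hj.1 h
    simp only [this, if_false, Finset.sum_const_zero, mul_zero] at hp
    have h2 : 0 < ∑ j : Fin m, 1 / (((j : ℕ) : ℝ) + 1) :=
      Finset.sum_pos (fun j _ => by positivity) ⟨⟨0, hm⟩, Finset.mem_univ _⟩
    linarith
  refine ⟨⟨m, σ, p.1, p.2, hp1⟩, N + 1, rfl, hp.trans (le_of_eq ?_)⟩
  congr 1
  refine Finset.sum_congr rfl fun j _ => ?_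
  congr 1
  simp [good, A, pt, hp1]

end Pool.Agent.H2.AG
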