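import Mathlib

set_option autoImplicit false

/-! An almost minimal group with a closed subgroup that is not almost minimal. -/

namespace Pool.Agent.H2.AM

open Filter Topology Set

theorem ess_min {X K : Type} [AddCommGroup X] [AddCommGroup K] [TopologicalSpace K]
    [IsTopologicalAddGroup K] [CompactSpace K] (ι : X →+ K)
    (he : ∀ C : AddSubgroup K, IsClosed (C : Set K) → ∀ y ∈ C, y ≠ 0 → ∃ x ≠ 0, ι x ∈ C)
    (s : TopologicalSpace X) (hs : IsTopologicalAddGroup X) (h2 : T2Space X)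
    (hle : TopologicalSpace.induced ι inferInstance ≤ s) :
    s = TopologicalSpace.induced ι inferInstance := by
  have ha : Tendsto (fun p : K × K => p.1 + p.2) (map ι (𝓝 0) ×ˢ map ι (𝓝 0)) (map ι (𝓝 0)) := by
    rw [prod_map_map_eq, tendsto_map'_iff, ← nhds_prod_eq]
    simpa [Function.comp_def] using (tendsto_map (f := ι)).comp
      (continuous_add.tendsto' ((0 : X), (0 : X)) 0 (add_zero 0))
  have hn : Tendsto (fun p : K => -p) (map ι (𝓝 0)) (map ι (𝓝 0)) := by
    rw [tendsto_map'_iff]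
    simpa [Function.comp_def] using (tendsto_map (f := ι)).comp
      (continuous_neg.tendsto' (0 : X) 0 neg_zero)
  let C : AddSubgroup K :=
    { carrier := {y | ClusterPt y (map ι (𝓝 0))}
      zero_mem' := ClusterPt.of_le_nhds' (f := pure 0) (pure_le_nhds 0) inferInstance |>.mono (by
        simpa using map_mono (m := ι) (pure_le_nhds (0 : X)))
      add_mem' := fun {x y} hx hy => ClusterPt.map (x := (x, y)) (by
        rw [ClusterPt, nhds_prod_eq, prod_inf_prod]; exact NeBot.prod hx hy)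
        continuous_add.continuousAt ha
      neg_mem' := fun hx => ClusterPt.map hx continuous_neg.continuousAt hn }
  refine le_antisymm ?_ hle
  have h3 : map ι (𝓝 0) ≤ 𝓝 0 := le_nhds_of_unique_clusterPt fun y hy => not_not.1 fun h => by
    obtain ⟨x, h4, h5⟩ := he C isClosed_setOf_clusterPt y hy h
    have h6 : NeBot (𝓝 (ι x) ⊓ map ι (𝓝 0)) := h5
    rw [← Filter.push_pull', map_neBot_iff, ← nhds_induced] at h6
    exact h4 (eq_of_nhds_neBot (h6.mono (inf_le_inf_right _ (nhds_mono hle))))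
  exact continuous_iff_le_induced.1 (continuous_of_continuousAt_zero ι (by
    rwa [ContinuousAt, map_zero]))

theorem exists_w : ∃ w : ℕ → ℝ, Tendsto w atTop (𝓝 0) ∧ ∀ c : ℕ →₀ ℤ,
    IsOfFinAddOrder ((Finsupp.linearCombination ℤ w c : ℝ) : UnitAddCircle) → c = 0 := by
  have h0 : Transcendental ℚ (liouvilleNumber 2) := fun h =>
    transcendental_liouvilleNumber le_rfl ((IsFractionRing.isAlgebraic_iff ℤ ℚ ℝ).2 (by simpa using h))
  generalize liouvilleNumber 2 = x at h0
  have hx : x ≠ 0 := fun h => h0 (h ▸ isAlgebraic_zero)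
  have h1 := linearIndependent_iff'.1 (h0.linearIndependent_sub_inv.comp (fun n : ℕ => -(n : ℚ))
    fun a b h => by simpa using h)
  refine ⟨fun j => x * (x + (j + 1 : ℕ))⁻¹, by
    simpa using (tendsto_inv_atTop_zero.comp (tendsto_atTop_add_const_left _ x
      (tendsto_natCast_atTop_atTop.comp (tendsto_add_atTop_nat 1)))).const_mul x, fun c hc => ?_⟩
  obtain ⟨q, hq⟩ := AddCircle.isOfFinAddOrder_iff_exists_rat_eq_div.1 hc
  ext j
  have h2 := h1 (Finset.range (c.support.sup id + j + 1 + 1)) (fun i => Nat.casesOn i (-q) fun j => c j)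
    (mul_left_cancel₀ hx (by
      rw [div_one, Finsupp.linearCombination_apply, Finsupp.sum_of_support_subset c
        (s := Finset.range (c.support.sup id + j + 1)) (fun i hi => Finset.mem_range.2
          (by have := Finset.le_sup (f := id) hi; simp only [id] at this; omega)) _ (by simp)] at hq
      rw [Finset.sum_range_succ', mul_add, Finset.mul_sum, mul_zero]
      simp only [Function.comp_apply, Rat.smul_def, eq_ratCast, Rat.cast_neg, Rat.cast_natCast,
        sub_neg_eq_add, Rat.cast_intCast, Nat.cast_zero, add_zero, hq]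
      simp [mul_left_comm x _ x⁻¹, hx, mul_left_comm x]
      simp [hq])) (j + 1) (by simp)
  simpa using h2

/-- the bounded factor -/
abbrev LL : Type := ℕ → ZMod 4

/-- the compact envelope -/
abbrev KK : Type := LL × UnitAddCircle

variable (w : ℕ → ℝ)

/-- real parts -/
noncomputable def ta : (ℕ →₀ ℤ) →ₗ[ℤ] ℝ := Finsupp.linearCombination ℤ w

/-- bounded parts -/
noncomputable def la : (ℕ →₀ ℤ) →ₗ[ℤ] LL :=
  Finsupp.linearCombination ℤ fun j => Pi.single j.unpair.1 1

/-- the group -/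
def GG : AddSubgroup (KK × ℝ) where
  carrier := {g | ∃ c c', 2 • (g.1.1 - la c) = 0 ∧ IsOfFinAddOrder (g.1.2 - (ta w c : ℝ)) ∧
    g.2 = ta w c'}
  zero_mem' := ⟨0, 0, by simp, by simpa using IsOfFinAddOrder.zero, by simp⟩
  add_mem' := by
    rintro g h ⟨a, a', a1, a2, a3⟩ ⟨b, b', b1, b2, b3⟩
    refine ⟨a + b, a' + b', ?_, ?_, by simp [a3, b3]⟩
    · rw [map_add, Prod.fst_add, Prod.fst_add, add_sub_add_comm, smul_add, a1, b1, add_zero]
    · rw [map_add, Prod.fst_add, Prod.snd_add, AddCircle.coe_add, add_sub_add_comm]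
      exact a2.add b2
  neg_mem' := by
    rintro g ⟨a, a', a1, a2, a3⟩
    refine ⟨-a, -a', ?_, ?_, by simp [a3]⟩
    · rw [map_neg, Prod.fst_neg, Prod.fst_neg, ← neg_sub', smul_neg, a1, neg_zero]
    · rw [map_neg, Prod.fst_neg, Prod.snd_neg, AddCircle.coe_neg, ← neg_sub']
      exact a2.neg

theorem ess (C : AddSubgroup KK) (hC : IsClosed (C : Set KK)) (y : KK) (hy : y ∈ C) (h0 : y ≠ 0) :
    ∃ z ∈ C, z ≠ 0 ∧ (z, (0 : ℝ)) ∈ GG w := by
  have h4 : ∀ l : LL, 2 • 2 • l = 0 := fun l => funext fun i =>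
    (by decide : ∀ a : ZMod 4, 2 • 2 • a = 0) (l i)
  by_cases h : IsOfFinAddOrder y.2
  · by_cases h1 : 2 • y.1 = 0
    · exact ⟨y, hy, h0, 0, 0, by simpa using h1, by simpa using h, by simp⟩
    · exact ⟨2 • y, C.nsmul_mem hy 2, fun h2 => h1 (congrArg Prod.fst h2), 0, 0,
        by simpa using h4 y.1, by simpa using h.nsmul (n := 2), by simp⟩
  have h1 : DenseRange fun n : ℤ => n • (2 • 2 • y.2) := AddCircle.denseRange_zsmul_iff.2
    (addOrderOf_eq_zero fun h1 => h ((h1.of_nsmul two_ne_zero).of_nsmul two_ne_zero))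
  have h2 := AddCircle.addOrderOf_period_div (p := (1 : ℝ)) two_pos
  refine ⟨(0, ((1 / (2 : ℕ) : ℝ) : UnitAddCircle)), h1.induction_on (p := fun s => (0, s) ∈ C) _
    (hC.preimage (by fun_prop)) fun n => ?_, fun h3 => ?_, 0, 0, by simp, ?_, by simp⟩
  · convert C.zsmul_mem (C.nsmul_mem (C.nsmul_mem hy 2) 2) n using 1
    exact Prod.ext (by simp only [Prod.smul_fst, h4, smul_zero]) rfl
  · rw [show ((1 / (2 : ℕ) : ℝ) : UnitAddCircle) = 0 from congrArg Prod.snd h3] at h2
    simp at h2
  · simpa using addOrderOf_pos_iff.1 (two_pos.trans_eq h2.symm)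

end Pool.Agent.H2.AM
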