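import Mathlib

set_option autoImplicit false

namespace Pool.Agent.H2.Alex

open Filter Topology Finset
open scoped InnerProductSpace

noncomputable section

variable {X : Type} [NormedAddCommGroup X] [InnerProductSpace ℝ X]

omit [NormedAddCommGroup X] [InnerProductSpace ℝ X] in
lemma exists_am {D : Set X} {y0 : X} (h0 : y0 ∈ D) (g : X → ℝ) {b : ℝ} (hb : ∀ v ∈ D, b ≤ g v)
    {ε : ℝ} (hε : 0 < ε) : ∃ y, y ∈ D ∧ ∀ v ∈ D, g y ≤ g v + ε := by
  have hbd : BddBelow (g '' D) := ⟨b, by rintro _ ⟨v, hv, rfl⟩; exact hb v hv⟩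
  obtain ⟨_, ⟨y, hy, rfl⟩, h⟩ := Real.lt_sInf_add_pos (s := g '' D) ⟨_, y0, h0, rfl⟩ hε
  exact ⟨y, hy, fun v hv => by linarith [csInf_le hbd ⟨v, hv, rfl⟩]⟩

def am (D : Set X) (g : X → ℝ) (ε : ℝ) : X :=
  @Classical.epsilon X ⟨0⟩ (fun y => y ∈ D ∧ ∀ v ∈ D, g y ≤ g v + ε)

def GG (D : Set X) (φ : X → ℝ) (c κ : ℕ → ℝ) : ℕ → X → ℝ
  | 0 => φ
  | k + 1 => fun v => GG D φ c κ k v + c k * ‖v - am D (GG D φ c κ k) (κ k)‖ ^ 2

/-- smooth variational principle in Hilbert space -/
lemma vp [CompleteSpace X] {D : Set X} (hD : IsClosed D) {y0 : X} (h0 : y0 ∈ D) {φ : X → ℝ}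
    (hφ : Continuous φ) {b : ℝ} (hb : ∀ v ∈ D, b ≤ φ v) {σ κ : ℝ} (hσ : 0 < σ) (hκ : 0 < κ) :
    ∃ y ∈ D, ∃ n : X, (∀ v ∈ D, φ y + ⟪n, v - y⟫_ℝ ≤ φ v + σ / 2 * ‖v - y‖ ^ 2) ∧
      ∀ v ∈ D, φ y ≤ φ v + κ := by
  set c : ℕ → ℝ := fun i => σ / 2 / 2 / 2 ^ i with hc
  set e : ℕ → ℝ := fun i => κ / σ * c i / 4 ^ i with he
  have cpos : ∀ i, 0 < c i := fun i => by simp only [hc]; positivity
  have epos : ∀ i, 0 < e i := fun i => by have := cpos i; simp only [he]; positivity
  have ele : ∀ i, e i ≤ κ / 2 / 2 ^ i := fun i => by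
    simp only [he, hc]
    have h4 : (1 : ℝ) ≤ 4 ^ i := one_le_pow₀ (by norm_num)
    calc κ / σ * (σ / 2 / 2 / 2 ^ i) / 4 ^ i ≤ κ / σ * (σ / 2 / 2 / 2 ^ i) :=
          div_le_self (by positivity) h4
      _ = κ / 2 / 2 ^ i / 2 := by field_simp
      _ ≤ _ := half_le_self (by positivity)
  set G := GG D φ c e with hG
  set y : ℕ → X := fun k => am D (G k) (e k) with hy
  have Gs : ∀ k v, G (k + 1) v = G k v + c k * ‖v - y k‖ ^ 2 := fun k v => rfl
  have Gsum : ∀ k v, G k v = φ v + ∑ i ∈ range k, c i * ‖v - y i‖ ^ 2 := by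
    intro k v
    induction k with
    | zero => simp [hG, GG]
    | succ k ih => rw [Gs, ih, sum_range_succ]; ring
  have Gmono : ∀ l k v, l ≤ k → G l v ≤ G k v := by
    intro l k v h
    rw [Gsum, Gsum]
    have := sum_le_sum_of_subset_of_nonneg (f := fun i => c i * ‖v - y i‖ ^ 2)
      (range_subset_range.2 h) (fun i _ _ => by have := cpos i; positivity)
    linarith
  have ysp : ∀ k, y k ∈ D ∧ ∀ v ∈ D, G k (y k) ≤ G k v + e k := fun k =>
    Classical.epsilon_spec (exists_am h0 (G k)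
      (fun v hv => (hb v hv).trans (Gmono 0 k v (Nat.zero_le _))) (epos k))
  have hstep : ∀ k, G (k + 1) (y (k + 1)) ≤ G k (y k) + e (k + 1) := by
    intro k
    have := (ysp (k + 1)).2 _ (ysp k).1
    rw [Gs k (y k)] at this
    simpa using this
  have hdist : ∀ k, dist (y k) (y (k + 1)) ≤ (2 * Real.sqrt (2 * (κ / σ))) / 2 / 2 ^ k := by
    intro k
    have h1 := hstep k
    have h2 := (ysp k).2 _ (ysp (k + 1)).1
    rw [Gs] at h1
    have h3 : e (k + 1) ≤ e k := by
      simp only [he, hc]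
      gcongr <;> norm_num
    have h4 : c k * ‖y (k + 1) - y k‖ ^ 2 ≤ c k * (2 * (κ / σ) / 4 ^ k) := by
      have : c k * (2 * (κ / σ) / 4 ^ k) = 2 * e k := by simp only [he]; ring
      linarith
    have h5 := le_of_mul_le_mul_left h4 (cpos k)
    rw [dist_comm, dist_eq_norm]
    refine le_of_sq_le_sq ?_ (by positivity)
    refine h5.trans (le_of_eq ?_)
    rw [div_pow, div_pow, mul_pow, Real.sq_sqrt (by positivity), ← pow_mul, mul_comm k 2, pow_mul]
    norm_num
  obtain ⟨z, hz⟩ := cauchySeq_tendsto_of_complete (cauchySeq_of_le_geometric_two hdist)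
  have hzD : z ∈ D := hD.mem_of_tendsto hz (Eventually.of_forall fun k => (ysp k).1)
  set B := 2 * Real.sqrt (2 * (κ / σ)) with hB
  have hzB : ∀ i, ‖z - y i‖ ≤ B := fun i => by
    rw [← dist_eq_norm, dist_comm]
    exact (dist_le_of_le_geometric_two_of_tendsto hdist hz i).trans
      (div_le_self (by positivity) (one_le_pow₀ (by norm_num)))
  have hsc : HasSum c (σ / 2) := hasSum_geometric_two' (σ / 2)
  have hs1 : Summable (fun i => c i • (z - y i)) := by
    refine Summable.of_norm_bounded (hsc.summable.mul_right B) fun i => ?_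
    rw [norm_smul, Real.norm_of_nonneg (cpos i).le]
    exact mul_le_mul_of_nonneg_left (hzB i) (cpos i).le
  have hs2 : Summable (fun i => c i * ‖z - y i‖ ^ 2) := by
    refine Summable.of_nonneg_of_le (fun i => by have := cpos i; positivity) (fun i => ?_)
      (hsc.summable.mul_right (B ^ 2))
    have := hzB i
    have := cpos i
    gcongr
  have etend : Tendsto e atTop (𝓝 0) := by
    refine squeeze_zero (fun i => (epos i).le) ele ?_
    exact (tendsto_pow_atTop_atTop_of_one_lt (one_lt_two (α := ℝ))).const_div_atTop _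
  refine ⟨z, hzD, -(2 : ℝ) • ∑' i, c i • (z - y i), fun v hv => ?_, fun v hv => ?_⟩
  · have hs3 : HasSum (fun i => c i * ‖v - y i‖ ^ 2)
        (σ / 2 * ‖v - z‖ ^ 2 + 2 * ⟪∑' i, c i • (z - y i), v - z⟫_ℝ + ∑' i, c i * ‖z - y i‖ ^ 2) := by
      have a1 := hsc.mul_right (‖v - z‖ ^ 2)
      have a2 := (hs1.hasSum.mapL (innerSL ℝ (v - z))).mul_left 2
      have := (a1.add a2).add hs2.hasSum
      simp only [innerSL_apply_apply] at this
      rw [real_inner_comm (v - z)]
      refine this.congr_fun fun i => ?_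
      rw [show v - y i = (v - z) + (z - y i) by abel, norm_add_sq_real, inner_smul_right]
      ring
    have t1 : Tendsto (fun k => G k v + e k) atTop (𝓝 (φ v + (σ / 2 * ‖v - z‖ ^ 2 +
        2 * ⟪∑' i, c i • (z - y i), v - z⟫_ℝ + ∑' i, c i * ‖z - y i‖ ^ 2) + 0)) := by
      simp only [Gsum]
      exact (hs3.tendsto_sum_nat.const_add _).add etend
    have t2 : ∀ l, G l z ≤ φ v + (σ / 2 * ‖v - z‖ ^ 2 +
        2 * ⟪∑' i, c i • (z - y i), v - z⟫_ℝ + ∑' i, c i * ‖z - y i‖ ^ 2) + 0 := by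
      intro l
      have hcont : Continuous (G l) := by
        have : G l = fun v => φ v + ∑ i ∈ range l, c i * ‖v - y i‖ ^ 2 := funext (Gsum l)
        rw [this]; fun_prop
      refine le_of_tendsto_of_tendsto ((hcont.tendsto z).comp hz) t1 ?_
      filter_upwards [eventually_ge_atTop l] with k hk
      exact (Gmono l k _ hk).trans ((ysp k).2 v hv)
    have t3 : Tendsto (fun l => G l z) atTop (𝓝 (φ z + ∑' i, c i * ‖z - y i‖ ^ 2)) := by
      simp only [Gsum]
      exact hs2.hasSum.tendsto_sum_nat.const_add _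
    have := le_of_tendsto' t3 t2
    rw [inner_smul_left]
    simp only [map_neg, conj_trivial]
    linarith
  · have h1 : ∀ k, G k (y k) ≤ φ v + κ - κ / 2 / 2 ^ k := by
      intro k
      induction k with
      | zero =>
        have := (ysp 0).2 v hv
        have h2 := ele 0
        have h3 : G 0 v = φ v := rfl
        simp only [pow_zero, div_one] at *
        linarith
      | succ k ih =>
        have h2 := ele (k + 1)
        have h3 := hstep k
        have : κ / 2 / 2 ^ k = 2 * (κ / 2 / 2 ^ (k + 1)) := by rw [pow_succ]; field_simp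
        linarith
    refine le_of_tendsto' ((hφ.tendsto z).comp hz) fun k => ?_
    have h2 := Gmono 0 k (y k) (Nat.zero_le _)
    have h3 : G 0 (y k) = φ (y k) := rfl
    have h4 : 0 ≤ κ / 2 / 2 ^ k := by positivity
    have := h1 k
    simp only [Function.comp]
    linarith

end
end Pool.Agent.H2.Alex
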