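import Mathlib
import Pool.Agent.H2.Alex1

set_option autoImplicit false

namespace Pool.Agent.H2.Alex

open Filter Topology Finset
open scoped InnerProductSpace

noncomputable section

variable {X : Type} [NormedAddCommGroup X] [InnerProductSpace ℝ X]

def hub (c r : ℝ) : ℝ :=
  (max (-c) (min r (5 * c)) + c) * (r - max (-c) (min r (5 * c))) + (max (-c) (min r (5 * c)) + c) ^ 2 / 2

lemma hub_low {c r : ℝ} (hc : 0 < c) (h : r ≤ -c) : hub c r = 0 := by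
  unfold hub
  rw [min_eq_left (by linarith), max_eq_left h]; ring

lemma hub_mid {c r : ℝ} (h : -c ≤ r) (h' : r ≤ 5 * c) : hub c r = (r + c) ^ 2 / 2 := by
  unfold hub
  rw [min_eq_left h', max_eq_right h]; ring

lemma hub_high {c r : ℝ} (hc : 0 < c) (h : 5 * c ≤ r) : hub c r = 6 * c * (r - 5 * c) + 18 * c ^ 2 := by
  unfold hub
  rw [min_eq_right h, max_eq_right (by linarith)]; ring

lemma hub_tan {c r s : ℝ} (hc : 0 < c) (h : -c ≤ s) (h' : s ≤ 5 * c) :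
    (s + c) ^ 2 / 2 + (s + c) * (r - s) ≤ hub c r := by
  rcases le_total r (-c) with h1 | h1
  · rw [hub_low hc h1]; nlinarith
  rcases le_total r (5 * c) with h2 | h2
  · rw [hub_mid h1 h2]; nlinarith [sq_nonneg (r - s)]
  · rw [hub_high hc h2]; nlinarith [sq_nonneg (5 * c - s)]

lemma gain [CompleteSpace X] {D : Set X} (hD : IsClosed D) {φ : X → ℝ} (hφ : Continuous φ)
    {y : X} (hy : y ∈ D) {θ : ℝ} (hθ : 0 < θ) (h0 : φ y = 0)
    (h1 : ∀ v ∈ D, θ / 2 * ‖v - y‖ ^ 2 ≤ φ v) (d m : X) {E : ℝ} (hE : 0 < E)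
    (h2 : ∀ v ∈ D, ⟪m, v - y - d⟫_ℝ + E ≤ φ v) {σ : ℝ} (hσ : 0 < σ) :
    ∃ z ∈ D, ∃ (n : X) (γ δ : ℝ), 0 ≤ γ ∧ 0 < δ ∧
      (∀ v ∈ D, φ z + ⟪n, v - z⟫_ℝ ≤ φ v + σ / 2 * ‖v - z‖ ^ 2) ∧
      (∀ v ∈ D, ‖v - z‖ ≤ δ →
        φ z + ⟪n, v - z⟫_ℝ + γ / 2 * ⟪m, v - z⟫_ℝ ^ 2 ≤ φ v + σ / 2 * ‖v - z‖ ^ 2) ∧
      E / 12 ≤ γ * ⟪m, d⟫_ℝ ^ 2 ∧ θ * ‖z - y‖ ^ 2 ≤ 8 * (‖m‖ * ‖d‖) := by
  set c := ⟪m, d⟫_ℝ with hc
  have hEc : E ≤ c := by
    have := h2 y hy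
    rw [h0, sub_self, zero_sub, inner_neg_right] at this
    linarith
  have hc0 : 0 < c := hE.trans_le hEc
  set γ := 1 / (12 * c) with hγ
  have hγ0 : 0 < γ := by positivity
  have hγc : γ * c = 1 / 12 := by rw [hγ]; field_simp
  set ψ : ℝ → ℝ := fun r => r / 4 + γ * (hub c r - c ^ 2 / 2) with hψ
  have hnn : ∀ v ∈ D, 0 ≤ φ v := fun v hv => le_trans (by positivity) (h1 v hv)
  have hlow : ∀ r, r ≤ -c → ψ r ≤ -c / 4 := by
    intro r hr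
    simp only [hψ, hub_low hc0 hr]
    nlinarith [mul_pos hγ0 (pow_pos hc0 2)]
  have hmid : ∀ r, -c ≤ r → r ≤ 5 * c → ψ r ≤ 3 * c := by
    intro r hr hr'
    simp only [hψ, hub_mid hr hr']
    have : γ * ((r + c) ^ 2 / 2 - c ^ 2 / 2) ≤ γ * (18 * c ^ 2) := by
      apply mul_le_mul_of_nonneg_left _ hγ0.le
      nlinarith
    have h3 : γ * (18 * c ^ 2) = 18 * c * (γ * c) := by ring
    rw [hγc] at h3
    linarith
  have hhigh : ∀ r, 5 * c ≤ r → ψ r ≤ 3 * r / 4 - c := by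
    intro r hr
    simp only [hψ, hub_high hc0 hr]
    have h3 : γ * (6 * c * (r - 5 * c) + 18 * c ^ 2 - c ^ 2 / 2) =
        (6 * (r - 5 * c) + 35 * c / 2) * (γ * c) := by ring
    rw [h3, hγc]
    linarith
  have h2' : ∀ v ∈ D, ⟪m, v - y⟫_ℝ - c ≤ φ v := by
    intro v hv
    have := h2 v hv
    rw [inner_sub_right _ (v - y)] at this
    linarith
  have hcont : Continuous (fun v => φ v - ψ ⟪m, v - y⟫_ℝ) := by
    simp only [hψ, hub]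
    fun_prop
  obtain ⟨z, hz, n, hn, hmin⟩ := vp hD hy hcont (b := -(3 * c)) (σ := σ) (κ := c / 8) (by
    intro v hv
    have a1 := hnn v hv
    have a2 := h2' v hv
    rcases le_total ⟪m, v - y⟫_ℝ (-c) with h | h
    · have := hlow _ h; linarith
    rcases le_total ⟪m, v - y⟫_ℝ (5 * c) with h' | h'
    · have := hmid _ h h'; linarith
    · have := hhigh _ h'; linarith) hσ (by positivity)
  have hz0 : φ z - ψ ⟪m, z - y⟫_ℝ ≤ c / 8 := by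
    have := hmin y hy
    simp only [h0, sub_self, inner_zero_right, hψ, hub_mid (by linarith : -c ≤ 0) (by linarith)] at this
    simpa using this
  set s := ⟪m, z - y⟫_ℝ with hs
  have hs1 : -c < s := by
    by_contra h
    have := hlow s (not_lt.1 h)
    have := hnn z hz
    linarith
  have hs2 : s < 5 * c := by
    by_contra h
    have := hhigh s (not_lt.1 h)
    have := h2' z hz
    linarith
  have hr : ∀ v, ⟪m, v - y⟫_ℝ = s + ⟪m, v - z⟫_ℝ := by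
    intro v
    rw [hs, ← inner_add_right]; congr 1; abel
  refine ⟨z, hz, n + (1 / 4 + γ * (s + c)) • m, γ, min (s + c) (5 * c - s) / (‖m‖ + 1), hγ0.le,
    div_pos (lt_min (by linarith) (by linarith)) (by positivity), fun v hv => ?_, fun v hv hvd => ?_,
    ?_, ?_⟩
  · have a1 := hn v hv
    have a2 := mul_le_mul_of_nonneg_left (hub_tan (r := s + ⟪m, v - z⟫_ℝ) hc0 hs1.le hs2.le) hγ0.le
    simp only [hr v, hψ, hub_mid hs1.le hs2.le] at a1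
    rw [inner_add_left, inner_smul_left]
    simp only [conj_trivial]
    nlinarith
  · have a1 := hn v hv
    have a3 : |⟪m, v - z⟫_ℝ| ≤ min (s + c) (5 * c - s) := by
      refine (abs_real_inner_le_norm _ _).trans ?_
      rw [le_div_iff₀ (by positivity)] at hvd
      nlinarith [norm_nonneg (v - z)]
    rw [abs_le] at a3
    have a4 := min_le_left (s + c) (5 * c - s)
    have a5 := min_le_right (s + c) (5 * c - s)
    simp only [hr v, hψ, hub_mid hs1.le hs2.le,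
      hub_mid (r := s + ⟪m, v - z⟫_ℝ) (c := c) (by linarith) (by linarith)] at a1
    rw [inner_add_left, inner_smul_left]
    simp only [conj_trivial]
    nlinarith
  · have : γ * c ^ 2 = c * (γ * c) := by ring
    rw [this, hγc]; linarith
  · have a1 := h1 z hz
    have a2 := hmid s hs1.le hs2.le
    have a3 : c ≤ ‖m‖ * ‖d‖ := real_inner_le_norm _ _
    linarith

/-- contact points -/
def Ct (D : Set X) (F : X → ℝ) (θ : ℝ) (y l : X) : Prop :=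
  y ∈ D ∧ ∀ v ∈ D, F y + ⟪l, v - y⟫_ℝ ≤ F v + θ / 2 * ‖v - y‖ ^ 2

lemma nsq (v y z : X) : ‖v - y‖ ^ 2 = ‖v - z‖ ^ 2 + 2 * ⟪z - y, v - z⟫_ℝ + ‖z - y‖ ^ 2 := by
  rw [show v - y = (v - z) + (z - y) by abel, norm_add_sq_real, real_inner_comm]

lemma insplit (l v y z : X) : ⟪l, v - y⟫_ℝ = ⟪l, v - z⟫_ℝ + ⟪l, z - y⟫_ℝ := by
  rw [← inner_add_right]; congr 1; abel

lemma gain' [CompleteSpace X] {D : Set X} (hD : IsClosed D) {F : X → ℝ} (hF : Continuous F)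
    {θ : ℝ} (hθ : 0 < θ) {y l : X} (hy : Ct D F θ y l) (d m : X) {E : ℝ} (hE : 0 < E)
    (h2 : ∀ v ∈ D, ⟪m, v - y - d⟫_ℝ + E ≤ F v - F y - ⟪l, v - y⟫_ℝ + θ * ‖v - y‖ ^ 2) :
    ∃ (z n : X) (γ δ : ℝ), 0 ≤ γ ∧ 0 < δ ∧ Ct D F (3 * θ) z n ∧
      (∀ v ∈ D, ‖v - z‖ ≤ δ →
        F z + ⟪n, v - z⟫_ℝ + γ / 2 * ⟪m, v - z⟫_ℝ ^ 2 ≤ F v + 3 * θ / 2 * ‖v - z‖ ^ 2) ∧
      E / 12 ≤ γ * ⟪m, d⟫_ℝ ^ 2 ∧ θ * ‖z - y‖ ^ 2 ≤ 8 * (‖m‖ * ‖d‖) := by
  obtain ⟨z, hz, n, γ, δ, h1, h2, h3, h4, h5, h6⟩ := gain hD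
    (φ := fun v => F v - F y - ⟪l, v - y⟫_ℝ + θ * ‖v - y‖ ^ 2) (by fun_prop) hy.1 hθ (by simp)
    (fun v hv => by have := hy.2 v hv; linarith) d m hE h2 hθ
  refine ⟨z, n + l - (2 * θ) • (z - y), γ, δ, h1, h2, ⟨hz, fun v hv => ?_⟩, fun v hv hd => ?_, h5, h6⟩
  · have := h3 v hv
    rw [nsq v y z, insplit l v y z] at this
    rw [inner_sub_left, inner_add_left, inner_smul_left]
    simp only [conj_trivial]
    linarith
  · have := h4 v hv hd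
    rw [nsq v y z, insplit l v y z] at this
    rw [inner_sub_left, inner_add_left, inner_smul_left]
    simp only [conj_trivial]
    linarith

lemma advance [CompleteSpace X] {D : Set X} (hD : IsClosed D) {F : X → ℝ} (hF : Continuous F)
    {θ : ℝ} (hθ : 0 < θ) {y l : X} (hy : Ct D F θ y l) (d e : X) (hd : d ≠ 0) {M : ℝ} {v0 : X}
    (hv0 : v0 ∈ D)
    (h2 : F v0 - F y - ⟪l, v0 - y⟫_ℝ + θ * ‖v0 - y‖ ^ 2 <
      ⟪-(θ / 2) • e, v0 - y - d⟫_ℝ + M * θ * ‖d‖ ^ 2) :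
    ∃ z n : X, Ct D F (3 * θ) z n ∧ ‖e + (z - y - d)‖ ^ 2 ≤ ‖e‖ ^ 2 + (4 * M + 6) * ‖d‖ ^ 2 := by
  have hdn : 0 < ‖d‖ := norm_pos_iff.2 hd
  have hlow : ∀ v ∈ D, θ / 2 * (‖v - y‖ ^ 2 + ⟪e, v - y - d⟫_ℝ) ≤
      F v - F y - ⟪l, v - y⟫_ℝ + θ * ‖v - y‖ ^ 2 + θ / 2 * ⟪e, v - y - d⟫_ℝ := by
    intro v hv
    have := hy.2 v hv
    linarith
  obtain ⟨z, hz, n, hn, hmin⟩ := vp hD hv0
    (φ := fun v => F v - F y - ⟪l, v - y⟫_ℝ + θ * ‖v - y‖ ^ 2 + θ / 2 * ⟪e, v - y - d⟫_ℝ)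
    (by fun_prop) (b := θ / 2 * (-(‖e‖ ^ 2 + ‖e‖ * ‖d‖))) (σ := θ) (κ := θ * ‖d‖ ^ 2) (by
      intro v hv
      refine le_trans ?_ (hlow v hv)
      apply mul_le_mul_of_nonneg_left _ (by positivity)
      rw [inner_sub_right _ (v - y)]
      have a1 := abs_real_inner_le_norm e (v - y)
      have a2 := real_inner_le_norm e d
      rw [abs_le] at a1
      nlinarith [sq_nonneg (‖v - y‖ - ‖e‖), mul_nonneg (norm_nonneg e) (norm_nonneg (v - y))])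
    hθ (by positivity)
  refine ⟨z, n + l - (2 * θ) • (z - y) - (θ / 2) • e, ⟨hz, fun v hv => ?_⟩, ?_⟩
  · have := hn v hv
    have e1 : ⟪e, v - y - d⟫_ℝ = ⟪e, v - z⟫_ℝ + ⟪e, z - y - d⟫_ℝ := by
      rw [← inner_add_right]; congr 1; abel
    rw [nsq v y z, insplit l v y z, e1] at this
    rw [inner_sub_left, inner_sub_left, inner_add_left, inner_smul_left, inner_smul_left]
    simp only [conj_trivial]
    linarith
  · have a1 := hmin v0 hv0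
    have a2 := hlow z hz
    rw [inner_smul_left] at h2
    simp only [conj_trivial] at h2
    have a3 : θ / 2 * (‖z - y‖ ^ 2 + ⟪e, z - y - d⟫_ℝ) ≤ θ / 2 * (2 * (M + 1) * ‖d‖ ^ 2) := by
      linarith
    have a4 := le_of_mul_le_mul_left a3 (by positivity)
    have a5 : ‖z - y - d‖ ^ 2 ≤ 2 * ‖z - y‖ ^ 2 + 2 * ‖d‖ ^ 2 := by
      have := norm_sub_le (z - y) d
      nlinarith [norm_nonneg (z - y - d), sq_nonneg (‖z - y‖ - ‖d‖)]
    rw [norm_add_sq_real]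
    linarith

/-- existence of a gain -/
def Gain (D : Set X) (F : X → ℝ) (k : X) (M τ R : ℝ) : Prop :=
  ∃ (θ : ℝ) (z n m : X) (γ δ : ℝ), τ ≤ θ ∧ 0 ≤ γ ∧ 0 < δ ∧ Ct D F (3 * θ) z n ∧
    (∀ v ∈ D, ‖v - z‖ ≤ δ →
      F z + ⟪n, v - z⟫_ℝ + γ / 2 * ⟪m, v - z⟫_ℝ ^ 2 ≤ F v + 3 * θ / 2 * ‖v - z‖ ^ 2) ∧
    M * θ * ‖k‖ ^ 2 / 12 ≤ γ * ⟪m, k⟫_ℝ ^ 2 ∧ ‖z‖ ≤ R * ‖k‖

lemma walk [CompleteSpace X] {D : Set X} (hD : IsClosed D) {F : X → ℝ} (hF : Continuous F)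
    {M τ R : ℝ} (hM : 0 < M) (hτ : 0 < τ) (hR : 4 ≤ R) {N : ℕ} (hN : 4 * M + 6 ≤ N) {k : X}
    (hk : k ≠ 0) (h0 : Ct D F τ 0 0) (hng : ¬ Gain D F k M τ R) (j : ℕ) (hj : j ≤ N) :
    ∃ y l : X, Ct D F (3 ^ j * τ) y l ∧
      ‖y - ((j : ℝ) / N) • k‖ ^ 2 ≤ j * ((4 * M + 6) * (‖k‖ / N) ^ 2) := by
  have hN0 : (0 : ℝ) < N := by linarith
  have hkn : 0 < ‖k‖ := norm_pos_iff.2 hk
  induction j with
  | zero => exact ⟨0, 0, by simpa using h0, by simp⟩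
  | succ j ih =>
    obtain ⟨y, l, hy, he⟩ := ih (by omega)
    have hjN : (j : ℝ) ≤ N := by exact_mod_cast (by omega : j ≤ N)
    set e := y - ((j : ℝ) / N) • k with hedef
    set d := (1 / (N : ℝ)) • k with hd
    have hdn : ‖d‖ = ‖k‖ / N := by
      rw [hd, norm_smul, Real.norm_of_nonneg (by positivity)]; ring
    have hd0 : d ≠ 0 := by rw [← norm_pos_iff, hdn]; positivity
    have hθ : 0 < 3 ^ j * τ := by positivity
    by_cases h : ∀ v ∈ D, ⟪-(3 ^ j * τ / 2) • e, v - y - d⟫_ℝ + M * (3 ^ j * τ) * ‖d‖ ^ 2 ≤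
        F v - F y - ⟪l, v - y⟫_ℝ + 3 ^ j * τ * ‖v - y‖ ^ 2
    · exfalso
      obtain ⟨z, n, γ, δ, h1, h2, h3, h4, h5, h6⟩ := gain' hD hF hθ hy d _
        (by rw [hdn]; positivity) h
      have he1 : ‖e‖ ≤ ‖k‖ := by
        refine le_of_sq_le_sq (he.trans ?_) hkn.le
        calc (j : ℝ) * ((4 * M + 6) * (‖k‖ / N) ^ 2) ≤ N * (N * (‖k‖ / N) ^ 2) := by gcongr
          _ = ‖k‖ ^ 2 := by field_simp
      have hy2 : ‖y‖ ≤ 2 * ‖k‖ := by
        have : y = e + ((j : ℝ) / N) • k := by rw [hedef]; abel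
        rw [this]
        refine (norm_add_le _ _).trans ?_
        rw [norm_smul, Real.norm_of_nonneg (by positivity)]
        have : (j : ℝ) / N ≤ 1 := (div_le_one hN0).2 hjN
        nlinarith
      have hz2 : ‖z - y‖ ≤ 2 * ‖k‖ := by
        refine le_of_sq_le_sq ?_ (by positivity)
        rw [norm_smul, Real.norm_eq_abs, abs_neg, abs_of_pos (by positivity), hdn] at h6
        have a1 : ‖k‖ / N ≤ ‖k‖ := div_le_self hkn.le (by linarith)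
        have a2 : ‖e‖ * (‖k‖ / N) ≤ ‖k‖ * ‖k‖ := by gcongr
        have a3 : 3 ^ j * τ * ‖z - y‖ ^ 2 ≤ 3 ^ j * τ * (2 * ‖k‖) ^ 2 := by
          have := mul_le_mul_of_nonneg_left a2 hθ.le
          nlinarith
        exact le_of_mul_le_mul_left a3 hθ
      refine hng ⟨3 ^ j * τ, z, n, _, γ, δ, ?_, h1, h2, h3, h4, ?_, ?_⟩
      · exact le_mul_of_one_le_left hτ.le (one_le_pow₀ (by norm_num))
      · rw [hdn, hd, inner_smul_right] at h5
        have := mul_le_mul_of_nonneg_left h5 (sq_nonneg (N : ℝ))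
        calc _ = (N : ℝ) ^ 2 * (M * (3 ^ j * τ) * (‖k‖ / N) ^ 2 / 12) := by field_simp
          _ ≤ _ := this
          _ = _ := by field_simp
      · have : ‖z‖ ≤ ‖z - y‖ + ‖y‖ := by simpa using norm_add_le (z - y) y
        nlinarith
    · push Not at h
      obtain ⟨v0, hv0, h⟩ := h
      obtain ⟨z, n, h1, h2⟩ := advance hD hF hθ hy d e hd0 hv0 h
      refine ⟨z, n, by rwa [pow_succ, mul_comm _ 3, mul_assoc], ?_⟩
      have : z - (((j + 1 : ℕ) : ℝ) / N) • k = e + (z - y - d) := by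
        rw [hedef, hd]; push_cast; rw [add_div, add_smul]; abel
      rw [this]
      rw [hdn] at h2
      push_cast
      linarith

lemma key [CompleteSpace X] {K η M : ℝ} (hK : 1 ≤ K) (hη : 0 < η) (hM : 0 < M) :
    ∃ τ R : ℝ, 0 < τ ∧ 0 < R ∧ ∀ (D : Set X) (F : X → ℝ) (k : X), IsClosed D → Continuous F → k ≠ 0 →
      (∀ v, ‖v‖ ≤ 3 * ‖k‖ → v ∈ D) → (∀ v ∈ D, 0 ≤ F v) → F 0 = 0 →
      (∀ v, F v ≤ K / 2 * ‖v‖ ^ 2) → (∀ y w, F (y + w) + F (y - w) ≤ 2 * F y + K * ‖w‖ ^ 2) →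
      η / 2 * ‖k‖ ^ 2 ≤ F k → Gain D F k M τ R := by
  set lam := min 1 (η / (60 * K)) with hlam
  have hl0 : 0 < lam := lt_min one_pos (by positivity)
  have hl1 : lam ≤ 1 := min_le_left _ _
  have hl2 : lam * (60 * K) ≤ η := by
    rw [← le_div_iff₀ (by positivity)]; exact min_le_right _ _
  obtain ⟨N, hN⟩ := exists_nat_ge ((4 * M + 6) / lam ^ 2)
  have hN1 : 4 * M + 6 ≤ N * lam ^ 2 := by rwa [div_le_iff₀ (by positivity)] at hN
  have hN2 : 4 * M + 6 ≤ N := hN1.trans (mul_le_of_le_one_right (by positivity) (by nlinarith))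
  have hN0 : (0 : ℝ) < N := by linarith
  set θ := min 1 (η / (16 * M)) with hθ
  have hθ0 : 0 < θ := lt_min one_pos (by positivity)
  have hθ1 : θ ≤ 1 := min_le_left _ _
  have hθ2 : θ * (16 * M) ≤ η := by
    rw [← le_div_iff₀ (by positivity)]; exact min_le_right _ _
  refine ⟨θ / 3 ^ N, 4 + 56 * K / θ, by positivity, by positivity,
    fun D F k hD hF hk hball hnn h0 hup hmid hdef => ?_⟩
  by_contra hng
  have hkn : 0 < ‖k‖ := norm_pos_iff.2 hk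
  have h0D : (0 : X) ∈ D := hball 0 (by simp)
  have hc0 : ∀ t, 0 ≤ t → Ct D F t 0 0 := fun t ht => ⟨h0D, fun v hv => by
    have := hnn v hv
    have h2 : 0 ≤ t / 2 * ‖v - 0‖ ^ 2 := by positivity
    rw [h0, inner_zero_left]
    linarith⟩
  obtain ⟨y, l, hy, he⟩ := walk hD hF hM (by positivity)
    (le_add_of_nonneg_right (by positivity)) hN2 hk (hc0 _ (by positivity)) hng N le_rfl
  rw [mul_div_cancel₀ _ (by positivity)] at hy
  rw [div_self hN0.ne', one_smul] at he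
  have he1 : ‖y - k‖ ≤ lam * ‖k‖ := by
    refine le_of_sq_le_sq (he.trans ?_) (by positivity)
    calc (N : ℝ) * ((4 * M + 6) * (‖k‖ / N) ^ 2) ≤ N * (N * lam ^ 2 * (‖k‖ / N) ^ 2) := by gcongr
      _ = (lam * ‖k‖) ^ 2 := by field_simp
  have he2 : ‖y - k‖ ≤ ‖k‖ := he1.trans (mul_le_of_le_one_left hkn.le hl1)
  have hy2 : ‖y‖ ≤ 2 * ‖k‖ := by
    have : ‖y‖ ≤ ‖y - k‖ + ‖k‖ := by simpa using norm_add_le (y - k) k
    linarith
  have hl : ‖l‖ ≤ 5 * K * ‖k‖ := by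
    rcases eq_or_ne l 0 with h | h
    · rw [h, norm_zero]; positivity
    have hln : 0 < ‖l‖ := norm_pos_iff.2 h
    have hn : ‖(‖k‖ / ‖l‖) • l‖ = ‖k‖ := by
      rw [norm_smul, Real.norm_of_nonneg (by positivity)]; field_simp
    have hv : ‖y + (‖k‖ / ‖l‖) • l‖ ≤ 3 * ‖k‖ := (norm_add_le _ _).trans (by linarith)
    have a1 := hy.2 _ (hball _ hv)
    rw [add_sub_cancel_left, hn, inner_smul_right, real_inner_self_eq_norm_sq] at a1
    have a2 := hup (y + (‖k‖ / ‖l‖) • l)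
    have a3 : ‖y + (‖k‖ / ‖l‖) • l‖ ^ 2 ≤ (3 * ‖k‖) ^ 2 := by gcongr
    have a4 := hnn y hy.1
    have a5 : ‖k‖ / ‖l‖ * ‖l‖ ^ 2 = ‖k‖ * ‖l‖ := by field_simp
    have a6 : K / 2 * ‖y + (‖k‖ / ‖l‖) • l‖ ^ 2 ≤ K / 2 * (3 * ‖k‖) ^ 2 := by gcongr
    have a7 : θ / 2 * ‖k‖ ^ 2 ≤ K / 2 * ‖k‖ ^ 2 := by gcongr; linarith
    have a8 : ‖k‖ * ‖l‖ ≤ ‖k‖ * (5 * K * ‖k‖) := by nlinarith
    exact le_of_mul_le_mul_left a8 hkn
  have hm : ‖l + θ • y‖ ≤ 7 * K * ‖k‖ := by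
    refine (norm_add_le _ _).trans ?_
    rw [norm_smul, Real.norm_of_nonneg hθ0.le]
    have : θ * ‖y‖ ≤ K * (2 * ‖k‖) := by gcongr; linarith
    linarith
  set m := l + θ • y with hmdef
  by_cases hE : M * θ * ‖k‖ ^ 2 ≤ F y + ⟪m, k - y⟫_ℝ
  · obtain ⟨z, n, γ, δ, h1, h2, h3, h4, h5, h6⟩ := gain' hD hF hθ0 (hc0 θ hθ0.le) k m
      (E := M * θ * ‖k‖ ^ 2) (by positivity) (by
        intro v hv
        have a1 := hy.2 v hv
        have a2 : ⟪m, v - 0 - k⟫_ℝ = ⟪m, v - y⟫_ℝ - ⟪m, k - y⟫_ℝ := by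
          rw [← inner_sub_right]; congr 1; abel
        have a3 : ⟪m, v - y⟫_ℝ = ⟪l, v - y⟫_ℝ + θ * ⟪y, v - y⟫_ℝ := by
          rw [hmdef, inner_add_left, inner_smul_left]; simp
        have a4 := nsq v 0 y
        simp only [sub_zero] at a4
        rw [a2, a3, h0, inner_zero_left, sub_zero, sub_zero, sub_zero]
        have a5 : θ * ‖v‖ ^ 2 = θ / 2 * ‖v‖ ^ 2 + θ / 2 * (‖v - y‖ ^ 2 + 2 * ⟪y, v - y⟫_ℝ + ‖y‖ ^ 2) := by
          rw [← a4]; ring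
        have a6 : 0 ≤ θ / 2 * ‖v‖ ^ 2 := by positivity
        have a7 : 0 ≤ θ / 2 * ‖y‖ ^ 2 := by positivity
        linarith)
    refine hng ⟨θ, z, n, m, γ, δ, div_le_self hθ0.le (one_le_pow₀ (by norm_num)), h1, h2, h3, h4, h5, ?_⟩
    rw [sub_zero] at h6
    refine le_of_sq_le_sq ?_ (by positivity)
    have a1 : θ * ‖z‖ ^ 2 ≤ θ * (56 * K / θ * ‖k‖ ^ 2) := by
      have : ‖m‖ * ‖k‖ ≤ 7 * K * ‖k‖ * ‖k‖ := by gcongr
      have e : θ * (56 * K / θ * ‖k‖ ^ 2) = 8 * (7 * K * ‖k‖ * ‖k‖) := by field_simp; ring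
      linarith
    refine (le_of_mul_le_mul_left a1 hθ0).trans ?_
    rw [mul_pow]
    have : 0 < 56 * K / θ := by positivity
    gcongr
    nlinarith
  · push Not at hE
    have a1 := hmid y (k - y)
    rw [add_sub_cancel] at a1
    have a2 := hnn (y - (k - y)) (hball _ (by
      refine (norm_sub_le _ _).trans ?_
      rw [norm_sub_rev]; linarith))
    have a3 := abs_real_inner_le_norm m (k - y)
    rw [abs_le, norm_sub_rev] at a3
    rw [norm_sub_rev] at a1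
    have a4 : ‖m‖ * ‖y - k‖ ≤ 7 * K * ‖k‖ * (lam * ‖k‖) := by gcongr
    have a5 : K * ‖y - k‖ ^ 2 ≤ K * (lam * ‖k‖ * ‖k‖) := by
      rw [sq]; gcongr
    have a6 : lam * (60 * K) * ‖k‖ ^ 2 ≤ η * ‖k‖ ^ 2 := by gcongr
    have a7 : θ * (16 * M) * ‖k‖ ^ 2 ≤ η * ‖k‖ ^ 2 := by gcongr
    have a8 : 0 < η * ‖k‖ ^ 2 := by positivity
    nlinarith

end
end Pool.Agent.H2.Alex
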