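import Mathlib
import Pool.Agent.H2.Alex2

set_option autoImplicit false

namespace Pool.Agent.H2.Alex

open Filter Topology Finset TopologicalSpace
open scoped InnerProductSpace

noncomputable section

variable {X : Type} [NormedAddCommGroup X] [InnerProductSpace ℝ X]

abbrev Bil (X : Type) [NormedAddCommGroup X] [InnerProductSpace ℝ X] := X →L[ℝ] X →L[ℝ] ℝ

def II : Bil X := innerSL ℝ

@[simp] lemma II_apply (u v : X) : (II : Bil X) u v = ⟪u, v⟫_ℝ := rfl

lemma subgrad {f : X → ℝ} (hf : ConvexOn ℝ Set.univ f) {x : X} {p : X →L[ℝ] ℝ} {r C : ℝ}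
    (hr : 0 < r) (h : ∀ v, ‖v‖ ≤ r → f (x + v) ≤ f x + p v + C * ‖v‖ ^ 2) (v : X) :
    f x + p v ≤ f (x + v) := by
  have key : ∀ t : ℝ, 0 < t → t * ‖v‖ ≤ r → f x + p v ≤ f (x + v) + t * (C * ‖v‖ ^ 2) := by
    intro t ht htr
    have a1 := h (-t • v) (by rwa [norm_smul, norm_neg, Real.norm_of_nonneg ht.le])
    have a2 := hf.2 (Set.mem_univ (x + -t • v)) (Set.mem_univ (x + v))
      (by positivity : 0 ≤ 1 / (1 + t)) (by positivity : 0 ≤ t / (1 + t)) (by field_simp)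
    have e : (1 / (1 + t)) • (x + -t • v) + (t / (1 + t)) • (x + v) = x := by
      have h1 : (1 + t) ≠ 0 := by positivity
      rw [smul_add, smul_add, smul_smul, add_add_add_comm, ← add_smul, ← add_smul]
      rw [show 1 / (1 + t) + t / (1 + t) = 1 by field_simp,
        show 1 / (1 + t) * -t + t / (1 + t) = 0 by field_simp; ring]
      simp
    rw [e, smul_eq_mul, smul_eq_mul] at a2
    rw [norm_smul, norm_neg, Real.norm_of_nonneg ht.le, map_smul, smul_eq_mul] at a1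
    have a3 : (1 + t) * f x ≤ f (x + -t • v) + t * f (x + v) := by
      have := mul_le_mul_of_nonneg_left a2 (by positivity : 0 ≤ 1 + t)
      calc _ ≤ _ := this
        _ = _ := by field_simp
    have a4 : t * (f x + p v) ≤ t * (f (x + v) + t * (C * ‖v‖ ^ 2)) := by nlinarith
    exact le_of_mul_le_mul_left a4 ht
  have ht : Tendsto (fun t : ℝ => f (x + v) + t * (C * ‖v‖ ^ 2)) (𝓝[>] 0) (𝓝 (f (x + v))) := by
    have : Continuous (fun t : ℝ => f (x + v) + t * (C * ‖v‖ ^ 2)) := by fun_prop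
    simpa using (this.tendsto 0).mono_left nhdsWithin_le_nhds
  refine ge_of_tendsto ht ?_
  have h2 : ∀ᶠ t : ℝ in 𝓝 0, t * ‖v‖ ≤ r := by
    have : Continuous (fun t : ℝ => t * ‖v‖) := by fun_prop
    exact (this.continuousAt.eventually_lt continuousAt_const (by simpa using hr)).mono fun _ h => h.le
  filter_upwards [self_mem_nhdsWithin, nhdsWithin_le_nhds h2] with t h1 h2
  exact key t h1 h2

lemma bil_bound (T : Bil X) (hs : ∀ u v, T u v = T v u) (h0 : ∀ v, 0 ≤ T v v) {K : ℝ}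
    (hK : ∀ v, T v v ≤ K * ‖v‖ ^ 2) (u v : X) : T u v ≤ K * (‖u‖ * ‖v‖) := by
  rcases eq_or_ne u 0 with rfl | hu
  · simp
  rcases eq_or_ne v 0 with rfl | hv
  · simp
  have hu' := norm_pos_iff.2 hu
  have hv' := norm_pos_iff.2 hv
  have a1 := h0 (‖v‖ • u - ‖u‖ • v)
  simp only [map_sub, map_smul, ContinuousLinearMap.sub_apply, ContinuousLinearMap.smul_apply,
    smul_eq_mul, hs v u] at a1
  have a2 := mul_le_mul_of_nonneg_left (hK u) (sq_nonneg ‖v‖)
  have a3 := mul_le_mul_of_nonneg_left (hK v) (sq_nonneg ‖u‖)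
  have a4 : (‖u‖ * ‖v‖) * T u v ≤ (‖u‖ * ‖v‖) * (K * (‖u‖ * ‖v‖)) := by nlinarith
  exact le_of_mul_le_mul_left a4 (by positivity)

lemma grad_bound {f : X → ℝ} {x x' : X} {p p' : X →L[ℝ] ℝ} {r K : ℝ} (hr : 0 < r) (hK : 0 ≤ K)
    (h : ∀ v, ‖v‖ ≤ r → f (x + v) ≤ f x + p v + K / 2 * ‖v‖ ^ 2)
    (hp : ∀ v, f x + p v ≤ f (x + v)) (hp' : ∀ v, f x' + p' v ≤ f (x' + v))
    (hd : 2 * ‖x' - x‖ ≤ r) (u : X) : p' u - p u ≤ 2 * K * ‖x' - x‖ * ‖u‖ := by
  have key : ∀ w, ‖x' - x‖ + ‖w‖ ≤ r → p' w - p w ≤ K / 2 * (‖x' - x‖ + ‖w‖) ^ 2 := by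
    intro w hw
    have a0 := norm_add_le (x' - x) w
    have a1 := h (x' - x + w) (a0.trans hw)
    have a2 := hp (x' - x)
    have a3 := hp' w
    rw [← add_assoc, add_sub_cancel, map_add] at a1
    rw [add_sub_cancel] at a2
    have a4 : K / 2 * ‖x' - x + w‖ ^ 2 ≤ K / 2 * (‖x' - x‖ + ‖w‖) ^ 2 := by gcongr
    linarith
  rcases eq_or_ne u 0 with rfl | hu
  · simp
  have hu' := norm_pos_iff.2 hu
  rcases eq_or_lt_of_le (norm_nonneg (x' - x)) with hd0 | hd0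
  · rw [← hd0] at key ⊢
    have ht : Tendsto (fun t : ℝ => t * (K / 2 * ‖u‖ ^ 2)) (𝓝[>] 0) (𝓝 0) := by
      have : Continuous (fun t : ℝ => t * (K / 2 * ‖u‖ ^ 2)) := by fun_prop
      simpa using (this.tendsto 0).mono_left nhdsWithin_le_nhds
    rw [mul_zero, zero_mul]
    refine ge_of_tendsto ht ?_
    have h2 : ∀ᶠ t : ℝ in 𝓝 0, t * ‖u‖ ≤ r := by
      have : Continuous (fun t : ℝ => t * ‖u‖) := by fun_prop
      exact (this.continuousAt.eventually_lt continuousAt_const (by simpa using hr)).mono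
        fun _ h => h.le
    filter_upwards [self_mem_nhdsWithin, nhdsWithin_le_nhds h2] with t h1 h2
    have h1 : 0 < t := h1
    have := key (t • u) (by rwa [norm_smul, Real.norm_of_nonneg h1.le, zero_add])
    rw [norm_smul, Real.norm_of_nonneg h1.le, map_smul, map_smul, smul_eq_mul, smul_eq_mul] at this
    have a4 : t * (p' u - p u) ≤ t * (t * (K / 2 * ‖u‖ ^ 2)) := by nlinarith
    exact le_of_mul_le_mul_left a4 h1
  · have hn : ‖(‖x' - x‖ / ‖u‖) • u‖ = ‖x' - x‖ := by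
      rw [norm_smul, Real.norm_of_nonneg (by positivity)]; field_simp
    have := key ((‖x' - x‖ / ‖u‖) • u) (by rw [hn]; linarith)
    rw [hn, map_smul, map_smul, smul_eq_mul, smul_eq_mul] at this
    have a4 : ‖x' - x‖ / ‖u‖ * (p' u - p u) ≤ ‖x' - x‖ / ‖u‖ * (2 * K * ‖x' - x‖ * ‖u‖) := by
      have e : ‖x' - x‖ / ‖u‖ * (2 * K * ‖x' - x‖ * ‖u‖) = K / 2 * (‖x' - x‖ + ‖x' - x‖) ^ 2 := by
        field_simp; ring
      rw [e]; linarith
    exact le_of_mul_le_mul_left a4 (by positivity)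

variable [SeparableSpace X]

def hh (X : Type) [NormedAddCommGroup X] [SeparableSpace X] : ℕ → X := @denseSeq X _ _ ⟨0⟩

def ww (X : Type) [NormedAddCommGroup X] [SeparableSpace X] (n : ℕ) : ℝ :=
  1 / 2 / 2 ^ n / (1 + ‖hh X n‖ ^ 2)

omit [InnerProductSpace ℝ X] in
lemma ww_pos (n : ℕ) : 0 < ww X n := by unfold ww; positivity

omit [InnerProductSpace ℝ X] in
lemma ww_le (n : ℕ) : ww X n * ‖hh X n‖ ^ 2 ≤ 1 / 2 / 2 ^ n := by
  unfold ww
  rw [div_mul_eq_mul_div, div_le_iff₀ (by positivity)]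
  gcongr
  linarith

def Phi (T : Bil X) : ℝ := ∑' n, ww X n * T (hh X n) (hh X n)

lemma Phi_summ (T : Bil X) : Summable (fun n => ww X n * T (hh X n) (hh X n)) := by
  refine Summable.of_norm_bounded ((hasSum_geometric_two' 1).summable.mul_left ‖T‖) fun n => ?_
  rw [norm_mul, Real.norm_of_nonneg (ww_pos n).le]
  have a1 := T.le_opNorm₂ (hh X n) (hh X n)
  have a2 := ww_le (X := X) n
  have a3 := ww_pos (X := X) n
  calc ww X n * ‖T (hh X n) (hh X n)‖ ≤ ww X n * (‖T‖ * ‖hh X n‖ * ‖hh X n‖) := by gcongr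
    _ = ‖T‖ * (ww X n * ‖hh X n‖ ^ 2) := by ring
    _ ≤ _ := by gcongr

lemma Phi_nonneg {T : Bil X} (h : ∀ v, 0 ≤ T v v) : 0 ≤ Phi T :=
  tsum_nonneg fun n => mul_nonneg (ww_pos n).le (h _)

lemma Phi_le {T T' : Bil X} {θ γ : ℝ} (hθ : 0 ≤ θ) (hγ : 0 ≤ γ) {m : X}
    (h : ∀ v, T' v v ≤ T v v + θ * ‖v‖ ^ 2 - γ * ⟪m, v⟫_ℝ ^ 2) (n : ℕ) :
    Phi T' ≤ Phi T + θ - γ * (ww X n * ⟪m, hh X n⟫_ℝ ^ 2) := by
  have s1 := ((Phi_summ T).hasSum.add ((hasSum_geometric_two' 1).mul_left θ)).sub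
    (hasSum_ite_eq n (γ * (ww X n * ⟪m, hh X n⟫_ℝ ^ 2)))
  have := hasSum_le (fun i => ?_) (Phi_summ T').hasSum s1
  · simpa [Phi] using this
  have a1 := mul_le_mul_of_nonneg_left (h (hh X i)) (ww_pos (X := X) i).le
  have a2 := mul_le_mul_of_nonneg_left (ww_le (X := X) i) hθ
  have a3 : 0 ≤ γ * (ww X i * ⟪m, hh X i⟫_ℝ ^ 2) := by have := ww_pos (X := X) i; positivity
  split_ifs with hi
  · subst hi; nlinarith
  · nlinarith

structure St (X : Type) [NormedAddCommGroup X] [InnerProductSpace ℝ X] where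
  x : X
  p : X →L[ℝ] ℝ
  T : Bil X
  δ : ℝ

def Sup (f : X → ℝ) (x : X) (p : X →L[ℝ] ℝ) (T : Bil X) (β : ℝ) (c : X) (δ : ℝ) : Prop :=
  ∀ v, ‖x + v - c‖ ≤ δ → f (x + v) ≤ f x + p v + (T v v + β * ‖v‖ ^ 2) / 2

def Good (f : X → ℝ) (K : ℝ) (s : St X) : Prop :=
  0 < s.δ ∧ (∀ u v, s.T u v = s.T v u) ∧ Sup f s.x s.p s.T 0 s.x s.δ ∧
    ∀ v, s.T v v + Phi s.T * ‖v‖ ^ 2 ≤ K * ‖v‖ ^ 2

def Rel (f : X → ℝ) (K : ℝ) (s s' : St X) : Prop :=
  0 ≤ Phi s.T - Phi s'.T ∧ Phi s.T - Phi s'.T ≤ K ∧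
    (∀ v, s'.T v v ≤ s.T v v + (Phi s.T - Phi s'.T) * ‖v‖ ^ 2) ∧
    Sup f s'.x s'.p s.T (Phi s.T - Phi s'.T) s.x s.δ ∧
    16 * K * ‖s'.x - s.x‖ ≤ (Phi s.T - Phi s'.T) * s.δ ∧ s'.δ ≤ s.δ

section
variable {f : X → ℝ} (hf : ConvexOn ℝ Set.univ f) {K : ℝ}
include hf

lemma Good.sub {s : St X} (h : Good f K s) (v : X) : f s.x + s.p v ≤ f (s.x + v) := by
  refine subgrad hf h.1 (C := ‖s.T‖ / 2) (fun v hv => ?_) v
  have a1 := h.2.2.1 v (by simpa using hv)
  have a2 := s.T.le_opNorm₂ v v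
  have a3 := le_abs_self (s.T v v)
  rw [Real.norm_eq_abs] at a2
  nlinarith

lemma Good.nonneg {s : St X} (h : Good f K s) (v : X) : 0 ≤ s.T v v := by
  rcases eq_or_ne v 0 with rfl | hv
  · simp
  have hv' := norm_pos_iff.2 hv
  have hδ := h.1
  have a1 := h.2.2.1 ((s.δ / ‖v‖) • v) (by
    rw [add_sub_cancel_left, norm_smul, Real.norm_of_nonneg (by positivity)]
    exact le_of_eq (by field_simp))
  have a2 := h.sub hf ((s.δ / ‖v‖) • v)
  simp only [map_smul, ContinuousLinearMap.smul_apply, smul_eq_mul] at a1 a2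
  have a3 : 0 ≤ (s.δ / ‖v‖) * ((s.δ / ‖v‖) * s.T v v) := by linarith
  have a4 : 0 < s.δ / ‖v‖ := by positivity
  exact nonneg_of_mul_nonneg_right (nonneg_of_mul_nonneg_right a3 a4) a4

lemma Good.phi {s : St X} (h : Good f K s) : 0 ≤ Phi s.T := Phi_nonneg (h.nonneg hf)

lemma Good.le {s : St X} (h : Good f K s) (v : X) : s.T v v ≤ K * ‖v‖ ^ 2 := by
  have := h.2.2.2 v
  have h2 : 0 ≤ Phi s.T * ‖v‖ ^ 2 := by have := h.phi hf; positivity
  linarith

lemma Good.phi_le (hK : 1 ≤ K) {s : St X} (h : Good f K s) : Phi s.T ≤ K := by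
  have := Phi_le (T := (0 : Bil X)) (T' := s.T) (θ := K) (γ := 0)
    (m := 0) (by linarith) le_rfl (fun v => by simpa using h.le hf v) 0
  simpa [Phi] using this

lemma Good.grad (hK : 1 ≤ K) {s s' : St X} (h : Good f K s) (h' : Good f K s') (hr : Rel f K s s')
    (u : X) : s'.p u - s.p u ≤ 2 * K * ‖s'.x - s.x‖ * ‖u‖ := by
  refine grad_bound h.1 (by linarith) (fun v hv => ?_) (h.sub hf) (h'.sub hf) ?_ u
  · have a1 := h.2.2.1 v (by simpa using hv)
    have a2 := h.le hf v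
    linarith
  · have a1 := hr.2.2.2.2.1
    have a2 := mul_le_mul_of_nonneg_right hr.2.1 h.1.le
    have a3 : K * (16 * ‖s'.x - s.x‖) ≤ K * s.δ := by linarith
    have := le_of_mul_le_mul_left a3 (by linarith)
    linarith [norm_nonneg (s'.x - s.x)]

omit hf in
lemma Rel.rfl' (hK : 1 ≤ K) {s : St X} (h : Good f K s) : Rel f K s s := by
  refine ⟨by simp, by simp; linarith, by simp, by simpa using h.2.2.1, by simp, le_rfl⟩

lemma Rel.trans' (hK : 1 ≤ K) {s s' s'' : St X}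
    (h : Good f K s) (h' : Good f K s') (h'' : Good f K s'') (r : Rel f K s s') (r' : Rel f K s' s'') :
    Rel f K s s'' := by
  have g := h'.grad hf hK h'' r'
  obtain ⟨r1, r2, r3, r4, r5, r6⟩ := r
  obtain ⟨q1, q2, q3, q4, q5, q6⟩ := r'
  refine ⟨by linarith, by linarith [h.phi_le hf hK, h''.phi hf], fun v => by linarith [r3 v, q3 v], ?_, ?_,
    q6.trans r6⟩
  · intro v hv
    by_cases hc : ‖s''.x + v - s'.x‖ ≤ s'.δ
    · have := q4 v hc
      linarith [r3 v]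
    push Not at hc
    set d := s''.x - s'.x with hd
    have e1 : s''.x + v = s'.x + (d + v) := by rw [hd]; abel
    have e2 : s''.x = s'.x + d := by rw [hd]; abel
    have a1 := r4 (d + v) (by rwa [← e1])
    have a2 := h'.sub hf d
    rw [← e2] at a2
    rw [← e1] at a1
    have a3 := g (-v)
    rw [map_neg, map_neg, norm_neg] at a3
    have a4 := bil_bound s.T h.2.1 (h.nonneg hf) (h.le hf) d v
    have a5 := real_inner_le_norm d v
    have a6 := h.2.2.2 d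
    have a7 : 16 * ‖d‖ ≤ s'.δ := by
      have a2 := mul_le_mul_of_nonneg_right q2 h'.1.le
      have a3 : K * (16 * ‖d‖) ≤ K * s'.δ := by linarith
      exact le_of_mul_le_mul_left a3 (by linarith)
    have a8 : s'.δ ≤ ‖d‖ + ‖v‖ := by
      rw [show s''.x + v - s'.x = d + v by rw [hd]; abel] at hc
      exact hc.le.trans (norm_add_le _ _)
    simp only [map_add, ContinuousLinearMap.add_apply, h.2.1 v d, norm_add_sq_real] at a1
    have hd0 := norm_nonneg d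
    have hv0 := norm_nonneg v
    have b1 : (Phi s.T - Phi s'.T) * ⟪d, v⟫_ℝ ≤ K * (‖d‖ * ‖v‖) :=
      (mul_le_mul_of_nonneg_left a5 r1).trans (by gcongr)
    have b2 : (Phi s.T - Phi s'.T) * ‖d‖ ^ 2 ≤ Phi s.T * ‖d‖ ^ 2 := by
      gcongr; linarith [h'.phi hf]
    have b3 : K * ‖d‖ ^ 2 ≤ K * (‖d‖ * ‖v‖) := by
      rw [sq]; gcongr; linarith
    have b4 : 16 * K * ‖d‖ * ‖v‖ ≤ (Phi s'.T - Phi s''.T) * s'.δ * ‖v‖ := by gcongr
    have b5 : (Phi s'.T - Phi s''.T) * s'.δ * ‖v‖ ≤ (Phi s'.T - Phi s''.T) * (16 / 15 * ‖v‖) * ‖v‖ := by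
      gcongr; linarith
    have b6 : 0 ≤ K * (‖d‖ * ‖v‖) := by positivity
    nlinarith
  · have a1 : ‖s''.x - s.x‖ ≤ ‖s''.x - s'.x‖ + ‖s'.x - s.x‖ := norm_sub_le_norm_sub_add_norm_sub _ _ _
    have a2 := mul_le_mul_of_nonneg_left r6 q1
    have a3 := mul_le_mul_of_nonneg_left a1 (by linarith : 0 ≤ 16 * K)
    linarith

end

lemma exists_good [CompleteSpace X] {f : X → ℝ} (hc : Continuous f) :
    ∃ K : ℝ, 1 ≤ K ∧ ∃ s : St X, Good f K s := by
  obtain ⟨r0, hr0, h0⟩ := Metric.continuousAt_iff.1 (hc.continuousAt (x := 0)) 1 one_pos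
  set r := r0 / 2 with hr
  have hrp : 0 < r := by positivity
  have h1 : ∀ v : X, ‖v‖ ≤ r → f v ≤ f 0 + 1 := by
    intro v hv
    have := h0 (x := v) (by rw [dist_zero_right]; linarith)
    rw [Real.dist_eq, abs_lt] at this
    linarith
  set A := 16 / r ^ 2 with hA
  have hA0 : 0 < A := by positivity
  obtain ⟨y, hy, n, hn, hmin⟩ := vp (D := {v : X | ‖v‖ ≤ r}) (isClosed_le continuous_norm continuous_const)
    (y0 := 0) (by simpa using hrp.le) (φ := fun v => -f v + A / 2 * ‖v‖ ^ 2) (by fun_prop)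
    (b := -(f 0 + 1)) (σ := 1) (κ := 1) (fun v hv => by
      have := h1 v hv
      have h2 : 0 ≤ A / 2 * ‖v‖ ^ 2 := by positivity
      linarith) one_pos one_pos
  have hy2 : ‖y‖ ≤ r / 2 := by
    have a1 := hmin 0 (by simpa using hrp.le)
    have a2 := h1 y hy
    refine le_of_sq_le_sq ?_ (by positivity)
    have a3 : A * ‖y‖ ^ 2 ≤ A * (r / 2) ^ 2 := by
      have : A * (r / 2) ^ 2 = 4 := by rw [hA]; field_simp; norm_num
      simp only [norm_zero] at a1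
      linarith
    exact le_of_mul_le_mul_left a3 hA0
  have hΦ : Phi ((A + 1) • (II : Bil X)) ≤ A + 1 := by
    have := Phi_le (T := (0 : Bil X)) (T' := (A + 1) • (II : Bil X)) (θ := A + 1) (γ := 0)
      (m := 0) (by positivity) le_rfl (fun v => by simp) 0
    simpa [Phi] using this
  refine ⟨2 * (A + 1), by linarith, ⟨y, A • innerSL ℝ y - innerSL ℝ n, (A + 1) • (II : Bil X), r / 2⟩,
    by positivity, fun u v => by simp [real_inner_comm], fun v hv => ?_, fun v => ?_⟩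
  · have hv' : ‖v‖ ≤ r / 2 := by simpa using hv
    have := hn (y + v) ((norm_add_le _ _).trans (by linarith))
    rw [add_sub_cancel_left, norm_add_sq_real] at this
    simp only [ContinuousLinearMap.sub_apply, ContinuousLinearMap.smul_apply, innerSL_apply_apply,
      II_apply, smul_eq_mul, real_inner_self_eq_norm_sq]
    linarith
  · have := mul_le_mul_of_nonneg_right hΦ (sq_nonneg ‖v‖)
    simp only [ContinuousLinearMap.smul_apply, II_apply, smul_eq_mul,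
      real_inner_self_eq_norm_sq]
    linarith

end
end Pool.Agent.H2.Alex
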