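import Mathlib
import Pool.Agent.H2.Alex3

set_option autoImplicit false

namespace Pool.Agent.H2.Alex

open Filter Topology Finset TopologicalSpace
open scoped InnerProductSpace

noncomputable section

variable {X : Type} [NormedAddCommGroup X] [InnerProductSpace ℝ X] [SeparableSpace X]

lemma exists_seq {f : X → ℝ} (hf : ConvexOn ℝ Set.univ f) {K : ℝ} (hK : 1 ≤ K) {s0 : St X}
    (h0 : Good f K s0) : ∃ s : ℕ → St X, (∀ j, Good f K (s j)) ∧ (∀ j k, j ≤ k → Rel f K (s j) (s k)) ∧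
      ∀ j s', Good f K s' → Rel f K (s j) s' → Phi (s (j + 1)).T ≤ Phi s'.T + 1 / (j + 1) := by
  have hstep : ∀ (j : ℕ) (s : {s : St X // Good f K s}), ∃ t : {s : St X // Good f K s},
      Rel f K s.1 t.1 ∧ ∀ s', Good f K s' → Rel f K s.1 s' → Phi t.1.T ≤ Phi s'.T + 1 / (j + 1) := by
    intro j s
    obtain ⟨t, ht, h⟩ := exists_am (D := {t : St X | Good f K t ∧ Rel f K s.1 t}) (y0 := s.1)
      ⟨s.2, Rel.rfl' hK s.2⟩ (fun t => Phi t.T) (b := 0) (fun t ht => ht.1.phi hf)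
      (ε := 1 / (j + 1)) (by positivity)
    exact ⟨⟨t, ht.1⟩, ht.2, fun s' h1 h2 => h s' ⟨h1, h2⟩⟩
  choose F hF1 hF2 using hstep
  let s : ℕ → {s : St X // Good f K s} := fun n => Nat.rec ⟨s0, h0⟩ (fun j t => F j t) n
  refine ⟨fun j => (s j).1, fun j => (s j).2, fun j k hjk => ?_, fun j => hF2 j (s j)⟩
  induction k, hjk using Nat.le_induction with
  | base => exact Rel.rfl' hK (s j).2
  | succ k hjk ih => exact Rel.trans' hf hK (s j).2 (s k).2 (s (k + 1)).2 ih (hF1 k (s k))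

lemma exists_lim [CompleteSpace X] {f : X → ℝ} (hc : Continuous f) (hf : ConvexOn ℝ Set.univ f)
    {K : ℝ} (hK : 1 ≤ K) {s : ℕ → St X} (hg : ∀ j, Good f K (s j))
    (hr : ∀ j k, j ≤ k → Rel f K (s j) (s k)) :
    ∃ (x : X) (p : X →L[ℝ] ℝ) (Φ : ℝ) (b : Bil X), 0 ≤ Φ ∧ (∀ j, Φ ≤ Phi (s j).T) ∧
      Tendsto (fun j => Phi (s j).T - Φ) atTop (𝓝 0) ∧
      (∀ j, 16 * K * ‖x - (s j).x‖ ≤ (Phi (s j).T - Φ) * (s j).δ) ∧
      (∀ j, Sup f x p (s j).T (Phi (s j).T - Φ) (s j).x (s j).δ) ∧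
      (∀ u v, b u v = b v u) ∧ (∀ v, Tendsto (fun j => (s j).T v v) atTop (𝓝 (b v v))) ∧
      ∀ j v, b v v ≤ (s j).T v v + (Phi (s j).T - Φ) * ‖v‖ ^ 2 := by
  have hanti : Antitone (fun j => Phi (s j).T) := fun j k h => by linarith [(hr j k h).1]
  have hbd : BddBelow (Set.range fun j => Phi (s j).T) :=
    ⟨0, by rintro _ ⟨j, rfl⟩; exact (hg j).phi hf⟩
  have hΦ := tendsto_atTop_ciInf hanti hbd
  set Φ := ⨅ j, Phi (s j).T with hΦdef
  have hΦle : ∀ j, Φ ≤ Phi (s j).T := fun j => ciInf_le hbd j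
  have hΦ0 : 0 ≤ Φ := ge_of_tendsto' hΦ fun j => (hg j).phi hf
  have hβ : Tendsto (fun j => Phi (s j).T - Φ) atTop (𝓝 0) := by
    simpa using hΦ.sub_const Φ
  have hdist : ∀ j k, j ≤ k → ‖(s k).x - (s j).x‖ ≤ (Phi (s j).T - Φ) * (s 0).δ := by
    intro j k h
    have a1 := (hr j k h).2.2.2.2.1
    have a2 := (hr 0 j (Nat.zero_le _)).2.2.2.2.2
    have a3 : (Phi (s j).T - Phi (s k).T) * (s j).δ ≤ (Phi (s j).T - Φ) * (s 0).δ := by
      have := hΦle k
      have := hΦle j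
      have := (hg j).1
      gcongr
    nlinarith [norm_nonneg ((s k).x - (s j).x)]
  obtain ⟨x, hx⟩ := cauchySeq_tendsto_of_complete (u := fun j => (s j).x)
    (cauchySeq_of_le_tendsto_0' (fun j => (Phi (s j).T - Φ) * (s 0).δ) (fun j k h => by
      rw [dist_comm, dist_eq_norm]; exact hdist j k h) (by simpa using hβ.mul_const (s 0).δ))
  obtain ⟨p, hp⟩ := cauchySeq_tendsto_of_complete (u := fun j => (s j).p)
    (cauchySeq_of_le_tendsto_0' (fun j => 2 * K * ((Phi (s j).T - Φ) * (s 0).δ)) (fun j k h => by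
      rw [dist_comm, dist_eq_norm]
      have g := (hg j).grad hf hK (hg k) (hr j k h)
      have a1 := hdist j k h
      refine le_trans (ContinuousLinearMap.opNorm_le_bound _ (M := 2 * K * ‖(s k).x - (s j).x‖)
        (by positivity) fun u => ?_) (by gcongr)
      rw [ContinuousLinearMap.sub_apply, Real.norm_eq_abs, abs_le]
      have g1 := g u
      have g2 := g (-u)
      rw [map_neg, map_neg, norm_neg] at g2
      constructor <;> linarith) (by simpa using (hβ.mul_const (s 0).δ).const_mul (2 * K)))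
  have hq : ∀ v, ∃ L, Tendsto (fun j => (s j).T v v) atTop (𝓝 L) ∧
      ∀ j, L ≤ (s j).T v v + (Phi (s j).T - Φ) * ‖v‖ ^ 2 := by
    intro v
    have ha : Antitone (fun j => (s j).T v v + (Phi (s j).T - Φ) * ‖v‖ ^ 2) := fun j k h => by
      have := (hr j k h).2.2.1 v
      simp only
      linarith
    have hb : BddBelow (Set.range fun j => (s j).T v v + (Phi (s j).T - Φ) * ‖v‖ ^ 2) := ⟨0, by
      rintro _ ⟨j, rfl⟩
      have := (hg j).nonneg hf v
      have h2 : 0 ≤ (Phi (s j).T - Φ) * ‖v‖ ^ 2 := mul_nonneg (by linarith [hΦle j]) (sq_nonneg _)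
      simp only
      linarith⟩
    refine ⟨_, ?_, fun j => ciInf_le hb j⟩
    have := (tendsto_atTop_ciInf ha hb).sub (hβ.mul_const (‖v‖ ^ 2))
    simpa using this
  choose L hL hL2 using hq
  have hb : ∀ u v, Tendsto (fun j => (s j).T u v) atTop (𝓝 ((L (u + v) - L (u - v)) / 4)) := by
    intro u v
    refine (((hL (u + v)).sub (hL (u - v))).div_const 4).congr fun j => ?_
    simp only [map_add, map_sub, ContinuousLinearMap.add_apply, ContinuousLinearMap.sub_apply,
      (hg j).2.1 v u]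
    ring
  let b0 : X →ₗ[ℝ] X →ₗ[ℝ] ℝ := LinearMap.mk₂ ℝ (fun u v => (L (u + v) - L (u - v)) / 4)
    (fun u u' v => tendsto_nhds_unique (hb (u + u') v) (by simpa using (hb u v).add (hb u' v)))
    (fun c u v => tendsto_nhds_unique (hb (c • u) v) (by simpa using (hb u v).const_mul c))
    (fun u v v' => tendsto_nhds_unique (hb u (v + v')) (by simpa using (hb u v).add (hb u v')))
    (fun c u v => tendsto_nhds_unique (hb u (c • v)) (by simpa using (hb u v).const_mul c))
  have hb0 : ∀ u v, ‖b0 u v‖ ≤ K * ‖u‖ * ‖v‖ := by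
    intro u v
    refine le_of_tendsto' (hb u v).norm fun j => ?_
    have g1 := bil_bound _ (hg j).2.1 ((hg j).nonneg hf) ((hg j).le hf) u v
    have g2 := bil_bound _ (hg j).2.1 ((hg j).nonneg hf) ((hg j).le hf) u (-v)
    rw [map_neg, norm_neg] at g2
    rw [Real.norm_eq_abs, abs_le]
    constructor <;> linarith
  have hbb : ∀ u v, Tendsto (fun j => (s j).T u v) atTop (𝓝 (b0.mkContinuous₂ K hb0 u v)) := hb
  have hx1 : ∀ j, 16 * K * ‖x - (s j).x‖ ≤ (Phi (s j).T - Φ) * (s j).δ := by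
    intro j
    refine le_of_tendsto_of_tendsto (((hx.sub_const (s j).x).norm).const_mul (16 * K))
      ((hΦ.const_sub (Phi (s j).T)).mul_const (s j).δ) ?_
    filter_upwards [eventually_ge_atTop j] with k hk
    exact (hr j k hk).2.2.2.2.1
  refine ⟨x, p, Φ, b0.mkContinuous₂ K hb0, hΦ0, hΦle, hβ, hx1, fun j v hv => ?_, fun u v => ?_,
    fun v => hbb v v, fun j v => ?_⟩
  · have hv' : Tendsto (fun k => x + v - (s k).x) atTop (𝓝 v) := by
      simpa using hx.const_sub (x + v)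
    have t1 : Tendsto (fun k => (s k).p (x + v - (s k).x)) atTop (𝓝 (p v)) :=
      ((isBoundedBilinearMap_apply (𝕜 := ℝ) (E := X) (F := ℝ)).continuous.tendsto (p, v)).comp
        (hp.prodMk_nhds hv')
    have t2 : Tendsto (fun k => (s j).T (x + v - (s k).x) (x + v - (s k).x)) atTop (𝓝 ((s j).T v v)) := by
      have : Continuous (fun w : X => (s j).T w w) := by fun_prop
      exact (this.tendsto v).comp hv'
    refine ge_of_tendsto ((((hc.tendsto x).comp hx).add t1).add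
      ((t2.add ((hΦ.const_sub (Phi (s j).T)).mul (hv'.norm.pow 2))).div_const 2)) ?_
    filter_upwards [eventually_ge_atTop j] with k hk
    have := (hr j k hk).2.2.2.1 (x + v - (s k).x) (by rwa [add_sub_cancel])
    rwa [add_sub_cancel] at this
  · exact tendsto_nhds_unique (hbb u v) ((hbb v u).congr fun j => (hg j).2.1 v u)
  · exact (tendsto_nhds_unique (hbb v v) (hL v)).le.trans (hL2 v j)

lemma lower_n [CompleteSpace X] {f : X → ℝ} (hc : Continuous f) (hf : ConvexOn ℝ Set.univ f)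
    {K : ℝ} (hK : 1 ≤ K) {s : ℕ → St X} (hg : ∀ j, Good f K (s j))
    (hopt : ∀ j s', Good f K s' → Rel f K (s j) s' → Phi (s (j + 1)).T ≤ Phi s'.T + 1 / (j + 1))
    {x : X} {p : X →L[ℝ] ℝ} {Φ : ℝ} {b : Bil X} (h1 : 0 ≤ Φ) (h2 : ∀ j, Φ ≤ Phi (s j).T)
    (h3 : Tendsto (fun j => Phi (s j).T - Φ) atTop (𝓝 0))
    (h4 : ∀ j, 16 * K * ‖x - (s j).x‖ ≤ (Phi (s j).T - Φ) * (s j).δ)
    (h5 : ∀ j, Sup f x p (s j).T (Phi (s j).T - Φ) (s j).x (s j).δ)
    (h6 : ∀ j v, b v v ≤ (s j).T v v + (Phi (s j).T - Φ) * ‖v‖ ^ 2)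
    (hsub : ∀ v, f x + p v ≤ f (x + v)) (n : ℕ) {η : ℝ} (hη : 0 < η) :
    ∀ᶠ t in 𝓝 (0 : ℝ), t ^ 2 * (b (hh X n) (hh X n) - η) / 2 ≤
      f (x + t • hh X n) - f x - p (t • hh X n) := by
  set h := hh X n with hdef
  rcases eq_or_ne h 0 with h0 | h0
  · refine Eventually.of_forall fun t => ?_
    simp only [h0, map_zero, smul_zero, add_zero, sub_self, zero_sub]
    have : 0 ≤ t ^ 2 * η := by positivity
    linarith
  have hn := norm_pos_iff.2 h0
  have hw := ww_pos (X := X) n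
  obtain ⟨τ, R, hτ, hR, hkey⟩ := key (X := X) hK (η := η / ‖h‖ ^ 2) (M := 96 / (ww X n * ‖h‖ ^ 2))
    (by positivity) (by positivity)
  obtain ⟨j, hj1, hj2⟩ := ((h3.eventually_le_const hτ).and
    (tendsto_one_div_add_atTop_nhds_zero_nat.eventually_lt_const hτ)).exists
  set β := Phi (s j).T - Φ with hβ
  have hβ0 : 0 ≤ β := by linarith [h2 j]
  have hδ := (hg j).1
  have hβK : β ≤ K := by linarith [(hg j).phi_le hf hK]
  have hxj : 16 * ‖x - (s j).x‖ ≤ (s j).δ := by
    have a2 := mul_le_mul_of_nonneg_right hβK hδ.le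
    have a3 : K * (16 * ‖x - (s j).x‖) ≤ K * (s j).δ := by linarith [h4 j]
    exact le_of_mul_le_mul_left a3 (by linarith)
  have small : ∀ C ε : ℝ, 0 < ε → ∀ᶠ t in 𝓝 (0 : ℝ), C * ‖t • h‖ ≤ ε := by
    intro C ε hε
    have : Continuous (fun t : ℝ => C * ‖t • h‖) := by fun_prop
    exact (this.continuousAt.eventually_lt continuousAt_const (by simpa using hε)).mono
      fun _ h => h.le
  filter_upwards [small 3 ((s j).δ / 2) (by positivity), small (16 * K * R) (τ * (s j).δ) (by positivity),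
    small R ((s j).δ / 4) (by positivity)] with t ht1 ht2 ht3
  by_contra hcon
  push Not at hcon
  have ht0 : t ≠ 0 := by
    rintro rfl
    simp at hcon
  have hTs := (hg j).2.1
  set T := (s j).T with hT
  obtain ⟨θ, z, nn, m, γ, δ, g1, g2, g3, g4, g5, g6, g7⟩ := hkey {v | ‖x + v - (s j).x‖ ≤ (s j).δ}
    (fun v => (T v v + β * ‖v‖ ^ 2) / 2 - (f (x + v) - f x - p v)) (t • h)
    (isClosed_le (by fun_prop) continuous_const) (by fun_prop) (smul_ne_zero ht0 h0)
    (fun v hv => by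
      have : ‖x + v - (s j).x‖ ≤ ‖x - (s j).x‖ + ‖v‖ := by
        rw [show x + v - (s j).x = x - (s j).x + v by abel]; exact norm_add_le _ _
      simp only [Set.mem_setOf_eq]
      linarith)
    (fun v hv => by have := h5 j v hv; linarith) (by simp)
    (fun v => by
      have a1 := hsub v
      have a2 := (hg j).2.2.2 v
      have a3 : β * ‖v‖ ^ 2 ≤ Phi T * ‖v‖ ^ 2 := by gcongr; linarith
      linarith)
    (fun y w => by
      have a1 := hf.2 (Set.mem_univ (x + (y + w))) (Set.mem_univ (x + (y - w)))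
        (by norm_num : (0 : ℝ) ≤ 1 / 2) (by norm_num : (0 : ℝ) ≤ 1 / 2) (by norm_num)
      rw [show (1 / 2 : ℝ) • (x + (y + w)) + (1 / 2 : ℝ) • (x + (y - w)) = x + y by module] at a1
      have a2 := (hg j).2.2.2 w
      have a3 : β * ‖w‖ ^ 2 ≤ Phi T * ‖w‖ ^ 2 := by gcongr; linarith
      simp only [map_add, map_sub, ContinuousLinearMap.add_apply, ContinuousLinearMap.sub_apply,
        norm_add_sq_real, norm_sub_sq_real, smul_eq_mul] at a1 ⊢
      linarith)
    (by
      have a1 := mul_le_mul_of_nonneg_left (h6 j h) (sq_nonneg t)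
      have a2 : ‖t • h‖ ^ 2 = t ^ 2 * ‖h‖ ^ 2 := by rw [norm_smul, mul_pow, Real.norm_eq_abs, sq_abs]
      have a3 : η / ‖h‖ ^ 2 / 2 * (t ^ 2 * ‖h‖ ^ 2) = t ^ 2 * η / 2 := by field_simp
      have a4 : T (t • h) (t • h) = t ^ 2 * T h h := by
        simp only [map_smul, ContinuousLinearMap.smul_apply, smul_eq_mul]; ring
      rw [a2, a3, a4]
      linarith)
  have hθ : 0 < θ := hτ.trans_le g1
  set T' : Bil X := T + (β + 3 * θ) • (II : Bil X) - γ • (innerSL ℝ m).smulRight (innerSL ℝ m) with hT'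
  have hT'a : ∀ u v, T' u v = T u v + (β + 3 * θ) * ⟪u, v⟫_ℝ - γ * (⟪m, u⟫_ℝ * ⟪m, v⟫_ℝ) := by
    intro u v
    simp [hT']
  have hT'v : ∀ v, T' v v = T v v + (β + 3 * θ) * ‖v‖ ^ 2 - γ * ⟪m, v⟫_ℝ ^ 2 := by
    intro v; rw [hT'a, real_inner_self_eq_norm_sq, sq ⟪m, v⟫_ℝ]
  have hP := Phi_le (T := T) (T' := T') (by positivity) g2 (fun v => (hT'v v).le) n
  have hgain : 8 * θ ≤ γ * (ww X n * ⟪m, h⟫_ℝ ^ 2) := by
    rw [norm_smul, mul_pow, Real.norm_eq_abs, sq_abs, inner_smul_right] at g6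
    have ht2 : 0 < t ^ 2 := by positivity
    have a1 := mul_le_mul_of_nonneg_left g6 hw.le
    have a2 : t ^ 2 * (8 * θ) ≤ t ^ 2 * (γ * (ww X n * ⟪m, h⟫_ℝ ^ 2)) := by
      calc _ = ww X n * (96 / (ww X n * ‖h‖ ^ 2) * θ * (t ^ 2 * ‖h‖ ^ 2) / 12) := by field_simp; norm_num
        _ ≤ _ := a1
        _ = _ := by ring
    exact le_of_mul_le_mul_left a2 ht2
  have hB : β + 3 * θ ≤ Phi T - Phi T' := by rw [← hdef] at hP; linarith
  set p' : X →L[ℝ] ℝ := p + T z + β • innerSL ℝ z - innerSL ℝ nn with hp'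
  have hp'a : ∀ v, p' v = p v + T z v + β * ⟪z, v⟫_ℝ - ⟪nn, v⟫_ℝ := by
    intro v; simp [hp']
  have hz4 : ‖z‖ ≤ (s j).δ / 4 := g7.trans ht3
  have hgood : Good f K ⟨x + z, p', T', min δ ((s j).δ / 4)⟩ := by
    refine ⟨lt_min g3 (by positivity), fun u v => ?_, fun v hv => ?_, fun v => ?_⟩
    · simp only [hT'a, hTs u v, real_inner_comm u v]; ring
    · simp only [add_sub_cancel_left, le_min_iff] at hv
      have := g5 (z + v) (by
        have : ‖x + (z + v) - (s j).x‖ ≤ ‖x - (s j).x‖ + (‖z‖ + ‖v‖) := by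
          rw [show x + (z + v) - (s j).x = x - (s j).x + (z + v) by abel]
          exact (norm_add_le _ _).trans (by gcongr; exact norm_add_le _ _)
        simp only [Set.mem_setOf_eq]
        linarith [hv.2]) (by simpa using hv.1)
      simp only [add_sub_cancel_left, map_add, ContinuousLinearMap.add_apply, norm_add_sq_real,
        hTs v z, ← add_assoc] at this
      simp only [hT'v, hp'a]
      linarith
    · simp only [hT'v]
      have a2 := (hg j).2.2.2 v
      have a3 := mul_le_mul_of_nonneg_right hB (sq_nonneg ‖v‖)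
      have a4 : 0 ≤ γ * ⟪m, v⟫_ℝ ^ 2 := by positivity
      linarith
  have hrel : Rel f K (s j) ⟨x + z, p', T', min δ ((s j).δ / 4)⟩ := by
    refine ⟨by simp only; linarith, ?_, fun v => ?_, fun v hv => ?_, ?_, ?_⟩
    · have := hgood.phi hf
      have := (hg j).phi_le hf hK
      linarith
    · simp only [hT'v]
      have a3 := mul_le_mul_of_nonneg_right hB (sq_nonneg ‖v‖)
      have a4 : 0 ≤ γ * ⟪m, v⟫_ℝ ^ 2 := by positivity
      linarith
    · have := g4.2 (z + v) (by simpa [add_assoc] using hv)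
      simp only [add_sub_cancel_left, map_add, ContinuousLinearMap.add_apply, norm_add_sq_real,
        hTs v z, ← add_assoc] at this
      simp only [hp'a]
      have a3 := mul_le_mul_of_nonneg_right hB (sq_nonneg ‖v‖)
      linarith
    · simp only
      have a1 : ‖x + z - (s j).x‖ ≤ ‖x - (s j).x‖ + ‖z‖ := by
        rw [show x + z - (s j).x = x - (s j).x + z by abel]; exact norm_add_le _ _
      have a2 := mul_le_mul_of_nonneg_left (a1.trans (add_le_add le_rfl g7)) (by linarith : 0 ≤ 16 * K)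
      have a3 := h4 j
      have a4 := mul_le_mul_of_nonneg_right hB hδ.le
      have a5 := mul_le_mul_of_nonneg_right g1 hδ.le
      have a6 : 0 ≤ θ * (s j).δ := by positivity
      linarith
    · exact (min_le_right _ _).trans (by linarith)
  have := hopt j _ hgood hrel
  have := h2 (j + 1)
  simp only at *
  linarith

theorem main [CompleteSpace X] {f : X → ℝ} (hc : Continuous f) (hf : ConvexOn ℝ Set.univ f) :
    ∃ (x : X) (p : X →L[ℝ] ℝ) (b : Bil X), (∀ u v, b u v = b v u) ∧ ∀ h : X, ∀ c : ℝ, 0 < c →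
      ∀ᶠ t in 𝓝 (0 : ℝ), |f (x + t • h) - f x - p (t • h) - t ^ 2 * (b h h / 2)| ≤ c * t ^ 2 := by
  obtain ⟨K, hK, s0, h0⟩ := exists_good hc
  obtain ⟨s, hg, hr, hopt⟩ := exists_seq hf hK h0
  obtain ⟨x, p, Φ, b, h1, h2, h3, h4, h5, h6, h7, h8⟩ := exists_lim hc hf hK hg hr
  have hxj : ∀ j, 16 * ‖x - (s j).x‖ ≤ (s j).δ := by
    intro j
    have hβK : Phi (s j).T - Φ ≤ K := by linarith [(hg j).phi_le hf hK]
    have a2 := mul_le_mul_of_nonneg_right hβK (hg j).1.le
    have a3 : K * (16 * ‖x - (s j).x‖) ≤ K * (s j).δ := by linarith [h4 j]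
    exact le_of_mul_le_mul_left a3 (by linarith)
  have hup : ∀ j v, ‖v‖ ≤ (s j).δ / 2 →
      f (x + v) ≤ f x + p v + ((s j).T v v + (Phi (s j).T - Φ) * ‖v‖ ^ 2) / 2 := by
    intro j v hv
    refine h5 j v ?_
    have : ‖x + v - (s j).x‖ ≤ ‖x - (s j).x‖ + ‖v‖ := by
      rw [show x + v - (s j).x = x - (s j).x + v by abel]; exact norm_add_le _ _
    linarith [hxj j, (hg j).1]
  have hupK : ∀ v, ‖v‖ ≤ (s 0).δ / 2 → f (x + v) ≤ f x + p v + K / 2 * ‖v‖ ^ 2 := by
    intro v hv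
    have a1 := hup 0 v hv
    have a2 := (hg 0).2.2.2 v
    have a3 : 0 ≤ Φ * ‖v‖ ^ 2 := by positivity
    linarith
  have hsub := subgrad hf (half_pos (hg 0).1) hupK
  have small : ∀ (h : X) (ε : ℝ), 0 < ε → ∀ᶠ t in 𝓝 (0 : ℝ), ‖t • h‖ ≤ ε := by
    intro h ε hε
    have : Continuous (fun t : ℝ => ‖t • h‖) := by fun_prop
    exact (this.continuousAt.eventually_lt continuousAt_const (by simpa using hε)).mono
      fun _ h => h.le
  have nsm : ∀ (t : ℝ) (h : X), ‖t • h‖ ^ 2 = t ^ 2 * ‖h‖ ^ 2 := fun t h => by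
    rw [norm_smul, mul_pow, Real.norm_eq_abs, sq_abs]
  refine ⟨x, p, b, h6, fun h c hc0 => ?_⟩
  obtain ⟨j, hj⟩ := ((by simpa using (h7 h).add (h3.mul_const (‖h‖ ^ 2)) :
    Tendsto (fun j => (s j).T h h + (Phi (s j).T - Φ) * ‖h‖ ^ 2) atTop (𝓝 (b h h))).eventually_le_const
      (by linarith : b h h < b h h + c)).exists
  set lam := min (1 / 2) (c / (K * (‖h‖ + 1) ^ 2)) with hlam
  have hl0 : 0 < lam := lt_min (by norm_num) (by positivity)
  have hl1 : lam ≤ 1 / 2 := min_le_left _ _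
  have hl2 : lam * (K * (‖h‖ + 1) ^ 2) ≤ c := by
    rw [← le_div_iff₀ (by positivity)]; exact min_le_right _ _
  obtain ⟨n, hn1, hn2⟩ := (@denseRange_denseSeq X _ _ ⟨0⟩).exists_mem_open
    (s := {u | ‖u - h‖ < lam ∧ b h h - c / 2 < b u u})
    (IsOpen.and (isOpen_lt (f := fun u : X => ‖u - h‖) (by fun_prop) continuous_const)
      (isOpen_lt (g := fun u : X => b u u) continuous_const (by fun_prop)))
    ⟨h, by simpa using hl0, by linarith⟩
  change ‖hh X n - h‖ < lam at hn1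
  change b h h - c / 2 < b (hh X n) (hh X n) at hn2
  filter_upwards [small h _ (half_pos (hg j).1), small (h + lam⁻¹ • (hh X n - h)) _ (half_pos (hg 0).1),
    lower_n hc hf hK hg hopt h1 h2 h3 h4 h5 h8 hsub n (half_pos hc0)] with t a1 a2 a3
  rw [abs_le]
  constructor
  · have b1 := hupK _ a2
    have b2 := hf.2 (Set.mem_univ (x + t • h)) (Set.mem_univ (x + t • (h + lam⁻¹ • (hh X n - h))))
      (by linarith : 0 ≤ 1 - lam) hl0.le (by ring)
    have e : (1 - lam) • (x + t • h) + lam • (x + t • (h + lam⁻¹ • (hh X n - h))) = x + t • hh X n := by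
      have : lam • (t • (lam⁻¹ • (hh X n - h))) = t • (hh X n - h) := by
        rw [smul_comm lam t, smul_smul lam, mul_inv_cancel₀ hl0.ne', one_smul]
      rw [smul_add t, smul_add lam, smul_add lam, this]
      module
    have e2 : (1 - lam) * p (t • h) + lam * p (t • (h + lam⁻¹ • (hh X n - h))) = p (t • hh X n) := by
      simp only [map_smul, map_add, map_sub, smul_eq_mul]
      field_simp
      ring
    rw [e, smul_eq_mul, smul_eq_mul] at b2
    have b3 : ‖h + lam⁻¹ • (hh X n - h)‖ ≤ ‖h‖ + 1 := by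
      refine (norm_add_le _ _).trans ?_
      rw [norm_smul, norm_inv, Real.norm_of_nonneg hl0.le, inv_mul_eq_div]
      have := (div_le_one hl0).2 hn1.le
      linarith
    rw [nsm] at b1
    have b4 : K / 2 * (t ^ 2 * ‖h + lam⁻¹ • (hh X n - h)‖ ^ 2) ≤ K / 2 * (t ^ 2 * (‖h‖ + 1) ^ 2) := by
      gcongr
    have b5 := mul_le_mul_of_nonneg_left (b1.trans (add_le_add le_rfl b4)) hl0.le
    have b6 := mul_le_mul_of_nonneg_left (hsub (t • h)) hl0.le
    have b7 := mul_le_mul_of_nonneg_left hl2 (sq_nonneg t)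
    have b8 := mul_le_mul_of_nonneg_left hn2.le (sq_nonneg t)
    linarith
  · have b1 := hup j _ a1
    have a4 : (s j).T (t • h) (t • h) = t ^ 2 * (s j).T h h := by
      simp only [map_smul, ContinuousLinearMap.smul_apply, smul_eq_mul]; ring
    rw [nsm, a4] at b1
    have b2 := mul_le_mul_of_nonneg_left hj (sq_nonneg t)
    have b3 : 0 ≤ c * t ^ 2 := by positivity
    linarith

end
end Pool.Agent.H2.Alex
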