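import Mathlib

set_option autoImplicit false

namespace Pool.Agent.H2.AlgM

open MvPolynomial

section lin
variable (K : Type) [Field K] {V : Type} [AddCommGroup V] [Module K V]

/-- dependence of three vectors -/
def Dep (x y z : V) : Prop :=
  ∃ α β γ : K, α • x + β • y + γ • z = 0 ∧ ¬ (α = 0 ∧ β = 0 ∧ γ = 0)

variable {K}

lemma dep_iff {p1 p2 p3 : V} (h : ¬ Dep K p1 p2 p3) (a1 a2 a3 b1 b2 b3 c1 c2 c3 : K) :
    Dep K (a1 • p1 + a2 • p2 + a3 • p3) (b1 • p1 + b2 • p2 + b3 • p3) (c1 • p1 + c2 • p2 + c3 • p3)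
      ↔ a1 * b2 * c3 - a1 * b3 * c2 - a2 * b1 * c3 + a2 * b3 * c1 + a3 * b1 * c2 - a3 * b2 * c1
        = 0 := by
  have hd : (!![a1, a2, a3; b1, b2, b3; c1, c2, c3] : Matrix (Fin 3) (Fin 3) K).det
      = a1 * b2 * c3 - a1 * b3 * c2 - a2 * b1 * c3 + a2 * b3 * c1 + a3 * b1 * c2 - a3 * b2 * c1 :=
    Matrix.det_fin_three _
  rw [← hd, ← Matrix.exists_vecMul_eq_zero_iff]
  constructor
  · rintro ⟨α, β, γ, h1, h2⟩
    have h3 : α * a1 + β * b1 + γ * c1 = 0 ∧ α * a2 + β * b2 + γ * c2 = 0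
        ∧ α * a3 + β * b3 + γ * c3 = 0 := by
      by_contra h3
      exact h ⟨_, _, _, by rw [← h1]; module, h3⟩
    refine ⟨![α, β, γ], fun h0 => h2 ⟨congrFun h0 0, congrFun h0 1, congrFun h0 2⟩, ?_⟩
    ext i
    fin_cases i <;> simp [Matrix.vecMul, dotProduct, Fin.sum_univ_three, h3]
  · rintro ⟨v, h1, h2⟩
    have e0 := congrFun h2 0
    have e1 := congrFun h2 1
    have e2 := congrFun h2 2
    simp [Matrix.vecMul, dotProduct, Fin.sum_univ_three] at e0 e1 e2
    refine ⟨v 0, v 1, v 2, ?_, fun h3 => h1 ?_⟩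
    · linear_combination (norm := module) e0 • p1 + e1 • p2 + e2 • p3
    · ext i; fin_cases i <;> simp [h3]

lemma span_of_dep {x y z t : V} (h : ¬ Dep K x t y) (h' : Dep K x y z) :
    ∃ a b : K, z = a • x + b • y := by
  obtain ⟨α, β, γ, h1, h2⟩ := h'
  have hγ : γ ≠ 0 := by
    rintro rfl
    exact h ⟨α, 0, β, by rw [← h1]; module, by tauto⟩
  refine ⟨-α / γ, -β / γ, ?_⟩
  apply smul_right_injective V hγ
  simp only [smul_add, smul_smul, mul_div_cancel₀ _ hγ]
  linear_combination (norm := module) h1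

lemma dep_swap {x y z : V} (h : Dep K x y z) : Dep K x z y := by
  obtain ⟨α, β, γ, h1, h2⟩ := h
  exact ⟨α, γ, β, by rw [← h1]; module, by tauto⟩

lemma dep_rot {x y z : V} (h : Dep K x y z) : Dep K y z x := by
  obtain ⟨α, β, γ, h1, h2⟩ := h
  exact ⟨β, γ, α, by rw [← h1]; module, by tauto⟩

theorem fano {p1 p2 p3 q12 q13 q23 r : V} (i0 : ¬ Dep K p1 p2 p3) (i1 : ¬ Dep K p2 p3 r)
    (i2 : ¬ Dep K p1 p3 r) (i3 : ¬ Dep K p1 p3 q23)
    (d1 : Dep K p1 p2 q12) (d2 : Dep K p1 p3 q13) (d3 : Dep K p2 p3 q23)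
    (d4 : Dep K p1 q23 r) (d5 : Dep K p2 q13 r) (d6 : Dep K p3 q12 r) :
    ((2 : K) = 0 → Dep K q12 q13 q23) ∧
    (¬ Dep K p2 p3 q12 → ¬ Dep K p1 p2 q13 → Dep K q12 q13 q23 → (2 : K) = 0) := by
  obtain ⟨a, b, h12⟩ := span_of_dep (t := p3) (fun h => i0 (dep_swap h)) d1
  obtain ⟨c, d, h13⟩ := span_of_dep i0 d2
  obtain ⟨e, f, h23⟩ := span_of_dep (t := p1) (fun h => i0 (dep_swap (dep_rot h))) d3
  obtain ⟨x, s, hr⟩ := span_of_dep i3 d4
  have e1 : p1 = (1 : K) • p1 + (0 : K) • p2 + (0 : K) • p3 := by module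
  have e2 : p2 = (0 : K) • p1 + (1 : K) • p2 + (0 : K) • p3 := by module
  have e3 : p3 = (0 : K) • p1 + (0 : K) • p2 + (1 : K) • p3 := by module
  have e4 : q12 = a • p1 + b • p2 + (0 : K) • p3 := by rw [h12]; module
  have e5 : q13 = c • p1 + (0 : K) • p2 + d • p3 := by rw [h13]; module
  have e6 : q23 = (0 : K) • p1 + e • p2 + f • p3 := by rw [h23]; module
  have e7 : r = x • p1 + (s * e) • p2 + (s * f) • p3 := by rw [hr, h23]; module
  have T := dep_iff i0
  have j1 := T 0 1 0 0 0 1 x (s * e) (s * f)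
  have j2 := T 1 0 0 0 0 1 x (s * e) (s * f)
  have j5 := T 0 1 0 c 0 d x (s * e) (s * f)
  have j6 := T 0 0 1 a b 0 x (s * e) (s * f)
  have j7 := T a b 0 c 0 d 0 e f
  have j8 := T 0 1 0 0 0 1 a b 0
  have j9 := T 1 0 0 0 1 0 c 0 d
  rw [← e2, ← e3, ← e7] at j1
  rw [← e1, ← e3, ← e7] at j2
  rw [← e2, ← e5, ← e7] at j5
  rw [← e3, ← e4, ← e7] at j6
  rw [← e4, ← e5, ← e6] at j7
  rw [← e2, ← e3, ← e4] at j8
  rw [← e1, ← e2, ← e5] at j9
  have hx : x ≠ 0 := fun h => i1 (j1.mpr (by rw [h]; ring))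
  have hse : s * e ≠ 0 := fun h => i2 (j2.mpr (by rw [h]; ring))
  have k5 := j5.mp d5
  have k6 := j6.mp d6
  have key : b * c * f = a * d * e := by
    apply mul_left_cancel₀ hx
    linear_combination (-(c * f)) * k6 - (a * e) * k5
  rw [j7, j8, j9]
  constructor
  · intro h2
    linear_combination (-(a * d * e)) * h2 - key
  · intro ha hd h
    have ha' : a ≠ 0 := fun h0 => ha (by rw [h0]; ring)
    have hd' : d ≠ 0 := fun h0 => hd (by rw [h0]; ring)
    apply mul_left_cancel₀ (mul_ne_zero (mul_ne_zero ha' hd') (right_ne_zero_of_mul hse))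
    linear_combination -h - key

lemma five {u w : V} (huw : ∀ a b : K, a • u + b • w = 0 → a = 0 ∧ b = 0) (x y z : V) :
    LinearIndependent K ![x, y, z, u, w] ↔
      ¬ Dep K ((Submodule.span K {u, w}).mkQ x) ((Submodule.span K {u, w}).mkQ y)
        ((Submodule.span K {u, w}).mkQ z) := by
  rw [Fintype.linearIndependent_iff]
  constructor
  · rintro h ⟨α, β, γ, h1, h2⟩
    rw [← map_smul, ← map_smul, ← map_smul, ← map_add, ← map_add, Submodule.mkQ_apply,
      Submodule.Quotient.mk_eq_zero, Submodule.mem_span_pair] at h1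
    obtain ⟨a, b, h1⟩ := h1
    have := h ![α, β, γ, -a, -b] (by
      simp only [Fin.sum_univ_five]
      show α • x + β • y + γ • z + (-a) • u + (-b) • w = 0
      rw [← h1]; module)
    exact h2 ⟨this 0, this 1, this 2⟩
  · intro h g hg
    simp only [Fin.sum_univ_five] at hg
    change g 0 • x + g 1 • y + g 2 • z + g 3 • u + g 4 • w = 0 at hg
    have h1 : g 0 = 0 ∧ g 1 = 0 ∧ g 2 = 0 := by
      by_contra h1
      refine h ⟨_, _, _, ?_, h1⟩
      rw [← map_smul, ← map_smul, ← map_smul, ← map_add, ← map_add, Submodule.mkQ_apply,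
        Submodule.Quotient.mk_eq_zero, Submodule.mem_span_pair]
      exact ⟨-g 3, -g 4, by linear_combination (norm := module) -hg⟩
    have h2 := huw (g 3) (g 4) (by
      rw [h1.1, h1.2.1, h1.2.2] at hg; simpa using hg)
    intro i
    fin_cases i
    exacts [h1.1, h1.2.1, h1.2.2, h2.1, h2.2]

end lin

lemma mono_ind {F : Type} [CommRing F] {k m : ℕ} (d : Fin k → Fin m →₀ ℕ)
    (h : ∀ s t : Fin k → ℕ, (∀ j, ∑ i, s i * d i j = ∑ i, t i * d i j) → s = t) :
    AlgebraicIndependent F (fun i => (monomial (d i) 1 : MvPolynomial (Fin m) F)) := by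
  let φ : (Fin k →₀ ℕ) →+ (Fin m →₀ ℕ) :=
    { toFun := fun s => ∑ i, s i • d i
      map_zero' := by simp
      map_add' := fun s t => by simp [add_smul, Finset.sum_add_distrib] }
  have hφ : Function.Injective φ := by
    intro s t hst
    ext i
    refine congrFun (h s t fun j => ?_) i
    have := DFunLike.congr_fun hst j
    simpa [φ, Finsupp.finsetSum_apply] using this
  have e : (aeval (fun i => (monomial (d i) 1 : MvPolynomial (Fin m) F)))
      = AddMonoidAlgebra.mapDomainAlgHom F F φ := by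
    ext i : 1
    rw [aeval_X]
    have : φ (Finsupp.single i 1) = d i := by
      simp [φ, Finsupp.single_apply]
    rw [← this]
    exact (AddMonoidAlgebra.mapDomain_single).symm
  rw [algebraicIndependent_iff_injective_aeval, e]
  exact AddMonoidAlgebra.mapDomain_injective hφ

lemma dep_of_rel {F A : Type} [CommRing F] [CommRing A] [Algebra F A] {k : ℕ} (g : Fin k → A)
    (P : MvPolynomial (Fin k) F) (c : Fin k → F) (hc : eval c P ≠ 0) (h : aeval g P = 0) :
    ¬ AlgebraicIndependent F g := by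
  intro hg
  rw [algebraicIndependent_iff.mp hg P h] at hc
  simp at hc

lemma ind_of_inv {F A : Type} [CommRing F] [CommRing A] [Algebra F A] {k : ℕ} {x : Fin k → A}
    (hx : AlgebraicIndependent F x) (f h : Fin k → MvPolynomial (Fin k) F)
    (hfh : ∀ i, aeval h (f i) = X i) : AlgebraicIndependent F fun i => aeval x (f i) := by
  apply hx.aeval_of_algebraicIndependent
  rw [algebraicIndependent_iff_injective_aeval]
  have : (aeval h).comp (aeval f) = AlgHom.id F _ := by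
    ext i : 1; rw [AlgHom.comp_apply, aeval_X, hfh, AlgHom.id_apply]
  intro p q hpq
  have h1 := DFunLike.congr_fun this p
  have h2 := DFunLike.congr_fun this q
  rw [AlgHom.comp_apply, AlgHom.id_apply] at h1 h2
  rw [← h1, ← h2, hpq]

end Pool.Agent.H2.AlgM
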