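import Pool.Agent.H2.AlgM

set_option autoImplicit false

namespace Pool.Agent.H2.AlgM

open MvPolynomial

/-- sixteen quadratic forms over the two-element field -/
noncomputable def g : Fin 16 → MvPolynomial (Fin 8) (ZMod 2) :=
  ![X 0 ^ 2, X 1 ^ 2, X 2 ^ 2, (X 0 + X 1) ^ 2, (X 0 + X 2) ^ 2, (X 1 + X 2) ^ 2, (X 0 + X 1 + X 2) ^ 2, X 3 * X 4, X 3 * X 6, X 3 * X 5, X 3 ^ 2, X 4 * X 7, X 4 * X 5, X 3 * X 7, X 4 * X 6, X 5 * X 7]

theorem two : (2 : MvPolynomial (Fin 8) (ZMod 2)) = 0 := CharTwo.two_eq_zero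

theorem mono (a b : Fin 8) :
    (monomial (Finsupp.single a 1 + Finsupp.single b 1) 1 : MvPolynomial (Fin 8) (ZMod 2))
      = X a * X b := by
  rw [X, X, monomial_mul, one_mul]

theorem g_hom (i : Fin 16) : (g i).IsHomogeneous 2 := by
  have h1 : ∀ a : Fin 8, (X a : MvPolynomial (Fin 8) (ZMod 2)).IsHomogeneous 1 :=
    fun a => isHomogeneous_X _ a
  fin_cases i
  exacts [(h1 _).pow 2, (h1 _).pow 2, (h1 _).pow 2, ((h1 _).add (h1 _)).pow 2,
    ((h1 _).add (h1 _)).pow 2, ((h1 _).add (h1 _)).pow 2, (((h1 _).add (h1 _)).add (h1 _)).pow 2,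
    (h1 _).mul (h1 _), (h1 _).mul (h1 _), (h1 _).mul (h1 _), (h1 _).pow 2, (h1 _).mul (h1 _),
    (h1 _).mul (h1 _), (h1 _).mul (h1 _), (h1 _).mul (h1 _), (h1 _).mul (h1 _)]

theorem ind_0_1_2 : AlgebraicIndependent (ZMod 2) ![g 0, g 1, g 2, g 14, g 15] := by
  have := mono_ind (F := ZMod 2) (m := 8) ![Finsupp.single 0 1 + Finsupp.single 0 1, Finsupp.single 1 1 + Finsupp.single 1 1, Finsupp.single 2 1 + Finsupp.single 2 1, Finsupp.single 4 1 + Finsupp.single 6 1, Finsupp.single 5 1 + Finsupp.single 7 1] (by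
    intro s t h
    have h0 := h 0
    have h1 := h 1
    have h2 := h 2
    have h3 := h 3
    have h4 := h 4
    have h5 := h 5
    have h6 := h 6
    have h7 := h 7
    simp [Fin.sum_univ_five] at h0 h1 h2 h3 h4 h5 h6 h7
    ext i
    fin_cases i <;> simp <;> omega)
  convert this using 1
  ext1 i
  fin_cases i <;> simp [g, mono, sq]

theorem ind_7_8_9 : AlgebraicIndependent (ZMod 2) ![g 7, g 8, g 9, g 14, g 15] := by
  have := mono_ind (F := ZMod 2) (m := 8) ![Finsupp.single 3 1 + Finsupp.single 4 1, Finsupp.single 3 1 + Finsupp.single 6 1, Finsupp.single 3 1 + Finsupp.single 5 1, Finsupp.single 4 1 + Finsupp.single 6 1, Finsupp.single 5 1 + Finsupp.single 7 1] (by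
    intro s t h
    have h0 := h 0
    have h1 := h 1
    have h2 := h 2
    have h3 := h 3
    have h4 := h 4
    have h5 := h 5
    have h6 := h 6
    have h7 := h 7
    simp [Fin.sum_univ_five] at h0 h1 h2 h3 h4 h5 h6 h7
    ext i
    fin_cases i <;> simp <;> omega)
  convert this using 1
  ext1 i
  fin_cases i <;> simp [g, mono, sq]

theorem ind_8_9_13 : AlgebraicIndependent (ZMod 2) ![g 8, g 9, g 13, g 14, g 15] := by
  have := mono_ind (F := ZMod 2) (m := 8) ![Finsupp.single 3 1 + Finsupp.single 6 1, Finsupp.single 3 1 + Finsupp.single 5 1, Finsupp.single 3 1 + Finsupp.single 7 1, Finsupp.single 4 1 + Finsupp.single 6 1, Finsupp.single 5 1 + Finsupp.single 7 1] (by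
    intro s t h
    have h0 := h 0
    have h1 := h 1
    have h2 := h 2
    have h3 := h 3
    have h4 := h 4
    have h5 := h 5
    have h6 := h 6
    have h7 := h 7
    simp [Fin.sum_univ_five] at h0 h1 h2 h3 h4 h5 h6 h7
    ext i
    fin_cases i <;> simp <;> omega)
  convert this using 1
  ext1 i
  fin_cases i <;> simp [g, mono, sq]

theorem ind_7_9_13 : AlgebraicIndependent (ZMod 2) ![g 7, g 9, g 13, g 14, g 15] := by
  have := mono_ind (F := ZMod 2) (m := 8) ![Finsupp.single 3 1 + Finsupp.single 4 1, Finsupp.single 3 1 + Finsupp.single 5 1, Finsupp.single 3 1 + Finsupp.single 7 1, Finsupp.single 4 1 + Finsupp.single 6 1, Finsupp.single 5 1 + Finsupp.single 7 1] (by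
    intro s t h
    have h0 := h 0
    have h1 := h 1
    have h2 := h 2
    have h3 := h 3
    have h4 := h 4
    have h5 := h 5
    have h6 := h 6
    have h7 := h 7
    simp [Fin.sum_univ_five] at h0 h1 h2 h3 h4 h5 h6 h7
    ext i
    fin_cases i <;> simp <;> omega)
  convert this using 1
  ext1 i
  fin_cases i <;> simp [g, mono, sq]

theorem ind_7_9_12 : AlgebraicIndependent (ZMod 2) ![g 7, g 9, g 12, g 14, g 15] := by
  have := mono_ind (F := ZMod 2) (m := 8) ![Finsupp.single 3 1 + Finsupp.single 4 1, Finsupp.single 3 1 + Finsupp.single 5 1, Finsupp.single 4 1 + Finsupp.single 5 1, Finsupp.single 4 1 + Finsupp.single 6 1, Finsupp.single 5 1 + Finsupp.single 7 1] (by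
    intro s t h
    have h0 := h 0
    have h1 := h 1
    have h2 := h 2
    have h3 := h 3
    have h4 := h 4
    have h5 := h 5
    have h6 := h 6
    have h7 := h 7
    simp [Fin.sum_univ_five] at h0 h1 h2 h3 h4 h5 h6 h7
    ext i
    fin_cases i <;> simp <;> omega)
  convert this using 1
  ext1 i
  fin_cases i <;> simp [g, mono, sq]

theorem ind_10_11_12 : AlgebraicIndependent (ZMod 2) ![g 10, g 11, g 12, g 14, g 15] := by
  have := mono_ind (F := ZMod 2) (m := 8) ![Finsupp.single 3 1 + Finsupp.single 3 1, Finsupp.single 4 1 + Finsupp.single 7 1, Finsupp.single 4 1 + Finsupp.single 5 1, Finsupp.single 4 1 + Finsupp.single 6 1, Finsupp.single 5 1 + Finsupp.single 7 1] (by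
    intro s t h
    have h0 := h 0
    have h1 := h 1
    have h2 := h 2
    have h3 := h 3
    have h4 := h 4
    have h5 := h 5
    have h6 := h 6
    have h7 := h 7
    simp [Fin.sum_univ_five] at h0 h1 h2 h3 h4 h5 h6 h7
    ext i
    fin_cases i <;> simp <;> omega)
  convert this using 1
  ext1 i
  fin_cases i <;> simp [g, mono, sq]

theorem ind_1_2_6 : AlgebraicIndependent (ZMod 2) ![g 1, g 2, g 6, g 14, g 15] := by
  have := ind_of_inv ind_0_1_2 ![X 1, X 2, X 0 + X 1 + X 2, X 3, X 4] ![X 2 - X 0 - X 1, X 0, X 1, X 3, X 4] (by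
    intro i
    fin_cases i <;> simp <;> ring)
  convert this using 1
  ext1 i
  fin_cases i <;> simp [g, add_pow_char]

theorem ind_0_2_6 : AlgebraicIndependent (ZMod 2) ![g 0, g 2, g 6, g 14, g 15] := by
  have := ind_of_inv ind_0_1_2 ![X 0, X 2, X 0 + X 1 + X 2, X 3, X 4] ![X 0, X 2 - X 0 - X 1, X 1, X 3, X 4] (by
    intro i
    fin_cases i <;> simp <;> ring)
  convert this using 1
  ext1 i
  fin_cases i <;> simp [g, add_pow_char]

theorem ind_0_2_5 : AlgebraicIndependent (ZMod 2) ![g 0, g 2, g 5, g 14, g 15] := by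
  have := ind_of_inv ind_0_1_2 ![X 0, X 2, X 1 + X 2, X 3, X 4] ![X 0, X 2 - X 1, X 1, X 3, X 4] (by
    intro i
    fin_cases i <;> simp <;> ring)
  convert this using 1
  ext1 i
  fin_cases i <;> simp [g, add_pow_char]

theorem ind_1_2_3 : AlgebraicIndependent (ZMod 2) ![g 1, g 2, g 3, g 14, g 15] := by
  have := ind_of_inv ind_0_1_2 ![X 1, X 2, X 0 + X 1, X 3, X 4] ![X 2 - X 0, X 0, X 1, X 3, X 4] (by
    intro i
    fin_cases i <;> simp <;> ring)
  convert this using 1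
  ext1 i
  fin_cases i <;> simp [g, add_pow_char]

theorem ind_0_1_4 : AlgebraicIndependent (ZMod 2) ![g 0, g 1, g 4, g 14, g 15] := by
  have := ind_of_inv ind_0_1_2 ![X 0, X 1, X 0 + X 2, X 3, X 4] ![X 0, X 1, X 2 - X 0, X 3, X 4] (by
    intro i
    fin_cases i <;> simp <;> ring)
  convert this using 1
  ext1 i
  fin_cases i <;> simp [g, add_pow_char]

theorem dep_0_1_3 : ¬ AlgebraicIndependent (ZMod 2) ![g 0, g 1, g 3, g 14, g 15] :=
  dep_of_rel _ (X 0 + X 1 - X 2) ![1, 0, 0, 0, 0] (by simp) (by simp [g, add_pow_char] <;> ring)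

theorem dep_0_2_4 : ¬ AlgebraicIndependent (ZMod 2) ![g 0, g 2, g 4, g 14, g 15] :=
  dep_of_rel _ (X 0 + X 1 - X 2) ![1, 0, 0, 0, 0] (by simp) (by simp [g, add_pow_char] <;> ring)

theorem dep_1_2_5 : ¬ AlgebraicIndependent (ZMod 2) ![g 1, g 2, g 5, g 14, g 15] :=
  dep_of_rel _ (X 0 + X 1 - X 2) ![1, 0, 0, 0, 0] (by simp) (by simp [g, add_pow_char] <;> ring)

theorem dep_0_5_6 : ¬ AlgebraicIndependent (ZMod 2) ![g 0, g 5, g 6, g 14, g 15] :=
  dep_of_rel _ (X 0 + X 1 - X 2) ![1, 0, 0, 0, 0] (by simp) (by simp [g, add_pow_char] <;> ring)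

theorem dep_1_4_6 : ¬ AlgebraicIndependent (ZMod 2) ![g 1, g 4, g 6, g 14, g 15] :=
  dep_of_rel _ (X 0 + X 1 - X 2) ![1, 0, 0, 0, 0] (by simp) (by simp [g, add_pow_char] <;> ring)

theorem dep_2_3_6 : ¬ AlgebraicIndependent (ZMod 2) ![g 2, g 3, g 6, g 14, g 15] :=
  dep_of_rel _ (X 0 + X 1 - X 2) ![1, 0, 0, 0, 0] (by simp) (by simp [g, add_pow_char] <;> ring)

theorem dep_3_4_5 : ¬ AlgebraicIndependent (ZMod 2) ![g 3, g 4, g 5, g 14, g 15] :=
  dep_of_rel _ (X 0 + X 1 - X 2) ![1, 0, 0, 0, 0] (by simp) (by simp [g, add_pow_char]; linear_combination (X 0 ^ 2) * two)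

theorem dep_7_8_10 : ¬ AlgebraicIndependent (ZMod 2) ![g 7, g 8, g 10, g 14, g 15] :=
  dep_of_rel _ (X 0 * X 1 - X 2 * X 3) ![1, 1, 0, 0, 0] (by simp) (by simp [g]; ring)

theorem dep_7_9_11 : ¬ AlgebraicIndependent (ZMod 2) ![g 7, g 9, g 11, g 14, g 15] :=
  dep_of_rel _ (X 0 * X 4 - X 1 * X 2) ![1, 0, 0, 0, 1] (by simp) (by simp [g]; ring)

theorem dep_8_9_12 : ¬ AlgebraicIndependent (ZMod 2) ![g 8, g 9, g 12, g 14, g 15] :=
  dep_of_rel _ (X 1 * X 3 - X 0 * X 2) ![0, 1, 0, 1, 0] (by simp) (by simp [g]; ring)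

theorem dep_7_12_13 : ¬ AlgebraicIndependent (ZMod 2) ![g 7, g 12, g 13, g 14, g 15] :=
  dep_of_rel _ (X 0 * X 4 - X 2 * X 1) ![1, 0, 0, 0, 1] (by simp) (by simp [g]; ring)

theorem dep_8_11_13 : ¬ AlgebraicIndependent (ZMod 2) ![g 8, g 11, g 13, g 14, g 15] :=
  dep_of_rel _ (X 2 * X 3 - X 0 * X 1) ![0, 0, 1, 1, 0] (by simp) (by simp [g]; ring)

theorem dep_9_10_13 : ¬ AlgebraicIndependent (ZMod 2) ![g 9, g 10, g 13, g 14, g 15] :=
  dep_of_rel _ (X 0 * X 2 - X 1 * X 4) ![1, 0, 1, 0, 0] (by simp) (by simp [g]; ring)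

end Pool.Agent.H2.AlgM
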