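import Mathlib

set_option autoImplicit false

namespace Pool.Agent.H2.Amn

open Filter Topology

variable {P P' : Type} [Group P] [Group P']

def B {α : Type} (f : α → ℝ) : Prop := ∀ x, 0 ≤ f x ∧ f x ≤ 1

/-- a left invariant mean on the subgroup `H` -/
structure Mean (H : Subgroup P) (M : (P → ℝ) → ℝ) : Prop where
  bd : ∀ f, B f → 0 ≤ M f ∧ M f ≤ 1
  one : M (fun _ => 1) = 1
  add : ∀ f g, B f → B g → B (fun x => f x + g x) → M (fun x => f x + g x) = M f + M g
  loc : ∀ f g, (∀ x ∈ H, f x = g x) → M f = M g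
  inv : ∀ h ∈ H, ∀ f, B f → M (fun x => f (h * x)) = M f

def Am (H : Subgroup P) : Prop := ∃ M, Mean H M

lemma Am.bot : Am (⊥ : Subgroup P) :=
  ⟨fun f => f 1, fun _ h => h 1, rfl, fun _ _ _ _ _ => rfl, fun _ _ h => h 1 (one_mem _),
    fun h hh f _ => by simp [Subgroup.mem_bot.1 hh]⟩

lemma ulim {ι : Type} (U : Ultrafilter ι) (d : ι → ℝ) (h : B d) :
    Tendsto d U (𝓝 (limUnder U d)) ∧ 0 ≤ limUnder U d ∧ limUnder U d ≤ 1 := by
  obtain ⟨x, hx, h⟩ := (isCompact_Icc (a := (0 : ℝ)) (b := 1)).ultrafilter_le_nhds (U.map d)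
    (by rw [Ultrafilter.coe_map, le_principal_iff, mem_map]; exact univ_mem' h)
  have h' : Tendsto d U (𝓝 x) := h
  rw [h'.limUnder_eq]
  exact ⟨h', hx⟩

lemma Am.union {ι : Type} [SemilatticeSup ι] [Nonempty ι] (K : ι → Subgroup P) (hK : Monotone K)
    (H : Subgroup P) (h1 : ∀ i, K i ≤ H) (h2 : ∀ g ∈ H, ∃ i, g ∈ K i) (h : ∀ i, Am (K i)) :
    Am H := by
  choose M hM using h
  let U : Ultrafilter ι := Ultrafilter.of atTop
  have hU : (U : Filter ι) ≤ atTop := Ultrafilter.of_le _
  have b : ∀ f, B f → B fun i => M i f := fun f hf i => (hM i).bd f hf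
  refine ⟨fun f => limUnder U fun i => M i f, fun f hf => (ulim U _ (b f hf)).2, ?_, ?_, ?_, ?_⟩
  · simp only [fun i => (hM i).one]
    exact tendsto_const_nhds.limUnder_eq
  · intro f g hf hg hfg
    simp only [fun i => (hM i).add f g hf hg hfg]
    exact ((ulim U _ (b f hf)).1.add (ulim U _ (b g hg)).1).limUnder_eq
  · intro f g e
    simp only [fun i => (hM i).loc f g fun x hx => e x (h1 i hx)]
  · intro g hg f hf
    obtain ⟨i, hi⟩ := h2 g hg
    refine ((ulim U _ (b f hf)).1.congr' ?_).limUnder_eq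
    filter_upwards [hU (eventually_ge_atTop i)] with k hk
    exact ((hM k).inv g (hK hk hi) f hf).symm

def invSub (M : (P → ℝ) → ℝ) : Subgroup P where
  carrier := {h | ∀ f, B f → M (fun x => f (h * x)) = M f}
  one_mem' := fun f _ => by simp
  mul_mem' := by
    intro a b ha hb f hf
    simp only [mul_assoc]
    exact (hb (fun x => f (a * x)) fun x => hf _).trans (ha f hf)
  inv_mem' := by
    intro a ha f hf
    have := ha (fun x => f (a⁻¹ * x)) fun x => hf _
    simpa using this.symm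

lemma Am.zpowers (a : P) : Am (Subgroup.zpowers a) := by
  let U : Ultrafilter ℕ := Ultrafilter.of atTop
  have hU : (U : Filter ℕ) ≤ atTop := Ultrafilter.of_le _
  let d : (P → ℝ) → ℕ → ℝ := fun f n => (∑ i ∈ Finset.range (n + 1), f (a ^ i)) / ((n : ℝ) + 1)
  have b : ∀ f, B f → B (d f) := by
    intro f hf n
    have p : (0 : ℝ) < (n : ℝ) + 1 := by positivity
    refine ⟨div_nonneg (Finset.sum_nonneg fun i _ => (hf _).1) p.le, ?_⟩
    rw [div_le_one p]
    simpa using Finset.sum_le_sum (s := Finset.range (n + 1)) fun i _ => (hf (a ^ i)).2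
  refine ⟨fun f => limUnder U (d f), fun f hf => (ulim U _ (b f hf)).2, ?_, ?_, ?_, ?_⟩
  · have : d (fun _ => 1) = fun _ => 1 := by
      funext n
      have p : (0 : ℝ) < (n : ℝ) + 1 := by positivity
      simp [d, p.ne']
    simp only [this]
    exact tendsto_const_nhds.limUnder_eq
  · intro f g hf hg hfg
    have : d (fun x => f x + g x) = fun n => d f n + d g n := by
      funext n; simp only [d, Finset.sum_add_distrib, add_div]
    simp only [this]
    exact ((ulim U _ (b f hf)).1.add (ulim U _ (b g hg)).1).limUnder_eq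
  · intro f g e
    have : d f = d g := by
      funext n
      simp only [d, fun i : ℕ => e (a ^ i) (Subgroup.npow_mem_zpowers a i)]
    simp only [this]
  · have : Subgroup.zpowers a ≤ invSub fun f => limUnder U (d f) := by
      rw [Subgroup.zpowers_le]
      intro f hf
      have e : d (fun x => f (a * x)) = fun n => d f n + (f (a ^ (n + 1)) - f 1) / ((n : ℝ) + 1) := by
        funext n
        simp only [d, ← add_div, ← pow_succ']
        congr 1
        have h1 := Finset.sum_range_succ (fun i => f (a ^ i)) (n + 1)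
        have h2 := Finset.sum_range_succ' (fun i => f (a ^ i)) (n + 1)
        rw [pow_zero] at h2
        linarith
      have z : Tendsto (fun n : ℕ => (f (a ^ (n + 1)) - f 1) / ((n : ℝ) + 1)) atTop (𝓝 0) := by
        refine squeeze_zero_norm (fun n => ?_) tendsto_one_div_add_atTop_nhds_zero_nat
        have p : (0 : ℝ) < (n : ℝ) + 1 := by positivity
        rw [norm_div, Real.norm_of_nonneg p.le]
        refine div_le_div_of_nonneg_right ?_ p.le
        rw [Real.norm_eq_abs, abs_le]
        have := hf (a ^ (n + 1)); have := hf 1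
        constructor <;> linarith
      simp only [e]
      have := ((ulim U _ (b f hf)).1.add (z.mono_left hU)).limUnder_eq
      rw [add_zero] at this
      exact this
    exact fun h hh => this hh

/-- the normalizer -/
def Nz (W : Subgroup P) : Subgroup P where
  carrier := {g | ∀ w ∈ W, g * w * g⁻¹ ∈ W ∧ g⁻¹ * w * g ∈ W}
  one_mem' := fun w hw => by simpa using hw
  mul_mem' := by
    intro a b ha hb w hw
    exact ⟨by simpa [mul_assoc] using (ha _ (hb w hw).1).1,
      by simpa [mul_assoc] using (hb _ (ha w hw).2).2⟩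
  inv_mem' := by
    intro a ha w hw
    simpa using (ha w hw).symm

lemma le_Nz {J W : Subgroup P} (h : ∀ j ∈ J, ∀ w ∈ W, j * w * j⁻¹ ∈ W) : J ≤ Nz W :=
  fun j hj w hw => ⟨h j hj w hw, by simpa using h j⁻¹ (inv_mem hj) w hw⟩

lemma Am.sup {W J : Subgroup P} (h : J ≤ Nz W) (hW : Am W) (hJ : Am J) : Am (W ⊔ J) := by
  obtain ⟨M, hM⟩ := hW
  obtain ⟨N, hN⟩ := hJ
  have b : ∀ f : P → ℝ, B f → B fun j => M fun w => f (j * w) :=
    fun f hf j => hM.bd _ fun w => hf _
  refine ⟨fun f => N fun j => M fun w => f (j * w), fun f hf => hN.bd _ (b f hf), ?_, ?_, ?_, ?_⟩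
  · simp only [hM.one, hN.one]
  · intro f g hf hg hfg
    have e : ∀ j, (M fun w => f (j * w) + g (j * w)) =
        (M fun w => f (j * w)) + M fun w => g (j * w) :=
      fun j => hM.add _ _ (fun w => hf _) (fun w => hg _) fun w => hfg _
    simp only [e]
    exact hN.add _ _ (b f hf) (b g hg) fun j => by
      have := b _ hfg j
      simp only [e] at this
      exact this
  · intro f g e
    exact hN.loc _ _ fun j hj => hM.loc _ _ fun w hw =>
      e _ (mul_mem (Subgroup.mem_sup_right hj) (Subgroup.mem_sup_left hw))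
  · have : W ⊔ J ≤ invSub fun f => N fun j => M fun w => f (j * w) := by
      refine sup_le (fun a ha f hf => hN.loc _ _ fun j hj => ?_) fun a ha f hf => ?_
      · have := hM.inv _ (h hj a ha).2 (fun w => f (j * w)) fun w => hf _
        simpa [mul_assoc] using this
      · have := hN.inv a ha _ (b f hf)
        simpa [mul_assoc] using this
    exact fun h hh => this hh

lemma Am.map (φ : P →* P') {H : Subgroup P} (h : Am H) : Am (H.map φ) := by
  obtain ⟨M, hM⟩ := h
  refine ⟨fun f => M fun x => f (φ x), fun f hf => hM.bd _ fun x => hf _, hM.one,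
    fun f g hf hg hfg => hM.add _ _ (fun x => hf _) (fun x => hg _) fun x => hfg _,
    fun f g e => hM.loc _ _ fun x hx => e _ ⟨x, hx, rfl⟩, ?_⟩
  rintro _ ⟨h, hh, rfl⟩ f hf
  simpa using hM.inv h hh (fun x => f (φ x)) fun x => hf _

lemma Am.mono {K H : Subgroup P} (hle : K ≤ H) (h : Am H) : Am K := by
  obtain ⟨M, hM⟩ := h
  obtain ⟨S, hS, -⟩ := K.exists_isComplement_right 1
  refine ⟨fun f => M fun x => f (hS.equiv x).1, fun f hf => hM.bd _ fun x => hf _, hM.one,
    fun f g hf hg hfg => hM.add _ _ (fun x => hf _) (fun x => hg _) fun x => hfg _,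
    fun f g e => hM.loc _ _ fun x _ => e _ (hS.equiv x).1.2, fun k hk f hf => ?_⟩
  have := hM.inv k (hle hk) (fun x => f (hS.equiv x).1) fun x => hf _
  rw [← this]
  congr 1
  funext x
  rw [hS.equiv_mul_left_of_mem hk]
  rfl

lemma Am.ext (φ : P →* P') {H : Subgroup P} (h1 : Am (H.map φ)) (h2 : Am (H ⊓ φ.ker)) :
    Am H := by
  obtain ⟨N, hN⟩ := h1
  obtain ⟨M, hM⟩ := h2
  have : ∀ y : P', ∃ x, y ∈ H.map φ → x ∈ H ∧ φ x = y := fun y => by
    by_cases hy : y ∈ H.map φ
    · obtain ⟨x, hx⟩ := hy; exact ⟨x, fun _ => hx⟩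
    · exact ⟨1, fun h => (hy h).elim⟩
  choose σ hσ using this
  have b : ∀ f : P → ℝ, B f → B fun j => M fun w => f (σ j * w) :=
    fun f hf j => hM.bd _ fun w => hf _
  refine ⟨fun f => N fun j => M fun w => f (σ j * w), fun f hf => hN.bd _ (b f hf), ?_, ?_, ?_, ?_⟩
  · simp only [hM.one, hN.one]
  · intro f g hf hg hfg
    have e : ∀ j, (M fun w => f (σ j * w) + g (σ j * w)) =
        (M fun w => f (σ j * w)) + M fun w => g (σ j * w) :=
      fun j => hM.add _ _ (fun w => hf _) (fun w => hg _) fun w => hfg _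
    simp only [e]
    exact hN.add _ _ (b f hf) (b g hg) fun j => by
      have := b _ hfg j
      simp only [e] at this
      exact this
  · intro f g e
    exact hN.loc _ _ fun j hj => hM.loc _ _ fun w hw => e _ (mul_mem (hσ j hj).1 hw.1)
  · intro h hh f hf
    have hh' : φ h ∈ H.map φ := ⟨h, hh, rfl⟩
    refine Eq.trans (hN.loc _ _ fun y hy => ?_) (hN.inv (φ h) hh' _ (b f hf))
    have hy' := mul_mem hh' hy
    have m : (σ (φ h * y))⁻¹ * h * σ y ∈ H ⊓ φ.ker :=
      ⟨H.mul_mem (H.mul_mem (H.inv_mem (hσ _ hy').1) hh) (hσ _ hy).1, by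
        show φ _ = 1
        rw [map_mul, map_mul, map_inv, (hσ _ hy').2, (hσ _ hy).2]; group⟩
    have := hM.inv _ m (fun w => f (σ (φ h * y) * w)) fun w => hf _
    simpa [mul_assoc] using this

lemma Am.comm (H : Subgroup P) (h : ∀ a ∈ H, ∀ b ∈ H, a * b = b * a) : Am H := by
  classical
  refine Am.union (ι := Finset H) (fun F => ⨆ a ∈ F, Subgroup.zpowers a.1)
    (fun F F' hF => biSup_mono fun a ha => Finset.mem_of_subset hF ha) H
    (fun F => iSup₂_le fun a _ => Subgroup.zpowers_le.2 a.2)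
    (fun g hg => ⟨{⟨g, hg⟩}, by simp⟩) fun F => ?_
  induction F using Finset.induction_on with
  | empty => simpa using Am.bot
  | insert a F _ ih =>
    rw [Finset.iSup_insert]
    refine Am.sup (le_Nz fun j hj w hw => ?_) (Am.zpowers _) ih
    have hj' : j ∈ H := (iSup₂_le fun a _ => Subgroup.zpowers_le.2 a.2 :
      (⨆ a ∈ F, Subgroup.zpowers a.1) ≤ H) hj
    rw [h j hj' w (Subgroup.zpowers_le.2 a.2 hw), mul_inv_cancel_right]
    exact hw

lemma Am.measure {H : Subgroup P} (h : Am H) : ∃ m : Set H → ℝ,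
    (∀ A, 0 ≤ m A) ∧ m Set.univ = 1 ∧
    (∀ A B : Set H, Disjoint A B → m (A ∪ B) = m A + m B) ∧
    (∀ (g : H) (A : Set H), m ((fun h => g * h) '' A) = m A) := by
  classical
  obtain ⟨M, hM⟩ := h
  let c : Set H → P → ℝ := fun A x => if ∃ h : x ∈ H, (⟨x, h⟩ : H) ∈ A then 1 else 0
  have b : ∀ A, B (c A) := fun A x => by simp only [c]; split_ifs <;> norm_num
  refine ⟨fun A => M (c A), fun A => (hM.bd _ (b A)).1, ?_, fun A A' hd => ?_, fun g A => ?_⟩
  · exact (hM.loc _ _ fun x hx => by simp [c, hx]).trans hM.one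
  · have e : c (A ∪ A') = fun x => c A x + c A' x := by
      funext x
      by_cases hx : x ∈ H
      · have : (⟨x, hx⟩ : H) ∈ A → (⟨x, hx⟩ : H) ∉ A' := fun h => Set.disjoint_left.1 hd h
        by_cases h1 : (⟨x, hx⟩ : H) ∈ A <;> by_cases h2 : (⟨x, hx⟩ : H) ∈ A' <;>
          simp_all [c]
      · simp [c, hx]
    show M (c (A ∪ A')) = _
    rw [e]
    exact hM.add _ _ (b A) (b A') (e ▸ b _)
  · refine (hM.inv g g.2 _ (b _)).symm.trans (hM.loc _ _ fun x hx => ?_)
    have hx' : g.1 * x ∈ H := mul_mem g.2 hx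
    have : (⟨g.1 * x, hx'⟩ : H) ∈ (fun h => g * h) '' A ↔ (⟨x, hx⟩ : H) ∈ A :=
      (mul_right_injective g).mem_set_image (a := ⟨x, hx⟩)
    simp only [c, hx, hx', exists_true_left, this]

end Pool.Agent.H2.Amn
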