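import Pool.Agent.H2.Am1

set_option autoImplicit false

namespace Pool.Agent.H2.Amn

open Finsupp

section
variable {X : Type} [LinearOrder X]

abbrev Y (X : Type) := Lex (X →₀ ℤ)

lemma lt_def {a b : Y X} : a < b ↔ ∃ i, (∀ j, j < i → ofLex a j = ofLex b j) ∧ ofLex a i < ofLex b i :=
  Iff.rfl

def SM (X : Type) [LinearOrder X] : Subgroup (Equiv.Perm X) where
  carrier := {g | StrictMono g}
  one_mem' := strictMono_id
  mul_mem' := fun {a b} ha hb => StrictMono.comp (g := a) (f := b) ha hb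
  inv_mem' := by
    intro a ha x y h
    refine (StrictMono.lt_iff_lt ha).1 ?_
    simpa using h

noncomputable def io (x : X) : Y X := toLex (single x (-1))

lemma io_sm : StrictMono (io : X → Y X) := by
  intro x y h
  refine lt_def.2 ⟨x, fun j hj => ?_, ?_⟩
  · simp [io, single_eq_of_ne hj.ne, single_eq_of_ne (hj.trans h).ne]
  · simp [io, single_eq_of_ne h.ne]

noncomputable def jj : Equiv.Perm X →* Equiv.Perm (Y X) :=
  MonoidHom.mk' (fun g =>
    { toFun := fun f => toLex (equivMapDomain g (ofLex f))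
      invFun := fun f => toLex (equivMapDomain g.symm (ofLex f))
      left_inv := fun f => ofLex.injective (by ext x; simp)
      right_inv := fun f => ofLex.injective (by ext x; simp) })
    fun a b => Equiv.ext fun f => ofLex.injective (by ext x; rfl)

omit [LinearOrder X] in
lemma jj_apply (g : Equiv.Perm X) (f : Y X) (x : X) : ofLex (jj g f) x = ofLex f (g⁻¹ x) := rfl

omit [LinearOrder X] in
lemma jj_io (g : Equiv.Perm X) (x : X) : jj g (toLex (single x (-1))) = toLex (single (g x) (-1)) :=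
  congrArg toLex (equivMapDomain_single g x (-1 : ℤ))

lemma jj_sm (g : Equiv.Perm X) (hg : g ∈ SM X) : jj g ∈ SM (Y X) := by
  intro a b h
  obtain ⟨i, h1, h2⟩ := lt_def.1 h
  refine lt_def.2 ⟨g i, fun j hj => ?_, ?_⟩
  · rw [jj_apply, jj_apply]
    exact h1 _ (by simpa using (SM X).inv_mem hg hj)
  · simpa [jj_apply] using h2

def Agree (x : X) (f f' : Y X) : Prop := ∀ j, j < x → ofLex f j = ofLex f' j

lemma agree_add {x y : X} (h : x ≤ y) (f : Y X) (c : ℤ) :
    Agree x (toLex (ofLex f + single y c)) f := fun j hj => by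
  simp [single_eq_of_ne (hj.trans_le h).ne]

def A (x : X) : Subgroup (Equiv.Perm (Y X)) where
  carrier := {φ | ∃ c : Y X → ℤ, (∀ f f', Agree x f f' → c f = c f') ∧
    ∀ f, φ f = toLex (ofLex f + single x (c f))}
  one_mem' := ⟨0, fun _ _ _ => rfl, fun f => by simp⟩
  mul_mem' := by
    rintro a b ⟨c, h1, h2⟩ ⟨d, k1, k2⟩
    refine ⟨fun f => d f + c f, fun f f' h => by simp only [h1 f f' h, k1 f f' h], fun f => ?_⟩
    rw [Equiv.Perm.mul_apply, k2, h2, h1 _ _ (agree_add le_rfl f _)]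
    simp [add_assoc]
  inv_mem' := by
    rintro a ⟨c, h1, h2⟩
    refine ⟨fun f => - c f, fun f f' h => by simp only [h1 f f' h], fun f => ?_⟩
    rw [Equiv.Perm.inv_eq_iff_eq, h2, h1 _ _ (agree_add le_rfl f _)]
    simp

lemma A_comm (x : X) : ∀ a ∈ A x, ∀ b ∈ A x, a * b = b * a := by
  rintro a ⟨c, h1, h2⟩ b ⟨d, k1, k2⟩
  refine Equiv.ext fun f => ?_
  rw [Equiv.Perm.mul_apply, Equiv.Perm.mul_apply, k2, h2, h2 f, k2, h1 _ _ (agree_add le_rfl f _),
    k1 _ _ (agree_add le_rfl f _)]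
  simp only [ofLex_toLex, add_right_comm]

lemma A_sm (x : X) : A x ≤ SM (Y X) := by
  rintro φ ⟨c, h1, h2⟩ a b h
  obtain ⟨i, k1, k2⟩ := lt_def.1 h
  rw [h2, h2]
  rcases lt_or_ge i x with hi | hi
  · refine lt_def.2 ⟨i, fun j hj => ?_, ?_⟩
    · simp [single_eq_of_ne (hj.trans hi).ne, k1 j hj]
    · simpa [single_eq_of_ne hi.ne] using k2
  · rw [h1 a b fun j hj => k1 j (hj.trans_le hi)]
    refine lt_def.2 ⟨i, fun j hj => ?_, ?_⟩
    · simp [k1 j hj]
    · simpa using k2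

lemma A_norm {x y : X} (h : y < x) : A y ≤ Nz (A x) := by
  refine le_Nz ?_
  rintro φ hφ ψ ⟨d, k1, k2⟩
  obtain ⟨c', h1', h2'⟩ := (A y).inv_mem hφ
  obtain ⟨c, h1, h2⟩ := hφ
  refine ⟨fun f => d (φ⁻¹ f), fun f f' e => k1 _ _ fun j hj => ?_, fun f => ?_⟩
  · rw [h2', h2', h1' f f' fun j hj => e j (hj.trans h)]
    simp [e j hj]
  · rw [Equiv.Perm.mul_apply, Equiv.Perm.mul_apply, k2, h2, h1 _ _ (agree_add h.le _ _)]
    have := h2 (φ⁻¹ f)
    rw [show φ (φ⁻¹ f) = f by simp] at this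
    rw [ofLex_toLex, add_right_comm]
    exact congrArg (fun t => toLex (ofLex t + single x (d (φ⁻¹ f)))) this.symm

lemma A_conj (g : Equiv.Perm X) (hg : g ∈ SM X) (x : X) (ψ : Equiv.Perm (Y X)) (h : ψ ∈ A x) :
    jj g * ψ * (jj g)⁻¹ ∈ A (g x) := by
  obtain ⟨d, k1, k2⟩ := h
  rw [← map_inv]
  refine ⟨fun f => d (jj g⁻¹ f), fun f f' e => k1 _ _ fun j hj => ?_, fun f => ?_⟩
  · rw [jj_apply, jj_apply]
    exact e _ (hg hj)
  · rw [Equiv.Perm.mul_apply, Equiv.Perm.mul_apply, k2]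
    apply ofLex.injective
    ext j
    rw [jj_apply]
    simp only [ofLex_toLex, Finsupp.add_apply, jj_apply, inv_inv]
    congr 1
    · simp
    · simp only [single_apply, Equiv.Perm.eq_inv_iff_eq]

noncomputable def W (X : Type) [LinearOrder X] : Subgroup (Equiv.Perm (Y X)) := ⨆ x, A x

lemma W_am : Am (W X) := by
  classical
  refine Am.union (ι := Finset X) (fun T => ⨆ x ∈ T, A x)
    (fun F F' hF => biSup_mono fun a ha => Finset.mem_of_subset hF ha) _
    (fun F => iSup₂_le fun a _ => le_iSup A a) (fun g hg => ?_) fun T => ?_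
  · refine Subgroup.iSup_induction A (C := fun g => ∃ T : Finset X, g ∈ ⨆ x ∈ T, A x) hg
      (fun x g hg => ⟨{x}, by simpa using hg⟩) ⟨∅, one_mem _⟩ ?_
    rintro a b ⟨T, hT⟩ ⟨T', hT'⟩
    exact ⟨T ∪ T', mul_mem
      ((biSup_mono fun a ha => Finset.mem_union_left _ ha : (⨆ x ∈ T, A x) ≤ ⨆ x ∈ T ∪ T', A x) hT)
      ((biSup_mono fun a ha => Finset.mem_union_right _ ha : (⨆ x ∈ T', A x) ≤ ⨆ x ∈ T ∪ T', A x) hT')⟩
  · induction T using Finset.induction_on_max with
    | empty => simpa using Am.bot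
    | insert x T hT ih =>
      rw [Finset.iSup_insert]
      exact Am.sup (iSup₂_le fun y hy => A_norm (hT y hy)) (Am.comm _ (A_comm x)) ih

noncomputable def nxt (G : Subgroup (Equiv.Perm X)) : Subgroup (Equiv.Perm (Y X)) :=
  W X ⊔ G.map jj

lemma nxt_sm {G : Subgroup (Equiv.Perm X)} (h : G ≤ SM X) : nxt G ≤ SM (Y X) :=
  sup_le (iSup_le A_sm) (by rintro _ ⟨g, hg, rfl⟩; exact jj_sm g (h hg))

lemma nxt_am {G : Subgroup (Equiv.Perm X)} (h : G ≤ SM X) (hG : Am G) : Am (nxt G) := by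
  refine Am.sup (le_Nz ?_) W_am (hG.map _)
  rintro _ ⟨g, hg, rfl⟩ w hw
  refine Subgroup.iSup_induction A (C := fun w => jj g * w * (jj g)⁻¹ ∈ W X) hw
    (fun x w hw => le_iSup A (g x) (A_conj g (h hg) x w hw)) (by simp) fun a b ha hb => ?_
  have := mul_mem ha hb
  simpa [mul_assoc] using this

lemma jj_mem {G : Subgroup (Equiv.Perm X)} {g : Equiv.Perm X} (h : g ∈ G) : jj g ∈ nxt G :=
  Subgroup.mem_sup_right ⟨g, h, rfl⟩

lemma exists_e (u : X) : ∃ e ∈ A u, e (io u) = 0 ∧ ∀ b, b < u → e (io b) = io b := by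
  classical
  let c : Y X → ℤ := fun f => if Agree u f 0 then 1 else 0
  have hc : ∀ f f', Agree u f f' → c f = c f' := fun f f' h => by
    have : Agree u f 0 ↔ Agree u f' 0 :=
      ⟨fun k j hj => (h j hj).symm.trans (k j hj), fun k j hj => (h j hj).trans (k j hj)⟩
    simp only [c, this]
  let e : Equiv.Perm (Y X) :=
    { toFun := fun f => toLex (ofLex f + single u (c f))
      invFun := fun f => toLex (ofLex f + single u (- c f))
      left_inv := fun f => by
        simp only [hc _ _ (agree_add le_rfl f _)]; simp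
      right_inv := fun f => by
        simp only [hc _ _ (agree_add le_rfl f _)]; simp }
  refine ⟨e, ⟨c, hc, fun f => rfl⟩, ?_, fun b hb => ?_⟩
  · have : Agree u (io u) 0 := fun j hj => by simp [io, single_eq_of_ne hj.ne]
    show toLex (ofLex (io u) + single u (c (io u))) = 0
    simp only [c, if_pos this]
    simp [io]
  · have : ¬ Agree u (io b) 0 := fun k => by simpa [io] using k b hb
    show toLex (ofLex (io b) + single u (c (io b))) = _
    simp only [c, if_neg this]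
    simp

lemma step {G : Subgroup (Equiv.Perm X)} (h : G ≤ SM X) {n : ℕ} (a b : Fin n → X)
    (ha : StrictMono a) (hb : StrictMono b) (m : ℕ) (g : Equiv.Perm X) (hg : g ∈ G)
    (e : ∀ i : Fin n, i.val < m → g (a i) = b i) :
    ∃ g' ∈ nxt G, ∀ i : Fin n, i.val < m + 1 → g' (io (a i)) = io (b i) := by
  by_cases hm : m < n
  · obtain ⟨e1, m1, p1, q1⟩ := exists_e (g (a ⟨m, hm⟩))
    obtain ⟨e2, m2, p2, q2⟩ := exists_e (b ⟨m, hm⟩)
    refine ⟨e2⁻¹ * e1 * jj g, mul_mem (mul_mem (inv_mem (Subgroup.mem_sup_left (le_iSup A _ m2)))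
      (Subgroup.mem_sup_left (le_iSup A _ m1))) (jj_mem hg), fun i hi => ?_⟩
    rw [Equiv.Perm.mul_apply, Equiv.Perm.mul_apply, Equiv.Perm.inv_eq_iff_eq,
      show jj g (io (a i)) = io (g (a i)) from jj_io g _]
    rcases Nat.lt_succ_iff_lt_or_eq.1 hi with hi | hi
    · have hl : i < ⟨m, hm⟩ := hi
      rw [q1 _ (h hg (ha hl)), q2 _ (hb hl), e i hi]
    · obtain rfl : i = ⟨m, hm⟩ := Fin.ext hi
      rw [p1, p2]
  · refine ⟨jj g, jj_mem hg, fun i _ => ?_⟩
    rw [show jj g (io (a i)) = io (g (a i)) from jj_io g _, e i (by omega)]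

end

end Pool.Agent.H2.Amn
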