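import Mathlib

set_option autoImplicit false

namespace Pool.Agent.H2.BA

open Filter Real

/-! ### a quasimorphism on a free group that is far from all homomorphisms -/

noncomputable def kk : Equiv.Perm ℝ := Equiv.ofBijective (fun x => x + sin x / 2) (by
  constructor
  · intro x y h
    have h1 := abs_sin_sub_sin_le x y
    have h2 : sin x - sin y = -2 * (x - y) := by simp only at h; linarith
    rw [h2, abs_mul] at h1
    have : |x - y| = 0 := by
      have := abs_nonneg (x - y)
      norm_num at h1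
      linarith
    linarith [abs_eq_zero.1 this]
  · refine Continuous.surjective (by fun_prop) ?_ ?_
    · refine tendsto_atTop_mono (fun x => ?_) (tendsto_atTop_add_const_right _ (-1) tendsto_id)
      have := neg_one_le_sin x
      simp only [id]; linarith
    · refine tendsto_atBot_mono (fun x => ?_) (tendsto_atBot_add_const_right _ 1 tendsto_id)
      have := sin_le_one x
      simp only [id]; linarith)

lemma kk_apply (x : ℝ) : kk x = x + sin x / 2 := rfl

def Good : Subgroup (Equiv.Perm ℝ) where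
  carrier := {g | StrictMono g ∧ ∀ (x : ℝ) (n : ℤ), g (x + n * (2 * π)) = g x + n * (2 * π)}
  one_mem' := ⟨strictMono_id, fun _ _ => rfl⟩
  mul_mem' := fun {a b} ha hb => ⟨StrictMono.comp (g := a) (f := b) ha.1 hb.1, fun x n => by
    rw [Equiv.Perm.mul_apply, hb.2, ha.2]; rfl⟩
  inv_mem' := fun {a} ha => ⟨fun x y h => (StrictMono.lt_iff_lt ha.1).1 (by simpa using h),
    fun x n => by rw [Equiv.Perm.inv_eq_iff_eq, ha.2]; simp⟩

abbrev Lam := FreeGroup (Fin 3)

noncomputable def rho : Lam →* Equiv.Perm ℝ :=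
  FreeGroup.lift ![kk, Equiv.addRight (π / 2), Equiv.addRight (π / 2 + 1 / 2)]

lemma rho_good (γ : Lam) : rho γ ∈ Good := by
  induction γ using FreeGroup.induction_on with
  | C1 => rw [map_one]; exact one_mem _
  | of i =>
    rw [rho, FreeGroup.lift_apply_of]
    fin_cases i
    · refine ⟨fun x y h => ?_, fun x n => ?_⟩
      · show x + sin x / 2 < y + sin y / 2
        have h1 := abs_sin_sub_sin_le x y
        rw [abs_of_neg (sub_neg.2 h)] at h1
        have := le_abs_self (sin x - sin y)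
        linarith
      · show x + n * (2 * π) + sin (x + n * (2 * π)) / 2 = x + sin x / 2 + n * (2 * π)
        rw [sin_add_int_mul_two_pi]; ring
    · exact ⟨fun x y h => by simpa using h, fun x n => by simp; ring⟩
    · exact ⟨fun x y h => by simpa using h, fun x n => by simp; ring⟩
  | inv_of i h => rw [map_inv]; exact inv_mem h
  | mul a b ha hb => rw [map_mul]; exact mul_mem ha hb

noncomputable def phi (γ : Lam) : ℝ := rho γ 0

lemma phi_defect (a b : Lam) : |phi (a * b) - phi a - phi b| ≤ 2 * π := by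
  obtain ⟨h1, h2⟩ := rho_good a
  have e : phi (a * b) = rho a (phi b) := by simp [phi]
  rw [e]
  generalize phi b = y
  have p : 0 < 2 * π := two_pi_pos
  have f1 : (⌊y / (2 * π)⌋ : ℝ) * (2 * π) ≤ y := (le_div_iff₀ p).1 (Int.floor_le _)
  have f2 : y ≤ ((⌊y / (2 * π)⌋ + 1 : ℤ) : ℝ) * (2 * π) := by
    push_cast; exact ((div_lt_iff₀ p).1 (Int.lt_floor_add_one _)).le
  have g1 := h1.monotone f1
  have g2 := h1.monotone f2
  have k1 := h2 0 ⌊y / (2 * π)⌋
  have k2 := h2 0 (⌊y / (2 * π)⌋ + 1)
  rw [zero_add] at k1 k2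
  rw [k1] at g1
  rw [k2] at g2
  push_cast at g2 f2
  rw [abs_le, phi]
  constructor <;> linarith

lemma no_hom (ψ : Lam → ℝ) (hψ : ∀ a b, ψ (a * b) = ψ a + ψ b) (C : ℝ)
    (hC : ∀ a, |phi a - ψ a| ≤ C) : False := by
  have h1 : ψ 1 = 0 := by have := hψ 1 1; rw [mul_one] at this; linarith
  have hi : ∀ a, ψ a⁻¹ = - ψ a := fun a => by
    have := hψ a a⁻¹; rw [mul_inv_cancel, h1] at this; linarith
  have hp : ∀ a (n : ℕ), ψ (a ^ n) = n * ψ a := fun a n => by
    induction n with
    | zero => simpa using h1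
    | succ n ih => rw [pow_succ, hψ, ih]; push_cast; ring
  have key : ∀ a (r : ℝ), (∀ n : ℕ, phi (a ^ n) = n * r) → ψ a = r := by
    intro a r h
    by_contra hne
    have p : 0 < |r - ψ a| := abs_pos.2 (sub_ne_zero.2 (Ne.symm hne))
    obtain ⟨n, hn⟩ := exists_nat_gt (C / |r - ψ a|)
    have := hC (a ^ n)
    rw [h, hp, ← mul_sub, abs_mul, Nat.abs_cast] at this
    rw [div_lt_iff₀ p] at hn
    linarith
  have tr : ∀ (r : ℝ) (n : ℕ), ((Equiv.addRight r) ^ n) 0 = n * r := fun r n => by simp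
  have e1 := key (FreeGroup.of 1) (π / 2) fun n => by
    rw [phi, map_pow, rho, FreeGroup.lift_apply_of]; exact tr _ n
  have e2 := key (FreeGroup.of 2) (π / 2 + 1 / 2) fun n => by
    rw [phi, map_pow, rho, FreeGroup.lift_apply_of]; exact tr _ n
  have k0 : kk 0 = 0 := by simp [kk_apply]
  have e3 := key ((FreeGroup.of 2)⁻¹ * (FreeGroup.of 0 * FreeGroup.of 1 * (FreeGroup.of 0)⁻¹)) 0
    fun n => by
      rw [phi, map_pow, mul_zero]
      refine Equiv.Perm.pow_apply_eq_self_of_apply_eq_self ?_ n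
      simp only [map_mul, map_inv, rho, FreeGroup.lift_apply_of, Equiv.Perm.mul_apply]
      rw [Equiv.Perm.inv_eq_iff_eq]
      show kk (kk⁻¹ 0 + π / 2) = 0 + (π / 2 + 1 / 2)
      rw [Equiv.Perm.inv_eq_iff_eq.2 k0.symm, kk_apply]
      simp
  rw [hψ, hψ, hψ, hi, hi, e1, e2] at e3
  linarith

end Pool.Agent.H2.BA
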