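import Pool.Agent.H2.BA1

set_option autoImplicit false

namespace Pool.Agent.H2.BA

open Filter Topology MeasureTheory

/-! ### the full group of the affine action of the free group on Bernoulli space -/

abbrev K := ℕ → Bool

noncomputable def ee : Lam ≃ ℕ := (nonempty_equiv_of_countable (α := Lam) (β := ℕ)).some

noncomputable def P (γ : Lam) : K →+ K where
  toFun y := fun j => y (ee (γ⁻¹ * ee.symm j))
  map_zero' := rfl
  map_add' _ _ := rfl

lemma P_apply (γ : Lam) (y : K) (j : ℕ) : P γ y j = y (ee (γ⁻¹ * ee.symm j)) := rfl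

lemma P_one (y : K) : P 1 y = y := by
  funext j; simp [P_apply]

lemma P_mul (γ δ : Lam) (y : K) : P (γ * δ) y = P γ (P δ y) := by
  funext j; simp [P_apply, mul_assoc]

lemma P_cont (γ : Lam) : Continuous (P γ) :=
  continuous_pi fun j => continuous_apply (ee (γ⁻¹ * ee.symm j))

lemma P_inv (γ : Lam) (y : K) : P γ⁻¹ (P γ y) = y := by rw [← P_mul, inv_mul_cancel, P_one]

lemma P_inv' (γ : Lam) (y : K) : P γ (P γ⁻¹ y) = y := by rw [← P_mul, mul_inv_cancel, P_one]

def R (g : K → K) (x : K) (γ : Lam) : Prop := ∃ s : K, ∀ᶠ y in 𝓝 x, g y = P γ y + s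

lemma R.uniq {g : K → K} {x : K} {γ δ : Lam} (h : R g x γ) (k : R g x δ) : γ = δ := by
  obtain ⟨s, hs⟩ := h
  obtain ⟨t, ht⟩ := k
  have h0 := hs.self_of_nhds
  have k0 := ht.self_of_nhds
  have ten : Tendsto (fun i : ℕ => x + Pi.single i (1 : Bool)) atTop (𝓝 x) := by
    refine tendsto_pi_nhds.2 fun j => tendsto_const_nhds.congr' ?_
    filter_upwards [eventually_gt_atTop j] with i hi
    simp [Pi.single_eq_of_ne hi.ne]
  obtain ⟨i, h1, k1⟩ := (ten.eventually (hs.and ht)).exists
  have e : P γ (Pi.single i 1) = P δ (Pi.single i 1) := by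
    rw [map_add] at h1 k1
    have a1 : P γ (Pi.single i 1) = g (x + Pi.single i 1) - g x := by rw [h1, h0]; abel
    have a2 : P δ (Pi.single i 1) = g (x + Pi.single i 1) - g x := by rw [k1, k0]; abel
    rw [a1, a2]
  have e2 := congrFun e (ee (γ * ee.symm i))
  simp only [P_apply, Equiv.symm_apply_apply, inv_mul_cancel_left, Equiv.apply_symm_apply,
    Pi.single_eq_same] at e2
  by_contra hne
  rw [Pi.single_eq_of_ne] at e2
  · exact one_ne_zero e2
  · intro c
    have c2 := congrArg ee.symm c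
    rw [Equiv.symm_apply_apply, ← mul_assoc, mul_eq_right, inv_mul_eq_one] at c2
    exact hne c2.symm

lemma R.ev {g : K → K} {x : K} {γ : Lam} (h : R g x γ) : ∀ᶠ y in 𝓝 x, R g y γ := by
  obtain ⟨s, hs⟩ := h
  exact (eventually_eventually_nhds.2 hs).mono fun y hy => ⟨s, hy⟩

lemma R.comp {g h : K → K} {x : K} {γ δ : Lam} (hc : Continuous h) (a : R g (h x) γ)
    (b : R h x δ) : R (fun y => g (h y)) x (γ * δ) := by
  obtain ⟨s, hs⟩ := a
  obtain ⟨t, ht⟩ := b
  refine ⟨P γ t + s, ?_⟩
  filter_upwards [ht, hc.continuousAt.eventually hs] with y h1 h2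
  rw [h2, h1, map_add, P_mul, add_assoc]

lemma R.congr {g h : K → K} {x : K} {γ : Lam} (a : R g x γ) (e : ∀ᶠ y in 𝓝 x, h y = g y) :
    R h x γ := by
  obtain ⟨s, hs⟩ := a
  exact ⟨s, (hs.and e).mono fun y hy => hy.2.trans hy.1⟩

def G : Subgroup (K ≃ₜ K) where
  carrier := {g | ∀ x, ∃ γ, R g x γ}
  one_mem' := fun _ => ⟨1, 0, Eventually.of_forall fun y => by simp [P_one]⟩
  mul_mem' := fun {a b} ha hb x => by
    obtain ⟨γ, h⟩ := ha (b x)
    obtain ⟨δ, k⟩ := hb x
    exact ⟨γ * δ, R.comp (g := a) (h := b) b.continuous h k⟩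
  inv_mem' := fun {a} ha x => by
    obtain ⟨γ, s, hs⟩ := ha (a.symm x)
    refine ⟨γ⁻¹, -P γ⁻¹ s, ?_⟩
    filter_upwards [a.symm.continuous.continuousAt.eventually hs] with y hy
    rw [Homeomorph.apply_symm_apply] at hy
    have : a⁻¹ y = a.symm y := rfl
    rw [this]
    conv_rhs => rw [hy, map_add, P_inv, add_neg_cancel_right]

lemma G_full (g : K ≃ₜ K) : g ∈ G ↔
    ∀ x : K, ∃ U : Set K, IsClopen U ∧ x ∈ U ∧ ∃ γ ∈ G, ∀ y ∈ U, g y = γ y := by
  constructor
  · exact fun h x => ⟨Set.univ, isClopen_univ, trivial, g, h, fun _ _ => rfl⟩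
  · intro h x
    obtain ⟨U, hU, hx, γ, hγ, e⟩ := h x
    obtain ⟨δ, hδ⟩ := hγ x
    exact ⟨δ, hδ.congr (eventually_of_mem (hU.isOpen.mem_nhds hx) e)⟩

lemma add_self (s : K) : s + s = 0 := by
  funext j; exact Bool.xor_self _

lemma swap (u v : K) (Z : Set K) (hZ : Z.Finite) (hu : u ∉ Z) (hv : v ∉ Z) :
    ∃ t ∈ G, t u = v ∧ ∀ z ∈ Z, t z = z := by
  classical
  set s := u + v with hs
  have us : u + s = v := by rw [hs, ← add_assoc, add_self, zero_add]
  have ss : ∀ z, z + s + s = z := fun z => by rw [add_assoc, add_self, add_zero]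
  have cs : Continuous fun z : K => z + s := by fun_prop
  have ho : IsOpen (Zᶜ ∩ (fun z => z + s) ⁻¹' Zᶜ) :=
    hZ.isClosed.isOpen_compl.inter (hZ.isClosed.isOpen_compl.preimage cs)
  obtain ⟨U, hU, uU, sub⟩ := compact_exists_isClopen_in_isOpen ho
    (show u ∈ _ from ⟨hu, by simpa [us] using hv⟩)
  let W : Set K := U ∪ (fun z => z + s) ⁻¹' U
  have hW : IsClopen W := hU.union (hU.preimage cs)
  have Ws : ∀ z, z ∈ W → z + s ∈ W := fun z hz =>
    hz.elim (fun h => Or.inr (show z + s + s ∈ U by rwa [ss])) Or.inl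
  let t : K → K := fun z => if z ∈ W then z + s else z
  have ti : Function.Involutive t := fun z => by
    by_cases h : z ∈ W
    · simp only [t, if_pos h, if_pos (Ws z h), ss]
    · simp only [t, if_neg h]
  have tc : Continuous t := Continuous.if (p := fun z => z ∈ W)
    (fun a ha => by
      have : frontier W = ∅ := hW.frontier_eq
      rw [show {x | x ∈ W} = W from rfl, this] at ha
      exact ha.elim) cs continuous_id
  refine ⟨⟨ti.toPerm t, tc, tc⟩, fun x => ⟨1, ?_⟩, ?_, fun z hz => ?_⟩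
  · by_cases h : x ∈ W
    · refine ⟨s, eventually_of_mem (hW.isOpen.mem_nhds h) fun y hy => ?_⟩
      show t y = _
      simp only [t, if_pos hy, P_one]
    · refine ⟨0, eventually_of_mem (hW.compl.isOpen.mem_nhds h) fun y hy => ?_⟩
      show t y = _
      have hy' : y ∉ W := hy
      simp only [t, if_neg hy', P_one, add_zero]
  · show t u = v
    simp only [t, if_pos (show u ∈ W from Or.inl uU), us]
  · show t z = z
    have : z ∉ W := fun h => h.elim (fun h => (sub h).1 hz)
      (fun h => (sub h).2 (show z + s + s ∈ Z by rwa [ss]))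
    simp only [t, if_neg this]

lemma trans (n : ℕ) (a b : Fin n → K) (ha : Function.Injective a) (hb : Function.Injective b)
    (m : ℕ) : ∃ g ∈ G, ∀ i : Fin n, i.val < m → g (a i) = b i := by
  induction m with
  | zero => exact ⟨1, one_mem _, fun i hi => by omega⟩
  | succ m ih =>
    obtain ⟨g, hg, e⟩ := ih
    by_cases hm : m < n
    · obtain ⟨t, ht, h1, h2⟩ := swap (g (a ⟨m, hm⟩)) (b ⟨m, hm⟩) (b '' {i | i.val < m})
        (Set.toFinite _)
        (by
          rintro ⟨i, hi, c⟩
          rw [← e i hi] at c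
          have := ha (g.injective c)
          subst this
          exact lt_irrefl m hi)
        (by
          rintro ⟨i, hi, c⟩
          have := hb c
          subst this
          exact lt_irrefl m hi)
      refine ⟨t * g, mul_mem ht hg, fun i hi => ?_⟩
      rw [Homeomorph.mul_apply]
      rcases Nat.lt_succ_iff_lt_or_eq.1 hi with h | h
      · rw [e i h]; exact h2 _ ⟨i, h, rfl⟩
      · have : i = ⟨m, hm⟩ := Fin.ext h
        rw [this]; exact h1
    · exact ⟨g, hg, fun i _ => e i (by omega)⟩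

noncomputable def mu : Measure K := Measure.addHaarMeasure ⊤

instance : mu.IsAddHaarMeasure := by unfold mu; infer_instance

instance : IsProbabilityMeasure mu := ⟨Measure.addHaarMeasure_self (K₀ := ⊤)⟩

lemma aff_mp (γ : Lam) (s : K) : MeasurePreserving (fun y => P γ y + s) mu mu :=
  (measurePreserving_add_right mu s).comp
    (AddMonoidHom.measurePreserving (P_cont γ) (fun y => ⟨_, P_inv' γ y⟩) rfl)

lemma G_mp {g : K ≃ₜ K} (hg : g ∈ G) : MeasurePreserving g mu mu := by
  refine ⟨g.continuous.measurable, ?_⟩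
  have : ∀ z : K, ∃ V ∈ 𝓝 z, (mu.map g).restrict V = mu.restrict V := by
    intro z
    obtain ⟨γ, s, hs⟩ := hg (g.symm z)
    obtain ⟨U, hU, oU, xU⟩ := eventually_nhds_iff.1 hs
    have oV : IsOpen (g.symm ⁻¹' U) := oU.preimage g.symm.continuous
    refine ⟨g.symm ⁻¹' U, oV.mem_nhds xU, ?_⟩
    ext A hA
    have mA := hA.inter oV.measurableSet
    rw [Measure.restrict_apply hA, Measure.restrict_apply hA,
      Measure.map_apply g.continuous.measurable mA, ← (aff_mp γ s).measure_preimage mA.nullMeasurableSet]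
    congr 1
    ext x
    simp only [Set.mem_preimage, Set.mem_inter_iff, Homeomorph.symm_apply_apply]
    constructor
    · rintro ⟨h1, h2⟩
      rw [← hU x h2, Homeomorph.symm_apply_apply]
      exact ⟨h1, h2⟩
    · rintro ⟨h1, h2⟩
      have h3 := hU _ h2
      rw [Homeomorph.apply_symm_apply, add_left_inj] at h3
      have h4 : x = g.symm (P γ x + s) := by
        have := congrArg (P γ⁻¹) h3
        rwa [P_inv, P_inv] at this
      rw [← h4] at h2
      exact ⟨by rw [hU x h2]; exact h1, h2⟩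
  choose V hV e using this
  obtain ⟨S, hS, cov⟩ := TopologicalSpace.countable_cover_nhds hV
  exact Measure.ext_of_biUnion_eq_univ hS cov fun i _ => e i

noncomputable def cc (g : G) (x : K) : Lam := (g.2 x).choose

lemma cc_R (g : G) (x : K) : R g.1 x (cc g x) := (g.2 x).choose_spec

lemma cc_mul (g h : G) (x : K) : cc (g * h) x = cc g (h.1 x) * cc h x :=
  (cc_R (g * h) x).uniq (R.comp (g := g.1) (h := h.1) h.1.continuous (cc_R g _) (cc_R h x))

lemma cc_cont (g : G) : Continuous fun x => phi (cc g x) := by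
  refine IsLocallyConstant.continuous ((IsLocallyConstant.iff_eventually_eq _).2 fun x => ?_)
  filter_upwards [(cc_R g x).ev] with y hy
  rw [(cc_R g y).uniq hy]

lemma intg {f : K → ℝ} (hf : Continuous f) : Integrable f mu :=
  hf.integrable_of_hasCompactSupport (HasCompactSupport.of_compactSpace f)

noncomputable def Phi (g : G) : ℝ := ∫ x, phi (cc g x) ∂mu

lemma Phi_defect (g h : G) : |Phi (g * h) - Phi g - Phi h| ≤ 2 * Real.pi := by
  have e1 : Phi g = ∫ x, phi (cc g (h.1 x)) ∂mu :=
    ((G_mp h.2).integral_comp h.1.measurableEmbedding fun x => phi (cc g x)).symm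
  have i1 := intg (cc_cont (g * h))
  have i2 : Integrable (fun x => phi (cc g (h.1 x))) mu := intg ((cc_cont g).comp h.1.continuous)
  have i4 : Integrable (fun x => phi (cc (g * h) x) - phi (cc g (h.1 x))) mu := i1.sub i2
  have i3 := intg (cc_cont h)
  have e2 : Phi (g * h) - Phi g - Phi h =
      ∫ x, (phi (cc (g * h) x) - phi (cc g (h.1 x)) - phi (cc h x)) ∂mu := by
    rw [integral_sub i4 i3, integral_sub i1 i2, e1]; rfl
  rw [e2]
  have := norm_integral_le_of_norm_le_const (μ := mu) (C := 2 * Real.pi)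
    (f := fun x => phi (cc (g * h) x) - phi (cc g (h.1 x)) - phi (cc h x))
    (Eventually.of_forall fun x => by rw [cc_mul]; exact phi_defect _ _)
  simpa using this

noncomputable def LL (γ : Lam) : G :=
  ⟨⟨⟨P γ, P γ⁻¹, P_inv γ, P_inv' γ⟩, P_cont γ, P_cont γ⁻¹⟩,
    fun _ => ⟨γ, 0, Eventually.of_forall fun _ => (add_zero _).symm⟩⟩

lemma LL_mul (γ δ : Lam) : LL (γ * δ) = LL γ * LL δ :=
  Subtype.ext (Homeomorph.ext fun y => P_mul γ δ y)

lemma Phi_LL (γ : Lam) : Phi (LL γ) = phi γ := by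
  have : ∀ x, cc (LL γ) x = γ := fun x =>
    (cc_R _ x).uniq ⟨0, Eventually.of_forall fun _ => (add_zero _).symm⟩
  simp [Phi, this]

end Pool.Agent.H2.BA
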