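import Mathlib

set_option autoImplicit false

/-! Taylor coefficients in a second variable with exponential decay in the first variable. -/

namespace Pool.Agent.H2.Ball

open Metric Filter Topology Asymptotics Complex Set

/-- unit disc -/
abbrev D : Set ℂ := ball 0 1
/-- open half plane -/
abbrev U : Set ℂ := {w | 1 < w.re}
/-- smaller closed half plane -/
abbrev H : Set ℂ := {w | 2 ≤ w.re}

theorem D_nhds : D ∈ 𝓝 (0 : ℂ) := ball_mem_nhds _ one_pos
theorem HU {w : ℂ} (h : w ∈ H) : w ∈ U := by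
  simp only [mem_setOf_eq] at h ⊢; linarith

/-- Taylor coefficients at zero -/
noncomputable def c : ℕ → (ℂ → ℂ) → ℂ
  | 0, f => f 0
  | (i + 1), f => c i (dslope f 0)

theorem ds_diff {f : ℂ → ℂ} (h : DifferentiableOn ℂ f D) : DifferentiableOn ℂ (dslope f 0) D :=
  (differentiableOn_dslope D_nhds).2 h

theorem c_congr (i : ℕ) : ∀ {f g : ℂ → ℂ}, EqOn f g D → c i f = c i g := by
  induction i with
  | zero => intro f g h; exact h (mem_ball_self one_pos)
  | succ i ih =>
    intro f g h
    refine ih fun z hz => ?_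
    rcases eq_or_ne z 0 with rfl | hne
    · rw [dslope_same, dslope_same]
      exact Filter.EventuallyEq.deriv_eq (eventually_of_mem D_nhds h)
    · rw [dslope_of_ne _ hne, dslope_of_ne _ hne, slope_def_field, slope_def_field, h hz,
        h (mem_ball_self one_pos)]

theorem c_lin (i : ℕ) (a : ℂ) : ∀ {f g : ℂ → ℂ}, DifferentiableOn ℂ f D →
    DifferentiableOn ℂ g D → c i (fun z => f z + a * g z) = c i f + a * c i g := by
  induction i with
  | zero => intro f g _ _; rfl
  | succ i ih =>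
    intro f g hf hg
    simp only [c]
    rw [← ih (ds_diff hf) (ds_diff hg)]
    congr 1
    ext z
    rcases eq_or_ne z 0 with rfl | hne
    · simp only [dslope_same]
      exact (((hf.differentiableAt D_nhds).hasDerivAt).add
        ((hg.differentiableAt D_nhds).hasDerivAt.const_mul a)).deriv
    · simp only [dslope_of_ne _ hne, slope_def_field]; ring

theorem c_mul (i : ℕ) {f g : ℂ → ℂ} (hf : DifferentiableOn ℂ f D)
    (hg : DifferentiableOn ℂ g D) :
    c (i + 1) (fun z => f z * g z) = c i (fun z => dslope f 0 z * g z) + f 0 * c (i + 1) g := by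
  simp only [c]
  rw [← c_lin i _ (f := fun z => dslope f 0 z * g z) ((ds_diff hf).mul hg) (ds_diff hg)]
  congr 1
  ext z
  rcases eq_or_ne z 0 with rfl | hne
  · simp only [dslope_same]
    exact (((hf.differentiableAt D_nhds).hasDerivAt).mul
      ((hg.differentiableAt D_nhds).hasDerivAt)).deriv
  · simp only [dslope_of_ne _ hne, slope_def_field]; field_simp; ring

theorem c_zero (i : ℕ) : c i (fun _ => 0) = 0 := by
  induction i with
  | zero => rfl
  | succ i ih =>
    simp only [c]
    rw [← ih]; congr 1; ext z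
    rcases eq_or_ne z 0 with rfl | hne
    · simp [dslope_same, ih]
    · simp [dslope_of_ne _ hne, slope_def_field, ih]

theorem c_pow (κ : ℂ) (l : ℕ) : ∀ i, c i (fun z => κ * z ^ l) = if i = l then κ else 0 := by
  induction l with
  | zero =>
    intro i
    cases i with
    | zero => simp [c]
    | succ i =>
      simp only [c, pow_zero, mul_one, Nat.succ_ne_zero, if_false]
      refine Eq.trans ?_ (c_zero i)
      congr 1; ext z
      rcases eq_or_ne z 0 with rfl | hne
      · simp [dslope_same]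
      · simp [dslope_of_ne _ hne, slope_def_field]
  | succ l ih =>
    intro i
    cases i with
    | zero => simp [c]
    | succ i =>
      simp only [c, Nat.succ.injEq]
      rw [← ih i]; congr 1; ext z
      rcases eq_or_ne z 0 with rfl | hne
      · rw [dslope_same]
        have := ((hasDerivAt_pow (l + 1) (0 : ℂ)).const_mul κ).deriv
        rw [this]
        cases l <;> simp
      · simp only [dslope_of_ne _ hne, slope_def_field]; field_simp; ring

theorem ds_bound {f : ℂ → ℂ} {M : ℝ} (hf : DifferentiableOn ℂ f D) (hM : ∀ z ∈ D, ‖f z‖ ≤ M) :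
    ∀ z ∈ D, ‖dslope f 0 z‖ ≤ 2 * M := by
  intro z hz
  have := norm_dslope_le_div_of_mapsTo_ball (R₂ := 2 * M) hf (fun y hy => by
    rw [mem_closedBall, dist_eq_norm]
    have := hM y hy
    have := hM 0 (mem_ball_self one_pos)
    linarith [norm_sub_le (f y) (f 0)]) hz
  simpa using this

theorem c_bound (i : ℕ) : ∀ {f : ℂ → ℂ} {M : ℝ}, DifferentiableOn ℂ f D → (∀ z ∈ D, ‖f z‖ ≤ M) →
    ‖c i f‖ ≤ 2 ^ i * M := by
  induction i with
  | zero => intro f M _ h; simpa [c] using h 0 (mem_ball_self one_pos)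
  | succ i ih =>
    intro f M hf h
    have := ih (ds_diff hf) (ds_bound hf h)
    simp only [c]; rw [pow_succ]; linarith

/-- bounded separately holomorphic functions -/
structure Good (F : ℂ → ℂ → ℂ) (M : ℝ) : Prop where
  dw : ∀ z ∈ D, DifferentiableOn ℂ (fun w => F w z) U
  dz : ∀ w ∈ U, DifferentiableOn ℂ (F w) D
  bd : ∀ w ∈ U, ∀ z ∈ D, ‖F w z‖ ≤ M

theorem U_open : IsOpen U := isOpen_lt continuous_const continuous_re

theorem Good.ds {F : ℂ → ℂ → ℂ} {M : ℝ} (h : Good F M) :
    Good (fun w => dslope (F w) 0) (2 * M) := by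
  have h0 : (0 : ℂ) ∈ D := mem_ball_self one_pos
  have hne : ∀ z ∈ D, z ≠ 0 → DifferentiableOn ℂ (fun w => dslope (F w) 0 z) U := by
    intro z hz hne
    simp only [dslope_of_ne _ hne, slope_def_field]
    exact ((h.dw z hz).sub (h.dw 0 h0)).div_const _
  refine ⟨fun z hz => ?_, fun w hw => ds_diff (h.dz w hw),
    fun w hw => ds_bound (h.dz w hw) (h.bd w hw)⟩
  rcases eq_or_ne z 0 with rfl | hz0
  · refine TendstoLocallyUniformlyOn.differentiableOn (φ := 𝓝[≠] (0 : ℂ))
      (F := fun z w => dslope (F w) 0 z) (TendstoUniformlyOn.tendstoLocallyUniformlyOn ?_) ?_ U_open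
    · rw [Metric.tendstoUniformlyOn_iff]
      intro ε hε
      have ht : Tendsto (fun z : ℂ => 2 * (2 * M) * ‖z‖) (𝓝 0) (𝓝 0) := by
        have : Continuous (fun z : ℂ => 2 * (2 * M) * ‖z‖) := by fun_prop
        simpa using this.tendsto 0
      filter_upwards [mem_nhdsWithin_of_mem_nhds D_nhds,
        mem_nhdsWithin_of_mem_nhds (ht.eventually (gt_mem_nhds hε))] with z hz hlt w hw
      have h1 := ds_bound (ds_diff (h.dz w hw)) (ds_bound (h.dz w hw) (h.bd w hw)) z hz
      have h2 := sub_smul_dslope (dslope (F w) 0) 0 z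
      rw [dist_comm, dist_eq_norm, ← h2, norm_smul, sub_zero]
      have : ‖z‖ * ‖dslope (dslope (F w) 0) 0 z‖ ≤ ‖z‖ * (2 * (2 * M)) :=
        mul_le_mul_of_nonneg_left h1 (norm_nonneg _)
      linarith
    · filter_upwards [mem_nhdsWithin_of_mem_nhds D_nhds, self_mem_nhdsWithin] with z hz hz0
      exact hne z hz hz0
  · exact hne z hz hz0

theorem Good.c_diff (i : ℕ) : ∀ {F : ℂ → ℂ → ℂ} {M : ℝ}, Good F M →
    DifferentiableOn ℂ (fun w => c i (F w)) U := by
  induction i with
  | zero => intro F M h; exact h.dw 0 (mem_ball_self one_pos)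
  | succ i ih => intro F M h; exact ih h.ds

/-- exponential decay -/
def Sm (a : ℝ) (g : ℂ → ℂ) : Prop := g =O[𝓟 H] fun w => Real.exp (-a * w.re)

theorem Sm.mono {a b : ℝ} {g : ℂ → ℂ} (h : Sm a g) (hab : b ≤ a) : Sm b g := by
  refine IsBigO.trans h (IsBigO.of_bound 1 ?_)
  rw [eventually_principal]
  intro w hw
  simp only [mem_setOf_eq] at hw
  simp only [Real.norm_eq_abs, Real.abs_exp, one_mul, Real.exp_le_exp]
  nlinarith

theorem Sm.mul {a b : ℝ} {f g : ℂ → ℂ} (hf : Sm a f) (hg : Sm b g) :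
    Sm (a + b) (fun w => f w * g w) := by
  have := IsBigO.mul hf hg
  refine this.congr' EventuallyEq.rfl (Eventually.of_forall fun w => ?_)
  simp only [← Real.exp_add]; congr 1; ring

theorem Sm.congr {a : ℝ} {f g : ℂ → ℂ} (hf : Sm a f) (h : ∀ w ∈ H, f w = g w) : Sm a g :=
  IsBigO.congr' hf (eventually_principal.2 h) EventuallyEq.rfl

theorem sm_of_bd {g : ℂ → ℂ} {M : ℝ} (h : ∀ w ∈ H, ‖g w‖ ≤ M) : Sm 0 g := by
  refine IsBigO.of_bound M ?_
  rw [eventually_principal]
  intro w hw
  simpa using h w hw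

theorem sm_exp (a : ℝ) : Sm (-a) (fun w => exp (a * w)) := by
  refine IsBigO.of_bound 1 (Eventually.of_forall fun w => ?_)
  simp [norm_exp]

theorem Good.sm0 {F : ℂ → ℂ → ℂ} {M : ℝ} (h : Good F M) : Sm 0 (fun w => F w 0) :=
  sm_of_bd fun w hw => h.bd w (HU hw) 0 (mem_ball_self one_pos)

theorem sm_c_mul {G : ℂ → ℂ → ℂ} {M' : ℝ} (hG : Good G M') (a : ℕ → ℝ) (ha : Antitone a)
    (hs : ∀ i, Sm (a i) (fun w => c i (G w))) (i : ℕ) : ∀ {F : ℂ → ℂ → ℂ} {M : ℝ}, Good F M →
    Sm (a i) (fun w => c i (fun z => F w z * G w z)) := by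
  induction i with
  | zero => intro F M hF; simpa [c] using hF.sm0.mul (hs 0)
  | succ i ih =>
    intro F M hF
    have h1 := (ih hF.ds).mono (ha (Nat.le_succ i))
    have h2 := hF.sm0.mul (hs (i + 1))
    rw [zero_add] at h2
    exact Sm.congr (IsBigO.add h1 h2) fun w hw => (c_mul i (hF.dz w (HU hw)) (hG.dz w (HU hw))).symm

theorem sm_c_mul_sub {G : ℂ → ℂ → ℂ} {M' : ℝ} (hG : Good G M') (a : ℕ → ℝ) (ha : Antitone a)
    (hs : ∀ i, Sm (a i) (fun w => c i (G w))) (i : ℕ) {F : ℂ → ℂ → ℂ} {M : ℝ} (hF : Good F M)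
    (δ : ℝ) (hδ : ∀ j, i = j + 1 → a i + δ ≤ a j) :
    Sm (a i + δ) (fun w => c i (fun z => F w z * G w z) - F w 0 * c i (G w)) := by
  cases i with
  | zero => simp only [c, sub_self]; exact isBigO_zero _ _
  | succ i =>
    refine Sm.congr ((sm_c_mul hG a ha hs i hF.ds).mono (hδ i rfl)) fun w hw => ?_
    rw [c_mul i (hF.dz w (HU hw)) (hG.dz w (HU hw))]; ring

theorem sm_prod {ι : Type*} (s : Finset ι) (A B : ι → ℂ → ℂ) (δ : ℝ)
    (hA : ∀ i, Sm 0 (A i)) (hB : ∀ i, Sm 0 (B i)) (h : ∀ i, Sm δ (fun w => A i w - B i w)) :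
    Sm 0 (fun w => ∏ i ∈ s, B i w) ∧ Sm δ (fun w => ∏ i ∈ s, A i w - ∏ i ∈ s, B i w) := by
  classical
  induction s using Finset.induction_on with
  | empty =>
    refine ⟨sm_of_bd (M := 1) (by simp), ?_⟩
    simp only [Finset.prod_empty, sub_self]; exact isBigO_zero _ _
  | insert i s hi ih =>
    simp only [Finset.prod_insert hi]
    refine ⟨by simpa using (hB i).mul ih.1, ?_⟩
    have h1 := (hA i).mul ih.2
    have h2 := (h i).mul ih.1
    rw [zero_add] at h1
    rw [add_zero] at h2
    exact Sm.congr (IsBigO.add h1 h2) fun w _ => by ring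

theorem sm_det {ι : Type*} [Fintype ι] [DecidableEq ι] (A B : ℂ → Matrix ι ι ℂ) (δ : ℝ)
    (hA : ∀ i j, Sm 0 (fun w => A w i j)) (hB : ∀ i j, Sm 0 (fun w => B w i j))
    (h : ∀ i j, Sm δ (fun w => A w i j - B w i j)) :
    Sm δ (fun w => (A w).det - (B w).det) := by
  simp only [Matrix.det_apply', ← Finset.sum_sub_distrib, ← mul_sub]
  exact IsBigO.fun_sum fun σ _ => IsBigO.const_mul_left
    (sm_prod Finset.univ (fun i w => A w (σ i) i) (fun i w => B w (σ i) i) δ
    (fun i => hA _ _) (fun i => hB _ _) (fun i => h _ _)).2 _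

/-- Phragmen-Lindelof -/
theorem PL {g : ℂ → ℂ} {a K : ℝ} (hd : DifferentiableOn ℂ g U) (hs : Sm a g)
    (hK : ∀ w : ℂ, w.re = 2 → ‖g w‖ ≤ K) :
    ∀ w ∈ H, ‖g w‖ ≤ K * Real.exp (2 * a) * Real.exp (-a * w.re) := by
  intro w hw
  let h : ℂ → ℂ := fun s => g (s + 2) * exp (a * (s + 2))
  have hb : Sm 0 (fun w => g w * exp (a * w)) := by simpa using hs.mul (sm_exp a)
  obtain ⟨C, hC⟩ := hb.bound
  rw [eventually_principal] at hC
  have hC' : ∀ s : ℂ, 0 ≤ s.re → ‖h s‖ ≤ C := by
    intro s hs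
    have := hC (s + 2) (by simp only [mem_setOf_eq, add_re, re_ofNat]; linarith)
    simpa [h] using this
  have hdh : DifferentiableOn ℂ h {s : ℂ | -1 < s.re} := by
    refine DifferentiableOn.mul (hd.comp (by fun_prop) fun s hs => ?_) (by fun_prop)
    simp only [mem_setOf_eq, add_re, re_ofNat] at hs ⊢; linarith
  have key : ‖h (w - 2)‖ ≤ K * Real.exp (2 * a) := by
    refine PhragmenLindelof.right_half_plane_of_bounded_on_real ?_ ⟨0, by norm_num, 0, ?_⟩ ?_ ?_ ?_
    · refine DifferentiableOn.diffContOnCl (hdh.mono ?_)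
      rw [closure_setOf_lt_re]
      intro s hs; simp only [mem_setOf_eq] at hs ⊢; linarith
    · refine IsBigO.of_bound C ?_
      refine Filter.Eventually.filter_mono inf_le_right ?_
      rw [eventually_principal]
      intro s hs
      simpa using hC' s (le_of_lt hs)
    · refine ⟨C, ?_⟩
      simp only [eventually_map]
      filter_upwards [eventually_ge_atTop (0 : ℝ)] with x hx
      exact hC' x (by simpa using hx)
    · intro x
      have := hK (x * I + 2) (by simp)
      simp only [h, norm_mul, norm_exp]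
      have e : (↑a * (↑x * I + 2) : ℂ).re = 2 * a := by simp; ring
      rw [e]
      exact mul_le_mul_of_nonneg_right this (Real.exp_pos _).le
    · simp only [mem_setOf_eq] at hw; simp; linarith
  simp only [h, sub_add_cancel, norm_mul, norm_exp] at key
  have e : (↑a * w : ℂ).re = a * w.re := by simp
  rw [e] at key
  have : ‖g w‖ = ‖g w‖ * Real.exp (a * w.re) * Real.exp (-a * w.re) := by
    rw [mul_assoc, ← Real.exp_add]; simp
  rw [this]
  exact mul_le_mul_of_nonneg_right key (Real.exp_pos _).le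

end Pool.Agent.H2.Ball
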