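import Mathlib
import Pool.Agent.H2.Ball1

set_option autoImplicit false

namespace Pool.Agent.H2.Ball

open Metric Filter Topology Asymptotics Complex Set

/-- decay exponents -/
noncomputable def a (i : ℕ) : ℝ := (1 / 2) ^ i

theorem a_anti : Antitone a := pow_right_anti₀ (by norm_num) (by norm_num)
theorem a_pos (i : ℕ) : 0 < a i := pow_pos (by norm_num) _
theorem a_succ (i : ℕ) : a (i + 1) + a (i + 1) = a i := by simp only [a, pow_succ]; ring

variable {A : Type*} [NormedCommRing A] (Φ : A →+* (ℂ → ℂ → ℂ))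

theorem co_add (hG : ∀ f, Good (Φ f) ‖f‖) (i : ℕ) (f g : A) {w : ℂ} (hw : w ∈ H) :
    c i (Φ (f + g) w) = c i (Φ f w) + c i (Φ g w) := by
  have := c_lin i 1 ((hG f).dz w (HU hw)) ((hG g).dz w (HU hw))
  simp only [one_mul] at this
  rw [← this, map_add]; rfl

theorem co_sub (hG : ∀ f, Good (Φ f) ‖f‖) (i : ℕ) (f g : A) {w : ℂ} (hw : w ∈ H) :
    c i (Φ (f - g) w) = c i (Φ f w) - c i (Φ g w) := by
  rw [eq_sub_iff_add_eq, ← co_add Φ hG i _ _ hw, sub_add_cancel]

theorem co_zero (i : ℕ) (w : ℂ) : c i (Φ 0 w) = 0 := by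
  rw [map_zero]; exact c_zero i

theorem co_sum (hG : ∀ f, Good (Φ f) ‖f‖) (i : ℕ) {ι : Type*} (s : Finset ι) (f : ι → A) {w : ℂ}
    (hw : w ∈ H) : c i (Φ (∑ k ∈ s, f k) w) = ∑ k ∈ s, c i (Φ (f k) w) := by
  classical
  induction s using Finset.induction_on with
  | empty => simp only [Finset.sum_empty]; exact co_zero Φ i w
  | insert k s hk ih => rw [Finset.sum_insert hk, Finset.sum_insert hk, co_add Φ hG _ _ _ hw, ih]

theorem co_bd (hG : ∀ f, Good (Φ f) ‖f‖) (i : ℕ) (f : A) {w : ℂ} (hw : w ∈ H) :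
    ‖c i (Φ f w)‖ ≤ 2 ^ i * ‖f‖ :=
  c_bound i ((hG f).dz w (HU hw)) ((hG f).bd w (HU hw))

theorem co_cont (hG : ∀ f, Good (Φ f) ‖f‖) (i : ℕ) {w : ℂ} (hw : w ∈ H) :
    Continuous fun f => c i (Φ f w) := by
  refine (LipschitzWith.of_dist_le_mul (K := 2 ^ i) fun f g => ?_).continuous
  rw [dist_eq_norm, dist_eq_norm, ← co_sub Φ hG i f g hw]
  simpa using co_bd Φ hG i (f - g) hw

/-- the ideal of functions with prescribed decay of all Taylor coefficients -/
def J0 (hG : ∀ f, Good (Φ f) ‖f‖) : Ideal A where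
  carrier := {f | ∀ i, Sm (a i) fun w => c i (Φ f w)}
  add_mem' := fun {f g} hf hg i =>
    Sm.congr (IsBigO.add (hf i) (hg i)) fun w hw => (co_add Φ hG i f g hw).symm
  zero_mem' := fun i => by simp only [co_zero]; exact isBigO_zero _ _
  smul_mem' := fun f g hg i => by
    have := sm_c_mul (hG g) a a_anti hg i (hG f)
    rw [smul_eq_mul, map_mul]; exact this

theorem J0_closed (hG : ∀ f, Good (Φ f) ‖f‖) : IsClosed (J0 Φ hG : Set A) := by
  have : (J0 Φ hG : Set A) = ⋂ i, ⋂ w ∈ H, {f | ‖c i (Φ f w)‖ ≤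
      2 ^ i * ‖f‖ * Real.exp (2 * a i) * Real.exp (-a i * w.re)} := by
    ext f
    simp only [mem_iInter, mem_setOf_eq, SetLike.mem_coe]
    constructor
    · intro hf i w hw
      exact PL ((hG f).c_diff i) (hf i) (fun w hw => co_bd Φ hG i f (le_of_eq hw.symm)) w hw
    · intro hf i
      refine IsBigO.of_bound (2 ^ i * ‖f‖ * Real.exp (2 * a i)) (eventually_principal.2 ?_)
      intro w hw
      simpa using hf i w hw
  rw [this]
  refine isClosed_iInter fun i => isClosed_biInter fun w hw => isClosed_le ?_ (by fun_prop)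
  exact (co_cont Φ hG i hw).norm

/-- the normalised jet matrix -/
noncomputable def Mx (m : ℕ) (u : Fin (m + 1) → A) (w : ℂ) : Matrix (Fin (m + 1)) (Fin (m + 1)) ℂ :=
  Matrix.of fun i l => c i (Φ (u l) w) * exp (a i * w)

theorem sm_norm (hG : ∀ f, Good (Φ f) ‖f‖) {f : A} (hf : f ∈ J0 Φ hG) (i : ℕ) :
    Sm 0 fun w => c i (Φ f w) * exp (a i * w) := by
  simpa using (hf i).mul (sm_exp (a i))

theorem sm_Mx (hG : ∀ f, Good (Φ f) ‖f‖) {m : ℕ} (f : Fin m → A) (hf : ∀ k, f k ∈ J0 Φ hG)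
    (u : Fin (m + 1) → A) (hu : ∀ l, u l ∈ Ideal.span (range f)) :
    Sm (a m) fun w => (Mx Φ m u w).det := by
  have hu' : ∀ l, ∃ g : Fin m → A, ∑ k, g k * f k = u l := fun l =>
    Ideal.mem_span_range_iff_exists_fun.1 (hu l)
  choose g hg using hu'
  let P : ℂ → Matrix (Fin (m + 1)) (Fin m) ℂ := fun w =>
    Matrix.of fun i k => c i (Φ (f k) w) * exp (a i * w)
  let Q : ℂ → Matrix (Fin m) (Fin (m + 1)) ℂ := fun w => Matrix.of fun k l => Φ (g l k) w 0
  have h0 : ∀ w, (P w * Q w).det = 0 := by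
    intro w
    by_contra hne
    have h1 := Matrix.rank_of_isUnit (P w * Q w) ((Matrix.isUnit_iff_isUnit_det _).2 (Ne.isUnit hne))
    have h2 := (Matrix.rank_mul_le_left (P w) (Q w)).trans (Matrix.rank_le_card_width (P w))
    simp only [Fintype.card_fin] at h1 h2
    omega
  have huJ : ∀ l, u l ∈ J0 Φ hG := fun l =>
    (Ideal.span_le.2 (by rintro _ ⟨k, rfl⟩; exact hf k) : Ideal.span (range f) ≤ J0 Φ hG) (hu l)
  have := sm_det (Mx Φ m u) (fun w => P w * Q w) (a m) (fun i l => sm_norm Φ hG (huJ l) i)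
    (fun i l => by
      simp only [Matrix.mul_apply, P, Q, Matrix.of_apply]
      refine IsBigO.fun_sum fun k _ => ?_
      have := (sm_norm Φ hG (hf k) i).mul (hG (g l k)).sm0
      rw [add_zero] at this
      exact this)
    (fun i l => by
      have h1 : ∀ k, Sm (a m) fun w => (c i (fun z => Φ (g l k) w z * Φ (f k) w z) -
          Φ (g l k) w 0 * c i (Φ (f k) w)) * exp (a i * w) := by
        intro k
        have := (sm_c_mul_sub (hG (f k)) a a_anti (hf k) i (hG (g l k)) (a m) (fun j hj => by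
          have h1 : a m ≤ a i := a_anti (Nat.lt_succ_iff.1 i.2)
          have h2 := a_succ j
          rw [hj] at h1 ⊢
          linarith)).mul (sm_exp (a i))
        simpa using this
      refine Sm.congr (IsBigO.fun_sum (s := Finset.univ) fun k _ => h1 k) fun w hw => ?_
      simp only [Matrix.mul_apply, P, Q, Mx, Matrix.of_apply]
      rw [← hg l, co_sum Φ hG _ _ _ hw, Finset.sum_mul, ← Finset.sum_sub_distrib]
      refine Finset.sum_congr rfl fun k _ => ?_
      rw [map_mul]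
      change _ = c i (fun z => Φ (g l k) w z * Φ (f k) w z) * _ - _
      ring)
  simpa [h0] using this

theorem Mx_diff (hG : ∀ f, Good (Φ f) ‖f‖) (m : ℕ) (u : Fin (m + 1) → A) :
    DifferentiableOn ℂ (fun w => (Mx Φ m u w).det) U := by
  simp only [Matrix.det_apply', Mx, Matrix.of_apply]
  refine DifferentiableOn.fun_sum fun σ _ => DifferentiableOn.const_mul ?_ _
  refine DifferentiableOn.fun_finsetProd fun i _ => ?_
  exact ((hG _).c_diff _).mul (by fun_prop)

/-- bound on the boundary line -/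
noncomputable def Kb (m : ℕ) (u : Fin (m + 1) → A) : ℝ :=
  ∑ σ : Equiv.Perm (Fin (m + 1)), ∏ i, 2 ^ (σ i : ℕ) * ‖u i‖ * Real.exp (2 * a (σ i))

theorem Mx_bd (hG : ∀ f, Good (Φ f) ‖f‖) (m : ℕ) (u : Fin (m + 1) → A) (w : ℂ) (hw : w.re = 2) :
    ‖(Mx Φ m u w).det‖ ≤ Kb m u := by
  simp only [Matrix.det_apply', Mx, Matrix.of_apply, Kb]
  refine (norm_sum_le _ _).trans (Finset.sum_le_sum fun σ _ => ?_)
  have : ‖((Equiv.Perm.sign σ : ℤ) : ℂ)‖ = 1 := by
    rcases Int.units_eq_one_or (Equiv.Perm.sign σ) with h | h <;> simp [h]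
  rw [norm_mul, this, one_mul, norm_prod]
  refine Finset.prod_le_prod (fun _ _ => norm_nonneg _) fun i _ => ?_
  rw [norm_mul, norm_exp]
  have e : ((a (σ i) : ℂ) * w).re = 2 * a (σ i) := by simp [hw]; ring
  rw [e]
  exact mul_le_mul_of_nonneg_right (co_bd Φ hG _ _ (le_of_eq hw.symm)) (Real.exp_pos _).le

theorem not_fg (hG : ∀ f, Good (Φ f) ‖f‖) (u : ℕ → A)
    (hu : ∀ i l w, w ∈ H → c i (Φ (u l) w) =
      if i = l then (2 / (w + 1)) ^ (l + 1) * exp (-a l * w) else 0)
    (I : Ideal A) (hI : I.FG) (hJ : I ≤ J0 Φ hG) (hcl : ∀ l, u l ∈ closure (I : Set A)) :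
    False := by
  obtain ⟨m, f, rfl⟩ := Submodule.fg_iff_exists_fin_generating_family.1 hI
  have hf : ∀ k, f k ∈ J0 Φ hG := fun k => hJ (Ideal.subset_span ⟨k, rfl⟩)
  let Z : Set (Fin (m + 1) → A) := ⋂ w ∈ H, {v | ‖(Mx Φ m v w).det‖ ≤
    Kb m v * Real.exp (2 * a m) * Real.exp (-a m * w.re)}
  have hZ : IsClosed Z := by
    refine isClosed_biInter fun w hw => isClosed_le (Continuous.norm ?_) ?_
    · refine Continuous.matrix_det (continuous_matrix fun i l => ?_)
      exact ((co_cont Φ hG i hw).comp (continuous_apply l)).mul continuous_const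
    · unfold Kb; fun_prop
  have hsub : univ.pi (fun _ => (Submodule.span A (range f) : Set A)) ⊆ Z := by
    intro v hv
    simp only [Z, mem_iInter, mem_setOf_eq]
    exact PL (Mx_diff Φ hG m v) (sm_Mx Φ hG f hf v fun l => hv l trivial) (Mx_bd Φ hG m v)
  have hmem : (fun l : Fin (m + 1) => u l) ∈ Z := by
    refine hZ.closure_subset_iff.2 hsub ?_
    rw [closure_pi_set]
    exact fun l _ => hcl l
  simp only [Z, mem_iInter, mem_setOf_eq] at hmem
  set K := Kb m (fun l : Fin (m + 1) => u l) * Real.exp (2 * a m)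
  set N := ∑ l : Fin (m + 1), ((l : ℕ) + 1)
  have hdet : ∀ w ∈ H, (Mx Φ m (fun l : Fin (m + 1) => u l) w).det = (2 / (w + 1)) ^ N := by
    intro w hw
    have : Mx Φ m (fun l : Fin (m + 1) => u l) w =
        Matrix.diagonal fun l : Fin (m + 1) => (2 / (w + 1)) ^ ((l : ℕ) + 1) := by
      ext i l
      simp only [Mx, Matrix.of_apply, hu _ _ _ hw, Matrix.diagonal_apply, Fin.val_inj]
      split_ifs with h
      · subst h
        rw [mul_assoc, ← exp_add]; simp
      · simp
    rw [this, Matrix.det_diagonal, Finset.prod_pow_eq_pow_sum]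
  have hle : ∀ x : ℝ, 2 ≤ x → (2 : ℝ) ^ N ≤ K * ((x + 1) ^ N * Real.exp (-a m * x)) := by
    intro x hx
    have h := hmem x (by simpa using hx)
    rw [hdet x (by simpa using hx)] at h
    have e : ((x : ℂ) + 1) = ((x + 1 : ℝ) : ℂ) := by simp
    rw [e, norm_pow, norm_div, Complex.norm_real, Real.norm_of_nonneg (by linarith), div_pow,
      div_le_iff₀ (by positivity)] at h
    simp only [Complex.norm_ofNat, ofReal_re] at h
    linarith
  have ht : Tendsto (fun x : ℝ => K * ((x + 1) ^ N * Real.exp (-a m * x))) atTop (𝓝 0) := by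
    have h1 := (tendsto_rpow_mul_exp_neg_mul_atTop_nhds_zero N (a m) (a_pos m)).comp
      (tendsto_atTop_add_const_right atTop (1 : ℝ) tendsto_id)
    have h2 := h1.const_mul (K * Real.exp (a m))
    rw [mul_zero] at h2
    refine h2.congr fun x => ?_
    simp only [Function.comp, id, Real.rpow_natCast]
    rw [show -a m * x = a m + -a m * (x + 1) by ring, Real.exp_add]
    ring
  have := ge_of_tendsto ht ((eventually_ge_atTop 2).mono hle)
  have : (0 : ℝ) < 2 ^ N := by positivity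
  linarith

theorem u_mem (hG : ∀ f, Good (Φ f) ‖f‖) (u : ℕ → A)
    (hu : ∀ i l w, w ∈ H → c i (Φ (u l) w) =
      if i = l then (2 / (w + 1)) ^ (l + 1) * exp (-a l * w) else 0) (l : ℕ) :
    u l ∈ J0 Φ hG := by
  intro i
  by_cases h : i = l
  · subst h
    have h1 : Sm 0 fun w => (2 / (w + 1)) ^ (i + 1) := by
      refine sm_of_bd (M := 1) fun w hw => ?_
      rw [norm_pow]
      refine pow_le_one₀ (norm_nonneg _) ?_
      have h2 : (w + 1).re ≤ ‖w + 1‖ := re_le_norm _
      simp only [mem_setOf_eq, add_re, one_re] at hw h2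
      rw [norm_div, div_le_one (by linarith)]
      simp only [Complex.norm_ofNat]; linarith
    have := h1.mul (sm_exp (-a i))
    simp only [neg_neg, zero_add] at this
    refine this.congr fun w hw => ?_
    rw [hu _ _ _ hw]; simp
  · refine Sm.congr (isBigO_zero _ _) fun w hw => ?_
    rw [hu _ _ _ hw]; simp [h]

end Pool.Agent.H2.Ball
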