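import Mathlib
import Pool.Agent.H2.Ball2

set_option autoImplicit false

namespace Pool.Agent.H2.Ball

open Metric Filter Topology Asymptotics Complex Set

/-- the Cayley parametrisation of a two dimensional slice -/
noncomputable def pt {n : ℕ} (i j : Fin n) (w z : ℂ) : EuclideanSpace ℂ (Fin n) :=
  ((w - 1) / (w + 1)) • EuclideanSpace.single i (1 : ℂ) +
    (2 * z / (w + 1)) • EuclideanSpace.single j (1 : ℂ)

theorem ne1 {w : ℂ} (hw : w ∈ U) : w + 1 ≠ 0 := by
  intro h
  have := congrArg re h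
  simp only [mem_setOf_eq, add_re, one_re, zero_re] at hw this
  linarith

theorem pt_i {n : ℕ} {i j : Fin n} (hij : i ≠ j) (w z : ℂ) : pt i j w z i = (w - 1) / (w + 1) := by
  simp [pt, hij]

theorem pt_j {n : ℕ} {i j : Fin n} (hij : i ≠ j) (w z : ℂ) : pt i j w z j = 2 * z / (w + 1) := by
  simp [pt, hij.symm]

theorem pt_mem {n : ℕ} {i j : Fin n} (hij : i ≠ j) {w z : ℂ} (hw : w ∈ U) (hz : z ∈ D) :
    pt i j w z ∈ ball (0 : EuclideanSpace ℂ (Fin n)) 1 := by
  rw [mem_ball_zero_iff]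
  have h1 : ‖pt i j w z‖ ^ 2 = ‖(w - 1) / (w + 1)‖ ^ 2 + ‖2 * z / (w + 1)‖ ^ 2 := by
    rw [EuclideanSpace.norm_sq_eq, ← pt_i hij w z, ← pt_j hij w z]
    refine Finset.sum_eq_add_of_mem i j (Finset.mem_univ _) (Finset.mem_univ _) hij
      fun k _ hk => ?_
    simp [pt, hk.1, hk.2]
  have hpos : 0 < ‖w + 1‖ := norm_pos_iff.2 (ne1 hw)
  have hz' : ‖z‖ < 1 := mem_ball_zero_iff.1 hz
  have h2 : ‖w - 1‖ ^ 2 + 4 * ‖z‖ ^ 2 < ‖w + 1‖ ^ 2 := by
    have : ‖z‖ ^ 2 < 1 := by nlinarith [norm_nonneg z]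
    rw [Complex.sq_norm (w - 1), Complex.sq_norm (w + 1), normSq_apply, normSq_apply]
    simp only [mem_setOf_eq, add_re, one_re, sub_re, add_im, sub_im, one_im] at hw ⊢
    nlinarith
  have h3 : ‖pt i j w z‖ ^ 2 < 1 := by
    rw [h1, norm_div, norm_div, div_pow, div_pow, ← add_div, div_lt_one (by positivity), norm_mul]
    simp only [Complex.norm_ofNat]; nlinarith
  nlinarith [norm_nonneg (pt i j w z)]

open Classical in
/-- point of the closed ball -/
noncomputable def pt' {n : ℕ} (i j : Fin n) (w z : ℂ) :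
    closedBall (0 : EuclideanSpace ℂ (Fin n)) 1 :=
  if h : pt i j w z ∈ closedBall (0 : EuclideanSpace ℂ (Fin n)) 1 then ⟨_, h⟩
  else ⟨0, mem_closedBall_self zero_le_one⟩

theorem pt'_val {n : ℕ} {i j : Fin n} (hij : i ≠ j) {w z : ℂ} (hw : w ∈ U) (hz : z ∈ D) :
    (pt' i j w z : EuclideanSpace ℂ (Fin n)) = pt i j w z := by
  rw [pt', dif_pos (ball_subset_closedBall (pt_mem hij hw hz))]

/-- the singular factor -/
noncomputable def Es (t : ℝ) (s : ℂ) : ℂ := (1 - s) * exp (-t * ((1 + s) / (1 - s)))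

theorem Es_bd {t : ℝ} (ht : 0 ≤ t) {s : ℂ} (hs : ‖s‖ ≤ 1) : ‖Es t s‖ ≤ ‖1 - s‖ := by
  rw [Es, norm_mul, norm_exp]
  refine mul_le_of_le_one_right (norm_nonneg _) (Real.exp_le_one_iff.2 ?_)
  have h : 0 ≤ ((1 + s) / (1 - s)).re := by
    rw [div_re, ← add_div]
    refine div_nonneg ?_ (normSq_nonneg _)
    have : s.re * s.re + s.im * s.im ≤ 1 := by
      rw [← normSq_apply, ← Complex.sq_norm]; nlinarith [norm_nonneg s]
    simp only [add_re, one_re, sub_re, add_im, one_im, sub_im]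
    nlinarith
  have e : (-(t : ℂ) * ((1 + s) / (1 - s))).re = -t * ((1 + s) / (1 - s)).re := by
    rw [← ofReal_neg, re_ofReal_mul]
  rw [e]; nlinarith

theorem Es_diff (t : ℝ) {s : ℂ} (hs : s ≠ 1) : DifferentiableAt ℂ (Es t) s := by
  have : 1 - s ≠ 0 := sub_ne_zero.2 hs.symm
  unfold Es
  fun_prop (disch := assumption)

theorem Es_cont {t : ℝ} (ht : 0 ≤ t) : ContinuousOn (Es t) (closedBall 0 1) := by
  intro s hs
  rcases eq_or_ne s 1 with rfl | hne
  · have h0 : Es t 1 = 0 := by simp [Es]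
    rw [ContinuousWithinAt, h0]
    refine squeeze_zero_norm' (a := fun s => ‖1 - s‖) ?_ ?_
    · filter_upwards [self_mem_nhdsWithin] with s hs using Es_bd ht (mem_closedBall_zero_iff.1 hs)
    · have : Continuous fun s : ℂ => ‖1 - s‖ := by fun_prop
      simpa using (this.tendsto 1).mono_left nhdsWithin_le_nhds
  · exact (Es_diff t hne).continuousAt.continuousWithinAt

theorem coord_le {n : ℕ} (x : EuclideanSpace ℂ (Fin n)) (i : Fin n) : ‖x i‖ ≤ ‖x‖ :=
  PiLp.norm_apply_le x i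

/-- test functions -/
noncomputable def uu {n : ℕ} (i j : Fin n) (l : ℕ) :
    C(closedBall (0 : EuclideanSpace ℂ (Fin n)) 1, ℂ) where
  toFun x := (x.1 j) ^ l * Es (a l) (x.1 i)
  continuous_toFun := by
    refine Continuous.mul (by fun_prop) ?_
    refine (Es_cont (a_pos l).le).comp_continuous (by fun_prop) fun x => ?_
    exact mem_closedBall_zero_iff.2 ((coord_le _ _).trans (mem_closedBall_zero_iff.1 x.2))

theorem eq_single {n : ℕ} (i : Fin n) (x : EuclideanSpace ℂ (Fin n)) (hx : ‖x‖ ≤ 1)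
    (h : x i = 1) : x = EuclideanSpace.single i 1 := by
  have h1 : ∑ k, ‖x k‖ ^ 2 ≤ 1 := by
    rw [← EuclideanSpace.norm_sq_eq]; nlinarith [norm_nonneg x]
  rw [← Finset.add_sum_erase _ _ (Finset.mem_univ i), h, norm_one, one_pow] at h1
  have h2 : ∑ k ∈ Finset.univ.erase i, ‖x k‖ ^ 2 = 0 :=
    le_antisymm (by linarith) (Finset.sum_nonneg fun _ _ => by positivity)
  rw [Finset.sum_eq_zero_iff_of_nonneg (fun _ _ => by positivity)] at h2
  ext k
  by_cases hk : k = i
  · subst hk; simp [h]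
  · have := h2 k (by simp [hk])
    simp only [ne_eq, OfNat.ofNat_ne_zero, not_false_eq_true, pow_eq_zero_iff, norm_eq_zero] at this
    simp [hk, this]

theorem main (n : ℕ) (hn : 2 ≤ n)
    (A : Subalgebra ℂ C(Metric.closedBall (0 : EuclideanSpace ℂ (Fin n)) 1, ℂ))
    (hA : ∀ f : C(Metric.closedBall (0 : EuclideanSpace ℂ (Fin n)) 1, ℂ),
      f ∈ A ↔ ∃ g : EuclideanSpace ℂ (Fin n) → ℂ,
        DifferentiableOn ℂ g (Metric.ball (0 : EuclideanSpace ℂ (Fin n)) 1) ∧
        ∀ x : Metric.closedBall (0 : EuclideanSpace ℂ (Fin n)) 1, f x = g x) :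
    ∃ ζ : Metric.closedBall (0 : EuclideanSpace ℂ (Fin n)) 1,
      ‖(ζ : EuclideanSpace ℂ (Fin n))‖ = 1 ∧
      ∃ J : Ideal A, IsClosed (J : Set A) ∧
        (∀ w : Metric.closedBall (0 : EuclideanSpace ℂ (Fin n)) 1,
          (∀ f ∈ J, (f : C(Metric.closedBall (0 : EuclideanSpace ℂ (Fin n)) 1, ℂ)) w = 0) ↔ w = ζ) ∧
        ∀ I : Ideal A, I.FG → closure (I : Set A) ≠ (J : Set A) := by
  let i : Fin n := ⟨0, by omega⟩
  let j : Fin n := ⟨1, by omega⟩
  have hij : i ≠ j := by simp [i, j]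
  let ζ : Metric.closedBall (0 : EuclideanSpace ℂ (Fin n)) 1 :=
    ⟨EuclideanSpace.single i 1, by simp⟩
  let ev : Metric.closedBall (0 : EuclideanSpace ℂ (Fin n)) 1 → (A →+* ℂ) := fun x =>
    { toFun := fun f => f.1 x
      map_one' := rfl
      map_mul' := fun _ _ => rfl
      map_zero' := rfl
      map_add' := fun _ _ => rfl }
  let Φ : A →+* (ℂ → ℂ → ℂ) :=
    { toFun := fun f w z => f.1 (pt' i j w z)
      map_one' := rfl
      map_mul' := fun _ _ => rfl
      map_zero' := rfl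
      map_add' := fun _ _ => rfl }
  have hG : ∀ f, Good (Φ f) ‖f‖ := by
    intro f
    obtain ⟨g, hg, hfg⟩ := (hA f.1).1 f.2
    have he : ∀ w ∈ U, ∀ z ∈ D, Φ f w z = g (pt i j w z) := by
      intro w hw z hz
      change f.1 (pt' i j w z) = _
      rw [hfg, pt'_val hij hw hz]
    refine ⟨fun z hz => ?_, fun w hw => ?_, fun w _ z _ => f.1.norm_coe_le_norm _⟩
    · refine DifferentiableOn.congr (hg.comp (f := fun w => pt i j w z) ?_
        fun w hw => pt_mem hij hw hz) fun w hw => he w hw z hz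
      intro w hw
      have := ne1 hw
      refine DifferentiableAt.differentiableWithinAt ?_
      unfold pt
      fun_prop (disch := assumption)
    · refine DifferentiableOn.congr (hg.comp (f := fun z => pt i j w z) ?_
        fun z hz => pt_mem hij hw hz) fun z hz => he w hw z hz
      unfold pt
      fun_prop
  have huA : ∀ l, uu i j l ∈ A := by
    intro l
    refine (hA _).2 ⟨fun x => (x j) ^ l * Es (a l) (x i), fun x hx => ?_, fun _ => rfl⟩
    have h1 : x i ≠ 1 := by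
      intro h
      have := (coord_le x i).trans_lt (mem_ball_zero_iff.1 hx)
      simp [h] at this
    refine DifferentiableAt.differentiableWithinAt (DifferentiableAt.mul (by fun_prop) ?_)
    exact (Es_diff _ h1).comp x (f := fun x : EuclideanSpace ℂ (Fin n) => x i) (by fun_prop)
  let u : ℕ → A := fun l => ⟨uu i j l, huA l⟩
  have hu : ∀ k l w, w ∈ H → c k (Φ (u l) w) =
      if k = l then (2 / (w + 1)) ^ (l + 1) * exp (-a l * w) else 0 := by
    intro k l w hw
    rw [← c_pow]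
    refine c_congr k fun z hz => ?_
    change ((pt' i j w z).1 j) ^ l * Es (a l) ((pt' i j w z).1 i) = _
    rw [pt'_val hij (HU hw) hz, pt_i hij, pt_j hij, Es]
    have h1 := ne1 (HU hw)
    have e1 : 1 - (w - 1) / (w + 1) = 2 / (w + 1) := by field_simp; ring
    have e2 : (1 + (w - 1) / (w + 1)) / (2 / (w + 1)) = w := by field_simp; ring
    rw [e1, e2, show 2 * z / (w + 1) = 2 / (w + 1) * z by ring, mul_pow, pow_succ]
    ring
  let J1 : Ideal A := J0 (A := A) Φ hG
  let J : Ideal A := J1 ⊓ RingHom.ker (ev ζ)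
  have huJ : ∀ l, u l ∈ J := fun l => ⟨u_mem (A := A) Φ hG u hu l, by
    change (ζ.1 j) ^ l * Es (a l) (ζ.1 i) = 0
    simp [ζ, Es]⟩
  refine ⟨ζ, by simp [ζ], J, ?_, fun w => ⟨fun h => ?_, ?_⟩, fun I hI hIJ => ?_⟩
  · refine (J0_closed (A := A) Φ hG).inter (isClosed_eq (g := fun _ => (0 : ℂ)) ?_ continuous_const)
    exact (continuous_eval_const ζ).comp continuous_subtype_val
  · have h0 := h (u 0) (huJ 0)
    change (w.1 j) ^ 0 * Es (a 0) (w.1 i) = 0 at h0
    simp only [pow_zero, one_mul, Es, mul_eq_zero, exp_ne_zero, or_false] at h0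
    exact Subtype.ext (eq_single i _ (mem_closedBall_zero_iff.1 w.2) (sub_eq_zero.1 h0).symm)
  · rintro rfl f hf
    exact hf.2
  · refine not_fg (A := A) Φ hG u hu I hI (fun f hf => ?_) fun l => ?_
    · have : f ∈ (J : Set A) := hIJ ▸ subset_closure hf
      exact this.1
    · rw [hIJ]; exact huJ l

end Pool.Agent.H2.Ball
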