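import Mathlib

set_option autoImplicit false

/-! First-order rigidity implies that a convex body blocked by flat contacts cannot move. -/

namespace Pool.Agent.H2.Block

open Finset Metric Set Filter Topology

theorem rigid {κ : Type*} [Fintype κ] (n q : κ → Fin 3 → ℝ) (w : Fin 3 → Fin 3 → κ → ℝ)
    (wv : Fin 3 → Bool → κ → ℝ) (hw : ∀ a c k, 0 ≤ w a c k) (hwv : ∀ a s k, 0 ≤ wv a s k)
    (hF : ∀ a c, a ≠ c → ∀ e, ∑ k, w a c k * n k e = 0)
    (hT : ∀ a c, a ≠ c → ∀ e f, ∑ k, w a c k * (n k e * q k f - n k f * q k e) =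
      (if e = a ∧ f = c then 1 else 0) - (if e = c ∧ f = a then 1 else 0))
    (hV : ∀ a s e, ∑ k, wv a s k * n k e = if e = a then (if s then 1 else -1) else 0) :
    ∃ ε > 0, ∀ (b : Fin 3 → Fin 3 → ℝ) (v : Fin 3 → ℝ),
      (∀ a c, b a c + b c a + ∑ e, b e a * b e c = 0) → ∑ a, ∑ c, b a c ^ 2 < ε →
      (∀ k, ∑ e, n k e * (∑ f, b e f * q k f + v e) ≤ 0) → b = 0 ∧ v = 0 := by
  let M : Fin 3 → Fin 3 → Fin 3 → Fin 3 → ℝ := fun a c e f => ∑ k, w a c k * (n k e * q k f)
  let C : ℝ := ∑ a, ∑ c, ∑ e, ∑ f, |M a c e f|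
  have hC0 : 0 ≤ C := by positivity
  have hCle : ∀ a c, ∑ e, ∑ f, |M a c e f| ≤ C := by
    intro a c
    refine le_trans ?_ (single_le_sum (f := fun a => ∑ c, ∑ e, ∑ f, |M a c e f|)
      (fun _ _ => by positivity) (Finset.mem_univ a))
    exact single_le_sum (f := fun c => ∑ e, ∑ f, |M a c e f|) (fun _ _ => by positivity)
      (Finset.mem_univ c)
  refine ⟨4 / (9 * (C + 1) ^ 2), by positivity, fun b v ho hε hk => ?_⟩
  set F := ∑ a, ∑ c, b a c ^ 2 with hFdef
  have hF0 : 0 ≤ F := by positivity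
  have hs : ∀ a c, |b a c + b c a| ≤ F := by
    intro a c
    have h1 := ho a c
    have h2 : ∀ a, ∑ e, b e a ^ 2 ≤ F := by
      intro a
      exact sum_le_sum fun e _ => single_le_sum (f := fun c => b e c ^ 2)
        (fun _ _ => by positivity) (Finset.mem_univ a)
    have h3 := h2 a
    have h4 := h2 c
    simp only [Fin.sum_univ_three] at h1 h3 h4
    rw [abs_le]
    constructor <;> nlinarith [sq_nonneg (b 0 a + b 0 c), sq_nonneg (b 1 a + b 1 c),
      sq_nonneg (b 2 a + b 2 c), sq_nonneg (b 0 a - b 0 c), sq_nonneg (b 1 a - b 1 c),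
      sq_nonneg (b 2 a - b 2 c)]
  have hsk : ∀ a c, a ≠ c → b a c - b c a ≤ C * F := by
    intro a c hac
    have h1 : ∑ k, w a c k * ∑ e, n k e * (∑ f, b e f * q k f + v e) ≤ 0 :=
      sum_nonpos fun k _ => mul_nonpos_of_nonneg_of_nonpos (hw a c k) (hk k)
    have h2 : ∑ k, w a c k * ∑ e, n k e * (∑ f, b e f * q k f + v e) =
        ∑ e, ∑ f, M a c e f * b e f + ∑ e, (∑ k, w a c k * n k e) * v e := by
      simp only [M, Fin.sum_univ_three, sum_mul, ← sum_add_distrib]
      exact sum_congr rfl fun k _ => by ring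
    simp only [hF a c hac, zero_mul, sum_const_zero, add_zero] at h2
    have h3 : ∀ e f, M a c e f - M a c f e =
        (if e = a ∧ f = c then 1 else 0) - (if e = c ∧ f = a then 1 else 0) := by
      intro e f
      rw [← hT a c hac e f]
      simp only [M, ← sum_sub_distrib]
      exact sum_congr rfl fun k _ => by ring
    have h4 : 2 * ∑ e, ∑ f, M a c e f * b e f = ∑ e, ∑ f, M a c e f * (b e f + b f e) +
        ∑ e, ∑ f, (M a c e f - M a c f e) * b e f := by
      simp only [Fin.sum_univ_three]; ring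
    have h5 : ∑ e, ∑ f, (M a c e f - M a c f e) * b e f = b a c - b c a := by
      simp only [h3, sub_mul, sum_sub_distrib, ite_and, ite_mul, one_mul, zero_mul,
        sum_ite_irrel, sum_ite_eq', Finset.mem_univ, if_true, sum_const_zero]
    have h6 : -(∑ e, ∑ f, M a c e f * (b e f + b f e)) ≤ (∑ e, ∑ f, |M a c e f|) * F := by
      rw [sum_mul, ← sum_neg_distrib]
      refine sum_le_sum fun e _ => ?_
      rw [sum_mul, ← sum_neg_distrib]
      refine sum_le_sum fun f _ => ?_
      refine (neg_le_abs _).trans ?_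
      rw [abs_mul]
      exact mul_le_mul_of_nonneg_left (hs e f) (abs_nonneg _)
    have h7 := mul_le_mul_of_nonneg_right (hCle a c) hF0
    linarith
  have hb : ∀ a c, b a c ^ 2 ≤ ((C + 1) * F / 2) ^ 2 := by
    intro a c
    refine sq_le_sq' ?_ ?_
    · by_cases hac : a = c
      · subst hac
        have := (abs_le.1 (hs a a)).1
        nlinarith
      · have := hsk c a (Ne.symm hac)
        have := (abs_le.1 (hs a c)).1
        linarith
    · by_cases hac : a = c
      · subst hac
        have := (abs_le.1 (hs a a)).2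
        nlinarith
      · have := hsk a c hac
        have := (abs_le.1 (hs a c)).2
        linarith
  have hFF : F ≤ 9 * ((C + 1) * F / 2) ^ 2 := by
    have := hb 0 0; have := hb 0 1; have := hb 0 2; have := hb 1 0; have := hb 1 1
    have := hb 1 2; have := hb 2 0; have := hb 2 1; have := hb 2 2
    have e : F = ∑ a, ∑ c, b a c ^ 2 := rfl
    simp only [Fin.sum_univ_three] at e
    linarith
  have hFz : F = 0 := by
    rw [lt_div_iff₀ (by positivity)] at hε
    by_contra hne
    have hpos : 0 < F := lt_of_le_of_ne hF0 (Ne.symm hne)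
    nlinarith
  have hb0 : b = 0 := by
    ext a c
    have := hb a c
    rw [hFz] at this
    simp only [mul_zero, zero_div, ne_eq, OfNat.ofNat_ne_zero, not_false_eq_true, zero_pow] at this
    exact pow_eq_zero_iff (two_ne_zero) |>.1 (le_antisymm this (sq_nonneg _))
  refine ⟨hb0, ?_⟩
  ext a
  have key : ∀ s : Bool, (if s then 1 else -1) * v a ≤ 0 := by
    intro s
    have h1 : ∑ k, wv a s k * ∑ e, n k e * (∑ f, b e f * q k f + v e) ≤ 0 :=
      sum_nonpos fun k _ => mul_nonpos_of_nonneg_of_nonpos (hwv a s k) (hk k)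
    have h2 : ∑ k, wv a s k * ∑ e, n k e * (∑ f, b e f * q k f + v e) =
        ∑ e, (∑ k, wv a s k * n k e) * v e := by
      simp only [hb0, Pi.zero_apply, zero_mul, sum_const_zero, zero_add, Fin.sum_univ_three,
        sum_mul, ← sum_add_distrib]
      exact sum_congr rfl fun k _ => by ring
    simp only [hV, ite_mul, zero_mul, sum_ite_eq', Finset.mem_univ, if_true] at h2
    rw [h2] at h1
    cases s <;> simpa using h1
  have h1 := key true
  have h2 := key false
  simp only [if_true, one_mul, Bool.false_eq_true, if_false, neg_mul] at h1 h2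
  simp only [Pi.zero_apply]; linarith

/-- three dimensional Euclidean space -/
abbrev E := EuclideanSpace ℝ (Fin 3)

/-- linear form -/
def lf (n : Fin 3 → ℝ) (p : E) : ℝ := ∑ a, n a * p a

theorem lf_cont (n : Fin 3 → ℝ) : Continuous (lf n) := by unfold lf; fun_prop

theorem lf_lin (n : Fin 3 → ℝ) : IsLinearMap ℝ (lf n) :=
  ⟨fun x y => by simp [lf, mul_add, sum_add_distrib], fun c x => by
    simp only [lf, PiLp.smul_apply, smul_eq_mul, mul_sum]
    exact sum_congr rfl fun _ _ => by ring⟩

theorem blocked {κ ι : Type*} [Fintype κ] (K : ι → Set E) (i : ι) (n : κ → Fin 3 → ℝ) (q : κ → E)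
    (j : κ → ι) (U : κ → Set E) (hj : ∀ k, j k ≠ i) (hU : ∀ k, U k ∈ 𝓝 (q k))
    (hq : ∀ k, q k ∈ closure (interior (K i)))
    (hUK : ∀ k, ∀ p ∈ U k, lf (n k) (q k) < lf (n k) p → p ∈ interior (K (j k)))
    {ε : ℝ} (hε : 0 < ε) (hr : ∀ (b : Fin 3 → Fin 3 → ℝ) (v : Fin 3 → ℝ),
      (∀ a c, b a c + b c a + ∑ e, b e a * b e c = 0) → ∑ a, ∑ c, b a c ^ 2 < ε →
      (∀ k, ∑ e, n k e * (∑ f, b e f * q k f + v e) ≤ 0) → b = 0 ∧ v = 0)
    (γ : unitInterval → E → E) (hγ : ∀ t, Isometry (γ t))
    (hc : Continuous (fun p : unitInterval × E => γ p.1 p.2)) (h0 : γ 0 = id)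
    (hd : ∀ t, ∀ j, j ≠ i → Disjoint (interior (γ t '' K i)) (interior (K j))) :
    ∀ t, γ t '' K i = K i := by
  have hct : ∀ p, Continuous fun t => γ t p := fun p => hc.comp (by fun_prop : Continuous fun t => (t, p))
  let b : unitInterval → Fin 3 → Fin 3 → ℝ := fun t a c =>
    γ t (EuclideanSpace.single c 1) a - γ t 0 a - (if a = c then 1 else 0)
  have hbc : ∀ a c, Continuous fun t => b t a c := by
    intro a c
    have h1 := hct (EuclideanSpace.single c 1)
    have h2 := hct 0
    simp only [b]; fun_prop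
  have hA : ∀ t, ∃ A : E ≃ₗᵢ[ℝ] E, ∀ p, γ t p = A p + γ t 0 := by
    intro t
    let g := (hγ t).affineIsometryOfStrictConvexSpace
    refine ⟨g.linearIsometry.toLinearIsometryEquiv rfl, fun p => ?_⟩
    have := g.map_vadd 0 p
    simpa [g] using this
  have hclopen : IsClopen {t | γ t = id} := by
    constructor
    · have : {t | γ t = id} = ⋂ p, {t | γ t p = p} := by
        ext t; simp [funext_iff]
      rw [this]
      exact isClosed_iInter fun p => isClosed_eq (hct p) continuous_const
    · rw [isOpen_iff_mem_nhds]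
      intro t0 ht0
      have ht0' : γ t0 = id := ht0
      have e1 : ∀ᶠ t in 𝓝 t0, ∀ k, γ t (q k) ∈ U k := by
        rw [eventually_all]
        intro k
        refine (hct (q k)).continuousAt.eventually_mem ?_
        rw [ht0']; exact hU k
      have e2 : ∀ᶠ t in 𝓝 t0, ∑ a, ∑ c, b t a c ^ 2 < ε := by
        refine ContinuousAt.eventually_lt (Continuous.continuousAt (by fun_prop))
          continuousAt_const ?_
        have : ∀ a c, b t0 a c = 0 := by
          intro a c
          simp only [b, ht0', id]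
          by_cases h : a = c <;> simp [h]
        simpa [this] using hε
      filter_upwards [e1, e2] with t h1 h2
      obtain ⟨A, hA⟩ := hA t
      have hAe : ∀ a c, A (EuclideanSpace.single c 1) a = b t a c + (if a = c then 1 else 0) := by
        intro a c
        simp only [b, hA (EuclideanSpace.single c 1), PiLp.add_apply]; ring
      have hAp : ∀ (p : E) a, A p a = ∑ f, b t a f * p f + p a := by
        intro p a
        have hp : p = ∑ f, p f • EuclideanSpace.single f (1 : ℝ) := by
          ext e; fin_cases e <;> simp [Fin.sum_univ_three]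
        conv_lhs => rw [hp, map_sum]
        simp only [map_smul, Fin.sum_univ_three, PiLp.add_apply, PiLp.smul_apply, hAe, smul_eq_mul]
        fin_cases a <;> simp <;> ring
      have hopen : IsOpenMap (γ t) := by
        have : γ t = (fun x => x + γ t 0) ∘ A := funext hA
        rw [this]
        exact (isOpenMap_add_right _).comp A.toHomeomorph.isOpenMap
      obtain ⟨hb0, hv0⟩ := hr (b t) (fun a => γ t 0 a) (fun a c => by
        have := A.inner_map_map (EuclideanSpace.single a 1) (EuclideanSpace.single c 1)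
        simp only [PiLp.inner_apply, hAe, Fin.sum_univ_three] at this ⊢
        fin_cases a <;> fin_cases c <;> simp at this ⊢ <;> linarith) h2 (fun k => by
        by_contra hlt
        have h3 : lf (n k) (q k) < lf (n k) (γ t (q k)) := by
          simp only [lf, hA (q k), PiLp.add_apply, hAp, Fin.sum_univ_three] at hlt ⊢
          linarith
        have h4 := hUK k _ (h1 k) h3
        have h5 : γ t (q k) ∈ closure (interior (γ t '' K i)) :=
          closure_mono (hopen.image_interior_subset _)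
            (image_closure_subset_closure_image (hγ t).continuous ⟨_, hq k, rfl⟩)
        exact Set.disjoint_left.1 ((hd t _ (hj k)).closure_left isOpen_interior) h5 h4)
      ext p a
      have := congrFun hv0 a
      simp only [Pi.zero_apply] at this
      simp [hA p, hAp, hb0, this]
  intro t
  have : t ∈ {t | γ t = id} := by
    rw [hclopen.eq_univ ⟨0, h0⟩]; trivial
  rw [show γ t = id from this, image_id]

/-- rational dot product -/
def d3 (u v : Fin 3 → ℚ) : ℚ := u 0 * v 0 + u 1 * v 1 + u 2 * v 2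

/-- real point -/
noncomputable def pt (u : Fin 3 → ℚ) : E := WithLp.toLp 2 fun a => (u a : ℝ)

theorem lf_pt (u v : Fin 3 → ℚ) : lf (fun a => (u a : ℝ)) (pt v) = (d3 u v : ℝ) := by
  simp [lf, pt, d3, Fin.sum_univ_three]

theorem norm_pt (u : Fin 3 → ℚ) (h : d3 u u < 400) : ‖pt u‖ < 20 := by
  have h1 : ‖pt u‖ ^ 2 = (d3 u u : ℝ) := by
    rw [EuclideanSpace.norm_sq_eq]
    simp only [pt, d3, Fin.sum_univ_three, Real.norm_eq_abs, sq_abs]
    push_cast; ring
  have h2 : (d3 u u : ℝ) < 400 := by exact_mod_cast h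
  nlinarith [norm_nonneg (pt u)]

theorem main {m r : ℕ} (N : Fin m → Fin m → Fin 3 → ℚ) (C : Fin m → Fin m → ℚ)
    (G : Fin m → Fin 3 → ℚ) (J : Fin m → Fin r → Fin m) (Q : Fin m → Fin r → Fin 3 → ℚ)
    (W : Fin m → Fin 3 → Fin 3 → Fin r → ℚ) (Wv : Fin m → Fin 3 → Bool → Fin r → ℚ)
    (h1 : ∀ i j, (∀ a, N j i a = - N i j a) ∧ C j i = - C i j)
    (h2 : ∀ i, d3 (G i) (G i) < 400 ∧ ∀ j, j ≠ i → d3 (N i j) (G i) < C i j)
    (h3 : ∀ i k, J i k ≠ i ∧ d3 (N i (J i k)) (Q i k) = C i (J i k) ∧ d3 (Q i k) (Q i k) < 400 ∧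
      (∀ l, l ≠ i → d3 (N i l) (Q i k) ≤ C i l) ∧
      (∀ l, l ≠ J i k → l ≠ i → d3 (N (J i k) l) (Q i k) < C (J i k) l))
    (hw : ∀ i a c k, 0 ≤ W i a c k) (hwv : ∀ i a s k, 0 ≤ Wv i a s k)
    (hF : ∀ i a c, a ≠ c → ∀ e, ∑ k, W i a c k * N i (J i k) e = 0)
    (hT : ∀ i a c, a ≠ c → ∀ e f, ∑ k, W i a c k *
      (N i (J i k) e * Q i k f - N i (J i k) f * Q i k e) =
      (if e = a ∧ f = c then 1 else 0) - (if e = c ∧ f = a then 1 else 0))
    (hV : ∀ i a s e, ∑ k, Wv i a s k * N i (J i k) e =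
      if e = a then (if s then 1 else -1) else 0) :
    ∃ K : Fin m → Set E,
        (∀ i, IsCompact (K i) ∧ Convex ℝ (K i) ∧ (interior (K i)).Nonempty) ∧
        (∀ i j, i ≠ j → Disjoint (interior (K i)) (interior (K j))) ∧
        ∀ i : Fin m, ∀ γ : unitInterval → E → E,
          (∀ t, Isometry (γ t)) →
          Continuous (fun p : unitInterval × E => γ p.1 p.2) →
          γ 0 = id →
          (∀ t, ∀ j, j ≠ i → Disjoint (interior (γ t '' K i)) (interior (K j))) →
          ∀ t, γ t '' K i = K i := by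
  let ℓ : Fin m → Fin m → E → ℝ := fun i j => lf fun a => (N i j a : ℝ)
  have hℓ : ∀ i j p, ℓ j i p = - ℓ i j p := by
    intro i j p
    simp [ℓ, lf, (h1 i j).1, sum_neg_distrib]
  have hC : ∀ i j, (C j i : ℝ) = - C i j := fun i j => by rw [(h1 i j).2]; simp
  let K : Fin m → Set E := fun i => closedBall 0 20 ∩ ⋂ j, ⋂ (_ : j ≠ i), {p | ℓ i j p ≤ C i j}
  have hint : ∀ i p, ‖p‖ < 20 → (∀ j, j ≠ i → ℓ i j p < C i j) → p ∈ interior (K i) := by
    intro i p hp h
    have ho : IsOpen (ball (0 : E) 20 ∩ ⋂ j, ⋂ (_ : j ≠ i), {p | ℓ i j p < C i j}) :=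
      isOpen_ball.inter (isOpen_iInter_of_finite fun j => isOpen_iInter_of_finite fun _ =>
        isOpen_lt (lf_cont _) continuous_const)
    refine interior_maximal ?_ ho ⟨mem_ball_zero_iff.2 hp, by simpa using h⟩
    rintro x ⟨hx1, hx2⟩
    simp only [mem_iInter, mem_setOf_eq] at hx2
    refine ⟨ball_subset_closedBall hx1, ?_⟩
    simp only [mem_iInter, mem_setOf_eq]
    exact fun j hj => (hx2 j hj).le
  have hG : ∀ i j, j ≠ i → ℓ i j (pt (G i)) < C i j := by
    intro i j hj
    simp only [ℓ, lf_pt]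
    exact_mod_cast (h2 i).2 j hj
  have hGi : ∀ i, pt (G i) ∈ interior (K i) := fun i => hint i _ (norm_pt _ (h2 i).1) (hG i)
  have hconv : ∀ i, Convex ℝ (K i) := fun i => (convex_closedBall _ _).inter
    (convex_iInter fun j => convex_iInter fun _ => convex_halfSpace_le (lf_lin _) _)
  have hcl : ∀ i, IsClosed (⋂ j, ⋂ (_ : j ≠ i), {p | ℓ i j p ≤ C i j}) := fun i =>
    isClosed_iInter fun j => isClosed_iInter fun _ => isClosed_le (lf_cont _) continuous_const
  have hKle : ∀ i j, j ≠ i → ∀ p ∈ K i, ℓ i j p ≤ C i j := by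
    intro i j hj p hp
    have := hp.2
    simp only [mem_iInter, mem_setOf_eq] at this
    exact this j hj
  refine ⟨K, fun i => ⟨(isCompact_closedBall _ _).inter_right (hcl i), hconv i, ⟨_, hGi i⟩⟩,
    fun i j hij => ?_, fun i => ?_⟩
  · rw [Set.disjoint_left]
    intro p hpi hpj
    let d := pt (G j) - pt (G i)
    have hd : 0 < ℓ i j d := by
      have e1 := hG i j hij.symm
      have e2 := hG j i hij
      rw [hℓ, hC] at e2
      have : ℓ i j d = ℓ i j (pt (G j)) - ℓ i j (pt (G i)) := (lf_lin _).map_sub _ _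
      linarith
    have e3 := hKle j i hij p (interior_subset hpj)
    rw [hℓ, hC] at e3
    have hcont : Continuous fun s : ℝ => p + s • d := by fun_prop
    have hev : ∀ᶠ s in 𝓝 (0 : ℝ), p + s • d ∈ K i :=
      hcont.continuousAt.eventually_mem (by simpa using mem_interior_iff_mem_nhds.1 hpi)
    obtain ⟨s, hs1, hs2⟩ := ((hev.filter_mono nhdsWithin_le_nhds).and
      (self_mem_nhdsWithin : Set.Ioi (0 : ℝ) ∈ 𝓝[>] 0)).exists
    have e4 := hKle i j hij.symm _ hs1
    have e5 : ℓ i j (p + s • d) = ℓ i j p + s * ℓ i j d := by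
      simp only [ℓ]; rw [(lf_lin _).map_add, (lf_lin _).map_smul, smul_eq_mul]
    have : 0 < s * ℓ i j d := mul_pos hs2 hd
    linarith
  · obtain ⟨ε, hε, hr⟩ := rigid (fun k a => (N i (J i k) a : ℝ)) (fun k a => (Q i k a : ℝ))
      (fun a c k => (W i a c k : ℝ)) (fun a s k => (Wv i a s k : ℝ))
      (fun a c k => by exact_mod_cast hw i a c k) (fun a s k => by exact_mod_cast hwv i a s k)
      (fun a c h e => by exact_mod_cast hF i a c h e)
      (fun a c h e f => by
        have := congrArg (fun x : ℚ => (x : ℝ)) (hT i a c h e f)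
        simp only [Rat.cast_sub, apply_ite (fun x : ℚ => (x : ℝ))] at this
        push_cast at this
        exact this)
      (fun a s e => by
        have := congrArg (fun x : ℚ => (x : ℝ)) (hV i a s e)
        simp only [apply_ite (fun x : ℚ => (x : ℝ))] at this
        push_cast at this
        exact this)
    refine blocked K i (fun k a => (N i (J i k) a : ℝ)) (fun k => pt (Q i k)) (J i)
      (fun k => ball 0 20 ∩ ⋂ l, ⋂ (_ : l ≠ J i k), ⋂ (_ : l ≠ i), {p | ℓ (J i k) l p < C (J i k) l})
      (fun k => (h3 i k).1) (fun k => IsOpen.mem_nhds ?_ ⟨?_, ?_⟩) (fun k => ?_) (fun k p hp hlt => ?_)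
      hε hr
    · exact isOpen_ball.inter (isOpen_iInter_of_finite fun j => isOpen_iInter_of_finite fun _ =>
        isOpen_iInter_of_finite fun _ => isOpen_lt (lf_cont _) continuous_const)
    · exact mem_ball_zero_iff.2 (norm_pt _ (h3 i k).2.2.1)
    · simp only [mem_iInter, mem_setOf_eq, ℓ, lf_pt]
      intro l hl hl'
      exact_mod_cast (h3 i k).2.2.2.2 l hl hl'
    · rw [(hconv i).closure_interior_eq_closure_of_nonempty_interior ⟨_, hGi i⟩]
      refine subset_closure ⟨mem_closedBall_zero_iff.2 (norm_pt _ (h3 i k).2.2.1).le, ?_⟩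
      simp only [mem_iInter, mem_setOf_eq, ℓ, lf_pt]
      intro l hl
      exact_mod_cast (h3 i k).2.2.2.1 l hl
    · refine hint _ p (mem_ball_zero_iff.1 hp.1) fun l hl => ?_
      by_cases hli : l = i
      · subst hli
        rw [hℓ, hC]
        rw [lf_pt, (h3 l k).2.1] at hlt
        simp only [ℓ]; linarith
      · have := hp.2
        simp only [mem_iInter, mem_setOf_eq] at this
        exact this l hl hli

end Pool.Agent.H2.Block
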