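import Mathlib

set_option autoImplicit false

/-! Golod–Shafarevich inequality for a finite-dimensional augmented algebra. -/

namespace Pool.Agent.H2.GS

open Module

variable {k R : Type*} [Field k] [Ring R] [Algebra k R]

/-- powers of the augmentation ideal -/
def J (ε : R →ₐ[k] k) : ℕ → Submodule k R
  | 0 => ⊤
  | (m + 1) => J ε m * LinearMap.ker ε.toLinearMap

theorem J_mul (ε : R →ₐ[k] k) (m : ℕ) : ∀ u ∈ J ε m, ∀ r : R, u * r ∈ J ε m := by
  cases m with
  | zero => intro u _ r; exact Submodule.mem_top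
  | succ m =>
    intro u hu r
    refine Submodule.mul_induction_on hu ?_ ?_
    · intro a ha b hb
      rw [mul_assoc]
      refine Submodule.mul_mem_mul ha ?_
      simp only [LinearMap.mem_ker, AlgHom.toLinearMap_apply, map_mul] at hb ⊢
      rw [hb, zero_mul]
    · intro a b ha hb
      rw [add_mul]; exact Submodule.add_mem _ ha hb

theorem J_le_ker (ε : R →ₐ[k] k) : J ε 1 ≤ LinearMap.ker ε.toLinearMap := by
  intro u hu
  refine Submodule.mul_induction_on hu ?_ ?_
  · intro a _ b hb
    simp only [LinearMap.mem_ker, AlgHom.toLinearMap_apply, map_mul] at hb ⊢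
    rw [hb, mul_zero]
  · intro a b ha hb
    exact Submodule.add_mem _ ha hb

/-- the map `c ↦ ∑ c i * t i` -/
def comb {ι : Type*} [Fintype ι] (t : ι → R) : (ι → R) →ₗ[k] R where
  toFun c := ∑ i, c i * t i
  map_add' a b := by simp [add_mul, Finset.sum_add_distrib]
  map_smul' a b := by simp [Finset.smul_sum]

/-- the map `p ↦ ∑ p a • v a` restricted to a subspace of coefficients -/
def combV {ι A : Type*} [Fintype A] (v : A → ι → R) (C : Submodule k R) :
    (A → C) →ₗ[k] (ι → R) where
  toFun p := ∑ a, (p a : R) • v a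
  map_add' a b := by simp [add_smul, Finset.sum_add_distrib]
  map_smul' a b := by simp [Finset.smul_sum]

/-- inclusion -/
def incl {ι : Type*} (C : Submodule k R) : (ι → C) →ₗ[k] (ι → R) where
  toFun p := fun i => p i
  map_add' a b := by ext; simp
  map_smul' a b := by ext; simp

theorem step [FiniteDimensional k R] (ε : R →ₐ[k] k) {ι A B : Type*} [Fintype ι] [Fintype A]
    [Fintype B] (t : ι → R)
    (hgen : ∀ u, ε u = 0 → ∃ c : ι → R, u = ∑ i, c i * t i)
    (vA : A → ι → R) (vB : B → ι → R) (hB : ∀ b i, ε (vB b i) = 0)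
    (hker : ∀ c : ι → R, ∑ i, c i * t i = 0 →
      ∃ (p : A → R) (q : B → R), c = ∑ a, p a • vA a + ∑ b, q b • vB b) (m : ℕ) :
    Fintype.card ι * finrank k R + finrank k (J ε (m + 2)) ≤
      finrank k R + Fintype.card ι * finrank k (J ε (m + 1)) +
        Fintype.card A * (finrank k R - finrank k (J ε (m + 1))) +
        Fintype.card B * (finrank k R - finrank k (J ε m)) := by
  classical
  obtain ⟨C1, hC1⟩ := Submodule.exists_isCompl (J ε (m + 1))
  obtain ⟨C0, hC0⟩ := Submodule.exists_isCompl (J ε m)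
  have d1 : finrank k C1 = finrank k R - finrank k (J ε (m + 1)) := by
    have := Submodule.finrank_add_eq_of_isCompl hC1; omega
  have d0 : finrank k C0 = finrank k R - finrank k (J ε m) := by
    have := Submodule.finrank_add_eq_of_isCompl hC0; omega
  let Φ : ((ι → J ε (m + 1)) × (A → C1) × (B → C0)) →ₗ[k] (ι → R) :=
    (incl (J ε (m + 1))).coprod ((combV vA C1).coprod (combV vB C0))
  let f : (ι → R) →ₗ[k] R := comb t
  let L : Submodule k (ι → R) := (J ε (m + 2)).comap f
  -- vectors with all coordinates in J (m+1) are in the range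
  have hPJ : ∀ c : ι → R, (∀ i, c i ∈ J ε (m + 1)) → c ∈ LinearMap.range Φ := by
    intro c hc
    refine ⟨(fun i => ⟨c i, hc i⟩, 0, 0), ?_⟩
    ext i; simp [Φ, incl]
  have hsurj : ∀ u ∈ J ε (m + 2), ∃ c : ι → R, (∀ i, c i ∈ J ε (m + 1)) ∧ f c = u := by
    intro u hu
    refine Submodule.mul_induction_on hu ?_ ?_
    · intro a ha b hb
      obtain ⟨c, hc⟩ := hgen b hb
      refine ⟨fun i => a * c i, fun i => J_mul ε _ a ha _, ?_⟩
      simp only [f, comb, LinearMap.coe_mk, AddHom.coe_mk]
      rw [hc, Finset.mul_sum]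
      simp [mul_assoc]
    · rintro a b ⟨c, hc, rfl⟩ ⟨c', hc', rfl⟩
      exact ⟨c + c', fun i => Submodule.add_mem _ (hc i) (hc' i), map_add _ _ _⟩
  have hL : L ≤ LinearMap.range Φ := by
    intro c hc
    obtain ⟨c', hc', he⟩ := hsurj _ hc
    have h0 : f (c - c') = 0 := by rw [map_sub, he, sub_self]
    obtain ⟨p, q, hpq⟩ := hker _ h0
    have : c = c' + (∑ a, p a • vA a + ∑ b, q b • vB b) := by rw [← hpq]; abel
    rw [this]
    refine Submodule.add_mem _ (hPJ _ hc') (Submodule.add_mem _ ?_ ?_)
    · refine Submodule.sum_mem _ fun a _ => ?_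
      obtain ⟨x, hx, y, hy, hxy⟩ := Submodule.mem_sup.1
        (hC1.sup_eq_top ▸ (Submodule.mem_top : p a ∈ (⊤ : Submodule k R)))
      rw [← hxy, add_smul]
      refine Submodule.add_mem _ (hPJ _ fun i => J_mul ε _ x hx _) ?_
      refine ⟨(0, Pi.single a ⟨y, hy⟩, 0), ?_⟩
      simp only [Φ, LinearMap.coprod_apply, map_zero, zero_add, add_zero, combV,
        LinearMap.coe_mk, AddHom.coe_mk]
      rw [Finset.sum_eq_single a]
      · simp
      · intro b _ hb; simp [Pi.single_eq_of_ne hb]
      · simp
    · refine Submodule.sum_mem _ fun b _ => ?_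
      obtain ⟨x, hx, y, hy, hxy⟩ := Submodule.mem_sup.1
        (hC0.sup_eq_top ▸ (Submodule.mem_top : q b ∈ (⊤ : Submodule k R)))
      rw [← hxy, add_smul]
      refine Submodule.add_mem _ (hPJ _ fun i => Submodule.mul_mem_mul hx (hB b i)) ?_
      refine ⟨(0, 0, Pi.single b ⟨y, hy⟩), ?_⟩
      simp only [Φ, LinearMap.coprod_apply, map_zero, zero_add, combV,
        LinearMap.coe_mk, AddHom.coe_mk]
      rw [Finset.sum_eq_single b]
      · simp
      · intro b' _ hb; simp [Pi.single_eq_of_ne hb]
      · simp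
  have h1 : finrank k L ≤ Fintype.card ι * finrank k (J ε (m + 1)) +
      Fintype.card A * finrank k C1 + Fintype.card B * finrank k C0 := by
    refine (Submodule.finrank_mono hL).trans ((LinearMap.finrank_range_le Φ).trans ?_)
    simp [Module.finrank_prod, Module.finrank_pi_fintype, add_assoc]
  -- rank-nullity
  have h2 := LinearMap.finrank_range_add_finrank_ker f
  have h3 : finrank k (LinearMap.range f) ≤ finrank k R := Submodule.finrank_le _
  have h4 : finrank k (ι → R) = Fintype.card ι * finrank k R := by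
    simp [Module.finrank_pi_fintype]
  have h5 := LinearMap.finrank_range_add_finrank_ker (f.domRestrict L)
  have h6 : LinearMap.range (f.domRestrict L) = J ε (m + 2) := by
    apply le_antisymm
    · rintro _ ⟨x, rfl⟩; exact x.2
    · intro u hu
      obtain ⟨c, -, hc⟩ := hsurj u hu
      exact ⟨⟨c, by simp only [L, Submodule.mem_comap, hc]; exact hu⟩, hc⟩
  have h7 : finrank k (LinearMap.ker (f.domRestrict L)) = finrank k (LinearMap.ker f) := by
    rw [LinearMap.ker_domRestrict]
    refine (Submodule.comapSubtypeEquivOfLe ?_).finrank_eq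
    intro x hx
    simp only [L, Submodule.mem_comap, LinearMap.mem_ker.1 hx]
    exact Submodule.zero_mem _
  rw [h6, h7] at h5
  rw [← d1, ← d0]
  omega

theorem gs [FiniteDimensional k R] (ε : R →ₐ[k] k) {ι A B : Type*} [Fintype ι] [Fintype A]
    [Fintype B] (t : ι → R)
    (hgen : ∀ u, ε u = 0 → ∃ c : ι → R, u = ∑ i, c i * t i)
    (vA : A → ι → R) (vB : B → ι → R) (hB : ∀ b i, ε (vB b i) = 0)
    (hker : ∀ c : ι → R, ∑ i, c i * t i = 0 →
      ∃ (p : A → R) (q : B → R), c = ∑ a, p a • vA a + ∑ b, q b • vB b)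
    (l : ℕ) (hl : 2 ≤ l)
    (hnum : l * l + Fintype.card B + l * Fintype.card A ≤ l * Fintype.card ι) : False := by
  set D := finrank k R with hD
  set N := Fintype.card ι
  set a := Fintype.card A
  set b := Fintype.card B
  let c : ℕ → ℕ := fun m => D - finrank k (J ε m)
  have hle : ∀ m, finrank k (J ε m) ≤ D := fun m => Submodule.finrank_le _
  have hc : ∀ m, c m + finrank k (J ε m) = D := fun m => Nat.sub_add_cancel (hle m)
  have hs : ∀ m, N * c (m + 1) ≤ c (m + 2) + a * c (m + 1) + b * c m := by
    intro m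
    have h := step ε t hgen vA vB hB hker m
    have e1 := hc (m + 1)
    have e2 := hc (m + 2)
    change N * D + _ ≤ D + N * _ + a * c (m + 1) + b * c m at h
    have : N * D = N * c (m + 1) + N * finrank k (J ε (m + 1)) := by rw [← mul_add, e1]
    omega
  have h0 : c 0 = 0 := by
    have : finrank k (J ε 0) = D := by
      change finrank k (⊤ : Submodule k R) = _
      simp [hD]
    simp [c, this]
  have h1 : 1 ≤ c 1 := by
    have hlt : J ε 1 < ⊤ := by
      refine lt_of_le_of_lt (J_le_ker ε) (lt_top_iff_ne_top.2 fun h => ?_)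
      have : (1 : R) ∈ LinearMap.ker ε.toLinearMap := h ▸ Submodule.mem_top
      simp at this
    have := Submodule.finrank_lt hlt.ne
    simp only [c]; omega
  have hg : ∀ m, l * c m ≤ c (m + 1) := by
    intro m
    induction m with
    | zero => simp [h0]
    | succ m ih =>
      have h := hs m
      have e1 : l * (N * c (m + 1)) ≤ l * (c (m + 2) + a * c (m + 1) + b * c m) :=
        Nat.mul_le_mul_left _ h
      have e2 : (l * l + b + l * a) * c (m + 1) ≤ l * N * c (m + 1) :=
        Nat.mul_le_mul_right _ hnum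
      have e3 : b * (l * c m) ≤ b * c (m + 1) := Nat.mul_le_mul_left _ ih
      have e4 : l * (l * c (m + 1)) ≤ l * c (m + 2) := by nlinarith
      exact Nat.le_of_mul_le_mul_left e4 (by omega)
  have hb : ∀ m, m + 1 ≤ c (m + 1) := by
    intro m
    induction m with
    | zero => exact h1
    | succ m ih =>
      have := hg (m + 1)
      nlinarith
  have := hb D
  have := hc (D + 1)
  omega

end Pool.Agent.H2.GS
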