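import Mathlib
import Pool.Agent.H2.GS

set_option autoImplicit false

/-! Path sums in Cayley graphs (Fox calculus) and the infinitude criterion for presented groups. -/

namespace Pool.Agent.H2.Brandl

/-- wreath-type group of pairs (function, element) -/
@[ext] structure W (G M : Type*) where
  f : G → M
  g : G

section W
variable {G M : Type*} [Group G] [AddCommGroup M]

instance : Mul (W G M) := ⟨fun a b => ⟨fun x => a.f x + b.f (x * a.g), a.g * b.g⟩⟩
instance : One (W G M) := ⟨⟨0, 1⟩⟩
instance : Inv (W G M) := ⟨fun a => ⟨fun x => - a.f (x * a.g⁻¹), a.g⁻¹⟩⟩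

@[simp] theorem mul_f (a b : W G M) (x : G) : (a * b).f x = a.f x + b.f (x * a.g) := rfl
@[simp] theorem mul_g (a b : W G M) : (a * b).g = a.g * b.g := rfl
@[simp] theorem one_f (x : G) : (1 : W G M).f x = 0 := rfl
@[simp] theorem one_g : (1 : W G M).g = 1 := rfl
@[simp] theorem inv_f (a : W G M) (x : G) : (a⁻¹).f x = - a.f (x * a.g⁻¹) := rfl
@[simp] theorem inv_g (a : W G M) : (a⁻¹).g = a.g⁻¹ := rfl

instance : Group (W G M) := Group.ofLeftAxioms
  (fun a b c => by ext x <;> simp [add_assoc, mul_assoc])
  (fun a => by ext x <;> simp)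
  (fun a => by ext x <;> simp)

instance [Finite G] [Finite M] : Finite (W G M) :=
  Finite.of_injective (fun a : W G M => (a.f, a.g)) fun a b h => by
    simp only [Prod.mk.injEq] at h
    exact W.ext h.1 h.2

/-- path sums -/
def pth {α : Type*} (gen : α → G) (E : α → G → M) : FreeGroup α →* W G M :=
  FreeGroup.lift fun i => ⟨E i, gen i⟩

@[simp] theorem pth_of {α : Type*} (gen : α → G) (E : α → G → M) (i : α) :
    pth gen E (FreeGroup.of i) = ⟨E i, gen i⟩ := FreeGroup.lift_apply_of

theorem pth_g {α : Type*} (gen : α → G) (E : α → G → M) (w : FreeGroup α) :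
    (pth gen E w).g = FreeGroup.lift gen w := by
  induction w using FreeGroup.induction_on with
  | C1 => simp
  | of i => simp
  | inv_of i _ => simp
  | mul a b ha hb => simp [ha, hb]

theorem pth_nat {α S N : Type*} [Group S] [AddCommGroup N] (gen : α → G) (E : α → G → M)
    (gen' : α → S) (E' : α → S → N) (π : G →* S) (τ : G → S) (φ : M →+ N)
    (hτ : ∀ g h, τ (g * h) = τ g * π h) (hg : ∀ i, π (gen i) = gen' i)
    (hE : ∀ i g, φ (E i g) = E' i (τ g)) (w : FreeGroup α) :
    π (pth gen E w).g = (pth gen' E' w).g ∧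
      ∀ g, φ ((pth gen E w).f g) = (pth gen' E' w).f (τ g) := by
  induction w using FreeGroup.induction_on with
  | C1 => simp
  | of i => simp [hg, hE]
  | inv_of i _ => simp [hg, hE, hτ]
  | mul a b ha hb =>
    refine ⟨by simp [ha.1, hb.1], fun g => ?_⟩
    simp [ha.2, hb.2, hτ, ha.1]

theorem pth_cob {α : Type*} (gen : α → G) (ψ : G → M) (w : FreeGroup α) (g : G) :
    (pth gen (fun i g => ψ (g * gen i) - ψ g) w).f g = ψ (g * FreeGroup.lift gen w) - ψ g := by
  induction w using FreeGroup.induction_on generalizing g with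
  | C1 => simp
  | of i => simp
  | inv_of i _ => simp
  | mul a b ha hb => simp [ha, hb, pth_g, mul_assoc]

end W

open MonoidAlgebra in
/-- The infinitude criterion. -/
theorem infinite_of {k α S ρ T : Type} [Field k] [Fintype α] [DecidableEq α] [Group S] [Fintype S]
    [DecidableEq S] [Fintype ρ] [Fintype T]
    (rel : ρ → FreeGroup α) (rels : Set (FreeGroup α)) (hrels : ∀ r ∈ rels, ∃ j, rel j = r)
    (hrel : ∀ j, rel j ∈ rels)
    (x : α → S) (hx : ∀ j, FreeGroup.lift x (rel j) = 1)
    (hsurj : Function.Surjective (FreeGroup.lift x))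
    (cls : ρ → S → T) (rep : ρ → T → S)
    (hcls : ∀ j σ, (pth x (fun i σ => (Pi.single (σ, i) 1 : S × α → k)) (rel j)).f σ =
      (pth x (fun i σ => (Pi.single (σ, i) 1 : S × α → k)) (rel j)).f (rep j (cls j σ)))
    (l : ℕ) (hl : 2 ≤ l)
    (hnum : l * l + Fintype.card ρ * Fintype.card S +
      l * (Fintype.card ρ * Fintype.card T + Fintype.card S) ≤
        l * (Fintype.card S * Fintype.card α)) :
    ¬ Finite (PresentedGroup rels) := by
  intro hfin
  classical
  set G := PresentedGroup rels
  let gen : α → G := PresentedGroup.of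
  have hlg : FreeGroup.lift gen = PresentedGroup.mk rels := by
    ext i; simp [gen, PresentedGroup.of]
  let π : G →* S := PresentedGroup.toGroup (f := x) (fun r hr => by
    obtain ⟨j, rfl⟩ := hrels r hr; exact hx j)
  have hπg : ∀ i, π (gen i) = x i := fun i => PresentedGroup.toGroup.of _
  have hπmk : ∀ w, π (PresentedGroup.mk rels w) = FreeGroup.lift x w := by
    intro w
    have : π.comp (PresentedGroup.mk rels) = FreeGroup.lift x := by
      ext i
      rw [FreeGroup.lift_apply_of]
      exact hπg i
    exact DFunLike.congr_fun this w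
  -- lifts
  have hw : ∀ σ : S, ∃ w, FreeGroup.lift x w = σ ∧ (σ = 1 → w = 1) := by
    intro σ
    by_cases h : σ = 1
    · exact ⟨1, by simp [h], fun _ => rfl⟩
    · obtain ⟨w, hw⟩ := hsurj σ
      exact ⟨w, hw, fun h' => absurd h' h⟩
  choose wd hwd hwd1 using hw
  let s : S → G := fun σ => PresentedGroup.mk rels (wd σ)
  have hs : ∀ σ, π (s σ) = σ := fun σ => by simp only [s, hπmk, hwd]
  have hs1 : s 1 = 1 := by simp only [s, hwd1 1 rfl, map_one]
  let K := π.ker
  let κ : G → K := fun g => ⟨g * (s (π g))⁻¹, by simp [K, MonoidHom.mem_ker, hs]⟩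
  have hκK : ∀ (a : K) (g : G), κ (a * g) = a * κ g := by
    intro a g
    have : π a = 1 := a.2
    ext; simp [κ, this, mul_assoc]
  have hκs : ∀ σ, κ (s σ) = 1 := by
    intro σ; ext; simp [κ, hs]
  have hκ1 : κ 1 = 1 := by rw [← hs1, hκs]
  have hκa : ∀ a : K, κ a = a := by
    intro a; have := hκK a 1; rwa [mul_one, hκ1, mul_one] at this
  have hdec : ∀ g : G, (κ g : G) * s (π g) = g := by intro g; simp [κ]
  let R := MonoidAlgebra k K
  let o : K →* R := MonoidAlgebra.of k K
  let ε : R →ₐ[k] k := MonoidAlgebra.lift k k K 1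
  have hεo : ∀ a, ε (o a) = 1 := fun a => MonoidAlgebra.lift_of _ _
  let t : S × α → R := fun p => o (κ (s p.1 * gen p.2)) - 1
  let E : α → G → (S × α → R) := fun i g => Pi.single (π g, i) (o (κ g))
  let D := pth gen E
  let f : (S × α → R) →ₗ[R] R :=
    { toFun := fun c => ∑ p, c p * t p
      map_add' := fun a b => by simp [add_mul, Finset.sum_add_distrib]
      map_smul' := fun a b => by
        simp only [Pi.smul_apply, smul_eq_mul, RingHom.id_apply, mul_assoc]
        exact (Finset.mul_sum _ _ _).symm }
  have hfs : ∀ p (r : R), f (Pi.single p r) = r * t p := by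
    intro p r
    simp only [f, LinearMap.coe_mk, AddHom.coe_mk]
    rw [Finset.sum_eq_single p]
    · simp
    · intro b _ hb; simp [Pi.single_eq_of_ne hb]
    · simp
  have hfD : ∀ w g, f ((D w).f g) = o (κ (g * PresentedGroup.mk rels w)) - o (κ g) := by
    intro w g
    have h := (pth_nat gen E gen (fun i g => o (κ (g * gen i)) - o (κ g)) (MonoidHom.id G) id
      f.toAddMonoidHom (fun _ _ => rfl) (fun _ => rfl) (fun i g => by
        change f (Pi.single _ _) = _
        rw [hfs]
        simp only [t, mul_sub, mul_one, ← map_mul, id]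
        rw [← hκK, ← mul_assoc, hdec]) w).2 g
    rw [pth_cob gen (fun g => o (κ g)), hlg] at h
    exact h
  have hEq : ∀ (a : K) w g, (D w).f (a * g) = o a • (D w).f g := by
    intro a w g
    have h := (pth_nat gen E gen E (MonoidHom.id G) (fun g => a * g)
      (DistribSMul.toAddMonoidHom _ (o a)) (fun _ _ => (mul_assoc _ _ _).symm) (fun _ => rfl)
      (fun i g => by
        have : π a = 1 := a.2
        simp only [E, DistribSMul.toAddMonoidHom_apply, map_mul, this, one_mul, hκK]
        rw [← Pi.single_smul, smul_eq_mul]) w).2 g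
    exact h.symm
  let vA : (ρ × T) ⊕ S → (S × α → R) :=
    Sum.elim (fun p => (D (rel p.1)).f (s (rep p.1 p.2))) (fun σ => (D (wd σ)).f 1)
  let vB : ρ × S → (S × α → R) := fun p =>
    (D (rel p.1)).f (s p.2) - (D (rel p.1)).f (s (rep p.1 (cls p.1 p.2)))
  refine GS.gs ε t ?_ vA vB ?_ ?_ l hl (by simpa using hnum)
  · -- generation
    intro u hu
    have key : ∀ u : R, u - algebraMap k R (ε u) ∈ LinearMap.range f := by
      intro u
      induction u using MonoidAlgebra.induction_on with
      | of a =>
        obtain ⟨w, hw⟩ := PresentedGroup.mk_surjective rels (a : G)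
        refine ⟨(D w).f 1, ?_⟩
        rw [hfD, one_mul, hw, hκa, hκ1]
        change _ = o a - algebraMap k R (ε (o a))
        rw [hεo]; simp
      | add a b ha hb =>
        have := Submodule.add_mem _ ha hb
        convert this using 1
        rw [map_add, map_add]; abel
      | smul r a ha =>
        have := Submodule.smul_mem _ (algebraMap k R r) ha
        convert this using 1
        rw [map_smul, smul_eq_mul, smul_eq_mul, map_mul, mul_sub, Algebra.smul_def]
    obtain ⟨c, hc⟩ := key u
    refine ⟨c, ?_⟩
    rw [hu, map_zero, sub_zero] at hc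
    exact hc.symm
  · -- reductions vanish
    intro b p
    have h := fun w => (pth_nat gen E x (fun i σ => (Pi.single (σ, i) 1 : S × α → k)) π π
      (AddMonoidHom.compLeft ε.toRingHom.toAddMonoidHom (S × α)) (fun _ _ => map_mul _ _ _) hπg
      (fun i g => by
        ext q
        by_cases hq : q = (π g, i)
        · subst hq
          simp [E, AddMonoidHom.compLeft, hεo]
        · simp [E, AddMonoidHom.compLeft, Pi.single_eq_of_ne hq]) w).2
    have h1 := congrFun (h (rel b.1) (s b.2)) p
    have h2 := congrFun (h (rel b.1) (s (rep b.1 (cls b.1 b.2)))) p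
    rw [hs] at h1 h2
    rw [← hcls, ← h1] at h2
    simp only [vB, Pi.sub_apply, map_sub]
    exact sub_eq_zero.2 h2.symm
  · -- kernel
    intro c hc
    let N : Submodule R (S × α → R) := Submodule.span R (Set.range (Sum.elim vA vB))
    have hA : ∀ a, vA a ∈ N := fun a => Submodule.subset_span ⟨Sum.inl a, rfl⟩
    have hB : ∀ a, vB a ∈ N := fun a => Submodule.subset_span ⟨Sum.inr a, rfl⟩
    have hrelN : ∀ j g, (D (rel j)).f g ∈ N := by
      intro j g
      rw [← hdec g, hEq]
      refine Submodule.smul_mem _ _ ?_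
      have := N.add_mem (hB (j, π g)) (hA (Sum.inl (j, cls j (π g))))
      simpa [vA, vB] using this
    let D' := pth gen (fun i g => N.mkQ (E i g))
    have hD' : ∀ w g, (D' w).f g = N.mkQ ((D w).f g) := fun w g =>
      ((pth_nat gen E gen (fun i g => N.mkQ (E i g)) (MonoidHom.id G) id
        N.mkQ.toAddMonoidHom (fun _ _ => rfl) (fun _ => rfl) (fun _ _ => rfl) w).2 g).symm
    have hD'rel : ∀ r ∈ rels, D' r = 1 := by
      intro r hr
      obtain ⟨j, rfl⟩ := hrels r hr
      ext g
      · rw [hD', one_f, Submodule.mkQ_apply, Submodule.Quotient.mk_eq_zero]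
        exact hrelN j g
      · rw [pth_g, hlg, one_g]
        exact PresentedGroup.one_of_mem (hrel j)
    let δ : G →* W G ((S × α → R) ⧸ N) := PresentedGroup.toGroup hD'rel
    have hδ : ∀ w, δ (PresentedGroup.mk rels w) = D' w := by
      intro w
      have : δ.comp (PresentedGroup.mk rels) = D' := by
        ext1 i
        simp only [MonoidHom.comp_apply, D', pth_of]
        exact PresentedGroup.toGroup.of _
      exact DFunLike.congr_fun this w
    have hδg : ∀ h, (δ h).g = h := by
      intro h
      obtain ⟨w, rfl⟩ := PresentedGroup.mk_surjective rels h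
      rw [hδ, pth_g, hlg]
    have hδe : ∀ (a : K) h g, (δ h).f (a * g) = o a • (δ h).f g := by
      intro a h g
      obtain ⟨w, rfl⟩ := PresentedGroup.mk_surjective rels h
      rw [hδ, hD', hD', hEq, map_smul]
    have hδs : ∀ σ, (δ (s σ)).f 1 = 0 := by
      intro σ
      simp only [s]
      rw [hδ, hD', Submodule.mkQ_apply, Submodule.Quotient.mk_eq_zero]
      exact hA (Sum.inr σ)
    let θ : R →ₗ[k] ((S × α → R) ⧸ N) :=
      (MonoidAlgebra.basis K k).constr k (fun a : K => (δ a).f 1)
    have hθ : ∀ a, θ (o a) = (δ a).f 1 := fun a => (MonoidAlgebra.basis K k).constr_basis k _ a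
    have hθm : ∀ (u : R) (a : K), θ (u * (o a - 1)) = u • (δ a).f 1 := by
      intro u a
      induction u using MonoidAlgebra.induction_on with
      | of b =>
        change θ (o b * _) = o b • _
        rw [mul_sub, mul_one, ← map_mul, map_sub, hθ, hθ, Subgroup.coe_mul, map_mul, mul_f,
          hδg, one_mul, ← hδe, mul_one]
        abel
      | add a b ha hb => rw [add_mul, map_add, ha, hb, add_smul]
      | smul r a ha => rw [smul_mul_assoc, map_smul, ha, smul_assoc]
    have hgenr : ∀ p : S × α, (δ (κ (s p.1 * gen p.2))).f 1 = N.mkQ (Pi.single p 1) := by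
      rintro ⟨σ, i⟩
      have h1 := congrArg (fun h => (δ h).f 1) (hdec (s σ * gen i))
      simp only [map_mul δ, mul_f, hδg, one_mul] at h1
      have h2 := hδe (κ (s σ * gen i)) (s (π (s σ * gen i))) 1
      rw [mul_one, hδs, smul_zero] at h2
      rw [h2, hδs, add_zero, zero_add] at h1
      rw [h1]
      have : δ (gen i) = ⟨fun g => N.mkQ (E i g), gen i⟩ := PresentedGroup.toGroup.of _
      rw [this]
      simp only [E, hs, hκs, map_one]
    have hcN : c ∈ N := by
      have h1 : θ (∑ p, c p * t p) = N.mkQ c := by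
        rw [map_sum]
        conv_rhs => rw [← Finset.univ_sum_single c, map_sum]
        refine Finset.sum_congr rfl fun p _ => ?_
        simp only [t]
        rw [hθm, hgenr, ← map_smul, ← Pi.single_smul, smul_eq_mul, mul_one]
      rw [hc, map_zero] at h1
      exact (Submodule.Quotient.mk_eq_zero N).1 h1.symm
    obtain ⟨p, hp⟩ := (Submodule.mem_span_range_iff_exists_fun R).1 hcN
    refine ⟨fun a => p (Sum.inl a), fun b => p (Sum.inr b), ?_⟩
    rw [← hp, Fintype.sum_sum_type]
    rfl

end Pool.Agent.H2.Brandl
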