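import Mathlib
import Pool.Agent.H2.Brandl1

set_option autoImplicit false

namespace Pool.Agent.H2.Brandl

/-- the commutator map `z ↦ [z, y]` -/
def cm {H : Type*} [Group H] (y : H) : H → H := fun z => z⁻¹ * y⁻¹ * z * y

theorem map_cm {H H' : Type*} [Group H] [Group H'] (φ : H →* H') (y z : H) (i : ℕ) :
    φ ((cm y)^[i] z) = (cm (φ y))^[i] (φ z) := by
  induction i with
  | zero => rfl
  | succ i ih => simp [Function.iterate_succ_apply', cm, ← ih]

/-- injectivity certificate -/
def Cert {S : Type*} [Group S] (M : Type*) [AddCommGroup M] (z y : S) : Prop :=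
  ∀ φ : S → M, (∀ g, φ (g * y⁻¹ * z⁻¹ * y⁻¹) - φ (g * y⁻¹ * z⁻¹) =
    φ (g * z⁻¹ * y⁻¹) - φ (g * z⁻¹)) → ∀ g, φ (g * y⁻¹) = φ g

theorem cert_conj {S M : Type*} [Group S] [AddCommGroup M] {z y : S} (h : Cert M z y) :
    Cert M (y⁻¹ * z * y) y := by
  intro φ hφ g
  have := h (fun u => φ (u * y)) (fun u => by
    have := hφ (u * y)
    simpa [mul_assoc] using this) (g * y⁻¹)
  simpa [mul_assoc] using this

theorem iter_conj {S : Type*} [Group S] {x y : S} (h : cm y x = (y ^ 2)⁻¹ * x * y ^ 2) (i : ℕ) :
    (cm y)^[i] x = (y ^ (2 * i))⁻¹ * x * y ^ (2 * i) := by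
  induction i with
  | zero => simp
  | succ i ih =>
    rw [Function.iterate_succ_apply', ih]
    have : cm y ((y ^ (2 * i))⁻¹ * x * y ^ (2 * i)) =
        (y ^ (2 * i))⁻¹ * cm y x * y ^ (2 * i) := by
      simp only [cm]; group
    rw [this, h]; group

theorem cert_pow {S M : Type*} [Group S] [AddCommGroup M] {z y : S} (h : Cert M z y) (n : ℕ) :
    Cert M ((y ^ n)⁻¹ * z * y ^ n) y := by
  induction n with
  | zero => simpa using h
  | succ n ih =>
    have := cert_conj ih
    convert this using 1
    group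

theorem period {S M : Type*} [Group S] [AddCommGroup M] [Finite S] [Finite M]
    (X Y : W S M) (h : cm Y.g X.g = (Y.g ^ 2)⁻¹ * X.g * Y.g ^ 2) (h5 : Y.g ^ 5 = 1)
    (hc : Cert M X.g Y.g) :
    ∃ a, 1 ≤ a ∧ (cm Y.g)^[a] X.g = X.g ∧
      ∀ g, ((cm Y)^[a] X * X⁻¹).f (g * Y.g⁻¹) = ((cm Y)^[a] X * X⁻¹).f g := by
  obtain ⟨j, a0, ha0, hper⟩ : ∃ j a0, 1 ≤ a0 ∧ (cm Y)^[a0] ((cm Y)^[j] X) = (cm Y)^[j] X := by
    obtain ⟨i, j, hne, he⟩ := Finite.exists_ne_map_eq_of_infinite (fun i : ℕ => (cm Y)^[i] X)
    rcases lt_or_gt_of_ne hne with hlt | hlt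
    · refine ⟨i, j - i, by omega, ?_⟩
      rw [← Function.iterate_add_apply, Nat.sub_add_cancel hlt.le]; exact he.symm
    · refine ⟨j, i - j, by omega, ?_⟩
      rw [← Function.iterate_add_apply, Nat.sub_add_cancel hlt.le]; exact he
  have hper5 : (cm Y)^[a0 * 5] ((cm Y)^[j] X) = (cm Y)^[j] X :=
    Function.IsPeriodicPt.mul_const hper 5
  have hg : ∀ i, ((cm Y)^[i] X).g = (cm Y.g)^[i] X.g := by
    intro i
    induction i with
    | zero => rfl
    | succ i ih => simp [Function.iterate_succ_apply', cm, ← ih]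
  have hz : ∀ i, (cm Y.g)^[a0 * 5 + i] X.g = (cm Y.g)^[i] X.g := by
    intro i
    rw [iter_conj h, iter_conj h]
    have : Y.g ^ (2 * (a0 * 5 + i)) = Y.g ^ (2 * i) := by
      rw [show 2 * (a0 * 5 + i) = 5 * (2 * a0) + 2 * i by ring, pow_add, pow_mul, h5, one_pow,
        one_mul]
    rw [this]
  let Δ : ℕ → S → M := fun i g => ((cm Y)^[a0 * 5 + i] X).f g - ((cm Y)^[i] X).f g
  have hΔ : ∀ i g, Δ (i + 1) g =
      Δ i (g * ((cm Y.g)^[i] X.g)⁻¹ * Y.g⁻¹) - Δ i (g * ((cm Y.g)^[i] X.g)⁻¹) := by
    intro i g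
    simp only [Δ]
    rw [← add_assoc, Function.iterate_succ_apply', Function.iterate_succ_apply']
    rw [cm, cm]
    simp only [mul_f, inv_f, mul_g, inv_g]
    have e1 := hg (a0 * 5 + i)
    have e2 := hg i
    rw [hz] at e1
    rw [e1, e2]
    simp only [mul_assoc]
    abel
  have hP : ∀ n i, i + n = j → ∀ g, Δ i (g * Y.g⁻¹) = Δ i g := by
    intro n
    induction n with
    | zero =>
      intro i hi g
      have : i = j := by omega
      subst this
      simp only [Δ, Function.iterate_add_apply, hper5, sub_self]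
    | succ n ih =>
      intro i hi
      have h1 := ih (i + 1) (by omega)
      have hci : Cert M ((cm Y.g)^[i] X.g) Y.g := by
        rw [iter_conj h]; exact cert_pow hc _
      refine hci _ fun g => ?_
      rw [← hΔ, ← hΔ, h1]
  refine ⟨a0 * 5, by omega, hz 0, fun g => ?_⟩
  have h0 := hP j 0 (by omega) g
  have e1 := hg (a0 * 5)
  have e2 := hz 0
  simp only [add_zero, Function.iterate_zero, id] at e2
  rw [e2] at e1
  simp only [Δ, add_zero, Function.iterate_zero, id] at h0
  simp only [mul_f, inv_f, e1, mul_inv_cancel_right, ← sub_eq_add_neg]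
  exact h0

/-- evaluate a word -/
def ev {H : Type*} [Group H] (z y : H) : List Bool → H
  | [] => 1
  | b :: w => (if b then z else y) * ev z y w

/-- the list of elements in a certificate -/
def mkL {H : Type*} [Group H] (z y : H) : List (List Bool) → List H
  | [] => [y⁻¹, 1]
  | w :: Γ => ev z y w * y⁻¹ * z⁻¹ * y⁻¹ :: ev z y w * y⁻¹ * z⁻¹ :: ev z y w * z⁻¹ * y⁻¹ ::
      ev z y w * z⁻¹ :: mkL z y Γ

theorem map_ev {H H' : Type*} [Group H] [Group H'] (φ : H →* H') (z y : H) (w : List Bool) :
    φ (ev z y w) = ev (φ z) (φ y) w := by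
  induction w with
  | nil => simp [ev]
  | cons b w ih => cases b <;> simp [ev, ih]

theorem map_mkL {H H' : Type*} [Group H] [Group H'] (φ : H →* H') (z y : H)
    (Γ : List (List Bool)) : (mkL z y Γ).map φ = mkL (φ z) (φ y) Γ := by
  induction Γ with
  | nil => simp [mkL]
  | cons b w ih => simp [mkL, ih, map_ev]

theorem cert_of {S M : Type*} [Group S] [DecidableEq S] [AddCommGroup M]
    (h2 : ∀ m : M, m + m = 0) (z y : S)
    (Γ : List (List Bool)) (hev : ∀ h, Even ((mkL z y Γ).count h)) : Cert M z y := by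
  intro φ hφ g
  have hneg : ∀ m : M, -m = m := fun m => neg_eq_of_add_eq_zero_left (h2 m)
  have h1 : ((mkL z y Γ).map fun h => φ (g * h)).sum = φ (g * y⁻¹) + φ g := by
    clear hev
    induction Γ with
    | nil => simp [mkL]
    | cons w Γ ih =>
      simp only [mkL, List.map_cons, List.sum_cons, ih, ← mul_assoc]
      have := hφ (g * ev z y w)
      rw [sub_eq_add_neg, sub_eq_add_neg, hneg, hneg] at this
      rw [← add_assoc, this, ← add_assoc (φ (g * ev z y w * z⁻¹ * y⁻¹)), ← add_assoc, h2,
        zero_add]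
  have h3 : ((mkL z y Γ).map fun h => φ (g * h)).sum = 0 := by
    rw [Finset.sum_list_map_count]
    refine Finset.sum_eq_zero fun h _ => ?_
    obtain ⟨c, hc⟩ := hev h
    rw [hc, add_nsmul, h2]
  rw [h3] at h1
  rw [← hneg (φ g)]
  exact eq_neg_of_add_eq_zero_left h1.symm

theorem even_of_code {S : Type*} [DecidableEq S] (c : S → ℕ) (hc : Function.Injective c)
    (L : List S) (h : ∀ n ∈ L.map c, (L.map c).count n % 2 = 0) (s : S) : Even (L.count s) := by
  by_cases hs : s ∈ L
  · have := h _ (List.mem_map_of_mem hs)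
    rw [List.count_map_of_injective _ _ hc] at this
    exact Nat.even_iff.2 this
  · rw [List.count_eq_zero_of_not_mem hs]; exact Even.zero

theorem classes {S : Type*} [Group S] [Fintype S] (y : S) (hy : orderOf y = 5) (N : ℕ)
    (hN : Fintype.card S = 5 * N) :
    ∃ (cls : S → Fin N) (rep : Fin N → S), ∀ {M : Type} (φ : S → M),
      (∀ g, φ (g * y⁻¹) = φ g) → ∀ σ, φ σ = φ (rep (cls σ)) := by
  classical
  have h1 := Subgroup.card_eq_card_quotient_mul_card_subgroup (Subgroup.zpowers y)
  rw [Nat.card_zpowers, hy, Nat.card_eq_fintype_card, hN] at h1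
  have h2 : Nat.card (S ⧸ Subgroup.zpowers y) = N := by omega
  let e : (S ⧸ Subgroup.zpowers y) ≃ Fin N := Finite.equivFinOfCardEq h2
  refine ⟨fun σ => e (QuotientGroup.mk σ), fun t => (e.symm t).out, fun φ hφ σ => ?_⟩
  simp only [Equiv.symm_apply_apply]
  obtain ⟨h, hh⟩ := QuotientGroup.mk_out_eq_mul (Subgroup.zpowers y) σ
  rw [hh]
  have hm : (h : S) ∈ Submonoid.powers y := mem_powers_iff_mem_zpowers.2 h.2
  obtain ⟨n, hn⟩ := hm
  rw [← hn]
  clear hn hh
  induction n with
  | zero => simp
  | succ n ih =>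
    rw [ih, ← hφ (σ * y ^ (n + 1))]
    simp [pow_succ, mul_assoc]

/-- first generator in `A_5` -/
def x0 : Equiv.Perm (Fin 5) := ⟨![2, 0, 4, 1, 3], ![1, 3, 0, 4, 2], by decide, by decide⟩
/-- second generator in `A_5` -/
def y0 : Equiv.Perm (Fin 5) := ⟨![1, 2, 3, 4, 0], ![4, 0, 1, 2, 3], by decide, by decide⟩

/-- numerical code -/
def code (p : Equiv.Perm (Fin 5)) : ℕ :=
  (p 0).val + 5 * (p 1).val + 25 * (p 2).val + 125 * (p 3).val + 625 * (p 4).val

theorem code_inj : Function.Injective code := by
  intro p q h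
  simp only [code] at h
  have := (p 0).2; have := (p 1).2; have := (p 2).2; have := (p 3).2; have := (p 4).2
  have := (q 0).2; have := (q 1).2; have := (q 2).2; have := (q 3).2; have := (q 4).2
  ext i
  fin_cases i <;> simp <;> omega

/-- certificate -/
def G1 : List (List Bool) := [[], [false, false, true, true, true], [true, true, false, false, false], [true, true, false, true], [true, false, false, false, false, true], [false, false, false, true], [true, false], [true, false, true], [true, false, false, false, false, true, true], [false], [true, false, false, false], [false, false, true, true, true, false], [true, true, false, false, false, false], [false, false, false, false, true], [false, false, false, true, true], [true], [true, false, true, true], [true, false, false, false, true], [false, false], [true, true, false, false], [false, false, false, false, true, true], [true, true, true], [true, true, false, false, false, true, true]]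
/-- certificate -/
def G2 : List (List Bool) := [[true, true, false, false, false], [true, false, false, false, true], [true, false, true, true], [false, true, true, true, true, false], [true, false, false], [true, false, true], [true, false, false, false, false, true, true], [false, true, true, true, true, false, false], [false, false, false, false], [true, true, false, false, false, true], [true, true, false, false], [false, false, false, true, true, true], [true, true, false, true], [true, false, false, false, true, true], [true, false, false, false, false], [true, false, true, true, true], [true, true, false, false, false, false], [false, false, false, false, true], [false, true, true, true, true], [false, false, false, true, true, true, false], [true, true, true], [false, false, false]]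

theorem c1 : ∀ n ∈ (mkL x0 y0 G1).map code, ((mkL x0 y0 G1).map code).count n % 2 = 0 := by
  decide +kernel
theorem c2 : ∀ n ∈ (mkL y0 x0 G2).map code, ((mkL y0 x0 G2).map code).count n % 2 = 0 := by
  decide +kernel
theorem e1 : cm y0 x0 = (y0 ^ 2)⁻¹ * x0 * y0 ^ 2 := code_inj (by decide +kernel)
theorem e2 : cm x0 y0 = (x0 ^ 2)⁻¹ * y0 * x0 ^ 2 := code_inj (by decide +kernel)
theorem e3 : x0 ^ 5 = 1 := code_inj (by decide +kernel)
theorem e4 : y0 ^ 5 = 1 := code_inj (by decide +kernel)
theorem e5 : x0 ≠ 1 := fun h => absurd (congrArg code h) (by decide +kernel)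
theorem e6 : y0 ≠ 1 := fun h => absurd (congrArg code h) (by decide +kernel)
theorem e7 : ∀ p q : Fin 5 × Fin 5, code (x0 ^ p.1.val * y0 ^ p.2.val) =
    code (x0 ^ q.1.val * y0 ^ q.2.val) → p = q := by decide +kernel

theorem main : ∃ a b : ℕ, 1 ≤ a ∧ 1 ≤ b ∧ ¬ Finite (PresentedGroup
    ({(cm (FreeGroup.of (1 : Fin 2)))^[a] (FreeGroup.of 0) * (FreeGroup.of 0)⁻¹,
      (cm (FreeGroup.of (0 : Fin 2)))^[b] (FreeGroup.of 1) * (FreeGroup.of 1)⁻¹} :
      Set (FreeGroup (Fin 2)))) := by
  classical
  let g0 : Fin 2 → Equiv.Perm (Fin 5) := ![x0, y0]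
  let S := (FreeGroup.lift g0).range
  let π := (FreeGroup.lift g0).rangeRestrict
  let x : Fin 2 → S := fun i => π (FreeGroup.of i)
  have hπ : FreeGroup.lift x = π := by ext i; simp [x]
  have hx0 : S.subtype (x 0) = x0 := by simp [x, π, g0]
  have hx1 : S.subtype (x 1) = y0 := by simp [x, π, g0]
  have hinj : Function.Injective S.subtype := Subtype.val_injective
  have hcinj : Function.Injective (code ∘ S.subtype) := code_inj.comp hinj
  let _ : Fintype S := Fintype.ofFinite S
  let M := S × Fin 2 → ZMod 2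
  have h2 : ∀ m : M, m + m = 0 := fun m => by
    ext p; exact CharTwo.add_self_eq_zero _
  have hc1 : Cert M (x 0) (x 1) := cert_of h2 _ _ G1 (even_of_code _ hcinj _ (by
    rw [← List.map_map, map_mkL, hx0, hx1]; exact c1))
  have hc2 : Cert M (x 1) (x 0) := cert_of h2 _ _ G2 (even_of_code _ hcinj _ (by
    rw [← List.map_map, map_mkL, hx0, hx1]; exact c2))
  have hx5 : x 0 ^ 5 = 1 := hinj (by rw [map_pow, hx0, e3, map_one])
  have hy5 : x 1 ^ 5 = 1 := hinj (by rw [map_pow, hx1, e4, map_one])
  have : Fact (Nat.Prime 5) := ⟨by norm_num⟩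
  have hxo : orderOf (x 0) = 5 := orderOf_eq_prime hx5 fun h => e5 (by rw [← hx0, h, map_one])
  have hyo : orderOf (x 1) = 5 := orderOf_eq_prime hy5 fun h => e6 (by rw [← hx1, h, map_one])
  obtain ⟨N, hN⟩ : 5 ∣ Fintype.card S := by
    have := orderOf_dvd_natCard (x 0)
    rwa [hxo, Nat.card_eq_fintype_card] at this
  have h25 : 25 ≤ Fintype.card S := by
    have := Fintype.card_le_of_injective (fun p : Fin 5 × Fin 5 => x 0 ^ p.1.val * x 1 ^ p.2.val)
      (fun p q h => e7 p q (by
        have := congrArg S.subtype h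
        simp only [map_mul, map_pow, hx0, hx1] at this
        rw [this]))
    simpa using this
  let E : Fin 2 → S → M := fun i σ => Pi.single (σ, i) 1
  obtain ⟨a, ha, ha1, ha2⟩ := period (⟨E 0, x 0⟩ : W S M) ⟨E 1, x 1⟩
    (hinj (by
      have := map_cm S.subtype (x 1) (x 0) 1
      simp only [Function.iterate_one] at this
      simp only [this, map_mul, map_inv, map_pow, hx0, hx1, e1])) hy5 hc1
  obtain ⟨b, hb, hb1, hb2⟩ := period (⟨E 1, x 1⟩ : W S M) ⟨E 0, x 0⟩
    (hinj (by
      have := map_cm S.subtype (x 0) (x 1) 1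
      simp only [Function.iterate_one] at this
      simp only [this, map_mul, map_inv, map_pow, hx0, hx1, e2])) hx5 hc2
  obtain ⟨cl1, rp1, h1⟩ := classes (x 1) hyo N hN
  obtain ⟨cl0, rp0, h0⟩ := classes (x 0) hxo N hN
  refine ⟨a, b, ha, hb, ?_⟩
  refine infinite_of (k := ZMod 2) (T := Fin N)
    (![(cm (FreeGroup.of (1 : Fin 2)))^[a] (FreeGroup.of 0) * (FreeGroup.of 0)⁻¹,
      (cm (FreeGroup.of (0 : Fin 2)))^[b] (FreeGroup.of 1) * (FreeGroup.of 1)⁻¹]) _ ?_ ?_ x ?_
      (hπ ▸ MonoidHom.rangeRestrict_surjective _) ![cl1, cl0] ![rp1, rp0] ?_ 6 (by norm_num) ?_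
  · rintro r (rfl | rfl)
    · exact ⟨0, rfl⟩
    · exact ⟨1, rfl⟩
  · intro j; fin_cases j <;> simp
  · intro j
    fin_cases j
    · simp only [Fin.zero_eta, Matrix.cons_val_zero, map_mul, map_inv, map_cm,
        FreeGroup.lift_apply_of]
      simp only at ha1
      rw [ha1, mul_inv_cancel]
    · simp only [Fin.mk_one, Matrix.cons_val_one, Matrix.cons_val_zero, map_mul, map_inv, map_cm,
        FreeGroup.lift_apply_of]
      simp only at hb1
      rw [hb1, mul_inv_cancel]
  · intro j σ
    fin_cases j
    · simp only [Fin.zero_eta, Matrix.cons_val_zero, map_mul, map_inv, map_cm, pth_of]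
      exact h1 _ ha2 σ
    · simp only [Fin.mk_one, Matrix.cons_val_one, Matrix.cons_val_zero, map_mul, map_inv, map_cm,
        pth_of]
      exact h0 _ hb2 σ
  · simp only [Fintype.card_fin, hN] at h25 ⊢
    omega

end Pool.Agent.H2.Brandl
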