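import Mathlib

open Set Filter Topology

namespace Pool.Agent.H2.Cont

structure Data (M : Type*) [Ring M] [MetricSpace M] where
  L : ℕ → Subring M
  s : ℕ → M
  mono : Monotone L
  s_mem : ∀ m, s m ∈ L (m + 1)
  s_idem : ∀ m, s m * s m = s m
  s_comm : ∀ m, ∀ x ∈ L m, x * s m = s m * x
  avg : ∀ m, ∀ x ∈ L m, ∀ y ∈ L m,
    dist (x * s m + y * (1 - s m)) 0 = (dist x 0 + dist y 0) / 2
  one : dist (1 : M) 0 = 1
  sub : ∀ x y : M, dist x y = dist (x - y) 0
  le_one : ∀ x : M, dist x 0 ≤ 1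

variable {M : Type*} [Ring M] [MetricSpace M] (d : Data M)

omit [MetricSpace M] in
theorem mix_mul {a b a' b' s : M} (hs : s * s = s) (h1 : a' * s = s * a') (h2 : b' * s = s * b') :
    (a * s + b * (1 - s)) * (a' * s + b' * (1 - s)) = a * a' * s + b * b' * (1 - s) := by
  have e1 : s * (a' * s) = a' * s := by rw [← mul_assoc, ← h1, mul_assoc, hs]
  have e2 : s * (b' * (1 - s)) = 0 := by
    rw [← mul_assoc, ← h2, mul_assoc, mul_sub, mul_one, hs, sub_self, mul_zero]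
  have e3 : s * (a' * s + b' * (1 - s)) = a' * s := by rw [mul_add, e1, e2, add_zero]
  rw [add_mul, mul_assoc, e3, mul_assoc, sub_mul, one_mul, e3, add_sub_cancel_left, mul_assoc,
    mul_assoc]

omit [MetricSpace M] in
theorem unit_mix {a b s : M} (hs : s * s = s) (h1 : a * s = s * a) (h2 : b * s = s * b)
    (ha : IsUnit a) (hb : IsUnit b) : IsUnit (a * s + b * (1 - s)) := by
  obtain ⟨a, rfl⟩ := ha
  obtain ⟨b, rfl⟩ := hb
  have k1 : (↑a⁻¹ : M) * s = s * ↑a⁻¹ := (Commute.units_inv_left h1).eq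
  have k2 : (↑b⁻¹ : M) * s = s * ↑b⁻¹ := (Commute.units_inv_left h2).eq
  refine ⟨⟨_, ↑a⁻¹ * s + ↑b⁻¹ * (1 - s), ?_, ?_⟩, rfl⟩
  · rw [mix_mul hs k1 k2]; simp
  · rw [mix_mul hs h1 h2]; simp

namespace Data

include d in
theorem neg (x : M) : dist (-x) 0 = dist x 0 := by
  rw [dist_comm x, d.sub 0 x, zero_sub]

include d in
theorem add (x y : M) : dist (x + y) 0 ≤ dist x 0 + dist y 0 := by
  have := dist_triangle (x + y) y 0
  rwa [d.sub (x + y) y, add_sub_cancel_right] at this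

def T (n : ℕ) : ℕ → Set M
  | 0 => {0, 1}
  | k + 1 => {x | ∃ a ∈ T n k, ∃ b ∈ T n k, x = a * d.s (n + k) + b * (1 - d.s (n + k))}

theorem T_L (n k : ℕ) : ∀ a ∈ d.T n k, a ∈ d.L (n + k) := by
  induction k with
  | zero => rintro _ (rfl | rfl); exacts [zero_mem _, one_mem _]
  | succ k ih =>
    rintro _ ⟨a, ha, b, hb, rfl⟩
    have m := d.mono (Nat.le_succ (n + k))
    exact add_mem (mul_mem (m (ih a ha)) (d.s_mem _))
      (mul_mem (m (ih b hb)) (sub_mem (one_mem _) (d.s_mem _)))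

theorem T_mono (n : ℕ) : Monotone (d.T n) :=
  monotone_nat_of_le_succ fun k a ha => ⟨a, ha, a, ha, by rw [← mul_add]; simp⟩

theorem T_mul (n k : ℕ) : ∀ a ∈ d.T n k, ∀ b ∈ d.T n k,
    a * b ∈ d.T n k ∧ a * b = b * a ∧ a * a = a ∧ 1 - a ∈ d.T n k := by
  induction k with
  | zero => rintro _ (rfl | rfl) _ (rfl | rfl) <;> simp [T]
  | succ k ih =>
    rintro _ ⟨a, ha, b, hb, rfl⟩ _ ⟨a', ha', b', hb', rfl⟩
    have c := fun x hx => d.s_comm (n + k) x (d.T_L n k x hx)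
    have i := d.s_idem (n + k)
    rw [mix_mul i (c _ ha') (c _ hb'), mix_mul i (c _ ha) (c _ hb), mix_mul i (c _ ha) (c _ hb)]
    obtain ⟨p1, p2, p3, p4⟩ := ih a ha a' ha'
    obtain ⟨q1, q2, q3, q4⟩ := ih b hb b' hb'
    exact ⟨⟨_, p1, _, q1, rfl⟩, by rw [p2, q2], by rw [p3, q3], _, p4, _, q4, by noncomm_ring⟩

theorem T_succ (n k : ℕ) : ∀ a ∈ d.T (n + 1) k, a ∈ d.T n (k + 1) := by
  induction k with
  | zero => exact fun a ha => d.T_mono n (Nat.zero_le 1) ha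
  | succ k ih =>
    rintro _ ⟨a, ha, b, hb, rfl⟩
    exact ⟨a, ih a ha, b, ih b hb, by rw [add_assoc, add_comm 1 k]⟩

theorem T_comm (n k : ℕ) {y : M} (hy : y ∈ d.L n) : ∀ a ∈ d.T n k, y * a = a * y := by
  induction k with
  | zero => rintro _ (rfl | rfl) <;> simp
  | succ k ih =>
    rintro _ ⟨a, ha, b, hb, rfl⟩
    have c : Commute y (d.s (n + k)) := d.s_comm _ y (d.mono (Nat.le_add_right n k) hy)
    exact ((Commute.mul_right (ih a ha) c).add_right
      (Commute.mul_right (ih b hb) ((Commute.one_right y).sub_right c))).eq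

theorem T_ind (n k : ℕ) {y : M} (hy : y ∈ d.L n) : ∀ a ∈ d.T n k, ∀ b ∈ d.T n k,
    dist (y * (a - b)) 0 ≤ dist y 0 * dist (a - b) 0 := by
  induction k with
  | zero => rintro _ (rfl | rfl) _ (rfl | rfl) <;> simp [d.neg, d.one]
  | succ k ih =>
    rintro _ ⟨a, ha, b, hb, rfl⟩ _ ⟨a', ha', b', hb', rfl⟩
    have m := d.mono (Nat.le_add_right n k) hy
    have l1 := sub_mem (d.T_L n k a ha) (d.T_L n k a' ha')
    have l2 := sub_mem (d.T_L n k b hb) (d.T_L n k b' hb')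
    have e : a * d.s (n + k) + b * (1 - d.s (n + k)) - (a' * d.s (n + k) + b' * (1 - d.s (n + k))) =
      (a - a') * d.s (n + k) + (b - b') * (1 - d.s (n + k)) := by noncomm_ring
    rw [e, mul_add, ← mul_assoc, ← mul_assoc, d.avg _ _ (mul_mem m l1) _ (mul_mem m l2),
      d.avg _ _ l1 _ l2]
    linarith [ih a ha a' ha', ih b hb b' hb']

theorem T_add (n k : ℕ) : ∀ a ∈ d.T n k, ∀ b ∈ d.T n k,
    dist (a * b) 0 + dist ((1 - a) * b) 0 ≤ dist b 0 := by
  induction k with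
  | zero => rintro _ (rfl | rfl) _ (rfl | rfl) <;> simp
  | succ k ih =>
    rintro _ ⟨a, ha, b, hb, rfl⟩ _ ⟨a', ha', b', hb', rfl⟩
    have l := d.T_L n k
    have c := fun x hx => d.s_comm (n + k) x (l x hx)
    have i := d.s_idem (n + k)
    have e : 1 - (a * d.s (n + k) + b * (1 - d.s (n + k))) =
      (1 - a) * d.s (n + k) + (1 - b) * (1 - d.s (n + k)) := by noncomm_ring
    rw [e, mix_mul i (c _ ha') (c _ hb'), mix_mul i (c _ ha') (c _ hb'),
      d.avg _ _ (mul_mem (l _ ha) (l _ ha')) _ (mul_mem (l _ hb) (l _ hb')),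
      d.avg _ _ (mul_mem (sub_mem (one_mem _) (l _ ha)) (l _ ha')) _
        (mul_mem (sub_mem (one_mem _) (l _ hb)) (l _ hb')), d.avg _ _ (l _ ha') _ (l _ hb')]
    linarith [ih a ha a' ha', ih b hb b' hb']

def D (n : ℕ) : Set M := closure (⋃ k, d.T n k)

theorem T_D {n k : ℕ} {a : M} (h : a ∈ d.T n k) : a ∈ d.D n := subset_closure (mem_iUnion.2 ⟨k, h⟩)

theorem pair {n : ℕ} {P : M → M → Prop} (hc : IsClosed {p : M × M | P p.1 p.2})
    (h : ∀ k, ∀ a ∈ d.T n k, ∀ b ∈ d.T n k, P a b) : ∀ a ∈ d.D n, ∀ b ∈ d.D n, P a b := by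
  intro a ha b hb
  have : (a, b) ∈ closure ((⋃ k, d.T n k) ×ˢ (⋃ k, d.T n k)) := by
    rw [closure_prod_eq]; exact ⟨ha, hb⟩
  refine closure_minimal (t := {p : M × M | P p.1 p.2}) ?_ hc this
  rintro ⟨x, y⟩ ⟨hx, hy⟩
  obtain ⟨k, hk⟩ := mem_iUnion.1 hx
  obtain ⟨l, hl⟩ := mem_iUnion.1 hy
  exact h (max k l) x (d.T_mono n (le_max_left _ _) hk) y (d.T_mono n (le_max_right _ _) hl)

theorem D_anti : Antitone d.D :=
  antitone_nat_of_succ_le fun n => closure_mono
    (iUnion_subset fun k a ha => mem_iUnion.2 ⟨k + 1, d.T_succ n k a ha⟩)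

theorem zero_D (n : ℕ) : 0 ∈ d.D n := d.T_D (k := 0) (Or.inl rfl)

theorem one_D (n : ℕ) : 1 ∈ d.D n := d.T_D (k := 0) (Or.inr rfl)

theorem s_D (n : ℕ) : d.s n ∈ d.D n :=
  d.T_D (k := 1) ⟨1, Or.inr rfl, 0, Or.inl rfl, by simp⟩

variable [IsTopologicalRing M]

theorem D_mul (n : ℕ) : ∀ a ∈ d.D n, ∀ b ∈ d.D n,
    a * b ∈ d.D n ∧ a * b = b * a ∧ a * a = a ∧ 1 - a ∈ d.D n :=
  d.pair ((isClosed_closure.preimage (f := fun p : M × M => p.1 * p.2) (by fun_prop)).inter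
    ((isClosed_eq (by fun_prop) (by fun_prop)).inter ((isClosed_eq (by fun_prop) (by fun_prop)).inter
      (isClosed_closure.preimage (f := fun p : M × M => 1 - p.1) (by fun_prop)))))
    fun k a ha b hb =>
      have h := d.T_mul n k a ha b hb
      ⟨d.T_D h.1, h.2.1, h.2.2.1, d.T_D h.2.2.2⟩

theorem D_comm {n : ℕ} {y : M} (hy : y ∈ d.L n) (a : M) (ha : a ∈ d.D n) : y * a = a * y :=
  d.pair (P := fun a _ => y * a = a * y) (isClosed_eq (by fun_prop) (by fun_prop))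
    (fun k a ha _ _ => d.T_comm n k hy a ha) a ha a ha

theorem D_ind {n : ℕ} {y : M} (hy : y ∈ d.L n) : ∀ a ∈ d.D n, ∀ b ∈ d.D n,
    dist (y * (a - b)) 0 ≤ dist y 0 * dist (a - b) 0 :=
  d.pair (isClosed_le (by fun_prop) (by fun_prop)) fun k => d.T_ind n k hy

theorem D_add (n : ℕ) : ∀ a ∈ d.D n, ∀ b ∈ d.D n,
    dist (a * b) 0 + dist ((1 - a) * b) 0 ≤ dist b 0 :=
  d.pair (isClosed_le (by fun_prop) (by fun_prop)) fun k => d.T_add n k

noncomputable def p : ℕ → ℕ → ℝ → M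
  | 0, _, τ => if 1 ≤ τ then 1 else 0
  | k + 1, n, τ => d.s n * p k (n + 1) (2 * τ) + (1 - d.s n) * p k (n + 1) (2 * τ - 1)

theorem p_D (k : ℕ) : ∀ n τ, d.p k n τ ∈ d.D n := by
  induction k with
  | zero => intro n τ; rw [p]; split_ifs; exacts [d.one_D n, d.zero_D n]
  | succ k ih =>
    intro n τ
    have ha := d.D_anti (Nat.le_succ n) (ih (n + 1) (2 * τ))
    have hb := d.D_anti (Nat.le_succ n) (ih (n + 1) (2 * τ - 1))
    have m := d.D_mul n
    have hs := d.s_D n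
    rw [p]
    generalize d.p k (n + 1) (2 * τ) = a at ha
    generalize d.p k (n + 1) (2 * τ - 1) = b at hb
    have h1 := (m _ hs _ ha).1
    have h2 := (m _ (m _ hs _ hs).2.2.2 _ hb).1
    have h3 := (m _ (m _ h1 _ h1).2.2.2 _ (m _ h2 _ h2).2.2.2).1
    have e : d.s n * a * ((1 - d.s n) * b) = 0 := by
      rw [(m _ hs _ ha).2.1, mul_assoc, ← mul_assoc (d.s n), mul_sub, mul_one, d.s_idem]
      simp
    have e2 : d.s n * a + (1 - d.s n) * b = 1 - (1 - d.s n * a) * (1 - (1 - d.s n) * b) := by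
      rw [sub_mul 1 (d.s n * a), mul_sub (d.s n * a), e]
      noncomm_ring
    rw [e2]
    exact (m _ h3 _ h3).2.2.2

omit [IsTopologicalRing M] in
theorem p_end (k : ℕ) : ∀ n τ, (τ ≤ 0 → d.p k n τ = 0) ∧ (1 ≤ τ → d.p k n τ = 1) := by
  induction k with
  | zero => exact fun n τ => ⟨fun h => if_neg (by linarith), fun h => if_pos h⟩
  | succ k ih =>
    refine fun n τ => ⟨fun h => ?_, fun h => ?_⟩
    · rw [p, (ih _ _).1 (by linarith), (ih _ _).1 (by linarith)]; simp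
    · rw [p, (ih _ _).2 (by linarith), (ih _ _).2 (by linarith)]; simp

end Data

noncomputable def cl (τ : ℝ) : ℝ := max 0 (min τ 1)

noncomputable def ind (τ : ℝ) : ℝ := if 0 < τ ∧ τ < 1 then 1 else 0

theorem cl_mono : Monotone cl := fun _ _ h => max_le_max le_rfl (min_le_min h le_rfl)

theorem cl_two (τ : ℝ) : cl (2 * τ) + cl (2 * τ - 1) = 2 * cl τ := by
  simp only [cl, max_def, min_def]
  split_ifs <;> linarith

theorem ind_two (τ : ℝ) : ind (2 * τ) + ind (2 * τ - 1) ≤ ind τ := by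
  unfold ind
  split_ifs with h1 h2 h3 h4 h5 h6 <;> try norm_num
  · linarith [h1.2, h2.1]
  · linarith [h1.2, h2.1]
  · exact h4 ⟨by linarith [h1.1], by linarith [h1.2]⟩
  · exact h6 ⟨by linarith [h5.1], by linarith [h5.2]⟩

theorem cl_abs (σ τ : ℝ) :
    |cl (2 * σ) - cl (2 * τ)| + |cl (2 * σ - 1) - cl (2 * τ - 1)| = 2 * |cl σ - cl τ| := by
  have a := cl_two σ
  have b := cl_two τ
  rcases le_total σ τ with h | h
  · rw [abs_of_nonpos (sub_nonpos.2 (cl_mono (by linarith))),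
      abs_of_nonpos (sub_nonpos.2 (cl_mono (by linarith))),
      abs_of_nonpos (sub_nonpos.2 (cl_mono h))]
    linarith
  · rw [abs_of_nonneg (sub_nonneg.2 (cl_mono (by linarith))),
      abs_of_nonneg (sub_nonneg.2 (cl_mono (by linarith))),
      abs_of_nonneg (sub_nonneg.2 (cl_mono h))]
    linarith

namespace Data

variable [IsTopologicalRing M]

theorem p_dist (k : ℕ) : ∀ l n σ τ, k ≤ l → dist (d.p k n σ - d.p l n τ) 0 ≤
    |cl σ - cl τ| + (1 / 2) ^ k * (ind σ + ind τ) := by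
  induction k with
  | zero =>
    intro l n σ τ _
    have o := d.le_one (d.p 0 n σ - d.p l n τ)
    have z := abs_nonneg (cl σ - cl τ)
    unfold ind
    split_ifs with h1 h2 h3
    · linarith
    · linarith
    · linarith
    · rw [not_and_or, not_lt, not_lt] at h1 h3
      rcases h1 with h1 | h1 <;> rcases h3 with h3 | h3
      · rw [(d.p_end _ _ _).1 h1, (d.p_end _ _ _).1 h3]; simp
      · rw [cl, cl, min_eq_right h3, max_eq_left ((min_le_left _ _).trans h1)]; simpa using o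
      · rw [cl, cl, min_eq_right h1, max_eq_left ((min_le_left _ _).trans h3)]; simpa using o
      · rw [(d.p_end _ _ _).2 h1, (d.p_end _ _ _).2 h3]; simp
  | succ k ih =>
    intro l n σ τ hl
    obtain ⟨l, rfl⟩ : ∃ l', l = l' + 1 := ⟨l - 1, by omega⟩
    have h1 := ih l (n + 1) (2 * σ) (2 * τ) (by omega)
    have h2 := ih l (n + 1) (2 * σ - 1) (2 * τ - 1) (by omega)
    have k1 := d.D_ind (d.s_mem n) _ (d.p_D k (n + 1) (2 * σ)) _ (d.p_D l (n + 1) (2 * τ))
    have k2 := d.D_ind (sub_mem (one_mem _) (d.s_mem n)) _ (d.p_D k (n + 1) (2 * σ - 1)) _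
      (d.p_D l (n + 1) (2 * τ - 1))
    have s1 := d.avg n 1 (one_mem _) 0 (zero_mem _)
    have s2 := d.avg n 0 (zero_mem _) 1 (one_mem _)
    simp only [one_mul, zero_mul, add_zero, zero_add, d.one, dist_self] at s1 s2
    rw [s1] at k1
    rw [s2] at k2
    have e : d.p (k + 1) n σ - d.p (l + 1) n τ =
        d.s n * (d.p k (n + 1) (2 * σ) - d.p l (n + 1) (2 * τ)) +
        (1 - d.s n) * (d.p k (n + 1) (2 * σ - 1) - d.p l (n + 1) (2 * τ - 1)) := by
      rw [p, p]; noncomm_ring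
    rw [e]
    refine (d.add _ _).trans ?_
    have a := cl_abs σ τ
    have b := mul_le_mul_of_nonneg_left (add_le_add (ind_two σ) (ind_two τ))
      (by positivity : (0 : ℝ) ≤ (1 / 2) ^ k)
    rw [pow_succ]
    linarith

theorem exists_path [CompleteSpace M] (n : ℕ) : ∃ e : ℝ → M, Continuous e ∧ (∀ τ, e τ ∈ d.D n) ∧
    (∀ τ ≤ 0, e τ = 0) ∧ ∀ τ, 1 ≤ τ → e τ = 1 := by
  have i1 : ∀ τ, ind τ ≤ 1 := fun τ => by unfold ind; split_ifs <;> norm_num
  have t0 : Tendsto (fun k : ℕ => (1 / 2 : ℝ) ^ k * 2) atTop (𝓝 0) := by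
    simpa using (tendsto_pow_atTop_nhds_zero_of_lt_one (r := (1 / 2 : ℝ)) (by norm_num)
      (by norm_num)).mul_const 2
  have b : ∀ k l σ τ, k ≤ l → dist (d.p k n σ) (d.p l n τ) ≤ |cl σ - cl τ| + (1 / 2) ^ k * 2 :=
    fun k l σ τ h => by
      rw [d.sub]
      refine (d.p_dist k l n σ τ h).trans (add_le_add le_rfl ?_)
      exact mul_le_mul_of_nonneg_left (by linarith [i1 σ, i1 τ]) (by positivity)
  have c : ∀ τ, CauchySeq fun k => d.p k n τ := fun τ =>
    cauchySeq_of_le_tendsto_0' _ (fun k l h => by simpa using b k l τ τ h) t0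
  choose e he using fun τ => cauchySeq_tendsto_of_complete (c τ)
  refine ⟨e, ?_, fun τ => isClosed_closure.mem_of_tendsto (he τ)
    (Eventually.of_forall fun k => d.p_D k n τ), fun τ h => ?_, fun τ h => ?_⟩
  · refine (LipschitzWith.of_dist_le_mul (K := 1) fun σ τ => ?_).continuous
    have h1 := le_of_tendsto_of_tendsto' ((he σ).dist (he τ)) (t0.const_add |cl σ - cl τ|)
      fun k => b k k σ τ le_rfl
    have h2 := ((LipschitzWith.id.min_const (1 : ℝ)).const_max 0).dist_le_mul σ τ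
    rw [add_zero] at h1
    exact h1.trans h2
  · exact tendsto_nhds_unique (he τ) (by simp [(d.p_end _ _ _).1 h])
  · exact tendsto_nhds_unique (he τ) (by simp [(d.p_end _ _ _).2 h])

end Data

end Pool.Agent.H2.Cont
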