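import Mathlib
import Pool.Agent.H2.Cont1

open Set Filter Topology

namespace Pool.Agent.H2.Cont

variable {M : Type*} [Ring M] [MetricSpace M]

noncomputable def mm (v : ℕ → M) (y : M × ℝ) : ℕ → ℝ
  | 0 => 1
  | j + 1 => min (mm v y j) (2 * (dist y.1 (v j) * y.2) - 1)

noncomputable def tt (v : ℕ → M) (j : ℕ) (y : M × ℝ) : ℝ :=
  min (2 - dist y.1 (v j) * y.2) (mm v y j)

noncomputable def X (v : ℕ → M) (e : ℕ → ℝ → M) : ℕ → M × ℝ → M
  | 0, _ => v 0
  | j + 1, y => v (j + 1) * e (j + 1) (tt v (j + 1) y) + X v e j y * (1 - e (j + 1) (tt v (j + 1) y))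

omit [Ring M] in
theorem cont_mm (v : ℕ → M) (j : ℕ) : Continuous fun y => mm v y j := by
  induction j with
  | zero => exact continuous_const
  | succ j ih => exact ih.min (by fun_prop)

omit [Ring M] in
theorem cont_tt (v : ℕ → M) (j : ℕ) : Continuous (tt v j) :=
  Continuous.min (by fun_prop) (cont_mm v j)

omit [Ring M] in
theorem mm_le (v : ℕ → M) (y : M × ℝ) {i j : ℕ} (h : i < j) :
    mm v y j ≤ 2 * (dist y.1 (v i) * y.2) - 1 := by
  induction j, h using Nat.le_induction with
  | base => exact min_le_right _ _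
  | succ j _ ih => exact (min_le_left _ _).trans ih

omit [Ring M] in
theorem le_mm (v : ℕ → M) (y : M × ℝ) (j : ℕ) (h : ∀ i < j, 1 ≤ dist y.1 (v i) * y.2) :
    1 ≤ mm v y j := by
  induction j with
  | zero => exact le_rfl
  | succ j ih =>
    exact le_min (ih fun i hi => h i (by omega)) (by linarith [h j (Nat.lt_succ_self j)])

theorem X_stab {v : ℕ → M} {e : ℕ → ℝ → M} (h0 : ∀ j, ∀ τ ≤ 0, e j τ = 0) {y : M × ℝ} {i j : ℕ}
    (hi : dist y.1 (v i) * y.2 ≤ 1 / 2) (h : i ≤ j) : X v e j y = X v e i y := by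
  induction j, h using Nat.le_induction with
  | base => rfl
  | succ j hj ih =>
    rw [X, h0 _ (tt v (j + 1) y) ((min_le_right _ _).trans ((mm_le v y (Nat.lt_succ_of_le hj)).trans
      (by linarith))), ih]
    simp

variable [IsTopologicalRing M]

theorem cont_X (v : ℕ → M) {e : ℕ → ℝ → M} (he : ∀ j, Continuous (e j)) (j : ℕ) :
    Continuous (X v e j) := by
  induction j with
  | zero => exact continuous_const
  | succ j ih =>
    have := (he (j + 1)).comp (cont_tt v (j + 1))
    exact (continuous_const.mul this).add (ih.mul (continuous_const.sub this))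

namespace Data

variable (d : Data M) {v : ℕ → M} {e : ℕ → ℝ → M} {n : ℕ → ℕ}

theorem X_unit (hn : Monotone n) (hv : ∀ j, v j ∈ d.L (n j) ∧ IsUnit (v j))
    (he : ∀ j τ, e j τ ∈ d.D (n j)) (y : M × ℝ) (j : ℕ) :
    IsUnit (X v e j y) ∧ ∀ E ∈ d.D (n j), X v e j y * E = E * X v e j y := by
  induction j with
  | zero => exact ⟨(hv 0).2, d.D_comm (hv 0).1⟩
  | succ j ih =>
    have h := he (j + 1) (tt v (j + 1) y)
    have a := d.D_anti (hn (Nat.le_succ j))
    refine ⟨unit_mix (d.D_mul _ _ h _ h).2.2.1 (d.D_comm (hv _).1 _ h) (ih.2 _ (a h)) (hv _).2 ih.1,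
      fun E hE => ?_⟩
    have c : Commute (e (j + 1) (tt v (j + 1) y)) E := (d.D_mul _ _ h _ hE).2.1
    exact ((Commute.mul_left (d.D_comm (hv _).1 E hE) c).add_left
      (Commute.mul_left (ih.2 E (a hE)) ((Commute.one_left E).sub_left c))).eq

theorem X_near (hn : Monotone n) (hv : ∀ j, v j ∈ d.L (n j) ∧ IsUnit (v j))
    (he : ∀ j τ, e j τ ∈ d.D (n j)) (h0 : ∀ j, ∀ τ ≤ 0, e j τ = 0)
    (h1 : ∀ j τ, 1 ≤ τ → e j τ = 1) {y : M × ℝ} (hy : 0 ≤ y.2) {j : ℕ}
    (hj : dist y.1 (v j) * y.2 < 1) : dist (X v e j y) y.1 * y.2 ≤ 4 := by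
  classical
  have ex : ∃ i, dist y.1 (v i) * y.2 < 1 := ⟨j, hj⟩
  have s1 := Nat.find_spec ex
  have s2 : ∀ i < Nat.find ex, 1 ≤ dist y.1 (v i) * y.2 := fun i hi =>
    not_lt.1 (Nat.find_min ex hi)
  have s3 : Nat.find ex ≤ j := Nat.find_min' ex hj
  generalize Nat.find ex = i at s1 s2 s3
  have b : X v e i y = v i := by
    cases i with
    | zero => rfl
    | succ i => rw [X, h1 _ (tt v (i + 1) y) (le_min (by linarith) (le_mm v y _ s2))]; simp
  have key : ∀ E ∈ d.D (n j), dist ((X v e j y - v i) * E) 0 * y.2 ≤ 3 * dist E 0 := by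
    clear hj
    induction j, s3 using Nat.le_induction with
    | base => intro E _; rw [b]; simp
    | succ j hij ih =>
      intro E hE
      have a := d.D_anti (hn (Nat.le_succ j))
      by_cases ht : tt v (j + 1) y ≤ 0
      · rw [X, h0 _ _ ht]
        simpa using ih E (a hE)
      have h := he (j + 1) (tt v (j + 1) y)
      have t2 : dist y.1 (v (j + 1)) * y.2 ≤ 2 := by
        linarith [(not_le.1 ht).trans_le (min_le_left _ _)]
      rw [X]
      generalize e (j + 1) (tt v (j + 1) y) = f at h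
      have m := d.D_mul (n (j + 1))
      have k1 := d.D_ind (sub_mem (hv (j + 1)).1 (d.mono (hn (hij.trans (Nat.le_succ j)))
        (hv i).1)) _ (m _ h _ hE).1 _ (d.zero_D _)
      have k2 := ih _ (a (m _ (m _ h _ h).2.2.2 _ hE).1)
      have k3 := d.D_add _ _ h _ hE
      have k4 := d.add ((v (j + 1) - v i) * (f * E)) ((X v e j y - v i) * ((1 - f) * E))
      have e1 : (v (j + 1) * f + X v e j y * (1 - f) - v i) * E =
        (v (j + 1) - v i) * (f * E) + (X v e j y - v i) * ((1 - f) * E) := by noncomm_ring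
      rw [sub_zero, ← d.sub] at k1
      have k5 : dist (v (j + 1)) (v i) * y.2 ≤ 3 := by
        have := mul_le_mul_of_nonneg_right (dist_triangle_left (v (j + 1)) (v i) y.1) hy
        linarith
      have k6 := mul_le_mul_of_nonneg_right k5 (dist_nonneg : 0 ≤ dist (f * E) 0)
      have k7 := mul_le_mul_of_nonneg_right k1 hy
      have k8 := mul_le_mul_of_nonneg_right k4 hy
      rw [e1]
      linarith
  have k := key 1 (d.one_D _)
  rw [mul_one, ← d.sub, d.one] at k
  have := mul_le_mul_of_nonneg_right (dist_triangle_right (X v e j y) y.1 (v i)) hy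
  linarith

theorem contractible [CompleteSpace M] (hn : Monotone n)
    (hv : ∀ j, v j ∈ d.L (n j) ∧ IsUnit (v j))
    (dense : ∀ g : M, IsUnit g → ∀ ε > 0, ∃ j, dist g (v j) < ε) :
    ContractibleSpace {x : M // IsUnit x} := by
  classical
  choose e' c hD h0 h1 using d.exists_path
  set e : ℕ → ℝ → M := fun j => e' (n j)
  have ex : ∀ y : {x : M // IsUnit x} × ℝ, ∃ i, dist y.1.1 (v i) * y.2 < 1 / 2 := by
    intro y
    rcases le_or_gt y.2 0 with h | h
    · exact ⟨0, (mul_nonpos_of_nonneg_of_nonpos dist_nonneg h).trans_lt (by norm_num)⟩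
    · obtain ⟨j, hj⟩ := dense _ y.1.2 (1 / 2 / y.2) (by positivity)
      exact ⟨j, by rwa [lt_div_iff₀ h] at hj⟩
  choose N hN using ex
  set G : {x : M // IsUnit x} × ℝ → M := fun y => X v e (N y) (y.1.1, y.2) with hG
  have G1 : ∀ y i, dist y.1.1 (v i) * y.2 ≤ 1 / 2 → G y = X v e i (y.1.1, y.2) := fun y i hi =>
    (X_stab (fun j => h0 (n j)) (y := (y.1.1, y.2)) (hN y).le (le_max_left _ i)).symm.trans
      (X_stab (fun j => h0 (n j)) (y := (y.1.1, y.2)) hi (le_max_right _ i))
  have cG : Continuous G := by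
    refine continuous_iff_continuousAt.2 fun y => ?_
    have c1 : Continuous fun z : {x : M // IsUnit x} × ℝ => X v e (N y) (z.1.1, z.2) :=
      (cont_X v (fun j => c (n j)) _).comp (by fun_prop)
    refine c1.continuousAt.congr ?_
    have o : IsOpen {z : {x : M // IsUnit x} × ℝ | dist z.1.1 (v (N y)) * z.2 < 1 / 2} :=
      isOpen_lt (by fun_prop) continuous_const
    filter_upwards [o.mem_nhds (hN y)] with z hz using (G1 z _ (le_of_lt hz)).symm
  have uG : ∀ y, IsUnit (G y) := fun y => (d.X_unit hn hv (fun j => hD (n j)) _ _).1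
  have nG : ∀ y, 0 ≤ y.2 → dist (G y) y.1.1 * y.2 ≤ 4 := fun y hy =>
    d.X_near hn hv (fun j => hD (n j)) (fun j => h0 (n j)) (fun j => h1 (n j))
      (y := (y.1.1, y.2)) hy ((hN y).trans (by norm_num))
  set K : unitInterval × {x : M // IsUnit x} → M := fun z =>
    if z.1 = 0 then z.2.1 else G (z.2, (2 * z.1.1)⁻¹) with hK
  have uK : ∀ z, IsUnit (K z) := fun z => by
    simp only [hK]; split_ifs; exacts [z.2.2, uG _]
  have nK : ∀ z, dist (K z) z.2.1 ≤ 8 * z.1.1 := fun z => by
    simp only [hK]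
    split_ifs with h
    · simp [h]
    · have p : 0 < z.1.1 := lt_of_le_of_ne z.1.2.1 fun h' => h (Subtype.ext h'.symm)
      have := nG (z.2, (2 * z.1.1)⁻¹) (by positivity)
      rw [← div_eq_mul_inv, div_le_iff₀ (by positivity)] at this
      linarith
  have cK : Continuous K := by
    refine continuous_iff_continuousAt.2 fun z => ?_
    by_cases h : z.1 = 0
    · have kz : K z = z.2.1 := if_pos h
      rw [ContinuousAt, kz, tendsto_iff_dist_tendsto_zero]
      have t : Tendsto (fun w : unitInterval × {x : M // IsUnit x} => 8 * w.1.1 + dist w.2.1 z.2.1)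
          (𝓝 z) (𝓝 (8 * z.1.1 + dist z.2.1 z.2.1)) := Continuous.tendsto (by fun_prop) z
      rw [h] at t
      simp only [Icc.coe_zero, mul_zero, dist_self, add_zero] at t
      exact squeeze_zero (fun _ => dist_nonneg)
        (fun w => (dist_triangle _ w.2.1 _).trans (add_le_add (nK w) le_rfl)) t
    · have p : (2 * z.1.1) ≠ 0 := mul_ne_zero two_ne_zero fun h' => h (Subtype.ext h')
      have c1 : ContinuousAt (fun w : unitInterval × {x : M // IsUnit x} =>
          G (w.2, (2 * w.1.1)⁻¹)) z :=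
        cG.continuousAt.comp (continuousAt_snd.prodMk (ContinuousAt.inv₀ (by fun_prop) p))
      refine c1.congr ?_
      filter_upwards [(isOpen_ne_fun continuous_fst continuous_const).mem_nhds h] with w hw
      exact (if_neg hw).symm
  refine (contractible_iff_id_nullhomotopic _).2 ⟨⟨v 0, (hv 0).2⟩,
    ⟨⟨⟨fun z => ⟨K z, uK z⟩, cK.subtype_mk _⟩, fun g => Subtype.ext (if_pos rfl),
      fun g => Subtype.ext ?_⟩⟩⟩
  refine (if_neg one_ne_zero).trans (G1 _ 0 ?_)
  have := d.le_one (g.1 - v 0)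
  rw [← d.sub] at this
  simp only [Icc.coe_one]
  linarith

end Data

end Pool.Agent.H2.Cont
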