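import Mathlib

set_option autoImplicit false

namespace Pool.Agent.H2.Corner

open Finset

section
variable {F : Type} [Field F] [Fintype F] [DecidableEq F]

/-- a sign function: the quadratic character, with value one at zero -/
noncomputable def u (x : F) : ℝ := if x = 0 then 1 else (quadraticChar F x : ℝ)

theorem u_cases (x : F) : u x = 1 ∨ u x = -1 := by
  unfold u
  split_ifs with h
  · exact Or.inl rfl
  · rcases quadraticChar_dichotomy h with e | e <;> rw [e] <;> simp

theorem u_sq (x : F) : u x * u x = 1 := by rcases u_cases x with h | h <;> rw [h] <;> norm_num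

theorem u_abs (x : F) : |u x| ≤ 1 := by rcases u_cases x with h | h <;> rw [h] <;> norm_num

theorem chi_corr (hF : ringChar F ≠ 2) (h : F) (hh : h ≠ 0) :
    ∑ x : F, quadraticChar F x * quadraticChar F (x + h) = -1 := by
  have e : ∀ x : F, quadraticChar F x * quadraticChar F (x + h) =
      quadraticChar F (1 + h * x⁻¹) - if x = 0 then 1 else 0 := by
    intro x
    split_ifs with hx
    · subst hx; simp
    · have : x + h = x * (1 + h * x⁻¹) := by field_simp
      rw [this, map_mul, ← mul_assoc, ← sq, quadraticChar_sq_one hx]; simp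
  simp_rw [e, Finset.sum_sub_distrib]
  have b : ∑ x : F, quadraticChar F (1 + h * x⁻¹) = ∑ x : F, quadraticChar F x :=
    Equiv.sum_comp (((Equiv.mk (fun x : F => x⁻¹) (fun x => x⁻¹) inv_inv inv_inv).trans
      (Equiv.mulLeft₀ h hh)).trans (Equiv.addLeft 1)) (fun x => quadraticChar F x)
  rw [b, quadraticChar_sum_zero hF]; simp

theorem u_corr (hF : ringChar F ≠ 2) (h : F) (hh : h ≠ 0) : |∑ x : F, u x * u (x + h)| ≤ 3 := by
  have e : ∀ x : F, u x * u (x + h) = ((quadraticChar F x * quadraticChar F (x + h) : ℤ) : ℝ) +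
      (if x = 0 then u h else 0) + (if x = -h then u (-h) else 0) := by
    intro x
    by_cases h1 : x = 0
    · subst h1
      have : ¬ (0 : F) = -h := fun e => hh (neg_eq_zero.1 e.symm)
      simp [u, this]
    by_cases h2 : x = -h
    · subst h2; simp [u, hh]
    · have : x + h ≠ 0 := fun e => h2 (eq_neg_of_add_eq_zero_left e)
      simp [u, h1, h2, this]
  simp_rw [e, Finset.sum_add_distrib]
  rw [← Int.cast_sum, chi_corr hF h hh]
  simp only [sum_ite_eq', mem_univ, if_true]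
  have := abs_le.1 (u_abs h)
  have := abs_le.1 (u_abs (-h))
  rw [abs_le]; push_cast; constructor <;> linarith

theorem l2 (hF : ringChar F ≠ 2) (g : F → ℝ) (hg : ∀ y, |g y| ≤ 1) :
    ∑ x : F, (∑ y : F, u (x + y) * g y) ^ 2 ≤ 4 * (Fintype.card F : ℝ) ^ 2 := by
  have e : ∑ x : F, (∑ y : F, u (x + y) * g y) ^ 2 =
      ∑ y : F, ∑ z : F, (g y * g z) * ∑ x : F, u (x + y) * u (x + z) := by
    simp_rw [sq, Finset.sum_mul_sum, Finset.mul_sum]
    rw [Finset.sum_comm]
    refine Finset.sum_congr rfl fun y _ => ?_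
    rw [Finset.sum_comm]
    exact Finset.sum_congr rfl fun z _ => Finset.sum_congr rfl fun x _ => by ring
  have b : ∀ y z : F, (g y * g z) * ∑ x : F, u (x + y) * u (x + z) ≤
      3 + if z = y then (Fintype.card F : ℝ) else 0 := by
    intro y z
    have h1 : |g y * g z| ≤ 1 := by rw [abs_mul]; exact mul_le_one₀ (hg y) (abs_nonneg _) (hg z)
    refine (le_abs_self _).trans ?_
    rw [abs_mul]
    refine (mul_le_of_le_one_left (abs_nonneg _) h1).trans ?_
    split_ifs with h
    · subst h; simp [u_sq]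
    · have : ∑ x : F, u (x + y) * u (x + z) = ∑ x : F, u x * u (x + (z - y)) := by
        rw [← Equiv.sum_comp (Equiv.addRight y) fun x => u x * u (x + (z - y))]
        simp
      rw [this, add_zero]; exact u_corr hF _ (sub_ne_zero.2 h)
  rw [e]
  refine (Finset.sum_le_sum fun y _ => Finset.sum_le_sum fun z _ => b y z).trans ?_
  simp [Finset.sum_add_distrib]; nlinarith

theorem bilC (hF : ringChar F ≠ 2) (η : ℝ) (hη : 0 < η) (hp : 8 ≤ η ^ 2 * Fintype.card F)
    (g h : F → ℂ) (hg : ∀ y, ‖g y‖ ≤ 1) (hh : ∀ y, ‖h y‖ ≤ 1) :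
    ‖∑ x : F, ∑ y : F, (u (x + y) : ℂ) * (h x * g y)‖ ≤ η * (Fintype.card F : ℝ) ^ 2 := by
  have a1 := l2 hF (fun y => (g y).re) fun y => (Complex.abs_re_le_norm _).trans (hg y)
  have a2 := l2 hF (fun y => (g y).im) fun y => (Complex.abs_im_le_norm _).trans (hg y)
  have a3 : ∑ x : F, ‖∑ y : F, (u (x + y) : ℂ) * g y‖ ^ 2 ≤ 8 * (Fintype.card F : ℝ) ^ 2 := by
    have : ∀ x : F, ‖∑ y : F, (u (x + y) : ℂ) * g y‖ ^ 2 =
        (∑ y : F, u (x + y) * (g y).re) ^ 2 + (∑ y : F, u (x + y) * (g y).im) ^ 2 := by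
      intro x
      rw [Complex.sq_norm, Complex.normSq_apply, Complex.re_sum, Complex.im_sum]
      simp [sq]
    simp_rw [this, Finset.sum_add_distrib]; linarith
  have a4 : ‖∑ x : F, ∑ y : F, (u (x + y) : ℂ) * (h x * g y)‖ ≤
      ∑ x : F, ‖∑ y : F, (u (x + y) : ℂ) * g y‖ := by
    refine (norm_sum_le _ _).trans (Finset.sum_le_sum fun x _ => ?_)
    rw [show ∑ y : F, (u (x + y) : ℂ) * (h x * g y) = h x * ∑ y : F, (u (x + y) : ℂ) * g y by
      rw [Finset.mul_sum]; exact Finset.sum_congr rfl fun y _ => by ring, norm_mul]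
    exact mul_le_of_le_one_left (norm_nonneg _) (hh x)
  have a5 := sq_sum_le_card_mul_sum_sq (s := (univ : Finset F))
    (f := fun x => ‖∑ y : F, (u (x + y) : ℂ) * g y‖)
  rw [Finset.card_univ] at a5
  refine a4.trans (abs_le_of_sq_le_sq' ?_ (by positivity)).2
  have h0 : (0 : ℝ) ≤ Fintype.card F := Nat.cast_nonneg _
  have h1 := mul_le_mul_of_nonneg_left a3 h0
  have h2 := mul_le_mul_of_nonneg_right hp (pow_nonneg h0 3)
  nlinarith

theorem bilR (hF : ringChar F ≠ 2) (η : ℝ) (hη : 0 < η) (hp : 8 ≤ η ^ 2 * Fintype.card F)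
    (g h : F → ℝ) (hg : ∀ y, |g y| ≤ 1) (hh : ∀ y, |h y| ≤ 1) :
    |∑ x : F, ∑ y : F, u (x + y) * (h x * g y)| ≤ η * (Fintype.card F : ℝ) ^ 2 := by
  have := bilC hF η hη hp (fun y => (g y : ℂ)) (fun y => (h y : ℂ)) (by simpa using hg)
    (by simpa using hh)
  rw [← Real.norm_eq_abs, ← Complex.norm_real]; push_cast; exact this

theorem bilR' (hF : ringChar F ≠ 2) (η : ℝ) (hη : 0 < η) (hp : 8 ≤ η ^ 2 * Fintype.card F)
    (g h : F → ℝ) (hg : ∀ y, |g y| ≤ 1) (hh : ∀ y, |h y| ≤ 1) :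
    |∑ y : F, ∑ z : F, u (z - y) * (h y * g z)| ≤ η * (Fintype.card F : ℝ) ^ 2 := by
  have := bilR hF η hη hp g (fun y => h (-y)) hg fun y => hh _
  rw [← Equiv.sum_comp (Equiv.neg F)] at this
  simpa [neg_add_eq_sub] using this

/-- the indicator function of the set -/
noncomputable def f (x y : F) : ℝ := 3 / 4 - (u x * u y + u y * u (x + y) + u x * u (x + y)) / 4

/-- the set -/
noncomputable def A (F : Type) [Field F] [Fintype F] [DecidableEq F] : Finset (F × F) :=
  univ.filter fun t => f t.1 t.2 = 1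

theorem f_ind (x y : F) : f x y = if (x, y) ∈ A F then 1 else 0 := by
  simp only [A, mem_filter, mem_univ, true_and]
  split_ifs with h
  · exact h
  · unfold f at h ⊢
    rcases u_cases x with a | a <;> rcases u_cases y with b | b <;>
      rcases u_cases (x + y) with c | c <;> rw [a, b, c] at h ⊢ <;>
      first | (exfalso; apply h; norm_num; done) | norm_num

theorem f_abs (x y : F) : |f x y| ≤ 1 := by rw [f_ind]; split_ifs <;> simp

theorem fourier (hF : ringChar F ≠ 2) (η : ℝ) (hη : 0 < η) (hp : 8 ≤ η ^ 2 * Fintype.card F)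
    (ψ : AddChar F ℂ) (r s : F) :
    ‖∑ t ∈ A F, ψ (r * t.1 + s * t.2) - 3 / 4 * ∑ x : F, ∑ y : F, ψ (r * x + s * y)‖ ≤
      η * (Fintype.card F : ℝ) ^ 2 := by
  have n1 : ∀ x, ‖ψ x‖ ≤ 1 := fun x => (ψ.norm_apply x).le
  have n2 : ∀ x y : F, ‖(u x : ℂ) * ψ y‖ ≤ 1 := fun x y => by
    rw [norm_mul, ψ.norm_apply, mul_one, Complex.norm_real]; exact u_abs x
  have e1 : ∑ t ∈ A F, ψ (r * t.1 + s * t.2) =
      ∑ x : F, ∑ y : F, (f x y : ℂ) * ψ (r * x + s * y) := by
    rw [← Fintype.sum_prod_type', ← Finset.univ_inter (A F), ← Finset.sum_ite_mem]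
    refine Finset.sum_congr rfl fun t _ => ?_
    rw [f_ind]; split_ifs <;> simp
  have t1 := bilC hF η hη hp (fun y => u y * ψ (s * y)) (fun x => ψ (r * x)) (fun _ => n2 _ _)
    (fun _ => n1 _)
  have t2 := bilC hF η hη hp (fun y => ψ (s * y)) (fun x => u x * ψ (r * x)) (fun _ => n1 _)
    (fun _ => n2 _ _)
  have t3 := bilC hF η hη hp (fun y => ψ (s * y)) (fun x => u (-x) * ψ ((s - r) * x))
    (fun _ => n1 _) (fun _ => n2 _ _)
  have e3 : ∑ x : F, ∑ y : F, (u (x + y) : ℂ) * (u (-x) * ψ ((s - r) * x) * ψ (s * y)) =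
      ∑ x : F, ∑ y : F, (u x : ℂ) * u y * ψ (r * x + s * y) := by
    rw [← Equiv.sum_comp (Equiv.neg F)]
    refine Finset.sum_congr rfl fun x _ => ?_
    rw [← Equiv.sum_comp (Equiv.addLeft x)]
    refine Finset.sum_congr rfl fun y _ => ?_
    simp only [Equiv.neg_apply, Equiv.coe_addLeft, neg_add_cancel_left, neg_neg]
    rw [show r * x + s * y = (s - r) * -x + s * (x + y) by ring, AddChar.map_add_eq_mul]; ring
  rw [e3] at t3
  have e4 : ∑ x : F, ∑ y : F, (f x y : ℂ) * ψ (r * x + s * y) -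
      3 / 4 * ∑ x : F, ∑ y : F, ψ (r * x + s * y) = -(1 / 4) *
      (∑ x : F, ∑ y : F, (u (x + y) : ℂ) * (ψ (r * x) * (u y * ψ (s * y))) +
      ∑ x : F, ∑ y : F, (u (x + y) : ℂ) * (u x * ψ (r * x) * ψ (s * y)) +
      ∑ x : F, ∑ y : F, (u x : ℂ) * u y * ψ (r * x + s * y)) := by
    simp only [Finset.mul_sum, ← Finset.sum_add_distrib, ← Finset.sum_sub_distrib]
    refine Finset.sum_congr rfl fun x _ => Finset.sum_congr rfl fun y _ => ?_
    rw [AddChar.map_add_eq_mul]; unfold f; push_cast; ring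
  rw [e1, e4, norm_mul]
  have := norm_add₃_le.trans (add_le_add (add_le_add t1 t2) t3)
  have h0 : 0 ≤ η * (Fintype.card F : ℝ) ^ 2 := by positivity
  norm_num; linarith

theorem corners (hF : ringChar F ≠ 2) (η : ℝ) (hη : 0 < η) (hp : 8 ≤ η ^ 2 * Fintype.card F) :
    ∑ x : F, ∑ y : F, ∑ d : F, f x y * f (x + d) y * f x (y + d) ≤
      (26 / 64 + 3 / 2 * η) * (Fintype.card F : ℝ) ^ 3 := by
  have m : ∀ a b : ℝ, |a| ≤ 1 → |b| ≤ 1 → |a * b| ≤ 1 := fun a b ha hb => by
    rw [abs_mul]; exact mul_le_one₀ ha (abs_nonneg _) hb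
  let G : F → F → ℝ := fun x y => 3 / 4 - u x * u y / 4
  have hG : ∀ x y, |G x y| ≤ 1 := fun x y => by
    have := abs_le.1 (m _ _ (u_abs x) (u_abs y))
    rw [abs_le]; constructor <;> simp only [G] <;> linarith
  have e1 : ∀ x y : F, ∑ d : F, f x y * f (x + d) y * f x (y + d) = ∑ z : F,
      (26 / 64 - 6 / 64 * (u x * u y) - 6 / 64 * (u y * u z) - 6 / 64 * (u x * u z)
      - 1 / 4 * (u (x + y) * ((u x * f x (z - x)) * f (z - y) y))
      - 1 / 4 * (u (x + y) * (f x (z - x) * (u y * f (z - y) y)))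
      - 1 / 4 * (u (z - y) * ((u y * G x y) * f x (z - x)))
      - 1 / 4 * (u (z - y) * (G x y * (u z * f x (z - x))))
      - 1 / 4 * (u (z - x) * ((u x * G x y) * G y z))
      - 1 / 4 * (u (z - x) * (G x y * (u z * G y z)))) := by
    intro x y
    rw [← Equiv.sum_comp (Equiv.subRight (x + y))]
    refine Finset.sum_congr rfl fun z _ => ?_
    simp only [Equiv.subRight_apply]
    rw [show x + (z - (x + y)) = z - y by ring, show y + (z - (x + y)) = z - x by ring]
    have k1 : f x y = G x y - 1 / 4 * (u (x + y) * (u x + u y)) := by simp only [f, G]; ring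
    have k2 : f (z - y) y = G y z - 1 / 4 * (u (z - y) * (u y + u z)) := by
      simp only [f, G, sub_add_cancel]; ring
    have k3 : f x (z - x) = G x z - 1 / 4 * (u (z - x) * (u x + u z)) := by
      simp only [f, G, add_sub_cancel]; ring
    have k4 : G x y * G y z * G x z =
        26 / 64 - 6 / 64 * (u x * u y) - 6 / 64 * (u y * u z) - 6 / 64 * (u x * u z) := by
      simp only [G]
      rcases u_cases x with a | a <;> rcases u_cases y with b | b <;>
        rcases u_cases z with c | c <;> rw [a, b, c] <;> norm_num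
    linear_combination k4 + f (z - y) y * f x (z - x) * k1 + G x y * f x (z - x) * k2 +
      G x y * G y z * k3
  simp_rw [e1, Finset.sum_sub_distrib, ← Finset.mul_sum]
  have tri : ∀ T : F → ℝ, (∀ z, |T z| ≤ η * (Fintype.card F : ℝ) ^ 2) →
      -(η * (Fintype.card F : ℝ) ^ 3) ≤ ∑ z, T z := by
    intro T hT
    have := Finset.sum_le_sum (s := univ) fun z _ => (abs_le.1 (hT z)).1
    simp only [sum_const, card_univ, nsmul_eq_mul] at this
    linarith
  have sw : ∀ T : F → F → F → ℝ, ∑ x, ∑ y, ∑ z, T x y z = ∑ z, ∑ x, ∑ y, T x y z := by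
    intro T
    rw [Finset.sum_congr rfl fun x _ => Finset.sum_comm, Finset.sum_comm]
  have t1 := tri _ fun z => bilR hF η hη hp (fun y => f (z - y) y) (fun x => u x * f x (z - x))
    (fun _ => f_abs _ _) fun _ => m _ _ (u_abs _) (f_abs _ _)
  have t2 := tri _ fun z => bilR hF η hη hp (fun y => u y * f (z - y) y) (fun x => f x (z - x))
    (fun _ => m _ _ (u_abs _) (f_abs _ _)) fun _ => f_abs _ _
  have t3 := tri _ fun x => bilR' hF η hη hp (fun z => f x (z - x)) (fun y => u y * G x y)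
    (fun _ => f_abs _ _) fun _ => m _ _ (u_abs _) (hG _ _)
  have t4 := tri _ fun x => bilR' hF η hη hp (fun z => u z * f x (z - x)) (fun y => G x y)
    (fun _ => m _ _ (u_abs _) (f_abs _ _)) fun _ => hG _ _
  have t5 := tri _ fun y => bilR' hF η hη hp (fun z => G y z) (fun x => u x * G x y)
    (fun _ => hG _ _) fun _ => m _ _ (u_abs _) (hG _ _)
  have t6 := tri _ fun y => bilR' hF η hη hp (fun z => u z * G y z) (fun x => G x y)
    (fun _ => m _ _ (u_abs _) (hG _ _)) fun _ => hG _ _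
  rw [← sw] at t1 t2
  rw [Finset.sum_comm] at t5 t6
  simp only [← Finset.mul_sum] at t1 t2 t3 t4 t5 t6
  simp only [sum_const, card_univ, nsmul_eq_mul, ← Finset.mul_sum, ← Finset.sum_mul]
  have s1 : 0 ≤ (Fintype.card F : ℝ) * ((∑ x : F, u x) * ∑ x : F, u x) :=
    mul_nonneg (Nat.cast_nonneg _) (mul_self_nonneg _)
  nlinarith

end

end Pool.Agent.H2.Corner
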