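import Mathlib

set_option autoImplicit false

namespace Pool.Agent.H2.DBR

open Filter Topology Finset
open scoped InnerProductSpace ComplexConjugate

noncomputable section

abbrev H : Type := lp (fun _ : ℕ => ℂ) 2

lemma H.summable (x : H) : Summable (fun n => ‖x n‖ ^ 2) := by
  have := (lp.memℓp x).summable (by norm_num)
  simpa using this

lemma H.norm_sq (x : H) : ‖x‖ ^ 2 = ∑' n, ‖x n‖ ^ 2 := by
  have := lp.norm_rpow_eq_tsum (p := 2) (by norm_num) x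
  simpa using this

def mk (x : ℕ → ℂ) (h : Summable (fun n => ‖x n‖ ^ 2)) : H :=
  ⟨x, memℓp_gen (by simpa using h)⟩

@[simp] lemma mk_apply (x : ℕ → ℂ) (h : Summable (fun n => ‖x n‖ ^ 2)) (n : ℕ) : mk x h n = x n := rfl

lemma H.inner_eq (x y : H) : ⟪x, y⟫_ℂ = ∑' n, y n * conj (x n) := by
  rw [lp.inner_eq_tsum]; simp

lemma H.summable_inner (x y : H) : Summable (fun n => y n * conj (x n)) := by
  have := lp.summable_inner (𝕜 := ℂ) x y
  simpa using this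

def ev (n : ℕ) : H →L[ℂ] ℂ := lp.evalCLM ℂ (fun _ : ℕ => ℂ) 2 n

@[simp] lemma ev_apply (n : ℕ) (x : H) : ev n x = x n := rfl

lemma cont_ev (n : ℕ) : Continuous (fun x : H => x n) := (ev n).continuous

/-- shift by `k` -/
def sh (k : ℕ) (x : H) : H := mk (fun n => if k ≤ n then x (n - k) else 0) (by
  rw [← summable_nat_add_iff k]
  simpa using x.summable)

lemma sh_apply (k : ℕ) (x : H) (n : ℕ) : sh k x n = if k ≤ n then x (n - k) else 0 := rfl

/-- backward shift by `k` -/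
def bk (k : ℕ) (x : H) : H := mk (fun n => x (n + k)) ((summable_nat_add_iff k).2 x.summable)

@[simp] lemma bk_apply (k : ℕ) (x : H) (n : ℕ) : bk k x n = x (n + k) := rfl

lemma inner_sh (k : ℕ) (x y : H) : ⟪x, sh k y⟫_ℂ = ⟪bk k x, y⟫_ℂ := by
  rw [H.inner_eq, H.inner_eq, ← (H.summable_inner x (sh k y)).sum_add_tsum_nat_add k]
  rw [Finset.sum_eq_zero]
  · simp [sh_apply]
  · intro i hi
    simp [sh_apply, not_le.2 (mem_range.1 hi)]

lemma bk_sh (k : ℕ) (x : H) : bk k (sh k x) = x := by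
  ext n; simp [sh_apply]

lemma norm_sh (k : ℕ) (x : H) : ‖sh k x‖ = ‖x‖ := by
  have h := inner_sh k (sh k x) x
  rw [bk_sh, inner_self_eq_norm_sq_to_K, inner_self_eq_norm_sq_to_K] at h
  have h2 : ‖sh k x‖ ^ 2 = ‖x‖ ^ 2 := by exact_mod_cast h
  exact (sq_eq_sq₀ (norm_nonneg _) (norm_nonneg _)).1 h2

lemma sh_sh (k l : ℕ) (x : H) : sh k (sh l x) = sh (k + l) x := by
  ext n
  simp only [sh_apply]
  split_ifs with h1 h2 h3 h3
  · rw [Nat.sub_sub]
  · omega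
  · omega
  · rfl
  · omega
  · rfl

lemma sh_zero (x : H) : sh 0 x = x := by ext n; simp [sh_apply]

lemma sh_add (k : ℕ) (x y : H) : sh k (x + y) = sh k x + sh k y := by
  ext n; simp only [sh_apply, lp.coeFn_add, Pi.add_apply]; split_ifs <;> simp

lemma sh_smul (k : ℕ) (c : ℂ) (x : H) : sh k (c • x) = c • sh k x := by
  ext n; simp only [sh_apply, lp.coeFn_smul, Pi.smul_apply]; split_ifs <;> simp

lemma sh_bk_one (x : H) (h : x 0 = 0) : sh 1 (bk 1 x) = x := by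
  ext n
  simp only [sh_apply, bk_apply]
  split_ifs with h1
  · rw [Nat.sub_add_cancel h1]
  · have : n = 0 := by omega
    rw [this, h]

lemma tendsto_bk (x : H) : Tendsto (fun k => ‖bk k x‖) atTop (𝓝 0) := by
  have h := tendsto_sum_nat_add (fun n => ‖x n‖ ^ 2)
  have h2 : (fun k => ‖bk k x‖) = fun k => Real.sqrt (∑' n, ‖x (n + k)‖ ^ 2) := by
    ext k
    have := (bk k x).norm_sq
    simp only [bk_apply] at this
    rw [← this, Real.sqrt_sq (norm_nonneg _)]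
  rw [h2]
  simpa using h.sqrt

abbrev E : Type := WithLp 2 (H × H)

def pr (x y : H) : E := WithLp.toLp 2 (x, y)

@[simp] lemma pr_fst (x y : H) : (pr x y).fst = x := rfl
@[simp] lemma pr_snd (x y : H) : (pr x y).snd = y := rfl

lemma E.ext' {x y : E} (h1 : x.fst = y.fst) (h2 : x.snd = y.snd) : x = y := by
  cases x; cases y; congr 1; exact Prod.ext h1 h2

lemma E.inner_eq (x y : E) : ⟪x, y⟫_ℂ = ⟪x.fst, y.fst⟫_ℂ + ⟪x.snd, y.snd⟫_ℂ :=
  WithLp.prod_inner_apply x y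

def SH (k : ℕ) (x : E) : E := pr (sh k x.fst) (sh k x.snd)
def BK (k : ℕ) (x : E) : E := pr (bk k x.fst) (bk k x.snd)

lemma inner_SH (k : ℕ) (x y : E) : ⟪x, SH k y⟫_ℂ = ⟪BK k x, y⟫_ℂ := by
  simp [E.inner_eq, SH, BK, inner_sh]

lemma BK_SH (k : ℕ) (x : E) : BK k (SH k x) = x := E.ext' (bk_sh _ _) (bk_sh _ _)

lemma SH_SH (k l : ℕ) (x : E) : SH k (SH l x) = SH (k + l) x := E.ext' (sh_sh _ _ _) (sh_sh _ _ _)

lemma SH_zero (x : E) : SH 0 x = x := E.ext' (sh_zero _) (sh_zero _)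

lemma SH_add (k : ℕ) (x y : E) : SH k (x + y) = SH k x + SH k y :=
  E.ext' (sh_add _ _ _) (sh_add _ _ _)

lemma SH_smul (k : ℕ) (c : ℂ) (x : E) : SH k (c • x) = c • SH k x :=
  E.ext' (sh_smul _ _ _) (sh_smul _ _ _)

lemma norm_SH (k : ℕ) (x : E) : ‖SH k x‖ = ‖x‖ := by
  rw [← sq_eq_sq₀ (norm_nonneg _) (norm_nonneg _), WithLp.prod_norm_sq_eq_of_L2,
    WithLp.prod_norm_sq_eq_of_L2]
  simp [SH, norm_sh]

lemma tendsto_BK (x : E) : Tendsto (fun k => ‖BK k x‖) atTop (𝓝 0) := by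
  have h2 : (fun k => ‖BK k x‖) = fun k => Real.sqrt (‖bk k x.fst‖ ^ 2 + ‖bk k x.snd‖ ^ 2) := by
    ext k
    have := WithLp.prod_norm_sq_eq_of_L2 (BK k x)
    simp only [BK, pr_fst, pr_snd] at this
    rw [← this, Real.sqrt_sq (norm_nonneg _)]; rfl
  rw [h2]
  simpa using (((tendsto_bk x.fst).pow 2).add ((tendsto_bk x.snd).pow 2)).sqrt

lemma cont_fst (n : ℕ) : Continuous (fun x : E => x.fst n) :=
  (cont_ev n).comp (WithLp.continuous_fst 2 H H)

lemma cont_snd (n : ℕ) : Continuous (fun x : E => x.snd n) :=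
  (cont_ev n).comp (WithLp.continuous_snd 2 H H)

/-- graph of multiplication by `φ` -/
def Gr (φ : ℕ → ℂ) : Submodule ℂ E where
  carrier := {y | ∀ n, ∑ k ∈ range (n + 1), y.fst k * φ (n - k) = y.snd n}
  add_mem' := by
    intro x y hx hy n
    have h1 := hx n
    have h2 := hy n
    simp only [WithLp.add_fst, WithLp.add_snd, lp.coeFn_add, Pi.add_apply, add_mul,
      sum_add_distrib, h1, h2]
  zero_mem' := by intro n; simp
  smul_mem' := by
    intro c x hx n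
    have h1 := hx n
    simp only [WithLp.smul_fst, WithLp.smul_snd, lp.coeFn_smul, Pi.smul_apply, smul_eq_mul,
      mul_assoc, ← mul_sum, h1]

lemma mem_Gr {φ : ℕ → ℂ} {y : E} :
    y ∈ Gr φ ↔ ∀ n, ∑ k ∈ range (n + 1), y.fst k * φ (n - k) = y.snd n := Iff.rfl

lemma Gr_closed (φ : ℕ → ℂ) : IsClosed (Gr φ : Set E) := by
  have : (Gr φ : Set E) = ⋂ n, {y : E | ∑ k ∈ range (n + 1), y.fst k * φ (n - k) = y.snd n} := by
    ext y; simp [mem_Gr]
  rw [this]
  refine isClosed_iInter fun n => isClosed_eq ?_ (cont_snd n)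
  exact continuous_finset_sum _ fun k _ => (cont_fst k).mul continuous_const

lemma SH_one_mem {φ : ℕ → ℂ} {y : E} (hy : y ∈ Gr φ) : SH 1 y ∈ Gr φ := by
  intro n
  simp only [SH, pr_fst, pr_snd, sh_apply]
  rcases n with _ | n
  · simp
  · rw [sum_range_succ']
    have := hy n
    simpa using this

lemma SH_mem {φ : ℕ → ℂ} {y : E} (hy : y ∈ Gr φ) (k : ℕ) : SH k y ∈ Gr φ := by
  induction k with
  | zero => rwa [SH_zero]
  | succ k ih => rw [add_comm, ← SH_SH]; exact SH_one_mem ih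

lemma div_mem {φ : ℕ → ℂ} {y : E} (hy : y ∈ Gr φ) (h0 : y.fst 0 = 0) :
    ∃ z ∈ Gr φ, y = SH 1 z := by
  have h1 : y.snd 0 = 0 := by
    have := hy 0
    simp [h0] at this
    exact this.symm
  refine ⟨BK 1 y, ?_, E.ext' (sh_bk_one _ h0).symm (sh_bk_one _ h1).symm⟩
  intro n
  have := hy (n + 1)
  rw [sum_range_succ'] at this
  simpa [BK, h0] using this

def e0 : H := lp.single 2 0 1

lemma inner_e0 (x : H) : ⟪e0, x⟫_ℂ = x 0 := by
  rw [e0, lp.inner_single_left]; simp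

lemma exists_w (φ : ℕ → ℂ)
    (hd : ∀ v : H, (∀ y ∈ Gr φ, ⟪v, y.fst⟫_ℂ = 0) → v = 0) :
    ∃ w ∈ Gr φ, ‖w‖ = 1 ∧ (∃ r : ℝ, 0 < r ∧ w.fst 0 = r) ∧
      ∀ y ∈ Gr φ, y.fst 0 = 0 → ⟪w, y⟫_ℂ = 0 := by
  haveI : CompleteSpace (Gr φ) := (Gr_closed φ).completeSpace_coe
  set u : E := (Gr φ).starProjection (pr e0 0) with hu
  have hmem : u ∈ Gr φ := Submodule.starProjection_apply_mem _ _
  have hin : ∀ y ∈ Gr φ, ⟪u, y⟫_ℂ = y.fst 0 := by
    intro y hy
    have := Submodule.starProjection_inner_eq_zero (K := Gr φ) (pr e0 0) y hy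
    rw [inner_sub_left, sub_eq_zero, ← hu] at this
    rw [← this, E.inner_eq]
    simp [inner_e0]
  have hne : u ≠ 0 := by
    intro h0
    have := hd e0 (fun y hy => by rw [inner_e0, ← hin y hy, h0, inner_zero_left])
    have h1 := congrArg (fun x : H => x 0) this
    simp [e0] at h1
  have hn : 0 < ‖u‖ := norm_pos_iff.2 hne
  refine ⟨((‖u‖⁻¹ : ℝ) : ℂ) • u, Submodule.smul_mem _ _ hmem, ?_, ⟨‖u‖, hn, ?_⟩, ?_⟩
  · rw [norm_smul]; simp [hn.ne']
  · have := hin u hmem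
    rw [inner_self_eq_norm_sq_to_K] at this
    simp only [WithLp.smul_fst, lp.coeFn_smul, Pi.smul_apply, smul_eq_mul, ← this]
    have : (‖u‖ : ℂ) ≠ 0 := by exact_mod_cast hn.ne'
    push_cast
    field_simp
    rfl
  · intro y hy h0
    rw [inner_smul_left, hin y hy, h0, mul_zero]

section
variable {φ : ℕ → ℂ} {w : E} (hw : w ∈ Gr φ) (hn : ‖w‖ = 1) (h0 : w.fst 0 ≠ 0)
  (ho : ∀ y ∈ Gr φ, y.fst 0 = 0 → ⟪w, y⟫_ℂ = 0)
include hw ho

include hn in
lemma orthon : Orthonormal ℂ (fun k => SH k w) := by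
  have key : ∀ i j, i < j → ⟪SH i w, SH j w⟫_ℂ = 0 := by
    intro i j hij
    obtain ⟨d, rfl⟩ := Nat.exists_eq_add_of_lt hij
    rw [add_assoc, ← SH_SH, inner_SH, BK_SH]
    exact ho _ (SH_mem hw _) (by simp [SH, sh_apply])
  refine ⟨fun k => by simp [norm_SH, hn], fun i j hij => ?_⟩
  rcases lt_or_gt_of_ne hij with h | h
  · exact key i j h
  · rw [← inner_conj_symm]; simp [key j i h]

include h0 in
lemma decomp {y : E} (hy : y ∈ Gr φ) : ∃ c : ℂ, ∃ z ∈ Gr φ, y = c • w + SH 1 z ∧ ‖z‖ ≤ ‖y‖ := by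
  obtain ⟨z, hz, e⟩ := div_mem (φ := φ) (y := y - (y.fst 0 / w.fst 0) • w)
    (Submodule.sub_mem _ hy (Submodule.smul_mem _ _ hw)) (by
      simp only [WithLp.sub_fst, WithLp.smul_fst, lp.coeFn_sub, lp.coeFn_smul, Pi.sub_apply,
        Pi.smul_apply, smul_eq_mul]
      field_simp
      ring)
  have e2 : y = (y.fst 0 / w.fst 0) • w + SH 1 z := by rw [← e]; abel
  refine ⟨_, z, hz, e2, ?_⟩
  have ho2 : ⟪(y.fst 0 / w.fst 0) • w, SH 1 z⟫_ℂ = 0 := by
    rw [inner_smul_left, ho _ (SH_mem hz _) (by simp [SH, sh_apply]), mul_zero]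
  have := norm_add_sq_eq_norm_sq_add_norm_sq_of_inner_eq_zero _ _ ho2
  rw [← e2, norm_SH] at this
  have h3 : ‖z‖ * ‖z‖ ≤ ‖y‖ * ‖y‖ := by
    rw [this]; nlinarith [mul_self_nonneg ‖(y.fst 0 / w.fst 0) • w‖]
  exact (mul_self_le_mul_self_iff (norm_nonneg _) (norm_nonneg _)).2 h3

include h0 in
lemma perp {x : E} (hx : ∀ k, ⟪x, SH k w⟫_ℂ = 0) {y : E} (hy : y ∈ Gr φ) : ⟪x, y⟫_ℂ = 0 := by
  have key : ∀ N, ∃ z ∈ Gr φ, ‖z‖ ≤ ‖y‖ ∧ ⟪x, y⟫_ℂ = ⟪x, SH N z⟫_ℂ := by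
    intro N
    induction N with
    | zero => exact ⟨y, hy, le_rfl, by rw [SH_zero]⟩
    | succ N ih =>
      obtain ⟨z, hz, h1, h2⟩ := ih
      obtain ⟨c, z', hz', e, h3⟩ := decomp hw h0 ho hz
      refine ⟨z', hz', h3.trans h1, ?_⟩
      rw [h2, e, SH_add, SH_smul, SH_SH, inner_add_right, inner_smul_right, hx, mul_zero, zero_add]
  have hb : ∀ N, ‖⟪x, y⟫_ℂ‖ ≤ ‖BK N x‖ * ‖y‖ := by
    intro N
    obtain ⟨z, -, h1, h2⟩ := key N
    rw [h2, inner_SH]
    exact (norm_inner_le_norm _ _).trans (by gcongr)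
  have := ge_of_tendsto' ((tendsto_BK x).mul_const ‖y‖) hb
  simpa using this

end

lemma conv_hasSum (a g s : H) (hs : HasSum (fun k => g k • sh k a) s) (n : ℕ) :
    s n = ∑ k ∈ range (n + 1), a k * g (n - k) := by
  have h1 := (hs.mapL (ev n))
  simp only [map_smul, ev_apply, smul_eq_mul, sh_apply] at h1
  have h2 : HasSum (fun k => g k * if k ≤ n then a (n - k) else 0)
      (∑ k ∈ range (n + 1), g k * if k ≤ n then a (n - k) else 0) := by
    apply hasSum_sum_of_ne_finset_zero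
    intro k hk
    have : ¬ k ≤ n := by simpa [Nat.lt_succ_iff] using hk
    simp [this]
  rw [h1.unique h2, ← sum_range_reflect]
  refine sum_congr rfl fun k hk => ?_
  have hk' : k ≤ n := by simpa [Nat.lt_succ_iff] using hk
  simp only [add_tsub_cancel_right, tsub_le_iff_right, le_add_iff_nonneg_right, zero_le, if_true]
  rw [Nat.sub_sub_self hk', mul_comm]

lemma isom {w : E} (ho : Orthonormal ℂ (fun k => SH k w)) (g : H) :
    ∃ y : E, ‖y‖ = ‖g‖ ∧ (∀ n, y.fst n = ∑ k ∈ range (n + 1), w.fst k * g (n - k)) ∧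
      (∀ n, y.snd n = ∑ k ∈ range (n + 1), w.snd k * g (n - k)) := by
  have hs := ho.orthogonalFamily.hasSum_linearIsometry g
  refine ⟨_, ho.orthogonalFamily.linearIsometry.norm_map g, fun n => ?_, fun n => ?_⟩
  · apply conv_hasSum
    have := hs.mapL (WithLp.fstL 2 ℂ H H)
    simpa [SH] using this
  · apply conv_hasSum
    have := hs.mapL (WithLp.sndL 2 ℂ H H)
    simpa [SH] using this

end
end Pool.Agent.H2.DBR
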