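import Mathlib
import Pool.Agent.H2.DBR1

set_option autoImplicit false

namespace Pool.Agent.H2.DBR

open Filter Topology Finset Polynomial
open scoped InnerProductSpace ComplexConjugate

noncomputable section

def toH : ℂ[X] →ₗ[ℂ] H where
  toFun p := mk p.coeff (summable_of_ne_finset_zero (s := p.support) (by
    intro n hn
    simp [notMem_support_iff.1 hn]))
  map_add' p q := by ext n; simp
  map_smul' c p := by ext n; simp

@[simp] lemma toH_apply (p : ℂ[X]) (n : ℕ) : toH p n = p.coeff n := rfl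

lemma toH_X_pow_mul (k : ℕ) (p : ℂ[X]) : toH (X ^ k * p) = sh k (toH p) := by
  ext n
  simp [sh_apply, coeff_X_pow_mul']

lemma toH_one : toH 1 = e0 := by
  ext n
  simp only [toH_apply, e0, coeff_one, lp.single_apply, Pi.single_apply]

lemma norm_e0 : ‖e0‖ = 1 := by
  rw [e0, lp.norm_single (by norm_num)]; simp

lemma mul_bound (p : ℂ[X]) : ∃ C : ℝ, 0 ≤ C ∧ ∀ q, ‖toH (p * q)‖ ≤ C * ‖toH q‖ := by
  induction p using Polynomial.induction_on' with
  | add p p' hp hp' =>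
    obtain ⟨C, hC, h⟩ := hp
    obtain ⟨C', hC', h'⟩ := hp'
    refine ⟨C + C', by positivity, fun q => ?_⟩
    rw [add_mul, map_add, add_mul]
    exact (norm_add_le _ _).trans (add_le_add (h q) (h' q))
  | monomial n a =>
    refine ⟨‖a‖, norm_nonneg _, fun q => ?_⟩
    rw [← C_mul_X_pow_eq_monomial, mul_assoc, ← smul_eq_C_mul, map_smul, norm_smul, toH_X_pow_mul,
      norm_sh]

lemma mul_bound_fin (p : ℕ → ℂ[X]) (N : ℕ) :
    ∃ C : ℝ, 0 < C ∧ ∀ M ≤ N, ∀ q, ‖toH (p M * q)‖ ≤ C * ‖toH q‖ := by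
  choose C hC h using fun M => mul_bound (p M)
  refine ⟨1 + ∑ M ∈ range (N + 1), C M, by
    have := sum_nonneg (s := range (N + 1)) fun M _ => hC M
    linarith, fun M hM q => (h M q).trans ?_⟩
  have := single_le_sum (s := range (N + 1)) (fun M _ => hC M) (mem_range.2 (Nat.lt_succ_of_le hM))
  gcongr
  linarith

def geo (d K : ℕ) : ℂ[X] := ∑ i ∈ range K, X ^ (d * i)

lemma geo_succ (d K : ℕ) : geo d (K + 1) = 1 + X ^ d * geo d K := by
  rw [geo, sum_range_succ', geo, mul_sum, add_comm]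
  simp only [mul_zero, pow_zero, ← pow_add]
  congr 1
  refine sum_congr rfl fun i _ => ?_
  congr 1; ring

lemma geo_mul (d K : ℕ) : (1 - X ^ d) * geo d K = 1 - X ^ (d * K) := by
  induction K with
  | zero => simp [geo]
  | succ K ih => rw [geo, sum_range_succ, ← geo, mul_add, ih]; ring

lemma norm_geo {d : ℕ} (hd : 0 < d) (K : ℕ) : ‖toH (geo d K)‖ = Real.sqrt K := by
  have : ‖toH (geo d K)‖ * ‖toH (geo d K)‖ = K := by
    induction K with
    | zero => simp [geo]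
    | succ K ih =>
      rw [geo_succ, map_add, toH_one, toH_X_pow_mul,
        norm_add_sq_eq_norm_sq_add_norm_sq_of_inner_eq_zero (𝕜 := ℂ), norm_sh, ih, norm_e0]
      · push_cast; ring
      · rw [inner_e0]; simp [sh_apply]; omega
  rw [← this, Real.sqrt_mul_self (norm_nonneg _)]

lemma geo_expand (d K : ℕ) : geo d K = expand ℂ d (geo 1 K) := by
  simp [geo, map_sum, ← pow_mul]

lemma coeff_geo_one (K j : ℕ) (h : j < K) : (geo 1 K).coeff j = 1 := by
  simp [geo, finset_sum_coeff, coeff_X_pow, h]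

lemma coeff_sq_top {d : ℕ} (hd : 0 < d) (L : ℕ) :
    (geo d (L + 1) * geo d (L + 1)).coeff (d * L) = (L + 1 : ℕ) := by
  rw [geo_expand, ← map_mul, coeff_expand hd, if_pos (dvd_mul_right _ _),
    Nat.mul_div_cancel_left _ hd, coeff_mul]
  rw [sum_congr rfl (g := fun _ => (1 : ℂ))]
  · simp
  · intro x hx
    have := mem_antidiagonal.1 hx
    rw [coeff_geo_one _ _ (by omega), coeff_geo_one _ _ (by omega), mul_one]

lemma coeff_sq_zero {d : ℕ} (hd : 0 < d) (L j : ℕ) (hj : ¬ d ∣ j) :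
    (geo d L * geo d L).coeff j = 0 := by
  rw [geo_expand, ← map_mul, coeff_expand hd, if_neg hj]

lemma dvd_u (d K : ℕ) : (1 - X ^ d : ℂ[X]) ∣ (K : ℂ[X]) - X ^ d * geo d K := by
  induction K with
  | zero => simp [geo]
  | succ K ih =>
    have : ((K + 1 : ℕ) : ℂ[X]) - X ^ d * geo d (K + 1) =
        ((K : ℂ[X]) - X ^ d * geo d K) + (1 - X ^ d) * geo d (K + 1) := by
      rw [geo_mul, geo, sum_range_succ, ← geo]; push_cast; ring
    rw [this]
    exact dvd_add ih (dvd_mul_right _ _)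

lemma exists_large (C η : ℝ) (hη : 0 < η) : ∃ K : ℕ, C * (Real.sqrt (K + 1 : ℕ) / (K + 1 : ℕ)) ≤ η := by
  obtain ⟨K, hK⟩ := exists_nat_ge ((C / η) ^ 2)
  refine ⟨K, ?_⟩
  have hpos : (0 : ℝ) < (K + 1 : ℕ) := by positivity
  have hs : 0 < Real.sqrt (K + 1 : ℕ) := Real.sqrt_pos.2 hpos
  have h1 : C / η ≤ Real.sqrt (K + 1 : ℕ) := by
    apply Real.le_sqrt_of_sq_le
    push_cast; linarith
  rw [Real.sqrt_div_self', mul_one_div, div_le_iff₀ hs]
  rw [div_le_iff₀ hη] at h1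
  linarith

lemma exists_u {d : ℕ} (hd : 0 < d) (C η : ℝ) (hη : 0 < η) :
    ∃ q : ℂ[X], C * ‖toH ((1 - X ^ d) * q - 1)‖ ≤ η := by
  obtain ⟨K, hK⟩ := exists_large C η hη
  obtain ⟨q, hq⟩ := dvd_u d (K + 1)
  have hne : ((K + 1 : ℕ) : ℂ) ≠ 0 := by exact_mod_cast Nat.succ_ne_zero K
  refine ⟨((K + 1 : ℕ) : ℂ)⁻¹ • q, ?_⟩
  have : (1 - X ^ d) * (((K + 1 : ℕ) : ℂ)⁻¹ • q) - 1 =
      -(((K + 1 : ℕ) : ℂ)⁻¹ • (X ^ d * geo d (K + 1))) := by
    rw [mul_smul_comm, ← hq, smul_sub, ← C_eq_natCast, smul_C, smul_eq_mul, inv_mul_cancel₀ hne]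
    simp
  rw [this, map_neg, norm_neg, map_smul, norm_smul, toH_X_pow_mul, norm_sh, norm_geo hd]
  rwa [norm_inv, Complex.norm_natCast, inv_mul_eq_div]

lemma exists_T {d : ℕ} (hd : 0 < d) (C η : ℝ) (hC : 0 < C) (hη : 0 < η) (t : ℂ) (s : ℕ) :
    ∃ (T : ℂ[X]) (n : ℕ), s ≤ n ∧ T.coeff n = t ∧ (∀ j, j < s → T.coeff j = 0) ∧
      (∀ i, 0 < i → i < d → T.coeff (n + i) = 0) ∧ C * ‖toH ((1 - X ^ d) * T)‖ ≤ η := by
  obtain ⟨L, hL⟩ := exists_large (C * (‖t‖ * 2)) η hη
  have hne : ((L + 1 : ℕ) : ℂ) ≠ 0 := by exact_mod_cast Nat.succ_ne_zero L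
  refine ⟨(t / (L + 1 : ℕ)) • (X ^ s * (geo d (L + 1) * geo d (L + 1))), s + d * L, by omega,
    ?_, ?_, ?_, ?_⟩
  · rw [coeff_smul, coeff_X_pow_mul', if_pos (by omega), add_tsub_cancel_left, coeff_sq_top hd,
      smul_eq_mul, div_mul_cancel₀ _ hne]
  · intro j hj
    rw [coeff_smul, coeff_X_pow_mul', if_neg (by omega), smul_zero]
  · intro i hi hi'
    rw [coeff_smul, coeff_X_pow_mul', if_pos (by omega), coeff_sq_zero hd, smul_zero]
    rw [show s + d * L + i - s = d * L + i by omega, Nat.dvd_add_right (dvd_mul_right _ _)]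
    exact Nat.not_dvd_of_pos_of_lt hi hi'
  · have : (1 - X ^ d) * ((t / (L + 1 : ℕ)) • (X ^ s * (geo d (L + 1) * geo d (L + 1)))) =
        (t / (L + 1 : ℕ)) • (X ^ s * geo d (L + 1) - X ^ (s + d * (L + 1)) * geo d (L + 1)) := by
      rw [mul_smul_comm]
      congr 1
      have := geo_mul d (L + 1)
      calc (1 - X ^ d) * (X ^ s * (geo d (L + 1) * geo d (L + 1)))
          = X ^ s * geo d (L + 1) * ((1 - X ^ d) * geo d (L + 1)) := by ring
        _ = _ := by rw [this]; ring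
    rw [this, map_smul, norm_smul, map_sub]
    have h2 : ‖toH (X ^ s * geo d (L + 1)) - toH (X ^ (s + d * (L + 1)) * geo d (L + 1))‖ ≤
        2 * Real.sqrt (L + 1 : ℕ) := by
      refine (norm_sub_le _ _).trans ?_
      rw [toH_X_pow_mul, toH_X_pow_mul, norm_sh, norm_sh, norm_geo hd]
      linarith
    refine le_trans ?_ hL
    rw [norm_div, Complex.norm_natCast]
    calc C * (‖t‖ / ((L + 1 : ℕ) : ℝ) * _) ≤ C * (‖t‖ / ((L + 1 : ℕ) : ℝ) * (2 * Real.sqrt (L + 1 : ℕ))) := by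
          gcongr
      _ = _ := by ring

/-- the relation between consecutive stages -/
def Step (N : ℕ) (η : ℝ) (x y : ℂ[X] × ℂ[X] × (ℕ → ℂ[X])) : Prop :=
  (∀ k ≤ N, y.1.coeff k = x.1.coeff k ∧ y.2.1.coeff k = x.2.1.coeff k) ∧
  (∀ m < N, ∀ k, conj (y.1.coeff k) * y.2.1.coeff (m + k) = conj (x.1.coeff k) * x.2.1.coeff (m + k)) ∧
  (∃ K0, ∀ K ≥ K0, ∑ k ∈ range K, conj (y.1.coeff k) * y.2.1.coeff (N + k) = 0) ∧
  ‖toH y.2.1 - toH x.2.1‖ ≤ η ∧
  (∀ M ≤ N, ‖toH (y.2.2 M) - toH (x.2.2 M)‖ ≤ η ∧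
    ‖toH (y.2.2 M * y.1) - toH (x.2.2 M * x.1)‖ ≤ 2 * η) ∧
  (∀ M, N < M → y.2.2 M = x.2.2 M)

lemma exists_step (N : ℕ) (η : ℝ) (hη : 0 < η) (x : ℂ[X] × ℂ[X] × (ℕ → ℂ[X])) :
    ∃ y, Step N η x y := by
  obtain ⟨φ, f, g⟩ := x
  obtain ⟨C1, hC1, h1⟩ := mul_bound_fin g N
  obtain ⟨C2, hC2, h2⟩ := mul_bound_fin (fun M => g M * φ) N
  obtain ⟨q, hq⟩ := exists_u (d := N + 1) (by omega) (C1 + C2) η hη
  obtain ⟨C3, hC3, h3⟩ := mul_bound_fin (fun M => g M * q) N
  set s : ℕ := φ.natDegree + f.natDegree + N + 1 with hs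
  have hφs : ∀ k, s ≤ k → φ.coeff k = 0 := fun k hk => coeff_eq_zero_of_natDegree_lt (by omega)
  have hfs : ∀ k, s ≤ k → f.coeff k = 0 := fun k hk => coeff_eq_zero_of_natDegree_lt (by omega)
  set c : ℂ := ∑ k ∈ range s, conj (φ.coeff k) * f.coeff (N + k) with hc
  have hηc : (η : ℂ) ≠ 0 := by exact_mod_cast hη.ne'
  obtain ⟨T, n, hn, hTn, hT0, hTi, hT⟩ := exists_T (d := N + 1) (by omega) C3 η hC3 hη
    (-(conj c) / η) s
  have hterm : ∀ m ≤ N, ∀ k, conj ((φ + T).coeff k) * (f + (η : ℂ) • X ^ (n + N)).coeff (m + k) =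
      conj (φ.coeff k) * f.coeff (m + k) + if m + k = n + N then conj (T.coeff k) * η else 0 := by
    intro m hm k
    simp only [coeff_add, coeff_smul, coeff_X_pow, smul_eq_mul, map_add]
    by_cases hk : k < s
    · rw [hT0 k hk, if_neg (by omega), if_neg (by omega)]; simp
    · rw [hφs k (by omega), hfs (m + k) (by omega)]
      split_ifs <;> simp
  refine ⟨(φ + T, f + (η : ℂ) • X ^ (n + N),
    fun M => if M ≤ N then g M * ((1 - X ^ (N + 1)) * q) else g M), ?_, ?_, ?_, ?_, ?_, ?_⟩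
  · intro k hk
    simp only [coeff_add, coeff_smul, coeff_X_pow, smul_eq_mul]
    rw [hT0 k (by omega), if_neg (by omega)]; simp
  · intro m hm k
    simp only
    rw [hterm m hm.le k]
    split_ifs with h
    · rw [show k = n + (N - m) by omega, hTi _ (by omega) (by omega)]; simp
    · simp
  · refine ⟨n + 1, fun K hK => ?_⟩
    simp only
    rw [sum_congr rfl fun k _ => hterm N le_rfl k, sum_add_distrib]
    have e1 : ∑ k ∈ range K, conj (φ.coeff k) * f.coeff (N + k) = c := by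
      rw [hc]
      symm
      apply sum_subset (range_subset_range.2 (by omega))
      intro k _ hk
      rw [hφs k (by simpa using hk)]; simp
    have e2 : ∑ k ∈ range K, (if N + k = n + N then conj (T.coeff k) * η else 0) = -c := by
      rw [sum_eq_single n]
      · rw [if_pos (add_comm _ _), hTn]
        simp only [map_div₀, map_neg, Complex.conj_conj, Complex.conj_ofReal]
        field_simp
      · intro k _ hk
        rw [if_neg (by omega)]
      · intro h
        exact absurd (mem_range.2 (by omega)) h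
    rw [e1, e2, add_neg_cancel]
  · simp only [map_add, add_sub_cancel_left, map_smul, norm_smul]
    rw [← mul_one (X ^ (n + N) : ℂ[X]), toH_X_pow_mul, norm_sh, toH_one, norm_e0]
    simp [abs_of_pos hη]
  · intro M hM
    simp only [if_pos hM]
    have hu := norm_nonneg (toH ((1 - X ^ (N + 1)) * q - 1))
    constructor
    · rw [← map_sub, show g M * ((1 - X ^ (N + 1)) * q) - g M = g M * ((1 - X ^ (N + 1)) * q - 1) by ring]
      refine (h1 M hM _).trans (le_trans ?_ hq)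
      gcongr; linarith
    · rw [← map_sub, show g M * ((1 - X ^ (N + 1)) * q) * (φ + T) - g M * φ =
        (g M * φ) * ((1 - X ^ (N + 1)) * q - 1) + (g M * q) * ((1 - X ^ (N + 1)) * T) by ring, map_add]
      refine (norm_add_le _ _).trans ?_
      have a1 := (h2 M hM ((1 - X ^ (N + 1)) * q - 1)).trans (le_trans (by gcongr; linarith) hq)
      have a2 := (h3 M hM ((1 - X ^ (N + 1)) * T)).trans hT
      linarith
  · intro M hM
    simp only [if_neg (not_le.2 hM)]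

end
end Pool.Agent.H2.DBR
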