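import Mathlib
import Pool.Agent.H2.DBR2

set_option autoImplicit false

namespace Pool.Agent.H2.DBR

open Filter Topology Finset Polynomial
open scoped InnerProductSpace ComplexConjugate

noncomputable section

def eta (N : ℕ) : ℝ := (1 / 8) / 2 / 2 ^ N

lemma eta_pos (N : ℕ) : 0 < eta N := by unfold eta; positivity

def st : ℕ → ℂ[X] × ℂ[X] × (ℕ → ℂ[X])
  | 0 => (1, 1, fun _ => 1)
  | N + 1 => Classical.choose (exists_step N (eta N) (eta_pos N) (st N))

lemma st_step (N : ℕ) : Step N (eta N) (st N) (st (N + 1)) :=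
  Classical.choose_spec (exists_step N (eta N) (eta_pos N) (st N))

def phi (k : ℕ) : ℂ := (st k).1.coeff k

lemma stab (k N : ℕ) (h : k ≤ N) :
    (st N).1.coeff k = phi k ∧ (st N).2.1.coeff k = (st k).2.1.coeff k := by
  induction N, h using Nat.le_induction with
  | base => exact ⟨rfl, rfl⟩
  | succ N h ih =>
    have := (st_step N).1 k h
    exact ⟨this.1.trans ih.1, this.2.trans ih.2⟩

lemma term_stab (m k N : ℕ) (h : m + 1 ≤ N) :
    conj ((st N).1.coeff k) * (st N).2.1.coeff (m + k) =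
      conj ((st (m + 1)).1.coeff k) * (st (m + 1)).2.1.coeff (m + k) := by
  induction N, h using Nat.le_induction with
  | base => rfl
  | succ N h ih => rw [(st_step N).2.1 m h k, ih]

lemma g_one (M N : ℕ) (h : N ≤ M) : (st N).2.2 M = 1 := by
  induction N with
  | zero => rfl
  | succ N ih => rw [(st_step N).2.2.2.2.2 M h, ih (by omega)]

lemma lim_geo (u : ℕ → H) (C : ℝ) (hu : ∀ n, ‖u (n + 1) - u n‖ ≤ C / 2 / 2 ^ n) :
    ∃ a, Tendsto u atTop (𝓝 a) ∧ ∀ n, ‖a - u n‖ ≤ C / 2 ^ n := by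
  have hu' : ∀ n, dist (u n) (u (n + 1)) ≤ C / 2 / 2 ^ n := by
    intro n; rw [dist_comm, dist_eq_norm]; exact hu n
  obtain ⟨a, ha⟩ := cauchySeq_tendsto_of_complete (cauchySeq_of_le_geometric_two hu')
  refine ⟨a, ha, fun n => ?_⟩
  rw [← dist_eq_norm, dist_comm]
  exact dist_le_of_le_geometric_two_of_tendsto hu' ha n

lemma exists_f : ∃ f : H, ‖f - e0‖ ≤ 1 / 8 ∧ ∀ m, Tendsto
    (fun K => ∑ k ∈ range K, conj (phi k) * f (m + k)) atTop (𝓝 0) := by
  obtain ⟨f, hf, hb⟩ := lim_geo (fun N => toH (st N).2.1) (1 / 8) (fun N => (st_step N).2.2.2.1)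
  have hc : ∀ k, f k = (st k).2.1.coeff k := by
    intro k
    have h1 := ((cont_ev k).tendsto f).comp hf
    refine tendsto_nhds_unique h1 (tendsto_const_nhds.congr' ?_)
    filter_upwards [eventually_ge_atTop k] with N hN
    exact (stab k N hN).2.symm
  refine ⟨f, ?_, fun m => ?_⟩
  · have := hb 0
    simpa [st, toH_one] using this
  · obtain ⟨K0, hK0⟩ := (st_step m).2.2.1
    refine tendsto_const_nhds.congr' ?_
    filter_upwards [eventually_ge_atTop K0] with K hK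
    rw [← hK0 K hK]
    refine sum_congr rfl fun k _ => ?_
    rw [← term_stab m k (m + k + 1) (by omega), (stab k _ (by omega)).1, (stab (m + k) _ (by omega)).2,
      hc]

lemma exists_y (M : ℕ) : ∃ y ∈ Gr phi, ‖y.fst - e0‖ ≤ (1 / 8) / 2 ^ M ∧
    (M = 0 → ‖y.snd - e0‖ ≤ 1 / 4) := by
  obtain ⟨g, hg, hgb⟩ := lim_geo (fun N => toH ((st N).2.2 M)) (1 / 8) (fun N => by
    rcases le_or_gt M N with h | h
    · exact ((st_step N).2.2.2.2.1 M h).1
    · simp only [(st_step N).2.2.2.2.2 M h, sub_self, norm_zero]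
      positivity)
  obtain ⟨h, hh, hhb⟩ := lim_geo (fun N => toH ((st (N + M)).2.2 M * (st (N + M)).1)) (1 / 4)
    (fun N => by
      have := ((st_step (N + M)).2.2.2.2.1 M (by omega)).2
      rw [show N + 1 + M = N + M + 1 by ring]
      refine this.trans ?_
      unfold eta
      rw [show 2 * ((1 / 8 : ℝ) / 2 / 2 ^ (N + M)) = 1 / 4 / 2 / 2 ^ (N + M) by ring]
      gcongr
      · norm_num
      · omega)
  refine ⟨pr g h, fun n => ?_, ?_, ?_⟩
  · have h1 := ((cont_ev n).tendsto h).comp hh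
    have h2 : Tendsto (fun N => ∑ k ∈ range (n + 1), ((st (N + M)).2.2 M).coeff k * phi (n - k))
        atTop (𝓝 (∑ k ∈ range (n + 1), g k * phi (n - k))) := by
      refine tendsto_finset_sum _ fun k _ => Tendsto.mul_const _ ?_
      exact (((cont_ev k).tendsto g).comp hg).comp (tendsto_add_atTop_nat M)
    refine tendsto_nhds_unique h2 (h1.congr' ?_)
    filter_upwards [eventually_ge_atTop n] with N hN
    simp only [Function.comp, toH_apply]
    rw [coeff_mul, Nat.sum_antidiagonal_eq_sum_range_succ_mk]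
    refine sum_congr rfl fun k _ => ?_
    rw [(stab (n - k) (N + M) (by omega)).1]
  · have := hgb M
    simpa [g_one M M le_rfl, toH_one] using this
  · rintro rfl
    have := hhb 0
    simpa [st, toH_one] using this

lemma sh_sub (k : ℕ) (x y : H) : sh k (x - y) = sh k x - sh k y := by
  ext n; simp only [sh_apply, lp.coeFn_sub, Pi.sub_apply]; split_ifs <;> simp

lemma dense_phi (v : H) (hv : ∀ y ∈ Gr phi, ⟪v, y.fst⟫_ℂ = 0) : v = 0 := by
  ext k
  have hb : ∀ M, ‖⟪bk k v, e0⟫_ℂ‖ ≤ ‖bk k v‖ * ((1 / 8) / 2 ^ M) := by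
    intro M
    obtain ⟨y, hy, h1, -⟩ := exists_y M
    have h2 := hv _ (SH_mem hy k)
    simp only [SH, pr_fst, inner_sh] at h2
    have : ⟪bk k v, e0⟫_ℂ = -⟪bk k v, y.fst - e0⟫_ℂ := by rw [inner_sub_right, h2]; simp
    rw [this, norm_neg]
    exact (norm_inner_le_norm _ _).trans (by gcongr)
  have ht : Tendsto (fun M : ℕ => ‖bk k v‖ * ((1 / 8 : ℝ) / 2 ^ M)) atTop (𝓝 0) := by
    have := (tendsto_pow_atTop_atTop_of_one_lt (one_lt_two (α := ℝ))).const_div_atTop (1 / 8)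
    simpa using this.const_mul ‖bk k v‖
  have h3 := ge_of_tendsto' ht hb
  rw [← inner_conj_symm, inner_e0] at h3
  simpa using h3

lemma main_ex : ∃ f : H, (∀ m, Tendsto
    (fun K => ∑ k ∈ range K, conj (phi k) * f (m + k)) atTop (𝓝 0)) ∧
    ∃ y ∈ Gr phi, ⟪f, y.snd⟫_ℂ ≠ 0 := by
  obtain ⟨f, hf, hc⟩ := exists_f
  obtain ⟨y, hy, -, h2⟩ := exists_y 0
  refine ⟨f, hc, y, hy, fun h0 => ?_⟩
  have h2 := h2 rfl
  have e : (1 : ℂ) = -(⟪f - e0, y.snd - e0⟫_ℂ + ⟪f - e0, e0⟫_ℂ + ⟪e0, y.snd - e0⟫_ℂ) := by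
    have h1 : ⟪e0, e0⟫_ℂ = 1 := by rw [inner_self_eq_norm_sq_to_K, norm_e0]; simp
    simp only [inner_sub_left, inner_sub_right, h0, h1]; ring
  have b1 : ‖⟪f - e0, y.snd - e0⟫_ℂ‖ ≤ 1 / 8 * (1 / 4) :=
    (norm_inner_le_norm _ _).trans (by gcongr)
  have b2 : ‖⟪f - e0, e0⟫_ℂ‖ ≤ 1 / 8 * 1 :=
    (norm_inner_le_norm _ _).trans (by rw [norm_e0]; gcongr)
  have b3 : ‖⟪e0, y.snd - e0⟫_ℂ‖ ≤ 1 * (1 / 4) :=
    (norm_inner_le_norm _ _).trans (by rw [norm_e0]; gcongr)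
  have := congrArg norm e
  rw [norm_one, norm_neg] at this
  have h4 := norm_add₃_le (a := ⟪f - e0, y.snd - e0⟫_ℂ) (b := ⟪f - e0, e0⟫_ℂ) (c := ⟪e0, y.snd - e0⟫_ℂ)
  linarith

lemma inner_zero_of (f x : H) (hx : ∀ t : ℂ, ‖f + t • x‖ ^ 2 - ‖t‖ ^ 2 ≤ ‖f‖ ^ 2) :
    ⟪f, x⟫_ℂ = 0 := by
  set z := ⟪f, x⟫_ℂ with hz
  have := hx (conj z)
  rw [@norm_add_sq ℂ, inner_smul_right, ← hz, RCLike.conj_mul] at this
  simp only [RCLike.norm_conj] at this
  have h2 : RCLike.re (((‖z‖ : ℝ) : ℂ) ^ 2) = ‖z‖ ^ 2 := by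
    norm_cast
  erw [h2] at this
  have h3 : ‖z‖ ^ 2 ≤ 0 := by nlinarith [sq_nonneg ‖(conj z) • x‖]
  simpa using h3

end
end Pool.Agent.H2.DBR
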