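import Mathlib

set_option autoImplicit false

namespace Pool.Agent.H2.DGA

open scoped RealInnerProductSpace
open Filter Topology

section
variable {H : Type} [NormedAddCommGroup H] [InnerProductSpace ℝ H] (w : ℕ → H)

/-- dual ball -/
def KK : Set H := {ζ | ∀ k, ‖ζ‖ ^ 2 + ⟪w k, ζ⟫ ^ 2 ≤ 1}

/-- the new norm -/
noncomputable def NN (x : H) : ℝ := sSup ((fun ζ => ⟪ζ, x⟫) '' KK w)

lemma zero_mem_KK : (0 : H) ∈ KK w := by intro k; simp

lemma norm_le_of_KK {ζ : H} (h : ζ ∈ KK w) : ‖ζ‖ ≤ 1 := by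
  have := h 0
  have h2 : ‖ζ‖ ^ 2 ≤ 1 := by nlinarith [sq_nonneg ⟪w 0, ζ⟫]
  nlinarith [norm_nonneg ζ]

lemma inner_le_norm_of_KK {ζ : H} (h : ζ ∈ KK w) (x : H) : ⟪ζ, x⟫ ≤ ‖x‖ := by
  have := real_inner_le_norm ζ x
  have h2 := norm_le_of_KK w h
  nlinarith [norm_nonneg x, norm_nonneg ζ]

lemma le_NN {ζ : H} (h : ζ ∈ KK w) (x : H) : ⟪ζ, x⟫ ≤ NN w x := by
  apply le_csSup
  · exact ⟨‖x‖, by rintro _ ⟨η, hη, rfl⟩; exact inner_le_norm_of_KK w hη x⟩
  · exact ⟨ζ, h, rfl⟩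

lemma NN_le {x : H} {c : ℝ} (h : ∀ ζ ∈ KK w, ⟪ζ, x⟫ ≤ c) : NN w x ≤ c := by
  apply csSup_le
  · exact ⟨_, 0, zero_mem_KK w, rfl⟩
  · rintro _ ⟨η, hη, rfl⟩; exact h η hη

lemma NN_nonneg (x : H) : 0 ≤ NN w x := by
  have := le_NN w (zero_mem_KK w) x
  simpa using this

lemma NN_le_norm (x : H) : NN w x ≤ ‖x‖ := NN_le w fun ζ h => inner_le_norm_of_KK w h x

lemma neg_mem_KK {ζ : H} (h : ζ ∈ KK w) : -ζ ∈ KK w := by
  intro k; have := h k; simpa [inner_neg_right] using this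

lemma scale_le {ζ : H} {l : ℝ} (hl : 0 < l) (h : ∀ k, ‖ζ‖ ^ 2 + ⟪w k, ζ⟫ ^ 2 ≤ l ^ 2) (x : H) :
    ⟪ζ, x⟫ ≤ l * NN w x := by
  have hm : (l⁻¹ • ζ) ∈ KK w := by
    intro k
    rw [norm_smul, inner_smul_right, mul_pow, mul_pow, Real.norm_eq_abs, sq_abs, ← mul_add]
    have := h k
    rw [inv_pow, inv_mul_le_iff₀ (by positivity)]
    linarith
  have := le_NN w hm x
  rw [real_inner_smul_left, inv_mul_le_iff₀ hl] at this
  exact this

lemma norm_le_NN (hw : ∀ k, ‖w k‖ ^ 2 ≤ 3) (x : H) : ‖x‖ ≤ 2 * NN w x := by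
  by_cases hx : x = 0
  · subst hx; simpa using NN_nonneg w 0
  have hp : 0 < ‖x‖ := norm_pos_iff.mpr hx
  have := scale_le w (ζ := x) (l := 2 * ‖x‖) (by positivity) (fun k => by
    have h1 := abs_real_inner_le_norm (w k) x
    have h2 : ⟪w k, x⟫ ^ 2 ≤ (‖w k‖ * ‖x‖) ^ 2 := by
      rw [← sq_abs]; exact pow_le_pow_left₀ (abs_nonneg _) h1 2
    have h3 := hw k
    nlinarith [sq_nonneg ‖x‖]) x
  rw [real_inner_self_eq_norm_sq] at this
  nlinarith

lemma NN_add (x y : H) : NN w (x + y) ≤ NN w x + NN w y :=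
  NN_le w fun ζ h => by rw [inner_add_right]; exact add_le_add (le_NN w h x) (le_NN w h y)

lemma NN_smul_le (c : ℝ) (x : H) : NN w (c • x) ≤ |c| * NN w x := by
  apply NN_le
  intro ζ h
  rw [real_inner_smul_right]
  rcases le_total 0 c with hc | hc
  · rw [abs_of_nonneg hc]; exact mul_le_mul_of_nonneg_left (le_NN w h x) hc
  · rw [abs_of_nonpos hc]
    have := le_NN w (neg_mem_KK w h) x
    rw [inner_neg_left] at this
    nlinarith

lemma NN_smul (c : ℝ) (x : H) : NN w (c • x) = |c| * NN w x := by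
  apply le_antisymm (NN_smul_le w c x)
  by_cases hc : c = 0
  · subst hc; simpa using NN_nonneg w 0
  have := NN_smul_le w c⁻¹ (c • x)
  rw [smul_smul, inv_mul_cancel₀ hc, one_smul, abs_inv,
    le_inv_mul_iff₀ (abs_pos.mpr hc)] at this
  exact this

lemma NN_smooth (hw : ∀ k, ‖w k‖ ^ 2 ≤ 3) (x y : H) (hx : NN w x = 1) (hy : NN w y = 1) (u : ℝ)
    (hu : 0 < u) : NN w (x + u • y) + NN w (x - u • y) ≤ 2 + 4 * u ^ 2 := by
  have key : ∀ ξ ∈ KK w, ∀ η ∈ KK w, ⟪ξ, x + u • y⟫ + ⟪η, x - u • y⟫ ≤ 2 + 4 * u ^ 2 := by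
    intro ξ hξ η hη
    set t := ‖ξ - η‖ with ht
    have ht0 : 0 ≤ t := norm_nonneg _
    have ht2 : t ≤ 2 := by
      have := norm_sub_le ξ η
      linarith [norm_le_of_KK w hξ, norm_le_of_KK w hη]
    have h1 : ⟪ξ + η, x⟫ ≤ (2 - t ^ 2 / 4) * NN w x := by
      apply scale_le w (by nlinarith)
      intro k
      have p := parallelogram_law_with_norm ℝ ξ η
      have a := hξ k
      have b := hη k
      rw [inner_add_right]
      nlinarith [sq_nonneg (⟪w k, ξ⟫ - ⟪w k, η⟫), sq_nonneg (t ^ 2)]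
    have h2 : ⟪ξ - η, y⟫ ≤ t * 2 := by
      have := real_inner_le_norm (ξ - η) y
      have h3 := norm_le_NN w hw y
      rw [hy] at h3
      nlinarith
    rw [hx, inner_add_left] at h1
    rw [inner_sub_left] at h2
    rw [inner_add_right, inner_sub_right, real_inner_smul_right, real_inner_smul_right]
    nlinarith [sq_nonneg (t - 4 * u)]
  have : NN w (x + u • y) ≤ 2 + 4 * u ^ 2 - NN w (x - u • y) := by
    apply NN_le
    intro ξ hξ
    have : NN w (x - u • y) ≤ 2 + 4 * u ^ 2 - ⟪ξ, x + u • y⟫ :=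
      NN_le w fun η hη => by linarith [key ξ hξ η hη]
    linarith
  linarith

/-- type synonym -/
def XX (_w : ℕ → H) (_hw : ∀ k, ‖_w k‖ ^ 2 ≤ 3) : Type := H

variable (hw : ∀ k, ‖w k‖ ^ 2 ≤ 3)

instance : AddCommGroup (XX w hw) := inferInstanceAs (AddCommGroup H)
instance : Module ℝ (XX w hw) := inferInstanceAs (Module ℝ H)

/-- identity map -/
def toX : H ≃ₗ[ℝ] XX w hw := LinearEquiv.refl ℝ H

noncomputable instance : Norm (XX w hw) := ⟨fun x => NN w ((toX w hw).symm x)⟩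

lemma normX (x : XX w hw) : ‖x‖ = NN w ((toX w hw).symm x) := rfl

lemma coreX : NormedSpace.Core ℝ (XX w hw) where
  norm_nonneg x := NN_nonneg w _
  norm_smul c x := by rw [normX, normX, map_smul, NN_smul, Real.norm_eq_abs]
  norm_triangle x y := by rw [normX, normX, normX, map_add]; exact NN_add w _ _
  norm_eq_zero_iff x := by
    rw [normX]
    constructor
    · intro h
      have := norm_le_NN w hw ((toX w hw).symm x)
      rw [h, mul_zero] at this
      have h2 : (toX w hw).symm x = 0 := norm_le_zero_iff.mp this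
      simpa using h2
    · rintro rfl
      rw [map_zero]
      exact le_antisymm (by simpa using NN_le_norm w 0) (NN_nonneg w 0)

noncomputable instance : NormedAddCommGroup (XX w hw) := NormedAddCommGroup.ofCore (coreX w hw)
noncomputable instance : NormedSpace ℝ (XX w hw) := NormedSpace.ofCore (coreX w hw)

lemma normX' (x : H) : ‖toX w hw x‖ = NN w x := rfl

/-- continuous version -/
noncomputable def toXL : H ≃L[ℝ] XX w hw :=
  (toX w hw).toContinuousLinearEquivOfBounds 1 2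
    (fun x => by rw [normX', one_mul]; exact NN_le_norm w x)
    (fun x => norm_le_NN w hw _)

lemma toXL_apply (x : H) : toXL w hw x = toX w hw x := rfl

instance [CompleteSpace H] : CompleteSpace (XX w hw) :=
  (completeSpace_congr (e := (toXL w hw).toLinearEquiv.toEquiv)
    (toXL w hw).isUniformEmbedding).mp inferInstance

end

theorem abstract {H : Type} [NormedAddCommGroup H] [InnerProductSpace ℝ H] [CompleteSpace H]
    (w : ℕ → H) (hw : ∀ k, ‖w k‖ ^ 2 ≤ 3) (ξ f : ℕ → H) (s : ℕ → ℝ) (hs : ∀ n, 0 < s n)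
    (ha : ∀ n k, ‖ξ n‖ ^ 2 + ⟪w k, ξ n⟫ ^ 2 ≤ s n ^ 2)
    (hb : ∀ n, ∀ ζ ∈ KK w, s n * ⟪ζ, f n⟫ ≤ ⟪ξ n, f n⟫)
    (hc : ∀ n, ⟪ξ (n + 1), f n - f (n + 1)⟫ = 0)
    (S : Set H) (hS0 : ∀ v ∈ S, v ≠ 0) (hSd : Dense ((Submodule.span ℝ S : Submodule ℝ H) : Set H))
    (hS1 : ∀ n, f n - f (n + 1) ∈ S)
    (hS2 : ∀ n, 0 ≤ ⟪ξ n, f n - f (n + 1)⟫)
    (hS3 : ∀ n, ∀ v ∈ S, v = f n - f (n + 1) ∨
      2 * |⟪ξ n, v⟫| * ‖f n - f (n + 1)‖ ≤ ⟪ξ n, f n - f (n + 1)⟫ * ‖v‖)
    (c : ℝ) (hc0 : 0 < c) (hf : ∀ n, c ≤ ‖f n‖) :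
    ¬ (∀ (X : Type) [NormedAddCommGroup X] [NormedSpace ℝ X] [CompleteSpace X],
    ∀ (q γ : ℝ), 1 < q → q ≤ 2 →
    (∀ x y : X, ‖x‖ = 1 → ‖y‖ = 1 → ∀ u : ℝ, 0 < u →
        (‖x + u • y‖ + ‖x - u • y‖) / 2 - 1 ≤ γ * u ^ q) →
    ∀ D : Set X, (∀ g ∈ D, ‖g‖ = 1) → (∀ g ∈ D, -g ∈ D) →
    Dense ((Submodule.span ℝ D : Submodule ℝ X) : Set X) →
    ∀ (f : ℕ → X) (F : ℕ → X →L[ℝ] ℝ) (φ : ℕ → X) (a : ℕ → ℝ),
    (∀ m, ‖F m‖ = 1 ∧ F m (f m) = ‖f m‖) →
    (∀ m, φ m ∈ D ∧ ∀ g ∈ D, F m g ≤ F m (φ m)) →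
    (∀ m, ∀ b : ℝ, ‖f m - a m • φ m‖ ≤ ‖f m - b • φ m‖) →
    (∀ m, f (m + 1) = f m - a m • φ m) →
    Filter.Tendsto f Filter.atTop (nhds 0)) := by
  intro hall
  have Npos : ∀ v : H, v ≠ 0 → 0 < NN w v := fun v hv => by
    have := norm_le_NN w hw v
    have h2 := norm_pos_iff.mpr hv
    linarith
  set Φ : ℕ → H := fun n => f n - f (n + 1) with hΦ
  let T := toXL w hw
  let D : Set (XX w hw) := {g | ∃ v ∈ S, g = T ((NN w v)⁻¹ • v) ∨ g = -T ((NN w v)⁻¹ • v)}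
  let F : ℕ → XX w hw →L[ℝ] ℝ := fun n =>
    (innerSL ℝ ((s n)⁻¹ • ξ n)).comp (T.symm : XX w hw →L[ℝ] H)
  have hF : ∀ n x, F n (T x) = (s n)⁻¹ * ⟪ξ n, x⟫ := by
    intro n x
    simp [F, real_inner_smul_left]
  have hTn : ∀ x, ‖T x‖ = NN w x := fun x => rfl
  have hFle : ∀ n x, F n (T x) ≤ ‖T x‖ := by
    intro n x
    rw [hF, hTn, inv_mul_le_iff₀ (hs n)]
    exact scale_le w (hs n) (ha n) x
  have hFf : ∀ n, F n (T (f n)) = ‖T (f n)‖ := by
    intro n
    apply le_antisymm (hFle n _)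
    rw [hF, hTn]
    apply NN_le
    intro ζ hζ
    rw [le_inv_mul_iff₀ (hs n)]
    exact hb n ζ hζ
  have hf0 : ∀ n, f n ≠ 0 := fun n h => by
    have := hf n
    rw [h, norm_zero] at this; linarith
  have hFn : ∀ n, ‖F n‖ = 1 := by
    intro n
    apply le_antisymm
    · apply ContinuousLinearMap.opNorm_le_bound _ zero_le_one
      intro x
      obtain ⟨y, rfl⟩ := T.surjective x
      rw [one_mul, Real.norm_eq_abs, abs_le]
      refine ⟨?_, hFle n y⟩
      have := hFle n (-y)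
      rw [map_neg, map_neg, norm_neg] at this
      linarith
    · have h1 := (F n).le_opNorm (T (f n))
      rw [hFf, norm_norm] at h1
      have h2 : 0 < ‖T (f n)‖ := by rw [hTn]; exact Npos _ (hf0 n)
      nlinarith
  have hstep : ∀ m, T (f (m + 1)) = T (f m) - NN w (Φ m) • T ((NN w (Φ m))⁻¹ • Φ m) := by
    intro m
    have := Npos _ (hS0 _ (hS1 m))
    rw [← map_smul, smul_smul, mul_inv_cancel₀ this.ne', one_smul, ← map_sub]
    simp [hΦ]
  have := hall (XX w hw) 2 2 (by norm_num) le_rfl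
    (by
      intro x y hx hy u hu
      obtain ⟨x, rfl⟩ := T.surjective x
      obtain ⟨y, rfl⟩ := T.surjective y
      rw [← map_smul, ← map_add, ← map_sub, hTn, hTn, Real.rpow_two]
      have := NN_smooth w hw x y hx hy u hu
      linarith)
    D
    (by
      rintro g ⟨v, hv, h | h⟩ <;>
      · have := Npos v (hS0 v hv)
        rw [h]
        try rw [norm_neg]
        rw [hTn, NN_smul, abs_of_pos (inv_pos.mpr this), inv_mul_cancel₀ this.ne'])
    (by
      rintro g ⟨v, hv, h | h⟩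
      · exact ⟨v, hv, Or.inr (by rw [h])⟩
      · exact ⟨v, hv, Or.inl (by rw [h, neg_neg])⟩)
    (by
      have h1 : Dense (T '' ((Submodule.span ℝ S : Submodule ℝ H) : Set H)) :=
        T.surjective.denseRange.dense_image T.continuous hSd
      refine h1.mono ?_
      rintro _ ⟨x, hx, rfl⟩
      refine Submodule.span_induction (p := fun x _ => T x ∈ Submodule.span ℝ D) ?_ ?_ ?_ ?_ hx
      · intro v hv
        have hp := Npos v (hS0 v hv)
        have : T v = NN w v • T ((NN w v)⁻¹ • v) := by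
          rw [← map_smul, smul_smul, mul_inv_cancel₀ hp.ne', one_smul]
        rw [this]
        exact Submodule.smul_mem _ _ (Submodule.subset_span ⟨v, hv, Or.inl rfl⟩)
      · rw [map_zero]; exact Submodule.zero_mem _
      · intro x y _ _ hx hy; rw [map_add]; exact Submodule.add_mem _ hx hy
      · intro a x _ hx; rw [map_smul]; exact Submodule.smul_mem _ _ hx)
    (fun n => T (f n)) F (fun n => T ((NN w (Φ n))⁻¹ • Φ n)) (fun n => NN w (Φ n))
    (fun n => ⟨hFn n, hFf n⟩)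
    (by
      intro n
      refine ⟨⟨Φ n, hS1 n, Or.inl rfl⟩, ?_⟩
      rintro g ⟨v, hv, h⟩
      have hp := Npos v (hS0 v hv)
      have hq := Npos _ (hS0 _ (hS1 n))
      have hg : F n g ≤ (s n)⁻¹ * ((NN w v)⁻¹ * |⟪ξ n, v⟫|) := by
        have hsi := inv_pos.mpr (hs n)
        have hpi := inv_pos.mpr hp
        rcases h with h | h
        · rw [h, hF, real_inner_smul_right]
          gcongr
          exact le_abs_self _
        · rw [h, map_neg, hF, real_inner_smul_right, ← mul_neg, ← mul_neg]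
          gcongr
          exact neg_le_abs _
      refine hg.trans ?_
      rw [hF, real_inner_smul_right]
      apply mul_le_mul_of_nonneg_left _ (inv_pos.mpr (hs n)).le
      rcases hS3 n v hv with h' | h'
      · rw [h', abs_of_nonneg (hS2 n)]
      · have a1 := norm_le_NN w hw v
        have a2 := NN_le_norm w (Φ n)
        have a3 := hS2 n
        rw [inv_mul_eq_div, inv_mul_eq_div, div_le_div_iff₀ hp hq]
        have a4 : 0 ≤ |⟪ξ n, v⟫| := abs_nonneg _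
        have a5 : |⟪ξ n, v⟫| * NN w (Φ n) ≤ |⟪ξ n, v⟫| * ‖Φ n‖ := by gcongr
        have a6 : ⟪ξ n, Φ n⟫ * ‖v‖ ≤ ⟪ξ n, Φ n⟫ * (2 * NN w v) :=
          mul_le_mul_of_nonneg_left a1 a3
        simp only [hΦ] at a5 a6 ⊢
        linarith)
    (by
      intro m b
      rw [← hstep, ← hFf]
      have h1 : T (f m) - b • T ((NN w (Φ m))⁻¹ • Φ m)
          = T (f m - b • (NN w (Φ m))⁻¹ • Φ m) := by rw [map_sub, map_smul T b]
      rw [h1]
      refine le_trans (le_of_eq ?_) (hFle (m + 1) _)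
      rw [hF, hF, inner_sub_right, real_inner_smul_right, real_inner_smul_right]
      have h2 := hc m
      have h3 : ⟪ξ (m + 1), Φ m⟫ = 0 := h2
      rw [inner_sub_right] at h2
      rw [h3]
      congr 1
      linarith)
    hstep
  have h2 : Tendsto (fun n => ‖T (f n)‖) atTop (𝓝 0) := by
    simpa using this.norm
  have h3 : ∀ n, c / 2 ≤ ‖T (f n)‖ := fun n => by
    rw [hTn]; linarith [norm_le_NN w hw (f n), hf n]
  have := ge_of_tendsto' h2 h3
  linarith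

end Pool.Agent.H2.DGA
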