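import Mathlib

set_option autoImplicit false

namespace Pool.Agent.H2.DGA

/-- the Gram quantity -/
noncomputable def PP (g : ℕ → ℕ → ℝ) (n k : ℕ) : ℝ :=
  (2 + 10 ^ 6 / (k : ℝ)) * g n k + 10 ^ 12 / ((max n k : ℕ) : ℝ)
    + (1 + 10 ^ 6 / (k : ℝ)) * (if k ≤ n then 10 ^ 6 / (n : ℝ) else 0)

/-- hypotheses on the Gram matrix of the moving unit vector -/
structure Good (g : ℕ → ℕ → ℝ) : Prop where
  g1 : ∀ n k, |g n k| ≤ 1
  g2 : ∀ n, g n n = 1
  g3 : ∀ n k : ℕ, 1 ≤ k → |g n k - g n (k + 1)| ≤ 7 / (k : ℝ)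
  g4 : ∀ n k : ℕ, 1 ≤ k → 4 * k ≤ n → g n k = 0
  g5 : ∀ n : ℕ, 1 ≤ n → 1 - g (n + 1) n ≤ 25 / (n : ℝ) ^ 2

/-- scale factors -/
noncomputable def rho (c : ℕ) (g : ℕ → ℕ → ℝ) : ℕ → ℝ
  | 0 => 1
  | m + 1 => rho c g m * (PP g (m + c + 1) (m + c)
      / PP g (m + c + 1) (m + c + 1))

variable {g : ℕ → ℕ → ℝ} {c : ℕ}

lemma hsmall {k : ℕ} (hk : 10 ^ 12 ≤ k) : (10 : ℝ) ^ 12 ≤ k := by exact_mod_cast hk

lemma PP_diag (hg : Good g) (n : ℕ) :
    PP g n n = 1 + 10 ^ 12 / (n : ℝ) + (1 + 10 ^ 6 / (n : ℝ)) ^ 2 := by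
  simp only [PP, hg.g2, max_self, le_refl, if_true]; ring

lemma PP_diag_ge (hg : Good g) (n : ℕ) : 2 ≤ PP g n n := by
  rw [PP_diag hg]
  have h1 : (0 : ℝ) ≤ 10 ^ 6 / (n : ℝ) := by positivity
  have h2 : (0 : ℝ) ≤ 10 ^ 12 / (n : ℝ) := by positivity
  nlinarith

lemma hdiff {x : ℝ} (hx : 1 ≤ x) (c : ℝ) (hc : 0 ≤ c) :
    0 ≤ c / x - c / (x + 1) ∧ c / x - c / (x + 1) ≤ c / x ^ 2 := by
  have : c / x - c / (x + 1) = c / (x * (x + 1)) := by field_simp; ring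
  rw [this]
  refine ⟨by positivity, ?_⟩
  apply div_le_div_of_nonneg_left hc (by positivity)
  nlinarith

lemma ratio_bound (hg : Good g) {n : ℕ} (hn : 10 ^ 12 ≤ n) :
    |PP g (n + 1) n / PP g (n + 1) (n + 1) - 1| ≤ 2 * 10 ^ 6 / (n : ℝ) ^ 2 := by
  have hx := hsmall hn
  have h2 := PP_diag_ge hg (n + 1)
  have e1 : PP g (n + 1) n - PP g (n + 1) (n + 1)
      = (2 + 10 ^ 6 / (n : ℝ)) * (g (n + 1) n - 1)
        + (10 ^ 6 / (n : ℝ) - 10 ^ 6 / ((n : ℝ) + 1)) * (1 + 10 ^ 6 / ((n : ℝ) + 1)) := by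
    rw [PP_diag hg]
    simp only [PP, Nat.le_succ, if_true, max_eq_left (Nat.le_succ n)]
    push_cast
    ring
  have a1 : (10 : ℝ) ^ 6 / n ≤ 1 := by rw [div_le_one (by linarith)]; linarith
  have a2 : (10 : ℝ) ^ 6 / (n + 1) ≤ 1 := by rw [div_le_one (by linarith)]; linarith
  have a3 : (0 : ℝ) ≤ 10 ^ 6 / n := by positivity
  have a4 : (0 : ℝ) ≤ 10 ^ 6 / (n + 1) := by positivity
  obtain ⟨a5, a6⟩ := hdiff (x := n) (by linarith) (10 ^ 6) (by norm_num)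
  have a7 := hg.g5 n (by omega)
  have a8 := (abs_le.mp (hg.g1 (n + 1) n)).2
  have a9 : (25 : ℝ) / (n : ℝ) ^ 2 = 25 * (1 / (n : ℝ) ^ 2) := by ring
  have a10 : (10 : ℝ) ^ 6 / (n : ℝ) ^ 2 = 10 ^ 6 * (1 / (n : ℝ) ^ 2) := by ring
  have a11 : 2 * (10 : ℝ) ^ 6 / (n : ℝ) ^ 2 = 2 * 10 ^ 6 * (1 / (n : ℝ) ^ 2) := by ring
  have a12 : (0 : ℝ) ≤ 1 / (n : ℝ) ^ 2 := by positivity
  rw [a9] at a7; rw [a10] at a6; rw [a11]
  have e2 : |PP g (n + 1) n - PP g (n + 1) (n + 1)| ≤ 2 * 10 ^ 6 * (1 / (n : ℝ) ^ 2) * 2 := by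
    rw [e1, abs_le]
    constructor <;> nlinarith
  rw [div_sub_one (by linarith), abs_div, abs_of_pos (by linarith : 0 < PP g (n + 1) (n + 1)),
    div_le_iff₀ (by linarith)]
  refine e2.trans ?_
  gcongr

lemma rho_bound (hc : 10 ^ 12 ≤ c) (hg : Good g) (m : ℕ) :
    |rho c g m - 1| ≤ 1 / 2 - 8 * 10 ^ 6 / ((m + c : ℕ) : ℝ) := by
  induction m with
  | zero =>
    have := hsmall hc
    simp only [rho, sub_self, abs_zero, zero_add, sub_nonneg]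
    rw [div_le_iff₀ (by linarith)]; linarith
  | succ m ih =>
    have hn : 10 ^ 12 ≤ m + c := by omega
    have hr := ratio_bound hg hn
    have hx := hsmall hn
    rw [rho]
    set r := PP g (m + c + 1) (m + c) / PP g (m + c + 1) (m + c + 1)
    have e : ((m + 1 + c : ℕ) : ℝ) = ((m + c : ℕ) : ℝ) + 1 := by push_cast; ring
    rw [e]
    set x : ℝ := ((m + c : ℕ) : ℝ)
    have h0 : 0 ≤ 8 * 10 ^ 6 / x := by positivity
    have h1 : |rho c g m| ≤ 2 := by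
      have := abs_le.mp ih
      rw [abs_le]; constructor <;> linarith
    have h2 : rho c g m * r - 1 = (rho c g m - 1) + rho c g m * (r - 1) := by ring
    have h3 : |rho c g m * (r - 1)| ≤ 2 * (2 * 10 ^ 6 / x ^ 2) := by
      rw [abs_mul]; gcongr
    have h4 : 2 * (2 * 10 ^ 6 / x ^ 2) ≤ 8 * 10 ^ 6 / x - 8 * 10 ^ 6 / (x + 1) := by
      have : 8 * 10 ^ 6 / x - 8 * 10 ^ 6 / (x + 1) = 8 * 10 ^ 6 / (x * (x + 1)) := by
        field_simp; ring
      rw [this, ← mul_div_assoc, div_le_div_iff₀ (by positivity) (by positivity)]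
      nlinarith
    rw [h2]
    have := abs_add_le (rho c g m - 1) (rho c g m * (r - 1))
    linarith

lemma rho_bd (hc : 10 ^ 12 ≤ c) (hg : Good g) (m : ℕ) : 1 / 2 ≤ rho c g m ∧ rho c g m ≤ 2 := by
  have := abs_le.mp (rho_bound hc hg m)
  have h0 : (0 : ℝ) ≤ 8 * 10 ^ 6 / ((m + c : ℕ) : ℝ) := by positivity
  constructor <;> linarith

lemma rho_diff (hc : 10 ^ 12 ≤ c) (hg : Good g) (m : ℕ) :
    |rho c g m - rho c g (m + 1)| ≤ 4 * 10 ^ 6 / ((m + c : ℕ) : ℝ) ^ 2 := by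
  have hn : 10 ^ 12 ≤ m + c := by omega
  have hr := ratio_bound hg hn
  have hb := rho_bd hc hg m
  rw [rho]
  set r := PP g (m + c + 1) (m + c) / PP g (m + c + 1) (m + c + 1)
  have : rho c g m - rho c g m * r = -(rho c g m * (r - 1)) := by ring
  rw [this, abs_neg, abs_mul, abs_of_pos (by linarith : 0 < rho c g m)]
  calc _ ≤ 2 * (2 * 10 ^ 6 / ((m + c : ℕ) : ℝ) ^ 2) := by gcongr; exact hb.2
    _ = _ := by ring

lemma rho_succ (hg : Good g) (m : ℕ) :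
    rho c g m * PP g (m + c + 1) (m + c)
      = rho c g (m + 1) * PP g (m + c + 1) (m + c + 1) := by
  have := PP_diag_ge hg (m + c + 1)
  rw [rho]
  field_simp

lemma term1 (hg : Good g) {n k : ℕ} (hn : 10 ^ 12 ≤ n) (hk : 10 ^ 12 ≤ k) :
    4 * 10 ^ 6 / (k : ℝ) ^ 2 * |PP g n (k + 1)| ≤ 1 / (n : ℝ) := by
  have hx := hsmall hn
  have hy := hsmall hk
  have a1 : (10 : ℝ) ^ 6 / ((k + 1 : ℕ) : ℝ) ≤ 1 := by
    push_cast; rw [div_le_one (by linarith)]; linarith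
  have a2 : (0 : ℝ) ≤ 10 ^ 6 / ((k + 1 : ℕ) : ℝ) := by positivity
  have a3 : (10 : ℝ) ^ 12 / ((max n (k + 1) : ℕ) : ℝ) ≤ 10 ^ 12 / (n : ℝ) := by
    apply div_le_div_of_nonneg_left (by norm_num) (by linarith)
    exact_mod_cast le_max_left _ _
  have a4 : (0 : ℝ) ≤ 10 ^ 12 / ((max n (k + 1) : ℕ) : ℝ) := by positivity
  have a5 : (0 : ℝ) ≤ (if k + 1 ≤ n then 10 ^ 6 / (n : ℝ) else 0) := by
    split_ifs <;> positivity
  have a6 : (if k + 1 ≤ n then 10 ^ 6 / (n : ℝ) else 0) ≤ 10 ^ 6 / (n : ℝ) := by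
    split_ifs
    · exact le_rfl
    · positivity
  have a7 : (10 : ℝ) ^ 6 / (n : ℝ) = 10 ^ 6 * (1 / n) := by ring
  have a8 : (10 : ℝ) ^ 12 / (n : ℝ) = 10 ^ 12 * (1 / n) := by ring
  have a9 : (0 : ℝ) < 1 / n := by positivity
  have a10 : (10 : ℝ) ^ 12 * (1 / n) ≤ 1 := by
    rw [← a8, div_le_one (by linarith)]; linarith
  have a11 : (1 + 10 ^ 6 / ((k + 1 : ℕ) : ℝ)) * (if k + 1 ≤ n then 10 ^ 6 / (n : ℝ) else 0)
      ≤ 2 * (10 ^ 6 * (1 / n)) := by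
    rw [← a7]; gcongr; linarith
  rw [a8] at a3
  by_cases h : 4 * (k + 1) ≤ n
  · have e : |PP g n (k + 1)| ≤ 2 * 10 ^ 12 * (1 / n) := by
      rw [PP, hg.g4 n (k + 1) (by omega) h, abs_le]
      constructor <;> nlinarith
    have e2 : 4 * 10 ^ 6 / (k : ℝ) ^ 2 * (2 * 10 ^ 12) ≤ 1 := by
      rw [div_mul_eq_mul_div, div_le_one (by positivity)]; nlinarith
    calc _ ≤ 4 * 10 ^ 6 / (k : ℝ) ^ 2 * (2 * 10 ^ 12 * (1 / n)) := by gcongr
      _ = 4 * 10 ^ 6 / (k : ℝ) ^ 2 * (2 * 10 ^ 12) * (1 / n) := by ring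
      _ ≤ 1 * (1 / n) := by gcongr
      _ = _ := by ring
  · have e : |PP g n (k + 1)| ≤ 6 := by
      have := abs_le.mp (hg.g1 n (k + 1))
      rw [PP, abs_le]
      constructor <;> nlinarith
    have h' : (n : ℝ) ≤ 8 * k := by
      have : n ≤ 8 * k := by omega
      exact_mod_cast this
    calc _ ≤ 4 * 10 ^ 6 / (k : ℝ) ^ 2 * 6 := by gcongr
      _ ≤ _ := by
        rw [div_mul_eq_mul_div, div_le_div_iff₀ (by positivity) (by positivity)]
        nlinarith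

lemma term2 (hg : Good g) {n k : ℕ} (hn : 10 ^ 12 ≤ n) (hk : 10 ^ 12 ≤ k) :
    |(2 + 10 ^ 6 / (k : ℝ)) * g n k - (2 + 10 ^ 6 / ((k : ℝ) + 1)) * g n (k + 1)|
      ≤ 176 / (n : ℝ) := by
  have hx := hsmall hn
  have hy := hsmall hk
  by_cases h : 4 * (k + 1) ≤ n
  · rw [hg.g4 n (k + 1) (by omega) h, hg.g4 n k (by omega) (by omega)]
    simp only [mul_zero, sub_zero, abs_zero]; positivity
  · have h' : (n : ℝ) ≤ 8 * k := by
      have : n ≤ 8 * k := by omega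
      exact_mod_cast this
    obtain ⟨a5, a6⟩ := hdiff (x := k) (by linarith) (10 ^ 6) (by norm_num)
    have a1 : (10 : ℝ) ^ 6 / k ≤ 1 := by rw [div_le_one (by linarith)]; linarith
    have a2 : (0 : ℝ) ≤ 10 ^ 6 / k := by positivity
    have a3 : (10 : ℝ) ^ 6 / (k : ℝ) ^ 2 ≤ 1 / k := by
      rw [div_le_div_iff₀ (by positivity) (by positivity)]; nlinarith
    have a4 : (22 : ℝ) * (1 / k) ≤ 176 / n := by
      rw [mul_one_div, div_le_div_iff₀ (by positivity) (by positivity)]; nlinarith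
    have b1 := abs_le.mp (hg.g3 n k (by omega))
    have b2 := abs_le.mp (hg.g1 n (k + 1))
    have b3 : (7 : ℝ) / k = 7 * (1 / k) := by ring
    have b4 : (0 : ℝ) < 1 / k := by positivity
    rw [b3] at b1
    have e : (2 + 10 ^ 6 / (k : ℝ)) * g n k - (2 + 10 ^ 6 / ((k : ℝ) + 1)) * g n (k + 1)
        = (2 + 10 ^ 6 / (k : ℝ)) * (g n k - g n (k + 1))
          + (10 ^ 6 / (k : ℝ) - 10 ^ 6 / ((k : ℝ) + 1)) * g n (k + 1) := by ring
    rw [e, abs_le]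
    constructor <;> nlinarith

lemma dP (hg : Good g) {n k : ℕ} (hn : 10 ^ 12 ≤ n) (hk : 10 ^ 12 ≤ k) :
    (k ≠ n → |PP g n k - PP g n (k + 1)| ≤ 178 / (n : ℝ)) ∧
    (k = n → (10 ^ 6 - 176) / (n : ℝ) ≤ PP g n k - PP g n (k + 1)) := by
  have hx := hsmall hn
  have hy := hsmall hk
  have t2 := abs_le.mp (term2 hg hn hk)
  have a7 : (176 : ℝ) / (n : ℝ) = 176 * (1 / n) := by ring
  have a8 : (178 : ℝ) / (n : ℝ) = 178 * (1 / n) := by ring
  have a9 : (0 : ℝ) < 1 / n := by positivity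
  rw [a7] at t2
  obtain ⟨a5, a6⟩ := hdiff (x := k) (by linarith) (10 ^ 6) (by norm_num)
  obtain ⟨b5, b6⟩ := hdiff (x := k) (by linarith) (10 ^ 12) (by norm_num)
  rcases lt_trichotomy k n with h | h | h
  · refine ⟨fun _ => ?_, fun h' => absurd h' h.ne⟩
    have c1 : (10 : ℝ) ^ 6 * (10 ^ 6 / (k : ℝ) ^ 2) ≤ 1 := by
      rw [← mul_div_assoc, div_le_one (by positivity)]; nlinarith
    have e : PP g n k - PP g n (k + 1)
        = ((2 + 10 ^ 6 / (k : ℝ)) * g n k - (2 + 10 ^ 6 / ((k : ℝ) + 1)) * g n (k + 1))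
          + 10 ^ 6 * (10 ^ 6 / (k : ℝ) - 10 ^ 6 / ((k : ℝ) + 1)) * (1 / n) := by
      simp only [PP, max_eq_left h.le, max_eq_left (Nat.succ_le_of_lt h), h.le,
        Nat.succ_le_of_lt h, if_true]
      push_cast; ring
    rw [e, a8, abs_le]
    constructor <;> nlinarith
  · refine ⟨fun h' => absurd h h', fun _ => ?_⟩
    subst h
    have e : PP g k k - PP g k (k + 1)
        = ((2 + 10 ^ 6 / (k : ℝ)) * g k k - (2 + 10 ^ 6 / ((k : ℝ) + 1)) * g k (k + 1))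
          + (10 ^ 12 / (k : ℝ) - 10 ^ 12 / ((k : ℝ) + 1))
          + (1 + 10 ^ 6 / (k : ℝ)) * (10 ^ 6 * (1 / k)) := by
      simp only [PP, max_self, max_eq_right (Nat.le_succ k), le_refl, if_true,
        Nat.not_succ_le_self, if_false]
      push_cast; ring
    have c1 : (0 : ℝ) ≤ 10 ^ 6 / k := by positivity
    have c2 : ((10 : ℝ) ^ 6 - 176) / k = (10 ^ 6 - 176) * (1 / k) := by ring
    rw [e, c2]
    nlinarith
  · refine ⟨fun _ => ?_, fun h' => absurd h' h.ne'⟩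
    have hnk : (n : ℝ) ≤ k := by exact_mod_cast h.le
    have c1 : (10 : ℝ) ^ 12 / (k : ℝ) ^ 2 ≤ 1 / n := by
      rw [div_le_div_iff₀ (by positivity) (by positivity)]; nlinarith
    have e : PP g n k - PP g n (k + 1)
        = ((2 + 10 ^ 6 / (k : ℝ)) * g n k - (2 + 10 ^ 6 / ((k : ℝ) + 1)) * g n (k + 1))
          + (10 ^ 12 / (k : ℝ) - 10 ^ 12 / ((k : ℝ) + 1)) := by
      simp only [PP, max_eq_right h.le, max_eq_right (h.le.trans (Nat.le_succ k)), not_le.mpr h,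
        not_le.mpr (h.trans (Nat.lt_succ_self k)), if_false]
      push_cast; ring
    rw [e, a8, abs_le]
    constructor <;> nlinarith

lemma QQ (hc : 10 ^ 12 ≤ c) (hg : Good g) (m l : ℕ) :
    (l ≠ m → |rho c g l * PP g (m + c) (l + c)
      - rho c g (l + 1) * PP g (m + c) (l + c + 1)| ≤ 400 / ((m + c : ℕ) : ℝ)) ∧
    (l = m → 400000 / ((m + c : ℕ) : ℝ) ≤ rho c g l * PP g (m + c) (l + c)
      - rho c g (l + 1) * PP g (m + c) (l + c + 1)) := by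
  have hn : 10 ^ 12 ≤ m + c := by omega
  have hk : 10 ^ 12 ≤ l + c := by omega
  obtain ⟨d1, d2⟩ := dP hg hn hk
  have t1 := term1 hg hn hk
  have r1 := rho_diff hc hg l
  have r2 := rho_bd hc hg l
  have hx := hsmall hn
  set x : ℝ := ((m + c : ℕ) : ℝ)
  set A := PP g (m + c) (l + c)
  set B := PP g (m + c) (l + c + 1)
  have e : rho c g l * A - rho c g (l + 1) * B = rho c g l * (A - B) + (rho c g l - rho c g (l + 1)) * B := by
    ring
  have t : |(rho c g l - rho c g (l + 1)) * B| ≤ 1 / x := by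
    rw [abs_mul]
    refine le_trans ?_ t1
    gcongr
  have t' := abs_le.mp t
  have a9 : (0 : ℝ) < 1 / x := by positivity
  rw [e]
  constructor
  · intro h
    have d := abs_le.mp (d1 (by omega))
    have c1 : (178 : ℝ) / x = 178 * (1 / x) := by ring
    have c2 : (400 : ℝ) / x = 400 * (1 / x) := by ring
    rw [c1] at d; rw [c2, abs_le]
    constructor <;> nlinarith
  · intro h
    have d := d2 (by omega)
    have c1 : ((10 : ℝ) ^ 6 - 176) / x = (10 ^ 6 - 176) * (1 / x) := by ring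
    have c2 : (400000 : ℝ) / x = 400000 * (1 / x) := by ring
    rw [c1] at d; rw [c2]
    nlinarith

end Pool.Agent.H2.DGA
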