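import Pool.Agent.H2.DGA1
import Pool.Agent.H2.DGA2

set_option autoImplicit false

namespace Pool.Agent.H2.DGA

open scoped RealInnerProductSpace
open Real

variable {H : Type} [NormedAddCommGroup H] [InnerProductSpace ℝ H] (b : Option (ℕ ⊕ ℕ) → H)

/-- angle -/
noncomputable def th (j n : ℕ) : ℝ := π / 2 * ((n : ℝ) / 2 ^ j - 1)

/-- rotating vector -/
noncomputable def GG' (j n : ℕ) : H :=
  cos (th j n) • b (some (.inl j)) + sin (th j n) • b (some (.inl (j + 1)))

/-- moving unit vector -/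
noncomputable def GG (n : ℕ) : H := GG' b (Nat.log 2 n) n

/-- flat part -/
noncomputable def EE (n : ℕ) : H := ∑ k ∈ Finset.Ioc 0 n, b (some (.inr k))

/-- norming functionals -/
noncomputable def xi (n : ℕ) : H := GG b n + ((10 : ℝ) ^ 6 / n) • EE b n

/-- constraint vectors -/
noncomputable def ww (k : ℕ) : H := b (some (.inr k)) + GG b k

/-- directions of the residuals -/
noncomputable def VV (n : ℕ) : H := xi b n + (1 + (10 : ℝ) ^ 6 / n) • ww b n

variable {b} (hb : Orthonormal ℝ b)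
include hb

lemma ib (i j : Option (ℕ ⊕ ℕ)) : ⟪b i, b j⟫ = if i = j then 1 else 0 :=
  orthonormal_iff_ite.mp hb i j

lemma GG'_self (j n : ℕ) : ⟪GG' b j n, GG' b j n⟫ = 1 := by
  simp only [GG', inner_add_left, inner_add_right, real_inner_smul_left, real_inner_smul_right,
    ib hb]
  simp
  nlinarith [cos_sq_add_sin_sq (th j n)]

lemma GG_self (n : ℕ) : ⟪GG b n, GG b n⟫ = 1 := GG'_self hb _ _

lemma GG_norm (n : ℕ) : ‖GG b n‖ = 1 := by
  have := GG_self hb n
  rw [real_inner_self_eq_norm_sq] at this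
  nlinarith [norm_nonneg (GG b n)]

omit hb in
lemma GG_succ (n : ℕ) (hn : 1 ≤ n) : GG b (n + 1) = GG' b (Nat.log 2 n) (n + 1) := by
  by_cases h : Nat.log 2 (n + 1) = Nat.log 2 n
  · rw [GG, h]
  · have h1 : n < 2 ^ (Nat.log 2 n + 1) := Nat.lt_pow_succ_log_self (by norm_num) n
    have h2 : n + 1 = 2 ^ (Nat.log 2 n + 1) := by
      by_contra h3
      apply h
      apply Nat.log_eq_of_pow_le_of_lt_pow
      · exact (Nat.pow_log_le_self 2 (by omega)).trans (Nat.le_succ n)
      · omega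
    have h3 : Nat.log 2 (n + 1) = Nat.log 2 n + 1 := by rw [h2, Nat.log_pow (by norm_num)]
    have h4 : ((n + 1 : ℕ) : ℝ) = 2 ^ (Nat.log 2 n + 1) := by exact_mod_cast h2
    have t1 : th (Nat.log 2 n + 1) (n + 1) = 0 := by
      rw [th, h4, div_self (by positivity)]; ring
    have t2 : th (Nat.log 2 n) (n + 1) = π / 2 := by
      rw [th, h4, pow_succ]; field_simp; ring
    rw [GG, h3, GG', GG', t1, t2]
    simp

lemma GG_diff (n : ℕ) (hn : 1 ≤ n) : ‖GG b n - GG b (n + 1)‖ ≤ 7 / (n : ℝ) := by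
  rw [GG_succ n hn, GG]
  set j := Nat.log 2 n
  have h1 : n < 2 ^ (j + 1) := Nat.lt_pow_succ_log_self (by norm_num) n
  have h2 : (n : ℝ) ≤ 2 ^ (j + 1) := by exact_mod_cast h1.le
  have h3 : (1 : ℝ) ≤ n := by exact_mod_cast hn
  have e : GG' b j n - GG' b j (n + 1)
      = (cos (th j n) - cos (th j (n + 1))) • b (some (.inl j))
        + (sin (th j n) - sin (th j (n + 1))) • b (some (.inl (j + 1))) := by
    simp only [GG', sub_smul]; abel
  have d : |th j n - th j (n + 1)| = π / 2 / 2 ^ j := by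
    have : th j n - th j (n + 1) = -(π / 2 / 2 ^ j) := by
      simp only [th]; push_cast; ring
    rw [this, abs_neg, abs_of_pos (by positivity)]
  have c1 := abs_cos_sub_cos_le (th j n) (th j (n + 1))
  have c2 := abs_sin_sub_sin_le (th j n) (th j (n + 1))
  rw [d] at c1 c2
  rw [e]
  refine (norm_add_le _ _).trans ?_
  rw [norm_smul, norm_smul, hb.1, hb.1, mul_one, mul_one, norm_eq_abs, norm_eq_abs]
  have c3 : π / 2 / 2 ^ j + π / 2 / 2 ^ j ≤ 7 / (n : ℝ) := by
    rw [← add_div, div_le_div_iff₀ (by positivity) (by positivity)]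
    rw [pow_succ] at h2
    have := pi_lt_d2
    have h4 : (0 : ℝ) < 2 ^ j := by positivity
    nlinarith [pi_pos]
  linarith

lemma good : Good (fun n k => ⟪GG b n, GG b k⟫) where
  g1 n k := by
    have := abs_real_inner_le_norm (GG b n) (GG b k)
    rwa [GG_norm hb, GG_norm hb, mul_one] at this
  g2 n := GG_self hb n
  g3 n k hk := by
    rw [← inner_sub_right]
    have := abs_real_inner_le_norm (GG b n) (GG b k - GG b (k + 1))
    rw [GG_norm hb, one_mul] at this
    exact this.trans (GG_diff hb k hk)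
  g4 n k hk h := by
    have h1 : Nat.log 2 k + 2 ≤ Nat.log 2 n := by
      have : Nat.log 2 (k * 2 * 2) ≤ Nat.log 2 n := Nat.log_mono_right (by omega)
      rw [Nat.log_mul_base (by norm_num) (by omega), Nat.log_mul_base (by norm_num) (by omega)]
        at this
      exact this
    simp only [GG, GG', inner_add_left, inner_add_right, real_inner_smul_left,
      real_inner_smul_right, ib hb, Option.some.injEq, Sum.inl.injEq]
    rw [if_neg (by omega), if_neg (by omega), if_neg (by omega), if_neg (by omega)]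
    simp
  g5 n hn := by
    have h1 := GG_diff hb n hn
    have h2 := norm_sub_sq_real (GG b n) (GG b (n + 1))
    rw [GG_norm hb, GG_norm hb] at h2
    have h3 : ‖GG b n - GG b (n + 1)‖ ^ 2 ≤ (7 / (n : ℝ)) ^ 2 := by gcongr
    rw [real_inner_comm]
    have h4 : (7 / (n : ℝ)) ^ 2 = 49 * (1 / (n : ℝ) ^ 2) := by ring
    have h5 : 25 / (n : ℝ) ^ 2 = 25 * (1 / (n : ℝ) ^ 2) := by ring
    have h6 : (0 : ℝ) ≤ 1 / (n : ℝ) ^ 2 := by positivity
    rw [h5]; linarith

lemma e_GG (k n : ℕ) : ⟪b (some (.inr k)), GG b n⟫ = 0 := by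
  simp [GG, GG', inner_add_right, real_inner_smul_right, ib hb]

lemma GG_e (k n : ℕ) : ⟪GG b n, b (some (.inr k))⟫ = 0 := by
  rw [real_inner_comm]; exact e_GG hb k n

lemma e_EE (k n : ℕ) : ⟪b (some (.inr k)), EE b n⟫ = if 0 < k ∧ k ≤ n then 1 else 0 := by
  simp [EE, inner_sum, ib hb]

lemma GG_EE (k n : ℕ) : ⟪GG b k, EE b n⟫ = 0 := by
  simp [EE, inner_sum, GG_e hb]

lemma EE_GG (k n : ℕ) : ⟪EE b n, GG b k⟫ = 0 := by
  rw [real_inner_comm]; exact GG_EE hb k n

lemma EE_EE (n l : ℕ) : ⟪EE b n, EE b l⟫ = (min n l : ℕ) := by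
  rw [EE, sum_inner]
  simp only [e_EE hb]
  rw [Finset.sum_boole]
  congr 1
  have : (Finset.Ioc 0 n).filter (fun k => 0 < k ∧ k ≤ l) = Finset.Ioc 0 (min n l) := by
    ext k; simp only [Finset.mem_filter, Finset.mem_Ioc, le_min_iff]; tauto
  rw [this]; simp

lemma xi_xi {n k : ℕ} (hn : 1 ≤ n) (hk : 1 ≤ k) :
    ⟪xi b n, xi b k⟫ = ⟪GG b n, GG b k⟫ + 10 ^ 12 / ((max n k : ℕ) : ℝ) := by
  simp only [xi, inner_add_left, inner_add_right, real_inner_smul_left, real_inner_smul_right,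
    GG_EE hb, EE_GG hb, EE_EE hb]
  have h1 : (0 : ℝ) < n := by exact_mod_cast hn
  have h2 : (0 : ℝ) < k := by exact_mod_cast hk
  rcases le_total n k with h | h
  · rw [min_eq_left h, max_eq_right h]; field_simp; ring
  · rw [min_eq_right h, max_eq_left h]; field_simp; ring

lemma e_xi (k n : ℕ) :
    ⟪b (some (.inr k)), xi b n⟫ = if 0 < k ∧ k ≤ n then (10 : ℝ) ^ 6 / n else 0 := by
  simp only [xi, inner_add_right, real_inner_smul_right, e_GG hb, e_EE hb]
  split_ifs <;> simp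

lemma ww_xi (k n : ℕ) :
    ⟪ww b k, xi b n⟫ = ⟪GG b k, GG b n⟫ + if 0 < k ∧ k ≤ n then (10 : ℝ) ^ 6 / n else 0 := by
  rw [ww, inner_add_left, e_xi hb, xi, inner_add_right, real_inner_smul_right, GG_EE hb]
  ring

lemma xi_VV {n k : ℕ} (hn : 1 ≤ n) (hk : 1 ≤ k) :
    ⟪xi b n, VV b k⟫ = PP (fun n k => ⟪GG b n, GG b k⟫) n k := by
  rw [VV, inner_add_right, real_inner_smul_right, xi_xi hb hn hk, real_inner_comm (ww b k),
    ww_xi hb, PP, real_inner_comm (GG b n) (GG b k)]
  simp only [show 0 < k from hk, true_and]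
  ring

lemma ww_norm (k : ℕ) : ‖ww b k‖ ^ 2 = 2 := by
  rw [← real_inner_self_eq_norm_sq]
  simp only [ww, inner_add_left, inner_add_right, e_GG hb, GG_e hb, GG_self hb, ib hb]
  norm_num

lemma xi_norm {n : ℕ} (hn : 1 ≤ n) : ‖xi b n‖ ^ 2 = 1 + 10 ^ 12 / (n : ℝ) := by
  rw [← real_inner_self_eq_norm_sq, xi_xi hb hn hn, GG_self hb, max_self]

lemma VV_norm {n : ℕ} (hn : 10 ^ 12 ≤ n) : ‖VV b n‖ ≤ 6 := by
  have hx := hsmall hn
  have h1 := xi_norm hb (n := n) (by omega)
  have h2 := ww_norm hb n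
  have a1 : (10 : ℝ) ^ 12 / n ≤ 1 := by rw [div_le_one (by linarith)]; linarith
  have a2 : (10 : ℝ) ^ 6 / n ≤ 1 := by rw [div_le_one (by linarith)]; linarith
  have a3 : (0 : ℝ) ≤ 10 ^ 6 / n := by positivity
  have b1 : ‖xi b n‖ ≤ 2 := by nlinarith [norm_nonneg (xi b n)]
  have b2 : ‖ww b n‖ ≤ 2 := by nlinarith [norm_nonneg (ww b n)]
  rw [VV]
  refine (norm_add_le _ _).trans ?_
  rw [norm_smul, norm_eq_abs, abs_of_pos (by positivity)]
  nlinarith [norm_nonneg (ww b n)]

lemma e_VV {n : ℕ} (hn : 1 ≤ n) : ⟪b (some (.inr n)), VV b n⟫ = 1 + 2 * (10 ^ 6 / (n : ℝ)) := by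
  simp only [VV, ww, inner_add_right, real_inner_smul_right, e_xi hb, e_GG hb, ib hb]
  simp only [show 0 < n from hn, le_refl, and_self, if_true]
  ring

lemma e_VV' {n : ℕ} (hn : 1 ≤ n) :
    ⟪b (some (.inr n)), VV b (n + 1)⟫ = 10 ^ 6 / ((n + 1 : ℕ) : ℝ) := by
  simp only [VV, ww, inner_add_right, real_inner_smul_right, e_xi hb, e_GG hb, ib hb]
  simp [show 0 < n from hn]

/-- weights of the extra dictionary elements -/
noncomputable def del : Option (ℕ ⊕ ℕ) → ℝ
  | none => 1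
  | some (.inl j) => 1 / 2 ^ (j + 1)
  | some (.inr _) => 1 / 10 ^ 6

omit hb in
lemma del_pos (i : Option (ℕ ⊕ ℕ)) : 0 < del i := by
  rcases i with _ | j | k <;> simp [del]

lemma xi_none (n : ℕ) : ⟪xi b n, b none⟫ = 0 := by
  simp [xi, GG, GG', EE, inner_add_left, real_inner_smul_left, sum_inner, ib hb]

lemma xi_d {n : ℕ} (hn : 1 ≤ n) (i : Option (ℕ ⊕ ℕ)) :
    |⟪xi b n, b none + del i • b i⟫| ≤ 1 / (n : ℝ) := by
  have h0 : (0 : ℝ) < n := by exact_mod_cast hn
  rw [inner_add_right, real_inner_smul_right, xi_none hb, zero_add]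
  rcases i with _ | j | k
  · rw [xi_none hb]; simp
  · have e : ⟪xi b n, b (some (.inl j))⟫ = ⟪GG b n, b (some (.inl j))⟫ := by
      simp [xi, EE, inner_add_left, real_inner_smul_left, sum_inner, ib hb]
    rw [e]
    by_cases h : j < Nat.log 2 n
    · have : ⟪GG b n, b (some (.inl j))⟫ = 0 := by
        simp only [GG, GG', inner_add_left, real_inner_smul_left, ib hb, Option.some.injEq,
          Sum.inl.injEq]
        rw [if_neg (by omega), if_neg (by omega)]; simp
      rw [this]; simp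
    · have h1 := abs_real_inner_le_norm (GG b n) (b (some (.inl j)))
      rw [GG_norm hb, hb.1, mul_one] at h1
      have h2 : n < 2 ^ (j + 1) :=
        (Nat.lt_pow_succ_log_self (by norm_num) n).trans_le
          (Nat.pow_le_pow_right (by norm_num) (by omega))
      have h3 : (n : ℝ) ≤ 2 ^ (j + 1) := by exact_mod_cast h2.le
      rw [abs_mul, abs_of_pos (del_pos _), del]
      calc _ ≤ 1 / 2 ^ (j + 1) * (1 : ℝ) := by gcongr
        _ ≤ 1 / n := by rw [mul_one]; gcongr
  · rw [real_inner_comm, e_xi hb, del]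
    split_ifs
    · rw [abs_of_pos (by positivity)]; apply le_of_eq; field_simp
    · simp

lemma d_norm (i : Option (ℕ ⊕ ℕ)) : 1 ≤ ‖b none + del i • b i‖ := by
  have h1 := real_inner_le_norm (b none) (b none + del i • b i)
  rw [hb.1, one_mul, inner_add_right, real_inner_smul_right, ib hb, ib hb] at h1
  have := del_pos i
  split_ifs at h1 with h2 h3 h3
  · linarith
  · linarith
  · exact absurd rfl h2
  · exact absurd rfl h2

end Pool.Agent.H2.DGA
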