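import Mathlib

set_option autoImplicit false

namespace Pool.Agent.H2.Dow

/-- independence in coefficient form -/
def Ind (F : Type) [Field F] {ι V : Type} [AddCommGroup V] [Module F V] (S : Finset ι)
    (v : ι → V) : Prop :=
  ∀ g : ι → F, ∑ s ∈ S, g s • v s = 0 → ∀ s ∈ S, g s = 0

lemma ind_iff (F : Type) [Field F] {ι V : Type} [AddCommGroup V] [Module F V] (S : Finset ι)
    (v : ι → V) : LinearIndependent F (fun x : S => v (x : ι)) ↔ Ind F S v :=
  linearIndepOn_finset_iff (s := S) (v := v)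

lemma contract (F : Type) [Field F] {ι : Type} [DecidableEq ι] {n : ℕ} (S : Finset ι) (x : ι)
    (hx : x ∉ S) (v : ι → Fin n → F) (d : Fin n → F) (i : Fin n) (hd : d i = 1) (c : F) (hc : c ≠ 0)
    (hv : v x = c • d) :
    Ind F (insert x S) v ↔ Ind F S (fun s => v s - v s i • d) := by
  constructor
  · intro h g hg s hs
    have h1 : ∑ s ∈ S, g s • v s = (∑ s ∈ S, g s * v s i) • d := by
      simp only [smul_sub, Finset.sum_sub_distrib, smul_smul] at hg
      rw [Finset.sum_smul]; exact sub_eq_zero.mp hg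
    have := h (Function.update g x (-(∑ s ∈ S, g s * v s i) / c)) (by
      rw [Finset.sum_insert hx, Function.update_self, hv, smul_smul, div_mul_cancel₀ _ hc,
        Finset.sum_congr rfl (g := fun s => g s • v s)
          (fun s hs => by rw [Function.update_of_ne (ne_of_mem_of_not_mem hs hx)]), h1, neg_smul,
        neg_add_cancel]) s (Finset.mem_insert_of_mem hs)
    rwa [Function.update_of_ne (ne_of_mem_of_not_mem hs hx)] at this
  · intro h g hg
    rw [Finset.sum_insert hx, hv, smul_smul] at hg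
    have h0 := congrFun hg i
    simp only [Pi.add_apply, Pi.smul_apply, hd, smul_eq_mul, mul_one, Finset.sum_apply,
      Pi.zero_apply] at h0
    have h1 : ∀ s ∈ S, g s = 0 := by
      apply h g
      simp only [smul_sub, Finset.sum_sub_distrib, smul_smul]
      rw [← Finset.sum_smul, eq_neg_of_add_eq_zero_right hg, eq_neg_of_add_eq_zero_right h0,
        neg_smul, sub_self]
    intro s hs
    rcases Finset.mem_insert.mp hs with rfl | hs
    · rw [Finset.sum_eq_zero (fun s hs => by rw [h1 s hs, zero_mul]), add_zero] at h0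
      exact (mul_eq_zero.mp h0).resolve_right hc
    · exact h1 s hs

lemma ind_zero (F : Type) [Field F] {ι V : Type} [DecidableEq ι] [AddCommGroup V] [Module F V]
    (S : Finset ι) (x : ι) (hx : x ∈ S) (v : ι → V) (hv : v x = 0) : ¬ Ind F S v := by
  intro h
  have := h (Pi.single x 1) (by
    rw [Finset.sum_eq_single x]
    · rw [hv, smul_zero]
    · intro s _ hs; rw [Pi.single_eq_of_ne hs, zero_smul]
    · intro h'; exact absurd hx h') x hx
  simp at this

/-- allowed scalars: products of `-1`, `2`, `3` -/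
def U (u : ℤ) : Prop := ∀ p : ℕ, p.Prime → 5 ≤ p → (u : ZMod p) ≠ 0

lemma U.mul {a b : ℤ} (ha : U a) (hb : U b) : U (a * b) := by
  intro p hp h5
  have := Fact.mk hp
  push_cast
  exact mul_ne_zero (ha p hp h5) (hb p hp h5)

lemma U_small {a : ℤ} (h0 : a ≠ 0) (h1 : -4 ≤ a) (h2 : a ≤ 4) : U a := by
  intro p hp h5 h
  rw [ZMod.intCast_zmod_eq_zero_iff_dvd] at h
  have := Int.le_of_dvd (abs_pos.mpr h0) ((dvd_abs _ _).mpr h)
  have h3 : |a| ≤ 4 := abs_le.mpr ⟨h1, h2⟩
  omega

/-- shape of an edge vector -/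
def Sh {k : ℕ} (i j : Fin (k + 1)) (a : ℤ) : Prop :=
  a = 0 ∨ (i ≠ 0 ∧ i ≠ j ∧ (a = 1 ∨ a = -1 ∨ (j = 0 ∧ (a = 2 ∨ a = -2))))

/-- edge vector -/
def ev {k : ℕ} (i j : Fin (k + 1)) (a : ℤ) : Fin (k + 1) → ℤ := Pi.single i 1 + a • Pi.single j 1

/-- good vectors -/
def Good {k : ℕ} (x : Fin (k + 1) → ℤ) : Prop :=
  x = 0 ∨ ∃ u i j a, U u ∧ Sh i j a ∧ x = u • ev i j a

lemma ev_self {k : ℕ} {i j : Fin (k + 1)} {a : ℤ} (h : Sh i j a) : ev i j a i = 1 := by
  rcases h with rfl | ⟨_, h, _⟩
  · simp [ev]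
  · simp [ev, h]

lemma good_single {k : ℕ} (j : Fin (k + 1)) (c : ℤ) (h1 : -4 ≤ c) (h2 : c ≤ 4) :
    Good (c • (Pi.single j 1 : Fin (k + 1) → ℤ)) := by
  by_cases h : c = 0
  · left; simp [h]
  · right; exact ⟨c, j, j, 0, U_small h h1 h2, Or.inl rfl, by simp [ev]⟩

lemma Good.smul {k : ℕ} {x : Fin (k + 1) → ℤ} (hx : Good x) {u : ℤ} (hu : U u) : Good (u • x) := by
  rcases hx with rfl | ⟨u', i, j, a, h1, h2, rfl⟩
  · left; simp
  · right; exact ⟨u * u', i, j, a, hu.mul h1, h2, by rw [smul_smul]⟩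

lemma good_two {k : ℕ} (i j : Fin (k + 1)) (a b : ℤ)
    (ha : a = 1 ∨ a = -1 ∨ (i = 0 ∧ (a = 2 ∨ a = -2)))
    (hb : b = 1 ∨ b = -1 ∨ (j = 0 ∧ (b = 2 ∨ b = -2))) :
    Good (a • (Pi.single i 1 : Fin (k + 1) → ℤ) + b • Pi.single j 1) := by
  by_cases hij : i = j
  · subst hij
    rw [← add_smul]
    apply good_single <;> omega
  by_cases hi : i = 0
  · have hj : j ≠ 0 := fun h => hij (hi.trans h.symm)
    have hb' : b = 1 ∨ b = -1 := by tauto
    right
    refine ⟨b, j, i, a * b, U_small (by omega) (by omega) (by omega),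
      Or.inr ⟨hj, Ne.symm hij, ?_⟩, ?_⟩
    · rcases hb' with rfl | rfl <;> simp only [hi, true_and] at ha ⊢ <;> omega
    · rcases hb' with rfl | rfl <;> simp [ev, add_comm]
  · have ha' : a = 1 ∨ a = -1 := by tauto
    right
    refine ⟨a, i, j, a * b, U_small (by omega) (by omega) (by omega), Or.inr ⟨hi, hij, ?_⟩, ?_⟩
    · rcases ha' with rfl | rfl
      · simpa using hb
      · rcases hb with h | h | ⟨h, h' | h'⟩ <;> simp [*]
    · rcases ha' with rfl | rfl <;> simp [ev, add_comm]

lemma good_ev {k : ℕ} {i j : Fin (k + 1)} {a : ℤ} (h : Sh i j a) : Good (ev i j a) :=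
  Or.inr ⟨1, i, j, a, U_small (by omega) (by omega) (by omega), h, by simp⟩

lemma good_contract {k : ℕ} {i j : Fin (k + 1)} {a : ℤ} (h : Sh i j a) {y : Fin (k + 1) → ℤ}
    (hy : Good y) : Good (y - y i • ev i j a) := by
  rcases hy with rfl | ⟨u, i', j', b, hu, h', rfl⟩
  · left; simp
  have e : u • ev i' j' b - (u • ev i' j' b) i • ev i j a
      = u • (ev i' j' b - ev i' j' b i • ev i j a) := by
    rw [smul_sub, smul_smul]; rfl
  rw [e]
  refine Good.smul ?_ hu
  by_cases h1 : i = i'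
  · subst h1
    rw [ev_self h', one_smul]
    have e2 : ev i j' b - ev i j a = b • Pi.single j' 1 + (-a) • Pi.single j 1 := by
      simp only [ev, neg_smul]; abel
    rw [e2]
    rcases h with rfl | ⟨_, _, ha⟩
    · simp only [neg_zero, zero_smul, add_zero]
      apply good_single <;> rcases h' with h' | ⟨_, _, h'⟩ <;> omega
    · rcases h' with rfl | ⟨_, _, hb⟩
      · simp only [zero_smul, zero_add]
        apply good_single <;> omega
      · apply good_two _ _ _ _ hb
        rcases ha with h | h | ⟨h, h' | h'⟩ <;> simp [*]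
  · rcases h' with rfl | ⟨hi', hij', hb⟩
    · have : ev i' j' 0 i = 0 := by simp [ev, h1]
      rw [this, zero_smul, sub_zero]
      exact good_ev (Or.inl rfl)
    by_cases h2 : i = j'
    · subst h2
      have : ev i' i b i = b := by simp [ev, h1]
      rw [this]
      have e2 : ev i' i b - b • ev i j a = (1 : ℤ) • Pi.single i' 1 + (-(b * a)) • Pi.single j 1 := by
        simp only [ev, neg_smul, smul_add, smul_smul, one_smul]; abel
      rw [e2]
      rcases h with rfl | ⟨hi, _, ha⟩
      · simp only [mul_zero, neg_zero, zero_smul, add_zero]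
        apply good_single <;> omega
      · apply good_two _ _ _ _ (Or.inl rfl)
        have hb' : b = 1 ∨ b = -1 := by tauto
        rcases hb' with rfl | rfl <;> rcases ha with h | h | ⟨h, h' | h'⟩ <;> simp [*]
    · have : ev i' j' b i = 0 := by simp [ev, h1, h2]
      rw [this, zero_smul, sub_zero]
      exact good_ev (Or.inr ⟨hi', hij', hb⟩)

theorem transfer (p q : ℕ) [hp : Fact p.Prime] [hq : Fact q.Prime] (hp5 : 5 ≤ p) (hq5 : 5 ≤ q)
    {ι : Type} [DecidableEq ι] {k : ℕ} (S : Finset ι) :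
    ∀ v : ι → Fin (k + 1) → ℤ, (∀ s, Good (v s)) →
      (Ind (ZMod p) S (fun s t => (v s t : ZMod p)) ↔ Ind (ZMod q) S (fun s t => (v s t : ZMod q))) := by
  induction S using Finset.induction_on with
  | empty => intro v _; simp [Ind]
  | insert x S hx ih =>
    intro v hv
    rcases hv x with h0 | ⟨u, i, j, a, hu, hsh, hx'⟩
    · refine iff_of_false (ind_zero _ _ x (Finset.mem_insert_self _ _) _ ?_)
        (ind_zero _ _ x (Finset.mem_insert_self _ _) _ ?_) <;>
      · ext t; simp [h0]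
    · have key : ∀ (r : ℕ) [hr : Fact r.Prime], 5 ≤ r →
          (Ind (ZMod r) (insert x S) (fun s t => (v s t : ZMod r)) ↔
          Ind (ZMod r) S (fun s t => (((v s - v s i • ev i j a) t : ℤ) : ZMod r))) := by
        intro r hr h5
        rw [contract (ZMod r) S x hx _ (fun t => (ev i j a t : ZMod r)) i
          (by simp [ev_self hsh]) (u : ZMod r) (hu r hr.out h5) (by ext t; simp [hx'])]
        congr! 2
        ext t; simp
      rw [key p hp5, key q hq5]
      exact ih _ fun s => good_contract hsh (hv s)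

/-- index type of the family -/
abbrev Idx (k : ℕ) : Type := (Fin (k + 1) × Fin (k + 1)) ⊕ (Fin k × Bool)

/-- data of the family -/
def dat {k : ℕ} : Idx k → Fin (k + 1) × Fin (k + 1) × ℤ
  | .inl (i, j) => if i = j then (i, i, 0) else if j < i then (i, j, 1) else (j, i, -1)
  | .inr (i, b) => (i.succ, 0, if b = true then 2 else -2)

/-- the family -/
def fam {k : ℕ} (s : Idx k) : Fin (k + 1) → ℤ := ev (dat s).1 (dat s).2.1 (dat s).2.2

lemma dat_prop {k : ℕ} (s : Idx k) : Sh (dat s).1 (dat s).2.1 (dat s).2.2 ∧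
    -2 ≤ (dat s).2.2 ∧ (dat s).2.2 ≤ 2 ∧ (dat s).2.1 ≤ (dat s).1 ∧
    ((dat s).2.2 = 0 → (dat s).2.1 = (dat s).1) := by
  rcases s with ⟨i, j⟩ | ⟨i, b⟩
  · simp only [dat]
    split_ifs with h1 h2
    · simp [Sh]
    · refine ⟨Or.inr ⟨?_, h1, Or.inl rfl⟩, by simp, by simp, h2.le, by simp⟩
      exact ((Fin.zero_le j).trans_lt h2).ne'
    · have h3 : i < j := lt_of_le_of_ne (not_lt.mp h2) h1
      refine ⟨Or.inr ⟨?_, Ne.symm h1, Or.inr (Or.inl rfl)⟩, by simp, by simp, h3.le, by simp⟩
      exact ((Fin.zero_le i).trans_lt h3).ne'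
  · cases b <;> simp [dat, Sh]

lemma dat_inj {k : ℕ} : Function.Injective (dat (k := k)) := by
  rintro (⟨i, j⟩ | ⟨i, b⟩) (⟨i', j'⟩ | ⟨i', b'⟩) h
  · simp only [dat] at h
    split_ifs at h <;> simp_all
  · simp only [dat] at h
    split_ifs at h <;> simp_all
  · simp only [dat] at h
    split_ifs at h <;> simp_all
  · cases b <;> cases b' <;> simp_all [dat]

lemma fam_good {k : ℕ} (s : Idx k) : Good (fam s) := good_ev (dat_prop s).1

lemma fam_lead {k : ℕ} (s : Idx k) : fam s (dat s).1 = 1 := ev_self (dat_prop s).1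

lemma fam_above {k : ℕ} (s : Idx k) (t : Fin (k + 1)) (h : (dat s).1 < t) : fam s t = 0 := by
  have := (dat_prop s).2.2.2.1
  simp [fam, ev, h.ne', (this.trans_lt h).ne']

lemma cast_inj {p : ℕ} (hp : p.Prime) (h5 : 5 ≤ p) {a b : ℤ} (h1 : -2 ≤ a) (h2 : a ≤ 2)
    (h3 : -2 ≤ b) (h4 : b ≤ 2) (h : (a : ZMod p) = b) : a = b := by
  by_contra hne
  apply U_small (a := a - b) (by omega) (by omega) (by omega) p hp h5
  push_cast; rw [h, sub_self]

lemma fam_pair {k p : ℕ} [hp : Fact p.Prime] (h5 : 5 ≤ p) {s t : Idx k} (hst : s ≠ t)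
    (c d : ZMod p) (h : ∀ l, c * (fam s l : ZMod p) + d * (fam t l : ZMod p) = 0) : c = 0 := by
  rcases lt_trichotomy (dat s).1 (dat t).1 with hl | hl | hl
  · have h1 := h (dat t).1
    rw [fam_above s _ hl, fam_lead] at h1
    have h2 := h (dat s).1
    rw [fam_lead] at h2
    simp only [Int.cast_zero, mul_zero, Int.cast_one, mul_one, zero_add] at h1 h2
    rw [h1] at h2; simpa using h2
  · by_contra hc
    have h1 := h (dat s).1
    rw [fam_lead, hl, fam_lead] at h1
    have h2 : ∀ l, (fam s l : ZMod p) = fam t l := by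
      intro l
      apply mul_left_cancel₀ hc
      have := h l
      push_cast at h1
      linear_combination this - (fam t l : ZMod p) * h1
    obtain ⟨-, a1, a2, -, a3⟩ := dat_prop s
    obtain ⟨-, b1, b2, -, b3⟩ := dat_prop t
    have h3 := h2 (dat s).2.1
    have h4 := h2 (dat t).2.1
    simp only [fam, ev, hl, Pi.add_apply, Pi.smul_apply, Pi.single_eq_same, smul_eq_mul, mul_one,
      Int.cast_add, add_right_inj] at h3 h4
    by_cases hj : (dat s).2.1 = (dat t).2.1
    · rw [hj, Pi.single_eq_same, mul_one] at h3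
      exact hst (dat_inj (Prod.ext hl (Prod.ext hj (cast_inj hp.out h5 a1 a2 b1 b2 h3))))
    · rw [Pi.single_eq_of_ne hj, mul_zero] at h3
      rw [Pi.single_eq_of_ne (Ne.symm hj), mul_zero] at h4
      have e1 := cast_inj hp.out h5 a1 a2 (by omega) (by omega) h3
      have e2 := cast_inj hp.out h5 b1 b2 (by omega) (by omega) h4.symm
      exact hj ((a3 e1).trans (hl.trans (b3 e2).symm))
  · have h1 := h (dat s).1
    rw [fam_above t _ hl, fam_lead] at h1
    simpa using h1

theorem family (p q : ℕ) [hp : Fact p.Prime] [hq : Fact q.Prime] (hp5 : 5 ≤ p) (hq5 : 5 ≤ q)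
    (k : ℕ) : ∃ (v : Fin ((k + 1) ^ 2 + 2 * k) → Fin (k + 1) → ZMod p)
      (w : Fin ((k + 1) ^ 2 + 2 * k) → Fin (k + 1) → ZMod q),
      (∀ S : Finset (Fin ((k + 1) ^ 2 + 2 * k)),
        (LinearIndependent (ZMod p) (fun x : S => v x) ↔
          LinearIndependent (ZMod q) (fun x : S => w x))) ∧
      (∀ S : Finset (Fin ((k + 1) ^ 2 + 2 * k)), S.card ≤ 2 →
        LinearIndependent (ZMod p) (fun x : S => v x)) ∧
      Submodule.span (ZMod p) (Set.range v) = ⊤ := by
  let e : Fin ((k + 1) ^ 2 + 2 * k) ≃ Idx k :=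
    (Fintype.equivFinOfCardEq (by simp; ring)).symm
  refine ⟨fun s t => fam (e s) t, fun s t => fam (e s) t, fun S => ?_, fun S hS => ?_, ?_⟩
  · refine (ind_iff (ZMod p) S fun s t => (fam (e s) t : ZMod p)).trans
      (Iff.trans ?_ (ind_iff (ZMod q) S fun s t => (fam (e s) t : ZMod q)).symm)
    exact transfer p q hp5 hq5 S (fun s => fam (e s)) fun s => fam_good _
  · refine (ind_iff (ZMod p) S fun s t => (fam (e s) t : ZMod p)).mpr ?_
    intro g hg s hs
    by_cases h : ∃ t ∈ S, t ≠ s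
    · obtain ⟨t, ht, hts⟩ := h
      have hS' : S = {s, t} := by
        symm
        apply Finset.eq_of_subset_of_card_le
        · intro x hx
          rcases Finset.mem_insert.mp hx with rfl | hx
          · exact hs
          · rw [Finset.mem_singleton.mp hx]; exact ht
        · rw [Finset.card_pair hts.symm]; exact hS
      rw [hS', Finset.sum_pair hts.symm] at hg
      exact fam_pair hp5 (e.injective.ne hts.symm) (g s) (g t) fun l => congrFun hg l
    · push Not at h
      rw [Finset.sum_eq_single s (fun t ht hts => absurd (h t ht) hts) (fun h' => absurd hs h')]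
        at hg
      have := congrFun hg (dat (e s)).1
      simpa [fam_lead] using this
  · rw [eq_top_iff, ← (Pi.basisFun (ZMod p) (Fin (k + 1))).span_eq]
    apply Submodule.span_mono
    rintro _ ⟨i, rfl⟩
    refine ⟨e.symm (.inl (i, i)), ?_⟩
    ext t
    simp [fam, dat, ev, Pi.single_apply]

end Pool.Agent.H2.Dow
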