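import Mathlib

set_option autoImplicit false

namespace Pool.Agent.H2.Fac

abbrev F := ZMod 2
abbrev U := ℕ → F
abbrev Γ := U ≃ₗ[F] U
abbrev e (a : ℕ) : U := Pi.single a 1

theorem two (u : U) : u + u = 0 := funext fun c => CharTwo.add_self_eq_zero (u c)

def IsT (x : Γ) (w : U) (p : ℕ) : Prop := ∀ u, x u = u + u p • w

theorem exT {w : U} {p : ℕ} (h : w p = 0) : ∃ x, IsT x w p := by
  have key : ∀ u : U, u + u p • w + (u + u p • w) p • w = u := fun u => by
    simp [h, add_assoc, two]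
  exact ⟨{ toFun := fun u => u + u p • w
           invFun := fun u => u + u p • w
           map_add' := fun u v => by simp [add_smul]; abel
           map_smul' := fun c u => by simp [smul_smul]
           left_inv := key
           right_inv := key }, fun _ => rfl⟩

theorem IsT.mul {x y : Γ} {w w' : U} {p : ℕ} (hx : IsT x w p) (hy : IsT y w' p) (h : w' p = 0) :
    IsT (x * y) (w + w') p := fun u => by
  rw [LinearEquiv.mul_apply, hy, hx]; simp [h]; abel

theorem IsT.eq {x y : Γ} {w : U} {p : ℕ} (hx : IsT x w p) (hy : IsT y w p) : x = y :=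
  LinearEquiv.ext fun u => (hx u).trans (hy u).symm

theorem IsT.inv {x : Γ} {w : U} {p : ℕ} (hx : IsT x w p) (h : w p = 0) : x⁻¹ = x :=
  inv_eq_of_mul_eq_one_right (LinearEquiv.ext fun u => by simpa [two] using hx.mul hx h u)

theorem IsT.conj {x : Γ} {w : U} {p : ℕ} (hx : IsT x w p) (g : Γ) (hg : ∀ u, g u p = u p) :
    IsT (g * x * g⁻¹) (g w) p := fun u => by
  have h1 : g (g⁻¹ u) = u := g.apply_symm_apply u
  rw [LinearEquiv.mul_apply, LinearEquiv.mul_apply, hx, map_add, map_smul, ← hg (g⁻¹ u), h1]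

def S : Set Γ := {x | ∃ a p, a ≠ p ∧ IsT x (e a) p}
def A0 : Subgroup Γ := Subgroup.closure S

theorem ind {Q : Γ → Prop} (h1 : Q 1) (h2 : ∀ x a p g, a ≠ p → IsT x (e a) p → Q g → Q (x * g))
    {g : Γ} (hg : g ∈ A0) : Q g := by
  induction hg using Subgroup.closure_induction_left with
  | one => exact h1
  | mul_left x hx g _ ih => obtain ⟨a, p, h, h'⟩ := hx; exact h2 x a p g h h' ih
  | inv_mul_cancel x hx g _ ih =>
    obtain ⟨a, p, h, h'⟩ := hx
    rw [h'.inv (by simp [h.symm])]; exact h2 x a p g h h' ih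

theorem fin1 {g : Γ} (hg : g ∈ A0) :
    ∃ n, (∀ u c, n ≤ c → g u c = u c) ∧ ∀ u : U, (∀ c < n, u c = 0) → g u = u := by
  refine ind (Q := fun g => ∃ n, (∀ u c, n ≤ c → g u c = u c) ∧
    ∀ u : U, (∀ c < n, u c = 0) → g u = u) ⟨0, fun _ _ _ => rfl, fun _ _ => rfl⟩ ?_ hg
  rintro x a p g - hx ⟨n, h1, h2⟩
  refine ⟨n + a + p + 1, fun u c hc => ?_, fun u hu => ?_⟩
  · rw [LinearEquiv.mul_apply, hx]
    simp [show c ≠ a by omega, h1 u c (by omega)]
  · rw [LinearEquiv.mul_apply, h2 u fun c hc => hu c (by omega), hx, hu p (by omega)]; simp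

theorem memA {x : Γ} {a p : ℕ} (h : a ≠ p) (hx : IsT x (e a) p) : x ∈ A0 :=
  Subgroup.subset_closure ⟨a, p, h, hx⟩

theorem simple0 (M : Subgroup Γ) (hM : ∀ g ∈ A0, ∀ m ∈ M, g * m * g⁻¹ ∈ M) (g : Γ) (hg : g ∈ A0)
    (hgM : g ∈ M) (hg1 : g ≠ 1) : A0 ≤ M := by
  have L1 : ∀ {x w p b q}, x ∈ M → IsT x w p → w p = 0 → w b = 1 → q ≠ b → q ≠ p →
      ∃ y ∈ M, IsT y (e q) p := fun {x w p b q} hx h h0 h1 hb hp => by
    obtain ⟨s, hs⟩ := exT (w := e q) (p := b) (by simp [hb.symm])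
    have h2 := (h.conj s fun u => by rw [hs]; simp [hp.symm]).mul h h0
    rw [hs, h1, one_smul, add_right_comm, two, zero_add] at h2
    exact ⟨_, M.mul_mem (hM s (memA hb hs) x hx) hx, h2⟩
  have L2 : ∀ {x q p}, x ∈ M → IsT x (e q) p → q ≠ p → ∀ i, i ≠ p → ∃ y ∈ M, IsT y (e i) p :=
    fun {x q p} hx h hq i hi => by
      by_cases h1 : i = q
      · exact ⟨x, hx, h1 ▸ h⟩
      · exact L1 hx h (by simp [hq.symm]) (Pi.single_eq_same _ _) h1 hi
  obtain ⟨n, h1, h2⟩ := fin1 hg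
  obtain ⟨a, ha⟩ : ∃ a, g (e a) ≠ e a := by
    by_contra h
    push Not at h
    refine hg1 (LinearEquiv.ext fun u => ?_)
    have h3 := h2 (u - ∑ c ∈ Finset.range n, u c • e c) fun c hc => by
      simp [Finset.sum_apply, Pi.single_apply, hc]
    simpa [h] using h3
  obtain ⟨t, ht⟩ := exT (w := e a) (p := n + a + 1) (by simp [show n + a + 1 ≠ a by omega])
  have hta := memA (by omega) ht
  have h3 := (ht.conj g fun u => h1 u _ (by omega)).mul ht (by simp [show n + a + 1 ≠ a by omega])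
  have h4 : g * t * g⁻¹ * t ∈ M := by
    have := M.mul_mem hgM (hM t hta _ (M.inv_mem hgM))
    rwa [ht.inv (by simp [show n + a + 1 ≠ a by omega]), ← mul_assoc, ← mul_assoc] at this
  obtain ⟨b, hb⟩ : ∃ b, (g (e a) + e a) b = 1 := by
    by_contra h
    push Not at h
    refine ha (funext fun c => ?_)
    have := h c
    revert this
    simp only [Pi.add_apply]
    generalize g (e a) c = r
    generalize e a c = s
    revert r s; decide
  set p := n + a + 1 with hp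
  obtain ⟨y, hy, h5⟩ := L1 (q := b + p + 1) h4 h3
    (by simp [h1 _ p (by omega), show p ≠ a by omega]) hb (by omega) (by omega)
  refine (Subgroup.closure_le _).2 ?_
  rintro x ⟨i, j, hij, hx⟩
  by_cases hj : j = p
  · obtain ⟨z, hz, h6⟩ := L2 hy h5 (by omega) i (hj ▸ hij)
    exact hx.eq (hj ▸ h6) ▸ hz
  obtain ⟨z, hz, h6⟩ := L2 hy h5 (by omega) (j + p + 1) (by omega)
  obtain ⟨s, hs⟩ := exT (w := e p) (p := j) (by simp [hj])
  have h7 := (hs.conj z fun u => by rw [h6]; simp [show j ≠ j + p + 1 by omega]).mul hs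
    (by simp [hj])
  rw [h6, show e p p = 1 from Pi.single_eq_same _ _, one_smul, add_right_comm, two,
    zero_add] at h7
  have h8 : z * s * z⁻¹ * s ∈ M := by
    have := M.mul_mem hz (hM s (memA (Ne.symm hj) hs) _ (M.inv_mem hz))
    rwa [hs.inv (by simp [hj]), ← mul_assoc, ← mul_assoc] at this
  obtain ⟨z', hz', h9⟩ := L2 h8 h7 (by omega) i hij
  exact hx.eq h9 ▸ hz'

instance : IsSimpleGroup A0 where
  exists_pair_ne := by
    obtain ⟨t, ht⟩ := exT (w := e 0) (p := 1) (by simp)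
    refine ⟨⟨t, memA (by omega) ht⟩, 1, fun h => ?_⟩
    have h1 : t = 1 := congrArg Subtype.val h
    have := congrFun (ht (e 1)) 0
    simp [h1] at this
  eq_bot_or_eq_top_of_normal M hM := by
    refine or_iff_not_imp_left.2 fun h => ?_
    obtain ⟨⟨g, hg⟩, h1⟩ := (Subgroup.ne_bot_iff_exists_ne_one).1 h
    have := simple0 (M.map A0.subtype) (by
      rintro a ha _ ⟨m, hm, rfl⟩
      exact ⟨_, hM.conj_mem m hm ⟨a, ha⟩, rfl⟩) g.1 g.2 ⟨g, hg, rfl⟩
      fun h2 => h1 (Subtype.ext (Subtype.ext h2))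
    refine eq_top_iff.2 fun x _ => ?_
    obtain ⟨y, hy, h2⟩ := this x.2
    exact Subtype.ext h2 ▸ hy

abbrev W := ℕ → U
def act (g : Γ) (ψ : W) : W := fun i => g (ψ i)
theorem act_add (g : Γ) (ψ η : W) : act g (ψ + η) = act g ψ + act g η :=
  funext fun _ => map_add g _ _
theorem act_mul (g h : Γ) (ψ : W) : act (g * h) ψ = act g (act h ψ) := rfl
theorem act_one (ψ : W) : act 1 ψ = ψ := rfl
theorem act_zero (g : Γ) : act g 0 = 0 := funext fun _ => map_zero g
theorem two' (u : W) : u + u = 0 := funext fun c => two (u c)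

def N : AddSubgroup W where
  carrier := {η | ∃ n, ∀ j c, n ≤ j ∨ n ≤ c → η j c = 0}
  zero_mem' := ⟨0, fun _ _ _ => rfl⟩
  add_mem' := by
    rintro a b ⟨n, h⟩ ⟨m, k⟩
    exact ⟨n + m, fun j c hj => by simp [h j c (by omega), k j c (by omega)]⟩
  neg_mem' := by rintro a ⟨n, h⟩; exact ⟨n, fun j c hj => by simp [h j c hj]⟩

theorem act_N {g : Γ} (hg : g ∈ A0) {ψ : W} (h : ∀ p, ∃ m, ∀ j, m ≤ j → ψ j p = 0) :
    ψ + act g ψ ∈ N := by
  refine ind (Q := fun g => ψ + act g ψ ∈ N) (by rw [act_one, two']; exact N.zero_mem) ?_ hg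
  rintro x a p g - hx ⟨n, h1⟩
  obtain ⟨m, hm⟩ := h p
  refine ⟨n + m + a + 1, fun j c hj => ?_⟩
  have h2 := h1 j c (by omega)
  simp only [Pi.add_apply, act, LinearEquiv.mul_apply, hx _, Pi.smul_apply, smul_eq_mul] at h2 ⊢
  rw [← add_assoc, h2, zero_add]
  rcases hj with hj | hj
  · have := h1 j p (by omega)
    simp only [Pi.add_apply, act, hm j (by omega), zero_add] at this
    simp [this]
  · simp [show c ≠ a by omega]

theorem act_N' {g : Γ} (hg : g ∈ A0) {η : W} (h : η ∈ N) : act g η ∈ N := by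
  obtain ⟨n, hn⟩ := id h
  have := N.add_mem h (act_N hg fun p => ⟨n, fun j hj => hn j p (.inl hj)⟩)
  rwa [← add_assoc, two', zero_add] at this

def Φ : W := fun j c => if (Nat.unpair c).1 = j then 1 else 0
theorem act_Φ {g : Γ} (hg : g ∈ A0) : Φ + act g Φ ∈ N :=
  act_N hg fun p => ⟨(Nat.unpair p).1 + 1, fun j hj => if_neg (by omega)⟩

theorem trans {η : W} (h : η ∈ N) : ∃ g ∈ A0, act g Φ = Φ + η := by
  have key : ∀ s : Finset (ℕ × ℕ),
      ∃ g ∈ A0, act g Φ = Φ + fun j c => if (j, c) ∈ s then 1 else 0 := fun s => by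
    induction s using Finset.induction_on with
    | empty => exact ⟨1, A0.one_mem, by ext; simp [act_one]⟩
    | insert z s hz ih =>
      obtain ⟨g, hg, h1⟩ := ih
      obtain ⟨i, a⟩ := z
      have h2 := Nat.right_le_pair i (s.sup Prod.snd + a + 1)
      set p := Nat.pair i (s.sup Prod.snd + a + 1) with hp
      obtain ⟨t, ht⟩ := exT (w := e a) (p := p) (by simp [show p ≠ a by omega])
      refine ⟨t * g, A0.mul_mem (memA (by omega) ht) hg, ?_⟩
      ext j c
      have h3 : (j, p) ∉ s := fun h => by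
        have : p ≤ s.sup Prod.snd := Finset.le_sup (f := Prod.snd) h
        omega
      have h4 : Φ j p = if i = j then 1 else 0 := by simp only [Φ, hp, Nat.unpair_pair]
      rw [act_mul, h1, act, ht]
      simp only [Pi.add_apply, Pi.smul_apply, h3, if_false, add_zero, h4,
        Pi.single_apply, Finset.mem_insert, Prod.mk.injEq, add_assoc, add_right_inj]
      rcases eq_or_ne j i with rfl | h4 <;> rcases eq_or_ne c a with rfl | h5 <;>
        simp [*, Ne.symm]
  obtain ⟨n, hn⟩ := h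
  obtain ⟨g, hg, h1⟩ := key ((Finset.range n ×ˢ Finset.range n).filter fun z => η z.1 z.2 = 1)
  refine ⟨g, hg, h1.trans ?_⟩
  ext j c
  simp only [Pi.add_apply, add_right_inj, Finset.mem_filter, Finset.mem_product, Finset.mem_range]
  by_cases h2 : j < n ∧ c < n
  · simp only [h2, true_and]
    generalize η j c = r
    revert r; decide
  · rw [if_neg fun h => h2 h.1, hn j c (by omega)]

@[ext] structure G where
  η : N
  g : A0

instance : Mul G := ⟨fun x y => ⟨x.η + ⟨_, act_N' x.g.2 y.η.2⟩, x.g * y.g⟩⟩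
instance : One G := ⟨⟨0, 1⟩⟩
instance : Inv G := ⟨fun x => ⟨⟨_, act_N' x.g⁻¹.2 x.η.2⟩, x.g⁻¹⟩⟩
theorem mul_η (x y : G) : ((x * y).η : W) = x.η + act x.g y.η := rfl
theorem mul_g (x y : G) : (x * y).g = x.g * y.g := rfl
theorem inv_η (x : G) : (x⁻¹.η : W) = act x.g⁻¹ x.η := rfl
instance : Group G := Group.ofLeftAxioms
  (fun a b c => G.ext (Subtype.ext (by
    simp only [mul_η, mul_g, act_add, Subgroup.coe_mul, act_mul, add_assoc])) (mul_assoc _ _ _))
  (fun a => G.ext (Subtype.ext (zero_add _)) (one_mul _))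
  (fun a => G.ext (Subtype.ext (two' _)) (inv_mul_cancel _))

def fA : A0 →* G where
  toFun g := ⟨0, g⟩
  map_one' := rfl
  map_mul' g h := G.ext (Subtype.ext (by simp [mul_η, act_zero])) rfl

def fB : A0 →* G where
  toFun g := ⟨⟨_, act_Φ g.2⟩, g⟩
  map_one' := G.ext (Subtype.ext (two' _)) rfl
  map_mul' g h := G.ext (Subtype.ext (by
    simp only [mul_η, act_add, Subgroup.coe_mul, act_mul]
    rw [add_assoc, ← add_assoc (act _ Φ), two', zero_add])) rfl

instance : IsSimpleGroup fA.range :=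
  (MonoidHom.ofInjective (f := fA) fun _ _ h => congrArg G.g h).symm.isSimpleGroup
instance : IsSimpleGroup fB.range :=
  (MonoidHom.ofInjective (f := fB) fun _ _ h => congrArg G.g h).symm.isSimpleGroup

theorem fact (x : G) : ∃ a ∈ fA.range, ∃ b ∈ fB.range, x = a * b := by
  obtain ⟨g, hg, h⟩ := trans (N.add_mem x.η.2 (act_Φ x.g.2))
  refine ⟨fA ⟨g, hg⟩, ⟨_, rfl⟩, fB ((⟨g, hg⟩ : A0)⁻¹ * x.g), ⟨_, rfl⟩, G.ext (Subtype.ext ?_)
    (mul_inv_cancel_left (⟨g, hg⟩ : A0) x.g).symm⟩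
  show (x.η : W) = 0 + act g (Φ + act (g⁻¹ * x.g) Φ)
  rw [act_add, ← act_mul, mul_inv_cancel_left, h]
  linear_combination (exp := 1) -two' Φ - two' (act x.g Φ)

def Nk (k : ℕ) : Subgroup G where
  carrier := {x | x.g = 1 ∧ ∀ i, k ≤ i → x.η.1 i = 0}
  one_mem' := ⟨rfl, fun _ _ => rfl⟩
  mul_mem' := fun {a b} ha hb => ⟨by rw [mul_g, ha.1, hb.1, one_mul], fun i hi => by
    simp [mul_η, act, ha.2 i hi, hb.2 i hi]⟩
  inv_mem' := fun {a} ha => ⟨inv_eq_one.2 ha.1, fun i hi => by simp [inv_η, act, ha.2 i hi]⟩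

instance (k : ℕ) : (Nk k).Normal := ⟨fun x hx y => ⟨by
  show y.g * x.g * y.g⁻¹ = 1
  rw [hx.1, mul_one, mul_inv_cancel], fun i hi => by
  have : act y.g (act y.g⁻¹ y.η) = y.η := by rw [← act_mul, mul_inv_cancel, act_one]
  simp only [mul_η, mul_g, hx.1, mul_one, inv_η, Subgroup.coe_inv, this, Pi.add_apply]
  simp [act, hx.2 i hi, two]⟩⟩

theorem nochain (n : ℕ) (s : Fin (n + 1) → Subgroup G) (h0 : s 0 = ⊥) (h1 : s (Fin.last n) = ⊤)
    (h : ∀ (i : Fin n) k, (∀ x ∈ Nk k, x ∈ s i.succ → x ∈ s i.castSucc) ∨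
      ∀ x ∈ s i.succ, ∃ y ∈ Nk k, ∃ z ∈ s i.castSucc, y * z = x) : False := by
  have mono : ∀ {j k}, j ≤ k → Nk j ≤ Nk k := fun hjk x hx =>
    ⟨hx.1, fun i hi => hx.2 i (hjk.trans hi)⟩
  have key : ∀ i, ∃ k0, ∀ k, ∀ x ∈ Nk k, x ∈ s i → x ∈ Nk k0 := fun i => by
    induction i using Fin.induction with
    | zero => exact ⟨0, fun k x _ hx => by
        rw [h0, Subgroup.mem_bot] at hx; exact hx ▸ one_mem _⟩
    | succ i ih =>
      obtain ⟨k0, ih⟩ := ih
      by_cases h2 : ∀ k, ∀ x ∈ Nk k, x ∈ s i.succ → x ∈ s i.castSucc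
      · exact ⟨k0, fun k x hx hx' => ih k x hx (h2 k x hx hx')⟩
      obtain ⟨k1, h2⟩ := not_forall.1 h2
      refine ⟨k0 + k1, fun k x hx hx' => ?_⟩
      obtain ⟨y, hy, z, hz, rfl⟩ := (h i k1).resolve_left h2 x hx'
      refine mul_mem (mono (by omega) hy) (mono (by omega) (ih (k + k1) z ?_ hz))
      exact (mul_mem_cancel_left (mono (by omega) hy)).1 (mono (by omega) hx)
  obtain ⟨k, hk⟩ := key (Fin.last n)
  have := (hk (k + 1) ⟨⟨Pi.single k (e 0), k + 1, fun j c hj => by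
      rcases hj with hj | hj
      · simp [show j ≠ k by omega]
      · by_cases h : j = k <;> simp [h, show c ≠ 0 by omega]⟩, 1⟩
    ⟨rfl, fun i hi => by simp [show i ≠ k by omega]⟩ (h1 ▸ Subgroup.mem_top _)).2 k le_rfl
  simpa using congrFun this 0

end Pool.Agent.H2.Fac
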