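import Mathlib

set_option autoImplicit false

namespace Pool.Agent.H2.Four

open MeasureTheory Set
open scoped ENNReal

theorem ptw {a b c d : ℝ≥0∞} (h1 : a ≤ c) (h2 : b ≤ c) (h3 : a * b ≤ c * d) :
    a + b ≤ c + d := by
  rcases eq_or_ne c ⊤ with rfl | hc
  · simp
  rcases eq_or_ne d ⊤ with rfl | hd
  · simp
  lift c to NNReal using hc
  lift d to NNReal using hd
  lift a to NNReal using ne_top_of_le_ne_top ENNReal.coe_ne_top h1
  lift b to NNReal using ne_top_of_le_ne_top ENNReal.coe_ne_top h2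
  norm_cast at *
  have h1' : (a : ℝ) ≤ c := h1
  have h2' : (b : ℝ) ≤ c := h2
  have h3' : (a : ℝ) * b ≤ c * d := by exact_mod_cast h3
  have : (a : ℝ) + b ≤ c + d := by
    rcases c.2.eq_or_lt with h | h
    · have hc : (c : ℝ) = 0 := h.symm
      have := d.2
      have hd : (0 : ℝ) ≤ d := d.2
      linarith
    · have hc : (0 : ℝ) < c := h
      have : (c : ℝ) * (a + b) ≤ c * (c + d) := by nlinarith
      exact le_of_mul_le_mul_left this hc
  exact_mod_cast this

theorem four1 (f1 f2 f3 f4 : ℝ → ℝ≥0∞) (m1 : Measurable f1) (m2 : Measurable f2)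
    (m3 : Measurable f3) (m4 : Measurable f4)
    (h : ∀ x y, f1 x * f2 y ≤ f3 (x ⊓ y) * f4 (x ⊔ y)) :
    (∫⁻ x, f1 x) * (∫⁻ x, f2 x) ≤ (∫⁻ x, f3 x) * (∫⁻ x, f4 x) := by
  have key : ∀ (f g : ℝ → ℝ≥0∞), Measurable f → Measurable g →
      ∫⁻ x, ∫⁻ y, (f x * g y + f y * g x) = 2 * ((∫⁻ x, f x) * ∫⁻ x, g x) := by
    intro f g mf mg
    have : ∀ x, ∫⁻ y, (f x * g y + f y * g x) = f x * (∫⁻ y, g y) + (∫⁻ y, f y) * g x := by
      intro x
      rw [lintegral_add_left (mg.const_mul _), lintegral_const_mul _ mg, lintegral_mul_const _ mf]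
    simp_rw [this]
    rw [lintegral_add_left (mf.mul_const _), lintegral_const_mul _ mg, lintegral_mul_const _ mf,
      two_mul]
  have pw : ∀ x y, x ≤ y → f1 x * f2 y + f1 y * f2 x ≤ f3 x * f4 y + f3 y * f4 x := by
    intro x y hxy
    refine ptw ?_ ?_ ?_
    · simpa [hxy] using h x y
    · simpa [hxy] using h y x
    · have a := h x x
      have b := h y y
      simp only [le_refl, inf_of_le_left, sup_of_le_left] at a b
      calc f1 x * f2 y * (f1 y * f2 x) = (f1 x * f2 x) * (f1 y * f2 y) := by ring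
        _ ≤ (f3 x * f4 x) * (f3 y * f4 y) := mul_le_mul' a b
        _ = _ := by ring
  have : 2 * ((∫⁻ x, f1 x) * ∫⁻ x, f2 x) ≤ 2 * ((∫⁻ x, f3 x) * ∫⁻ x, f4 x) := by
    rw [← key f1 f2 m1 m2, ← key f3 f4 m3 m4]
    refine lintegral_mono fun x => lintegral_mono fun y => ?_
    rcases le_total x y with hxy | hxy
    · exact pw x y hxy
    · rw [add_comm, add_comm (f3 x * f4 y)]; exact pw y x hxy
  exact (ENNReal.mul_le_mul_iff_right (by norm_num) (by norm_num)).1 this

theorem lint_cons {n : ℕ} (f : (Fin (n + 1) → ℝ) → ℝ≥0∞) (mf : Measurable f) :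
    ∫⁻ x, f x = ∫⁻ x : Fin n → ℝ, ∫⁻ s : ℝ, f (Fin.cons s x) := by
  have h := (volume_preserving_piFinSuccAbove (fun _ : Fin (n + 1) => ℝ) 0).symm
  rw [← h.lintegral_comp mf, Measure.volume_eq_prod,
    lintegral_prod_symm' (fun a => f ((MeasurableEquiv.piFinSuccAbove (fun _ => ℝ) 0).symm a))
      (mf.comp h.measurable)]
  simp [MeasurableEquiv.piFinSuccAbove_symm_apply, Fin.insertNthEquiv]

theorem meas_cons {n : ℕ} :
    Measurable fun z : ℝ × (Fin n → ℝ) => (Fin.cons z.1 z.2 : Fin (n + 1) → ℝ) := by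
  refine measurable_pi_lambda _ fun i => ?_
  refine Fin.cases ?_ (fun j => ?_) i
  · simpa using measurable_fst
  · simp only [Fin.cons_succ]; fun_prop

theorem four (n : ℕ) (f1 f2 f3 f4 : (Fin n → ℝ) → ℝ≥0∞) (m1 : Measurable f1) (m2 : Measurable f2)
    (m3 : Measurable f3) (m4 : Measurable f4)
    (h : ∀ x y, f1 x * f2 y ≤ f3 (x ⊓ y) * f4 (x ⊔ y)) :
    (∫⁻ x, f1 x) * (∫⁻ x, f2 x) ≤ (∫⁻ x, f3 x) * (∫⁻ x, f4 x) := by
  induction n with
  | zero =>
    have e : ∀ f : (Fin 0 → ℝ) → ℝ≥0∞, ∫⁻ x, f x = f default := by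
      intro f; rw [lintegral_unique]; simp [volume_pi]; congr 1; exact Subsingleton.elim _ _
    rw [e, e, e, e]
    have := h default default
    rwa [Subsingleton.elim (default ⊓ default) default,
      Subsingleton.elim (default ⊔ default) default] at this
  | succ n ih =>
    have mm : ∀ f : (Fin (n + 1) → ℝ) → ℝ≥0∞, Measurable f →
        Measurable fun x : Fin n → ℝ => ∫⁻ s : ℝ, f (Fin.cons s x) := fun f mf =>
      (mf.comp meas_cons).lintegral_prod_left'
    have ms : ∀ f : (Fin (n + 1) → ℝ) → ℝ≥0∞, Measurable f → ∀ x : Fin n → ℝ,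
        Measurable fun s : ℝ => f (Fin.cons s x) := fun f mf x =>
      (mf.comp meas_cons).comp (measurable_id.prodMk measurable_const)
    rw [lint_cons f1 m1, lint_cons f2 m2, lint_cons f3 m3, lint_cons f4 m4]
    refine ih _ _ _ _ (mm _ m1) (mm _ m2) (mm _ m3) (mm _ m4) fun x y => ?_
    refine four1 _ _ _ _ (ms _ m1 x) (ms _ m2 y) (ms _ m3 _) (ms _ m4 _) fun s t => ?_
    have e1 : (Fin.cons (s ⊓ t) (x ⊓ y) : Fin (n + 1) → ℝ) = Fin.cons s x ⊓ Fin.cons t y := by
      funext i; refine Fin.cases ?_ (fun j => ?_) i <;> simp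
    have e2 : (Fin.cons (s ⊔ t) (x ⊔ y) : Fin (n + 1) → ℝ) = Fin.cons s x ⊔ Fin.cons t y := by
      funext i; refine Fin.cases ?_ (fun j => ?_) i <;> simp
    rw [e1, e2]; exact h _ _

theorem meas_sm (n : ℕ) : MeasurableSet {x : Fin n → ℝ | StrictMono x} := by
  have : {x : Fin n → ℝ | StrictMono x} = ⋂ i, ⋂ j, ⋂ _ : i < j, {x | x i < x j} := by
    ext x; simp [StrictMono]
  rw [this]
  refine MeasurableSet.iInter fun i => MeasurableSet.iInter fun j => MeasurableSet.iInter fun _ => ?_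
  exact measurableSet_lt (measurable_pi_apply i) (measurable_pi_apply j)

theorem mp_perm {n : ℕ} (σ : Equiv.Perm (Fin n)) :
    MeasurePreserving (fun x : Fin n → ℝ => x ∘ σ) volume volume := by
  have h := volume_measurePreserving_piCongrLeft (fun _ : Fin n => ℝ) σ.symm
  have e : (MeasurableEquiv.piCongrLeft (fun _ : Fin n => ℝ) σ.symm : (Fin n → ℝ) → _) =
      fun x => x ∘ σ := by
    funext x i
    have := MeasurableEquiv.piCongrLeft_apply_apply σ.symm (β := fun _ : Fin n => ℝ) x (σ i)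
    simpa using this
  rwa [e] at h

theorem symm_lint {n : ℕ} (h : (Fin n → ℝ) → ℝ≥0∞) (mh : Measurable h)
    (hs : ∀ x (σ : Equiv.Perm (Fin n)), h (x ∘ σ) = h x)
    (h0 : ∀ x, ¬ Function.Injective x → h x = 0) :
    ∫⁻ x, h x = n.factorial * ∫⁻ x, {x : Fin n → ℝ | StrictMono x}.indicator h x := by
  classical
  have mi := mh.indicator (meas_sm n)
  have e : ∀ x, h x = ∑ σ : Equiv.Perm (Fin n),
      {x : Fin n → ℝ | StrictMono x}.indicator h (x ∘ σ) := by
    intro x
    by_cases hx : Function.Injective x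
    · rw [Finset.sum_eq_single (Tuple.sort x)]
      · rw [indicator_of_mem, hs]
        exact (Tuple.monotone_sort x).strictMono_of_injective (hx.comp (Equiv.injective _))
      · intro σ _ hσ
        refine indicator_of_notMem (fun hm => hσ ?_) _
        have := Tuple.unique_monotone (StrictMono.monotone hm) (Tuple.monotone_sort x)
        exact Equiv.ext fun i => hx (congrFun this i)
      · simp
    · rw [h0 x hx]
      refine (Finset.sum_eq_zero fun σ _ => ?_).symm
      rw [indicator_apply_eq_zero]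
      intro _; rw [hs, h0 x hx]
  rw [lintegral_congr e, lintegral_finsetSum _
    (f := fun (σ : Equiv.Perm (Fin n)) x => {x : Fin n → ℝ | StrictMono x}.indicator h (x ∘ σ))
    fun σ _ => mi.comp (mp_perm σ).measurable]
  simp_rw [fun σ : Equiv.Perm (Fin n) => (mp_perm σ).lintegral_comp mi]
  simp [Fintype.card_perm]

/-- squared Vandermonde determinant -/
def Vd {n : ℕ} (x : Fin n → ℝ) : ℝ := ∏ k, ∏ j ∈ Finset.Ioi k, (x j - x k) ^ 2

theorem Vd_eq {n : ℕ} (x : Fin n → ℝ) : Vd x = (Matrix.vandermonde x).det ^ 2 := by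
  simp [Vd, Matrix.det_vandermonde, Finset.prod_pow]

theorem Vd_perm {n : ℕ} (x : Fin n → ℝ) (σ : Equiv.Perm (Fin n)) : Vd (x ∘ σ) = Vd x := by
  rw [Vd_eq, Vd_eq, show Matrix.vandermonde (x ∘ σ) = (Matrix.vandermonde x).submatrix σ id from rfl,
    Matrix.det_permute, mul_pow]
  rcases Int.units_eq_one_or (Equiv.Perm.sign σ) with h | h <;> simp [h]

theorem Vd_zero {n : ℕ} (x : Fin n → ℝ) (h : ¬ Function.Injective x) : Vd x = 0 := by
  rw [Vd_eq, ← Matrix.det_vandermonde_ne_zero_iff, not_not] at *; simp [h]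

theorem Vd_pos {n : ℕ} (x : Fin n → ℝ) (h : Function.Injective x) : 0 < Vd x := by
  rw [Vd_eq]; have := Matrix.det_vandermonde_ne_zero_iff.2 h; positivity

theorem Vd_nonneg {n : ℕ} (x : Fin n → ℝ) : 0 ≤ Vd x := by rw [Vd_eq]; positivity

theorem Vd_lsm {n : ℕ} (x y : Fin n → ℝ) (hx : StrictMono x) (hy : StrictMono y) :
    Vd x * Vd y ≤ Vd (x ⊓ y) * Vd (x ⊔ y) := by
  unfold Vd
  rw [← Finset.prod_mul_distrib, ← Finset.prod_mul_distrib]
  refine Finset.prod_le_prod (fun k _ => by positivity) fun k _ => ?_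
  rw [← Finset.prod_mul_distrib, ← Finset.prod_mul_distrib]
  refine Finset.prod_le_prod (fun k _ => by positivity) fun j hj => ?_
  have h1 := hx (Finset.mem_Ioi.1 hj)
  have h2 := hy (Finset.mem_Ioi.1 hj)
  rw [← mul_pow, ← mul_pow]
  refine pow_le_pow_left₀ (by nlinarith) ?_ 2
  simp only [Pi.inf_apply, Pi.sup_apply]
  rcases le_total (x j) (y j) with a | a <;> rcases le_total (x k) (y k) with b | b <;>
    simp only [a, b, inf_of_le_left, inf_of_le_right, sup_of_le_left, sup_of_le_right] <;>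
    nlinarith

theorem sm_inf {n : ℕ} {x y : Fin n → ℝ} (hx : StrictMono x) (hy : StrictMono y) :
    StrictMono (x ⊓ y) ∧ StrictMono (x ⊔ y) :=
  ⟨fun _ _ h => min_lt_min (hx h) (hy h), fun _ _ h => max_lt_max (hx h) (hy h)⟩

end Pool.Agent.H2.Four
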