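import Pool.Agent.H2.Four1

set_option autoImplicit false

namespace Pool.Agent.H2.Four

open MeasureTheory Set
open scoped ENNReal

/-- Laguerre weight -/
noncomputable def W {n : ℕ} (x : Fin n → ℝ) : ℝ := Real.exp (-∑ j, x j) * Vd x

/-- open orthant -/
def O (n : ℕ) : Set (Fin n → ℝ) := Set.pi univ fun _ => Ioi 0

theorem mem_O {n : ℕ} {x : Fin n → ℝ} : x ∈ O n ↔ ∀ j, 0 < x j := by simp [O]

theorem open_O (n : ℕ) : IsOpen (O n) := isOpen_set_pi finite_univ fun _ _ => isOpen_Ioi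

theorem W_nonneg {n : ℕ} (x : Fin n → ℝ) : 0 ≤ W x := mul_nonneg (Real.exp_pos _).le (Vd_nonneg x)

theorem W_cont (n : ℕ) : Continuous (W : (Fin n → ℝ) → ℝ) := by
  unfold W Vd; fun_prop

theorem W_perm {n : ℕ} (x : Fin n → ℝ) (σ : Equiv.Perm (Fin n)) : W (x ∘ σ) = W x := by
  unfold W; rw [Vd_perm]; congr 3; exact Equiv.sum_comp σ x

theorem W_lsm {n : ℕ} (x y : Fin n → ℝ) (hx : StrictMono x) (hy : StrictMono y) :
    W x * W y ≤ W (x ⊓ y) * W (x ⊔ y) := by
  unfold W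
  have e : Real.exp (-∑ j, x j) * Real.exp (-∑ j, y j) =
      Real.exp (-∑ j, (x ⊓ y) j) * Real.exp (-∑ j, (x ⊔ y) j) := by
    rw [← Real.exp_add, ← Real.exp_add, ← neg_add, ← neg_add, ← Finset.sum_add_distrib,
      ← Finset.sum_add_distrib]
    congr 2
    exact Finset.sum_congr rfl fun j _ => (min_add_max _ _).symm
  rw [mul_mul_mul_comm, mul_mul_mul_comm (Real.exp (-∑ j, (x ⊓ y) j)), ← e]
  exact mul_le_mul_of_nonneg_left (Vd_lsm x y hx hy) (by positivity)

/-- admissible test functions -/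
structure Good {n : ℕ} (g : (Fin n → ℝ) → ℝ) : Prop where
  meas : Measurable g
  nn : ∀ x ∈ O n, 0 ≤ g x
  sym : ∀ x (σ : Equiv.Perm (Fin n)), g (x ∘ σ) = g x
  int : IntegrableOn (fun x => W x * g x) (O n)

theorem O_perm {n : ℕ} (x : Fin n → ℝ) (σ : Equiv.Perm (Fin n)) : x ∘ σ ∈ O n ↔ x ∈ O n := by
  rw [mem_O, mem_O]
  exact ⟨fun h j => by simpa using h (σ.symm j), fun h j => h _⟩

theorem Good.eq {n : ℕ} {g : (Fin n → ℝ) → ℝ} (hg : Good g) :
    ENNReal.ofReal (∫ x in O n, W x * g x) = n.factorial * ∫⁻ x,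
      {x : Fin n → ℝ | StrictMono x}.indicator
        ((O n).indicator fun x => ENNReal.ofReal (W x * g x)) x := by
  have mO := (open_O n).measurableSet
  rw [ofReal_integral_eq_lintegral_ofReal hg.int ((ae_restrict_iff' mO).2
    (Filter.Eventually.of_forall fun x hx => mul_nonneg (W_nonneg x) (hg.nn x hx))),
    ← lintegral_indicator mO]
  refine symm_lint _ (Measurable.indicator
    (ENNReal.measurable_ofReal.comp ((W_cont n).measurable.mul hg.meas)) mO) ?_ ?_
  · intro x σ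
    by_cases hx : x ∈ O n
    · rw [indicator_of_mem hx, indicator_of_mem ((O_perm x σ).2 hx), W_perm, hg.sym]
    · rw [indicator_of_notMem hx, indicator_of_notMem (mt (O_perm x σ).1 hx)]
  · intro x hx
    rw [indicator_apply_eq_zero]
    intro _; simp [W, Vd_zero x hx]

theorem fkg {n : ℕ} {g1 g2 g3 g4 : (Fin n → ℝ) → ℝ} (h1 : Good g1) (h2 : Good g2) (h3 : Good g3)
    (h4 : Good g4) (h : ∀ x ∈ O n, ∀ y ∈ O n, g1 x * g2 y ≤ g3 (x ⊓ y) * g4 (x ⊔ y)) :
    (∫ x in O n, W x * g1 x) * (∫ x in O n, W x * g2 x) ≤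
      (∫ x in O n, W x * g3 x) * (∫ x in O n, W x * g4 x) := by
  have mO := (open_O n).measurableSet
  have nn : ∀ {g : (Fin n → ℝ) → ℝ}, Good g → 0 ≤ ∫ x in O n, W x * g x := fun hg =>
    setIntegral_nonneg mO fun x hx => mul_nonneg (W_nonneg x) (hg.nn x hx)
  have mm : ∀ {g : (Fin n → ℝ) → ℝ}, Good g → Measurable ({x : Fin n → ℝ | StrictMono x}.indicator
      ((O n).indicator fun x => ENNReal.ofReal (W x * g x))) := fun hg =>
    (Measurable.indicator
      (ENNReal.measurable_ofReal.comp ((W_cont n).measurable.mul hg.meas)) mO).indicator (meas_sm n)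
  rw [← ENNReal.ofReal_le_ofReal_iff (mul_nonneg (nn h3) (nn h4)), ENNReal.ofReal_mul (nn h1),
    ENNReal.ofReal_mul (nn h3), h1.eq, h2.eq, h3.eq, h4.eq, mul_mul_mul_comm,
    mul_mul_mul_comm (n.factorial : ℝ≥0∞) _ (n.factorial : ℝ≥0∞)]
  refine mul_le_mul' le_rfl (four n _ _ _ _ (mm h1) (mm h2) (mm h3) (mm h4) fun x y => ?_)
  by_cases a1 : StrictMono x
  swap
  · rw [indicator_of_notMem (s := {x : Fin n → ℝ | StrictMono x}) a1]; simp
  by_cases a2 : StrictMono y
  swap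
  · rw [indicator_of_notMem (s := {x : Fin n → ℝ | StrictMono x}) a2]; simp
  rw [indicator_of_mem (s := {x : Fin n → ℝ | StrictMono x}) a1,
    indicator_of_mem (s := {x : Fin n → ℝ | StrictMono x}) a2,
    indicator_of_mem (s := {x : Fin n → ℝ | StrictMono x}) (sm_inf a1 a2).1,
    indicator_of_mem (s := {x : Fin n → ℝ | StrictMono x}) (sm_inf a1 a2).2]
  by_cases b1 : x ∈ O n
  swap
  · rw [indicator_of_notMem b1]; simp
  by_cases b2 : y ∈ O n
  swap
  · rw [indicator_of_notMem b2]; simp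
  have c1 : x ⊓ y ∈ O n := mem_O.2 fun j => lt_min (mem_O.1 b1 j) (mem_O.1 b2 j)
  have c2 : x ⊔ y ∈ O n := mem_O.2 fun j => lt_max_of_lt_left (mem_O.1 b1 j)
  rw [indicator_of_mem b1, indicator_of_mem b2, indicator_of_mem c1, indicator_of_mem c2,
    ← ENNReal.ofReal_mul (mul_nonneg (W_nonneg _) (h1.nn _ b1)),
    ← ENNReal.ofReal_mul (mul_nonneg (W_nonneg _) (h3.nn _ c1))]
  refine ENNReal.ofReal_le_ofReal ?_
  rw [mul_mul_mul_comm, mul_mul_mul_comm (W (x ⊓ y))]
  exact mul_le_mul (W_lsm x y a1 a2) (h x b1 y b2) (mul_nonneg (h1.nn _ b1) (h2.nn _ b2))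
    (mul_nonneg (W_nonneg _) (W_nonneg _))

theorem int1 (m : ℕ) :
    IntegrableOn (fun x : ℝ => Real.exp (-x) * ((1 + x) ^ m * (√x)⁻¹)) (Ioi 0) := by
  have g1 := Real.GammaIntegral_convergent (s := 1 / 2) (by norm_num)
  have g2 := Real.GammaIntegral_convergent (s := m + 1 / 2) (by positivity)
  refine Integrable.mono' ((g1.add g2).const_mul (2 ^ (m - 1))) (Measurable.aestronglyMeasurable
    (by fun_prop)) ((ae_restrict_iff' measurableSet_Ioi).2 (Filter.Eventually.of_forall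
      fun x (hx : 0 < x) => ?_))
  have e1 : x ^ ((1 : ℝ) / 2 - 1) = (√x)⁻¹ := by
    rw [Real.sqrt_eq_rpow, ← Real.rpow_neg hx.le]; norm_num
  have e2 : x ^ ((m : ℝ) + 1 / 2 - 1) = x ^ m * (√x)⁻¹ := by
    rw [← e1, ← Real.rpow_natCast, ← Real.rpow_add hx]; congr 1; ring
  rw [Real.norm_of_nonneg (by positivity)]
  simp only [Pi.add_apply]
  rw [e1, e2]
  have := add_pow_le (zero_le_one' ℝ) hx.le m
  rw [one_pow] at this
  calc Real.exp (-x) * ((1 + x) ^ m * (√x)⁻¹)
      ≤ Real.exp (-x) * ((2 ^ (m - 1) * (1 + x ^ m)) * (√x)⁻¹) := by gcongr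
    _ = _ := by ring

theorem integ {n : ℕ} (g : (Fin n → ℝ) → ℝ) (mg : Measurable g) (C : ℝ)
    (hg : ∀ x ∈ O n, |g x| ≤ C * ∏ j, ((1 + x j) * (√(x j))⁻¹)) :
    IntegrableOn (fun x => W x * g x) (O n) := by
  have h0 := Integrable.fintype_prod (ι := Fin n) (μ := fun _ => volume.restrict (Ioi (0 : ℝ)))
    (f := fun _ x => Real.exp (-x) * ((1 + x) ^ (2 * n * n + 1) * (√x)⁻¹)) fun _ => int1 _
  rw [← Measure.restrict_pi_pi, ← volume_pi] at h0
  refine Integrable.mono' (h0.const_mul |C|)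
    ((W_cont n).measurable.mul mg).aestronglyMeasurable ((ae_restrict_iff'
      (open_O n).measurableSet).2 (Filter.Eventually.of_forall fun x hx => ?_))
  have hx' := mem_O.1 hx
  have hQ1 : ∀ j, 1 + x j ≤ ∏ i, (1 + x i) := fun j => by
    rw [← Finset.mul_prod_erase _ _ (Finset.mem_univ j)]
    exact le_mul_of_one_le_right (by linarith [hx' j])
      (Finset.one_le_prod fun i _ => by linarith [hx' i])
  have hQ : 1 ≤ ∏ i, (1 + x i) := Finset.one_le_prod fun i _ => by linarith [hx' i]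
  have hV : Vd x ≤ (∏ i, (1 + x i)) ^ (2 * n * n) := by
    unfold Vd
    calc ∏ k, ∏ j ∈ Finset.Ioi k, (x j - x k) ^ 2 ≤ ∏ _k : Fin n, (∏ i, (1 + x i)) ^ (2 * n) := by
          refine Finset.prod_le_prod (fun k _ => by positivity) fun k _ => ?_
          calc ∏ j ∈ Finset.Ioi k, (x j - x k) ^ 2
              ≤ ∏ _j ∈ Finset.Ioi k, (∏ i, (1 + x i)) ^ 2 := by
                refine Finset.prod_le_prod (fun k _ => by positivity) fun j _ => ?_
                refine sq_le_sq' ?_ ?_ <;> linarith [hQ1 j, hQ1 k, hx' j, hx' k]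
            _ ≤ _ := by
                rw [Finset.prod_const, ← pow_mul]
                refine pow_le_pow_right₀ hQ (Nat.mul_le_mul_left _ ?_)
                simpa using Finset.card_le_univ (Finset.Ioi k)
      _ = _ := by rw [Finset.prod_const, ← pow_mul]; simp
  have hB : 0 ≤ ∏ j, ((1 + x j) * (√(x j))⁻¹) :=
    Finset.prod_nonneg fun j _ => by have := hx' j; positivity
  rw [Real.norm_eq_abs, abs_mul, abs_of_nonneg (W_nonneg x)]
  calc W x * |g x| ≤ (Real.exp (-∑ j, x j) * (∏ i, (1 + x i)) ^ (2 * n * n)) *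
        (|C| * ∏ j, ((1 + x j) * (√(x j))⁻¹)) := by
        refine mul_le_mul (mul_le_mul_of_nonneg_left hV (Real.exp_pos _).le)
          ((hg x hx).trans (mul_le_mul_of_nonneg_right (le_abs_self _) hB)) (abs_nonneg _)
          (by positivity)
    _ = _ := by
        rw [← Finset.sum_neg_distrib, Real.exp_sum, ← Finset.prod_pow, ← Finset.prod_mul_distrib,
          mul_left_comm, ← Finset.prod_mul_distrib]
        congr 1
        exact Finset.prod_congr rfl fun j _ => by ring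

theorem int_pos {n : ℕ} (g : (Fin n → ℝ) → ℝ) (cg : ContinuousOn g (O n))
    (nn : ∀ x ∈ O n, 0 ≤ g x) (hi : IntegrableOn (fun x => W x * g x) (O n))
    (x0 : Fin n → ℝ) (h0 : x0 ∈ O n) (h1 : Function.Injective x0) (h2 : g x0 ≠ 0) :
    0 < ∫ x in O n, W x * g x := by
  rw [setIntegral_pos_iff_support_of_nonneg_ae ((ae_restrict_iff' (open_O n).measurableSet).2
    (Filter.Eventually.of_forall fun x hx => mul_nonneg (W_nonneg x) (nn x hx))) hi]
  have ho : IsOpen (O n ∩ (fun x => W x * g x) ⁻¹' {0}ᶜ) :=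
    ((W_cont n).continuousOn.mul cg).isOpen_inter_preimage (open_O n) isOpen_compl_singleton
  rw [inter_comm]
  refine ho.measure_pos _ ⟨x0, h0, ?_⟩
  exact mul_ne_zero (mul_pos (Real.exp_pos _) (Vd_pos x0 h1)).ne' h2

theorem prod_gain {ι : Type*} (s : Finset ι) (a d : ι → ℝ) (t : ℝ) (ht : 0 < t)
    (ha : ∀ i, t ≤ a i) (hd : ∀ i, 0 ≤ d i) :
    t * ∏ i ∈ s, a i + t ^ s.card * ∑ i ∈ s, d i ≤ t * ∏ i ∈ s, (a i + d i) := by
  classical
  induction s using Finset.induction_on with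
  | empty => simp
  | insert i s hi ih =>
    rw [Finset.prod_insert hi, Finset.prod_insert hi, Finset.sum_insert hi,
      Finset.card_insert_of_notMem hi, pow_succ]
    have h1 : t ^ s.card ≤ ∏ i ∈ s, a i := by
      rw [← Finset.prod_const]; exact Finset.prod_le_prod (fun _ _ => ht.le) fun j _ => ha j
    have h2 : 0 ≤ ∑ i ∈ s, d i := Finset.sum_nonneg fun j _ => hd j
    have h3 : 0 < t ^ s.card := by positivity
    have h4 := mul_le_mul_of_nonneg_left ih (show 0 ≤ a i + d i by linarith [ha i, hd i])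
    have h5 := mul_le_mul_of_nonneg_left h1 (mul_nonneg ht.le (hd i))
    have h6 := mul_le_mul_of_nonneg_left (ha i) (mul_nonneg h3.le h2)
    have h7 := mul_nonneg (hd i) (mul_nonneg h3.le h2)
    nlinarith

end Pool.Agent.H2.Four
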