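import Mathlib

set_option autoImplicit false

namespace Pool.Agent.H2.RF

open FreeGroup hiding map_mul map_one map_inv

/-- free groups are residually finite -/
theorem free_rf {α : Type} (w : FreeGroup α) (hw : w ≠ 1) :
    ∃ (K : Type) (_ : Group K) (_ : Finite K) (q : FreeGroup α →* K), q w ≠ 1 := by
  classical
  obtain ⟨L, rfl⟩ : ∃ L, w = mk L := ⟨w.toWord, mk_toWord.symm⟩
  let S : Set (FreeGroup α) := {g | ∃ M, M <:+ L ∧ g = mk M}
  have hS : S.Finite := by
    refine ((List.finite_toSet L.tails).image mk).subset ?_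
    rintro g ⟨M, h, rfl⟩
    exact ⟨M, (List.mem_tails _ _).2 h, rfl⟩
  have : Finite S := hS
  have ex : ∀ x : α, ∃ σ : Equiv.Perm S, ∀ (s : S) (h : of x * s.1 ∈ S), σ s = ⟨of x * s.1, h⟩ := by
    intro x
    obtain ⟨σ, hσ⟩ := Equiv.Perm.exists_extending_pair (α := {s : S // of x * s.1 ∈ S})
      (f := fun s => s.1) (g := fun s => (⟨of x * s.1.1, s.2⟩ : S)) Subtype.val_injective
      (fun s t e => Subtype.ext (Subtype.ext (mul_left_cancel (congrArg Subtype.val e))))
    exact ⟨σ, fun s h => hσ ⟨s, h⟩⟩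
  choose σ hσ using ex
  have key : ∀ M (h : M <:+ L), lift σ (mk M) ⟨1, [], List.nil_suffix, rfl⟩ = ⟨mk M, M, h, rfl⟩ := by
    intro M
    induction M with
    | nil => intro h; rfl
    | cons p M ih =>
      intro h
      have h' : M <:+ L := (List.suffix_cons p M).trans h
      obtain ⟨x, b⟩ := p
      have e : mk ((x, b) :: M) = mk [(x, b)] * mk M := by rw [mul_mk]; rfl
      cases b with
      | true =>
        have e' : mk ((x, true) :: M) = of x * mk M := e
        have m : of x * mk M ∈ S := ⟨_, h, e'.symm⟩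
        have : lift σ (mk ((x, true) :: M)) = σ x * lift σ (mk M) := by
          rw [e', map_mul, lift_apply_of]
        rw [this, Equiv.Perm.mul_apply, ih h', hσ x _ m]
        exact Subtype.ext e'.symm
      | false =>
        have e' : mk ((x, false) :: M) = (of x)⁻¹ * mk M := e
        have : lift σ (mk ((x, false) :: M)) = (σ x)⁻¹ * lift σ (mk M) := by
          rw [e', map_mul, map_inv, lift_apply_of]
        rw [this, Equiv.Perm.mul_apply, ih h', Equiv.Perm.inv_eq_iff_eq]
        have m : of x * mk ((x, false) :: M) ∈ S := ⟨M, h', by rw [e']; group⟩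
        rw [hσ x _ m]
        exact Subtype.ext (by simp only [e']; group)
  refine ⟨Equiv.Perm S, inferInstance, inferInstance, lift σ, fun e => hw ?_⟩
  have := key L (List.suffix_refl L)
  rw [e] at this
  exact (congrArg Subtype.val this).symm

theorem free_rf_list {α : Type} (W : List (FreeGroup α)) :
    ∃ (K : Type) (_ : Group K) (_ : Finite K) (q : FreeGroup α →* K),
      ∀ w ∈ W, w ≠ 1 → q w ≠ 1 := by
  induction W with
  | nil => exact ⟨Unit, inferInstance, inferInstance, 1, by simp⟩
  | cons w W ih =>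
    obtain ⟨K, _, _, q, hq⟩ := ih
    by_cases hw : w = 1
    · exact ⟨K, inferInstance, inferInstance, q, fun x hx h1 => by
        rcases List.mem_cons.1 hx with rfl | hx
        · exact (h1 hw).elim
        · exact hq x hx h1⟩
    · obtain ⟨K', _, _, q', hq'⟩ := free_rf w hw
      refine ⟨K × K', inferInstance, inferInstance, q.prod q', fun x hx h1 e => ?_⟩
      rcases List.mem_cons.1 hx with rfl | hx
      · exact hq' (congrArg Prod.snd e)
      · exact hq x hx h1 (congrArg Prod.fst e)

lemma center_free {B : Type} [Nontrivial B] (z : FreeGroup B) (h : ∀ g, g * z = z * g) :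
    z = 1 := by
  classical
  by_contra hz
  obtain ⟨x, w, hw⟩ : ∃ x w, z.toWord = x :: w := by
    cases e : z.toWord with
    | nil => exact (hz (toWord_eq_nil_iff.1 e)).elim
    | cons x w => exact ⟨x, w, rfl⟩
  obtain ⟨c, hc⟩ := exists_ne x.1
  have h1 : (of c * z).toWord = (c, true) :: x :: w := by
    rw [toWord_mul, toWord_of, hw]
    exact IsReduced.reduce_eq (isReduced_cons_cons.2 ⟨fun e => (hc e).elim, hw ▸ isReduced_toWord⟩)
  have h2 := toWord_mul_sublist z (of c)
  rw [← h, h1, hw, toWord_of] at h2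
  have := h2.eq_of_length (by simp)
  simp only [List.cons_append, List.cons.injEq] at this
  exact hc (congrArg Prod.fst this.1)

lemma cyc_free {B : Type} [Subsingleton B] : IsCyclic (FreeGroup B) := by
  cases isEmpty_or_nonempty B with
  | inl h => infer_instance
  | inr h =>
    obtain ⟨b⟩ := h
    refine ⟨of b, fun x => ?_⟩
    show x ∈ Subgroup.zpowers (of b)
    induction x with
    | C1 => exact one_mem _
    | of x => rw [Subsingleton.elim x b]; exact Subgroup.mem_zpowers _
    | inv_of x h => exact inv_mem h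
    | mul x y h k => exact mul_mem h k

lemma cyc_of_center {G : Type} [Group G] [IsFreeGroup G] (z : G) (hz : z ≠ 1)
    (h : ∀ g, g * z = z * g) : IsCyclic G := by
  let e := IsFreeGroup.toFreeGroup G
  cases subsingleton_or_nontrivial (IsFreeGroup.Generators G) with
  | inl _ => exact (MulEquiv.isCyclic e).2 cyc_free
  | inr _ =>
    refine (hz (e.injective ((center_free (e z) fun g => ?_).trans (map_one e).symm))).elim
    obtain ⟨g, rfl⟩ := e.surjective g
    rw [← map_mul, h, map_mul]

/-- an element of a free group which is not a proper power generates its centralizer -/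
lemma mem_zpowers_of_comm {B : Type} (v g : FreeGroup B)
    (hv : ∀ (z : FreeGroup B) (k : ℕ), z ^ k = v → k = 1) (h : g * v = v * g) :
    g ∈ Subgroup.zpowers v := by
  have v1 : v ≠ 1 := fun e => by simpa using hv 1 0 (by simp [e])
  obtain ⟨t, ht⟩ := cyc_of_center (G := Subgroup.centralizer {v})
    ⟨v, Subgroup.mem_centralizer_singleton_iff.2 rfl⟩ (fun e => v1 (congrArg Subtype.val e))
    fun g => Subtype.ext (Subgroup.mem_centralizer_singleton_iff.1 g.2)
  obtain ⟨i, hi⟩ := ht ⟨v, Subgroup.mem_centralizer_singleton_iff.2 rfl⟩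
  obtain ⟨j, hj⟩ := ht ⟨g, Subgroup.mem_centralizer_singleton_iff.2 h⟩
  have hi' : t.1 ^ i = v := congrArg Subtype.val hi
  have hj' : t.1 ^ j = g := congrArg Subtype.val hj
  clear hi hj ht
  have : t.1 ∈ Subgroup.zpowers v := by
    generalize t.1 = t at hi'
    obtain ⟨k, rfl | rfl⟩ := i.eq_nat_or_neg
    · have := hv t k (by simpa using hi')
      subst this
      rw [← hi']; simp
    · have := hv t⁻¹ k (by simpa using hi')
      subst this
      rw [← hi']; simp
  rw [← hj']
  exact Subgroup.zpow_mem _ this _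

/-- two elements of the same order act by left multiplication in conjugate ways -/
lemma exists_tau {K : Type} [Group K] [Finite K] (u v : K) (h : orderOf u = orderOf v) :
    ∃ τ : Equiv.Perm K, ∀ x, τ (u * x) = v * τ x := by
  obtain ⟨S, hS, -⟩ := (Subgroup.zpowers u).exists_isComplement_right 1
  obtain ⟨T, hT, -⟩ := (Subgroup.zpowers v).exists_isComplement_right 1
  have c1 := Nat.card_congr hS.equiv
  have c2 := Nat.card_congr hT.equiv
  rw [Nat.card_prod] at c1 c2
  have c3 : Nat.card (Subgroup.zpowers u : Set K) = orderOf u := Nat.card_zpowers u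
  have c4 : Nat.card (Subgroup.zpowers v : Set K) = orderOf v := Nat.card_zpowers v
  have c : Nat.card S = Nat.card T := by
    rw [c3] at c1; rw [c4, ← h] at c2
    exact Nat.eq_of_mul_eq_mul_left (orderOf_pos u) (c1.symm.trans c2)
  obtain ⟨ψ⟩ := Finite.card_eq.1 c
  let φ : Subgroup.zpowers u ≃ Subgroup.zpowers v := zpowersEquivZPowers h
  have hφ : ∀ s : Subgroup.zpowers u, φ (⟨u, Subgroup.mem_zpowers u⟩ * s) =
      ⟨v, Subgroup.mem_zpowers v⟩ * φ s := by
    rintro ⟨s, hs⟩
    obtain ⟨n, rfl⟩ := (mem_powers_iff_mem_zpowers).2 hs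
    have e1 := zpowersEquivZPowers_apply h n
    have e2 := zpowersEquivZPowers_apply h (n + 1)
    have : (⟨u, Subgroup.mem_zpowers u⟩ * ⟨u ^ n, hs⟩ : Subgroup.zpowers u) =
        ⟨u ^ (n + 1), (n + 1 : ℕ), zpow_natCast u _⟩ := Subtype.ext (pow_succ' u n).symm
    show φ (⟨u, Subgroup.mem_zpowers u⟩ * ⟨u ^ n, hs⟩) = ⟨v, Subgroup.mem_zpowers v⟩ * φ ⟨u ^ n, hs⟩
    rw [this]
    show zpowersEquivZPowers h _ = _ * zpowersEquivZPowers h ⟨u ^ n, n, zpow_natCast u n⟩
    rw [e1, e2]
    exact Subtype.ext (pow_succ' v n)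
  refine ⟨hS.equiv.trans ((φ.prodCongr ψ).trans hT.equiv.symm), fun x => ?_⟩
  have e1 := hS.equiv_mul_left ⟨u, Subgroup.mem_zpowers u⟩ x
  simp only [Equiv.trans_apply]
  rw [show u * x = (⟨u, Subgroup.mem_zpowers u⟩ : Subgroup.zpowers u) * x from rfl, e1]
  apply hT.equiv.injective
  have e2 := hT.equiv_mul_left ⟨v, Subgroup.mem_zpowers v⟩
    (hT.equiv.symm (φ.prodCongr ψ (hS.equiv x)))
  rw [Equiv.apply_symm_apply]
  refine Eq.trans ?_ e2.symm
  rw [Equiv.apply_symm_apply]
  exact Prod.ext (hφ _) rfl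

end Pool.Agent.H2.RF
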