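import Mathlib

open Finset Module

namespace Pool.Agent.H2.Joint

abbrev E : Type := EuclideanSpace ℝ (Fin 3)

abbrev Aff : Type := AffineSubspace ℝ E

def IsLine (l : Aff) : Prop := finrank ℝ l.direction = 1

def IsPlane (P : Aff) : Prop := finrank ℝ P.direction = 2

def IsJoint (L : Finset Aff) (p : E) : Prop :=
  ∃ (l : Fin 3 → Aff) (v : Fin 3 → E), (∀ i, l i ∈ L ∧ p ∈ l i ∧ v i ∈ (l i).direction) ∧
    LinearIndependent ℝ v

noncomputable def joints (L : Finset Aff) : ℕ := {p | IsJoint L p}.ncard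

def Generic (H : Finset Aff) : Prop :=
  (∀ P ∈ H, IsPlane P) ∧
  (∀ P ∈ H, ∀ Q ∈ H, P ≠ Q → ¬ P.Parallel Q) ∧
  (∀ P ∈ H, ∀ Q ∈ H, ∀ R ∈ H, P ≠ Q → P ≠ R → Q ≠ R →
    ¬ ∃ l, IsLine l ∧ l ≤ P ∧ l ≤ Q ∧ l ≤ R) ∧
  (∀ P ∈ H, ∀ Q ∈ H, ∀ R ∈ H, ∀ S ∈ H, P ≠ Q → P ≠ R → P ≠ S → Q ≠ R → Q ≠ S → R ≠ S →
    ¬ ∃ p, p ∈ P ∧ p ∈ Q ∧ p ∈ R ∧ p ∈ S)

def linesOf (H : Finset Aff) : Set Aff := {l | ∃ P ∈ H, ∃ Q ∈ H, P ≠ Q ∧ l = P ⊓ Q}

theorem ne_bot {P : Aff} (h : 0 < finrank ℝ P.direction) : (P : Set E).Nonempty := by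
  rcases P.eq_bot_or_nonempty with rfl | h'
  · rw [AffineSubspace.direction_bot, finrank_bot] at h
    exact absurd h (lt_irrefl _)
  · exact h'

theorem inf_dir {P Q : Aff} (hP : IsPlane P) (hQ : IsPlane Q) (h : P.direction ≠ Q.direction) :
    P.direction ⊔ Q.direction = ⊤ ∧ finrank ℝ (P.direction ⊓ Q.direction : Submodule ℝ E) = 1 := by
  unfold IsPlane at hP hQ
  have h1 : P.direction < P.direction ⊔ Q.direction := by
    refine lt_of_le_of_ne le_sup_left fun e => h ?_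
    exact (Submodule.eq_of_le_of_finrank_eq (le_sup_right.trans e.ge) (hQ.trans hP.symm)).symm
  have h2 := Submodule.finrank_lt_finrank_of_lt h1
  have h3 := Submodule.finrank_le (P.direction ⊔ Q.direction)
  have h4 : finrank ℝ E = 3 := by simp
  have h5 := Submodule.finrank_sup_add_finrank_inf_eq P.direction Q.direction
  exact ⟨Submodule.eq_top_of_finrank_eq (by omega), by omega⟩

theorem inf_line {P Q : Aff} (hP : IsPlane P) (hQ : IsPlane Q) (h : P.direction ≠ Q.direction) :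
    IsLine (P ⊓ Q) := by
  obtain ⟨h1, h2⟩ := inf_dir hP hQ h
  obtain ⟨p, hp, hq⟩ := AffineSubspace.inter_nonempty_of_nonempty_of_sup_direction_eq_top
    (ne_bot (by rw [hP]; norm_num)) (ne_bot (by rw [hQ]; norm_num)) h1
  unfold IsLine
  rw [AffineSubspace.direction_inf_of_mem hp hq, h2]

theorem eq_inf {P Q l : Aff} (hP : IsPlane P) (hQ : IsPlane Q) (h : P ≠ Q) (hl : IsLine l)
    (h1 : l ≤ P) (h2 : l ≤ Q) : l = P ⊓ Q := by
  obtain ⟨p, hp⟩ := ne_bot (P := l) (by rw [hl]; norm_num)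
  have hd : P.direction ≠ Q.direction := fun e =>
    h (AffineSubspace.ext_of_direction_eq e ⟨p, h1 hp, h2 hp⟩)
  refine AffineSubspace.eq_of_direction_eq_of_nonempty_of_le ?_ ⟨p, hp⟩ (le_inf h1 h2)
  exact Submodule.eq_of_le_of_finrank_eq (AffineSubspace.direction_le (le_inf h1 h2))
    (hl.trans (inf_line hP hQ hd).symm)

theorem dir_ne {P Q : Aff} (hP : IsPlane P) (hQ : IsPlane Q) (h : ¬ P.Parallel Q) :
    P.direction ≠ Q.direction := fun e => h <|
  AffineSubspace.parallel_iff_direction_eq_and_eq_bot_iff_eq_bot.2 ⟨e,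
    iff_of_false ((AffineSubspace.nonempty_iff_ne_bot _).1 (ne_bot (by rw [hP]; norm_num)))
      ((AffineSubspace.nonempty_iff_ne_bot _).1 (ne_bot (by rw [hQ]; norm_num)))⟩

theorem card_lines {H : Finset Aff} (hH : Generic H) :
    (linesOf H).Finite ∧ #H * #H ≤ 2 * (linesOf H).ncard + #H := by
  classical
  have e : linesOf H = (H.offDiag.image fun x => x.1 ⊓ x.2 : Finset Aff) := by
    ext l
    simp only [linesOf, Set.mem_setOf_eq, coe_image, Set.mem_image, mem_coe, mem_offDiag]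
    exact ⟨fun ⟨P, a, Q, b, c, d⟩ => ⟨(P, Q), ⟨a, b, c⟩, d.symm⟩,
      fun ⟨x, ⟨a, b, c⟩, d⟩ => ⟨x.1, a, x.2, b, c, d.symm⟩⟩
  rw [e, Set.ncard_coe_finset]
  refine ⟨Finset.finite_toSet _, ?_⟩
  have h1 : #H.offDiag ≤ 2 * #(H.offDiag.image fun x => x.1 ⊓ x.2) := by
    refine card_le_mul_card_image _ 2 fun l hl => ?_
    obtain ⟨⟨P, Q⟩, hx, rfl⟩ := mem_image.1 hl
    obtain ⟨a, b, c⟩ := mem_offDiag.1 hx
    have hl := inf_line (hH.1 P a) (hH.1 Q b) (dir_ne (hH.1 P a) (hH.1 Q b) (hH.2.1 P a Q b c))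
    have key : ∀ R ∈ H, P ⊓ Q ≤ R → R = P ∨ R = Q := by
      intro R hR h
      by_contra hc
      push Not at hc
      exact hH.2.2.1 P a Q b R hR c hc.1.symm hc.2.symm ⟨_, hl, inf_le_left, inf_le_right, h⟩
    refine le_trans (card_le_card (t := {(P, Q), (Q, P)}) ?_) card_le_two
    rintro ⟨R, S⟩ hy
    obtain ⟨hy, e⟩ := mem_filter.1 hy
    obtain ⟨a', b', c'⟩ := mem_offDiag.1 hy
    simp only at a' b' c' e
    rcases key R a' (e.ge.trans inf_le_left) with rfl | rfl <;>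
      rcases key S b' (e.ge.trans inf_le_right) with rfl | rfl <;> simp at c' ⊢
  rw [offDiag_card] at h1
  omega

/-! ### the configuration -/

noncomputable def f (t : ℝ) : E →ₗ[ℝ] ℝ where
  toFun x := x 0 + t * x 1 + t ^ 2 * x 2
  map_add' x y := by simp; ring
  map_smul' c x := by simp; ring

theorem f_apply (t : ℝ) (x : E) : f t x = x 0 + t * x 1 + t ^ 2 * x 2 := rfl

noncomputable def c (i : ℕ × Bool) : ℝ := (i.1 : ℝ) ^ 3 + √2 * (if i.2 then 1 else 0 : ℤ)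

noncomputable def pl (i : ℕ × Bool) : Aff :=
  AffineSubspace.mk' !₂[c i, 0, 0] (LinearMap.ker (f i.1))

theorem mem_pl {i : ℕ × Bool} {x : E} : x ∈ pl i ↔ f i.1 x = c i := by
  rw [pl, AffineSubspace.mem_mk', LinearMap.mem_ker, vsub_eq_sub, map_sub, sub_eq_zero]
  simp [f_apply]

theorem dir_pl (i : ℕ × Bool) : (pl i).direction = LinearMap.ker (f i.1) :=
  AffineSubspace.direction_mk' _ _

theorem plane_pl (i : ℕ × Bool) : IsPlane (pl i) := by
  unfold IsPlane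
  rw [dir_pl]
  have h1 := LinearMap.finrank_range_add_finrank_ker (f i.1)
  have h2 : LinearMap.range (f i.1) = ⊤ := by
    rw [LinearMap.range_eq_top]
    intro y
    exact ⟨!₂[y, 0, 0], by simp [f_apply]⟩
  rw [h2] at h1
  simp at h1
  omega

noncomputable def dv (a b : ℝ) : E := !₂[a * b, -(a + b), 1]

theorem f_dv (t a b : ℝ) : f t (dv a b) = (t - a) * (t - b) := by
  simp [f_apply, dv]; ring

theorem dir_ne_pl {i j : ℕ × Bool} (h : i.1 ≠ j.1) : (pl i).direction ≠ (pl j).direction := by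
  intro e
  have : dv i.1 i.1 ∈ (pl i).direction := by rw [dir_pl, LinearMap.mem_ker, f_dv]; simp
  rw [e, dir_pl, LinearMap.mem_ker, f_dv, mul_self_eq_zero, sub_eq_zero] at this
  exact h (by exact_mod_cast this.symm)

theorem same {i j : ℕ × Bool} {x : E} (hi : x ∈ pl i) (hj : x ∈ pl j) (h : i.1 = j.1) : i = j := by
  rw [mem_pl] at hi hj
  obtain ⟨a, e⟩ := i
  obtain ⟨b, e'⟩ := j
  simp only at h
  subst h
  have h2 : c (a, e) = c (a, e') := hi.symm.trans hj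
  have h3 : (√2 : ℝ) ≠ 0 := by positivity
  cases e <;> cases e' <;> simp [c, h3] at h2 ⊢

theorem uniq {a b d : ℝ} (h1 : a ≠ b) (h2 : a ≠ d) (h3 : b ≠ d) {x : E} (ha : f a x = 0)
    (hb : f b x = 0) (hd : f d x = 0) : x = 0 := by
  rw [f_apply] at ha hb hd
  have k1 : x 1 + (a + b) * x 2 = 0 :=
    mul_left_cancel₀ (sub_ne_zero.2 h1) (by linear_combination ha - hb)
  have k2 : x 1 + (a + d) * x 2 = 0 :=
    mul_left_cancel₀ (sub_ne_zero.2 h2) (by linear_combination ha - hd)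
  have k3 : x 2 = 0 := mul_left_cancel₀ (sub_ne_zero.2 h3) (by linear_combination k1 - k2)
  have k4 : x 1 = 0 := by rw [k3] at k1; linarith
  have k5 : x 0 = 0 := by rw [k3, k4] at ha; linarith
  ext i
  fin_cases i <;> simp [k3, k4, k5]

theorem no_three {i j r : ℕ × Bool} {l : Aff} (hl : IsLine l) (h : i ≠ j) (h1 : l ≤ pl i)
    (h2 : l ≤ pl j) (h3 : l ≤ pl r) : r = i ∨ r = j := by
  by_contra hc
  push Not at hc
  obtain ⟨p, hp⟩ := ne_bot (P := l) (by rw [hl]; norm_num)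
  have hb : l.direction = ⊥ := by
    rw [eq_bot_iff]
    intro x hx
    have a1 := AffineSubspace.direction_le h1 hx
    have a2 := AffineSubspace.direction_le h2 hx
    have a3 := AffineSubspace.direction_le h3 hx
    rw [dir_pl, LinearMap.mem_ker] at a1 a2 a3
    refine uniq ?_ ?_ ?_ a1 a2 a3
    · exact fun e => h (same (h1 hp) (h2 hp) (by exact_mod_cast e))
    · exact fun e => hc.1 (same (h1 hp) (h3 hp) (by exact_mod_cast e)).symm
    · exact fun e => hc.2 (same (h2 hp) (h3 hp) (by exact_mod_cast e)).symm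
  unfold IsLine at hl
  rw [hb] at hl
  simp at hl

theorem no_four {i j r s : ℕ × Bool} {x : E} (h1 : i.1 ≠ j.1) (h2 : i.1 ≠ r.1) (h3 : j.1 ≠ r.1)
    (hi : x ∈ pl i) (hj : x ∈ pl j) (hr : x ∈ pl r) (hs : x ∈ pl s) :
    s = i ∨ s = j ∨ s = r := by
  by_contra hc
  push Not at hc
  have h4 : i.1 ≠ s.1 := fun e => hc.1 (same hi hs e).symm
  have h5 : j.1 ≠ s.1 := fun e => hc.2.1 (same hj hs e).symm
  have h6 : r.1 ≠ s.1 := fun e => hc.2.2 (same hr hs e).symm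
  rw [mem_pl, f_apply, c] at hi hj hr hs
  generalize (if i.2 then 1 else 0 : ℤ) = e1 at hi
  generalize (if j.2 then 1 else 0 : ℤ) = e2 at hj
  generalize (if r.2 then 1 else 0 : ℤ) = e3 at hr
  generalize (if s.2 then 1 else 0 : ℤ) = e4 at hs
  generalize i.1 = a at *
  generalize j.1 = b at *
  generalize r.1 = d at *
  generalize s.1 = g at *
  let V : ℤ := (a - b) * (a - d) * (a - g) * (b - d) * (b - g) * (d - g)
  let W : ℤ := -(e1 * ((b - d) * (b - g) * (d - g)) - e2 * ((a - d) * (a - g) * (d - g)) +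
    e3 * ((a - b) * (a - g) * (b - g)) - e4 * ((a - b) * (a - d) * (b - d)))
  have hV : V ≠ 0 := by
    simp only [V, mul_ne_zero_iff, sub_ne_zero]
    refine ⟨⟨⟨⟨⟨?_, ?_⟩, ?_⟩, ?_⟩, ?_⟩, ?_⟩ <;> exact_mod_cast ‹_›
  have key : √2 * (W : ℝ) = V := by
    simp only [V, W]
    push_cast
    linear_combination ((b - d) * (b - g) * (d - g) : ℝ) * hi -
      ((a - d) * (a - g) * (d - g) : ℝ) * hj + ((a - b) * (a - g) * (b - g) : ℝ) * hr -
      ((a - b) * (a - d) * (b - d) : ℝ) * hs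
  by_cases hW : W = 0
  · rw [hW] at key
    exact hV (by exact_mod_cast (by simpa using key.symm : (V : ℝ) = 0))
  · exact (irrational_sqrt_two.mul_intCast hW).ne_int V key

theorem exists_pt {i j r : ℕ × Bool} (h1 : i.1 ≠ j.1) (h2 : i.1 ≠ r.1) (h3 : j.1 ≠ r.1) :
    ∃ x, x ∈ pl i ∧ x ∈ pl j ∧ x ∈ pl r := by
  obtain ⟨p, hp⟩ := ne_bot (P := pl i ⊓ pl j)
    (by rw [inf_line (plane_pl i) (plane_pl j) (dir_ne_pl h1)]; norm_num)
  have a1 : (r.1 : ℝ) - i.1 ≠ 0 := sub_ne_zero.2 (by exact_mod_cast h2.symm)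
  have a2 : (r.1 : ℝ) - j.1 ≠ 0 := sub_ne_zero.2 (by exact_mod_cast h3.symm)
  refine ⟨p + ((c r - f r.1 p) / ((r.1 - i.1) * (r.1 - j.1))) • dv i.1 j.1, ?_, ?_, ?_⟩
  · rw [mem_pl, map_add, map_smul, f_dv, mem_pl.1 hp.1]; simp
  · rw [mem_pl, map_add, map_smul, f_dv, mem_pl.1 hp.2]; simp
  · rw [mem_pl, map_add, map_smul, f_dv, smul_eq_mul, div_mul_cancel₀ _ (mul_ne_zero a1 a2)]
    ring

end Pool.Agent.H2.Joint
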