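import Mathlib

set_option autoImplicit false

namespace Pool.Agent.H2.MB
open AddMonoidAlgebra
open scoped commutatorElement

abbrev P := ℤ × ℤ
abbrev L := AddMonoidAlgebra ℤ P
noncomputable def e (p : P) : L := single p 1

theorem e_add (p q : P) : e (p + q) = e p * e q := by simp [e]
@[simp] theorem e_zero : e 0 = 1 := rfl
theorem e_neg (p : P) : e (-p) * e p = 1 := by rw [← e_add]; simp
theorem e_neg' (p : P) : e p * e (-p) = 1 := by rw [← e_add]; simp
theorem e_ne {p : P} (h : p ≠ 0) : e p - 1 ≠ 0 := by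
  intro h'
  have := congrArg (fun z : L => z.coeff 0) (sub_eq_zero.1 h')
  simp [e, one_def, h] at this

@[ext] structure W where
  u : L
  p : P

noncomputable instance : Mul W := ⟨fun a b => ⟨a.u + e a.p * b.u, a.p + b.p⟩⟩
noncomputable instance : One W := ⟨⟨0, 0⟩⟩
noncomputable instance : Inv W := ⟨fun a => ⟨-(e (-a.p) * a.u), -a.p⟩⟩
@[simp] theorem mul_u (a b : W) : (a * b).u = a.u + e a.p * b.u := rfl
@[simp] theorem mul_p (a b : W) : (a * b).p = a.p + b.p := rfl
@[simp] theorem one_u : (1 : W).u = 0 := rfl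
@[simp] theorem one_p : (1 : W).p = 0 := rfl
@[simp] theorem inv_u (a : W) : (a⁻¹).u = -(e (-a.p) * a.u) := rfl
@[simp] theorem inv_p (a : W) : (a⁻¹).p = -a.p := rfl

noncomputable instance : Group W := Group.ofLeftAxioms
  (fun a b c => by
    apply W.ext
    · simp only [mul_u, mul_p, e_add]; ring
    · simp [add_assoc])
  (fun a => by apply W.ext <;> simp)
  (fun a => by apply W.ext <;> simp)

/-- the projection as a homomorphism -/
noncomputable def pr : W →* Multiplicative P where
  toFun a := Multiplicative.ofAdd a.p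
  map_one' := rfl
  map_mul' _ _ := rfl

theorem zpow_p (a : W) (n : ℤ) : (a ^ n).p = n • a.p := by
  have := map_zpow pr a n
  exact congrArg Multiplicative.toAdd this

theorem comm_p (a b : W) : (⁅a, b⁆ : W).p = 0 := by
  simp [commutatorElement_def]

theorem comm_u (a b : W) (hb : b.p = 0) : (⁅a, b⁆ : W).u = (e a.p - 1) * b.u := by
  simp only [commutatorElement_def, mul_u, mul_p, inv_u, inv_p, hb, add_zero, neg_zero, e_zero,
    add_neg_cancel]
  linear_combination (-a.u) * e_neg' a.p

theorem zpow_u (a : W) (ha : a.p = 0) (n : ℤ) : (a ^ n).u = (n : L) * a.u := by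
  induction n using Int.induction_on with
  | zero => simp
  | succ n ih => rw [zpow_add_one, mul_u, ih, zpow_p, ha]; simp; ring
  | pred n ih => rw [zpow_sub_one]; simp only [mul_u, ih, zpow_p, ha, inv_u]; simp; ring

theorem zpow_u0 (a : W) (ha : a.u = 0) (n : ℤ) : (a ^ n).u = 0 := by
  induction n using Int.induction_on with
  | zero => simp
  | succ n ih => rw [zpow_add_one, mul_u, ih, ha]; simp
  | pred n ih => rw [zpow_sub_one]; simp only [mul_u, ih, ha, inv_u]; simp

theorem comm0 (a b : W) (ha : a.p = 0) (hb : b.p = 0) : a * b = b * a := by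
  apply W.ext <;> simp [ha, hb, add_comm]

theorem metab {H : Type*} [Group H] (N : Subgroup H) (h1 : ∀ a b : H, ⁅a, b⁆ ∈ N)
    (h2 : ∀ a ∈ N, ∀ b ∈ N, a * b = b * a) : derivedSeries H 2 = ⊥ := by
  have : derivedSeries H 1 ≤ N := by
    rw [derivedSeries_succ, Subgroup.commutator_le]; intro a _ b _; exact h1 a b
  rw [derivedSeries_succ, eq_bot_iff, Subgroup.commutator_le]
  intro a ha b hb
  exact Subgroup.mem_bot.2 (commutatorElement_eq_one_iff_mul_comm.2 (h2 a (this ha) b (this hb)))

abbrev G := FreeGroup (Fin 2) ⧸ derivedSeries (FreeGroup (Fin 2)) 2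

noncomputable def μ : G →* W :=
  QuotientGroup.lift _ (FreeGroup.lift ![⟨1, (1, 0)⟩, ⟨0, (0, 1)⟩]) (by
    intro g hg
    have h := map_derivedSeries_le_derivedSeries
      (FreeGroup.lift ![(⟨1, (1, 0)⟩ : W), ⟨0, (0, 1)⟩]) 2 ⟨g, hg, rfl⟩
    rw [metab pr.ker (fun a b => congrArg Multiplicative.ofAdd (comm_p a b))
      (fun a ha b hb => comm0 a b (congrArg Multiplicative.toAdd ha)
        (congrArg Multiplicative.toAdd hb))] at h
    exact h)

def x : G := QuotientGroup.mk (FreeGroup.of 0)
def y : G := QuotientGroup.mk (FreeGroup.of 1)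
theorem μx : μ x = ⟨1, (1, 0)⟩ := (QuotientGroup.lift_mk _ _ _).trans (by simp)
theorem μy : μ y = ⟨0, (0, 1)⟩ := (QuotientGroup.lift_mk _ _ _).trans (by simp)

theorem gen (H : Subgroup G) (hx : x ∈ H) (hy : y ∈ H) (g : G) : g ∈ H := by
  obtain ⟨g, rfl⟩ := QuotientGroup.mk_surjective g
  induction g using FreeGroup.induction_on with
  | C1 => exact H.one_mem
  | of i => fin_cases i; exacts [hx, hy]
  | inv_of i h => exact H.inv_mem h
  | mul a b ha hb => exact H.mul_mem ha hb

theorem Gcomm {a b : G} (ha : a ∈ commutator G) (hb : b ∈ commutator G) : a * b = b * a := by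
  have h := map_derivedSeries_eq (QuotientGroup.mk'_surjective
    (derivedSeries (FreeGroup (Fin 2)) 2)) 2
  rw [QuotientGroup.map_mk'_self] at h
  have : ⁅a, b⁆ ∈ derivedSeries G 2 := Subgroup.commutator_mem_commutator ha hb
  rw [← h] at this
  exact commutatorElement_eq_one_iff_mul_comm.1 this

def c : G := ⁅x, y⁆
theorem μc : μ c = ⟨1 - e (0, 1), 0⟩ := by
  apply W.ext
  · simp only [c, commutatorElement_def, map_mul, map_inv, μx, μy, mul_u,
      inv_u, mul_p, inv_p, e_add]
    linear_combination (-e (0, 1)) * e_neg' (1, 0)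
  · simp only [c, map_commutatorElement, comm_p]

def s (p : P) : G := x ^ p.1 * y ^ p.2
theorem μs (p : P) : (μ (s p)).p = p := by simp [s, zpow_p, μx, μy]

theorem decomp (g : G) : g * (s (μ g).p)⁻¹ ∈ commutator G := by
  let h : G →* Abelianization G :=
    { toFun := fun g => Abelianization.of (s (μ g).p)
      map_one' := by simp [s]
      map_mul' := fun a b => by
        simp only [s, map_mul, mul_p, map_zpow, Prod.fst_add, Prod.snd_add, zpow_add]
        exact mul_mul_mul_comm _ _ _ _ }
  have : g ∈ Abelianization.of.eqLocus h :=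
    gen _ (by show _ = Abelianization.of _; simp [s, μx])
      (by show _ = Abelianization.of _; simp [s, μy]) g
  rw [← Abelianization.ker_of, MonoidHom.mem_ker, map_mul, map_inv, mul_inv_eq_one]
  exact this

theorem cN (g : G) : g * c * g⁻¹ ∈ commutator G :=
  (inferInstance : (commutator G).Normal).conj_mem _
    (Subgroup.commutator_mem_commutator (Subgroup.mem_top _) (Subgroup.mem_top _)) g

noncomputable instance : CommGroup (commutator G) :=
  { (inferInstance : Group (commutator G)) with
    mul_comm := fun a b => Subtype.ext (Gcomm a.2 b.2) }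

noncomputable def φ0 : L →+ Additive (commutator G) :=
  (Finsupp.liftAddHom fun p =>
    zmultiplesHom _ (Additive.ofMul (⟨s p * c * (s p)⁻¹, cN _⟩ : commutator G))).comp
    AddMonoidAlgebra.coeffAddEquiv.toAddMonoidHom

noncomputable def φ (l : L) : G := (φ0 l).toMul.1
theorem φ_zero : φ 0 = 1 := by simp [φ]
theorem φ_add (a b : L) : φ (a + b) = φ a * φ b := by simp [φ]
theorem φ_neg (a : L) : φ (-a) = (φ a)⁻¹ := by simp [φ]
theorem φ_single (p : P) (n : ℤ) : φ (single p n) = (s p * c * (s p)⁻¹) ^ n := by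
  simp [φ, φ0]

theorem φ_conj (g : G) (l : L) : g * φ l * g⁻¹ = φ (e (μ g).p * l) := by
  induction l using AddMonoidAlgebra.induction_linear with
  | zero => simp [φ_zero]
  | add a b ha hb => rw [mul_add, φ_add, φ_add, ← ha, ← hb]; group
  | single p n =>
    rw [e, single_mul_single, φ_single, φ_single, one_mul, ← conj_zpow]
    congr 1
    have h := decomp (g * s p)
    rw [map_mul, mul_p, μs] at h
    have := Gcomm h (cN (s ((μ g).p + p)))
    calc _ = (g * s p * (s ((μ g).p + p))⁻¹ * (s ((μ g).p + p) * c * (s ((μ g).p + p))⁻¹)) *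
          (g * s p * (s ((μ g).p + p))⁻¹)⁻¹ := by group
      _ = _ := by rw [this]; group

theorem μφ (l : L) : μ (φ l) = ⟨l * (1 - e (0, 1)), 0⟩ := by
  induction l using AddMonoidAlgebra.induction_linear with
  | zero => rw [φ_zero, map_one]; apply W.ext <;> simp
  | add a b ha hb => rw [φ_add, map_mul, ha, hb]; apply W.ext <;> simp [add_mul]
  | single p n =>
    have h : μ (s p * c * (s p)⁻¹) = ⟨e p * (1 - e (0, 1)), 0⟩ := by
      apply W.ext
      · simp only [map_mul, map_inv, μc, mul_u, inv_u, mul_p, μs, add_zero]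
        linear_combination (-(μ (s p)).u) * e_neg' p
      · simp [μc]
    rw [φ_single, map_zpow, h]
    apply W.ext
    · rw [zpow_u _ rfl, ← mul_assoc]
      congr 1
      simp [e, ← zsmul_eq_mul]
    · simp [zpow_p]

noncomputable def K : Subgroup G where
  carrier := Set.range φ
  one_mem' := ⟨0, φ_zero⟩
  mul_mem' := by rintro _ _ ⟨a, rfl⟩ ⟨b, rfl⟩; exact ⟨_, φ_add a b⟩
  inv_mem' := by rintro _ ⟨a, rfl⟩; exact ⟨_, φ_neg a⟩

instance : K.Normal := ⟨by rintro _ ⟨a, rfl⟩ g; exact ⟨_, (φ_conj g a).symm⟩⟩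

theorem NK : commutator G ≤ K := by
  have hc : (QuotientGroup.mk' K x) * QuotientGroup.mk' K y =
      QuotientGroup.mk' K y * QuotientGroup.mk' K x := by
    rw [← commutatorElement_eq_one_iff_mul_comm, ← map_commutatorElement]
    exact (QuotientGroup.eq_one_iff _).2 ⟨single 0 1, by simp [φ_single, s, c]⟩
  have h1 : ∀ g, g ∈ (Subgroup.centralizer {QuotientGroup.mk' K x}).comap (QuotientGroup.mk' K) :=
    gen _ (by simp [Subgroup.mem_centralizer_singleton_iff])
      (Subgroup.mem_centralizer_singleton_iff.2 hc.symm)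
  have h2 : ∀ g, g ∈ (Subgroup.centralizer {QuotientGroup.mk' K y}).comap (QuotientGroup.mk' K) :=
    gen _ (Subgroup.mem_centralizer_singleton_iff.2 hc)
      (by simp [Subgroup.mem_centralizer_singleton_iff])
  rw [commutator_def, Subgroup.commutator_le]
  intro a _ b _
  have h3 : a ∈ (Subgroup.centralizer {QuotientGroup.mk' K b}).comap (QuotientGroup.mk' K) :=
    gen _ (Subgroup.mem_comap.2 (Subgroup.mem_centralizer_singleton_iff.2
        (Subgroup.mem_centralizer_singleton_iff.1 (Subgroup.mem_comap.1 (h1 b))).symm))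
      (Subgroup.mem_comap.2 (Subgroup.mem_centralizer_singleton_iff.2
        (Subgroup.mem_centralizer_singleton_iff.1 (Subgroup.mem_comap.1 (h2 b))).symm)) a
  rw [← QuotientGroup.eq_one_iff]
  show QuotientGroup.mk' K _ = 1
  rw [map_commutatorElement, commutatorElement_eq_one_iff_mul_comm]
  exact Subgroup.mem_centralizer_singleton_iff.1 h3

theorem Yne : 1 - e (0, 1) ≠ 0 := fun h =>
  e_ne (p := (0, 1)) (by simp) (by linear_combination -h)

theorem μ_inj : Function.Injective μ := by
  rw [injective_iff_map_eq_one]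
  intro g hg
  have h := decomp g
  rw [hg] at h
  simp only [s, one_p, Prod.fst_zero, Prod.snd_zero, zpow_zero, mul_one, inv_one] at h
  obtain ⟨l, rfl⟩ := NK h
  have := congrArg W.u (μφ l)
  rw [hg] at this
  rw [(mul_eq_zero.1 this.symm).resolve_right Yne, φ_zero]

end Pool.Agent.H2.MB
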