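import Pool.Agent.H2.MB1

set_option autoImplicit false

namespace Pool.Agent.H2.MB
open AddMonoidAlgebra Filter
open scoped commutatorElement Nat

instance : CharZero L := ⟨fun a b h => by
  have := congrArg (fun z : L => z.coeff 0) h
  simpa using this⟩

abbrev Q := ℤ × ℤ × ℤ
abbrev LQ := AddMonoidAlgebra ℤ Q
def π (j : ℕ) : Q →+ P where
  toFun q := (q.2.2, q.2.1 - j * q.1)
  map_zero' := by simp
  map_add' a b := by ext <;> simp; ring
theorem π_def (j : ℕ) (a b c : ℤ) : π j (a, b, c) = (c, b - j * a) := by rfl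
noncomputable def ππ (j : ℕ) : LQ →+* L := mapDomainRingHom ℤ (π j)
noncomputable def E (q : Q) : LQ := single q 1
theorem ππ_single (j : ℕ) (q : Q) (n : ℤ) : ππ j (single q n) = single (π j q) n := by
  simp [ππ]
theorem ππE (j : ℕ) (q : Q) : ππ j (E q) = e (π j q) := ππ_single _ _ _
def w (i j : ℕ) : ℤ := if j % 2 = i then (j ! : ℕ) else 0

theorem ev_ne {q : Q} (hq : q ≠ 0) : ∀ᶠ j in atTop, π j q ≠ 0 := by
  obtain ⟨a, b, c⟩ := q
  filter_upwards [eventually_gt_atTop b.natAbs] with j hj h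
  simp only [π_def, Prod.mk_eq_zero] at h
  obtain ⟨rfl, h⟩ := h
  have h2 := congrArg Int.natAbs (sub_eq_zero.1 h)
  rw [Int.natAbs_mul, Int.natAbs_natCast] at h2
  have ha : a.natAbs = 0 := by
    by_contra h3
    nlinarith [Nat.pos_of_ne_zero h3]
  rw [Int.natAbs_eq_zero] at ha
  subst ha
  simp at h
  simp [h] at hq

theorem ev_coeff (U : LQ) (v : Q) : ∀ᶠ j in atTop, (ππ j U).coeff (π j v) = U.coeff v := by
  induction U using AddMonoidAlgebra.induction_linear with
  | zero => simp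
  | add a b ha hb => filter_upwards [ha, hb] with j h1 h2; simp [h1, h2]
  | single q n =>
    by_cases h : q = v
    · subst h; simp [ππ_single]
    · filter_upwards [ev_ne (sub_ne_zero.2 h)] with j hj
      rw [map_sub, sub_ne_zero] at hj
      simp [ππ_single, Finsupp.single_apply, h, hj]

theorem key (U V0 V1 : LQ)
    (h : ∀ᶠ j in atTop, ππ j U + (w 0 j : L) * ππ j V0 + (w 1 j : L) * ππ j V1 = 0) :
    U = 0 ∧ V0 = 0 ∧ V1 = 0 := by
  have : ∀ v, U.coeff v = 0 ∧ V0.coeff v = 0 ∧ V1.coeff v = 0 := by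
    intro v
    have h1 : ∀ᶠ j in atTop, U.coeff v + w 0 j * V0.coeff v + w 1 j * V1.coeff v = 0 := by
      filter_upwards [h, ev_coeff U v, ev_coeff V0 v, ev_coeff V1 v] with j h a b c
      have := congrArg (fun z : L => z.coeff (π j v)) h
      simpa [← zsmul_eq_mul, a, b, c] using this
    obtain ⟨N, hN⟩ := eventually_atTop.1 h1
    have a0 := hN (2 * N + 2) (by omega)
    have a1 := hN (2 * N + 3) (by omega)
    have a2 := hN (2 * N + 4) (by omega)
    have a3 := hN (2 * N + 5) (by omega)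
    have b0 : ((2 * N + 2)! : ℤ) < (2 * N + 4)! := by
      exact_mod_cast (Nat.factorial_lt (by omega)).2 (by omega)
    have b1 : ((2 * N + 3)! : ℤ) < (2 * N + 5)! := by
      exact_mod_cast (Nat.factorial_lt (by omega)).2 (by omega)
    simp only [w, show (2 * N + 2) % 2 = 0 by omega, show (2 * N + 3) % 2 = 1 by omega,
      show (2 * N + 4) % 2 = 0 by omega, show (2 * N + 5) % 2 = 1 by omega] at a0 a1 a2 a3
    simp only [if_true, zero_ne_one, one_ne_zero, if_false, zero_mul, add_zero] at a0 a1 a2 a3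
    have c0 : V0.coeff v = 0 :=
      (mul_eq_zero.1 (show (((2 * N + 4)! : ℤ) - (2 * N + 2)!) * V0.coeff v = 0 by
        linear_combination a2 - a0)).resolve_left (sub_pos.2 b0).ne'
    have c1 : V1.coeff v = 0 :=
      (mul_eq_zero.1 (show (((2 * N + 5)! : ℤ) - (2 * N + 3)!) * V1.coeff v = 0 by
        linear_combination a3 - a1)).resolve_left (sub_pos.2 b1).ne'
    exact ⟨by simpa [c0] using a0, c0, c1⟩
  exact ⟨by ext v; exact (this v).1, by ext v; exact (this v).2.1, by ext v; exact (this v).2.2⟩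

noncomputable def T : Subgroup (ℕ → G) where
  carrier := {g | ∃ (q : Q) (m : ℤ) (U V0 V1 : LQ), m ≠ 0 ∧ ∀ j, (μ (g j)).p = π j q ∧
    (m : L) * (μ (g j)).u = ππ j U + (w 0 j : L) * ππ j V0 + (w 1 j : L) * ππ j V1}
  one_mem' := ⟨0, 1, 0, 0, 0, one_ne_zero, fun j => by simp⟩
  mul_mem' := by
    rintro g g' ⟨q, m, U, V0, V1, hm, h⟩ ⟨q', m', U', V0', V1', hm', h'⟩
    refine ⟨q + q', m * m', m' * U + m * E q * U', m' * V0 + m * E q * V0',
      m' * V1 + m * E q * V1', mul_ne_zero hm hm', fun j => ⟨by simp [h j, h' j], ?_⟩⟩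
    simp only [Pi.mul_apply, map_mul, mul_u, map_add, map_intCast, ππE, (h j).1, Int.cast_mul]
    linear_combination (m' : L) * (h j).2 + (m : L) * e (π j q) * (h' j).2
  inv_mem' := by
    rintro g ⟨q, m, U, V0, V1, hm, h⟩
    refine ⟨-q, m, -(E (-q) * U), -(E (-q) * V0), -(E (-q) * V1), hm,
      fun j => ⟨by simp [h j], ?_⟩⟩
    simp only [Pi.inv_apply, map_inv, inv_u, map_neg, map_mul, ππE, (h j).1]
    linear_combination -e (-π j q) * (h j).2

/-- the Fitting subgroup -/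
noncomputable def A : Subgroup T where
  carrier := {t | ∀ j, (μ (t.1 j)).p = 0}
  one_mem' := fun j => by simp
  mul_mem' := fun {a b} ha hb j => by simp [ha j, hb j]
  inv_mem' := fun {a} ha j => by simp [ha j]

theorem A_comm {a b : T} (ha : a ∈ A) (hb : b ∈ A) : a * b = b * a :=
  Subtype.ext <| funext fun j => μ_inj <| by
    simpa using comm0 _ _ (ha j) (hb j)

theorem comm_A (a b : T) : ⁅a, b⁆ ∈ A := fun j => by
  simp [commutatorElement_def]

theorem lemC {a t : T} (ha : a ∈ A) (ht : t ∉ A) (h : a * t = t * a) : a = 1 := by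
  obtain ⟨q, m, U, V0, V1, hm, h1⟩ := a.2
  obtain ⟨q', _, _, _, _, -, h2⟩ := t.2
  have hq : q' ≠ 0 := by
    rintro rfl
    exact ht fun j => by simpa using (h2 j).1
  have hm' : (m : L) ≠ 0 := Int.cast_ne_zero.2 hm
  obtain ⟨rfl, rfl, rfl⟩ := key U V0 V1 (by
    filter_upwards [ev_ne hq] with j hj
    have h3 := congrArg (fun z : T => (μ (z.1 j)).u) h
    simp only [Subgroup.coe_mul, Pi.mul_apply, map_mul, mul_u, ha j, e_zero, (h2 j).1] at h3
    have : (μ (a.1 j)).u = 0 :=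
      (mul_eq_zero.1 (show (e (π j q') - 1) * (μ (a.1 j)).u = 0 by
        linear_combination -h3)).resolve_left (e_ne hj)
    rw [← (h1 j).2, this, mul_zero])
  refine Subtype.ext <| funext fun j => μ_inj ?_
  have := (h1 j).2
  simp only [map_zero, mul_zero, add_zero, mul_eq_zero, hm', false_or] at this
  apply W.ext <;> simp [this, ha j]

theorem CT (t : T) (ht : t ≠ 1) (a b : T) (ha : a * t = t * a) (hb : b * t = t * b) :
    a * b = b * a := by
  by_cases h : t ∈ A
  · have : ∀ a : T, a * t = t * a → a ∈ A := fun a ha => by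
      by_contra h'; exact ht (lemC h h' ha.symm)
    exact A_comm (this a ha) (this b hb)
  · refine commutatorElement_eq_one_iff_mul_comm.1 (lemC (comm_A a b) h ?_)
    have ha : Commute a t := ha
    have hb : Commute b t := hb
    exact ((ha.mul_left hb).mul_left ha.inv_left).mul_left hb.inv_left

theorem μyz (n : ℤ) : μ (y ^ n) = ⟨0, (0, n)⟩ := by
  rw [map_zpow, μy]
  apply W.ext
  · exact zpow_u0 _ rfl n
  · simp [zpow_p]

noncomputable def tY : T := ⟨fun _ => y, (0, 1, 0), 1, 0, 0, 0, one_ne_zero, fun j => by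
  simp [μy, π_def]⟩
noncomputable def tZ : T := ⟨fun _ => x, (0, 0, 1), 1, 1, 0, 0, one_ne_zero, fun j => by
  simp [μx, π_def]⟩
noncomputable def tk (k : ℕ) : T := ⟨fun j => y ^ ((k : ℤ) - j), (1, k, 0), 1, 0, 0, 0,
  one_ne_zero, fun j => by rw [μyz]; simp [π_def]⟩

noncomputable def proj (j : ℕ) : T →* G := (Pi.evalMonoidHom (fun _ => G) j).comp T.subtype
theorem proj_surj (j : ℕ) : Function.Surjective (proj j) := fun g =>
  gen (proj j).range ⟨tZ, rfl⟩ ⟨tY, rfl⟩ g

theorem memA (g : ℕ → G) (i : ℕ) (hi : i < 2) (m : ℤ) (hm : m ≠ 0) (V : LQ)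
    (h : ∀ j, (μ (g j)).p = 0 ∧ (m : L) * (μ (g j)).u = (w i j : L) * ππ j V) : g ∈ T := by
  interval_cases i
  · exact ⟨0, m, 0, V, 0, hm, fun j => by simpa using h j⟩
  · exact ⟨0, m, 0, 0, V, hm, fun j => by simpa using h j⟩

theorem μcz (n : ℤ) : μ (c ^ n) = ⟨(n : L) * (1 - e (0, 1)), 0⟩ := by
  rw [map_zpow, μc]
  apply W.ext
  · exact zpow_u _ rfl n
  · simp [zpow_p]

noncomputable def ta (i : ℕ) (hi : i < 2) : T :=
  ⟨fun j => c ^ w i j, memA _ i hi 1 one_ne_zero (1 - E (0, 1, 0)) fun j => by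
    rw [μcz]; simp [ππE, π_def]⟩

theorem ta_A (i : ℕ) (hi : i < 2) : ta i hi ∈ A := fun j => by
  show (μ (c ^ w i j)).p = 0
  rw [μcz]

theorem ta_ne (i : ℕ) (hi : i < 2) : ta i hi ≠ 1 := fun h => by
  have h1 : (μ (c ^ w i i)).u = (μ 1).u := congrArg (fun z : T => (μ (z.1 i)).u) h
  rw [μcz, map_one] at h1
  simp only [one_u, mul_eq_zero, Yne, or_false, Int.cast_eq_zero, w, Nat.mod_eq_of_lt hi,
    if_true] at h1
  exact (Nat.factorial_pos i).ne' (by exact_mod_cast h1)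

def it {H : Type} [Group H] (t : ℕ → H) (g : H) : ℕ → H
  | 0 => g
  | n + 1 => ⁅t n, it t g n⁆

theorem map_it {H H' : Type} [Group H] [Group H'] (f : H →* H') (t : ℕ → H) (g : H) (n : ℕ) :
    f (it t g n) = it (fun k => f (t k)) (f g) n := by
  induction n with
  | zero => rfl
  | succ n ih => simp only [it, map_commutatorElement, ih]

theorem it_W (t : ℕ → W) (g : W) (hg : g.p = 0) (n : ℕ) :
    it t g n = ⟨(∏ k ∈ Finset.range n, (e (t k).p - 1)) * g.u, 0⟩ := by
  induction n with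
  | zero => apply W.ext <;> simp [it, hg]
  | succ n ih =>
    apply W.ext
    · rw [it, ih, comm_u _ _ rfl, Finset.prod_range_succ]; ring
    · exact comm_p _ _

theorem root (i : ℕ) (hi : i < 2) (l : ℕ) (hl : 0 < l) :
    ∃ b ∈ A, b ^ (l : ℤ) = it (fun k => tk (2 * k + i)) (ta i hi) l := by
  have h0 : ∀ j : ℕ, μ (it (fun k => y ^ (((2 * k + i : ℕ) : ℤ) - j)) c l ^ (w i j / l)) =
      ⟨((w i j / l : ℤ) : L) * ((∏ k ∈ Finset.range l, (e (0, ((2 * k + i : ℕ) : ℤ) - j) - 1)) *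
        (1 - e (0, 1))), 0⟩ := fun j => by
    rw [map_zpow, map_it, it_W _ _ (by rw [μc])]
    apply W.ext
    · rw [zpow_u _ rfl]; simp only [μyz, μc]
    · simp [zpow_p]
  have h1 : ∀ j : ℕ, ((l : ℤ) : L) * (((w i j / l : ℤ) : L) *
      ((∏ k ∈ Finset.range l, (e (0, ((2 * k + i : ℕ) : ℤ) - j) - 1)) * (1 - e (0, 1)))) =
      (w i j : L) * ((∏ k ∈ Finset.range l, (e (0, ((2 * k + i : ℕ) : ℤ) - j) - 1)) *
        (1 - e (0, 1))) := fun j => by
    by_cases h : (l : ℤ) ∣ w i j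
    · rw [← mul_assoc, ← Int.cast_mul, Int.mul_ediv_cancel' h]
    · have h2 : j % 2 = i := by
        by_contra h3; simp [w, h3] at h
      have h3 : j < l := by
        by_contra h3
        exact h (by simp only [w, h2, if_true]; exact_mod_cast Nat.dvd_factorial hl (by omega))
      rw [Finset.prod_eq_zero (i := j / 2) (Finset.mem_range.2 (by omega))
        (by rw [show 2 * (j / 2) + i = j by omega, sub_self, sub_eq_zero]; rfl)]
      simp
  refine ⟨⟨fun j => it (fun k => y ^ (((2 * k + i : ℕ) : ℤ) - j)) c l ^ (w i j / l),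
    memA _ i hi l (by exact_mod_cast hl.ne')
      ((∏ k ∈ Finset.range l, (E (1, ((2 * k + i : ℕ) : ℤ), 0) - 1)) * (1 - E (0, 1, 0)))
      fun j => ⟨by rw [h0], ?_⟩⟩, fun j => by dsimp only; rw [h0], ?_⟩
  · rw [h0, h1]; simp [ππE, π_def]
  · refine Subtype.ext <| funext fun j => μ_inj ?_
    have := map_it (μ.comp (proj j)) (fun k => tk (2 * k + i)) (ta i hi) l
    refine Eq.trans ?_ this.symm
    rw [it_W _ ((μ.comp (proj j)) (ta i hi)) (ta_A i hi j)]
    show μ ((it (fun k => y ^ (((2 * k + i : ℕ) : ℤ) - j)) c l ^ (w i j / l)) ^ (l : ℤ)) =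
      ⟨(∏ k ∈ Finset.range l, (e (μ (y ^ (((2 * k + i : ℕ) : ℤ) - j))).p - 1)) *
        (μ (c ^ w i j)).u, 0⟩
    rw [map_zpow, h0]
    apply W.ext
    · rw [zpow_u _ rfl, h1]; simp only [μyz, μcz]; ring
    · rw [zpow_p]; simp

theorem fA (f : T →* G) (hf : Function.Surjective f) {a : T} (ha : a ∈ A) : (μ (f a)).p = 0 := by
  obtain ⟨t, ht⟩ := hf c
  have h := congrArg (fun z => (μ (f z)).u) (A_comm (comm_A a t) ha)
  simp only [map_mul, mul_u, map_commutatorElement, comm_p, e_zero, ht, μc, comm_u] at h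
  by_contra h'
  have : (e (μ (f a)).p - 1) * ((e (μ (f a)).p - 1) * (1 - e (0, 1))) = 0 := by
    linear_combination -h
  exact mul_ne_zero (e_ne h') (mul_ne_zero (e_ne h') Yne) this

theorem kill (f : T →* G) (hf : Function.Surjective f) (i : ℕ) (hi : i < 2)
    (h : ∀ k, (μ (f (tk (2 * k + i)))).p ≠ 0) : f (ta i hi) = 1 := by
  apply μ_inj
  rw [map_one]
  refine W.ext ?_ (fA f hf (ta_A i hi))
  ext v
  obtain ⟨l, hl, hp⟩ := Nat.exists_infinite_primes (((μ (f (ta i hi))).u.coeff v).natAbs + 1)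
  haveI := Fact.mk hp
  obtain ⟨b, hb, h1⟩ := root i hi l hp.pos
  have h2 := congrArg (fun z => mapRingHom P (Int.castRingHom (ZMod l)) ((μ.comp f) z).u) h1
  simp only [map_zpow] at h2
  rw [map_it] at h2
  simp only [MonoidHom.comp_apply] at h2
  rw [it_W _ _ (fA f hf (ta_A i hi)), zpow_u _ (fA f hf hb)] at h2
  simp only [map_mul, map_intCast, map_prod, map_sub, map_one, e, mapRingHom_single] at h2
  have h3 : (((l : ℤ)) : AddMonoidAlgebra (ZMod l) P) = 0 := by
    rw [Int.cast_natCast, natCast_def]; simp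
  rw [h3, zero_mul, eq_comm, mul_eq_zero, Finset.prod_eq_zero_iff] at h2
  rcases h2 with ⟨k, -, h2⟩ | h2
  · have := congrArg (fun z : AddMonoidAlgebra (ZMod l) P => z.coeff 0) (sub_eq_zero.1 h2)
    have h4 := h k
    simp [one_def, h4] at this
  · have := congrArg (fun z : AddMonoidAlgebra (ZMod l) P => z.coeff v) h2
    simp only [coeff_mapRingHom, eq_intCast, coeff_zero, Finsupp.zero_apply,
      ZMod.intCast_zmod_eq_zero_iff_dvd] at this
    exact Int.eq_zero_of_dvd_of_natAbs_lt_natAbs this (by simp only [Int.natAbs_natCast]; exact hl)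

theorem nodisc (f : T →* G) (hf : Function.Surjective f) :
    f (ta 0 two_pos) = 1 ∨ f (ta 1 one_lt_two) = 1 := by
  by_contra h
  push Not at h
  obtain ⟨k, hk⟩ : ∃ k, (μ (f (tk (2 * k + 0)))).p = 0 := by
    by_contra h'; push Not at h'; exact h.1 (kill f hf 0 _ h')
  obtain ⟨k', hk'⟩ : ∃ k, (μ (f (tk (2 * k + 1)))).p = 0 := by
    by_contra h'; push Not at h'; exact h.2 (kill f hf 1 _ h')
  have h1 : ∀ n : ℕ, tk n = tk 0 * tY ^ (n : ℤ) := fun n =>
    Subtype.ext <| funext fun j => by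
      show y ^ ((n : ℤ) - j) = y ^ (((0 : ℕ) : ℤ) - j) * y ^ (n : ℤ)
      rw [← zpow_add]; congr 1; simp; ring
  rw [h1, map_mul, map_mul, mul_p, map_zpow, map_zpow, zpow_p] at hk hk'
  have hY : (μ (f tY)).p = 0 := by
    have : (((2 * k + 0 : ℕ) : ℤ) - ((2 * k' + 1 : ℕ) : ℤ)) • (μ (f tY)).p = 0 := by
      rw [sub_smul, sub_eq_zero]; exact add_left_cancel (hk.trans hk'.symm)
    exact (smul_eq_zero.1 this).resolve_left (by omega)
  rw [hY, smul_zero, add_zero] at hk
  have h2 : ∀ t : T, ∃ n : ℤ, (μ (f t)).p = n • (μ (f tZ)).p := fun t => by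
    obtain ⟨⟨a, b, n⟩, _, _, _, _, -, h3⟩ := t.2
    have : t * (tk 0 ^ a * tY ^ b * tZ ^ n)⁻¹ ∈ A := fun j => by
      show (μ (t.1 j * ((y ^ (((0 : ℕ) : ℤ) - j)) ^ a * y ^ b * x ^ n)⁻¹)).p = 0
      simp only [map_mul, map_inv, map_zpow, mul_p, inv_p, zpow_p, (h3 j).1, μx, μy, π_def]
      ext <;> simp; ring
    have h4 := fA f hf this
    simp only [map_mul, map_inv, map_zpow, mul_p, inv_p, zpow_p, hk, hY, smul_zero,
      zero_add] at h4
    exact ⟨n, add_neg_eq_zero.1 h4⟩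
  obtain ⟨t1, h3⟩ := hf x
  obtain ⟨t2, h4⟩ := hf y
  obtain ⟨n1, h5⟩ := h2 t1
  obtain ⟨n2, h6⟩ := h2 t2
  rw [h3, μx, Prod.ext_iff] at h5
  rw [h4, μy, Prod.ext_iff] at h6
  simp only [Prod.smul_fst, Prod.smul_snd, smul_eq_mul] at h5 h6
  have : (1 : ℤ) = 0 := by
    linear_combination h5.1 + n1 * (μ (f tZ)).p.1 * h6.2 - n2 * (μ (f tZ)).p.1 * h5.2
  exact one_ne_zero this

end Pool.Agent.H2.MB
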