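import Mathlib

set_option autoImplicit false

/-! Minimal groups: group filters, coarsening, invariant seminorms. -/

namespace Pool.Agent.H2.MG

open Filter Topology Set Pointwise NNReal

/-- group filters -/
structure GF {G : Type} [Group G] (F : Filter G) : Prop where
  one : pure 1 ≤ F
  mul : Tendsto (fun p : G × G => p.1 * p.2) (F ×ˢ F) F
  inv : Tendsto (fun x : G => x⁻¹) F F
  conj : ∀ g : G, Tendsto (fun x => g * x * g⁻¹) F F

section
variable {G : Type} [Group G]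

theorem GF.exists_top {F : Filter G} (h : GF F) :
    ∃ σ : TopologicalSpace G, @IsTopologicalGroup G σ _ ∧ @nhds G σ 1 = F := by
  let B : GroupFilterBasis G :=
    { sets := F.sets
      nonempty := ⟨univ, univ_mem⟩
      inter_sets := fun hx hy => ⟨_, inter_mem hx hy, subset_rfl⟩
      one' := fun hU => h.one hU
      mul' := by
        intro U hU
        obtain ⟨V, hV, hVU⟩ := mem_prod_self_iff.1 (h.mul hU)
        refine ⟨V, hV, ?_⟩
        rintro _ ⟨x, hx, y, hy, rfl⟩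
        exact hVU (show (x, y) ∈ V ×ˢ V from ⟨hx, hy⟩)
      inv' := fun hU => ⟨_, h.inv hU, subset_rfl⟩
      conj' := fun g _ hU => ⟨_, h.conj g hU, subset_rfl⟩ }
  refine ⟨B.topology, B.isTopologicalGroup, ?_⟩
  ext U
  rw [B.nhds_one_hasBasis.mem_iff]
  exact ⟨fun ⟨V, hV, hVU⟩ => mem_of_superset hV hVU, fun hU => ⟨U, hU, subset_rfl⟩⟩

theorem GF.nhds [TopologicalSpace G] [IsTopologicalGroup G] : GF (𝓝 (1 : G)) where
  one := pure_le_nhds 1
  mul := by simpa [← nhds_prod_eq] using (continuous_mul (M := G)).tendsto (1, 1)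
  inv := by simpa using (continuous_inv (G := G)).tendsto 1
  conj g := by
    have h : Continuous fun x : G => g * x * g⁻¹ := by fun_prop
    simpa using h.tendsto 1

theorem GF.iInf {ι : Sort*} {F : ι → Filter G} (h : ∀ i, GF (F i)) : GF (⨅ i, F i) where
  one := le_iInf fun i => (h i).one
  mul := tendsto_iInf.2 fun i => (h i).mul.mono_left (prod_mono (iInf_le _ i) (iInf_le _ i))
  inv := tendsto_iInf.2 fun i => (h i).inv.mono_left (iInf_le _ i)
  conj g := tendsto_iInf.2 fun i => ((h i).conj g).mono_left (iInf_le _ i)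

theorem GF.inf {F F' : Filter G} (h : GF F) (h' : GF F') : GF (F ⊓ F') where
  one := le_inf h.one h'.one
  mul := tendsto_inf.2 ⟨h.mul.mono_left (prod_mono inf_le_left inf_le_left),
    h'.mul.mono_left (prod_mono inf_le_right inf_le_right)⟩
  inv := tendsto_inf.2 ⟨h.inv.mono_left inf_le_left, h'.inv.mono_left inf_le_right⟩
  conj g := tendsto_inf.2 ⟨(h.conj g).mono_left inf_le_left, (h'.conj g).mono_left inf_le_right⟩

theorem GF.comap {H : Type} [Group H] (φ : G →* H) {F : Filter H} (h : GF F) :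
    GF (comap φ F) where
  one := by
    rw [← map_le_iff_le_comap, map_pure, map_one]; exact h.one
  mul := by
    rw [tendsto_comap_iff]
    have := h.mul.comp ((tendsto_comap (f := φ)).prodMap (tendsto_comap (f := φ)))
    simpa [Function.comp_def] using this
  inv := by
    rw [tendsto_comap_iff]
    simpa [Function.comp_def] using h.inv.comp (tendsto_comap (f := φ))
  conj g := by
    rw [tendsto_comap_iff]
    simpa [Function.comp_def] using (h.conj (φ g)).comp (tendsto_comap (f := φ))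

theorem GF.map {H : Type} [Group H] (φ : H →* G) {F : Filter H} (h : GF F)
    (hc : ∀ g : G, Tendsto (fun x => g * φ x * g⁻¹) F (map φ F)) : GF (map φ F) where
  one := by
    have := map_mono (m := φ) h.one
    rwa [map_pure, map_one] at this
  mul := by
    rw [prod_map_map_eq, tendsto_map'_iff]
    simpa [Function.comp_def] using (tendsto_map (f := φ)).comp h.mul
  inv := by
    rw [tendsto_map'_iff]
    simpa [Function.comp_def] using (tendsto_map (f := φ)).comp h.inv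
  conj g := tendsto_map'_iff.2 (hc g)

theorem GF.map_comm {G H : Type} [CommGroup G] [Group H] (φ : H →* G) {F : Filter H} (h : GF F) :
    GF (Filter.map φ F) :=
  h.map φ fun g => by simpa using tendsto_map

/-- conjugation invariant seminorms -/
structure SN (ρ : G → ℝ) : Prop where
  one : ρ 1 = 0
  mul : ∀ x y, ρ (x * y) ≤ ρ x + ρ y
  inv : ∀ x, ρ x⁻¹ = ρ x
  conj : ∀ g x, ρ (g * x * g⁻¹) = ρ x

theorem SN.nonneg {ρ : G → ℝ} (h : SN ρ) (x : G) : 0 ≤ ρ x := by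
  have := h.mul x x⁻¹
  rw [mul_inv_cancel, h.one, h.inv] at this
  linarith

theorem SN.smul {ρ : G → ℝ} (h : SN ρ) {c : ℝ} (hc : 0 ≤ c) : SN fun x => c * ρ x where
  one := by simp [h.one]
  mul x y := by nlinarith [h.mul x y]
  inv x := by rw [h.inv]
  conj g x := by rw [h.conj]

theorem SN.comp {H : Type} [Group H] {ρ : G → ℝ} (h : SN ρ) (φ : H →* G) : SN fun x => ρ (φ x) where
  one := by simp [h.one]
  mul x y := by simpa using h.mul _ _
  inv x := by simpa using h.inv _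
  conj g x := by simpa using h.conj _ _

theorem SN.gf {ρ : G → ℝ} (h : SN ρ) : GF (comap ρ (𝓝 0)) where
  one := by
    rw [← map_le_iff_le_comap, map_pure, h.one]; exact pure_le_nhds 0
  mul := by
    rw [tendsto_comap_iff]
    have h1 : Tendsto (fun p : G × G => ρ p.1 + ρ p.2) (comap ρ (𝓝 0) ×ˢ comap ρ (𝓝 0)) (𝓝 0) := by
      have h0 : Tendsto ρ (comap ρ (𝓝 0)) (𝓝 0) := tendsto_comap
      simpa using (h0.comp tendsto_fst).add (h0.comp tendsto_snd)
    exact squeeze_zero (fun p => h.nonneg _) (fun p => h.mul _ _) h1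
  inv := by
    rw [tendsto_comap_iff]
    simpa [Function.comp_def, h.inv] using tendsto_comap
  conj g := by
    rw [tendsto_comap_iff]
    simpa [Function.comp_def, h.conj] using tendsto_comap

/-- the kernel of a seminorm -/
def SN.ker {ρ : G → ℝ} (h : SN ρ) : Subgroup G where
  carrier := {x | ρ x = 0}
  one_mem' := h.one
  mul_mem' := by
    intro x y hx hy
    have := h.mul x y
    rw [show ρ x = 0 from hx, show ρ y = 0 from hy] at this
    exact le_antisymm (by linarith) (h.nonneg _)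
  inv_mem' := fun hx => (h.inv _).trans hx

theorem SN.ker_normal {ρ : G → ℝ} (h : SN ρ) : h.ker.Normal :=
  ⟨fun x hx g => (h.conj g x).trans hx⟩

theorem SN.abs_sub {ρ : G → ℝ} (h : SN ρ) (x y : G) : |ρ (x * y) - ρ x| ≤ ρ y := by
  have h1 := h.mul x y
  have h2 := h.mul (x * y) y⁻¹
  rw [mul_inv_cancel_right, h.inv] at h2
  rw [abs_le]; constructor <;> linarith

variable [TopologicalSpace G]

theorem SN.cont [IsTopologicalGroup G] {ρ : G → ℝ} (h : SN ρ) (hc : Tendsto ρ (𝓝 1) (𝓝 0)) :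
    Continuous ρ := by
  rw [continuous_iff_continuousAt]
  intro x
  have h1 : Tendsto (fun y => x⁻¹ * y) (𝓝 x) (𝓝 1) := by
    simpa using (continuous_mul_left x⁻¹).tendsto x
  rw [ContinuousAt, tendsto_iff_dist_tendsto_zero]
  refine squeeze_zero (fun _ => dist_nonneg) (fun y => ?_) (hc.comp h1)
  simpa [Real.dist_eq] using h.abs_sub x (x⁻¹ * y)

/-- small invariant neighbourhoods -/
def SIN (G : Type) [Group G] [TopologicalSpace G] : Prop :=
  ∀ W ∈ 𝓝 (1 : G), ∃ W' ∈ 𝓝 (1 : G), ∀ g : G, ∀ w ∈ W', g * w * g⁻¹ ∈ W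

theorem SIN.comm (G : Type) [CommGroup G] [TopologicalSpace G] : SIN G :=
  fun W hW => ⟨W, hW, fun g w hw => by simpa using hw⟩

/-- precompactness -/
def PC (G : Type) [Group G] [TopologicalSpace G] : Prop :=
  ∀ U ∈ 𝓝 (1 : G), ∃ F : Finset G, ∀ x : G, ∃ g ∈ F, g⁻¹ * x ∈ U

theorem PC.sin [IsTopologicalGroup G] (h : PC G) : SIN G := by
  intro W hW
  obtain ⟨U, hU, hUW⟩ := exists_nhds_one_split4 hW
  have hU' : U ∩ U⁻¹ ∈ 𝓝 (1 : G) := inter_mem hU (inv_mem_nhds_one G hU)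
  obtain ⟨F, hF⟩ := h _ hU'
  have h1 : ∀ᶠ w in 𝓝 (1 : G), ∀ f ∈ F, f⁻¹ * w * f ∈ U := by
    rw [eventually_all_finset]
    intro f _
    have : ∀ᶠ x in 𝓝 (1 : G), f⁻¹ * x * f⁻¹⁻¹ ∈ U := GF.nhds.conj f⁻¹ hU
    simpa using this
  refine ⟨_, h1, fun g w hw => ?_⟩
  obtain ⟨f, hf, hg⟩ := hF g⁻¹
  have h2 := hUW (v := (f⁻¹ * g⁻¹)⁻¹) (w := f⁻¹ * w * f) (s := f⁻¹ * g⁻¹) (t := 1) hg.2
    (hw f hf) hg.1 (mem_of_mem_nhds hU)
  simpa [mul_assoc] using h2

theorem PC.subgroup [IsTopologicalGroup G] (h : PC G) (N : Subgroup G) : PC N := by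
  classical
  intro U hU
  obtain ⟨V, hV, hVU⟩ := (mem_nhds_induced _ _ _).1 hU
  obtain ⟨W, hW, hWV⟩ := exists_nhds_split_inv hV
  obtain ⟨W', hW', h1⟩ : ∃ W' ∈ 𝓝 (1 : G), ∀ a ∈ W', ∀ b ∈ W', a⁻¹ * b ∈ V := by
    obtain ⟨A, hA, hAV⟩ := exists_nhds_one_split hV
    exact ⟨A ∩ A⁻¹, inter_mem hA (inv_mem_nhds_one G hA), fun a ha b hb => hAV _ ha.2 _ hb.1⟩
  obtain ⟨F, hF⟩ := h _ hW'
  let e : G → N := fun g => if h : ∃ x : N, g⁻¹ * x ∈ W' then h.choose else 1
  refine ⟨F.image e, fun x => ?_⟩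
  obtain ⟨g, hg, hx⟩ := hF x
  have h2 : ∃ x : N, g⁻¹ * x ∈ W' := ⟨x, hx⟩
  have h3 : g⁻¹ * (e g : G) ∈ W' := by simp only [e, dif_pos h2]; exact h2.choose_spec
  refine ⟨e g, Finset.mem_image_of_mem e hg, hVU ?_⟩
  simpa [mul_assoc] using h1 _ h3 _ hx

theorem exists_sn [IsTopologicalGroup G] (hs : SIN G) {V : Set G} (hV : V ∈ 𝓝 (1 : G)) :
    ∃ ρ : G → ℝ, SN ρ ∧ Tendsto ρ (𝓝 1) (𝓝 0) ∧ ∀ x, ρ x < 1 → x ∈ V := by
  classical
  have step : ∀ V ∈ 𝓝 (1 : G), ∃ W ∈ 𝓝 (1 : G), (∀ x ∈ W, x⁻¹ ∈ W) ∧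
      (∀ g, ∀ x ∈ W, g * x * g⁻¹ ∈ W) ∧ ∀ x ∈ W, ∀ y ∈ W, ∀ z ∈ W, x * y * z ∈ V := by
    intro V hV
    obtain ⟨U, hU, hUV⟩ := exists_nhds_one_split4 hV
    obtain ⟨W, hW, hWU⟩ := hs _ (inter_mem hU (inv_mem_nhds_one G hU))
    refine ⟨{x | ∀ g, g * x * g⁻¹ ∈ U ∩ U⁻¹}, mem_of_superset hW fun x hx g => hWU g x hx,
      fun x hx g => ?_, fun g x hx g' => ?_, fun x hx y hy z hz => ?_⟩
    · have := hx g
      constructor
      · simpa [mul_assoc] using this.2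
      · simpa [mul_assoc] using this.1
    · simpa [mul_assoc] using hx (g' * g)
    · simpa using hUV (by simpa using (hx 1).1) (by simpa using (hy 1).1) (by simpa using (hz 1).1)
        (mem_of_mem_nhds hU)
  choose! F hF using step
  let U : ℕ → Set G := fun n => F^[n + 1] V
  have hU : ∀ n, F^[n] V ∈ 𝓝 (1 : G) := by
    intro n
    induction n with
    | zero => exact hV
    | succ n ih => rw [Function.iterate_succ_apply']; exact (hF _ ih).1
  have hU1 : ∀ n, U n = F (F^[n] V) := fun n => Function.iterate_succ_apply' _ _ _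
  have hUn : ∀ n, U n ∈ 𝓝 (1 : G) := fun n => hU (n + 1)
  have hinv : ∀ n x, x⁻¹ ∈ U n ↔ x ∈ U n := by
    intro n x
    have := (hF _ (hU n)).2.1
    rw [← hU1] at this
    exact ⟨fun h => by simpa using this _ h, this _⟩
  have hconj : ∀ n g x, g * x * g⁻¹ ∈ U n ↔ x ∈ U n := by
    intro n g x
    have := (hF _ (hU n)).2.2.1
    rw [← hU1] at this
    exact ⟨fun h => by simpa [mul_assoc] using this g⁻¹ _ h, this _ _⟩
  have h3 : ∀ n, ∀ x ∈ U n, ∀ y ∈ U n, ∀ z ∈ U n, x * y * z ∈ F^[n] V := by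
    intro n
    have := (hF _ (hU n)).2.2.2
    rwa [← hU1] at this
  have hanti : Antitone U := antitone_nat_of_succ_le fun n x hx => by
    have : x * 1 * 1 ∈ U n := h3 (n + 1) x hx 1 (mem_of_mem_nhds (hUn _)) 1 (mem_of_mem_nhds (hUn _))
    simpa only [mul_one] using this
  set d : G → G → ℝ≥0 := fun x y =>
    if h : ∃ n, x⁻¹ * y ∉ U n then (1 / 2) ^ Nat.find h else 0 with hd
  have hd0 : ∀ x, d x x = 0 := fun x => dif_neg (by simpa using fun n => mem_of_mem_nhds (hUn n))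
  have hds : ∀ x y, d x y = d y x := by
    intro x y
    have : ∀ n, x⁻¹ * y ∈ U n ↔ y⁻¹ * x ∈ U n := fun n => by rw [← hinv]; simp
    simp only [d, this]
  have hr : (1 / 2 : ℝ≥0) ∈ Ioo (0 : ℝ≥0) 1 := ⟨half_pos one_pos, NNReal.half_lt_self one_ne_zero⟩
  have hle_d : ∀ {x y : G} {n : ℕ}, (1 / 2) ^ n ≤ d x y ↔ x⁻¹ * y ∉ U n := by
    intro x y n
    dsimp only [d]
    split_ifs with h
    · rw [(pow_right_strictAnti₀ hr.1 hr.2).le_iff_ge, Nat.find_le_iff]
      exact ⟨fun ⟨m, hmn, hm⟩ hn => hm (hanti hmn hn), fun h => ⟨n, le_rfl, h⟩⟩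
    · push Not at h
      simp only [h, not_true, (pow_pos hr.1 _).not_ge]
  let I := PseudoMetricSpace.ofPreNNDist d hd0 hds
  let D : G → G → ℝ := @dist G I.toDist
  have hD1 : ∀ x y, D x y ≤ d x y := PseudoMetricSpace.dist_ofPreNNDist_le _ _ _
  have hD2 : ∀ x y, ↑(d x y) ≤ 2 * D x y := by
    refine PseudoMetricSpace.le_two_mul_dist_ofPreNNDist _ _ _ fun x₁ x₂ x₃ x₄ => ?_
    by_cases H : ∃ n, x₁⁻¹ * x₄ ∉ U n
    · refine (dif_pos H).trans_le ?_
      rw [← div_le_iff₀' zero_lt_two, ← mul_one_div (_ ^ _), ← pow_succ]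
      simp only [le_max_iff, hle_d, ← not_and_or]
      rintro ⟨h₁₂, h₂₃, h₃₄⟩
      refine Nat.find_spec H ?_
      have : _ ∈ U (Nat.find H) := h3 _ _ h₁₂ _ h₂₃ _ h₃₄
      simpa only [mul_assoc, mul_inv_cancel_left] using this
    · exact (dif_neg H).trans_le zero_le
  have hD3 : ∀ e : G → G, (∀ x y, d (e x) (e y) = d x y) → ∀ x y, D (e x) (e y) ≤ D x y := by
    intro e he x y
    simp only [D, I, PseudoMetricSpace.dist_ofPreNNDist, NNReal.coe_le_coe]
    refine le_ciInf fun l => (ciInf_le (OrderBot.bddBelow _) (l.map e)).trans_eq ?_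
    have : (e x :: l.map e).zipWith d (l.map e ++ [e y]) = (x :: l).zipWith d (l ++ [y]) := by
      rw [← List.map_cons, ← List.map_singleton, ← List.map_append, List.zipWith_map]
      simp only [he]
    rw [this]
  have hL : ∀ g x y, D (g * x) (g * y) ≤ D x y := fun g =>
    hD3 (g * ·) fun x y => by simp [d, mul_assoc]
  have hC : ∀ g x, D 1 (g * x * g⁻¹) ≤ D 1 x := by
    intro g x
    have := hD3 (fun x => g * x * g⁻¹) (fun x y => by
      have : ∀ n, (g * x * g⁻¹)⁻¹ * (g * y * g⁻¹) ∈ U n ↔ x⁻¹ * y ∈ U n := fun n => by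
        rw [← hconj n g (x⁻¹ * y)]; simp [mul_assoc]
      simp only [d, this]) 1 x
    simpa using this
  have hI : ∀ x, D 1 x⁻¹ ≤ D 1 x := by
    intro x
    have := hL x⁻¹ x 1
    rw [inv_mul_cancel, mul_one] at this
    exact this.trans_eq (@dist_comm G I _ _)
  refine ⟨fun x => 2 * D 1 x, SN.smul ⟨@dist_self G I 1, fun x y => ?_,
    fun x => (hI x).antisymm (by simpa using hI x⁻¹),
    fun g x => (hC g x).antisymm (by simpa [mul_assoc] using hC g⁻¹ (g * x * g⁻¹))⟩ two_pos.le,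
    ?_, fun x hx => ?_⟩
  · have h1 := @dist_triangle G I 1 x (x * y)
    have h2 := hL x 1 y
    rw [mul_one] at h2
    exact h1.trans (add_le_add le_rfl h2)
  · have h1 : Tendsto (fun x => D 1 x) (𝓝 1) (𝓝 0) := by
      refine tendsto_order.2 ⟨fun a ha => Eventually.of_forall fun x =>
        ha.trans_le (@dist_nonneg G I _ _), fun a ha => ?_⟩
      obtain ⟨n, hn⟩ := exists_pow_lt_of_lt_one ha (show (1 / 2 : ℝ) < 1 by norm_num)
      filter_upwards [hUn n] with x hx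
      have h2 : d 1 x < (1 / 2) ^ n := not_le.1 fun h => hle_d.1 h (by simpa using hx)
      have h3 : (d 1 x : ℝ) < (1 / 2) ^ n := by exact_mod_cast h2
      linarith [hD1 1 x]
    simpa using h1.const_mul 2
  · have h1 : d 1 x < (1 / 2) ^ 0 := by
      have := (hD2 1 x).trans_lt hx
      rw [pow_zero]; exact_mod_cast this
    have h2 : x ∈ U 0 := by
      by_contra h
      exact not_le.2 h1 (hle_d.2 (by simpa using h))
    simpa using h3 0 x h2 1 (mem_of_mem_nhds (hUn _)) 1 (mem_of_mem_nhds (hUn _))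

/-- local minimality, in terms of filters -/
def LM (G : Type) [Group G] [TopologicalSpace G] (V : Set G) : Prop :=
  ∀ F : Filter G, GF F → 𝓝 1 ≤ F → (∀ x : G, x ≠ 1 → {x}ᶜ ∈ F) → V ∈ F → F ≤ 𝓝 1

theorem le_of_nhds_one (τ σ : TopologicalSpace G)
    (hτ : @IsTopologicalGroup G τ _) (hσ : @IsTopologicalGroup G σ _)
    (h : @nhds G τ 1 ≤ @nhds G σ 1) : τ ≤ σ := by
  have : @Continuous G G τ σ (MonoidHom.id G) :=
    @continuous_of_continuousAt_one G τ _ hτ G (G →* G) _ σ hσ.toContinuousMul _ _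
      (MonoidHom.id G) (by simpa [ContinuousAt, Tendsto] using h)
  exact continuous_id_iff_le.1 this

end

theorem LM.of_top {G : Type} [Group G] [τ : TopologicalSpace G] [hτ : IsTopologicalGroup G]
    {V : Set G} (h : ∀ σ : TopologicalSpace G, @IsTopologicalGroup G σ _ → @T2Space G σ → τ ≤ σ →
      V ∈ @nhds G σ 1 → σ = τ) : LM G V := by
  intro F hF h1 h2 h3
  obtain ⟨σ, hσ, rfl⟩ := hF.exists_top
  rw [h σ hσ (@IsTopologicalGroup.t2Space_of_one_sep G σ _ hσ fun x hx =>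
    ⟨_, h2 x hx, fun h => h rfl⟩) (@le_of_nhds_one G _ τ τ σ hτ hσ h1) h3]

theorem LM.to_top {G : Type} [Group G] [τ : TopologicalSpace G] [hτ : IsTopologicalGroup G]
    {V : Set G} (h : LM G V) (σ : TopologicalSpace G) (hσ : @IsTopologicalGroup G σ _)
    (h2 : @T2Space G σ) (hle : τ ≤ σ) (hV : V ∈ @nhds G σ 1) : σ = τ := by
  refine le_antisymm (@le_of_nhds_one G _ τ σ τ hσ hτ ?_) hle
  refine h _ (@GF.nhds G _ σ hσ) (nhds_mono hle) (fun x hx => ?_) hV
  exact @IsOpen.mem_nhds G σ _ _ (@isOpen_compl_singleton G σ _ x) (Ne.symm hx)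

section
variable {G : Type} [Group G] [TopologicalSpace G] [IsTopologicalGroup G]

theorem coarsen (hs : SIN G) {V : Set G} (hm : LM G V) {L : Filter G} (hL : GF L)
    (h1 : ∀ x : G, x ≠ 1 → ∃ A ∈ L, x ∉ closure A)
    (h2 : ∃ W ∈ 𝓝 (1 : G), ∃ A ∈ L, W * A ⊆ V) : L ≤ 𝓝 1 := by
  have hmem : ∀ {U : Set G}, U ∈ 𝓝 (1 : G) * L ↔ ∃ W ∈ 𝓝 (1 : G), ∃ A ∈ L, W * A ⊆ U :=
    Filter.mem_mul
  have hg : GF (𝓝 (1 : G) * L) := by
    refine ⟨fun U hU => ?_, fun U hU => ?_, fun U hU => ?_, fun g U hU => ?_⟩ <;>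
      obtain ⟨W, hW, A, hA, hU⟩ := hmem.1 hU
    · exact hU ⟨1, mem_of_mem_nhds hW, 1, hL.one hA, mul_one 1⟩
    · obtain ⟨W1, hW1, hW1W⟩ := exists_nhds_one_split hW
      obtain ⟨W2, hW2, hW21⟩ := hs _ hW1
      obtain ⟨A1, hA1, hA1A⟩ := mem_prod_self_iff.1 (hL.mul hA)
      refine mem_map.2 (mem_prod_self_iff.2 ⟨(W1 ∩ W2) * A1,
        hmem.2 ⟨_, inter_mem hW1 hW2, _, hA1, subset_rfl⟩, ?_⟩)
      rintro ⟨_, _⟩ ⟨⟨w, hw, a, ha, rfl⟩, ⟨w', hw', a', ha', rfl⟩⟩
      exact hU ⟨w * (a * w' * a⁻¹), hW1W _ hw.1 _ (hW21 _ _ hw'.2), a * a',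
        hA1A (show (a, a') ∈ A1 ×ˢ A1 from ⟨ha, ha'⟩), by simp [mul_assoc]⟩
    · obtain ⟨W2, hW2, hW21⟩ := hs _ hW
      refine mem_map.2 (hmem.2 ⟨W2⁻¹, inv_mem_nhds_one G hW2, _, hL.inv hA, ?_⟩)
      rintro _ ⟨w, hw, a, ha, rfl⟩
      exact hU ⟨a⁻¹ * w⁻¹ * a⁻¹⁻¹, hW21 _ _ hw, a⁻¹, ha, by simp [mul_assoc]⟩
    · refine mem_map.2 (hmem.2 ⟨_, GF.nhds.conj g hW, _, hL.conj g hA, ?_⟩)
      rintro _ ⟨w, hw, a, ha, rfl⟩
      exact hU ⟨g * w * g⁻¹, hw, g * a * g⁻¹, ha, by simp [mul_assoc]⟩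
  have h3 := hm _ hg (fun U hU => by
      obtain ⟨W, hW, A, hA, hU⟩ := hmem.1 hU
      exact mem_of_superset hW fun w hw => hU ⟨w, hw, 1, hL.one hA, mul_one w⟩)
    (fun x hx => by
      obtain ⟨A, hA, hxA⟩ := h1 x hx
      have h4 : Tendsto (fun w : G => w⁻¹ * x) (𝓝 1) (𝓝 x) := by
        have : Continuous fun w : G => w⁻¹ * x := by fun_prop
        simpa using this.tendsto 1
      refine hmem.2 ⟨_, h4 (isClosed_closure.isOpen_compl.mem_nhds hxA), A, hA, ?_⟩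
      rintro _ ⟨w, hw, a, ha, rfl⟩ h5
      have h6 : w * a = x := h5
      refine hw (subset_closure ?_)
      simpa [← h6] using ha)
    (hmem.2 h2)
  intro U hU
  obtain ⟨W, hW, A, hA, hU⟩ := hmem.1 (h3 hU)
  exact mem_of_superset hA fun a ha => hU ⟨1, mem_of_mem_nhds hW, a, ha, one_mul a⟩

theorem sub_le (hs : SIN G) {V : Set G} (hm : LM G V) (N : Subgroup G)
    (hN : IsClosed (N : Set G)) (hV : ∃ W ∈ 𝓝 (1 : G), W * N ⊆ V) {F : Filter N} (hF : GF F)
    (hc : ∀ g : G, Tendsto (fun x : N => g * x * g⁻¹) F (map N.subtype F))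
    (h1 : 𝓝 1 ≤ F) (h2 : ∀ x : N, x ≠ 1 → {x}ᶜ ∈ F) : F ≤ 𝓝 1 := by
  have hNm : (N : Set G) ∈ map N.subtype F := mem_map.2 (univ_mem' fun x => x.2)
  have h3 := coarsen hs hm (hF.map N.subtype hc) (fun x hx => by
      by_cases hxN : x ∈ N
      · obtain ⟨A, hA, hAx⟩ := mem_prod_self_iff.1
          (hF.mul (h2 ⟨x, hxN⟩ fun h => hx (congrArg Subtype.val h)))
        refine ⟨N.subtype '' A, image_mem_map hA, fun hcl => ?_⟩
        have h4 : (⟨x, hxN⟩ : N) ∈ closure A := by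
          rw [Topology.IsInducing.subtypeVal.closure_eq_preimage_closure_image]
          exact hcl
        have h5 : Tendsto (fun y : N => y⁻¹ * ⟨x, hxN⟩) (𝓝 ⟨x, hxN⟩) (𝓝 1) := by
          have : Continuous fun y : N => y⁻¹ * ⟨x, hxN⟩ := by fun_prop
          simpa using this.tendsto ⟨x, hxN⟩
        obtain ⟨a, ha1, ha2⟩ := mem_closure_iff_nhds.1 h4 _ (h5 (h1 hA))
        exact hAx (show (a, a⁻¹ * ⟨x, hxN⟩) ∈ A ×ˢ A from ⟨ha2, ha1⟩) (by simp)
      · exact ⟨N, hNm, by rwa [hN.closure_eq]⟩)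
    (by obtain ⟨W, hW, h⟩ := hV; exact ⟨W, hW, N, hNm, h⟩)
  rw [nhds_induced, ← map_le_iff_le_comap]
  exact h3

theorem central_min (hs : SIN G) {V : Set G} (hm : LM G V) (N : Subgroup G)
    (hN : IsClosed (N : Set G)) (hV : ∃ W ∈ 𝓝 (1 : G), W * N ⊆ V)
    (hc : ∀ g : G, ∀ x ∈ N, g * x = x * g) : LM N univ := by
  intro F hF h1 h2 _
  refine sub_le hs hm N hN hV hF (fun g => ?_) h1 h2
  have : (fun x : N => g * x * g⁻¹) = N.subtype := by
    ext x; simp [hc g x x.2]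
  rw [this]; exact tendsto_map

end

end Pool.Agent.H2.MG
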