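import Mathlib
import Pool.Agent.H2.MG1
import Pool.Agent.H5.Folner

set_option autoImplicit false

/-! Characters: orthogonality, Comfort-Ross, a Folner lemma. -/

namespace Pool.Agent.H2.MG

open Filter Topology Set MeasureTheory Pool.Agent.H5.Folner

theorem int_char {H : Type} [CommGroup H] [MeasurableSpace H] [MeasurableMul H] (μ : Measure H)
    [μ.IsMulLeftInvariant] (χ : H →* Circle) (hχ : χ ≠ 1) : ∫ x, (χ x : ℂ) ∂μ = 0 := by
  obtain ⟨g, hg⟩ : ∃ g, χ g ≠ 1 := by
    by_contra h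
    push Not at h
    exact hχ (MonoidHom.ext h)
  have h1 := integral_mul_left_eq_self (μ := μ) (fun x => (χ x : ℂ)) g
  simp only [map_mul, Circle.coe_mul, integral_const_mul] at h1
  have h2 : ((χ g : ℂ) - 1) * ∫ x, (χ x : ℂ) ∂μ = 0 := by rw [sub_mul, h1, one_mul, sub_self]
  refine (mul_eq_zero.1 h2).resolve_left fun h => hg ?_
  exact Circle.coe_eq_one.1 (sub_eq_zero.1 h)

theorem kr {H : Type} [CommGroup H] [TopologicalSpace H] [IsTopologicalGroup H] [CompactSpace H]
    [T2Space H] (Y : Subgroup (H →* Circle)) (hY : ∀ y ∈ Y, Continuous y)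
    (hs : ∀ x : H, x ≠ 1 → ∃ y ∈ Y, y x ≠ 1) (χ : H →* Circle) (hχ : Continuous χ) : χ ∈ Y := by
  by_contra hn
  borelize H
  let μ : Measure H := Measure.haarMeasure ⊤
  have hμ : μ univ = 1 := by simpa using Measure.haarMeasure_self (K₀ := (⊤ : TopologicalSpace.PositiveCompacts H))
  haveI : IsProbabilityMeasure μ := ⟨hμ⟩
  let S : Submonoid C(H, ℂ) :=
    { carrier := {f | ∃ y ∈ Y, ∀ x, f x = y x}
      one_mem' := ⟨1, Y.one_mem, fun x => by simp⟩
      mul_mem' := by
        rintro f g ⟨y, hy, hf⟩ ⟨z, hz, hg⟩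
        exact ⟨y * z, Y.mul_mem hy hz, fun x => by simp [hf, hg]⟩ }
  have hstar : ∀ f ∈ S, star f ∈ S := by
    rintro f ⟨y, hy, hf⟩
    exact ⟨y⁻¹, Y.inv_mem hy, fun x => by
      rw [MonoidHom.inv_apply, Circle.coe_inv_eq_conj, ← hf]; rfl⟩
  let c : C(H, ℂ) := ⟨fun x => (χ x : ℂ), by fun_prop⟩
  let c' : C(H, ℂ) := ⟨fun x => ((χ x)⁻¹ : Circle), by fun_prop⟩
  have hi : ∀ f : C(H, ℂ), Integrable (fun x => f x) μ := fun f =>
    f.continuous.integrable_of_hasCompactSupport (HasCompactSupport.of_compactSpace _)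
  let K : Submodule ℂ C(H, ℂ) :=
    { carrier := {f | ∫ x, (f * c') x ∂μ = 0}
      zero_mem' := by simp
      add_mem' := by
        intro f g hf hg
        have : ∫ x, (f * c') x + (g * c') x ∂μ = 0 := by
          rw [integral_add (hi _) (hi _), show ∫ x, (f * c') x ∂μ = 0 from hf,
            show ∫ x, (g * c') x ∂μ = 0 from hg, add_zero]
        simpa [add_mul] using this
      smul_mem' := by
        intro a f hf
        have : ∫ x, a * (f * c') x ∂μ = 0 := by
          rw [integral_const_mul, show ∫ x, (f * c') x ∂μ = 0 from hf, mul_zero]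
        simpa [mul_assoc] using this }
  have hK : IsClosed (K : Set C(H, ℂ)) := by
    refine isClosed_eq ?_ continuous_const
    have h1 : Continuous fun f : C(H, ℂ) => ∫ x, f x ∂μ := by
      refine (LipschitzWith.of_dist_le_mul (K := 1) fun f g => ?_).continuous
      rw [dist_eq_norm, ← integral_sub (hi f) (hi g)]
      have := norm_integral_le_of_norm_le_const (μ := μ) (f := fun x => f x - g x) (C := dist f g)
        (Eventually.of_forall fun x => by
          simpa [dist_eq_norm] using (f - g).norm_coe_le_norm x)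
      simpa using this
    exact h1.comp (continuous_mul_right c')
  have hSK : (S : Set C(H, ℂ)) ⊆ K := by
    rintro f ⟨y, hy, hf⟩
    have := int_char μ (y * χ⁻¹) fun h => hn (by rwa [← mul_inv_eq_one.1 h])
    show ∫ x, (f * c') x ∂μ = 0
    simpa [hf, c'] using this
  let A := StarAlgebra.adjoin ℂ (S : Set C(H, ℂ))
  have hA : A.SeparatesPoints := by
    intro x x' hx
    obtain ⟨y, hy, h⟩ := hs (x⁻¹ * x') fun h => hx (inv_mul_eq_one.1 h)
    let f : C(H, ℂ) := ⟨fun x => (y x : ℂ), by have := hY y hy; fun_prop⟩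
    refine ⟨_, ⟨f, StarAlgebra.subset_adjoin ℂ _ ⟨y, hy, fun _ => rfl⟩, rfl⟩, fun h' => h ?_⟩
    have : y x = y x' := Circle.ext h'
    simp [this]
  have hAK : (A : Set C(H, ℂ)) ⊆ K := by
    intro f hf
    have h1 : f ∈ (Algebra.adjoin ℂ ((S : Set C(H, ℂ)) ∪ star (S : Set C(H, ℂ)))).toSubmodule := by
      rw [← StarAlgebra.adjoin_toSubalgebra]; exact hf
    rw [Algebra.adjoin_eq_span] at h1
    refine Submodule.span_le.2 (Subset.trans ?_ hSK) h1
    refine SetLike.coe_subset_coe.2 (Submonoid.closure_le.2 (union_subset subset_rfl fun g hg => ?_))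
    simpa using hstar _ hg
  have h3 : c ∈ A.topologicalClosure := by
    rw [ContinuousMap.starSubalgebra_topologicalClosure_eq_top_of_separatesPoints A hA]; trivial
  have h4 : ∫ x, (c * c') x ∂μ = 0 := closure_minimal hAK hK h3
  simp [c, c'] at h4

theorem cr {A : Type} [Group A] (Y : Subgroup (A →* Circle)) (χ : A →* Circle)
    (h : Tendsto χ (⨅ y : Y, comap (y : A →* Circle) (𝓝 1)) (𝓝 1)) : χ ∈ Y := by
  let e1 : A →* (Y → Circle) := Pi.monoidHom fun y : Y => (y : A →* Circle)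
  let e : A →* (Y → Circle) × Circle := e1.prod χ
  let H := e.range.topologicalClosure
  haveI : CompactSpace H := isCompact_iff_compactSpace.1 e.range.isClosed_topologicalClosure.isCompact
  let e' : A →* H := e.codRestrict H fun a => e.range.le_topologicalClosure ⟨a, rfl⟩
  let Y' : Subgroup (H →* Circle) :=
    { carrier := {ψ | Continuous ψ ∧ ψ.comp e' ∈ Y}
      one_mem' := ⟨continuous_const, Y.one_mem⟩
      mul_mem' := fun ha hb => ⟨ha.1.mul hb.1, Y.mul_mem ha.2 hb.2⟩
      inv_mem' := fun ha => ⟨ha.1.inv, Y.inv_mem ha.2⟩ }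
  have := kr Y' (fun y hy => hy.1) ?_ ((MonoidHom.snd _ _).comp H.subtype)
    (continuous_snd.comp continuous_subtype_val)
  · exact this.2
  intro x hx
  by_cases h1 : x.1.1 = 1
  · exfalso
    have h2 : (comap e (𝓝 x.1)).NeBot := by
      have h3 : x.1 ∈ closure (range e) := x.2
      rw [mem_closure_iff_nhds] at h3
      rw [comap_neBot_iff]
      intro t ht
      obtain ⟨_, h4, a, rfl⟩ := h3 t ht
      exact ⟨a, h4⟩
    have h3 : Tendsto e (comap e (𝓝 x.1)) (𝓝 x.1) := tendsto_comap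
    have h4 : Tendsto χ (comap e (𝓝 x.1)) (𝓝 x.1.2) := (continuous_snd.tendsto _).comp h3
    have h5 : Tendsto χ (comap e (𝓝 x.1)) (𝓝 1) := by
      refine h.mono_left (le_iInf fun y => tendsto_iff_comap.1 ?_)
      have := (((continuous_apply y).comp continuous_fst).tendsto _).comp h3
      rw [Function.comp_apply, h1] at this
      exact this
    exact hx (Subtype.ext (Prod.ext h1 (tendsto_nhds_unique h4 h5)))
  · obtain ⟨y, hy⟩ := Function.ne_iff.1 h1
    exact ⟨((Pi.evalMonoidHom _ y).comp (MonoidHom.fst _ _)).comp H.subtype,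
      ⟨((continuous_apply y).comp continuous_fst).comp continuous_subtype_val, y.2⟩, hy⟩

theorem sep_disc {M : Type} [CommGroup M] {x : M} (hx : x ≠ 1) : ∃ χ : M →* Circle, χ x ≠ 1 := by
  obtain ⟨c, hc⟩ := CharacterModule.exists_character_apply_ne_zero_of_ne_zero
    (a := Additive.ofMul x) hx
  let q : ℚ →+ Additive Circle := AddMonoidHom.mk'
    (fun t => Additive.ofMul (Circle.exp (2 * Real.pi * t))) fun a b => by
      rw [← ofMul_mul, ← Circle.exp_add]; push_cast; ring_nf
  let q' : AddCircle (1 : ℚ) →+ Additive Circle := QuotientAddGroup.lift _ q (by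
    rintro _ ⟨k, rfl⟩
    show Circle.exp _ = 1
    rw [Circle.exp_eq_one]
    exact ⟨k, by simp [mul_comm]⟩)
  refine ⟨MonoidHom.toAdditive.symm (q'.comp c), fun h => hc ?_⟩
  obtain ⟨t, ht⟩ := QuotientAddGroup.mk_surjective (c (Additive.ofMul x))
  have h1 : q' (c (Additive.ofMul x)) = 0 := h
  rw [← ht] at h1 ⊢
  obtain ⟨k, hk⟩ := Circle.exp_eq_one.1 (show Circle.exp (2 * Real.pi * t) = 1 from h1)
  rw [mul_comm (k : ℝ)] at hk
  have h2 : (t : ℝ) = k := mul_left_cancel₀ (by positivity) hk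
  exact (QuotientAddGroup.eq_zero_iff _).2 ⟨k, by simp; exact_mod_cast h2.symm⟩

/-- all characters, as a closed subgroup of the product -/
def Gam (M : Type) [CommGroup M] : Subgroup (M → Circle) where
  carrier := {f | ∀ a b, f (a * b) = f a * f b}
  one_mem' := fun _ _ => by simp
  mul_mem' := fun hf hg a b => by simp [hf a b, hg a b, mul_mul_mul_comm]
  inv_mem' := fun hf a b => by simp [hf a b, mul_comm]

instance Gam_compact (M : Type) [CommGroup M] : CompactSpace (Gam M) := by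
  refine isCompact_iff_compactSpace.1 (IsClosed.isCompact ?_)
  show IsClosed {f : M → Circle | ∀ a b, f (a * b) = f a * f b}
  simp only [setOf_forall]
  exact isClosed_iInter fun a => isClosed_iInter fun b => isClosed_eq (by fun_prop) (by fun_prop)

/-- the character given by a point of `Gam` -/
noncomputable def gh {M : Type} [CommGroup M] (f : Gam M) : M →* Circle := MonoidHom.mk' f.1 f.2

theorem gh_cont {M : Type} [CommGroup M] (y : M) : Continuous fun f : Gam M => gh f y :=
  (continuous_apply y).comp continuous_subtype_val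

open Classical in
theorem bi {M : Type} [CommGroup M] (T : Finset M) (η : M → ℝ) {ι : Type} [Fintype ι]
    (c : ι → ℝ) (y : ι → M) {B : ℝ} (hB : ∀ χ : M →* Circle, ‖∑ i, (c i : ℂ) * χ (y i)‖ ≤ B) :
    ∑ i, c i * ∑ z ∈ T, ∑ z' ∈ T, (if y i * z = z' then η z * η z' else 0) ≤
      B * ∑ z ∈ T, η z ^ 2 := by
  borelize ↥(Gam M)
  let μ : Measure (Gam M) := Measure.haarMeasure ⊤
  have hμ : μ univ = 1 := by
    simpa using Measure.haarMeasure_self (K₀ := (⊤ : TopologicalSpace.PositiveCompacts (Gam M)))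
  haveI : IsProbabilityMeasure μ := ⟨hμ⟩
  have hi : ∀ f : Gam M → ℂ, Continuous f → Integrable f μ := fun f hf =>
    hf.integrable_of_hasCompactSupport (HasCompactSupport.of_compactSpace _)
  have hg := fun y : M => gh_cont y
  have h1 : ∀ y : M, ∫ f, (gh f y : ℂ) ∂μ = if y = 1 then 1 else 0 := by
    intro y
    split_ifs with h
    · simp [h]
    · obtain ⟨χ, hχ⟩ := sep_disc h
      exact int_char μ ((Pi.evalMonoidHom _ y).comp (Gam M).subtype) fun h =>
        hχ (DFunLike.congr_fun h ⟨χ, map_mul χ⟩)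
  let E : Gam M → ℂ := fun f => ∑ z ∈ T, (η z : ℂ) * gh f z
  have hE : Continuous E := by fun_prop
  have h2 : ∀ y : M, ∫ f, (gh f y : ℂ) * ((‖E f‖ ^ 2 : ℝ) : ℂ) ∂μ =
      ((∑ z ∈ T, ∑ z' ∈ T, (if y * z = z' then η z * η z' else 0) : ℝ) : ℂ) := by
    intro y
    have h3 : ∀ f, (gh f y : ℂ) * ((‖E f‖ ^ 2 : ℝ) : ℂ) =
        ∑ z ∈ T, ∑ z' ∈ T, ((η z * η z' : ℝ) : ℂ) * gh f (y * z * z'⁻¹) := by
      intro f
      rw [← Complex.normSq_eq_norm_sq, ← Complex.mul_conj]
      simp only [E, map_sum, Finset.sum_mul_sum]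
      simp only [Finset.mul_sum, map_mul, map_inv, Circle.coe_mul,
        Circle.coe_inv_eq_conj, Complex.conj_ofReal]
      refine Finset.sum_congr rfl fun z _ => Finset.sum_congr rfl fun z' _ => ?_
      push_cast; ring
    simp only [h3]
    rw [integral_finset_sum _ fun z _ => hi _ (by fun_prop)]
    push_cast
    refine Finset.sum_congr rfl fun z _ => ?_
    rw [integral_finset_sum _ fun z _ => hi _ (by fun_prop)]
    refine Finset.sum_congr rfl fun z' _ => ?_
    rw [integral_const_mul, h1]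
    simp only [mul_inv_eq_one]
    split_ifs <;> simp
  have h4 : ∫ f, ‖E f‖ ^ 2 ∂μ = ∑ z ∈ T, η z ^ 2 := by
    have := h2 1
    simp only [map_one, Circle.coe_one, one_mul] at this
    rw [integral_complex_ofReal, Complex.ofReal_inj] at this
    rw [this]
    exact Finset.sum_congr rfl fun z hz => by simp [hz, sq]
  have h5 : ((∑ i, c i * ∑ z ∈ T, ∑ z' ∈ T, (if y i * z = z' then η z * η z' else 0) : ℝ) : ℂ) =
      ∫ f, (∑ i, (c i : ℂ) * gh f (y i)) * ((‖E f‖ ^ 2 : ℝ) : ℂ) ∂μ := by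
    simp only [Finset.sum_mul]
    rw [integral_finset_sum _ fun z _ => hi _ (by fun_prop), Complex.ofReal_sum]
    refine Finset.sum_congr rfl fun i _ => ?_
    simp only [mul_assoc]
    rw [integral_const_mul, h2, Complex.ofReal_mul]
  refine (le_abs_self _).trans ?_
  rw [← Real.norm_eq_abs, ← Complex.norm_real, h5, ← h4, ← integral_const_mul]
  refine norm_integral_le_of_norm_le (Continuous.integrable_of_hasCompactSupport (by fun_prop)
    (HasCompactSupport.of_compactSpace _)) (Eventually.of_forall fun f => ?_)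
  rw [norm_mul, Complex.norm_real, Real.norm_of_nonneg (by positivity)]
  exact mul_le_mul_of_nonneg_right (hB _) (by positivity)

theorem fol {M : Type} [CommGroup M] (S : Finset M) {κ : ℝ} (hκ : 0 < κ) :
    ∃ (ι : Type) (_ : Fintype ι) (_ : Nonempty ι) (w : ι → M), ∀ s ∈ S, ∀ f : M → ℝ,
      (∀ x, |f x| ≤ 1) → |av (fun i => f (w i * s)) - av (fun i => f (w i))| ≤ κ :=
  folner (V := Additive M) S κ hκ

theorem av_sum {ι α : Type} [Fintype ι] (F : Finset α) (f : α → ι → ℝ) :
    av (fun i => ∑ a ∈ F, f a i) = ∑ a ∈ F, av (f a) := by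
  simp only [av_eq, Finset.sum_div]
  exact Finset.sum_comm

theorem mass {M ι : Type} [CommGroup M] [Fintype ι] [Nonempty ι] (w : ι → M) (F : Finset M)
    (f : M → ℝ) (h0 : ∀ x, 0 ≤ f x) (h1 : ∀ x, ∃ g ∈ F, 1 ≤ f (x * g⁻¹)) {κ : ℝ}
    (h : ∀ g ∈ F, |av (fun i => f (w i * g⁻¹)) - av (fun i => f (w i))| ≤ κ) :
    1 ≤ F.card * (av (fun i => f (w i)) + κ) := by
  have h2 : 1 ≤ av fun i => ∑ g ∈ F, f (w i * g⁻¹) := le_av fun i => by
    obtain ⟨g, hg, h⟩ := h1 (w i)
    exact h.trans (Finset.single_le_sum (f := fun g => f (w i * g⁻¹)) (fun g _ => h0 _) hg)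
  rw [av_sum] at h2
  refine h2.trans ((Finset.sum_le_card_nsmul _ _ _ fun g hg => ?_).trans_eq (nsmul_eq_mul _ _))
  linarith [(abs_le.1 (h g hg)).2]

theorem fl0 {M ι : Type} [CommGroup M] [Fintype ι] {ρ : M → ℝ} (h : SN ρ) (F : Finset M)
    (hF : ∀ x, ∃ g ∈ F, ρ (x * g⁻¹) < 1) {x : M} (hx : 10 ≤ ρ x) (w : ι → M) (a : ι → ℝ)
    (ha0 : ∀ i, 0 ≤ a i) (ha : ∀ i, a i ≠ 0 → ρ (w i) < 2) {B : ℝ}
    (hB : ∀ χ : M →* Circle, ‖(1 - χ x : ℂ) * ∑ i, (a i : ℂ) * χ (w i)‖ ≤ B) :
    ∑ i, a i ≤ 2 * F.card * B := by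
  classical
  have hn : (0 : ℝ) < F.card := by
    obtain ⟨g, hg, -⟩ := hF 1
    exact_mod_cast Finset.card_pos.2 ⟨g, hg⟩
  obtain ⟨J, _, _, v, hv⟩ := fol (Finset.univ.image (fun i => (w i)⁻¹) ∪ F.image (·⁻¹))
    (κ := 1 / (4 * F.card)) (by positivity)
  let T := Finset.univ.image v
  let p : M → ℝ := fun z => av fun j => if v j = z then 1 else 0
  have hp0 : ∀ z, 0 ≤ p z := fun z => le_av fun j => by split_ifs <;> norm_num
  have hpT : ∀ z, z ∉ T → p z = 0 := fun z hz => by
    have : ∀ j, v j ≠ z := fun j h => hz (Finset.mem_image.2 ⟨j, Finset.mem_univ _, h⟩)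
    simp [p, this, av_const]
  have hsum : ∀ (g : M → ℝ) (u : M), (∀ j, g (v j * u⁻¹) ≠ 0 → v j * u⁻¹ ∈ T) →
      ∑ z ∈ T, g z * p (u * z) = av fun j => g (v j * u⁻¹) := by
    intro g u hg
    simp only [p, ← av_mul]
    rw [← av_sum]
    congr 1
    ext j
    have : ∀ z, v j = u * z ↔ v j * u⁻¹ = z := fun z => by
      rw [mul_inv_eq_iff_eq_mul, mul_comm]
    simp only [this, mul_ite, mul_one, mul_zero, Finset.sum_ite_eq]
    split_ifs with h
    · rfl
    · exact (not_not.1 fun h' => h (hg j h')).symm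
  have hsum1 : ∀ g : M → ℝ, ∑ z ∈ T, g z * p z = av fun j => g (v j) := by
    intro g
    simpa using hsum g 1 fun j _ => by simp [T]
  let η : M → ℝ := fun z => if ρ z < 3 then √(p z) else 0
  have hη0 : ∀ z, 0 ≤ η z := fun z => by simp only [η]; split_ifs <;> positivity
  have h1 : ∑ z ∈ T, η z ^ 2 ≤ 1 := by
    have := hsum1 fun _ => 1
    rw [av_const] at this
    rw [← this]
    refine Finset.sum_le_sum fun z _ => ?_
    simp only [η]
    split_ifs
    · rw [Real.sq_sqrt (hp0 z), one_mul]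
    · simpa using hp0 z
  let φ : M → ℝ := fun y => ∑ z ∈ T, ∑ z' ∈ T, (if y * z = z' then η z * η z' else 0)
  have h2 : ∀ y, ρ y < 2 → φ (x * y) = 0 := by
    intro y hy
    refine Finset.sum_eq_zero fun z _ => Finset.sum_eq_zero fun z' _ => ?_
    simp only [η]
    split_ifs with h3 h4 h5 <;> try simp
    exfalso
    have h6 : x = z' * z⁻¹ * y⁻¹ := by rw [← h3]; simp [mul_assoc]
    have h7 := h.mul (z' * z⁻¹) y⁻¹
    have h8 := h.mul z' z⁻¹
    rw [← h6, h.inv] at h7
    rw [h.inv] at h8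
    linarith
  let b : M → ℝ := fun z => if ρ z < 1 then 1 else 0
  have hb : 1 ≤ F.card * (av (fun j => b (v j)) + 1 / (4 * F.card)) :=
    mass v F b (fun z => by simp only [b]; split_ifs <;> norm_num)
      (fun z => by obtain ⟨g, hg, h⟩ := hF z; exact ⟨g, hg, by simp [b, h]⟩)
      fun g hg => hv _ (Finset.mem_union_right _ (Finset.mem_image_of_mem _ hg)) b
        fun z => by simp only [b]; split_ifs <;> norm_num
  have h3 : ∀ i, ρ (w i) < 2 → 1 ≤ 2 * F.card * φ (w i) := by
    intro i hi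
    let g : M → ℝ := fun z => if ρ z < 1 ∧ p (w i * z) < p z then 1 else 0
    have h4 := hv _ (Finset.mem_union_left _ (Finset.mem_image_of_mem _ (Finset.mem_univ i))) g
      fun z => by simp only [g]; split_ifs <;> norm_num
    rw [← hsum g (w i) fun j hj => by
      by_contra h5
      have := hp0 (w i * (v j * (w i)⁻¹))
      simp only [g, hpT _ h5, not_lt.2 this, and_false, if_false, ne_eq, not_true] at hj,
      ← hsum1 g] at h4
    rw [← hsum1 b] at hb
    have h5 : ∑ z ∈ T, (b z * p z - g z * p z + g z * p (w i * z)) ≤ φ (w i) := by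
      refine Finset.sum_le_sum fun z _ => ?_
      have h6 : (∑ z' ∈ T, if w i * z = z' then η z * η z' else 0) = η z * η (w i * z) := by
        rw [Finset.sum_ite_eq]
        split_ifs with h7
        · rfl
        · simp [η, hpT _ h7]
      rw [h6]
      by_cases h7 : ρ z < 1
      · have h8 : ρ (w i * z) < 3 := by linarith [h.mul (w i) z]
        have h9 : ρ z < 3 := by linarith
        simp only [b, g, η, h7, h8, h9, if_true, true_and]
        have e1 := Real.mul_self_sqrt (hp0 z)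
        have e2 := Real.mul_self_sqrt (hp0 (w i * z))
        have e3 := Real.sqrt_nonneg (p z)
        have e4 := Real.sqrt_nonneg (p (w i * z))
        split_ifs with h10
        · have := Real.sqrt_le_sqrt h10.le
          nlinarith
        · have := Real.sqrt_le_sqrt (not_lt.1 h10)
          nlinarith
      · simpa [b, g, h7] using mul_nonneg (hη0 z) (hη0 (w i * z))
    rw [Finset.sum_add_distrib, Finset.sum_sub_distrib] at h5
    have h6 : F.card * (1 / (4 * F.card) : ℝ) = 1 / 4 := by field_simp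
    nlinarith [(abs_le.1 h4).1]
  have h4 := bi T η (Sum.elim a fun i => -a i) (Sum.elim w fun i => x * w i) (B := B) fun χ => by
    refine le_of_eq_of_le ?_ (hB χ)
    simp only [Fintype.sum_sum_type, Sum.elim_inl, Sum.elim_inr, map_mul, Circle.coe_mul,
      Finset.mul_sum, ← Finset.sum_add_distrib]
    refine congrArg _ (Finset.sum_congr rfl fun i _ => ?_)
    push_cast; ring
  have hB0 : 0 ≤ B := (norm_nonneg _).trans (hB 1)
  simp only [Fintype.sum_sum_type, Sum.elim_inl, Sum.elim_inr] at h4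
  have h5 : ∑ i, -a i * φ (x * w i) = 0 := Finset.sum_eq_zero fun i _ => by
    by_cases h : a i = 0
    · simp [h]
    · rw [h2 _ (ha i h), mul_zero]
  have h6 : ∑ i, a i ≤ 2 * F.card * ∑ i, a i * φ (w i) := by
    rw [Finset.mul_sum]
    refine Finset.sum_le_sum fun i _ => ?_
    by_cases h : a i = 0
    · simp [h]
    · nlinarith [h3 i (ha i h), ha0 i]
  have h7 : ∑ i, a i * φ (w i) ≤ B := by
    have h8 : ∑ i, a i * φ (w i) + ∑ i, -a i * φ (x * w i) ≤ B * ∑ z ∈ T, η z ^ 2 := h4
    nlinarith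
  nlinarith

theorem fl {M : Type} [CommGroup M] {ρ : M → ℝ} (h : SN ρ) (F : Finset M)
    (hF : ∀ x, ∃ g ∈ F, ρ (x * g⁻¹) < 1) {x : M} (hx : 10 ≤ ρ x) :
    ∃ χ : M →* Circle, χ x ≠ 1 ∧ ∃ C : ℝ, ∀ g, ‖(χ g : ℂ) - 1‖ ≤ C * ρ g := by
  classical
  have hn : (0 : ℝ) < F.card := by
    obtain ⟨g, hg, -⟩ := hF 1
    exact_mod_cast Finset.card_pos.2 ⟨g, hg⟩
  set c : ℝ := 1 / (8 * F.card ^ 2) with hc
  have hc0 : 0 < c := by positivity
  let K : Finset M × ℕ → Set (Gam M) := fun q => {f | c ≤ ‖(1 - gh f x : ℂ)‖ ∧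
    ∀ g ∈ q.1, c / 2 * ‖(gh f g : ℂ) - 1‖ ≤ ρ g + 1 / (q.2 + 1)}
  have hg := fun y : M => gh_cont y
  have hK : ∀ q, IsClosed (K q) := by
    intro q
    simp only [K, setOf_and, setOf_forall]
    exact (isClosed_le continuous_const (by fun_prop)).inter
      (isClosed_iInter fun g => isClosed_iInter fun _ => isClosed_le (by fun_prop) continuous_const)
  have hne : ∀ q, (K q).Nonempty := by
    rintro ⟨S, k⟩
    obtain ⟨ι, _, _, w, hw⟩ := fol (S ∪ F.image (·⁻¹)) (κ := min (1 / (k + 1)) (1 / (2 * F.card)))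
      (by positivity)
    let f : M → ℝ := fun z => max 0 (min 1 (2 - ρ z))
    have hf0 : ∀ z, 0 ≤ f z := fun z => le_max_left _ _
    have hf1 : ∀ z, |f z| ≤ 1 := fun z => by
      rw [abs_of_nonneg (hf0 z)]; exact max_le zero_le_one (min_le_left _ _)
    have hf2 : ∀ z g, |f z - f (z * g)| ≤ ρ g := fun z g => by
      have h1 := abs_le.1 (h.abs_sub z g)
      have h2 := h.nonneg g
      simp only [f, max_def, min_def, abs_le]
      split_ifs <;> constructor <;> linarith
    have h1 := mass w F f hf0 (fun z => by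
      obtain ⟨g, hg, h⟩ := hF z
      exact ⟨g, hg, le_max_of_le_right (le_min le_rfl (by linarith))⟩)
      fun g hg => (hw _ (Finset.mem_union_right _ (Finset.mem_image_of_mem _ hg)) f hf1).trans
        (min_le_right _ _)
    have hN : (0 : ℝ) < Fintype.card ι := by exact_mod_cast Fintype.card_pos
    let a : ι → ℝ := fun i => f (w i) / Fintype.card ι
    have ha : ∀ u : ι → ℝ, ∑ i, a i * u i = av fun i => f (w i) * u i := fun u => by
      rw [av_eq, Finset.sum_div]; exact Finset.sum_congr rfl fun i _ => by simp only [a]; ring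
    obtain ⟨χ, hχ⟩ : ∃ χ : M →* Circle, c < ‖(1 - χ x : ℂ) * ∑ i, (a i : ℂ) * χ (w i)‖ := by
      by_contra h2
      push Not at h2
      have h3 := fl0 h F hF hx w a (fun i => div_nonneg (hf0 _) hN.le) (fun i hi => by
        by_contra h4
        refine hi ?_
        simp only [a, f]
        rw [max_eq_left (min_le_of_right_le (by linarith)), zero_div]) h2
      have h4 := ha fun _ => 1
      simp only [mul_one] at h4
      rw [h4] at h3
      have h5 : F.card * (1 / (2 * F.card) : ℝ) = 1 / 2 := by field_simp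
      have h6 : F.card * (2 * F.card * c) = 1 / 4 := by rw [hc]; field_simp; norm_num
      nlinarith
    set A := ∑ i, (a i : ℂ) * χ (w i) with hA
    have hre : ∀ u : ℂ, (u * A).re = av fun i => f (w i) * (u * χ (w i)).re := fun u => by
      rw [← ha, hA, Finset.mul_sum, Complex.re_sum]
      exact Finset.sum_congr rfl fun i _ => by rw [mul_left_comm, Complex.re_ofReal_mul]
    have hb : ∀ (u : ℂ) (z : M), ‖u‖ = 1 → |(u * χ z).re| ≤ 1 := fun u z hu =>
      (Complex.abs_re_le_norm _).trans (by simp [hu])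
    have hb' : ∀ (u : ℂ) (z : M), ‖u‖ = 1 → |f z * (u * χ z).re| ≤ 1 := fun u z hu => by
      rw [abs_mul]; exact mul_le_one₀ (hf1 z) (abs_nonneg _) (hb u z hu)
    have hA1 : ‖A‖ ≤ 1 := by
      obtain ⟨u, hu, h2⟩ := Complex.exists_norm_eq_mul_self A
      have h3 := congrArg Complex.re h2
      rw [Complex.ofReal_re, hre] at h3
      rw [h3]
      exact av_le fun i => (abs_le.1 (hb' u _ hu)).2
    have h2 : ‖(1 - χ x : ℂ)‖ ≤ 2 := (norm_sub_le _ _).trans (by simp; norm_num)
    rw [norm_mul] at hχ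
    refine ⟨⟨χ, map_mul χ⟩, show c ≤ ‖(1 - χ x : ℂ)‖ by nlinarith [norm_nonneg (1 - χ x : ℂ)],
      fun g hg => show c / 2 * ‖(χ g : ℂ) - 1‖ ≤ ρ g + 1 / (k + 1) from ?_⟩
    have h3 : ‖((χ g : ℂ) - 1) * A‖ ≤ ρ g + 1 / (k + 1) := by
      obtain ⟨u, hu, h2⟩ := Complex.exists_norm_eq_mul_self (((χ g : ℂ) - 1) * A)
      have h3 := congrArg Complex.re h2
      rw [Complex.ofReal_re, sub_mul, mul_sub, one_mul, Complex.sub_re, ← mul_assoc, hre, hre] at h3
      have h4 := (abs_le.1 ((hw g (Finset.mem_union_left _ hg) (fun z => f z * (u * χ z).re)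
        fun z => hb' u z hu).trans (min_le_left _ _))).2
      have h5 : av (fun i => f (w i) * (u * χ g * χ (w i)).re) -
          av (fun i => f (w i * g) * (u * χ (w i * g)).re) ≤ ρ g := by
        rw [← av_sub]
        refine av_le fun i => ?_
        rw [show u * χ g * χ (w i) = u * χ (w i * g) by
          rw [map_mul, Circle.coe_mul]; ring, ← sub_mul]
        refine (le_abs_self _).trans ?_
        rw [abs_mul]
        exact (mul_le_of_le_one_right (abs_nonneg _) (hb u _ hu)).trans (hf2 _ _)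
      rw [sub_mul, one_mul, h3]
      linarith
    rw [norm_mul] at h3
    have h4 : c / 2 ≤ ‖A‖ := by nlinarith [norm_nonneg A]
    nlinarith [norm_nonneg ((χ g : ℂ) - 1)]
  have hdir : Directed (· ⊇ ·) K := by
    refine directed_of_isDirected_le fun q q' (hq : q ≤ q') f hf =>
      ⟨hf.1, fun g hg => (hf.2 g (hq.1 hg)).trans ?_⟩
    have : (q.2 : ℝ) ≤ q'.2 := by exact_mod_cast hq.2
    gcongr
  obtain ⟨f, hf⟩ := IsCompact.nonempty_iInter_of_directed_nonempty_isCompact_isClosed K hdir hne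
    (fun q => (hK q).isCompact) hK
  rw [mem_iInter] at hf
  refine ⟨gh f, fun h1 => ?_, 2 / c, fun g => ?_⟩
  · have := (hf (∅, 0)).1
    rw [h1] at this
    simp at this
    linarith
  · have h1 : c / 2 * ‖(gh f g : ℂ) - 1‖ ≤ ρ g := by
      have h2 : Tendsto (fun k : ℕ => ρ g + 1 / ((k : ℝ) + 1)) atTop (𝓝 (ρ g + 0)) :=
        tendsto_const_nhds.add tendsto_one_div_add_atTop_nhds_zero_nat
      rw [add_zero] at h2
      exact ge_of_tendsto' h2 fun k => (hf ({g}, k)).2 g (Finset.mem_singleton_self g)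
    rw [div_mul_eq_mul_div, le_div_iff₀ hc0]
    linarith

theorem tendsto_of_lip {α : Type} {l : Filter α} {ρ : α → ℝ} {χ : α → Circle} {C : ℝ}
    (h : ∀ g, ‖(χ g : ℂ) - 1‖ ≤ C * ρ g) (hρ : Tendsto ρ l (𝓝 0)) : Tendsto χ l (𝓝 1) := by
  rw [tendsto_iff_dist_tendsto_zero]
  refine squeeze_zero (fun _ => dist_nonneg) (fun g => ?_) (by simpa using hρ.const_mul C)
  exact (dist_eq_norm (χ g : ℂ) 1).trans_le (h g)

theorem sep {A : Type} [CommGroup A] [TopologicalSpace A] [IsTopologicalGroup A] (h : PC A)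
    {V : Set A} (hV : V ∈ 𝓝 (1 : A)) {x : A} (hx : x ∉ V) :
    ∃ χ : A →* Circle, Continuous χ ∧ χ x ≠ 1 := by
  classical
  obtain ⟨ρ, h1, h2, h3⟩ := exists_sn (SIN.comm A) hV
  have h4 : Tendsto (fun x => 10 * ρ x) (𝓝 1) (𝓝 0) := by simpa using h2.const_mul 10
  obtain ⟨F, hF⟩ := h _ (h4.eventually (gt_mem_nhds one_pos))
  obtain ⟨χ, h5, C, h6⟩ := fl (h1.smul (c := 10) (by norm_num)) F
    (fun y => by simpa [mul_comm] using hF y) (x := x)
    (by have := mt (h3 x) hx; linarith)
  exact ⟨χ, continuous_of_continuousAt_one χ (by simpa [ContinuousAt] using tendsto_of_lip h6 h4), h5⟩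

end Pool.Agent.H2.MG
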