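import Mathlib
import Pool.Agent.H2.MG2
import Pool.Agent.H19.CpA

set_option autoImplicit false

/-! Large abelian groups and tightness. -/

namespace Pool.Agent.H2.MG

open Filter Topology Set Cardinal

/-- a countable divisible group containing all cyclic groups of prime or infinite order -/
abbrev DD : Type := ℚ × AddCircle (1 : ℚ)

instance DD_countable : Countable DD :=
  haveI : Countable (AddCircle (1 : ℚ)) := QuotientAddGroup.mk_surjective.countable
  inferInstance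

theorem exists_emb {X : Type} [AddCommGroup X] {x : X} (hx : x ≠ 0) :
    ∃ C : Submodule ℤ X, C ≤ Submodule.span ℤ {x} ∧ C ≠ ⊥ ∧
      ∃ f : C →ₗ[ℤ] DD, Function.Injective f := by
  by_cases h : IsOfFinAddOrder x
  · have h1 : addOrderOf x ≠ 1 := by rwa [Ne, AddMonoid.addOrderOf_eq_one_iff]
    obtain ⟨p, hp, k, hk⟩ := Nat.exists_prime_and_dvd h1
    have hk0 : k ≠ 0 := fun h0 => h.addOrderOf_pos.ne' (by rw [hk, h0, mul_zero])
    have hy : k • x ≠ 0 := fun h0 => by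
      have := Nat.le_of_dvd (Nat.pos_of_ne_zero hk0) (addOrderOf_dvd_iff_nsmul_eq_zero.2 h0)
      have h2 := hp.two_le
      have := Nat.pos_of_ne_zero hk0
      nlinarith
    have hp0 : (p : ℤ) • (k • x) = 0 := by
      rw [natCast_zsmul, ← mul_nsmul', ← hk, addOrderOf_nsmul_eq_zero]
    obtain ⟨c, hc⟩ := CharacterModule.exists_character_apply_ne_zero_of_ne_zero hy
    refine ⟨Submodule.span ℤ {k • x}, (Submodule.span_singleton_le_iff_mem _ _).2
      (Submodule.smul_of_tower_mem _ _ (Submodule.mem_span_singleton_self x)),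
      by simpa using hy, (LinearMap.inr ℤ _ _).comp ((AddMonoidHom.toIntLinearMap c).comp (Submodule.subtype _)),
      (injective_iff_map_eq_zero _).2 ?_⟩
    rintro ⟨_, hz⟩ h0
    obtain ⟨n, rfl⟩ := Submodule.mem_span_singleton.1 hz
    have h2 : n • c (k • x) = 0 := by rw [← map_zsmul]; exact congrArg Prod.snd h0
    by_cases hn : (p : ℤ) ∣ n
    · obtain ⟨m, rfl⟩ := hn
      exact Subtype.ext (show ((p : ℤ) * m) • k • x = 0 by rw [mul_comm, mul_smul, hp0, smul_zero])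
    · obtain ⟨a, b, hab⟩ := (Nat.prime_iff_prime_int.1 hp).irreducible.coprime_iff_not_dvd.2 hn
      refine absurd ?_ hc
      rw [← one_smul ℤ (c _), ← hab, add_smul, mul_smul, mul_smul, h2, ← map_zsmul, hp0]
      simp
  · have h1 : Function.Injective (LinearMap.toSpanSingleton ℤ X x) := by
      refine (injective_iff_map_eq_zero _).2 fun n hn => ?_
      by_contra h0
      exact h (isOfFinAddOrder_iff_zsmul_eq_zero.2 ⟨n, h0, hn⟩)
    refine ⟨LinearMap.range (LinearMap.toSpanSingleton ℤ X x),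
      (LinearMap.span_singleton_eq_range ℤ X x).ge, ?_,
      (LinearMap.inl ℤ _ _).comp ((Int.castAddHom ℚ).toIntLinearMap.comp
        (LinearEquiv.ofInjective _ h1).symm.toLinearMap), ?_⟩
    · rw [← LinearMap.span_singleton_eq_range]; simpa using hx
    · exact LinearMap.inl_injective.comp (Int.cast_injective.comp
        (LinearEquiv.ofInjective _ h1).symm.injective)

theorem alg0 (X : Type) [AddCommGroup X] : ∃ (J : Type) (h : X →+ (J →₀ DD)),
    Function.Injective h ∧ ∀ j, ∃ e d, d ≠ 0 ∧ h e = Finsupp.single j d := by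
  classical
  obtain ⟨s, hs⟩ := zorn_subset {s : Set (Submodule ℤ X) | sSupIndep s ∧ ∀ C ∈ s, C ≠ ⊥ ∧
      ∃ f : C →ₗ[ℤ] DD, Function.Injective f} fun c hc1 hc2 =>
    ⟨⋃₀ c, ⟨iSupIndep_sUnion_of_directed hc2.directedOn fun s hs => (hc1 hs).1,
      fun a ⟨_, sc, as⟩ => (hc1 sc).2 a as⟩, fun _ => Set.subset_sUnion_of_mem⟩
  have hf := fun C : s => (hs.prop.2 C C.2).2
  choose f hf using hf
  letI : DivisibleBy (s →₀ DD) ℤ :=
    { div := fun a n => a.mapRange (fun d => if d = 0 then 0 else DivisibleBy.div d n) (by simp)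
      div_zero := fun a => by ext1 j; simp [DivisibleBy.div_zero]
      div_cancel := fun a hn => by
        ext1 j
        rw [Finsupp.smul_apply, Finsupp.mapRange_apply]
        split_ifs with h
        · rw [h, smul_zero]
        · exact DivisibleBy.div_cancel _ hn }
  have hi := ((sSupIndep_iff s).1 hs.prop.1).dfinsupp_lsum_injective
  let g : (Π₀ C : s, C.1) →ₗ[ℤ] (s →₀ DD) :=
    DFinsupp.lsum ℕ fun C => (Finsupp.lsingle C).comp (f C)
  have hg1 : ∀ a C, g a C = f C (a C) := by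
    intro a C
    induction a using DFinsupp.induction with
    | h0 => simp
    | ha i b a _ _ ih =>
      rw [map_add, Finsupp.add_apply, ih, DFinsupp.add_apply, map_add]
      congr 1
      by_cases h : i = C
      · subst h; simp [g]
      · simp [g, h, DFinsupp.single_apply]
  obtain ⟨h, hh⟩ := (Module.Baer.of_divisible (s →₀ DD)).extension_property _ hi g
  have hh' := fun a => LinearMap.congr_fun hh a
  refine ⟨s, h.toAddMonoidHom, (injective_iff_map_eq_zero _).2 fun x hx => ?_, fun C => ?_⟩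
  · by_contra hx0
    obtain ⟨C, hC1, hC2, hC3⟩ := exists_emb hx0
    have hd : Disjoint C (sSup s) := by
      rw [Submodule.disjoint_def]
      intro y hy hy'
      rw [sSup_eq_iSup', Submodule.iSup_eq_range_dfinsupp_lsum] at hy'
      obtain ⟨a, rfl⟩ := hy'
      obtain ⟨n, hn⟩ := Submodule.mem_span_singleton.1 (hC1 hy)
      have h1 : g a = 0 := by
        rw [← hh', LinearMap.comp_apply, ← hn, map_smul, show h x = 0 from hx, smul_zero]
      have h2 : a = 0 := DFinsupp.ext fun C => hf C (by rw [← hg1, h1]; simp)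
      rw [h2, map_zero]
    have hCs : C ∈ s := by
      refine hs.le_of_ge (y := insert C s) ⟨fun D hD => ?_, ?_⟩ (subset_insert _ _) (mem_insert _ _)
      · obtain rfl | hDC := eq_or_ne D C
        · exact hd.mono_right (sSup_le_sSup fun E hE => hE.1.resolve_left hE.2)
        · have hD' := hD.resolve_left hDC
          rw [insert_diff_of_notMem _ (by simpa using hDC.symm), sSup_insert, sup_comm]
          apply (hs.prop.1 hD').disjoint_sup_right_of_disjoint_sup_left (hd.mono_right _).symm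
          rw [← sSup_insert, insert_diff_singleton, insert_eq_of_mem hD']
      · rintro D (rfl | hD)
        · exact ⟨hC2, hC3⟩
        · exact hs.prop.2 D hD
    exact hC2 (disjoint_self.1 (hd.mono_right (le_sSup hCs)))
  · obtain ⟨e, he, he0⟩ := Submodule.exists_mem_ne_zero_of_ne_bot (hs.prop.2 C C.2).1
    refine ⟨e, f C ⟨e, he⟩, fun h0 => he0 (congrArg Subtype.val (hf C (h0.trans (map_zero _).symm))),
      ?_⟩
    simpa [g] using hh' (DFinsupp.single C ⟨e, he⟩)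

theorem alg (X : Type) [CommGroup X] : ∃ (J : Type) (sp : X → Finset J)
    (Φ : Set J → X →* Multiplicative DD), #X ≤ max #J ℵ₀ ∧
    (∀ S T χ, (∀ j ∈ sp χ, j ∈ S ↔ j ∈ T) → Φ S χ = Φ T χ) ∧
    (∀ S χ, (∀ j ∈ sp χ, j ∈ S) → Φ S χ = 1) ∧ ∀ S j, j ∉ S → ∃ χ, Φ S χ ≠ 1 := by
  classical
  obtain ⟨J, h, h1, h2⟩ := alg0 (Additive X)
  let L : Set J → (J →₀ DD) →+ DD := fun S =>
    Finsupp.liftAddHom fun j => if j ∈ S then 0 else AddMonoidHom.id DD
  have hL : ∀ S a, L S a = ∑ j ∈ a.support, if j ∈ S then 0 else a j := by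
    intro S a
    simp only [L, Finsupp.liftAddHom_apply, Finsupp.sum]
    exact Finset.sum_congr rfl fun j _ => by split_ifs <;> rfl
  refine ⟨J, fun χ => (h (Additive.ofMul χ)).support,
    fun S => AddMonoidHom.toMultiplicativeRight ((L S).comp h), ?_, fun S T χ hχ => ?_,
    fun S χ hχ => ?_, fun S j hj => ?_⟩
  · refine (mk_le_of_injective h1).trans ?_
    have h3 : #(J →₀ DD) ≤ #(Finset (J × DD)) := mk_le_of_injective (Finsupp.graph_injective J DD)
    refine h3.trans ((mk_le_of_surjective List.toFinset_surjective).trans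
      ((mk_list_le_max _).trans (max_le (le_max_right _ _) ?_)))
    rw [mk_prod, lift_id, lift_id]
    exact mul_le_of_le (le_max_right _ _) (le_max_left _ _) (mk_le_aleph0.trans (le_max_right _ _))
  · show Multiplicative.ofAdd (L S _) = Multiplicative.ofAdd (L T _)
    rw [hL, hL]
    exact congrArg _ (Finset.sum_congr rfl fun j hj => by simp only [hχ j hj])
  · show Multiplicative.ofAdd (L S _) = Multiplicative.ofAdd 0
    rw [hL]
    exact congrArg _ (Finset.sum_eq_zero fun j hj => if_pos (hχ j hj))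
  · obtain ⟨e, d, hd, he⟩ := h2 j
    refine ⟨e.toMul, fun h0 => hd ?_⟩
    have : L S (h e) = 0 := h0
    simpa [he, L, hj] using this

theorem exists_close {J : Type} {κ : Cardinal} (hκ : ℵ₀ ≤ κ) (W : Finset J → Set J)
    (hW : ∀ E, #(W E) ≤ κ) : ∃ S : Set J, #S ≤ κ ∧ ∀ E : Finset J, (E : Set J) ⊆ S → W E ⊆ S := by
  refine ⟨H19.Cp.cls W ∅, ?_, fun E hE => H19.Cp.cls_closed W E hE⟩
  have h2 : ∀ n, #((H19.Cp.stp W)^[n] ∅ : Set J) ≤ κ := by
    intro n
    induction n with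
    | zero => simp
    | succ n ih =>
      rw [Function.iterate_succ_apply']
      refine (mk_union_le _ _).trans (add_le_of_le hκ ih ?_)
      exact (mk_iUnion_le _).trans (mul_le_of_le hκ (H19.Cp.card_fin hκ ih) (ciSup_le' fun E => hW _))
  have h3 := mk_iUnion_le_lift (fun n : ℕ => (H19.Cp.stp W)^[n] (∅ : Set J))
  simp only [lift_uzero, mk_nat, lift_aleph0] at h3
  exact h3.trans (mul_le_of_le hκ hκ (ciSup_le' h2))

/-- tightness at the identity -/
def TL (A : Type) [One A] [TopologicalSpace A] (κ : Cardinal) : Prop :=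
  ∀ B : Set A, 1 ∈ closure B → ∃ C ⊆ B, #C ≤ κ ∧ 1 ∈ closure C

theorem tight0 {A X J D : Type} [One A] [TopologicalSpace A] (ev : X → A → Circle)
    (hw : 𝓝 (1 : A) = ⨅ χ, comap (ev χ) (𝓝 1)) {κ : Cardinal} (hκ : ℵ₀ ≤ κ) (sp : X → Finset J)
    (Φ : Set J → X → D) (D0 : Set D) (hD : #D0 ≤ κ) (h0 : ∀ S χ, Φ S χ ∈ D0)
    (h1 : ∀ S T χ, (∀ j ∈ sp χ, j ∈ S ↔ j ∈ T) → Φ S χ = Φ T χ)
    (h2 : ∀ S : Set J, #S ≤ κ → ∃ a : A, (∃ χ, ev χ a ≠ 1) ∧
      (∀ χ χ', Φ S χ = Φ S χ' → ev χ a = ev χ' a) ∧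
      ∀ χ, (∀ j ∈ sp χ, j ∈ S) → ev χ a = 1) : ¬ TL A κ := by
  classical
  intro ht
  haveI : Nonempty A := ⟨1⟩
  choose! a ha using h2
  let B : Finset J → D → ℕ → Set A := fun T d n => {x | ∃ S : Set J, #S ≤ κ ∧ (T : Set J) ⊆ S ∧
    x = a S ∧ ∃ χ, Φ S χ = d ∧ 1 / ((n : ℝ) + 1) ≤ dist (ev χ x) 1}
  have key : ∀ (T : Finset J) (d : D) (n : ℕ), ∃ W : Set J, #W ≤ κ ∧
      ((∀ χ, Φ T χ = d → ∃ j ∈ sp χ, j ∈ W ∧ j ∉ T) ∨
        ∀ S : Set J, #S ≤ κ → W ⊆ S → a S ∉ B T d n) := by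
    intro T d n
    by_cases hc : 1 ∈ closure (B T d n)
    · obtain ⟨C, hCB, hC, h1C⟩ := ht _ hc
      choose S hS using fun x : C => hCB x.2
      refine ⟨⋃ x, S x, (mk_iUnion_le _).trans (mul_le_of_le hκ hC (ciSup_le' fun x => (hS x).1)),
        Or.inl fun χ hχ => ?_⟩
      by_contra h3
      push Not at h3
      have h4 : {x | dist (ev χ x) 1 < 1 / ((n : ℝ) + 1)} ∈ 𝓝 (1 : A) := by
        rw [hw]
        exact mem_iInf_of_mem χ (preimage_mem_comap (Metric.ball_mem_nhds (1 : Circle) (by positivity)))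
      obtain ⟨x, hx1, hx2⟩ := mem_closure_iff_nhds.1 h1C _ h4
      obtain ⟨h5, h6, h7, χ', h8, h9⟩ := hS ⟨x, hx2⟩
      have h10 : Φ (S ⟨x, hx2⟩) χ = d := by
        rw [← hχ]
        exact h1 _ _ _ fun j hj => ⟨fun h => h3 j hj (mem_iUnion.2 ⟨_, h⟩), fun h => h6 h⟩
      have h11 := (ha _ h5).2.1 χ χ' (h10.trans h8.symm)
      rw [← h7] at h11
      exact not_le.2 hx1 (h9.trans_eq (by rw [← h11]))
    · have h3 : (B T d n)ᶜ ∈ 𝓝 (1 : A) :=
        mem_of_superset (isClosed_closure.isOpen_compl.mem_nhds hc) fun x hx h => hx (subset_closure h)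
      rw [hw, mem_iInf] at h3
      obtain ⟨I, hI, V, hV, h3⟩ := h3
      refine ⟨⋃ χ ∈ I, sp χ, (le_aleph0_iff_set_countable.2
        (hI.biUnion fun χ _ => (sp χ).finite_toSet).countable).trans hκ, Or.inr fun S hS hW => ?_⟩
      show a S ∈ (B T d n)ᶜ
      rw [h3, mem_iInter]
      intro χ
      obtain ⟨U, hU, hUV⟩ := hV χ
      refine hUV ?_
      rw [mem_preimage, (ha S hS).2.2 χ fun j hj => hW (mem_biUnion χ.2 hj)]
      exact mem_of_mem_nhds hU
  choose W hW using key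
  obtain ⟨S, hS, hSW⟩ := exists_close hκ (fun T => ⋃ q : D0 × ℕ, W T q.1 q.2) fun T =>
    (mk_iUnion_le _).trans (mul_le_of_le hκ
      (by rw [mk_prod, lift_id, lift_id]; exact mul_le_of_le hκ hD (mk_nat.le.trans hκ))
      (ciSup_le' fun q => (hW _ _ _).1))
  obtain ⟨χ, hχ⟩ := (ha S hS).1
  obtain ⟨n, hn⟩ := exists_nat_one_div_lt (dist_pos.2 hχ)
  let T := (sp χ).filter (· ∈ S)
  have hT : (T : Set J) ⊆ S := fun j hj => (Finset.mem_filter.1 hj).2
  have h3 : W T (Φ S χ) n ⊆ S :=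
    (subset_iUnion (fun q : D0 × ℕ => W T q.1 q.2) (⟨_, h0 S χ⟩, n)).trans (hSW T hT)
  rcases (hW T (Φ S χ) n).2 with h | h
  · obtain ⟨j, hj, hj1, hj2⟩ := h χ (h1 _ _ _ fun j hj => by simp [T, hj])
    exact hj2 (Finset.mem_filter.2 ⟨hj, h3 hj1⟩)
  · exact h S hS h3 ⟨S, hS, hT, rfl, χ, rfl, hn.le⟩

/-- continuous characters -/
def CX (A : Type) [Group A] [TopologicalSpace A] : Subgroup (A →* Circle) where
  carrier := {χ | Continuous χ}
  one_mem' := continuous_const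
  mul_mem' := fun ha hb => ha.mul hb
  inv_mem' := fun ha => ha.inv

/-- minimality relative to a family of endomorphisms -/
def RM (A : Type) [Group A] [TopologicalSpace A] {Λ : Type} (act : Λ → A →* A) : Prop :=
  ∀ F : Filter A, GF F → (∀ l, Tendsto (act l) F F) → 𝓝 1 ≤ F → (∀ x : A, x ≠ 1 → {x}ᶜ ∈ F) →
    F ≤ 𝓝 1

section
variable {A : Type} [CommGroup A] [TopologicalSpace A] [IsTopologicalGroup A]
  {Λ : Type} {act : Λ → A →* A}

omit [IsTopologicalGroup A] in
theorem LM.rm (h : LM A univ) (act : Λ → A →* A) : RM A act :=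
  fun F hF _ h1 h2 => h F hF h1 h2 univ_mem

omit [IsTopologicalGroup A] in
theorem RM.weak (hm : RM A act) (Y : Subgroup (A →* Circle)) (hY : Y ≤ CX A)
    (hi : ∀ l, ∀ y ∈ Y, y.comp (act l) ∈ Y) (hs : ∀ a : A, a ≠ 1 → ∃ y ∈ Y, y a ≠ 1) :
    𝓝 (1 : A) = ⨅ y : Y, comap (y : A →* Circle) (𝓝 1) := by
  have h1 : 𝓝 (1 : A) ≤ ⨅ y : Y, comap (y : A →* Circle) (𝓝 1) := le_iInf fun y =>
    tendsto_iff_comap.1 (by simpa using (show Continuous y.1 from hY y.2).tendsto 1)
  refine le_antisymm h1 (hm _ (GF.iInf fun y => GF.nhds.comap _) (fun l => ?_) h1 fun x hx => ?_)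
  · refine tendsto_iInf.2 fun y => tendsto_comap_iff.2 (tendsto_iInf' ⟨_, hi l y y.2⟩ ?_)
    exact tendsto_comap
  · obtain ⟨y, hy, h⟩ := hs x hx
    refine mem_iInf_of_mem ⟨y, hy⟩ (mem_of_superset
      (preimage_mem_comap (compl_singleton_mem_nhds h.symm)) fun z hz hzx => hz ?_)
    rw [show z = x from hzx]; rfl

omit [IsTopologicalGroup A] in
theorem RM.kill (hm : RM A act) (Y : Subgroup (A →* Circle)) (hY : Y ≤ CX A)
    (hi : ∀ l, ∀ y ∈ Y, y.comp (act l) ∈ Y) {χ : A →* Circle} (hχ : χ ∈ CX A) (hn : χ ∉ Y) :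
    ∃ a : A, a ≠ 1 ∧ ∀ y ∈ Y, y a = 1 := by
  by_contra h
  push Not at h
  refine hn (cr Y χ ?_)
  rw [← hm.weak Y hY hi h]
  simpa using (show Continuous χ from hχ).tendsto 1

theorem PC.sep [T2Space A] (h : PC A) (a : A) (ha : a ≠ 1) : ∃ y ∈ CX A, y a ≠ 1 :=
  MG.sep h (compl_singleton_mem_nhds ha.symm) fun h => h rfl

theorem RM.weak' [T2Space A] (hm : RM A act) (hp : PC A) (hc : ∀ l, Continuous (act l)) :
    𝓝 (1 : A) = ⨅ y : CX A, comap (y : A →* Circle) (𝓝 1) :=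
  hm.weak _ le_rfl (fun l y hy => (show Continuous y from hy).comp (hc l)) hp.sep

theorem RM.tight [T2Space A] (hm : RM A act) (hp : PC A) (hc : ∀ l, Continuous (act l))
    (hid : ∃ l, act l = MonoidHom.id A) (hcomp : ∀ l l', ∃ m, (act l).comp (act l') = act m)
    (hfin : ∀ χ ∈ CX A, (range fun l => χ.comp (act l)).Finite) {κ : Cardinal} (hκ : ℵ₀ ≤ κ)
    (hD : #{f : Λ → Multiplicative DD | ∃ χ ∈ CX A, ∀ l l', χ.comp (act l) = χ.comp (act l') →
      f l = f l'} ≤ κ) (ht : TL A κ) : #(CX A) ≤ κ := by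
  classical
  obtain ⟨J, sp, Φ, h0, h1, h2, h3⟩ := alg (CX A)
  by_contra hlt
  let t : Λ → CX A →* CX A := fun l => MonoidHom.mk'
    (fun χ => ⟨χ.1.comp (act l), (show Continuous χ.1 from χ.2).comp (hc l)⟩) fun _ _ => rfl
  have hfin' : ∀ χ : CX A, (range fun l => t l χ).Finite := fun χ =>
    Finite.of_finite_image (f := Subtype.val) (by rw [← range_comp]; exact hfin χ χ.2)
      Subtype.val_injective.injOn
  let sp' : CX A → Finset J := fun χ => (hfin' χ).toFinset.biUnion sp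
  have hsp : ∀ χ l, ∀ j ∈ sp (t l χ), j ∈ sp' χ := fun χ l j hj =>
    Finset.mem_biUnion.2 ⟨_, (hfin' χ).mem_toFinset.2 ⟨l, rfl⟩, hj⟩
  refine tight0 (fun χ : CX A => χ.1) (hm.weak' hp hc) hκ sp' (fun S χ l => Φ S (t l χ)) _ hD
    (fun S χ => ⟨χ, χ.2, fun l l' h => congrArg (Φ S) (Subtype.ext h)⟩)
    (fun S T χ h => funext fun l => h1 _ _ _ fun j hj => h j (hsp χ l j hj)) (fun S hS => ?_) ht
  obtain ⟨j, hj⟩ : ∃ j, j ∉ S := by
    by_contra h
    push Not at h
    rw [eq_univ_of_forall h, mk_univ] at hS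
    exact hlt (h0.trans (max_le hS hκ))
  obtain ⟨e, he⟩ := h3 S j hj
  let Y : Subgroup (CX A) := ⨅ l, ((Φ S).comp (t l)).ker
  have hY : ∀ χ, χ ∈ Y ↔ ∀ l, Φ S (t l χ) = 1 := fun χ => Subgroup.mem_iInf
  obtain ⟨a, ha, hk⟩ := hm.kill (Y.map (CX A).subtype) (Subgroup.map_subtype_le _) (by
      rintro l _ ⟨y, hy, rfl⟩
      refine ⟨t l y, (hY _).2 fun l' => ?_, rfl⟩
      obtain ⟨m, hm⟩ := hcomp l l'
      rw [← (hY _).1 hy m]
      exact congrArg _ (Subtype.ext (by
        show (y.1.comp (act l)).comp (act l') = y.1.comp (act m)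
        rw [← hm]; rfl))) e.2 (by
      rintro ⟨y, hy, h⟩
      obtain ⟨l, hl⟩ := hid
      refine he ?_
      rw [← (hY _).1 hy l]
      exact congrArg _ (Subtype.ext (by
        show e.1 = y.1.comp (act l)
        rw [hl, ← h]; rfl)))
  have hk' : ∀ y ∈ Y, y.1 a = 1 := fun y hy => hk _ ⟨y, hy, rfl⟩
  obtain ⟨y, hy, hya⟩ := hp.sep a ha
  refine ⟨a, ⟨⟨y, hy⟩, hya⟩, fun χ χ' h => ?_, fun χ h => hk' χ ((hY _).2 fun l =>
    h2 _ _ fun j hj => h j (hsp χ l j hj))⟩
  have := hk' (χ * χ'⁻¹) ((hY _).2 fun l => by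
    rw [map_mul, map_inv, map_mul, map_inv, congrFun h l, mul_inv_cancel])
  exact mul_inv_eq_one.1 this

theorem LM.tight [T2Space A] (hm : LM A univ) (hp : PC A) {κ : Cardinal} (hκ : ℵ₀ ≤ κ)
    (ht : TL A κ) : #(CX A) ≤ κ :=
  haveI : Countable (Multiplicative DD) := DD_countable
  (hm.rm fun _ : Unit => MonoidHom.id A).tight hp (fun _ => continuous_id) ⟨(), rfl⟩
    (fun _ _ => ⟨(), rfl⟩) (fun _ _ => finite_range _) hκ (mk_le_aleph0.trans hκ) ht

theorem RM.seq [T2Space A] [Infinite A] (hm : RM A act) (hp : PC A) (hc : ∀ l, Continuous (act l))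
    (hid : ∃ l, act l = MonoidHom.id A) (hcomp : ∀ l l', ∃ m, (act l).comp (act l') = act m)
    (hfin : ∀ χ ∈ CX A, (range fun l => χ.comp (act l)).Finite) :
    ∃ a : ℕ → A, (∀ n, a n ≠ 1) ∧ Tendsto a atTop (𝓝 1) := by
  classical
  have hw := hm.weak' hp hc
  by_cases hX : Countable (CX A)
  · haveI : (𝓝 (1 : A)).IsCountablyGenerated := by rw [hw]; infer_instance
    have h1 : (𝓝[≠] (1 : A)).NeBot := by
      refine ⟨fun h => ?_⟩
      obtain ⟨F, hF⟩ := hp {1} ((isOpen_singleton_iff_punctured_nhds (1 : A)).2 h |>.mem_nhds rfl)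
      refine infinite_univ (F.finite_toSet.subset fun x _ => ?_)
      obtain ⟨g, hg, h⟩ := hF x
      rwa [← inv_mul_eq_one.1 h]
    obtain ⟨a, ha⟩ := exists_seq_tendsto (𝓝[≠] (1 : A))
    rw [tendsto_nhdsWithin_iff] at ha
    obtain ⟨N, hN⟩ := eventually_atTop.1 ha.2
    exact ⟨fun n => a (n + N), fun n => hN _ (Nat.le_add_left _ _),
      ha.1.comp (tendsto_add_atTop_nat N)⟩
  obtain ⟨J, sp, Φ, h0, h1, h2, h3⟩ := alg (CX A)
  haveI : Infinite J := by
    by_contra h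
    rw [not_infinite_iff_finite] at h
    exact hX (mk_le_aleph0_iff.1 (h0.trans (max_le mk_le_aleph0 le_rfl)))
  let j := Infinite.natEmbedding J
  let t : Λ → CX A →* CX A := fun l => MonoidHom.mk'
    (fun χ => ⟨χ.1.comp (act l), (show Continuous χ.1 from χ.2).comp (hc l)⟩) fun _ _ => rfl
  have hfin' : ∀ χ : CX A, (range fun l => t l χ).Finite := fun χ =>
    Finite.of_finite_image (f := Subtype.val) (by rw [← range_comp]; exact hfin χ χ.2)
      Subtype.val_injective.injOn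
  let Y : ℕ → Subgroup (CX A) := fun n => ⨅ l, ⨅ m, ((Φ {j (m + n)}ᶜ).comp (t l)).ker
  have hY : ∀ n χ, χ ∈ Y n ↔ ∀ l m, Φ {j (m + n)}ᶜ (t l χ) = 1 := fun n χ => by
    simp only [Y, Subgroup.mem_iInf]; rfl
  have key : ∀ n, ∃ a : A, a ≠ 1 ∧ ∀ y ∈ (Y n).map (CX A).subtype, y a = 1 := by
    intro n
    obtain ⟨e, he⟩ := h3 {j n}ᶜ (j n) fun h => h rfl
    refine hm.kill _ (Subgroup.map_subtype_le _) ?_ e.2 ?_
    · rintro l _ ⟨y, hy, rfl⟩
      refine ⟨t l y, (hY _ _).2 fun l' k => ?_, rfl⟩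
      obtain ⟨m, hm⟩ := hcomp l l'
      rw [← (hY _ _).1 hy m k]
      exact congrArg _ (Subtype.ext (by
        show (y.1.comp (act l)).comp (act l') = y.1.comp (act m)
        rw [← hm]; rfl))
    · rintro ⟨y, hy, h⟩
      obtain ⟨l, hl⟩ := hid
      refine he ?_
      rw [← (hY _ _).1 hy l 0, zero_add]
      exact congrArg _ (Subtype.ext (by
        show e.1 = y.1.comp (act l)
        rw [hl, ← h]; rfl))
  choose a ha using key
  refine ⟨a, fun n => (ha n).1, ?_⟩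
  rw [hw, tendsto_iInf]
  intro χ
  rw [tendsto_comap_iff]
  refine tendsto_const_nhds.congr' ?_
  have h4 := j.injective.tendsto_cofinite.eventually
    ((hfin' χ).toFinset.biUnion sp).eventually_cofinite_notMem
  rw [Nat.cofinite_eq_atTop] at h4
  obtain ⟨N, hN⟩ := eventually_atTop.1 h4
  filter_upwards [eventually_ge_atTop N] with n hn
  refine ((ha n).2 _ ⟨χ, (hY _ _).2 fun l m => h2 _ _ fun i hi h => hN (m + n) (by omega) ?_, rfl⟩).symm
  rw [← show i = j (m + n) from h]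
  exact Finset.mem_biUnion.2 ⟨_, (hfin' χ).mem_toFinset.2 ⟨l, rfl⟩, hi⟩

end

end Pool.Agent.H2.MG
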