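import Mathlib
import Pool.Agent.H2.MG3

set_option autoImplicit false

/-! Precompact minimal groups. -/

namespace Pool.Agent.H2.MG

open Filter Topology Set Cardinal Pointwise

theorem circ_small {t : Circle} (h : ∀ n : ℕ, dist (t ^ n) 1 < 1 / 2) : t = 1 := by
  have h1 : ∀ k : ℕ, (3 / 2) ^ k * dist t 1 ≤ dist (t ^ 2 ^ k) 1 := by
    intro k
    induction k with
    | zero => simp
    | succ k ih =>
      have h2 := h (2 ^ k)
      rw [pow_succ 2, pow_mul, pow_succ]
      generalize t ^ 2 ^ k = z at *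
      have h3 : dist z 1 = ‖(z : ℂ) - 1‖ := dist_eq_norm (z : ℂ) 1
      have h4 : dist (z ^ 2) 1 = ‖(z : ℂ) - 1‖ * ‖(z : ℂ) + 1‖ := by
        rw [← norm_mul]
        exact (dist_eq_norm ((z : ℂ) ^ 2) 1).trans (congrArg _ (by ring))
      have h5 : (2 : ℝ) ≤ ‖(z : ℂ) + 1‖ + ‖(z : ℂ) - 1‖ := by
        simpa [one_add_one_eq_two] using norm_sub_le ((z : ℂ) + 1) (z - 1)
      rw [h4]
      rw [h3] at h2 ih
      nlinarith [norm_nonneg ((z : ℂ) - 1)]
  by_contra h0
  have h2 := (tendsto_pow_atTop_atTop_of_one_lt (show (1 : ℝ) < 3 / 2 by norm_num)).atTop_mul_const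
    (dist_pos.2 h0)
  obtain ⟨k, hk⟩ := (h2.eventually_ge_atTop (1 / 2)).exists
  linarith [h1 k, h (2 ^ k)]

section
variable {G : Type} [Group G] [TopologicalSpace G] [IsTopologicalGroup G]

theorem nhds_eq_sn (hs : SIN G) {V : Set G} (hm : LM G V) (hV : V ∈ 𝓝 (1 : G)) {ι : Type}
    (U : ι → Set G) (hU : ∀ i, U i ∈ 𝓝 (1 : G))
    (hN : ∀ N : Subgroup G, N.Normal → (∀ x ∈ N, ∀ i, x ∈ U i) → ∀ x ∈ N, x = 1) :
    ∃ ρ : Option ι → G → ℝ, 𝓝 (1 : G) = ⨅ i, comap (ρ i) (𝓝 0) := by
  have h : ∀ o : Option ι, o.elim V U ∈ 𝓝 (1 : G) := fun o => by cases o; exacts [hV, hU _]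
  choose ρ h1 h2 h3 using fun o => exists_sn hs (h o)
  have h4 : 𝓝 (1 : G) ≤ ⨅ i, comap (ρ i) (𝓝 0) := le_iInf fun i => tendsto_iff_comap.1 (h2 i)
  refine ⟨ρ, le_antisymm h4 (hm _ (GF.iInf fun i => (h1 i).gf) h4 (fun x hx => ?_) ?_)⟩
  · obtain ⟨o, ho⟩ : ∃ o, ρ o x ≠ 0 := by
      by_contra h5
      push Not at h5
      refine hx (hN (⨅ o, (h1 o).ker) (Subgroup.normal_iInf_normal fun o => (h1 o).ker_normal)
        (fun y hy i => h3 (some i) y ?_) x (Subgroup.mem_iInf.2 h5))
      rw [show ρ (some i) y = 0 from Subgroup.mem_iInf.1 hy (some i)]; exact one_pos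
    refine mem_iInf_of_mem o (mem_of_superset
      (preimage_mem_comap (compl_singleton_mem_nhds ho.symm)) fun z hz hzx => hz ?_)
    rw [show z = x from hzx]; rfl
  · exact mem_iInf_of_mem none (mem_of_superset (preimage_mem_comap (gt_mem_nhds one_pos))
      fun x hx => h3 none x hx)

theorem metr [T2Space G] (h : (𝓝 (1 : G)).IsCountablyGenerated) :
    TopologicalSpace.MetrizableSpace G := by
  letI := IsTopologicalGroup.rightUniformSpace G
  haveI : (uniformity G).IsCountablyGenerated := comap.isCountablyGenerated _ _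
  infer_instance

omit [IsTopologicalGroup G] in
theorem TL.subgroup {κ : Cardinal} (h : TL G κ) (N : Subgroup G) : TL N κ := by
  intro B hB
  rw [IsInducing.subtypeVal.closure_eq_preimage_closure_image] at hB
  obtain ⟨C, hC, h1, h2⟩ := h _ hB
  obtain ⟨C, hC', rfl⟩ := subset_image_iff.1 hC
  refine ⟨C, hC', by rwa [mk_image_eq Subtype.val_injective] at h1, ?_⟩
  rw [IsInducing.subtypeVal.closure_eq_preimage_closure_image]
  exact h2

theorem TL.quot {κ : Cardinal} (h : TL G κ) (N : Subgroup G) [N.Normal] : TL (G ⧸ N) κ := by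
  intro B hB
  have h1 : (1 : G) ∈ closure (QuotientGroup.mk ⁻¹' B) :=
    QuotientGroup.isOpenMap_coe.preimage_closure_subset_closure_preimage hB
  obtain ⟨C, hC, h2, h3⟩ := h _ h1
  exact ⟨QuotientGroup.mk '' C, image_subset_iff.2 hC, mk_image_le.trans h2,
    image_closure_subset_closure_image QuotientGroup.continuous_mk ⟨1, h3, rfl⟩⟩

theorem PC.quot (h : PC G) (N : Subgroup G) [N.Normal] : PC (G ⧸ N) := by
  classical
  intro U hU
  obtain ⟨F, hF⟩ := h _ (QuotientGroup.continuous_mk.continuousAt.preimage_mem_nhds hU)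
  refine ⟨F.image QuotientGroup.mk, fun x => ?_⟩
  obtain ⟨x, rfl⟩ := QuotientGroup.mk_surjective x
  obtain ⟨g, hg, h⟩ := hF x
  exact ⟨g, Finset.mem_image_of_mem _ hg, h⟩

/-- conjugation on a normal subgroup -/
def cj (N : Subgroup G) [N.Normal] (g : G) : N →* N := (MulAut.conjNormal g).toMonoidHom

omit [TopologicalSpace G] [IsTopologicalGroup G] in
theorem cj_mul (N : Subgroup G) [N.Normal] (g g' : G) : (cj N g).comp (cj N g') = cj N (g * g') := by
  ext x; simp [cj]

omit [TopologicalSpace G] [IsTopologicalGroup G] in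
theorem cj_one (N : Subgroup G) [N.Normal] : cj N 1 = MonoidHom.id N := by
  ext x; simp [cj]

theorem cj_cont (N : Subgroup G) [N.Normal] (g : G) : Continuous (cj N g) := by
  refine continuous_induced_rng.2 ?_
  show Continuous fun x : N => g * x * g⁻¹
  fun_prop

theorem rm_of (hs : SIN G) (hm : LM G univ) (N : Subgroup G) [N.Normal]
    (hN : IsClosed (N : Set G)) : RM N (cj N) := fun _ hF hi h1 h2 =>
  sub_le hs hm N hN ⟨univ, univ_mem, subset_univ _⟩ hF (fun g => tendsto_map.comp (hi g)) h1 h2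

theorem stab (hs : SIN G) (N : Subgroup G) [hN : N.Normal] {χ : N →* Circle} (hχ : χ ∈ CX N) :
    {g | χ.comp (cj N g) = χ} ∈ 𝓝 (1 : G) := by
  have h1 : χ ⁻¹' Metric.ball 1 (1 / 2) ∈ 𝓝 (1 : N) :=
    (show Continuous χ from hχ).continuousAt.preimage_mem_nhds
      (by rw [map_one]; exact Metric.ball_mem_nhds _ (by norm_num))
  obtain ⟨V, hV, hVU⟩ := (mem_nhds_induced _ _ _).1 h1
  obtain ⟨W, hW, hWV⟩ := exists_nhds_one_split hV
  obtain ⟨W', hW', h2⟩ := hs W hW
  filter_upwards [hW, inv_mem_nhds_one G hW'] with g hg hg'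
  ext1 x
  refine mul_inv_eq_one.1 (circ_small fun n => ?_)
  have h3 : ∀ y : N, cj N g y * y⁻¹ ∈ χ ⁻¹' Metric.ball 1 (1 / 2) := fun y => hVU (by
    simpa [cj, mul_assoc] using hWV g hg _ (h2 (y : G) _ hg'))
  simpa [mul_pow] using h3 (x ^ n)

omit [TopologicalSpace G] [IsTopologicalGroup G] in
theorem stab_eq (N : Subgroup G) [N.Normal] {χ : N →* Circle} {g e : G}
    (h : χ.comp (cj N (e⁻¹ * g⁻¹)) = χ) : χ.comp (cj N g) = χ.comp (cj N e⁻¹) := by
  conv_lhs => rw [← h]
  rw [MonoidHom.comp_assoc, cj_mul, inv_mul_cancel_right]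

theorem orb_fin (hp : PC G) (N : Subgroup G) [N.Normal] :
    ∀ χ ∈ CX N, (range fun g => χ.comp (cj N g)).Finite := by
  intro χ hχ
  obtain ⟨F, hF⟩ := hp _ (stab hp.sin N hχ)
  refine (F.finite_toSet.image fun e => χ.comp (cj N e⁻¹)).subset ?_
  rintro _ ⟨g, rfl⟩
  obtain ⟨e, he, h⟩ := hF g⁻¹
  exact ⟨e, he, (stab_eq N h).symm⟩

theorem small [T2Space G] (N : Subgroup G) (hp : PC N) (hc : ∀ x y : N, x * y = y * x) :
    ∃ V : CX N → Set G, (∀ χ, V χ ∈ 𝓝 (1 : G)) ∧
      ∀ M : Subgroup G, (∀ x ∈ M, ∀ χ, x ∈ V χ) → ∀ x ∈ M, x ∈ N → x = 1 := by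
  letI : CommGroup N := { N.toGroup with mul_comm := hc }
  have h1 : ∀ χ : CX N, χ.1 ⁻¹' Metric.ball 1 (1 / 2) ∈ 𝓝 (1 : N) := fun χ =>
    (show Continuous χ.1 from χ.2).continuousAt.preimage_mem_nhds
      (by rw [map_one]; exact Metric.ball_mem_nhds _ (by norm_num))
  choose V hV hVU using fun χ => (mem_nhds_induced _ _ _).1 (h1 χ)
  refine ⟨V, hV, fun M hM x hx hxN => ?_⟩
  by_contra h
  obtain ⟨y, hy, h2⟩ := hp.sep ⟨x, hxN⟩ fun h' => h (congrArg Subtype.val h')
  refine h2 (circ_small fun n => ?_)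
  rw [← map_pow]
  exact hVU ⟨y, hy⟩ (hM _ (M.pow_mem hx n) _)

omit [TopologicalSpace G] [IsTopologicalGroup G] in
theorem nil_center (h : Group.IsNilpotent G) (N : Subgroup G) (hN : N.Normal)
    (h1 : ∀ x ∈ N, x ∈ Subgroup.center G → x = 1) : ∀ x ∈ N, x = 1 := by
  obtain ⟨n, hn⟩ := h.nilpotent'
  have : ∀ n, ∀ x ∈ N, x ∈ Subgroup.upperCentralSeries G n → x = 1 := by
    intro n
    induction n with
    | zero => simp
    | succ n ih =>
      intro x hx hx'
      refine h1 x hx (Subgroup.mem_center_iff.2 fun y => ?_)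
      have := ih _ (by simpa [mul_assoc, commutatorElement_def] using N.mul_mem hx (hN.conj_mem _ (N.inv_mem hx) y))
        (Subgroup.mem_upperCentralSeries_succ_iff.1 hx' y)
      exact (commutatorElement_eq_one_iff_mul_comm.1 this).symm
  exact fun x hx => this n x hx (hn ▸ trivial)

theorem center_closed [T2Space G] : IsClosed (Subgroup.center G : Set G) := by
  have : (Subgroup.center G : Set G) = ⋂ g, {x | g * x = x * g} := by
    ext x; simp [Subgroup.mem_center_iff]
  rw [this]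
  exact isClosed_iInter fun g => isClosed_eq (by fun_prop) (by fun_prop)

theorem nil_metr [T2Space G] (h : Group.IsNilpotent G) (hp : PC G) (hm : LM G univ)
    (ht : TL G ℵ₀) : TopologicalSpace.MetrizableSpace G := by
  letI : CommGroup (Subgroup.center G) :=
    { (Subgroup.center G).toGroup with mul_comm := fun x y => Subtype.ext (y.2.comm x).symm }
  have h1 := (central_min hp.sin hm _ center_closed ⟨univ, univ_mem, subset_univ _⟩
    fun g x hx => Subgroup.mem_center_iff.1 hx g).tight (hp.subgroup _) le_rfl (ht.subgroup _)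
  haveI := mk_le_aleph0_iff.1 h1
  obtain ⟨V, hV, h2⟩ := small (Subgroup.center G) (hp.subgroup _) mul_comm
  obtain ⟨ρ, hρ⟩ := nhds_eq_sn hp.sin hm univ_mem V hV fun N hN h3 =>
    nil_center h N hN (h2 N h3)
  exact metr (by rw [hρ]; infer_instance)

theorem step [T2Space G] (hp : PC G) (hm : LM G univ) (ht : TL G ℵ₀) (A : Subgroup G) [A.Normal]
    (hA : IsClosed (A : Set G)) (hc : ∀ x y : A, x * y = y * x) (U : ℕ → Set G)
    (hU : ∀ n, U n ∈ 𝓝 (1 : G)) (hUA : ∀ W ∈ 𝓝 (1 : G), ∃ n, U n ⊆ W * A) :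
    (𝓝 (1 : G)).IsCountablyGenerated := by
  letI : CommGroup A := { A.toGroup with mul_comm := hc }
  haveI : Countable (Multiplicative DD) := DD_countable
  choose F hF using fun n => hp _ (hU n)
  choose c hc1 hc2 using hF
  have h1 := (rm_of hp.sin hm A hA).tight (hp.subgroup _) (cj_cont A) ⟨1, cj_one A⟩
    (fun g g' => ⟨_, cj_mul A g g'⟩) (orb_fin hp A) le_rfl (le_aleph0_iff_set_countable.2
      ((countable_iUnion fun n => countable_range
        fun (φ : F n → Multiplicative DD) (g : G) => φ ⟨_, hc1 n g⁻¹⟩).mono (by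
      rintro f ⟨χ, hχ, hf⟩
      obtain ⟨n, hn⟩ := hUA _ (stab hp.sin A hχ)
      refine mem_iUnion.2 ⟨n, fun e => f e.1⁻¹, funext fun g => (hf _ _ (stab_eq A ?_)).symm⟩
      obtain ⟨w, hw, a, ha, h⟩ := hn (hc2 n g⁻¹)
      have h2 : cj A a = MonoidHom.id A := by
        ext x
        have := congrArg Subtype.val (hc ⟨a, ha⟩ x)
        simp only [Subgroup.coe_mul] at this
        simp [cj, this]
      rw [← h, ← cj_mul, h2]
      exact hw))) (ht.subgroup _)
  haveI := mk_le_aleph0_iff.1 h1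
  obtain ⟨V, hV, h2⟩ := small A (hp.subgroup _) hc
  obtain ⟨ρ, hρ⟩ := nhds_eq_sn hp.sin hm univ_mem (Sum.elim U V)
    (fun i => by cases i; exacts [hU _, hV _]) fun N _ h3 x hx =>
    h2 N (fun y hy χ => h3 y hy (Sum.inr χ)) x hx (by
      by_contra h4
      have h5 : Tendsto (fun w : G => w⁻¹ * x) (𝓝 1) (𝓝 x) := by
        have : Continuous fun w : G => w⁻¹ * x := by fun_prop
        simpa using this.tendsto 1
      obtain ⟨n, hn⟩ := hUA _ (h5 (hA.isOpen_compl.mem_nhds h4))
      obtain ⟨w, hw, a, ha, h⟩ := hn (h3 x hx (Sum.inl n))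
      exact hw (by simpa [← h] using ha))
  rw [hρ]; infer_instance

theorem closure_comm [T2Space G] (N : Subgroup G) (h : ∀ x ∈ N, ∀ y ∈ N, x * y = y * x)
    (x y : N.topologicalClosure) : x * y = y * x :=
  (N.commGroupTopologicalClosure fun x y => Subtype.ext (h _ x.2 _ y.2)).mul_comm x y

theorem solv_metr [T2Space G] (h : IsSolvable G) (hp : PC G)
    (hm : ∀ (N : Subgroup G) [N.Normal], IsClosed (N : Set G) → LM (G ⧸ N) univ)
    (ht : TL G ℵ₀) : TopologicalSpace.MetrizableSpace G := by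
  have key : ∀ k, ∃ U : ℕ → Set G, (∀ n, U n ∈ 𝓝 (1 : G)) ∧
      ∀ W ∈ 𝓝 (1 : G), ∃ n, U n ⊆ W * (derivedSeries G k).topologicalClosure := by
    intro k
    induction k with
    | zero => exact ⟨fun _ => univ, fun _ => univ_mem, fun W hW => ⟨0, fun x _ =>
        ⟨1, mem_of_mem_nhds hW, x, Subgroup.le_topologicalClosure _ trivial, one_mul x⟩⟩⟩
    | succ k ih =>
      obtain ⟨U, hU, hUW⟩ := ih
      let N := (derivedSeries G (k + 1)).topologicalClosure
      haveI : N.Normal := Subgroup.is_normal_topologicalClosure _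
      haveI : IsClosed (N : Set G) := Subgroup.isClosed_topologicalClosure _
      let q := QuotientGroup.mk' N
      have hq : Continuous q := QuotientGroup.continuous_mk
      have hqo : ∀ W ∈ 𝓝 (1 : G), q '' W ∈ 𝓝 (1 : G ⧸ N) := fun W hW =>
        QuotientGroup.isOpenMap_coe.image_mem_nhds hW
      haveI : ((derivedSeries G k).map q).Normal :=
        Subgroup.Normal.map inferInstance _ (QuotientGroup.mk'_surjective N)
      haveI : ((derivedSeries G k).map q).topologicalClosure.Normal :=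
        Subgroup.is_normal_topologicalClosure _
      haveI := step (hp.quot N) (hm N ‹_›) (ht.quot N)
        ((derivedSeries G k).map q).topologicalClosure (Subgroup.isClosed_topologicalClosure _)
        (closure_comm _ (by
          rintro _ ⟨x, hx, rfl⟩ _ ⟨y, hy, rfl⟩
          rw [← commutatorElement_eq_one_iff_mul_comm, ← map_commutatorElement]
          exact (QuotientGroup.eq_one_iff _).2 (Subgroup.le_topologicalClosure _
            (Subgroup.commutator_mem_commutator hx hy))))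
        (fun n => q '' U n) (fun n => hqo _ (hU n)) (fun W hW => by
          obtain ⟨n, hn⟩ := hUW _ (hq.continuousAt.preimage_mem_nhds hW)
          refine ⟨n, ?_⟩
          rintro _ ⟨x, hx, rfl⟩
          obtain ⟨w, hw, a, ha, rfl⟩ := hn hx
          exact ⟨q w, hw, q a, image_closure_subset_closure_image hq ⟨a, ha, rfl⟩,
            (map_mul q w a).symm⟩)
      obtain ⟨B, hB⟩ := (𝓝 (1 : G ⧸ N)).exists_antitone_basis
      refine ⟨fun n => q ⁻¹' B n, fun n => hq.continuousAt.preimage_mem_nhds (hB.mem n),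
        fun W hW => ?_⟩
      obtain ⟨n, hn⟩ := hB.mem_iff.1 (hqo W hW)
      refine ⟨n, fun x hx => ?_⟩
      obtain ⟨w, hw, h⟩ := hn hx
      exact ⟨w, hw, w⁻¹ * x, QuotientGroup.eq.1 h, by simp⟩
  obtain ⟨k, hk⟩ := h.solvable
  obtain ⟨U, hU, hUW⟩ := key k
  refine metr (HasCountableBasis.isCountablyGenerated (p := fun _ => True) (s := U)
    ⟨⟨fun W => ⟨fun hW => ?_, fun ⟨n, _, hn⟩ => mem_of_superset (hU n) hn⟩⟩, to_countable _⟩)
  obtain ⟨n, hn⟩ := hUW W hW
  refine ⟨n, trivial, fun x hx => ?_⟩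
  obtain ⟨w, hw, a, ha, rfl⟩ := hn hx
  have : a = 1 := by simpa [hk] using ha
  simpa [this] using hw

theorem inj_seq [T2Space G] {a : ℕ → G} (h1 : ∀ n, a n ≠ 1) (h2 : Tendsto a atTop (𝓝 1)) :
    ∃ x : ℕ → G, Function.Injective x ∧ Tendsto x atTop (𝓝 1) := by
  have h3 : (range a).Infinite := fun h => by
    obtain ⟨n, hn⟩ := h.isClosed.mem_of_tendsto h2 (Eventually.of_forall mem_range_self)
    exact h1 n hn
  let e := h3.natEmbedding
  have he : Function.Injective fun n => (e n).1 := Subtype.val_injective.comp e.injective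
  refine ⟨_, he, fun U hU => ?_⟩
  rw [← Nat.cofinite_eq_atTop] at h2 ⊢
  have h4 := he.tendsto_cofinite (Finite.compl_mem_cofinite ((mem_cofinite.1 (h2 hU)).image a))
  refine mem_map.2 (mem_of_superset (mem_map.1 h4) fun n hn => ?_)
  obtain ⟨m, hm⟩ := (e n).2
  by_contra h5
  exact hn ⟨m, fun h => h5 (show (e n).1 ∈ U from hm ▸ h), hm⟩

theorem solv_seq [T2Space G] [Infinite G] (h : IsSolvable G) (hp : PC G) (hm : LM G univ) :
    ∃ x : ℕ → G, Function.Injective x ∧ Tendsto x atTop (𝓝 1) := by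
  obtain ⟨k, hk1, hk2⟩ : ∃ k, ¬ (derivedSeries G k : Set G).Finite ∧
      (derivedSeries G (k + 1) : Set G).Finite := by
    by_contra h1
    push Not at h1
    obtain ⟨k, hk⟩ := h.solvable
    have : ∀ k, (derivedSeries G k : Set G).Infinite := fun k => by
      induction k with
      | zero => exact infinite_univ
      | succ k ih => exact h1 k ih
    exact this k (by simp [hk])
  let L := derivedSeries G k
  let A0 := L ⊓ Subgroup.centralizer L
  have h1 : A0.Normal := inferInstance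
  have h2 : ((derivedSeries G (k + 1) : Set G) \ {1})ᶜ ∈ 𝓝 (1 : G) :=
    (hk2.subset diff_subset).isClosed.isOpen_compl.mem_nhds fun h => h.2 rfl
  obtain ⟨W, hW, hWV⟩ := exists_nhds_one_split h2
  obtain ⟨W', hW', h3⟩ := hp.sin W hW
  have h4 : (A0 : Set G).Infinite := fun hf => by
    obtain ⟨F, hF⟩ := hp.subgroup L _ (continuous_subtype_val.continuousAt.preimage_mem_nhds
      (inter_mem hW (inv_mem_nhds_one G hW')))
    refine hk1 (((F.finite_toSet.image Subtype.val).mul hf).subset fun x hx => ?_)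
    obtain ⟨g, hg, hu⟩ := hF ⟨x, hx⟩
    refine ⟨g, mem_image_of_mem _ hg, ((g⁻¹ * ⟨x, hx⟩ : L) : G), ⟨Subtype.prop _, fun l hl => ?_⟩,
      by simp⟩
    generalize g⁻¹ * ⟨x, hx⟩ = u at hu
    by_contra h5
    refine hWV _ hu.1 _ (h3 l _ hu.2) ⟨?_, fun h6 => h5 ?_⟩
    · simpa [commutatorElement_def, mul_assoc] using Subgroup.commutator_mem_commutator u.2 hl
    · exact (commutatorElement_eq_one_iff_mul_comm.1
        (by simpa [commutatorElement_def, mul_assoc] using h6)).symm
  let A := A0.topologicalClosure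
  haveI : A.Normal := Subgroup.is_normal_topologicalClosure _
  haveI : Infinite A := (h4.mono A0.le_topologicalClosure).to_subtype
  letI : CommGroup A := { A.toGroup with mul_comm := closure_comm _ fun x hx y hy => hy.2 x hx.1 }
  obtain ⟨a, ha1, ha2⟩ := (rm_of hp.sin hm A (Subgroup.isClosed_topologicalClosure _)).seq
    (hp.subgroup _) (cj_cont A) ⟨1, cj_one A⟩ (fun g g' => ⟨_, cj_mul A g g'⟩) (orb_fin hp A)
  exact inj_seq (a := fun n => a n) (fun n h => ha1 n (Subtype.ext h))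
    ((continuous_subtype_val.tendsto 1).comp ha2)

end

end Pool.Agent.H2.MG
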