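import Mathlib
import Pool.Agent.H2.MG4

set_option autoImplicit false

/-! Precompactness of minimal abelian groups of prime exponent and of torsion-free ones. -/

namespace Pool.Agent.H2.MG

open Filter Topology Set Pointwise

theorem exists_rec {α : Type} (P : ∀ n, (Fin n → α) → α → Prop) (h : ∀ n f, ∃ a, P n f a) :
    ∃ a : ℕ → α, ∀ n, P n (fun j => a j) (a n) := by
  choose c hc using h
  let a : ℕ → α := fun n => Nat.strongRec (fun n ih => c n fun j => ih j j.2) n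
  refine ⟨a, fun n => ?_⟩
  have : a n = c n fun j => a j := Nat.strongRec_eq _ _
  rw [this]; exact hc _ _

/-- free abelian group of countable rank -/
abbrev AA : Type := Multiplicative (ℕ →₀ ℤ)

/-- multiples -/
def dv (m : ℕ) : Subgroup AA where
  carrier := {c | ∀ j, (m : ℤ) ∣ c.toAdd j}
  one_mem' := fun _ => dvd_zero _
  mul_mem' := fun ha hb j => dvd_add (ha j) (hb j)
  inv_mem' := fun ha j => (ha j).neg_right

/-- tails -/
def tl (n : ℕ) : Subgroup AA where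
  carrier := {c | ∀ j < n, c.toAdd j = 0}
  one_mem' := fun _ _ => rfl
  mul_mem' := fun ha hb j hj => by simp [ha j hj, hb j hj]
  inv_mem' := fun ha j hj => by simp [ha j hj]

theorem dv_pow {m : ℕ} {c : AA} (h : c ∈ dv m) : ∃ d : AA, c = d ^ m :=
  ⟨Multiplicative.ofAdd (c.toAdd.mapRange (· / m) (by simp)), Multiplicative.toAdd.injective (by
    ext j; simp [Int.mul_ediv_cancel' (h j)])⟩

/-- basis vectors -/
noncomputable def ee (j : ℕ) : AA := Multiplicative.ofAdd (Finsupp.single j 1)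

section
variable {G : Type} [CommGroup G]

/-- the homomorphism with given values on the basis -/
noncomputable def ph (a : ℕ → G) : AA →* G :=
  MonoidHom.mk' (fun c => c.toAdd.prod fun j k => a j ^ k) fun _ _ =>
    Finsupp.prod_add_index' (fun _ => zpow_zero _) fun _ _ _ => zpow_add _ _ _

theorem ph_ee (a : ℕ → G) (j : ℕ) : ph a (ee j) = a j := by
  simp [ph, ee]

theorem AA_ext {f g : AA →* G} (h : ∀ j, f (ee j) = g (ee j)) : f = g := by
  apply MonoidHom.toAdditiveRight.injective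
  ext j
  exact h j

theorem GF.principal (H : Subgroup G) : GF (𝓟 (H : Set G)) where
  one := by simp
  mul := by
    rw [prod_principal_principal, tendsto_principal_principal]
    exact fun p hp => H.mul_mem hp.1 hp.2
  inv := tendsto_principal_principal.2 fun _ h => H.inv_mem h
  conj g := tendsto_principal_principal.2 fun _ h => by simpa using h

theorem mkseq (N : ℕ → ℕ) (S : Set G) (h : ∀ n, ∀ F : Set G, F.Finite → ∃ x : G, ∀ k : ℤ, k ≠ 0 →
    |k| ≤ N n → ∀ f ∈ F, f * x ^ k ∉ S) :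
    ∃ a : ℕ → G, ∀ c : AA, (∀ j, |c.toAdd j| ≤ N j) → ph a c ∈ S → c = 1 := by
  obtain ⟨a, ha⟩ := exists_rec (fun n (f : Fin n → G) x => ∀ k : ℤ, k ≠ 0 → |k| ≤ N n →
    ∀ u : Fin n → ℤ, (∀ j, |u j| ≤ N j) → (∏ j, f j ^ u j) * x ^ k ∉ S) fun n f => by
    obtain ⟨x, hx⟩ := h n _ ((finite_Icc (fun j : Fin n => -(N j : ℤ)) fun j => (N j : ℤ)).image
      fun u => ∏ j, f j ^ u j)
    exact ⟨x, fun k h1 h2 u hu => hx k h1 h2 _
      ⟨u, ⟨fun j => (abs_le.1 (hu j)).1, fun j => (abs_le.1 (hu j)).2⟩, rfl⟩⟩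
  refine ⟨a, fun c hc hS => ?_⟩
  by_contra h0
  have h1 : c.toAdd.support.Nonempty := Finsupp.support_nonempty_iff.2 h0
  let n := c.toAdd.support.max' h1
  refine ha n _ (Finsupp.mem_support_iff.1 (Finset.max'_mem _ h1)) (hc n) (fun j => c.toAdd j)
    (fun j => hc j) ?_
  have h2 : ph a c = ∏ j ∈ Finset.range (n + 1), a j ^ c.toAdd j :=
    Finsupp.prod_of_support_subset _ (fun j hj => Finset.mem_range.2
      (Nat.lt_succ_of_le (Finset.le_max' _ _ hj))) _ fun _ _ => zpow_zero _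
  rwa [h2, Finset.prod_range_succ, Finset.prod_range] at hS

theorem cover {ι : Type} (I : Finset ι) (A : ι → Set G) (h : ∀ x, ∃ i ∈ I, x ∈ A i) :
    ∃ i ∈ I, ∃ E : Finset G, ∀ x, ∃ e ∈ E, ∃ y ∈ A i, ∃ z ∈ A i, x = e * (y / z) := by
  classical
  by_contra hn
  push Not at hn
  have key : ∀ K : Finset ι, K ⊆ I → ∃ S : Finset G, ∀ t, ∃ s ∈ S, ∀ i ∈ K, t * s ∉ A i := by
    intro K
    induction K using Finset.induction_on with
    | empty => exact fun _ => ⟨{1}, fun t => ⟨1, by simp⟩⟩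
    | insert i K _ ih =>
      intro hK
      obtain ⟨S, hS⟩ := ih ((Finset.subset_insert _ _).trans hK)
      obtain ⟨x, hx⟩ := exists_rec (fun n (f : Fin n → G) x => ∀ j, ∀ y ∈ A i, ∀ z ∈ A i,
        x ≠ f j * (y / z)) fun n f => by
        obtain ⟨x, hx⟩ := hn i (hK (Finset.mem_insert_self _ _)) (Finset.univ.image f)
        exact ⟨x, fun j => hx _ (Finset.mem_image_of_mem _ (Finset.mem_univ j))⟩
      refine ⟨Finset.image₂ (· * ·) ((Finset.range (S.card + 1)).image x) S, fun t => ?_⟩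
      choose s hs1 hs2 using fun l => hS (t * x l)
      by_contra h1
      push Not at h1
      have h2 : ∀ l ∈ Finset.range (S.card + 1), t * x l * s l ∈ A i := fun l hl => by
        obtain ⟨i', hi', h3⟩ := h1 _ (Finset.mem_image₂_of_mem (Finset.mem_image_of_mem x hl) (hs1 l))
        rw [← mul_assoc] at h3
        rcases Finset.mem_insert.1 hi' with rfl | hi'
        exacts [h3, absurd h3 (hs2 l _ hi')]
      obtain ⟨l, hl, l', hl', h3, h4⟩ := Finset.exists_ne_map_eq_of_card_lt_of_maps_to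
        (s := Finset.range (S.card + 1)) (t := S) (by simp) (f := s) fun l _ => hs1 l
      rcases lt_or_gt_of_ne h3 with h5 | h5
      · exact hx l' ⟨l, h5⟩ _ (h2 l' hl') _ (h2 l hl) (by simp [h4])
      · exact hx l ⟨l', h5⟩ _ (h2 l hl) _ (h2 l' hl') (by simp [h4])
  obtain ⟨S, hS⟩ := key I subset_rfl
  obtain ⟨s, -, hs⟩ := hS 1
  obtain ⟨i, hi, h⟩ := h (1 * s)
  exact hs i hi h

theorem SN.pow {ρ : G → ℝ} (h : SN ρ) (x : G) (n : ℕ) : ρ (x ^ n) ≤ n * ρ x := by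
  induction n with
  | zero => simp [h.one]
  | succ n ih => rw [pow_succ]; push_cast; linarith [h.mul (x ^ n) x]

theorem fl_hom {B : Type} [CommGroup B] {ρ : G → ℝ} (h : SN ρ) (F : Finset G) (θ : B →* G)
    (hF : ∀ b, ∃ f ∈ F, ρ (f⁻¹ * θ b) < 1 / 2) {x : B} (hx : 10 ≤ ρ (θ x)) :
    ∃ χ : B →* Circle, χ x ≠ 1 ∧ ∃ C : ℝ, ∀ g, ‖(χ g : ℂ) - 1‖ ≤ C * ρ (θ g) := by
  classical
  let e : G → B := fun f => if h : ∃ b, ρ (f⁻¹ * θ b) < 1 / 2 then h.choose else 1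
  refine fl (h.comp θ) (F.image e) (fun b => ?_) hx
  obtain ⟨f, hf, h1⟩ := hF b
  have h2 : ∃ b, ρ (f⁻¹ * θ b) < 1 / 2 := ⟨b, h1⟩
  have h3 : ρ (f⁻¹ * θ (e f)) < 1 / 2 := by simp only [e, dif_pos h2]; exact h2.choose_spec
  refine ⟨e f, Finset.mem_image_of_mem e hf, ?_⟩
  have h4 := h.mul (f⁻¹ * θ b) (f⁻¹ * θ (e f))⁻¹
  rw [h.inv, show f⁻¹ * θ b * (f⁻¹ * θ (e f))⁻¹ = θ (b * (e f)⁻¹) by
    simp [mul_assoc, mul_comm, mul_left_comm]] at h4
  linarith

/-- the auxiliary group filter on the free group -/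
noncomputable def LL (p : ℕ) : Filter AA := ((⨅ n, 𝓟 (tl n : Set AA)) ⊓ ⨅ χ : AA →* Circle, comap χ (𝓝 1)) ⊓
  ⨅ q : {q // ¬ p ∣ q}, 𝓟 (dv q : Set AA)

theorem LL_gf (p : ℕ) : GF (LL p) :=
  ((GF.iInf fun _ => GF.principal _).inf (GF.iInf fun _ => GF.nhds.comap _)).inf
    (GF.iInf fun _ => GF.principal _)

theorem LL_tl (p n : ℕ) : (tl n : Set AA) ∈ LL p :=
  mem_inf_of_left (mem_inf_of_left (mem_iInf_of_mem n (mem_principal_self _)))

theorem LL_dv {p q : ℕ} (h : ¬ p ∣ q) : (dv q : Set AA) ∈ LL p :=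
  mem_inf_of_right (mem_iInf_of_mem ⟨q, h⟩ (mem_principal_self _))

theorem LL_ch (p : ℕ) (χ : AA →* Circle) : Tendsto χ (LL p) (𝓝 1) :=
  tendsto_iff_comap.2 (inf_le_left.trans (inf_le_right.trans (iInf_le _ χ)))

theorem LL_not {p : ℕ} (hp : p.Prime) : (dv p : Set AA) ∉ LL p := by
  intro h
  obtain ⟨S, hS, T, hT, h⟩ := mem_inf_iff_superset.1 h
  haveI : Nonempty {q // ¬ p ∣ q} := ⟨⟨1, hp.not_dvd_one⟩⟩
  have hd : Directed (· ≥ ·) fun q : {q // ¬ p ∣ q} => 𝓟 (dv q : Set AA) := fun q q' =>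
    ⟨⟨q * q', fun h => (hp.dvd_mul.1 h).elim q.2 q'.2⟩,
      principal_mono.2 fun c hc j => (Int.natCast_dvd_natCast.2 (dvd_mul_right _ _)).trans (hc j),
      principal_mono.2 fun c hc j => (Int.natCast_dvd_natCast.2 (dvd_mul_left _ _)).trans (hc j)⟩
  rw [mem_iInf_of_directed hd] at hT
  obtain ⟨⟨q, hq⟩, hT⟩ := hT
  let 𝒰 := hyperfilter ℕ
  have h1 : Tendsto (fun z : ℕ × ℕ => (ee z.1 / ee z.2) ^ q) (↑𝒰 ×ˢ ↑𝒰)
      ((⨅ n, 𝓟 (tl n : Set AA)) ⊓ ⨅ χ : AA →* Circle, comap χ (𝓝 1)) := by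
    refine tendsto_inf.2 ⟨tendsto_iInf.2 fun n => tendsto_principal.2 ?_,
      tendsto_iInf.2 fun χ => tendsto_comap_iff.2 ?_⟩
    · have h2 : ∀ᶠ i in (𝒰 : Filter ℕ), ee i ∈ tl n := by
        filter_upwards [Nat.hyperfilter_le_atTop (eventually_ge_atTop n)] with i hi j hj
        exact Finsupp.single_eq_of_ne (by omega)
      exact (h2.prod_mk h2).mono fun z hz => (tl n).pow_mem ((tl n).div_mem hz.1 hz.2) q
    · have h2 : Tendsto (fun i => χ (ee i)) 𝒰 (𝓝 (𝒰.map fun i => χ (ee i)).lim) :=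
        (𝒰.map fun i => χ (ee i)).le_nhds_lim
      simpa [Function.comp_def] using ((h2.comp tendsto_fst).div' (h2.comp tendsto_snd)).pow q
  obtain ⟨R, hR, h2⟩ := mem_prod_self_iff.1 (h1 hS)
  obtain ⟨i, hi, j, hj, hij⟩ := (show R.Infinite from fun h => h.notMem_hyperfilter hR).nontrivial
  have h3 := h ⟨h2 (show (i, j) ∈ R ×ˢ R from ⟨hi, hj⟩), hT fun l => by simp⟩ i
  simp [ee, hij] at h3
  exact hq (Int.natCast_dvd_natCast.1 h3)

variable [TopologicalSpace G] [IsTopologicalGroup G]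

theorem core (hm : LM G univ) {p : ℕ} (hp : p.Prime) (φ : AA →* G) {U : Set G} (hU : U ∈ 𝓝 (1 : G))
    (h1 : ∀ c, φ c ∈ U → c ∈ dv p)
    (h2 : ∀ x : G, (∀ S ∈ LL p, x ∈ closure (φ '' S)) → x = 1) : False := by
  refine LL_not hp (mem_of_superset (mem_map.1 (coarsen (SIN.comm G) hm ((LL_gf p).map_comm φ)
    (fun x hx => ?_) ⟨univ, univ_mem, univ, univ_mem, subset_univ _⟩ hU)) h1)
  by_contra h
  push Not at h
  exact hx (h2 x fun S hS => h _ (image_mem_map hS))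

theorem exists_div {U : Set G} (hU : U ∈ 𝓝 (1 : G)) (x : G) :
    ∃ W ∈ 𝓝 x, ∀ y ∈ W, ∀ z ∈ W, y / z ∈ U := by
  have : Tendsto (fun z : G × G => z.1 / z.2) (𝓝 x ×ˢ 𝓝 x) (𝓝 1) := by
    simpa [← nhds_prod_eq] using (continuous_div' (G := G)).tendsto (x, x)
  obtain ⟨W, hW, h⟩ := mem_prod_self_iff.1 (this hU)
  exact ⟨W, hW, fun y hy z hz => h (show (y, z) ∈ W ×ˢ W from ⟨hy, hz⟩)⟩

theorem near {p m : ℕ} (φ : AA →* G) {U : Set G} (hU : U ∈ 𝓝 (1 : G))
    (h1 : ∀ c, φ c ∈ U → c ∈ dv m) {x : G} (hx : ∀ S ∈ LL p, x ∈ closure (φ '' S)) :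
    ∀ S ∈ LL p, x ∈ closure (φ '' (S ∩ dv m)) := by
  obtain ⟨W, hW, h⟩ := exists_div hU x
  intro S hS
  rw [mem_closure_iff_nhds]
  intro V hV
  obtain ⟨_, h2, c, hc, rfl⟩ := mem_closure_iff_nhds.1 (hx S hS) _ (inter_mem hV hW)
  refine ⟨_, h2.1, c, ⟨hc, fun j => ?_⟩, rfl⟩
  obtain ⟨_, h3, d, hd, rfl⟩ := mem_closure_iff_nhds.1 (hx _ (LL_tl p (j + 1))) _ hW
  simpa [hd j (Nat.lt_succ_self j)] using h1 (c / d) (by rw [map_div]; exact h _ h2.2 _ h3) j

theorem indep {p : ℕ} (hp : p.Prime) {U : Set G} (hU : U ∈ 𝓝 (1 : G))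
    (h : ∀ F : Finset G, ∃ x, ∀ f ∈ F, ∀ g : G, f⁻¹ * x * g ^ p ∉ U) :
    ∃ φ : AA →* G, ∃ V ∈ 𝓝 (1 : G), ∀ c, φ c ∈ V → c ∈ dv p := by
  obtain ⟨ρ, h1, h2, h3⟩ := exists_sn (SIN.comm G) hU
  have hp0 : (0 : ℝ) < p := by exact_mod_cast hp.pos
  have hp1 : (0 : ℤ) < p := by exact_mod_cast hp.pos
  obtain ⟨a, ha⟩ := mkseq (fun _ => p - 1) {y : G | ∃ g, ρ (y * g ^ p) < 1 / p} fun _ F hF => by
    obtain ⟨x, hx⟩ := h (hF.image2 (fun f u => (f ^ u)⁻¹) (finite_lt_nat p)).toFinset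
    refine ⟨x, fun k hk0 hk f hf ⟨g, hg⟩ => ?_⟩
    have h4 : ¬ (p : ℤ) ∣ k := fun h4 => by
      have := Int.le_of_dvd (abs_pos.2 hk0) ((dvd_abs _ _).2 h4)
      have := hp.pos
      omega
    obtain ⟨v, w, hw⟩ := (Nat.prime_iff_prime_int.1 hp).irreducible.coprime_iff_not_dvd.2 h4
    obtain ⟨u, hu⟩ := Int.eq_ofNat_of_zero_le (Int.emod_nonneg w hp1.ne')
    have h5 : u < p := by have := Int.emod_lt_of_pos w hp1; omega
    have h6 : k * u = 1 + -(v + w / p * k) * p := by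
      rw [← hu, Int.emod_def]; linear_combination hw
    refine hx _ ((Finite.mem_toFinset _).2 ⟨f, hf, u, h5, rfl⟩) (x ^ (-(v + w / p * k)) * g ^ u)
      (h3 _ ?_)
    have h7 := h1.pow (f * x ^ k * g ^ p) u
    rw [mul_pow, mul_pow, ← zpow_natCast (x ^ k), ← zpow_mul, h6, zpow_add, zpow_one, zpow_mul,
      zpow_natCast, ← pow_mul, mul_comm p u, pow_mul, ← mul_assoc, mul_assoc, ← mul_pow] at h7
    rw [inv_inv]
    have h8 : (u : ℝ) ≤ p := by exact_mod_cast h5.le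
    rw [lt_div_iff₀ hp0] at hg
    nlinarith [h1.nonneg (f * x ^ k * g ^ p)]
  refine ⟨ph a, _, h2.eventually (gt_mem_nhds (show (0 : ℝ) < 1 / p by positivity)),
    fun c hc j => ?_⟩
  let r : AA := Multiplicative.ofAdd (c.toAdd.mapRange (· % p) (by simp))
  obtain ⟨d, hd⟩ : ∃ d : AA, c / r = d ^ p := dv_pow fun j => by simp [r, Int.emod_def]
  have h4 := ha r (fun j => by
    have h5 := Int.emod_lt_of_pos (c.toAdd j) hp1
    have h6 := Int.emod_nonneg (c.toAdd j) hp1.ne'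
    show |c.toAdd j % p| ≤ _
    rw [abs_of_nonneg h6]
    omega) ⟨ph a d, by rw [← map_pow, ← hd, ← map_mul, mul_div_cancel]; exact hc⟩
  exact Int.dvd_of_emod_eq_zero (DFunLike.congr_fun (congrArg Multiplicative.toAdd h4) j)

theorem ps_exp [T2Space G] (hm : LM G univ) {p : ℕ} (hp : p.Prime) (he : ∀ x : G, x ^ p = 1) :
    PC G := by
  intro U hU
  by_contra h
  push Not at h
  obtain ⟨φ, V, hV, h1⟩ := indep hp hU (by simpa [he] using h)
  refine core hm hp φ hV h1 fun x hx => ?_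
  refine closure_minimal (t := {1}) ?_ isClosed_singleton (near φ hV h1 hx univ univ_mem)
  rintro _ ⟨c, hc, rfl⟩
  obtain ⟨d, rfl⟩ := dv_pow hc.2
  rw [map_pow, he]; rfl

theorem disc [T2Space G] (hm : LM G univ) {A : Type} [Group A] (φ : A →* G) {L : Filter A}
    (hL : GF L) (h1 : ∀ c : A, c ≠ 1 → {c}ᶜ ∈ L) {S : Set A} (hS : S ∈ L) {U : Set G}
    (hU : U ∈ 𝓝 (1 : G)) (h2 : ∀ c ∈ S, φ c ∈ U → c = 1) : {1} ∈ L := by
  refine mem_of_superset (inter_mem hS (mem_map.1 (coarsen (SIN.comm G) hm (hL.map_comm φ)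
    (fun x hx => ?_) ⟨univ, univ_mem, univ, univ_mem, subset_univ _⟩ hU))) fun c hc => h2 c hc.1 hc.2
  obtain ⟨T, hT, hTS⟩ := mem_prod_self_iff.1 ((hL.mul.comp (tendsto_id.prodMap hL.inv)) hS)
  obtain ⟨W, hW, h⟩ := exists_div hU x
  by_contra h3
  push Not at h3
  obtain ⟨_, h4, c, hc, rfl⟩ := mem_closure_iff_nhds.1 (h3 _ (image_mem_map hT)) _
    (inter_mem hW (compl_singleton_mem_nhds hx))
  obtain ⟨_, h5, d, hd, rfl⟩ := mem_closure_iff_nhds.1 (h3 _ (image_mem_map (inter_mem hT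
    (h1 c fun h => h4.2 (by rw [h, map_one]; rfl))))) _ hW
  exact hd.2 (mul_inv_eq_one.1 (h2 _ (hTS (show (d, c) ∈ T ×ˢ T from ⟨hd.1, hc⟩))
    (by simpa [div_eq_mul_inv] using h _ h5 _ h4.1)))

theorem case1 [T2Space G] (hm : LM G univ) {U : Set G} (hU : U ∈ 𝓝 (1 : G)) :
    ∃ m : ℕ, m ≠ 0 ∧ ∃ F : Finset G, ∀ x : G, ∃ f ∈ F, f⁻¹ * x ^ m ∈ U := by
  classical
  by_contra hn
  push Not at hn
  obtain ⟨V, hV, hVU⟩ := exists_div hU 1
  obtain ⟨a, ha⟩ := mkseq id V fun n F hF => by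
    by_contra h
    push Not at h
    obtain ⟨⟨k, f⟩, hi, E, hE⟩ := cover (((Finset.Icc (-(n : ℤ)) n).erase 0) ×ˢ hF.toFinset)
      (fun i => {x : G | i.2 * x ^ i.1 ∈ V}) fun x => by
      obtain ⟨k, h1, h2, f, h3, h4⟩ := h x
      exact ⟨(k, f), by simpa [h1, h3, abs_le] using h2, h4⟩
    have hk : k ≠ 0 := (Finset.mem_erase.1 (Finset.mem_product.1 hi).1).1
    obtain ⟨x, hx⟩ := hn k.natAbs (by omega) (E.image (· ^ k))
    obtain ⟨e, he, y, hy, z, hz, h1⟩ := hE (x ^ k.sign)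
    refine hx _ (Finset.mem_image_of_mem _ he) ?_
    rw [← zpow_natCast, ← Int.sign_mul_self_eq_natAbs, zpow_mul, h1]
    simpa [mul_zpow, div_zpow] using hVU _ hy _ hz
  let S : ℕ → Set AA := fun n => {c | ∀ j, |c.toAdd j| * 2 ^ n ≤ j}
  have hS : Antitone S := antitone_nat_of_succ_le fun n c hc j => by
    have := hc j
    rw [pow_succ] at this
    nlinarith [abs_nonneg (c.toAdd j), pow_pos (zero_lt_two (α := ℤ)) n]
  have hb : (⨅ n, 𝓟 (S n)).HasBasis (fun _ => True) S := hasBasis_iInf_principal hS.directed_ge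
  have h1 := disc hm (ph a) (L := ⨅ n, 𝓟 (S n)) ⟨le_iInf fun n => by simp [S],
    ((hb.prod_self).tendsto_iff hb).2 fun n _ => ⟨n + 1, trivial, fun z hz j => by
      have h1 := hz.1 j
      have h2 := hz.2 j
      have h3 := abs_add_le (z.1.toAdd j) (z.2.toAdd j)
      rw [pow_succ] at h1 h2
      show |z.1.toAdd j + z.2.toAdd j| * 2 ^ n ≤ j
      nlinarith [pow_pos (zero_lt_two (α := ℤ)) n]⟩,
    (hb.tendsto_iff hb).2 fun n _ => ⟨n, trivial, fun c hc j => by simpa using hc j⟩,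
    fun g => by simp only [mul_inv_cancel_comm]; exact tendsto_id⟩ (fun c hc => by
      obtain ⟨j, hj⟩ := DFunLike.ne_iff.1 (show c.toAdd ≠ 0 from hc)
      refine hb.mem_iff.2 ⟨j, trivial, fun d hd h => ?_⟩
      have h1 := hd j
      rw [show d = c from h] at h1
      have h2 : (j : ℤ) < 2 ^ j := by exact_mod_cast Nat.lt_two_pow_self
      have h3 : 1 ≤ |c.toAdd j| := abs_pos.2 hj
      nlinarith) (hb.mem_of_mem (i := 0) trivial) hV fun c hc => ha c (by simpa [S] using hc)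
  obtain ⟨n, -, h2⟩ := hb.mem_iff.1 h1
  have h3 : ee (2 ^ n) = 1 := h2 fun j => by
    by_cases h : 2 ^ n = j
    · simp [ee, ← h]
    · simp [ee, h]
  simp [ee] at h3

theorem exists_prime [T2Space G] (hm : LM G univ) (hn : ¬ PC G) : ∃ p : ℕ, p.Prime ∧
    ∃ U ∈ 𝓝 (1 : G), ∀ F : Finset G, ∃ x, ∀ f ∈ F, ∀ g : G, f⁻¹ * x * g ^ p ∉ U := by
  classical
  by_contra h
  push Not at h
  have key : ∀ m : ℕ, m ≠ 0 → ∀ U ∈ 𝓝 (1 : G), ∃ F : Finset G, ∀ x, ∃ f ∈ F, ∃ g : G,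
      f⁻¹ * x * g ^ m ∈ U := by
    intro m
    induction m using induction_on_primes with
    | zero => exact fun h => absurd rfl h
    | one => exact fun _ U hU => ⟨{1}, fun x => ⟨1, by simp, x⁻¹, by simpa using mem_of_mem_nhds hU⟩⟩
    | prime_mul p m hp ih =>
      intro h0 U hU
      obtain ⟨W, hW, hWU⟩ := exists_nhds_one_split hU
      obtain ⟨F, hF⟩ := ih (right_ne_zero_of_mul h0) W hW
      obtain ⟨F', hF'⟩ := h p hp ((· ^ m) ⁻¹' W)
        ((continuous_pow m).continuousAt.preimage_mem_nhds (by rwa [one_pow]))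
      refine ⟨Finset.image₂ (fun f f' => f * f' ^ m) F F', fun x => ?_⟩
      obtain ⟨f, hf, g, hg⟩ := hF x
      obtain ⟨f', hf', g', hg'⟩ := hF' g⁻¹
      refine ⟨_, Finset.mem_image₂_of_mem hf hf', g', ?_⟩
      refine mem_of_eq_of_mem (Additive.ofMul.injective ?_) (hWU _ hg _ hg')
      simp only [ofMul_mul, ofMul_inv, ofMul_pow]
      module
  refine hn fun U hU => ?_
  obtain ⟨W, hW, hWU⟩ := exists_nhds_one_split hU
  obtain ⟨m, hm0, F', hF'⟩ := case1 hm hW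
  obtain ⟨F, hF⟩ := key m hm0 W hW
  refine ⟨F * F', fun x => ?_⟩
  obtain ⟨f, hf, g, hg⟩ := hF x
  obtain ⟨f', hf', hg'⟩ := hF' g⁻¹
  refine ⟨_, Finset.mul_mem_mul hf hf', ?_⟩
  refine mem_of_eq_of_mem (Additive.ofMul.injective ?_) (hWU _ hg _ hg')
  simp only [ofMul_mul, ofMul_inv, ofMul_pow]
  module

theorem ps_tf [T2Space G] (hm : LM G univ) (ht : ∀ p : ℕ, p.Prime → ∀ x : G, x ^ p = 1 → x = 1) :
    PC G := by
  by_contra hn
  obtain ⟨p, hp, U, hU, h⟩ := exists_prime hm hn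
  obtain ⟨φ, V, hV, h1⟩ := indep hp hU h
  have hemb : comap (powMonoidHom p : G →* G) (𝓝 1) ≤ 𝓝 1 :=
    hm _ (GF.nhds.comap _) (tendsto_iff_comap.1 ((continuous_pow p).tendsto' (1 : G) 1 (one_pow p)))
      (fun x hx => mem_of_superset (preimage_mem_comap (compl_singleton_mem_nhds
        (Ne.symm (mt (ht p hp x) hx)))) fun z hz hzx => hz (by rw [show z = x from hzx]; rfl))
      univ_mem
  have hind : ∀ k, ∃ W ∈ 𝓝 (1 : G), ∀ c, φ c ∈ W → c ∈ dv (p ^ k) := by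
    intro k
    induction k with
    | zero => exact ⟨univ, univ_mem, fun c _ j => by simp⟩
    | succ k ih =>
      obtain ⟨W, hW, ih⟩ := ih
      obtain ⟨W', hW', h2⟩ := hemb hW
      refine ⟨_, inter_mem hV hW', fun c hc j => ?_⟩
      obtain ⟨d, rfl⟩ := dv_pow (h1 c hc.1)
      simpa [pow_succ'] using mul_dvd_mul_left (p : ℤ)
        (ih d (h2 (by simpa using hc.2)) j)
  refine core hm hp φ hV h1 fun x hx => ?_
  by_contra hx1
  obtain ⟨ρ0, r1, r2, r3⟩ := exists_sn (SIN.comm G) (compl_singleton_mem_nhds (Ne.symm hx1))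
  have r4 := r1.smul (c := 10) (by norm_num)
  have r5 : Tendsto (fun x => 10 * ρ0 x) (𝓝 1) (𝓝 0) := by simpa using r2.const_mul 10
  have r6 : 10 ≤ 10 * ρ0 x := by have := mt (r3 x) fun h => h rfl; linarith
  set ρ := fun x => 10 * ρ0 x
  obtain ⟨m, hm0, F, hF⟩ := case1 hm (r5.eventually (ge_mem_nhds (show (0 : ℝ) < 1 / 4 by norm_num)))
  obtain ⟨k, q, hq, rfl⟩ := Nat.exists_eq_pow_mul_and_not_dvd hm0 p hp.ne_one
  obtain ⟨W, hW, h2⟩ := hind k
  let M := (powMonoidHom (p ^ k * q) : G →* G).range.topologicalClosure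
  let θ : AA →* M := ((powMonoidHom (p ^ k * q)).comp φ).codRestrict M fun c =>
    Subgroup.le_topologicalClosure _ ⟨_, rfl⟩
  have h3 : ∀ S ∈ LL p, x ∈ closure {y : G | ∃ d, d ^ (p ^ k * q) ∈ S ∧ (θ d : G) = y} := by
    intro S hS
    refine closure_mono ?_ (near φ hW h2 hx _ (inter_mem hS (LL_dv hq)))
    rintro _ ⟨c, hc, rfl⟩
    obtain ⟨d, rfl⟩ := dv_pow (m := p ^ k * q) (c := c) fun j => by
      push_cast
      exact IsCoprime.mul_dvd (Nat.isCoprime_iff_coprime.2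
        ((hp.coprime_iff_not_dvd).2 hq)).pow_left (by exact_mod_cast hc.2 j) (hc.1.2 j)
    exact ⟨d, hc.1.1, (map_pow φ d _).symm⟩
  have hxM : x ∈ M := closure_minimal (t := M) (by rintro _ ⟨d, -, rfl⟩; exact (θ d).2)
    (Subgroup.isClosed_topologicalClosure _) (h3 univ univ_mem)
  have hc := r4.cont r5
  obtain ⟨χ, h4, C, h5⟩ := fl_hom r4 F M.subtype (fun b => by
    have h4 : IsClosed (⋃ f ∈ F, {y | ρ (f⁻¹ * y) ≤ 1 / 4}) :=
      isClosed_biUnion_finset fun f _ => isClosed_le (by fun_prop) continuous_const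
    obtain ⟨f, hf, h5⟩ := mem_iUnion₂.1 (closure_minimal (by
      rintro _ ⟨y, rfl⟩
      obtain ⟨f, hf, h⟩ := hF y
      exact mem_iUnion₂.2 ⟨f, hf, h⟩) h4 b.2)
    exact ⟨f, hf, lt_of_le_of_lt h5 (by norm_num)⟩) (x := ⟨x, hxM⟩) r6
  have h6 : Continuous χ := continuous_of_continuousAt_one χ (by
    rw [ContinuousAt, map_one]
    exact tendsto_of_lip h5 (r5.comp (continuous_subtype_val.tendsto 1)))
  have h7 : ∀ z : Circle, ∃ w : Circle, w ^ (p ^ k * q) = z := fun z => by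
    obtain ⟨t, rfl⟩ := Circle.exp_surjective z
    refine ⟨Circle.exp (t / (p ^ k * q : ℕ)), ?_⟩
    rw [← Circle.exp_nsmul, nsmul_eq_mul, mul_div_cancel₀ _ (by exact_mod_cast hm0)]
  choose w hw using fun j => h7 (χ (θ (ee j)))
  have h8 : (powMonoidHom (p ^ k * q)).comp (ph w) = χ.comp θ := AA_ext fun j => by
    simpa [ph_ee] using hw j
  have h9 := dist_pos.2 h4
  have h10 : IsClosed (Subtype.val '' {y : M | dist (χ y) 1 ≤ dist (χ ⟨x, hxM⟩) 1 / 2}) :=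
    (Subgroup.isClosed_topologicalClosure _).isClosedMap_subtype_val _
      (isClosed_le (by fun_prop) continuous_const)
  obtain ⟨y, hy, rfl⟩ := closure_minimal (by
    rintro _ ⟨d, hd, rfl⟩
    refine ⟨θ d, ?_, rfl⟩
    have h11 : χ (θ d) = ph w (d ^ (p ^ k * q)) := by
      rw [map_pow]; exact (DFunLike.congr_fun h8 d).symm
    rw [mem_setOf_eq, h11]
    exact hd) h10 (h3 _ (LL_ch p (ph w) (Metric.closedBall_mem_nhds 1 (half_pos h9))))
  exact not_le.2 (half_lt_self h9) hy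

end

end Pool.Agent.H2.MG
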