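import Mathlib
import Pool.Agent.H2.MG5

set_option autoImplicit false

/-! A local form of the Folner lemma. -/

namespace Pool.Agent.H2.MG

open Filter Topology Set Pool.Agent.H5.Folner

theorem fl0' {M ι J : Type} [CommGroup M] [Fintype ι] [Fintype J] [Nonempty J] {ρ : M → ℝ}
    (h : SN ρ) {n : ℝ} (hn : 0 < n) {x : M} (hx : 10 ≤ ρ x) (w : ι → M) (v : J → M)
    (hb : 1 ≤ n * av fun j => if ρ (v j) < 1 then 1 else 0)
    (hv : ∀ i, ∀ f : M → ℝ, (∀ x, |f x| ≤ 1) →
      |av (fun j => f (v j * (w i)⁻¹)) - av (fun j => f (v j))| ≤ 1 / (2 * n)) (a : ι → ℝ)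
    (ha0 : ∀ i, 0 ≤ a i) (ha : ∀ i, a i ≠ 0 → ρ (w i) < 2) {B : ℝ}
    (hB : ∀ χ : M →* Circle, ‖(1 - χ x : ℂ) * ∑ i, (a i : ℂ) * χ (w i)‖ ≤ B) :
    ∑ i, a i ≤ 2 * n * B := by
  classical
  let T := Finset.univ.image v
  let p : M → ℝ := fun z => av fun j => if v j = z then 1 else 0
  have hp0 : ∀ z, 0 ≤ p z := fun z => le_av fun j => by split_ifs <;> norm_num
  have hpT : ∀ z, z ∉ T → p z = 0 := fun z hz => by
    have : ∀ j, v j ≠ z := fun j h => hz (Finset.mem_image.2 ⟨j, Finset.mem_univ _, h⟩)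
    simp [p, this, av_const]
  have hsum : ∀ (g : M → ℝ) (u : M), (∀ j, g (v j * u⁻¹) ≠ 0 → v j * u⁻¹ ∈ T) →
      ∑ z ∈ T, g z * p (u * z) = av fun j => g (v j * u⁻¹) := by
    intro g u hg
    simp only [p, ← av_mul]
    rw [← av_sum]
    congr 1
    ext j
    have : ∀ z, v j = u * z ↔ v j * u⁻¹ = z := fun z => by
      rw [mul_inv_eq_iff_eq_mul, mul_comm]
    simp only [this, mul_ite, mul_one, mul_zero, Finset.sum_ite_eq]
    split_ifs with h
    · rfl
    · exact (not_not.1 fun h' => h (hg j h')).symm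
  have hsum1 : ∀ g : M → ℝ, ∑ z ∈ T, g z * p z = av fun j => g (v j) := by
    intro g
    simpa using hsum g 1 fun j _ => by simp [T]
  let η : M → ℝ := fun z => if ρ z < 3 then √(p z) else 0
  have hη0 : ∀ z, 0 ≤ η z := fun z => by simp only [η]; split_ifs <;> positivity
  have h1 : ∑ z ∈ T, η z ^ 2 ≤ 1 := by
    have := hsum1 fun _ => 1
    rw [av_const] at this
    rw [← this]
    refine Finset.sum_le_sum fun z _ => ?_
    simp only [η]
    split_ifs
    · rw [Real.sq_sqrt (hp0 z), one_mul]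
    · simpa using hp0 z
  let φ : M → ℝ := fun y => ∑ z ∈ T, ∑ z' ∈ T, (if y * z = z' then η z * η z' else 0)
  have h2 : ∀ y, ρ y < 2 → φ (x * y) = 0 := by
    intro y hy
    refine Finset.sum_eq_zero fun z _ => Finset.sum_eq_zero fun z' _ => ?_
    simp only [η]
    split_ifs with h3 h4 h5 <;> try simp
    exfalso
    have h6 : x = z' * z⁻¹ * y⁻¹ := by rw [← h3]; simp [mul_assoc]
    have h7 := h.mul (z' * z⁻¹) y⁻¹
    have h8 := h.mul z' z⁻¹
    rw [← h6, h.inv] at h7
    rw [h.inv] at h8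
    linarith
  let b : M → ℝ := fun z => if ρ z < 1 then 1 else 0
  change 1 ≤ n * av (fun j => b (v j)) at hb
  have h3 : ∀ i, ρ (w i) < 2 → 1 ≤ 2 * n * φ (w i) := by
    intro i hi
    let g : M → ℝ := fun z => if ρ z < 1 ∧ p (w i * z) < p z then 1 else 0
    have h4 := hv i g
      fun z => by simp only [g]; split_ifs <;> norm_num
    rw [← hsum g (w i) fun j hj => by
      by_contra h5
      have := hp0 (w i * (v j * (w i)⁻¹))
      simp only [g, hpT _ h5, not_lt.2 this, and_false, if_false, ne_eq, not_true] at hj,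
      ← hsum1 g] at h4
    rw [← hsum1 b] at hb
    have h5 : ∑ z ∈ T, (b z * p z - g z * p z + g z * p (w i * z)) ≤ φ (w i) := by
      refine Finset.sum_le_sum fun z _ => ?_
      have h6 : (∑ z' ∈ T, if w i * z = z' then η z * η z' else 0) = η z * η (w i * z) := by
        rw [Finset.sum_ite_eq]
        split_ifs with h7
        · rfl
        · simp [η, hpT _ h7]
      rw [h6]
      by_cases h7 : ρ z < 1
      · have h8 : ρ (w i * z) < 3 := by linarith [h.mul (w i) z]
        have h9 : ρ z < 3 := by linarith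
        simp only [b, g, η, h7, h8, h9, if_true, true_and]
        have e1 := Real.mul_self_sqrt (hp0 z)
        have e2 := Real.mul_self_sqrt (hp0 (w i * z))
        have e3 := Real.sqrt_nonneg (p z)
        have e4 := Real.sqrt_nonneg (p (w i * z))
        split_ifs with h10
        · have := Real.sqrt_le_sqrt h10.le
          nlinarith
        · have := Real.sqrt_le_sqrt (not_lt.1 h10)
          nlinarith
      · simpa [b, g, h7] using mul_nonneg (hη0 z) (hη0 (w i * z))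
    rw [Finset.sum_add_distrib, Finset.sum_sub_distrib] at h5
    have h6 : n * (1 / (2 * n) : ℝ) = 1 / 2 := by field_simp
    nlinarith [(abs_le.1 h4).1]
  have h4 := bi T η (Sum.elim a fun i => -a i) (Sum.elim w fun i => x * w i) (B := B) fun χ => by
    refine le_of_eq_of_le ?_ (hB χ)
    simp only [Fintype.sum_sum_type, Sum.elim_inl, Sum.elim_inr, map_mul, Circle.coe_mul,
      Finset.mul_sum, ← Finset.sum_add_distrib]
    refine congrArg _ (Finset.sum_congr rfl fun i _ => ?_)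
    push_cast; ring
  have hB0 : 0 ≤ B := (norm_nonneg _).trans (hB 1)
  simp only [Fintype.sum_sum_type, Sum.elim_inl, Sum.elim_inr] at h4
  have h5 : ∑ i, -a i * φ (x * w i) = 0 := Finset.sum_eq_zero fun i _ => by
    by_cases h : a i = 0
    · simp [h]
    · rw [h2 _ (ha i h), mul_zero]
  have h6 : ∑ i, a i ≤ 2 * n * ∑ i, a i * φ (w i) := by
    rw [Finset.mul_sum]
    refine Finset.sum_le_sum fun i _ => ?_
    by_cases h : a i = 0
    · simp [h]
    · nlinarith [h3 i (ha i h), ha0 i]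
  have h7 : ∑ i, a i * φ (w i) ≤ B := by
    have h8 : ∑ i, a i * φ (w i) + ∑ i, -a i * φ (x * w i) ≤ B * ∑ z ∈ T, η z ^ 2 := h4
    nlinarith
  nlinarith

theorem flA {M ι J : Type} [CommGroup M] [Fintype ι] [Nonempty ι] [Fintype J] [Nonempty J]
    {ρ : M → ℝ} (h : SN ρ) {n c : ℝ} (hn : 0 < n) (hc : c = 1 / (8 * n ^ 2)) {x : M}
    (hx : 10 ≤ ρ x) (w : ι → M) (v : J → M)
    (hw : 1 ≤ n * av fun i => if ρ (w i) < 1 then 1 else 0)
    (hv : 1 ≤ n * av fun j => if ρ (v j) < 1 then 1 else 0)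
    (hvw : ∀ i, ∀ f : M → ℝ, (∀ x, |f x| ≤ 1) →
      |av (fun j => f (v j * (w i)⁻¹)) - av (fun j => f (v j))| ≤ 1 / (2 * n)) :
    ∃ χ : M →* Circle, c ≤ ‖(1 - χ x : ℂ)‖ ∧ ∀ g e, (∀ f : M → ℝ, (∀ x, |f x| ≤ 1) →
      |av (fun i => f (w i * g)) - av (fun i => f (w i))| ≤ e) →
      c / 2 * ‖(χ g : ℂ) - 1‖ ≤ ρ g + e := by
  have hc0 : 0 < c := by rw [hc]; positivity
  let f : M → ℝ := fun z => max 0 (min 1 (2 - ρ z))
  have hf0 : ∀ z, 0 ≤ f z := fun z => le_max_left _ _
  have hf1 : ∀ z, |f z| ≤ 1 := fun z => by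
    rw [abs_of_nonneg (hf0 z)]; exact max_le zero_le_one (min_le_left _ _)
  have hf2 : ∀ z g, |f z - f (z * g)| ≤ ρ g := fun z g => by
    have h1 := abs_le.1 (h.abs_sub z g)
    have h2 := h.nonneg g
    simp only [f, max_def, min_def, abs_le]
    split_ifs <;> constructor <;> linarith
  have h1 : 1 ≤ n * av fun i => f (w i) := hw.trans (mul_le_mul_of_nonneg_left (av_mono fun i => by
    split_ifs with h1
    · exact le_max_of_le_right (le_min le_rfl (by linarith))
    · exact hf0 _) hn.le)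
  have hN : (0 : ℝ) < Fintype.card ι := by exact_mod_cast Fintype.card_pos
  let a : ι → ℝ := fun i => f (w i) / Fintype.card ι
  have ha : ∀ u : ι → ℝ, ∑ i, a i * u i = av fun i => f (w i) * u i := fun u => by
    rw [av_eq, Finset.sum_div]; exact Finset.sum_congr rfl fun i _ => by simp only [a]; ring
  obtain ⟨χ, hχ⟩ : ∃ χ : M →* Circle, c < ‖(1 - χ x : ℂ) * ∑ i, (a i : ℂ) * χ (w i)‖ := by
    by_contra h2
    push Not at h2
    have h3 := fl0' h hn hx w v hv hvw a (fun i => div_nonneg (hf0 _) hN.le) (fun i hi => by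
      by_contra h4
      refine hi ?_
      simp only [a, f]
      rw [max_eq_left (min_le_of_right_le (by linarith)), zero_div]) h2
    have h4 := ha fun _ => 1
    simp only [mul_one] at h4
    rw [h4] at h3
    have h6 : n * (2 * n * c) = 1 / 4 := by rw [hc]; field_simp; norm_num
    nlinarith
  set A := ∑ i, (a i : ℂ) * χ (w i) with hA
  have hre : ∀ u : ℂ, (u * A).re = av fun i => f (w i) * (u * χ (w i)).re := fun u => by
    rw [← ha, hA, Finset.mul_sum, Complex.re_sum]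
    exact Finset.sum_congr rfl fun i _ => by rw [mul_left_comm, Complex.re_ofReal_mul]
  have hb : ∀ (u : ℂ) (z : M), ‖u‖ = 1 → |(u * χ z).re| ≤ 1 := fun u z hu =>
    (Complex.abs_re_le_norm _).trans (by simp [hu])
  have hb' : ∀ (u : ℂ) (z : M), ‖u‖ = 1 → |f z * (u * χ z).re| ≤ 1 := fun u z hu => by
    rw [abs_mul]; exact mul_le_one₀ (hf1 z) (abs_nonneg _) (hb u z hu)
  have hA1 : ‖A‖ ≤ 1 := by
    obtain ⟨u, hu, h2⟩ := Complex.exists_norm_eq_mul_self A
    have h3 := congrArg Complex.re h2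
    rw [Complex.ofReal_re, hre] at h3
    rw [h3]
    exact av_le fun i => (abs_le.1 (hb' u _ hu)).2
  have h2 : ‖(1 - χ x : ℂ)‖ ≤ 2 := (norm_sub_le _ _).trans (by simp; norm_num)
  rw [norm_mul] at hχ
  refine ⟨χ, by nlinarith [norm_nonneg (1 - χ x : ℂ)], fun g e hg => ?_⟩
  have h3 : ‖((χ g : ℂ) - 1) * A‖ ≤ ρ g + e := by
    obtain ⟨u, hu, h2⟩ := Complex.exists_norm_eq_mul_self (((χ g : ℂ) - 1) * A)
    have h3 := congrArg Complex.re h2
    rw [Complex.ofReal_re, sub_mul, mul_sub, one_mul, Complex.sub_re, ← mul_assoc, hre, hre] at h3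
    have h4 := (abs_le.1 (hg (fun z => f z * (u * χ z).re) fun z => hb' u z hu)).2
    have h5 : av (fun i => f (w i) * (u * χ g * χ (w i)).re) -
        av (fun i => f (w i * g) * (u * χ (w i * g)).re) ≤ ρ g := by
      rw [← av_sub]
      refine av_le fun i => ?_
      rw [show u * χ g * χ (w i) = u * χ (w i * g) by
        rw [map_mul, Circle.coe_mul]; ring, ← sub_mul]
      refine (le_abs_self _).trans ?_
      rw [abs_mul]
      exact (mul_le_of_le_one_right (abs_nonneg _) (hb u _ hu)).trans (hf2 _ _)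
    rw [sub_mul, one_mul, h3]
    linarith
  rw [norm_mul] at h3
  have h4 : c / 2 ≤ ‖A‖ := by nlinarith [norm_nonneg A]
  nlinarith [norm_nonneg ((χ g : ℂ) - 1)]

theorem conc {M G ι : Type} [CommGroup M] [CommGroup G] [Fintype ι] [Nonempty ι] {ρ : G → ℝ}
    (h : SN ρ) (θ : M →* G) (F : Finset G) (w : ι → M)
    (hF : ∀ i, ∃ f ∈ F, ρ (f⁻¹ * θ (w i)) < 1 / 2) :
    ∃ i0, 1 ≤ F.card * av fun i => if ρ (θ (w i / w i0)) < 1 then 1 else 0 := by
  let b : G → ι → ℝ := fun f i => if ρ (f⁻¹ * θ (w i)) < 1 / 2 then 1 else 0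
  have hb : ∀ f i, 0 ≤ b f i := fun f i => by simp only [b]; split_ifs <;> norm_num
  have h1 : 1 ≤ av fun i => ∑ f ∈ F, b f i := le_av fun i => by
    obtain ⟨f, hf, h⟩ := hF i
    exact le_trans (if_pos h).ge (Finset.single_le_sum (f := fun f => b f i) (fun f _ => hb f i) hf)
  rw [av_sum] at h1
  obtain ⟨f, -, h2⟩ := F.exists_max_image (fun f => av (b f)) (by
    obtain ⟨f, hf, -⟩ := hF (Classical.arbitrary ι); exact ⟨f, hf⟩)
  have h3 := h1.trans (Finset.sum_le_card_nsmul _ _ _ h2)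
  rw [nsmul_eq_mul] at h3
  obtain ⟨i0, h4⟩ : ∃ i0, ρ (f⁻¹ * θ (w i0)) < 1 / 2 := by
    by_contra h4
    push Not at h4
    have : av (b f) ≤ 0 := av_le fun i => (if_neg (not_lt.2 (h4 i))).le
    nlinarith [(Nat.cast_nonneg F.card : (0 : ℝ) ≤ F.card)]
  refine ⟨i0, h3.trans (mul_le_mul_of_nonneg_left (av_mono fun i => ?_) (Nat.cast_nonneg _))⟩
  simp only [b]
  split_ifs with h5 h6 <;> try norm_num
  have h7 := h.mul (f⁻¹ * θ (w i)) (f⁻¹ * θ (w i0))⁻¹
  rw [h.inv, show f⁻¹ * θ (w i) * (f⁻¹ * θ (w i0))⁻¹ = θ (w i / w i0) by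
    simp [div_eq_mul_inv, mul_assoc, mul_comm, mul_left_comm]] at h7
  linarith

/-- weighted norm on the free group -/
noncomputable def nw (t : ℕ → ℝ) (c : AA) : ℝ := ∑ j ∈ c.toAdd.support, |(c.toAdd j : ℝ)| * t j

theorem nw_eq (t : ℕ → ℝ) (c : AA) {s : Finset ℕ} (hs : c.toAdd.support ⊆ s) :
    nw t c = ∑ j ∈ s, |(c.toAdd j : ℝ)| * t j :=
  Finset.sum_subset hs fun j _ hj => by simp [Finsupp.notMem_support_iff.1 hj]

theorem nw_mono {t t' : ℕ → ℝ} (ht : ∀ j, 0 ≤ t j) (h' : ∀ j, t j ≤ t' j) {c d : AA}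
    (h : ∀ j, |c.toAdd j| ≤ |d.toAdd j|) : nw t c ≤ nw t' d := by
  rw [nw_eq t c (Finset.subset_union_left (s₂ := d.toAdd.support)),
    nw_eq t' d (Finset.subset_union_right (s₁ := c.toAdd.support))]
  exact Finset.sum_le_sum fun j _ => mul_le_mul (by exact_mod_cast h j) (h' j) (ht j) (abs_nonneg _)

theorem nw_sn {t : ℕ → ℝ} (ht : ∀ j, 0 ≤ t j) : SN (nw t) where
  one := by simp [nw]
  mul c d := by
    rw [nw_eq t (c * d) Finsupp.support_add, nw_eq t c Finset.subset_union_left,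
      nw_eq t d Finset.subset_union_right, ← Finset.sum_add_distrib]
    refine Finset.sum_le_sum fun j _ => ?_
    rw [← add_mul]
    exact mul_le_mul_of_nonneg_right (by simpa using abs_add_le _ _) (ht j)
  inv c := by simp [nw]
  conj g c := by simp

theorem nw_ee (t : ℕ → ℝ) (j : ℕ) : nw t (ee j) = t j := by
  simp [nw, ee]

theorem nw_le {t : ℕ → ℝ} {c : AA} {η : ℝ} (hη : 0 ≤ η)
    (h : ∀ j, |(c.toAdd j : ℝ)| * t j ≤ η * (1 / 2) ^ j) : nw t c ≤ 2 * η := by
  refine (Finset.sum_le_sum fun j _ => h j).trans ?_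
  rw [← Finset.mul_sum, mul_comm]
  refine mul_le_mul_of_nonneg_right ?_ hη
  exact (summable_geometric_two.sum_le_tsum _ fun _ _ => by positivity).trans_eq tsum_geometric_two

theorem SN.zpow {G : Type} [CommGroup G] {ρ : G → ℝ} (h : SN ρ) (x : G) (k : ℤ) :
    ρ (x ^ k) ≤ |(k : ℝ)| * ρ x := by
  obtain ⟨n, rfl | rfl⟩ := k.eq_nat_or_neg
  · simpa using h.pow x n
  · simpa [h.inv] using h.pow x n

theorem SN.ph_le {G : Type} [CommGroup G] {ρ : G → ℝ} (h : SN ρ) (a : ℕ → G) (c : AA) :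
    ρ (ph a c) ≤ nw (fun j => ρ (a j)) c := by
  refine le_trans (Finset.le_sum_of_subadditive (M := Additive G) ρ h.one.le h.mul _
    fun j => Additive.ofMul (a j ^ c.toAdd j)) (Finset.sum_le_sum fun j _ => h.zpow _ _)

theorem ph_ee_self (c : AA) : ph ee c = c := by
  rw [AA_ext (f := ph ee) (g := MonoidHom.id _) fun j => ph_ee _ _]; rfl

theorem box (I : Finset ℕ) (N : ℕ → ℕ) (hN : ∀ j, 0 < N j) :
    ∃ (ι : Type) (_ : Fintype ι) (_ : Nonempty ι) (w : ι → AA),
      (∀ i j, 0 ≤ (w i).toAdd j ∧ (w i).toAdd j ≤ N j ∧ (j ∉ I → (w i).toAdd j = 0)) ∧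
      ∀ c : AA, (∀ j, j ∉ I → c.toAdd j = 0) → ∀ f : AA → ℝ, (∀ x, |f x| ≤ 1) →
        |av (fun i => f (w i * c)) - av (fun i => f (w i))| ≤ nw (fun j => 2 / N j) c := by
  obtain ⟨ι, _, _, w, h1, h2⟩ : ∃ (ι : Type) (_ : Fintype ι) (_ : Nonempty ι) (w : ι → AA),
      (∀ i j, 0 ≤ (w i).toAdd j ∧ (w i).toAdd j ≤ N j ∧ (j ∉ I → (w i).toAdd j = 0)) ∧
      ∀ j ∈ I, ∀ f : AA → ℝ, (∀ x, |f x| ≤ 1) →
        |av (fun i => f (w i * ee j)) - av (fun i => f (w i))| ≤ 2 / N j := by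
    induction I using Finset.induction_on with
    | empty => exact ⟨Unit, inferInstance, inferInstance, fun _ => 1, by simp, by simp⟩
    | insert a S ha ih =>
      obtain ⟨ι, _, _, w, hw0, hw⟩ := ih
      have hN0 : (0 : ℝ) < N a := by exact_mod_cast hN a
      haveI : Nonempty (Fin (N a)) := ⟨⟨0, hN a⟩⟩
      refine ⟨ι × Fin (N a), inferInstance, inferInstance, fun p => w p.1 * ee a ^ (p.2 : ℕ),
        fun p j => ?_, fun s hs f hf => ?_⟩
      · have := p.2.2
        by_cases h : a = j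
        · subst h; simp [ee, (hw0 p.1 a).2.2 ha]
        · simpa [ee, h, Ne.symm h] using hw0 p.1 j
      rw [av_prod, av_prod]
      rcases Finset.mem_insert.1 hs with rfl | hs
      · rw [← av_sub]
        apply av_abs_le
        intro i
        rw [← av_sub, av_eq]
        have h1 : ∑ n : Fin (N s), (f (w i * ee s ^ (n : ℕ) * ee s) - f (w i * ee s ^ (n : ℕ)))
            = f (w i * ee s ^ N s) - f (w i * ee s ^ 0) := by
          rw [← Finset.sum_range_sub (fun n => f (w i * ee s ^ n)) (N s),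
            ← Fin.sum_univ_eq_sum_range (fun n => f (w i * ee s ^ (n + 1)) - f (w i * ee s ^ n))]
          exact Finset.sum_congr rfl fun n _ => by rw [pow_succ, mul_assoc]
        rw [h1, Fintype.card_fin, abs_div, abs_of_pos hN0]
        refine div_le_div_of_nonneg_right ((abs_sub _ _).trans ?_) hN0.le
        linarith [hf (w i * ee s ^ N s), hf (w i * ee s ^ 0)]
      · rw [av_comm (fun (i : ι) (n : Fin (N a)) => f (w i * ee a ^ (n : ℕ) * ee s)),
          av_comm (fun (i : ι) (n : Fin (N a)) => f (w i * ee a ^ (n : ℕ))), ← av_sub]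
        apply av_abs_le
        intro n
        have := hw s hs (fun x => f (x * ee a ^ (n : ℕ))) (fun x => hf _)
        simpa only [mul_right_comm] using this
  let P : AA → ℝ → Prop := fun c e => ∀ f : AA → ℝ, (∀ x, |f x| ≤ 1) →
    |av (fun i => f (w i * c)) - av (fun i => f (w i))| ≤ e
  have p0 : P 1 0 := fun f _ => by simp
  have p1 : ∀ c d e e', P c e → P d e' → P (c * d) (e + e') := fun c d e e' hc hd f hf => by
    have h3 := hc (fun x => f (x * d)) fun x => hf _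
    simp only [mul_assoc] at h3
    exact (abs_sub_le _ _ _).trans (add_le_add h3 (hd f hf))
  have p2 : ∀ c e, P c e → P c⁻¹ e := fun c e hc f hf => by
    have h3 := hc (fun x => f (x * c⁻¹)) fun x => hf _
    simpa [abs_sub_comm] using h3
  have p3 : ∀ c e, P c e → ∀ n : ℕ, P (c ^ n) (n * e) := fun c e hc n => by
    induction n with
    | zero => simpa using p0
    | succ n ih => rw [pow_succ, Nat.cast_succ, add_mul, one_mul]; exact p1 _ _ _ _ ih hc
  have p4 : ∀ c e, P c e → ∀ k : ℤ, P (c ^ k) (|(k : ℝ)| * e) := fun c e hc k => by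
    obtain ⟨n, rfl | rfl⟩ := k.eq_nat_or_neg
    · simpa using p3 c e hc n
    · simpa using p2 _ _ (p3 c e hc n)
  refine ⟨ι, inferInstance, inferInstance, w, h1, fun c hc => ?_⟩
  have h3 : ∀ s : Finset ℕ, s ⊆ I →
      P (∏ j ∈ s, ee j ^ c.toAdd j) (∑ j ∈ s, |(c.toAdd j : ℝ)| * (2 / N j)) := by
    intro s
    induction s using Finset.induction_on with
    | empty => exact fun _ => by simpa using p0
    | insert a s ha ih =>
      intro hs
      rw [Finset.prod_insert ha, Finset.sum_insert ha]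
      exact p1 _ _ _ _ (p4 _ _ (h2 a (hs (Finset.mem_insert_self _ _))) _)
        (ih ((Finset.subset_insert _ _).trans hs))
  have h4 := h3 c.toAdd.support fun j hj => not_not.1 fun h => Finsupp.mem_support_iff.1 hj (hc j h)
  rwa [show ∏ j ∈ c.toAdd.support, ee j ^ c.toAdd j = c from ph_ee_self c] at h4

theorem flB {G : Type} [CommGroup G] {ρ : G → ℝ} (h : SN ρ) (θ : AA →* G) (F : Finset G)
    (I : Set ℕ) (L : ℕ) (hL : 0 < L) {c : ℝ} (hc : c = 1 / (8 * (F.card : ℝ) ^ 2))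
    (hF : ∀ d : AA, (∀ j, j ∉ I → d.toAdd j = 0) → (∀ j, |d.toAdd j| ≤ 8 * F.card * L * 4 ^ j) →
      ∃ f ∈ F, ρ (f⁻¹ * θ d) < 1 / 2) {x : AA} (hx : 10 ≤ ρ (θ x)) :
    ∃ χ : AA →* Circle, c ≤ ‖(1 - χ x : ℂ)‖ ∧ ∀ g : AA, (∀ j, j ∉ I → g.toAdd j = 0) →
      c / 2 * ‖(χ g : ℂ) - 1‖ ≤ ρ (θ g) + nw (fun j => 2 / (L * 2 ^ j : ℕ)) g := by
  classical
  have hn : 0 < F.card := by
    obtain ⟨f, hf, -⟩ := hF 1 (fun _ _ => rfl) fun j => by simp; positivity
    exact Finset.card_pos.2 ⟨f, hf⟩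
  have hn' : (0 : ℝ) < F.card := by exact_mod_cast hn
  let K : ℕ → Set (Gam AA) := fun n => {f | c ≤ ‖(1 - gh f x : ℂ)‖ ∧ ∀ g : AA,
    (∀ j, j ∉ (Finset.range n).filter (· ∈ I) → g.toAdd j = 0) →
    c / 2 * ‖(gh f g : ℂ) - 1‖ ≤ ρ (θ g) + nw (fun j => 2 / (L * 2 ^ j : ℕ)) g}
  have hg := fun y : AA => gh_cont y
  have hK : ∀ q, IsClosed (K q) := by
    intro q
    simp only [K, setOf_and, setOf_forall]
    exact (isClosed_le continuous_const (by fun_prop)).inter
      (isClosed_iInter fun g => isClosed_iInter fun _ => isClosed_le (by fun_prop) continuous_const)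
  have hne : ∀ q, (K q).Nonempty := by
    intro q
    obtain ⟨ι, _, _, w, w1, w2⟩ := box ((Finset.range q).filter (· ∈ I)) (fun j => L * 2 ^ j)
      fun j => by positivity
    obtain ⟨J, _, _, v, v1, v2⟩ := box ((Finset.range q).filter (· ∈ I))
      (fun j => 8 * F.card * L * 4 ^ j) fun j => by positivity
    have h1 : ∀ j : ℕ, (L * 2 ^ j : ℤ) ≤ 8 * F.card * L * 4 ^ j := fun j => by
      have h2 : (2 : ℤ) ^ j ≤ 4 ^ j := pow_le_pow_left₀ (by norm_num) (by norm_num) j
      have h3 : (1 : ℤ) ≤ F.card := by exact_mod_cast hn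
      have h4 : (0 : ℤ) ≤ L * 4 ^ j := by positivity
      nlinarith [mul_le_mul_of_nonneg_left h2 (Int.natCast_nonneg L)]
    obtain ⟨i0, hi0⟩ := conc h θ F w fun i => hF _
      (fun j hj => (w1 i j).2.2 fun h => hj (Finset.mem_filter.1 h).2) fun j => by
        rw [abs_of_nonneg (w1 i j).1]; exact (w1 i j).2.1.trans (by push_cast; exact h1 j)
    obtain ⟨j0, hj0⟩ := conc h θ F v fun i => hF _
      (fun j hj => (v1 i j).2.2 fun h => hj (Finset.mem_filter.1 h).2) fun j => by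
        rw [abs_of_nonneg (v1 i j).1]; exact (v1 i j).2.1.trans (by push_cast; exact le_rfl)
    obtain ⟨χ, h2, h3⟩ := flA (h.comp θ) hn' hc hx (fun i => w i / w i0) (fun j => v j / v j0)
      hi0 hj0 fun i f hf => by
        have h2 := v2 (w i / w i0)⁻¹ (fun j hj => by simp [(w1 _ j).2.2 hj])
          (fun y => f (y / v j0)) fun _ => hf _
        simp only [div_eq_mul_inv, mul_right_comm _ _ (v j0)⁻¹] at h2 ⊢
        refine h2.trans ((nw_le (η := 1 / (4 * F.card)) (by positivity) fun j => ?_).trans_eq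
          (by field_simp; norm_num))
        have h3 : |((((w i * (w i0)⁻¹)⁻¹).toAdd j : ℤ) : ℝ)| ≤ L * 2 ^ j := by
          have h4 := w1 i j
          have h5 := w1 i0 j
          have : |((w i * (w i0)⁻¹)⁻¹).toAdd j| ≤ (L * 2 ^ j : ℕ) := by
            simp only [toAdd_inv, toAdd_mul, Finsupp.coe_neg, Finsupp.coe_add, Pi.neg_apply,
              Pi.add_apply, abs_le]
            constructor <;> linarith [h4.1, h4.2.1, h5.1, h5.2.1]
          exact_mod_cast this
        refine (mul_le_mul_of_nonneg_right h3 (by positivity)).trans_eq ?_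
        push_cast
        rw [show (4 : ℝ) ^ j = 2 ^ j * 2 ^ j by rw [← mul_pow]; norm_num, one_div_pow]
        field_simp
        norm_num
    refine ⟨⟨χ, map_mul χ⟩, h2, fun g hg => h3 g _ fun f hf => ?_⟩
    have h4 := w2 g hg (fun y => f (y / w i0)) fun _ => hf _
    simpa only [div_eq_mul_inv, mul_right_comm _ _ (w i0)⁻¹] using h4
  obtain ⟨f, hf⟩ := IsCompact.nonempty_iInter_of_sequence_nonempty_isCompact_isClosed K
    (fun n f hf => ⟨hf.1, fun g hg => hf.2 g fun j hj => hg j fun h => hj (by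
      simp only [Finset.mem_filter, Finset.mem_range] at h ⊢; exact ⟨by omega, h.2⟩)⟩) hne
    (hK 0).isCompact hK
  rw [mem_iInter] at hf
  refine ⟨gh f, (hf 0).1, fun g hg => (hf (g.toAdd.support.sup id + 1)).2 g fun j hj => ?_⟩
  by_contra h1
  exact hj (Finset.mem_filter.2 ⟨Finset.mem_range.2 (Nat.lt_succ_of_le
    (Finset.le_sup (f := id) (Finsupp.mem_support_iff.2 h1))), not_not.1 fun h => h1 (hg j h)⟩)

end Pool.Agent.H2.MG
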