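import Mathlib
import Pool.Agent.H2.MG8

set_option autoImplicit false

/-! A relative form of the Prodanov-Stoyanov theorem. -/

namespace Pool.Agent.H2.MG

open Filter Topology Set Pointwise

theorem top_split {c : AA} (hc : c ≠ 1) : ∃ n, c.toAdd n ≠ 0 ∧ ∃ d : AA,
    c = d * ee n ^ c.toAdd n ∧ (∀ j, n ≤ j → d.toAdd j = 0) ∧ ∀ j, |d.toAdd j| ≤ |c.toAdd j| := by
  have h1 : c.toAdd.support.Nonempty := Finsupp.support_nonempty_iff.2 hc
  let n := c.toAdd.support.max' h1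
  refine ⟨n, Finsupp.mem_support_iff.1 (Finset.max'_mem _ h1), .ofAdd (c.toAdd.erase n),
    Multiplicative.toAdd.injective (by simp [ee, Finsupp.erase_add_single]), fun j hj => ?_, fun j => ?_⟩
  · rcases hj.eq_or_lt with rfl | h
    · simp
    · rw [toAdd_ofAdd, Finsupp.erase_ne h.ne']
      exact Finsupp.notMem_support_iff.1 fun h' => not_le.2 h (Finset.le_max' _ _ h')
  · by_cases h : j = n
    · simp [h]
    · simp [Finsupp.erase_ne h]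

theorem small_mul (k : ℝ) {δ : ℝ} (hδ : 0 < δ) : ∃ η > 0, ∀ s, 0 ≤ s → s < η → |k| * s < δ := by
  refine ⟨δ / (|k| + 1), by positivity, fun s h0 hs => ?_⟩
  rw [lt_div_iff₀ (by positivity)] at hs
  nlinarith

theorem LL_not' {p : ℕ} (hp : p.Prime) {ρ : AA → ℝ} (hρ : SN ρ)
    (h0 : Tendsto (fun i => ρ (ee i)) atTop (𝓝 0)) : (dv p : Set AA) ∉ LL p ⊓ comap ρ (𝓝 0) := by
  intro h
  rw [LL, inf_right_comm] at h
  obtain ⟨S, hS, T, hT, h⟩ := mem_inf_iff_superset.1 h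
  haveI : Nonempty {q // ¬ p ∣ q} := ⟨⟨1, hp.not_dvd_one⟩⟩
  have hd : Directed (· ≥ ·) fun q : {q // ¬ p ∣ q} => 𝓟 (dv q : Set AA) := fun q q' =>
    ⟨⟨q * q', fun h => (hp.dvd_mul.1 h).elim q.2 q'.2⟩,
      principal_mono.2 fun c hc j => (Int.natCast_dvd_natCast.2 (dvd_mul_right _ _)).trans (hc j),
      principal_mono.2 fun c hc j => (Int.natCast_dvd_natCast.2 (dvd_mul_left _ _)).trans (hc j)⟩
  rw [mem_iInf_of_directed hd] at hT
  obtain ⟨⟨q, hq⟩, hT⟩ := hT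
  let 𝒰 := hyperfilter ℕ
  have h1 : Tendsto (fun z : ℕ × ℕ => (ee z.1 / ee z.2) ^ q) (↑𝒰 ×ˢ ↑𝒰)
      (((⨅ n, 𝓟 (tl n : Set AA)) ⊓ ⨅ χ : AA →* Circle, comap χ (𝓝 1)) ⊓ comap ρ (𝓝 0)) := by
    refine tendsto_inf.2 ⟨tendsto_inf.2 ⟨tendsto_iInf.2 fun n => tendsto_principal.2 ?_,
      tendsto_iInf.2 fun χ => tendsto_comap_iff.2 ?_⟩, tendsto_comap_iff.2 ?_⟩
    · have h2 : ∀ᶠ i in (𝒰 : Filter ℕ), ee i ∈ tl n := by
        filter_upwards [Nat.hyperfilter_le_atTop (eventually_ge_atTop n)] with i hi j hj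
        exact Finsupp.single_eq_of_ne (by omega)
      exact (h2.prod_mk h2).mono fun z hz => (tl n).pow_mem ((tl n).div_mem hz.1 hz.2) q
    · have h2 : Tendsto (fun i => χ (ee i)) 𝒰 (𝓝 (𝒰.map fun i => χ (ee i)).lim) :=
        (𝒰.map fun i => χ (ee i)).le_nhds_lim
      simpa [Function.comp_def] using ((h2.comp tendsto_fst).div' (h2.comp tendsto_snd)).pow q
    · have h2 := h0.mono_left Nat.hyperfilter_le_atTop
      refine squeeze_zero (fun _ => hρ.nonneg _) (fun z => (hρ.pow _ _).trans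
        (mul_le_mul_of_nonneg_left (by simpa [div_eq_mul_inv, hρ.inv] using hρ.mul (ee z.1) (ee z.2)⁻¹)
        (Nat.cast_nonneg q))) (by
          simpa using ((h2.comp tendsto_fst).add (h2.comp tendsto_snd)).const_mul (q : ℝ))
  obtain ⟨R, hR, h2⟩ := mem_prod_self_iff.1 (h1 hS)
  obtain ⟨i, hi, j, hj, hij⟩ := (show R.Infinite from fun h => h.notMem_hyperfilter hR).nontrivial
  have h3 := h ⟨h2 (show (i, j) ∈ R ×ˢ R from ⟨hi, hj⟩), hT fun l => by simp⟩ i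
  simp [ee, hij] at h3
  exact hq (Int.natCast_dvd_natCast.1 h3)

section
variable {G : Type} [CommGroup G]

theorem mkrec (R : ℕ → G → Prop) (Q : ℕ → G → G → Prop)
    (h : ∀ n, ∀ F : Set G, F.Finite → ∃ x, R n x ∧ ∀ f ∈ F, Q n f x) :
    ∃ a : ℕ → G, (∀ n, R n (a n)) ∧ ∀ (n : ℕ) (c : AA), (∀ j, |c.toAdd j| ≤ n) →
      (∀ j, n ≤ j → c.toAdd j = 0) → Q n (ph a c) (a n) := by
  obtain ⟨a, ha⟩ := exists_rec (fun n (f : Fin n → G) x => R n x ∧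
    ∀ u : Fin n → ℤ, (∀ j, |u j| ≤ n) → Q n (∏ j, f j ^ u j) x) fun n f => by
    obtain ⟨x, hx⟩ := h n _ ((finite_Icc (fun j : Fin n => -(n : ℤ)) fun j => (n : ℤ)).image
      fun u => ∏ j, f j ^ u j)
    exact ⟨x, hx.1, fun u hu => hx.2 _
      ⟨u, ⟨fun j => (abs_le.1 (hu j)).1, fun j => (abs_le.1 (hu j)).2⟩, rfl⟩⟩
  refine ⟨a, fun n => (ha n).1, fun n c hc h0 => ?_⟩
  have h2 : ph a c = ∏ j ∈ Finset.range n, a j ^ c.toAdd j :=
    Finsupp.prod_of_support_subset _ (fun j hj => Finset.mem_range.2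
      (not_le.1 fun h => Finsupp.mem_support_iff.1 hj (h0 j h))) _ fun _ _ => zpow_zero _
  rw [h2, Finset.prod_range]
  exact (ha n).2 _ fun j => hc j

theorem cover' {ρ : G → ℝ} (r : SN ρ) {ι : Type} (I : Finset ι) (A : ι → Set G) {ε : ℝ}
    (hε : 0 < ε) (h : ∀ x, ρ x < ε → ∃ i ∈ I, x ∈ A i) : ∃ i ∈ I, ∃ δ > 0, ∃ E : Finset G,
      ∀ x, ρ x < δ → ∃ e ∈ E, ∃ y ∈ A i, ∃ z ∈ A i, x = e * (y / z) := by
  classical
  by_contra hn
  push Not at hn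
  have key : ∀ K : Finset ι, K ⊆ I → ∀ δ > 0, ∃ S : Finset G, (∀ s ∈ S, ρ s < δ) ∧
      ∀ t, ∃ s ∈ S, ∀ i ∈ K, t * s ∉ A i := by
    intro K
    induction K using Finset.induction_on with
    | empty => exact fun _ δ hδ => ⟨{1}, by simpa [r.one] using hδ, fun t => ⟨1, by simp⟩⟩
    | insert i K _ ih =>
      intro hK δ hδ
      obtain ⟨S, hS0, hS⟩ := ih ((Finset.subset_insert _ _).trans hK) _ (half_pos hδ)
      obtain ⟨x, hx⟩ := exists_rec (fun n (f : Fin n → G) x => ρ x < δ / 2 ∧ ∀ j, ∀ y ∈ A i,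
        ∀ z ∈ A i, x ≠ f j * (y / z)) fun n f => by
        obtain ⟨x, hx⟩ := hn i (hK (Finset.mem_insert_self _ _)) _ (half_pos hδ)
          (Finset.univ.image f)
        exact ⟨x, hx.1, fun j => hx.2 _ (Finset.mem_image_of_mem _ (Finset.mem_univ j))⟩
      refine ⟨Finset.image₂ (· * ·) ((Finset.range (S.card + 1)).image x) S, fun s hs => ?_,
        fun t => ?_⟩
      · obtain ⟨_, h1, s, h2, rfl⟩ := Finset.mem_image₂.1 hs
        obtain ⟨l, -, rfl⟩ := Finset.mem_image.1 h1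
        linarith [r.mul (x l) s, (hx l).1, hS0 s h2]
      choose s hs1 hs2 using fun l => hS (t * x l)
      by_contra h1
      push Not at h1
      have h2 : ∀ l ∈ Finset.range (S.card + 1), t * x l * s l ∈ A i := fun l hl => by
        obtain ⟨i', hi', h3⟩ := h1 _ (Finset.mem_image₂_of_mem (Finset.mem_image_of_mem x hl) (hs1 l))
        rw [← mul_assoc] at h3
        rcases Finset.mem_insert.1 hi' with rfl | hi'
        exacts [h3, absurd h3 (hs2 l _ hi')]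
      obtain ⟨l, hl, l', hl', h3, h4⟩ := Finset.exists_ne_map_eq_of_card_lt_of_maps_to
        (s := Finset.range (S.card + 1)) (t := S) (by simp) (f := s) fun l _ => hs1 l
      rcases lt_or_gt_of_ne h3 with h5 | h5
      · exact (hx l').2 ⟨l, h5⟩ _ (h2 l' hl') _ (h2 l hl) (by simp [h4])
      · exact (hx l).2 ⟨l', h5⟩ _ (h2 l hl) _ (h2 l' hl') (by simp [h4])
  obtain ⟨S, hS0, hS⟩ := key I subset_rfl ε hε
  obtain ⟨s, h1, hs⟩ := hS 1
  obtain ⟨i, hi, h⟩ := h s (hS0 s h1)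
  exact hs i hi (by rwa [one_mul])

/-- small `m`-th powers are covered by finitely many translates of `U` -/
def DM (ρ : G → ℝ) (m : ℤ) (U : Set G) : Prop :=
  ∃ ε > 0, ∃ F : Finset G, ∀ x, ρ x < ε → ∃ f ∈ F, f⁻¹ * x ^ m ∈ U

variable [TopologicalSpace G]

/-- small `m`-th powers are precompact modulo small `m'`-th powers -/
def CC (ρ : G → ℝ) (m m' : ℤ) : Prop :=
  ∀ U ∈ 𝓝 (1 : G), ∀ δ > 0, DM ρ m {y | ∃ g, ρ g < δ ∧ y * g ^ m' ∈ U}

variable [IsTopologicalGroup G] {ρ : G → ℝ}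

omit [IsTopologicalGroup G] in
theorem CC.refl (r : SN ρ) (m : ℤ) : CC ρ m m := fun U hU δ hδ =>
  ⟨δ, hδ, {1}, fun x hx => ⟨1, by simp, x⁻¹, by rwa [r.inv], by simpa using mem_of_mem_nhds hU⟩⟩

theorem CC.mul {m m' : ℤ} (h : CC ρ m m') (k : ℤ) : CC ρ (m * k) (m' * k) := by
  classical
  intro U hU δ hδ
  obtain ⟨ε, hε, F, hF⟩ := h ((· ^ k) ⁻¹' U)
    ((continuous_zpow k).continuousAt.preimage_mem_nhds (by rwa [one_zpow])) δ hδ
  refine ⟨ε, hε, F.image (· ^ k), fun x hx => ?_⟩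
  obtain ⟨f, hf, g, h1, h2⟩ := hF x hx
  exact ⟨_, Finset.mem_image_of_mem _ hf, g, h1, by simpa [mul_zpow, zpow_mul] using h2⟩

theorem CC.dm (r : SN ρ) {m m' : ℤ} (h : CC ρ m m') {W U T : Set G} (hW : W ∈ 𝓝 (1 : G))
    (h' : DM ρ m' T) (hU : ∀ w ∈ W, ∀ t ∈ T, w * t ∈ U) : DM ρ m U := by
  classical
  obtain ⟨δ, hδ, F', hF'⟩ := h'
  obtain ⟨ε, hε, F, hF⟩ := h W hW δ hδ
  refine ⟨ε, hε, F * F', fun x hx => ?_⟩
  obtain ⟨f, hf, g, h1, h2⟩ := hF x hx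
  obtain ⟨f', hf', h3⟩ := hF' g⁻¹ (by rwa [r.inv])
  refine ⟨_, Finset.mul_mem_mul hf hf', mem_of_eq_of_mem (Additive.ofMul.injective ?_)
    (hU _ h2 _ h3)⟩
  simp only [ofMul_mul, ofMul_inv, ofMul_zpow]
  module

theorem CC.trans (r : SN ρ) {m m' m'' : ℤ} (h : CC ρ m m') (h' : CC ρ m' m'') : CC ρ m m'' := by
  intro U hU δ hδ
  obtain ⟨W, hW, hWU⟩ := exists_nhds_one_split hU
  exact h.dm r hW (h' W hW δ hδ) fun w hw t ⟨g, h1, h2⟩ =>
    ⟨g, h1, by rw [mul_assoc]; exact hWU _ hw _ h2⟩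

theorem CC.cop (r : SN ρ) {p : ℕ} (hp : p.Prime) {u k : ℤ} (hu : ¬ (p : ℤ) ∣ u)
    (h : CC ρ (u * k) (p * k)) : CC ρ k (p * k) := by
  obtain ⟨v, w, hw⟩ := (Nat.prime_iff_prime_int.1 hp).irreducible.coprime_iff_not_dvd.2 hu
  intro U hU δ hδ
  obtain ⟨η, hη, h1⟩ := small_mul w (half_pos hδ)
  obtain ⟨η', hη', h2⟩ := small_mul ((-v : ℤ) : ℝ) (half_pos hδ)
  obtain ⟨ε, hε, F, hF⟩ := h.mul w U hU η hη
  refine ⟨min ε η', lt_min hε hη', F, fun x hx => ?_⟩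
  obtain ⟨f, hf, g, h3, h4⟩ := hF x (hx.trans_le (min_le_left _ _))
  refine ⟨f, hf, g ^ w * x ^ (-v), ?_, mem_of_eq_of_mem (Additive.ofMul.injective ?_) h4⟩
  · linarith [r.mul (g ^ w) (x ^ (-v)), r.zpow g w, r.zpow x (-v), h1 _ (r.nonneg g) h3,
      h2 _ (r.nonneg x) (hx.trans_le (min_le_right _ _))]
  · simp only [ofMul_mul, ofMul_inv, ofMul_zpow]
    have : u * k * w = k - v * (p * k) := by linear_combination k * hw
    rw [this]
    module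

theorem disc' [T2Space G] {V : Set G} (hm : LM G V) {A : Type} [Group A] (φ : A →* G) {L : Filter A}
    (hL : GF L) (h0 : ∃ W ∈ 𝓝 (1 : G), ∃ A ∈ map φ L, W * A ⊆ V)
    (h1 : ∀ c : A, c ≠ 1 → {c}ᶜ ∈ L) {S : Set A} (hS : S ∈ L) {U : Set G}
    (hU : U ∈ 𝓝 (1 : G)) (h2 : ∀ c ∈ S, φ c ∈ U → c = 1) : {1} ∈ L := by
  refine mem_of_superset (inter_mem hS (mem_map.1 (coarsen (SIN.comm G) hm (hL.map_comm φ)
    (fun x hx => ?_) h0 hU))) fun c hc => h2 c hc.1 hc.2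
  obtain ⟨T, hT, hTS⟩ := mem_prod_self_iff.1 ((hL.mul.comp (tendsto_id.prodMap hL.inv)) hS)
  obtain ⟨W, hW, h⟩ := exists_div hU x
  by_contra h3
  push Not at h3
  obtain ⟨_, h4, c, hc, rfl⟩ := mem_closure_iff_nhds.1 (h3 _ (image_mem_map hT)) _
    (inter_mem hW (compl_singleton_mem_nhds hx))
  obtain ⟨_, h5, d, hd, rfl⟩ := mem_closure_iff_nhds.1 (h3 _ (image_mem_map (inter_mem hT
    (h1 c fun h => h4.2 (by rw [h, map_one]; rfl))))) _ hW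
  exact hd.2 (mul_inv_eq_one.1 (h2 _ (hTS (show (d, c) ∈ T ×ˢ T from ⟨hd.1, hc⟩))
    (by simpa [div_eq_mul_inv] using h _ h5 _ h4.1)))

theorem case1' [T2Space G] (r : SN ρ) {V : Set G} (hm : LM G V)
    (hV : ∃ W ∈ 𝓝 (1 : G), W * {x | ρ x < 1} ⊆ V) {U : Set G} (hU : U ∈ 𝓝 (1 : G)) :
    ∃ m : ℕ, m ≠ 0 ∧ DM ρ m U := by
  classical
  by_contra hn
  simp only [DM] at hn
  push Not at hn
  obtain ⟨W, hW, hWU⟩ := exists_div hU 1
  obtain ⟨a, ha0, ha⟩ := mkrec (fun n x => ρ x < 1 / (n + 1))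
    (fun n f x => ∀ k : ℤ, k ≠ 0 → |k| ≤ n → f * x ^ k ∉ W) fun n F hF => by
    by_contra h
    push Not at h
    obtain ⟨⟨k, f⟩, hi, δ, hδ, E, hE⟩ := cover' r
      (((Finset.Icc (-(n : ℤ)) n).erase 0) ×ˢ hF.toFinset)
      (fun i => {x : G | i.2 * x ^ i.1 ∈ W}) (show (0 : ℝ) < 1 / (n + 1) by positivity) fun x hx => by
      obtain ⟨f, h3, k, h1, h2, h4⟩ := h x hx
      exact ⟨(k, f), by simpa [h1, h3, abs_le] using h2, h4⟩
    have hk : k ≠ 0 := (Finset.mem_erase.1 (Finset.mem_product.1 hi).1).1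
    obtain ⟨x, hx0, hx⟩ := hn k.natAbs (by omega) δ hδ (E.image (· ^ k))
    obtain ⟨e, he, y, hy, z, hz, h1⟩ := hE (x ^ k.sign) (by
      rcases lt_or_gt_of_ne hk with h | h
      · simpa [Int.sign_eq_neg_one_of_neg h, r.inv] using hx0
      · simpa [Int.sign_eq_one_of_pos h] using hx0)
    refine hx _ (Finset.mem_image_of_mem _ he) ?_
    rw [← Int.sign_mul_self_eq_natAbs, zpow_mul, h1]
    simpa [mul_zpow, div_zpow] using hWU _ hy _ hz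
  let S : ℕ → Set AA := fun n => {c | ∀ j, |c.toAdd j| * 2 ^ n ≤ j}
  have hS : Antitone S := antitone_nat_of_succ_le fun n c hc j => by
    have := hc j
    rw [pow_succ] at this
    nlinarith [abs_nonneg (c.toAdd j), pow_pos (zero_lt_two (α := ℤ)) n]
  have hb : (⨅ n, 𝓟 (S n)).HasBasis (fun _ => True) S := hasBasis_iInf_principal hS.directed_ge
  have hg : GF (⨅ n, 𝓟 (S n)) := ⟨le_iInf fun n => by simp [S],
    ((hb.prod_self).tendsto_iff hb).2 fun n _ => ⟨n + 1, trivial, fun z hz j => by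
      have h1 := hz.1 j
      have h2 := hz.2 j
      have h3 := abs_add_le (z.1.toAdd j) (z.2.toAdd j)
      rw [pow_succ] at h1 h2
      show |z.1.toAdd j + z.2.toAdd j| * 2 ^ n ≤ j
      nlinarith [pow_pos (zero_lt_two (α := ℤ)) n]⟩,
    (hb.tendsto_iff hb).2 fun n _ => ⟨n, trivial, fun c hc j => by simpa using hc j⟩,
    fun g => by simp only [mul_inv_cancel_comm]; exact tendsto_id⟩
  obtain ⟨W', hW', hWV⟩ := hV
  have h1 := disc' hm (ph a) (hg.inf (r.comp (ph a)).gf) ⟨W', hW', _, mem_map.2 (mem_inf_of_right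
    (preimage_mem_comap (gt_mem_nhds one_pos))), hWV⟩ (fun c hc => by
      obtain ⟨j, hj⟩ := DFunLike.ne_iff.1 (show c.toAdd ≠ 0 from hc)
      refine mem_inf_of_left (hb.mem_iff.2 ⟨j, trivial, fun d hd h => ?_⟩)
      have h1 := hd j
      rw [show d = c from h] at h1
      have h2 : (j : ℤ) < 2 ^ j := by exact_mod_cast Nat.lt_two_pow_self
      have h3 : 1 ≤ |c.toAdd j| := abs_pos.2 hj
      nlinarith) (mem_inf_of_left (hb.mem_of_mem (i := 0) trivial)) hW fun c hc h => by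
      by_contra h0
      obtain ⟨n, h1, d, h2, h3, h4⟩ := top_split h0
      have h5 : ∀ j, |c.toAdd j| ≤ j := by simpa [S] using hc
      refine ha n d (fun j => ?_) h3 _ h1 (h5 n) (by rwa [h2, map_mul, map_zpow, ph_ee] at h)
      rcases le_or_gt n j with h6 | h6
      · simp [h3 j h6]
      · exact (h4 j).trans ((h5 j).trans (by exact_mod_cast h6.le))
  have h2 : Tendsto ee atTop ((⨅ n, 𝓟 (S n)) ⊓ comap (fun x => ρ (ph a x)) (𝓝 0)) := by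
    refine tendsto_inf.2 ⟨tendsto_iInf.2 fun n => tendsto_principal.2 ?_, tendsto_comap_iff.2 ?_⟩
    · filter_upwards [eventually_ge_atTop (2 ^ n)] with i hi j
      by_cases h : i = j
      · simpa [ee, ← h] using (by exact_mod_cast hi : (2 : ℤ) ^ n ≤ i)
      · simp [ee, h]
    · exact squeeze_zero (fun _ => r.nonneg _) (fun i => by simpa [ph_ee] using (ha0 i).le)
        tendsto_one_div_add_atTop_nhds_zero_nat
  obtain ⟨i, hi⟩ := (h2.eventually h1).exists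
  have h3 : ee i = 1 := hi
  simp [ee] at h3

theorem mkseq2 (r : SN ρ) (p : ℕ) : ∃ a : ℕ → G, (∀ n, ρ (a n) < (1 / 16) ^ n) ∧
    ∀ (m : ℤ) (k : ℕ), ¬ CC ρ m (p ^ k) → ∃ W ∈ 𝓝 (1 : G), ∃ δ > 0, ∀ n : ℕ, |m| ≤ n → k ≤ n →
      ∀ c : AA, (∀ j, |c.toAdd j| ≤ n) → (∀ j, n ≤ j → c.toAdd j = 0) → ∀ g, ρ g < δ →
        ph a c * a n ^ m * g ^ (p ^ k : ℤ) ∉ W := by
  classical
  have h1 : ∀ (m : ℤ) (k : ℕ), ¬ CC ρ m (p ^ k) → ∃ W ∈ 𝓝 (1 : G), ∃ δ > 0, ∀ f : G, ∀ ε > 0,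
      ∀ E : Finset G, ∃ x, ρ x < ε ∧ ∀ e ∈ E,
        ∀ y ∈ {x | ∃ g, ρ g < δ ∧ f * x ^ m * g ^ (p ^ k : ℤ) ∈ W},
        ∀ z ∈ {x | ∃ g, ρ g < δ ∧ f * x ^ m * g ^ (p ^ k : ℤ) ∈ W}, x ≠ e * (y / z) := by
    intro m k h
    simp only [CC, DM] at h
    push Not at h
    obtain ⟨U, hU, δ, hδ, h⟩ := h
    obtain ⟨W, hW, hWU⟩ := exists_div hU 1
    refine ⟨W, hW, δ / 2, half_pos hδ, fun f ε hε E => ?_⟩
    obtain ⟨x, h1, h2⟩ := h ε hε (E.image (· ^ m))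
    refine ⟨x, h1, ?_⟩
    rintro e he y ⟨g, g1, g2⟩ z ⟨g', g3, g4⟩ rfl
    refine h2 _ (Finset.mem_image_of_mem _ he) ⟨g * g'⁻¹, by linarith [r.mul g g'⁻¹, r.inv g'],
      mem_of_eq_of_mem (Additive.ofMul.injective ?_) (hWU _ g2 _ g4)⟩
    simp only [ofMul_mul, ofMul_inv, ofMul_zpow, ofMul_div]
    module
  choose! W hW δ hδ h1 using h1
  obtain ⟨a, h2, h3⟩ := mkrec (fun n x => ρ x < (1 / 16) ^ n)
    (fun n f x => ∀ (m : ℤ) (k : ℕ), ¬ CC ρ m (p ^ k) → |m| ≤ n → k ≤ n → ∀ g, ρ g < δ m k →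
      f * x ^ m * g ^ (p ^ k : ℤ) ∉ W m k) fun n F hF => by
    by_contra h
    push Not at h
    obtain ⟨⟨⟨m, k⟩, f⟩, hi, η, hη, E, hE⟩ := cover' r
      (((Finset.Icc (-(n : ℤ)) n ×ˢ Finset.Iic n).filter fun q => ¬ CC ρ q.1 (p ^ q.2)) ×ˢ
        hF.toFinset)
      (fun i => {x | ∃ g, ρ g < δ i.1.1 i.1.2 ∧ i.2 * x ^ i.1.1 * g ^ (p ^ i.1.2 : ℤ) ∈
        W i.1.1 i.1.2}) (show (0 : ℝ) < (1 / 16) ^ n by positivity) fun x hx => by
      obtain ⟨f, h3, m, k, h4, h5, h6, h7⟩ := h x hx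
      exact ⟨((m, k), f), by simpa [h3, h4, h6, abs_le] using h5, h7⟩
    obtain ⟨x, h4, h5⟩ := h1 m k (Finset.mem_filter.1 (Finset.mem_product.1 hi).1).2 f η hη E
    obtain ⟨e, he, y, hy, z, hz, h6⟩ := hE x h4
    exact h5 e he y hy z hz h6
  exact ⟨a, h2, fun m k h => ⟨_, hW m k h, _, hδ m k h, fun n h4 h5 c h6 h7 =>
    h3 n c h6 h7 m k h h4 h5⟩⟩

omit [TopologicalSpace G] [IsTopologicalGroup G] in
theorem GF.exd {L : Filter G} (hL : GF L) {T : Set G} (hT : T ∈ L) :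
    ∃ T' ∈ L, ∀ c ∈ T', ∀ d ∈ T', c * d⁻¹ ∈ T := by
  obtain ⟨T', hT', hTT⟩ := mem_prod_self_iff.1 ((hL.mul.comp (tendsto_id.prodMap hL.inv)) hT)
  exact ⟨T', hT', fun c hc d hd => hTT (show (c, d) ∈ T' ×ˢ T' from ⟨hc, hd⟩)⟩

theorem near' {L : Filter AA} (hL : GF L) (ht : ∀ n, (tl n : Set AA) ∈ L) {m : ℕ} (φ : AA →* G)
    {U : Set G} (hU : U ∈ 𝓝 (1 : G)) {T : Set AA} (hT : T ∈ L)
    (h1 : ∀ c ∈ T, φ c ∈ U → c ∈ dv m) {x : G} (hx : ∀ S ∈ L, x ∈ closure (φ '' S)) :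
    ∀ S ∈ L, x ∈ closure (φ '' (S ∩ dv m)) := by
  obtain ⟨W, hW, h⟩ := exists_div hU x
  obtain ⟨T', hT', hTT⟩ := hL.exd hT
  intro S hS
  rw [mem_closure_iff_nhds]
  intro V hV
  obtain ⟨_, h2, c, hc, rfl⟩ := mem_closure_iff_nhds.1 (hx _ (inter_mem hS hT')) _ (inter_mem hV hW)
  refine ⟨_, h2.1, c, ⟨hc.1, fun j => ?_⟩, rfl⟩
  obtain ⟨_, h3, d, hd, rfl⟩ := mem_closure_iff_nhds.1 (hx _ (inter_mem (ht (j + 1)) hT')) _ hW
  simpa [hd.1 j (Nat.lt_succ_self j)] using h1 (c * d⁻¹)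
    (hTT _ hc.2 _ hd.2)
    (by rw [← div_eq_mul_inv, map_div]; exact h _ h2.2 _ h3) j

end

end Pool.Agent.H2.MG
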