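import Mathlib
import Pool.Agent.H2.MG9

set_option autoImplicit false

/-! Locally minimal abelian groups are precompact relative to a continuous seminorm. -/

namespace Pool.Agent.H2.MG

open Filter Topology Set Pointwise

section
variable {G : Type} [CommGroup G]

/-- the auxiliary filter -/
noncomputable def LW (p : ℕ) : Filter AA := LL p ⊓ comap (nw fun j => (1 / 2) ^ j) (𝓝 0)

theorem LW_sn : SN (nw fun j => (1 / 2) ^ j) := nw_sn fun _ => by positivity

theorem LW_gf (p : ℕ) : GF (LW p) := (LL_gf p).inf LW_sn.gf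

theorem LW_nw (p : ℕ) {η : ℝ} (h : 0 < η) : {c | nw (fun j => (1 / 2) ^ j) c < η} ∈ LW p :=
  mem_inf_of_right (preimage_mem_comap (gt_mem_nhds h))

theorem ph_nw {ρ : G → ℝ} (r : SN ρ) {a : ℕ → G} (ha : ∀ n, ρ (a n) < (1 / 16) ^ n) {c d : AA}
    (h : ∀ j, |c.toAdd j| ≤ |d.toAdd j|) : ρ (ph a c) ≤ nw (fun j => (1 / 2) ^ j) d :=
  (r.ph_le a c).trans (nw_mono (fun _ => r.nonneg _) (fun j => (ha j).le.trans
    (pow_le_pow_left₀ (by norm_num) (by norm_num) j)) h)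

theorem le_pw (c : AA) {m : ℕ} (hm : m ≠ 0) (j : ℕ) : |c.toAdd j| ≤ |(c ^ m).toAdd j| := by
  have h : (1 : ℤ) ≤ m := by exact_mod_cast Nat.pos_of_ne_zero hm
  simpa [abs_mul] using le_mul_of_one_le_left (abs_nonneg _) h

theorem ph_congr {a b : ℕ → G} {c : AA} (h : ∀ j, c.toAdd j ≠ 0 → a j = b j) : ph a c = ph b c :=
  Finsupp.prod_congr fun j hj => by rw [h j (Finsupp.mem_support_iff.1 hj)]

theorem ph_pow (a : ℕ → G) (m : ℕ) (c : AA) : ph (fun j => a j ^ m) c = ph a c ^ m :=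
  DFunLike.congr_fun (AA_ext (f := ph fun j => a j ^ m) (g := (powMonoidHom m).comp (ph a))
    fun j => by simp [ph_ee]) c

variable [TopologicalSpace G] [IsTopologicalGroup G] {ρ : G → ℝ}

theorem ind (r : SN ρ) {p : ℕ} (hp : p.Prime) {a : ℕ → G} (ha : ∀ n, ρ (a n) < (1 / 16) ^ n)
    (h : ∀ (m : ℤ) (k : ℕ), ¬ CC ρ m (p ^ k) → ∃ W ∈ 𝓝 (1 : G), ∃ δ > 0, ∀ n : ℕ, |m| ≤ n → k ≤ n →
      ∀ c : AA, (∀ j, |c.toAdd j| ≤ n) → (∀ j, n ≤ j → c.toAdd j = 0) → ∀ g, ρ g < δ →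
        ph a c * a n ^ m * g ^ (p ^ k : ℤ) ∉ W) (K : ℕ) :
    (∀ i < K, ¬ CC ρ (p ^ i) (p ^ (i + 1))) →
      ∃ W ∈ 𝓝 (1 : G), ∃ S ∈ LW p, ∀ c ∈ S, ph a c ∈ W → c ∈ dv (p ^ K) := by
  induction K with
  | zero => exact fun _ => ⟨univ, univ_mem, univ, univ_mem, fun c _ _ j => by simp⟩
  | succ K ih =>
    intro hK
    obtain ⟨W, hW, S, hS, ih⟩ := ih fun i hi => hK i (by omega)
    choose! W' hW' δ hδ h using fun m => h m (K + 1)
    have hP : (0 : ℤ) < p ^ (K + 1) := pow_pos (by exact_mod_cast hp.pos) _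
    let M := {m ∈ Ioo (0 : ℤ) (p ^ (K + 1)) | ¬ CC ρ m (p ^ (K + 1))}
    have hM : M.Finite := (finite_Ioo _ _).subset fun _ h => h.1
    refine ⟨W ∩ ⋂ m ∈ M, W' m, inter_mem hW ((biInter_mem hM).2 fun m hm => hW' m hm.2),
      S ∩ tl (p ^ (K + 1)) ∩ ⋂ m ∈ M, {c | nw (fun j => (1 / 2) ^ j) c < δ m},
      inter_mem (inter_mem hS (mem_inf_of_left (LL_tl _ _)))
        ((biInter_mem hM).2 fun m hm => LW_nw p (hδ m hm.2)), fun c hc h1 => ?_⟩
    have h2 := ih c hc.1.1 h1.1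
    let R : AA := .ofAdd (c.toAdd.mapRange (· % p ^ (K + 1)) (by simp))
    let e : AA := .ofAdd (c.toAdd.mapRange (· / p ^ (K + 1)) (by simp))
    have hd : c = R * e ^ (p ^ (K + 1) : ℤ) := Multiplicative.toAdd.injective (by
      ext j; simp [R, e, Int.emod_add_mul_ediv])
    by_contra h3
    obtain ⟨n, h4, d, h5, h6, h7⟩ := top_split (c := R) fun h0 => h3 fun j => by
      have := DFunLike.congr_fun (congrArg Multiplicative.toAdd h0) j
      exact_mod_cast Int.dvd_of_emod_eq_zero this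
    have h8 : ∀ j, 0 ≤ R.toAdd j ∧ R.toAdd j < p ^ (K + 1) := fun j =>
      ⟨Int.emod_nonneg _ hP.ne', Int.emod_lt_of_pos _ hP⟩
    have h9 : p ^ (K + 1) ≤ n := not_lt.1 fun h => h4 (by simp [R, hc.1.2 n h])
    have h9' : (p : ℤ) ^ (K + 1) ≤ n := by exact_mod_cast h9
    have h10 : R.toAdd n ∈ M := by
      refine ⟨⟨(h8 n).1.lt_of_ne' h4, (h8 n).2⟩, fun h => ?_⟩
      obtain ⟨u, hu⟩ : (p : ℤ) ^ K ∣ R.toAdd n :=
        (EuclideanDomain.dvd_mod_iff (pow_dvd_pow _ K.le_succ)).2 (by exact_mod_cast h2 n)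
      refine hK K K.lt_succ_self ?_
      rw [pow_succ'] at h ⊢
      refine CC.cop r hp (u := u) (fun hu' => ?_) (by rwa [mul_comm u, ← hu])
      exact (h8 n).2.not_ge (Int.le_of_dvd ((h8 n).1.lt_of_ne' h4)
        (by rw [hu, pow_succ]; exact mul_dvd_mul_left _ hu'))
    refine h _ h10.2 n (by rw [abs_of_nonneg (h8 n).1]; linarith [(h8 n).2])
      ((Nat.lt_pow_self hp.one_lt).le.trans h9) d (fun j => (h7 j).trans
        (by rw [abs_of_nonneg (h8 j).1]; linarith [(h8 j).2])) h6 (ph a e)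
      ((ph_nw r ha fun j => Int.abs_ediv_le_abs _ _).trans_lt (mem_iInter₂.1 hc.2 _ h10)) ?_
    have h11 := mem_iInter₂.1 h1.2 _ h10
    have h12 : ph a R = ph a d * a n ^ R.toAdd n :=
      (congrArg (ph a) h5).trans (by rw [map_mul, map_zpow, ph_ee])
    rwa [hd, map_mul, map_zpow, h12] at h11

theorem hsep (r : SN ρ) {p m : ℕ} (hm : m ≠ 0) {a : ℕ → G} (ha : ∀ n, ρ (a n) < (1 / 16) ^ n)
    {σ : G → ℝ} (s : SN σ) (hs : Tendsto σ (𝓝 1) (𝓝 0)) (hd : DM ρ m {y | σ y ≤ 1 / 4}) {x : G}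
    (hx : ∀ S ∈ LW p, x ∈ closure (ph a '' (S ∩ dv m))) : σ x < 10 := by
  obtain ⟨ε, hε, F, hF⟩ := hd
  by_contra h10
  have hn : (0 : ℝ) < F.card := by
    obtain ⟨f, hf, -⟩ := hF 1 (by rwa [r.one])
    exact_mod_cast Finset.card_pos.2 ⟨f, hf⟩
  obtain ⟨c, hc⟩ : ∃ c : ℝ, c = 1 / (8 * (F.card : ℝ) ^ 2) := ⟨_, rfl⟩
  have hc0 : 0 < c := by rw [hc]; positivity
  obtain ⟨L, hL⟩ := exists_nat_gt (32 / c ^ 2 + 2)
  have hL0 : (2 : ℝ) < L := by linarith [show 0 < 32 / c ^ 2 by positivity]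
  have hL1 : 2 / (L : ℝ) ≤ c ^ 2 / 16 := by
    rw [div_le_iff₀ (by linarith)]
    have : 32 / c ^ 2 < L := by linarith
    rw [div_lt_iff₀ (by positivity)] at this
    linarith
  obtain ⟨N, hN⟩ := exists_pow_lt_of_lt_one
    (show 0 < ε / (32 * F.card * L) by positivity) (show (1 / 2 : ℝ) < 1 by norm_num)
  have hcs := s.cont hs
  let b : ℕ → G := fun j => if j = 0 then x else a j ^ m
  have hb : ∀ d : AA, d.toAdd 0 = 0 → ph b d = ph a d ^ m := fun d h => by
    rw [← ph_pow]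
    exact ph_congr fun j hj => if_neg fun h0 : j = 0 => hj (h0 ▸ h)
  have hb0 : ph b (ee 0) = x := ph_ee _ _
  obtain ⟨χ, h1, h2⟩ := flB s (ph b) F {j | j = 0 ∨ N < j} L (by exact_mod_cast two_pos.trans hL0) hc
    (fun d h1 h2 => by
      let d' : AA := .ofAdd (d.toAdd.erase 0)
      have h3 : d = d' * ee 0 ^ d.toAdd 0 :=
        Multiplicative.toAdd.injective (by simp [d', ee, Finsupp.erase_add_single])
      have h4 : ρ (ph a d') ≤ ε / 2 := by
        refine (r.ph_le a d').trans ((nw_le (η := ε / 4) (by positivity) fun j => ?_).trans_eq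
          (by ring))
        by_cases hj : N < j
        · have h5 : |(d'.toAdd j : ℝ)| ≤ 8 * F.card * L * 4 ^ j := by
            rw [toAdd_ofAdd, Finsupp.erase_ne (by omega)]
            exact_mod_cast h2 j
          have h6 : (1 / 2 : ℝ) ^ j ≤ ε / (32 * F.card * L) :=
            (pow_le_pow_of_le_one (by norm_num) (by norm_num) hj.le).trans hN.le
          have h9 : (0 : ℝ) ≤ 8 * F.card * L := mul_nonneg (by linarith) (Nat.cast_nonneg _)
          refine (mul_le_mul h5 (ha j).le (r.nonneg _) (mul_nonneg h9 (by positivity))).trans ?_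
          have h7 : (4 * (1 / 16) : ℝ) = 1 / 2 * (1 / 2) := by ring
          have h8 : ∀ u v : ℝ, 0 < u → 0 < v → 8 * u * v * (ε / (32 * u * v)) = ε / 4 :=
            fun u v hu hv => by field_simp; ring
          rw [mul_assoc, ← mul_pow, h7, mul_pow, ← mul_assoc]
          refine mul_le_mul_of_nonneg_right ((mul_le_mul_of_nonneg_left h6 h9).trans_eq
            (h8 _ _ hn (two_pos.trans hL0))) (by positivity)
        · have : d'.toAdd j = 0 := by
            by_cases h0 : j = 0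
            · simp [d', h0]
            · rw [toAdd_ofAdd, Finsupp.erase_ne h0]
              exact h1 j (by simp [h0, hj])
          rw [this]
          simpa using by positivity
      obtain ⟨η, hη, h5⟩ := small_mul (d.toAdd 0) (half_pos hε)
      have h6 : IsClosed (⋃ f ∈ F, {y | σ (f⁻¹ * (ph a d' ^ m * y ^ d.toAdd 0)) ≤ 1 / 4}) :=
        isClosed_biUnion_finset fun f _ => isClosed_le (by fun_prop) continuous_const
      obtain ⟨f, hf, h7⟩ := mem_iUnion₂.1 (closure_minimal (by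
        rintro _ ⟨e, he, rfl⟩
        obtain ⟨e, rfl⟩ := dv_pow he.2
        obtain ⟨f, hf, h⟩ := hF (ph a d' * ph a e ^ d.toAdd 0) (by
          linarith [r.mul (ph a d') (ph a e ^ d.toAdd 0), r.zpow (ph a e) (d.toAdd 0),
            h5 _ (r.nonneg _) ((ph_nw r ha (le_pw e hm)).trans_lt he.1)])
        refine mem_iUnion₂.2 ⟨f, hf, ?_⟩
        rwa [mul_zpow, ← zpow_mul, mul_comm _ (m : ℤ), zpow_mul, zpow_natCast, zpow_natCast,
          ← map_pow _ e] at h) h6 (hx _ (LW_nw p hη)))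
      refine ⟨f, hf, ?_⟩
      rw [h3, map_mul, map_zpow, hb0, hb d' (by simp [d'])]
      exact lt_of_le_of_lt h7 (by norm_num)) (x := ee 0) (by rw [hb0]; exact not_lt.1 h10)
  have h7 : ∀ z : Circle, ∃ w : Circle, w ^ m = z := fun z => by
    obtain ⟨t, rfl⟩ := Circle.exp_surjective z
    refine ⟨Circle.exp (t / m), ?_⟩
    rw [← Circle.exp_nsmul, nsmul_eq_mul, mul_div_cancel₀ _ (by exact_mod_cast hm)]
  choose w hw using fun j => h7 (χ (ee j))
  have h8 : (powMonoidHom m).comp (ph w) = χ := AA_ext fun j => by simpa [ph_ee] using hw j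
  have h9 : Tendsto (fun y => σ (x⁻¹ * y)) (𝓝 x) (𝓝 0) := by
    have : Continuous fun y => σ (x⁻¹ * y) := by fun_prop
    simpa [s.one] using this.tendsto x
  obtain ⟨_, h3, e, he, rfl⟩ := mem_closure_iff_nhds.1 (hx _ (inter_mem (inter_mem
    (LW_nw p (show 0 < c ^ 2 / 16 by positivity)) (mem_inf_of_left (LL_tl p (N + 1))))
    (mem_inf_of_left (LL_ch p (ph w) (Metric.ball_mem_nhds 1 (half_pos hc0)))))) _
    (h9 (gt_mem_nhds (show 0 < c ^ 2 / 16 by positivity)))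
  obtain ⟨e, rfl⟩ := dv_pow he.2
  have h4 : ∀ j ≤ N, e.toAdd j = 0 := fun j hj => by
    simpa [hm] using he.1.1.2 j (Nat.lt_succ_of_le hj)
  have h5 := h2 ((ee 0)⁻¹ * e) fun j hj => by
    simp only [mem_setOf_eq, not_or, not_lt] at hj
    simp [ee, h4 j hj.2, hj.1]
  have t0 : ∀ j : ℕ, (0 : ℝ) ≤ 2 / (L * 2 ^ j : ℕ) := fun j => by positivity
  have h6 := (nw_sn t0).mul (ee 0)⁻¹ e
  rw [(nw_sn t0).inv, nw_ee] at h6
  have h11 := (nw_mono t0 (t' := fun j => (1 / 2) ^ j) (fun j => by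
    push_cast
    rw [one_div_pow, div_le_div_iff₀ (by positivity) (by positivity)]
    nlinarith [pow_pos (zero_lt_two (α := ℝ)) j]) (le_pw e hm)).trans_lt he.1.1.1
  have h12 : dist (ph w (e ^ m)) 1 < c / 2 := he.1.2
  have h3' : σ (x⁻¹ * ph a (e ^ m)) < c ^ 2 / 16 := h3
  rw [map_pow, show ph w e ^ m = χ e from DFunLike.congr_fun h8 e] at h12
  rw [map_mul (ph b), map_inv, hb0, hb e (h4 0 N.zero_le), ← map_pow] at h5
  have h13 : ‖(1 - χ (ee 0) : ℂ)‖ ≤ ‖(χ ((ee 0)⁻¹ * e) : ℂ) - 1‖ + dist (χ e) 1 := by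
    have : (1 - χ (ee 0) : ℂ) = χ (ee 0) * (χ ((ee 0)⁻¹ * e) - 1) - (χ e - 1) := by
      simp [mul_sub]
    rw [this]
    refine (norm_sub_le _ _).trans_eq ?_
    rw [norm_mul, Circle.norm_coe, one_mul, ← dist_eq_norm (χ e : ℂ)]; rfl
  simp only [pow_zero, mul_one] at h6
  nlinarith

theorem rp [T2Space G] (r : SN ρ) {V : Set G} (hm : LM G V)
    (hV : ∃ W ∈ 𝓝 (1 : G), W * {x | ρ x < 1} ⊆ V) {U : Set G} (hU : U ∈ 𝓝 (1 : G)) : DM ρ 1 U := by
  classical
  by_contra hn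
  obtain ⟨p, hp, h0⟩ : ∃ p : ℕ, p.Prime ∧ ¬ CC ρ 1 p := by
    by_contra h
    push Not at h
    have key : ∀ m : ℕ, m ≠ 0 → CC ρ 1 m := by
      intro m
      induction m using induction_on_primes with
      | zero => exact fun h => absurd rfl h
      | one => exact fun _ => CC.refl r 1
      | prime_mul p m hp ih =>
        exact fun h0 => (ih (right_ne_zero_of_mul h0)).trans r (by simpa using (h p hp).mul m)
    obtain ⟨W, hW, hWU⟩ := exists_nhds_one_split hU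
    obtain ⟨m, h1, h2⟩ := case1' r hm hV hW
    exact hn ((key m h1).dm r hW h2 hWU)
  obtain ⟨a, ha, h1⟩ := mkseq2 r p
  have h2 := ind r hp ha h1
  obtain ⟨W0, hW0, hWV⟩ := id hV
  have h3 := coarsen (SIN.comm G) hm ((LW_gf p).map_comm (ph a)) (fun x hx => by
    by_contra h3
    push Not at h3
    obtain ⟨σ0, r1, r2, r3⟩ := exists_sn (SIN.comm G) (compl_singleton_mem_nhds (Ne.symm hx))
    have r4 := r1.smul (c := 10) (by norm_num)
    have r5 : Tendsto (fun x => 10 * σ0 x) (𝓝 1) (𝓝 0) := by simpa using r2.const_mul 10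
    have r6 : 10 ≤ 10 * σ0 x := by have := mt (r3 x) fun h => h rfl; linarith
    obtain ⟨W, hW, hWU⟩ := exists_nhds_one_split
      (r5.eventually (ge_mem_nhds (show (0 : ℝ) < 1 / 4 by norm_num)))
    obtain ⟨m, hm0, hd⟩ := case1' r hm hV hW
    obtain ⟨k, q, hq, rfl⟩ := Nat.exists_eq_pow_mul_and_not_dvd hm0 p hp.ne_one
    have h4 : ∃ i, CC ρ (p ^ i) (p ^ k) := ⟨k, CC.refl r _⟩
    obtain ⟨W1, hW1, S, hS, h5⟩ := h2 (Nat.find h4) fun i hi h => Nat.find_min h4 hi (by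
      have h5 : ∀ j, CC ρ (p ^ i) (p ^ (i + j)) := fun j => by
        induction j with
        | zero => exact CC.refl r _
        | succ j ih => exact ih.trans r (by
            simpa only [← pow_add, add_right_comm i 1 j, add_assoc] using h.mul (p ^ j))
      obtain ⟨j, rfl⟩ := Nat.exists_eq_add_of_le (hi.le.trans (Nat.find_min' h4 (CC.refl r _)))
      exact h5 j)
    refine (hsep r (p := p) (m := p ^ Nat.find h4 * q)
      (mul_ne_zero (pow_ne_zero _ hp.ne_zero) (right_ne_zero_of_mul hm0)) ha r4 r5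
      (CC.dm r (by exact_mod_cast (Nat.find_spec h4).mul q) hW hd hWU) fun T hT => ?_).not_ge r6
    refine closure_mono (image_mono ?_)
      (near' (LW_gf p) (fun n => mem_inf_of_left (LL_tl p n)) (ph a) hW1 hS h5
        (fun S hS => h3 _ (image_mem_map hS)) _ (inter_mem hT (mem_inf_of_left (LL_dv hq))))
    refine fun c hc => ⟨hc.1.1, fun j => ?_⟩
    push_cast
    exact IsCoprime.mul_dvd (Nat.isCoprime_iff_coprime.2
      ((hp.coprime_iff_not_dvd).2 hq)).pow_left (by exact_mod_cast hc.2 j) (hc.1.2 j))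
    ⟨W0, hW0, {x | ρ x < 1}, mem_map.2 (mem_of_superset (LW_nw p one_pos) fun c hc =>
      (ph_nw r ha fun _ => le_rfl).trans_lt hc), hWV⟩
  obtain ⟨W, hW, S, hS, h4⟩ := h2 1 fun i hi => by
    obtain rfl : i = 0 := by omega
    simpa using h0
  refine LL_not' hp LW_sn (by
    simpa only [nw_ee] using tendsto_pow_atTop_nhds_zero_of_lt_one (by norm_num) (by norm_num))
    (mem_of_superset (inter_mem hS (mem_map.1 (h3 hW))) fun c hc => ?_)
  simpa using h4 c hc.1 hc.2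

end

end Pool.Agent.H2.MG
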