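import Mathlib
import Pool.Agent.H2.MG10

set_option autoImplicit false

/-! Additive wrappers for complete locally minimal groups. -/

namespace Pool.Agent.H2.MG

open Filter Topology Set Pointwise

theorem GF.exsn {G : Type} [CommGroup G] {L : Filter G} (hL : GF L) {W : Set G} (hW : W ∈ L) :
    ∃ ρ : G → ℝ, SN ρ ∧ Tendsto ρ L (𝓝 0) ∧ ∀ x, ρ x < 1 → x ∈ W := by
  obtain ⟨t, ht, rfl⟩ := hL.exists_top
  exact exists_sn (SIN.comm G) hW

theorem rpF {G : Type} [CommGroup G] [TopologicalSpace G] [IsTopologicalGroup G] [T2Space G]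
    {V W : Set G} (hm : LM G V) (hW : W ∈ 𝓝 (1 : G)) (hWV : ∀ x ∈ W, ∀ y ∈ W, x * y ∈ V)
    {L : Filter G} (hL : GF L) (hWL : W ∈ L) {U : Set G} (hU : U ∈ 𝓝 (1 : G)) :
    ∃ A ∈ L, ∃ E : Finset G, ∀ x ∈ A, ∃ f ∈ E, f⁻¹ * x ∈ U := by
  obtain ⟨ρ, r1, r2, r3⟩ := hL.exsn hWL
  obtain ⟨ε, hε, E, hE⟩ := rp r1 hm ⟨W, hW, by
    rintro _ ⟨w, hw, x, hx, rfl⟩; exact hWV _ hw _ (r3 _ hx)⟩ hU
  exact ⟨_, r2 (gt_mem_nhds hε), E, fun x hx => by simpa using hE x hx⟩

theorem add_lm {G : Type} [AddCommGroup G] [u : TopologicalSpace G] [IsTopologicalAddGroup G]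
    {V : Set G} (h : ∀ σ : TopologicalSpace G, @IsTopologicalAddGroup G σ _ → @T2Space G σ →
      u ≤ σ → V ∈ @nhds G σ 0 → σ = u) : LM (Multiplicative G) V := LM.of_top fun σ a b c d =>
  h σ (@IsTopologicalAddGroup.mk G σ _ (@ContinuousAdd.mk G σ _ a.toContinuousMul.1)
    (@ContinuousNeg.mk G σ _ a.toContinuousInv.1)) b c d

theorem add_gf {G : Type} [AddCommGroup G] (t : TopologicalSpace G)
    (ht : @IsTopologicalAddGroup G t _) : GF (G := Multiplicative G) (@nhds G t 0) :=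
  @GF.nhds (Multiplicative G) _ t (@IsTopologicalGroup.mk (Multiplicative G) t _
    (@ContinuousMul.mk (Multiplicative G) t _ ht.toContinuousAdd.1)
    (@ContinuousInv.mk (Multiplicative G) t _ ht.toContinuousNeg.1))

theorem add_conv {G : Type} [AddCommGroup G] [UniformSpace G] [IsUniformAddGroup G]
    [CompleteSpace G] {L : Filter G} (h : ∀ U ∈ 𝓝 (0 : G), ∃ A ∈ L, ∃ E : Finset G, ∀ x ∈ A,
      ∃ f ∈ E, -f + x ∈ U) (F : Ultrafilter G) (hF : ↑F ≤ L) : ∃ y : G, ↑F ≤ 𝓝 y := by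
  refine CompleteSpace.complete (f := (F : Filter G)) ?_
  rw [IsUniformAddGroup.cauchy_iff_tendsto]
  refine ⟨F.neBot', fun U hU => ?_⟩
  obtain ⟨T, hT, hTU⟩ := exists_div (G := Multiplicative G) hU 1
  obtain ⟨A, hA, E, hE⟩ := h T hT
  obtain ⟨f, -, hf⟩ := (Ultrafilter.finite_biUnion_mem_iff (f := F)
    (s := fun f : G => {x : G | -f + x ∈ T}) E.finite_toSet).1
    (mem_of_superset (hF hA) fun x hx => by
      obtain ⟨f, h1, h2⟩ := hE _ hx
      exact mem_iUnion₂.2 ⟨f, h1, h2⟩)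
  refine mem_map.2 (mem_of_superset (prod_mem_prod hf hf) fun z hz => ?_)
  have h1 : -f + z.1 - (-f + z.2) ∈ U := hTU _ hz.1 _ hz.2
  rwa [add_sub_add_left_eq_sub] at h1

theorem cpt_min {X : Type} [u : TopologicalSpace X] [CompactSpace X] (σ : TopologicalSpace X)
    (h : @T2Space X σ) (hle : u ≤ σ) : σ = u :=
  le_antisymm (continuous_id_iff_le.1 (@continuous_iff_isClosed X X σ u id |>.2 fun s hs =>
    @IsCompact.isClosed X σ h _ (by
      simpa using @IsCompact.image X X u σ _ id (@IsClosed.isCompact X u s _ hs)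
        (continuous_id_iff_le.2 hle)))) hle

end Pool.Agent.H2.MG
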