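import Mathlib
import Pool.Agent.H2.MG11

set_option autoImplicit false

/-! Stability of local almost homomorphisms and quotients by compact subgroups. -/

namespace Pool.Agent.H2.MG

open Filter Topology Set Pointwise Pool.Agent.H5.Folner

theorem solid_ind {Q : AA → Prop} (h0 : Q 1) (h1 : ∀ c j, 0 ≤ c.toAdd j → Q c → Q (c * ee j))
    (h2 : ∀ c j, c.toAdd j ≤ 0 → Q c → Q (c / ee j)) (c : AA) : Q c := by
  classical
  induction hn : ∑ j ∈ c.toAdd.support, (c.toAdd j).natAbs using Nat.strong_induction_on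
    generalizing c with
  | h n ih =>
    by_cases hc : c = 1
    · exact hc ▸ h0
    obtain ⟨j, hj⟩ := Finsupp.support_nonempty_iff.2 (show c.toAdd ≠ 0 from hc)
    have key : ∀ d : AA, (∀ i, i ≠ j → d.toAdd i = c.toAdd i) →
        (d.toAdd j).natAbs < (c.toAdd j).natAbs → Q d := fun d h3 h4 => ih _ (by
      rw [← hn, Finset.sum_subset (s₂ := c.toAdd.support) (fun i hi => by
        by_cases h : i = j
        · exact h ▸ hj
        · rwa [Finsupp.mem_support_iff, h3 i h, ← Finsupp.mem_support_iff] at hi)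
        fun i _ hi => by simp [Finsupp.notMem_support_iff.1 hi]]
      refine Finset.sum_lt_sum (fun i _ => ?_) ⟨j, hj, h4⟩
      by_cases h : i = j
      · exact h ▸ h4.le
      · rw [h3 i h]) d rfl
    rcases lt_or_gt_of_ne (Finsupp.mem_support_iff.1 hj) with h | h
    · simpa using h2 (c * ee j) j (by simp [ee]; omega)
        (key _ (fun i hi => by simp [ee, hi]) (by simp [ee]; omega))
    · simpa using h1 (c / ee j) j (by simp [ee]; omega)
        (key _ (fun i hi => by simp [ee, hi]) (by simp [ee]; omega))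

theorem nw_step (t : ℕ → ℝ) {c d : AA} {j : ℕ} (h : ∀ i, i ≠ j → d.toAdd i = c.toAdd i)
    (h1 : |d.toAdd j| = |c.toAdd j| + 1) : nw t d = nw t c + t j := by
  classical
  rw [nw_eq t d (s := insert j (c.toAdd.support.erase j)) fun i hi => by
      by_cases h2 : i = j
      · simp [h2]
      · simpa [h2, h i h2] using hi,
    nw_eq t c (s := insert j (c.toAdd.support.erase j)) (Finset.subset_insert_iff.2 subset_rfl),
    Finset.sum_insert (Finset.notMem_erase _ _), Finset.sum_insert (Finset.notMem_erase _ _),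
    Finset.sum_congr rfl fun i hi => by rw [h i (Finset.ne_of_mem_erase hi)],
    show |(d.toAdd j : ℝ)| = |(c.toAdd j : ℝ)| + 1 by exact_mod_cast h1]
  ring

theorem le_nw {t : ℕ → ℝ} (ht : ∀ j, 0 ≤ t j) (c : AA) (j : ℕ) : |(c.toAdd j : ℝ)| * t j ≤ nw t c := by
  classical
  rw [nw_eq t c (Finset.subset_insert j _)]
  exact Finset.single_le_sum (f := fun j => |(c.toAdd j : ℝ)| * t j)
    (fun i _ => mul_nonneg (abs_nonneg _) (ht i)) (Finset.mem_insert_self _ _)

theorem dml (a b c : Circle) : dist (a * b) (a * c) = dist b c := by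
  show dist ((a : ℂ) * b) (a * c) = dist (b : ℂ) c
  rw [dist_eq_norm, dist_eq_norm, ← mul_sub, norm_mul, Circle.norm_coe, one_mul]

theorem dmr (b c a : Circle) : dist (b * a) (c * a) = dist b c := by
  rw [mul_comm b, mul_comm c, dml]

theorem dist_exp (z : Circle) (x : ℝ) : dist (z * Circle.exp x) z ≤ |x| := by
  have h := dml z (Circle.exp x) 1
  rw [mul_one] at h
  exact h.trans_le ((dist_eq_norm (Circle.exp x : ℂ) 1).trans_le (by
      simpa [mul_comm] using Real.norm_exp_I_mul_ofReal_sub_one_le (x := x)))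

theorem ac1 {M : Type} [CommGroup M] {a b c e1 e2 e3 e4 : M}
    (h : a * (b * c * e1) * e2 = a * b * e3 * c * e4) : e3 * e4 = e2 * e1 :=
  mul_left_cancel (a := a * b * c) (by simpa only [mul_assoc, mul_comm, mul_left_comm] using h.symm)

theorem ac2 {M : Type} [CommGroup M] (a b e1 e2 e3 e4 : M) :
    a * b * e1 * e2 = a * e3 * (b * e4) * (e1 * e2 / e4 / e3) := by
  simp [mul_assoc, mul_comm, mul_left_comm, div_eq_mul_inv]

theorem stab' (f : AA → Circle) {δ : ℝ} (h0 : 0 ≤ δ) (h1 : δ ≤ 1)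
    (h : ∀ z z' : AA, (∀ j, |z.toAdd j| ≤ 2 * (j + 3)) → (∀ j, |z'.toAdd j| ≤ 2 * (j + 3)) →
      (∀ j, |(z * z').toAdd j| ≤ 2 * (j + 3)) → |Complex.arg (f (z * z') / (f z * f z') : Circle)| ≤ δ) :
    ∃ a : AA →* Circle, ∀ c, nw (fun j => 2 / (j + 3 : ℕ)) c < 1 → dist (f c) (a c) ≤ 2 * δ := by
  classical
  have t0 : ∀ j : ℕ, (0 : ℝ) ≤ 2 / (j + 3 : ℕ) := fun j => by positivity
  let K : ℕ → Set (Gam AA) := fun n => {a | ∀ c : AA, (∀ j, j ∉ Finset.range n → c.toAdd j = 0) →
    nw (fun j => 2 / (j + 3 : ℕ)) c < 1 → dist (f c) (gh a c) ≤ 2 * δ}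
  have hK : ∀ q, IsClosed (K q) := fun q => by
    simp only [K, setOf_forall]
    exact isClosed_iInter fun g => isClosed_iInter fun _ => isClosed_iInter fun _ =>
      isClosed_le (continuous_const.dist (gh_cont g)) continuous_const
  have hne : ∀ q, (K q).Nonempty := by
    intro q
    obtain ⟨ι, _, _, w, w1, w2⟩ := box (Finset.range q) (fun j => j + 3) fun j => by positivity
    let γ : AA → AA → ℝ := fun z z' => if |Complex.arg (f (z * z') / (f z * f z') : Circle)| ≤ δ then
      Complex.arg (f (z * z') / (f z * f z') : Circle) else 0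
    have g0 : ∀ z z', |γ z z'| ≤ δ := fun z z' => by
      simp only [γ]; split_ifs with h; exacts [h, by simpa using h0]
    have g1 : ∀ z z' : AA, (∀ j, |z.toAdd j| ≤ 2 * (j + 3)) → (∀ j, |z'.toAdd j| ≤ 2 * (j + 3)) →
        (∀ j, |(z * z').toAdd j| ≤ 2 * (j + 3)) → f (z * z') = f z * f z' * .exp (γ z z') :=
      fun z z' a b c => by simp only [γ, if_pos (h z z' a b c), Circle.exp_arg]; simp
    let g : AA → Circle := fun c => f c * .exp (av fun i => γ c (w i))
    have g2 : ∀ c c' : AA, (∀ j, |c.toAdd j| ≤ j + 3) → (∀ j, |c'.toAdd j| ≤ j + 3) →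
        (∀ j, |(c * c').toAdd j| ≤ j + 3) → (∀ j, j ∉ Finset.range q → c'.toAdd j = 0) →
        dist (g (c * c')) (g c * g c') ≤ δ * nw (fun j => 2 / (j + 3 : ℕ)) c' := by
      intro c c' a1 a2 a3 a4
      have b0 : ∀ c : AA, (∀ j, |c.toAdd j| ≤ j + 3) → ∀ j, |c.toAdd j| ≤ 2 * (j + 3) :=
        fun c hc j => by linarith [hc j, abs_nonneg (c.toAdd j)]
      have b2 : ∀ i j, |(w i).toAdd j| ≤ j + 3 := fun i j => by
        rw [abs_of_nonneg (w1 i j).1]; exact_mod_cast (w1 i j).2.1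
      have b1 : ∀ c : AA, (∀ j, |c.toAdd j| ≤ j + 3) → ∀ i j, |(c * w i).toAdd j| ≤ 2 * (j + 3) :=
        fun c hc i j => (abs_add_le (c.toAdd j) _).trans (by linarith [hc j, b2 i j])
      have b3 : ∀ i, γ c c' + γ (c * c') (w i) = γ c (c' * w i) + γ c' (w i) := fun i => by
        have e1 := g1 (c * c') (w i) (b0 _ a3) (b0 _ (b2 i)) (b1 _ a3 i)
        rw [g1 c c' (b0 _ a1) (b0 _ a2) (b0 _ a3), mul_assoc c, g1 c _ (b0 _ a1) (b1 _ a2 i)
          (mul_assoc c c' _ ▸ b1 _ a3 i), g1 c' _ (b0 _ a2) (b0 _ (b2 i)) (b1 _ a2 i)] at e1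
        refine Circle.exp_injOn_Icc (a := -2) (b := 2) (by linarith [Real.pi_gt_three])
          (abs_le.1 ((abs_add_le _ _).trans (by linarith [g0 c c', g0 (c * c') (w i)])))
          (abs_le.1 ((abs_add_le _ _).trans (by linarith [g0 c (c' * w i), g0 c' (w i)]))) ?_
        rw [Circle.exp_add, Circle.exp_add]
        exact ac1 e1
      have b4 : g (c * c') = g c * g c' *
          .exp (av (fun i => γ c (w i * c')) - av fun i => γ c (w i)) := by
        have : av (fun i => γ c (w i * c')) =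
            γ c c' + av (fun i => γ (c * c') (w i)) - av fun i => γ c' (w i) := by
          rw [← av_const (ι := ι) (γ c c'), ← av_add, ← av_sub]
          exact congrArg av (funext fun i => by rw [b3, mul_comm c', add_sub_cancel_right])
        simp only [g]
        rw [this, g1 c c' (b0 _ a1) (b0 _ a2) (b0 _ a3), Circle.exp_sub, Circle.exp_sub, Circle.exp_add]
        exact ac2 _ _ _ _ _ _
      rw [b4]
      refine (dist_exp _ _).trans ?_
      have b5 : ∀ y, γ c y = δ * (γ c y / δ) := fun y => by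
        rcases h0.eq_or_lt with rfl | h
        · simpa using g0 c y
        · field_simp
      have b6 := w2 c' a4 (fun y => γ c y / δ) fun y => by
        rw [abs_div, abs_of_nonneg h0]; exact div_le_one_of_le₀ (g0 _ _) h0
      rw [funext fun i => b5 (w i * c'), funext fun i => b5 (w i), av_mul, av_mul, ← mul_sub, abs_mul,
        abs_of_nonneg h0]
      exact mul_le_mul_of_nonneg_left b6 h0
    have g3 : ∀ c : AA, nw (fun j => 2 / (j + 3 : ℕ)) c < 1 → ∀ j, |c.toAdd j| ≤ j + 3 := by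
      intro c hc j
      have := (le_nw t0 c j).trans_lt hc
      rw [← mul_div_assoc, div_lt_one (by positivity)] at this
      have h2 : |(c.toAdd j : ℝ)| ≤ (j + 3 : ℕ) := by linarith [abs_nonneg (c.toAdd j : ℝ)]
      exact_mod_cast h2
    have g4 : ∀ j i, |(ee j).toAdd i| ≤ i + 3 := fun j => g3 _ (by
      rw [nw_ee, div_lt_one (by positivity)]; norm_cast; omega)
    have g5 : ∀ c : AA, (∀ j, j ∉ Finset.range q → c.toAdd j = 0) →
        nw (fun j => 2 / (j + 3 : ℕ)) c < 1 →
        dist (g c) (ph (fun j => g (ee j)) c) ≤ δ * nw (fun j => 2 / (j + 3 : ℕ)) c := by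
      intro c
      induction c using solid_ind with
      | h0 =>
        intro _ _
        have := g2 1 1 (fun j => by simp; positivity) (fun j => by simp; positivity)
          (fun j => by simp; positivity) fun _ _ => rfl
        have h2 := dml (g 1) 1 (g 1)
        rw [mul_one] at h2 this
        rwa [map_one, dist_comm, ← h2]
      | h1 c j hc ih =>
        intro a1 a2
        have e := nw_step (fun j => 2 / (j + 3 : ℕ)) (c := c) (d := c * ee j) (j := j)
          (fun i hi => by simp [ee, hi]) (by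
            simp only [ee, toAdd_mul, toAdd_ofAdd, Finsupp.coe_add, Pi.add_apply,
              Finsupp.single_eq_same]
            rw [abs_of_nonneg hc, abs_of_nonneg (by omega)])
        have hj : j ∈ Finset.range q := not_not.1 fun h => by have := a1 j h; simp [ee] at this; omega
        have a3 : nw (fun j => 2 / (j + 3 : ℕ)) c < 1 := by linarith [t0 j]
        have a4 := g2 c (ee j) (g3 _ a3) (g4 j) (g3 _ a2) fun i hi => by
          simp [ee, show i ≠ j from fun h => hi (h ▸ hj)]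
        have a5 := ih (fun i hi => by
          simpa [ee, show i ≠ j from fun h => hi (h ▸ hj)] using a1 i hi) a3
        rw [map_mul, ph_ee, e, mul_add]
        rw [nw_ee] at a4
        rw [← dmr _ _ (g (ee j))] at a5
        linarith [dist_triangle (g (c * ee j)) (g c * g (ee j)) (ph (fun j => g (ee j)) c * g (ee j))]
      | h2 c j hc ih =>
        intro a1 a2
        have e := nw_step (fun j => 2 / (j + 3 : ℕ)) (c := c) (d := c / ee j) (j := j)
          (fun i hi => by simp [ee, hi]) (by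
            simp only [ee, toAdd_div, toAdd_ofAdd, Finsupp.coe_sub, Pi.sub_apply,
              Finsupp.single_eq_same]
            rw [abs_of_nonpos hc, abs_of_nonpos (by omega)]; ring)
        have hj : j ∈ Finset.range q := not_not.1 fun h => by have := a1 j h; simp [ee] at this; omega
        have a3 : nw (fun j => 2 / (j + 3 : ℕ)) c < 1 := by linarith [t0 j]
        have a4 := g2 (c / ee j) (ee j) (g3 _ a2) (g4 j) (by rw [div_mul_cancel]; exact g3 _ a3)
          fun i hi => by simp [ee, show i ≠ j from fun h => hi (h ▸ hj)]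
        have a5 := ih (fun i hi => by
          simpa [ee, show i ≠ j from fun h => hi (h ▸ hj)] using a1 i hi) a3
        rw [map_div, ph_ee, e, mul_add, ← dmr _ _ (g (ee j)), div_mul_cancel]
        rw [nw_ee, div_mul_cancel, dist_comm] at a4
        linarith [dist_triangle (g (c / ee j) * g (ee j)) (g c) (ph (fun j => g (ee j)) c)]
    refine ⟨⟨_, map_mul (ph fun j => g (ee j))⟩, fun c a1 a2 => ?_⟩
    have a3 := (dist_exp (f c) _).trans (av_abs_le fun i => g0 c (w i))
    rw [dist_comm] at a3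
    refine (dist_triangle _ (g c) _).trans ?_
    show dist (f c) (g c) + dist (g c) (ph (fun j => g (ee j)) c) ≤ _
    nlinarith [g5 c a1 a2, show dist (f c) (g c) ≤ δ from a3]
  obtain ⟨a, ha⟩ := IsCompact.nonempty_iInter_of_sequence_nonempty_isCompact_isClosed K
    (fun n a ha c hc => ha c fun j hj => hc j fun h => hj (by
      simp only [Finset.mem_range] at h ⊢; omega)) hne (hK 0).isCompact hK
  exact ⟨gh a, fun c => mem_iInter.1 ha (c.toAdd.support.sup id + 1) c fun j hj => not_not.1 fun h =>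
    hj (Finset.mem_range.2 (Nat.lt_succ_of_le (Finset.le_sup (f := id) (Finsupp.mem_support_iff.2 h))))⟩

section
variable {G : Type} [CommGroup G] [TopologicalSpace G] [IsTopologicalGroup G]

/-- precompact filters -/
def PCF (L : Filter G) : Prop :=
  ∀ U ∈ 𝓝 (1 : G), ∃ A ∈ L, ∃ E : Finset G, ∀ x ∈ A, ∃ f ∈ E, f⁻¹ * x ∈ U

/-- relative precompactness modulo a subgroup -/
def PP (K : Subgroup G) (H : Subgroup K) : Prop :=
  ∃ U ∈ 𝓝 (1 : G), ∀ L, GF L → {x | ∃ k ∈ H, x / (k : G) ∈ U} ∈ L → PCF L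

theorem cov {K : Set G} (hK : IsCompact K) {U : Set G} (hU : U ∈ 𝓝 (1 : G)) :
    ∃ E : Finset G, ∀ x ∈ K, ∃ f ∈ E, f⁻¹ * x ∈ U := by
  obtain ⟨E, -, h⟩ := hK.elim_nhds_subcover (fun f => (f⁻¹ * ·) ⁻¹' U) fun f _ =>
    (continuous_const_mul _).continuousAt.preimage_mem_nhds (by rwa [inv_mul_cancel])
  exact ⟨E, fun x hx => by simpa using h hx⟩

theorem dich {K : Type} [CommGroup K] [TopologicalSpace K] [CompactSpace K] (H : Subgroup K)
    (hH : IsClosed (H : Set K)) (χ : K →* Circle) (hχ : Continuous χ) {ε : ℝ} (hε : 0 < ε) :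
    ∃ δ, 0 ≤ δ ∧ δ ≤ ε ∧ (∀ᶠ k in 𝓝 (1 : K), k ∈ H → |Complex.arg (χ k)| ≤ δ) ∧
      ∀ z, ∀ k ∈ H, dist (χ k) z ≤ 2 * δ → ∃ k ∈ H, χ k = z := by
  have h1 : ∀ η > 0, ∀ᶠ k in 𝓝 (1 : K), |Complex.arg (χ k)| < η := fun η hη => by
    have : ContinuousAt (fun k => |Complex.arg (χ k)|) 1 :=
      (ContinuousAt.comp (g := Complex.arg) (f := fun k => (χ k : ℂ)) (Complex.continuousAt_arg
        (by simp)) (continuous_subtype_val.comp hχ).continuousAt).abs
    exact this.eventually (gt_mem_nhds (by simpa using hη))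
  let S : AddSubgroup ℝ :=
    { carrier := {r | ∃ k ∈ H, χ k = .exp r}
      zero_mem' := ⟨1, H.one_mem, by simp⟩
      add_mem' := by
        rintro a b ⟨k, h, hk⟩ ⟨l, h', hl⟩
        exact ⟨_, H.mul_mem h h', by rw [map_mul, hk, hl, Circle.exp_add]⟩
      neg_mem' := by
        rintro a ⟨k, h, hk⟩
        exact ⟨_, H.inv_mem h, by rw [map_inv, hk, Circle.exp_neg]⟩ }
  by_cases h : ∀ ε > 0, ∃ g ∈ S, g ∈ Ioo 0 ε
  · refine ⟨ε, hε.le, le_rfl, (h1 ε hε).mono fun k hk _ => hk.le, fun z _ _ _ => ?_⟩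
    obtain ⟨r, rfl⟩ := Circle.exp_surjective z
    exact ((hH.isCompact.image hχ).isClosed.preimage Circle.exp.continuous).closure_subset
      (S.dense_of_not_isolated_zero h r)
  push Not at h
  obtain ⟨η, hη, h⟩ := h
  refine ⟨0, le_rfl, hε.le, (h1 η hη).mono fun k hk hk' => ?_, fun z k hk h2 =>
    ⟨k, hk, dist_le_zero.1 (by simpa using h2)⟩⟩
  have h2 : Complex.arg (χ k) ∈ S := ⟨k, hk', (Circle.exp_arg _).symm⟩
  by_contra h3
  refine h |Complex.arg (χ k)| ?_ ⟨not_le.1 h3, hk⟩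
  rcases abs_choice (Complex.arg (χ k)) with h4 | h4 <;> rw [h4]
  exacts [h2, S.neg_mem h2]

theorem pstep {K : Subgroup G} (hK : IsCompact (K : Set G)) (H : Subgroup K)
    (hH : IsClosed (H : Set K)) (χ : K →* Circle) (hχ : Continuous χ) (h : PP K (H ⊓ χ.ker)) :
    PP K H := by
  classical
  haveI : CompactSpace K := isCompact_iff_compactSpace.1 hK
  obtain ⟨U', hU', h⟩ := h
  obtain ⟨W, hW, hWU⟩ := exists_nhds_one_split hU'
  obtain ⟨ε, hε, h1⟩ := (show IsCompact {k : K | k ∈ H ∧ ∀ k' ∈ H ⊓ χ.ker,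
      (k / k' : G) ∉ interior W} by
    simp only [setOf_and, setOf_forall]
    exact (hH.inter (isClosed_iInter fun k' => isClosed_iInter fun _ => (isOpen_interior.preimage
      (by fun_prop)).isClosed_compl)).isCompact).exists_forall_le' (f := fun k => dist (χ k) 1)
    (a := 0) (by fun_prop) fun k hk => dist_pos.2 fun h => hk.2 k ⟨hk.1, h⟩ (by
      rw [div_self']; exact mem_interior_iff_mem_nhds.2 hW)
  obtain ⟨δ, d0, d1, d2, d3⟩ := dich H hH χ hχ (lt_min one_pos (show 0 < ε / 3 by positivity))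
  obtain ⟨O, hO, d2⟩ := (mem_nhds_subtype _ _ _).1 d2
  obtain ⟨O1, hO1, o1⟩ := exists_div hO 1
  obtain ⟨O2, hO2, o2⟩ := exists_nhds_one_split hO1
  refine ⟨W ∩ O2, inter_mem hW hO2, fun L hL hUL U0 hU0 => ?_⟩
  obtain ⟨ρ, r1, r2, r3⟩ := hL.exsn hUL
  by_contra hn
  push Not at hn
  obtain ⟨U1, hU1, u1⟩ := exists_nhds_one_split hU0
  obtain ⟨U2, hU2, u2⟩ := exists_div hU1 1
  obtain ⟨EK, hEK⟩ := cov hK hU1
  obtain ⟨x, hx⟩ := exists_rec (fun n (f : Fin n → G) x => ρ x < (1 / 2) ^ n / (8 * (n + 3)) ∧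
    ∀ j, ∀ e ∈ EK, (f j * e)⁻¹ * x ∉ U0) fun n f => by
    obtain ⟨x, h1, h2⟩ := hn _ (r2 (gt_mem_nhds (show (0 : ℝ) < (1 / 2) ^ n / (8 * (n + 3)) by
      positivity))) (Finset.univ.image f * EK)
    exact ⟨x, h1, fun j e he => h2 _ (Finset.mul_mem_mul (Finset.mem_image_of_mem _
      (Finset.mem_univ j)) he)⟩
  choose! k k1 k2 using fun (z : AA) (hz : ∀ j, |z.toAdd j| ≤ 2 * (j + 3)) => r3 (ph x z)
    (((r1.ph_le x z).trans (nw_le (η := 1 / 4) (by norm_num) fun j => (mul_le_mul
      (show |(z.toAdd j : ℝ)| ≤ 2 * (j + 3) by exact_mod_cast hz j) (hx j).1.le (r1.nonneg _)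
      (by positivity)).trans_eq (by field_simp; norm_num))).trans_lt (by norm_num))
  obtain ⟨a, ha⟩ := stab' (fun z => χ (k z)) d0 (d1.trans (min_le_left _ _)) fun z z' a b c => by
    rw [← map_mul, ← map_div]
    refine d2 (mem_preimage.2 (mem_of_eq_of_mem (Additive.ofMul.injective ?_) (o1 _ (o2 _ (k2 z a).2 _
      (k2 z' b).2) _ (o2 _ (k2 _ c).2 _ (mem_of_mem_nhds hO2))))) (H.div_mem (k1 _ c) (H.mul_mem (k1 _ a) (k1 _ b)))
    simp only [map_mul, Subgroup.coe_div, Subgroup.coe_mul, ofMul_mul, ofMul_div, ofMul_one]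
    abel
  have t0 : ∀ j : ℕ, (0 : ℝ) ≤ 2 / (j + 3 : ℕ) := fun j => by positivity
  have g3 : ∀ c : AA, nw (fun j => 2 / (j + 3 : ℕ)) c < 1 → ∀ j, |c.toAdd j| ≤ 2 * (j + 3) := by
    intro c hc j
    have := (le_nw t0 c j).trans_lt hc
    rw [← mul_div_assoc, div_lt_one (by positivity)] at this
    have h2 : |(c.toAdd j : ℝ)| ≤ 2 * (j + 3 : ℕ) := by linarith [abs_nonneg (c.toAdd j : ℝ)]
    exact_mod_cast h2
  choose κ κ1 κ2 using fun j => (fun h => d3 _ _ (k1 _ (g3 _ h)) (ha (ee j) h)) (by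
    rw [nw_ee, div_lt_one (by positivity)]; norm_cast; omega)
  have h2 : χ.comp (ph κ) = a := AA_ext fun j => by simp [ph_ee, κ2]
  obtain ⟨A, hA, E, hE⟩ := h _ ((nw_sn t0).gf.map_comm (ph x / K.subtype.comp (ph κ)))
    (mem_map.2 (mem_of_superset (preimage_mem_comap (gt_mem_nhds one_pos)) fun c hc => by
      have h3 : k c / ph κ c ∈ H := H.div_mem (k1 _ (g3 c hc))
        (H.prod_mem fun j _ => H.zpow_mem (κ1 j) _)
      have h4 : dist (χ (k c / ph κ c)) 1 < ε := by
        rw [← dmr _ _ (χ (ph κ c)), ← map_mul, div_mul_cancel, one_mul,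
          show χ (ph κ c) = a c from DFunLike.congr_fun h2 c]
        linarith [ha c hc, min_le_right 1 (ε / 3)]
      have h5 := mt (h1 _) h4.not_ge
      simp only [mem_setOf_eq, h3, true_and, not_forall, not_not] at h5
      obtain ⟨k', h6, h7⟩ := h5
      refine ⟨k', h6, mem_of_eq_of_mem (Additive.ofMul.injective ?_)
        (hWU _ (k2 c (g3 c hc)).1 _ (interior_subset h7))⟩
      simp only [MonoidHom.div_apply, MonoidHom.comp_apply, Subgroup.coe_subtype, Subgroup.coe_div,
        ofMul_mul, ofMul_div]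
      abel)) U2 hU2
  have h3 : Tendsto ee atTop (comap (nw fun j => 2 / (j + 3 : ℕ)) (𝓝 0)) := tendsto_comap_iff.2 (by
    simpa only [Function.comp_def, nw_ee] using
      (tendsto_const_div_atTop_nhds_zero_nat 2).comp (tendsto_add_atTop_nat 3))
  obtain ⟨N, hN⟩ := eventually_atTop.1 (h3 (mem_map.1 hA))
  choose! e e1 e2 using fun n hn => hE _ (hN n hn)
  obtain ⟨n, hn, m, hm, h4, h5⟩ := (Ici_infinite N).exists_lt_map_eq_of_mapsTo (f := e)
    (fun n hn => e1 n hn) E.finite_toSet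
  obtain ⟨f, hf, h6⟩ := hEK _ (κ m / κ n).2
  refine (hx m).2 ⟨n, h4⟩ f hf (mem_of_eq_of_mem (Additive.ofMul.injective ?_)
    (u1 _ (u2 _ (e2 m hm) _ (e2 n hn)) _ h6))
  simp only [h5, ph_ee, MonoidHom.div_apply, MonoidHom.comp_apply, Subgroup.coe_subtype,
    Subgroup.coe_div, ofMul_mul, ofMul_div, ofMul_inv]
  abel

theorem pp_top [T2Space G] {V : Set G} (hV : V ∈ 𝓝 (1 : G)) (hm : LM G V) {K : Subgroup G}
    (hK : IsCompact (K : Set G)) : PP K ⊤ := by
  classical
  haveI : CompactSpace K := isCompact_iff_compactSpace.1 hK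
  obtain ⟨W, hW, hWV⟩ := exists_nhds_one_split hV
  obtain ⟨W1, hW1, h1⟩ := exists_nhds_one_split hW
  obtain ⟨s, hs⟩ := ((isOpen_interior (s := W1)).preimage
    (continuous_subtype_val (p := (· ∈ K)))).isClosed_compl.isCompact.elim_finite_subcover
    (fun χ : CX K => {k | χ.1 k ≠ 1}) (fun χ => isOpen_ne_fun χ.2 continuous_const) fun k hk => by
      obtain ⟨χ, h2, h3⟩ := PC.sep (A := K) (fun U hU => by simpa using cov isCompact_univ hU) k
        fun h => hk (by rw [h]; exact mem_interior_iff_mem_nhds.2 hW1)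
      exact mem_iUnion.2 ⟨⟨χ, h2⟩, h3⟩
  have h2 : PP K (⨅ χ ∈ s, χ.1.ker) := ⟨W1, hW1, fun L hL h2 U hU => rpF hm hW hWV hL
    (mem_of_superset h2 fun x ⟨k, h3, h4⟩ => by
      simpa using h1 _ h4 k (interior_subset (not_not.1 fun h => by
        obtain ⟨χ, h5, h6⟩ := mem_iUnion₂.1 (hs h)
        exact h6 (Subgroup.mem_iInf.1 (Subgroup.mem_iInf.1 h3 χ) h5)))) hU⟩
  clear hs
  induction s using Finset.induction_on with
  | empty => simpa using h2
  | insert χ s _ ih =>
    refine ih (pstep hK _ ?_ χ.1 χ.2 (by rwa [Finset.iInf_insert, inf_comm] at h2))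
    simp only [Subgroup.coe_iInf]
    exact isClosed_iInter fun χ => isClosed_iInter fun _ => isClosed_eq χ.2 continuous_const

end

end Pool.Agent.H2.MG
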