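import Mathlib
import Pool.Agent.H2.MG5

set_option autoImplicit false

/-! Tightness and character of locally minimal abelian groups. -/

namespace Pool.Agent.H2.MG

open Filter Topology Set Pointwise Cardinal

section
variable {G : Type} [CommGroup G] [TopologicalSpace G] [IsTopologicalGroup G]

/-- `K` is killed by a small family of neighbourhoods -/
def PSI (κ : Cardinal) (K : Subgroup G) : Prop :=
  ∃ (ι : Type) (U : ι → Set G), #ι ≤ κ ∧ (∀ i, U i ∈ 𝓝 (1 : G)) ∧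
    ∀ M : Subgroup G, (∀ x ∈ M, ∀ i, x ∈ U i) → ∀ x ∈ M, x ∈ K → x = 1

theorem psi_of [T2Space G] {κ : Cardinal} (hκ : ℵ₀ ≤ κ) (ht : TL G κ) (K : Subgroup G)
    (hm : LM K univ) (hp : PC K) : PSI κ K := by
  obtain ⟨V, h1, h2⟩ := small K hp mul_comm
  exact ⟨_, V, hm.tight hp hκ (ht.subgroup K), h1, h2⟩

theorem zero_sub {ι : Type} (U : ι → Set G) (hU : ∀ i, U i ∈ 𝓝 (1 : G)) :
    ∃ N : Subgroup G, IsClosed (N : Set G) ∧ (∀ x ∈ N, ∀ i, x ∈ U i) ∧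
      ∃ U' : ι × ℕ → Set G, (∀ i, U' i ∈ 𝓝 (1 : G)) ∧ ∀ x, (∀ i, x ∈ U' i) → x ∈ N := by
  choose ρ h1 h2 h3 using fun i => exists_sn (SIN.comm G) (hU i)
  refine ⟨⨅ i, (h1 i).ker, ?_, fun x hx i => h3 i x ?_, fun q => {x | ρ q.1 x < 1 / (q.2 + 1)},
    fun q => (h2 q.1).eventually (gt_mem_nhds (by positivity)), fun x hx =>
      Subgroup.mem_iInf.2 fun i => le_antisymm ?_ ((h1 i).nonneg x)⟩
  · rw [Subgroup.coe_iInf]
    exact isClosed_iInter fun i => isClosed_eq ((h1 i).cont (h2 i)) continuous_const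
  · rw [show ρ i x = 0 from Subgroup.mem_iInf.1 hx i]; exact one_pos
  · exact ge_of_tendsto' tendsto_one_div_add_atTop_nhds_zero_nat fun n => (hx (i, n)).le

theorem psi_top [T2Space G] {V : Set G} (hV : V ∈ 𝓝 (1 : G)) (hm : LM G V) {κ : Cardinal}
    (hκ : ℵ₀ ≤ κ) (ht : TL G κ) : PSI κ (⊤ : Subgroup G) := by
  obtain ⟨W, hW, hWV⟩ := exists_nhds_one_split hV
  obtain ⟨N0, a1, a2, U0, a3, a4⟩ := zero_sub (fun _ : Unit => W) fun _ => hW
  have hmin : ∀ K : Subgroup G, IsClosed (K : Set G) → LM (N0 ⊓ K : Subgroup G) univ :=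
    fun K hK => central_min (SIN.comm G) hm _ (a1.inter hK)
      ⟨W, hW, by rintro _ ⟨w, hw, x, hx, rfl⟩; exact hWV _ hw _ (a2 x hx.1 ())⟩
      fun g x _ => mul_comm g x
  have h1 : ∀ p : Nat.Primes, PSI κ (N0 ⊓ (powMonoidHom p : G →* G).ker) := fun p =>
    have h := hmin (powMonoidHom p : G →* G).ker (isClosed_eq (continuous_pow p.1) continuous_const)
    psi_of hκ ht _ h (ps_exp h p.2 fun x => Subtype.ext x.2.2)
  choose ι U b1 b2 b3 using h1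
  obtain ⟨N1, c1, c2, U1, c3, c4⟩ := zero_sub (fun i : Σ p, ι p => U i.1 i.2) fun i => b2 _ _
  obtain ⟨ι2, U2, d1, d2, d3⟩ := psi_of hκ ht _ (hmin N1 c1) (ps_tf (hmin N1 c1) fun p hp x hx =>
    Subtype.ext (b3 ⟨p, hp⟩ N1 (fun y hy i => c2 y hy ⟨_, i⟩) x x.2.2
      ⟨x.2.1, congrArg Subtype.val hx⟩))
  refine ⟨_, Sum.elim U0 (Sum.elim U1 U2), ?_, ?_, fun M hM x hx _ =>
    d3 M (fun y hy i => hM y hy (Sum.inr (Sum.inr i))) x hx
      ⟨a4 x fun i => hM x hx (Sum.inl i), c4 x fun i => hM x hx (Sum.inr (Sum.inl i))⟩⟩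
  · rw [mk_sum, mk_sum, mk_prod (Σ p, ι p), mk_sigma]
    simp only [lift_id]
    refine add_le_of_le hκ (mk_le_aleph0.trans hκ) (add_le_of_le hκ
      (mul_le_of_le hκ ?_ (mk_le_aleph0.trans hκ)) d1)
    exact (sum_le_mk_mul_iSup _).trans (mul_le_of_le hκ (mk_le_aleph0.trans hκ) (ciSup_le' b1))
  · rintro (i | i | i)
    exacts [a3 i, c3 i, d2 i]

theorem char_le [T2Space G] {V : Set G} (hV : V ∈ 𝓝 (1 : G)) (hm : LM G V) {κ : Cardinal}
    (hκ : ℵ₀ ≤ κ) (ht : TL G κ) :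
    ∃ 𝓑 : Set (Set G), (𝓝 (1 : G)).HasBasis (fun s => s ∈ 𝓑) id ∧ #𝓑 ≤ κ := by
  classical
  obtain ⟨ι, U, h1, h2, h3⟩ := psi_top hV hm hκ ht
  obtain ⟨ρ, hρ⟩ := nhds_eq_sn (SIN.comm G) hm hV U h2 fun N _ h x hx => h3 N h x hx trivial
  let s : Option ι × ℕ → Set G := fun q => ρ q.1 ⁻¹' Metric.ball 0 (1 / (q.2 + 1))
  have h4 : 𝓝 (1 : G) = ⨅ q, 𝓟 (s q) := by
    rw [hρ, iInf_prod]
    exact iInf_congr fun i => (Metric.nhds_basis_ball_inv_nat_succ.comap (ρ i)).eq_iInf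
  have h5 := hasBasis_iInf_principal_finite s
  rw [← h4] at h5
  refine ⟨range fun t : Finset (Option ι × ℕ) => ⋂ i ∈ t, s i, h5.to_hasBasis
    (fun t ht => ⟨_, ⟨ht.toFinset, rfl⟩, by simp⟩) ?_, mk_range_le.trans ?_⟩
  · rintro _ ⟨t, rfl⟩
    exact ⟨t, t.finite_toSet, by simp⟩
  · refine (mk_le_of_surjective List.toFinset_surjective).trans
      ((mk_list_le_max _).trans (max_le hκ ?_))
    rw [mk_prod, lift_id, lift_id, mk_option]
    exact mul_le_of_le hκ (add_le_of_le hκ h1 (one_le_aleph0.trans hκ)) (mk_le_aleph0.trans hκ)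

theorem ab_metr [T2Space G] {V : Set G} (hV : V ∈ 𝓝 (1 : G)) (hm : LM G V) (ht : TL G ℵ₀) :
    TopologicalSpace.MetrizableSpace G := by
  obtain ⟨𝓑, h1, h2⟩ := char_le hV hm le_rfl ht
  exact metr (HasCountableBasis.isCountablyGenerated ⟨h1, le_aleph0_iff_set_countable.1 h2⟩)

theorem tight_eq_char [T2Space G] {V : Set G} (hV : V ∈ 𝓝 (1 : G)) (hm : LM G V) :
    sInf {κ : Cardinal | ∀ A : Set G, ∀ x ∈ closure A, ∃ B ⊆ A, #B ≤ κ ∧ x ∈ closure B}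
      = sInf {κ : Cardinal | ∃ 𝓑 : Set (Set G),
        (𝓝 (1 : G)).HasBasis (fun s => s ∈ 𝓑) id ∧ #𝓑 = κ} := by
  refine le_antisymm ?_ ?_
  · refine le_csInf ⟨_, _, (𝓝 (1 : G)).basis_sets, rfl⟩ ?_
    rintro _ ⟨𝓑, h, rfl⟩
    refine csInf_le' fun A x hx => ?_
    have h1 : (𝓝 x).HasBasis (fun s => s ∈ 𝓑) fun s => (x * ·) '' s := by
      simpa using h.map (x * ·)
    choose a ha1 ha2 using fun s : 𝓑 => (mem_closure_iff_nhds_basis' h1).1 hx s s.2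
    exact ⟨range a, range_subset_iff.2 ha2, mk_range_le,
      (mem_closure_iff_nhds_basis' h1).2 fun s hs => ⟨_, ha1 ⟨s, hs⟩, mem_range_self _⟩⟩
  · refine le_csInf ⟨#G, fun A x hx => ⟨A, subset_rfl, mk_set_le _, hx⟩⟩ fun κ hκ => ?_
    rcases le_or_gt ℵ₀ κ with h | h
    · obtain ⟨𝓑, h1, h2⟩ := char_le hV hm h fun B hB => hκ B 1 hB
      exact le_trans (csInf_le' (by exact ⟨𝓑, h1, rfl⟩)) h2
    · have h1 : ({1} : Set G) ∈ 𝓝 (1 : G) := by
        rw [← mem_interior_iff_mem_nhds, interior_eq_compl_closure_compl]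
        intro h2
        obtain ⟨B, h3, h4, h5⟩ := hκ _ _ h2
        rw [(lt_aleph0_iff_set_finite.1 (h4.trans_lt h)).isClosed.closure_eq] at h5
        exact h3 h5 rfl
      obtain ⟨B, -, h3, h4⟩ := hκ {1} 1 (subset_closure rfl)
      refine le_trans (b := 1) (csInf_le' ⟨{{1}}, ⟨fun U => ⟨fun hU =>
        ⟨_, rfl, by simpa using mem_of_mem_nhds hU⟩, ?_⟩⟩, mk_singleton _⟩) (le_trans ?_ h3)
      · rintro ⟨_, rfl, h⟩
        exact mem_of_superset h1 h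
      · exact Cardinal.one_le_iff_ne_zero.2 (mk_set_ne_zero_iff.2 (closure_nonempty_iff.1 ⟨_, h4⟩))

end

end Pool.Agent.H2.MG
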