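import Mathlib
import Pool.Agent.H2.MG4

set_option autoImplicit false

/-! A minimal countably tight group that is not sequential. -/

namespace Pool.Agent.H2.MG

open Filter Topology Set

attribute [-simp] ZMod.neg_eq_self_mod_two

theorem GF.tmul {G α : Type} [Group G] {F : Filter G} (h : GF F) {l : Filter α} {u v : α → G}
    (hu : Tendsto u l F) (hv : Tendsto v l F) : Tendsto (fun t => u t * v t) l F :=
  h.mul.comp (hu.prodMk hv)

theorem GF.tinv {G α : Type} [Group G] {F : Filter G} (h : GF F) {l : Filter α} {u : α → G}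
    (hu : Tendsto u l F) : Tendsto (fun t => (u t)⁻¹) l F :=
  h.inv.comp hu

/-- the countable Boolean group -/
abbrev BV : Type := ℕ →₀ ZMod 2

/-- its algebraic dual -/
abbrev BD : Type := Module.Dual (ZMod 2) BV

/-- the Heisenberg group of the pairing -/
@[ext] structure HH where
  a : ZMod 2
  f : BD
  v : BV

noncomputable instance : Mul HH := ⟨fun x y => ⟨x.a + y.a + x.f y.v, x.f + y.f, x.v + y.v⟩⟩
noncomputable instance : One HH := ⟨⟨0, 0, 0⟩⟩
noncomputable instance : Inv HH := ⟨fun x => ⟨-x.a + x.f x.v, -x.f, -x.v⟩⟩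

@[simp] theorem HH.mul_a (x y : HH) : (x * y).a = x.a + y.a + x.f y.v := rfl
@[simp] theorem HH.mul_f (x y : HH) : (x * y).f = x.f + y.f := rfl
@[simp] theorem HH.mul_v (x y : HH) : (x * y).v = x.v + y.v := rfl
@[simp] theorem HH.one_a : (1 : HH).a = 0 := rfl
@[simp] theorem HH.one_f : (1 : HH).f = 0 := rfl
@[simp] theorem HH.one_v : (1 : HH).v = 0 := rfl
@[simp] theorem HH.inv_a (x : HH) : x⁻¹.a = -x.a + x.f x.v := rfl
@[simp] theorem HH.inv_f (x : HH) : x⁻¹.f = -x.f := rfl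
@[simp] theorem HH.inv_v (x : HH) : x⁻¹.v = -x.v := rfl

noncomputable instance : Group HH := Group.ofLeftAxioms
  (fun x y z => HH.ext (by simp; ring) (add_assoc _ _ _) (add_assoc _ _ _))
  (fun x => HH.ext (by simp) (by simp) (by simp))
  fun x => HH.ext (by simp) (by simp) (by simp)

/-- basic neighbourhoods -/
def hS (g : BD) : Set HH := {x | x.a = 0 ∧ x.f = 0 ∧ g x.v = 0}

/-- the neighbourhood filter of the identity -/
noncomputable def hF : Filter HH := ⨅ g, 𝓟 (hS g)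

theorem hS_mem (g : BD) : hS g ∈ hF := mem_iInf_of_mem g (mem_principal_self _)

theorem tendsto_hF {α : Type} {l : Filter α} {u : α → HH} :
    Tendsto u l hF ↔ ∀ g, ∀ᶠ t in l, u t ∈ hS g := by
  simp only [hF, tendsto_iInf, tendsto_principal]

theorem hF_gf : GF hF where
  one := le_iInf fun g => by simp [hS]
  mul := tendsto_hF.2 fun g => mem_of_superset (prod_mem_prod (hS_mem g) (hS_mem g))
    fun z hz => by simp [hS, hz.1.1, hz.1.2.1, hz.1.2.2, hz.2.1, hz.2.2.1, hz.2.2.2]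
  inv := tendsto_hF.2 fun g => mem_of_superset (hS_mem g) fun z hz => by
    simp [hS, hz.1, hz.2.1, hz.2.2]
  conj y := tendsto_hF.2 fun g => mem_of_superset (inter_mem (hS_mem g) (hS_mem y.f))
    fun z hz => by simp [hS, hz.1.1, hz.1.2.1, hz.1.2.2, hz.2.2.2]

theorem hF_sep (x : HH) (hx : x ≠ 1) : {x}ᶜ ∈ hF := by
  by_cases h : x.v = 0
  · refine mem_of_superset (hS_mem 0) fun y hy h' => hx ?_
    rw [show y = x from h'] at hy
    exact HH.ext hy.1 hy.2.1 h
  · obtain ⟨g, hg⟩ := not_forall.1 (mt (Module.forall_dual_apply_eq_zero_iff (ZMod 2) x.v).1 h)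
    refine mem_of_superset (hS_mem g) fun y hy h' => hg ?_
    rw [← show y = x from h']
    exact hy.2.2

theorem hF_basis {U : Set HH} (hU : U ∈ hF) :
    ∃ I : Finset BD, ∀ v : BV, (∀ g ∈ I, g v = 0) → (⟨0, 0, v⟩ : HH) ∈ U := by
  obtain ⟨I, hI, h⟩ := (hasBasis_iInf_principal_finite hS).mem_iff.1 hU
  exact ⟨hI.toFinset, fun v hv => h (mem_iInter₂.2 fun g hg =>
    ⟨rfl, rfl, hv g (hI.mem_toFinset.2 hg)⟩)⟩

theorem hF_min (F : Filter HH) (h : GF F) (h1 : hF ≤ F) (h2 : ∀ x : HH, x ≠ 1 → {x}ᶜ ∈ F) :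
    F ≤ hF := by
  have hz : {x : HH | x.f = 0 → x.v = 0 → x.a = 0} ∈ F := by
    refine mem_of_superset (h2 ⟨1, 0, 0⟩ fun h => one_ne_zero (congrArg HH.a h))
      fun x hx h3 h4 => ?_
    by_contra h5
    exact hx (HH.ext ((show ∀ a : ZMod 2, ¬ a = 0 → a = 1 by decide) _ h5) h3 h4)
  have hc : ∀ y : HH, ∀ᶠ x in F, (y * x * y⁻¹ * x⁻¹).f = 0 → (y * x * y⁻¹ * x⁻¹).v = 0 →
      (y * x * y⁻¹ * x⁻¹).a = 0 := fun y =>
    (h.mul.comp ((h.conj y).prodMk h.inv)).eventually hz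
  have ha : ∀ g : BD, ∀ᶠ x in F, g x.v = 0 := fun g =>
    (hc ⟨0, g, 0⟩).mono fun x hx => by simp at hx; linear_combination hx
  have hb : ∀ w : BV, ∀ᶠ x in F, x.f w = 0 := fun w =>
    (hc ⟨0, 0, w⟩).mono fun x hx => by simp at hx; linear_combination -hx
  have key : ∀ u : HH × HH → HH, Tendsto u (F ×ˢ F) F → ∃ U ∈ F, ∀ x ∈ U, ∀ y ∈ U,
      (u (x, y)).f = 0 → (u (x, y)).v = 0 → (u (x, y)).a = 0 := fun u hu => by
    obtain ⟨U, hU, h⟩ := mem_prod_self_iff.1 (mem_map.1 (hu hz))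
    exact ⟨U, hU, fun x hx y hy => h (mk_mem_prod hx hy)⟩
  obtain ⟨U, hU, hU'⟩ := key (fun z => z.1 * z.2 * (z.1⁻¹ * z.2⁻¹)) 
    (h.tmul h.mul (h.tmul (h.tinv tendsto_fst) (h.tinv tendsto_snd)))
  obtain ⟨I, hI⟩ := hF_basis (h1 hU)
  have hf : ∀ᶠ x in F, x.f = 0 := by
    obtain ⟨r, hr⟩ : ∃ r : (I → ZMod 2) → BV, ∀ w, ∀ g ∈ I, g (r fun g => g.1 w) = g w :=
      ⟨Function.invFun fun v (g : I) => g.1 v, fun w g hg =>
        congrFun (Function.invFun_eq (f := fun v (g : I) => g.1 v) ⟨w, rfl⟩) ⟨g, hg⟩⟩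
    have h3 : ∀ᶠ x in F, ∀ t, x.f (r t) = 0 := eventually_all.2 fun t => hb (r t)
    filter_upwards [hU, h3] with x hx hx'
    refine LinearMap.ext fun w => ?_
    have h4 := hU' x hx _ (hI (w - r fun g => g.1 w) fun g hg => by rw [map_sub, hr w g hg, sub_self])
    simp [hx'] at h4
    rw [LinearMap.zero_apply]
    linear_combination h4 (by abel)
  obtain ⟨W, hW, hW'⟩ := key (fun z => z.1 * z.2⁻¹) (h.tmul tendsto_fst (h.tinv tendsto_snd))
  obtain ⟨J, hJ⟩ := hF_basis (h1 hW)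
  refine le_iInf fun g => le_principal_iff.2 ?_
  have h4 : ∀ᶠ x in F, ∀ g ∈ J, g x.v = 0 := (eventually_all_finset J).2 fun g _ => ha g
  filter_upwards [hf, hW, ha g, h4] with x h3 h4 h5 h6
  have h7 := hW' x h4 _ (hJ x.v h6)
  exact ⟨by simpa [h3] using h7, h3, h5⟩

theorem hF_ne : {(1 : HH)} ∉ hF := by
  intro h
  obtain ⟨I, hI⟩ := hF_basis h
  obtain ⟨v, w, h1, h2⟩ := Finite.exists_ne_map_eq_of_infinite fun (v : BV) (g : I) => g.1 v
  exact h1 (sub_eq_zero.1 (congrArg HH.v (hI (v - w) fun g hg => by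
    rw [map_sub, sub_eq_zero]; exact congrFun h2 ⟨g, hg⟩)))

theorem hF_seq (x : ℕ → HH) (hx : Function.Injective x) : ¬ Tendsto x atTop hF := by
  intro h
  rw [tendsto_hF] at h
  obtain ⟨b, hb, h1, h2⟩ := exists_linearIndependent (ZMod 2) (range fun n => (x n).v)
  obtain ⟨g, hg⟩ := LinearMap.exists_extend
    ((Module.Basis.span h2).constr (ZMod 2) fun _ => (1 : ZMod 2))
  have h3 : ∀ w ∈ b, g w = 1 := fun w hw => by
    have := LinearMap.congr_fun hg (Module.Basis.span h2 ⟨w, hw⟩)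
    rw [Module.Basis.constr_basis] at this
    simpa using this
  obtain ⟨N, hN⟩ := eventually_atTop.1 (h g)
  have h4 : b.Finite := ((finite_lt_nat N).image fun n => (x n).v).subset fun w hw => by
    obtain ⟨n, rfl⟩ := hb hw
    refine ⟨n, show n < N from not_le.1 fun hn => ?_, rfl⟩
    exact one_ne_zero ((h3 _ hw).symm.trans (hN n hn).2.2)
  haveI := Module.Finite.span_of_finite (ZMod 2) h4
  haveI : Finite (Submodule.span (ZMod 2) b) := Module.finite_of_finite (ZMod 2)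
  refine infinite_of_injective_forall_mem (f := fun n => (x (n + N)).v) (fun n m hnm => ?_)
    (fun n => ?_) (toFinite (Submodule.span (ZMod 2) b : Set BV))
  · have h5 := hN _ (Nat.le_add_left N n)
    have h6 := hN _ (Nat.le_add_left N m)
    simpa using hx (HH.ext (h5.1.trans h6.1.symm) (h5.2.1.trans h6.2.1.symm) hnm)
  · rw [h1]; exact Submodule.subset_span ⟨_, rfl⟩

theorem heis : ∃ (G : Type) (_ : Group G) (τ : TopologicalSpace G), IsTopologicalGroup G ∧
    T2Space G ∧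
    (∀ σ : TopologicalSpace G, @IsTopologicalGroup G σ _ → @T2Space G σ → τ ≤ σ → σ = τ) ∧
    (∀ (A : Set G) (x : G), x ∈ closure A → ∃ B ⊆ A, B.Countable ∧ x ∈ closure B) ∧
    ¬ SequentialSpace G := by
  obtain ⟨τ, hτ, h⟩ := hF_gf.exists_top
  haveI : T2Space HH := IsTopologicalGroup.t2Space_of_one_sep fun x hx =>
    ⟨{x}ᶜ, h ▸ hF_sep x hx, fun h => h rfl⟩
  have hm : LM HH univ := fun F h4 h5 h6 _ => h ▸ hF_min F h4 (h ▸ h5) h6
  refine ⟨HH, inferInstance, τ, hτ, inferInstance, fun σ h1 h2 h3 =>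
    @LM.to_top HH _ τ hτ _ hm σ h1 h2 h3 univ_mem,
    fun A x hx => ?_, fun hs => hF_ne ?_⟩
  · have h1 : (x * ·) '' hS 0 ∈ 𝓝 x := by
      have := (isOpenMap_mul_left x).image_mem_nhds (x := 1) (h ▸ hS_mem 0)
      rwa [mul_one] at this
    refine ⟨A ∩ (x * ·) '' hS 0, inter_subset_left, (Countable.image ?_ _).mono inter_subset_right,
      ?_⟩
    · exact (countable_range fun v : BV => (⟨0, 0, v⟩ : HH)).mono fun y hy =>
        mem_range.2 ⟨y.v, HH.ext hy.1.symm hy.2.1.symm rfl⟩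
    · rw [mem_closure_iff_nhds] at hx ⊢
      intro t ht
      obtain ⟨y, h2, h3⟩ := hx _ (inter_mem ht h1)
      exact ⟨y, h2.1, h3, h2.2⟩
  · rw [← h]
    refine (isClosed_compl_iff.1 (IsSeqClosed.isClosed fun x p hx hp hp1 => ?_)).mem_nhds rfl
    rw [show p = 1 from hp1] at hp
    obtain ⟨y, h1, h2⟩ := inj_seq hx hp
    exact hF_seq y h1 (h ▸ h2)

end Pool.Agent.H2.MG
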