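import Mathlib

set_option autoImplicit false

namespace Pool.Agent.H2.MulTab

open Finset

theorem cheb {Ω ι : Type*} (s : Finset Ω) (P : Finset ι) (Y : ι → Ω → ℝ) (v : ι → ℝ)
    (h0 : ∀ p ∈ P, ∀ q ∈ P, p ≠ q → ∑ w ∈ s, Y p w * Y q w = 0)
    (h1 : ∀ p ∈ P, ∑ w ∈ s, Y p w * Y p w ≤ v p) (t : ℝ) (ht : 0 < t)
    (B : Finset Ω) (hB : B ⊆ s) (hBt : ∀ w ∈ B, t ≤ |∑ p ∈ P, Y p w|) :
    (B.card : ℝ) * t ^ 2 ≤ ∑ p ∈ P, v p := by
  classical
  have e1 : ∑ w ∈ s, (∑ p ∈ P, Y p w) ^ 2 = ∑ p ∈ P, ∑ w ∈ s, Y p w * Y p w := by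
    simp_rw [sq, Finset.sum_mul_sum]
    rw [Finset.sum_comm]
    refine Finset.sum_congr rfl fun p hp => ?_
    rw [Finset.sum_comm, Finset.sum_eq_single p]
    · intro q hq hqp
      exact h0 p hp q hq (Ne.symm hqp)
    · intro h; exact absurd hp h
  calc (B.card : ℝ) * t ^ 2 = ∑ w ∈ B, t ^ 2 := by simp
    _ ≤ ∑ w ∈ B, (∑ p ∈ P, Y p w) ^ 2 := by
        refine Finset.sum_le_sum fun w hw => ?_
        rw [← sq_abs (∑ p ∈ P, Y p w)]
        exact pow_le_pow_left₀ ht.le (hBt w hw) 2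
    _ ≤ ∑ w ∈ s, (∑ p ∈ P, Y p w) ^ 2 :=
        Finset.sum_le_sum_of_subset_of_nonneg hB fun _ _ _ => sq_nonneg _
    _ ≤ _ := by rw [e1]; exact Finset.sum_le_sum h1

/-- indicator of divisibility -/
noncomputable def I (p n : ℕ) : ℝ := if p ∣ n then 1 else 0

theorem sumI (d M : ℕ) (hd : d ∣ M) (hd0 : 0 < d) : ∑ n ∈ Ioc 0 M, I d n = M / d := by
  unfold I
  rw [Finset.sum_boole, Nat.Ioc_filter_dvd_card_eq_div, Nat.cast_div hd (by positivity)]

theorem I_mul (p q n : ℕ) (h : Nat.Coprime p q) : I p n * I q n = I (p * q) n := by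
  unfold I
  by_cases h1 : p ∣ n <;> by_cases h2 : q ∣ n
  · simp [h1, h2, h.mul_dvd_of_dvd_of_dvd h1 h2]
  · have : ¬ p * q ∣ n := fun h3 => h2 (dvd_trans (Dvd.intro_left _ rfl) h3)
    simp [h2, this]
  · have : ¬ p * q ∣ n := fun h3 => h1 (dvd_trans (Dvd.intro _ rfl) h3)
    simp [h1, this]
  · have : ¬ p * q ∣ n := fun h3 => h1 (dvd_trans (Dvd.intro _ rfl) h3)
    simp [h1, this]

theorem I_sq (p n : ℕ) : I p n * I p n = I p n := by
  unfold I; split_ifs <;> simp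

theorem I_prod (p a b : ℕ) (hp : p.Prime) : I p (a * b) = 1 - (1 - I p a) * (1 - I p b) := by
  unfold I
  by_cases h1 : p ∣ a <;> by_cases h2 : p ∣ b <;> simp [h1, h2, hp.dvd_mul]

theorem sumJ (p M : ℕ) (hd : p ∣ M) (hp : 0 < p) :
    ∑ n ∈ Ioc 0 M, (1 - I p n) = M * (1 - 1 / (p : ℝ)) := by
  rw [Finset.sum_sub_distrib, sumI p M hd hp]; simp; ring

theorem sumJJ (p q M : ℕ) (h : Nat.Coprime p q) (hd : p ∣ M) (hd' : q ∣ M) (hp : 0 < p)
    (hq : 0 < q) :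
    ∑ n ∈ Ioc 0 M, (1 - I p n) * (1 - I q n) = M * ((1 - 1 / (p : ℝ)) * (1 - 1 / (q : ℝ))) := by
  have : ∀ n, (1 - I p n) * (1 - I q n) = 1 - I p n - I q n + I (p * q) n := by
    intro n; rw [← I_mul p q n h]; ring
  simp_rw [this, Finset.sum_add_distrib, Finset.sum_sub_distrib, sumI p M hd hp, sumI q M hd' hq,
    sumI (p * q) M (h.mul_dvd_of_dvd_of_dvd hd hd') (by positivity)]
  simp; field_simp; ring

/-- the multiplication table -/
def T (N : ℕ) : Finset ℕ := (Ioc 0 N ×ˢ Ioc 0 N).image fun x => x.1 * x.2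

theorem table_bound (P : Finset ℕ) (hP : ∀ p ∈ P, p.Prime) (N : ℕ) (hN : ∀ p ∈ P, p ∣ N)
    (S : ℝ) (hS : S = ∑ p ∈ P, 1 / (p : ℝ)) (hS0 : 0 < S) :
    ((T N).card : ℝ) * S ≤ 48 * (N : ℝ) ^ 2 := by
  classical
  have hco : ∀ p ∈ P, ∀ q ∈ P, p ≠ q → Nat.Coprime p q := fun p hp q hq hpq =>
    (Nat.coprime_primes (hP p hp) (hP q hq)).2 hpq
  have hM : ∀ p ∈ P, p ∣ N * N := fun p hp => dvd_mul_of_dvd_left (hN p hp) N
  set B1 : Finset ℕ := (Ioc 0 (N * N)).filter fun n => 5 * S / 4 ≤ ∑ p ∈ P, I p n with hB1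
  set B2 : Finset (ℕ × ℕ) := (Ioc 0 N ×ˢ Ioc 0 N).filter
    fun x => ∑ p ∈ P, I p (x.1 * x.2) < 5 * S / 4 with hB2
  have hsub : T N ⊆ B1 ∪ B2.image fun x => x.1 * x.2 := by
    intro n hn
    obtain ⟨x, hx, rfl⟩ := Finset.mem_image.1 hn
    by_cases h : 5 * S / 4 ≤ ∑ p ∈ P, I p (x.1 * x.2)
    · refine Finset.mem_union_left _ (Finset.mem_filter.2 ⟨?_, h⟩)
      simp only [mem_product, mem_Ioc] at hx ⊢
      exact ⟨Nat.mul_pos hx.1.1 hx.2.1, Nat.mul_le_mul hx.1.2 hx.2.2⟩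
    · exact Finset.mem_union_right _ (Finset.mem_image.2
        ⟨x, Finset.mem_filter.2 ⟨hx, not_le.1 h⟩, rfl⟩)
  have hc : ((T N).card : ℝ) ≤ B1.card + B2.card := by
    have := (Finset.card_le_card hsub).trans ((Finset.card_union_le _ _).trans
      (Nat.add_le_add_left Finset.card_image_le _))
    exact_mod_cast this
  have c1 := cheb (Ioc 0 (N * N)) P (fun p n => (1 - I p n) - (1 - 1 / (p : ℝ)))
    (fun p => (N : ℝ) ^ 2 * (1 / (p : ℝ))) (by
      intro p hp q hq hpq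
      have e : ∀ n, ((1 - I p n) - (1 - 1 / (p : ℝ))) * ((1 - I q n) - (1 - 1 / (q : ℝ))) =
          (1 - I p n) * (1 - I q n) - (1 - 1 / (q : ℝ)) * (1 - I p n)
            - (1 - 1 / (p : ℝ)) * (1 - I q n) + (1 - 1 / (p : ℝ)) * (1 - 1 / (q : ℝ)) := by
        intro n; ring
      simp_rw [e, Finset.sum_add_distrib]
      rw [Finset.sum_sub_distrib, Finset.sum_sub_distrib, ← Finset.mul_sum, ← Finset.mul_sum,
        sumJJ p q _ (hco p hp q hq hpq) (hM p hp) (hM q hq) (hP p hp).pos (hP q hq).pos,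
        sumJ p _ (hM p hp) (hP p hp).pos, sumJ q _ (hM q hq) (hP q hq).pos]
      simp; ring) (by
      intro p hp
      have e : ∀ n, ((1 - I p n) - (1 - 1 / (p : ℝ))) * ((1 - I p n) - (1 - 1 / (p : ℝ))) =
          (1 - 2 * (1 / (p : ℝ))) * I p n + (1 / (p : ℝ)) ^ 2 := by
        intro n; have := I_sq p n; linear_combination this
      simp_rw [e, Finset.sum_add_distrib]
      rw [← Finset.mul_sum, sumI p _ (hM p hp) (hP p hp).pos]
      simp only [sum_const, Nat.card_Ioc, tsub_zero, nsmul_eq_mul]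
      push_cast
      have : (0 : ℝ) ≤ (N : ℝ) ^ 2 * (1 / (p : ℝ)) ^ 2 := by positivity
      have e2 : (N : ℝ) * N / p = (N : ℝ) ^ 2 * (1 / (p : ℝ)) := by ring
      rw [e2]; nlinarith) (S / 4) (by positivity) B1 (Finset.filter_subset _ _) (by
      intro n hn
      have h := (Finset.mem_filter.1 hn).2
      have e : ∑ p ∈ P, ((1 - I p n) - (1 - 1 / (p : ℝ))) = S - ∑ p ∈ P, I p n := by
        rw [hS, ← Finset.sum_sub_distrib]; refine Finset.sum_congr rfl fun p _ => by ring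
      rw [e]; refine le_abs.2 (Or.inr (by linarith)))
  have c2 := cheb (Ioc 0 N ×ˢ Ioc 0 N) P
    (fun p x => (1 - I p x.1) * (1 - I p x.2) - (1 - 1 / (p : ℝ)) ^ 2)
    (fun p => (N : ℝ) ^ 2 * (2 * (1 / (p : ℝ)))) (by
      intro p hp q hq hpq
      have e : ∀ x : ℕ × ℕ, ((1 - I p x.1) * (1 - I p x.2) - (1 - 1 / (p : ℝ)) ^ 2) *
          ((1 - I q x.1) * (1 - I q x.2) - (1 - 1 / (q : ℝ)) ^ 2) =
          ((1 - I p x.1) * (1 - I q x.1)) * ((1 - I p x.2) * (1 - I q x.2))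
            - (1 - 1 / (q : ℝ)) ^ 2 * ((1 - I p x.1) * (1 - I p x.2))
            - (1 - 1 / (p : ℝ)) ^ 2 * ((1 - I q x.1) * (1 - I q x.2))
            + (1 - 1 / (p : ℝ)) ^ 2 * (1 - 1 / (q : ℝ)) ^ 2 := by
        intro n; ring
      simp_rw [e, Finset.sum_add_distrib]
      rw [Finset.sum_sub_distrib, Finset.sum_sub_distrib, ← Finset.mul_sum, ← Finset.mul_sum,
        Finset.sum_product, Finset.sum_product, Finset.sum_product]
      simp only
      rw [← Finset.sum_mul_sum, ← Finset.sum_mul_sum, ← Finset.sum_mul_sum,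
        sumJJ p q _ (hco p hp q hq hpq) (hN p hp) (hN q hq) (hP p hp).pos (hP q hq).pos,
        sumJ p _ (hN p hp) (hP p hp).pos, sumJ q _ (hN q hq) (hP q hq).pos]
      simp; ring) (by
      intro p hp
      have e : ∀ x : ℕ × ℕ, ((1 - I p x.1) * (1 - I p x.2) - (1 - 1 / (p : ℝ)) ^ 2) *
          ((1 - I p x.1) * (1 - I p x.2) - (1 - 1 / (p : ℝ)) ^ 2) =
          (1 - 2 * (1 - 1 / (p : ℝ)) ^ 2) * ((1 - I p x.1) * (1 - I p x.2))
            + (1 - 1 / (p : ℝ)) ^ 4 := by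
        intro x
        have h1 := I_sq p x.1
        have h2 := I_sq p x.2
        have a1 : (1 - I p x.1) * (1 - I p x.1) = 1 - I p x.1 := by linear_combination h1
        have a2 : (1 - I p x.2) * (1 - I p x.2) = 1 - I p x.2 := by linear_combination h2
        linear_combination (1 - I p x.2) * (1 - I p x.2) * a1 + (1 - I p x.1) * a2
      simp_rw [e, Finset.sum_add_distrib]
      rw [← Finset.mul_sum, Finset.sum_product]
      simp only
      rw [← Finset.sum_mul_sum, sumJ p _ (hN p hp) (hP p hp).pos]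
      simp only [sum_const, card_product, Nat.card_Ioc, tsub_zero, nsmul_eq_mul]
      push_cast
      have hu0 : (0 : ℝ) ≤ 1 / (p : ℝ) := by positivity
      have hu1 : 1 / (p : ℝ) ≤ 1 := by
        rw [div_le_one (by exact_mod_cast (hP p hp).pos)]; exact_mod_cast (hP p hp).pos
      generalize 1 / (p : ℝ) = u at hu0 hu1
      have k : (1 - u) ^ 2 - (1 - u) ^ 4 ≤ 2 * u := by
        have : (1 - u) ^ 2 ≤ 1 := by nlinarith
        have h2 : 0 ≤ (1 - u) ^ 2 := sq_nonneg _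
        have h3 : 0 ≤ 1 - (1 - u) ^ 2 := by linarith
        nlinarith
      have : (0 : ℝ) ≤ (N : ℝ) ^ 2 := by positivity
      nlinarith [mul_le_mul_of_nonneg_left k this]) (S / 4) (by positivity) B2
      (Finset.filter_subset _ _) (by
      intro x hx
      have h := (Finset.mem_filter.1 hx).2
      have e : ∑ p ∈ P, ((1 - I p x.1) * (1 - I p x.2) - (1 - 1 / (p : ℝ)) ^ 2) =
          ∑ p ∈ P, (1 - (1 - 1 / (p : ℝ)) ^ 2) - ∑ p ∈ P, I p (x.1 * x.2) := by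
        rw [← Finset.sum_sub_distrib]; refine Finset.sum_congr rfl fun p hp => ?_
        rw [I_prod p _ _ (hP p hp)]; ring
      have e2 : 3 / 2 * S ≤ ∑ p ∈ P, (1 - (1 - 1 / (p : ℝ)) ^ 2) := by
        rw [hS, Finset.mul_sum]
        refine Finset.sum_le_sum fun p hp => ?_
        have hu0 : (0 : ℝ) ≤ 1 / (p : ℝ) := by positivity
        have hu1 : 1 / (p : ℝ) ≤ 1 / 2 :=
          one_div_le_one_div_of_le (by norm_num) (by exact_mod_cast (hP p hp).two_le)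
        nlinarith
      rw [e]; refine le_abs.2 (Or.inl (by linarith)))
  rw [← Finset.mul_sum, ← hS] at c1
  rw [← Finset.mul_sum, ← Finset.mul_sum, ← hS] at c2
  have d1 : (B1.card : ℝ) * S ≤ 16 * (N : ℝ) ^ 2 := by
    have : ((B1.card : ℝ) * S) * S ≤ (16 * (N : ℝ) ^ 2) * S := by nlinarith
    exact le_of_mul_le_mul_right this hS0
  have d2 : (B2.card : ℝ) * S ≤ 32 * (N : ℝ) ^ 2 := by
    have : ((B2.card : ℝ) * S) * S ≤ (32 * (N : ℝ) ^ 2) * S := by nlinarith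
    exact le_of_mul_le_mul_right this hS0
  nlinarith [mul_le_mul_of_nonneg_right hc hS0.le]

theorem big_primes (K : ℝ) : ∃ P : Finset ℕ, (∀ p ∈ P, p.Prime) ∧ K ≤ ∑ p ∈ P, 1 / (p : ℝ) := by
  by_contra h
  push Not at h
  apply Nat.Primes.not_summable_one_div
  refine summable_of_sum_le (c := K) (fun _ => by positivity) fun u => ?_
  have := h (u.map ⟨fun p : Nat.Primes => (p : ℕ), fun a b hab => Subtype.ext hab⟩) (by
    intro p hp
    obtain ⟨q, -, rfl⟩ := Finset.mem_map.1 hp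
    exact q.2)
  rw [Finset.sum_map] at this
  exact this.le

theorem table (ε : ℝ) (hε : 0 < ε) (N0 : ℕ) :
    ∃ N : ℕ, N0 < N ∧ ((T N).card : ℝ) ≤ ε * (N : ℝ) ^ 2 := by
  obtain ⟨P, hP, hK⟩ := big_primes (48 / ε)
  have hQ : 0 < ∏ p ∈ P, p := Finset.prod_pos fun p hp => (hP p hp).pos
  refine ⟨(∏ p ∈ P, p) * (N0 + 1), by nlinarith, ?_⟩
  have hS0 : 0 < ∑ p ∈ P, 1 / (p : ℝ) := lt_of_lt_of_le (by positivity) hK
  have := table_bound P hP ((∏ p ∈ P, p) * (N0 + 1))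
    (fun p hp => dvd_mul_of_dvd_left (Finset.dvd_prod_of_mem _ hp) _) _ rfl hS0
  rw [div_le_iff₀ hε] at hK
  set X := ((T ((∏ p ∈ P, p) * (N0 + 1))).card : ℝ)
  set Y := (((∏ p ∈ P, p) * (N0 + 1) : ℕ) : ℝ) ^ 2
  have hY : 0 ≤ Y := by positivity
  have : X * ∑ p ∈ P, 1 / (p : ℝ) ≤ (ε * Y) * ∑ p ∈ P, 1 / (p : ℝ) := by nlinarith
  exact le_of_mul_le_mul_right this hS0

end Pool.Agent.H2.MulTab
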