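import Mathlib

set_option autoImplicit false

namespace Pool.Agent.H2.OD

open Finset nonZeroDivisors

/-- The pairing of two finitely supported sequences. -/
noncomputable def pr (a b : ℕ →₀ ℕ) : ℕ := a.sum fun i x => x * b i

theorem pr_add_left (a a' b : ℕ →₀ ℕ) : pr (a + a') b = pr a b + pr a' b :=
  Finsupp.sum_add_index' (by simp) (by intros; ring)

theorem pr_add_right (a b b' : ℕ →₀ ℕ) : pr a (b + b') = pr a b + pr a b' := by
  simp [pr, Finsupp.sum, mul_add, sum_add_distrib]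

theorem pr_zero_left (b : ℕ →₀ ℕ) : pr 0 b = 0 := by simp [pr]

theorem pr_zero_right (a : ℕ →₀ ℕ) : pr a 0 = 0 := by simp [pr]

theorem pr_mono {a a' b b' : ℕ →₀ ℕ} (h : a ≤ a') (h' : b ≤ b') : pr a b ≤ pr a' b' := by
  obtain ⟨c, rfl⟩ := exists_add_of_le h
  obtain ⟨d, rfl⟩ := exists_add_of_le h'
  rw [pr_add_left, pr_add_right]; omega

theorem pr_smul (m : ℕ) (a b : ℕ →₀ ℕ) : pr (m • a) b = m * pr a b := by
  induction m with
  | zero => simp [pr_zero_left]
  | succ m ih => rw [succ_nsmul, pr_add_left, ih]; ring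

theorem pr_single (i j : ℕ) : pr (Finsupp.single i 1) (Finsupp.single j 1) = if i = j then 1 else 0 := by
  unfold pr
  rw [Finsupp.sum_single_index (by simp)]
  by_cases h : i = j
  · subst h; simp
  · simp [h, Finsupp.single_apply, Ne.symm h]

/-- The infinite Heisenberg monoid. -/
@[ext] structure G where
  c : ℕ
  a : ℕ →₀ ℕ
  b : ℕ →₀ ℕ

noncomputable instance : Mul G := ⟨fun x y => ⟨x.c + y.c + pr x.a y.b, x.a + y.a, x.b + y.b⟩⟩
instance : One G := ⟨⟨0, 0, 0⟩⟩

theorem mul_c (x y : G) : (x * y).c = x.c + y.c + pr x.a y.b := rfl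
theorem mul_a (x y : G) : (x * y).a = x.a + y.a := rfl
theorem mul_b (x y : G) : (x * y).b = x.b + y.b := rfl
theorem one_c : (1 : G).c = 0 := rfl
theorem one_a : (1 : G).a = 0 := rfl
theorem one_b : (1 : G).b = 0 := rfl

noncomputable instance : Monoid G where
  mul_assoc x y z := by
    ext1
    · simp only [mul_c, mul_a, mul_b, pr_add_left, pr_add_right]; ring
    · simp only [mul_a, add_assoc]
    · simp only [mul_b, add_assoc]
  one_mul x := by
    ext1
    · simp [mul_c, one_c, one_a, pr_zero_left]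
    · simp [mul_a, one_a]
    · simp [mul_b, one_b]
  mul_one x := by
    ext1
    · simp [mul_c, one_c, one_b, pr_zero_right]
    · simp [mul_a, one_a]
    · simp [mul_b, one_b]

instance : UniqueProds G where
  uniqueMul_of_nonempty {A B} hA hB := by
    classical
    obtain ⟨a0, ha0, b0, hb0, h⟩ := UniqueSums.uniqueAdd_of_nonempty
      (hA.image fun g : G => (g.a, g.b)) (hB.image fun g : G => (g.a, g.b))
    obtain ⟨a, ha, hm⟩ := exists_max_image (A.filter fun g : G => (g.a, g.b) = a0) G.c (by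
      obtain ⟨x, hx, e⟩ := mem_image.1 ha0
      exact ⟨x, mem_filter.2 ⟨hx, e⟩⟩)
    obtain ⟨b, hb, hn⟩ := exists_max_image (B.filter fun g : G => (g.a, g.b) = b0) G.c (by
      obtain ⟨x, hx, e⟩ := mem_image.1 hb0
      exact ⟨x, mem_filter.2 ⟨hx, e⟩⟩)
    obtain ⟨ha1, ha2⟩ := mem_filter.1 ha
    obtain ⟨hb1, hb2⟩ := mem_filter.1 hb
    refine ⟨a, ha1, b, hb1, fun x y hx hy e => ?_⟩
    have e1 := congrArg G.a e
    have e2 := congrArg G.b e
    have e3 := congrArg G.c e
    rw [mul_a, mul_a] at e1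
    rw [mul_b, mul_b] at e2
    rw [mul_c, mul_c] at e3
    obtain ⟨f1, f2⟩ := h (mem_image_of_mem _ hx) (mem_image_of_mem _ hy) (by
      rw [← ha2, ← hb2]; exact Prod.ext e1 e2)
    have g1 := hm x (mem_filter.2 ⟨hx, f1⟩)
    have g2 := hn y (mem_filter.2 ⟨hy, f2⟩)
    have k1 := f1.trans ha2.symm
    have k2 := f2.trans hb2.symm
    simp only [Prod.mk.injEq] at k1 k2
    rw [k1.1, k2.2] at e3
    exact ⟨G.ext (by omega) k1.1 k1.2, G.ext (by omega) k2.1 k2.2⟩

/-- Subexponential growth gives common left multiples. -/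
theorem ore_of {R : Type} [Ring R] [NoZeroDivisors R] [Nontrivial R] [Algebra ℚ R]
    (F : ℕ → Submodule ℚ R) (hF : ∀ m, Module.Finite ℚ (F m)) (h1 : (1 : R) ∈ F 0) (a b : R)
    (hb : b ≠ 0) (hFa : ∀ m, ∀ x ∈ F m, x * a ∈ F (m + 1))
    (hFb : ∀ m, ∀ x ∈ F m, x * b ∈ F (m + 1)) (M : ℕ) (hM : Module.finrank ℚ (F M) < 2 ^ M) :
    ∃ r s : R, s ≠ 0 ∧ s * a = r * b := by
  by_contra hc
  push Not at hc
  have key : ∀ m, 2 ^ m ≤ Module.finrank ℚ (F m) := by
    intro m
    induction m with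
    | zero =>
      haveI := hF 0
      haveI : Nontrivial (F 0) := ⟨⟨⟨1, h1⟩, 0, fun h => one_ne_zero (congrArg Subtype.val h)⟩⟩
      exact Module.finrank_pos
    | succ m ih =>
      haveI := hF m
      haveI := hF (m + 1)
      let f : (F m × F m) →ₗ[ℚ] F (m + 1) :=
        { toFun := fun p => ⟨p.1 * a - p.2 * b, sub_mem (hFa m _ p.1.2) (hFb m _ p.2.2)⟩
          map_add' := fun p p' => Subtype.ext (by simp [add_mul]; abel)
          map_smul' := fun c p => Subtype.ext (by simp [smul_sub]) }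
      have hi : Function.Injective f := by
        rw [injective_iff_map_eq_zero]
        intro p hp
        have h0 : (p.1 : R) * a - p.2 * b = 0 := congrArg Subtype.val hp
        rw [sub_eq_zero] at h0
        have h2 : (p.1 : R) = 0 := by
          by_contra h
          exact hc _ _ h h0
        rw [h2, zero_mul] at h0
        have h3 : (p.2 : R) = 0 := (mul_eq_zero.1 h0.symm).resolve_right hb
        exact Prod.ext (Subtype.ext h2) (Subtype.ext h3)
      have := LinearMap.finrank_le_finrank_of_injective hi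
      rw [Module.finrank_prod] at this
      rw [pow_succ]; omega
  exact absurd (key M) (by omega)

theorem growth (C r : ℕ) : ∃ m : ℕ, C * (m + 1) ^ r < 2 ^ m := by
  have h := tendsto_pow_const_div_const_pow_of_one_lt r (r := (2 : ℝ)) (by norm_num)
  have h2 := (h.const_mul (2 * C : ℝ)).eventually (gt_mem_nhds (a := (1 : ℝ)) (by simp))
  obtain ⟨N, hN⟩ := Filter.eventually_atTop.1 h2
  refine ⟨N, ?_⟩
  have := hN (N + 1) (by omega)
  rw [← mul_div_assoc, div_lt_one (by positivity), pow_succ] at this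
  have h3 : ((C : ℝ) * (N + 1) ^ r) < 2 ^ N := by
    push_cast at this
    linarith
  exact_mod_cast h3

open Classical in
/-- The boxes. -/
noncomputable def B (K : ℕ) (w : ℕ →₀ ℕ) (m : ℕ) : Finset G :=
  (range (m ^ 2 * K + 1) ×ˢ Iic (m • w) ×ˢ Iic (m • w)).image fun p => ⟨p.1, p.2.1, p.2.2⟩

theorem mem_B {K : ℕ} {w : ℕ →₀ ℕ} {m : ℕ} {g : G} :
    g ∈ B K w m ↔ g.c ≤ m ^ 2 * K ∧ g.a ≤ m • w ∧ g.b ≤ m • w := by
  unfold B
  simp only [mem_image, mem_product, mem_range, mem_Iic]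
  constructor
  · rintro ⟨p, ⟨h1, h2, h3⟩, rfl⟩
    exact ⟨by dsimp only; omega, h2, h3⟩
  · rintro ⟨h1, h2, h3⟩
    exact ⟨(g.c, g.a, g.b), ⟨by dsimp only; omega, h2, h3⟩, rfl⟩

theorem card_I (w : ℕ →₀ ℕ) (m : ℕ) :
    #(Iic (m • w)) ≤ (∏ i ∈ w.support, (w i + 1)) * (m + 1) ^ #w.support := by
  rw [Finsupp.card_Iic, ← prod_const, ← prod_mul_distrib]
  calc ∏ i ∈ (m • w).support, #(Iic ((m • w) i))
      ≤ ∏ i ∈ w.support, #(Iic ((m • w) i)) :=
        prod_le_prod_of_subset_of_one_le' Finsupp.support_smul (fun i _ _ => by simp)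
    _ ≤ _ := prod_le_prod' fun i _ => by
        simp only [Finsupp.smul_apply, smul_eq_mul, Nat.card_Iic]; nlinarith

theorem card_B (K : ℕ) (w : ℕ →₀ ℕ) : ∃ m, #(B K w m) < 2 ^ m := by
  obtain ⟨m, hm⟩ := growth ((K + 1) * (∏ i ∈ w.support, (w i + 1)) ^ 2) (2 + 2 * #w.support)
  refine ⟨m, lt_of_le_of_lt ?_ hm⟩
  classical
  refine (card_image_le).trans ?_
  rw [card_product, card_product, card_range]
  have h1 := card_I w m
  have h2 : m ^ 2 * K + 1 ≤ (K + 1) * (m + 1) ^ 2 := by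
    have : (K + 1) * (m + 1) ^ 2 = m ^ 2 * K + 1 + (2 * m * K + K + m ^ 2 + 2 * m) := by ring
    omega
  calc _ ≤ ((K + 1) * (m + 1) ^ 2) * (((∏ i ∈ w.support, (w i + 1)) * (m + 1) ^ #w.support) *
        ((∏ i ∈ w.support, (w i + 1)) * (m + 1) ^ #w.support)) :=
        Nat.mul_le_mul h2 (Nat.mul_le_mul h1 h1)
    _ = _ := by ring

/-- The monoid algebra. -/
abbrev R : Type := MonoidAlgebra ℚ G

theorem ore (a b : R) (hb : b ≠ 0) : ∃ r s : R, s ≠ 0 ∧ s * a = r * b := by
  classical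
  set X := a.coeff.support ∪ b.coeff.support with hX
  set w : ℕ →₀ ℕ := ∑ x ∈ X, (x.a + x.b) with hw
  set K : ℕ := pr w w + ∑ x ∈ X, x.c with hK
  have hx : ∀ x ∈ X, x.c + pr w w ≤ K ∧ x.a ≤ w ∧ x.b ≤ w := by
    intro x hx
    have h1 : x.a + x.b ≤ w := single_le_sum (f := fun x : G => x.a + x.b) (fun _ _ => zero_le) hx
    have h2 : x.c ≤ ∑ x ∈ X, x.c := single_le_sum (f := G.c) (fun _ _ => Nat.zero_le _) hx
    exact ⟨by omega, le_trans le_self_add h1, le_trans le_add_self h1⟩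
  have hmul : ∀ m, ∀ y : R, y.coeff.support ⊆ X →
      ∀ x ∈ MonoidAlgebra.supported ℚ ℚ (B K w m : Set G),
        x * y ∈ MonoidAlgebra.supported ℚ ℚ (B K w (m + 1) : Set G) := by
    intro m y hy x hxm
    rw [MonoidAlgebra.mem_supported] at hxm ⊢
    intro g hg
    obtain ⟨g1, h1, g2, h2, rfl⟩ :=
      mem_mul.1 (MonoidAlgebra.support_coeff_mul_subset x y hg)
    obtain ⟨p1, p2, p3⟩ := mem_B.1 (hxm h1)
    obtain ⟨q1, q2, q3⟩ := hx g2 (hy h2)
    refine mem_B.2 ⟨?_, ?_, ?_⟩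
    · have := pr_mono p2 q3
      rw [pr_smul] at this
      rw [mul_c]
      have h5 : pr w w ≤ K := by omega
      have h6 := Nat.mul_le_mul_left m h5
      nlinarith
    · rw [mul_a, succ_nsmul]; exact add_le_add p2 q2
    · rw [mul_b, succ_nsmul]; exact add_le_add p3 q3
  obtain ⟨M, hM⟩ := card_B K w
  refine ore_of (fun m => MonoidAlgebra.supported ℚ ℚ (B K w m : Set G)) (fun m => ?_) ?_ a b hb
    (fun m => hmul m a subset_union_left) (fun m => hmul m b subset_union_right) M ?_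
  · exact Module.Finite.equiv (MonoidAlgebra.supportedEquivFinsupp (B K w m : Set G)).symm
  · rw [MonoidAlgebra.mem_supported]
    intro g hg
    have := MonoidAlgebra.support_coeff_one_subset hg
    rw [mem_one] at this
    subst this
    exact mem_B.2 ⟨by simp [one_c], by simp [one_a], by simp [one_b]⟩
  · rw [(MonoidAlgebra.supportedEquivFinsupp (B K w M : Set G)).finrank_eq,
      Module.finrank_finsupp_self]
    simpa using hM

noncomputable instance : OreLocalization.OreSet R⁰ :=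
  (OreLocalization.nonempty_oreSet_iff_of_noZeroDivisors.2 fun r s => by
    obtain ⟨r', s', h1, h2⟩ := ore r s (nonZeroDivisors.coe_ne_zero s)
    exact ⟨r', ⟨s', mem_nonZeroDivisors_of_ne_zero h1⟩, h2⟩).some

/-- A division ring with infinitely many commuting quantum pairs. -/
theorem exists_D : ∃ (D : Type) (_ : DivisionRing D) (q : D) (u t : ℕ → D),
    (∀ n, u n ≠ 0) ∧ (∀ n, t n ≠ 0) ∧ (∀ i j : ℕ, q ^ i = q ^ j → i = j) ∧
    (∀ n, u n * q = q * u n) ∧ (∀ n, t n * q = q * t n) ∧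
    (∀ n m, u n * u m = u m * u n) ∧ (∀ n m, t n * t m = t m * t n) ∧
    (∀ n m, n ≠ m → u n * t m = t m * u n) ∧ ∀ n, u n * t n = q * (t n * u n) := by
  let φ : G →* OreLocalization R⁰ R :=
    (OreLocalization.numeratorHom).comp (MonoidAlgebra.of ℚ G)
  have hi : Function.Injective (OreLocalization.numeratorHom : R → OreLocalization R⁰ R) :=
    OreLocalization.numeratorHom_inj (fun x hx => hx.1)
  have hφ : Function.Injective φ := hi.comp MonoidAlgebra.of_injective
  have h0 : ∀ g, φ g ≠ 0 := by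
    intro g hg
    have : (OreLocalization.numeratorHom : R → OreLocalization R⁰ R) (MonoidAlgebra.of ℚ G g) =
        OreLocalization.numeratorHom 0 :=
      hg.trans (map_zero (OreLocalization.numeratorRingHom : R →+* OreLocalization R⁰ R)).symm
    have := hi this
    simp at this
  have hq : ∀ i : ℕ, ((⟨1, 0, 0⟩ : G) ^ i) = ⟨i, 0, 0⟩ := by
    intro i
    induction i with
    | zero => rfl
    | succ i ih => rw [pow_succ, ih]; ext1 <;> simp [mul_c, mul_a, mul_b, pr_zero_left]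
  refine ⟨OreLocalization R⁰ R, inferInstance, φ ⟨1, 0, 0⟩,
    fun n => φ ⟨0, Finsupp.single n 1, 0⟩, fun n => φ ⟨0, 0, Finsupp.single n 1⟩,
    fun n => h0 _, fun n => h0 _, fun i j h => ?_, fun n => ?_, fun n => ?_, fun n m => ?_,
    fun n m => ?_, fun n m h => ?_, fun n => ?_⟩
  · rw [← map_pow, ← map_pow, hq, hq] at h
    exact congrArg G.c (hφ h)
  all_goals
    simp only [← map_mul]
    congr 1
    ext1 <;> simp [mul_c, mul_a, mul_b, pr_zero_left, pr_zero_right, pr_single, add_comm, *]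

end Pool.Agent.H2.OD
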