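import Pool.Agent.H2.OD1

set_option autoImplicit false

namespace Pool.Agent.H2.OD

open Filter Topology

variable {K : Type} [DivisionRing K]

/-- Sums of initial segments of a family of subgroups. -/
def T (E : ℕ → AddSubgroup K) : ℕ → AddSubgroup K
  | 0 => ⊥
  | N + 1 => T E N ⊔ E N

theorem T_mono (E : ℕ → AddSubgroup K) : Monotone (T E) :=
  monotone_nat_of_le_succ fun _ => le_sup_left

theorem le_T (E : ℕ → AddSubgroup K) {j N : ℕ} (h : j < N) : E j ≤ T E N :=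
  le_trans (le_sup_right : E j ≤ T E (j + 1)) (T_mono E h)

theorem T_le (E : ℕ → AddSubgroup K) (H : AddSubgroup K) (N : ℕ) (h : ∀ j < N, E j ≤ H) :
    T E N ≤ H := by
  induction N with
  | zero => exact bot_le
  | succ N ih => exact sup_le (ih fun j hj => h j (by omega)) (h N (by omega))

theorem mem_T (E : ℕ → AddSubgroup K) {x : K} (hx : x ∈ ⨆ j, E j) : ∃ N, x ∈ T E N := by
  refine AddSubgroup.iSup_induction E (C := fun x => ∃ N, x ∈ T E N) hx
    (fun j x hx => ⟨j + 1, le_T E (by omega) hx⟩) ⟨0, zero_mem _⟩ ?_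
  rintro x y ⟨N, h1⟩ ⟨M, h2⟩
  exact ⟨max N M, add_mem (T_mono E (le_max_left _ _) h1) (T_mono E (le_max_right _ _) h2)⟩

theorem sup_mul (E F : ℕ → AddSubgroup K) (H : AddSubgroup K)
    (h : ∀ i j, ∀ x ∈ E i, ∀ y ∈ F j, x * y ∈ H) {x y : K} (hx : x ∈ ⨆ j, E j)
    (hy : y ∈ ⨆ j, F j) : x * y ∈ H := by
  refine AddSubgroup.iSup_induction E (C := fun x => x * y ∈ H) hx (fun i x hx => ?_)
    (by simp) (fun a b ha hb => by rw [add_mul]; exact add_mem ha hb)
  exact AddSubgroup.iSup_induction F (C := fun y => x * y ∈ H) hy (fun j y hy => h i j x hx y hy)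
    (by simp) (fun a b ha hb => by rw [mul_add]; exact add_mem ha hb)

/-- Eigenspaces of conjugation. -/
def Eg (A : Subring K) (q u : K) (j : ℕ) : AddSubgroup K where
  carrier := {s | s ∈ A ∧ u * s = q ^ j * s * u}
  add_mem' := fun {a b} ha hb => ⟨add_mem ha.1 hb.1, by rw [mul_add, ha.2, hb.2, mul_add, add_mul]⟩
  zero_mem' := ⟨zero_mem _, by simp⟩
  neg_mem' := fun {a} ha => ⟨neg_mem ha.1, by rw [mul_neg, ha.2, mul_neg, neg_mul]⟩

theorem loc (A : Subring K) (q u t : K) (hq : ∀ x, q * x = x * q) (hqA : q ∈ A) (huA : u ∈ A)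
    (huA' : u⁻¹ ∈ A) (htA : t ∈ A) (hu : u ≠ 0) (ht : t ≠ 0)
    (hi : ∀ i j : ℕ, q ^ i = q ^ j → i = j) (hut : u * t = q * (t * u)) :
    ∃ I : AddSubgroup K, (∀ x ∈ I, x ∈ A) ∧ (∀ x ∈ I, ∀ y ∈ I, x * y ∈ I) ∧
      (∀ d ∈ A, u * d = d * u → t * d = d * t → ∀ x ∈ I, d * x ∈ I ∧ x * d ∈ I) ∧ (1 : K) ∉ I ∧
      t - 1 ∈ I ∧ u * (t - 1) ∈ I ∧ u⁻¹ * (t - 1) ∈ I := by
  have hqp : ∀ (j : ℕ) x, q ^ j * x = x * q ^ j := fun j x => (Commute.pow_left (hq x) j).eq
  set E := Eg A q u with hE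
  have hmul : ∀ i j, ∀ x ∈ E i, ∀ y ∈ E j, x * y ∈ E (i + j) := by
    intro i j x hx y hy
    refine ⟨mul_mem hx.1 hy.1, ?_⟩
    rw [← mul_assoc, hx.2, mul_assoc, hy.2, pow_add]
    simp only [mul_assoc]
    rw [← mul_assoc x, ← hqp j x, mul_assoc]
  have h0 : ∀ d ∈ A, u * d = d * u → d ∈ E 0 := fun d hd h => ⟨hd, by simpa using h⟩
  have ht1 : t ∈ E 1 := ⟨htA, by rw [hut, pow_one, mul_assoc]⟩
  have hind : ∀ N M, N ≤ M → ∀ x ∈ T E N, x ∈ E M → x = 0 := by
    intro N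
    induction N with
    | zero => exact fun M _ x hx _ => AddSubgroup.mem_bot.1 hx
    | succ N ih =>
      intro M hM x hx hxM
      let f : K →+ K :=
        { toFun := fun s => u * s * u⁻¹ - q ^ N * s
          map_zero' := by simp
          map_add' := fun a b => by simp only [mul_add, add_mul]; abel }
      have hf : ∀ j, ∀ s ∈ E j, f s = (q ^ j - q ^ N) * s := by
        intro j s hs
        show u * s * u⁻¹ - q ^ N * s = _
        rw [hs.2, mul_inv_cancel_right₀ hu, sub_mul]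
      have hf' : ∀ j, ∀ s ∈ E j, f s ∈ E j := by
        intro j s hs
        rw [hf j s hs]
        have := hmul 0 j _ (h0 (q ^ j - q ^ N) (sub_mem (pow_mem hqA _) (pow_mem hqA _))
          (by rw [mul_sub, sub_mul, hqp, hqp])) s hs
        rwa [zero_add] at this
      obtain ⟨s, hs, e, he, rfl⟩ := AddSubgroup.mem_sup.1 hx
      have h1 : f s ∈ T E N :=
        T_le E ((T E N).comap f) N (fun j hj y hy => le_T E hj (hf' j y hy)) hs
      have h2 : f (s + e) = f s := by rw [map_add, hf N e he, sub_self, zero_mul, add_zero]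
      have h3 := ih M (by omega) _ (h2 ▸ h1) (hf' M _ hxM)
      rw [hf M _ hxM] at h3
      refine (mul_eq_zero.1 h3).resolve_left fun h => ?_
      have := hi _ _ (sub_eq_zero.1 h)
      omega
  have hno : ∀ N, ∀ s ∈ T E N, s * (t - 1) ≠ 1 := by
    intro N
    induction N with
    | zero =>
      intro s hs
      rw [AddSubgroup.mem_bot.1 hs, zero_mul]; exact zero_ne_one
    | succ N ih =>
      intro x hx h
      obtain ⟨s, hs, e, he, rfl⟩ := AddSubgroup.mem_sup.1 hx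
      have h1 : s * t ∈ T E (N + 1) :=
        T_le E ((T E (N + 1)).comap (AddMonoidHom.mulRight t)) N
          (fun j hj y hy => le_T E (N := N + 1) (by omega) (hmul j 1 y hy t ht1)) hs
      have h2 : e * t = 1 + (s + e) - s * t := by rw [← h]; noncomm_ring
      have h3 : e * t ∈ T E (N + 1) := by
        rw [h2]
        exact sub_mem (add_mem (le_T E (by omega) (h0 1 (one_mem _) (by simp))) hx) h1
      have h4 := hind _ _ le_rfl _ h3 (hmul N 1 e he t ht1)
      rw [(mul_eq_zero.1 h4).resolve_right ht, add_zero] at h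
      exact ih s hs h
  set S : AddSubgroup K := ⨆ j, E j with hS
  have hES : ∀ j, E j ≤ S := fun j => le_iSup E j
  have hSm : ∀ x ∈ S, ∀ y ∈ S, x * y ∈ S := fun x hx y hy =>
    sup_mul E E S (fun i j x hx y hy => hES _ (hmul i j x hx y hy)) hx hy
  have hSA : S ≤ A.toAddSubgroup := iSup_le fun j x hx => hx.1
  have htS : t - 1 ∈ S := sub_mem (hES 1 ht1) (hES 0 (h0 1 (one_mem _) (by simp)))
  refine ⟨S.map (AddMonoidHom.mulRight (t - 1)), ?_, ?_, ?_, ?_, ⟨1, ?_, ?_⟩, ⟨u, ?_, rfl⟩,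
    ⟨u⁻¹, ?_, rfl⟩⟩
  · rintro _ ⟨s, hs, rfl⟩
    exact hSA (hSm _ hs _ htS)
  · rintro _ ⟨s, hs, rfl⟩ _ ⟨s', hs', rfl⟩
    exact ⟨s * (t - 1) * s', hSm _ (hSm _ hs _ htS) _ hs', by simp [mul_assoc]⟩
  · rintro d hd h1 h2 _ ⟨s, hs, rfl⟩
    have hdS := hES 0 (h0 d hd h1)
    refine ⟨⟨d * s, hSm _ hdS _ hs, by simp [mul_assoc]⟩, ⟨s * d, hSm _ hs _ hdS, ?_⟩⟩
    simp only [AddMonoidHom.mulRight_apply, mul_assoc, mul_sub, sub_mul, h2, mul_one, one_mul]
  · rintro ⟨s, hs, h⟩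
    obtain ⟨N, hN⟩ := mem_T E hs
    exact hno N s hN h
  · exact hES 0 (h0 1 (one_mem _) (by simp))
  · simp
  · exact hES 0 (h0 u huA rfl)
  · exact hES 0 (h0 u⁻¹ huA' (by rw [mul_inv_cancel₀ hu, inv_mul_cancel₀ hu]))

/-- Centralizers of the tails. -/
def Cn (u t : ℕ → K) (n : ℕ) : Subring K where
  carrier := {d | ∀ m, n ≤ m → u m * d = d * u m ∧ t m * d = d * t m}
  mul_mem' := fun {a b} ha hb m hm =>
    ⟨(Commute.mul_right (ha m hm).1 (hb m hm).1).eq, (Commute.mul_right (ha m hm).2 (hb m hm).2).eq⟩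
  one_mem' := fun m _ => by simp
  add_mem' := fun {a b} ha hb m hm =>
    ⟨(Commute.add_right (ha m hm).1 (hb m hm).1).eq, (Commute.add_right (ha m hm).2 (hb m hm).2).eq⟩
  zero_mem' := fun m _ => by simp
  neg_mem' := fun {a} ha m hm =>
    ⟨(Commute.neg_right (ha m hm).1).eq, (Commute.neg_right (ha m hm).2).eq⟩

theorem Cn_inv (u t : ℕ → K) (n : ℕ) {d : K} (hd : d ∈ Cn u t n) : d⁻¹ ∈ Cn u t n := fun m hm =>
  ⟨(Commute.inv_right₀ (hd m hm).1).eq, (Commute.inv_right₀ (hd m hm).2).eq⟩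

theorem Cn_mono (u t : ℕ → K) {n m : ℕ} (h : n ≤ m) {d : K} (hd : d ∈ Cn u t n) :
    d ∈ Cn u t m := fun k hk => hd k (h.trans hk)

theorem glob (q : K) (u t : ℕ → K) (hq : ∀ x, q * x = x * q) (hu : ∀ n, u n ≠ 0)
    (ht : ∀ n, t n ≠ 0) (hi : ∀ i j : ℕ, q ^ i = q ^ j → i = j)
    (huC : ∀ n, u n ∈ Cn u t (n + 1)) (htC : ∀ n, t n ∈ Cn u t (n + 1))
    (hut : ∀ n, u n * t n = q * (t n * u n)) (hall : ∀ x, ∃ n, x ∈ Cn u t n) :
    ∃ τ : TopologicalSpace K, @IsTopologicalRing K τ _ ∧ @T2Space K τ ∧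
      ¬ ∃ σ : TopologicalSpace K, τ ≤ σ ∧ @IsTopologicalRing K σ _ ∧ @T2Space K σ ∧
        ∀ x : K, x ≠ 0 → @ContinuousAt K K σ σ (fun y => y⁻¹) x := by
  choose I hIA hII hId hI1 h1 h2 h3 using fun n => loc (Cn u t (n + 1)) q (u n) (t n) hq
    (fun m _ => ⟨(hq _).symm, (hq _).symm⟩) (huC n) (Cn_inv u t _ (huC n)) (htC n) (hu n) (ht n)
    hi (hut n)
  have hd : ∀ n m, n ≤ m → ∀ d ∈ Cn u t n, ∀ x ∈ I m, d * x ∈ I m ∧ x * d ∈ I m :=
    fun n m h d hd => hId m d (Cn_mono u t (by omega) hd) (hd m h).1 (hd m h).2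
  let U : ℕ → AddSubgroup K := fun m => ⨆ k, I (m + k)
  have hIU : ∀ m n, m ≤ n → I n ≤ U m := by
    intro m n h
    obtain ⟨k, rfl⟩ := Nat.exists_eq_add_of_le h
    exact le_iSup (fun k => I (m + k)) k
  have hUU : ∀ m n, m ≤ n → U n ≤ U m := fun m n h => iSup_le fun k => hIU _ _ (by omega)
  have hB : RingSubgroupsBasis U :=
    { inter := fun i j => ⟨max i j, le_inf (hUU _ _ (le_max_left _ _)) (hUU _ _ (le_max_right _ _))⟩
      mul := fun i => ⟨i, by
        rintro _ ⟨x, hx, y, hy, rfl⟩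
        refine sup_mul _ _ (U i) (fun a b x hx y hy => ?_) hx hy
        rcases lt_trichotomy a b with h | rfl | h
        · exact hIU _ _ (by omega) (hd _ _ (by omega) x (hIA _ x hx) y hy).1
        · exact hIU _ _ (by omega) (hII _ x hx y hy)
        · exact hIU _ _ (by omega) (hd _ _ (by omega) y (hIA _ y hy) x hx).2⟩
      leftMul := fun x i => by
        obtain ⟨n, hn⟩ := hall x
        refine ⟨max i n, fun y hy => ?_⟩
        have : U (max i n) ≤ (U i).comap (AddMonoidHom.mulLeft x) := iSup_le fun k z hz =>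
          hIU _ _ (by omega) (hd n _ (by omega) x hn z hz).1
        exact this hy
      rightMul := fun x i => by
        obtain ⟨n, hn⟩ := hall x
        refine ⟨max i n, fun y hy => ?_⟩
        have : U (max i n) ≤ (U i).comap (AddMonoidHom.mulRight x) := iSup_le fun k z hz =>
          hIU _ _ (by omega) (hd n _ (by omega) x hn z hz).2
        exact this hy }
  have hsep : ∀ m N, ∀ x ∈ Cn u t m, x ∈ T (fun k => I (m + k)) N → x = 0 := by
    intro m N x hx
    induction N with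
    | zero => exact fun h => AddSubgroup.mem_bot.1 h
    | succ N ih =>
      intro h
      obtain ⟨s, hs, e, he, h⟩ := AddSubgroup.mem_sup.1 h
      have hs' : s ∈ Cn u t (m + N) :=
        T_le _ (Cn u t (m + N)).toAddSubgroup N
          (fun j hj y hy => Cn_mono u t (by omega) (hIA _ y hy)) hs
      have he' : e ∈ Cn u t (m + N) := by
        rw [eq_sub_of_add_eq' h]
        exact sub_mem (Cn_mono u t (by omega) hx) hs'
      have h0 : e = 0 := by
        by_contra h0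
        have := (hd _ _ le_rfl _ (Cn_inv u t _ he') e he).1
        rw [inv_mul_cancel₀ h0] at this
        exact hI1 _ this
      rw [h0, add_zero] at h
      exact ih (h ▸ hs)
  have hR : @IsTopologicalRing K hB.topology _ := hB.toRingFilterBasis.isTopologicalRing
  refine ⟨hB.topology, hR, ?_, ?_⟩
  · letI := hB.topology
    refine IsTopologicalAddGroup.t2Space_of_zero_sep fun x hx => ?_
    obtain ⟨n, hn⟩ := hall x
    refine ⟨U n, hB.hasBasis_nhds_zero.mem_of_mem trivial, fun h => ?_⟩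
    obtain ⟨N, hN⟩ := mem_T _ h
    exact hx (hsep n N x hn hN)
  · rintro ⟨σ, hσ, hr, h2', hc⟩
    have hz : ∀ x : ℕ → K, (∀ n, x n ∈ I n) → Tendsto x atTop (@nhds K σ 0) := by
      intro x hx
      refine Tendsto.mono_right ?_ (nhds_mono hσ)
      rw [hB.hasBasis_nhds_zero.tendsto_right_iff]
      exact fun m _ => eventually_atTop.2 ⟨m, fun n hn => hIU _ _ hn (hx n)⟩
    letI := σ
    have hq1 : q - 1 ≠ 0 := fun h => by
      have := hi 1 0 (by rw [pow_one, pow_zero]; exact sub_eq_zero.1 h)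
      omega
    have a1 := hz _ h1
    have a2 := hz _ h2
    have a3 := hz _ h3
    have a4 : Tendsto (fun n => (q - 1 - (t n - 1))⁻¹) atTop (𝓝 (q - 1)⁻¹) := by
      have := (tendsto_const_nhds (x := q - 1)).sub a1
      rw [sub_zero] at this
      exact (hc _ hq1).tendsto.comp this
    have a5 := (a1.const_mul q).sub (a2.mul (a4.mul ((a3.const_mul q).neg)))
    simp only [mul_zero, zero_mul, sub_zero] at a5
    have a6 : ∀ n, q * (t n - 1) - u n * (t n - 1) *
        ((q - 1 - (t n - 1))⁻¹ * -(q * ((u n)⁻¹ * (t n - 1)))) = -(q - 1) := by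
      intro n
      have e1 : u n * t n * (u n)⁻¹ = q * t n := by
        rw [hut n, mul_assoc, mul_inv_cancel_right₀ (hu n)]
      have e2 : q * ((u n)⁻¹ * t n) = t n * (u n)⁻¹ := by
        have : q * ((u n)⁻¹ * t n) = (u n)⁻¹ * (q * t n) := by
          rw [← mul_assoc, hq, mul_assoc]
        have e3 : q * t n = u n * t n * (u n)⁻¹ := e1.symm
        rw [this, e3, mul_assoc, inv_mul_cancel_left₀ (hu n)]
      have e3 : -(q * ((u n)⁻¹ * (t n - 1))) = (q - 1 - (t n - 1)) * (u n)⁻¹ := by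
        rw [mul_sub, mul_sub, e2]; noncomm_ring
      have e4 : q - 1 - (t n - 1) ≠ 0 := by
        intro h
        have e5 : t n = q := by rw [← sub_eq_zero, ← neg_eq_zero, ← h]; abel
        rw [e5, ← hq, mul_inv_cancel_right₀ (hu n)] at e1
        have := hi 1 2 (by rw [pow_one, pow_two]; exact e1)
        omega
      rw [e3, inv_mul_cancel_left₀ e4, mul_sub (u n), sub_mul, e1, mul_one,
        mul_inv_cancel₀ (hu n)]
      noncomm_ring
    simp only [a6] at a5
    exact hq1 (neg_eq_zero.1 (tendsto_nhds_unique tendsto_const_nhds a5))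

theorem main : ∃ (K : Type) (_ : DivisionRing K) (τ : TopologicalSpace K),
    @IsTopologicalRing K τ _ ∧ @T2Space K τ ∧
      ¬ ∃ σ : TopologicalSpace K, τ ≤ σ ∧ @IsTopologicalRing K σ _ ∧ @T2Space K σ ∧
        ∀ x : K, x ≠ 0 → @ContinuousAt K K σ σ (fun y => y⁻¹) x := by
  obtain ⟨D, _, q, u, t, hu, ht, hi, huq, htq, huu, htt, hut, hr⟩ := exists_D
  let F : Subfield D :=
    { carrier := {d | q * d = d * q ∧ ∃ n, d ∈ Cn u t n}
      mul_mem' := fun {a b} ⟨ha, n, hn⟩ ⟨hb, m, hm⟩ => ⟨(Commute.mul_right ha hb).eq, max n m,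
        mul_mem (Cn_mono u t (le_max_left _ _) hn) (Cn_mono u t (le_max_right _ _) hm)⟩
      one_mem' := ⟨by simp, 0, one_mem _⟩
      add_mem' := fun {a b} ⟨ha, n, hn⟩ ⟨hb, m, hm⟩ => ⟨(Commute.add_right ha hb).eq, max n m,
        add_mem (Cn_mono u t (le_max_left _ _) hn) (Cn_mono u t (le_max_right _ _) hm)⟩
      zero_mem' := ⟨by simp, 0, zero_mem _⟩
      neg_mem' := fun {a} ⟨ha, n, hn⟩ => ⟨(Commute.neg_right ha).eq, n, neg_mem hn⟩
      inv_mem' := fun a ⟨ha, n, hn⟩ => ⟨(Commute.inv_right₀ ha).eq, n, Cn_inv u t n hn⟩ }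
  have h1 : ∀ n, u n ∈ Cn u t (n + 1) := fun n m hm => ⟨huu m n, (hut n m (by omega)).symm⟩
  have h2 : ∀ n, t n ∈ Cn u t (n + 1) := fun n m hm => ⟨hut m n (by omega), htt m n⟩
  refine ⟨F, inferInstance, glob (K := F) ⟨q, rfl, 0, fun m _ => ⟨huq m, htq m⟩⟩
    (fun n => ⟨u n, (huq n).symm, n + 1, h1 n⟩) (fun n => ⟨t n, (htq n).symm, n + 1, h2 n⟩)
    (fun x => Subtype.ext x.2.1) (fun n h => hu n (congrArg Subtype.val h))
    (fun n h => ht n (congrArg Subtype.val h)) (fun i j h => hi i j ?_)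
    (fun n m hm => ⟨Subtype.ext (h1 n m hm).1, Subtype.ext (h1 n m hm).2⟩)
    (fun n m hm => ⟨Subtype.ext (h2 n m hm).1, Subtype.ext (h2 n m hm).2⟩)
    (fun n => Subtype.ext (hr n)) (fun x => ?_)⟩
  · simpa using congrArg Subtype.val h
  · obtain ⟨n, hn⟩ := x.2.2
    exact ⟨n, fun m hm => ⟨Subtype.ext (hn m hm).1, Subtype.ext (hn m hm).2⟩⟩

end Pool.Agent.H2.OD
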