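import Mathlib

set_option autoImplicit false

/-! Convergence in outer measure, infinite concatenation of paths, extension lemmas. -/

namespace Pool.Agent.H2.PC

open Filter Topology Set MeasureTheory

/-- half open unit interval -/
abbrev II : Type := Ioc (0 : ℝ) 1

/-- circle -/
abbrev TT : Type := UnitAddCircle

/-- all circle valued functions -/
def FF : Type := II → TT

noncomputable instance : AddCommGroup FF := Pi.addCommGroup

/-- basic neighbourhoods -/
def UU (ε : ℝ) : Set FF := {f | volume (Subtype.val '' {t : II | ε ≤ ‖f t‖}) < ENNReal.ofReal ε}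

theorem UU_mono {ε δ : ℝ} (h : ε ≤ δ) : UU ε ⊆ UU δ := fun _ hf =>
  ((measure_mono (image_mono fun _ ht => h.trans ht)).trans_lt hf).trans_le
    (ENNReal.ofReal_le_ofReal h)

theorem UU_small {ε : ℝ} (h : 0 < ε) {f : FF} (hf : ∀ t, ‖f t‖ < ε) : f ∈ UU ε := by
  have : {t : II | ε ≤ ‖f t‖} = ∅ := eq_empty_of_forall_notMem fun t ht => (hf t).not_ge ht
  simpa [UU, this] using h

/-- the filter basis -/
noncomputable def BB : AddGroupFilterBasis FF :=
  addGroupFilterBasisOfComm {S | ∃ a : ℝ, 0 < a ∧ UU a = S} ⟨_, 1, one_pos, rfl⟩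
    (by
      rintro _ _ ⟨a, ha, rfl⟩ ⟨b, hb, rfl⟩
      exact ⟨_, ⟨min a b, lt_min ha hb, rfl⟩,
        subset_inter (UU_mono (min_le_left _ _)) (UU_mono (min_le_right _ _))⟩)
    (by
      rintro _ ⟨a, ha, rfl⟩
      exact UU_small ha fun t => (norm_zero (E := TT)).trans_lt ha)
    (by
      rintro _ ⟨a, ha, rfl⟩
      refine ⟨_, ⟨a / 2, half_pos ha, rfl⟩, ?_⟩
      rintro _ ⟨f, hf, g, hg, rfl⟩
      refine lt_of_le_of_lt ((measure_mono ?_).trans (measure_union_le _ _))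
        ((ENNReal.add_lt_add hf hg).trans_eq ?_)
      · rw [← image_union]
        refine image_mono fun t ht => not_not.1 fun h => ?_
        simp only [mem_union, mem_setOf_eq, not_or, not_le] at h
        linarith [h.1, h.2, norm_add_le (f t) (g t), show a ≤ ‖f t + g t‖ from ht]
      · rw [← ENNReal.ofReal_add (half_pos ha).le (half_pos ha).le, add_halves])
    (by
      rintro _ ⟨a, ha, rfl⟩
      refine ⟨_, ⟨a, ha, rfl⟩, fun f hf => ?_⟩
      have : ∀ t, ‖(-f) t‖ = ‖f t‖ := fun t => norm_neg (f t)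
      simpa only [UU, mem_preimage, mem_setOf_eq, this] using hf)

noncomputable instance : TopologicalSpace FF := BB.topology

instance : IsTopologicalAddGroup FF := BB.isTopologicalAddGroup

theorem FF_basis : (𝓝 (0 : FF)).HasBasis (fun ε => 0 < ε) UU :=
  BB.nhds_zero_hasBasis.to_hasBasis (by rintro _ ⟨a, ha, rfl⟩; exact ⟨a, ha, subset_rfl⟩)
    fun a ha => ⟨_, ⟨a, ha, rfl⟩, subset_rfl⟩

theorem FF_cont {φ : ℝ → FF} (h : ∀ σ σ' (t : II), (t.1 ≤ σ ↔ t.1 ≤ σ') → φ σ t = φ σ' t) :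
    Continuous φ := by
  refine continuous_iff_continuousAt.2 fun σ => ?_
  rw [ContinuousAt, ← tendsto_sub_nhds_zero_iff, FF_basis.tendsto_right_iff]
  intro ε hε
  filter_upwards [Metric.ball_mem_nhds σ hε] with σ' hσ
  refine lt_of_le_of_lt (measure_mono (t := uIoc σ' σ) ?_) ?_
  · rintro _ ⟨t, ht, rfl⟩
    by_contra h1
    have h2 : φ σ' t - φ σ t = 0 := sub_eq_zero.2 (h _ _ _ (by
      rw [mem_uIoc] at h1
      constructor <;> intro h2 <;> by_contra h3 <;> exact h1 (by simp [not_le.1 h3, h2])))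
    have h3 : ε ≤ ‖φ σ' t - φ σ t‖ := ht
    rw [h2, norm_zero] at h3
    exact h3.not_gt hε
  · rw [Real.volume_uIoc, ENNReal.ofReal_lt_ofReal_iff hε, abs_sub_comm]
    exact hσ

theorem FF_sep {f : FF} (hf : ∀ U ∈ 𝓝 (0 : FF), f ∈ U) {a : ℝ} {b : II} (h0 : 0 ≤ a) (hab : a < b)
    {z : TT} (h : ∀ t : II, a < t → t ≤ b → f t = z) : z = 0 := by
  by_contra hz
  refine (lt_of_le_of_lt (measure_mono (s := Ioc a b) ?_) (hf _ (FF_basis.mem_of_mem
    (lt_min (norm_pos_iff.2 hz) (sub_pos.2 hab))))).not_ge ?_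
  · intro t ht
    refine ⟨⟨t, h0.trans_lt ht.1, ht.2.trans b.2.2⟩, ?_, rfl⟩
    rw [mem_setOf_eq, h _ ht.1 ht.2]
    exact min_le_left _ _
  · rw [Real.volume_Ioc]
    exact ENNReal.ofReal_le_ofReal (min_le_right _ _)

theorem concat {G : Type} [AddCommGroup G] [TopologicalSpace G] [IsTopologicalAddGroup G] (g : G)
    (β : ℕ → ℝ → G) (hc : ∀ j, Continuous (β j)) (h0 : ∀ j σ, σ ≤ 0 → β j σ = 0)
    (h1 : ∀ j σ, 1 ≤ σ → β j σ = β j 1)
    (h : Tendsto (fun q : ℕ × ℝ => g - ∑ j ∈ Finset.range q.1, β j 1 - β q.1 q.2) (atTop ×ˢ ⊤)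
      (𝓝 0)) : Joined 0 g := by
  classical
  let Γ : ℝ → G := fun τ => g - ∑ j ∈ Finset.range ⌈τ⌉₊, β j (τ - j)
  have h2 : ∀ (τ : ℝ) (N : ℕ), τ ≤ N → Γ τ = g - ∑ j ∈ Finset.range N, β j (τ - j) := fun τ N hN =>
    congrArg (g - ·) (Finset.sum_subset (Finset.range_mono (Nat.ceil_le.2 hN)) fun j _ hj =>
      h0 _ _ (sub_nonpos.2 (Nat.ceil_le.1 (by simpa using hj))))
  have h3 : Continuous Γ := continuous_iff_continuousAt.2 fun τ =>
    ContinuousAt.congr (f := fun σ => g - ∑ j ∈ Finset.range (⌈τ⌉₊ + 1), β j (σ - j)) (by fun_prop)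
      ((gt_mem_nhds (show τ < (⌈τ⌉₊ + 1 : ℕ) by push_cast; linarith [Nat.le_ceil τ])).mono
        fun σ hσ => (h2 σ _ hσ.le).symm)
  have h4 : Tendsto Γ atTop (𝓝 0) := by
    refine (h.comp (tendsto_nat_floor_atTop.prodMk (tendsto_top (f := fun τ : ℝ => τ - ⌊τ⌋₊)))).congr'
      ((eventually_ge_atTop 0).mono fun τ hτ => ?_)
    rw [h2 τ (⌊τ⌋₊ + 1) (by push_cast; exact (Nat.lt_floor_add_one τ).le), Finset.sum_range_succ,
      ← sub_sub, Finset.sum_congr rfl fun j hj => h1 j (τ - j) (by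
        have : (j + 1 : ℝ) ≤ ⌊τ⌋₊ := by exact_mod_cast Finset.mem_range.1 hj
        linarith [Nat.floor_le hτ])]
    rfl
  have h5 : Continuous (Function.update (fun u : ℝ => Γ (‖u⁻¹‖ + -1)) 0 0) := by
    refine continuous_iff_continuousAt.2 fun u => ?_
    rcases eq_or_ne u 0 with rfl | hu
    · exact continuousAt_update_same.2 (h4.comp (tendsto_atTop_add_const_right _ _
        tendsto_norm_inv_nhdsNE_zero_atTop))
    · exact (continuousAt_update_of_ne hu).2 (h3.continuousAt.comp (by fun_prop (disch := exact hu)))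
  simpa [Γ] using (PathConnectedSpace.joined (0 : ℝ) 1).map h5

theorem ext0 {A G D : Type} [AddCommGroup A] [AddCommGroup G] [AddCommGroup D] [DivisibleBy D ℤ]
    (f : A →+ G) (g : A →+ D) (h : ∀ a, f a = 0 → g a = 0) : ∃ k : G →+ D, ∀ a, k (f a) = g a := by
  obtain ⟨k, hk⟩ := (Module.Baer.of_divisible D).extension_property_addMonoidHom
    (QuotientAddGroup.kerLift f) (QuotientAddGroup.kerLift_injective f)
    (QuotientAddGroup.lift f.ker g h)
  exact ⟨k, fun a => DFunLike.congr_fun hk (a : A ⧸ f.ker)⟩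

theorem ext1 {M : Type} [AddCommGroup M] (x : M) (z : TT) (h : addOrderOf x • z = 0) :
    ∃ f : M →+ TT, f x = z := by
  obtain ⟨k, hk⟩ := ext0 (zmultiplesHom M x) (zmultiplesHom TT z) fun n hn => by
    obtain ⟨m, rfl⟩ := addOrderOf_dvd_iff_zsmul_eq_zero.2 hn
    simp [mul_comm _ m, mul_smul, h]
  exact ⟨k, by simpa using hk 1⟩

theorem exists_ord (o : ℕ) : ∃ d : TT, addOrderOf d = o := by
  rcases o.eq_zero_or_pos with rfl | h
  · refine ⟨(√2 : ℝ), addOrderOf_eq_zero (AddCircle.not_isOfFinAddOrder_iff_forall_rat_ne_div.2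
      fun q hq => irrational_sqrt_two ⟨q, by simpa using hq⟩)⟩
  · exact ⟨_, AddCircle.addOrderOf_period_div h⟩

theorem sepc {M : Type} [AddCommGroup M] {x : M} (hx : x ≠ 0) : ∃ f : M →+ TT, f x ≠ 0 := by
  obtain ⟨d, hd⟩ := exists_ord (addOrderOf x)
  obtain ⟨f, hf⟩ := ext1 x d (by rw [← hd, addOrderOf_nsmul_eq_zero])
  refine ⟨f, fun h => hx ?_⟩
  rw [← AddMonoid.addOrderOf_eq_one_iff, ← hd, ← hf, h, addOrderOf_zero]

theorem apx (o : ℕ) (z : TT) : ∃ w : TT, o • w = 0 ∧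
    ∀ i : ℕ, i < o ∨ o • z = 0 → ‖z - w‖ ≤ 1 / (i + 1) := by
  by_cases h : o • z = 0
  · exact ⟨z, h, fun i _ => by rw [sub_self, norm_zero]; positivity⟩
  have ho : (0 : ℝ) < o := by
    rcases o.eq_zero_or_pos with rfl | h1
    exacts [absurd (zero_smul _ _) h, Nat.cast_pos.2 h1]
  obtain ⟨x, rfl⟩ := QuotientAddGroup.mk_surjective z
  refine ⟨(round (o * x) / o : ℝ), ?_, fun i hi => ?_⟩
  · rw [← AddCircle.coe_nsmul, nsmul_eq_mul, mul_div_cancel₀ _ ho.ne', AddCircle.coe_eq_zero_iff]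
    exact ⟨round (o * x), by simp⟩
  · have h1 : (i + 1 : ℝ) ≤ o := by exact_mod_cast hi.resolve_right h
    refine (QuotientAddGroup.norm_mk_le_norm (m := x - round (o * x) / o)).trans
      (le_trans ?_ (one_div_le_one_div_of_le (by positivity) h1))
    rw [show x - round (o * x) / o = (o * x - round (o * x)) / o by field_simp, Real.norm_eq_abs,
      abs_div, abs_of_pos ho]
    exact div_le_div_of_nonneg_right ((abs_sub_round _).trans (by norm_num)) ho.le

theorem wf_rec {P α : Type} {r : P → P → Prop} (hr : WellFounded r)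
    (Q : ∀ p, (∀ q, r q p → α) → α → Prop) (h : ∀ p f, ∃ x, Q p f x) :
    ∃ b : P → α, ∀ p, Q p (fun q _ => b q) (b p) := by
  choose F hF using h
  refine ⟨hr.fix F, fun p => ?_⟩
  rw [hr.fix_eq]
  exact hF _ _

theorem fixp {P C : Type} [Inhabited C] (rk : P → ℕ) (Φ : (P → C) → P → C)
    (h : ∀ c c' p, (∀ q, rk q < rk p → c q = c' q) → Φ c p = Φ c' p) : ∃ c, ∀ p, c p = Φ c p := by
  obtain ⟨c, hc⟩ := wf_rec (measure rk).wf
    (fun p f (x : C) => x = Φ (fun q => if h : rk q < rk p then f q h else default) p)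
    fun _ _ => ⟨_, rfl⟩
  exact ⟨c, fun p => (hc p).trans (h _ _ _ fun q hq => dif_pos hq)⟩

end Pool.Agent.H2.PC
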