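import Mathlib
import Pool.Agent.H2.PC1

set_option autoImplicit false

/-! Pathwise connected group topologies from independent pools. -/

namespace Pool.Agent.H2.PC

open Filter Topology Set MeasureTheory

variable {G P : Type} [AddCommGroup G]

theorem emb (b : P → G) (d : P → TT)
    (hind : ∀ c : P →₀ ℤ, Finsupp.linearCombination ℤ b c = 0 → ∀ p, c p • d p = 0)
    (hb : ∀ p, addOrderOf (d p) • b p = 0) :
    ∃ h : G →+ (P →₀ TT), (∀ p, h (b p) = Finsupp.single p (d p)) ∧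
      ∀ x ≠ 0, h x = 0 → ∃ ψ : G →+ TT, (∀ p, ψ (b p) = 0) ∧ ψ x ≠ 0 := by
  classical
  letI : DivisibleBy (P →₀ TT) ℤ :=
    { div := fun a n => a.mapRange (fun d => if d = 0 then 0 else DivisibleBy.div d n) (by simp)
      div_zero := fun a => by ext1 j; simp [DivisibleBy.div_zero]
      div_cancel := fun a hn => by
        ext1 j
        rw [Finsupp.smul_apply, Finsupp.mapRange_apply]
        split_ifs with h
        · rw [h, smul_zero]
        · exact DivisibleBy.div_cancel _ hn }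
  let f := (Finsupp.linearCombination ℤ b).toAddMonoidHom
  let g := (Finsupp.linearCombination ℤ fun p => Finsupp.single p (d p)).toAddMonoidHom
  have hg : ∀ c p, g c p = c p • d p := fun c p => by
    induction c using Finsupp.induction_linear with
    | zero => simp
    | add c c' h h' => rw [map_add, Finsupp.add_apply, h, h', Finsupp.add_apply, add_smul]
    | single q n => by_cases h : q = p <;> simp [g, h, Finsupp.single_apply]
  obtain ⟨k, hk⟩ := ext0 f g fun c hc => Finsupp.ext fun p => (hg c p).trans (hind c hc p)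
  refine ⟨k, fun p => by simpa [f, g] using hk (Finsupp.single p 1), fun x hx h0 => ?_⟩
  obtain ⟨ψ, hψ⟩ := sepc (x := (x : G ⧸ f.range)) fun h => by
    obtain ⟨c, rfl⟩ := (QuotientAddGroup.eq_zero_iff x).1 h
    refine hx (Finset.sum_eq_zero fun p _ => ?_)
    obtain ⟨m, hm⟩ := addOrderOf_dvd_iff_zsmul_eq_zero.2
      ((hg c p).symm.trans (by rw [← hk, h0]; rfl))
    simp [hm, mul_comm _ m, mul_smul, hb]
  refine ⟨ψ.comp (QuotientAddGroup.mk' _), fun p => ?_, hψ⟩
  rw [AddMonoidHom.comp_apply, QuotientAddGroup.mk'_apply,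
    (QuotientAddGroup.eq_zero_iff _).2 (show b p ∈ f.range from ⟨.single p 1, by simp [f]⟩), map_zero]

/-- the character with given components -/
noncomputable def XX (h : G →+ (P →₀ TT)) (ψ : G →+ TT) (c : P → TT →+ TT) : G →+ TT :=
  ψ + (Finsupp.liftAddHom c).comp h

theorem XX_eq (h : G →+ (P →₀ TT)) (ψ : G →+ TT) (c : P → TT →+ TT) (x : G) :
    XX h ψ c x = ψ x + ∑ q ∈ (h x).support, c q (h x q) := rfl

theorem XX_congr (h : G →+ (P →₀ TT)) (ψ : G →+ TT) {c c' : P → TT →+ TT} {x : G}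
    (H : ∀ q ∈ (h x).support, c q = c' q) : XX h ψ c x = XX h ψ c' x := by
  rw [XX_eq, XX_eq, Finset.sum_congr rfl fun q hq => by rw [H q hq]]

theorem cmp {rk : P → ℕ} {h : G →+ (P →₀ TT)} {Y : P → G}
    (hY : ∀ p, ∀ q ∈ (h (Y p)).support, rk q < rk p) {ψ : G →+ TT} {R R' : P → TT → TT →+ TT}
    {c c' : P → TT →+ TT} (hc : ∀ p, c p = R p (XX h ψ c (Y p)))
    (hc' : ∀ p, c' p = R' p (XX h ψ c' (Y p))) {r : ℕ} (H : ∀ p, rk p < r → R p = R' p) (p : P) :
    rk p ≤ r → XX h ψ c (Y p) = XX h ψ c' (Y p) := by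
  induction p using (measure rk).wf.induction with
  | h p ih =>
    exact fun hp => XX_congr _ _ fun q hq => by
      rw [hc, hc', H q ((hY p q hq).trans_le hp), ih q (hY p q hq) ((hY p q hq).le.trans hp)]

/-- right end point -/
def one : II := ⟨1, one_pos, le_rfl⟩

theorem main_top {A : Type} (tg : A → G) (o : A → ℕ → ℕ) (b : (A × ℕ × ℕ) × II → G)
    (hb : ∀ p, o p.1.1 p.1.2.2 • b p = 0)
    (hind : ∀ c : (A × ℕ × ℕ) × II →₀ ℤ, Finsupp.linearCombination ℤ b c = 0 →
      ∀ p, (o p.1.1 p.1.2.2 : ℤ) ∣ c p)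
    (hco : ∀ a i, i < o a i ∨ (o a i • tg a = 0 ∧ ∀ j, o a j ∣ o a i))
    (hgen : ∀ C : AddSubgroup G, (∀ a, tg a ∈ C) → ∀ x, x ∈ C) :
    ∃ _ : TopologicalSpace G, IsTopologicalAddGroup G ∧ T2Space G ∧ PathConnectedSpace G := by
  classical
  choose dd hdd using exists_ord
  choose ap ap1 ap2 using apx
  obtain ⟨h, h1, h2⟩ := emb b (fun p => dd (o p.1.1 p.1.2.2)) (fun c hc p =>
    addOrderOf_dvd_iff_zsmul_eq_zero.1 (by rw [hdd]; exact hind c hc p)) fun p => by
      rw [hdd]; exact hb p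
  choose Ap hAp using fun (m : ℕ) (z : TT) => ext1 (dd m) (ap m z) (by rw [hdd]; exact ap1 _ _)
  let rk : (A × ℕ × ℕ) × II → ℕ := fun p => p.1.2.1 + p.1.2.2
  let y : A → ℕ → ℕ → G := fun a n i => tg a - ∑ j ∈ Finset.range i, b ((a, n, j), one)
  let Y : (A × ℕ × ℕ) × II → G := fun p =>
    if ∀ q ∈ (h (tg p.1.1)).support, rk q < p.1.2.1 then y p.1.1 p.1.2.1 p.1.2.2 else 0
  have hY : ∀ p, ∀ q ∈ (h (Y p)).support, rk q < rk p := by
    rintro ⟨⟨a, n, i⟩, s⟩ q hq
    by_contra h3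
    simp only [rk, not_lt] at h3
    refine Finsupp.mem_support_iff.1 hq ?_
    simp only [Y]
    split_ifs with h4
    · rw [map_sub, map_sum, Finsupp.sub_apply, Finsupp.finset_sum_apply,
        Finsupp.notMem_support_iff.1 fun h => (h4 q h).not_ge (le_of_add_le_left h3),
        Finset.sum_eq_zero fun j hj => ?_, sub_zero]
      rw [h1, Finsupp.single_eq_of_ne]
      rintro rfl
      exact (Finset.mem_range.1 hj).not_ge (le_of_add_le_add_left h3)
    · simp
  let R : (A × ℕ × ℕ) × ℝ → II → (A × ℕ × ℕ) × II → TT → TT →+ TT := fun e t p z =>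
    if t ≤ p.2 then Ap (o p.1.1 p.1.2.2) z + if p.1 = e.1 ∧ e.2 < t then AddMonoidHom.id _ else 0
    else 0
  choose c hc using fun (ψ : G →+ TT) e t => fixp rk (fun c p => R e t p (XX h ψ c (Y p)))
    fun c c' p H => by rw [XX_congr h ψ fun q hq => H q (hY p q hq)]
  let X : {ψ : G →+ TT // ∀ p, ψ (b p) = 0} × (A × ℕ × ℕ) × ℝ → G →+ FF := fun e =>
    AddMonoidHom.mk' (fun x t => XX h e.1 (c e.1 e.2 t) x) fun x y => funext fun t => map_add _ _ _
  letI τ : TopologicalSpace G := ⨅ e, TopologicalSpace.induced (X e) inferInstance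
  haveI : IsTopologicalAddGroup G :=
    topologicalAddGroup_iInf fun e => topologicalAddGroup_induced (X e)
  have hX : ∀ e, Continuous (X e) := fun e => continuous_iInf_dom continuous_induced_dom
  refine ⟨τ, this, IsTopologicalAddGroup.t2Space_of_zero_sep fun x hx => ?_, ?_⟩
  · by_contra h3
    push Not at h3
    have h4 : ∀ φ : G →+ FF, Continuous φ → ∀ U ∈ 𝓝 (0 : FF), φ x ∈ U := fun φ hφ U hU =>
      h3 _ (hφ.tendsto' 0 0 (map_zero _) hU)
    by_cases h5 : h x = 0
    · obtain ⟨ψ, h6, h7⟩ := h2 x hx h5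
      rcases isEmpty_or_nonempty A with hA | ⟨⟨a⟩⟩
      · exact hx (hgen ⊥ hA.elim x)
      refine h7 (FF_sep (h4 _ (hX (⟨ψ, h6⟩, (a, 0, 0), 1))) (b := one) le_rfl one_pos fun t _ _ => ?_)
      show XX _ _ _ _ = _
      rw [XX_eq, h5]
      simp
    obtain ⟨p, hp, h6⟩ := (h x).support.exists_max_image (fun p => (rk p : ℝ) + p.2)
      (Finsupp.support_nonempty_iff.2 h5)
    obtain ⟨s, h7, h8⟩ : ∃ s ∈ Ioo 0 p.2.1, ∀ q ∈ (h x).support, q.2 < p.2 → q.2 < s :=
      ((show ∀ᶠ s in 𝓝[<] p.2.1, s ∈ Ioo 0 p.2.1 from Ioo_mem_nhdsLT p.2.2.1).and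
        ((eventually_all_finset _).2 fun q _ => (eventually_imp_distrib_left).2 fun h =>
          nhdsWithin_le_nhds (lt_mem_nhds (show q.2.1 < p.2.1 from h)))).exists
    refine Finsupp.mem_support_iff.1 hp (FF_sep (h4 (X (⟨0, fun _ => rfl⟩, p.1, s) -
      X (⟨0, fun _ => rfl⟩, p.1, 1)) ((hX _).sub (hX _))) h7.1.le h7.2 fun t h9 h10 => ?_)
    show XX _ _ _ _ - XX _ _ _ _ = _
    have h11 : ∀ q ∈ (h x).support, c 0 (p.1, s) t q (h x q) - c 0 (p.1, 1) t q (h x q) =
        if q = p then h x q else 0 := fun q hq => by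
      have h12 : (rk q : ℝ) < rk p + 1 := by linarith [h6 q hq, q.2.2.1, p.2.2.2]
      rw [hc, hc 0 (p.1, 1), cmp hY (hc 0 (p.1, s) t) (hc 0 (p.1, 1) t) (r := rk p)
        (fun q hq => by
          have : q.1 ≠ p.1 := fun h => by simp [rk, h] at hq
          simp [R, this]) q (Nat.lt_succ_iff.1 (by exact_mod_cast h12))]
      by_cases h13 : q = p
      · simp [R, h13, h9, h10, t.2.2.not_gt]
      by_cases h14 : q.1 = p.1
      · have h15 : q.2 < p.2 := lt_of_le_of_ne (by simpa [rk, h14] using h6 q hq)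
          fun h => h13 (Prod.ext h14 h)
        have h16 : ¬ t ≤ q.2 := not_le.2 (show q.2.1 < t.1 from (h8 q hq h15).trans h9)
        simp [R, h13, h16]
      · simp [R, h13, h14]
    rw [XX_eq, XX_eq, add_sub_add_left_eq_sub, ← Finset.sum_sub_distrib, Finset.sum_congr rfl h11,
      Finset.sum_ite_eq', if_pos hp]
  refine pathConnectedSpace_iff_eq.2 ⟨0, eq_univ_of_forall (hgen (.pathComponentZero G) fun a => ?_)⟩
  obtain ⟨n, hn⟩ : ∃ n, ∀ q ∈ (h (tg a)).support, rk q < n :=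
    ⟨(h (tg a)).support.sup rk + 1, fun q hq => Nat.lt_succ_of_le (Finset.le_sup (f := rk) hq)⟩
  let β : ℕ → ℝ → G := fun j σ =>
    if H : 0 < σ then b ((a, n, j), ⟨min σ 1, lt_min H one_pos, min_le_right _ _⟩) else 0
  have b1 : ∀ j σ, 1 ≤ σ → β j σ = b ((a, n, j), one) := fun j σ hσ => by
    simp only [β, dif_pos (one_pos.trans_le hσ), min_eq_right hσ]; rfl
  have b2 : ∀ e j σ (t : II), X e (β j σ) t = if t.1 ≤ σ then ap (o a j) (X e (y a n j) t) +
      (if (a, n, j) = e.2.1 ∧ e.2.2 < t then dd (o a j) else 0) else 0 := fun e j σ t => by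
    by_cases H : 0 < σ
    · show XX _ _ _ _ = _
      simp only [β, dif_pos H, XX, AddMonoidHom.add_apply, e.1.2, AddMonoidHom.comp_apply, h1,
        Finsupp.liftAddHom_apply_single, zero_add]
      rw [hc]
      simp only [R, Y, if_pos hn, ← Subtype.coe_le_coe, le_min_iff, t.2.2, and_true]
      split_ifs <;> simp [hAp] <;> rfl
    · simp only [β, dif_neg H, map_zero, if_neg (not_le.2 ((not_lt.1 H).trans_lt t.2.1))]; rfl
  refine concat (tg a) β (fun j => continuous_iInf_rng.2 fun e => continuous_induced_rng.2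
    (FF_cont fun σ σ' t H => by simp only [Function.comp_apply, b2, H]))
    (fun j σ hσ => dif_neg hσ.not_gt) (fun j σ hσ => (b1 j σ hσ).trans (b1 j 1 le_rfl).symm) ?_
  simp only [b1 _ 1 le_rfl, nhds_iInf, nhds_induced, tendsto_iInf, tendsto_comap_iff, map_zero,
    FF_basis.tendsto_right_iff]
  intro e ε hε
  have b3 : ∀ j t, ‖X e (y a n j) t - ap (o a j) (X e (y a n j) t)‖ ≤ 1 / (j + 1) := fun j t =>
    ap2 _ _ _ ((hco a j).imp_right fun H => by
      have : o a j • y a n j = 0 := by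
        rw [smul_sub, H.1, Finset.smul_sum, Finset.sum_eq_zero fun i _ => ?_, sub_zero]
        obtain ⟨m, hm⟩ := H.2 i
        rw [hm, mul_comm, mul_smul, hb ((a, n, i), one), smul_zero]
      exact congrFun ((map_nsmul (X e) _ _).symm.trans (by rw [this, map_zero])) t)
  obtain ⟨N, hN⟩ := exists_nat_one_div_lt hε
  have b4 : ∀ j : ℕ, N + e.2.1.2.2 < j → ∀ σ t, (t : II).1 ≤ σ → ‖X e (y a n j - β j σ) t‖ < ε :=
    fun j hj σ t H => by
    have : (a, n, j) ≠ e.2.1 := fun h => by simp [← h] at hj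
    rw [map_sub]
    show ‖X e (y a n j) t - X e (β j σ) t‖ < ε
    simp only [b2, if_pos H, this, false_and, if_false, add_zero]
    exact ((b3 j t).trans (Nat.one_div_le_one_div (by omega))).trans_lt hN
  refine ((eventually_gt_atTop (N + e.2.1.2.2 + 1)).prod_inl _).mono fun q hq =>
    UU_small hε fun t => ?_
  by_cases H : t.1 ≤ q.2
  · exact b4 _ (by omega) _ _ H
  obtain ⟨j, hj⟩ : ∃ j, q.1 = j + 1 := ⟨q.1 - 1, by omega⟩
  have h3 := b4 j (by omega) 1 t t.2.2
  rw [b1 j 1 le_rfl, sub_sub, ← Finset.sum_range_succ (fun j => b ((a, n, j), one)), ← hj] at h3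
  rw [Function.comp_apply, map_sub]
  show ‖X e _ t - X e (β q.1 q.2) t‖ < ε
  rwa [b2, if_neg H, sub_zero]

end Pool.Agent.H2.PC
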