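import Mathlib
import Pool.Agent.H2.PC2

set_option autoImplicit false

/-! Independent families and cardinal invariants of abelian groups. -/

namespace Pool.Agent.H2.PC

open Set Cardinal

variable {G : Type} [AddCommGroup G]

theorem mk_span {ι : Type} (f : ι → G) {κ : Cardinal} (h0 : ℵ₀ < κ) (h : #ι < κ) :
    #(Submodule.span ℤ (range f)) < κ := by
  rw [← Finsupp.range_linearCombination]
  refine mk_range_le.trans_lt ?_
  rcases isEmpty_or_nonempty ι with _ | _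
  · exact mk_le_aleph0.trans_lt h0
  · rw [mk_finsupp_of_infinite']
    exact max_lt h (mk_le_aleph0.trans_lt h0)

theorem indep {P T : Type} [Countable T] (ty : P → T) (od : T → ℕ) (κ : T → Cardinal)
    (h0 : ∀ p, ℵ₀ < κ (ty p)) (h1 : ∀ τ, #{p // ty p = τ} ≤ κ τ)
    (h2 : ∀ p, ∀ H : Submodule ℤ G, #H < κ (ty p) → ∃ b : G, od (ty p) • b = 0 ∧
      ∀ n : ℤ, n • b ∈ H → (od (ty p) : ℤ) ∣ n) :
    ∃ b : P → G, (∀ p, od (ty p) • b p = 0) ∧
      ∀ c : P →₀ ℤ, Finsupp.linearCombination ℤ b c = 0 → ∀ p, (od (ty p) : ℤ) ∣ c p := by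
  classical
  have e : ∀ τ, {p // ty p = τ} ↪ Iio (κ τ).ord := fun τ => (lift_mk_le'.1 (by
    rw [mk_Iio_ordinal, card_ord, lift_lift]; exact lift_le.2 (h1 τ))).some
  obtain ⟨cd, hcd⟩ := exists_injective_nat T
  let w : P → Ordinal := fun p => Ordinal.omega0 * (e (ty p) ⟨p, rfl⟩).1 + cd (ty p)
  have hw : Function.Injective w := fun p q h => by
    have h3 := congrArg (· % Ordinal.omega0) h
    have h4 := congrArg (· / Ordinal.omega0) h
    simp only [w, Ordinal.mul_add_mod_self, Ordinal.mod_eq_of_lt (Ordinal.natCast_lt_omega0 _),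
      Nat.cast_inj, Ordinal.mul_add_div _ Ordinal.omega0_ne_zero,
      Ordinal.div_eq_zero_of_lt (Ordinal.natCast_lt_omega0 _), add_zero] at h3 h4
    have h5 : ∀ τ (hp : ty p = τ), (e (ty p) ⟨p, rfl⟩).1 = e τ ⟨p, hp⟩ := by rintro _ rfl; rfl
    rw [h5 _ (hcd h3)] at h4
    exact congrArg Subtype.val ((e _).injective (Subtype.ext h4))
  have h3 : ∀ p, #{q // w q < w p} < κ (ty p) := fun p => by
    have h4 := lift_mk_le_lift_mk_of_injective (f := fun q : {q // w q < w p} =>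
      (⟨w q, q.2⟩ : Iio (w p))) fun q q' h => Subtype.ext (hw (congrArg Subtype.val h))
    rw [mk_Iio_ordinal, lift_lift] at h4
    refine (lift_le.1 h4).trans_lt ?_
    simp only [w, Ordinal.card_add, Ordinal.card_mul, Ordinal.card_omega0, Ordinal.card_nat]
    exact add_lt_of_lt (h0 p).le (mul_lt_of_lt (h0 p).le (h0 p) (lt_ord.1 (e _ _).2))
      (natCast_lt_aleph0.trans (h0 p))
  obtain ⟨b, hb⟩ := wf_rec (InvImage.wf w wellFounded_lt) (fun p f (x : G) => od (ty p) • x = 0 ∧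
    ∀ n : ℤ, n • x ∈ Submodule.span ℤ (range fun q : {q // w q < w p} => f q q.2) →
      (od (ty p) : ℤ) ∣ n) fun p f => h2 p _ (mk_span _ (h0 p) (h3 p))
  refine ⟨b, fun p => (hb p).1, fun c hc => ?_⟩
  by_contra h4
  push Not at h4
  obtain ⟨p, hp, h5⟩ := (c.support.filter fun p => ¬ (od (ty p) : ℤ) ∣ c p).exists_max_image w
    (h4.imp fun p hp => Finset.mem_filter.2 ⟨Finsupp.mem_support_iff.2 fun h => hp (by simp [h]), hp⟩)
  rw [Finset.mem_filter] at hp
  refine hp.2 ((hb p).2 _ ?_)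
  rw [Finsupp.linearCombination_apply, Finsupp.sum, ← Finset.add_sum_erase _ _ hp.1] at hc
  rw [eq_neg_of_add_eq_zero_left hc]
  refine neg_mem (sum_mem fun q hq => ?_)
  rw [Finset.mem_erase] at hq
  by_cases h6 : (od (ty q) : ℤ) ∣ c q
  · obtain ⟨m, hm⟩ := h6
    simp [hm, mul_comm _ m, mul_smul, (hb q).1]
  · exact Submodule.smul_mem _ _ (Submodule.subset_span ⟨⟨q, lt_of_le_of_ne
      (h5 q (Finset.mem_filter.2 ⟨hq.2, h6⟩)) fun h => hq.1 (hw h)⟩, rfl⟩)

/-- types of cyclic groups -/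
abbrev Ty : Type := Option (Nat.Primes × ℕ)

/-- order of a type -/
def od : Ty → ℕ
  | none => 0
  | some q => q.1 ^ (q.2 + 1)

/-- socle elements of given height -/
def SS (G : Type) [AddCommGroup G] (q : Nat.Primes × ℕ) : Set G :=
  {z | (q.1 : ℕ) • z = 0 ∧ ∃ y : G, (q.1 : ℕ) ^ q.2 • y = z}

/-- the invariants -/
def kap (G : Type) [AddCommGroup G] : Ty → Cardinal
  | none => #(G ⧸ AddCommGroup.torsion G)
  | some q => #(SS G q)

theorem free (τ : Ty) (h0 : ℵ₀ < kap G τ) (H : Submodule ℤ G) (hH : #H < kap G τ) :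
    ∃ b : G, od τ • b = 0 ∧ ∀ n : ℤ, n • b ∈ H → (od τ : ℤ) ∣ n := by
  rcases τ with _ | ⟨p, k⟩
  · by_contra h
    push Not at h
    choose n h1 h2 using fun q : G ⧸ AddCommGroup.torsion G => h q.out (zero_smul _ _)
    refine (mul_lt_of_lt h0.le h0 hH).not_ge ((mk_le_of_injective
      (f := fun q => ((n q, ⟨_, h1 q⟩) : ℤ × H)) fun q q' h => ?_).trans_eq (by simp))
    have h3 : n q = n q' := congrArg Prod.fst h
    have h4 : n q • q.out = n q' • q'.out := congrArg (fun z => z.2.1) h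
    rw [← q.out_eq', ← q'.out_eq', QuotientAddGroup.eq]
    exact isOfFinAddOrder_iff_zsmul_eq_zero.2 ⟨n q, by simpa [od] using h2 q, by
      rw [smul_add, smul_neg, h4, h3, neg_add_cancel]⟩
  · obtain ⟨_, ⟨h1, b, rfl⟩, h2⟩ := not_subset.1 fun h : SS G (p, k) ⊆ H =>
      hH.not_ge (mk_le_mk_of_subset h)
    have h3 : od (some (p, k)) • b = 0 := by rw [od, pow_succ', mul_smul]; exact h1
    refine ⟨b, h3, fun n hn => ?_⟩
    obtain ⟨j, hj, h4⟩ := (Nat.dvd_prime_pow p.2).1 (Int.gcd_dvd_natAbs_right n (od (some (p, k))))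
    rcases hj.eq_or_lt with rfl | hj
    · rw [od, ← h4]; exact Int.gcd_dvd_left _ _
    obtain ⟨l, rfl⟩ := Nat.exists_eq_add_of_le' (Nat.lt_succ_iff.1 hj)
    refine absurd ?_ h2
    rw [pow_add, mul_smul, ← h4, ← natCast_zsmul b, Int.gcd_eq_gcd_ab, add_smul, mul_comm n, mul_smul,
      mul_comm (od _ : ℤ), mul_smul, natCast_zsmul b, h3, smul_zero, add_zero]
    exact nsmul_mem (H.smul_mem _ hn) _

theorem cnt {G' : Type} [AddCommGroup G'] (A : AddSubgroup G) (f : G →+ G') (B : Set G') (K : Set G)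
    (h1 : ∀ x ∈ A, f x ∈ B) (h2 : ∀ x ∈ A, f x = 0 → x ∈ K) : #A ≤ #B * #K := by
  choose! s h3 h4 using fun (y : G') (h : ∃ x ∈ A, f x = y) => h
  refine mk_le_of_injective (f := fun x : A => ((⟨_, h1 x x.2⟩, ⟨x - s (f x), h2 _
    (A.sub_mem x.2 (h3 _ ⟨x, x.2, rfl⟩)) (by rw [map_sub, h4 _ ⟨x, x.2, rfl⟩, sub_self])⟩) : B × K))
    fun x y h => ?_
  have h5 : f x = f y := congrArg (fun z => z.1.1) h
  have h6 : x - s (f x) = y - s (f y) := congrArg (fun z => z.2.1) h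
  rw [h5] at h6
  exact Subtype.ext (sub_left_injective h6)

theorem bound (H : AddSubgroup G) {l : Cardinal} (h0 : ℵ₀ ≤ l) (h1 : kap G none ≤ l)
    (h2 : ∀ p : ℕ, p.Prime → #{x | x ∈ H ∧ p • x = 0} ≤ l) : #H ≤ l := by
  have h3 : ∀ n : ℕ, n ≠ 0 → #{x | x ∈ H ∧ n • x = 0} ≤ l := by
    intro n
    induction n using induction_on_primes with
    | zero => exact fun h => absurd rfl h
    | one =>
      exact fun _ => ((mk_le_mk_of_subset (t := {0}) fun x hx => by simpa using hx.2).trans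
        mk_le_aleph0).trans h0
    | prime_mul p m hp ih =>
      intro h
      refine le_trans (cnt (H ⊓ (nsmulAddMonoidHom (p * m)).ker) (nsmulAddMonoidHom m) {x | x ∈ H ∧ p • x = 0} {x | x ∈ H ∧ m • x = 0}
        (fun x hx => ⟨H.nsmul_mem hx.1 m, (mul_smul p m x).symm.trans (AddMonoidHom.mem_ker.1 hx.2)⟩)
        fun x hx h => ⟨hx.1, h⟩) (mul_le_of_le h0 (h2 p hp) (ih (right_ne_zero_of_mul h)))
  refine (cnt H (QuotientAddGroup.mk' (AddCommGroup.torsion G)) univ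
    (⋃ n : ℕ, {x | x ∈ H ∧ (n + 1) • x = 0}) (fun _ _ => trivial)
    fun x hx h => ?_).trans (mul_le_of_le h0 (mk_univ.trans_le h1) ((mk_iUnion_le _).trans
      (mul_le_of_le h0 (mk_le_aleph0.trans h0) (ciSup_le' fun n => h3 _ n.succ_ne_zero))))
  obtain ⟨n, hn, h4⟩ := isOfFinAddOrder_iff_nsmul_eq_zero.1 ((QuotientAddGroup.eq_zero_iff x).1 h)
  obtain ⟨n, rfl⟩ := Nat.exists_eq_succ_of_ne_zero hn.ne'
  exact mem_iUnion.2 ⟨n, hx, h4⟩

theorem sum_small {ι : Type} [Countable ι] (f : ι → Cardinal.{0}) (h : ∀ i, f i < 𝔠) : sum f < 𝔠 := by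
  refine (sum_lt_prod f (fun _ => 𝔠) h).trans_le ?_
  rw [prod_const']
  exact (power_le_power_left continuum_ne_zero mk_le_aleph0).trans_eq continuum_power_aleph0

theorem tors (C : AddSubgroup G) (h : ∀ q, ∀ z ∈ SS G q, ∃ y ∈ C, (q.1 : ℕ) ^ q.2 • y = z) (n : ℕ) :
    n ≠ 0 → ∀ x : G, n • x = 0 → x ∈ C := by
  induction n using Nat.recOnPosPrimePosCoprime with
  | zero => exact fun h => absurd rfl h
  | one => exact fun _ x hx => by rw [one_smul] at hx; exact hx ▸ C.zero_mem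
  | prime_pow p k hp hk =>
    intro _
    clear hk
    induction k with
    | zero => exact fun x hx => by rw [pow_zero, one_smul] at hx; exact hx ▸ C.zero_mem
    | succ k ih =>
      intro x hx
      obtain ⟨y, h1, h2⟩ := h (⟨p, hp⟩, k) (p ^ k • x) ⟨by rwa [← mul_smul, ← pow_succ'], x, rfl⟩
      simpa using C.add_mem (ih (pow_ne_zero _ hp.ne_zero) (x - y) (by rw [smul_sub, ← h2, sub_self])) h1
  | coprime a b ha hb hab iha ihb =>
    intro _ x hx
    obtain ⟨u, v, h1⟩ := Nat.isCoprime_iff_coprime.2 hab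
    rw [← one_smul ℤ x, ← h1, add_smul, mul_smul, mul_smul, natCast_zsmul, natCast_zsmul]
    exact C.add_mem (C.zsmul_mem (ihb (by omega) _ (by rwa [← mul_smul, mul_comm])) _)
      (C.zsmul_mem (iha (by omega) _ (by rwa [← mul_smul])) _)

theorem targets (hG : ∀ m : ℕ, (∃ x : G, m • x ≠ 0) → 𝔠 ≤ #(range fun x : G => m • x)) :
    ∃ (L : Type) (tg : L → G), (∀ i : ℕ, #L ≤
      sum fun τ : {τ // 𝔠 ≤ kap G τ ∧ (i < od τ ∨ od τ = 0)} => kap G τ) ∧
      ∀ C : AddSubgroup G, (∀ l, tg l ∈ C) → (∀ q, 𝔠 ≤ kap G (some q) → ∀ z ∈ SS G q,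
        ∃ y ∈ C, (q.1 : ℕ) ^ q.2 • y = z) → ∀ x, x ∈ C := by
  by_cases h : AddMonoid.ExponentExists G
  · refine ⟨Empty, Empty.elim, fun i => by simp, fun C _ h1 x => tors C (fun q z hz => ?_) _
      h.exponent_ne_zero x (AddMonoid.exponent_nsmul_eq_zero x)⟩
    by_cases h2 : z = 0
    · exact ⟨0, C.zero_mem, by simp [h2]⟩
    refine h1 q ?_ z hz
    obtain ⟨h3, y, rfl⟩ := hz
    haveI := Fact.mk q.1.2
    obtain ⟨r, hr⟩ := AddMonoid.addOrder_dvd_exponent y
    rw [addOrderOf_eq_prime_pow h2 (by rwa [pow_succ', mul_smul])] at hr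
    refine (hG (q.1 ^ q.2 * r) (not_forall.1 fun h4 => ?_)).trans (mk_le_mk_of_subset ?_)
    · have h5 := Nat.le_of_dvd (Nat.pos_of_ne_zero (mul_ne_zero (pow_ne_zero _ q.1.2.ne_zero)
        (right_ne_zero_of_mul (hr ▸ h.exponent_ne_zero))))
        (AddMonoid.exponent_dvd_of_forall_nsmul_eq_zero h4)
      rw [hr, pow_succ', mul_assoc] at h5
      have h6 := h.exponent_pos
      rw [hr, pow_succ', mul_assoc] at h6
      nlinarith [q.1.2.two_le, pos_of_mul_pos_left h6 (Nat.zero_le _)]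
    · rintro _ ⟨x, rfl⟩
      exact ⟨by rw [← mul_smul, ← mul_assoc, ← pow_succ', ← hr, AddMonoid.exponent_nsmul_eq_zero],
        r • x, (mul_smul _ _ _).symm⟩
  have h1 : ∀ m : ℕ, m ≠ 0 → 𝔠 ≤ #(range fun x : G => m • x) := fun m hm =>
    hG m (not_forall.1 fun h1 => h ⟨m, Nat.pos_of_ne_zero hm, h1⟩)
  obtain ⟨_, ⟨M, hM, rfl⟩, h2⟩ := wellFounded_lt.has_min
    ((fun m : ℕ => #(range fun x : G => m • x)) '' {m | m ≠ 0}) ⟨_, 1, one_ne_zero, rfl⟩
  refine ⟨(range fun x : G => M • x) ⊕ Σ q : {q // kap G (some q) < 𝔠}, SS G q,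
    Sum.elim (fun z => z.2.choose) fun z => z.2.2.2.choose, fun i => ?_, fun C h3 h4 x => ?_⟩
  · have h3 := h1 _ (Nat.factorial_ne_zero i)
    have h4 : #(range fun x : G => i.factorial • x) ≤ max (sum fun τ : {τ // 𝔠 ≤ kap G τ ∧
        (i < od τ ∨ od τ = 0)} => kap G τ) (max ℵ₀ (sum fun τ : {τ // kap G τ < 𝔠} => kap G τ)) := by
      have h4 : ∀ τ, i < od τ ∨ od τ = 0 → kap G τ ≤ max (sum fun τ : {τ // 𝔠 ≤ kap G τ ∧
          (i < od τ ∨ od τ = 0)} => kap G τ) (max ℵ₀ (sum fun τ : {τ // kap G τ < 𝔠} => kap G τ)) :=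
        fun τ hτ => (le_or_gt 𝔠 (kap G τ)).elim
          (fun h => le_max_of_le_left (le_sum _ (⟨τ, h, hτ⟩ : {τ // _})))
          fun h => le_max_of_le_right (le_max_of_le_right (le_sum (fun τ : {τ // kap G τ < 𝔠} => kap G τ) ⟨τ, h⟩))
      refine bound (nsmulAddMonoidHom _).range (le_max_of_le_right (le_max_left _ _))
        (h4 _ (Or.inr rfl)) fun p hp => ?_
      obtain ⟨k, r, h5, h6⟩ := Nat.exists_eq_pow_mul_and_not_dvd (Nat.factorial_ne_zero i) p hp.ne_one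
      refine le_trans (mk_le_mk_of_subset ?_) (h4 (some (⟨p, hp⟩, k)) (Or.inl (not_le.1 fun h7 => ?_)))
      · rintro _ ⟨⟨x, rfl⟩, hx⟩
        exact ⟨hx, r • x, by rw [h6]; exact (mul_smul _ _ _).symm⟩
      · have h8 := Nat.dvd_factorial (pow_pos hp.pos _) h7
        rw [h6, pow_succ] at h8
        exact h5 (Nat.dvd_of_mul_dvd_mul_left (pow_pos hp.pos _) h8)
    have h5 := (le_max_iff.1 h4).resolve_right (not_le.2 ((max_lt aleph0_lt_continuum
      (sum_small _ fun τ => τ.2)).trans_le h3))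
    rw [mk_sum, lift_id, lift_id, mk_sigma]
    exact add_le_of_le (aleph0_le_continuum.trans (h3.trans h5))
      ((not_lt.1 (h2 _ ⟨_, Nat.factorial_ne_zero i, rfl⟩)).trans h5)
      ((sum_small _ fun q => q.2).le.trans (h3.trans h5))
  · have h5 := tors C (fun q z hz => (le_or_gt 𝔠 (kap G (some q))).elim (fun h => h4 q h z hz)
      fun h => ⟨_, h3 (Sum.inr ⟨⟨q, h⟩, z, hz⟩), hz.2.choose_spec⟩) M hM
    let z : range fun x : G => M • x := ⟨_, x, rfl⟩
    simpa using C.add_mem (h5 (x - z.2.choose) (by rw [smul_sub]; exact sub_eq_zero.2 z.2.choose_spec.symm))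
      (h3 (Sum.inl z))

theorem final (hG : ∀ m : ℕ, (∃ x : G, m • x ≠ 0) → 𝔠 ≤ #(range fun x : G => m • x)) :
    ∃ _ : TopologicalSpace G, IsTopologicalAddGroup G ∧ T2Space G ∧ PathConnectedSpace G := by
  obtain ⟨L, tg, h1, h2⟩ := targets hG
  have f := fun i : ℕ => (show Nonempty (L ↪ Σ τ : {τ // 𝔠 ≤ kap G τ ∧ (i < od τ ∨ od τ = 0)},
    (kap G τ).out) from (Cardinal.le_def _ _).1 (by simpa using h1 i)).some
  let A := L ⊕ Σ q : {q // 𝔠 ≤ kap G (some q)}, SS G q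
  let ty : A → ℕ → Ty := Sum.elim (fun l i => (f i l).1.1) fun z _ => some z.1.1
  have h3 : ∀ a i, 𝔠 ≤ kap G (ty a i) := by
    rintro (l | z) i
    exacts [(f i l).1.2.1, z.1.2]
  have h4 : ∀ τ i, 𝔠 ≤ kap G τ → #{a // ty a i = τ} ≤ kap G τ := fun τ i hτ => by
    refine (mk_le_mk_of_subset (t := Sum.inl '' {l | (f i l).1.1 = τ} ∪
      Sum.inr '' {z | some z.1.1 = τ}) ?_).trans ((mk_union_le _ _).trans (add_le_of_le
      (aleph0_le_continuum.trans hτ) (mk_image_le.trans ?_) (mk_image_le.trans ?_)))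
    · rintro (l | z) h
      exacts [Or.inl ⟨l, h, rfl⟩, Or.inr ⟨z, h, rfl⟩]
    · by_cases h : i < od τ ∨ od τ = 0
      · refine (mk_le_mk_of_subset (t := f i ⁻¹' range (Sigma.mk ⟨τ, hτ, h⟩)) fun l hl => ?_).trans
          ((mk_preimage_of_injective _ _ (f i).injective).trans (mk_range_le.trans_eq (mk_out _)))
        rw [range_sigmaMk]
        exact Subtype.ext hl
      · refine (mk_eq_zero_iff.2 ⟨?_⟩).trans_le zero_le
        rintro ⟨l, rfl⟩
        exact h (f i l).1.2.2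
    · rcases τ with _ | q
      · simp
      · refine (mk_le_mk_of_subset (t := range (Sigma.mk ⟨q, hτ⟩)) fun l hl => ?_).trans mk_range_le
        rw [range_sigmaMk]
        exact Subtype.ext (Option.some.inj hl)
  obtain ⟨b, h5, h6⟩ := indep (G := G) (fun p : (A × ℕ × ℕ) × II => ty p.1.1 p.1.2.2) od (kap G)
    (fun p => aleph0_lt_continuum.trans_le (h3 _ _)) (fun τ => by
      by_cases hτ : 𝔠 ≤ kap G τ
      · have h0 := aleph0_le_continuum.trans hτ
        refine (mk_le_of_surjective (f := fun x : Σ i, {a // ty a i = τ} × ℕ × II =>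
          (⟨((x.2.1.1, x.2.2.1, x.1), x.2.2.2), x.2.1.2⟩ : {p : (A × ℕ × ℕ) × II // ty p.1.1 p.1.2.2 = τ}))
          fun p => ⟨⟨_, ⟨_, p.2⟩, p.1.1.2.1, p.1.2⟩, rfl⟩).trans ?_
        rw [mk_sigma]
        refine (sum_le_mk_mul_iSup _).trans (mul_le_of_le h0 (mk_le_aleph0.trans h0)
          (ciSup_le' fun i => ?_))
        simp only [mk_prod, lift_id]
        exact mul_le_of_le h0 (h4 τ i hτ) (mul_le_of_le h0 (mk_le_aleph0.trans h0)
          (((mk_set_le _).trans_eq mk_real).trans hτ))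
      · refine (mk_eq_zero_iff.2 ⟨?_⟩).trans_le zero_le
        rintro ⟨p, rfl⟩
        exact hτ (h3 _ _))
    fun p => free _ (aleph0_lt_continuum.trans_le (h3 _ _))
  refine main_top (A := A) (Sum.elim tg fun z => z.2.2.2.choose) (fun a i => od (ty a i)) b h5 h6 ?_
    fun C hC => h2 C (fun l => hC (Sum.inl l)) fun q hq z hz =>
      ⟨_, hC (Sum.inr ⟨⟨q, hq⟩, z, hz⟩), hz.2.choose_spec⟩
  rintro (l | z) i
  · exact (f i l).1.2.2.imp_right fun h : od (ty (Sum.inl l) i) = 0 => by simp [h]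
  · refine Or.inr ⟨?_, fun _ => dvd_rfl⟩
    show (z.1.1.1 : ℕ) ^ (z.1.1.2 + 1) • z.2.2.2.choose = 0
    rw [pow_succ', mul_smul, z.2.2.2.choose_spec, z.2.2.1]

end Pool.Agent.H2.PC
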