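import Mathlib

set_option autoImplicit false

/-! A logically regular variety of unary algebras that is not logically perfect. -/

namespace Pool.Agent.H2.Plot

open FirstOrder FirstOrder.Language Filter

/-- operation symbols -/
inductive Fn : ℕ → Type
  | p : Fn 1
  | z : ℕ → Fn 1

/-- the language -/
def L : FirstOrder.Language.{0, 0} := ⟨Fn, fun _ => Empty⟩

/-- the free algebra on one generator -/
abbrev W := List ℕ ⊕ Bool

/-- parity -/
def par : List ℕ → Bool
  | [] => false
  | _ :: u => !par u

theorem par_append (u : List ℕ) (i : ℕ) : par (u ++ [i]) = !par u := by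
  induction u with
  | nil => rfl
  | cons a u ih => simp [par, ih]

/-- operation p -/
def pW : W → W
  | .inl u => .inr (par u)
  | .inr e => .inr e

/-- operation z -/
def zW (i : ℕ) : W → W
  | .inl u => .inl (u ++ [i])
  | .inr e => .inr e

instance : L.Structure W where
  funMap := fun {_} f v => match f, v with
    | .p, v => pW (v 0)
    | .z i, v => zW i (v 0)
  RelMap := fun r _ => r.elim

/-- all identities of `W` -/
def E : Set (Σ n : ℕ, L.Term (Fin n) × L.Term (Fin n)) :=
  {e | ∀ v : Fin e.1 → W, e.2.1.realize v = e.2.2.realize v}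

/-- operation p in a structure -/
def P {M : Type} [L.Structure M] (m : M) : M := Structure.funMap (L := L) Fn.p ![m]
/-- operation z in a structure -/
def Z {M : Type} [L.Structure M] (i : ℕ) (m : M) : M := Structure.funMap (L := L) (Fn.z i) ![m]
/-- term p -/
def tP {α : Type} (t : L.Term α) : L.Term α := Term.func (L := L) Fn.p ![t]
/-- term z -/
def tZ {α : Type} (i : ℕ) (t : L.Term α) : L.Term α := Term.func (L := L) (Fn.z i) ![t]

theorem vec1 {M : Type} (v : Fin 1 → M) : ![v 0] = v := by
  ext i; fin_cases i; rfl

@[simp] theorem realize_tP {α M : Type} [L.Structure M] (t : L.Term α) (v : α → M) :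
    (tP t).realize v = P (t.realize v) := by
  simp only [tP, Term.realize, P]; congr 1; ext i; fin_cases i; rfl
@[simp] theorem realize_tZ {α M : Type} [L.Structure M] (i : ℕ) (t : L.Term α) (v : α → M) :
    (tZ i t).realize v = Z i (t.realize v) := by
  simp only [tZ, Term.realize, Z]; congr 1; ext i; fin_cases i; rfl
@[simp] theorem P_W (w : W) : P w = pW w := rfl
@[simp] theorem Z_W (i : ℕ) (w : W) : Z i w = zW i w := rfl

theorem map_P {M N : Type} [L.Structure M] [L.Structure N] (h : L.Hom M N) (m : M) :
    h (P m) = P (h m) := by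
  simp only [P, HomClass.map_fun]; congr 1; ext i; fin_cases i; rfl
theorem map_Z {M N : Type} [L.Structure M] [L.Structure N] (h : L.Hom M N) (i : ℕ) (m : M) :
    h (Z i m) = Z i (h m) := by
  simp only [Z, HomClass.map_fun]; congr 1; ext i; fin_cases i; rfl

section model
variable {M : Type} [L.Structure M]
  (hM : ∀ e ∈ E, ∀ v : Fin e.1 → M, e.2.1.realize v = e.2.2.realize v)
include hM

theorem id1 (i : ℕ) (m : M) : P (Z i m) = P (Z 0 m) := by
  have := hM ⟨1, tP (tZ i (.var 0)), tP (tZ 0 (.var 0))⟩ (fun v => by
    simp only [realize_tP, realize_tZ, Term.realize_var, P_W, Z_W]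
    rcases v 0 with u | e <;> simp [pW, zW, par_append]) ![m]
  simpa using this
theorem id2 (i : ℕ) (m : M) : P (Z 0 (Z i m)) = P m := by
  have := hM ⟨1, tP (tZ 0 (tZ i (.var 0))), tP (.var 0)⟩ (fun v => by
    simp only [realize_tP, realize_tZ, Term.realize_var, P_W, Z_W]
    rcases v 0 with u | e
    · simp only [pW, zW, par_append, Bool.not_not]
    · simp [pW, zW]) ![m]
  simpa using this
theorem id3 (i : ℕ) (m : M) : Z i (P m) = P m := by
  have := hM ⟨1, tZ i (tP (.var 0)), tP (.var 0)⟩ (fun v => by
    simp only [realize_tP, realize_tZ, Term.realize_var, P_W, Z_W]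
    rcases v 0 with u | e <;> simp [pW, zW]) ![m]
  simpa using this
theorem id4 (m : M) : P (P m) = P m := by
  have := hM ⟨1, tP (tP (.var 0)), tP (.var 0)⟩ (fun v => by
    simp only [realize_tP, Term.realize_var, P_W]
    rcases v 0 with u | e <;> simp [pW]) ![m]
  simpa using this

theorem P_foldl (u : List ℕ) : ∀ m : M, P (u.foldl (fun m i => Z i m) m) =
    if par u then P (Z 0 m) else P m := by
  induction u with
  | nil => intro m; simp [par]
  | cons a u ih =>
    intro m
    rw [List.foldl_cons, ih]
    cases h : par u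
    · simp [par, h, id1 hM a]
    · simp [par, h, id2 hM a]

theorem W_free (f : Fin 1 → M) :
    ∃! h : L.Hom W M, ⇑h ∘ (fun _ : Fin 1 => (Sum.inl [] : W)) = f := by
  let g : W → M := Sum.elim (fun u => u.foldl (fun m i => Z i m) (f 0))
    (fun e => if e then P (Z 0 (f 0)) else P (f 0))
  have hP : ∀ w, g (pW w) = P (g w) := by
    rintro (u | e)
    · simp [g, pW, P_foldl hM]
    · cases e <;> simp [g, pW, id4 hM]
  have hZ : ∀ i w, g (zW i w) = Z i (g w) := by
    rintro i (u | e)
    · simp [g, zW]
    · cases e <;> simp [g, zW, id3 hM]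
  refine ⟨⟨g, ?_, fun r => r.elim⟩, ?_, ?_⟩
  · intro n F v
    cases F with
    | p => exact (hP _).trans (congrArg (Structure.funMap (L := L) Fn.p) (vec1 (g ∘ v)))
    | z i => exact (hZ i _).trans (congrArg (Structure.funMap (L := L) (Fn.z i)) (vec1 (g ∘ v)))
  · ext i; fin_cases i; rfl
  · intro h hh
    have h0 : h (Sum.inl []) = f 0 := congrFun hh 0
    have h1 : ∀ u, h (Sum.inl u) = g (Sum.inl u) := by
      intro u
      induction u using List.reverseRecOn with
      | nil => exact h0
      | append_singleton u i ih =>
        have := map_Z h i (Sum.inl u)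
        rw [ih, ← hZ] at this
        exact this
    ext w
    rcases w with u | e
    · exact h1 u
    · cases e
      · have := map_P h (Sum.inl [])
        rw [h1, ← hP] at this
        exact this
      · have := map_P h (Sum.inl [0])
        rw [h1, ← hP] at this
        exact this

end model

/-- parity flipping involution -/
def τ (k : ℕ) : List ℕ → List ℕ
  | [] => [k]
  | [a] => if a = k then [] else [k, a]
  | a :: b :: t => if a = k then (if b = k then k :: k :: τ k t else b :: t) else k :: a :: b :: t

theorem τ_ne {k a : ℕ} (h : a ≠ k) (t : List ℕ) : τ k (a :: t) = k :: a :: t := by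
  cases t <;> simp [τ, h]

theorem τ_τ (k : ℕ) : ∀ u, τ k (τ k u) = u
  | [] => by simp [τ]
  | [a] => by by_cases h : a = k <;> simp [τ, h]
  | a :: b :: t => by
    by_cases h : a = k
    · by_cases h' : b = k
      · simp [τ, h, h', τ_τ k t]
      · simp [τ, h, h', τ_ne h']
    · simp [τ, h]

theorem τ_append {k i : ℕ} (hi : i ≠ k) : ∀ u, τ k (u ++ [i]) = τ k u ++ [i]
  | [] => by simp [τ, hi]
  | [a] => by by_cases h : a = k <;> simp [τ, h, hi]
  | a :: b :: t => by
    by_cases h : a = k
    · by_cases h' : b = k
      · simp [τ, h, h', τ_append hi t]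
      · simp [τ, h, h']
    · simp [τ, h]

theorem par_τ (k : ℕ) : ∀ u, par (τ k u) = !par u
  | [] => by simp [τ, par]
  | [a] => by by_cases h : a = k <;> simp [τ, h, par]
  | a :: b :: t => by
    by_cases h : a = k
    · by_cases h' : b = k
      · simp [τ, h, h', par, par_τ k t]
      · simp [τ, h, h', par]
    · simp [τ, h, par]

/-- automorphism of a reduct -/
def σ (k : ℕ) : W → W := Sum.map (τ k) not

theorem σ_σ (k : ℕ) (w : W) : σ k (σ k w) = w := by
  rcases w with u | e <;> simp [σ, τ_τ]

theorem σ_inj (k : ℕ) : Function.Injective (σ k) := Function.LeftInverse.injective (σ_σ k)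

theorem term_σ {α : Type} (t : L.Term α) :
    ∀ᶠ k in atTop, ∀ v : α → W, t.realize (σ k ∘ v) = σ k (t.realize v) := by
  induction t with
  | var a => exact Eventually.of_forall fun _ _ => rfl
  | func F ts ih =>
    cases F with
    | p =>
      filter_upwards [ih 0] with k hk v
      change pW ((ts 0).realize _) = σ k (pW ((ts 0).realize _))
      rw [hk]
      rcases (ts 0).realize v with u | e <;> simp [σ, pW, par_τ]
    | z i =>
      filter_upwards [ih 0, eventually_gt_atTop i] with k hk hi v
      change zW i ((ts 0).realize _) = σ k (zW i ((ts 0).realize _))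
      rw [hk]
      rcases (ts 0).realize v with u | e <;> simp [σ, zW, τ_append hi.ne]

theorem form_σ {α : Type} {n : ℕ} (φ : L.BoundedFormula α n) :
    ∀ᶠ k in atTop, ∀ (v : α → W) (xs : Fin n → W),
      φ.Realize (σ k ∘ v) (σ k ∘ xs) ↔ φ.Realize v xs := by
  induction φ with
  | falsum => exact Eventually.of_forall fun _ _ _ => Iff.rfl
  | equal s t =>
    filter_upwards [term_σ s, term_σ t] with k hs ht v xs
    simp only [BoundedFormula.Realize]
    rw [← Sum.comp_elim, hs, ht, (σ_inj k).eq_iff]
  | rel R _ => exact R.elim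
  | imp _ _ ih1 ih2 =>
    filter_upwards [ih1, ih2] with k h1 h2 v xs
    simp only [BoundedFormula.Realize]
    rw [h1, h2]
  | all φ ih =>
    filter_upwards [ih] with k h v xs
    simp only [BoundedFormula.Realize]
    constructor
    · intro H x
      rw [← h, Fin.comp_snoc]
      exact H _
    · intro H x
      have := (h v _).2 (H (σ k x))
      rwa [Fin.comp_snoc, σ_σ] at this

theorem same_type (φ : L.Formula (Fin 1)) :
    φ.Realize (fun _ => (Sum.inr false : W)) ↔ φ.Realize (fun _ => (Sum.inr true : W)) := by
  obtain ⟨k, hk⟩ := (form_σ φ).exists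
  have key : ∀ d : Fin 0 → W, BoundedFormula.Realize φ (fun _ => (Sum.inr false : W)) d ↔
      BoundedFormula.Realize φ (fun _ => (Sum.inr true : W)) d := by
    intro d
    have := hk (fun _ => (Sum.inr true : W)) d
    have e : (σ k ∘ d) = d := Subsingleton.elim _ _
    rw [e] at this
    exact this
  exact key _

theorem not_img {n : ℕ} (F : L.Functions n) (v : Fin n → W) :
    Structure.funMap F v ≠ (Sum.inl [] : W) := by
  cases F with
  | p =>
    change pW (v 0) ≠ _
    rcases v 0 with u | e <;> simp [pW]
  | z i =>
    change zW i (v 0) ≠ _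
    rcases v 0 with u | e <;> simp [zW]

theorem not_aut (s : L.Equiv W W) : s (Sum.inr true) ≠ Sum.inr false := by
  have h0 : s (Sum.inl []) = Sum.inl [] := by
    obtain ⟨w, hw⟩ := s.surjective (Sum.inl [])
    rcases w with u | e
    · induction u using List.reverseRecOn with
      | nil => exact hw
      | append_singleton u i _ =>
        exact absurd ((map_Z s.toHom i (Sum.inl u)).symm.trans hw) (not_img _ _)
    · exact absurd ((map_P s.toHom (Sum.inr e)).symm.trans hw) (not_img _ _)
  have h1 := map_P s.toHom (Z 0 (Sum.inl []))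
  rw [map_Z] at h1
  simp only [Equiv.coe_toHom, h0] at h1
  have h2 : s (Sum.inr true) = Sum.inr true := h1
  rw [h2]; simp

theorem regular (n : ℕ) (F : Type) [L.Structure F] (ι : Fin n → F)
    (hF : ∀ e ∈ E, ∀ v : Fin e.1 → F, e.2.1.realize v = e.2.2.realize v)
    (hU : ∀ (M : Type) [L.Structure M],
          (∀ e ∈ E, ∀ v : Fin e.1 → M, e.2.1.realize v = e.2.2.realize v) →
          ∀ f : Fin n → M, ∃! h : L.Hom F M, ⇑h ∘ ι = f)
    (H : Type) [L.Structure H]
    (hH : ∀ e ∈ E, ∀ v : Fin e.1 → H, e.2.1.realize v = e.2.2.realize v)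
    (hT : ∀ (m : ℕ) (T : Set (L.Formula (Fin m))),
            {φ : L.Formula (Fin m) | ∀ a : Fin m → F,
                (∀ ψ ∈ T, ψ.Realize a) → φ.Realize a} =
            {φ : L.Formula (Fin m) | ∀ a : Fin m → H,
                (∀ ψ ∈ T, ψ.Realize a) → φ.Realize a}) :
    Nonempty (L.Equiv F H) := by
  classical
  have hFH : ∀ (m : ℕ) (a : Fin m → F), ∃ b : Fin m → H,
      ∀ ψ : L.Formula (Fin m), ψ.Realize a → ψ.Realize b := by
    intro m a
    by_contra hc
    have : (⊥ : L.Formula (Fin m)) ∈ {φ : L.Formula (Fin m) | ∀ b : Fin m → H,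
        (∀ ψ ∈ {ψ : L.Formula (Fin m) | ψ.Realize a}, ψ.Realize b) → φ.Realize b} :=
      fun b hb => hc ⟨b, hb⟩
    rw [← hT] at this
    exact this a fun _ h => h
  have hHF : ∀ (m : ℕ) (a : Fin m → H), ∃ b : Fin m → F,
      ∀ ψ : L.Formula (Fin m), ψ.Realize a → ψ.Realize b := by
    intro m a
    by_contra hc
    have : (⊥ : L.Formula (Fin m)) ∈ {φ : L.Formula (Fin m) | ∀ b : Fin m → F,
        (∀ ψ ∈ {ψ : L.Formula (Fin m) | ψ.Realize a}, ψ.Realize b) → φ.Realize b} :=
      fun b hb => hc ⟨b, hb⟩
    rw [hT] at this
    exact this a fun _ h => h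
  -- generation
  have hgen : ∀ x : F, ∃ t : L.Term (Fin n), t.realize ι = x := by
    intro x
    let S := Substructure.closure L (Set.range ι)
    obtain ⟨g, hg, -⟩ := hU S (fun e he v => by
      apply Subtype.ext
      have := hF e he (S.subtype ∘ v)
      rwa [HomClass.realize_term, HomClass.realize_term] at this)
      (fun i => ⟨ι i, Substructure.subset_closure ⟨i, rfl⟩⟩)
    obtain ⟨g0, -, hu⟩ := hU F hF ι
    have h1 := hu (S.subtype.toHom.comp g) (by
      ext i
      exact congrArg Subtype.val (congrFun hg i))
    have h2 := hu (Hom.id L F) rfl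
    have h3 : x ∈ S := by
      have := DFunLike.congr_fun (h1.trans h2.symm) x
      rw [Hom.id_apply] at this
      rw [← this]
      exact (g x).2
    refine Substructure.closure_induction (p := fun x => ∃ t : L.Term (Fin n), t.realize ι = x)
      h3 ?_ (fun {l} f v hv => ?_)
    · rintro _ ⟨i, rfl⟩; exact ⟨.var i, rfl⟩
    · simp only [Set.mem_setOf_eq] at hv ⊢
      choose ts hts using hv
      exact ⟨.func f ts, by simp [Term.realize, hts]⟩
  have hW : ∀ e ∈ E, ∀ v : Fin e.1 → W, e.2.1.realize v = e.2.2.realize v := fun e he => he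
  have hιinj : Function.Injective ι := by
    intro i j hij
    obtain ⟨g, hg, -⟩ := hU W hW fun l => Sum.inl [l.val]
    have h1 := congrFun hg i
    have h2 := congrFun hg j
    simp only [Function.comp] at h1 h2
    rw [hij, h2] at h1
    simp only [Sum.inl.injEq, List.cons.injEq, and_true] at h1
    exact Fin.ext h1.symm
  have hιimg : ∀ (f : L.Functions 1) (x : F) (i : Fin n), Structure.funMap f ![x] ≠ ι i := by
    intro f x i h
    obtain ⟨g, hg, -⟩ := hU W hW fun _ => Sum.inl []
    have h1 := congrFun hg i
    simp only [Function.comp] at h1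
    rw [← h, HomClass.map_fun] at h1
    exact not_img _ _ h1
  obtain ⟨y, hy⟩ := hFH n ι
  obtain ⟨h, hh, -⟩ := hU H hH y
  have hht : ∀ t : L.Term (Fin n), h (t.realize ι) = t.realize y := by
    intro t; rw [← HomClass.realize_term, hh]
  have hinj : Function.Injective h := by
    intro a b hab
    obtain ⟨s, rfl⟩ := hgen a
    obtain ⟨t, rfl⟩ := hgen b
    by_contra hne
    have := hy (Term.equal s t).not (by simpa using hne)
    simp only [Formula.realize_not, Formula.realize_equal] at this
    exact this (by rw [← hht, ← hht, hab])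
  have hsurj : Function.Surjective h := by
    intro c
    obtain ⟨b, hb⟩ := hHF (n + 1) (Fin.snoc y c)
    let x : Fin n → F := fun i => b i.castSucc
    have hx : ∀ ψ : L.Formula (Fin n), ψ.Realize ι → ψ.Realize x := by
      intro ψ hψ
      have h1 := hb (ψ.relabel Fin.castSucc) (by
        rw [Formula.realize_relabel]
        have : (Fin.snoc y c : Fin (n + 1) → H) ∘ Fin.castSucc = y := by ext i; simp
        rw [this]; exact hy ψ hψ)
      rwa [Formula.realize_relabel] at h1
    have hxinj : Function.Injective x := by
      intro i j hij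
      by_contra hne
      have := hx (Term.equal (.var i) (.var j)).not (by simpa using hιinj.ne hne)
      simp only [Formula.realize_not, Formula.realize_equal, Term.realize_var] at this
      exact this hij
    have hxr : ∀ j, ∃ i, ι i = x j := by
      intro j
      obtain ⟨t, ht⟩ := hgen (x j)
      cases t with
      | var i => exact ⟨i, ht⟩
      | func f ts =>
        exfalso
        have key : ∀ f : L.Functions 1, ∀ w : F, Structure.funMap f ![w] ≠ x j := by
          intro f w hw
          let ψ : L.Formula (Fin n) := BoundedFormula.all (BoundedFormula.not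
            (Term.bdEqual (Term.func f ![Term.var (Sum.inr 0)]) (Term.var (Sum.inl j))))
          have hψ : ∀ u : Fin n → F, ψ.Realize u ↔ ∀ w : F, Structure.funMap f ![w] ≠ u j := by
            intro u
            simp only [ψ, Formula.Realize, BoundedFormula.realize_all, BoundedFormula.realize_not,
              BoundedFormula.realize_bdEqual, Term.realize_var, Sum.elim_inl, Term.realize]
            refine forall_congr' fun w => not_congr (Eq.congr_left ?_)
            congr 1; ext i; fin_cases i; rfl
          exact (hψ x).1 (hx ψ ((hψ ι).2 fun w => hιimg f w j)) w hw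
        cases f with
        | p =>
          exact key Fn.p _ ((congrArg (Structure.funMap (L := L) Fn.p)
            (vec1 fun i => (ts i).realize ι)).trans ht)
        | z i =>
          exact key (Fn.z i) _ ((congrArg (Structure.funMap (L := L) (Fn.z i))
            (vec1 fun i => (ts i).realize ι)).trans ht)
    choose π hπ using hxr
    have hπinj : Function.Injective π := fun i j hij => hxinj (by rw [← hπ, ← hπ, hij])
    obtain ⟨ρ, hρ⟩ := (Finite.injective_iff_surjective.1 hπinj).hasRightInverse
    have hιx : x ∘ ρ = ι := by ext i; simp only [Function.comp]; rw [← hπ, hρ]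
    obtain ⟨t, ht⟩ := hgen (b (Fin.last n))
    refine ⟨(t.relabel ρ).realize ι, ?_⟩
    rw [hht]
    by_contra hne
    have h1 := hb (Term.equal ((t.relabel ρ).relabel Fin.castSucc) (.var (Fin.last n))).not (by
      simp only [Formula.realize_not, Formula.realize_equal, Term.realize_var, Fin.snoc_last]
      rw [Term.realize_relabel]
      have : (Fin.snoc y c : Fin (n + 1) → H) ∘ Fin.castSucc = y := by ext i; simp
      rw [this]; exact hne)
    simp only [Formula.realize_not, Formula.realize_equal, Term.realize_var] at h1
    apply h1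
    rw [Term.realize_relabel, Term.realize_relabel, ← ht, ← hιx]
    rfl
  exact ⟨⟨Equiv.ofBijective h ⟨hinj, hsurj⟩, fun f v => h.map_fun f v, fun r => r.elim⟩⟩

end Pool.Agent.H2.Plot
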