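import Mathlib
import Pool.Agent.H2.MG12

set_option autoImplicit false

/-! Compact sets of characters and reflexivity of precompact groups. -/

namespace Pool.Agent.H2.RF

open Filter Topology Set Pool.Agent.H2.MG

/-- oscillation of a sequence -/
def Osc (u : ℕ → Circle) : Prop := ∃ m, 1 / 16 < dist (u m) (u 0)

theorem lemP {L : Type} [TopologicalSpace L] [CompactSpace L]
    (h : ∀ P : ℕ → ℕ → L, (∀ k, Function.Injective (P k)) →
      ∃ φ : L → Circle, Continuous φ ∧ ∀ k, Osc fun m => φ (P k m)) : Finite L := by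
  by_contra hL
  rw [not_finite_iff_infinite] at hL
  have h1 : ∀ F : Set L, ∃ A : Bool → Set L, IsClosed F ∧ F.Infinite →
      (∀ b, (IsClosed (A b) ∧ (A b).Infinite) ∧ A b ⊆ F) ∧ Disjoint (A true) (A false) := by
    intro F
    by_cases hF : IsClosed F ∧ F.Infinite
    swap
    · exact ⟨fun _ => F, fun h => absurd h hF⟩
    let u : ℕ → L := fun n => hF.2.natEmbedding F n
    have hu : Function.Injective u := Subtype.val_injective.comp (hF.2.natEmbedding F).injective
    obtain ⟨φ, hφ, h2⟩ := h (fun k m => u (m + k)) fun k => hu.comp (add_left_injective k)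
    obtain ⟨z, hz⟩ := exists_clusterPt_of_compactSpace (map (φ ∘ u) atTop)
    have h3 : ∀ B : Set L, (∃ᶠ n in atTop, u n ∈ B) → (F ∩ B).Infinite := fun B hB =>
      ((Nat.frequently_atTop_iff_infinite.1 hB).image hu.injOn).mono (by
        rintro _ ⟨n, hn, rfl⟩; exact ⟨(hF.2.natEmbedding F n).2, hn⟩)
    refine ⟨fun b => F ∩ if b then {x | dist (φ x) z ≤ 1 / 64} else {x | 1 / 32 ≤ dist (φ x) z},
      fun _ => ⟨fun b => ⟨?_, inter_subset_left⟩, ?_⟩⟩
    · cases b
      · refine ⟨hF.1.inter (isClosed_le (by fun_prop) (by fun_prop)), h3 _ ?_⟩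
        refine frequently_atTop.2 fun k => ?_
        obtain ⟨m, hm⟩ := h2 k
        by_contra h4
        push Not at h4
        have h5 := h4 (m + k) (by omega)
        have h6 := h4 (0 + k) (by omega)
        simp only [Bool.false_eq_true, if_false, mem_setOf_eq, not_le] at h5 h6
        linarith [dist_triangle_right (φ (u (m + k))) (φ (u (0 + k))) z]
      · refine ⟨hF.1.inter (isClosed_le (by fun_prop) (by fun_prop)), h3 _ ?_⟩
        exact (mapClusterPt_iff_frequently.1 hz _ (Metric.closedBall_mem_nhds z (by norm_num :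
          (0 : ℝ) < 1 / 64)))
    · refine disjoint_left.2 fun x h4 h5 => ?_
      have h6 : dist (φ x) z ≤ 1 / 64 := h4.2
      have h7 : 1 / 32 ≤ dist (φ x) z := h5.2
      linarith
  choose A hA using h1
  let F : List Bool → Set L := fun s => s.rec univ fun b _ B => A B b
  have hF : ∀ s, IsClosed (F s) ∧ (F s).Infinite := fun s => by
    induction s with
    | nil => exact ⟨isClosed_univ, infinite_univ⟩
    | cons b s ih => exact ((hA _ ih).1 b).1
  obtain ⟨Z, -, hZ⟩ := zorn_superset_nonempty {Z | IsClosed Z ∧ ∀ s, (Z ∩ F s).Nonempty}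
    (fun c h1 h2 h3 => ⟨⋂₀ c, ⟨isClosed_sInter fun _ h => (h1 h).1, fun s => by
      haveI := h3.to_subtype
      have := IsCompact.nonempty_iInter_of_directed_nonempty_isCompact_isClosed
        (fun Z : c => Z.1 ∩ F s) (fun a b => by
          rcases h2.total a.2 b.2 with h | h
          exacts [⟨a, subset_rfl, inter_subset_inter_left _ h⟩,
            ⟨b, inter_subset_inter_left _ h, subset_rfl⟩]) (fun a => (h1 a.2).2 s)
        (fun a => ((h1 a.2).1.inter (hF s).1).isCompact) fun a => (h1 a.2).1.inter (hF s).1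
      rwa [← iInter_inter, ← sInter_eq_iInter] at this⟩, fun _ => sInter_subset_of_mem⟩)
    univ ⟨isClosed_univ, fun s => by simpa using (hF s).2.nonempty⟩
  have h2 : ∀ s, (Z ∩ F s).Infinite := fun s hs => by
    induction hn : (Z ∩ F s).ncard using Nat.strong_induction_on generalizing s with
    | _ n ih =>
      have h3 := fun b => inter_subset_inter_right Z ((hA _ (hF s)).1 b).2
      obtain ⟨x, hx⟩ := hZ.prop.2 (false :: s)
      exact ih _ (hn ▸ ncard_lt_ncard ⟨h3 true, fun h => disjoint_left.1 (hA _ (hF s)).2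
        (h (h3 false hx)).2 hx.2⟩ hs) (true :: s) (hs.subset (h3 true)) rfl
  obtain ⟨e, he⟩ := exists_surjective_nat (List Bool)
  obtain ⟨φ, hφ, h3⟩ := h (fun k m => (h2 (e k)).natEmbedding _ m)
    fun k => Subtype.val_injective.comp ((h2 (e k)).natEmbedding _).injective
  obtain ⟨z, hz, -⟩ := hZ.prop.2 []
  have h4 : ¬ ∀ s, ((Z ∩ {x | 1 / 32 ≤ dist (φ x) (φ z)}) ∩ F s).Nonempty := fun h5 => by
    have := (hZ.le_of_le ⟨hZ.prop.1.inter (isClosed_le (by fun_prop) (by fun_prop)), h5⟩
      inter_subset_left hz).2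
    norm_num at this
  push Not at h4
  obtain ⟨s, hs⟩ := h4
  obtain ⟨k, rfl⟩ := he s
  obtain ⟨m, hm⟩ := h3 k
  have h5 : ∀ m, dist (φ ((h2 (e k)).natEmbedding _ m)) (φ z) < 1 / 32 := fun m => by
    by_contra h6
    have h7 := ((h2 (e k)).natEmbedding _ m).2
    exact hs.subset ⟨⟨h7.1, not_lt.1 h6⟩, h7.2⟩
  linarith [h5 m, h5 0, dist_triangle_right (φ ((h2 (e k)).natEmbedding _ m))
    (φ ((h2 (e k)).natEmbedding _ 0)) (φ z)]

theorem dmm (a b c d : Circle) : dist (a * b) (c * d) ≤ dist a c + dist b d := by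
  rw [← dmr a c b, ← dml c b d]; exact dist_triangle _ _ _

theorem osc_open {X : Type} [TopologicalSpace X] (χ : ℕ → X → Circle) (h : ∀ m, Continuous (χ m)) :
    IsOpen {x | Osc fun m => χ m x} := by
  simp only [Osc, setOf_exists]
  exact isOpen_iUnion fun m => isOpen_lt continuous_const ((h m).dist (h 0))

variable {G : Type} [CommGroup G] [TopologicalSpace G] [IsTopologicalGroup G]

theorem osc_dense (hp : PC G) (χ : ℕ → G →* Circle) (h : Function.Injective χ) :
    Dense {x | Osc fun m => χ m x} := by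
  intro x0
  by_contra h0
  rw [mem_closure_iff_nhds] at h0
  push Not at h0
  obtain ⟨U, hU, h1⟩ := h0
  have h2 : ∀ x ∈ U, ∀ m, dist (χ m x) (χ 0 x) ≤ 1 / 16 := fun x hx m =>
    not_lt.1 fun h3 => h1.subset ⟨hx, m, h3⟩
  obtain ⟨F, hF⟩ := hp ((x0 * ·) ⁻¹' U)
    ((continuous_const_mul _).continuousAt.preimage_mem_nhds (by rwa [mul_one]))
  obtain ⟨a, φ, hφ, ha⟩ := CompactSpace.tendsto_subseq fun m (g : F) => χ m (g / x0)
  obtain ⟨N, hN⟩ := Metric.tendsto_atTop.1 ha (1 / 16) (by norm_num)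
  have h3 : ∀ x, dist (χ (φ N) x) (χ (φ (N + 1)) x) < 1 / 2 := fun x => by
    obtain ⟨g, hg, h4⟩ := hF x
    have h5 : x = g / x0 * (x0 * (g⁻¹ * x)) := by simp [div_eq_mul_inv, mul_assoc]
    have h6 := (dist_le_pi_dist _ _ ⟨g, hg⟩).trans_lt (hN N le_rfl)
    have h7 := (dist_le_pi_dist _ _ ⟨g, hg⟩).trans_lt (hN (N + 1) (by omega))
    rw [h5, map_mul, map_mul (χ (φ (N + 1)))]
    refine (dmm _ _ _ _).trans_lt ?_
    simp only [Function.comp] at h6 h7
    linarith [dist_triangle_right (χ (φ N) (g / x0)) (χ (φ (N + 1)) (g / x0)) (a ⟨g, hg⟩),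
      h2 _ h4 (φ N), h2 _ h4 (φ (N + 1)), dist_triangle_right (χ (φ N) (x0 * (g⁻¹ * x)))
        (χ (φ (N + 1)) (x0 * (g⁻¹ * x))) (χ 0 (x0 * (g⁻¹ * x)))]
  refine (hφ (lt_add_one N)).ne (h (MonoidHom.ext fun x => div_eq_one.1 (circ_small fun n => ?_)))
  rw [div_pow, ← map_pow, ← map_pow, ← dmr _ _ (χ (φ (N + 1)) (x ^ n)), div_mul_cancel, one_mul]
  exact h3 _

theorem cpt_pc [CompactSpace G] : PC G := fun U hU => by
  obtain ⟨E, hE⟩ := cov isCompact_univ hU
  exact ⟨E, fun x => hE x trivial⟩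

theorem osc_baire [BaireSpace G] (hp : PC G) (χ : ℕ → ℕ → G →* Circle)
    (h : ∀ k, Function.Injective (χ k)) (hc : ∀ k m, Continuous (χ k m)) :
    ∃ x, ∀ k, Osc fun m => χ k m x := by
  simpa using (dense_iInter_of_isOpen (fun k => osc_open (fun m => χ k m) (hc k))
    fun k => osc_dense hp _ (h k)).nonempty

omit [IsTopologicalGroup G] in
theorem ev_cont (g : G) : Continuous fun χ : PontryaginDual G => χ g :=
  continuous_eval_const (F := G →ₜ* Circle) g

omit [IsTopologicalGroup G] in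
theorem ptw (h : ∀ K : Set G, IsCompact K → K.Finite) {α : Type} {l : Filter α}
    {f : α → PontryaginDual G} {χ : PontryaginDual G}
    (h1 : ∀ g, Tendsto (fun a => f a g) l (𝓝 (χ g))) : Tendsto f l (𝓝 χ) := by
  refine (ContinuousMonoidHom.isInducing_toContinuousMap G Circle).tendsto_nhds_iff.2
    (ContinuousMap.tendsto_nhds_compactOpen.2 fun K hK U hU h2 => ?_)
  exact (eventually_all_finite (h K hK)).2 fun g hg => h1 g (hU.mem_nhds (h2 hg))

omit [IsTopologicalGroup G] in
theorem dual_fin (h : ∀ χ : ℕ → ℕ → PontryaginDual G, (∀ k, Function.Injective (χ k)) →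
    ∃ x, ∀ k, Osc fun m => χ k m x) (K : Set (PontryaginDual G)) (hK : IsCompact K) :
    K.Finite := by
  haveI := isCompact_iff_compactSpace.1 hK
  refine lemP (L := K) fun P hP => ?_
  obtain ⟨x, hx⟩ := h (fun k m => P k m) fun k => Subtype.val_injective.comp (hP k)
  exact ⟨fun l => l.1 x, (ev_cont x).comp continuous_subtype_val, hx⟩

/-- reflexivity -/
def Refl (G : Type) [CommGroup G] [TopologicalSpace G] : Prop :=
  ∃ e : G ≃ₜ* PontryaginDual (PontryaginDual G), ∀ (g : G) (χ : PontryaginDual G), e g χ = χ g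

theorem refl [T2Space G] (h1 : ∀ K : Set G, IsCompact K → K.Finite)
    (h2 : ∀ K : Set (PontryaginDual G), IsCompact K → K.Finite)
    (h3 : IsInducing fun (g : G) (χ : PontryaginDual G) => χ g) : Refl G := by
  let α : G →* PontryaginDual (PontryaginDual G) := MonoidHom.mk'
    (fun g => ⟨MonoidHom.mk' (fun χ : PontryaginDual G => χ g) fun _ _ => rfl, ev_cont g⟩)
    fun a b => PontryaginDual.ext fun χ => map_mul χ a b
  have ha : ∀ g χ, α g χ = χ g := fun _ _ => rfl
  have hi : Function.Injective α := fun a b h =>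
    h3.injective (funext fun χ => DFunLike.congr_fun h χ)
  let β : G →* PontryaginDual G →* Circle := MonoidHom.mk' (fun g => (α g).toMonoidHom)
    fun a b => MonoidHom.ext fun χ => map_mul χ a b
  have hs : Function.Surjective α := fun Ψ => by
    obtain ⟨g, hg⟩ := cr β.range Ψ.toMonoidHom (by
      have h4 := Ψ.continuous_toFun.tendsto 1
      rw [show Ψ.toFun 1 = 1 from map_one Ψ] at h4
      exact h4.comp (ptw h1 (f := id) fun g =>
        tendsto_iff_comap.2 (iInf_le_of_le ⟨_, g, rfl⟩ le_rfl)))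
    exact ⟨g, PontryaginDual.ext fun χ => DFunLike.congr_fun hg χ⟩
  let e := MulEquiv.ofBijective α ⟨hi, hs⟩
  refine ⟨⟨e, continuous_iff_continuousAt.2 fun g => ptw h2 fun χ => χ.continuous_toFun.tendsto g,
    h3.continuous_iff.2 (continuous_pi fun χ => ?_)⟩, ha⟩
  refine (ev_cont χ).congr fun Ψ => ?_
  exact (DFunLike.congr_fun (e.apply_symm_apply Ψ) χ).symm

end Pool.Agent.H2.RF
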