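import Mathlib
import Pool.Agent.H2.RF1

set_option autoImplicit false

/-! The integers with the Bohr topology are not an image of a reflexive precompact group. -/

namespace Pool.Agent.H2.RF

open Filter Topology Set Pool.Agent.H2.MG

/-- the integers with the Bohr topology -/
noncomputable abbrev ZB : Subgroup (Circle → Circle) := Subgroup.zpowers id

theorem ZB_hom (g : ZB) : ∃ χ : Circle →* Circle, Continuous χ ∧ ⇑χ = g.1 := by
  obtain ⟨_, n, rfl⟩ := g
  exact ⟨zpowGroupHom n, continuous_zpow n, rfl⟩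

theorem ZB_pc : PC ZB := cpt_pc.subgroup _

theorem ZB_fin (K : Set ZB) (hK : IsCompact K) : K.Finite := by
  have := isCompact_iff_compactSpace.1 hK
  refine lemP (L := K) fun P hP => ?_
  choose χ h1 h2 using ZB_hom
  obtain ⟨x, hx⟩ := osc_baire cpt_pc (fun k m => χ (P k m)) (fun k a b h => hP k
    (Subtype.ext (Subtype.ext (by rw [← h2, ← h2]; exact congrArg _ h)))) fun _ _ => h1 _
  exact ⟨fun l => l.1.1 x, (continuous_apply x).comp
    (continuous_subtype_val.comp continuous_subtype_val), by simpa only [h2] using hx⟩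

theorem ZB_inf : Infinite ZB := by
  refine infinite_coe_iff.2 (infinite_zpowers.2 fun h => ?_)
  obtain ⟨n, h1, h2⟩ := isOfFinOrder_iff_pow_eq_one.1 h
  have h3 : Circle.exp (Real.pi / n) ^ n = 1 := congrFun h2 _
  rw [← Circle.exp_nsmul, nsmul_eq_mul, mul_div_cancel₀ _ (by positivity)] at h3
  exact Circle.exp_pi_ne_one h3

universe u

theorem no_image (G : Type u) [CommGroup G] [TopologicalSpace G]
    (hp : ∀ U ∈ 𝓝 (1 : G), ∃ F : Finset G, ∀ x : G, ∃ g ∈ F, g⁻¹ * x ∈ U)
    (e : G ≃ₜ* PontryaginDual (PontryaginDual G))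
    (he : ∀ (g : G) (χ : PontryaginDual G), e g χ = χ g) (f : G →* ZB) (hf : Continuous f) :
    ¬ Function.Surjective f := by
  intro hs
  let ev : Circle → PontryaginDual ZB := fun t =>
    ⟨MonoidHom.mk' (fun g : ZB => g.1 t) fun _ _ => rfl,
      (continuous_apply t).comp continuous_subtype_val⟩
  have h1 : Continuous ev := continuous_iff_continuousAt.2 fun t => ptw ZB_fin fun g => by
    obtain ⟨χ, h1, h2⟩ := ZB_hom g
    exact (h2 ▸ h1 : Continuous g.1).tendsto t
  have h2 := (PontryaginDual.map ⟨f, hf⟩).continuous_toFun.comp h1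
  have h3 := e.continuous_toFun.tendsto 1
  rw [show e.toFun 1 = 1 from map_one e] at h3
  obtain ⟨F, hF⟩ := hp _ (ContinuousMap.tendsto_nhds_compactOpen.1
    ((ContinuousMonoidHom.isInducing_toContinuousMap _ Circle).tendsto_nhds_iff.1 h3) _
    (isCompact_range h2) (Metric.ball 1 (1 / 2)) Metric.isOpen_ball
    fun _ _ => Metric.mem_ball_self (by norm_num))
  have := ZB_inf
  refine (F.finite_toSet.image f).not_infinite (infinite_univ.mono fun y _ => ?_)
  obtain ⟨x, rfl⟩ := hs y
  obtain ⟨g, hg, h4⟩ := hF x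
  refine ⟨g, hg, inv_mul_eq_one.1 ?_⟩
  rw [← map_inv, ← map_mul]
  obtain ⟨χ, -, h5⟩ := ZB_hom (f (g⁻¹ * x))
  refine Subtype.ext (funext fun t => circ_small fun n => ?_)
  have h6 : dist (e (g⁻¹ * x) _) 1 < 1 / 2 := h4 ⟨t ^ n, rfl⟩
  rw [he] at h6
  rw [← h5, ← map_pow, h5]
  exact h6

end Pool.Agent.H2.RF
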