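import Mathlib
import Pool.Agent.H2.RF1
import Pool.Agent.H2.PC3

set_option autoImplicit false

/-! Characters of powers of the circle. -/

namespace Pool.Agent.H2.RF

open Filter Topology Set Cardinal Pool.Agent.H2.MG

section
variable {G : Type} [CommGroup G] [TopologicalSpace G]

/-- all countable subgroups are h-embedded -/
def HE (G : Type) [CommGroup G] [TopologicalSpace G] : Prop :=
  ∀ C : Set G, C.Countable → ∀ h : G →* Circle, ∃ χ : G →* Circle, Continuous χ ∧ ∀ x ∈ C, χ x = h x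

theorem HE.fin (h : HE G) (K : Set G) (hK : IsCompact K) : K.Finite := by
  have := isCompact_iff_compactSpace.1 hK
  refine lemP (L := K) fun P hP => ?_
  let E : G → Gam G →* Circle := fun g => MonoidHom.mk' (fun f => gh f g) fun _ _ => rfl
  obtain ⟨x, hx⟩ := osc_baire cpt_pc (fun k m => E (P k m)) (fun k a b h => hP k (Subtype.ext (by
    by_contra h1
    obtain ⟨χ, h2⟩ := sep_disc (div_ne_one.2 h1)
    rw [map_div, div_ne_one] at h2
    exact h2 (DFunLike.congr_fun h ⟨χ, map_mul χ⟩)))) fun _ _ => gh_cont _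
  obtain ⟨χ, h1, h2⟩ := h _ (countable_range fun p : ℕ × ℕ => (P p.1 p.2).1) (gh x)
  refine ⟨fun l => χ l, h1.comp continuous_subtype_val, fun k => ?_⟩
  rw [funext fun m => h2 _ ⟨(k, m), rfl⟩]
  exact hx k

theorem HE.closed (h : HE G) (K : Subgroup G) (hK : (K : Set G).Countable) :
    IsClosed (K : Set G) := by
  refine isClosed_of_closure_subset fun x hx => ?_
  by_contra h1
  obtain ⟨ψ, h2⟩ := sep_disc (M := G ⧸ K) (x := x) fun h2 => h1 ((QuotientGroup.eq_one_iff x).1 h2)
  obtain ⟨χ, h3, h4⟩ := h _ (hK.insert x) (ψ.comp (QuotientGroup.mk' K))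
  have h5 : closure (K : Set G) ⊆ {y | χ y = 1} :=
    closure_minimal (fun y hy => (h4 y (mem_insert_of_mem _ hy)).trans (by
      simp [(QuotientGroup.eq_one_iff y).2 hy])) (isClosed_eq h3 continuous_const)
  exact h2 ((h4 x (mem_insert _ _)).symm.trans (h5 hx))

end

variable {I G : Type} [CommGroup G]

/-- products of powers -/
noncomputable def pw (a : I → G) (c : I →₀ ℤ) : G := c.prod fun j k => a j ^ k

theorem pw_add (a : I → G) (c d : I →₀ ℤ) : pw a (c + d) = pw a c * pw a d :=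
  Finsupp.prod_add_index' (fun _ => zpow_zero _) fun _ _ _ => zpow_add _ _ _

@[simp] theorem pw_single (a : I → G) (i : I) (k : ℤ) : pw a (Finsupp.single i k) = a i ^ k :=
  Finsupp.prod_single_index (zpow_zero _)

@[simp] theorem pw_zero (a : I → G) : pw a 0 = 1 := rfl

theorem pw_congr {a b : I → G} {c : I →₀ ℤ} (h : ∀ i, c i ≠ 0 → a i = b i) : pw a c = pw b c :=
  Finsupp.prod_congr fun j hj => by rw [h j (Finsupp.mem_support_iff.1 hj)]

theorem map_pw {G' : Type} [CommGroup G'] (f : G →* G') (a : I → G) (c : I →₀ ℤ) :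
    f (pw a c) = pw (fun i => f (a i)) c := by
  simp [pw, map_finsuppProd]

/-- the homomorphism with given values on the basis -/
noncomputable def ph (a : I → G) : Multiplicative (I →₀ ℤ) →* G :=
  MonoidHom.mk' (fun c => pw a c.toAdd) fun _ _ => pw_add _ _ _

theorem pw_smul (a : I → G) (k : ℤ) (c : I →₀ ℤ) : pw a (k • c) = pw a c ^ k :=
  map_zpow (ph a) (Multiplicative.ofAdd c) k

theorem pw_self (c : I →₀ ℤ) :
    pw (fun i => Multiplicative.ofAdd (Finsupp.single i (1 : ℤ))) c = Multiplicative.ofAdd c := by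
  induction c using Finsupp.induction_linear with
  | zero => rfl
  | add f g hf hg => rw [pw_add, hf, hg, ofAdd_add]
  | single i k => rw [pw_single, ← ofAdd_zsmul, Finsupp.smul_single, smul_eq_mul, mul_one]

theorem pw_upd [DecidableEq I] (a : I → G) (α : I) (r : G) (c : I →₀ ℤ) :
    pw (Function.update a α r) c = r ^ c α * pw a (c.erase α) := by
  conv_lhs => rw [← Finsupp.single_add_erase α c, pw_add, pw_single, Function.update_self]
  exact congrArg _ (pw_congr fun i hi => Function.update_of_ne (by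
    rintro rfl; exact hi Finsupp.erase_same) _ _)

/-- characters of the torus -/
noncomputable def ch (d : I →₀ ℤ) : (I → Circle) →* Circle :=
  MonoidHom.mk' (fun x => pw x d) fun x y => by simp [pw, mul_zpow, Finsupp.prod_mul]

theorem ch_apply (d : I →₀ ℤ) (x : I → Circle) : ch d x = pw x d := rfl

theorem ch_cont (d : I →₀ ℤ) : Continuous (ch d) :=
  continuous_finset_prod _ fun i _ => (continuous_apply i).zpow _

/-- the characters as a homomorphism -/
noncomputable def chh (H : Subgroup (I → Circle)) : Multiplicative (I →₀ ℤ) →* H →* Circle :=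
  MonoidHom.mk' (fun d => (ch d.toAdd).comp H.subtype) fun _ _ =>
    MonoidHom.ext fun _ => pw_add _ _ _

theorem ch_all (H : Subgroup (I → Circle)) (χ : H →* Circle) (h : Continuous χ) :
    ∃ d, ∀ x : H, χ x = ch d x.1 := by
  obtain ⟨d, hd⟩ := cr (chh H).range χ (by
    have h1 := h.tendsto 1
    rw [map_one] at h1
    refine h1.mono_left ?_
    rw [nhds_induced, ← tendsto_iff_comap, tendsto_pi_nhds]
    intro i
    refine tendsto_iInf' ⟨_, Multiplicative.ofAdd (Finsupp.single i 1), rfl⟩ ?_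
    refine (tendsto_congr fun x => ?_).1 tendsto_comap
    exact (pw_single _ _ _).trans (zpow_one _))
  exact ⟨d.toAdd, fun x => (DFunLike.congr_fun hd x).symm⟩

theorem dense_of (K : Subgroup (I → Circle)) (h : ∀ d ≠ 0, ∃ x ∈ K, ch d x ≠ 1) :
    Dense (K : Set (I → Circle)) := by
  intro y
  by_contra hy
  have := K.isClosed_topologicalClosure
  obtain ⟨χ, h1, h2⟩ := (cpt_pc.quot K.topologicalClosure).sep (y : _ ⧸ _)
    fun h2 => hy ((QuotientGroup.eq_one_iff y).1 h2)
  obtain ⟨d, hd⟩ := ch_all ⊤ ((χ.comp (QuotientGroup.mk' _)).comp (Subgroup.subtype _))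
    ((show Continuous χ from h1).comp (QuotientGroup.continuous_mk.comp continuous_subtype_val))
  obtain ⟨x, h3, h4⟩ := h d (by rintro rfl; exact h2 (hd ⟨y, trivial⟩))
  refine h4 ((hd ⟨x, trivial⟩).symm.trans ?_)
  simp [(QuotientGroup.eq_one_iff x).2 (K.le_topologicalClosure h3)]

/-- lines -/
noncomputable def ex (v : I → ℝ) (s : ℝ) : I → Circle := fun i => Circle.exp (s * v i)

theorem ex_cont (v : I → ℝ) : Continuous (ex v) := by unfold ex; fun_prop

theorem ch_ex (v : I → ℝ) (s : ℝ) (d : I →₀ ℤ) :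
    ch d (ex v s) = Circle.exp (s * Finsupp.linearCombination ℤ v d) := by
  rw [ch_apply]
  induction d using Finsupp.induction_linear with
  | zero => simp
  | add f g hf hg => rw [pw_add, hf, hg, map_add, mul_add, Circle.exp_add]
  | single i k => simp [ex, mul_left_comm s]

theorem cnt_fib {l : ℝ} (h : l ≠ 0) (z t : Circle) : {s | z * Circle.exp (s * l) = t}.Countable := by
  obtain ⟨y, hy⟩ := Circle.exp_surjective (z⁻¹ * t)
  refine (countable_range fun m : ℤ => (y + m * (2 * Real.pi)) / l).mono fun s hs => ?_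
  obtain ⟨m, hm⟩ := Circle.exp_eq_exp.1 ((eq_inv_mul_of_mul_eq hs).trans hy.symm)
  exact ⟨m, (div_eq_iff h).2 hm.symm⟩

theorem gen (v : I → ℝ) (x : I → Circle) {A : Set ℝ} (hA : A ∈ residual ℝ) {ι : Type} (h : #ι < 𝔠)
    (d : ι → I →₀ ℤ) (t : ι → Circle) (hd : ∀ i, Finsupp.linearCombination ℤ v (d i) ≠ 0) :
    ∃ s ∈ A, ∀ i, ch (d i) (x * ex v s) ≠ t i := by
  by_contra h0
  push Not at h0
  have h1 : #(⋃ i, {s | ch (d i) x * Circle.exp (s * Finsupp.linearCombination ℤ v (d i)) = t i})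
      < 𝔠 := ((mk_iUnion_le_sum_mk.trans (sum_le_sum _ (fun _ => ℵ₀) fun i =>
    le_aleph0_iff_set_countable.2 (cnt_fib (hd i) _ _))).trans_eq (sum_const' _ _)).trans_lt
      (mul_lt_of_lt aleph0_le_continuum h aleph0_lt_continuum)
  have h2 : #A < 𝔠 := (mk_le_mk_of_subset fun s hs => by
    obtain ⟨i, hi⟩ := h0 s hs
    rw [map_mul, ch_ex] at hi
    exact mem_iUnion.2 ⟨i, hi⟩).trans_lt h1
  refine (mul_lt_of_lt aleph0_le_continuum h2 h2).not_ge (mk_real.ge.trans
    ((mk_le_of_surjective (f := fun p : A × A => p.1.1 - p.2.1) fun r => ?_).trans_eq (by simp)))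
  obtain ⟨a, h3, h4⟩ := (dense_of_mem_residual (inter_mem hA (tendsto_residual_of_isOpenMap
    (continuous_add_const r) (isOpenMap_add_right r) hA))).nonempty
  exact ⟨(⟨_, h4⟩, ⟨a, h3⟩), by simp⟩

theorem exists_v (h : #I ≤ 𝔠) : ∃ v : I → ℝ, ∀ d ≠ 0, Finsupp.linearCombination ℤ v d ≠ 0 := by
  let b := Module.Basis.ofVectorSpace ℚ ℝ
  obtain ⟨e⟩ := (Cardinal.le_def _ _).1 (h.trans_eq (Real.rank_rat_real.symm.trans b.mk_eq_rank''.symm))
  exact ⟨_, fun d h1 h2 => h1 (linearIndependent_iff.1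
    ((b.linearIndependent.comp e e.injective).restrict_scalars' ℤ) d h2)⟩

theorem ch_inj (h : #I ≤ 𝔠) : Function.Injective (ch (I := I)) := fun d d' h1 => by
  obtain ⟨v, hv⟩ := exists_v h
  by_contra h2
  obtain ⟨s, -, hs⟩ := gen v 1 univ_mem (ι := Unit) (by simpa using nat_lt_continuum 1)
    (fun _ => d - d') (fun _ => 1) fun _ => hv _ (sub_ne_zero.2 h2)
  refine hs () (((ph (G := Circle) (1 * ex v s)).map_div (Multiplicative.ofAdd d)
    (Multiplicative.ofAdd d')).trans ?_)
  exact div_eq_one.2 (DFunLike.congr_fun h1 _)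

theorem tor_sep (h : #I ≤ 𝔠) : ∃ D : Set (I → Circle), D.Countable ∧ Dense D := by
  obtain ⟨v, hv⟩ := exists_v h
  let L : Multiplicative ℝ →* (I → Circle) := MonoidHom.mk' (fun s => ex v s.toAdd) fun a b =>
    funext fun i => by simp [ex, add_mul]
  have h1 : DenseRange (ex v) := dense_of L.range fun d hd => by
    obtain ⟨s, -, hs⟩ := gen v 1 univ_mem (ι := Unit) (by simpa using nat_lt_continuum 1)
      (fun _ => d) (fun _ => 1) fun _ => hv _ hd
    exact ⟨ex v s, ⟨Multiplicative.ofAdd s, rfl⟩, by simpa using hs ()⟩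
  exact ⟨_, countable_range _, h1.comp Rat.denseRange_cast (ex_cont v)⟩

theorem genRow (h : #I ≤ 𝔠) {ι : Type} (hι : #ι < 𝔠) (d : ι → I →₀ ℤ) (t : ι → Circle)
    (hd : ∀ i, d i ≠ 0) (P : ℕ → ℕ → I →₀ ℤ) : ∃ x, (∀ i, ch (d i) x ≠ t i) ∧
      ((∀ k, Function.Injective (P k)) → ∀ k, Osc fun m => ch (P k m) x) := by
  obtain ⟨v, hv⟩ := exists_v h
  by_cases hP : ∀ k, Function.Injective (P k)
  swap
  · obtain ⟨s, -, hs⟩ := gen v 1 univ_mem hι d t fun i => hv _ (hd i)
    exact ⟨_, hs, fun h => absurd h hP⟩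
  have h1 := fun k => osc_open (fun m => ch (P k m)) fun m => ch_cont _
  have h2 := fun k => osc_dense cpt_pc (fun m => ch (P k m)) ((ch_inj h).comp (hP k))
  obtain ⟨x, hx⟩ := (dense_iInter_of_isOpen (f := fun p : ℕ × ℚ => (· * ex v p.2) ⁻¹'
    {x | Osc fun m => ch (P p.1 m) x}) (fun p => (h1 _).preimage (continuous_mul_const _))
    fun p => (h2 _).preimage (isOpenMap_mul_right _)).nonempty
  obtain ⟨s, h3, hs⟩ := gen v x (A := ⋂ k, (fun s => x * ex v s) ⁻¹' {x | Osc fun m => ch (P k m) x})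
    (countable_iInter_mem.2 fun k => residual_of_dense_open
      ((h1 k).preimage (continuous_const.mul (ex_cont v))) (Rat.denseRange_cast.mono (by
        rintro _ ⟨q, rfl⟩; exact mem_iInter.1 hx (k, q)))) hι d t fun i => hv _ (hd i)
  exact ⟨_, hs, fun _ => mem_iInter.1 h3⟩

theorem genCol (h : #I ≤ 𝔠) {ι : Type} (hι : #ι < 𝔠) (d : ι → I →₀ ℤ) (t : ι → Circle)
    (S : Set I) (hd : ∀ i, ∃ j, d i j ≠ 0 ∧ j ∉ S) (g : I → Circle) :
    ∃ x, (∀ i, ch (d i) x ≠ t i) ∧ ∀ j ∈ S, x j = g j := by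
  classical
  obtain ⟨v, hv⟩ := exists_v h
  obtain ⟨s, -, hs⟩ := gen (fun j => if j ∈ S then 0 else v j) g univ_mem hι d t fun i => by
    obtain ⟨j, h1, h2⟩ := hd i
    convert hv ((d i).filter (· ∉ S)) fun h3 => h1 (by simpa [h2] using DFunLike.congr_fun h3 j)
      using 1
    simp only [Finsupp.linearCombination_apply, Finsupp.sum, Finsupp.support_filter,
      Finset.sum_filter]
    exact Finset.sum_congr rfl fun a _ => by by_cases h : a ∈ S <;> simp [h]
  exact ⟨_, hs, fun j hj => by simp [ex, hj]⟩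

end Pool.Agent.H2.RF
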