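import Mathlib
import Pool.Agent.H2.RF2

set_option autoImplicit false

/-! Zero-dimensional dense subgroups of tori. -/

namespace Pool.Agent.H2.RF

open Filter Topology Set Cardinal Pool.Agent.H2.MG

variable {I : Type}

theorem boc (h : #I ≤ 𝔠) {O O' : Set (I → Circle)} (h1 : IsOpen O) (h2 : IsOpen O')
    (h3 : Disjoint O O') : ∃ J : Set I, J.Countable ∧ ∀ x ∈ O, ∀ y ∈ O', ¬ ∀ j ∈ J, x j = y j := by
  classical
  obtain ⟨D, hD, h4⟩ := tor_sep h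
  choose! F u h5 h6 using isOpen_pi_iff.1 h1
  refine ⟨⋃ p ∈ D, F p, hD.biUnion fun p _ => (F p).countable_toSet, fun x hx y hy h7 => ?_⟩
  let θ : (I → Circle) → I → Circle := fun z => (⋃ p ∈ D, (F p : Set I)).piecewise z y
  have h8 : Continuous θ := continuous_pi fun i => by
    by_cases hi : i ∈ ⋃ p ∈ D, (F p : Set I)
    · simp only [θ, piecewise_eq_of_mem _ _ _ hi]; fun_prop
    · simp only [θ, piecewise_eq_of_notMem _ _ _ hi]; fun_prop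
  obtain ⟨p, ⟨h9, h10⟩, hp⟩ := h4.inter_open_nonempty _ (h1.inter (h2.preimage h8)) ⟨x, hx, by
    rw [mem_preimage, show θ x = y from funext fun i => ite_eq_right_iff.2 (h7 i)]
    exact hy⟩
  refine disjoint_left.1 h3 (h6 p h9 fun a ha => ?_) h10
  rw [show θ p a = p a from piecewise_eq_of_mem _ _ _ (mem_biUnion hp ha)]
  exact (h5 p h9 a ha).2

theorem sph {z u : Circle} (h : dist z 1 = dist u 1) : z = u ∨ z = u⁻¹ := by
  have h1 : ∀ z : Circle, dist z 1 ^ 2 = 2 - 2 * (z : ℂ).re := fun z => by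
    have h2 := z.normSq_coe
    rw [show dist z 1 = ‖(z : ℂ) - 1‖ from dist_eq_norm (z : ℂ) 1, ← Complex.normSq_eq_norm_sq]
    simp only [Complex.normSq_apply, Complex.sub_re, Complex.sub_im, Complex.one_re,
      Complex.one_im] at h2 ⊢
    linarith
  have h2 : (z : ℂ).re = (u : ℂ).re := by linarith [h1 z, h1 u, congrArg (· ^ 2) h]
  have h3 := z.normSq_coe
  have h4 := u.normSq_coe
  rw [Complex.normSq_apply] at h3 h4
  rw [h2] at h3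
  rcases mul_self_eq_mul_self_iff.1 (add_left_cancel (h3.trans h4.symm)) with h5 | h5
  · exact .inl (Circle.ext (Complex.ext h2 h5))
  · exact .inr (Circle.ext (Complex.ext (by simpa [Circle.coe_inv_eq_conj, -Circle.coe_inv] using h2)
      (by simpa [Circle.coe_inv_eq_conj, -Circle.coe_inv] using h5)))

theorem cyl {G : Type} [Group G] [TopologicalSpace G] (χ : G →* Circle) (hc : Continuous χ)
    (h : ∃ ξ, ∀ x, χ x ≠ ξ) (x : G) {N : Set Circle} (hN : N ∈ 𝓝 (χ x)) :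
    ∃ B ⊆ N, IsOpen B ∧ χ x ∈ B ∧ IsClopen (χ ⁻¹' B) := by
  obtain ⟨ε, h0, h1⟩ := Metric.mem_nhds_iff.1 hN
  obtain ⟨u, h2, h3⟩ : ∃ u, dist u 1 < ε ∧ u ∉ χ.range := by
    by_contra h2
    push Not at h2
    have h3 := χ.range.isOpen_of_mem_nhds (mem_of_superset (Metric.ball_mem_nhds 1 h0) h2)
    obtain ⟨ξ, hξ⟩ := h
    obtain ⟨y, hy⟩ := (IsClopen.eq_univ ⟨χ.range.isClosed_of_isOpen h3, h3⟩ ⟨1, one_mem _⟩).ge
      (mem_univ ξ)
    exact hξ y hy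
  refine ⟨Metric.ball (χ x) (dist u 1), (Metric.ball_subset_ball h2.le).trans h1, Metric.isOpen_ball,
    Metric.mem_ball_self (dist_pos.2 (by rintro rfl; exact h3 (one_mem _))), ?_,
    Metric.isOpen_ball.preimage hc⟩
  convert (Metric.isClosed_closedBall (x := χ x) (ε := dist u 1)).preimage hc using 1
  refine subset_antisymm (preimage_mono Metric.ball_subset_closedBall)
    fun y hy => (Metric.mem_closedBall.1 hy).lt_of_ne fun h4 => h3 ?_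
  rw [← dml (χ x)⁻¹, inv_mul_cancel, ← map_inv, ← map_mul] at h4
  rcases sph h4 with h5 | h5
  exacts [⟨_, h5⟩, inv_mem_iff.1 ⟨_, h5⟩]

theorem clo (H : Subgroup (I → Circle)) (h : ∀ j, ∃ ξ, ∀ x : H, x.1 j ≠ ξ) {J : Set I}
    (hJ : J.Countable) {O : Set (I → Circle)} (hO : IsOpen O) : ∃ T : Set (Set H), T.Countable ∧
      (∀ C ∈ T, IsClopen C ∧ ∀ x ∈ C, ∃ y ∈ O, ∀ j ∈ J, x.1 j = y j) ∧
      ∀ x : H, x.1 ∈ O → ∃ C ∈ T, x ∈ C := by
  classical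
  have := hJ.to_subtype
  let ρ : H → J → Circle := fun x j => x.1 j
  obtain ⟨T, h1, h2⟩ := TopologicalSpace.isOpen_iUnion_countable (fun W : {W : Set (J → Circle) //
    IsOpen W ∧ IsClopen (ρ ⁻¹' W) ∧ ∀ w ∈ W, ∃ y ∈ O, ∀ j : J, w j = y j} => W.1) fun W => W.2.1
  refine ⟨_, h1.image fun W => ρ ⁻¹' W.1, ?_, fun x hx => ?_⟩
  · rintro _ ⟨W, -, rfl⟩
    exact ⟨W.2.2.1, fun x hx => (W.2.2.2 _ hx).imp fun y hy => ⟨hy.1, fun j hj => hy.2 ⟨j, hj⟩⟩⟩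
  obtain ⟨F, u, h3, h4⟩ := isOpen_pi_iff.1 hO _ hx
  choose! B h5 h6 h7 h8 using fun a (ha : a ∈ F) => cyl ((Pi.evalMonoidHom _ a).comp H.subtype)
    ((continuous_apply a).comp continuous_subtype_val) (h a) x ((h3 a ha).1.mem_nhds (h3 a ha).2)
  have h9 : {a : J | a.1 ∈ F}.Finite := F.finite_toSet.preimage Subtype.val_injective.injOn
  have h10 := h2.ge (mem_iUnion.2 ⟨⟨{a : J | a.1 ∈ F}.pi fun a => B a,
    isOpen_set_pi h9 fun a ha => h6 a ha, ?_, fun w hw => ?_⟩,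
    (fun a ha => h7 a ha : ρ x ∈ Set.pi _ _)⟩)
  · obtain ⟨W, hW, h11⟩ := mem_iUnion₂.1 h10
    exact ⟨_, ⟨W, hW, rfl⟩, h11⟩
  · convert h9.isClopen_biInter fun a ha => h8 a ha using 1
    ext y
    simp [ρ]
  · refine ⟨fun a => if h : a ∈ J then w ⟨a, h⟩ else x.1 a, h4 fun a ha => ?_, fun j => by simp⟩
    by_cases h : a ∈ J
    · simpa [h] using h5 a ha (hw ⟨a, h⟩ ha)
    · simpa [h] using (h3 a ha).2

theorem zd (hI : #I ≤ 𝔠) (H : Subgroup (I → Circle)) (hd : Dense (H : Set (I → Circle)))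
    (h : ∀ j, ∃ ξ, ∀ x : H, x.1 j ≠ ξ) (f : H → ℝ) (hf : Continuous f) :
    ∃ U : Set H, IsClopen U ∧ f ⁻¹' {0} ⊆ U ∧ Disjoint U (f ⁻¹' {1}) := by
  have h1 : ∀ a : ℝ, ∃ O O' : Set (I → Circle), ∃ J : Set I, IsOpen O ∧ IsOpen O' ∧ J.Countable ∧
      (∀ x : H, f x < a → x.1 ∈ O) ∧ (∀ x : H, a < f x → x.1 ∈ O') ∧
      ∀ x ∈ O, ∀ y ∈ O', ¬ ∀ j ∈ J, x j = y j := fun a => by
    obtain ⟨O, h1, h2⟩ := isOpen_induced_iff.1 (isOpen_Iio (a := a).preimage hf)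
    obtain ⟨O', h3, h4⟩ := isOpen_induced_iff.1 (isOpen_Ioi (a := a).preimage hf)
    obtain ⟨J, h5, h6⟩ := boc hI h1 h3 (disjoint_left.2 fun x h5 h6 => by
      obtain ⟨y, h7, h8⟩ := hd.inter_open_nonempty _ (h1.inter h3) ⟨x, h5, h6⟩
      exact lt_asymm (mem_Iio.1 (mem_preimage.1 ((Set.ext_iff.1 h2 ⟨y, h8⟩).1 h7.1)))
        (mem_Ioi.1 (mem_preimage.1 ((Set.ext_iff.1 h4 ⟨y, h8⟩).1 h7.2))))
    exact ⟨O, O', J, h1, h3, h5, fun x hx => h2.ge hx, fun x hx => h4.ge hx, h6⟩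
  obtain ⟨A, B, J, a1, a2, a3, a4, a5, a6⟩ := h1 (1 / 3)
  obtain ⟨A', B', J', b1, b2, b3, b4, b5, b6⟩ := h1 (2 / 3)
  obtain ⟨T, c1, c2, c3⟩ := clo H h a3 a2
  obtain ⟨T', d1, d2, d3⟩ := clo H h b3 b1
  have h2 : ∀ x, ∃ C ∈ T ∪ T', x ∈ C := fun x => by
    rcases lt_or_ge (1 / 3) (f x) with h2 | h2
    · exact (c3 x (a5 x h2)).imp fun C hC => ⟨.inl hC.1, hC.2⟩
    · exact (d3 x (b4 x (by linarith))).imp fun C hC => ⟨.inr hC.1, hC.2⟩
  obtain ⟨E, hE⟩ := (c1.union d1).exists_eq_range ((h2 1).imp fun _ h => h.1)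
  have h3 : ∀ n, E n ∈ T ∪ T' := fun n => hE.ge ⟨n, rfl⟩
  have h4 : ∀ n, IsClopen (E n) := fun n => (h3 n).elim (fun h => (c2 _ h).1) fun h => (d2 _ h).1
  have h5 : ∀ n, IsOpen (disjointed E n) := fun n =>
    disjointedRec (fun _ j ht => ht.sdiff (h4 j).1) (h4 n).2
  have h6 : ∀ x, ∃ n, x ∈ disjointed E n := fun x => by
    obtain ⟨_, h6, h7⟩ := h2 x
    obtain ⟨n, rfl⟩ := hE.le h6
    exact mem_iUnion.1 (iUnion_disjointed.ge (mem_iUnion.2 ⟨n, h7⟩))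
  refine ⟨⋃ n, ⋃ _ : E n ∈ T', disjointed E n, ⟨⟨?_⟩, isOpen_biUnion fun n _ => h5 n⟩,
    fun x hx => ?_, disjoint_left.2 fun x h7 hx => ?_⟩
  · refine isOpen_iff_mem_nhds.2 fun x hx => ?_
    obtain ⟨n, hn⟩ := h6 x
    refine mem_of_superset ((h5 n).mem_nhds hn) fun y hy h7 => ?_
    obtain ⟨m, h8, h9⟩ := mem_iUnion₂.1 h7
    by_cases h10 : n = m
    · exact hx (mem_iUnion₂.2 ⟨n, h10 ▸ h8, hn⟩)
    · exact disjoint_left.1 (disjoint_disjointed E h10) hy h9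
  · obtain ⟨n, hn⟩ := h6 x
    refine mem_iUnion₂.2 ⟨n, (h3 n).resolve_left fun h7 => ?_, hn⟩
    obtain ⟨y, h8, h9⟩ := (c2 _ h7).2 x (disjointed_subset _ _ hn)
    exact a6 _ (a4 x (by rw [show f x = 0 from hx]; norm_num)) y h8 h9
  · obtain ⟨n, h8, hn⟩ := mem_iUnion₂.1 h7
    obtain ⟨y, h9, h10⟩ := (d2 _ h8).2 x (disjointed_subset _ _ hn)
    exact b6 y h9 _ (b5 x (by rw [show f x = 1 from hx]; norm_num)) fun j hj => (h10 j hj).symm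

end Pool.Agent.H2.RF
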