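import Mathlib
import Pool.Agent.H2.RF3

set_option autoImplicit false

/-! The transfinite construction of the matrix. -/

namespace Pool.Agent.H2.RF

open Filter Topology Set Cardinal Pool.Agent.H2.MG Function

variable {I : Type}

/-- the pairing given by a matrix -/
noncomputable def pr (N : I → I → Circle) (c d : I →₀ ℤ) : Circle := ch d (pw N c)

theorem pr_eq (N : I → I → Circle) (c d : I →₀ ℤ) : pr N c d = pw (fun β => pw (N β) d) c :=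
  map_pw (ch d) N c

theorem pr_congr {N N' : I → I → Circle} {c d : I →₀ ℤ}
    (h : ∀ β γ, c β ≠ 0 → d γ ≠ 0 → N β γ = N' β γ) : pr N c d = pr N' c d := by
  rw [pr_eq, pr_eq]
  exact pw_congr fun β hβ => pw_congr fun γ hγ => h β γ hβ hγ

theorem small_supp (s : Set I) {κ : Cardinal} (h0 : ℵ₀ < κ) (h : #s < κ) :
    #{c : I →₀ ℤ | ∀ i, c i ≠ 0 → i ∈ s} < κ := by
  refine lt_of_le_of_lt (mk_le_mk_of_subset (t := Finsupp.supported ℤ ℤ s) fun c hc =>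
    (Finsupp.mem_supported ℤ c).2 fun i hi => hc i (Finsupp.mem_support_iff.1 hi)) ?_
  rw [Finsupp.supported_eq_span_single, image_eq_range]
  exact PC.mk_span _ h0 h

theorem rec2 {St : Type} [One St] [LinearOrder I] [WellFoundedLT I]
    (Q : I → (I → St) → Prop) (h1 : ∀ α b b', (∀ β ≤ α, b β = b' β) → Q α b → Q α b')
    (h2 : ∀ α b, ∃ x, Q α (update b α x)) : ∃ b, ∀ α, Q α b := by
  obtain ⟨b, hb⟩ := PC.wf_rec (wellFounded_lt (α := I)) (fun α f x =>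
    Q α (update (fun β => if h : β < α then f β h else 1) α x)) fun α f => h2 α _
  refine ⟨b, fun α => h1 α _ _ (fun β hβ => ?_) (hb α)⟩
  rcases hβ.eq_or_lt with rfl | h
  · simp
  · simp [h.ne, h]

variable [DecidableEq I]

theorem pr_row (N : I → I → Circle) (α : I) (r : I → Circle) (c d : I →₀ ℤ) :
    pr (update N α r) c d = ch (c α • d) r * pr N (c.erase α) d := by
  rw [pr, pw_upd, map_mul, map_zpow, ch_apply (c α • d), pw_smul]; rfl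

theorem pr_col (N : I → I → Circle) (α : I) (y : I → Circle) (c d : I →₀ ℤ) :
    pr (fun β => update (N β) α (y β)) c d = ch (d α • c) y * pr N c (d.erase α) := by
  simp only [pr_eq, pw_upd]
  rw [ch_apply, pw_smul, ← ch_apply, ← ch_apply, ← ch_apply, ← map_zpow, ← map_mul]; rfl

theorem rowStep (h : #I ≤ 𝔠) (N : I → I → Circle) (α : I) {A : Set (I →₀ ℤ)} (hA : #A < 𝔠)
    {T : Set Circle} (hT : #T < 𝔠) (P : ℕ → ℕ → I →₀ ℤ) :
    ∃ r, (∀ c ∈ A, ∀ d ∈ A, c α ≠ 0 → d ≠ 0 → pr (update N α r) c d ∉ T) ∧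
      ((∀ k, Injective (P k)) → ∀ k, Osc fun m => ch (P k m) r) := by
  obtain ⟨r, h1, h2⟩ := genRow h (ι := {p : A × A × T // p.1.1 α ≠ 0 ∧ p.2.1.1 ≠ 0})
    ((mk_subtype_le _).trans_lt (by
      simpa using mul_lt_of_lt aleph0_le_continuum hA (mul_lt_of_lt aleph0_le_continuum hA hT)))
    (fun p => p.1.1.1 α • p.1.2.1.1) (fun p => p.1.2.2.1 / pr N (p.1.1.1.erase α) p.1.2.1.1)
    (fun p => smul_ne_zero p.2.1 p.2.2) P
  exact ⟨r, fun c hc d hd h3 h4 h5 => h1 ⟨(⟨c, hc⟩, ⟨d, hd⟩, ⟨_, h5⟩), h3, h4⟩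
    (eq_div_iff_mul_eq'.2 (pr_row N α r c d).symm), h2⟩

theorem colStep (h : #I ≤ 𝔠) (N : I → I → Circle) (α : I) {A : Set (I →₀ ℤ)} (hA : #A < 𝔠)
    (S : Set I) (g : I → Circle) :
    ∃ y : I → Circle, (∀ c ∈ A, ∀ d ∈ A, d α ≠ 0 → (∃ j, c j ≠ 0 ∧ j ∉ S) →
      pr (fun β => update (N β) α (y β)) c d ≠ 1) ∧ ∀ j ∈ S, y j = g j := by
  obtain ⟨y, h1, h2⟩ := genCol h (ι := {p : A × A // p.2.1 α ≠ 0 ∧ ∃ j, p.1.1 j ≠ 0 ∧ j ∉ S})
    ((mk_subtype_le _).trans_lt (by simpa using mul_lt_of_lt aleph0_le_continuum hA hA))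
    (fun p => p.1.2.1 α • p.1.1.1) (fun p => 1 / pr N p.1.1.1 (p.1.2.1.erase α)) S
    (fun p => p.2.2.imp fun j hj => ⟨mul_ne_zero p.2.1 hj.1, hj.2⟩) g
  exact ⟨y, fun c hc d hd h3 h4 h5 => h1 ⟨(⟨c, hc⟩, ⟨d, hd⟩), h3, h4⟩
    (eq_div_iff_mul_eq'.2 ((pr_col N α y c d).symm.trans h5)), h2⟩

end Pool.Agent.H2.RF

namespace Pool.Agent.H2.RF

open Filter Topology Set Cardinal Pool.Agent.H2.MG Function

variable {I : Type} [LinearOrder I]

/-- the matrix given by rows and columns -/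
def Mx (b : I → (I → Circle) × (I → Circle) × Circle) (β γ : I) : Circle :=
  if γ < β then (b β).1 γ else (b γ).2.1 β

theorem stage [WellFoundedLT I] (h : #I ≤ 𝔠) (h1 : ∀ a : I, #(Iic a) < 𝔠) (S : I → ℕ → I)
    (g : I → ℕ → Circle) (P : I → ℕ → ℕ → I →₀ ℤ) :
    ∃ b : I → (I → Circle) × (I → Circle) × Circle, ∀ α,
    (∀ c d : I →₀ ℤ, (∀ i, c i ≠ 0 → i ≤ α) → (∀ i, d i ≠ 0 → i ≤ α) → d ≠ 0 →
      (d α = 0 ∧ c α ≠ 0) ∨ (d α ≠ 0 ∧ ∃ j, c j ≠ 0 ∧ j ∉ range (S α)) → pr (Mx b) c d ≠ 1) ∧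
    (∀ (c : I →₀ ℤ) γ, (∀ i, c i ≠ 0 → i ≤ α) → γ ≤ α → γ = α ∨ c α ≠ 0 →
      pr (Mx b) c (Finsupp.single γ 1) ≠ (b γ).2.2) ∧
    ((∀ k, Injective (P α k)) → ∀ k, Osc fun m => ch (P α k m) (b α).1) ∧
    ((∃ g' : I → Circle, ∀ n, g α n = g' (S α n)) → ∀ n, (b α).2.1 (S α n) = g α n) := by
  have h0 : ∀ (γ α : I), γ ≤ α → ∀ i, Finsupp.single γ (1 : ℤ) i ≠ 0 → i ≤ α := fun γ α h i hi =>
    (Finsupp.single_apply_ne_zero.1 hi).1.trans_le h
  refine rec2 _ (fun α b b' hb H => ?_) fun α b => ?_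
  · have h2 : ∀ c d : I →₀ ℤ, (∀ i, c i ≠ 0 → i ≤ α) → (∀ i, d i ≠ 0 → i ≤ α) →
        pr (Mx b') c d = pr (Mx b) c d := fun c d hc hd => pr_congr fun β γ h2 h3 => by
      rw [Mx, Mx, hb β (hc β h2), hb γ (hd γ h3)]
    rw [← hb α le_rfl]
    exact ⟨fun c d hc hd => h2 c d hc hd ▸ H.1 c d hc hd,
      fun c γ hc hγ => h2 c _ hc (h0 γ α hγ) ▸ hb γ hγ ▸ H.2.1 c γ hc hγ, H.2.2⟩
  have hA := small_supp (Iic α) aleph0_lt_continuum (h1 α)
  obtain ⟨r, r1, r2⟩ := rowStep h (Mx b) α hA (T := insert 1 ((fun γ => (b γ).2.2) '' Iic α))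
    (mk_insert_le.trans_lt (add_lt_of_lt aleph0_le_continuum (mk_image_le.trans_lt (h1 α))
      (one_lt_aleph0.trans aleph0_lt_continuum))) (P α)
  obtain ⟨g', hg⟩ : ∃ g' : I → Circle, (∃ g' : I → Circle, ∀ n, g α n = g' (S α n)) →
      ∀ n, g α n = g' (S α n) := by
    by_cases h : ∃ g' : I → Circle, ∀ n, g α n = g' (S α n)
    exacts [h.imp fun _ h _ => h, ⟨1, fun h' => absurd h' h⟩]
  obtain ⟨y, y1, y2⟩ := colStep h (update (Mx b) α r) α hA (range (S α)) g'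
  obtain ⟨ξ, h2, -⟩ := genRow h hA (fun _ => Finsupp.single α 1) (fun c => pr (fun β =>
    update (update (Mx b) α r β) α (y β)) c (Finsupp.single α 1)) (fun _ => by simp) 0
  have h3 : ∀ c d : I →₀ ℤ, (∀ i, c i ≠ 0 → i ≤ α) → (∀ i, d i ≠ 0 → i ≤ α) →
      pr (Mx (update b α (r, y, ch (Finsupp.single α 1) ξ))) c d =
        pr (fun β => update (update (Mx b) α r β) α (y β)) c d := fun c d hc hd =>
    pr_congr fun β γ k2 h3 => by
      rcases (hd γ h3).eq_or_lt with rfl | h4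
      · simp [Mx, (hc β k2).not_gt]
      · rcases (hc β k2).eq_or_lt with rfl | h5
        · simp [Mx, h4, h4.ne]
        · simp [Mx, h4.ne, h5.ne]
  have h4 : ∀ c d : I →₀ ℤ, d α = 0 → pr (fun β => update (update (Mx b) α r β) α (y β)) c d =
      pr (update (Mx b) α r) c d := fun c d hd => pr_congr fun β γ _ h5 =>
    update_of_ne (by rintro rfl; exact h5 hd) _ _
  refine ⟨(r, y, ch (Finsupp.single α 1) ξ), fun c d hc hd h5 h6 => ?_, fun c γ hc hγ h5 => ?_,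
    by simpa using r2, fun h5 n => by simpa [hg h5 n] using y2 _ ⟨n, rfl⟩⟩
  · rw [h3 c d hc hd]
    rcases h6 with h6 | h6
    · rw [h4 c d h6.1]
      exact fun h7 => r1 c hc d hd h6.2 h5 (.inl h7)
    · exact y1 c hc d hd h6.1 h6.2
  · rw [h3 c _ hc (h0 γ α hγ)]
    rcases hγ.eq_or_lt with rfl | h6
    · rw [update_self]
      exact (h2 ⟨c, hc⟩).symm
    · rw [h4 c _ (Finsupp.single_eq_of_ne h6.ne'), update_of_ne h6.ne]
      exact fun h7 => r1 c hc _ (h0 γ α hγ) (h5.resolve_left h6.ne) (by simp)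
        (.inr ⟨γ, hγ, h7.symm⟩)

theorem top (c : I →₀ ℤ) (h : c ≠ 0) : ∃ α, c α ≠ 0 ∧ ∀ i, c i ≠ 0 → i ≤ α :=
  ⟨c.support.max' (Finsupp.support_nonempty_iff.2 h), Finsupp.mem_support_iff.1 (Finset.max'_mem _ _),
    fun _ hi => Finset.le_max' _ _ (Finsupp.mem_support_iff.2 hi)⟩

theorem enum (h : #I = 𝔠) (h1 : ∀ a : I, #(Iic a) < 𝔠) (T : Type) [Nonempty T] (hT : #T ≤ 𝔠) :
    ∃ τ : I → T, ∀ t, ∀ s : Set I, s.Countable → ∃ α, τ α = t ∧ ∀ i ∈ s, i < α := by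
  have : Nonempty I := mk_ne_zero_iff.1 (h.trans_ne continuum_ne_zero)
  obtain ⟨f⟩ := (Cardinal.le_def (T × I) I).1 (by
    simpa [h] using (mul_le_mul_left hT 𝔠).trans_eq continuum_mul_self)
  refine ⟨fun α => (invFun f α).1, fun t s hs => ?_⟩
  by_contra h2
  push Not at h2
  have := hs.to_subtype
  refine (mk_iUnion_le_sum_mk.trans_lt (PC.sum_small _ fun i : s => h1 i)).not_ge (h.ge.trans
    (mk_le_of_injective (f := fun j => ⟨f (t, j), ?_⟩) fun a b h =>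
      (Prod.ext_iff.1 (f.injective (congrArg Subtype.val h))).2))
  obtain ⟨i, h3, h4⟩ := h2 (f (t, j)) (congrArg Prod.fst (leftInverse_invFun f.injective _))
  exact mem_iUnion.2 ⟨⟨i, h3⟩, h4⟩

theorem matrix [WellFoundedLT I] (h : #I = 𝔠) (h1 : ∀ a : I, #(Iic a) < 𝔠) :
    ∃ N : I → I → Circle, (∀ d ≠ 0, {c | pr N c d = 1}.Countable) ∧
    (∀ γ, ∃ ξ, ∀ c, pw N c γ ≠ ξ) ∧
    (∀ P : ℕ → ℕ → I →₀ ℤ, (∀ k, Injective (P k)) → ∃ β, ∀ k, Osc fun m => ch (P k m) (N β)) ∧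
    ∀ s : Set I, s.Countable → ∀ g : I → Circle, ∃ γ, ∀ β ∈ s, N β γ = g β := by
  have : Infinite I := infinite_iff.2 (aleph0_le_continuum.trans_eq h.symm)
  have h2 : ∀ X : Type, #X ≤ 𝔠 → #(ℕ → X) ≤ 𝔠 := fun X hX => by
    simpa using (power_le_power_right (c := ℵ₀) hX).trans_eq continuum_power_aleph0
  have h3 : ∀ X Y : Type, #X ≤ 𝔠 → #Y ≤ 𝔠 → #(X × Y) ≤ 𝔠 := fun X Y hX hY => by
    simpa using (mul_le_mul' hX hY).trans_eq continuum_mul_self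
  obtain ⟨τ, hτ⟩ := enum h h1 ((ℕ → I) × (ℕ → Circle) × (ℕ → ℕ → I →₀ ℤ)) (h3 _ _ (h2 _ h.le)
    (h3 _ _ (h2 _ ((mk_le_of_injective Circle.coe_injective).trans_eq mk_complex))
      (h2 _ (h2 _ (by simp [h, aleph0_le_continuum])))))
  obtain ⟨b, hb⟩ := stage h.le h1 (fun α => (τ α).1) (fun α => (τ α).2.1) fun α => (τ α).2.2
  refine ⟨Mx b, fun d hd => ?_, fun γ => ⟨(b γ).2.2, fun c => ?_⟩, fun P hP => ?_, fun s hs g => ?_⟩
  · obtain ⟨γ, h4, h5⟩ := top d hd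
    refine (countable_iff_lt_aleph_one _).2 ((mk_le_mk_of_subset fun c hc i hi => ?_).trans_lt
      (small_supp (range (τ γ).1) aleph0_lt_aleph_one
        ((countable_iff_lt_aleph_one _).1 (countable_range _))))
    by_contra h6
    obtain ⟨β, h7, h8⟩ := top c (by rintro rfl; exact hi rfl)
    rcases lt_or_ge γ β with h9 | h9
    · exact (hb β).1 c d h8 (fun i hi => (h5 i hi).trans h9.le) hd
        (.inl ⟨by_contra fun h => (h5 β h).not_gt h9, h7⟩) hc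
    · exact (hb γ).1 c d (fun i hi => (h8 i hi).trans h9) h5 hd (.inr ⟨h4, i, hi, h6⟩) hc
  · rw [← zpow_one (pw (Mx b) c γ), ← pw_single]
    by_cases h4 : ∀ i, c i ≠ 0 → i ≤ γ
    · exact (hb γ).2.1 c γ h4 le_rfl (.inl rfl)
    · obtain ⟨β, h7, h8⟩ := top c (by rintro rfl; exact h4 fun i hi => absurd rfl hi)
      exact (hb β).2.1 c γ h8 (by_contra fun h => h4 fun i hi => (h8 i hi).trans (not_le.1 h).le)
        (.inr h7)
  · obtain ⟨β, h4, h5⟩ := hτ (fun _ => Classical.arbitrary _, 1, P) _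
      (countable_iUnion fun p : ℕ × ℕ => (P p.1 p.2).support.countable_toSet)
    have h6 := (hb β).2.2.1
    simp only [h4] at h6
    refine ⟨β, fun k => ?_⟩
    rw [funext fun m => show ch (P k m) (Mx b β) = ch (P k m) (b β).1 from pw_congr fun i hi =>
      if_pos (h5 i (mem_iUnion.2 ⟨(k, m), Finsupp.mem_support_iff.2 hi⟩))]
    exact h6 hP k
  · obtain ⟨S, hS⟩ := (hs.insert (Classical.arbitrary _)).exists_eq_range (insert_nonempty _ _)
    obtain ⟨γ, h4, h5⟩ := hτ (S, g ∘ S, 0) s hs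
    have h6 := (hb γ).2.2.2
    simp only [h4] at h6
    refine ⟨γ, fun β hβ => ?_⟩
    obtain ⟨n, rfl⟩ := hS.le (mem_insert_of_mem _ hβ)
    exact (if_neg (h5 _ hβ).not_gt).trans (h6 ⟨g, fun _ => rfl⟩ n)

end Pool.Agent.H2.RF
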