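import Mathlib
import Pool.Agent.H2.RF4

set_option autoImplicit false

/-! A reflexive precompact group with no nontrivial separable quotient. -/

namespace Pool.Agent.H2.RF

open Filter Topology Set Cardinal Pool.Agent.H2.MG Function

theorem sub_ind {I : Type} (H : Subgroup (I → Circle)) :
    IsInducing fun (g : H) (χ : PontryaginDual H) => χ g := by
  refine IsInducing.of_comp (continuous_pi fun χ => χ.continuous_toFun)
    (g := fun (F : PontryaginDual H → Circle) (i : I) => F ⟨(Pi.evalMonoidHom _ i).comp H.subtype,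
      (continuous_apply i).comp continuous_subtype_val⟩) (by fun_prop) IsInducing.subtypeVal

theorem main0 {I : Type} [LinearOrder I] [WellFoundedLT I] (h : #I = 𝔠)
    (h1 : ∀ a : I, #(Iic a) < 𝔠) : ∃ H : Subgroup (I → Circle),
      Dense (H : Set (I → Circle)) ∧ ¬ (H : Set (I → Circle)).Countable ∧
      (∀ f : H → ℝ, Continuous f →
        ∃ U : Set H, IsClopen U ∧ f ⁻¹' {0} ⊆ U ∧ Disjoint U (f ⁻¹' {1})) ∧
      (∀ K : Subgroup H, (K : Set H).Countable → IsClosed (K : Set H)) ∧
      (∀ K : Subgroup H, ¬ (K : Set H).Countable → Dense (K : Set H)) ∧ Refl H := by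
  obtain ⟨N, k1, k2, k4, k3⟩ := matrix h h1
  have h2 : ∀ K : Subgroup (I → Circle), K ≤ (ph N).range → ¬ (K : Set (I → Circle)).Countable →
      Dense (K : Set (I → Circle)) := fun K h2 h3 => dense_of K fun d hd => by
    by_contra h4
    push Not at h4
    refine h3 (((k1 d hd).image (pw N)).mono fun x hx => ?_)
    obtain ⟨c, rfl⟩ := h2 hx
    exact ⟨c.toAdd, h4 _ hx, rfl⟩
  have h3 : ¬ ((ph N).range : Set (I → Circle)).Countable := fun h3 => by
    have h4 : Injective N := fun a b h4 => by
      classical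
      by_contra h5
      obtain ⟨γ, h6⟩ := k3 {a, b} (to_countable _) (Pi.mulSingle a (Circle.exp Real.pi))
      have h7 := h6 a (by simp)
      rw [h4, h6 b (by simp), Pi.mulSingle_eq_same, Pi.mulSingle_eq_of_ne' h5] at h7
      exact Circle.exp_pi_ne_one h7.symm
    have := (h3.mono (s₁ := range N) (by
      rintro _ ⟨a, rfl⟩
      exact ⟨Multiplicative.ofAdd (Finsupp.single a 1), (pw_single _ _ _).trans (zpow_one _)⟩))
    rw [← le_aleph0_iff_set_countable, mk_range_eq _ h4, h] at this
    exact this.not_gt aleph0_lt_continuum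
  have h4 : HE (ph N).range := fun C hC χ => by
    choose c hc using fun x : (ph N).range => x.2
    obtain ⟨γ, h5⟩ := k3 _ (hC.biUnion fun x _ => (c x).toAdd.support.countable_toSet)
      fun β => χ ((ph N).rangeRestrict (Multiplicative.ofAdd (Finsupp.single β 1)))
    refine ⟨(Pi.evalMonoidHom (fun _ => Circle) γ).comp (ph N).range.subtype,
      (continuous_apply γ).comp continuous_subtype_val, fun x hx => ?_⟩
    have h6 := map_pw (χ.comp (ph N).rangeRestrict)
      (fun i => Multiplicative.ofAdd (Finsupp.single i (1 : ℤ))) (c x).toAdd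
    rw [pw_self, MonoidHom.comp_apply, ofAdd_toAdd,
      show (ph N).rangeRestrict _ = x from Subtype.ext (hc x)] at h6
    rw [h6]
    refine (congrFun (hc x).symm γ).trans ((map_pw (Pi.evalMonoidHom _ γ) N _).trans
      (pw_congr fun i hi => h5 i (mem_biUnion hx (Finsupp.mem_support_iff.2 hi))))
  refine ⟨(ph N).range, h2 _ le_rfl h3, h3, zd h.le _ (h2 _ le_rfl h3) fun j =>
    (k2 j).imp fun ξ hξ ⟨_, c, rfl⟩ => hξ _, h4.closed, fun K hK => ?_,
    refl h4.fin (dual_fin fun χ hχ => ?_) (sub_ind _)⟩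
  · refine IsInducing.subtypeVal.dense_iff.2 fun x => h2 (K.map (Subgroup.subtype _))
      (Subgroup.map_subtype_le _) (fun h5 => hK ?_) x
    exact countable_of_injective_of_countable_image Subtype.val_injective.injOn h5
  · choose d hd using fun k m => ch_all _ (χ k m).toMonoidHom (χ k m).continuous_toFun
    obtain ⟨β, h5⟩ := k4 d fun k a b h5 => hχ k (PontryaginDual.ext fun x =>
      (hd k a x).trans (h5 ▸ (hd k b x).symm))
    refine ⟨⟨N β, Multiplicative.ofAdd (Finsupp.single β 1), (pw_single _ _ _).trans (zpow_one _)⟩,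
      fun k => ?_⟩
    exact (congrArg Osc (funext fun m => hd k m _)).mpr (h5 k)

theorem main : ∃ H : Subgroup (ℝ → Circle),
      Dense (H : Set (ℝ → Circle)) ∧ ¬ (H : Set (ℝ → Circle)).Countable ∧
      (∀ f : H → ℝ, Continuous f →
        ∃ U : Set H, IsClopen U ∧ f ⁻¹' {0} ⊆ U ∧ Disjoint U (f ⁻¹' {1})) ∧
      (∀ K : Subgroup H, (K : Set H).Countable → IsClosed (K : Set H)) ∧
      (∀ K : Subgroup H, ¬ (K : Set H).Countable → Dense (K : Set H)) ∧ Refl H := by
  obtain ⟨r, wo, hr⟩ := exists_ord_eq_type_lt ℝ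
  refine @main0 ℝ r wo mk_real fun a => ?_
  rw [← @Iio_insert ℝ r.toPartialOrder]
  exact mk_insert_le.trans_lt (add_lt_of_lt aleph0_le_continuum
    ((@mk_Iio_lt ℝ r wo a hr).trans_eq mk_real) (one_lt_aleph0.trans aleph0_lt_continuum))

end Pool.Agent.H2.RF
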