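import Mathlib
import Pool.Agent.H2.RF5
import Pool.Agent.H2.RF0

set_option autoImplicit false

/-! Precompact Baire groups are quotients of reflexive precompact Baire groups. -/

namespace Pool.Agent.H2.RF

open Filter Topology Set Pool.Agent.H2.MG Function

theorem pc_ind {G : Type} [CommGroup G] [TopologicalSpace G] [IsTopologicalGroup G] [T2Space G]
    (hp : PC G) : IsInducing fun (g : G) (χ : PontryaginDual G) => χ g := by
  letI : UniformSpace (Additive G) := IsTopologicalAddGroup.rightUniformSpace (Additive G)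
  have : IsUniformAddGroup (Additive G) := isUniformAddGroup_of_addCommGroup
  have h1 : TotallyBounded (univ : Set (Additive G)) :=
    totallyBounded_iff_subset_finite_iUnion_nhds_zero.2 fun U hU => by
      obtain ⟨F, hF⟩ := hp U hU
      refine ⟨(F : Set G), F.finite_toSet, fun x _ => ?_⟩
      obtain ⟨g, h1, h2⟩ := hF x
      exact mem_iUnion₂.2 ⟨g, h1, _, h2, mul_inv_cancel_left g x.toMul⟩
  let K := Multiplicative (UniformSpace.Completion (Additive G))
  have : CompactSpace K := ⟨isCompact_iff_totallyBounded_isComplete.2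
    ⟨(h1.image (UniformSpace.Completion.uniformContinuous_coe _)).closure.subset fun x _ => by
      rw [image_univ]; exact UniformSpace.Completion.denseRange_coe x,
      (complete_univ : IsComplete (univ : Set (UniformSpace.Completion (Additive G))))⟩⟩
  have : T2Space K := inferInstanceAs (T2Space (UniformSpace.Completion (Additive G)))
  let i : G →* K := AddMonoidHom.toMultiplicativeRight UniformSpace.Completion.toCompl
  have hi : IsInducing i := (UniformSpace.Completion.isUniformInducing_coe (Additive G)).isInducing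
  have hK : IsInducing fun (k : K) (χ : CX K) => χ.1 k :=
    (Continuous.isClosedEmbedding (continuous_pi fun χ => χ.2) fun a b h => by
      by_contra h2
      obtain ⟨χ, h3, h4⟩ := cpt_pc.sep _ (div_ne_one.2 h2)
      exact h4 ((map_div χ a b).trans (div_eq_one.2 (congrFun h ⟨χ, h3⟩)))).isInducing
  exact IsInducing.of_comp (continuous_pi fun χ => χ.continuous_toFun)
    (g := fun (F : PontryaginDual G → Circle) (χ : CX K) => F ⟨χ.1.comp i,
      (show Continuous χ.1 from χ.2).comp hi.continuous⟩) (by fun_prop) (hK.comp hi)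

theorem mx {X Y : Type} [TopologicalSpace X] (P : Set (Set X × Y)) (hP : ∀ p ∈ P, p.1.Nonempty)
    (h : ∀ Q, IsOpen Q → Q.Nonempty → ∃ p ∈ P, p.1 ⊆ Q) :
    ∃ A ⊆ P, A.PairwiseDisjoint Prod.fst ∧ Dense (⋃ p ∈ A, p.1) := by
  obtain ⟨A, hA⟩ := zorn_subset {A | A ⊆ P ∧ A.PairwiseDisjoint Prod.fst} fun c h1 h2 =>
    ⟨⋃₀ c, ⟨sUnion_subset fun _ h => (h1 h).1, (pairwiseDisjoint_sUnion h2.directedOn).2
      fun _ h => (h1 h).2⟩, fun _ => subset_sUnion_of_mem⟩
  refine ⟨A, hA.prop.1, hA.prop.2, fun x => by_contra fun hx => ?_⟩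
  obtain ⟨p, h1, h2⟩ := h _ isClosed_closure.isOpen_compl ⟨x, hx⟩
  obtain ⟨y, hy⟩ := hP p h1
  exact h2 hy (subset_closure (mem_biUnion (hA.le_of_ge ⟨insert_subset h1 hA.prop.1,
    hA.prop.2.insert fun q hq _ => disjoint_left.2 fun z h3 h4 =>
      h2 h3 (subset_closure (mem_biUnion hq h4))⟩ (subset_insert _ _) (mem_insert _ _)) hy))

theorem baire_prod {X K : Type} [TopologicalSpace X] [TopologicalSpace K] [BaireSpace X]
    [CompactSpace K] [RegularSpace K] : BaireSpace (X × K) := by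
  refine ⟨fun O h1 h2 => dense_iff_inter_open.2 fun W hW ⟨⟨a, b⟩, h0⟩ => ?_⟩
  obtain ⟨U, V, hU, hV, ha, hb, h3⟩ := isOpen_prod_iff.1 hW a b h0
  let Gd : Set (Set X × Set K) → Prop := fun A => (∀ p ∈ A, IsOpen p.1 ∧ IsOpen p.2 ∧ p.2.Nonempty) ∧
    A.PairwiseDisjoint Prod.fst ∧ Dense (⋃ p ∈ A, p.1)
  have h4 : ∀ n (A : {A // Gd A}), ∃ B : {A // Gd A}, ∀ q ∈ B.1, ∃ p ∈ A.1, q.1 ⊆ p.1 ∧
      closure q.2 ⊆ p.2 ∧ q.1 ×ˢ q.2 ⊆ O n := fun n A => by
    obtain ⟨B, h4, h5⟩ := mx {q : Set X × Set K | q.1.Nonempty ∧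
      (IsOpen q.1 ∧ IsOpen q.2 ∧ q.2.Nonempty) ∧ ∃ p ∈ A.1, q.1 ⊆ p.1 ∧
      closure q.2 ⊆ p.2 ∧ q.1 ×ˢ q.2 ⊆ O n} (fun p h => h.1) fun Q h4 h5 => by
      obtain ⟨x, h6, h7⟩ := A.2.2.2.inter_open_nonempty Q h4 h5
      obtain ⟨p, h8, h9⟩ := mem_iUnion₂.1 h7
      obtain ⟨h10, h11, h12⟩ := A.2.1 p h8
      have h13 := (h4.inter h10).prod h11
      obtain ⟨⟨c, d⟩, h14⟩ := (h2 n).inter_open_nonempty _ h13 (Nonempty.prod ⟨x, h6, h9⟩ h12)
      obtain ⟨U', V', k1, k2, k3, k4, k5⟩ := isOpen_prod_iff.1 (h13.inter (h1 n)) c d h14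
      obtain ⟨C, k6, k7, k8⟩ := exists_mem_nhds_isClosed_subset (k2.mem_nhds k4)
      exact ⟨(U', interior C), ⟨⟨c, k3⟩, ⟨k1, isOpen_interior, d, mem_interior_iff_mem_nhds.2 k6⟩,
        p, h8, fun z hz => (k5 (mk_mem_prod hz k4)).1.1.2, (closure_minimal interior_subset
          k7).trans fun z hz => (k5 (mk_mem_prod k3 (k8 hz))).1.2, fun z hz =>
          (k5 (mk_mem_prod hz.1 (k8 (interior_subset hz.2)))).2⟩,
        fun z hz => (k5 (mk_mem_prod hz k4)).1.1.1⟩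
    exact ⟨⟨B, fun p hp => (h4 hp).2.1, h5⟩, fun q hq => (h4 hq).2.2⟩
  choose F hF using h4
  let A : ℕ → {A // Gd A} := fun n => n.rec ⟨{(univ, V)}, by simpa using ⟨hV, b, hb⟩,
    pairwiseDisjoint_singleton _ _, by simp⟩ F
  obtain ⟨x, h4, h5⟩ := (dense_iInter_of_isOpen (fun n => isOpen_biUnion fun p hp =>
    ((A n).2.1 p hp).1) fun n => (A n).2.2.2).inter_open_nonempty U hU ⟨a, ha⟩
  choose p h6 h7 using fun n => mem_iUnion₂.1 (mem_iInter.1 h5 n)
  have h8 : ∀ n, closure (p (n + 1)).2 ⊆ (p n).2 ∧ (p (n + 1)).1 ×ˢ (p (n + 1)).2 ⊆ O n := fun n => by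
    obtain ⟨q, k1, k2, k3⟩ := hF n (A n) _ (h6 (n + 1))
    rwa [(A n).2.2.1.elim_set k1 (h6 n) x (k2 (h7 _)) (h7 n)] at k3
  obtain ⟨k, hk⟩ := IsCompact.nonempty_iInter_of_sequence_nonempty_isCompact_isClosed
    (fun n => closure (p (n + 1)).2) (fun n => (h8 _).1.trans subset_closure)
    (fun n => ((A _).2.1 _ (h6 _)).2.2.closure) isClosed_closure.isCompact fun _ => isClosed_closure
  refine ⟨(x, k), h3 ⟨h4, ?_⟩, mem_iInter.2 fun n =>
    (h8 n).2 ⟨h7 _, (h8 _).1 (mem_iInter.1 hk (n + 1))⟩⟩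
  have h9 := (h8 0).1 (mem_iInter.1 hk 0)
  rwa [show p 0 = (univ, V) from h6 0] at h9

/-- well founded trees -/
inductive JJ (A : Type) : Type
  | leaf : JJ A
  | node (S : ℕ → JJ A) (a : A) : JJ A

/-- children -/
def kids {A : Type} : JJ A → Set (JJ A)
  | .leaf => ∅
  | .node S _ => range S

theorem kids_wf {A : Type} : WellFounded fun β γ : JJ A => β ∈ kids γ :=
  ⟨fun γ => by
    induction γ with
    | leaf => exact ⟨_, fun _ h => h.elim⟩
    | node S a ih => exact ⟨_, by rintro _ ⟨n, rfl⟩; exact ih n⟩⟩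

theorem mat2 (B : Type) [One B] : ∃ (J : Type) (N : J → J → Circle) (ψ : J → B),
    (∀ s : Set J, s.Countable → ∀ x : J → Circle, ∃ β, ∀ γ ∈ s, N β γ = x γ) ∧
    ∀ s : Set J, s.Countable → ∀ (y : J → Circle) (b : B), ∃ γ, ψ γ = b ∧ ∀ β ∈ s, N β γ = y β := by
  classical
  let v : JJ ((ℕ → Circle) × B) → JJ ((ℕ → Circle) × B) → Circle := fun β =>
    β.casesOn 1 fun S a => extend S a.1 1
  have hv : ∀ S (x : _ → Circle) b n, v (.node S (x ∘ S, b)) (S n) = x (S n) := fun S x b n =>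
    FactorsThrough.extend_apply (fun _ _ h => congrArg x h) _ _
  refine ⟨_, fun β γ => if γ ∈ kids β then v β γ else v γ β,
    fun β => β.casesOn 1 fun _ a => a.2, fun s hs x => ?_, fun s hs x b => ?_⟩ <;>
    obtain ⟨S, hS⟩ := (hs.insert .leaf).exists_eq_range (insert_nonempty _ _)
  · refine ⟨.node S (x ∘ S, 1), fun γ h => ?_⟩
    obtain ⟨n, rfl⟩ := hS.le (mem_insert_of_mem _ h)
    exact (if_pos ⟨n, rfl⟩).trans (hv ..)
  · refine ⟨.node S (x ∘ S, b), rfl, fun γ h => ?_⟩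
    obtain ⟨n, rfl⟩ := hS.le (mem_insert_of_mem _ h)
    exact (if_neg (kids_wf.asymmetric (S n) (.node S _) (mem_range_self n))).trans (hv ..)

theorem PC.prd {G K : Type} [CommGroup G] [TopologicalSpace G] [CommGroup K] [TopologicalSpace K]
    (h1 : PC G) (h2 : PC K) : PC (G × K) := fun U hU => by
  obtain ⟨A, hA, B, hB, h⟩ := mem_nhds_prod_iff.1 hU
  obtain ⟨E, hE⟩ := h1 A hA
  obtain ⟨F, hF⟩ := h2 B hB
  refine ⟨E ×ˢ F, fun x => ?_⟩
  obtain ⟨a, h3, h4⟩ := hE x.1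
  obtain ⟨b, h5, h6⟩ := hF x.2
  exact ⟨(a, b), Finset.mem_product.2 ⟨h3, h5⟩, h ⟨h4, h6⟩⟩

theorem quot_baire (H : Type) [CommGroup H] [TopologicalSpace H] [IsTopologicalGroup H] [T2Space H]
    [BaireSpace H] (hp : PC H) : ∃ (G : Type) (_ : CommGroup G) (_ : TopologicalSpace G),
    IsTopologicalGroup G ∧ T2Space G ∧ PC G ∧ BaireSpace G ∧ Refl G ∧
    ∃ f : G →* H, Continuous f ∧ IsOpenMap f ∧ Surjective f := by
  obtain ⟨J, N, ψ, k1, k2⟩ := mat2 (H →* Circle)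
  let Φ : H × Multiplicative (J →₀ ℤ) →* H × (J → Circle) :=
    (MonoidHom.fst _ _).prod ((Pi.monoidHom ψ).coprod (ph N))
  have h1 : ∀ (z : H × (J → Circle)) (s : Set J), s.Countable →
      ∃ g : Φ.range, g.1.1 = z.1 ∧ ∀ γ ∈ s, g.1.2 γ = z.2 γ := fun z s hs => by
    obtain ⟨β, h⟩ := k1 s hs fun γ => z.2 γ / ψ γ z.1
    refine ⟨⟨_, (z.1, Multiplicative.ofAdd (Finsupp.single β 1)), rfl⟩, rfl, fun γ hγ => ?_⟩
    simp [Φ, ph, h γ hγ, Pi.monoidHom]
  have h2 : ∀ (O : ℕ → Set (H × (J → Circle))) z, (∀ n, IsOpen (O n)) → (∀ n, z ∈ O n) →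
      ∃ g : Φ.range, g.1.1 = z.1 ∧ ∀ n, g.1 ∈ O n := fun O z h2 h3 => by
    choose F u h4 h5 using fun n => isOpen_pi_iff.1 ((h2 n).preimage (Continuous.prodMk_right z.1))
      z.2 (h3 n)
    obtain ⟨g, h6, h7⟩ := h1 z _ (countable_iUnion fun n => (F n).countable_toSet)
    refine ⟨g, h6, fun n => ?_⟩
    rw [← Prod.mk.eta (p := g.1), h6]
    exact h5 n fun a ha => h7 a (mem_iUnion.2 ⟨n, ha⟩) ▸ (h4 n a ha).2
  have h3 : Dense (Φ.range : Set (H × (J → Circle))) := dense_iff_inter_open.2 fun U hU ⟨z, hz⟩ => by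
    obtain ⟨g, -, h3⟩ := h2 (fun _ => U) z (fun _ => hU) fun _ => hz
    exact ⟨g, h3 0, g.2⟩
  have h4 : BaireSpace Φ.range := ⟨fun O h4 h5 => dense_iff_inter_open.2 fun W hW hn => by
    have : BaireSpace (H × (J → Circle)) := baire_prod
    choose O' h6 h7 using fun n => isOpen_induced_iff.1 (h4 n)
    obtain ⟨W', h8, rfl⟩ := isOpen_induced_iff.1 hW
    obtain ⟨z, h9, h10⟩ := (dense_iInter_of_isOpen h6 fun n => ((Dense.denseRange_val h3).dense_image
      continuous_subtype_val (h5 n)).mono (image_subset_iff.2 (h7 n).ge)).inter_open_nonempty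
      W' h8 (hn.elim fun x hx => ⟨_, hx⟩)
    obtain ⟨g, -, h11⟩ := h2 (fun n => W' ∩ O' n) z (fun n => h8.inter (h6 n))
      fun n => ⟨h9, mem_iInter.1 h10 n⟩
    exact ⟨g, (h11 0).1, mem_iInter.2 fun n => (h7 n).le (h11 n).2⟩⟩
  have h5 : PC Φ.range := (PC.prd hp cpt_pc).subgroup _
  have h6 : HE Φ.range := fun C hC χ => by
    choose c hc using fun x : Φ.range => x.2
    let χ' := χ.comp Φ.rangeRestrict
    obtain ⟨γ, h5, h6⟩ := k2 _ (hC.biUnion fun x _ => (c x).2.toAdd.support.countable_toSet)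
      (fun β => χ' (1, Multiplicative.ofAdd (Finsupp.single β 1))) (χ'.comp (MonoidHom.inl _ _))
    refine ⟨(Pi.evalMonoidHom (fun _ => Circle) γ).comp ((MonoidHom.snd _ _).comp Φ.range.subtype),
      (continuous_apply γ).comp (continuous_snd.comp continuous_subtype_val), fun x hx => ?_⟩
    have h7 := map_pw (χ'.comp (MonoidHom.inr _ _))
      (fun i => Multiplicative.ofAdd (Finsupp.single i (1 : ℤ))) (c x).2.toAdd
    rw [pw_self, ofAdd_toAdd] at h7
    have h8 : χ x = χ' (MonoidHom.inl _ _ (c x).1 * MonoidHom.inr _ _ (c x).2) :=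
      congrArg χ (Subtype.ext ((hc x).symm.trans (congrArg Φ (by simp))))
    rw [h8, map_mul, ← MonoidHom.comp_apply χ', ← MonoidHom.comp_apply χ', h7, ← h5]
    refine (congrArg (fun z => z.2 γ) (hc x).symm).trans (congrArg (_ * ·)
      ((map_pw (Pi.evalMonoidHom _ γ) N _).trans
        (pw_congr fun i hi => h6 i (mem_biUnion hx (Finsupp.mem_support_iff.2 hi)))))
  refine ⟨Φ.range, inferInstance, inferInstance, inferInstance, inferInstance, h5, h4,
    refl h6.fin (dual_fin fun χ hχ => osc_baire h5 (fun k m => (χ k m).toMonoidHom)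
      (fun k a b h => hχ k (PontryaginDual.ext fun x => DFunLike.congr_fun (F := _ →* Circle) h x))
      fun k m => (χ k m).continuous_toFun) (pc_ind h5),
    (MonoidHom.fst _ _).comp Φ.range.subtype, continuous_fst.comp continuous_subtype_val,
    fun U hU => ?_, fun x => ⟨⟨_, (x, 1), rfl⟩, rfl⟩⟩
  obtain ⟨O, h7, rfl⟩ := isOpen_induced_iff.1 hU
  convert isOpenMap_fst O h7 using 1
  refine subset_antisymm ?_ ?_
  · rintro _ ⟨g, hg, rfl⟩
    exact ⟨g, hg, rfl⟩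
  · rintro _ ⟨z, hz, rfl⟩
    obtain ⟨g, h8, h9⟩ := h2 (fun _ => O) z (fun _ => h7) fun _ => hz
    exact ⟨g, h9 0, h8⟩

end Pool.Agent.H2.RF
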