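import Mathlib

set_option autoImplicit false

/-! Definitions: groups whose topology is generated by null sequences, the sequence rank, and the
bounding number. -/

namespace Pool.Agent.H2.RS

open Filter Topology

/-- The topology of `G` is the finest Hausdorff group topology in which all sequences of `S`
converge to the identity. -/
def Gen (G : Type) [Group G] [τ : TopologicalSpace G] (S : Set (ℕ → G)) : Prop :=
  (∀ u ∈ S, Tendsto u atTop (𝓝 (1 : G))) ∧
    ∀ σ : TopologicalSpace G, @IsTopologicalGroup G σ _ → @T2Space G σ →
      (∀ u ∈ S, Tendsto u atTop (@nhds G σ 1)) → τ ≤ σ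

/-- The least cardinality of a set of sequences generating the topology of `G`. -/
noncomputable def rs (G : Type) [Group G] [TopologicalSpace G] : Cardinal :=
  sInf {c | ∃ S : Set (ℕ → G), Gen G S ∧ Cardinal.mk S = c}

/-- The bounding number. -/
noncomputable def bnum : Cardinal :=
  sInf {c | ∃ B : Set (ℕ → ℕ), (¬ ∃ g : ℕ → ℕ, ∀ f ∈ B, ∀ᶠ n in atTop, f n ≤ g n) ∧
    Cardinal.mk B = c}

end Pool.Agent.H2.RS
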