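import Mathlib
import Pool.Agent.H2.RS0

set_option autoImplicit false

/-! Powers of the alternating group on five letters have few generating sequences. -/

namespace Pool.Agent.H2.RS

open Filter Topology Set

theorem le_of_nhds_one {G : Type} [Group G] (τ σ : TopologicalSpace G)
    (hτ : @IsTopologicalGroup G τ _) (hσ : @IsTopologicalGroup G σ _)
    (h : @nhds G τ 1 ≤ @nhds G σ 1) : τ ≤ σ := by
  have : @Continuous G G τ σ (MonoidHom.id G) :=
    @continuous_of_continuousAt_one G τ _ hτ G (G →* G) _ σ hσ.toContinuousMul _ _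
      (MonoidHom.id G) (by simpa [ContinuousAt, Tendsto] using h)
  exact continuous_id_iff_le.1 this

/-- the tail of a sequence -/
def tail {H : Type} [Group H] (n : ℕ) : (ℕ → H) →* (ℕ → H) where
  toFun y := fun i => if n ≤ i then y i else 1
  map_one' := by ext i; simp
  map_mul' x y := by ext i; by_cases h : n ≤ i <;> simp [h]

theorem tail_apply {H : Type} [Group H] (n : ℕ) (y : ℕ → H) (i : ℕ) :
    tail n y i = if n ≤ i then y i else 1 := rfl

theorem tail_null {H : Type} [Group H] [TopologicalSpace H] (y : ℕ → H) :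
    Tendsto (fun n => tail n y) atTop (𝓝 1) := by
  rw [tendsto_pi_nhds]
  intro i
  refine tendsto_const_nhds.congr' ?_
  filter_upwards [eventually_gt_atTop i] with n hn
  simp [tail_apply, not_le.2 hn]

theorem sub_of_tail {H : Type} [Group H] [TopologicalSpace (ℕ → H)] [IsTopologicalGroup (ℕ → H)]
    (h : ∀ y : ℕ → H, Tendsto (fun n => tail n y) atTop (𝓝 1)) {W : Set (ℕ → H)}
    (hW : W ∈ 𝓝 (1 : ℕ → H)) : ∃ n, ∀ y : ℕ → H, (∀ i < n, y i = 1) → y ∈ W := by
  obtain ⟨C, hC, hCc, hCW⟩ := exists_mem_nhds_isClosed_subset hW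
  by_contra hn
  push Not at hn
  have h1 : ∀ n, ∃ m, n < m ∧ ∃ b : ℕ → H, (∀ i, i < n ∨ m ≤ i → b i = 1) ∧ b ∉ C := by
    intro n
    obtain ⟨y, hy, hyW⟩ := hn n
    have h2 : Tendsto (fun m => y * (tail m y)⁻¹) atTop (𝓝 y) := by
      simpa using (h y).inv.const_mul y
    have h3 := h2.eventually (hCc.isOpen_compl.mem_nhds fun hh => hyW (hCW hh))
    obtain ⟨m, hm, hnm⟩ := (h3.and (eventually_gt_atTop n)).exists
    refine ⟨m, hnm, _, ?_, hm⟩
    rintro i (hi | hi)
    · simp [tail_apply, hy i hi]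
    · simp [tail_apply, hi]
  choose m hm b hb hbC using h1
  let N : ℕ → ℕ := fun k => Nat.rec 0 (fun _ n => m n) k
  have hN : ∀ k, N (k + 1) = m (N k) := fun k => rfl
  have hNs : StrictMono N := strictMono_nat_of_lt_succ fun k => by rw [hN]; exact hm _
  have h4 : ∀ i, ∃ k, i < N (k + 1) := fun i =>
    ⟨i, lt_of_lt_of_le (Nat.lt_succ_self i) (hNs.id_le _)⟩
  let z : ℕ → H := fun i => b (N (Nat.find (h4 i))) i
  have h5 : ∀ k, b (N k) = tail (N k) z * (tail (N (k + 1)) z)⁻¹ := by
    intro k
    ext i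
    have hk : N k < N (k + 1) := hNs (Nat.lt_succ_self k)
    by_cases h6 : N (k + 1) ≤ i
    · simp [tail_apply, h6, hk.le.trans h6, hb (N k) i (Or.inr h6)]
    · rcases em (N k ≤ i) with h7 | h7
      · have : Nat.find (h4 i) = k := by
          rw [Nat.find_eq_iff]
          refine ⟨not_le.1 h6, fun j hj => not_lt.2 ?_⟩
          exact (hNs.monotone (Nat.succ_le_of_lt hj)).trans h7
        simp [tail_apply, h6, h7, z, this]
      · simp [tail_apply, h6, h7, hb (N k) i (Or.inl (not_le.1 h7))]
  have h8 : Tendsto (fun k => tail (N k) z) atTop (𝓝 1) := (h z).comp hNs.tendsto_atTop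
  have h9 : Tendsto (fun k => tail (N k) z * (tail (N (k + 1)) z)⁻¹) atTop (𝓝 1) := by
    simpa using h8.mul ((tendsto_add_atTop_iff_nat 1).2 h8).inv
  obtain ⟨k, hk⟩ := (h9.eventually hC).exists
  rw [← h5] at hk
  exact hbC _ hk

theorem pi_ev {H : Type} [Group H] [TopologicalSpace H] [DiscreteTopology H] (n : ℕ) :
    ∀ᶠ y : ℕ → H in 𝓝 1, ∀ i ∈ Finset.range n, y i = 1 := by
  rw [eventually_all_finset]
  intro i _
  have h1 : Tendsto (fun y : ℕ → H => y i) (𝓝 1) (𝓝 1) := (continuous_apply i).tendsto 1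
  rwa [nhds_discrete H, tendsto_pure] at h1

theorem le_of_tail {H : Type} [Group H] [TopologicalSpace H] [DiscreteTopology H]
    (σ : TopologicalSpace (ℕ → H)) (hσ : @IsTopologicalGroup (ℕ → H) σ _)
    (h : ∀ y : ℕ → H, Tendsto (fun n => tail n y) atTop (@nhds _ σ 1)) :
    Pi.topologicalSpace ≤ σ := by
  refine le_of_nhds_one _ _ Pi.topologicalGroup hσ fun W hW => ?_
  obtain ⟨n, hn⟩ := @sub_of_tail H _ σ hσ h W hW
  exact mem_of_superset (pi_ev n) fun y hy => hn y fun i hi => hy i (Finset.mem_range.2 hi)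

/-- elements whose tails are null -/
def PT (H : Type) [Group H] [TopologicalSpace (ℕ → H)] [IsTopologicalGroup (ℕ → H)] :
    Subgroup (ℕ → H) where
  carrier := {y | Tendsto (fun n => tail n y) atTop (𝓝 1)}
  one_mem' := by simpa using tendsto_const_nhds
  mul_mem' := by
    intro x y hx hy
    simpa using Tendsto.mul hx hy
  inv_mem' := by
    intro x hx
    simpa using Tendsto.inv hx

theorem PT_normal (H : Type) [Group H] [TopologicalSpace (ℕ → H)] [IsTopologicalGroup (ℕ → H)] :
    (PT H).Normal := by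
  refine ⟨fun y hy g => ?_⟩
  have h1 : ∀ n, tail n (g * y * g⁻¹) = g * tail n y * g⁻¹ := by
    intro n; ext i; by_cases h : n ≤ i <;> simp [tail_apply, h]
  show Tendsto (fun n => tail n (g * y * g⁻¹)) atTop (𝓝 1)
  simp only [h1]
  simpa using (Tendsto.const_mul g hy).mul_const g⁻¹

abbrev A5 : Type := alternatingGroup (Fin 5)

theorem exists_pair : ∃ a c : A5, c * a * c⁻¹ * a⁻¹ ≠ 1 := by
  refine ⟨⟨Equiv.swap 0 1 * Equiv.swap 1 2, Equiv.Perm.mem_alternatingGroup.2 (by decide)⟩,
    ⟨Equiv.swap 2 3 * Equiv.swap 3 4, Equiv.Perm.mem_alternatingGroup.2 (by decide)⟩, ?_⟩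
  decide

noncomputable def a5 : A5 := exists_pair.choose

theorem a5_spec : ∃ c : A5, c * a5 * c⁻¹ * a5⁻¹ ≠ 1 := exists_pair.choose_spec

theorem a5_ne : a5 ≠ 1 := by
  obtain ⟨c, hc⟩ := a5_spec
  intro h; simp [h] at hc

theorem normal_top {J : Type} (Q : Subgroup (J → A5)) (hQ : Q.Normal)
    (ha : (fun _ => a5) ∈ Q) : Q = ⊤ := by
  classical
  have h1 : ∀ (D : J → Prop) [DecidablePred D] (h : A5), (fun j => if D j then h else 1) ∈ Q := by
    intro D _ h
    let φ : A5 →* (J → A5) :=
      { toFun := fun h j => if D j then h else 1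
        map_one' := by ext1 j; simp
        map_mul' := fun x y => by ext1 j; by_cases hj : D j <;> simp [hj] }
    obtain ⟨c, hc⟩ := a5_spec
    rcases (hQ.comap φ).eq_bot_or_eq_top with h2 | h2
    · exfalso
      have h3 : c * a5 * c⁻¹ * a5⁻¹ ∈ Q.comap φ := by
        have h4 : φ (c * a5 * c⁻¹ * a5⁻¹) =
            φ c * (fun _ => a5) * (φ c)⁻¹ * (fun _ => a5)⁻¹ := by
          ext1 j; by_cases hj : D j <;> simp [φ, hj]
        rw [Subgroup.mem_comap, h4]
        exact Q.mul_mem (hQ.conj_mem _ ha _) (Q.inv_mem ha)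
      rw [h2] at h3
      exact hc h3
    · have : h ∈ Q.comap φ := by rw [h2]; trivial
      exact this
  rw [eq_top_iff]
  intro y _
  have h2 : ∀ T : Finset A5, (fun j => if y j ∈ T then y j else 1) ∈ Q := by
    intro T
    induction T using Finset.induction_on with
    | empty => exact Q.one_mem
    | insert h T hT ih =>
      have : (fun j => if y j ∈ insert h T then y j else 1) =
          (fun j => if y j ∈ T then y j else 1) * fun j => if y j = h then h else 1 := by
        ext1 j
        by_cases h1 : y j = h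
        · simp [h1, hT]
        · by_cases h2 : y j ∈ T <;> simp [h1, h2]
      rw [this]
      exact Q.mul_mem ih (h1 (fun j => y j = h) _)
  simpa using h2 Finset.univ

theorem gen_empty_discrete {G : Type} [Group G] [τ : TopologicalSpace G] (h : Gen G ∅) :
    DiscreteTopology G := by
  have : τ ≤ ⊥ := by
    refine h.2 ⊥ ?_ ?_ (by simp)
    · letI : TopologicalSpace G := ⊥
      haveI : DiscreteTopology G := ⟨rfl⟩
      infer_instance
    · letI : TopologicalSpace G := ⊥
      haveI : DiscreteTopology G := ⟨rfl⟩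
      infer_instance
  exact ⟨le_bot_iff.1 this⟩

theorem rs_discrete {G : Type} [Group G] [τ : TopologicalSpace G] [hd : DiscreteTopology G] :
    rs G = 0 := by
  have : Gen G ∅ := ⟨by simp, fun σ _ _ _ => le_trans hd.eq_bot.le bot_le⟩
  exact le_antisymm (csInf_le' ⟨∅, this, by simp⟩) zero_le

theorem rs_eq {G : Type} [Group G] [TopologicalSpace G] {c : Cardinal} (S : Set (ℕ → G))
    (hS : Gen G S) (hc : Cardinal.mk S ≤ c) (hl : ∀ T, Gen G T → c ≤ Cardinal.mk T) : rs G = c := by
  apply le_antisymm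
  · exact le_trans (csInf_le' ⟨S, hS, rfl⟩) hc
  · exact le_csInf ⟨_, S, hS, rfl⟩ (by rintro _ ⟨T, hT, rfl⟩; exact hl T hT)

theorem pi_not_discrete {H : Type} [Group H] [TopologicalSpace H] (a : H) (ha : a ≠ 1) :
    ¬ DiscreteTopology (ℕ → H) := by
  intro h
  have := tail_null (fun _ : ℕ => a)
  rw [nhds_discrete, tendsto_pure] at this
  obtain ⟨n, hn⟩ := this.exists
  have := congrFun hn n
  simp [tail_apply, ha] at this

theorem ex_one : ∃ (G : Type) (_ : Group G) (_ : TopologicalSpace G), IsTopologicalGroup G ∧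
    T2Space G ∧ CompactSpace G ∧ TopologicalSpace.MetrizableSpace G ∧
    TopologicalSpace.SeparableSpace G ∧ ¬ DiscreteTopology G ∧ rs G = 1 := by
  letI : TopologicalSpace A5 := ⊥
  haveI : DiscreteTopology A5 := ⟨rfl⟩
  refine ⟨ℕ → A5, inferInstance, inferInstance, inferInstance, inferInstance, inferInstance,
    inferInstance, inferInstance, pi_not_discrete a5 a5_ne, ?_⟩
  refine rs_eq {fun n => tail n (fun _ => a5)} ⟨?_, ?_⟩ (by simp) ?_
  · rintro _ rfl; exact tail_null _
  · intro σ hσ _ h
    refine le_of_tail σ hσ fun y => ?_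
    have := normal_top (@PT A5 _ σ hσ) (@PT_normal A5 _ σ hσ) (h _ rfl)
    have h2 : y ∈ @PT A5 _ σ hσ := by rw [this]; trivial
    exact h2
  · intro T hT
    rw [Cardinal.one_le_iff_ne_zero, Cardinal.mk_ne_zero_iff, nonempty_coe_sort]
    by_contra h
    rw [not_nonempty_iff_eq_empty] at h
    subst h
    exact pi_not_discrete a5 a5_ne (gen_empty_discrete hT)

/-- countably supported functions -/
def Hs (I : Type) : Subgroup (I → A5) where
  carrier := {h | {i | h i ≠ 1}.Countable}
  one_mem' := by simp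
  mul_mem' := by
    intro x y hx hy
    refine (Set.Countable.union hx hy).mono fun i hi => ?_
    by_contra hn
    simp only [mem_union, mem_setOf_eq, not_or, not_not] at hn
    simp [hn.1, hn.2] at hi
  inv_mem' := by
    intro x hx
    simpa using hx

open Classical in
/-- extension by the identity -/
noncomputable def extC {I : Type} (C : Set I) (hC : C.Countable) :
    (ℕ × I → A5) →* (ℕ → Hs I) where
  toFun f := fun n => ⟨fun i => if i ∈ C then f (n, i) else 1, hC.mono fun i hi => by
    by_contra h; simp [h] at hi⟩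
  map_one' := by ext1 n; ext1; ext1 i; simp
  map_mul' x y := by ext1 n; ext1; ext1 i; by_cases h : i ∈ C <;> simp [h]

theorem ex_aleph : ∃ (G : Type) (_ : Group G) (_ : TopologicalSpace G), IsTopologicalGroup G ∧
    T2Space G ∧ TopologicalSpace.MetrizableSpace G ∧ rs G = Cardinal.aleph 1 := by
  classical
  let I := (Cardinal.aleph 1).ord.ToType
  have hI : Cardinal.mk I = Cardinal.aleph 1 := by simp [I]
  have hIic : ∀ i : I, (Iic i).Countable := by
    intro i
    have h1 : (Iio i).Countable := by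
      rw [← Cardinal.le_aleph0_iff_set_countable, ← Order.lt_succ_iff, Cardinal.succ_aleph0]
      exact Cardinal.mk_Iio_ord_toType i
    rw [← Iio_insert]; exact h1.insert i
  have hunc : ∀ C : Set I, C.Countable → ∃ i, i ∉ C := by
    intro C hC
    by_contra h
    push Not at h
    have : (univ : Set I).Countable := hC.mono fun i _ => h i
    rw [← Cardinal.le_aleph0_iff_set_countable, Cardinal.mk_univ, hI] at this
    exact absurd this (not_le.2 Cardinal.aleph0_lt_aleph_one)
  have hcof : ∀ C : Set I, C.Countable → ∃ i, C ⊆ Iic i := by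
    intro C hC
    obtain ⟨i, hi⟩ := hunc (⋃ j ∈ C, Iic j) (hC.biUnion fun j _ => hIic j)
    refine ⟨i, fun j hj => ?_⟩
    simp only [mem_iUnion, mem_Iic, not_exists, not_le] at hi
    exact (hi j hj).le
  letI : TopologicalSpace (Hs I) := ⊥
  haveI : DiscreteTopology (Hs I) := ⟨rfl⟩
  refine ⟨ℕ → Hs I, inferInstance, inferInstance, inferInstance, inferInstance, inferInstance, ?_⟩
  refine rs_eq (range fun i : I => fun n => tail n (extC (Iic i) (hIic i) fun _ => a5))
    ⟨?_, ?_⟩ (Cardinal.mk_range_le.trans hI.le) ?_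
  · rintro _ ⟨i, rfl⟩; exact tail_null _
  · intro σ hσ _ h
    refine le_of_tail σ hσ fun y => ?_
    obtain ⟨i, hi⟩ := hcof (⋃ n, {i | (y n).1 i ≠ 1}) (countable_iUnion fun n => (y n).2)
    have := normal_top ((@PT (Hs I) _ σ hσ).comap (extC (Iic i) (hIic i)))
      ((@PT_normal (Hs I) _ σ hσ).comap _) (h _ ⟨i, rfl⟩)
    have h2 : (fun p : ℕ × I => (y p.1).1 p.2) ∈
        (@PT (Hs I) _ σ hσ).comap (extC (Iic i) (hIic i)) := by rw [this]; trivial
    have h3 : extC (Iic i) (hIic i) (fun p : ℕ × I => (y p.1).1 p.2) = y := by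
      ext1 n; ext1; ext1 j
      simp only [extC, MonoidHom.coe_mk, OneHom.coe_mk]
      split_ifs with hj
      · rfl
      · by_contra hne
        exact hj (hi (mem_iUnion.2 ⟨n, fun h => hne h.symm⟩))
    rw [Subgroup.mem_comap, h3] at h2
    exact h2
  · intro T hT
    by_contra hlt
    have hTc : T.Countable := by
      rw [← Cardinal.le_aleph0_iff_set_countable, ← Order.lt_succ_iff, Cardinal.succ_aleph0]
      exact not_le.1 hlt
    obtain ⟨i, hi⟩ := hunc (⋃ u ∈ T, ⋃ k, ⋃ n, {i | (u k n).1 i ≠ 1})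
      (hTc.biUnion fun u _ => countable_iUnion fun k => countable_iUnion fun n => (u k n).2)
    simp only [mem_iUnion, mem_setOf_eq, not_exists, not_not] at hi
    let ρ : (ℕ → Hs I) →* (ℕ → A5) :=
      { toFun := fun y n => (y n).1 i
        map_one' := rfl
        map_mul' := fun _ _ => rfl }
    letI d : TopologicalSpace (ℕ → A5) := ⊥
    haveI : DiscreteTopology (ℕ → A5) := ⟨rfl⟩
    have h1 := hT.2 (Pi.topologicalSpace ⊓ TopologicalSpace.induced ρ d)
      (topologicalGroup_inf inferInstance (topologicalGroup_induced ρ))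
      (t2Space_antitone inf_le_left inferInstance) (by
        intro u hu
        rw [nhds_inf, tendsto_inf]
        refine ⟨hT.1 u hu, ?_⟩
        rw [nhds_induced, tendsto_comap_iff]
        have : ρ ∘ u = fun _ => ρ 1 := by
          ext1 k; ext1 n; exact hi u hu k n
        rw [this]; exact tendsto_const_nhds)
    have h2 : Continuous ρ := continuous_iff_le_induced.2 (h1.trans inf_le_right)
    have h3 := (h2.tendsto 1).comp (tail_null (extC (Iic i) (hIic i) fun _ => a5))
    rw [nhds_discrete, tendsto_pure] at h3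
    obtain ⟨n, hn⟩ := h3.exists
    have h4 := congrFun hn n
    simp only [Function.comp, ρ, MonoidHom.coe_mk, OneHom.coe_mk, tail_apply, le_refl,
      if_true] at h4
    apply a5_ne
    simpa [extC] using h4

end Pool.Agent.H2.RS
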