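import Mathlib
import Pool.Agent.H2.RS1

set_option autoImplicit false

/-! The sequence rank of countable groups and the bounding number. -/

namespace Pool.Agent.H2.RS

open Filter Topology Set Pointwise

theorem exists_unbounded : ∃ B : Set (ℕ → ℕ),
    (¬ ∃ g : ℕ → ℕ, ∀ f ∈ B, ∀ᶠ n in atTop, f n ≤ g n) ∧ Cardinal.mk B = bnum := by
  refine csInf_mem (s := {c | ∃ B : Set (ℕ → ℕ),
    (¬ ∃ g : ℕ → ℕ, ∀ f ∈ B, ∀ᶠ n in atTop, f n ≤ g n) ∧ Cardinal.mk B = c}) ⟨_, univ, ?_, rfl⟩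
  rintro ⟨g, hg⟩
  obtain ⟨n, hn⟩ := (hg (fun n => g n + 1) trivial).exists
  omega

theorem bounded_of_lt {B : Set (ℕ → ℕ)} (h : Cardinal.mk B < bnum) :
    ∃ g : ℕ → ℕ, ∀ f ∈ B, ∀ᶠ n in atTop, f n ≤ g n := by
  by_contra hn
  exact absurd h (not_lt.2 (csInf_le' ⟨B, hn, rfl⟩))

theorem aleph_one_le_bnum : Cardinal.aleph 1 ≤ bnum := by
  obtain ⟨B, hB, hc⟩ := exists_unbounded
  by_contra hlt
  have hBc : B.Countable := by
    rw [← Cardinal.le_aleph0_iff_set_countable, ← Order.lt_succ_iff, Cardinal.succ_aleph0, hc]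
    exact not_le.1 hlt
  obtain ⟨e, he⟩ := (hBc.insert 0).exists_eq_range (insert_nonempty _ _)
  refine hB ⟨fun n => (Finset.range (n + 1)).sup fun k => e k n, fun f hf => ?_⟩
  obtain ⟨k, rfl⟩ : f ∈ range e := he ▸ mem_insert_of_mem _ hf
  filter_upwards [eventually_ge_atTop k] with n hn
  exact Finset.le_sup (f := fun k => e k n) (Finset.mem_range.2 (by omega))

theorem upper (G : Type) [Group G] [τ : TopologicalSpace G] [IsTopologicalGroup G] [Countable G]
    [FirstCountableTopology G] : ∃ S, Gen G S ∧ Cardinal.mk S ≤ bnum := by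
  classical
  obtain ⟨B, hB, hc⟩ := exists_unbounded
  obtain ⟨g, hg⟩ := exists_surjective_nat G
  obtain ⟨U, hU⟩ := (𝓝 (1 : G)).exists_antitone_basis
  let u : (ℕ → ℕ) → ℕ → G := fun f k =>
    if k.unpair.2 ≤ f k.unpair.1 ∧ g k.unpair.2 ∈ U k.unpair.1 then g k.unpair.2 else 1
  refine ⟨u '' B, ⟨?_, ?_⟩, Cardinal.mk_image_le.trans hc.le⟩
  · rintro _ ⟨f, -, rfl⟩
    rw [hU.1.tendsto_right_iff]
    intro m _
    rw [← Nat.cofinite_eq_atTop, eventually_cofinite]
    refine ((finite_Iio m).biUnion fun n _ =>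
      (finite_Iic (f n)).image (fun i => Nat.pair n i)).subset fun k hk => ?_
    simp only [mem_setOf_eq, u] at hk
    split_ifs at hk with h
    · simp only [mem_iUnion]
      refine ⟨k.unpair.1, ?_, k.unpair.2, h.1, Nat.pair_unpair k⟩
      by_contra hm
      exact hk (hU.2 (not_lt.1 hm) h.2)
    · exact absurd (mem_of_mem_nhds (hU.1.mem_of_mem trivial)) hk
  · intro σ hσ _ h
    refine le_of_nhds_one τ σ ‹_› hσ fun W hW => ?_
    have h1 : ∀ f ∈ B, ∃ k, ∀ n ≥ k, ∀ i ≤ f n, g i ∈ U n → g i ∈ W := by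
      intro f hf
      obtain ⟨k, hk⟩ := eventually_atTop.1 ((h _ ⟨f, hf, rfl⟩).eventually hW)
      refine ⟨k, fun n hn i hi hU => ?_⟩
      have : u f (Nat.pair n i) ∈ W := hk (Nat.pair n i) (hn.trans (Nat.left_le_pair n i))
      simpa [u, hi, hU] using this
    by_contra hW'
    have h2 : ∀ m, ∃ i, g i ∈ U m ∧ g i ∉ W := by
      intro m
      by_contra hn
      push Not at hn
      refine hW' (mem_of_superset (hU.1.mem_of_mem (i := m) trivial) fun x hx => ?_)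
      obtain ⟨i, rfl⟩ := hg x
      exact hn i hx
    choose b hb hbW using h2
    refine hB ⟨b, fun f hf => ?_⟩
    obtain ⟨k, hk⟩ := h1 f hf
    filter_upwards [eventually_ge_atTop k] with n hn
    by_contra hlt
    exact hbW n (hk n hn _ (not_le.1 hlt).le (hb n))

/-- A countable Hausdorff group has a coarser first countable Hausdorff group topology. -/
theorem coarser (G : Type) [Group G] [τ : TopologicalSpace G] [IsTopologicalGroup G] [T2Space G]
    [Countable G] : ∃ μ : TopologicalSpace G, @IsTopologicalGroup G μ _ ∧ @T2Space G μ ∧ τ ≤ μ ∧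
      ∃ V : ℕ → Set G, (@nhds G μ 1).HasAntitoneBasis V := by
  obtain ⟨g, hg⟩ := exists_surjective_nat G
  have step : ∀ (n : ℕ) (V : Set G), V ∈ 𝓝 (1 : G) → ∃ V' ∈ 𝓝 (1 : G), V' ⊆ V ∧ V' * V' ⊆ V ∧
      (∀ x ∈ V', x⁻¹ ∈ V) ∧ (∀ i ∈ Finset.range (n + 1), ∀ x ∈ V', g i * x * (g i)⁻¹ ∈ V) ∧
      (g n ≠ 1 → g n ∉ V') := by
    intro n V hV
    obtain ⟨A, hA, hA1, hAV⟩ := exists_open_nhds_one_mul_subset hV
    have h1 : ∀ᶠ x in 𝓝 (1 : G), x⁻¹ ∈ V := by
      have : Tendsto (fun x : G => x⁻¹) (𝓝 1) (𝓝 1) := by simpa using continuous_inv.tendsto (1 : G)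
      exact this.eventually hV
    have h2 : ∀ᶠ x in 𝓝 (1 : G), ∀ i ∈ Finset.range (n + 1), g i * x * (g i)⁻¹ ∈ V := by
      rw [eventually_all_finset]
      intro i _
      have : Tendsto (fun x : G => g i * x * (g i)⁻¹) (𝓝 1) (𝓝 1) := by
        have h : Continuous fun x : G => g i * x * (g i)⁻¹ := by fun_prop
        simpa using h.tendsto 1
      exact this.eventually hV
    have h3 : ∀ᶠ x in 𝓝 (1 : G), g n ≠ 1 → x ≠ g n := by
      by_cases h : g n = 1
      · simp [h]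
      · filter_upwards [eventually_ne_nhds (Ne.symm h)] with x hx _ using hx
    refine ⟨_, ((eventually_mem_set.2 hV).and ((eventually_mem_set.2 (hA.mem_nhds hA1)).and
      (h1.and (h2.and h3)))), fun x hx => hx.1, ?_, fun x hx => hx.2.2.1,
      fun i hi x hx => hx.2.2.2.1 i hi, fun h hx => hx.2.2.2.2 h rfl⟩
    rintro _ ⟨x, hx, y, hy, rfl⟩
    exact hAV ⟨x, hx.2.1, y, hy.2.1, rfl⟩
  choose F hF using step
  let W : ℕ → {V : Set G // V ∈ 𝓝 (1 : G)} := fun n =>
    Nat.rec ⟨univ, univ_mem⟩ (fun n V => ⟨F n V.1 V.2, (hF n V.1 V.2).1⟩) n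
  let V : ℕ → Set G := fun n => (W n).1
  have hV : ∀ n, V n ∈ 𝓝 (1 : G) := fun n => (W n).2
  have hs : ∀ n, V (n + 1) ⊆ V n ∧ V (n + 1) * V (n + 1) ⊆ V n ∧
      (∀ x ∈ V (n + 1), x⁻¹ ∈ V n) ∧
      (∀ i ∈ Finset.range (n + 1), ∀ x ∈ V (n + 1), g i * x * (g i)⁻¹ ∈ V n) ∧
      (g n ≠ 1 → g n ∉ V (n + 1)) := fun n => (hF n (W n).1 (W n).2).2
  have hanti : Antitone V := antitone_nat_of_succ_le fun n => (hs n).1
  let B : GroupFilterBasis G :=
    { sets := range V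
      nonempty := range_nonempty _
      inter_sets := by
        rintro _ _ ⟨n, rfl⟩ ⟨m, rfl⟩
        exact ⟨_, ⟨max n m, rfl⟩, subset_inter (hanti (le_max_left _ _)) (hanti (le_max_right _ _))⟩
      one' := by rintro _ ⟨n, rfl⟩; exact mem_of_mem_nhds (hV n)
      mul' := by rintro _ ⟨n, rfl⟩; exact ⟨_, ⟨n + 1, rfl⟩, (hs n).2.1⟩
      inv' := by rintro _ ⟨n, rfl⟩; exact ⟨_, ⟨n + 1, rfl⟩, (hs n).2.2.1⟩
      conj' := by
        rintro x _ ⟨n, rfl⟩
        obtain ⟨i, rfl⟩ := hg x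
        exact ⟨_, ⟨max n i + 1, rfl⟩, fun x hx => hanti (le_max_left n i)
          ((hs _).2.2.2.1 i (Finset.mem_range.2 (by omega)) x hx)⟩ }
  have hb : (@nhds G B.topology 1).HasBasis (fun _ => True) V := by
    refine B.nhds_one_hasBasis.to_hasBasis ?_ ?_
    · rintro _ ⟨f, rfl⟩; exact ⟨f, trivial, subset_rfl⟩
    · intro f _; exact ⟨_, ⟨f, rfl⟩, subset_rfl⟩
  refine ⟨B.topology, B.isTopologicalGroup, ?_, ?_, V, hb, hanti⟩
  · refine @IsTopologicalGroup.t2Space_of_one_sep G B.topology _ B.isTopologicalGroup fun x hx => ?_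
    obtain ⟨i, rfl⟩ := hg x
    exact ⟨_, hb.mem_of_mem (i := i + 1) trivial, (hs i).2.2.2.2 hx⟩
  · refine le_of_nhds_one _ _ ‹_› B.isTopologicalGroup (hb.ge_iff.2 fun n _ => hV n)

/-- The group topology determined by an increasing sequence of compact sets. -/
theorem komega (G : Type) [Group G] [μ : TopologicalSpace G] [IsTopologicalGroup G] [T2Space G]
    (L : ℕ → Set G) (hc : ∀ n, IsCompact (L n)) (hm : Monotone L) (h1 : (1 : G) ∈ L 0)
    (hmul : ∀ n, L n * L n ⊆ L (n + 1)) (hinv : ∀ n, ∀ x ∈ L n, x⁻¹ ∈ L n)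
    (hall : ∀ x, ∃ n, x ∈ L n) :
    ∃ σ : TopologicalSpace G, @IsTopologicalGroup G σ _ ∧ @T2Space G σ ∧
      @nhdsWithin G μ 1 (L 0) ≤ @nhds G σ 1 ∧
      ∀ W : Set G, (1 : G) ∈ W → (∀ n, ∀ x ∈ W, W ∈ @nhdsWithin G μ x (L n)) →
        W ∈ @nhds G σ 1 := by
  have hcont : ∀ (φ : G → G), Continuous φ → (∀ n, ∃ m, MapsTo φ (L n) (L m)) →
      ∀ W : Set G, (∀ n, ∀ x ∈ W, W ∈ 𝓝[L n] x) → ∀ n, ∀ x ∈ φ ⁻¹' W, φ ⁻¹' W ∈ 𝓝[L n] x := by
    intro φ hφ hmap W hW n x hx
    obtain ⟨m, hm⟩ := hmap n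
    exact (hφ.continuousWithinAt.tendsto_nhdsWithin hm) (hW m _ hx)
  let B : GroupFilterBasis G :=
    { sets := {W | (1 : G) ∈ W ∧ ∀ n, ∀ x ∈ W, W ∈ 𝓝[L n] x}
      nonempty := ⟨univ, trivial, fun _ _ _ => univ_mem⟩
      inter_sets := by
        intro A B hA hB
        exact ⟨A ∩ B, ⟨⟨hA.1, hB.1⟩, fun n x hx => inter_mem (hA.2 n x hx.1) (hB.2 n x hx.2)⟩,
          subset_rfl⟩
      one' := fun h => h.1
      mul' := by
        intro W hW
        have step : ∀ (n : ℕ) (V : Set G), IsCompact V → V ⊆ L n → V * V ⊆ W →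
            ∃ O : Set G, IsOpen O ∧ V ⊆ O ∧
              (closure O ∩ L (n + 1)) * (closure O ∩ L (n + 1)) ⊆ W := by
          intro n V hV hVL hVW
          have hO : ∃ O : Set G, IsOpen O ∧ W ⊆ O ∧ O ∩ L (n + 2) ⊆ W := by
            have : ∀ x ∈ W, ∃ O : Set G, IsOpen O ∧ x ∈ O ∧ O ∩ L (n + 2) ⊆ W :=
              fun x hx => mem_nhdsWithin.1 (hW.2 _ x hx)
            choose O hO using this
            refine ⟨⋃ x, ⋃ hx : x ∈ W, O x hx, isOpen_iUnion fun x => isOpen_iUnion fun hx =>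
              (hO x hx).1, fun x hx => mem_iUnion₂.2 ⟨x, hx, (hO x hx).2.1⟩, ?_⟩
            rintro y ⟨hy, hyL⟩
            obtain ⟨x, hx, hy⟩ := mem_iUnion₂.1 hy
            exact (hO x hx).2.2 ⟨hy, hyL⟩
          obtain ⟨O, hOo, hWO, hOW⟩ := hO
          obtain ⟨P, Q, hP, hQ, hVP, hVQ, hPQ⟩ := generalized_tube_lemma hV hV
            (hOo.preimage continuous_mul) (fun p hp => hWO (hVW ⟨p.1, hp.1, p.2, hp.2, rfl⟩))
          obtain ⟨R, hR, hVR, hRc⟩ := hV.exists_isOpen_closure_subset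
            ((hP.inter hQ).mem_nhdsSet.2 (subset_inter hVP hVQ))
          refine ⟨R, hR, hVR, ?_⟩
          rintro _ ⟨x, hx, y, hy, rfl⟩
          exact hOW ⟨hPQ (show (x, y) ∈ P ×ˢ Q from ⟨(hRc hx.1).1, (hRc hy.1).2⟩),
            hmul _ ⟨x, hx.2, y, hy.2, rfl⟩⟩
        choose O hO using step
        let Z : (n : ℕ) → {V : Set G // IsCompact V ∧ V ⊆ L n ∧ V * V ⊆ W} := fun n =>
          Nat.rec ⟨{1}, isCompact_singleton, singleton_subset_iff.2 h1, by simpa using hW.1⟩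
            (fun n V => ⟨closure (O n V.1 V.2.1 V.2.2.1 V.2.2.2) ∩ L (n + 1),
              (hc _).inter_left isClosed_closure, inter_subset_right,
              (hO n V.1 V.2.1 V.2.2.1 V.2.2.2).2.2⟩) n
        have hZ : ∀ n, ∃ O : Set G, IsOpen O ∧ (Z n).1 ⊆ O ∧ O ∩ L (n + 1) ⊆ (Z (n + 1)).1 :=
          fun n => ⟨_, (hO n _ (Z n).2.1 (Z n).2.2.1 (Z n).2.2.2).1,
            (hO n _ (Z n).2.1 (Z n).2.2.1 (Z n).2.2.2).2.1,
            inter_subset_inter_left _ subset_closure⟩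
        have hZm : Monotone fun n => (Z n).1 := by
          refine monotone_nat_of_le_succ fun n x hx => ?_
          obtain ⟨O, -, h1, h2⟩ := hZ n
          exact h2 ⟨h1 hx, hm (Nat.le_succ n) ((Z n).2.2.1 hx)⟩
        refine ⟨⋃ n, (Z n).1, ⟨mem_iUnion.2 ⟨0, rfl⟩, fun n x hx => ?_⟩, ?_⟩
        · obtain ⟨k, hk⟩ := mem_iUnion.1 hx
          obtain ⟨O, hO, h1, h2⟩ := hZ (max n k)
          refine mem_nhdsWithin.2 ⟨O, hO, h1 (hZm (le_max_right n k) hk), fun y hy => ?_⟩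
          exact mem_iUnion.2 ⟨_, h2 ⟨hy.1, hm (by omega) hy.2⟩⟩
        · rintro _ ⟨x, hx, y, hy, rfl⟩
          obtain ⟨k, hk⟩ := mem_iUnion.1 hx
          obtain ⟨l, hl⟩ := mem_iUnion.1 hy
          exact (Z (max k l)).2.2.2 ⟨x, hZm (le_max_left k l) hk, y, hZm (le_max_right k l) hl, rfl⟩
      inv' := by
        intro W hW
        exact ⟨_, ⟨by simpa using hW.1,
          hcont _ continuous_inv (fun n => ⟨n, hinv n⟩) W hW.2⟩, subset_rfl⟩
      conj' := by
        intro g W hW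
        refine ⟨_, ⟨by simpa using hW.1, hcont _ (by fun_prop) (fun n => ?_) W hW.2⟩, subset_rfl⟩
        obtain ⟨k, hk⟩ := hall g
        refine ⟨max n k + 2, fun x hx => hmul _ ⟨g * x, hmul _ ⟨g, hm (le_max_right n k) hk, x,
          hm (le_max_left n k) hx, rfl⟩, g⁻¹, hm (by omega) (hinv _ _ hk), rfl⟩⟩ }
  refine ⟨B.topology, B.isTopologicalGroup, ?_, ?_, fun W h1 h2 => B.mem_nhds_one ⟨h1, h2⟩⟩
  · refine @IsTopologicalGroup.t2Space_of_one_sep G B.topology _ B.isTopologicalGroup fun x hx => ?_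
    refine ⟨{x}ᶜ, B.mem_nhds_one ⟨fun h => hx h.symm, fun n y hy => ?_⟩, fun h => h rfl⟩
    exact mem_nhdsWithin_of_mem_nhds (isOpen_compl_singleton.mem_nhds hy)
  · exact B.nhds_one_hasBasis.ge_iff.2 fun W hW => hW.2 0 1 hW.1

theorem scattered {G : Type} [TopologicalSpace G] [T2Space G] [Countable G] {K O : Set G}
    (hK : IsCompact K) (hO : O ⊆ K) (hne : O.Nonempty) :
    ∃ x ∈ O, ∃ A : Set G, IsOpen A ∧ x ∈ A ∧ ∀ y ∈ A, y ∈ O → y = x := by
  have hc : IsCompact (closure O) := hK.of_isClosed_subset isClosed_closure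
    (closure_minimal hO hK.isClosed)
  haveI : CompactSpace (closure O) := isCompact_iff_compactSpace.1 hc
  haveI : Nonempty (closure O) := hne.closure.to_subtype
  obtain ⟨x, y, hy⟩ := nonempty_interior_of_iUnion_of_closed (X := closure O)
    (f := fun x : closure O => ({x} : Set (closure O))) (fun _ => isClosed_singleton)
    (iUnion_of_singleton _)
  have hyx : y = x := mem_singleton_iff.1 (interior_subset hy)
  subst hyx
  obtain ⟨A, hA, hAy⟩ := isOpen_induced_iff.1 (isOpen_interior (s := ({y} : Set (closure O))))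
  have h1 : ∀ z ∈ A, z ∈ closure O → z = y := by
    intro z hz hz'
    have : (⟨z, hz'⟩ : closure O) ∈ interior ({y} : Set (closure O)) := by rw [← hAy]; exact hz
    exact congrArg Subtype.val (mem_singleton_iff.1 (interior_subset this))
  have h2 : y.1 ∈ A := by
    have : y ∈ Subtype.val ⁻¹' A := by rw [hAy]; exact hy
    exact this
  obtain ⟨z, hzA, hzO⟩ := mem_closure_iff.1 y.2 A hA h2
  have := h1 z hzA (subset_closure hzO)
  exact ⟨y, this ▸ hzO, A, hA, h2, fun w hw hwO => h1 w hw (subset_closure hwO)⟩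

/-- Fewer than `bnum` null sequences of a countable first countable group are almost contained in a
compact set. -/
theorem absorb (G : Type) [Group G] [μ : TopologicalSpace G] [T2Space G] [Countable G]
    (V : ℕ → Set G) (hV : (𝓝 (1 : G)).HasAntitoneBasis V) (S : Set (ℕ → G))
    (hS : ∀ u ∈ S, Tendsto u atTop (𝓝 (1 : G))) (hc : Cardinal.mk S < bnum) :
    ∃ K : Set G, IsCompact K ∧ (1 : G) ∈ K ∧ ∀ u ∈ S, ∀ᶠ k in atTop, u k ∈ K := by
  classical
  obtain ⟨g, hg⟩ := exists_surjective_nat G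
  choose idx hidx using hg
  have h1 : ∀ u ∈ S, ∃ f : ℕ → ℕ, ∀ n k, u k ∉ V (n + 1) → idx (u k) ≤ f n := by
    intro u hu
    have : ∀ n, ∃ m, ∀ k, u k ∉ V (n + 1) → idx (u k) ≤ m := by
      intro n
      obtain ⟨N, hN⟩ := eventually_atTop.1 ((hS u hu).eventually (hV.mem (n + 1)))
      refine ⟨(Finset.range N).sup fun k => idx (u k), fun k hk => ?_⟩
      refine Finset.le_sup (f := fun k => idx (u k)) (Finset.mem_range.2 ?_)
      by_contra h
      exact hk (hN k (not_lt.1 h))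
    choose f hf using this
    exact ⟨f, hf⟩
  choose f hf using h1
  obtain ⟨F, hF⟩ := bounded_of_lt (B := range fun u : S => f u.1 u.2)
    (Cardinal.mk_range_le.trans_lt hc)
  refine ⟨insert 1 {x | ∃ n, x ∈ V n ∧ idx x ≤ F n}, ?_, mem_insert _ _, fun u hu => ?_⟩
  · refine isCompact_of_finite_subcover fun {ι} U hUo hU => ?_
    obtain ⟨i, hi⟩ := mem_iUnion.1 (hU (mem_insert _ _))
    obtain ⟨m, -, hm⟩ := hV.1.mem_iff.1 ((hUo i).mem_nhds hi)
    have hfin : {x | ∃ n < m, x ∈ V n ∧ idx x ≤ F n}.Finite := by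
      refine ((finite_Iio m).biUnion fun n _ => (finite_Iic (F n)).image g).subset ?_
      rintro x ⟨n, hn, -, hx⟩
      exact mem_iUnion₂.2 ⟨n, hn, idx x, hx, hidx x⟩
    obtain ⟨t, ht⟩ := hfin.isCompact.elim_finite_subcover U hUo
      (fun x ⟨n, _, h⟩ => hU (mem_insert_of_mem _ ⟨n, h⟩))
    refine ⟨insert i t, ?_⟩
    rintro x (rfl | ⟨n, hn, hx⟩)
    · exact mem_iUnion₂.2 ⟨i, Finset.mem_insert_self _ _, hi⟩
    · rcases lt_or_ge n m with h | h
      · obtain ⟨j, hj, hx⟩ := mem_iUnion₂.1 (ht ⟨n, h, hn, hx⟩)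
        exact mem_iUnion₂.2 ⟨j, Finset.mem_insert_of_mem hj, hx⟩
      · exact mem_iUnion₂.2 ⟨i, Finset.mem_insert_self _ _, hm (hV.2 h hn)⟩
  · obtain ⟨N, hN⟩ := eventually_atTop.1 (hF _ ⟨⟨u, hu⟩, rfl⟩)
    filter_upwards [(hS u hu).eventually (hV.mem N)] with k hk
    by_cases h : u k = 1
    · exact Or.inl h
    · right
      have h2 : ∃ n, u k ∉ V (N + n + 1) := by
        obtain ⟨m, -, hm⟩ := hV.1.mem_iff.1 (isOpen_compl_singleton.mem_nhds (Ne.symm h))
        exact ⟨m, fun hh => hm (hV.2 (by omega) hh) rfl⟩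
      refine ⟨N + Nat.find h2, ?_, (hf u hu _ _ (Nat.find_spec h2)).trans (hN _ (by omega))⟩
      rcases Nat.eq_zero_or_pos (Nat.find h2) with h3 | h3
      · rw [h3]; exact hk
      · have := Nat.find_min h2 (m := Nat.find h2 - 1) (by omega)
        rw [not_not] at this
        exact hV.2 (by omega) this

theorem chain (G : Type) [Group G] [μ : TopologicalSpace G] [IsTopologicalGroup G] [T2Space G]
    [Countable G] (V : ℕ → Set G) (hV : (𝓝 (1 : G)).HasAntitoneBasis V) (S : Set (ℕ → G))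
    (hS : ∀ u ∈ S, Tendsto u atTop (𝓝 (1 : G))) (hc : Cardinal.mk S < bnum) :
    ∃ L : ℕ → Set G, Monotone L ∧ (1 : G) ∈ L 0 ∧
      (∀ n, ∀ O ⊆ L n, O.Nonempty →
        ∃ x ∈ O, ∃ A : Set G, IsOpen A ∧ x ∈ A ∧ ∀ y ∈ A, y ∈ O → y = x) ∧
      ∃ σ : TopologicalSpace G, @IsTopologicalGroup G σ _ ∧ @T2Space G σ ∧
        (∀ u ∈ S, Tendsto u atTop (@nhds G σ 1)) ∧
        ∀ Y : Set G, (1 : G) ∉ Y → (∀ n, (Y ∩ L n).Finite) → Yᶜ ∈ @nhds G σ 1 := by
  obtain ⟨K, hK, hK1, hKS⟩ := absorb G V hV S hS hc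
  obtain ⟨g, hg⟩ := exists_surjective_nat G
  let L : ℕ → Set G := fun n => Nat.rec (K ∪ K⁻¹) (fun n A => (A * A) ∪ {g n, (g n)⁻¹}) n
  have hL : ∀ n, L (n + 1) = (L n * L n) ∪ {g n, (g n)⁻¹} := fun n => rfl
  have hcp : ∀ n, IsCompact (L n) := by
    intro n
    induction n with
    | zero => exact hK.union hK.inv
    | succ n ih => exact (ih.mul ih).union (toFinite _).isCompact
  have h1 : ∀ n, (1 : G) ∈ L n := by
    intro n
    induction n with
    | zero => exact Or.inl hK1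
    | succ n ih => exact Or.inl ⟨1, ih, 1, ih, mul_one 1⟩
  have hm : Monotone L :=
    monotone_nat_of_le_succ fun n x hx => Or.inl ⟨x, hx, 1, h1 n, mul_one x⟩
  have hinv : ∀ n, ∀ x ∈ L n, x⁻¹ ∈ L n := by
    intro n
    induction n with
    | zero =>
      rintro x (hx | hx)
      · exact Or.inr (by simpa using hx)
      · exact Or.inl hx
    | succ n ih =>
      rintro x (⟨y, hy, z, hz, rfl⟩ | rfl | rfl)
      · exact Or.inl ⟨z⁻¹, ih z hz, y⁻¹, ih y hy, by simp⟩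
      · exact Or.inr (Or.inr rfl)
      · exact Or.inr (Or.inl (inv_inv _))
  obtain ⟨σ, hσ, hσ2, hσ3, hσ4⟩ := komega G L hcp hm (h1 0) (fun n => subset_union_left) hinv
    (fun x => by obtain ⟨i, rfl⟩ := hg x; exact ⟨i + 1, Or.inr (Or.inl rfl)⟩)
  letI := μ
  refine ⟨L, hm, h1 0, fun n O hO hne => scattered (hcp n) hO hne, σ, hσ, hσ2, fun u hu => ?_,
    fun Y hY hfin => hσ4 _ hY fun n x hx => ?_⟩
  · refine Tendsto.mono_right ?_ hσ3
    exact tendsto_nhdsWithin_iff.2 ⟨hS u hu, (hKS u hu).mono fun k hk => Or.inl hk⟩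
  · exact mem_nhdsWithin.2 ⟨(Y ∩ L n)ᶜ, (hfin n).isClosed.isOpen_compl, fun h => hx h.1,
      fun y hy h => hy.1 ⟨h, hy.2⟩⟩

theorem fu_step (G : Type) [Group G] [TopologicalSpace G] [IsTopologicalGroup G] [T2Space G]
    [FrechetUrysohnSpace G] (hd : ¬ DiscreteTopology G) (L : ℕ → Set G) (hm : Monotone L)
    (h1 : (1 : G) ∈ L 0)
    (hY : ∀ Y : Set G, (1 : G) ∉ Y → (∀ n, (Y ∩ L n).Finite) → Yᶜ ∈ 𝓝 (1 : G)) :
    ∃ n, L n ∈ 𝓝 (1 : G) := by
  by_contra hn
  push Not at hn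
  have h2 : ∀ n, (1 : G) ∈ closure (L n)ᶜ := by
    intro n
    rw [closure_compl]
    exact fun h => hn n (mem_interior_iff_mem_nhds.1 h)
  have h3 : (1 : G) ∈ closure ({1}ᶜ : Set G) := by
    rw [closure_compl]
    intro h
    refine hd (discreteTopology_of_isOpen_singleton_one ?_)
    have : interior ({1} : Set G) = {1} := (interior_subset.antisymm (singleton_subset_iff.2 h))
    rw [← this]; exact isOpen_interior
  obtain ⟨z, hz, hz1⟩ := mem_closure_iff_seq_limit.1 h3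
  have h4 : ∀ n, ∃ P : Set G, IsOpen P ∧ z n ∈ P ∧ (1 : G) ∉ closure P := by
    intro n
    obtain ⟨C, hC, hCc, hC1⟩ := exists_mem_nhds_isClosed_subset
      (isOpen_compl_singleton.mem_nhds (hz n))
    refine ⟨interior C, isOpen_interior, mem_interior_iff_mem_nhds.2 hC, fun h => ?_⟩
    exact hC1 (closure_minimal interior_subset hCc h) rfl
  choose P hPo hzP hP1 using h4
  have h5 : (1 : G) ∈ closure {x | ∃ n, x ∈ P n ∧ (z n)⁻¹ * x ∉ L n} := by
    refine isClosed_closure.mem_of_tendsto hz1 (Eventually.of_forall fun n => ?_)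
    obtain ⟨y, hy, hy1⟩ := mem_closure_iff_seq_limit.1 (h2 n)
    have h6 : Tendsto (fun k => z n * y k) atTop (𝓝 (z n)) := by simpa using hy1.const_mul (z n)
    refine mem_closure_of_tendsto h6 ?_
    filter_upwards [h6.eventually ((hPo n).mem_nhds (hzP n))] with k hk
    exact ⟨n, hk, by simpa using hy k⟩
  obtain ⟨x, hx, hx1⟩ := mem_closure_iff_seq_limit.1 h5
  choose N hxP hxL using hx
  have h7 : Tendsto N atTop atTop := by
    rw [tendsto_atTop]
    intro m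
    have : ∀ᶠ k in atTop, ∀ n ∈ Finset.range m, x k ∉ closure (P n) := by
      rw [eventually_all_finset]
      intro n _
      exact hx1.eventually (isClosed_closure.isOpen_compl.mem_nhds (hP1 n))
    filter_upwards [this] with k hk
    by_contra h
    exact hk _ (Finset.mem_range.2 (not_le.1 h)) (subset_closure (hxP k))
  have h8 : Tendsto (fun k => (z (N k))⁻¹ * x k) atTop (𝓝 1) := by
    simpa using (hz1.comp h7).inv.mul hx1
  have h9 := hY (range fun k => (z (N k))⁻¹ * x k) (by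
      rintro ⟨k, hk⟩
      refine hxL k ?_
      simp only at hk
      rw [hk]; exact hm (Nat.zero_le _) h1) (by
      intro n
      obtain ⟨M, hM⟩ := eventually_atTop.1 (tendsto_atTop.1 h7 n)
      refine ((finite_Iio M).image fun k => (z (N k))⁻¹ * x k).subset ?_
      rintro _ ⟨⟨k, rfl⟩, hk⟩
      refine ⟨k, ?_, rfl⟩
      by_contra h
      exact hxL k (hm (hM k (not_lt.1 h)) hk))
  obtain ⟨k, hk⟩ := (h8.eventually h9).exists
  exact hk ⟨k, rfl⟩

theorem lower (G : Type) [Group G] [τ : TopologicalSpace G] [IsTopologicalGroup G] [T2Space G]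
    [Countable G] [FrechetUrysohnSpace G] (hd : ¬ DiscreteTopology G) (S : Set (ℕ → G))
    (hS : Gen G S) : bnum ≤ Cardinal.mk S := by
  by_contra hlt
  obtain ⟨μ, hμ, hμ2, hle, V, hV⟩ := coarser G
  obtain ⟨L, hm, h1, hsc, σ, hσ, hσ2, hσ3, hσ4⟩ := @chain G _ μ hμ hμ2 _ V hV S
    (fun u hu => (hS.1 u hu).mono_right (nhds_mono hle)) (not_le.1 hlt)
  have h2 := hS.2 σ hσ hσ2 hσ3
  obtain ⟨n, hn⟩ := @fu_step G _ τ _ _ _ hd L hm h1 fun Y hY hfin => nhds_mono h2 (hσ4 Y hY hfin)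
  obtain ⟨x, hx, A, hA, hxA, hAx⟩ := hsc n (@interior G τ (L n)) (@interior_subset G τ _)
    ⟨1, (@mem_interior_iff_mem_nhds G τ _ _).2 hn⟩
  have h3 : @IsOpen G τ {x} := by
    have : ({x} : Set G) = A ∩ @interior G τ (L n) := by
      ext y
      exact ⟨by rintro rfl; exact ⟨hxA, hx⟩, fun hy => hAx y hy.1 hy.2⟩
    rw [this]
    exact @IsOpen.inter G τ _ _ (hle _ hA) (@isOpen_interior G τ _)
  letI := τ
  refine hd (discreteTopology_of_isOpen_singleton_one ?_)
  have h4 : ({1} : Set G) = (fun y => x * y) ⁻¹' {x} := by ext y; simp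
  rw [h4]
  exact h3.preimage (by fun_prop)

theorem rs_countable (G : Type) [Group G] [TopologicalSpace G] [IsTopologicalGroup G] [T2Space G]
    [Countable G] [FirstCountableTopology G] (hd : ¬ DiscreteTopology G) : rs G = bnum := by
  obtain ⟨S, hS, hc⟩ := upper G
  exact rs_eq S hS hc (lower G hd)

theorem countable_iff : (∃ (G : Type) (_ : Group G) (_ : TopologicalSpace G), IsTopologicalGroup G ∧
    T2Space G ∧ FrechetUrysohnSpace G ∧ Countable G ∧ rs G = Cardinal.aleph 1) ↔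
    bnum = Cardinal.aleph 1 := by
  constructor
  · rintro ⟨G, _, _, _, _, _, _, h⟩
    refine le_antisymm ?_ aleph_one_le_bnum
    have hd : ¬ DiscreteTopology G := by
      intro hd
      rw [rs_discrete] at h
      exact (Cardinal.aleph_pos 1).ne h
    have hne : {c | ∃ S : Set (ℕ → G), Gen G S ∧ Cardinal.mk S = c}.Nonempty := by
      by_contra hn
      rw [not_nonempty_iff_eq_empty] at hn
      rw [rs, hn] at h
      exact (Cardinal.aleph_pos 1).ne (by simpa using h)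
    obtain ⟨S, hS, hc⟩ := csInf_mem hne
    rw [← h, rs, ← hc]
    exact lower G hd S hS
  · intro h
    haveI : Countable (Multiplicative ℚ) := Multiplicative.toAdd.injective.countable
    refine ⟨Multiplicative ℚ, inferInstance, inferInstance, inferInstance, inferInstance,
      inferInstance, inferInstance, ?_⟩
    rw [← h]
    refine rs_countable _ fun hd => ?_
    have hq : DiscreteTopology ℚ := hd
    have : (𝓝[≠] (0 : ℚ)).NeBot := inferInstance
    exact this.ne (discreteTopology_iff_nhds_ne.1 hq 0)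

end Pool.Agent.H2.RS
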