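import Mathlib
import Pool.Agent.H2.RS1

set_option autoImplicit false

/-! A non-separable metrizable abelian group whose dual is not an s-group. -/

namespace Pool.Agent.H2.RS

open Filter Topology Set

abbrev II : Type := (Cardinal.aleph 1).ord.ToType

theorem cIic (i : II) : (Iic i).Countable := by
  have h1 : (Iio i).Countable := by
    rw [← Cardinal.le_aleph0_iff_set_countable, ← Order.lt_succ_iff, Cardinal.succ_aleph0]
    exact Cardinal.mk_Iio_ord_toType i
  rw [← Iio_insert]; exact h1.insert i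

theorem cunc (C : Set II) (hC : C.Countable) : ∃ i, i ∉ C := by
  by_contra h
  push Not at h
  have : (univ : Set II).Countable := hC.mono fun i _ => h i
  rw [← Cardinal.le_aleph0_iff_set_countable, Cardinal.mk_univ] at this
  have hI : Cardinal.mk II = Cardinal.aleph 1 := by simp
  rw [hI] at this
  exact absurd this (not_le.2 Cardinal.aleph0_lt_aleph_one)

theorem ccof (C : Set II) (hC : C.Countable) : ∃ i, ∀ j ∈ C, j < i := by
  obtain ⟨i, hi⟩ := cunc (⋃ j ∈ C, Iic j) (hC.biUnion fun j _ => cIic j)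
  refine ⟨i, fun j hj => ?_⟩
  simp only [mem_iUnion, mem_Iic, not_exists, not_le] at hi
  exact hi j hj

instance : Nonempty II := ⟨(cunc ∅ countable_empty).choose⟩

abbrev LI : Type := lp (fun _ : II => ℝ) ⊤

/-- bounded functions with countable support -/
def EE : AddSubgroup LI where
  carrier := {f | {i | f i ≠ 0}.Countable}
  zero_mem' := by simp
  add_mem' := by
    intro x y hx hy
    refine (Set.Countable.union hx hy).mono fun i hi => ?_
    by_contra hn
    simp only [mem_union, mem_setOf_eq, not_or, not_not] at hn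
    simp [hn.1, hn.2] at hi
  neg_mem' := by
    intro x hx
    simpa using hx

/-- scaled indicator of an initial segment -/
noncomputable def ind (t : ℝ) (a : II) : EE :=
  ⟨⟨fun i => if i ≤ a then t else 0, memℓp_infty ⟨|t|, by
    rintro _ ⟨i, rfl⟩
    by_cases h : i ≤ a <;> simp [h]⟩⟩, (cIic a).mono fun i hi => by
      by_contra h
      have h' : ¬ i ≤ a := h
      simp [h'] at hi⟩

theorem ind_apply (t : ℝ) (a i : II) : (ind t a).1 i = if i ≤ a then t else 0 := rfl

theorem e_add (f g : EE) (i : II) : (f + g).1 i = f.1 i + g.1 i := rfl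
theorem e_sub (f g : EE) (i : II) : (f - g).1 i = f.1 i - g.1 i := rfl
theorem e_neg (f : EE) (i : II) : (-f).1 i = -f.1 i := rfl
theorem e_nsmul (n : ℕ) (f : EE) (i : II) : (n • f).1 i = n • f.1 i := rfl

theorem norm_le {f : EE} {c : ℝ} (hc : 0 ≤ c) (h : ∀ i, |f.1 i| ≤ c) : ‖f‖ ≤ c :=
  lp.norm_le_of_forall_le hc h

theorem ev_cont (i : II) : Continuous fun f : EE => f.1 i := by
  refine LipschitzWith.continuous (K := 1) (LipschitzWith.of_dist_le_mul fun f g => ?_)
  rw [dist_eq_norm, dist_eq_norm]
  have := lp.norm_apply_le_norm (by simp) (f - g).1 i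
  simpa using this

abbrev GG : Type := Multiplicative EE

theorem ind_pow (N : ℕ) (hN : 0 < N) (a : II) :
    (Multiplicative.ofAdd (ind (1 / N) a) : GG) ^ N = Multiplicative.ofAdd (ind 1 a) := by
  rw [← ofAdd_nsmul]
  congr 1
  ext1; ext1; ext i
  have : (N : ℝ) ≠ 0 := by positivity
  show (N • ind (1 / N) a).1 i = (ind 1 a).1 i
  rw [e_nsmul, ind_apply, ind_apply]
  split_ifs <;> simp [this]

theorem ev_const (χ : PontryaginDual GG) :
    ∃ a, ∀ b, a ≤ b → χ (Multiplicative.ofAdd (ind 1 b)) = χ (Multiplicative.ofAdd (ind 1 a)) := by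
  have hc : Continuous fun f : EE => ((χ (Multiplicative.ofAdd f) : Circle) : ℂ).re := by
    have := χ.continuous
    fun_prop
  obtain ⟨δ, hδ, h1⟩ := Metric.continuousAt_iff.1 (hc.continuousAt (x := 0)) (1 / 2) (by norm_num)
  obtain ⟨N, hN⟩ := exists_nat_one_div_lt hδ
  set t : ℝ := 1 / ((N + 1 : ℕ) : ℝ) with ht
  have ht0 : 0 ≤ t := by positivity
  have h2 : ∀ f : EE, (∀ i, |f.1 i| ≤ t) → 1 / 2 < ((χ (Multiplicative.ofAdd f) : Circle) : ℂ).re := by
    intro f hf
    have := h1 (x := f) (by
      rw [dist_zero_right]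
      refine (norm_le ht0 hf).trans_lt ?_
      simpa [ht] using hN)
    simp only [ofAdd_zero, map_one, Circle.coe_one, Complex.one_re, Real.dist_eq] at this
    linarith [(abs_lt.1 this).1]
  suffices h : ∃ a, ∀ b, a ≤ b →
      χ (Multiplicative.ofAdd (ind t b)) = χ (Multiplicative.ofAdd (ind t a)) by
    obtain ⟨a, ha⟩ := h
    refine ⟨a, fun b hb => ?_⟩
    rw [← ind_pow (N + 1) (by omega), ← ind_pow (N + 1) (by omega), map_pow, map_pow, ha b hb]
  have h3 : ∀ c : ℝ, c < 1 → ∃ a, ∀ b, a ≤ b → ∀ b', b ≤ b' →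
      c < ((χ (Multiplicative.ofAdd (ind t b' - ind t b)) : Circle) : ℂ).re := by
    intro c hc1
    by_contra hn
    push Not at hn
    have h4 : ∀ m : ℕ, ∃ (a : II) (f : EE), (∀ i, |f.1 i| ≤ t) ∧ (∀ i, a < i → f.1 i = 0) ∧
        0 ≤ ((χ (Multiplicative.ofAdd f) : Circle) : ℂ).im ∧
        ((χ (Multiplicative.ofAdd f) : Circle) : ℂ).re ≤ c ^ m := by
      intro m
      induction m with
      | zero => exact ⟨Classical.arbitrary _, 0, by simpa using ht0, by simp, by simp, by simp⟩
      | succ m ih =>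
        obtain ⟨a, f, hf1, hf2, hf3, hf4⟩ := ih
        obtain ⟨b, hab, b', hbb, hb⟩ := hn a
        have h5 : ∃ g : EE, (∀ i, |g.1 i| ≤ t) ∧ (∀ i, i ≤ b ∨ b' < i → g.1 i = 0) ∧
            0 ≤ ((χ (Multiplicative.ofAdd g) : Circle) : ℂ).im ∧
            ((χ (Multiplicative.ofAdd g) : Circle) : ℂ).re ≤ c := by
          have h6 : ∀ i, |(ind t b' - ind t b).1 i| ≤ t := by
            intro i
            rw [e_sub, ind_apply, ind_apply]
            split_ifs <;> simp [ht0, abs_of_nonneg ht0]
          have h7 : ∀ i, i ≤ b ∨ b' < i → (ind t b' - ind t b).1 i = 0 := by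
            rintro i (hi | hi)
            · simp [ind_apply, hi, hi.trans hbb]
            · simp [ind_apply, not_le.2 hi, not_le.2 (hbb.trans_lt hi)]
          rcases le_total 0 ((χ (Multiplicative.ofAdd (ind t b' - ind t b)) : Circle) : ℂ).im
            with h8 | h8
          · exact ⟨_, h6, h7, h8, hb⟩
          · have h9 : ((χ (Multiplicative.ofAdd (-(ind t b' - ind t b))) : Circle) : ℂ) =
                (starRingEnd ℂ) ((χ (Multiplicative.ofAdd (ind t b' - ind t b)) : Circle) : ℂ) := by
              rw [ofAdd_neg, map_inv, Circle.coe_inv_eq_conj]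
            refine ⟨-(ind t b' - ind t b), fun i => ?_, fun i hi => ?_, ?_, ?_⟩
            · simpa [abs_sub_comm] using h6 i
            · rw [e_neg, h7 i hi, neg_zero]
            · rw [h9, Complex.conj_im]; linarith
            · rw [h9, Complex.conj_re]; exact hb
        obtain ⟨g, hg1, hg2, hg3, hg4⟩ := h5
        have hf5 := h2 f hf1
        have hg5 := h2 g hg1
        refine ⟨b', f + g, fun i => ?_, fun i hi => ?_, ?_, ?_⟩
        · rw [e_add]
          rcases le_or_gt i b with h | h
          · rw [hg2 i (Or.inl h), add_zero]; exact hf1 i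
          · rw [hf2 i (hab.trans_lt h), zero_add]; exact hg1 i
        · rw [e_add]
          rw [hg2 i (Or.inr hi), hf2 i ((hab.trans hbb).trans_lt hi), add_zero]
        · rw [ofAdd_add, map_mul, Circle.coe_mul, Complex.mul_im]
          positivity
        · rw [ofAdd_add, map_mul, Circle.coe_mul, Complex.mul_re, pow_succ]
          have := mul_nonneg hf3 hg3
          nlinarith
    obtain ⟨a, f, hf1, -, -, hf4⟩ := h4 1
    have hc0 : 0 < c := by have := h2 f hf1; linarith [pow_one c]
    obtain ⟨m, hm⟩ := exists_pow_lt_of_lt_one (show (0 : ℝ) < 1 / 2 by norm_num) hc1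
    obtain ⟨a, f, hf1, -, -, hf4⟩ := h4 m
    linarith [h2 f hf1]
  choose A hA using fun n : ℕ => h3 (1 - 1 / ((n : ℝ) + 1)) (by
    have : (0 : ℝ) < 1 / ((n : ℝ) + 1) := by positivity
    linarith)
  obtain ⟨a, ha⟩ := ccof (range A) (countable_range A)
  refine ⟨a, fun b hb => ?_⟩
  have h4 : 1 ≤ ((χ (Multiplicative.ofAdd (ind t b - ind t a)) : Circle) : ℂ).re := by
    by_contra hn
    obtain ⟨n, hn⟩ := exists_nat_one_div_lt (sub_pos.2 (not_le.1 hn))
    linarith [hA n a (ha _ ⟨n, rfl⟩).le b hb]
  have h5 : χ (Multiplicative.ofAdd (ind t b - ind t a)) = 1 := by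
    set z := χ (Multiplicative.ofAdd (ind t b - ind t a))
    have h6 := z.normSq_coe
    rw [Complex.normSq_apply] at h6
    ext
    apply Complex.ext <;> simp <;> nlinarith [mul_self_nonneg (z : ℂ).im]
  rwa [ofAdd_sub, map_div, div_eq_one] at h5

noncomputable def lim1 (χ : PontryaginDual GG) : Circle :=
  χ (Multiplicative.ofAdd (ind 1 (ev_const χ).choose))

theorem lim1_ev (χ : PontryaginDual GG) :
    ∀ᶠ b in atTop, χ (Multiplicative.ofAdd (ind 1 b)) = lim1 χ :=
  eventually_atTop.2 ⟨_, (ev_const χ).choose_spec⟩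

noncomputable def Phi : PontryaginDual GG →* Circle where
  toFun := lim1
  map_one' := rfl
  map_mul' x y := by
    obtain ⟨b, h1, h2, h3⟩ := ((lim1_ev x).and ((lim1_ev y).and (lim1_ev (x * y)))).exists
    rw [← h1, ← h2, ← h3]; rfl

theorem Phi_seq (u : ℕ → PontryaginDual GG) (hu : Tendsto u atTop (𝓝 1)) :
    Tendsto (fun n => Phi (u n)) atTop (𝓝 1) := by
  choose A hA using fun n => eventually_atTop.1 (lim1_ev (u n))
  obtain ⟨a, ha⟩ := ccof (range A) (countable_range A)
  have h1 : ∀ n, Phi (u n) = u n (Multiplicative.ofAdd (ind 1 a)) :=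
    fun n => (hA n a (ha _ ⟨n, rfl⟩).le).symm
  simp only [h1]
  have h2 : Continuous fun χ : PontryaginDual GG => χ (Multiplicative.ofAdd (ind 1 a)) :=
    (ContinuousEvalConst.continuous_eval_const (F := C(GG, Circle))
      (Multiplicative.ofAdd (ind 1 a))).comp
      (ContinuousMonoidHom.isInducing_toContinuousMap GG Circle).continuous
  exact (h2.tendsto 1).comp hu

noncomputable def chi (i : II) : PontryaginDual GG where
  toFun f := Circle.exp (Real.pi * (Multiplicative.toAdd f).1 i)
  map_one' := by simp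
  map_mul' x y := by simp [mul_add, Circle.exp_add]
  continuous_toFun := Circle.exp.continuous.comp
    (continuous_const.mul ((ev_cont i).comp continuous_toAdd))

theorem vanish {K : Set GG} (hK : TopologicalSpace.IsSeparable K) :
    ∀ᶠ i in atTop, ∀ f ∈ K, (Multiplicative.toAdd f).1 i = 0 := by
  obtain ⟨c, hc, hKc⟩ := hK
  obtain ⟨a, ha⟩ := ccof (⋃ f ∈ c, {i | (Multiplicative.toAdd f).1 i ≠ 0})
    (hc.biUnion fun f _ => (Multiplicative.toAdd f).2)
  filter_upwards [eventually_ge_atTop a] with i hi f hf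
  have h1 : IsClosed {f : GG | (Multiplicative.toAdd f).1 i = 0} :=
    isClosed_eq ((ev_cont i).comp continuous_toAdd) continuous_const
  refine closure_minimal (fun g hg => ?_) h1 (hKc hf)
  by_contra hn
  exact absurd (ha i (mem_iUnion₂.2 ⟨g, hg, hn⟩)) (not_lt.2 hi)

theorem chi_tendsto : Tendsto chi atTop (𝓝 1) := by
  refine (ContinuousMonoidHom.isInducing_toContinuousMap GG Circle).tendsto_nhds_iff.2 ?_
  rw [ContinuousMap.tendsto_nhds_compactOpen]
  intro K hK U _ hKU
  filter_upwards [vanish hK.isSeparable] with i hi f hf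
  have h1 : chi i f = 1 := by
    show Circle.exp (Real.pi * (Multiplicative.toAdd f).1 i) = 1
    simp [hi f hf]
  have h2 := hKU hf
  show chi i f ∈ U
  rw [h1]; exact h2

theorem Phi_chi (i : II) : Phi (chi i) = Circle.exp Real.pi := by
  obtain ⟨b, h1, h2⟩ := ((lim1_ev (chi i)).and (eventually_ge_atTop i)).exists
  show lim1 (chi i) = _
  rw [← h1]
  show Circle.exp (Real.pi * (ind 1 b).1 i) = _
  simp [ind_apply, h2]

theorem not_sep : ¬ TopologicalSpace.SeparableSpace GG := by
  intro h
  obtain ⟨i, hi⟩ := (vanish (TopologicalSpace.IsSeparable.of_separableSpace (univ : Set GG))).exists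
  have := hi (Multiplicative.ofAdd (ind 1 i)) trivial
  simp [ind_apply] at this

theorem not_gen (S : Set (ℕ → PontryaginDual GG)) : ¬ Gen (PontryaginDual GG) S := by
  intro hS
  have h1 := hS.2 ((inferInstance : TopologicalSpace (PontryaginDual GG)) ⊓
      TopologicalSpace.induced Phi inferInstance)
    (topologicalGroup_inf inferInstance (topologicalGroup_induced Phi))
    (t2Space_antitone inf_le_left inferInstance) (by
      intro u hu
      rw [nhds_inf, tendsto_inf]
      refine ⟨hS.1 u hu, ?_⟩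
      rw [nhds_induced, tendsto_comap_iff, map_one]
      exact Phi_seq u (hS.1 u hu))
  have h2 : Continuous Phi := continuous_iff_le_induced.2 (h1.trans inf_le_right)
  have h3 := (h2.tendsto 1).comp chi_tendsto
  have h4 : Phi ∘ chi = fun _ => Circle.exp Real.pi := funext Phi_chi
  rw [h4] at h3
  have h6 : Circle.exp Real.pi = 1 :=
    (tendsto_nhds_unique tendsto_const_nhds h3).trans (map_one Phi)
  have h5 := congrArg (fun z : Circle => (z : ℂ)) h6
  simp only [Circle.coe_exp, Complex.exp_pi_mul_I, Circle.coe_one] at h5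
  norm_num at h5

end Pool.Agent.H2.RS
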