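import Mathlib

set_option autoImplicit false

namespace Pool.Agent.H2.Rigid

open Filter Topology MeasureTheory Set
open scoped symmDiff ENNReal

noncomputable section
open Classical

abbrev Z2 : Type := ℤ_[2]

instance : MeasurableSpace Z2 := borel _
instance : BorelSpace Z2 := ⟨rfl⟩

/-- even valuation -/
def ev (x : Z2) : Prop := ∃ k : ℕ, ‖x‖ = (2 : ℝ) ^ (-((2 * k : ℕ) : ℤ))

lemma np (m : ℕ) : ‖(2 : Z2) ^ m‖ = (2 : ℝ) ^ (-(m : ℤ)) := by
  have := PadicInt.norm_p_pow (p := 2) m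
  simpa using this

lemma ev_congr {x y : Z2} (h : ‖x‖ = ‖y‖) : ev x ↔ ev y := by unfold ev; rw [h]

lemma ev_pow (m : ℕ) : ev ((2 : Z2) ^ m) ↔ Even m := by
  unfold ev
  rw [np]
  constructor
  · rintro ⟨k, hk⟩
    have := zpow_right_injective₀ (by norm_num : (0 : ℝ) < 2) (by norm_num) hk
    exact ⟨k, by omega⟩
  · rintro ⟨k, rfl⟩
    exact ⟨k, by rw [two_mul]⟩

lemma norm_add_of_lt {x c : Z2} (h : ‖c‖ < ‖x‖) : ‖x + c‖ = ‖x‖ := by
  rw [PadicInt.norm_add_eq_max_of_ne h.ne', max_eq_left h.le]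

lemma ev_of_norm_one {x : Z2} (h : ‖x‖ = 1) : ev x := ⟨0, by simpa using h⟩

lemma norm_succ {x : Z2} (h : ¬ ev x) : ‖x + 1‖ = 1 := by
  have h1 : ‖x‖ < 1 := lt_of_le_of_ne (PadicInt.norm_le_one x) (fun h1 => h (ev_of_norm_one h1))
  rw [add_comm, norm_add_of_lt (by simpa using h1), norm_one]

lemma meas_ev : MeasurableSet {x : Z2 | ev x} := by
  have : {x : Z2 | ev x} = ⋃ k : ℕ, {x : Z2 | ‖x‖ = (2 : ℝ) ^ (-((2 * k : ℕ) : ℤ))} := by
    ext x; simp [ev]
  rw [this]
  exact MeasurableSet.iUnion fun k => (isClosed_eq continuous_norm continuous_const).measurableSet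

def XS : Set (Z2 × (ℤ → Bool)) := {z | ∀ n : ℤ, z.1 + n ≠ 0 → (z.2 n = true ↔ ev (z.1 + n))}

lemma XS_closed : IsClosed XS := by
  rw [← isOpen_compl_iff, isOpen_iff_mem_nhds]
  intro z hz
  simp only [XS, mem_compl_iff, mem_setOf_eq, not_forall] at hz
  obtain ⟨n, hn, h⟩ := hz
  have h1 : ∀ᶠ w : Z2 × (ℤ → Bool) in 𝓝 z, w.2 n = z.2 n := by
    have : Continuous (fun w : Z2 × (ℤ → Bool) => w.2 n) := by fun_prop
    exact this.continuousAt.eventually (p := fun b => b = z.2 n) (by simp)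
  have h2 : ∀ᶠ w : Z2 × (ℤ → Bool) in 𝓝 z, ‖w.1 - z.1‖ < ‖z.1 + n‖ := by
    have : Continuous (fun w : Z2 × (ℤ → Bool) => ‖w.1 - z.1‖) := by fun_prop
    exact this.continuousAt.eventually_lt continuousAt_const (by simpa using hn)
  filter_upwards [h1, h2] with w h1 h2 hw
  have e : ‖w.1 + n‖ = ‖z.1 + n‖ := by
    rw [← norm_add_of_lt h2]; congr 1; ring
  apply h
  rw [← h1, ← ev_congr e]
  apply hw
  rw [← norm_pos_iff, e, norm_pos_iff]; exact hn

abbrev XX : Type := XS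

instance : CompactSpace XX := isCompact_iff_compactSpace.1 XS_closed.isCompact

def sft (m : ℤ) (z : XX) : XX := ⟨(z.1.1 + m, fun n => z.1.2 (n + m)), by
  intro n hn
  have e : z.1.1 + m + n = z.1.1 + ((n + m : ℤ) : Z2) := by push_cast; ring
  simp only [e] at hn ⊢
  exact z.2 _ hn⟩

lemma sft_cont (m : ℤ) : Continuous (sft m) := by
  apply Continuous.subtype_mk
  fun_prop

lemma sft_add (m k : ℤ) (z : XX) : sft m (sft k z) = sft (m + k) z := by
  apply Subtype.ext
  simp only [sft]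
  ext
  · push_cast; ring
  · simp [add_assoc]

lemma sft_zero (z : XX) : sft 0 z = z := by
  apply Subtype.ext
  simp [sft]

def TT : XX ≃ₜ XX where
  toFun := sft 1
  invFun := sft (-1)
  left_inv z := by rw [sft_add]; exact sft_zero z
  right_inv z := by rw [sft_add]; exact sft_zero z
  continuous_toFun := sft_cont _
  continuous_invFun := sft_cont _

lemma TT_iter (m : ℕ) (z : XX) : (⇑TT)^[m] z = sft m z := by
  induction m with
  | zero => exact (sft_zero z).symm
  | succ m ih =>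
    rw [Function.iterate_succ_apply', ih]
    change sft 1 _ = _
    rw [sft_add]; congr 1; push_cast; ring

lemma tend_pow : Tendsto (fun m : ℕ => (2 : ℝ) ^ (-(m : ℤ))) atTop (𝓝 0) := by
  have := tendsto_pow_atTop_nhds_zero_of_lt_one (r := (2 : ℝ)⁻¹) (by norm_num) (by norm_num)
  simpa using this

lemma approx (z w : XX) :
    ∃ m : ℕ → ℕ, Tendsto (fun j => sft (m j) z) atTop (𝓝 w) ∧ ∀ j, sft (m j) z ≠ w := by
  obtain ⟨e, he⟩ : ∃ e : ℕ, ∀ n : ℤ, w.1.1 + n = 0 → (w.1.2 n = true ↔ Even e) := by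
    by_cases h : ∃ n : ℤ, w.1.1 + n = 0
    · obtain ⟨n0, h0⟩ := h
      refine ⟨if w.1.2 n0 = true then 0 else 1, fun n hn => ?_⟩
      have : n = n0 := by
        have : (n : Z2) = n0 := add_left_cancel (hn.trans h0.symm)
        exact_mod_cast this
      subst this
      split_ifs with h <;> simp [h]
    · exact ⟨0, fun n hn => absurd ⟨n, hn⟩ h⟩
  have hm : ∀ j : ℕ, ∃ m : ℕ, ‖z.1.1 + m - w.1.1‖ = ‖(2 : Z2) ^ (2 * j + e)‖ := by
    intro j
    obtain ⟨m, hm⟩ := PadicInt.denseRange_natCast.exists_dist_lt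
      (w.1.1 + (2 : Z2) ^ (2 * j + e) - z.1.1) (ε := ‖(2 : Z2) ^ (2 * j + e)‖) (by rw [np]; positivity)
    refine ⟨m, ?_⟩
    rw [dist_comm, dist_eq_norm] at hm
    rw [← norm_add_of_lt hm]; congr 1; ring
  choose m hm using hm
  have ht : Tendsto (fun j => ‖z.1.1 + m j - w.1.1‖) atTop (𝓝 0) := by
    simp only [hm, np]
    exact tend_pow.comp (tendsto_atTop_mono (fun j => by simp only [id]; omega) tendsto_id)
  have hpos : ∀ j, z.1.1 + m j - w.1.1 ≠ 0 := by
    intro j; rw [← norm_pos_iff, hm, np]; positivity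
  refine ⟨m, ?_, fun j h => hpos j ?_⟩
  · rw [tendsto_subtype_rng]
    refine Tendsto.prodMk_nhds ?_ ?_
    · rw [tendsto_iff_norm_sub_tendsto_zero]
      simpa [sft] using ht
    · rw [tendsto_pi_nhds]
      intro n
      refine tendsto_const_nhds.congr' ?_
      by_cases hn : w.1.1 + n = 0
      · refine Eventually.of_forall fun j => ?_
        have e1 : (sft (m j) z).1.1 + n = z.1.1 + m j - w.1.1 := by
          simp only [sft]; push_cast; linear_combination hn
        have := (sft (m j) z).2 n (by rw [e1]; exact hpos j)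
        rw [e1, ev_congr (hm j), ev_pow] at this
        rw [Bool.eq_iff_iff, he n hn]
        refine Iff.trans ?_ this.symm
        simp [parity_simps]
      · filter_upwards [ht.eventually_lt_const (norm_pos_iff.2 hn)] with j hj
        have e1 : ‖(sft (m j) z).1.1 + n‖ = ‖w.1.1 + n‖ := by
          rw [← norm_add_of_lt hj]; simp only [sft]; congr 1; push_cast; ring
        have := (sft (m j) z).2 n (by rw [← norm_pos_iff, e1, norm_pos_iff]; exact hn)
        rw [Bool.eq_iff_iff, w.2 n hn, ← ev_congr e1]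
        exact this.symm
  · rw [← h]; simp [sft]

lemma no_isolated (w : XX) : (𝓝[≠] w).NeBot := by
  obtain ⟨m, h1, h2⟩ := approx w w
  exact (tendsto_nhdsWithin_iff.2 ⟨h1, Eventually.of_forall h2⟩).neBot

lemma minimal (z : XX) : Dense {y : XX | ∃ n : ℕ, (⇑TT)^[n] z = y ∨ (⇑TT.symm)^[n] z = y} := by
  intro w
  obtain ⟨m, h1, -⟩ := approx z w
  exact mem_closure_of_tendsto h1 (Eventually.of_forall fun j => ⟨m j, Or.inl (TT_iter _ _)⟩)

def sec (x : Z2) : XX := ⟨(x, fun n => decide (ev (x + n))), fun n _ => by simp⟩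

lemma sec_meas : Measurable sec := by
  apply Measurable.subtype_mk
  refine measurable_id.prodMk (measurable_pi_lambda _ fun n => ?_)
  apply measurable_to_bool
  have : (fun x : Z2 => decide (ev (x + n))) ⁻¹' {true} = (fun x => x + (n : Z2)) ⁻¹' {x | ev x} := by
    ext x; simp
  rw [this]
  exact (measurable_add_const (n : Z2)) meas_ev

lemma sft_sec (m : ℤ) (x : Z2) : sft m (sec x) = sec (x + m) := by
  apply Subtype.ext
  simp only [sft, sec]
  ext n
  · rfl
  · simp only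
    rw [show x + ((n + m : ℤ) : Z2) = x + m + n by push_cast; ring]

def nu : Measure Z2 := Measure.addHaarMeasure ⊤

instance : nu.IsAddHaarMeasure := by unfold nu; infer_instance

instance : IsProbabilityMeasure nu := ⟨by
  have := Measure.addHaarMeasure_self (K₀ := (⊤ : TopologicalSpace.PositiveCompacts Z2))
  simpa [nu] using this⟩

def mu : Measure XX := nu.map sec

instance : IsProbabilityMeasure mu := Measure.isProbabilityMeasure_map sec_meas.aemeasurable

lemma mp : MeasurePreserving (⇑TT) mu mu := by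
  have hT : Measurable (⇑TT) := TT.continuous.measurable
  refine ⟨hT, ?_⟩
  rw [mu, Measure.map_map hT sec_meas]
  have : ⇑TT ∘ sec = sec ∘ (fun x => x + 1) := by
    ext1 x
    have := sft_sec 1 x
    rw [Int.cast_one] at this
    exact this
  rw [this, ← Measure.map_map sec_meas (measurable_add_const 1), map_add_right_eq_self]

lemma rigid : ∃ n : ℕ → ℕ, StrictMono n ∧ (∀ k, 0 < n k) ∧
    ∀ B : Set XX, MeasurableSet B →
      Tendsto (fun k => mu (((⇑TT)^[n k] ⁻¹' B) ∆ B)) atTop (𝓝 0) := by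
  refine ⟨fun k => 2 ^ k, fun a b h => Nat.pow_lt_pow_right (by norm_num) h, fun k => by positivity,
    fun B hB => ?_⟩
  let F : C(Z2 × Z2, Z2) := ⟨fun p => p.2 + p.1, by fun_prop⟩
  have h0 : Tendsto (fun k : ℕ => (2 : Z2) ^ k) atTop (𝓝 0) := by
    rw [tendsto_zero_iff_norm_tendsto_zero]
    simp only [np]; exact tend_pow
  have h1 := (F.curry.continuous.tendsto 0).comp h0
  have h2 := tendsto_measure_symmDiff_preimage_nhds_zero (μ := nu) (ν := nu) (s := sec ⁻¹' B) h1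
    (Eventually.of_forall fun k => measurePreserving_add_right nu _)
    (measurePreserving_add_right nu _) (sec_meas hB).nullMeasurableSet (measure_ne_top _ _)
  refine h2.congr fun k => ?_
  rw [mu, Measure.map_apply sec_meas
    (((TT.continuous.measurable.iterate _) hB).symmDiff hB), preimage_symmDiff]
  congr 2
  · ext x
    simp only [mem_preimage, TT_iter, sft_sec]
    simp [F]
  · ext x
    simp [F]

def AA : Set XX := {z | z.1.2 0 = true}

lemma AA_clopen : IsClopen AA := by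
  have : Continuous (fun z : XX => z.1.2 0) := by fun_prop
  exact (isClopen_discrete {true}).preimage this

lemma sec_mem (x : Z2) : sec x ∈ AA ↔ ev x := by simp [AA, sec]

def SS (z : XX) : XX := if sft 1 z ∈ AA then sft 1 z else sft 2 z

lemma SS_spec (z : XX) : ∃ r : ℕ, 0 < r ∧ SS z = (⇑TT)^[r] z ∧ (⇑TT)^[r] z ∈ AA ∧
    ∀ j : ℕ, 0 < j → j < r → (⇑TT)^[j] z ∉ AA := by
  unfold SS
  split_ifs with h
  · exact ⟨1, one_pos, rfl, h, fun j h1 h2 => by omega⟩
  · refine ⟨2, two_pos, by rw [TT_iter]; rfl, ?_, fun j h1 h2 => ?_⟩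
    · rw [TT_iter]
      have hne : ¬ ev (z.1.1 + (1 : ℤ)) := by
        intro he
        by_cases h0 : z.1.1 + (1 : ℤ) = 0
        · rw [h0] at he
          obtain ⟨k, hk⟩ := he
          have : (0 : ℝ) < (2 : ℝ) ^ (-((2 * k : ℕ) : ℤ)) := by positivity
          rw [← hk] at this; simp at this
        · exact h ((z.2 1 h0).2 he)
      have h2 : ‖z.1.1 + (2 : ℤ)‖ = 1 := by
        rw [← norm_succ hne]; congr 1; push_cast; ring
      exact (z.2 2 (by rw [← norm_pos_iff, h2]; exact one_pos)).2 (ev_of_norm_one h2)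
    · obtain rfl : j = 1 := by omega
      exact h

/-- return times -/
def rt (a : ℕ → Prop) : ℕ → ℕ
  | 0 => 0
  | m + 1 => if a (rt a m + 1) then rt a m + 1 else rt a m + 2

lemma SS_iter (x : Z2) (m : ℕ) : SS^[m] (sec x) = sec (x + rt (fun i => ev (x + i)) m) := by
  induction m with
  | zero => simp [rt]
  | succ m ih =>
    rw [Function.iterate_succ_apply', ih, SS, sft_sec, sft_sec, sec_mem, rt]
    have e : x + (rt (fun i => ev (x + i)) m : Z2) + ((1 : ℤ) : Z2) =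
        x + ((rt (fun i => ev (x + i)) m + 1 : ℕ) : Z2) := by push_cast; ring
    rw [e]
    split_ifs with h
    · rfl
    · congr 1; push_cast; ring

lemma rt_bd (a : ℕ → Prop) (m : ℕ) : m ≤ rt a m ∧ rt a m ≤ 2 * m := by
  induction m with
  | zero => simp [rt]
  | succ m ih => rw [rt]; split_ifs <;> omega

lemma rt_cmp (a a' : ℕ → Prop) (p n : ℕ) (hp : 0 < p) (hpn : p ≤ n) (h1 : a p) (h2 : ¬ a' p)
    (h3 : ∀ i, ¬ a' i → a' (i + 1)) (h4 : ∀ i, i ≤ 2 * n + 3 → i ≠ p → (a i ↔ a' i)) :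
    rt a' n = rt a n + 1 ∨ rt a' n = rt a n + 2 := by
  have key : ∀ m ≤ n, (rt a m = rt a' m ∧ rt a m < p) ∨ (rt a' m = rt a (m + 1) ∧ p < rt a' m) := by
    intro m hm
    induction m with
    | zero => left; simp [rt, hp]
    | succ m ih =>
      have b1 := rt_bd a m
      have b2 := rt_bd a (m + 1)
      rcases ih (by omega) with ⟨e, h⟩ | ⟨e, h⟩
      · by_cases hq : rt a m + 1 = p
        · right
          have e1 : rt a (m + 1) = p := by rw [rt, hq, if_pos h1]
          have e2 : rt a' (m + 1) = p + 1 := by rw [rt, ← e, hq, if_neg h2]; omega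
          rw [e2, rt, e1, if_pos ((h4 _ (by omega) (by omega)).2 (h3 _ h2))]
          omega
        · left
          have := h4 _ (by omega) hq
          rw [rt, rt, ← e]
          by_cases h5 : a (rt a m + 1)
          · rw [if_pos h5, if_pos (this.1 h5)]; omega
          · have h6 := mt this.2 h5
            rw [if_neg h5, if_neg h6]
            have h7 := h3 _ h6
            have : rt a m + 1 + 1 ≠ p := fun h8 => h2 (h8 ▸ h7)
            omega
      · right
        have := h4 (rt a (m + 1) + 1) (by omega) (by omega)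
        rw [rt, rt.eq_2 a (m + 1), e]
        by_cases h5 : a (rt a (m + 1) + 1)
        · rw [if_pos h5, if_pos (this.1 h5)]; omega
        · rw [if_neg h5, if_neg (mt this.2 h5)]; omega
  have b1 := rt_bd a n
  rcases key n le_rfl with ⟨_, h⟩ | ⟨e, _⟩
  · omega
  · rw [e, rt]; split_ifs <;> simp

def ball' (c : Z2) (m : ℕ) : Set Z2 := {x | ‖x - c‖ ≤ (2 : ℝ) ^ (-(m : ℤ))}

lemma ball_meas (c : Z2) (m : ℕ) : MeasurableSet (ball' c m) :=
  (isClosed_le (by fun_prop) continuous_const).measurableSet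

lemma nu_ball (c : Z2) (m : ℕ) : nu (ball' c m) = nu (ball' 0 m) := by
  have : ball' c m = (fun x => x + (-c)) ⁻¹' ball' 0 m := by
    ext x; simp [ball', sub_eq_add_neg]
  rw [this, measure_preimage_add_right]

lemma nu_ball_ge (m : ℕ) : 1 ≤ ((2 ^ m : ℕ) : ℝ≥0∞) * nu (ball' 0 m) := by
  have h : (univ : Set Z2) ⊆ ⋃ j ∈ Finset.range (2 ^ m), ball' j m := by
    intro x _
    simp only [mem_iUnion]
    refine ⟨x.appr m, Finset.mem_range.2 (PadicInt.appr_lt x m), ?_⟩
    have := (PadicInt.norm_le_pow_iff_mem_span_pow _ _).2 (PadicInt.appr_spec m x)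
    simpa [ball'] using this
  have h2 := (measure_mono (μ := nu) h).trans (measure_biUnion_finset_le _ _)
  simpa [nu_ball] using h2

lemma norm_int_gt (t : ℤ) (m : ℕ) (h0 : t ≠ 0) (h1 : |t| < 2 ^ m) :
    (2 : ℝ) ^ (-(m : ℤ)) < ‖(t : Z2)‖ := by
  by_contra h
  have := (PadicInt.norm_int_le_pow_iff_dvd (p := 2) (k := t) (n := m)).1 (by simpa using h)
  have h2 := Int.le_of_dvd (abs_pos.2 h0) ((dvd_abs _ _).2 this)
  push_cast at h2
  omega

lemma ultra {x y : Z2} {r : ℝ} (hx : ‖x‖ ≤ r) (hy : ‖y‖ ≤ r) : ‖x + y‖ ≤ r :=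
  (PadicInt.nonarchimedean x y).trans (max_le hx hy)

lemma ultra' {x y : Z2} {r : ℝ} (hx : ‖x‖ ≤ r) (hy : ‖y‖ ≤ r) : ‖x - y‖ ≤ r := by
  rw [sub_eq_add_neg]; exact ultra hx (by simpa using hy)

lemma zp_le {a b : ℕ} (h : a ≤ b) : (2 : ℝ) ^ (-(b : ℤ)) ≤ (2 : ℝ) ^ (-(a : ℤ)) :=
  zpow_le_zpow_right₀ (by norm_num) (by omega)

lemma zp_lt {a b : ℕ} (h : a < b) : (2 : ℝ) ^ (-(b : ℤ)) < (2 : ℝ) ^ (-(a : ℤ)) :=
  zpow_lt_zpow_right₀ (by norm_num) (by omega)

def BB : Set XX := {z | z.1.1 ∈ ball' 1 2}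

lemma BB_meas : MeasurableSet BB := by
  have : Continuous (fun z : XX => z.1.1) := by fun_prop
  exact this.measurable (ball_meas 1 2)

lemma BB_sub : BB ⊆ AA := by
  intro z hz
  have h1 : ‖z.1.1 - 1‖ < ‖(1 : Z2)‖ := by
    refine lt_of_le_of_lt hz ?_
    rw [norm_one]; norm_num
  have h2 : ‖z.1.1 + (0 : ℤ)‖ = 1 := by
    have := norm_add_of_lt h1
    simpa using this
  exact (z.2 0 (by rw [← norm_pos_iff, h2]; exact one_pos)).2 (ev_of_norm_one h2)

lemma pair (n k i : ℕ) (hk : 2 * n + 3 < 2 ^ (2 * k + 2)) (hi : 4 * i + 3 ≤ n) (x : Z2)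
    (hx : x ∈ ball' (2 ^ (2 * k + 2) - ((4 * i + 3 : ℕ) : Z2)) (2 * k + 4)) :
    sec x ∈ (AA ∩ SS^[n] ⁻¹' BB) ∆ BB ∨ sec (x + 2 ^ (2 * k + 2)) ∈ (AA ∩ SS^[n] ⁻¹' BB) ∆ BB := by
  set c : Z2 := 2 ^ (2 * k + 2) with hc
  have hcn : ‖c‖ = (2 : ℝ) ^ (-((2 * k + 2 : ℕ) : ℤ)) := np _
  have hx' : ‖x - (c - ((4 * i + 3 : ℕ) : Z2))‖ ≤ (2 : ℝ) ^ (-((2 * k + 4 : ℕ) : ℤ)) := hx
  have hc2 : ‖c‖ ≤ (2 : ℝ) ^ (-((2 : ℕ) : ℤ)) := hcn ▸ zp_le (by omega)
  have hB : ‖x - 1‖ ≤ (2 : ℝ) ^ (-((2 : ℕ) : ℤ)) := by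
    have e : x - 1 = (x - (c - ((4 * i + 3 : ℕ) : Z2))) + c - 2 ^ 2 * ((i + 1 : ℕ) : Z2) := by
      push_cast; ring
    rw [e]
    refine ultra' (ultra (hx'.trans (zp_le (by omega))) hc2) ?_
    rw [norm_mul, np]
    exact mul_le_of_le_one_right (by positivity) (PadicInt.norm_le_one _)
  have hB' : ‖x + c - 1‖ ≤ (2 : ℝ) ^ (-((2 : ℕ) : ℤ)) := by
    rw [show x + c - 1 = x - 1 + c by ring]; exact ultra hB hc2
  have hp : ‖x + ((4 * i + 3 : ℕ) : Z2)‖ = ‖c‖ := by
    rw [← norm_add_of_lt (x := c) (hx'.trans_lt (hcn ▸ zp_lt (by omega)))]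
    congr 1; ring
  have hp' : ‖x + c + ((4 * i + 3 : ℕ) : Z2)‖ = ‖(2 : Z2) ^ (2 * k + 3)‖ := by
    rw [← norm_add_of_lt (x := (2 : Z2) ^ (2 * k + 3)) (hx'.trans_lt (by rw [np]; exact zp_lt (by omega)))]
    congr 1; rw [hc]; ring
  have hcmp := rt_cmp (fun j => ev (x + j)) (fun j => ev (x + c + j)) (4 * i + 3) n (by omega) hi
    (by rw [ev_congr hp, hc, ev_pow]; simp [parity_simps])
    (by rw [ev_congr hp', ev_pow]; simp [parity_simps])
    (fun j hj => ev_of_norm_one (by rw [← norm_succ hj]; congr 1; push_cast; ring))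
    (fun j hj hne => by
      have h1 := norm_int_gt ((j : ℤ) - (4 * i + 3 : ℕ)) (2 * k + 2) (by omega) (by
        have : ((2 * n + 3 : ℕ) : ℤ) < 2 ^ (2 * k + 2) := by exact_mod_cast hk
        rw [abs_lt]; omega)
      rw [← hcn] at h1
      have h2 : ‖x + j‖ = ‖(((j : ℤ) - (4 * i + 3 : ℕ) : ℤ) : Z2)‖ := by
        have h1' := h1
        rw [← hp] at h1'
        rw [← norm_add_of_lt h1']; congr 1; push_cast; ring
      apply ev_congr
      rw [← h2] at h1
      rw [← norm_add_of_lt h1]; congr 1; ring)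
  by_contra hcon
  rw [not_or] at hcon
  have g1 : SS^[n] (sec x) ∈ BB := by
    by_contra h; exact hcon.1 (Or.inr ⟨hB, fun h' => h h'.2⟩)
  have g2 : SS^[n] (sec (x + c)) ∈ BB := by
    by_contra h; exact hcon.2 (Or.inr ⟨hB', fun h' => h h'.2⟩)
  rw [SS_iter] at g1 g2
  have g3 := ultra' (ultra' g2 g1) hc2
  simp only [sec] at g3
  rcases hcmp with e | e
  · rw [e] at g3
    have := norm_int_gt 1 2 (by norm_num) (by norm_num)
    refine absurd (lt_of_lt_of_le this (le_trans (le_of_eq ?_) g3)) (lt_irrefl _)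
    congr 1; push_cast; ring
  · rw [e] at g3
    have := norm_int_gt 2 2 (by norm_num) (by norm_num)
    refine absurd (lt_of_lt_of_le this (le_trans (le_of_eq ?_) g3)) (lt_irrefl _)
    congr 1; push_cast; ring

lemma lower (n : ℕ) (hn : 4 ≤ n) : 1 ≤ 768 * mu ((AA ∩ SS^[n] ⁻¹' BB) ∆ BB) := by
  obtain ⟨k, hk1, hk2⟩ := exists_nat_pow_near (x := 2 * n + 3) (y := 4) (by omega) (by norm_num)
  have e4 : ∀ j : ℕ, 4 ^ j = 2 ^ (2 * j) := fun j => by rw [pow_mul]; norm_num
  rw [e4] at hk1 hk2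
  rw [show 2 * (k + 1) = 2 * k + 2 by ring] at hk2
  set D := (AA ∩ SS^[n] ⁻¹' BB) ∆ BB
  set q := n / 4 with hq
  have h1 : ⋃ i ∈ Finset.range q, ball' (2 ^ (2 * k + 2) - ((4 * i + 3 : ℕ) : Z2)) (2 * k + 4) ⊆
      sec ⁻¹' D ∪ (fun x => x + 2 ^ (2 * k + 2)) ⁻¹' (sec ⁻¹' D) := by
    intro x hx
    simp only [mem_iUnion, Finset.mem_range] at hx
    obtain ⟨i, hi, hx⟩ := hx
    exact pair n k i hk2 (by omega) x hx
  have h2 := (measure_mono (μ := nu) h1).trans (measure_union_le _ _)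
  rw [measure_preimage_add_right, measure_biUnion_finset _ (fun i _ => ball_meas _ _)] at h2
  · simp only [nu_ball _ (2 * k + 4), Finset.sum_const, Finset.card_range, nsmul_eq_mul] at h2
    have h3 : nu (sec ⁻¹' D) ≤ mu D := Measure.le_map_apply sec_meas.aemeasurable D
    have h4 := nu_ball_ge (2 * k + 4)
    have h5 : ((2 ^ (2 * k + 4) : ℕ) : ℝ≥0∞) ≤ 384 * (q : ℝ≥0∞) := by
      have : 2 ^ (2 * k + 4) ≤ 384 * q := by rw [pow_add]; omega
      exact_mod_cast this
    calc 1 ≤ _ := h4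
      _ ≤ 384 * (q : ℝ≥0∞) * nu (ball' 0 (2 * k + 4)) := by gcongr
      _ = 384 * ((q : ℝ≥0∞) * nu (ball' 0 (2 * k + 4))) := by ring
      _ ≤ 384 * (mu D + mu D) := by gcongr; exact h2.trans (add_le_add h3 h3)
      _ = 768 * mu D := by ring
  · intro i hi j hj hij
    rw [Function.onFun, Set.disjoint_left]
    intro x hx hy
    have h6 := ultra' hx hy
    simp only [Finset.coe_range, mem_Iio] at hi hj
    have h7 := norm_int_gt (((4 * i + 3 : ℕ) : ℤ) - (4 * j + 3 : ℕ)) (2 * k + 4) (by omega) (by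
      have : ((2 * n + 3 : ℕ) : ℤ) < 2 ^ (2 * k + 2) := by exact_mod_cast hk2
      rw [abs_lt, show 2 * k + 4 = 2 * k + 2 + 2 by ring, pow_add]; omega)
    refine absurd (lt_of_lt_of_le h7 (le_trans (le_of_eq ?_) h6)) (lt_irrefl _)
    congr 1; push_cast; ring

end
end Pool.Agent.H2.Rigid
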