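import Mathlib

set_option autoImplicit false

namespace Pool.Agent.H2.Root

open Complex Set Filter Topology

/-- second derivative -/
noncomputable def l2 (f : ℂ → ℂ) : ℂ → ℂ := deriv (deriv f)

/-- second derivative minus a scalar -/
noncomputable def T (c : ℂ) (f : ℂ → ℂ) : ℂ → ℂ := fun z => l2 f z - c * f z

section
variable {U : Set ℂ} (hU : IsOpen U) (hc : IsPreconnected U)
include hU

theorem deriv_eqOn {f g : ℂ → ℂ} (h : EqOn f g U) : EqOn (deriv f) (deriv g) U := fun _ hz =>
  (h.eventuallyEq_of_mem (hU.mem_nhds hz)).deriv_eq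

theorem l2_eqOn {f g : ℂ → ℂ} (h : EqOn f g U) (q : ℕ) : EqOn (l2^[q] f) (l2^[q] g) U := by
  induction q generalizing f g with
  | zero => exact h
  | succ q ih => exact ih (deriv_eqOn hU (deriv_eqOn hU h))

theorem T_eqOn (c : ℂ) {f g : ℂ → ℂ} (h : EqOn f g U) (q : ℕ) :
    EqOn ((T c)^[q] f) ((T c)^[q] g) U := by
  induction q generalizing f g with
  | zero => exact h
  | succ q ih =>
    refine ih fun z hz => ?_
    simp only [T, l2]; rw [deriv_eqOn hU (deriv_eqOn hU h) hz, h hz]

include hc

theorem first (μ : ℂ) (f H : ℂ → ℂ) (hf : DifferentiableOn ℂ f U) (hH : Differentiable ℂ H)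
    (h : ∀ z ∈ U, deriv f z - μ * f z = H z) : ∃ F, Differentiable ℂ F ∧ EqOn f F U := by
  obtain ⟨P, hP⟩ := (show Differentiable ℂ fun z => exp (-μ * z) * H z by fun_prop).isExactOn_univ
  have hd : ∀ z ∈ U, HasDerivAt (fun z => exp (-μ * z) * f z - P z) 0 z := by
    intro z hz
    have h1 := (hf.differentiableAt (hU.mem_nhds hz)).hasDerivAt
    have h2 := (((hasDerivAt_id z).const_mul (-μ)).cexp.mul h1).sub (hP z trivial)
    refine h2.congr_deriv ?_
    simp only [← h z hz]; simp; ring
  obtain ⟨C, hC⟩ := hU.exists_is_const_of_deriv_eq_zero hc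
    (fun z hz => (hd z hz).differentiableAt.differentiableWithinAt) fun z hz => (hd z hz).deriv
  have hPd : Differentiable ℂ P := fun z => (hP z trivial).differentiableAt
  refine ⟨fun z => exp (μ * z) * (C + P z), by fun_prop, fun z hz => ?_⟩
  simp only [← hC z hz, sub_add_cancel, ← mul_assoc, ← exp_add]; simp

theorem second (c : ℂ) (f H : ℂ → ℂ) (hf : DifferentiableOn ℂ f U) (hH : Differentiable ℂ H)
    (h : EqOn (T c f) H U) : ∃ F, Differentiable ℂ F ∧ EqOn f F U := by
  obtain ⟨μ, hμ⟩ := IsAlgClosed.exists_pow_nat_eq c two_pos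
  have hf' := hf.deriv hU
  obtain ⟨G, hG, e⟩ := first hU hc (-μ) (fun z => deriv f z - μ * f z) H
    (hf'.sub (hf.const_mul μ)) hH (by
      intro z hz
      have h1 := (hf.differentiableAt (hU.mem_nhds hz)).hasDerivAt
      have h2 := (hf'.differentiableAt (hU.mem_nhds hz)).hasDerivAt
      rw [(h2.fun_sub (h1.const_mul μ)).deriv, ← h hz, T, l2, ← hμ]; ring)
  exact first hU hc μ f G hf hG e

theorem extend (c : ℂ) (m : ℕ) (f : ℂ → ℂ) (hf : DifferentiableOn ℂ f U)
    (h : EqOn ((T c)^[m] f) 0 U) : ∃ F, Differentiable ℂ F ∧ EqOn f F U := by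
  induction m generalizing f with
  | zero => exact ⟨0, differentiable_zero, h⟩
  | succ m ih =>
    obtain ⟨G, hG, e⟩ := ih (T c f) (((hf.deriv hU).deriv hU).sub (hf.const_mul c)) h
    exact second hU hc c f G hf hG e

end

theorem uniq1 (μ a : ℂ) (G : ℂ → ℂ) (hG : Differentiable ℂ G) (h : ∀ z, deriv G z = μ * G z)
    (h0 : G a = 0) (z : ℂ) : G z = 0 := by
  have hd : ∀ z, HasDerivAt (fun z => exp (-μ * z) * G z) 0 z := by
    intro z
    refine (((hasDerivAt_id z).const_mul (-μ)).cexp.mul (hG z).hasDerivAt).congr_deriv ?_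
    rw [h]; simp; ring
  have := is_const_of_deriv_eq_zero (fun z => (hd z).differentiableAt) (fun z => (hd z).deriv) z a
  simpa [h0] using this

theorem uniq2 (c a : ℂ) (G : ℂ → ℂ) (hG : Differentiable ℂ G) (h : ∀ z, T c G z = 0)
    (h0 : G a = 0) (h1 : deriv G a = 0) (z : ℂ) : G z = 0 := by
  obtain ⟨μ, hμ⟩ := IsAlgClosed.exists_pow_nat_eq c two_pos
  have k := uniq1 (-μ) a (fun z => deriv G z - μ * G z) (hG.deriv.sub (hG.const_mul μ)) (by
    intro z
    have := h z
    rw [T, l2, ← hμ] at this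
    rw [((hG.deriv z).hasDerivAt.fun_sub ((hG z).hasDerivAt.const_mul μ)).deriv]
    linear_combination this) (by simp [h0, h1])
  exact uniq1 μ a G hG (fun z => sub_eq_zero.1 (k z)) h0 z

theorem l2_diff {F : ℂ → ℂ} (hF : Differentiable ℂ F) : Differentiable ℂ (l2 F) := hF.deriv.deriv

theorem l2_sub {F G : ℂ → ℂ} (hF : Differentiable ℂ F) (hG : Differentiable ℂ G) (c : ℂ) (q : ℕ) :
    l2^[q] (fun z => F z - c * G z) = fun z => l2^[q] F z - c * l2^[q] G z := by
  have d : ∀ {F G : ℂ → ℂ}, Differentiable ℂ F → Differentiable ℂ G →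
      deriv (fun z => F z - c * G z) = fun z => deriv F z - c * deriv G z := fun hF hG =>
    funext fun z => ((hF z).hasDerivAt.sub ((hG z).hasDerivAt.const_mul c)).deriv
  induction q generalizing F G with
  | zero => rfl
  | succ q ih =>
    rw [Function.iterate_succ_apply, l2, d hF hG, d hF.deriv hG.deriv]
    exact ih (l2_diff hF) (l2_diff hG)

theorem deriv_refl (a : ℂ) (F : ℂ → ℂ) :
    deriv (fun z => F (a - z)) = fun z => -deriv F (a - z) := funext fun _ => deriv_comp_const_sub ..

theorem l2_refl (a : ℂ) (F : ℂ → ℂ) : l2 (fun z => F (a - z)) = fun z => l2 F (a - z) := by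
  rw [l2, deriv_refl]
  funext z
  rw [deriv.fun_neg, deriv_comp_const_sub, neg_neg, l2]

theorem odd_of (c a : ℂ) (m : ℕ) (F : ℂ → ℂ) (hF : Differentiable ℂ F)
    (h : ∀ z, (T c)^[m] F z = 0) (h0 : ∀ q < m, l2^[q] F a = 0) (z : ℂ) :
    F (2 * a - z) = -F z := by
  induction m generalizing F z with
  | zero => have := h z; have := h (2 * a - z); simp_all
  | succ m ih =>
    have i := ih (T c F) ((l2_diff hF).sub (hF.const_mul c)) h (by
      intro q hq
      show l2^[q] (fun z => l2 F z - c * F z) a = 0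
      rw [l2_sub (l2_diff hF) hF, ← Function.iterate_succ_apply]
      simp only [h0 _ (Nat.succ_lt_succ hq), h0 q (by omega)]; simp)
    have hR : Differentiable ℂ fun z => F (2 * a - z) := by fun_prop
    have e : 2 * a - a = a := by ring
    have := uniq2 c a (fun z => F (2 * a - z) - (-1) * F z) (by fun_prop) (by
      intro w
      have h1 := congrFun (l2_sub hR hF (-1) 1) w
      simp only [Function.iterate_one, l2_refl] at h1
      have h2 := i w
      simp only [T] at h2 ⊢
      rw [h1]; linear_combination h2) (by simp only [e]; simpa using h0 0 (by omega)) (by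
      rw [((hR a).hasDerivAt.fun_sub ((hF a).hasDerivAt.const_mul (-1))).deriv, deriv_refl]
      simp only [e]; ring) z
    linear_combination this

theorem l2_odd (a : ℂ) (q : ℕ) (f : ℂ → ℂ) (h : ∀ z, f (2 * a - z) = -f z) :
    l2^[q] f a = 0 := by
  induction q generalizing f with
  | zero => have := h a; rw [show 2 * a - a = a by ring] at this; show f a = 0; linear_combination this / 2
  | succ q ih =>
    refine ih (l2 f) fun z => ?_
    rw [← congrFun (l2_refl (2 * a) f) z, funext h, l2, deriv.fun_neg', deriv.fun_neg, l2]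

end Pool.Agent.H2.Root
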