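import Mathlib

set_option autoImplicit false

/-! A non-sequential s-group topology on the integers. -/

namespace Pool.Agent.H2.SGrp

open Filter Topology Finset

/-- fast growing sequence -/
def a : ℕ → ℤ
  | 0 => 1
  | (n + 1) => (3 * n + 4) * a n

theorem a_pos (n : ℕ) : 0 < a n := by
  induction n with
  | zero => simp [a]
  | succ n ih => simp only [a]; positivity

theorem a_gt (n : ℕ) : (n : ℤ) < a n := by
  induction n with
  | zero => simp [a]
  | succ n ih => simp only [a]; push_cast; nlinarith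

theorem a_dvd {m n : ℕ} (h : m ≤ n) : a m ∣ a n := by
  induction h with
  | refl => exact dvd_rfl
  | step _ ih => exact ih.mul_left _

theorem a_mono {m n : ℕ} (h : m ≤ n) : a m ≤ a n := Int.le_of_dvd (a_pos n) (a_dvd h)

/-- level function with infinite fibres -/
def J (n : ℕ) : ℕ := (Nat.unpair n).1

theorem J_le (n : ℕ) : J n ≤ n := Nat.unpair_left_le n
theorem J_pair (m i : ℕ) : J (Nat.pair m i) = m := by simp [J]

/-- generators of level at least `m` -/
def V (m : ℕ) : Set ℤ := {x | ∃ (n : ℕ) (ε : ℤ), |ε| ≤ 1 ∧ m ≤ J n ∧ x = ε * a n}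

/-- basic neighbourhoods -/
def U (f : ℕ → ℕ) : Set ℤ :=
  {x | ∃ (K : ℕ) (v : ℕ → ℤ), (∀ k < K, v k ∈ V (f k)) ∧ x = ∑ k ∈ range K, v k}

theorem V_zero (m : ℕ) : (0 : ℤ) ∈ V m := ⟨Nat.pair m 0, 0, by simp, (J_pair m 0).ge, by simp⟩
theorem V_mono {m m' : ℕ} (h : m ≤ m') : V m' ⊆ V m :=
  fun _ ⟨n, ε, h1, h2, h3⟩ => ⟨n, ε, h1, h.trans h2, h3⟩
theorem V_neg {m : ℕ} {x : ℤ} (h : x ∈ V m) : -x ∈ V m := by
  obtain ⟨n, ε, h1, h2, rfl⟩ := h
  exact ⟨n, -ε, by simpa using h1, h2, by ring⟩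
theorem V_dvd {m : ℕ} {x : ℤ} (h : x ∈ V m) : a m ∣ x := by
  obtain ⟨n, ε, -, h2, rfl⟩ := h
  exact (a_dvd (h2.trans (J_le n))).mul_left _

theorem U_zero (f : ℕ → ℕ) : (0 : ℤ) ∈ U f := ⟨0, fun _ => 0, by simp, by simp⟩
theorem U_mono {f g : ℕ → ℕ} (h : ∀ k, f k ≤ g k) : U g ⊆ U f :=
  fun _ ⟨K, v, h1, h2⟩ => ⟨K, v, fun k hk => V_mono (h k) (h1 k hk), h2⟩
theorem U_neg {f : ℕ → ℕ} {x : ℤ} (h : x ∈ U f) : -x ∈ U f := by
  obtain ⟨K, v, h1, rfl⟩ := h
  exact ⟨K, fun k => -v k, fun k hk => V_neg (h1 k hk), by simp⟩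
theorem U_dvd {m : ℕ} {x : ℤ} (h : x ∈ U fun _ => m) : a m ∣ x := by
  obtain ⟨K, v, h1, rfl⟩ := h
  exact dvd_sum fun k hk => V_dvd (h1 k (mem_range.1 hk))
theorem V_sub_U (f : ℕ → ℕ) : V (f 0) ⊆ U f :=
  fun x hx => ⟨1, fun _ => x, fun k hk => by rwa [Nat.lt_one_iff.1 hk], by simp⟩

theorem U_ext {f : ℕ → ℕ} {K K' : ℕ} (hK : K ≤ K') {v : ℕ → ℤ} (h : ∀ k < K, v k ∈ V (f k)) :
    ∃ w : ℕ → ℤ, (∀ k, w k ∈ V (f k)) ∧ ∑ k ∈ range K, v k = ∑ k ∈ range K', w k := by
  refine ⟨fun k => if k < K then v k else 0, fun k => ?_, ?_⟩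
  · dsimp only
    split_ifs with hk
    · exact h k hk
    · exact V_zero _
  · rw [← sum_filter]
    congr 1
    ext k; simp only [mem_range, mem_filter]; omega

theorem U_add (f : ℕ → ℕ) : ∃ g : ℕ → ℕ, ∀ x ∈ U g, ∀ y ∈ U g, x + y ∈ U f := by
  refine ⟨fun k => max (f (2 * k)) (f (2 * k + 1)), ?_⟩
  rintro _ ⟨K, v, hv, rfl⟩ _ ⟨K', v', hv', rfl⟩
  obtain ⟨w, hw, e⟩ := U_ext (le_max_left K K') hv
  obtain ⟨w', hw', e'⟩ := U_ext (le_max_right K K') hv'
  rw [e, e']
  refine ⟨2 * max K K', fun k => if k % 2 = 0 then w (k / 2) else w' (k / 2), fun k _ => ?_, ?_⟩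
  · dsimp only
    split_ifs with h
    · refine V_mono ?_ (hw (k / 2))
      have : 2 * (k / 2) = k := by omega
      rw [this]; exact le_max_left _ _
    · refine V_mono ?_ (hw' (k / 2))
      have : 2 * (k / 2) + 1 = k := by omega
      rw [this]; exact le_max_right _ _
  · generalize max K K' = n
    induction n with
    | zero => simp
    | succ n ih =>
      rw [mul_add, mul_one, sum_range_succ, sum_range_succ, sum_range_succ, sum_range_succ, ← ih]
      have h1 : 2 * n % 2 = 0 := by omega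
      have h2 : (2 * n + 1) % 2 ≠ 0 := by omega
      have h3 : 2 * n / 2 = n := by omega
      have h4 : (2 * n + 1) / 2 = n := by omega
      simp only [h1, h2, h3, h4, if_true, if_false]
      ring

theorem mul_mem_U {g : ℕ → ℕ} {c N : ℕ} (h : ∀ k < c, g k ≤ J N) : (c : ℤ) * a N ∈ U g :=
  ⟨c, fun _ => a N, fun k hk => ⟨N, 1, by simp, h k hk, by simp⟩, by simp⟩

theorem key {f : ℕ → ℕ} (hf : ∀ k, k < f k) {c N : ℕ} (hc : c ≤ N + 1)
    (h : (c : ℤ) * a (N + 1) ∈ U f) (i : ℕ) (hi : ∀ k, f k ≤ J (N + 1) → k < i) : c ≤ i := by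
  obtain ⟨K, v, hv, e⟩ := h
  have : ∀ k, ∃ (n : ℕ) (ε : ℤ), k < K → |ε| ≤ 1 ∧ f k ≤ J n ∧ v k = ε * a n := by
    intro k
    by_cases hk : k < K
    · obtain ⟨n, ε, h⟩ := hv k hk
      exact ⟨n, ε, fun _ => h⟩
    · exact ⟨0, 0, fun h => absurd h hk⟩
  choose p ε hp using this
  set s0 := ∑ k ∈ (range K).filter (fun k => p k < N + 1), v k
  set γ := ∑ k ∈ (range K).filter (fun k => p k = N + 1), ε k
  set s2 := ∑ k ∈ (range K).filter (fun k => N + 1 < p k), v k
  have hsplit : ∑ k ∈ range K, v k = s0 + γ * a (N + 1) + s2 := by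
    simp only [s0, γ, s2, sum_filter, sum_mul, ← sum_add_distrib]
    refine sum_congr rfl fun k hk => ?_
    have := (hp k (mem_range.1 hk)).2.2
    rcases lt_trichotomy (p k) (N + 1) with h | h | h
    · simp [h, h.ne, h.not_gt]
    · simp [h, this]
    · simp [h, h.ne', h.not_gt]
  have h2 : a (N + 2) ∣ s2 := dvd_sum fun k hk => by
    rw [mem_filter, mem_range] at hk
    rw [(hp k hk.1).2.2]
    exact (a_dvd hk.2).mul_left _
  have h0 : |s0| ≤ (N + 1) * a N := by
    refine (abs_sum_le_sum_abs _ _).trans ?_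
    refine (sum_le_card_nsmul _ _ (a N) fun k hk => ?_).trans ?_
    · rw [mem_filter, mem_range] at hk
      obtain ⟨h1, -, h3⟩ := hp k hk.1
      rw [h3, abs_mul, abs_of_pos (a_pos _)]
      have := a_mono (Nat.lt_succ_iff.1 hk.2)
      nlinarith [a_pos (p k), abs_nonneg (ε k)]
    · have : ((range K).filter (fun k => p k < N + 1)).card ≤ N + 1 := by
        refine (card_le_card (t := range (N + 1)) fun k hk => ?_).trans (by simp)
        rw [mem_filter, mem_range] at hk
        have := (hp k hk.1).2.1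
        have := hf k
        have := J_le (p k)
        rw [mem_range]; omega
      rw [nsmul_eq_mul]
      exact mul_le_mul_of_nonneg_right (by exact_mod_cast this) (a_pos N).le
  have hγ : ∀ j : ℕ, (∀ k, f k ≤ J (N + 1) → k < j) → |γ| ≤ j := by
    intro j hj
    refine (abs_sum_le_sum_abs _ _).trans ?_
    refine (sum_le_card_nsmul _ _ 1 fun k hk => ?_).trans ?_
    · rw [mem_filter, mem_range] at hk
      exact (hp k hk.1).1
    · have : ((range K).filter (fun k => p k = N + 1)).card ≤ j := by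
        refine (card_le_card (t := range j) fun k hk => ?_).trans (by simp)
        rw [mem_filter, mem_range] at hk
        have := (hp k hk.1).2.1
        rw [hk.2] at this
        exact mem_range.2 (hj k this)
      simpa using this
  have hγ1 := hγ (N + 1) fun k hk => by
    have := hf k
    have := J_le (N + 1)
    omega
  have hγ2 := hγ i hi
  have e1 : a (N + 1) = (3 * N + 4) * a N := rfl
  have e2 : a (N + 2) = (3 * (N + 1 : ℕ) + 4) * a (N + 1) := rfl
  have hN := a_pos N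
  have hN1 := a_pos (N + 1)
  have hc' : (c : ℤ) ≤ N + 1 := by exact_mod_cast hc
  have hc0 : (0 : ℤ) ≤ c := by positivity
  push_cast at e2 hγ1
  have h3 : s2 = (c - γ) * a (N + 1) - s0 := by rw [hsplit] at e; linarith
  have h4 : |s0| < a (N + 1) := by nlinarith
  have h5 : s2 = 0 := by
    refine Int.eq_zero_of_abs_lt_dvd h2 ?_
    rw [h3]
    have h6 : |(c - γ : ℤ)| ≤ 2 * (N + 1) := by
      rw [abs_le] at hγ1 ⊢; constructor <;> linarith
    have h7 := abs_sub ((c - γ) * a (N + 1)) s0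
    rw [abs_mul, abs_of_pos hN1] at h7
    nlinarith
  have h8 : s0 = 0 := by
    refine Int.eq_zero_of_abs_lt_dvd ?_ h4
    exact ⟨c - γ, by linarith⟩
  have h9 : (c : ℤ) = γ := by
    have : (c - γ) * a (N + 1) = 0 := by linarith
    rcases mul_eq_zero.1 this with h | h
    · linarith
    · omega
  have := le_abs_self γ
  omega

/-- the integers written multiplicatively -/
def G : Type := Multiplicative ℤ

instance : CommGroup G := inferInstanceAs (CommGroup (Multiplicative ℤ))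
instance : Countable G := inferInstanceAs (Countable ℤ)

/-- underlying integer -/
def val (g : G) : ℤ := Multiplicative.toAdd g
/-- element from an integer -/
def mk (x : ℤ) : G := Multiplicative.ofAdd x

@[simp] theorem val_mk (x : ℤ) : val (mk x) = x := rfl
@[simp] theorem val_mul (x y : G) : val (x * y) = val x + val y := rfl
@[simp] theorem val_inv (x : G) : val x⁻¹ = - val x := rfl
@[simp] theorem val_one : val 1 = 0 := rfl
theorem val_inj {x y : G} (h : val x = val y) : x = y := h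

/-- the filter basis -/
@[reducible] def B : GroupFilterBasis G := groupFilterBasisOfComm (Set.range fun f => val ⁻¹' U f)
  ⟨_, ⟨id, rfl⟩⟩
  (by
    rintro _ _ ⟨f, rfl⟩ ⟨g, rfl⟩
    exact ⟨_, ⟨fun k => max (f k) (g k), rfl⟩, fun x hx =>
      ⟨U_mono (fun k => le_max_left _ _) hx, U_mono (fun k => le_max_right _ _) hx⟩⟩)
  (by rintro _ ⟨f, rfl⟩; exact U_zero f)
  (by
    rintro _ ⟨f, rfl⟩
    obtain ⟨g, hg⟩ := U_add f
    refine ⟨_, ⟨g, rfl⟩, ?_⟩
    rintro _ ⟨x, hx, y, hy, rfl⟩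
    exact hg _ hx _ hy)
  (by rintro _ ⟨f, rfl⟩; exact ⟨_, ⟨f, rfl⟩, fun x hx => U_neg hx⟩)

instance : TopologicalSpace G := B.topology
instance : IsTopologicalGroup G := B.isTopologicalGroup

theorem basis : (𝓝 (1 : G)).HasBasis (fun _ : ℕ → ℕ => True) (fun f => val ⁻¹' U f) := by
  refine B.nhds_one_hasBasis.to_hasBasis ?_ ?_
  · rintro _ ⟨f, rfl⟩; exact ⟨f, trivial, subset_rfl⟩
  · intro f _; exact ⟨_, ⟨f, rfl⟩, subset_rfl⟩

theorem U_nhds (f : ℕ → ℕ) : val ⁻¹' U f ∈ 𝓝 (1 : G) := basis.mem_of_mem trivial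

instance : T2Space G := by
  refine IsTopologicalGroup.t2Space_of_one_sep fun x hx => ?_
  refine ⟨_, U_nhds fun _ => (val x).natAbs, fun h => hx (val_inj ?_)⟩
  refine Int.eq_zero_of_abs_lt_dvd (U_dvd h) ?_
  have := a_gt (val x).natAbs
  rwa [Int.natCast_natAbs] at this

theorem tendsto_V (x : ℕ → G) (hx : ∀ m, val (x m) ∈ V m) : Tendsto x atTop (𝓝 1) := by
  rw [basis.tendsto_right_iff]
  intro f _
  filter_upwards [eventually_ge_atTop (f 0)] with m hm
  exact V_sub_U f (V_mono hm (hx m))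

theorem sgrp_open (K : Subgroup G) (hK : IsOpen (K : Set G)) (H : Type) [Group H]
    [TopologicalSpace H] [IsTopologicalGroup H] (f : K →* H) (hf : SeqContinuous (f : K → H)) :
    Continuous (f : K → H) := by
  classical
  refine continuous_of_continuousAt_one f ?_
  rw [ContinuousAt, map_one]
  intro W hW
  have hsplit : ∀ s : {s : Set H // s ∈ 𝓝 (1 : H)}, ∃ t : {s : Set H // s ∈ 𝓝 (1 : H)},
      ∀ v ∈ t.1, ∀ w ∈ t.1, v * w ∈ s.1 := fun s => by
    obtain ⟨t, ht, h⟩ := exists_nhds_one_split s.2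
    exact ⟨⟨t, ht⟩, h⟩
  choose nx hnx using hsplit
  let Ws : ℕ → {s : Set H // s ∈ 𝓝 (1 : H)} := fun k => nx^[k] ⟨W, hW⟩
  have hWs : ∀ k, ∀ v ∈ (Ws (k + 1)).1, ∀ w ∈ (Ws (k + 1)).1, v * w ∈ (Ws k).1 := by
    intro k
    simp only [Ws, Function.iterate_succ_apply']
    exact hnx _
  have hm : ∀ k, ∃ m, ∀ x ∈ V m, ∃ h : mk x ∈ K, f ⟨_, h⟩ ∈ (Ws k).1 := by
    intro k
    by_contra hcon
    push Not at hcon
    choose x hx hbad using hcon
    have ht := tendsto_V (fun m => mk (x m)) hx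
    have hev : ∀ᶠ m in atTop, mk (x m) ∈ K := ht (hK.mem_nhds K.one_mem)
    let y : ℕ → K := fun m => if h : mk (x m) ∈ K then ⟨_, h⟩ else 1
    have hy : Tendsto y atTop (𝓝 1) := by
      rw [tendsto_subtype_rng]
      refine ht.congr' ?_
      filter_upwards [hev] with m hm
      simp [y, hm]
    have h2 := hf hy
    rw [map_one] at h2
    obtain ⟨m, hm1, hm2⟩ := (hev.and (h2 (Ws k).2)).exists
    refine hbad m hm1 ?_
    simpa [y, hm1] using hm2
  choose m hm using hm
  have hsum : ∀ n j (v : ℕ → ℤ), (∀ k < n, v k ∈ V (m (j + k + 1))) →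
      ∃ h : mk (∑ k ∈ range n, v k) ∈ K, f ⟨_, h⟩ ∈ (Ws j).1 := by
    intro n
    induction n with
    | zero =>
      intro j v _
      refine ⟨K.one_mem, ?_⟩
      change f 1 ∈ _
      rw [map_one]; exact mem_of_mem_nhds (Ws j).2
    | succ n ih =>
      intro j v hv
      obtain ⟨h1, h2⟩ := ih (j + 1) (fun k => v (k + 1)) fun k hk => by
        have := hv (k + 1) (by omega)
        rwa [show j + (k + 1) + 1 = j + 1 + k + 1 by ring] at this
      obtain ⟨h3, h4⟩ := hm (j + 1) (v 0) (hv 0 (by omega))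
      have h5 := hWs j _ h2 _ h4
      rw [← map_mul] at h5
      simp only [sum_range_succ']
      exact ⟨K.mul_mem h1 h3, h5⟩
  rw [Filter.mem_map, nhds_subtype_eq_comap, mem_comap]
  refine ⟨_, U_nhds fun k => m (0 + k + 1), ?_⟩
  rintro x ⟨n, v, hv, e⟩
  obtain ⟨h1, h2⟩ := hsum n 0 v hv
  have : x = ⟨_, h1⟩ := Subtype.ext (val_inj e)
  rw [Set.mem_preimage, this]
  exact h2

theorem sgrp_closed (K : Subgroup G) (hK : IsClosed (K : Set G)) (H : Type) [Group H]
    [TopologicalSpace H] [IsTopologicalGroup H] (f : K →* H) (hf : SeqContinuous (f : K → H)) :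
    Continuous (f : K → H) := by
  by_cases hb : K = ⊥
  · subst hb
    exact continuous_of_discreteTopology
  · obtain ⟨⟨d, hd⟩, hd1⟩ := Subgroup.ne_bot_iff_exists_ne_one.1 hb
    have hd0 : val d ≠ 0 := fun h => hd1 (Subtype.ext (val_inj h))
    have hfi : (Subgroup.zpowers d).FiniteIndex := by
      constructor
      have := Int.index_zmultiples (val d)
      have e : (Subgroup.zpowers d).index = (AddSubgroup.zmultiples (val d)).index := rfl
      rw [e, this]; simpa using hd0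
    have : K.FiniteIndex := Subgroup.finiteIndex_of_le (Subgroup.zpowers_le.2 hd)
    exact sgrp_open K (K.isOpen_of_isClosed_of_finiteIndex hK) H f hf

/-- the bad set -/
def A : Set G := {x | ∃ n, 1 ≤ J n ∧ val x = a n + J n * a (Nat.pair n n)}

theorem one_not : (1 : G) ∉ A := by
  rintro ⟨n, -, h⟩
  have := a_pos n
  have := a_pos (Nat.pair n n)
  have : (0 : ℤ) ≤ J n * a (Nat.pair n n) := by positivity
  simp only [val_one] at h
  omega

theorem one_closure : (1 : G) ∈ closure A := by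
  rw [mem_closure_iff_nhds_basis basis]
  intro f _
  obtain ⟨g, hg⟩ := U_add f
  let m := g 0 + 1
  let n := Nat.pair m (∑ k ∈ range m, g k)
  have hJ : J n = m := J_pair _ _
  refine ⟨mk (a n + J n * a (Nat.pair n n)), ⟨n, by omega, rfl⟩, hg _ ?_ _ ?_⟩
  · exact V_sub_U g ⟨n, 1, by simp, by omega, by simp⟩
  · refine mul_mem_U fun k hk => ?_
    rw [J_pair]
    rw [hJ] at hk
    exact (single_le_sum (f := g) (fun _ _ => Nat.zero_le _) (mem_range.2 hk)).trans
      (Nat.right_le_pair _ _)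

theorem A_seq : IsSeqClosed A := by
  intro x p hx hp
  by_contra hpA
  choose n hn1 hn2 using hx
  have hn : Tendsto n atTop atTop := by
    rw [tendsto_atTop]
    intro b
    have hfin : ((fun j => mk (a j + J j * a (Nat.pair j j))) '' {j | j < b ∧ 1 ≤ J j}).Finite :=
      ((Set.finite_lt_nat b).subset fun j hj => hj.1).image _
    have hnot : p ∉ ((fun j => mk (a j + J j * a (Nat.pair j j))) '' {j | j < b ∧ 1 ≤ J j}) := by
      rintro ⟨j, hj, rfl⟩
      exact hpA ⟨j, hj.2, rfl⟩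
    filter_upwards [hp (hfin.isClosed.isOpen_compl.mem_nhds hnot)] with t ht
    by_contra hlt
    exact ht ⟨n t, ⟨by omega, hn1 t⟩, val_inj (hn2 t).symm⟩
  have hp1 : p = 1 := by
    have h1 : Tendsto (fun t => x t * p⁻¹) atTop (𝓝 1) := by
      simpa using hp.mul_const p⁻¹
    obtain ⟨t, ht1, ht2⟩ := ((h1.eventually_mem (U_nhds fun _ => (val p).natAbs)).and
      (hn.eventually_ge_atTop (val p).natAbs)).exists
    have h2 : a (val p).natAbs ∣ val (x t) + - val p := U_dvd ht1
    have h3 : a (val p).natAbs ∣ val (x t) := by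
      rw [hn2]
      exact dvd_add (a_dvd ht2) ((a_dvd (ht2.trans (Nat.left_le_pair _ _))).mul_left _)
    have h4 := (dvd_add_right h3).1 h2
    refine val_inj (Int.eq_zero_of_abs_lt_dvd ((dvd_neg).1 h4) ?_)
    have := a_gt (val p).natAbs
    rwa [Int.natCast_natAbs] at this
  subst hp1
  by_cases hJ : Tendsto (fun t => J (n t)) atTop atTop
  · have : ∀ i, ∃ t, i ≤ t ∧ i < J (n t) := fun i =>
      ((eventually_ge_atTop i).and (hJ.eventually_gt_atTop i)).exists
    choose τ hτ1 hτ2 using this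
    let f : ℕ → ℕ := fun k => k + 1 + ∑ i ∈ range (k + 1), n (τ i)
    obtain ⟨g, hg⟩ := U_add f
    obtain ⟨T, hT⟩ := eventually_atTop.1 ((hp.eventually_mem (U_nhds g)).and (hJ.eventually_ge_atTop (g 0)))
    obtain ⟨h1, h2⟩ := hT (τ T) (hτ1 T)
    have h3 : -a (n (τ T)) ∈ U g := V_sub_U g ⟨n (τ T), -1, by simp, h2, by simp⟩
    have h4 := hg (val (x (τ T))) h1 _ h3
    rw [hn2, add_neg_cancel_comm] at h4
    have h5 : J (n (τ T)) ≤ Nat.pair (n (τ T)) (n (τ T)) := (J_le _).trans (Nat.left_le_pair _ _)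
    have h6 := hτ2 T
    obtain ⟨N, hN⟩ : ∃ N, Nat.pair (n (τ T)) (n (τ T)) = N + 1 := ⟨_, (Nat.succ_pred_eq_of_pos (by omega)).symm⟩
    rw [hN] at h4 h5
    have := key (fun k => by simp only [f]; omega) h5 h4 T fun k hk => by
      rw [← hN, J_pair] at hk
      by_contra hlt
      have := single_le_sum (f := fun i => n (τ i)) (fun _ _ => Nat.zero_le _)
        (mem_range.2 (show T < k + 1 by omega))
      simp only [f] at hk
      omega
    omega
  · rw [tendsto_atTop] at hJ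
    push Not at hJ
    obtain ⟨m, hm⟩ := hJ
    obtain ⟨g, hg⟩ := U_add fun k => m + k + 1
    obtain ⟨t, h1, h2, h3⟩ := (hm.and_eventually ((hp.eventually_mem (U_nhds g)).and
      (hn.eventually_ge_atTop (∑ k ∈ range m, g k)))).exists
    have h4 : (J (n t) : ℤ) * a (Nat.pair (n t) (n t)) ∈ U g := mul_mem_U fun k hk => by
      rw [J_pair]
      exact (single_le_sum (f := g) (fun _ _ => Nat.zero_le _)
        (mem_range.2 (by omega))).trans h3
    have h5 := hg (val (x t)) h2 _ (U_neg h4)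
    rw [hn2, add_neg_cancel_right] at h5
    have h6 := (hn1 t).trans (J_le _)
    obtain ⟨N, hN⟩ : ∃ N, n t = N + 1 := ⟨_, (Nat.succ_pred_eq_of_pos (by omega)).symm⟩
    rw [hN] at h5 h1
    have := key (f := fun k => m + k + 1) (N := N) (c := 1) (fun k => by omega) (by omega) (by simpa using h5) 0 fun k hk => by omega
    omega

end Pool.Agent.H2.SGrp
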