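import Mathlib

set_option autoImplicit false

/-! A Tychonoff space with an action of the rationals that has no equivariant compactification. -/

namespace Pool.Agent.H2.SQ

open Filter Topology Set

/-- types of orbits -/
structure Ty where
  s : ℝ
  j : ℕ
  l : ℝ → ℕ
  E : ℕ → Set ℝ
  lo : ∀ t, j ≤ l t
  hi : ∀ t, l t ≤ j + 1
  mono : Monotone E
  ok : ∀ q : ℚ, ∃ k, ∀ᶠ t in 𝓝 (s + q), t ∈ E k ∧ l t = l (s + q)

/-- orbits -/
abbrev P : Type := (Ty × ℝ) ⊕ (Ty × ℝ) × ℕ × (Ty × ℝ)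

/-- type of an orbit -/
def ty : P → Ty
  | .inl c => c.1
  | .inr y => y.2.2.1

/-- compatibility -/
def cp (a : Ty) (k : ℕ) (b : Ty) : Prop := b.j ≤ a.j + 1 ∧ ∀ t ∈ a.E k, b.l t = a.l t

/-- basic neighbourhoods -/
def B : P → ℕ × Finset (Ty × ℝ) → Set P
  | .inl c, z => {p | p = .inl c ∨ ∃ k d, d ∉ z.2 ∧
      ((z.1 ≤ k ∧ cp c.1 k d.1 ∧ p = .inr (c, k, d)) ∨ p = .inr (d, k, c))}
  | .inr y, _ => {.inr y}

theorem B_self (p : P) (z : ℕ × Finset (Ty × ℝ)) : p ∈ B p z := by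
  cases p
  exacts [.inl rfl, rfl]

theorem B_anti (p : P) {z z' : ℕ × Finset (Ty × ℝ)} (h : z ≤ z') : B p z' ⊆ B p z := by
  rcases p with c | y
  · rintro _ (rfl | ⟨k, d, h1, h2 | h2⟩)
    exacts [.inl rfl, .inr ⟨k, d, fun h3 => h1 (h.2 h3), .inl ⟨h.1.trans h2.1, h2.2⟩⟩,
      .inr ⟨k, d, fun h3 => h1 (h.2 h3), .inr h2⟩]
  · exact subset_rfl

theorem B_cp {p p' : P} {z : ℕ × Finset (Ty × ℝ)} (h : p' ∈ B p z) : cp (ty p) z.1 (ty p') := by
  have h0 : ∀ a k, cp a k a := fun a k => ⟨Nat.le_succ _, fun _ _ => rfl⟩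
  rcases p with c | y
  · rcases h with rfl | ⟨k, d, -, ⟨h1, h2, rfl⟩ | rfl⟩
    exacts [h0 _ _, ⟨h2.1, fun t ht => h2.2 t (c.1.mono h1 ht)⟩, h0 _ _]
  · rw [show p' = _ from h]
    exact h0 _ _

theorem B_ev (p p2 : P) (z2 : ℕ × Finset (Ty × ℝ)) :
    ∀ᶠ z in atTop, ∀ p' ∈ B p z, (p' ∈ B p2 z2 ↔ p ∈ B p2 z2) := by
  classical
  rcases p with c | y
  swap
  · exact Eventually.of_forall fun z p' h => by rw [show p' = _ from h]
  rcases p2 with c2 | ⟨c1, k1, c2⟩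
  · by_cases h : c = c2
    · subst h
      exact (eventually_ge_atTop z2).mono fun z hz p' h =>
        iff_of_true (B_anti _ hz h) (B_self _ _)
    · refine (eventually_ge_atTop (0, {c2})).mono fun z hz p' h1 => iff_of_false ?_ (by simp [B, h])
      have h2 : c2 ∈ z.2 := hz.2 (Finset.mem_singleton_self _)
      rcases h1 with rfl | ⟨k, d, h1, ⟨-, -, rfl⟩ | rfl⟩ <;> simp [B, h] <;> grind
  · refine (eventually_ge_atTop (0, {c1, c2})).mono fun z hz p' h1 => iff_of_false ?_ (by simp [B])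
    have h2 : c1 ∈ z.2 := hz.2 (by simp)
    have h3 : c2 ∈ z.2 := hz.2 (by simp)
    rcases h1 with rfl | ⟨k, d, h1, ⟨-, -, rfl⟩ | rfl⟩ <;> simp [B] <;> grind

theorem B_sep {p p' : P} {z : ℕ × Finset (Ty × ℝ)} (h : p ∈ B p' z) (h' : p' ∈ B p z) : p = p' := by
  rcases p with c | y
  · rcases p' with c' | y'
    · simpa [B] using h
    · exact h
  · exact h'.symm

/-- the space -/
inductive X : Type
  | o : X
  | pt (z : P × ℚ) : X

instance : AddAction ℚ X where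
  vadd q x := x.casesOn .o fun z => .pt (z.1, q + z.2)
  zero_vadd x := by
    rcases x with _ | z
    exacts [rfl, congrArg (fun t => X.pt (z.1, t)) (zero_add _)]
  add_vadd a b x := by
    rcases x with _ | z
    exacts [rfl, congrArg (fun t => X.pt (z.1, t)) (add_assoc _ _ _)]

/-- real time -/
def tm (z : P × ℚ) : ℝ := (ty z.1).s + z.2

/-- levels -/
def lv (n : ℕ) : X → Prop
  | .o => True
  | .pt z => n ≤ (ty z.1).l (tm z)

open Classical in
/-- the coordinates -/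
noncomputable def Φ : X → (P × (ℕ × Finset (Ty × ℝ)) × Bool) ⊕ ℕ → ℝ
  | .o, .inl _ => 0
  | .pt z, .inl i => if z.1 ∈ B i.1 i.2.1 then (if i.2.2 then tm z else 1) else 0
  | x, .inr n => if lv n x then 1 else 0

noncomputable instance : TopologicalSpace X := .induced Φ inferInstance

theorem Φ_ind : IsInducing Φ := ⟨rfl⟩

theorem Φ_cont (i : (P × (ℕ × Finset (Ty × ℝ)) × Bool) ⊕ ℕ) : Continuous fun x => Φ x i :=
  (continuous_apply i).comp Φ_ind.continuous

theorem ev_pos {x : X} (i : (P × (ℕ × Finset (Ty × ℝ)) × Bool) ⊕ ℕ) (h : Φ x i = 1) :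
    ∀ᶠ y in 𝓝 x, Φ y i ≠ 0 :=
  ((Φ_cont i).tendsto x).eventually_ne (h.trans_ne one_ne_zero)

theorem Φ_inj : Function.Injective Φ := by
  have h1 : ∀ z, Φ .o ≠ Φ (.pt z) := fun z h => by
    simpa [Φ, B_self] using congrFun h (.inl (z.1, ⊥, false))
  have h2 : ∀ z z', Φ (.pt z) = Φ (.pt z') → z'.1 ∈ B z.1 ⊥ := fun z z' h => by
    simpa [Φ, B_self] using congrFun h (.inl (z.1, ⊥, false))
  rintro (_ | ⟨p, q⟩) (_ | ⟨p', q'⟩) h
  · rfl
  · exact absurd h (h1 _)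
  · exact absurd h.symm (h1 _)
  · obtain rfl : p = p' := B_sep (h2 _ _ h.symm) (h2 _ _ h)
    obtain rfl : q = q' := by simpa [Φ, B_self, tm] using congrFun h (.inl (p, ⊥, true))
    rfl

instance : T35Space X := IsEmbedding.t35Space ⟨Φ_ind, Φ_inj⟩

instance : ContinuousVAdd ℚ X := by
  classical
  refine ⟨Φ_ind.continuous_iff.2 (continuous_pi fun i => ?_)⟩
  have h0 : ∀ i, Continuous fun y : ℚ × X => Φ y.2 i := fun i => (Φ_cont i).comp continuous_snd
  have h00 : Continuous fun y : ℚ × X => (y.1 : ℝ) := Rat.continuous_coe_real.comp continuous_fst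
  rcases i with ⟨p, z, _ | _⟩ | n
  · refine (h0 (.inl (p, z, false))).congr ?_
    rintro ⟨q, _ | w⟩ <;> rfl
  · refine ((h0 (.inl (p, z, true))).add (h00.mul (h0 (.inl (p, z, false))))).congr ?_
    rintro ⟨q, _ | w⟩
    · exact (zero_add _).trans (mul_zero _)
    · show Φ (.pt w) (.inl (p, z, true)) + q * Φ (.pt w) (.inl (p, z, false)) =
        Φ (.pt (w.1, q + w.2)) (.inl (p, z, true))
      by_cases h : w.1 ∈ B p z <;> simp [Φ, h, tm]
      ring
  · refine continuous_iff_continuousAt.2 fun ⟨q, x⟩ => tendsto_const_nhds.congr' ?_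
    rcases x with _ | w
    · filter_upwards [continuous_snd.continuousAt.eventually (ev_pos (.inr (n + 1)) (if_pos trivial))]
      rintro ⟨q', _ | w⟩ h
      · rfl
      · refine (if_pos trivial).trans (if_pos ?_).symm
        have h1 : n + 1 ≤ (ty w.1).l _ := by_contra fun h1 => h (if_neg h1)
        exact (Nat.le_of_succ_le_succ (h1.trans ((ty w.1).hi _))).trans ((ty w.1).lo _)
    · obtain ⟨k, hk⟩ := (ty w.1).ok (q + w.2)
      filter_upwards [continuous_snd.continuousAt.eventually (ev_pos (.inl (w.1, (k, ∅), false))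
        (if_pos (B_self _ _))), ((h00.add (h0 (.inl (w.1, (k, ∅), true)))).tendsto' (q, .pt w) _ (by
          simp [Φ, B_self, tm]; ring)).eventually hk]
      rintro ⟨q', _ | w'⟩ h h2
      · exact absurd rfl h
      · have h3 : w'.1 ∈ B w.1 (k, ∅) := by_contra fun h1 => h (if_neg h1)
        have h4 : q' + Φ (.pt w') (.inl (w.1, (k, ∅), true)) = tm (w'.1, q' + w'.2) := by
          simp [Φ, h3, tm]; ring
        simp only [Pi.add_apply, h4] at h2
        exact if_congr (iff_of_eq (congrArg (n ≤ ·)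
          (h2.2.symm.trans ((B_cp h3).2 _ h2.1).symm))) rfl rfl

theorem nb0 {U : Set X} (hU : U ∈ 𝓝 X.o) : ∃ n, ∀ x, lv n x → x ∈ U := by
  have : Tendsto id (atTop.bind fun n => 𝓟 {x | lv n x}) (𝓝 X.o) := by
    refine Φ_ind.tendsto_nhds_iff.2 (tendsto_pi_nhds.2 fun i =>
      tendsto_const_nhds.congr' (eventually_bind.2 ?_))
    rcases i with i | n
    · filter_upwards [eventually_ge_atTop ((ty i.1).j + 3)] with n hn
      rintro (_ | w) h
      · rfl
      · refine (if_neg fun h1 => ?_).symm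
        have h2 : n ≤ _ := h
        linarith [(B_cp h1).1, (ty w.1).hi (tm w)]
    · filter_upwards [eventually_ge_atTop n] with m hm
      rintro (_ | w) h
      · rfl
      · exact (if_pos trivial).trans (if_pos (hm.trans h)).symm
  exact Eventually.exists (f := atTop) (this hU)

theorem nb1 (w : P × ℚ) {U : Set X} (hU : U ∈ 𝓝 (X.pt w)) :
    ∃ z, ∀ᶠ t in 𝓝 (tm w), ∀ w' : P × ℚ, w'.1 ∈ B w.1 z → tm w' = t → .pt w' ∈ U := by
  classical
  have : Tendsto X.pt ((atTop ×ˢ 𝓝 (tm w)).bind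
      fun y => 𝓟 {w' | w'.1 ∈ B w.1 y.1 ∧ tm w' = y.2}) (𝓝 (.pt w)) := by
    refine Φ_ind.tendsto_nhds_iff.2 (tendsto_pi_nhds.2 fun i => ?_)
    have h0 : Tendsto tm ((atTop ×ˢ 𝓝 (tm w)).bind
        fun y => 𝓟 {w' | w'.1 ∈ B w.1 y.1 ∧ tm w' = y.2}) (𝓝 (tm w)) := fun V hV =>
      mem_bind'.2 ((tendsto_snd.eventually hV).mono fun y hy w' h =>
        show tm w' ∈ V from h.2.symm ▸ hy)
    rcases i with ⟨p, z, b⟩ | n
    · refine Tendsto.congr' (f₁ := fun w' => if w.1 ∈ B p z then (if b then tm w' else 1) else 0)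
        (eventually_bind.2 ((tendsto_fst.eventually (B_ev w.1 p z)).mono fun y hy w' h =>
          if_congr (hy _ h.1).symm rfl rfl)) ?_
      by_cases h : w.1 ∈ B p z <;> cases b <;> simp [Φ, h, h0, tendsto_const_nhds]
    · obtain ⟨k, hk⟩ := (ty w.1).ok w.2
      refine tendsto_const_nhds.congr' (eventually_bind.2 (((eventually_ge_atTop (k, ∅)).prod_mk
        hk).mono fun y hy w' h => ?_))
      refine if_congr (iff_of_eq (congrArg (n ≤ ·) ?_)) rfl rfl
      rw [h.2, (B_cp (B_anti _ hy.1 h.1)).2 _ hy.2.1]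
      exact hy.2.2.symm
  obtain ⟨z, hz⟩ := (Eventually.curry (mem_bind'.1 (this hU))).exists
  exact ⟨z, hz.mono fun t h w' h1 h2 => h ⟨h1, h2⟩⟩

theorem tm_dense (p : P) : DenseRange fun q : ℚ => tm (p, q) :=
  (Homeomorph.addLeft (ty p).s).surjective.denseRange.comp Rat.denseRange_cast (by fun_prop)

theorem loc {z : ℝ} (hz : Irrational z) (k : ℕ) (q : ℚ) :
    ∀ᶠ t in 𝓝 (q : ℝ), (1 / (k + 1 : ℝ) < |t - z| ↔ 1 / (k + 1 : ℝ) < |q - z|) := by
  have h1 : Continuous fun t : ℝ => |t - z| := by fun_prop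
  rcases lt_trichotomy (1 / (k + 1 : ℝ)) |q - z| with h | h | h
  · exact ((h1.tendsto q).eventually (lt_mem_nhds h)).mono fun t ht => iff_of_true ht h
  · rcases eq_or_eq_neg_of_abs_eq h.symm with h | h
    · exact absurd ⟨q - 1 / (k + 1), by push_cast; linarith⟩ hz
    · exact absurd ⟨q + 1 / (k + 1), by push_cast; linarith⟩ hz
  · exact ((h1.tendsto q).eventually (gt_mem_nhds h)).mono fun t ht =>
      iff_of_false ht.not_gt h.not_gt

open Classical in
/-- the basic types -/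
noncomputable def T0 (j : ℕ) (R : {R : Set ℝ // ∀ q : ℚ, ∀ᶠ t in 𝓝 (q : ℝ), (t ∈ R ↔ ↑q ∈ R)})
    (z : ℚ) : Ty where
  s := 0
  j := j
  l t := if t ∈ R.1 then j else j + 1
  E k := {t | 1 / (k + 1 : ℝ) < |t - (√2 + z)|}
  lo t := by split_ifs <;> omega
  hi t := by split_ifs <;> omega
  mono a b h t ht := mem_setOf.2 (lt_of_le_of_lt (Nat.one_div_le_one_div h) (mem_setOf.1 ht))
  ok q := by
    have h1 := irrational_sqrt_two.add_ratCast z
    obtain ⟨k, hk⟩ := exists_nat_one_div_lt (abs_pos.2 (sub_ne_zero.2 (h1.ne_rat q).symm))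
    rw [zero_add]
    exact ⟨k, ((loc h1 k q).and (R.2 q)).mono fun t ht => ⟨ht.1.2 hk, if_congr ht.2 rfl rfl⟩⟩

theorem desc (v : Ty → ℝ) (hv : ∀ a, ∀ ε > 0, ∃ k, ∀ b, cp a k b → |v b - v a| ≤ ε) (j : ℕ) :
    v (T0 j ⟨univ, by simp⟩ 0) = v (T0 0 ⟨univ, by simp⟩ 0) := by
  have h0 : ∀ a b, b.j ≤ a.j + 1 → (∀ t, b.l t = a.l t) → v b = v a := fun a b h1 h2 =>
    sub_eq_zero.1 (abs_nonpos_iff.1 (le_of_forall_pos_le_add fun ε h => by
      obtain ⟨k, hk⟩ := hv a ε h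
      simpa using hk b ⟨h1, fun t _ => h2 t⟩))
  classical
  induction j with
  | zero => rfl
  | succ j ih =>
  refine Eq.trans (sub_eq_zero.1 (abs_nonpos_iff.1 (le_of_forall_pos_le_add fun ε h => ?_))) ih
  obtain ⟨z, hz⟩ := exists_surjective_nat ℚ
  choose! K hK using hv
  let R : ℕ → {R : Set ℝ // ∀ q : ℚ, ∀ᶠ t in 𝓝 (q : ℝ), (t ∈ R ↔ ↑q ∈ R)} := fun n =>
    n.rec ⟨univ, by simp⟩ fun n R => ⟨R.1 ∩ (T0 j R (z n)).E (K (T0 j R (z n)) (ε / 2 / 2 ^ (n + 1))),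
      fun q => ((R.2 q).and (loc (irrational_sqrt_two.add_ratCast (z n))
        (K (T0 j R (z n)) (ε / 2 / 2 ^ (n + 1))) q)).mono fun t ht =>
        and_congr ht.1 ht.2⟩
  have h1 : ∀ n, |v (T0 j (R n) (z n)) - v (T0 j ⟨univ, by simp⟩ 0)| ≤ ε / 2 - ε / 2 / 2 ^ n := by
    intro n
    induction n with
    | zero =>
      rw [h0 (T0 j ⟨univ, by simp⟩ 0) (T0 j (R 0) (z 0)) (Nat.le_succ _) fun _ => rfl]
      simp
    | succ n ih =>
      have h2 := hK (T0 j (R n) (z n)) (ε / 2 / 2 ^ (n + 1)) (by positivity)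
        (T0 j (R (n + 1)) (z (n + 1))) ⟨Nat.le_succ _, fun t ht =>
          @if_congr _ _ _ (Classical.propDecidable _) (Classical.propDecidable _) _ _ _ _
            (and_iff_left ht) rfl rfl⟩
      have h3 : ε / 2 / 2 ^ n = 2 * (ε / 2 / 2 ^ (n + 1)) := by field_simp; ring
      linarith [abs_sub_le (v (T0 j (R (n + 1)) (z (n + 1)))) (v (T0 j (R n) (z n)))
        (v (T0 j ⟨univ, by simp⟩ 0))]
  let c : Ty := ⟨√2, j, fun _ => j + 1, fun k => interior (R k).1ᶜ, fun _ => Nat.le_succ _,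
    fun _ => le_rfl, monotone_nat_of_le_succ fun n => interior_mono
      (compl_subset_compl.2 inter_subset_left), fun q => by
      obtain ⟨n, rfl⟩ := hz q
      have h2 : (R (n + 1)).1ᶜ ∈ 𝓝 (√2 + z n) := mem_of_superset (Metric.ball_mem_nhds _
        (Nat.one_div_pos_of_nat (n := K (T0 j (R n) (z n)) (ε / 2 / 2 ^ (n + 1)))))
        fun t ht h => lt_asymm (mem_setOf.1 h.2) (Metric.mem_ball.1 ht)
      exact ⟨n + 1, mem_of_superset (interior_mem_nhds.2 h2) fun t ht => ⟨ht, rfl⟩⟩⟩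
  have h2 := hK c (ε / 2) (half_pos h) (T0 j (R (K c (ε / 2))) (z (K c (ε / 2))))
    ⟨Nat.le_succ _, fun t ht => if_neg (interior_subset ht)⟩
  have h3 := h1 (K c (ε / 2))
  have h4 : 0 ≤ ε / 2 / 2 ^ K c (ε / 2) := by positivity
  rw [h0 c (T0 (j + 1) ⟨univ, by simp⟩ 0) le_rfl fun t => if_pos trivial]
  rw [abs_sub_comm] at h2
  linarith [abs_sub_le (v c) (v (T0 j (R (K c (ε / 2))) (z (K c (ε / 2)))))
    (v (T0 j ⟨univ, by simp⟩ 0))]

theorem no_fun (f : X → ℝ) (hc : Continuous f) (hb : ∀ x, f x ∈ Icc (0 : ℝ) 1) (h0 : f .o = 0)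
    (h1 : ∀ x, ¬ lv 1 x → f x = 1)
    (hu : ∀ ε > 0, ∀ᶠ q in 𝓝 (0 : ℚ), ∀ x, |f (q +ᵥ x) - f x| < ε) : False := by
  have h2 : ∀ p, ∃ r ∈ Icc (0 : ℝ) 1, MapClusterPt r (comap (fun q : ℚ => tm (p, q)) (𝓝 0))
      fun q => f (.pt (p, q)) := fun p =>
    have : (comap (fun q : ℚ => tm (p, q)) (𝓝 0)).NeBot :=
      comap_neBot fun _ h => (tm_dense p).mem_nhds h
    isCompact_Icc.exists_mapClusterPt (tendsto_principal.2 (Eventually.of_forall fun _ => hb _))
  choose g g0 g1 using h2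
  have g2 : ∀ ε > 0, ∀ᶠ t in 𝓝 (0 : ℝ), ∀ w, tm w = t → |f (.pt w) - g w.1| ≤ ε := fun ε h => by
    obtain ⟨δ, h2, h3⟩ := Metric.eventually_nhds_iff.1 (hu _ (half_pos h))
    refine mem_of_superset (Metric.ball_mem_nhds _ (half_pos h2)) ?_
    rintro _ h4 ⟨p, q⟩ rfl
    obtain ⟨q', h5, h6⟩ := ((mapClusterPt_iff_frequently.1 (g1 p) _ (Metric.ball_mem_nhds _
      (half_pos h))).and_eventually (preimage_mem_comap (Metric.ball_mem_nhds _
        (half_pos h2)))).exists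
    have h7 := @h3 (q - q') (by
      simp only [Metric.mem_ball, Real.dist_eq, tm, abs_lt, Rat.dist_eq] at h4 h6 ⊢
      push_cast
      constructor <;> linarith [h4.1, h4.2, h6.1, h6.2]) (.pt (p, q'))
    rw [show (q - q') +ᵥ X.pt (p, q') = .pt (p, q) from
      congrArg (fun t => X.pt (p, t)) (sub_add_cancel _ _)] at h7
    linarith [abs_sub_le (f (.pt (p, q))) (f (.pt (p, q'))) (g p), (Real.dist_eq _ _).ge.trans_lt h5]
  have g3 : ∀ p, ∀ ε > 0, ∃ z, ∀ p' ∈ B p z, |g p' - g p| ≤ ε := fun p ε h => by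
    have h3 : 0 < ε / 3 := by positivity
    have h4 := (g2 _ h3).eventually_nhds
    obtain ⟨q, h5⟩ := (tm_dense p).mem_nhds h4
    obtain ⟨z, h6⟩ := nb1 (p, q) (hc.continuousAt.preimage_mem_nhds (Metric.ball_mem_nhds _ h3))
    refine ⟨z, fun p' h7 => ?_⟩
    obtain ⟨q', h8, h9⟩ := (tm_dense p').mem_nhds (Eventually.and h5 h6)
    have h10 := abs_lt.1 ((Real.dist_eq _ _).ge.trans_lt (h9 (p', q') h7 rfl))
    have h11 := abs_le.1 (h8 (p', q') rfl)
    have h12 := abs_le.1 (Eventually.self_of_nhds h5 (p, q) rfl)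
    rw [abs_le]
    constructor <;> linarith [h10.1, h10.2, h11.1, h11.2, h12.1, h12.2]
  have hn : (cocountable : Filter ℝ).NeBot := ⟨fun h => Cardinal.not_countable_real (by
    simpa using mem_cocountable.1 (empty_mem_iff_bot.2 h))⟩
  let U := Ultrafilter.of (cocountable : Filter ℝ)
  have hU : ∀ S : Set ℝ, S.Countable → Sᶜ ∈ U := fun S h =>
    Ultrafilter.of_le _ (mem_cocountable.2 (by simpa using h))
  choose v v0 v1 using fun a : Ty => isCompact_Icc.ultrafilter_le_nhds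
    (U.map fun r => g (.inl (a, r))) (tendsto_principal.2 (Eventually.of_forall fun _ => g0 _))
  have v2 : ∀ a (S : Set ℝ), IsClosed S → (∀ r q, f (.pt (.inl (a, r), q)) ∈ S) → v a ∈ S :=
    fun a S h2 h3 => h2.mem_of_tendsto (v1 a) (Eventually.of_forall fun r =>
      h2.mem_of_mapClusterPt (g1 _) (Eventually.of_forall (h3 r)))
  obtain ⟨n, h2⟩ := nb0 (hc.continuousAt.preimage_mem_nhds (Iio_mem_nhds (h0.trans_lt one_half_pos)))
  have h3 := v2 (T0 n ⟨univ, by simp⟩ 0) _ isClosed_Iic fun r q =>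
    Iio_subset_Iic_self (h2 (.pt (_, q)) ((T0 n ⟨univ, by simp⟩ 0).lo _))
  have h4 := v2 (T0 0 ⟨univ, by simp⟩ 0) _ isClosed_singleton fun r q =>
    h1 (.pt (_, q)) (by simp [lv, ty, T0])
  rw [desc v (fun a ε h => ?_) n, show v _ = 1 from h4] at h3
  · norm_num at h3
  have h5 : 0 < ε / 4 := by positivity
  choose z hz using fun c => g3 (.inl c) _ h5
  have h6 : ∀ a, {r | |g (.inl (a, r)) - v a| < ε / 4} ∈ U := fun a =>
    v1 a (Metric.ball_mem_nhds _ h5)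
  obtain ⟨k, hk⟩ : ∃ k, {r | |g (.inl (a, r)) - v a| < ε / 4 ∧ (z (a, r)).1 = k}.Infinite := by
    by_contra h7
    push Not at h7
    refine U.compl_notMem_iff.2 (h6 a) (hU _ ((countable_iUnion fun k => (h7 k).countable).mono
      fun r hr => mem_iUnion.2 ⟨(z (a, r)).1, ?_⟩))
    exact ⟨hr, rfl⟩
  refine ⟨k, fun b h7 => ?_⟩
  let e := hk.natEmbedding
  obtain ⟨r', h8, h9⟩ := U.nonempty_of_mem (inter_mem (h6 b) (hU _ (countable_iUnion fun n =>
    (z (a, e n)).2.countable_toSet.preimage (Prod.mk_right_injective b))))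
  obtain ⟨m, hm⟩ := ((z (b, r')).2.finite_toSet.preimage (f := fun n => (a, (e n).1))
    ((Prod.mk_right_injective a).comp (Subtype.val_injective.comp e.injective)).injOn).exists_notMem
  have h10 := abs_le.1 (hz (a, e m) (.inr ((a, e m), k, (b, r'))) (.inr ⟨k, _,
    fun h => h9 (mem_iUnion.2 ⟨m, h⟩), .inl ⟨(e m).2.2.le, h7, rfl⟩⟩))
  have h11 := abs_le.1 (hz (b, r') (.inr ((a, e m), k, (b, r'))) (.inr ⟨k, _, hm, .inr rfl⟩))
  have h12 := abs_lt.1 (e m).2.1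
  have h13 := abs_lt.1 (mem_setOf.1 h8)
  rw [abs_le]
  constructor <;> linarith [h10.1, h10.2, h11.1, h11.2, h12.1, h12.2, h13.1, h13.2]

theorem main : ¬ ∃ (Y : Type) (_ : TopologicalSpace Y) (_ : AddAction ℚ Y),
    ContinuousVAdd ℚ Y ∧ CompactSpace Y ∧ T2Space Y ∧
    ∃ f : X → Y, Topology.IsEmbedding f ∧ ∀ (q : ℚ) (x : X), f (q +ᵥ x) = q +ᵥ f x := by
  rintro ⟨Y, _, _, _, _, _, ν, h1, h2⟩
  obtain ⟨φ, h3, h4, h5⟩ := exists_continuous_zero_one_of_isClosed (isClosed_singleton (x := ν .o))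
    (isClosed_closure (s := ν '' {x | Φ x (.inr 1) = 0})) (disjoint_singleton_left.2 fun h => by
      rw [← mem_preimage, ← h1.closure_eq_preimage_closure_image,
        (isClosed_eq (Φ_cont _) continuous_const).closure_eq] at h
      simp [Φ, lv] at h)
  refine no_fun (φ ∘ ν) (φ.continuous.comp h1.continuous) (fun _ => h5 _) (h3 rfl)
    (fun x h => h4 (subset_closure ⟨x, by cases x <;> exact if_neg h, rfl⟩)) fun ε h => ?_
  have h6 : Continuous fun z : ℚ × Y => |φ (z.1 +ᵥ z.2) - φ z.2| := by fun_prop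
  refine (isCompact_univ.eventually_forall_of_forall_eventually (P := fun (q : ℚ) y =>
    |φ (q +ᵥ y) - φ y| < ε) fun y _ => (h6.tendsto (0, y)).eventually
      (gt_mem_nhds (by simpa using h))).mono fun q hq x => ?_
  simpa [h2] using hq (ν x) trivial

end Pool.Agent.H2.SQ
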