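import Mathlib

open Set MeasureTheory Filter Topology
open scoped ContDiff

namespace Pool.Agent.H2.Shell

abbrev E : Type := EuclideanSpace ℝ (Fin 4)

def om (v w : E) : ℝ := v 0 * w 1 - v 1 * w 0 + v 2 * w 3 - v 3 * w 2

noncomputable def e (i : Fin 4) : E := EuclideanSpace.single i 1

noncomputable def pd (i : Fin 4) (f : E → ℝ) (x : E) : ℝ := fderiv ℝ f x (e i)

theorem pd_smooth {f : E → ℝ} {x : E} (h : ContDiffAt ℝ ∞ f x) (i : Fin 4) :
    ContDiffAt ℝ ∞ (pd i f) x :=
  (h.fderiv_right (m := ∞) le_rfl).clm_apply contDiffAt_const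

theorem pd_symm {f : E → ℝ} {x : E} (h : ContDiffAt ℝ ∞ f x) (i j : Fin 4) :
    pd i (pd j f) x = pd j (pd i f) x := by
  have d : DifferentiableAt ℝ (fderiv ℝ f) x :=
    (h.fderiv_right (m := ∞) le_rfl).differentiableAt (by simp)
  have k : ∀ a b, pd a (pd b f) x = fderiv ℝ (fderiv ℝ f) x (e a) (e b) := fun a b => by
    unfold pd
    rw [fderiv_clm_apply d (differentiableAt_const _)]
    simp
  rw [k, k]
  exact h.isSymmSndFDerivAt (by
    rw [minSmoothness_of_isRCLikeNormedField]; exact WithTop.coe_le_coe.2 le_top) _ _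

theorem pd_mul {f g : E → ℝ} {x : E} (hf : ContDiffAt ℝ ∞ f x) (hg : ContDiffAt ℝ ∞ g x)
    (i : Fin 4) : pd i (fun y => f y * g y) x = f x * pd i g x + g x * pd i f x := by
  unfold pd
  rw [fderiv_fun_mul (hf.differentiableAt (by simp)) (hg.differentiableAt (by simp))]
  simp

theorem pd_add {f g : E → ℝ} {x : E} (hf : ContDiffAt ℝ ∞ f x) (hg : ContDiffAt ℝ ∞ g x)
    (i : Fin 4) : pd i (fun y => f y + g y) x = pd i f x + pd i g x := by
  unfold pd
  rw [fderiv_fun_add (hf.differentiableAt (by simp)) (hg.differentiableAt (by simp))]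
  simp

theorem pd_sub {f g : E → ℝ} {x : E} (hf : ContDiffAt ℝ ∞ f x) (hg : ContDiffAt ℝ ∞ g x)
    (i : Fin 4) : pd i (fun y => f y - g y) x = pd i f x - pd i g x := by
  unfold pd
  rw [fderiv_fun_sub (hf.differentiableAt (by simp)) (hg.differentiableAt (by simp))]
  simp

theorem coord_smooth (k : Fin 4) : ContDiff ℝ ∞ fun y : E => y k :=
  (EuclideanSpace.proj k : E →L[ℝ] ℝ).contDiff

theorem pd_coord (i k : Fin 4) (x : E) : pd i (fun y : E => y k) x = if k = i then 1 else 0 := by
  unfold pd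
  rw [show (fun y : E => y k) = (EuclideanSpace.proj k : E →L[ℝ] ℝ) from rfl,
    ContinuousLinearMap.fderiv]
  simp [e]

theorem pd_const {f : E → ℝ} {x : E} {c : ℝ} (h : f =ᶠ[𝓝 x] fun _ => c) (i : Fin 4) :
    pd i f x = 0 := by
  unfold pd
  rw [h.fderiv_eq]
  simp

theorem int_pd {f : E → ℝ} (h : ContDiff ℝ ∞ f) (hc : HasCompactSupport f) (i : Fin 4) :
    Integrable (pd i f) ∧ ∫ x, pd i f x = 0 := by
  have c : Continuous (pd i f) :=
    (contDiff_iff_contDiffAt.2 fun x => pd_smooth h.contDiffAt i).continuous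
  have I : Integrable (pd i f) := c.integrable_of_hasCompactSupport (hc.fderiv_apply ℝ (e i))
  refine ⟨I, ?_⟩
  have := integral_mul_fderiv_eq_neg_fderiv_mul_of_integrable (μ := volume)
    (f := fun _ : E => (1 : ℝ)) (g := f) (v := e i) (by simp) (by simp only [one_mul]; exact I)
    (by simpa using h.continuous.integrable_of_hasCompactSupport hc)
    (fun _ _ => differentiableAt_const _) fun x _ => h.differentiable (by simp) x
  simpa [pd] using this

theorem glue {D K : Set E} (hK : IsCompact K) (hKD : K ⊆ D) {f : E → ℝ}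
    (h : ∀ x ∈ D, ContDiffAt ℝ ∞ f x) (h0 : ∀ x ∉ K, f x = 0) :
    ContDiff ℝ ∞ f ∧ HasCompactSupport f := by
  refine ⟨contDiff_iff_contDiffAt.2 fun x => ?_, HasCompactSupport.intro hK h0⟩
  by_cases hx : x ∈ K
  · exact h x (hKD hx)
  · refine (contDiffAt_const (c := 0)).congr_of_eventuallyEq ?_
    filter_upwards [hK.isClosed.isOpen_compl.mem_nhds hx] with y hy using h0 y hy

theorem stokes {D K : Set E} (hK : IsCompact K) (hKD : K ⊆ D) {g : E → ℝ} {β : Fin 4 → E → ℝ}
    (hg : ContDiff ℝ ∞ g) (h0 : ∀ i, ∀ x ∉ K, pd i g x = 0)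
    (hβ : ∀ i, ∀ x ∈ D, ContDiffAt ℝ ∞ (β i) x)
    (cl : ∀ i j, ∀ x ∈ D, pd i (β j) x = pd j (β i) x) {i j k : Fin 4} (hi : k ≠ i) (hj : k ≠ j) :
    ∫ x, (pd i g x * β j x - pd j g x * β i x) = 0 := by
  have sW : ∀ a b, ∀ x ∈ D, ContDiffAt ℝ ∞ (fun y => pd a g y * β b y - pd b g y * β a y) x :=
    fun a b x hx => ((pd_smooth hg.contDiffAt a).mul (hβ b x hx)).sub
      ((pd_smooth hg.contDiffAt b).mul (hβ a x hx))
  have G := fun a b => glue hK hKD (f := fun y => y k * (pd a g y * β b y - pd b g y * β a y))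
    (fun x hx => (coord_smooth k).contDiffAt.mul (sW a b x hx)) fun x hx => by simp [h0 _ x hx]
  have I := fun a b c => int_pd (G a b).1 (G a b).2 c
  have key : ∀ x, pd i g x * β j x - pd j g x * β i x =
      pd i (fun y => y k * (pd j g y * β k y - pd k g y * β j y)) x +
      pd j (fun y => y k * (pd k g y * β i y - pd i g y * β k y)) x +
      pd k (fun y => y k * (pd i g y * β j y - pd j g y * β i y)) x := by
    intro x
    by_cases hx : x ∈ K
    · have hD := hKD hx
      have s := fun a => pd_smooth (hg.contDiffAt (x := x)) a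
      have b := fun a => hβ a x hD
      have c := (coord_smooth k).contDiffAt (x := x)
      simp only [pd_mul c (sW _ _ x hD), pd_sub ((s _).mul (b _)) ((s _).mul (b _)),
        pd_mul (s _) (b _), pd_coord, if_neg hi, if_neg hj, if_true]
      rw [pd_symm hg.contDiffAt j i, pd_symm hg.contDiffAt k i, pd_symm hg.contDiffAt k j,
        cl j i x hD, cl k i x hD, cl k j x hD]
      ring
    · have z : ∀ a b c, pd c (fun y => y k * (pd a g y * β b y - pd b g y * β a y)) x = 0 :=
        fun a b c => pd_const (c := 0) (by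
          filter_upwards [hK.isClosed.isOpen_compl.mem_nhds hx] with y hy
          simp [h0 _ y hy]) c
      simp [z, h0 _ x hx]
  rw [integral_congr_ae (Eventually.of_forall key),
    integral_add ((I j k i).1.fun_add (I k i j).1) (I i j k).1, integral_add (I _ _ _).1 (I _ _ _).1,
    (I _ _ _).2, (I _ _ _).2, (I _ _ _).2]
  simp

noncomputable def P (f : E → ℝ) (x : E) : ℝ := pd 0 f x * x 0 + pd 2 f x * x 2

theorem int_P {f : E → ℝ} (h : ContDiff ℝ ∞ f) (hc : HasCompactSupport f) :
    Integrable (P f) ∧ ∫ x, P f x = -2 * ∫ x, f x := by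
  have I := fun k => int_pd (h.mul (coord_smooth k)) hc.mul_right k
  have F := h.continuous.integrable_of_hasCompactSupport (μ := volume) hc
  have key : P f = fun x => (pd 0 (fun y => f y * y 0) x + pd 2 (fun y => f y * y 2) x) -
      2 * f x := by
    ext x
    simp only [P, pd_mul h.contDiffAt (coord_smooth _).contDiffAt, pd_coord, if_true]
    ring
  rw [key]
  refine ⟨((I 0).1.add (I 2).1).sub (F.const_mul 2), ?_⟩
  simp only
  rw [integral_sub ((I 0).1.fun_add (I 2).1) (F.const_mul 2), integral_add (I 0).1 (I 2).1, (I 0).2,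
    (I 2).2, integral_const_mul]
  ring

def J : Matrix (Fin 4) (Fin 4) ℝ := !![0, 1, 0, 0; -1, 0, 0, 0; 0, 0, 0, 1; 0, 0, -1, 0]

theorem lin (A : E →L[ℝ] E) (h : ∀ v w, om (A v) (A w) = om v w) : |A.det| = 1 ∧
    ∀ a b, A (e 0) a * A (e 1) b - A (e 1) a * A (e 0) b + A (e 2) a * A (e 3) b -
      A (e 3) a * A (e 2) b = J a b := by
  set M : Matrix (Fin 4) (Fin 4) ℝ := fun a i => A (e i) a with hM
  have h1 : M.transpose * J * M = J := by
    ext i j
    have := h (e i) (e j)
    have h2 : om (e i) (e j) = J i j := by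
      fin_cases i <;> fin_cases j <;> simp [om, e, J]
    rw [← h2, ← this]
    simp [Matrix.mul_apply, Fin.sum_univ_four, J, om, hM]
    ring
  have JJ : J * J = -1 := by
    ext i j
    fin_cases i <;> fin_cases j <;> simp [Matrix.mul_apply, Fin.sum_univ_four, J]
  have h3 : -(J * M.transpose * J) * M = 1 := by
    rw [neg_mul, mul_assoc J, mul_assoc J, h1, JJ, neg_neg]
  have h4 : M * J * M.transpose = J := by
    have := congrArg (· * J) (mul_eq_one_comm.1 h3)
    simp only [mul_neg, neg_mul, mul_assoc, JJ, mul_one, one_mul, neg_neg] at this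
    rwa [mul_assoc]
  refine ⟨?_, fun a b => ?_⟩
  · have dJ : J.det ≠ 0 := by
      have := congrArg Matrix.det JJ
      rw [Matrix.det_mul, Matrix.det_neg] at this
      intro h0
      simp [h0] at this
      norm_num at this
    have h5 := congrArg Matrix.det h1
    rw [Matrix.det_mul, Matrix.det_mul, Matrix.det_transpose] at h5
    have h6 : M.det * M.det = 1 := mul_left_cancel₀ dJ (by linarith)
    have h7 : A.det = M.det := by
      rw [ContinuousLinearMap.det, ← LinearMap.det_toMatrix (EuclideanSpace.basisFun (Fin 4) ℝ).toBasis]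
      congr 1
    rw [h7]
    exact (abs_eq zero_le_one).2 (mul_self_eq_one_iff.1 h6)
  · rw [← h4]
    simp [Matrix.mul_apply, Fin.sum_univ_four, J, hM]
    ring

theorem clm_sum (L : E →L[ℝ] ℝ) (v : E) : L v = ∑ a, v a * L (e a) := by
  conv_lhs => rw [← (EuclideanSpace.basisFun (Fin 4) ℝ).sum_repr v]
  simp [e]

end Pool.Agent.H2.Shell
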