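import Mathlib
import Pool.Agent.H2.Shell1

open Set MeasureTheory Filter Topology Metric
open scoped ContDiff

namespace Pool.Agent.H2.Shell

structure IsSymplecticEmbedding (D : Set E) (φ : E → E) : Prop where
  smooth : ContDiffOn ℝ ∞ φ D
  inj : InjOn φ D
  symp : ∀ x ∈ D, ∀ v w, om (fderiv ℝ φ x v) (fderiv ℝ φ x w) = om v w

theorem intconst {S : Set E} (hS : IsPreconnected S) {f : E → ℝ} (hf : ContinuousOn f S)
    (h : ∀ x ∈ S, ∃ n : ℤ, f x = n) {x y : E} (hx : x ∈ S) (hy : y ∈ S) : f x = f y :=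
  hS.constant_of_mapsTo (T := range ((↑) : ℤ → ℝ))
    Int.isClosedEmbedding_coe_real.isEmbedding.isDiscrete_range hf
    (fun z hz => (h z hz).imp fun _ h => h.symm) hx hy

theorem loc {K : Set E} (hK : IsClosed K) {f : E → ℝ} (hf : Continuous f)
    (h : ∀ x ∉ K, ∃ n : ℤ, f x = n) {x : E} (hx : x ∉ K) : f =ᶠ[𝓝 x] fun _ => f x := by
  obtain ⟨r, hr, h1⟩ := Metric.isOpen_iff.1 hK.isOpen_compl x hx
  filter_upwards [ball_mem_nhds x hr] with y hy
  exact intconst (convex_ball x r).isPreconnected hf.continuousOn (fun z hz => h z (h1 hz)) hy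
    (mem_ball_self hr)

theorem princ {W K : Set E} (hW : IsOpen W) (hK : K ⊆ W) {H : E → ℝ} (h0 : ∀ y ∈ W, H y = 0)
    (h : ∀ y ∉ K, H =ᶠ[𝓝 y] fun _ => H y) (hne : W.Nonempty) (y : E) : H y = 0 := by
  obtain ⟨x, hx⟩ := hne
  rw [← h0 x hx]
  refine ((IsLocallyConstant.iff_eventually_eq H).2 fun z => ?_).apply_eq_of_preconnectedSpace y x
  by_cases hz : z ∈ W
  · filter_upwards [hW.mem_nhds hz] with w hw
    rw [h0 w hw, h0 z hz]
  · exact h z fun h' => hz (hK h')

theorem radial {I : Set ℝ} (hI : IsPreconnected I) (h0 : ∀ t ∈ I, 0 < t) :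
    IsPreconnected {x : E | ‖x‖ ∈ I} := by
  have : {x : E | ‖x‖ ∈ I} = (fun p : ℝ × E => p.1 • p.2) '' (I ×ˢ sphere 0 1) := by
    ext x
    constructor
    · intro hx
      have p := (h0 _ hx).ne'
      exact ⟨(‖x‖, ‖x‖⁻¹ • x), ⟨hx, by simp [norm_smul, p]⟩, by simp [smul_smul, p]⟩
    · rintro ⟨⟨t, y⟩, ⟨ht, hy⟩, rfl⟩
      have : ‖y‖ = 1 := by simpa using hy
      simpa [norm_smul, this, abs_of_pos (h0 t ht)] using ht
  rw [this]
  refine (hI.prod (isPreconnected_sphere ?_ 0 1)).image _ (by fun_prop)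
  rw [← Module.finrank_eq_rank]
  simp

theorem pull {D K : Set E} (hD : IsOpen D) (hK : IsCompact K) (hKD : K ⊆ D) {φ : E → E}
    (hφ : IsSymplecticEmbedding D φ) {g F : E → ℝ} (hg : ContDiff ℝ ∞ g) (hF : ContDiff ℝ ∞ F)
    (cg : HasCompactSupport g) (cF : HasCompactSupport F) (g0 : ∀ i, ∀ x ∉ K, pd i g x = 0)
    (F0 : ∀ i, ∀ y ∉ φ '' D, pd i F y = 0) {c : ℝ} (hc : ∀ x ∈ D, F (φ x) = g x + c) :
    ∫ y, F y = ∫ x, g x := by
  have sφ : ∀ x ∈ D, ContDiffAt ℝ ∞ φ x := fun x hx => hφ.smooth.contDiffAt (hD.mem_nhds hx)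
  have dφ : ∀ x ∈ D, HasFDerivAt φ (fderiv ℝ φ x) x := fun x hx =>
    ((sφ x hx).differentiableAt (by simp)).hasFDerivAt
  have sc : ∀ b, ∀ x ∈ D, ContDiffAt ℝ ∞ (fun y => φ y b) x := fun b x hx =>
    (coord_smooth b).contDiffAt.comp x (sφ x hx)
  have pc : ∀ j b, ∀ x ∈ D, pd j (fun y => φ y b) x = fderiv ℝ φ x (e j) b := fun j b x hx =>
    congrArg (fun L : E →L[ℝ] ℝ => L (e j))
      ((EuclideanSpace.proj b : E →L[ℝ] ℝ).hasFDerivAt.comp x (dφ x hx)).fderiv
  set β : Fin 4 → E → ℝ := fun j y => φ y 0 * pd j (fun z => φ z 1) y +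
    φ y 2 * pd j (fun z => φ z 3) y - (y 0 * pd j (fun z => z 1) y + y 2 * pd j (fun z => z 3) y)
    with hβ
  have co := fun k (x : E) => (coord_smooth k).contDiffAt (x := x)
  have sβ : ∀ j, ∀ x ∈ D, ContDiffAt ℝ ∞ (β j) x := fun j x hx =>
    (((sc 0 x hx).mul (pd_smooth (sc 1 x hx) j)).add ((sc 2 x hx).mul
      (pd_smooth (sc 3 x hx) j))).sub (((co 0 x).mul (pd_smooth (co 1 x) j)).add
        ((co 2 x).mul (pd_smooth (co 3 x) j)))
  have cl : ∀ i j, ∀ x ∈ D, pd i (β j) x = pd j (β i) x := by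
    intro i j x hx
    have k : ∀ i j, pd i (β j) x = φ x 0 * pd i (pd j fun z => φ z 1) x +
        pd j (fun z => φ z 1) x * pd i (fun z => φ z 0) x +
        (φ x 2 * pd i (pd j fun z => φ z 3) x + pd j (fun z => φ z 3) x * pd i (fun z => φ z 2) x) -
        (x 0 * pd i (pd j fun z => z 1) x + pd j (fun z => z 1) x * pd i (fun z => z 0) x +
        (x 2 * pd i (pd j fun z => z 3) x + pd j (fun z => z 3) x * pd i (fun z => z 2) x)) := by
      intro i j
      rw [hβ]
      simp only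
      rw [pd_sub (((sc 0 x hx).mul (pd_smooth (sc 1 x hx) j)).add ((sc 2 x hx).mul
        (pd_smooth (sc 3 x hx) j))) (((co 0 x).mul (pd_smooth (co 1 x) j)).add
        ((co 2 x).mul (pd_smooth (co 3 x) j))), pd_add ((sc 0 x hx).mul (pd_smooth (sc 1 x hx) j))
        ((sc 2 x hx).mul (pd_smooth (sc 3 x hx) j)), pd_add ((co 0 x).mul (pd_smooth (co 1 x) j))
        ((co 2 x).mul (pd_smooth (co 3 x) j)), pd_mul (sc 0 x hx) (pd_smooth (sc 1 x hx) j),
        pd_mul (sc 2 x hx) (pd_smooth (sc 3 x hx) j), pd_mul (co 0 x) (pd_smooth (co 1 x) j),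
        pd_mul (co 2 x) (pd_smooth (co 3 x) j)]
    have s := hφ.symp x hx (e i) (e j)
    have t : ∀ a b, pd a (fun z : E => z b) x = e a b := fun a b => by
      rw [pd_coord]; simp [e]
    rw [k, k, pd_symm (sc 1 x hx) i j, pd_symm (sc 3 x hx) i j, pd_symm (co 1 x) i j,
      pd_symm (co 3 x) i j]
    simp only [pc _ _ x hx, t, om] at s ⊢
    linarith
  have key : ∀ x ∈ D, P F (φ x) = (pd 0 g x * β 1 x - pd 1 g x * β 0 x) +
      (pd 2 g x * β 3 x - pd 3 g x * β 2 x) + P g x := by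
    intro x hx
    have ch : ∀ i, pd i g x = ∑ a, fderiv ℝ φ x (e i) a * pd a F (φ x) := fun i => by
      have h1 : HasFDerivAt (fun y => F (φ y) - c) _ x :=
        (((hF.differentiable (by simp)) (φ x)).hasFDerivAt.comp x (dφ x hx)).sub_const c
      have h2 : g =ᶠ[𝓝 x] fun y => F (φ y) - c := by
        filter_upwards [hD.mem_nhds hx] with y hy
        rw [hc y hy, add_sub_cancel_right]
      unfold pd
      rw [h2.fderiv_eq, h1.fderiv, ContinuousLinearMap.comp_apply, clm_sum]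
    have l := (lin _ (hφ.symp x hx)).2
    have l0 := l 0 1
    have l1 := l 1 1
    have l2 := l 2 1
    have l3 := l 3 1
    have m0 := l 0 3
    have m1 := l 1 3
    have m2 := l 2 3
    have m3 := l 3 3
    simp only [P, hβ, pc _ _ x hx, pd_coord, ch, Fin.sum_univ_four]
    simp [J] at l0 l1 l2 l3 m0 m1 m2 m3 ⊢
    linear_combination (-(φ x 0) * pd 0 F (φ x)) * l0 - (φ x 0) * pd 1 F (φ x) * l1 -
      (φ x 0) * pd 2 F (φ x) * l2 - (φ x 0) * pd 3 F (φ x) * l3 - (φ x 2) * pd 0 F (φ x) * m0 -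
      (φ x 2) * pd 1 F (φ x) * m1 - (φ x 2) * pd 2 F (φ x) * m2 - (φ x 2) * pd 3 F (φ x) * m3
  have I : ∀ a b, Integrable fun x => pd a g x * β b x - pd b g x * β a x := fun a b =>
    have G := glue hK hKD (f := fun x => pd a g x * β b x - pd b g x * β a x)
      (fun x hx => ((pd_smooth hg.contDiffAt a).mul (sβ b x hx)).sub
        ((pd_smooth hg.contDiffAt b).mul (sβ a x hx))) fun x hx => by simp [g0 _ x hx]
    G.1.continuous.integrable_of_hasCompactSupport G.2
  have e1 : ∫ y, P F y = ∫ x, P g x := by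
    rw [← setIntegral_eq_integral_of_forall_compl_eq_zero (s := φ '' D)
      (fun y hy => by simp [P, F0 _ y hy]),
      integral_image_eq_integral_abs_det_fderiv_smul volume hD.measurableSet
        (fun x hx => (dφ x hx).hasFDerivWithinAt) hφ.inj,
      setIntegral_congr_fun hD.measurableSet (g := fun x => (pd 0 g x * β 1 x - pd 1 g x * β 0 x) +
        (pd 2 g x * β 3 x - pd 3 g x * β 2 x) + P g x)
        (fun x hx => by simp only [(lin _ (hφ.symp x hx)).1, one_smul, key x hx]),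
      setIntegral_eq_integral_of_forall_compl_eq_zero
        (fun x hx => by simp [P, g0 _ x fun h => hx (hKD h)]),
      integral_add ((I 0 1).fun_add (I 2 3)) (int_P hg cg).1, integral_add (I 0 1) (I 2 3),
      stokes hK hKD hg g0 sβ cl (k := 2) (by decide) (by decide),
      stokes hK hKD hg g0 sβ cl (k := 0) (by decide) (by decide)]
    simp
  rw [(int_P hF cF).2, (int_P hg cg).2] at e1
  linarith

theorem hull {D K : Set E} (hD : IsOpen D) (cD : IsPreconnected D) (nD : D.Nonempty)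
    (hK : IsCompact K) (hKD : K ⊆ D) {φ : E → E} (hφ : IsSymplecticEmbedding D φ)
    (hX : φ '' D ⊆ ball 0 1) {g : E → ℝ} (hg : ContDiff ℝ ∞ g) (cg : HasCompactSupport g)
    (g01 : ∀ x, 0 ≤ g x ∧ g x ≤ 1) (gK : ∀ x ∉ K, g x = 0 ∨ g x = 1) (gp : 0 < ∫ x, g x) :
    IsOpen (φ '' D) ∧ ∃ u : E → ℝ, Continuous u ∧ HasCompactSupport u ∧
      (∀ y ∉ ball (0 : E) 1, u y = 0) ∧ (∀ y, 0 ≤ u y ∧ u y ≤ 1) ∧
      (∀ y ∉ φ '' K, ∃ n : ℤ, u y = n) ∧ (∀ x ∈ D, u (φ x) = g x) ∧ ∫ y, u y = ∫ x, g x := by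
  classical
  set ψ := Function.invFunOn φ D
  have li : ∀ x ∈ D, ψ (φ x) = x := fun x hx => hφ.inj.leftInvOn_invFunOn hx
  have ift : ∀ x ∈ D, φ '' D ∈ 𝓝 (φ x) ∧ ContDiffAt ℝ ∞ ψ (φ x) := by
    intro x hx
    have s : ContDiffAt ℝ ∞ φ x := hφ.smooth.contDiffAt (hD.mem_nhds hx)
    have d0 : (fderiv ℝ φ x).det ≠ 0 := fun h => by simpa [h] using (lin _ (hφ.symp x hx)).1
    have d : HasFDerivAt φ ((fderiv ℝ φ x).toContinuousLinearEquivOfDetNeZero d0 : E →L[ℝ] E) x :=
      (s.differentiableAt (by simp)).hasFDerivAt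
    have st := s.hasStrictFDerivAt' d (by simp)
    refine ⟨st.map_nhds_eq_of_equiv ▸ image_mem_map (hD.mem_nhds hx),
      (s.to_localInverse d (by simp)).congr_of_eventuallyEq (st.localInverse_unique ?_)⟩
    filter_upwards [hD.mem_nhds hx] with y hy using li y hy
  have oD : IsOpen (φ '' D) := isOpen_iff_mem_nhds.2 (by rintro _ ⟨x, hx, rfl⟩; exact (ift x hx).1)
  have cK : IsClosed (φ '' K) := (hK.image_of_continuousOn
    (hφ.smooth.continuousOn.mono hKD)).isClosed
  have KD : φ '' K ⊆ φ '' D := image_mono hKD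
  set v : E → ℝ := fun y => if y ∈ φ '' D then g (ψ y) else 0 with hv
  have v1 : ∀ x ∈ D, v (φ x) = g x := fun x hx => by
    simp only [hv, if_pos (mem_image_of_mem φ hx), li x hx]
  have v0 : ∀ y ∉ φ '' K, v y = 0 ∨ v y = 1 := by
    intro y hy
    by_cases h : y ∈ φ '' D
    · obtain ⟨x, hx, rfl⟩ := h
      rw [v1 x hx]
      exact gK x fun h => hy (mem_image_of_mem φ h)
    · exact Or.inl (if_neg h)
  have V0 : ∀ y ∉ φ '' K, (v y : AddCircle (1 : ℝ)) = 0 := fun y hy => by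
    rcases v0 y hy with h | h <;> rw [h]
    exacts [rfl, AddCircle.coe_period 1]
  have sv : ∀ y ∈ φ '' D, ContDiffAt ℝ ∞ v y := by
    rintro _ ⟨x, hx, rfl⟩
    refine (hg.contDiffAt.comp _ (ift x hx).2).congr_of_eventuallyEq ?_
    filter_upwards [(ift x hx).1] with y hy using if_pos hy
  have cV : Continuous fun y => (v y : AddCircle (1 : ℝ)) := by
    refine continuous_iff_continuousAt.2 fun y => ?_
    by_cases h : y ∈ φ '' K
    · exact (AddCircle.continuous_mk' 1).continuousAt.comp (sv y (KD h)).continuousAt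
    · refine (continuousAt_const (y := 0)).congr ?_
      filter_upwards [cK.isOpen_compl.mem_nhds h] with z hz using (V0 z hz).symm
  have out : ∀ y ∉ ball (0 : E) 1, y ∉ φ '' K := fun y hy h => hy (hX (KD h))
  have e0 : e 0 ∉ ball (0 : E) 1 := by simp [e]
  obtain ⟨F, ⟨F0, F1⟩, -⟩ := (AddCircle.isCoveringMap_coe (1 : ℝ)).existsUnique_continuousMap_lifts
    ⟨_, cV⟩ (e 0) 0 (V0 _ (out _ e0)).symm
  have Z : ∀ y, ∃ n : ℤ, F y - v y = n := fun y => by
    have : ((F y - v y : ℝ) : AddCircle (1 : ℝ)) = 0 := by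
      rw [AddCircle.coe_sub, sub_eq_zero]; exact congrFun F1 y
    obtain ⟨n, hn⟩ := (AddCircle.coe_eq_zero_iff 1).1 this
    exact ⟨n, by simpa using hn.symm⟩
  have Z0 : ∀ y ∉ φ '' K, ∃ n : ℤ, F y = n := fun y hy => by
    obtain ⟨n, hn⟩ := Z y
    rcases v0 y hy with h | h
    · exact ⟨n, by linarith⟩
    · exact ⟨n + 1, by push_cast; linarith⟩
  obtain ⟨x0, hx0⟩ := nD
  obtain ⟨c, hc⟩ := Z (φ x0)
  have Fc : ∀ y ∈ φ '' D, F y = v y + c := fun y hy => by
    rw [← hc, ← intconst (cD.image φ hφ.smooth.continuousOn) (f := fun y => F y - v y)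
      (fun y hy => (F.continuous.continuousAt.sub (sv y hy).continuousAt).continuousWithinAt)
      (fun y _ => Z y) hy (mem_image_of_mem φ hx0)]
    ring
  have lc := fun y hy => loc cK F.continuous Z0 (x := y) hy
  have sF : ContDiff ℝ ∞ F := contDiff_iff_contDiffAt.2 fun y => by
    by_cases h : y ∈ φ '' K
    · refine ((sv y (KD h)).add (contDiffAt_const (c := (c : ℝ)))).congr_of_eventuallyEq ?_
      filter_upwards [oD.mem_nhds (KD h)] with z hz using Fc z hz
    · exact contDiffAt_const.congr_of_eventuallyEq (lc y h)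
  have Fo : ∀ y ∉ ball (0 : E) 1, F y = 0 := fun y hy => by
    rw [← F0]
    exact intconst (radial (I := Ici 1) isPreconnected_Ici fun t ht => one_pos.trans_le ht)
      F.continuous.continuousOn (fun z hz => Z0 z (out z (by simpa using hz)))
      (by simpa using hy) (by simp [e])
  have cF : HasCompactSupport F :=
    .intro (isCompact_closedBall 0 1) fun y hy => Fo y fun h => hy (ball_subset_closedBall h)
  have rg : ∀ y, c ≤ F y ∧ F y ≤ c + 1 := fun y => by
    have := princ oD KD (H := fun y => F y - max (c : ℝ) (min (F y) (c + 1))) (by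
      rintro _ ⟨x, hx, rfl⟩
      rw [Fc _ (mem_image_of_mem φ hx), v1 x hx, min_eq_left (by linarith [(g01 x).2]),
        max_eq_right (by linarith [(g01 x).1]), sub_self]) (fun y hy => by
      filter_upwards [lc y hy] with z hz
      rw [hz]) ⟨_, mem_image_of_mem φ hx0⟩ y
    rw [sub_eq_zero] at this
    exact ⟨(le_max_left _ _).trans this.ge, this.le.trans (max_le (by linarith) (min_le_right _ _))⟩
  have Fg : ∀ x ∈ D, F (φ x) = g x + c := fun x hx => by rw [Fc _ (mem_image_of_mem φ hx), v1 x hx]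
  have int := pull hD hK hKD hφ hg sF cg cF (fun i x hx => pd_const (loc hK.isClosed hg.continuous
    (fun x hx => (gK x hx).elim (fun h => ⟨0, by simpa using h⟩) fun h => ⟨1, by simpa using h⟩) hx) i)
    (fun i y hy => pd_const (lc y fun h => hy (KD h)) i) Fg
  have c0 : c = 0 := by
    have h1 := rg (e 0)
    rw [F0] at h1
    have h2 : c ≤ 0 := by exact_mod_cast h1.1
    by_contra h
    have h3 : (c : ℝ) ≤ -1 := by exact_mod_cast (by omega : c ≤ -1)
    have : ∫ y, F y ≤ 0 := integral_nonpos fun y => by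
      have := (rg y).2
      simp only [Pi.zero_apply]
      linarith
    linarith
  subst c0
  exact ⟨oD, F, F.continuous, cF, Fo, by simpa using rg, Z0, by simpa using Fg, int⟩

end Pool.Agent.H2.Shell
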