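import Mathlib

set_option autoImplicit false

namespace Pool.Agent.H2.SumFree

open Filter Cardinal Set

section
variable {S : Set ℝ} {κ : Cardinal} (hκ : κ.IsRegular)

lemma tend (f : ℝ → ℝ) (hf : Function.Injective f) :
    Tendsto f (cocardinal ℝ hκ) (cocardinal ℝ hκ) := by
  intro s hs
  rw [mem_map, mem_cocardinal]
  rw [mem_cocardinal] at hs
  exact lt_of_le_of_lt (mk_preimage_of_injective f sᶜ hf) hs

lemma aff_inj {q : ℝ} (hq : q ≠ 0) (k : ℝ) : Function.Injective (fun x : ℝ => q * x + k) := by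
  intro x y h
  exact mul_left_cancel₀ hq (add_right_cancel h)

variable (hS : ∀ a ∈ S, ∀ b ∈ S, a + b ∉ S)
  (hno : ∀ A : Set ℝ, (∀ a ∈ A, a ∉ S) → (∀ a ∈ A, ∀ b ∈ A, a + b ∉ S) → #A < κ)
include hS hno

lemma mid (d : ℝ) : ∀ᶠ s in cocardinal ℝ hκ, s ∈ S → s + 2 * d ∈ S → s + d ∈ S := by
  have h := hno {a | a - d ∈ S ∧ a + d ∈ S ∧ a ∉ S} (fun a ha => ha.2.2) (by
    intro a ha b hb
    have := hS _ ha.1 _ hb.2.1
    rwa [show a - d + (b + d) = a + b by ring] at this)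
  have h2 : ∀ᶠ a in cocardinal ℝ hκ, a ∉ {a | a - d ∈ S ∧ a + d ∈ S ∧ a ∉ S} :=
    eventually_cocardinal_notMem_of_card_lt h
  have h3 := (tend hκ (fun s => s + d) (add_left_injective d)).eventually h2
  filter_upwards [h3] with s hs h4 h5
  by_contra h6
  apply hs
  refine ⟨by simpa using h4, ?_, h6⟩
  rwa [show s + d + d = s + 2 * d by ring]

omit hS hno in
/-- `r` is a good ratio -/
def Conv (S : Set ℝ) (r : ℝ) : Prop :=
  ∀ δ : ℝ, ∀ᶠ s in cocardinal ℝ hκ, s ∈ S → s + δ ∈ S → s + r * δ ∈ S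

omit hS hno in
lemma conv0 : Conv hκ S 0 := fun δ => Eventually.of_forall fun s h _ => by simpa using h

omit hS hno in
lemma conv1 : Conv hκ S 1 := fun δ => Eventually.of_forall fun s _ h => by simpa using h

lemma conv_mid {r r' t : ℝ} (h : Conv hκ S r) (h' : Conv hκ S r') (ht : t = (r + r') / 2) :
    Conv hκ S t := by
  intro δ
  have h3 := (tend hκ (fun s => s + r * δ) (add_left_injective _)).eventually
    (mid hκ hS hno ((r' - r) * δ / 2))
  filter_upwards [h δ, h' δ, h3] with s h1 h2 h3 h4 h5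
  have := h3 (h1 h4 h5) (by
    rw [show s + r * δ + 2 * ((r' - r) * δ / 2) = s + r' * δ by ring]; exact h2 h4 h5)
  rwa [show s + r * δ + (r' - r) * δ / 2 = s + t * δ by rw [ht]; ring] at this

omit hS in
lemma lemA (p : ℝ → Prop) (f : ℝ → ℝ) (hf : Function.Injective f)
    (hp : ∀ x, p x → f x ∉ S ∧ f x + f x ∉ S) (hfat : ∃ᶠ x in cocardinal ℝ hκ, p x) :
    ∃ x0, p x0 ∧ ∃ᶠ x in cocardinal ℝ hκ, p x ∧ f x + f x0 ∈ S := by
  by_contra hcon
  push Not at hcon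
  obtain ⟨M, hM⟩ := zorn_subset {M : Set ℝ | (∀ x ∈ M, p x) ∧ ∀ x ∈ M, ∀ y ∈ M, f x + f y ∉ S} (by
    intro c hc hchain
    refine ⟨⋃₀ c, ⟨?_, ?_⟩, fun s hs => subset_sUnion_of_mem hs⟩
    · rintro x ⟨s, hs, hx⟩
      exact (hc hs).1 x hx
    · rintro x ⟨s, hs, hx⟩ y ⟨t, ht, hy⟩
      rcases hchain.total hs ht with h | h
      · exact (hc ht).2 x (h hx) y hy
      · exact (hc hs).2 x hx y (h hy))
  have hMs : #M < κ := by
    rw [← mk_image_eq hf]
    apply hno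
    · rintro _ ⟨x, hx, rfl⟩
      exact (hp x (hM.prop.1 x hx)).1
    · rintro _ ⟨x, hx, rfl⟩ _ ⟨y, hy, rfl⟩
      exact hM.prop.2 x hx y hy
  have h1 : ∀ᶠ x in cocardinal ℝ hκ, ∀ x0, ∀ _ : x0 ∈ M, p x → f x + f x0 ∉ S := by
    rw [eventually_cardinal_ball hMs]
    intro x0 hx0
    exact hcon x0 (hM.prop.1 x0 hx0)
  have h2 : ∀ᶠ x in cocardinal ℝ hκ, x ∉ M := eventually_cocardinal_notMem_of_card_lt hMs
  obtain ⟨x, hx, hx1, hx2⟩ := (hfat.and_eventually (h1.and h2)).exists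
  apply hx2
  have hmem : insert x M ∈ {M : Set ℝ | (∀ x ∈ M, p x) ∧ ∀ x ∈ M, ∀ y ∈ M, f x + f y ∉ S} := by
    refine ⟨?_, ?_⟩
    · rintro y (rfl | hy)
      · exact hx
      · exact hM.prop.1 y hy
    · rintro y (rfl | hy) z (rfl | hz)
      · exact (hp _ hx).2
      · exact hx1 z hz hx
      · rw [add_comm]; exact hx1 y hy hx
      · exact hM.prop.2 y hy z hz
  exact hM.le_of_ge hmem (subset_insert x M) (mem_insert x M)

omit hno in
lemma noD {r δ : ℝ} (hr : Conv hκ S r) (hδ : r * δ ∈ S) {q : ℝ} (hq : q ≠ 0) (k k' : ℝ)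
    (hk : k' = k + δ) :
    ∀ᶠ x in cocardinal ℝ hκ, q * x + k ∈ S → q * x + k' ∉ S := by
  filter_upwards [(tend hκ _ (aff_inj hq k)).eventually (hr δ)] with x hx h1 h2
  exact hS _ h1 _ hδ (hx h1 (by rwa [hk, ← add_assoc] at h2))

lemma rule2 {r : ℝ} (hr : Conv hκ S r) {q : ℝ} (hq : q ≠ 0) (k l : ℝ) :
    ∀ᶠ x in cocardinal ℝ hκ, q * x + k ∈ S → r * (q * x + l) ∈ S →
      (q * x + (k + l) / 2 ∈ S ∨ 2 * q * x + (k + l) ∈ S) := by
  by_contra hcon
  rw [not_eventually] at hcon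
  obtain ⟨x0, hx0, hfr⟩ := lemA hκ hno _ _ (aff_inj hq ((k + l) / 2)) (by
    intro x hx
    push Not at hx
    refine ⟨hx.2.2.1, ?_⟩
    have := hx.2.2.2
    rwa [show 2 * q * x + (k + l) = q * x + (k + l) / 2 + (q * x + (k + l) / 2) by ring] at this) hcon
  push Not at hx0
  obtain ⟨x, ⟨hx, hx1⟩, hx2⟩ :=
    (hfr.and_eventually (noD hκ hS hr hx0.2.1 hq k _ rfl)).exists
  push Not at hx
  apply hx2 hx.1
  rwa [show q * x + (k + (q * x0 + l)) = q * x + (k + l) / 2 + (q * x0 + (k + l) / 2) by ring]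

lemma c2 : Conv hκ S (1 / 2) := conv_mid hκ hS hno (conv0 hκ) (conv1 hκ) (by norm_num)
lemma c4 : Conv hκ S (1 / 4) := conv_mid hκ hS hno (conv0 hκ) (c2 hκ hS hno) (by norm_num)
lemma c8 : Conv hκ S (1 / 8) := conv_mid hκ hS hno (conv0 hκ) (c4 hκ hS hno) (by norm_num)
lemma c16 : Conv hκ S (1 / 16) := conv_mid hκ hS hno (conv0 hκ) (c8 hκ hS hno) (by norm_num)
lemma c38 : Conv hκ S (3 / 8) := conv_mid hκ hS hno (c4 hκ hS hno) (c2 hκ hS hno) (by norm_num)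
lemma c316 : Conv hκ S (3 / 16) := conv_mid hκ hS hno (c4 hκ hS hno) (c8 hκ hS hno) (by norm_num)
lemma c516 : Conv hκ S (5 / 16) := conv_mid hκ hS hno (c4 hκ hS hno) (c38 hκ hS hno) (by norm_num)

lemma key2 : ∀ᶠ x in cocardinal ℝ hκ, x ∈ S → 4 * x ∈ S := by
  by_contra hcon
  rw [not_eventually] at hcon
  obtain ⟨x0, hx0, hfr⟩ := lemA hκ hno _ (fun x => 2 * x) (mul_right_injective₀ two_ne_zero) (by
    intro x hx
    push Not at hx
    refine ⟨?_, ?_⟩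
    · rw [two_mul]; exact hS _ hx.1 _ hx.1
    · rw [show 2 * x + 2 * x = 4 * x by ring]; exact hx.2) hcon
  push Not at hx0
  have e1 := rule2 hκ hS hno (c2 hκ hS hno) (q := 2) two_ne_zero (2 * x0) 0
  have e2 := rule2 hκ hS hno (c4 hκ hS hno) (q := 4) (by norm_num) (2 * x0) 0
  have e3 := rule2 hκ hS hno (c2 hκ hS hno) (q := 4) (by norm_num) (2 * x0) (4 * x0)
  have n1 := noD hκ hS (conv1 hκ) (δ := x0) (by simpa using hx0.1) (q := 2) two_ne_zero
    ((2 * x0 + 0) / 2) (2 * x0) (by ring)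
  have n2 := noD hκ hS (conv1 hκ) (δ := x0) (by simpa using hx0.1) (q := 4) (by norm_num)
    ((2 * x0 + 0) / 2) (2 * x0) (by ring)
  have n3 := noD hκ hS (conv1 hκ) (δ := x0) (by simpa using hx0.1) (q := 4) (by norm_num)
    (2 * x0) ((2 * x0 + 4 * x0) / 2) (by ring)
  have n4 := noD hκ hS (c4 hκ hS hno) (δ := 4 * x0)
    (by rw [show 1 / 4 * (4 * x0) = x0 by ring]; exact hx0.1) (q := 2 * 4) (by norm_num)
    (2 * x0 + 0) (2 * x0 + 4 * x0) (by ring)
  obtain ⟨x, ⟨hx, h0⟩, e1, e2, e3, n1, n2, n3, n4⟩ :=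
    (hfr.and_eventually (e1.and (e2.and (e3.and (n1.and (n2.and (n3.and n4))))))).exists
  push Not at hx
  rcases e1 h0 (by rw [show 1 / 2 * (2 * x + 0) = x by ring]; exact hx.1) with h | h
  · exact n1 h h0
  rw [show 2 * 2 * x + (2 * x0 + 0) = 4 * x + 2 * x0 by ring] at h
  rcases e2 h (by rw [show 1 / 4 * (4 * x + 0) = x by ring]; exact hx.1) with h' | h'
  · exact n2 h' h
  rcases e3 h (by rw [show 1 / 2 * (4 * x + 4 * x0) = 2 * x + 2 * x0 by ring]; exact h0) with h'' | h''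
  · exact n3 h h''
  exact n4 h' h''

lemma key16 : ∀ᶠ x in cocardinal ℝ hκ, x ∈ S → 4 * x ∈ S ∧ 16 * x ∈ S ∧ 64 * x ∈ S := by
  have h1 := key2 hκ hS hno
  have h2 := (tend hκ (fun x => 4 * x) (mul_right_injective₀ (by norm_num))).eventually h1
  have h3 := (tend hκ (fun x => 16 * x) (mul_right_injective₀ (by norm_num))).eventually h1
  filter_upwards [h1, h2, h3] with x h1 h2 h3 hx
  have a1 := h1 hx
  have a2 := h2 a1
  rw [show 4 * (4 * x) = 16 * x by ring] at a2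
  have a3 := h3 a2
  rw [show 4 * (16 * x) = 64 * x by ring] at a3
  exact ⟨a1, a2, a3⟩

lemma keyq {q : ℝ} (hq : q ≠ 0) (hc : Conv hκ S (q / 16)) :
    ∀ᶠ x in cocardinal ℝ hκ, x ∈ S → q * x ∈ S ∨ q * x + q * x ∈ S := by
  by_contra hcon
  rw [not_eventually] at hcon
  obtain ⟨x0, hx0, hfr⟩ := lemA hκ hno _ (fun x => q * x) (mul_right_injective₀ hq) (by
    intro x hx
    push Not at hx
    exact hx.2) hcon
  push Not at hx0
  have e1 := rule2 hκ hS hno hc (q := 16) (by norm_num) 0 (16 * x0)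
  have e2 := rule2 hκ hS hno (c2 hκ hS hno) (q := 32) (by norm_num) (16 * x0) 0
  have n1 := noD hκ hS (c8 hκ hS hno) (δ := 8 * x0)
    (by rw [show 1 / 8 * (8 * x0) = x0 by ring]; exact hx0.1) (q := 16) (by norm_num)
    0 ((0 + 16 * x0) / 2) (by ring)
  have n2 := noD hκ hS (c8 hκ hS hno) (δ := 8 * x0)
    (by rw [show 1 / 8 * (8 * x0) = x0 by ring]; exact hx0.1) (q := 32) (by norm_num)
    ((16 * x0 + 0) / 2) (16 * x0) (by ring)
  have n3 := noD hκ hS (c16 hκ hS hno) (δ := 16 * x0)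
    (by rw [show 1 / 16 * (16 * x0) = x0 by ring]; exact hx0.1) (q := 2 * 32) (by norm_num)
    0 (16 * x0 + 0) (by ring)
  obtain ⟨x, ⟨hx, h0⟩, e0, e1, e2, n1, n2, n3⟩ :=
    (hfr.and_eventually ((key16 hκ hS hno).and (e1.and (e2.and (n1.and (n2.and n3)))))).exists
  push Not at hx
  obtain ⟨-, a16, a64⟩ := e0 hx.1
  have a16' : 16 * x + 0 ∈ S := by simpa using a16
  rcases e1 a16' (by rw [show q / 16 * (16 * x + 16 * x0) = q * x + q * x0 by ring]; exact h0) with h | h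
  · exact n1 a16' h
  rw [show 2 * 16 * x + (0 + 16 * x0) = 32 * x + 16 * x0 by ring] at h
  rcases e2 h (by rw [show 1 / 2 * (32 * x + 0) = 16 * x by ring]; exact a16) with h' | h'
  · exact n2 h' h
  exact n3 (by rw [show 2 * 32 * x + 0 = 64 * x by ring]; exact a64) h'

lemma small : ∀ᶠ x in cocardinal ℝ hκ, x ∉ S := by
  filter_upwards [key2 hκ hS hno, keyq hκ hS hno (q := 3) (by norm_num) (c316 hκ hS hno),
    keyq hκ hS hno (q := 5) (by norm_num) (c516 hκ hS hno)] with x h4 h3 h5 hx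
  have a4 := h4 hx
  rcases h3 hx with a3 | a3
  · apply hS _ hx _ a3
    rwa [show x + 3 * x = 4 * x by ring]
  rcases h5 hx with a5 | a5
  · apply hS _ hx _ a4
    rwa [show x + 4 * x = 5 * x by ring]
  apply hS _ a4 _ a3
  rwa [show 4 * x + (3 * x + 3 * x) = 5 * x + 5 * x by ring]

include hκ in
lemma absurd_of (hle : κ ≤ continuum) : False := by
  have h1 := small hκ hS hno
  have h2 := (tend hκ (fun x => 2 * x) (mul_right_injective₀ two_ne_zero)).eventually h1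
  have hne : ∃ᶠ x in cocardinal ℝ hκ, (fun _ : ℝ => True) x := by
    rw [frequently_cocardinal]
    simpa [Cardinal.mk_real] using hle
  have h3 : ∃ᶠ x in cocardinal ℝ hκ, x ∉ S ∧ x + x ∉ S := by
    refine (hne.and_eventually (h1.and h2)).mono ?_
    rintro x ⟨-, a, b⟩
    exact ⟨a, by rwa [two_mul] at b⟩
  obtain ⟨x0, -, hfr⟩ := lemA hκ hno _ id Function.injective_id (fun x hx => hx) h3
  have h4 := (tend hκ (fun x => x + x0) (add_left_injective x0)).eventually h1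
  obtain ⟨x, ⟨-, a⟩, b⟩ := (hfr.and_eventually h4).exists
  exact b a

end

theorem regular_case (S : Set ℝ) (hS : ∀ a ∈ S, ∀ b ∈ S, a + b ∉ S) (κ : Cardinal)
    (hκ : κ.IsRegular) (hle : κ ≤ continuum) :
    ∃ A : Set ℝ, (∀ x ∈ A, x ∉ S) ∧ #A = κ ∧ (∀ a ∈ A, ∀ b ∈ A, a + b ∉ S) := by
  by_contra hcon
  refine absurd_of hκ hS ?_ hle
  intro A h1 h2
  by_contra hlt
  obtain ⟨B, hB, hBc⟩ := le_mk_iff_exists_subset.1 (not_lt.1 hlt)
  exact hcon ⟨B, fun x hx => h1 x (hB hx), hBc, fun a ha b hb => h2 a (hB ha) b (hB hb)⟩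

end Pool.Agent.H2.SumFree
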