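import Mathlib

set_option autoImplicit false

/-! Definitions: characterized subgroups. -/

namespace Pool.Agent.H2.TCh

open Filter Topology

/-- The group of continuous characters. -/
abbrev Dual (Y : Type) [AddCommGroup Y] [TopologicalSpace Y] : Type := Y →ₜ+ UnitAddCircle

/-- The set of points at which a sequence of characters tends to zero. -/
def sv {Y : Type} [AddCommGroup Y] [TopologicalSpace Y] (v : ℕ → Dual Y) : Set Y :=
  {y | Tendsto (fun n => v n y) atTop (𝓝 0)}

/-- A sequence that is null in some Hausdorff group topology. -/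
def IsTSeq {G : Type} [AddCommGroup G] (v : ℕ → G) : Prop :=
  ∃ σ : TopologicalSpace G, @IsTopologicalAddGroup G σ _ ∧ @T2Space G σ ∧
    Tendsto v atTop (@nhds G σ 0)

/-- T-characterized subgroups. -/
def ChT {Y : Type} [AddCommGroup Y] [TopologicalSpace Y] (H : AddSubgroup Y) : Prop :=
  ∃ v : ℕ → Dual Y, IsTSeq v ∧ sv v = H

/-- Autocharacterized groups. -/
def Auto (Y : Type) [AddCommGroup Y] [TopologicalSpace Y] : Prop :=
  ∃ u : ℕ → Dual Y, (¬ ∀ᶠ n in atTop, u n = 0) ∧ sv u = Set.univ

end Pool.Agent.H2.TCh
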