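import Mathlib
import Pool.Agent.H2.TCh0

set_option autoImplicit false

/-! Counterexamples on T-characterized subgroups. -/

namespace Pool.Agent.H2.TCh

open Filter Topology Set

theorem tseq_of_subgroups {G : Type} [AddCommGroup G] (v : ℕ → G) (L : ℕ → AddSubgroup G)
    (h1 : ∀ N, ∀ᶠ n in atTop, v n ∈ L N) (h2 : ∀ g, (∀ N, g ∈ L N) → g = 0) : IsTSeq v := by
  letI : ∀ N, TopologicalSpace (G ⧸ L N) := fun _ => ⊥
  haveI : ∀ N, DiscreteTopology (G ⧸ L N) := fun _ => ⟨rfl⟩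
  let φ : G →+ (∀ N, G ⧸ L N) := Pi.addMonoidHom fun N => QuotientAddGroup.mk' (L N)
  have hφ : Function.Injective φ := (injective_iff_map_eq_zero φ).2 fun g hg =>
    h2 g fun N => (QuotientAddGroup.eq_zero_iff g).1 (congrFun hg N)
  letI σ : TopologicalSpace G := TopologicalSpace.induced φ inferInstance
  refine ⟨σ, topologicalAddGroup_induced φ, (IsEmbedding.mk ⟨rfl⟩ hφ).t2Space, ?_⟩
  rw [nhds_induced, tendsto_comap_iff, map_zero, tendsto_pi_nhds]
  intro N
  refine tendsto_const_nhds.congr' ?_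
  filter_upwards [h1 N] with n hn
  exact ((QuotientAddGroup.eq_zero_iff _).2 hn).symm

theorem tseq_of {Y : Type} [AddCommGroup Y] [TopologicalSpace Y] (v : ℕ → Dual Y) (p e : ℕ → Y)
    (h1 : ∀ n, ∀ᶠ M in atTop, v n (p M) = 0) (h2 : ∀ i, ∀ᶠ n in atTop, v n (e i) = 0)
    (h3 : ∀ g : Dual Y, (∀ᶠ M in atTop, g (p M) = 0) → (∀ i, g (e i) = 0) → g = 0) : IsTSeq v := by
  refine tseq_of_subgroups v (fun N =>
    { carrier := {g | (∀ᶠ M in atTop, g (p M) = 0) ∧ g (e N) = 0}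
      zero_mem' := ⟨Eventually.of_forall fun _ => rfl, rfl⟩
      add_mem' := ?_
      neg_mem' := ?_ }) (fun N => (h2 N).mono fun n hn => ⟨h1 n, hn⟩)
    fun g hg => h3 g (hg 0).1 fun i => (hg i).2
  · intro a b ha hb
    refine ⟨(ha.1.and hb.1).mono fun M hM => ?_, ?_⟩
    · show a (p M) + b (p M) = 0
      rw [hM.1, hM.2, add_zero]
    · show a (e N) + b (e N) = 0
      rw [ha.2, hb.2, add_zero]
  · intro a ha
    refine ⟨ha.1.mono fun M hM => ?_, ?_⟩
    · show -a (p M) = 0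
      rw [hM, neg_zero]
    · show -a (e N) = 0
      rw [ha.2, neg_zero]

theorem ev_zero_of_finite {G : Type} [AddCommGroup G] {v : ℕ → G} (hv : IsTSeq v) (k : ℕ)
    (hf : (range fun g : G => k • g).Finite) : ∀ᶠ n in atTop, k • v n = 0 := by
  obtain ⟨σ, h1, h2, h3⟩ := hv
  have h4 : Tendsto (fun n => k • v n) atTop (𝓝 0) := by simpa using h3.nsmul k
  have h5 : ((range fun g : G => k • g) \ {0})ᶜ ∈ 𝓝 (0 : G) :=
    (hf.subset diff_subset).isClosed.isOpen_compl.mem_nhds fun h => h.2 rfl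
  filter_upwards [h4.eventually h5] with n hn
  by_contra h
  exact hn ⟨⟨_, rfl⟩, h⟩

theorem nsmul_app {Y : Type} [AddCommGroup Y] [TopologicalSpace Y] (k : ℕ) (g : Dual Y) (y : Y) :
    (k • g) y = k • g y := by
  induction k with
  | zero => simp
  | succ k ih => rw [succ_nsmul, succ_nsmul, ← ih]; rfl

theorem finite_range {Y : Type} [AddCommGroup Y] [TopologicalSpace Y] (k m : ℕ) (hm : 0 < m) (z : Y)
    (hz : m • z = 0) (h : ∀ y : Y, ∃ j : ℕ, k • y = j • z) :
    (range fun g : Dual Y => k • g).Finite := by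
  have h1 : {c : UnitAddCircle | m • c = 0}.Finite := AddCircle.finite_torsion 1 hm
  have h2 : ∀ c : UnitAddCircle, {f : Dual Y | ∃ g : Dual Y, g z = c ∧ k • g = f}.Subsingleton := by
    rintro c _ ⟨g, hg, rfl⟩ _ ⟨g', hg', rfl⟩
    ext y
    obtain ⟨j, hj⟩ := h y
    rw [nsmul_app, nsmul_app, ← map_nsmul, ← map_nsmul, hj, map_nsmul, map_nsmul, hg, hg']
  refine (h1.biUnion fun c _ => (h2 c).finite).subset ?_
  rintro _ ⟨g, rfl⟩
  exact mem_iUnion₂.2 ⟨g z, by simp [← map_nsmul, hz], g, rfl, rfl⟩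

abbrev W : Type := ℕ →₀ ZMod 2

theorem W_two (w : W) : 2 • w = 0 := by
  ext i
  have : ∀ x : ZMod 2, 2 • x = 0 := by decide
  simpa using this (w i)

theorem W_ev (w : W) : ∀ᶠ n in atTop, w n = 0 := by
  rw [← Nat.cofinite_eq_atTop, eventually_cofinite]
  exact w.finite_support

def dbl : ZMod 2 →+ ZMod 4 := AddMonoidHom.mk' (fun x => 2 * (x.val : ZMod 4)) (by decide)

noncomputable def sM (M : ℕ) : W := ∑ n ∈ Finset.range M, Finsupp.single n 1

theorem sM_apply {n M : ℕ} (h : n < M) : sM M n = 1 := by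
  simp [sM, Finsupp.finset_sum_apply, Finsupp.single_apply, h]

theorem W_ext {A : Type} [AddCommGroup A] (f : W →+ A) (h : ∀ i, f (Finsupp.single i 1) = 0) :
    f = 0 := by
  refine Finsupp.addHom_ext fun i b => ?_
  have : ∀ b : ZMod 2, b = 0 ∨ b = 1 := by decide
  rcases this b with rfl | rfl
  · simp
  · simpa using h i

theorem sv_iff {Y : Type} [AddCommGroup Y] [TopologicalSpace Y] (v : ℕ → Dual Y) (y : Y)
    (c : UnitAddCircle) (h : ∀ᶠ n in atTop, v n y = c) : y ∈ sv v ↔ c = 0 := by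
  have h1 : Tendsto (fun n => v n y) atTop (𝓝 c) := tendsto_const_nhds.congr' (h.mono fun _ => Eq.symm)
  exact ⟨fun h2 => tendsto_nhds_unique h1 h2, fun h2 => by rw [h2] at h1; exact h1⟩

theorem ex_trans : ∃ (X : Type) (_ : AddCommGroup X) (_ : TopologicalSpace X)
    (X₀ X₁ : AddSubgroup X), IsTopologicalAddGroup X ∧ T2Space X ∧ X₀ ≤ X₁ ∧
    (∀ χ : Dual X₁, ∃ ψ : Dual X, ∀ x : X₁, ψ x = χ x) ∧
    ChT (X₀.addSubgroupOf X₁) ∧ ChT X₁ ∧ ¬ ChT X₀ := by
  letI : TopologicalSpace (ZMod 4 × W) := ⊥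
  haveI : DiscreteTopology (ZMod 4 × W) := ⟨rfl⟩
  let X₀ : AddSubgroup (ZMod 4 × W) := (AddMonoidHom.fst _ _).ker
  let X₁ : AddSubgroup (ZMod 4 × W) := ((AddMonoidHom.mulLeft (2 : ZMod 4)).comp
    (AddMonoidHom.fst _ _)).ker
  have m0 : ∀ x, x ∈ X₀ ↔ x.1 = 0 := fun x => Iff.rfl
  have m1 : ∀ x, x ∈ X₁ ↔ 2 * x.1 = 0 := fun x => Iff.rfl
  let t : ZMod 4 →+ UnitAddCircle := ZMod.toAddCircle
  have ht : ∀ a, t a = 0 ↔ a = 0 := fun a => ZMod.toAddCircle_eq_zero
  let c : ZMod 4 → ℕ → (ZMod 4 × W) →+ UnitAddCircle := fun k n =>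
    t.comp ((AddMonoidHom.mulLeft k).comp (AddMonoidHom.fst _ _) +
      dbl.comp ((Finsupp.applyAddHom n).comp (AddMonoidHom.snd _ _)))
  have hc : ∀ k n x, c k n x = t (k * x.1 + dbl (x.2 n)) := fun _ _ _ => rfl
  have hc2 : ∀ k x, ∀ᶠ n in atTop, c k n x = t (k * x.1) := fun k x =>
    (W_ev x.2).mono fun n hn => by rw [hc, hn, map_zero, add_zero]
  refine ⟨ZMod 4 × W, inferInstance, inferInstance, X₀, X₁, inferInstance, inferInstance,
    fun x hx => by rw [m1, (m0 x).1 hx, mul_zero], ?_, ?_, ?_, ?_⟩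
  · intro χ
    obtain ⟨ψ, hψ⟩ := (Module.Baer.of_divisible UnitAddCircle).extension_property_addMonoidHom
      X₁.subtype X₁.subtype_injective χ.toAddMonoidHom
    exact ⟨⟨ψ, continuous_of_discreteTopology⟩, fun x => DFunLike.congr_fun hψ x⟩
  · refine ⟨fun n => ⟨(c 1 n).comp X₁.subtype, continuous_of_discreteTopology⟩, ?_, ?_⟩
    · refine tseq_of _ (fun M => ⟨(2, sM M), (m1 _).2 (show (2 : ZMod 4) * 2 = 0 by decide)⟩)
        (fun i => ⟨(0, Finsupp.single i 1), (m1 _).2 (mul_zero _)⟩) (fun n => ?_) (fun i => ?_) ?_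
      · filter_upwards [eventually_gt_atTop n] with M hM
        show c 1 n (2, sM M) = 0
        rw [hc, ht, sM_apply hM]
        show (1 : ZMod 4) * 2 + dbl 1 = 0
        decide
      · filter_upwards [hc2 1 (0, Finsupp.single i 1)] with n hn
        exact hn.trans (by simp)
      · intro g h1 h2
        let ι : W →+ X₁ := (AddMonoidHom.inr (ZMod 4) W).codRestrict X₁
          fun w => (m1 _).2 (mul_zero _)
        have h3 : ∀ w, g (ι w) = 0 := fun w =>
          DFunLike.congr_fun (W_ext (g.toAddMonoidHom.comp ι) h2) w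
        obtain ⟨M, hM⟩ := h1.exists
        ext ⟨⟨a, w⟩, hx⟩
        have h4 : ∀ a : ZMod 4, 2 * a = 0 → a = 0 ∨ a = 2 := by decide
        rcases h4 a hx with rfl | rfl
        · exact h3 w
        · have : (⟨(2, w), hx⟩ : X₁) = ⟨(2, sM M), (m1 _).2 (show (2 : ZMod 4) * 2 = 0 by decide)⟩ + ι (w - sM M) := by
            ext1; ext1 <;> simp [ι]
          rw [this, map_add, hM, h3]; simp
    · ext x
      rw [sv_iff _ x _ (hc2 1 x.1), ht, one_mul]
      exact (m0 _).symm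
  · refine ⟨fun n => ⟨c 2 n, continuous_of_discreteTopology⟩, ?_, ?_⟩
    · refine tseq_of _ (fun M => (1, sM M)) (fun i => (0, Finsupp.single i 1))
        (fun n => ?_) (fun i => ?_) ?_
      · filter_upwards [eventually_gt_atTop n] with M hM
        show c 2 n (1, sM M) = 0
        rw [hc, ht, sM_apply hM]
        show (2 : ZMod 4) * 1 + dbl 1 = 0
        decide
      · filter_upwards [hc2 2 (0, Finsupp.single i 1)] with n hn
        exact hn.trans (by simp)
      · intro g h1 h2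
        have h3 : ∀ w, g (0, w) = 0 := fun w =>
          DFunLike.congr_fun (W_ext (g.toAddMonoidHom.comp (AddMonoidHom.inr (ZMod 4) W)) h2) w
        obtain ⟨M, hM⟩ := h1.exists
        ext ⟨a, w⟩
        have : ((a, w) : ZMod 4 × W) = a.val • (1, sM M) + (0, w - a.val • sM M) := by
          ext1 <;> simp
        rw [this, map_add, map_nsmul, hM, h3]; simp
    · ext x
      rw [sv_iff _ x _ (hc2 2 x), ht]
      exact (m1 _).symm
  · rintro ⟨v, hv, hs⟩
    have h1 := ev_zero_of_finite hv 2 (finite_range 2 2 two_pos ((2, 0) : ZMod 4 × W)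
      (by ext1; decide; simp) fun y => ⟨y.1.val, by
        ext1
        · have : ∀ a : ZMod 4, 2 • a = a.val • (2 : ZMod 4) := by decide
          exact this _
        · simpa using W_two y.2⟩)
    have h2 : ((2, 0) : ZMod 4 × W) ∈ sv v := by
      refine (sv_iff v _ 0 (h1.mono fun n hn => ?_)).2 rfl
      have h3 : 2 • v n (1, 0) = 0 := by rw [← nsmul_app, hn]; rfl
      rw [← map_nsmul] at h3
      simpa using h3
    rw [hs] at h2
    exact absurd ((m0 _).1 h2) (by decide)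

theorem ex_open : ∃ (X : Type) (_ : AddCommGroup X) (_ : TopologicalSpace X)
    (H Z : AddSubgroup X), IsTopologicalAddGroup X ∧ T2Space X ∧ IsOpen (H : Set X) ∧
    H.FiniteIndex ∧ IsHomeomorph (fun p : H × Z => (p.1 : X) + p.2) ∧ Auto H ∧ ¬ ChT H := by
  letI : TopologicalSpace (ZMod 3 × W) := ⊥
  haveI : DiscreteTopology (ZMod 3 × W) := ⟨rfl⟩
  let H : AddSubgroup (ZMod 3 × W) := (AddMonoidHom.fst _ _).ker
  let Z : AddSubgroup (ZMod 3 × W) := (AddMonoidHom.snd _ _).ker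
  have m0 : ∀ x, x ∈ H ↔ x.1 = 0 := fun x => Iff.rfl
  have m1 : ∀ x, x ∈ Z ↔ x.2 = 0 := fun x => Iff.rfl
  refine ⟨ZMod 3 × W, inferInstance, inferInstance, H, Z, inferInstance, inferInstance,
    isOpen_discrete _, inferInstance, ⟨continuous_of_discreteTopology,
      fun _ _ => isOpen_discrete _, ?_, ?_⟩, ?_, ?_⟩
  · rintro ⟨⟨⟨a, w⟩, h1⟩, ⟨⟨b, u⟩, h2⟩⟩ ⟨⟨⟨a', w'⟩, h3⟩, ⟨⟨b', u'⟩, h4⟩⟩ h
    obtain rfl : a = 0 := h1
    obtain rfl : u = 0 := h2
    obtain rfl : a' = 0 := h3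
    obtain rfl : u' = 0 := h4
    simp only [Prod.mk_add_mk, zero_add, add_zero, Prod.mk.injEq] at h
    obtain ⟨rfl, rfl⟩ := h
    rfl
  · rintro ⟨a, w⟩
    exact ⟨(⟨(0, w), rfl⟩, ⟨(a, 0), rfl⟩), by simp⟩
  · let t : ZMod 2 →+ UnitAddCircle := ZMod.toAddCircle
    refine ⟨fun n => ⟨t.comp ((Finsupp.applyAddHom n).comp
      ((AddMonoidHom.snd _ _).comp H.subtype)), continuous_of_discreteTopology⟩, ?_, ?_⟩
    · intro h
      obtain ⟨n, hn⟩ := h.exists
      have h1 : t (Finsupp.single n (1 : ZMod 2) n) = 0 :=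
        DFunLike.congr_fun hn ⟨(0, Finsupp.single n 1), rfl⟩
      rw [ZMod.toAddCircle_eq_zero] at h1
      simp at h1
    · refine eq_univ_of_forall fun x => (sv_iff _ x 0 ?_).2 rfl
      filter_upwards [W_ev x.1.2] with n hn
      show t (x.1.2 n) = 0
      rw [hn, map_zero]
  · rintro ⟨v, hv, hs⟩
    have h1 := ev_zero_of_finite hv 2 (finite_range 2 3 (by norm_num) ((1, 0) : ZMod 3 × W)
      (by ext1; decide; simp) fun y => ⟨2 * y.1.val, by
        ext1
        · have : ∀ a : ZMod 3, 2 • a = (2 * a.val) • (1 : ZMod 3) := by decide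
          exact this _
        · simpa using W_two y.2⟩)
    have h2 : ((1, 0) : ZMod 3 × W) ∈ sv v := by
      refine (sv_iff v _ 0 (h1.mono fun n hn => ?_)).2 rfl
      have h3 : 2 • v n (2, 0) = 0 := by rw [← nsmul_app, hn]; rfl
      rw [← map_nsmul] at h3
      have h4 : 2 • ((2, 0) : ZMod 3 × W) = (1, 0) := by ext1; decide; simp
      rwa [h4] at h3
    rw [hs] at h2
    exact absurd ((m0 _).1 h2) (by decide)

end Pool.Agent.H2.TCh
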