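import Mathlib
import Pool.Agent.H2.TCh0

set_option autoImplicit false

/-! A closed G-delta subgroup of a precompact group which is not a countable intersection of
kernels of characters. -/

namespace Pool.Agent.H2.TCh

open Filter Topology Set Pointwise

theorem precompact_sub {K : Type} [AddCommGroup K] [TopologicalSpace K] [IsTopologicalAddGroup K]
    [CompactSpace K] (X : AddSubgroup K) (U : Set X) (hU : U ∈ 𝓝 (0 : X)) :
    ∃ E : Set X, E.Finite ∧ U + E = univ := by
  classical
  obtain ⟨V, hV, hVU⟩ := (mem_nhds_induced _ _ _).1 hU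
  have h1 : {p : K × K | p.1 - p.2 ∈ V} ∈ 𝓝 ((0 : K), (0 : K)) :=
    continuous_sub.continuousAt.preimage_mem_nhds (by simpa using hV)
  obtain ⟨A, hA, B, hB, hAB⟩ := mem_nhds_prod_iff.1 h1
  obtain ⟨t, -, ht⟩ := isCompact_univ.elim_nhds_subcover (fun k : K => {x | x - k ∈ A ∩ B})
    (fun k _ => (continuous_sub_right k).continuousAt.preimage_mem_nhds
      (by simpa using ⟨hA, hB⟩))
  let e : K → X := fun k => if h : ∃ x : X, x.1 - k ∈ A ∩ B then h.choose else 0
  refine ⟨e '' t, t.finite_toSet.image e, eq_univ_of_forall fun x => ?_⟩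
  obtain ⟨k, hk, hx⟩ := mem_iUnion₂.1 (ht (mem_univ x.1))
  have h2 : ∃ x : X, x.1 - k ∈ A ∩ B := ⟨x, hx⟩
  have h3 : (e k).1 - k ∈ A ∩ B := by simp only [e, dif_pos h2]; exact h2.choose_spec
  refine ⟨x - e k, hVU ?_, e k, ⟨k, hk, rfl⟩, sub_add_cancel _ _⟩
  have h4 := hAB (show (x.1 - k, (e k).1 - k) ∈ A ×ˢ B from ⟨hx.1, h3.2⟩)
  simpa using h4

abbrev TT : Type := ℕ → Bool

def pre (t : TT) (m : ℕ) : List Bool := List.ofFn fun i : Fin m => t i

theorem pre_len (t : TT) (m : ℕ) : (pre t m).length = m := by simp [pre]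

theorem pre_ne {s t : TT} (h : s ≠ t) : ∀ᶠ m in atTop, pre s m ≠ pre t m := by
  obtain ⟨i, hi⟩ := Function.ne_iff.1 h
  filter_upwards [eventually_gt_atTop i] with m hm h
  exact hi (congrFun (List.ofFn_injective h) ⟨i, hm⟩)

def kk (t : TT) (l : List Bool) : ZMod 2 := if l = pre t l.length then 1 else 0

abbrev KK : Type := (List Bool → ZMod 2) × (TT → ZMod 2)

noncomputable def Psi : (TT →₀ ZMod 2) →ₗ[ZMod 2] (List Bool → ZMod 2) :=
  Finsupp.linearCombination (ZMod 2) kk

noncomputable def Phi : (List Bool →₀ ZMod 2) × (TT →₀ ZMod 2) →+ KK where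
  toFun p := (⇑p.1 + Psi p.2, ⇑p.2)
  map_zero' := by simp
  map_add' p q := by
    ext1
    · simp only [Prod.fst_add, Prod.snd_add, Finsupp.coe_add, map_add]; abel
    · simp

noncomputable def XX : AddSubgroup KK := Phi.range

noncomputable def FF : AddSubgroup XX := ((AddMonoidHom.snd _ _).comp XX.subtype).ker

theorem mem_FF (x : XX) : x ∈ FF ↔ x.1.2 = 0 := Iff.rfl

theorem FF_closed : IsClosed (FF : Set XX) :=
  isClosed_eq (continuous_snd.comp continuous_subtype_val) continuous_const

theorem fs_ev (f : List Bool →₀ ZMod 2) : ∀ᶠ m in atTop, ∀ l : List Bool, l.length = m → f l = 0 := by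
  filter_upwards [eventually_gt_atTop (f.support.sup List.length)] with m hm l hl
  by_contra h
  have := Finset.le_sup (f := List.length) (Finsupp.mem_support_iff.2 h)
  omega

theorem FF_gd : IsGδ (FF : Set XX) := by
  have h1 : (FF : Set XX) = ⋂ n : ℕ, ⋃ m : ℕ, ⋃ _ : n ≤ m,
      ⋂ l ∈ {l : List Bool | l.length = m}, {x : XX | x.1.1 l = 0} := by
    ext ⟨_, ⟨f, y⟩, rfl⟩
    simp only [SetLike.mem_coe, mem_FF, mem_iInter, mem_iUnion, mem_setOf_eq]
    show ⇑y = 0 ↔ ∀ n : ℕ, ∃ m, ∃ _ : n ≤ m, ∀ l : List Bool, l.length = m → f l + Psi y l = 0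
    constructor
    · intro hy n
      have hy' : y = 0 := DFunLike.coe_injective hy
      obtain ⟨m, h1, h2⟩ := ((fs_ev f).and (eventually_ge_atTop n)).exists
      exact ⟨m, h2, fun l hl => by simp [hy', h1 l hl]⟩
    · intro h
      by_contra hy
      obtain ⟨t, ht⟩ := Function.ne_iff.1 hy
      have h2 : ∀ᶠ m in atTop, ∀ s ∈ y.support, s ≠ t → pre t m ≠ pre s m := by
        rw [eventually_all_finset]
        intro s _
        by_cases hs : s = t
        · simp [hs]
        · exact (pre_ne (Ne.symm hs)).mono fun m hm _ => hm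
      obtain ⟨N, hN⟩ := eventually_atTop.1 ((fs_ev f).and h2)
      obtain ⟨m, hm, h3⟩ := h N
      have h4 := h3 _ (pre_len t m)
      rw [(hN m hm).1 _ (pre_len t m), zero_add, Psi, Finsupp.linearCombination_apply, Finsupp.sum,
        Finset.sum_apply, Finset.sum_eq_single t] at h4
      · simp only [Pi.smul_apply, kk, pre_len, if_true, smul_eq_mul, mul_one] at h4
        exact ht h4
      · intro s hs hst
        simp [kk, pre_len, (hN m hm).2 s hs hst]
      · intro h5
        exact absurd (Finsupp.mem_support_iff.2 ht) h5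
  rw [h1]
  refine IsGδ.iInter_of_isOpen fun n => isOpen_iUnion fun m => isOpen_iUnion fun _ => ?_
  refine (List.finite_length_eq Bool m).isOpen_biInter fun l _ => ?_
  have hc : Continuous fun x : XX => x.1.1 l :=
    (continuous_apply l).comp (continuous_fst.comp continuous_subtype_val)
  exact (isOpen_discrete {(0 : ZMod 2)}).preimage hc

noncomputable def xt (t : TT) : XX := ⟨Phi (0, Finsupp.single t 1), _, rfl⟩

theorem fin_char (χ : Dual XX) (h : ∀ x ∈ FF, χ x = 0) : {t | χ (xt t) ≠ 0}.Finite := by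
  by_contra hinf
  let e := Set.Infinite.natEmbedding _ hinf
  let f : ℕ → List Bool →₀ ZMod 2 := fun j => Finsupp.ofSupportFinite
    (fun l => if l.length < j then -kk (e j) l else 0)
    ((List.finite_length_lt Bool j).subset fun l hl => by
      by_contra h'
      have h'' : ¬ l.length < j := h'
      simp [h''] at hl)
  let w : ℕ → XX := fun j => ⟨Phi (f j, 0), _, rfl⟩
  have hw : ∀ j, w j ∈ FF := fun j => rfl
  have h1 : Tendsto (fun j => w j + xt (e j)) atTop (𝓝 0) := by
    rw [tendsto_subtype_rng]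
    refine Tendsto.prodMk_nhds (x := 0) (y := 0)
      (mx := fun j => (w j + xt (e j)).1.1) (my := fun j => (w j + xt (e j)).1.2) ?_ ?_
    · rw [tendsto_pi_nhds]
      intro l
      refine tendsto_const_nhds.congr' ?_
      filter_upwards [eventually_gt_atTop l.length] with j hj
      simp [w, xt, Phi, Psi, f, Finsupp.ofSupportFinite_coe, hj, CharTwo.add_self_eq_zero]
    · rw [tendsto_pi_nhds]
      intro t
      refine tendsto_const_nhds.congr' ?_
      have : ∀ᶠ j in atTop, (e j).1 ≠ t := by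
        rw [← Nat.cofinite_eq_atTop, eventually_cofinite]
        refine Set.Subsingleton.finite fun a ha b hb => e.injective (Subtype.ext ?_)
        simp only [mem_setOf_eq, not_not] at ha hb
        rw [ha, hb]
      filter_upwards [this] with j hj
      have h7 : (Finsupp.single (e j).1 (1 : ZMod 2)) t = 0 := Finsupp.single_eq_of_ne (Ne.symm hj)
      simp only [w, xt, Phi, AddSubgroup.coe_add, AddMonoidHom.coe_mk, ZeroHom.coe_mk, Prod.snd_add,
        Pi.add_apply, Pi.zero_apply, Finsupp.coe_zero, zero_add]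
      exact h7.symm
  have h2 : Tendsto (fun j => χ (xt (e j))) atTop (𝓝 0) := by
    have := (χ.continuous.tendsto 0).comp h1
    simpa [Function.comp_def, h _ (hw _)] using this
  have h3 : {c : UnitAddCircle | 2 • c = 0}.Finite := AddCircle.finite_torsion 1 two_pos
  have h4 : ({c : UnitAddCircle | 2 • c = 0} \ {0})ᶜ ∈ 𝓝 (0 : UnitAddCircle) :=
    (h3.subset diff_subset).isClosed.isOpen_compl.mem_nhds fun h => h.2 rfl
  obtain ⟨j, hj⟩ := (h2.eventually h4).exists
  refine hj ⟨?_, (e j).2⟩
  have h5 : ∀ a : ZMod 2, 2 • a = 0 := by decide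
  have h6 : 2 • xt (e j) = 0 := by
    ext1; ext1 <;> ext1 <;> exact h5 _
  show 2 • χ (xt (e j)) = 0
  rw [← map_nsmul, h6, map_zero]

theorem not_N (v : ℕ → Dual XX) : (FF : Set XX) ≠ ⋂ n, {x | v n x = 0} := by
  intro h
  have h1 : ∀ n, ∀ x ∈ FF, v n x = 0 := by
    intro n x hx
    have : x ∈ ⋂ n, {x | v n x = 0} := h ▸ hx
    exact mem_iInter.1 this n
  have h2 : (⋃ n, {t | v n (xt t) ≠ 0}).Countable :=
    countable_iUnion fun n => (fin_char _ (h1 n)).countable
  have h3 : ∃ t, t ∉ ⋃ n, {t | v n (xt t) ≠ 0} := by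
    by_contra hn
    push Not at hn
    haveI : Uncountable TT := Cardinal.aleph0_lt_mk_iff.1 (by simp [Cardinal.aleph0_lt_continuum])
    exact not_countable_univ (h2.mono fun t _ => hn t)
  obtain ⟨t, ht⟩ := h3
  simp only [mem_iUnion, mem_setOf_eq, not_exists, not_not] at ht
  have h4 : xt t ∈ (FF : Set XX) := by rw [h]; exact mem_iInter.2 ht
  have h5 := congrFun ((mem_FF _).1 h4) t
  simp [xt, Phi] at h5

end Pool.Agent.H2.TCh
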