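import Mathlib

open FirstOrder FirstOrder.Language

namespace Pool.Agent.H2.TRS

/-- One fresh constant when the signature has no constant, nothing otherwise. -/
abbrev Fresh (L : FirstOrder.Language.{0,0}) : Type := PLift (IsEmpty L.Constants)

/-- Ground terms (with one fresh constant added when there is no constant). -/
abbrev Ground (L : FirstOrder.Language.{0,0}) : Type := L.Term (Fresh L)

/-- A set of rules `(l, r)`. -/
abbrev Rules (L : FirstOrder.Language.{0,0}) : Type := Set (L.Term ℕ × L.Term ℕ)

/-- Left sides are not variables and variables of right sides occur on the left. -/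
def IsTRS {L : FirstOrder.Language.{0,0}} (R : Rules L) : Prop :=
  ∀ p ∈ R, (∀ x, p.1 ≠ Term.var x) ∧ p.2.varFinset ⊆ p.1.varFinset

/-- Total termination: a monotonic well-ordering of the ground terms orients all ground
instances of all rules. -/
def TotTerm {L : FirstOrder.Language.{0,0}} (R : Rules L) : Prop :=
  ∃ lt : Ground L → Ground L → Prop, IsWellOrder (Ground L) lt ∧
    (∀ (n : ℕ) (f : L.Functions n) (ts : Fin n → Ground L) (i : Fin n) (s : Ground L),
      lt s (ts i) → lt (Term.func f (Function.update ts i s)) (Term.func f ts)) ∧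
    ∀ p ∈ R, ∀ σ : ℕ → Ground L, lt (p.2.subst σ) (p.1.subst σ)

/-- Disjoint union of two rule sets, over the disjoint sum of the signatures. -/
def union {L₁ L₂ : FirstOrder.Language.{0,0}} (R₁ : Rules L₁) (R₂ : Rules L₂) : Rules (L₁.sum L₂) :=
  (Prod.map LHom.sumInl.onTerm LHom.sumInl.onTerm '' R₁) ∪
    (Prod.map LHom.sumInr.onTerm LHom.sumInr.onTerm '' R₂)

abbrev Interp (L : FirstOrder.Language.{0,0}) (A : Type) : Type := ∀ n, L.Functions n → (Fin n → A) → A

variable {L : FirstOrder.Language.{0,0}} {A : Type}

def ev {X : Type} (I : Interp L A) (v : X → A) : L.Term X → A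
  | Term.var x => v x
  | Term.func f ts => I _ f (fun i => ev I v (ts i))

theorem ev_subst {X Y : Type} (I : Interp L A) (v : Y → A) (σ : X → L.Term Y) (t : L.Term X) :
    ev I v (t.subst σ) = ev I (fun x => ev I v (σ x)) t := by
  induction t with
  | var x => rfl
  | func f ts ih => simp only [Term.subst, ev, ih]

def Mono [LT A] (I : Interp L A) : Prop :=
  ∀ (n : ℕ) (f : L.Functions n) (xs : Fin n → A) (i : Fin n) (a : A),
    a < xs i → I n f (Function.update xs i a) < I n f xs

def Compat [LT A] (R : Rules L) (I : Interp L A) : Prop :=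
  ∀ p ∈ R, ∀ v : ℕ → A, ev I v p.2 < ev I v p.1

theorem Mono.le [LinearOrder A] {I : Interp L A} (h : Mono I) {n : ℕ} (f : L.Functions n)
    {xs ys : Fin n → A} (hxy : ∀ i, xs i ≤ ys i) : I n f xs ≤ I n f ys := by
  classical
  have key : ∀ S : Finset (Fin n), I n f (fun i => if i ∈ S then xs i else ys i) ≤ I n f ys := by
    intro S
    induction S using Finset.induction_on with
    | empty => simp
    | insert j S hj ih =>
      have e : (fun i => if i ∈ insert j S then xs i else ys i) =
          Function.update (fun i => if i ∈ S then xs i else ys i) j (xs j) := by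
        funext i
        by_cases hij : i = j
        · subst hij; simp
        · simp [hij]
      rw [e]
      rcases (hxy j).lt_or_eq with hlt | heq
      · refine le_trans (h n f _ j _ ?_).le ih
        simpa [hj] using hlt
      · have : Function.update (fun i => if i ∈ S then xs i else ys i) j (xs j) =
            (fun i => if i ∈ S then xs i else ys i) := by
          funext i
          by_cases hij : i = j
          · subst hij; simp [hj, heq]
          · simp [hij]
        rw [this]; exact ih
  simpa using key Finset.univ

theorem Mono.sub [LinearOrder A] [WellFoundedLT A] {I : Interp L A} (h : Mono I) {n : ℕ}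
    (f : L.Functions n) (xs : Fin n → A) (i : Fin n) : xs i ≤ I n f xs := by
  classical
  have hs : StrictMono (fun a => I n f (Function.update xs i a)) := by
    intro a b hab
    have := h n f (Function.update xs i b) i a (by simpa using hab)
    simpa using this
  have := hs.le_apply (x := xs i)
  simpa using this

instance groundNonempty : Nonempty (Ground L) := by
  by_cases h : IsEmpty L.Constants
  · exact ⟨Term.var ⟨h⟩⟩
  · obtain ⟨c⟩ := not_isEmpty_iff.1 h
    exact ⟨Term.func c Fin.elim0⟩

theorem shortlex_append {α : Type} {r : α → α → Prop} {s t : List α} (h : List.Shortlex r s t)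
    (p q : List α) : List.Shortlex r (p ++ (s ++ q)) (p ++ (t ++ q)) := by
  apply List.Shortlex.append_left
  rcases List.shortlex_def.1 h with h1 | ⟨h1, h2⟩
  · apply List.Shortlex.of_length_lt; simp only [List.length_append]; omega
  · apply List.Shortlex.of_lex (by simp [h1])
    clear h
    induction h2 with
    | nil => simp at h1
    | rel h => exact List.Lex.rel h
    | cons h ih => exact List.Lex.cons (ih (by simpa using h1))

theorem flatMap_update {α β : Type} {n : ℕ} (g : α → List β) (ts : Fin n → α) (i : Fin n) :
    ∃ p q : List β, ∀ s : α, ((List.finRange n).flatMap fun j => g (Function.update ts i s j)) =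
      p ++ (g s ++ q) := by
  classical
  have hmem : i ∈ List.finRange n := List.mem_finRange i
  obtain ⟨l₁, l₂, hl⟩ := List.append_of_mem hmem
  have hnd : (l₁ ++ i :: l₂).Nodup := hl ▸ List.nodup_finRange n
  have h1 : i ∉ l₁ := by
    intro h
    rw [List.nodup_append] at hnd
    exact hnd.2.2 i h i (by simp) rfl
  have h2 : i ∉ l₂ := by
    rw [List.nodup_append] at hnd
    exact (List.nodup_cons.1 hnd.2.1).1
  refine ⟨l₁.flatMap fun j => g (ts j), l₂.flatMap fun j => g (ts j), fun s => ?_⟩
  rw [hl, List.flatMap_append, List.flatMap_cons]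
  have e1 : (l₁.flatMap fun j => g (Function.update ts i s j)) = l₁.flatMap fun j => g (ts j) := by
    apply List.flatMap_congr
    intro j hj
    rw [Function.update_of_ne (fun h : j = i => h1 (h ▸ hj))]
  have e2 : (l₂.flatMap fun j => g (Function.update ts i s j)) = l₂.flatMap fun j => g (ts j) := by
    apply List.flatMap_congr
    intro j hj
    rw [Function.update_of_ne (fun h : j = i => h2 (h ▸ hj))]
  rw [e1, e2, Function.update_self]

theorem shortlex_trans {α : Type} [LinearOrder α] {a b c : List α}
    (h1 : List.Shortlex (· < ·) a b) (h2 : List.Shortlex (· < ·) b c) :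
    List.Shortlex (· < ·) a c := by
  rcases List.shortlex_def.1 h1 with h | ⟨h, h'⟩ <;>
  rcases List.shortlex_def.1 h2 with k | ⟨k, k'⟩
  · exact List.Shortlex.of_length_lt (by omega)
  · exact List.Shortlex.of_length_lt (by omega)
  · exact List.Shortlex.of_length_lt (by omega)
  · refine List.Shortlex.of_lex (by omega) ?_
    exact lt_trans (α := List α) h' k'

theorem totTerm_of_model [LinearOrder A] [WellFoundedLT A] [Nonempty A] {R : Rules L}
    {I : Interp L A} (hm : Mono I) (hc : Compat R I) : TotTerm R := by
  classical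
  obtain ⟨a₀⟩ := ‹Nonempty A›
  let K := Fresh L ⊕ (Σ i, L.Functions i)
  obtain ⟨lo, wo⟩ := exists_wellOrder K
  let val : Ground L → A := ev I (fun _ => a₀)
  let lt : Ground L → Ground L → Prop := fun s t =>
    val s < val t ∨ (val s = val t ∧
      List.Shortlex (α := K) (· < ·) s.listEncode t.listEncode)
  have hwf : WellFounded lt := by
    have h1 : WellFounded (List.Shortlex (α := K) (· < ·)) := List.Shortlex.wf wo.wf
    have h2 : WellFounded (Prod.Lex ((· < ·) : A → A → Prop) (List.Shortlex (α := K) (· < ·))) :=
      WellFounded.prod_lex wellFounded_lt h1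
    refine Subrelation.wf ?_ (InvImage.wf (fun t : Ground L => (val t, t.listEncode)) h2)
    intro s t hst
    exact Prod.lex_def.2 hst
  have htri : ∀ s t : Ground L, ¬ lt s t → ¬ lt t s → s = t := by
    intro s t h1 h2
    rcases lt_trichotomy (val s) (val t) with h | h | h
    · exact (h1 (Or.inl h)).elim
    · apply Term.listEncode_injective
      exact (List.Shortlex.trichotomous (r := ((· < ·) : K → K → Prop))).trichotomous _ _
        (fun k => h1 (Or.inr ⟨h, k⟩)) (fun k => h2 (Or.inr ⟨h.symm, k⟩))
    · exact (h2 (Or.inl h)).elim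
  have htrans : ∀ a b c : Ground L, lt a b → lt b c → lt a c := by
    rintro a b c (h | ⟨h, h'⟩) (k | ⟨k, k'⟩)
    · exact Or.inl (h.trans k)
    · exact Or.inl (k ▸ h)
    · exact Or.inl (h ▸ k)
    · exact Or.inr ⟨h.trans k, shortlex_trans h' k'⟩
  refine ⟨lt, ?_, ?_, ?_⟩
  · exact { wf := hwf, trichotomous := htri }
  · intro n f ts i s hs
    have e : ∀ u : Ground L, (fun j => val (Function.update ts i u j)) =
        Function.update (fun j => val (ts j)) i (val u) := by
      intro u
      funext j
      by_cases hj : j = i
      · subst hj; simp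
      · simp [hj]
    have e1 : val (Term.func f (Function.update ts i s)) =
        I n f (Function.update (fun j => val (ts j)) i (val s)) := by
      rw [← e]; rfl
    have e2 : val (Term.func f ts) = I n f (fun j => val (ts j)) := rfl
    rcases hs with h | ⟨h, h'⟩
    · left
      rw [e1, e2]
      exact hm n f _ i _ h
    · right
      refine ⟨?_, ?_⟩
      · rw [e1, e2, h, Function.update_eq_self]
      · obtain ⟨p, q, hpq⟩ := flatMap_update (Term.listEncode (L := L) (α := Fresh L)) ts i
        have a1 := hpq s
        have a2 := hpq (ts i)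
        rw [Function.update_eq_self] at a2
        simp only [Term.listEncode]
        rw [a1, a2]
        exact shortlex_append h' (_ :: p) q
  · intro p hp σ
    left
    simp only [val, ev_subst]
    exact hc p hp _

theorem ev_func {X Y : Type} (v : X → L.Term Y) (t : L.Term X) :
    ev (A := L.Term Y) (fun _ f ts => Term.func f ts) v t = t.subst v := by
  induction t with
  | var x => rfl
  | func f ts ih => simp only [Term.subst, ev, ih]

theorem model_of_totTerm {R : Rules L} (h : TotTerm R) :
    ∃ (_ : LinearOrder (Ground L)) (_ : WellFoundedLT (Ground L)),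
      Mono (A := Ground L) (fun _ f ts => Term.func f ts) ∧
      Compat (A := Ground L) R (fun _ f ts => Term.func f ts) := by
  classical
  obtain ⟨lt, hw, hm, hc⟩ := h
  refine ⟨linearOrderOfSTO lt, ⟨hw.wf⟩, hm, ?_⟩
  intro p hp v
  rw [ev_func, ev_func]
  exact hc p hp v

variable {L₁ L₂ : FirstOrder.Language.{0,0}}

theorem ev_inl {X : Type} (I : Interp (L₁.sum L₂) A) (v : X → A) (t : L₁.Term X) :
    ev I v (LHom.sumInl.onTerm t) = ev (fun n f => I n (Sum.inl f)) v t := by
  induction t with
  | var x => rfl
  | func f ts ih => simp only [LHom.onTerm, ev, ih]; rfl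

theorem ev_inr {X : Type} (I : Interp (L₁.sum L₂) A) (v : X → A) (t : L₂.Term X) :
    ev I v (LHom.sumInr.onTerm t) = ev (fun n f => I n (Sum.inr f)) v t := by
  induction t with
  | var x => rfl
  | func f ts ih => simp only [LHom.onTerm, ev, ih]; rfl

theorem union_model [LT A] {R₁ : Rules L₁} {R₂ : Rules L₂} {I₁ : Interp L₁ A} {I₂ : Interp L₂ A}
    (m₁ : Mono I₁) (c₁ : Compat R₁ I₁) (m₂ : Mono I₂) (c₂ : Compat R₂ I₂) :
    ∃ I : Interp (L₁.sum L₂) A, Mono I ∧ Compat (union R₁ R₂) I := by
  refine ⟨fun n f => Sum.elim (I₁ n) (I₂ n) f, ?_, ?_⟩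
  · rintro n (f | f) xs i a h
    · exact m₁ n f xs i a h
    · exact m₂ n f xs i a h
  · rintro p (⟨q, hq, rfl⟩ | ⟨q, hq, rfl⟩) v
    · simp only [Prod.map_fst, Prod.map_snd, ev_inl]
      exact c₁ q hq v
    · simp only [Prod.map_fst, Prod.map_snd, ev_inr]
      exact c₂ q hq v

theorem split_model [LT A] {R₁ : Rules L₁} {R₂ : Rules L₂} {I : Interp (L₁.sum L₂) A}
    (m : Mono I) (c : Compat (union R₁ R₂) I) :
    (Mono (fun n f => I n (Sum.inl f)) ∧ Compat R₁ (fun n f => I n (Sum.inl f))) ∧
    (Mono (fun n f => I n (Sum.inr f)) ∧ Compat R₂ (fun n f => I n (Sum.inr f))) := by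
  refine ⟨⟨fun n f => m n (Sum.inl f), fun p hp v => ?_⟩,
    ⟨fun n f => m n (Sum.inr f), fun p hp v => ?_⟩⟩
  · have := c _ (Or.inl ⟨p, hp, rfl⟩) v
    simpa only [Prod.map_fst, Prod.map_snd, ev_inl] using this
  · have := c _ (Or.inr ⟨p, hp, rfl⟩) v
    simpa only [Prod.map_fst, Prod.map_snd, ev_inr] using this

theorem transport {B : Type} [LinearOrder A] [LinearOrder B] (e : A ≃o B) {R : Rules L}
    {I : Interp L A} (m : Mono I) (c : Compat R I) :
    ∃ J : Interp L B, Mono J ∧ Compat R J := by
  classical
  refine ⟨fun n f xs => e (I n f (fun i => e.symm (xs i))), ?_, ?_⟩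
  · intro n f xs i a h
    rw [e.lt_iff_lt]
    have := m n f (fun i => e.symm (xs i)) i (e.symm a) (e.symm.lt_iff_lt.2 h)
    have e2 : (fun j => e.symm (Function.update xs i a j)) =
        Function.update (fun j => e.symm (xs j)) i (e.symm a) := by
      funext j
      by_cases hj : j = i
      · subst hj; simp
      · simp [hj]
    rw [e2]; exact this
  · intro p hp v
    have key : ∀ t : L.Term ℕ, ev (fun n f xs => e (I n f (fun i => e.symm (xs i)))) v t =
        e (ev I (fun x => e.symm (v x)) t) := by
      intro t
      induction t with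
      | var x => simp [ev]
      | func f ts ih => simp only [ev, ih, OrderIso.symm_apply_apply]
    rw [key, key, e.lt_iff_lt]
    exact c p hp _

end Pool.Agent.H2.TRS
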