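import Pool.Agent.H2.TRS1

open FirstOrder FirstOrder.Language Filter

namespace Pool.Agent.H2.TRS

variable {L : FirstOrder.Language.{0,0}} {A : Type}

/-- uncountable with countable initial segments -/
def OmegaLike (X : Type) [LinearOrder X] : Prop :=
  ¬ (Set.univ : Set X).Countable ∧ ∀ x : X, (Set.Iic x).Countable

theorem OmegaLike.bound {X : Type} [LinearOrder X] (h : OmegaLike X) {S : Set X}
    (hS : S.Countable) : ∃ y, ∀ x ∈ S, x < y := by
  by_contra hc
  push Not at hc
  apply h.1
  refine (hS.biUnion (fun x _ => h.2 x)).mono ?_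
  intro y _
  obtain ⟨x, hx, hyx⟩ := hc y
  exact Set.mem_biUnion hx hyx

abbrev Om : Type := (Cardinal.aleph 1).ord.ToType

theorem om_like : OmegaLike Om := by
  refine ⟨?_, fun x => ?_⟩
  · rw [Cardinal.countable_iff_lt_aleph_one]
    simp
  · have h : (Set.Iio x).Countable := by
      rw [Cardinal.countable_iff_lt_aleph_one]
      exact Cardinal.mk_Iio_toType_ord_lt x
    rw [← Set.Iio_insert]
    exact h.insert x

theorem omega_iso {X Y : Type} [LinearOrder X] [LinearOrder Y] [WellFoundedLT X] [WellFoundedLT Y]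
    (hX : OmegaLike X) (hY : OmegaLike Y) : Nonempty (X ≃o Y) := by
  have key : ∀ {X Y : Type} [LinearOrder X] [LinearOrder Y] [WellFoundedLT X] [WellFoundedLT Y],
      OmegaLike X → OmegaLike Y → (X ≤i Y) → Nonempty (X ≃o Y) := by
    intro X Y _ _ _ _ hX hY f
    rcases f.principalSumRelIso with g | g
    · exfalso
      apply hX.1
      have h1 : (Set.range g).Countable := by
        rw [PrincipalSeg.range_eq_Iio]
        exact (hY.2 g.top).mono Set.Iio_subset_Iic_self
      have := h1.preimage_of_injOn (f := g) (g.toRelEmbedding.injective.injOn)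
      simpa using this
    · exact ⟨OrderIso.ofRelIsoLT g⟩
  rcases InitialSeg.total ((· < ·) : X → X → Prop) ((· < ·) : Y → Y → Prop) with f | f
  · exact key hX hY f
  · obtain ⟨e⟩ := key hY hX f
    exact ⟨e.symm⟩

theorem ev_congr {X : Type} [DecidableEq X] (I : Interp L A) {v w : X → A} (t : L.Term X)
    (h : ∀ x ∈ t.varFinset, v x = w x) : ev I v t = ev I w t := by
  induction t with
  | var x => exact h x (by simp)
  | func f ts ih =>
    simp only [ev]
    congr 1
    funext i
    exact ih i (fun x hx => h x (by simp only [Term.varFinset, Finset.mem_biUnion]; exact ⟨i, by simp, hx⟩))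

theorem var_le_ev {X : Type} [DecidableEq X] [LinearOrder A] [WellFoundedLT A] {I : Interp L A}
    (m : Mono I) (v : X → A) (t : L.Term X) {x : X} (hx : x ∈ t.varFinset) : v x ≤ ev I v t := by
  induction t with
  | var y =>
    have : x = y := by simpa using hx
    subst this; exact le_rfl
  | func f ts ih =>
    simp only [Term.varFinset, Finset.mem_biUnion] at hx
    obtain ⟨i, -, hi⟩ := hx
    exact (ih i hi).trans (m.sub f (fun i => ev I v (ts i)) i)

theorem exists_assign [LinearOrder A] [NoMaxOrder A] [Nonempty A] (I : Interp L A)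
    (S : Finset (L.Term Om)) :
    ∃ v : Om → A, ∀ ξ : Om, ∀ t ∈ S, (∀ x ∈ t.varFinset, x < ξ) → ev I v t < v ξ := by
  classical
  obtain ⟨a₀⟩ := ‹Nonempty A›
  have hb : ∀ w : Om → A, ∃ a, ∀ t ∈ S, ev I w t < a := by
    intro w
    obtain ⟨b, hb⟩ := (S.image (ev I w)).bddAbove
    obtain ⟨a, ha⟩ := exists_gt b
    exact ⟨a, fun t ht => lt_of_le_of_lt (hb (by simpa using ⟨t, ht, rfl⟩)) ha⟩
  choose F hF using hb
  let v : Om → A := (wellFounded_lt (α := Om)).fix
    (fun ξ rec => F (fun η => if h : η < ξ then rec η h else a₀))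
  have hv : ∀ ξ, v ξ = F (fun η => if η < ξ then v η else a₀) := by
    intro ξ
    have := (wellFounded_lt (α := Om)).fix_eq
      (fun ξ (rec : ∀ η, η < ξ → A) => F (fun η => if h : η < ξ then rec η h else a₀)) ξ
    simpa [v] using this
  refine ⟨v, fun ξ t ht hx => ?_⟩
  rw [hv ξ]
  refine lt_of_eq_of_lt ?_ (hF _ t ht)
  apply ev_congr
  intro x hxt
  simp [hx x hxt]

/-- A Kruskal-type lemma. -/
theorem wf_of_generated [Finite (Σ n, L.Functions n)] {B X : Type} [LinearOrder B]
    (J : Interp L B) (hle : ∀ n (f : L.Functions n), Monotone (J n f))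
    (hsub : ∀ n (f : L.Functions n) xs i, xs i ≤ J n f xs) (c : X → B)
    (hc : (Set.range c).IsWF) (hgen : ∀ b, ∃ t : L.Term X, ev J c t = b) : WellFoundedLT B := by
  classical
  let W : Set B := {b | Acc (· < ·) b}
  have hW : W.IsWF := by
    rw [Set.isWF_iff_no_descending_seq]
    intro f hf hW
    have : Acc (· < ·) (f 0) := hW 0
    have key : ∀ b, Acc (· < ·) b → ∀ k, f k ≠ b := by
      intro b hb
      induction hb with
      | intro b _ ih =>
        intro k hk
        exact ih (f (k + 1)) (hk ▸ hf (Nat.lt_succ_self k)) (k + 1) rfl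
    exact key _ this 0 rfl
  let S : Set B := ⋃ g : (Σ n, L.Functions n), J g.1 g.2 '' (Set.pi Set.univ fun _ => W)
  have hS : S.IsPWO := by
    have := Fintype.ofFinite (Σ n, L.Functions n)
    have : S = ⋃ g ∈ (Finset.univ : Finset (Σ n, L.Functions n)),
        J g.1 g.2 '' (Set.pi Set.univ fun _ => W) := by simp [S]
    rw [this]
    refine (Finset.isPWO_bUnion _).2 ?_
    intro g _
    exact (Set.IsPWO.pi (fun _ => hW.isPWO)).image_of_monotone (hle _ _)
  have hT : ((S ∪ Set.range c) \ W).IsWF := (hS.isWF.union hc).mono Set.diff_subset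
  have hbelow : ∀ t : L.Term X, ev J c t ∉ W → ∃ s ∈ (S ∪ Set.range c) \ W, s ≤ ev J c t := by
    intro t
    induction t with
    | var x => exact fun h => ⟨c x, ⟨Or.inr ⟨x, rfl⟩, h⟩, le_rfl⟩
    | func f ts ih =>
      intro h
      by_cases hall : ∀ i, ev J c (ts i) ∈ W
      · refine ⟨_, ⟨Or.inl ?_, h⟩, le_rfl⟩
        exact Set.mem_iUnion.2 ⟨⟨_, f⟩, fun i => ev J c (ts i), fun i _ => hall i, rfl⟩
      · push Not at hall
        obtain ⟨i, hi⟩ := hall
        obtain ⟨s, hs, hle'⟩ := ih i hi
        exact ⟨s, hs, hle'.trans (hsub _ f (fun i => ev J c (ts i)) i)⟩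
  refine ⟨⟨fun b => ?_⟩⟩
  by_contra hb
  obtain ⟨t, rfl⟩ := hgen b
  obtain ⟨s, hs, -⟩ := hbelow t hb
  have hne : ((S ∪ Set.range c) \ W).Nonempty := ⟨s, hs⟩
  have hm := hT.min_mem hne
  apply hm.2
  refine Acc.intro _ (fun y hy => ?_)
  by_contra hyW
  obtain ⟨u, rfl⟩ := hgen y
  obtain ⟨s', hs', hle'⟩ := hbelow u hyW
  exact absurd (lt_of_le_of_lt hle' hy) (hT.not_lt_min hne hs')

theorem extend_model [Finite (Σ n, L.Functions n)] [LinearOrder A] [WellFoundedLT A]
    [NoMaxOrder A] [Nonempty A] {R : Rules L} {I : Interp L A} (m : Mono I) (c : Compat R I) :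
    ∃ J : Interp L Om, Mono J ∧ Compat R J := by
  classical
  choose v hv using exists_assign I
  let U : Ultrafilter (Finset (L.Term Om)) := Ultrafilter.of atTop
  have hU : (U : Filter (Finset (L.Term Om))) ≤ atTop := Ultrafilter.of_le _
  let G := Germ (U : Filter (Finset (L.Term Om))) A
  let φ : L.Term Om → G := fun t => ((fun S => ev I (v S) t : _ → A) : G)
  have φle : ∀ s t, φ s ≤ φ t ↔ ∀ᶠ S in (U : Filter _), ev I (v S) s ≤ ev I (v S) t :=
    fun s t => Germ.coe_le
  have φlt : ∀ s t, φ s < φ t ↔ ∀ᶠ S in (U : Filter _), ev I (v S) s < ev I (v S) t :=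
    fun s t => Germ.coe_lt
  have fle : ∀ n (f : L.Functions n) (ss ts : Fin n → L.Term Om), (∀ i, φ (ss i) ≤ φ (ts i)) →
      φ (Term.func f ss) ≤ φ (Term.func f ts) := by
    intro n f ss ts h
    simp only [φle] at h ⊢
    filter_upwards [eventually_all.2 h] with S hS
    exact m.le f hS
  have feq : ∀ n (f : L.Functions n) (ss ts : Fin n → L.Term Om), (∀ i, φ (ss i) = φ (ts i)) →
      φ (Term.func f ss) = φ (Term.func f ts) := fun n f ss ts h =>
    le_antisymm (fle n f ss ts fun i => (h i).le) (fle n f ts ss fun i => (h i).ge)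
  let B := Set.range φ
  have hrep : ∀ b : B, ∃ t, φ t = b := fun b => b.2
  choose rep hrep using hrep
  let J : Interp L B := fun n f xs => ⟨φ (Term.func f fun i => rep (xs i)), _, rfl⟩
  have evJ : ∀ {X : Type} (w : X → B) (t : L.Term X),
      (ev J w t).1 = φ (t.subst fun x => rep (w x)) := by
    intro X w t
    induction t with
    | var x => exact (hrep _).symm
    | func f ts ih =>
      simp only [ev, Term.subst]
      exact feq _ f _ _ (fun i => by rw [hrep, ih])
  have mJ : Mono J := by
    intro n f xs i a h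
    have h' : φ (rep a) < φ (rep (xs i)) := by rw [hrep, hrep]; exact h
    change φ _ < φ _
    rw [φlt] at h' ⊢
    filter_upwards [h'] with S hS
    have := m n f (fun j => ev I (v S) (rep (xs j))) i _ hS
    have e2 : (fun j => ev I (v S) (rep (Function.update xs i a j))) =
        Function.update (fun j => ev I (v S) (rep (xs j))) i (ev I (v S) (rep a)) := by
      funext j
      by_cases hj : j = i
      · subst hj; simp
      · simp [hj]
    simp only [ev]
    rw [e2]; exact this
  have cJ : Compat R J := by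
    intro p hp w
    change (ev J w p.2).1 < (ev J w p.1).1
    rw [evJ, evJ, φlt]
    refine Eventually.of_forall fun S => ?_
    rw [ev_subst, ev_subst]
    exact c p hp _
  let cc : Om → B := fun ξ => ⟨φ (Term.var ξ), _, rfl⟩
  have hbig : ∀ (ξ : Om) (t : L.Term Om), (∀ x ∈ t.varFinset, x < ξ) → φ t < φ (Term.var ξ) := by
    intro ξ t ht
    rw [φlt]
    filter_upwards [hU (eventually_ge_atTop ({t} : Finset _))] with S hS
    exact hv S ξ t (hS (Finset.mem_singleton_self t)) ht
  have hvar : ∀ (t : L.Term Om) x, x ∈ t.varFinset → φ (Term.var x) ≤ φ t := by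
    intro t x hx
    rw [φle]
    exact Eventually.of_forall fun S => var_le_ev m (v S) t hx
  have ccm : StrictMono cc := by
    intro η ξ h
    exact hbig ξ (Term.var η) (by simpa using h)
  have hgen : ∀ t : L.Term Om, (ev J cc t).1 = φ t := by
    intro t
    induction t with
    | var x => rfl
    | func f ts ih =>
      simp only [ev]
      exact feq _ f _ _ (fun i => by rw [hrep, ih])
  have hwf : WellFoundedLT B := by
    refine wf_of_generated J (fun n f xs ys h => mJ.le f h) ?_ cc ?_ ?_
    · intro n f xs i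
      change (xs i : G) ≤ φ _
      rw [← hrep, φle]
      exact Eventually.of_forall fun S => m.sub f (fun j => ev I (v S) (rep (xs j))) i
    · rw [← Set.image_univ]
      exact ((Set.IsPWO.of_linearOrder _).image_of_monotone ccm.monotone).isWF
    · intro b
      exact ⟨rep b, Subtype.ext (by rw [hgen, hrep])⟩
  have hlike : OmegaLike B := by
    refine ⟨fun h => om_like.1 ?_, fun b => ?_⟩
    · simpa using h.preimage_of_injOn (f := cc) ccm.injective.injOn
    · obtain ⟨ξ, hξ⟩ := om_like.bound (rep b).varFinset.countable_toSet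
      have hb : (b : G) < φ (Term.var ξ) := by
        rw [← hrep]; exact hbig ξ _ (fun x hx => hξ x hx)
      have : Countable (Set.Iic ξ) := (om_like.2 ξ).to_subtype
      have hcount : (Set.range fun t : L.Term (Set.Iic ξ) =>
          ev J (fun x : Set.Iic ξ => cc x.1) t).Countable := Set.countable_range _
      refine hcount.mono ?_
      intro y hy
      have hyv : ∀ x ∈ (rep y).varFinset, x ≤ ξ := by
        intro x hx
        by_contra hlt
        push Not at hlt
        have h1 : φ (Term.var x) ≤ (y : G) := by rw [← hrep y]; exact hvar _ x hx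
        have h2 : (y : G) ≤ b := hy
        have h3 : φ (Term.var ξ) < φ (Term.var x) := ccm hlt
        exact absurd (h3.trans_le (h1.trans h2)) (not_lt.2 hb.le)
      refine ⟨(rep y).subst (fun x => Term.var (if h : x ≤ ξ then ⟨x, h⟩ else ⟨ξ, Set.mem_Iic.2 le_rfl⟩)), ?_⟩
      simp only [ev_subst]
      rw [ev_congr J (w := cc) (rep y)]
      · exact Subtype.ext (by rw [hgen, hrep])
      · intro x hx
        simp [ev, hyv x hx]
  obtain ⟨e⟩ := omega_iso hlike om_like
  exact transport e mJ cJ

theorem size_lt {X : Type} {n : ℕ} (f : L.Functions n) (ts : Fin n → L.Term X) (i : Fin n) :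
    ts i ≠ Term.func f ts := by
  intro h
  obtain ⟨p, q, hpq⟩ := flatMap_update (Term.listEncode (L := L) (α := X)) ts i
  have a2 := hpq (ts i)
  rw [Function.update_eq_self] at a2
  have := congrArg (fun t => t.listEncode.length) h
  simp only [Term.listEncode, a2, List.length_cons, List.length_append] at this
  omega

theorem omega_model [Finite (Σ n, L.Functions n)] {R : Rules L} (hR : IsTRS R) (h : TotTerm R) :
    ∃ J : Interp L Om, Mono J ∧ Compat R J := by
  classical
  obtain ⟨lo, wo, m, c⟩ := model_of_totTerm h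
  by_cases hc : ∃ n, 0 < n ∧ Nonempty (L.Functions n)
  · obtain ⟨n, hn, ⟨f⟩⟩ := hc
    have : NoMaxOrder (Ground L) := ⟨fun t =>
      ⟨Term.func f fun _ => t, lt_of_le_of_ne (m.sub f (fun _ => t) ⟨0, hn⟩)
        (size_lt f (fun _ => t) ⟨0, hn⟩)⟩⟩
    exact extend_model m c
  · push Not at hc
    let I : Interp L (Ground L ⊕ₗ ℕ) := fun n f _ =>
      toLex (Sum.inl (Term.func f fun i => ((hc n i.pos).false f).elim))
    have hI : ∀ (w : ℕ → Ground L ⊕ₗ ℕ) (σ : ℕ → Ground L) (t : L.Term ℕ), (∀ x, t ≠ Term.var x) →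
        ev I w t = toLex (Sum.inl (t.subst σ)) ∧ t.varFinset = ∅ := by
      intro w σ t ht
      cases t with
      | var x => exact (ht x rfl).elim
      | @func n f ts =>
        refine ⟨?_, ?_⟩
        · simp only [ev, Term.subst, I]
          congr
          funext i
          exact ((hc n i.pos).false f).elim
        · simp only [Term.varFinset]
          ext x
          simp only [Finset.mem_biUnion, Finset.notMem_empty, iff_false, not_exists]
          intro i
          exact ((hc n i.pos).false f).elim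
    have mI : Mono I := fun n f xs i => ((hc n i.pos).false f).elim
    have cI : Compat R I := by
      intro p hp w
      obtain ⟨σ⟩ : Nonempty (ℕ → Ground L) := inferInstance
      obtain ⟨h1, h2⟩ := hI w σ p.1 (hR p hp).1
      have h3 : ∀ x, p.2 ≠ Term.var x := by
        intro x hx
        have := (hR p hp).2
        rw [hx, h2] at this
        simp at this
      rw [h1, (hI w σ p.2 h3).1, Sum.Lex.inl_lt_inl_iff]
      have := c p hp σ
      rwa [ev_func, ev_func] at this
    have : WellFoundedLT (Ground L ⊕ₗ ℕ) := ⟨Sum.lex_wf wellFounded_lt wellFounded_lt⟩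
    exact extend_model mI cI

theorem modular {L₁ L₂ : FirstOrder.Language.{0,0}} [Finite (Σ n, L₁.Functions n)]
    [Finite (Σ n, L₂.Functions n)] {R₁ : Rules L₁} {R₂ : Rules L₂} (h₁ : IsTRS R₁) (h₂ : IsTRS R₂)
    (t₁ : TotTerm R₁) (t₂ : TotTerm R₂) : TotTerm (union R₁ R₂) := by
  obtain ⟨J₁, m₁, c₁⟩ := omega_model h₁ t₁
  obtain ⟨J₂, m₂, c₂⟩ := omega_model h₂ t₂
  obtain ⟨J, m, c⟩ := union_model m₁ c₁ m₂ c₂
  have : Nonempty Om := by
    by_contra hn
    rw [not_nonempty_iff] at hn
    exact om_like.1 (Set.to_countable _)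
  exact totTerm_of_model m c

end Pool.Agent.H2.TRS
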