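import Pool.Agent.H2.TRS2

open FirstOrder FirstOrder.Language

namespace Pool.Agent.H2.TRS

inductive F1 : ℕ → Type
  | a (n : ℕ) : F1 0
  | h (n : ℕ) : F1 1
  | k (n : ℕ) : F1 2

def L1 : FirstOrder.Language.{0,0} := ⟨F1, fun _ => Empty⟩

def x0 {L : FirstOrder.Language.{0,0}} : L.Term ℕ := Term.var 0

def R1 : Rules L1 := {p | ∃ n : ℕ,
  p = (Term.func (F1.h n) ![x0], Term.func (F1.k n) ![x0, x0]) ∨
  p = (Term.func (F1.k n) ![Term.func (F1.a n) ![], x0], Term.func (F1.h (n + 1)) ![x0])}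

def H1 (n x : ℕ) : ℕ := (x + 1 - n) * (2 * x + 2) + 2 * x + 1

def K1 (n y x : ℕ) : ℕ := y + x + if n ≤ y then H1 (n + 1) x + 1 else 0

theorem H1_mono (n : ℕ) {x y : ℕ} (h : x < y) : H1 n x < H1 n y := by
  unfold H1
  have : (x + 1 - n) * (2 * x + 2) ≤ (y + 1 - n) * (2 * y + 2) :=
    Nat.mul_le_mul (by omega) (by omega)
  omega

def I1 : Interp L1 ℕ := fun _ f xs => match f with
  | F1.a n => n
  | F1.h n => H1 n (xs 0)
  | F1.k n => K1 n (xs 0) (xs 1)

theorem R1_trs : IsTRS R1 := by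
  rintro p ⟨n, rfl | rfl⟩
  · refine ⟨fun x h => (by cases h), ?_⟩
    intro x
    simp [x0, Fin.exists_fin_succ]
  · refine ⟨fun x h => (by cases h), ?_⟩
    intro x
    simp [x0, Fin.exists_fin_succ]

theorem R1_tt : TotTerm R1 := by
  refine totTerm_of_model (I := I1) ?_ ?_
  · intro n f xs i a h
    cases f with
    | a n => exact i.elim0
    | h n =>
      fin_cases i
      exact H1_mono n h
    | k n =>
      fin_cases i
      · change K1 n a (xs 1) < K1 n (xs 0) (xs 1)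
        change a < xs 0 at h
        unfold K1
        split_ifs <;> omega
      · change K1 n (xs 0) a < K1 n (xs 0) (xs 1)
        change a < xs 1 at h
        unfold K1
        have := H1_mono (n + 1) h
        split_ifs <;> omega
  · rintro p ⟨n, rfl | rfl⟩ v
    · change K1 n (v 0) (v 0) < H1 n (v 0)
      unfold K1
      split_ifs with h
      · unfold H1
        have : v 0 + 1 - n = (v 0 + 1 - (n + 1)) + 1 := by omega
        rw [this, add_mul]
        omega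
      · unfold H1; omega
    · change H1 (n + 1) (v 0) < K1 n n (v 0)
      unfold K1
      rw [if_pos le_rfl]; omega

theorem R1_cof {A : Type} [LinearOrder A] [WellFoundedLT A] {I : Interp L1 A} (m : Mono I)
    (c : Compat R1 I) (x : A) : ∃ n, x < I 0 (F1.a n) ![] := by
  by_contra hc
  push Not at hc
  have hanti : StrictAnti (fun n => I 1 (F1.h n) ![x]) := by
    refine strictAnti_nat_of_succ_lt fun n => ?_
    have h1 := c _ ⟨n, Or.inl rfl⟩ (fun _ => x)
    have h2 := c _ ⟨n, Or.inr rfl⟩ (fun _ => x)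
    simp only [ev] at h1 h2
    have e1 : (fun i => ev I (fun _ => x) (![x0] i)) = ![x] := by
      funext i; fin_cases i; rfl
    rw [e1] at h1 h2
    refine h2.trans (lt_of_le_of_lt (m.le _ ?_) h1)
    intro i
    fin_cases i
    · have e2 : (fun i => ev I (fun _ : ℕ => x) (![] i)) = ![] := by
        funext i; exact i.elim0
      have := hc n
      rw [← e2] at this
      exact this
    · exact le_rfl
  exact (WellFounded.not_rel_apply_succ (r := (· < ·)) (fun n => I 1 (F1.h n) ![x])).elim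
    fun n hn => hn (hanti (Nat.lt_succ_self n))

inductive F2 : ℕ → Type
  | b (ζ : Om) : F2 0
  | w (ζ : Om) : F2 1
  | v (ζ ξ : Om) : F2 1
  | k (ζ ξ η : Om) : F2 2

def L2 : FirstOrder.Language.{0,0} := ⟨F2, fun _ => Empty⟩

def R2 : Rules L2 := {p | ∃ ζ ξ η : Om, ξ < η ∧ η < ζ ∧
  (p = (Term.func (F2.v ζ ξ) ![x0],
      Term.func (F2.k ζ ξ η) ![x0, Term.func (F2.w ζ) ![x0] ]) ∨
  p = (Term.func (F2.k ζ ξ η) ![Term.func (F2.b ζ) ![], Term.func (F2.w η) ![x0] ],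
      Term.func (F2.v ζ η) ![x0]))}

theorem R2_trs : IsTRS R2 := by
  rintro p ⟨ζ, ξ, η, -, -, rfl | rfl⟩
  · refine ⟨fun x h => (by cases h), ?_⟩
    intro x
    simp [x0, Fin.exists_fin_succ]
  · refine ⟨fun x h => (by cases h), ?_⟩
    intro x
    simp [x0, Fin.exists_fin_succ]

theorem R2_count {A : Type} [LinearOrder A] [WellFoundedLT A] {I : Interp L2 A} (m : Mono I)
    (c : Compat R2 I) (x : A) : {ζ : Om | I 0 (F2.b ζ) ![] ≤ x}.Countable := by
  classical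
  by_contra hZ
  set Z := {ζ : Om | I 0 (F2.b ζ) ![] ≤ x} with hZdef
  let W : Om → A := fun ζ => I 1 (F2.w ζ) ![x]
  have e1 : (fun i => ev I (fun _ => x) (![x0] i)) = ![x] := by
    funext i; fin_cases i; rfl
  have key : ∀ ζ ∈ Z, ∀ ξ η, ξ < η → η < ζ → W η ≤ W ζ →
      I 1 (F2.v ζ η) ![x] < I 1 (F2.v ζ ξ) ![x] := by
    intro ζ hζ ξ η h1 h2 hW
    have c1 := c _ ⟨ζ, ξ, η, h1, h2, Or.inl rfl⟩ (fun _ => x)
    have c2 := c _ ⟨ζ, ξ, η, h1, h2, Or.inr rfl⟩ (fun _ => x)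
    simp only [ev] at c1 c2
    rw [e1] at c1 c2
    refine c2.trans (lt_of_le_of_lt (m.le _ ?_) c1)
    intro i
    fin_cases i
    · have e2 : (fun i => ev I (fun _ : ℕ => x) (![] i)) = ![] := by
        funext i; exact i.elim0
      have : I 0 (F2.b ζ) ![] ≤ x := hζ
      rw [← e2] at this
      exact this
    · have := hW
      simp only [W] at this
      rw [← e1] at this
      exact this
  have hunb : ∀ S : Set Om, S.Countable → ∃ ζ ∈ Z, ∀ s ∈ S, s < ζ := by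
    intro S hS
    obtain ⟨y, hy⟩ := om_like.bound hS
    by_contra hc
    push Not at hc
    refine hZ ((om_like.2 y).mono fun ζ hζ => ?_)
    obtain ⟨s, hs, hle⟩ := hc ζ hζ
    exact hle.trans (hy s hs).le
  have hstep : ∀ y : Om, ∃ ζ, y < ζ ∧ ∀ ζ' ∈ Z, y < ζ' → W ζ ≤ W ζ' := by
    intro y
    obtain ⟨ζ₀, h0, h0'⟩ := hunb {y} (Set.countable_singleton y)
    have hne : {ζ | ζ ∈ Z ∧ y < ζ}.Nonempty := ⟨ζ₀, h0, h0' y rfl⟩
    refine ⟨Function.argminOn W _ hne, (Function.argminOn_mem W _ hne).2, fun ζ' h1 h2 => ?_⟩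
    exact Function.argminOn_le W _ (show ζ' ∈ {ζ | ζ ∈ Z ∧ y < ζ} from ⟨h1, h2⟩)
  choose nx hnx hmin using hstep
  obtain ⟨y₀, -, -⟩ := hunb ∅ Set.countable_empty
  let s : ℕ → Om := fun n => nx^[n] y₀
  have hs : ∀ n, s (n + 1) = nx (s n) := fun n => Function.iterate_succ_apply' nx n y₀
  obtain ⟨ζ, hζ, hζs⟩ := hunb (Set.range s) (Set.countable_range s)
  have hlt : ∀ n, I 1 (F2.v ζ (s (n + 1))) ![x] < I 1 (F2.v ζ (s n)) ![x] := by
    intro n
    refine key ζ hζ _ _ (by rw [hs]; exact hnx _) (hζs _ ⟨_, rfl⟩) ?_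
    rw [hs]
    exact hmin _ ζ hζ (hζs _ ⟨_, rfl⟩)
  exact (WellFounded.not_rel_apply_succ (r := (· < ·)) (fun n => I 1 (F2.v ζ (s n)) ![x])).elim
    fun n hn => hn (hlt n)

theorem exists_rec {P : Type} (r : P → P → Prop) (hr : WellFounded r)
    (hc : ∀ p, {q | r q p}.Countable) (Φ : P → Om → Om) :
    ∃ ψ U : P → Om, (∀ p q, r q p → ψ q < U p) ∧ ∀ p, ψ p = Φ p (U p) := by
  classical
  have hb : ∀ p (g : ∀ q, r q p → Om), ∃ y, ∀ q (h : r q p), g q h < y := by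
    intro p g
    have : Countable {q | r q p} := (hc p).to_subtype
    obtain ⟨y, hy⟩ := om_like.bound (Set.countable_range fun q : {q | r q p} => g q.1 q.2)
    exact ⟨y, fun q h => hy _ ⟨⟨q, h⟩, rfl⟩⟩
  choose F hF using hb
  let ψ : P → Om := hr.fix (fun p g => Φ p (F p g))
  refine ⟨ψ, fun p => F p (fun q _ => ψ q), fun p q h => hF p (fun q _ => ψ q) q h, fun p => ?_⟩
  exact hr.fix_eq _ p

theorem lex_count (p : Om ×ₗ ℕ) : {q | q < p}.Countable := by
  have h : ((Set.Iic (ofLex p).1) ×ˢ (Set.univ : Set ℕ)).Countable :=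
    (om_like.2 _).prod Set.countable_univ
  refine (h.image toLex).mono ?_
  intro q hq
  exact ⟨ofLex q, ⟨Prod.Lex.monotone_fst_ofLex (le_of_lt hq), trivial⟩, rfl⟩

theorem R2_tt : TotTerm R2 := by
  classical
  have hsucc : ∀ u : Om, ∃ y, u < y := fun u => by
    obtain ⟨y, hy⟩ := om_like.bound (Set.countable_singleton u)
    exact ⟨y, hy u rfl⟩
  have hne : Nonempty Om := by
    obtain ⟨y, -⟩ := om_like.bound Set.countable_empty
    exact ⟨y⟩
  -- blocks
  obtain ⟨Lf, U0, hL1, hL2⟩ := exists_rec (P := Om ×ₗ ℕ) (· < ·) wellFounded_lt lex_count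
    (fun _ u => u)
  have hL : StrictMono Lf := fun q p h => by rw [hL2 p]; exact hL1 p q h
  -- ternary
  have hb2 : ∀ u t : Om, ∃ y, u < y ∧ t < y := fun u t => by
    obtain ⟨y, hy⟩ := hsucc (max u t)
    exact ⟨y, (le_max_left _ _).trans_lt hy, (le_max_right _ _).trans_lt hy⟩
  choose ub hub1 hub2 using hb2
  obtain ⟨B, U1, hB1, hB2⟩ := exists_rec (P := Om × Om × Om) (· < ·) wellFounded_lt
    (fun p => (((om_like.2 p.1).prod ((om_like.2 p.2.1).prod (om_like.2 p.2.2))).mono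
      (by
        intro q hq
        have h : q ≤ p := le_of_lt hq
        exact ⟨h.1, h.2.1, h.2.2⟩)))
    (fun p u => ub u p.2.2)
  have hB : StrictMono B := fun q p h => by
    rw [hB2 p]; exact (hB1 p q h).trans (hub1 _ _)
  have hBt : ∀ p, p.2.2 < B p := fun p => by rw [hB2 p]; exact hub2 _ _
  have hb3 : ∀ (x u : Om), ∃ y, ∀ m : ℕ, B (x, Lf (toLex (x, m)), u) < y := fun x u => by
    obtain ⟨y, hy⟩ := om_like.bound (Set.countable_range fun m : ℕ => B (x, Lf (toLex (x, m)), u))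
    exact ⟨y, fun m => hy _ ⟨m, rfl⟩⟩
  choose ub3 hub3 using hb3
  obtain ⟨M, U, hM1, hM2⟩ := exists_rec (P := Om ×ₗ ℕ) (· < ·) wellFounded_lt lex_count
    (fun p u => ub3 (ofLex p).1 u)
  have hMB : ∀ x n m, B (x, Lf (toLex (x, m)), U (toLex (x, n))) < M (toLex (x, n)) := by
    intro x n m
    rw [hM2]; exact hub3 _ _ _
  have hM : StrictMono M := fun q p h =>
    (hM1 p q h).trans ((hBt (_, _, U p)).trans (hMB (ofLex p).1 (ofLex p).2 0))
  have hg : ∀ x : Om, ∃ g : Om → ℕ, Set.InjOn g (Set.Iic x) := fun x =>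
    Set.countable_iff_exists_injOn.1 (om_like.2 x)
  choose g hg using hg
  let cnt : Om → Om → Om → ℕ := fun x ζ ξ => {η | ξ < η ∧ η < ζ ∧ g x η ≤ g x ζ}.ncard
  let Wf : Om → Om → Om := fun η x => Lf (toLex (x, g x η))
  let Vf : Om → Om → Om → Om := fun ζ ξ x => M (toLex (x, cnt x ζ ξ))
  have hWm : ∀ η, StrictMono (Wf η) := fun η x y h => hL (Prod.Lex.left _ _ h)
  have hVm : ∀ ζ ξ, StrictMono (Vf ζ ξ) := fun ζ ξ x y h => hM (Prod.Lex.left _ _ h)
  let T : Om → Om → Om → Om → Set Om := fun ζ η y z =>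
    {s | ζ ≤ y → ∀ x', Wf η x' ≤ z → Vf ζ η x' ≤ s}
  have hT : ∀ ζ η y z, (T ζ η y z).Nonempty := by
    intro ζ η y z
    obtain ⟨s, hs⟩ := om_like.bound ((om_like.2 z).image (Vf ζ η))
    exact ⟨s, fun _ x' hx' => (hs _ ⟨x', ((hWm η).le_apply).trans hx', rfl⟩).le⟩
  let τ : Om → Om → Om → Om → Om := fun ζ η y z => wellFounded_lt.min (T ζ η y z) (hT ζ η y z)
  have τmem : ∀ ζ η y z, τ ζ η y z ∈ T ζ η y z := fun ζ η y z => wellFounded_lt.min_mem _ _
  have τle : ∀ ζ η y z s, s ∈ T ζ η y z → τ ζ η y z ≤ s := fun ζ η y z s hs =>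
    wellFounded_lt.min_le hs
  have τmono : ∀ ζ η y z y' z', y ≤ y' → z ≤ z' → τ ζ η y z ≤ τ ζ η y' z' := by
    intro ζ η y z y' z' hy hz
    exact τle _ _ _ _ _ fun h x' hx' => τmem ζ η y' z' (h.trans hy) x' (hx'.trans hz)
  let I : Interp L2 Om := fun _ f xs => match f with
    | F2.b ζ => ζ
    | F2.w η => Wf η (xs 0)
    | F2.v ζ ξ => Vf ζ ξ (xs 0)
    | F2.k ζ _ η => B (xs 0, xs 1, τ ζ η (xs 0) (xs 1))
  refine totTerm_of_model (I := I) ?_ ?_
  · intro n f xs i a h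
    cases f with
    | b ζ => exact i.elim0
    | w η =>
      fin_cases i
      exact hWm η h
    | v ζ ξ =>
      fin_cases i
      exact hVm ζ ξ h
    | k ζ ξ η =>
      fin_cases i
      · change B (a, xs 1, τ ζ η a (xs 1)) < B (xs 0, xs 1, τ ζ η (xs 0) (xs 1))
        change a < xs 0 at h
        exact hB (Prod.lt_iff.2 (Or.inl ⟨h, le_rfl, τmono _ _ _ _ _ _ h.le le_rfl⟩))
      · change B (xs 0, a, τ ζ η (xs 0) a) < B (xs 0, xs 1, τ ζ η (xs 0) (xs 1))
        change a < xs 1 at h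
        exact hB (Prod.lt_iff.2 (Or.inr ⟨le_rfl,
          Prod.lt_iff.2 (Or.inl ⟨h, τmono _ _ _ _ _ _ le_rfl h.le⟩)⟩))
  · rintro p ⟨ζ, ξ, η, h1, h2, rfl | rfl⟩ v
    · change B (v 0, Wf ζ (v 0), τ ζ η (v 0) (Wf ζ (v 0))) < Vf ζ ξ (v 0)
      generalize v 0 = x
      refine lt_of_le_of_lt (hB.monotone ?_) (hMB x (cnt x ζ ξ) (g x ζ))
      refine ⟨le_rfl, le_rfl, τle _ _ _ _ _ fun hζ x' hx' => (hM1 _ _ ?_).le⟩
      have hx'' := hL.le_iff_le.1 hx'
      rcases Prod.Lex.toLex_le_toLex.1 hx'' with h | ⟨h, h'⟩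
      · exact Prod.Lex.left _ _ h
      · simp only at h h'
        subst h
        refine Prod.Lex.right _ ?_
        have hfin : {η' | ξ < η' ∧ η' < ζ ∧ g x' η' ≤ g x' ζ}.Finite := by
          refine Set.Finite.of_finite_image (f := g x') ((Set.finite_Iic (g x' ζ)).subset ?_) ?_
          · rintro _ ⟨η', hη', rfl⟩
            exact hη'.2.2
          · exact (hg x').mono fun η' hη' => hη'.2.1.le.trans hζ
        refine Set.ncard_lt_ncard ⟨fun η' hη' => ⟨h1.trans hη'.1, hη'.2⟩, fun hsub => ?_⟩ hfin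
        exact lt_irrefl η (hsub ⟨h1, h2, h'⟩).1
    · change Vf ζ η (v 0) < B (ζ, Wf η (v 0), τ ζ η ζ (Wf η (v 0)))
      exact lt_of_le_of_lt (τmem ζ η ζ _ le_rfl (v 0) le_rfl) (hBt (_, _, _))

theorem union_not_tt : ¬ TotTerm (union R1 R2) := by
  intro h
  obtain ⟨lo, wo, m, c⟩ := model_of_totTerm h
  obtain ⟨⟨m1, c1⟩, ⟨m2, c2⟩⟩ := split_model m c
  apply om_like.1
  refine (Set.countable_iUnion fun n : ℕ => R2_count m2 c2 (Term.func (Sum.inl (F1.a n)) ![])).mono ?_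
  intro ζ _
  obtain ⟨n, hn⟩ := R1_cof m1 c1 (Term.func (Sum.inr (F2.b ζ)) ![])
  exact Set.mem_iUnion.2 ⟨n, hn.le⟩

end Pool.Agent.H2.TRS
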