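import Mathlib

set_option autoImplicit false

namespace Pool.Agent.H2.UL
open Polynomial Cardinal

theorem root_close {K Γ : Type*} [Field K] [IsAlgClosed K] [LinearOrderedCommGroupWithZero Γ]
    (v : Valuation K Γ) (P : K[X]) (hm : P.Monic) (hd : 0 < P.natDegree) (z : K) :
    ∃ a, P.eval a = 0 ∧ v (z - a) ^ P.natDegree ≤ v (P.eval z) := by
  classical
  have hs := IsAlgClosed.splits P
  obtain ⟨a, ha, h⟩ := P.roots.toFinset.exists_min_image (fun a => v (z - a))
    (by simpa [Multiset.toFinset_nonempty] using hs.roots_ne_zero hd.ne')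
  refine ⟨a, (mem_roots hm.ne_zero).1 (Multiset.mem_toFinset.1 ha), ?_⟩
  rw [hs.eval_eq_prod_roots_of_monic hm, map_multiset_prod, hs.natDegree_eq_card_roots]
  have := Multiset.pow_card_le_prod (s := (P.roots.map (z - ·)).map v) (a := v (z - a)) (by
    intro x hx
    simp only [Multiset.map_map, Multiset.mem_map, Function.comp] at hx
    obtain ⟨b, hb, rfl⟩ := hx
    exact h b (Multiset.mem_toFinset.2 hb))
  simpa using this

variable (κ : Type) [Field κ]

abbrev KK := AlgebraicClosure (FractionRing (PowerSeries κ))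
noncomputable abbrev φ : PowerSeries κ →+* KK κ := algebraMap _ _
noncomputable def ee : κ →+* KK κ := (φ κ).comp PowerSeries.C
noncomputable def tt : KK κ := φ κ PowerSeries.X

theorem φ_inj : Function.Injective (φ κ) := by
  rw [φ, IsScalarTower.algebraMap_eq _ (FractionRing (PowerSeries κ))]
  exact (algebraMap (FractionRing (PowerSeries κ)) (KK κ)).injective.comp
    (IsFractionRing.injective _ _)

instance [CharZero κ] : CharZero (KK κ) := (RingHom.charZero_iff (ee κ).injective).1 ‹_›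

theorem tt_ne : tt κ ≠ 0 := fun h =>
  PowerSeries.X_ne_zero (φ_inj κ (h.trans (map_zero _).symm))

noncomputable def OO : ValuationSubring (KK κ) :=
  (IsLocalRing.exists_factor_valuationRing (φ κ)).choose
noncomputable abbrev vv := (OO κ).valuation

theorem vφ (a : PowerSeries κ) : vv κ (φ κ a) ≤ 1 :=
  ((OO κ).valuation_le_one_iff _).2
    ((IsLocalRing.exists_factor_valuationRing (φ κ)).choose_spec.choose a)

theorem vt : vv κ (tt κ) < 1 := by
  obtain ⟨h, h'⟩ := (IsLocalRing.exists_factor_valuationRing (φ κ)).choose_spec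
  refine (vφ κ _).lt_of_ne fun h1 => ?_
  have := ((OO κ).valuation_eq_one_iff ⟨tt κ, h _⟩).2 h1
  have h2 : IsUnit (PowerSeries.X : PowerSeries κ) := h'.1 _ this
  simp [PowerSeries.isUnit_iff_constantCoeff] at h2

theorem ve (u : κ) : vv κ (ee κ u) ≤ 1 := vφ κ _

theorem ve1 {u : κ} (hu : u ≠ 0) : vv κ (ee κ u) = 1 := by
  refine (ve κ u).antisymm ?_
  have h := ve κ u⁻¹
  rw [map_inv₀, map_inv₀] at h
  exact (inv_le_one₀ (by simpa [Valuation.pos_iff] using hu)).1 h

theorem v_int {w : KK κ} (h : IsIntegral (PowerSeries κ) w) : vv κ w ≤ 1 :=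
  (Valuation.integer.integers (vv κ)).mem_of_integral
    (h.map_of_comp_eq ((φ κ).codRestrict (vv κ).integer (vφ κ)) (RingHom.id _) rfl)

theorem ex_int (y : KK κ) : ∃ n : ℕ, IsIntegral (PowerSeries κ) (tt κ ^ n * y) := by
  have := IsLocalization.isAlgebraic (FractionRing (PowerSeries κ))
    (nonZeroDivisors (PowerSeries κ))
  have := Algebra.IsAlgebraic.trans (PowerSeries κ) (FractionRing (PowerSeries κ)) (KK κ)
  obtain ⟨a, ha, h⟩ :=
    (Algebra.IsAlgebraic.isAlgebraic (R := PowerSeries κ) y).exists_integral_multiple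
  obtain ⟨u, hu⟩ := PowerSeries.isUnit_divided_by_X_pow_order ha
  refine ⟨a.order.toNat, ?_⟩
  have h2 := h.smul (↑u⁻¹ : PowerSeries κ)
  rw [← PowerSeries.X_pow_order_mul_divXPowOrder (f := a), ← hu, smul_smul, mul_left_comm,
    Units.inv_mul, mul_one, Algebra.smul_def, map_pow] at h2
  exact h2

theorem v_bd (y : KK κ) : ∃ n : ℕ, vv κ (tt κ) ^ n * vv κ y ≤ 1 := by
  obtain ⟨n, h⟩ := ex_int κ y
  exact ⟨n, by simpa using v_int κ h⟩

noncomputable def LL : Subfield (KK κ) := Subfield.closure (Set.range (ee κ) ∪ {tt κ})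
theorem e_L (u : κ) : ee κ u ∈ LL κ := Subfield.subset_closure (.inl ⟨u, rfl⟩)
theorem t_L : tt κ ∈ LL κ := Subfield.subset_closure (.inr rfl)

instance [Countable κ] : Countable (LL κ) := by
  rw [← Cardinal.mk_le_aleph0_iff]
  refine (Subfield.cardinalMk_closure_le_max _).trans (max_le ?_ le_rfl)
  exact Cardinal.le_aleph0_iff_set_countable.2
    ((Set.countable_range _).union (Set.countable_singleton _))

theorem poly_L (q : κ[X]) : φ κ q ∈ LL κ := by
  induction q using Polynomial.induction_on' with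
  | add p q hp hq => rw [Polynomial.coe_add, map_add]; exact add_mem hp hq
  | monomial n a =>
    rw [Polynomial.coe_monomial, PowerSeries.monomial_eq_C_mul_X_pow, map_mul, map_pow]
    exact mul_mem (e_L κ a) (pow_mem (t_L κ) n)

theorem dense (y : KK κ) (j : ℕ) :
    ∃ z, IsAlgebraic (LL κ) z ∧ vv κ (y - z) ≤ vv κ (tt κ) ^ j := by
  obtain ⟨n, h⟩ := ex_int κ y
  have hw := v_int κ h
  obtain ⟨P, hm, hP⟩ := h
  set w := tt κ ^ n * y with hwd
  have hd : 0 < P.natDegree := by
    by_contra h0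
    rw [hm.natDegree_eq_zero.1 (by omega)] at hP
    simp at hP
  set d := P.natDegree with hdd
  let Q : (LL κ)[X] := X ^ d + ∑ i ∈ Finset.range d,
    C (⟨_, poly_L κ ((P.coeff i).trunc (d * (j + n)))⟩ : LL κ) * X ^ i
  have hlt : (∑ i ∈ Finset.range d,
      C (⟨_, poly_L κ ((P.coeff i).trunc (d * (j + n)))⟩ : LL κ) * X ^ i).degree <
      (d : WithBot ℕ) :=
    (degree_sum_le _ _).trans_lt ((Finset.sup_lt_iff (WithBot.bot_lt_coe d)).2 fun i hi =>
      (degree_C_mul_X_pow_le i _).trans_lt (Nat.cast_lt.2 (Finset.mem_range.1 hi)))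
  have hQ : Q.Monic := monic_X_pow_add hlt
  have hQd : Q.natDegree = d := by
    rw [natDegree_add_eq_left_of_degree_lt (by rwa [degree_X_pow]), natDegree_X_pow]
  obtain ⟨a, ha, h1⟩ := root_close (vv κ) (Q.map (algebraMap _ _)) (hQ.map _)
    (by rwa [hQ.natDegree_map, hQd]) w
  rw [hQ.natDegree_map, hQd] at h1
  have h2 : (Q.map (algebraMap _ (KK κ))).eval w = -(tt κ ^ (d * (j + n)) *
      ∑ i ∈ Finset.range d,
        φ κ (PowerSeries.mk fun k => PowerSeries.coeff (k + d * (j + n)) (P.coeff i)) * w ^ i) := by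
    rw [hm.as_sum, eval₂_add, eval₂_finset_sum] at hP
    simp only [eval₂_mul, eval₂_C, eval₂_X_pow] at hP
    simp only [Q, Polynomial.map_add, Polynomial.map_pow, map_X, Polynomial.map_sum,
      Polynomial.map_mul, map_C, eval_add, eval_pow, eval_X, eval_finset_sum, eval_mul, eval_C]
    rw [eq_neg_iff_add_eq_zero, ← hP, Finset.mul_sum, add_assoc, ← Finset.sum_add_distrib]
    congr 1
    refine Finset.sum_congr rfl fun i _ => ?_
    conv_rhs => rw [(P.coeff i).eq_X_pow_mul_shift_add_trunc (d * (j + n))]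
    simp only [map_add, map_mul, map_pow]
    show φ κ _ * _ + _ = (tt κ ^ _ * φ κ _ + φ κ _) * _
    ring
  have h3 : vv κ (w - a) ≤ vv κ (tt κ) ^ (j + n) := by
    refine (pow_le_pow_iff_left₀ zero_le zero_le hd.ne').1 (h1.trans ?_)
    rw [h2, Valuation.map_neg, map_mul, map_pow, ← pow_mul']
    refine mul_le_of_le_one_right' (Valuation.map_sum_le _ fun i _ => ?_)
    rw [map_mul, map_pow]
    exact mul_le_one' (vφ κ _) (pow_le_one' hw i)
  refine ⟨a * (tt κ ^ n)⁻¹, IsAlgebraic.mul ⟨Q, hQ.ne_zero, by rwa [← eval_map_algebraMap]⟩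
    (isAlgebraic_algebraMap (⟨_, inv_mem (pow_mem (t_L κ) n)⟩ : LL κ)), ?_⟩
  have ht := tt_ne κ
  rw [show y - a * (tt κ ^ n)⁻¹ = (w - a) * (tt κ ^ n)⁻¹ by rw [hwd]; field_simp, map_mul,
    map_inv₀, map_pow, mul_inv_le_iff₀ (pow_pos (by simpa [Valuation.pos_iff]) n), ← pow_add]
  exact h3

theorem indep [Countable κ] [CharZero κ] :
    ∃ η : ℝ → KK κ, AlgebraicIndependent (LL κ) η ∧ ∀ x, vv κ (η x) < 1 := by
  obtain ⟨ι, b, hb⟩ := exists_isTranscendenceBasis' (LL κ) (KK κ)
  have h1 : #ℝ ≤ #(KK κ) := by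
    rw [Cardinal.mk_real, ← Cardinal.aleph0_power_aleph0, ← Cardinal.mk_nat, Cardinal.power_def]
    refine Cardinal.mk_le_of_injective
      (f := fun f => φ κ (PowerSeries.mk fun n => (f n : κ))) fun f g h => funext fun n => ?_
    simpa using congrArg (PowerSeries.coeff n) (φ_inj κ h)
  rw [IsAlgClosed.cardinal_eq_cardinal_transcendence_basis_of_aleph0_lt' b hb
    Cardinal.mk_le_aleph0 (Cardinal.aleph0_lt_continuum.trans_le (Cardinal.mk_real ▸ h1))] at h1
  obtain ⟨f⟩ := h1
  choose n hn using v_bd κ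
  have := (hb.1.comp f f.injective).polynomial_aeval_of_transcendental
    (f := fun x => C (⟨_, pow_mem (t_L κ) (n (b (f x)) + 1)⟩ : LL κ) * X) fun x =>
      Polynomial.transcendental _ (by
        rw [natDegree_C_mul_X]; exacts [one_ne_zero, fun h => pow_ne_zero _ (tt_ne κ) congr($h.1)])
        (mem_nonZeroDivisors_of_ne_zero (by
          rw [leadingCoeff_C_mul_X]; exact fun h => pow_ne_zero _ (tt_ne κ) congr($h.1)))
  refine ⟨_, this, fun x => ?_⟩
  simp only [map_mul, aeval_C, aeval_X, Function.comp]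
  show vv κ (tt κ ^ _) * _ < 1
  rw [map_pow, pow_succ', mul_assoc]
  exact (mul_le_of_le_one_right' (hn _)).trans_lt (vt κ)

theorem indep' [Countable κ] [CharZero κ] (a : ℝ → κ) :
    ∃ y : ℝ → KK κ, AlgebraicIndependent ℚ y ∧ ∀ x, vv κ (y x - ee κ (a x)) < 1 := by
  obtain ⟨η, h, h'⟩ := indep κ
  have := h.polynomial_aeval_of_transcendental
    (f := fun x => X + C (⟨_, e_L κ (a x)⟩ : LL κ)) fun x =>
      Polynomial.transcendental _ (by rw [natDegree_X_add_C]; exact one_ne_zero)
        (by rw [leadingCoeff_X_add_C]; exact one_mem _)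
  refine ⟨_, this.restrictScalars (algebraMap ℚ (LL κ)).injective, fun x => ?_⟩
  simp only [map_add, aeval_C, aeval_X]
  show vv κ (η x + ee κ (a x) - _) < 1
  simpa using h' x

end Pool.Agent.H2.UL
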