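import Pool.Agent.H2.UL1

set_option autoImplicit false

namespace Pool.Agent.H2.UL
open Polynomial Set Filter Topology
open scoped ContDiff

theorem sect {F T R : Type} [Field F] [CharZero F] [CommRing T] [Field R] [Algebra F T]
    [Algebra F R] [Algebra.IsAlgebraic F R] (π : T →ₐ[F] R)
    (hH : ∀ P : T[X], P.Monic → ∀ y, (P.map π.toRingHom).eval y = 0 →
      (P.map π.toRingHom).derivative.eval y ≠ 0 → ∃ z, P.eval z = 0 ∧ π z = y) :
    ∃ σ : R →+* T, ∀ x, π (σ x) = x := by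
  obtain ⟨S, -, hS⟩ := zorn_le_nonempty₀ {S : Subalgebra F T | ∀ z ∈ S, π z = 0 → z = 0}
    (fun c hc hch y hy => by
      have : Nonempty c := ⟨⟨y, hy⟩⟩
      refine ⟨⨆ i : c, i.1, fun z hz => ?_, fun z hz => le_iSup (fun i : c => i.1) ⟨z, hz⟩⟩
      rw [← SetLike.mem_coe, Subalgebra.coe_iSup_of_directed hch.directedOn.directed_val,
        mem_iUnion] at hz
      obtain ⟨i, hi⟩ := hz
      exact hc i.2 z hi) ⊥ (by
      rintro _ ⟨a, rfl⟩ h
      have : algebraMap F R a = 0 := (π.commutes a).symm.trans h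
      rw [(map_eq_zero _).1 this, map_zero])
  have hinj : Function.Injective (π.comp S.val) :=
    (injective_iff_map_eq_zero _).2 fun z hz => Subtype.ext (hS.prop z.1 z.2 hz)
  have hF : IsField S := MulEquiv.isField (π.comp S.val).range.isField_of_algebraic
    (AlgEquiv.ofInjective _ hinj).toMulEquiv
  have hsurj : Function.Surjective (π.comp S.val) := fun y => by
    letI := hF.toField
    letI : Algebra S R := (π.comp S.val).toRingHom.toAlgebra
    have : IsScalarTower F S R := IsScalarTower.of_algebraMap_eq fun a =>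
      ((π.comp S.val).commutes a).symm
    have : CharZero S := (RingHom.charZero_iff (algebraMap F S).injective).1 inferInstance
    have hy : IsIntegral S y :=
      (Algebra.IsAlgebraic.isAlgebraic (R := F) y).isIntegral.tower_top
    have e1 : ∀ q : S[X], (q.map (algebraMap S T)).map π.toRingHom = q.map (algebraMap S R) :=
      fun q => by rw [Polynomial.map_map]; rfl
    obtain ⟨z, hz, hz'⟩ := hH ((minpoly S y).map (algebraMap S T)) ((minpoly.monic hy).map _) y
      (by rw [e1, eval_map_algebraMap, minpoly.aeval])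
      (by
        rw [e1, derivative_map, eval_map_algebraMap]
        exact (minpoly.irreducible hy).separable.aeval_derivative_ne_zero (minpoly.aeval _ _))
    rw [eval_map_algebraMap] at hz
    let π' : T →ₐ[S] R := { π.toRingHom with commutes' := fun _ => rfl }
    have h1 : (Algebra.adjoin S {z}).restrictScalars F ≤ S := hS.le_of_ge (by
      intro w hw h0
      rw [Subalgebra.mem_restrictScalars, Algebra.adjoin_singleton_eq_range_aeval] at hw
      obtain ⟨q, rfl⟩ := hw
      have h2 : aeval y q = 0 := by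
        rw [← hz']; exact (aeval_algHom_apply π' z q).trans h0
      obtain ⟨r, rfl⟩ := minpoly.dvd S y h2
      show aeval z _ = 0
      rw [map_mul, hz, zero_mul])
      (fun w hw => (Algebra.adjoin S {z}).algebraMap_mem ⟨w, hw⟩)
    exact ⟨⟨z, h1 (Algebra.self_mem_adjoin_singleton S z)⟩, hz'⟩
  let e := RingEquiv.ofBijective (π.comp S.val).toRingHom ⟨hinj, hsurj⟩
  exact ⟨S.val.toRingHom.comp e.symm.toRingHom, fun x => e.apply_symm_apply x⟩

theorem evalf {T R : Type*} [CommRing T] [CommRing R] (f : T →+* R) (P : T[X]) (hm : P.Monic)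
    (z : R) : (P.map f).eval z =
      z ^ P.natDegree + ∑ i : Fin P.natDegree, f (P.coeff i) * z ^ (i : ℕ) := by
  conv_lhs => rw [hm.as_sum]
  rw [Fin.sum_univ_eq_sum_range (fun i => f (P.coeff i) * z ^ i)]
  simp [Polynomial.map_sum, eval_finset_sum]

theorem ift (P : ℝ[X]) (d : ℕ) (c0 : Fin d → ℝ) (y : ℝ)
    (hP : ∀ z, P.eval z = z ^ d + ∑ i : Fin d, c0 i * z ^ (i : ℕ)) (h0 : P.eval y = 0)
    (h1 : P.derivative.eval y ≠ 0) :
    ∃ ψ : (Fin d → ℝ) → ℝ, ψ c0 = y ∧
      ∀ᶠ c in 𝓝 c0, AnalyticAt ℝ ψ c ∧ ψ c ^ d + ∑ i : Fin d, c i * ψ c ^ (i : ℕ) = 0 := by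
  let F : (Fin d → ℝ) × ℝ → ℝ := fun u => u.2 ^ d + ∑ i : Fin d, u.1 i * u.2 ^ (i : ℕ)
  have hF : ContDiffAt ℝ ω F (c0, y) := by fun_prop
  have hi : (fderiv ℝ F (c0, y) ∘L .inr ℝ (Fin d → ℝ) ℝ).IsInvertible := by
    have h2 := (hF.differentiableAt (by simp)).hasFDerivAt.comp y (hasFDerivAt_prodMk_right c0 y)
    have h3 : F ∘ (fun z => (c0, z)) = fun z => P.eval z := funext fun z => (hP z).symm
    rw [h3] at h2
    rw [h2.unique (P.hasDerivAt y).hasFDerivAt]
    exact ⟨ContinuousLinearEquiv.unitsEquivAut ℝ (Units.mk0 _ h1), by ext; simp⟩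
  refine ⟨hF.implicitFunction (by simp) hi, hF.implicitFunction_apply_self _ _, ?_⟩
  filter_upwards [(hF.contDiffAt_implicitFunction (by simp) hi).analyticAt.eventually_analyticAt,
    hF.eventually_apply_implicitFunction (by simp) hi] with c h2 h3
  exact ⟨h2, h3.trans ((hP y).symm.trans h0)⟩

abbrev I01 := Icc (0 : ℝ) 1

def An : Subring (I01 → ℝ) where
  carrier := {u | ∃ U : ℝ → ℝ, AnalyticOnNhd ℝ U (Icc 0 1) ∧ ∀ l : I01, u l = U l}
  zero_mem' := ⟨0, analyticOnNhd_const, fun _ => rfl⟩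
  one_mem' := ⟨1, analyticOnNhd_const, fun _ => rfl⟩
  add_mem' := by
    rintro a b ⟨U, h, h'⟩ ⟨V, k, k'⟩; exact ⟨U + V, h.add k, fun l => by simp [h', k']⟩
  mul_mem' := by
    rintro a b ⟨U, h, h'⟩ ⟨V, k, k'⟩; exact ⟨U * V, h.mul k, fun l => by simp [h', k']⟩
  neg_mem' := by
    rintro a ⟨U, h, h'⟩; exact ⟨-U, h.neg, fun l => by simp [h']⟩

instance : NoZeroDivisors An := ⟨by
  rintro ⟨a, U, h, h'⟩ ⟨b, V, k, k'⟩ hab
  refine (h.eq_zero_or_eq_zero_of_mul_eq_zero k (fun z hz => ?_) isPreconnected_Icc).imp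
    (fun h0 => Subtype.ext <| funext fun l => (h' l).trans (h0 l l.2))
    (fun h0 => Subtype.ext <| funext fun l => (k' l).trans (h0 l l.2))
  rw [← h' ⟨z, hz⟩, ← k' ⟨z, hz⟩]
  exact congrFun (congrArg Subtype.val hab) ⟨z, hz⟩⟩

instance : Nonempty I01 := ⟨⟨0, by simp⟩⟩
instance : IsDomain An := NoZeroDivisors.to_isDomain _

noncomputable def cst : ℚ →+* An :=
  (algebraMap ℚ (I01 → ℝ)).codRestrict An fun q => ⟨fun _ => q, analyticOnNhd_const, fun _ => rfl⟩
def lam : An := ⟨fun l => l, id, analyticOnNhd_id, fun _ => rfl⟩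
noncomputable def R0 : Subring An := (eval₂RingHom cst lam).range
instance : Countable R0 := by
  have : Countable ℚ[X] := by
    rw [← Cardinal.mk_le_aleph0_iff]
    exact Polynomial.cardinalMk_le_max.trans (by simp)
  exact (countable_range _).to_subtype
noncomputable def κ0 : Subalgebra R0 An := Subalgebra.algebraicClosure R0 An
instance : Countable κ0 := (Algebraic.countable R0 An).to_subtype
instance : Algebra.IsAlgebraic R0 κ0 := ⟨fun u => (Subalgebra.isAlgebraic_iff_isAlgebraic_val).2 u.2⟩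
theorem κ0_cl {w : An} (h : IsAlgebraic κ0 w) : w ∈ κ0 := h.restrictScalars R0

abbrev κ := FractionRing κ0
instance : Countable κ := (IsLocalization.mk'_surjective (nonZeroDivisors κ0)).countable
noncomputable def ρ : κ0 →+* (I01 → ℝ) := An.subtype.comp κ0.val.toRingHom
theorem ρ_inj : Function.Injective ρ := fun _ _ h => Subtype.ext (Subtype.ext h)
noncomputable def aff (a b : ℚ) : κ0 :=
  ⟨cst a + cst b * lam, κ0.algebraMap_mem ⟨cst a + cst b * lam, C a + C b * X, by simp⟩⟩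
theorem ρ_aff (a b : ℚ) (l : I01) : ρ (aff a b) l = a + b * l := rfl

noncomputable def sm (m : ℕ) (l : ℝ) : ℝ := (1 + l) * (1 / 2) ^ (m + 1)
noncomputable def sN (N : ℕ) : ℝ := (1 / 2) ^ N
theorem sN_pos (N : ℕ) : 0 < sN N := by unfold sN; positivity
theorem sN_anti {N M : ℕ} (h : N ≤ M) : sN M ≤ sN N :=
  pow_le_pow_of_le_one (by norm_num) (by norm_num) h
theorem sm_one (m : ℕ) : sm m 1 = sN m := by unfold sm sN; ring
theorem sm_le (m : ℕ) (l : I01) : sm m l ≤ sN m := by
  rw [← sm_one]; unfold sm; have := l.2.2; gcongr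
theorem sm_ge (m : ℕ) (l : I01) : sN (m + 1) ≤ sm m l := by
  unfold sm sN; have := l.2.1
  exact le_mul_of_one_le_left (by positivity) (by linarith)
theorem sm_mem {N m : ℕ} (h : N ≤ m) (l : I01) : sm m l ∈ Icc 0 (sN N) :=
  ⟨(sN_pos _).le.trans (sm_ge m l), (sm_le m l).trans (sN_anti h)⟩
theorem cover {N : ℕ} {s : ℝ} (h0 : 0 < s) (h : s ≤ sN N) : ∃ m, N ≤ m ∧ ∃ l : I01, s = sm m l := by
  have hN := sN_pos N
  obtain ⟨n, h1, h2⟩ := exists_nat_pow_near_of_lt_one (x := s / sN N) (y := 1 / 2)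
    (by positivity) ((div_le_one hN).2 h) (by norm_num) (by norm_num)
  rw [lt_div_iff₀ hN] at h1
  rw [div_le_iff₀ hN] at h2
  have h3 : (0 : ℝ) < (1 / 2) ^ (n + N + 1) := by positivity
  refine ⟨n + N, by omega, ⟨s / (1 / 2) ^ (n + N + 1) - 1, ?_, ?_⟩, ?_⟩
  · rw [sub_nonneg, one_le_div h3]; refine le_trans (le_of_eq ?_) h1.le; unfold sN; ring
  · rw [sub_le_iff_le_add, div_le_iff₀ h3]; refine h2.trans (le_of_eq ?_); unfold sN; ring
  · unfold sm; field_simp; ring

theorem ev_sN {N : ℕ} {Q : ℝ → Prop} (h : ∀ᶠ s in 𝓝[Icc 0 (sN N)] 0, Q s) :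
    ∃ M, N ≤ M ∧ ∀ s ∈ Icc 0 (sN M), Q s := by
  obtain ⟨ε, hε, h⟩ := Metric.eventually_nhds_iff.1 (eventually_nhdsWithin_iff.1 h)
  obtain ⟨n, hn⟩ := exists_pow_lt_of_lt_one hε (show (1 / 2 : ℝ) < 1 by norm_num)
  refine ⟨max N n, le_max_left _ _, fun s hs => h ?_ ⟨hs.1, hs.2.trans (sN_anti (le_max_left _ _))⟩⟩
  rw [Real.dist_eq, sub_zero, abs_of_nonneg hs.1]
  exact (hs.2.trans (sN_anti (le_max_right _ _))).trans_lt hn

theorem base (x : ℝ) : ∃ (p : ℝ → ℝ) (a : ℕ → κ0), Continuous p ∧ p 0 = x ∧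
    ∀ m (l : I01), p (sm m l) = ρ (a m) l := by
  have : ∀ m : ℕ, ∃ q : ℚ, |x - q| < (1 / 2) ^ m := fun m => exists_rat_near x (by positivity)
  choose q hq using this
  let cl : ℕ → ℝ → ℝ := fun m s => max 0 (min 1 (2 ^ (m + 1) * s - 1))
  have hb : ∀ m s, ‖((q m : ℝ) - q (m + 1)) * cl m s‖ ≤ 2 * (1 / 2) ^ m := fun m s => by
    have h1 : |cl m s| ≤ 1 := by
      rw [abs_of_nonneg (le_max_left _ _)]; exact max_le zero_le_one (min_le_left _ _)
    have h2 : |(q m : ℝ) - q (m + 1)| ≤ 2 * (1 / 2) ^ m := by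
      have h3 := abs_lt.1 (hq m)
      have h4 := abs_lt.1 (hq (m + 1))
      have : (0 : ℝ) < (1 / 2) ^ m := by positivity
      rw [pow_succ] at h4
      rw [abs_le]; constructor <;> linarith [h3.1, h3.2, h4.1, h4.2]
    rw [Real.norm_eq_abs, abs_mul]
    exact (mul_le_of_le_one_right (abs_nonneg _) h1).trans h2
  have hs : Summable fun m : ℕ => 2 * (1 / 2 : ℝ) ^ m := summable_geometric_two.mul_left 2
  have ht : Tendsto (fun m => (q m : ℝ)) atTop (𝓝 x) := by
    rw [tendsto_iff_dist_tendsto_zero]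
    refine squeeze_zero (fun _ => dist_nonneg) (fun m => ?_)
      (tendsto_pow_atTop_nhds_zero_of_lt_one (r := (1 / 2 : ℝ)) (by norm_num) (by norm_num))
    rw [dist_comm]; exact (hq m).le
  refine ⟨fun s => x + ∑' m, ((q m : ℝ) - q (m + 1)) * cl m s,
    fun m => aff (q (m + 1)) (q m - q (m + 1)),
    continuous_const.add (continuous_tsum (fun m => by fun_prop) hs hb), by simp [cl],
    fun m l => ?_⟩
  have e1 : ∀ j k : ℕ, (2 : ℝ) ^ (j + 1) * sm (j + k) l = (1 + l) * (1 / 2) ^ k := fun j k => by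
    unfold sm; simp only [pow_succ, pow_add, one_div, inv_pow]; field_simp
  have e2 : ∀ k : ℕ, (2 : ℝ) ^ (m + k + 1) * sm m l = (1 + l) * 2 ^ k := fun k => by
    unfold sm; simp only [pow_succ, pow_add, one_div, inv_pow]; field_simp
  have h0 := l.2.1
  have h1 := l.2.2
  have h2 : ∀ k, ∑ j ∈ Finset.range (k + (m + 1)), ((q j : ℝ) - q (j + 1)) * cl j (sm m l) =
      (q m - q (m + 1)) * l + q (m + 1) - q (k + (m + 1)) := fun k => by
    induction k with
    | zero =>
      rw [zero_add, Finset.sum_range_succ, Finset.sum_eq_zero fun j hj => ?_]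
      · have := e2 0
        simp only [add_zero, pow_zero, mul_one] at this
        simp [cl, this, h0, h1]
      · obtain ⟨k, rfl⟩ := Nat.exists_eq_add_of_lt (Finset.mem_range.1 hj)
        have h3 : (1 / 2 : ℝ) ^ (k + 1) ≤ 1 / 2 :=
          pow_le_of_le_one (by norm_num) (by norm_num) (by omega)
        have : cl j (sm (j + k + 1) l) = 0 := by
          refine max_eq_left (min_le_of_right_le ?_)
          rw [add_assoc, e1]; nlinarith
        rw [this, mul_zero]
    | succ k ih =>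
      rw [show k + 1 + (m + 1) = k + (m + 1) + 1 by ring, Finset.sum_range_succ, ih]
      have h3 : (2 : ℝ) ≤ 2 ^ (k + 1) := le_self_pow₀ (by norm_num) (by omega)
      have : cl (k + (m + 1)) (sm m l) = 1 := by
        have : min 1 (2 ^ (k + (m + 1) + 1) * sm m l - 1) = (1 : ℝ) := by
          refine min_eq_left ?_
          rw [show k + (m + 1) + 1 = m + (k + 1) + 1 by ring, e2]; nlinarith
        simp only [cl, this]; simp
      rw [this]; ring
  have h3 := ((Summable.of_norm_bounded hs fun j => hb j (sm m l)).hasSum.tendsto_sum_nat).comp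
    (tendsto_add_atTop_nat (m + 1))
  have h4 := (tendsto_const_nhds (x := ((q m : ℝ) - q (m + 1)) * l + q (m + 1))).sub
    (ht.comp (tendsto_add_atTop_nat (m + 1)))
  have h5 := tendsto_nhds_unique h3 (h4.congr fun k => (h2 k).symm)
  simp only [ρ_aff, h5]
  push_cast; ring

end Pool.Agent.H2.UL
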