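import Pool.Agent.H2.UL2

set_option autoImplicit false

namespace Pool.Agent.H2.UL
open Polynomial Set Filter Topology

abbrev K := KK κ
noncomputable abbrev v := vv κ
noncomputable abbrev τ := v (tt κ)
noncomputable def e0 : κ0 →+* K := (ee κ).comp (algebraMap κ0 κ)
theorem ve0 (u : κ0) : v (e0 u) ≤ 1 := ve κ _
theorem ve0' {u : κ0} (h : v (e0 u) < 1) : u = 0 := by
  by_contra h'
  exact h.ne (ve1 κ ((map_ne_zero_iff _ (IsFractionRing.injective κ0 κ)).2 h'))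

theorem v_le {y : K} {u : κ0} (h : v (y - e0 u) < 1) : v y ≤ 1 := by
  simpa using v.map_add_le h.le (ve0 u)

def Rel (N : ℕ) (z : (ℕ → K) × ℝ) (p : ℝ → ℝ) : Prop :=
  ContinuousOn p (Icc 0 (sN N)) ∧ p 0 = z.2 ∧
    ∀ m, N ≤ m → ∃ u : κ0, v (z.1 m - e0 u) < 1 ∧ ∀ l : I01, p (sm m l) = ρ u l

theorem Rel.mono {N M : ℕ} {z p} (h : Rel N z p) (hM : N ≤ M) : Rel M z p :=
  ⟨h.1.mono (Icc_subset_Icc_right (sN_anti hM)), h.2.1, fun m hm => h.2.2 m (hM.trans hm)⟩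

theorem Rel.add {N : ℕ} {z p z' p'} (h : Rel N z p) (h' : Rel N z' p') :
    Rel N (z + z') (p + p') := by
  refine ⟨h.1.add h'.1, by simp [h.2.1, h'.2.1], fun m hm => ?_⟩
  obtain ⟨u, h1, h2⟩ := h.2.2 m hm
  obtain ⟨u', h1', h2'⟩ := h'.2.2 m hm
  refine ⟨u + u', ?_, fun l => by simp [h2, h2']⟩
  convert v.map_add_lt h1 h1' using 2
  simp; ring

theorem Rel.neg {N : ℕ} {z p} (h : Rel N z p) : Rel N (-z) (-p) := by
  refine ⟨h.1.neg, by simp [h.2.1], fun m hm => ?_⟩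
  obtain ⟨u, h1, h2⟩ := h.2.2 m hm
  refine ⟨-u, ?_, fun l => by simp [h2]⟩
  rw [← v.map_neg] at h1
  convert h1 using 2
  simp; ring

theorem Rel.mul {N : ℕ} {z p z' p'} (h : Rel N z p) (h' : Rel N z' p') :
    Rel N (z * z') (p * p') := by
  refine ⟨h.1.mul h'.1, by simp [h.2.1, h'.2.1], fun m hm => ?_⟩
  obtain ⟨u, h1, h2⟩ := h.2.2 m hm
  obtain ⟨u', h1', h2'⟩ := h'.2.2 m hm
  refine ⟨u * u', ?_, fun l => by simp [h2, h2']⟩
  have h3 : v (z.1 m * (z'.1 m - e0 u')) < 1 := by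
    rw [map_mul]; exact (mul_le_of_le_one_left' (v_le h1)).trans_lt h1'
  have h4 : v ((z.1 m - e0 u) * e0 u') < 1 := by
    rw [map_mul]; exact (mul_le_of_le_one_right' (ve0 u')).trans_lt h1
  convert v.map_add_lt h3 h4 using 2
  simp; ring

theorem Rel.const (N : ℕ) (q : ℚ) : Rel N (algebraMap ℚ _ q) fun _ => q := by
  refine ⟨continuousOn_const, rfl, fun m _ => ⟨aff q 0, ?_, fun l => by simp [ρ_aff]⟩⟩
  let f : ℚ →+* κ0 := (algebraMap R0 κ0).comp (cst.codRestrict R0 fun q => ⟨C q, by simp⟩)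
  have h1 : aff q 0 = f q := Subtype.ext (by simp [aff]; rfl)
  have h2 : e0 (f q) = q := eq_ratCast (e0.comp f) q
  rw [h1, h2]
  show v ((q : K) - q) < 1
  simp

theorem Rel.unique {N : ℕ} {z p p'} (h : Rel N z p) (h' : Rel N z p') :
    EqOn p p' (Icc 0 (sN N)) := fun s hs => by
  rcases hs.1.eq_or_lt with rfl | h0
  · rw [h.2.1, h'.2.1]
  obtain ⟨m, hm, l, rfl⟩ := cover h0 hs.2
  obtain ⟨u, h1, h2⟩ := h.2.2 m hm
  obtain ⟨u', h1', h2'⟩ := h'.2.2 m hm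
  have : u - u' = 0 := ve0' (by
    convert v.map_sub_lt h1' h1 using 2
    simp)
  rw [h2, h2', sub_eq_zero.1 this]

theorem Rel.inv {N : ℕ} {z p} (h : Rel N z p) (hz : z.2 ≠ 0) : ∃ M, Rel M z⁻¹ p⁻¹ := by
  obtain ⟨M, hM, h1⟩ := ev_sN (N := N) (Q := fun s => p s ≠ 0)
    ((h.1 0 ⟨le_rfl, (sN_pos N).le⟩).eventually_ne (by rwa [h.2.1]))
  refine ⟨M, (h.mono hM).1.inv₀ h1, by simp [h.2.1], fun m hm => ?_⟩
  obtain ⟨u, h2, h3⟩ := h.2.2 m (hM.trans hm)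
  have h4 : ∀ l, ρ u l ≠ 0 := fun l => h3 l ▸ h1 _ (sm_mem hm l)
  obtain ⟨U, hU, hU'⟩ := u.1.2
  let w : An := ⟨(ρ u)⁻¹, U⁻¹, hU.inv fun x hx => hU' ⟨x, hx⟩ ▸ h4 _,
    fun l => congrArg Inv.inv (hU' l)⟩
  have h5 : u.1 * w = 1 := Subtype.ext <| funext fun l => mul_inv_cancel₀ (h4 l)
  have hw : w ∈ κ0 := κ0_cl ⟨C u * X - 1, fun h0 => by simpa using congrArg (eval 0) h0, by
    simp only [map_sub, map_mul, aeval_C, aeval_X, map_one, sub_eq_zero]; exact h5⟩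
  refine ⟨⟨w, hw⟩, ?_, fun l => congrArg Inv.inv (h3 l)⟩
  have h6 : e0 u * e0 ⟨w, hw⟩ = 1 := by rw [← map_mul, ← map_one e0]; congr 1; exact Subtype.ext h5
  have h7 : v (e0 u) = 1 := (ve0 u).antisymm (not_lt.1 fun h => by
    rw [ve0' h] at h6; simp at h6)
  have h8 : v (z.1 m) = 1 := by
    have := v.map_add_eq_of_lt_right (h7 ▸ h2)
    simpa [h7] using this
  have h9 : z.1 m ≠ 0 := fun h => by simp [h] at h8
  rw [show z⁻¹.1 m - e0 ⟨w, hw⟩ = -((z.1 m)⁻¹ * (z.1 m - e0 u) * e0 ⟨w, hw⟩) by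
    show (z.1 m)⁻¹ - _ = _
    rw [mul_assoc, sub_mul, h6]; field_simp; ring, v.map_neg, map_mul, map_mul, map_inv₀, h8]
  simpa using (mul_le_of_le_one_right' (ve0 _)).trans_lt h2

noncomputable def T : Subalgebra ℚ ((ℕ → K) × ℝ) where
  carrier := {z | ∃ N p, Rel N z p}
  add_mem' := by
    rintro a b ⟨N, p, h⟩ ⟨M, q, k⟩
    exact ⟨_, _, (h.mono (le_max_left N M)).add (k.mono (le_max_right _ _))⟩
  mul_mem' := by
    rintro a b ⟨N, p, h⟩ ⟨M, q, k⟩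
    exact ⟨_, _, (h.mono (le_max_left N M)).mul (k.mono (le_max_right _ _))⟩
  algebraMap_mem' q := ⟨0, _, Rel.const 0 q⟩

noncomputable def πT : T →+* ℝ := (RingHom.snd _ _).comp T.val.toRingHom
noncomputable def prj (m : ℕ) : T →+* K :=
  (Pi.evalRingHom _ m).comp ((RingHom.fst _ _).comp T.val.toRingHom)

theorem T_unit (z : T) (h : πT z ≠ 0) (h' : ∀ m, prj m z ≠ 0) : IsUnit z := by
  obtain ⟨N, p, h1⟩ := z.2
  obtain ⟨M, h2⟩ := h1.inv h
  exact .of_mul_eq_one ⟨z.1⁻¹, M, _, h2⟩ (Subtype.ext <| Prod.ext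
    (funext fun m => mul_inv_cancel₀ (h' m)) (mul_inv_cancel₀ h))

theorem hloc0 (d : ℕ) (ψ : (Fin d → ℝ) → ℝ) (u : Fin d → κ0)
    (h5 : ∀ l : I01, AnalyticAt ℝ ψ (fun i => ρ (u i) l) ∧
      ψ (fun i => ρ (u i) l) ^ d + ∑ i : Fin d, ρ (u i) l * ψ (fun i => ρ (u i) l) ^ (i : ℕ) = 0) :
    ∃ w : κ0, (∀ l, ψ (fun i => ρ (u i) l) = ρ w l) ∧ w ^ d + ∑ i, u i * w ^ (i : ℕ) = 0 := by
  choose U hU hU' using fun i => (u i).1.2
  have h6 : ∀ l : I01, (fun i => U i l) = fun i => ρ (u i) l := fun l =>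
    funext fun i => (hU' i l).symm
  have h7 : (fun l : I01 => ψ fun i => ρ (u i) l) ∈ An := by
    refine ⟨fun s => ψ fun i => U i s, fun s hs => ?_, fun l => congrArg ψ (h6 l).symm⟩
    have h8 := (h5 ⟨s, hs⟩).1
    rw [← h6] at h8
    exact AnalyticAt.comp (f := fun s i => U i s) h8 (AnalyticAt.pi fun i => hU i s hs)
  have h8 : (⟨_, h7⟩ : An) ^ d + ∑ i, (u i).1 * (⟨_, h7⟩ : An) ^ (i : ℕ) = 0 := by
    apply Subtype.ext
    funext l
    have := (h5 l).2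
    simpa [ρ] using this
  have hw : (⟨_, h7⟩ : An) ∈ κ0 := κ0_cl ⟨X ^ d + ∑ i, C (u i) * X ^ (i : ℕ),
    (monic_X_pow_add (degree_sum_fin_lt u)).ne_zero, by
      simp only [map_add, map_pow, aeval_X, map_sum, map_mul, aeval_C]; exact h8⟩
  refine ⟨⟨_, hw⟩, fun l => rfl, Subtype.ext ?_⟩
  push_cast
  exact h8

theorem hloc {K Γ A : Type*} [Field K] [IsAlgClosed K] [LinearOrderedCommGroupWithZero Γ]
    [CommRing A] (v : Valuation K Γ) (e0 : A →+* K) (ve0 : ∀ u, v (e0 u) ≤ 1)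
    (P : K[X]) (hm : P.Monic) (d : ℕ) (hd : P.natDegree = d) (hd0 : 0 < d) (c : Fin d → K)
    (hP : ∀ z, P.eval z = z ^ d + ∑ i : Fin d, c i * z ^ (i : ℕ)) (u : Fin d → A)
    (hu : ∀ i, v (c i - e0 (u i)) < 1) (w : A) (hw : w ^ d + ∑ i, u i * w ^ (i : ℕ) = 0) :
    ∃ a, P.eval a = 0 ∧ v (a - e0 w) < 1 := by
  have h8 := congrArg e0 hw
  simp only [map_add, map_pow, map_sum, map_mul, map_zero] at h8
  obtain ⟨a, ha, h9⟩ := root_close v P hm (hd ▸ hd0) (e0 w)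
  refine ⟨a, ha, ?_⟩
  rw [hd, hP, ← sub_zero (e0 w ^ d + _), ← h8, add_sub_add_left_eq_sub,
    ← Finset.sum_sub_distrib] at h9
  rw [v.map_sub_swap]
  refine (pow_lt_one_iff hd0.ne').1 (h9.trans_lt (v.map_sum_lt one_ne_zero fun i _ => ?_))
  rw [← sub_mul, map_mul, map_pow]
  exact (mul_le_of_le_one_right' (pow_le_one' (ve0 _) _)).trans_lt (hu i)

theorem hpath (d : ℕ) (ψ : (Fin d → ℝ) → ℝ) (z : Fin d → (ℕ → K) × ℝ) (hz : ∀ i, z i ∈ T)
    (h2 : ∀ᶠ c in 𝓝 fun i => (z i).2,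
      AnalyticAt ℝ ψ c ∧ ψ c ^ d + ∑ i : Fin d, c i * ψ c ^ (i : ℕ) = 0) :
    ∃ (M : ℕ) (q : ℝ → ℝ), ContinuousOn q (Icc 0 (sN M)) ∧ q 0 = ψ (fun i => (z i).2) ∧
      ∀ m, M ≤ m → ∃ (u : Fin d → κ0) (w : κ0), (∀ i, v ((z i).1 m - e0 (u i)) < 1) ∧
        w ^ d + ∑ i, u i * w ^ (i : ℕ) = 0 ∧ ∀ l : I01, q (sm m l) = ρ w l := by
  choose N p hp using hz
  obtain ⟨N0, hp'⟩ : ∃ N0, ∀ i, Rel N0 (z i) (p i) :=
    ⟨Finset.univ.sup N, fun i => (hp i).mono (Finset.le_sup (Finset.mem_univ i))⟩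
  have hc : ContinuousOn (fun s i => p i s) (Icc 0 (sN N0)) :=
    continuousOn_pi.2 fun i => (hp' i).1
  have h4 : (fun i => p i 0) = fun i => (z i).2 := funext fun i => (hp i).2.1
  rw [← h4] at h2 ⊢
  obtain ⟨M, hM, h5⟩ := ev_sN (Q := fun s => AnalyticAt ℝ ψ (fun i => p i s) ∧
    ψ (fun i => p i s) ^ d + ∑ i, p i s * ψ (fun i => p i s) ^ (i : ℕ) = 0)
    ((hc 0 ⟨le_rfl, (sN_pos _).le⟩).tendsto.eventually h2)
  refine ⟨M, fun s => ψ fun i => p i s, fun s hs =>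
    ContinuousAt.comp_continuousWithinAt (f := fun s i => p i s) (h5 s hs).1.continuousAt
      ((hc.mono (Icc_subset_Icc_right (sN_anti hM))) s hs), rfl, fun m hMm => ?_⟩
  choose u hu hu' using fun i => (hp' i).2.2 m (hM.trans hMm)
  obtain ⟨w, h6, h7⟩ := hloc0 _ ψ u fun l => by
    have := h5 _ (sm_mem hMm l)
    simpa only [hu'] using this
  exact ⟨u, w, hu, h7, fun l => by simp only [hu', h6]⟩

theorem hensel (P : T[X]) (hm : P.Monic) (y : ℝ) (h0 : (P.map πT).eval y = 0)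
    (h1 : (P.map πT).derivative.eval y ≠ 0) : ∃ z, P.eval z = 0 ∧ πT z = y := by
  have hd : 0 < P.natDegree := by
    by_contra h
    rw [hm.natDegree_eq_zero.1 (by omega)] at h0
    simp at h0
  obtain ⟨ψ, hψ, h2⟩ := ift _ _ _ y (evalf πT P hm) h0 h1
  obtain ⟨M, q, h3, h4, h5⟩ := hpath P.natDegree ψ (fun i => (P.coeff i).1)
    (fun i => (P.coeff i).2) h2
  have key : ∀ m, ∃ a : K, (P.map (prj m)).eval a = 0 ∧ (M ≤ m → ∃ u : κ0, v (a - e0 u) < 1 ∧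
      ∀ l : I01, q (sm m l) = ρ u l) := fun m => by
    by_cases hMm : M ≤ m
    swap
    · obtain ⟨a, ha, -⟩ := root_close v _ (hm.map (prj m)) (hd.trans_eq (hm.natDegree_map _).symm) 0
      exact ⟨a, ha, fun h => absurd h hMm⟩
    obtain ⟨u, w, hu, h7, h6⟩ := h5 m hMm
    obtain ⟨a, ha, h8⟩ := hloc v e0 ve0 _ (hm.map (prj m)) _ (hm.natDegree_map _) hd _
      (evalf (prj m) P hm) u hu w h7
    exact ⟨a, ha, fun _ => ⟨w, h8, h6⟩⟩
  choose a ha ha' using key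
  refine ⟨⟨(a, y), M, q, h3, h4.trans hψ, ha'⟩,
    Subtype.ext (Prod.ext (funext fun m => ?_) ?_), rfl⟩
  · exact (eval_map_apply (f := prj m) _).symm.trans (ha m)
  · exact (eval_map_apply (f := πT) _).symm.trans h0

theorem exσ : ∃ σ : ℝ →+* T, ∀ x, πT (σ x) = x := by
  obtain ⟨ι, b, hb⟩ := exists_isTranscendenceBasis' ℚ ℝ
  choose p a hp using base
  choose y hy hy' using fun m => indep' κ fun x => algebraMap κ0 κ (a x m)
  let g : ℝ → T := fun x => ⟨(fun m => y m x, x), 0, p x, (hp x).1.continuousOn, (hp x).2.1,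
    fun m _ => ⟨a x m, hy' m x, (hp x).2.2 m⟩⟩
  let σ0 : MvPolynomial ι ℚ →ₐ[ℚ] T := MvPolynomial.aeval fun i => g (b i)
  have h1 : πT.comp σ0.toRingHom = (MvPolynomial.aeval b).toRingHom := by
    ext <;> simp [σ0]; rfl
  have h2 : ∀ m, (prj m).comp σ0.toRingHom = (MvPolynomial.aeval (y m ∘ b)).toRingHom :=
    fun m => by ext <;> simp [σ0]; rfl
  have hu : ∀ f : nonZeroDivisors (MvPolynomial ι ℚ), IsUnit (σ0.toRingHom f) := fun f =>
    T_unit _ (fun h => nonZeroDivisors.ne_zero f.2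
        (algebraicIndependent_iff.1 hb.1 _ ((RingHom.congr_fun h1 f).symm.trans h)))
      fun m h => nonZeroDivisors.ne_zero f.2 (algebraicIndependent_iff.1
        ((hy m).comp b hb.1.injective) _ ((RingHom.congr_fun (h2 m) f).symm.trans h))
  let σ1 : FractionRing (MvPolynomial ι ℚ) →+* T := IsLocalization.lift hu
  letI := σ1.toAlgebra
  letI := (πT.comp σ1).toAlgebra
  have : Algebra.IsAlgebraic (FractionRing (MvPolynomial ι ℚ)) ℝ :=
    hb.isAlgebraic.ringHom_of_comp_eq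
      ((algebraMap (MvPolynomial ι ℚ) _).comp hb.1.aevalEquiv.symm.toAlgHom.toRingHom)
      (RingHom.id ℝ) ((IsFractionRing.injective _ _).comp hb.1.aevalEquiv.symm.injective)
      Function.surjective_id (by
        ext x
        obtain ⟨f, rfl⟩ := hb.1.aevalEquiv.surjective x
        show πT (σ1 (algebraMap _ _ (hb.1.aevalEquiv.symm (hb.1.aevalEquiv f)))) = _
        rw [AlgEquiv.symm_apply_apply, IsLocalization.lift_eq]
        exact (RingHom.congr_fun h1 f).trans (hb.1.algebraMap_aevalEquiv f).symm)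
  exact sect (F := FractionRing (MvPolynomial ι ℚ)) { πT with commutes' := fun _ => rfl } hensel

end Pool.Agent.H2.UL
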