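import Pool.Agent.H2.UL3

set_option autoImplicit false

namespace Pool.Agent.H2.UL
open Set Filter Topology

theorem τ_pos : 0 < τ := by simpa [Valuation.pos_iff] using tt_ne κ
theorem τ_lt (k : ℕ) : τ ^ (k + 1) < 1 := pow_lt_one₀ τ_pos.le (vt κ) k.succ_ne_zero
theorem τ_anti {j k : ℕ} (h : j ≤ k) : τ ^ k ≤ τ ^ j :=
  pow_le_pow_of_le_one τ_pos.le (vt κ).le h

theorem Rel.zero {N m : ℕ} {z p} (h : Rel N z p) (hm : N ≤ m) (h0 : v (z.1 m) < 1) :
    p (sN m) = 0 := by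
  obtain ⟨u, h1, h2⟩ := h.2.2 m hm
  have : u = 0 := ve0' (by simpa using v.map_sub_lt h0 h1)
  have h3 := h2 ⟨1, by simp⟩
  rw [this, map_zero, sm_one] at h3
  exact h3

theorem Rel.ext0 {N : ℕ} {z p} (h : Rel N z p) (h0 : ∀ m, m ≤ N → v (z.1 m) < 1) :
    ∃ q, Rel 0 z q := by
  refine ⟨fun s => p (min s (sN N)), h.1.comp (by fun_prop)
    fun s hs => ⟨le_min hs.1 (sN_pos N).le, min_le_right _ _⟩,
    by simp only [min_eq_left (sN_pos N).le, h.2.1], fun m _ => ?_⟩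
  rcases le_or_gt N m with hm | hm
  · obtain ⟨u, h1, h2⟩ := h.2.2 m hm
    exact ⟨u, h1, fun l => by simp only [min_eq_left (sm_mem hm l).2, h2]⟩
  · refine ⟨0, by simpa using h0 m hm.le, fun l => ?_⟩
    simp only [min_eq_right ((sN_anti hm).trans (sm_ge m l)), h.zero le_rfl (h0 N le_rfl)]
    simp

theorem Rel.one : Rel 0 1 fun _ => 1 := by
  have := Rel.const 0 1
  rwa [map_one, Rat.cast_one] at this
theorem Rel.zero' : Rel 0 0 fun _ => 0 := by
  have := Rel.const 0 0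
  rwa [map_zero, Rat.cast_zero] at this

theorem classes {A B : Type} (S : Set B) (hS : S.Countable) (N : A → ℕ) (z : A → ℕ → B)
    (hz : ∀ x m, z x m ∈ S) :
    ∃ cl : A → ℕ, ∀ x y, cl x = cl y → N x = N y ∧ ∀ m, m ≤ N x → z x m = z y m := by
  have := hS.to_subtype
  obtain ⟨f, hf⟩ := exists_injective_nat (Σ N : ℕ, Fin (N + 1) → S)
  refine ⟨fun x => f ⟨N x, fun m => ⟨z x m, hz _ _⟩⟩, fun x y h => ?_⟩
  obtain ⟨h1, h2⟩ := Sigma.mk.inj_iff.1 (hf h)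
  refine ⟨h1, ?_⟩
  revert h2
  generalize N x = a at *
  subst h1
  intro h2 m hm
  exact congrArg Subtype.val (congrFun (eq_of_heq h2) ⟨m, by omega⟩)

theorem iface : ∃ (D : Subring ℝ) (P : D →+* C(ℝ, ℝ)) (I : ℕ → AddSubgroup ℝ),
    (∀ x, P x 0 = x) ∧ (∀ k, ∀ x ∈ I k, ∃ hx : x ∈ D, P ⟨x, hx⟩ 1 = 0) ∧
    (∀ k, ∀ x ∈ I k, ∀ y ∈ I k, x * y ∈ I k) ∧ Antitone I ∧
    (∀ x k, ∃ j, ∀ y ∈ I j, x * y ∈ I k) ∧
    (∀ k, ∃ cl : ℝ → ℕ, ∀ x y, cl x = cl y → x - y ∈ I k) ∧ ∀ x, (∀ k, x ∈ I k) → x = 0 := by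
  obtain ⟨σ, hσ⟩ := exσ
  let s : ℝ →+* (ℕ → K) × ℝ := T.val.toRingHom.comp σ
  have hs : ∀ x, (s x).2 = x := hσ
  have hT : ∀ x, ∃ N p, Rel N (s x) p := fun x => (σ x).2
  let D : Subring ℝ :=
    { carrier := {x | ∃ p, Rel 0 (s x) p}
      zero_mem' := ⟨_, map_zero s ▸ Rel.zero'⟩
      one_mem' := ⟨_, map_one s ▸ Rel.one⟩
      add_mem' := by rintro a b ⟨p, h⟩ ⟨q, k⟩; exact ⟨_, map_add s a b ▸ h.add k⟩
      mul_mem' := by rintro a b ⟨p, h⟩ ⟨q, k⟩; exact ⟨_, map_mul s a b ▸ h.mul k⟩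
      neg_mem' := by rintro a ⟨p, h⟩; exact ⟨_, map_neg s a ▸ h.neg⟩ }
  have hD : ∀ x : D, ∃ p, Rel 0 (s x) p := fun x => x.2
  choose p hp using hD
  have hc : ∀ r : ℝ, max 0 (min r 1) ∈ Icc 0 (sN 0) := fun r =>
    ⟨le_max_left _ _, max_le (sN_pos 0).le ((min_le_right _ _).trans (by simp [sN]))⟩
  let P0 : D → C(ℝ, ℝ) := fun x => ⟨fun r => p x (max 0 (min r 1)),
    (hp x).1.comp_continuous (by fun_prop) hc⟩
  let P : D →+* C(ℝ, ℝ) :=
    { toFun := P0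
      map_one' := by
        ext r; exact (hp 1).unique (map_one s ▸ Rel.one) (hc r)
      map_zero' := by
        ext r; exact (hp 0).unique (map_zero s ▸ Rel.zero') (hc r)
      map_mul' := fun a b => by
        ext r; exact (hp (a * b)).unique (map_mul s a.1 b.1 ▸ (hp a).mul (hp b)) (hc r)
      map_add' := fun a b => by
        ext r; exact (hp (a + b)).unique (map_add s a.1 b.1 ▸ (hp a).add (hp b)) (hc r) }
  let I : ℕ → AddSubgroup ℝ := fun k =>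
    { carrier := {x | x ∈ D ∧ ∀ m, m ≤ k → v ((s x).1 m) ≤ τ ^ (k + 1)}
      zero_mem' := ⟨D.zero_mem, fun m _ => by simp⟩
      add_mem' := fun {a b} ha hb => ⟨D.add_mem ha.1 hb.1, fun m hm => by
        rw [map_add]; exact v.map_add_le (ha.2 m hm) (hb.2 m hm)⟩
      neg_mem' := fun {a} ha => ⟨D.neg_mem ha.1, fun m hm => by
        rw [map_neg]; exact (v.map_neg _).trans_le (ha.2 m hm)⟩ }
  have hI : ∀ k N x p, k ≤ N → Rel N (s x) p → (∀ m, m ≤ N → v ((s x).1 m) ≤ τ ^ (k + 1)) →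
      x ∈ I k := fun k N x p hk h h' =>
    ⟨h.ext0 fun m hm => (h' m hm).trans_lt (τ_lt k), fun m hm => h' m (hm.trans hk)⟩
  refine ⟨D, P, I, fun x => ?_, fun k x hx => ⟨hx.1, ?_⟩,
    fun k x hx y hy => ⟨D.mul_mem hx.1 hy.1, fun m hm => ?_⟩,
    fun j k hjk x hx => ⟨hx.1, fun m hm => (hx.2 m (hm.trans hjk)).trans (τ_anti (by omega))⟩,
    fun x k => ?_, fun k => ?_, fun x hx => ?_⟩
  · show p x (max 0 (min 0 1)) = x
    simpa using (hp x).2.1.trans (hs x)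
  · show p _ (max 0 (min 1 1)) = 0
    simpa [sN] using (hp ⟨x, hx.1⟩).zero le_rfl ((hx.2 0 k.zero_le).trans_lt (τ_lt k))
  · rw [map_mul]
    exact (v.map_mul _ _).trans_le
      ((mul_le_of_le_one_left' ((hx.2 m hm).trans (τ_lt k).le)).trans (hy.2 m hm))
  · obtain ⟨N, q, hq⟩ := hT x
    choose n hn using v_bd κ
    let n0 := (Finset.range (max N k + 1)).sup fun m => n ((s x).1 m)
    refine ⟨max N k + n0, fun y hy => hI k (max N k) _ _ (le_max_right _ _)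
      (map_mul s x y ▸ (hq.mono (le_max_left _ _)).mul ((hp ⟨y, hy.1⟩).mono (Nat.zero_le _)))
      fun m hm => ?_⟩
    have h1 : n ((s x).1 m) ≤ n0 :=
      Finset.le_sup (f := fun m => n ((s x).1 m)) (Finset.mem_range.2 (by omega))
    have h2 := (hy.2 m (by omega)).trans
      (τ_anti (show k + 1 + n ((s x).1 m) ≤ max N k + n0 + 1 by omega))
    rw [map_mul]
    refine (v.map_mul _ _).trans_le ((mul_le_mul_right h2 _).trans ?_)
    rw [pow_add, mul_comm, mul_assoc]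
    exact mul_le_of_le_one_right' (hn _)
  · choose N q hq using hT
    choose z hz hz' using fun y => dense κ y (k + 1)
    obtain ⟨cl, hcl⟩ := classes _ (Algebraic.countable (LL κ) K) (fun x => max (N x) k)
      (fun x m => z ((s x).1 m)) fun x m => hz _
    refine ⟨cl, fun x y h => ?_⟩
    obtain ⟨h1, h2⟩ := hcl x y h
    have h5 := ((hq x).mono (le_max_left _ k)).add
      ((hq y).mono ((le_max_left _ k).trans h1.ge)).neg
    rw [← sub_eq_add_neg, ← map_sub] at h5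
    refine hI k (max (N x) k) _ _ (le_max_right _ _) h5 fun m hm => ?_
    have h3 : z ((s x).1 m) = z ((s y).1 m) := h2 m hm
    have h4 := v.map_sub_le (hz' ((s x).1 m)) (hz' ((s y).1 m))
    rw [h3, sub_sub_sub_cancel_right] at h4
    rw [map_sub]; exact h4
  · by_contra h
    have h1 : (s x).1 0 ≠ 0 := fun h0 => h (((prj 0).comp σ).injective (h0.trans (map_zero _).symm))
    obtain ⟨n, hn⟩ := v_bd κ ((s x).1 0)⁻¹
    rw [map_inv₀, mul_inv_le_iff₀ (by simpa [Valuation.pos_iff] using h1), one_mul] at hn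
    exact (hn.trans ((hx n).2 0 n.zero_le)).not_gt
      (pow_lt_pow_right_of_lt_one₀ τ_pos (vt κ) n.lt_succ_self)

end Pool.Agent.H2.UL
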