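import Pool.Agent.H2.UL4

set_option autoImplicit false

namespace Pool.Agent.H2.UL
open Set Matrix Real

abbrev Mat := Matrix (Fin 2) (Fin 2)

def Lift (M : Mat ℝ) (x y : ℝ) : Prop :=
  (M.mulVec ![cos (π * x), sin (π * x)]) 0 * sin (π * y)
    - (M.mulVec ![cos (π * x), sin (π * x)]) 1 * cos (π * y) = 0

theorem lift_iff {M : Mat ℝ} {x y : ℝ} : Lift M x y ↔
    (M 0 0 * cos (π * x) + M 0 1 * sin (π * x)) * sin (π * y)
      - (M 1 0 * cos (π * x) + M 1 1 * sin (π * x)) * cos (π * y) = 0 := by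
  simp [Lift, mulVec, dotProduct, Fin.sum_univ_two]

theorem Lift.comp {M M' : Mat ℝ} {x y z : ℝ} (h' : Lift M' x y) (h : Lift M y z) :
    Lift (M * M') x z := by
  rw [lift_iff] at *
  simp only [mul_apply, Fin.sum_univ_two]
  have h1 := cos_sq_add_sin_sq (π * y)
  set a := M' 0 0 * cos (π * x) + M' 0 1 * sin (π * x) with ha
  set b := M' 1 0 * cos (π * x) + M' 1 1 * sin (π * x) with hb
  have : (M 0 0 * a + M 0 1 * b) * sin (π * z) - (M 1 0 * a + M 1 1 * b) * cos (π * z) = 0 := by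
    linear_combination (a * cos (π * y) + b * sin (π * y)) * h +
      ((M 0 0 * sin (π * y) - M 0 1 * cos (π * y)) * sin (π * z) -
        (M 1 0 * sin (π * y) - M 1 1 * cos (π * y)) * cos (π * z)) * h' -
      ((M 0 0 * a + M 0 1 * b) * sin (π * z) - (M 1 0 * a + M 1 1 * b) * cos (π * z)) * h1
  rw [ha, hb] at this
  linear_combination this

theorem Lift.symm {M : Mat ℝ} {x y : ℝ} (h : Lift M x y) : Lift M.adjugate y x := by
  rw [lift_iff] at *
  simp only [adjugate_fin_two, of_apply, cons_val', cons_val_zero, cons_val_one, cons_val_fin_one]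
  linear_combination -h

theorem lift_one {x y : ℝ} : Lift 1 x y ↔ ∃ n : ℤ, y - x = n := by
  rw [lift_iff]
  simp only [one_apply_eq, ne_eq, zero_ne_one, not_false_eq_true, one_apply_ne, one_ne_zero]
  rw [show (1 * cos (π * x) + 0 * sin (π * x)) * sin (π * y) -
    (0 * cos (π * x) + 1 * sin (π * x)) * cos (π * y) = sin (π * y - π * x) by
      rw [sin_sub]; ring, sin_eq_zero_iff]
  refine exists_congr fun n => ⟨fun h => ?_, fun h => by rw [← mul_sub, h, mul_comm]⟩
  exact mul_left_cancel₀ pi_ne_zero (by linear_combination -h)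

theorem int_const {Y : Type} [TopologicalSpace Y] [PreconnectedSpace Y] {f g : Y → ℝ}
    (hf : Continuous f) (hg : Continuous g) (h : ∀ y, Lift 1 (f y) (g y)) (a b : Y) :
    g a - f a = g b - f b := by
  simp only [lift_one] at h
  wlog hab : g a - f a < g b - f b generalizing a b
  · rcases (not_lt.1 hab).eq_or_lt with h | h
    exacts [h.symm, (this b a h).symm]
  obtain ⟨n, hn⟩ := h a
  obtain ⟨m, hm⟩ := h b
  have h1 : (n : ℝ) + 1 ≤ m := by
    rw [hn, hm] at hab; exact_mod_cast (show n < m by exact_mod_cast hab)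
  obtain ⟨c, hc⟩ := intermediate_value_univ a b (hg.sub hf)
    (show (n : ℝ) + 1 / 2 ∈ Icc (g a - f a) (g b - f b) by rw [hn, hm]; constructor <;> linarith)
  obtain ⟨k, hk⟩ := h c
  have h2 : ((2 * k : ℤ) : ℝ) = (2 * n + 1 : ℤ) := by
    push_cast; have : g c - f c = n + 1 / 2 := hc; linarith
  have := Int.cast_injective h2
  omega

theorem ex_lift {Y : Type} [TopologicalSpace Y] [SimplyConnectedSpace Y]
    [LocallyPathConnectedSpace Y] (M : Y → Mat ℝ) (hM : Continuous M) (hd : ∀ y, (M y).det = 1)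
    (g : Y → ℝ) (hg : Continuous g) : ∃ F : Y → ℝ, Continuous F ∧ ∀ y, Lift (M y) (g y) (F y) := by
  let w : Y → ℂ := fun y => ⟨M y 0 0 * cos (π * g y) + M y 0 1 * sin (π * g y),
    M y 1 0 * cos (π * g y) + M y 1 1 * sin (π * g y)⟩
  have hw : ∀ y, w y ≠ 0 := fun y h => by
    have h1 : _ = (0 : ℝ) := congrArg Complex.re h
    have h2 : _ = (0 : ℝ) := congrArg Complex.im h
    have h3 := hd y
    have h4 := cos_sq_add_sin_sq (π * g y)
    rw [det_fin_two] at h3
    simp only [w] at h1 h2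
    have : (1 : ℝ) = 0 := by
      linear_combination (M y 1 1 * cos (π * g y) - M y 1 0 * sin (π * g y)) * h1 +
        (M y 0 0 * sin (π * g y) - M y 0 1 * cos (π * g y)) * h2 - h4 -
        (cos (π * g y) ^ 2 + sin (π * g y) ^ 2) * h3
    exact one_ne_zero this
  have hc : Continuous w := by
    have : w = fun y => ((w y).re : ℂ) + (w y).im * Complex.I :=
      funext fun y => (Complex.re_add_im _).symm
    rw [this]; simp only [w]; fun_prop
  obtain ⟨y0⟩ : Nonempty Y := inferInstance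
  obtain ⟨L, ⟨-, hL⟩, -⟩ := Complex.isCoveringMap_exp.existsUnique_continuousMap_lifts
    ⟨fun y => ⟨w y, hw y⟩, hc.subtype_mk _⟩ y0 (Complex.log (w y0))
    (Subtype.ext (Complex.exp_log (hw y0)))
  refine ⟨fun y => (L y).im / π, by fun_prop, fun y => ?_⟩
  have h1 : Complex.exp (L y) = w y := congrArg Subtype.val (congrFun hL y)
  have h2 := congrArg Complex.re h1
  have h3 := congrArg Complex.im h1
  rw [Complex.exp_re] at h2
  rw [Complex.exp_im] at h3
  rw [lift_iff, mul_div_cancel₀ _ pi_ne_zero]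
  simp only [w] at h2 h3
  rw [← h2, ← h3]; ring

def G := {f : ℝ → ℝ // Continuous f ∧ ∃ M : Mat ℝ, M.det = 1 ∧ ∀ x, Lift M x (f x)}

theorem G.rinv (f : G) : ∃ g : G, f.1 ∘ g.1 = id := by
  obtain ⟨f, hf, M, hM, h⟩ := f
  have hd : M.adjugate.det = 1 := by simp [det_adjugate, hM]
  obtain ⟨g, hg, h'⟩ := ex_lift (fun _ : ℝ => M.adjugate) continuous_const (fun _ => hd) id
    continuous_id
  have h1 : ∀ x, Lift 1 x (f (g x)) := fun x => by
    simpa [mul_adjugate, hM] using (h' x).comp (h _)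
  obtain ⟨n, hn⟩ := lift_one.1 (h1 0)
  refine ⟨⟨fun x => g (x - n), by fun_prop, _, hd, fun x => ?_⟩, funext fun x => ?_⟩
  · simpa using (lift_one.2 ⟨-n, by simp⟩ : Lift 1 x (x - n)).comp (h' _)
  · have := (int_const continuous_id (hf.comp hg) h1 (x - n) 0).trans hn
    simp only [Function.comp, id] at this ⊢
    linarith

instance : Mul G := ⟨fun f g => ⟨f.1 ∘ g.1, f.2.1.comp g.2.1, by
  obtain ⟨M, hM, h⟩ := f.2.2
  obtain ⟨M', hM', h'⟩ := g.2.2
  exact ⟨M * M', by simp [hM, hM'], fun x => (h' x).comp (h _)⟩⟩⟩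
instance : One G := ⟨⟨id, continuous_id, 1, det_one, fun x => lift_one.2 ⟨0, by simp⟩⟩⟩
noncomputable instance : Inv G := ⟨fun f => f.rinv.choose⟩
noncomputable instance : Group G := Group.ofRightAxioms (fun _ _ _ => rfl) (fun _ => rfl)
  fun f => Subtype.ext f.rinv.choose_spec

def tr (n : ℤ) : G := ⟨fun x => x + n, by fun_prop, 1, det_one, fun x => lift_one.2 ⟨n, by simp⟩⟩

section
variable {D : Subring ℝ} (P : D →+* C(ℝ, ℝ))

def evs (s : ℝ) : D →+* ℝ := (Pi.evalRingHom _ s).comp (ContinuousMap.coeFnRingHom.comp P)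

def Over (W : Mat D) (f : G) : Prop := ∃ F : ℝ × ℝ → ℝ, Continuous F ∧ (∀ x, F (0, x) = f.1 x) ∧
  (∀ x, F (1, x) = x) ∧ ∀ s x, Lift (W.map (evs P s)) x (F (s, x))

variable {P}
theorem Over.mul {W W' : Mat D} {f f' : G} (h : Over P W f) (h' : Over P W' f') :
    Over P (W * W') (f * f') := by
  obtain ⟨F, h1, h2, h3, h4⟩ := h
  obtain ⟨F', h1', h2', h3', h4'⟩ := h'
  refine ⟨fun u => F (u.1, F' u), by fun_prop, fun x => by simp only [h2, h2']; rfl,
    fun x => by simp only [h3, h3'], fun s x => ?_⟩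
  rw [Matrix.map_mul]
  exact (h4' s x).comp (h4 s _)

theorem Over.one {f : G} (h : Over P 1 f) : f = 1 := by
  obtain ⟨F, h1, h2, h3, h4⟩ := h
  refine Subtype.ext <| funext fun x => ?_
  have := int_const (f := Prod.snd) continuous_snd h1
    (fun u => by simpa using h4 u.1 u.2) (0, x) (1, x)
  rw [h2, h3] at this
  exact sub_left_injective this

theorem ex_over {W : Mat D} (hd : W.det = 1) (h1 : W.map (evs P 1) = 1) : ∃ f, Over P W f := by
  have hd' : ∀ s, (W.map (evs P s)).det = 1 := fun s => by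
    rw [← RingHom.mapMatrix_apply, ← RingHom.map_det, hd, map_one]
  obtain ⟨F, hF, h⟩ := ex_lift (fun u : ℝ × ℝ => W.map (evs P u.1))
    (continuous_matrix fun a b => (P (W a b)).continuous.comp continuous_fst)
    (fun u => hd' _) Prod.snd continuous_snd
  have h2 : ∀ x, Lift 1 x (F (1, x)) := fun x => h1 ▸ h (1, x)
  obtain ⟨n, hn⟩ := lift_one.1 (h2 0)
  have h3 : ∀ s x, Lift (W.map (evs P s)) x (F (s, x) - n) := fun s x => by
    simpa using (h (s, x)).comp (lift_one.2 ⟨-n, by simp⟩ : Lift 1 _ (F (s, x) - n))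
  refine ⟨⟨fun x => F (0, x) - n, by fun_prop, _, hd' 0, h3 0⟩, fun u => F u - n, by fun_prop,
    fun _ => rfl, fun x => ?_, h3⟩
  have := (int_const continuous_id (g := fun x => F (1, x)) (by fun_prop) h2 x 0).trans hn
  simp only [id] at this ⊢
  linarith
end

theorem main : ∃ φ : G →* Equiv.Perm ℕ, Function.Injective φ := by
  obtain ⟨D, P, I, h0, h1, hmul, hanti, hcont, hcl, hsep⟩ := iface
  have e0 : evs P 0 = D.subtype := RingHom.ext h0
  let Γ : ℕ → Mat D → Prop := fun k W => W.det = 1 ∧ ∀ a b, (W.map D.subtype - 1) a b ∈ I k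
  have hΓ1 : ∀ k W, Γ k W → W.map (evs P 1) = 1 := fun k W h => by
    ext a b
    obtain ⟨hx, h2⟩ := h1 k _ (h.2 a b)
    have h3 : (⟨_, hx⟩ : D) = W a b - (1 : Mat D) a b :=
      Subtype.ext (by rcases eq_or_ne a b with rfl | h <;> simp [*])
    have h4 : evs P 1 (W a b - (1 : Mat D) a b) = 0 := h3 ▸ h2
    rw [map_sub, sub_eq_zero] at h4
    rw [map_apply, h4]
    rcases eq_or_ne a b with rfl | h <;> simp [*]
  have hJ : ∀ k (A B : Mat ℝ), (∀ a b c, A a c * B c b ∈ I k) → ∀ a b, (A * B) a b ∈ I k :=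
    fun k A B h a b => by rw [mul_apply]; exact sum_mem fun c _ => h a b c
  have hadj : ∀ k W, Γ k W → Γ k W.adjugate := fun k W h => ⟨by simp [det_adjugate, h.1], by
    have h00 := h.2 0 0
    have h01 := neg_mem (h.2 0 1)
    have h10 := neg_mem (h.2 1 0)
    have h11 := h.2 1 1
    simp only [Fin.forall_fin_two, adjugate_fin_two]
    simp at h00 h01 h10 h11 ⊢
    exact ⟨⟨h11, h01⟩, h10, h00⟩⟩
  let H : ℕ → Subgroup G := fun k =>
    { carrier := {f | ∃ W, Γ k W ∧ Over P W f}
      one_mem' := ⟨1, ⟨det_one, fun a b => by simp⟩, Prod.snd, continuous_snd, fun _ => rfl,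
        fun _ => rfl, fun s x => by simpa using lift_one.2 ⟨0, by simp⟩⟩
      mul_mem' := by
        rintro f g ⟨W, hW, h⟩ ⟨W', hW', h'⟩
        refine ⟨W * W', ⟨by simp [hW.1, hW'.1], fun a b => ?_⟩, h.mul h'⟩
        rw [Matrix.map_mul, show ∀ A B : Mat ℝ, A * B - 1 = (A - 1) * (B - 1) + (A - 1) + (B - 1)
          from fun A B => by noncomm_ring]
        exact add_mem (add_mem (hJ k _ _ (fun a b c => hmul k _ (hW.2 a c) _ (hW'.2 c b)) a b)
          (hW.2 a b)) (hW'.2 a b)
      inv_mem' := by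
        rintro f ⟨W, hW, h⟩
        obtain ⟨g, hg⟩ := ex_over (hadj k W hW).1 (hΓ1 k _ (hadj k W hW))
        have := h.mul hg
        rw [mul_adjugate, hW.1, one_smul] at this
        exact ⟨_, hadj k W hW, inv_eq_of_mul_eq_one_right this.one ▸ hg⟩ }
  have hL : ∀ W f, Over P W f → ∀ x, Lift (W.map D.subtype) x (f.1 x) := by
    rintro W f ⟨F, -, h2, -, h4⟩ x
    rw [← e0, ← h2]; exact h4 0 x
  have hc : ∀ k, Countable (G ⧸ H k) := fun k => by
    choose M hM hM' using fun f : G => f.2.2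
    choose cl hcl using hcl
    choose j hj using hcont
    let J : G → ℕ := fun f =>
      Finset.univ.sup fun u : Fin 2 × Fin 2 => j ((M f).adjugate u.1 u.2) k
    let c : G → ℕ × (Fin 2 → Fin 2 → ℕ) := fun f => (J f, fun a b => cl (J f) (M f a b))
    have : Nonempty G := ⟨1⟩
    refine Function.Surjective.countable (f := fun u : (ℕ × (Fin 2 → Fin 2 → ℕ)) × ℤ =>
      (QuotientGroup.mk (tr u.2 * Function.invFun c u.1) : G ⧸ H k)) fun q => ?_
    obtain ⟨g, rfl⟩ := QuotientGroup.mk_surjective q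
    have h2 : c (Function.invFun c (c g)) = c g := Function.invFun_eq ⟨g, rfl⟩
    set f := Function.invFun c (c g) with hf
    have h3 : J f = J g := congrArg Prod.fst h2
    have h4 : ∀ a b, ((M f).adjugate * M g - 1) a b ∈ I k := by
      rw [show (1 : Mat ℝ) = (M f).adjugate * M f by rw [adjugate_mul, hM, one_smul], ← mul_sub]
      refine hJ k _ _ fun a b d => hj _ _ _ (hanti (Finset.le_sup
        (f := fun u : Fin 2 × Fin 2 => j ((M f).adjugate u.1 u.2) k) (Finset.mem_univ (a, d)))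
        (hcl (J f) _ _ ?_))
      have := congrFun (congrFun (congrArg Prod.snd h2) d) b
      simp only [c] at this
      rw [this, h3]
    have h5 : ∀ a b, ((M f).adjugate * M g) a b ∈ D := fun a b => by
      have := D.add_mem (h1 k _ (h4 a b)).1 ((1 : Mat D) a b).2
      rcases eq_or_ne a b with rfl | h
      · simpa using this
      · simpa [h] using this
    let W : Mat D := Matrix.of fun a b => ⟨_, h5 a b⟩
    have h6 : W.map D.subtype = (M f).adjugate * M g := rfl
    have hW : Γ k W := ⟨Subtype.ext (by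
      have := D.subtype.map_det W
      rw [RingHom.mapMatrix_apply, h6, det_mul, det_adjugate, hM, hM] at this
      simpa using this), h4⟩
    obtain ⟨h, hh⟩ := ex_over hW.1 (hΓ1 k W hW)
    have h7 : ∀ x, Lift 1 ((f * h).1 x) (g.1 x) := fun x => by
      have h8 := ((hL W h hh x).comp (hM' f _)).symm.comp (hM' g x)
      rw [h6, ← mul_assoc, mul_adjugate, hM, one_smul, one_mul, mul_adjugate, hM, one_smul] at h8
      exact h8
    obtain ⟨n, hn⟩ := lift_one.1 (h7 0)
    refine ⟨(c g, n), ?_⟩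
    have h8 : g = tr n * f * h := Subtype.ext <| funext fun x => by
      have := (int_const (f * h).2.1 g.2.1 h7 x 0).trans hn
      show _ = (f * h).1 x + n
      linarith
    show QuotientGroup.mk (tr n * f) = _
    rw [h8, QuotientGroup.eq]
    rw [inv_mul_cancel_left]
    exact ⟨W, hW, hh⟩
  obtain ⟨ι, hι⟩ := exists_injective_nat (Σ k, G ⧸ H k)
  refine ⟨(Equiv.Perm.viaEmbeddingHom ⟨ι, hι⟩).comp (MulAction.toPermHom G (Σ k, G ⧸ H k)),
    (Equiv.Perm.viaEmbeddingHom_injective _).comp ((injective_iff_map_eq_one _).2 fun g hg => ?_)⟩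
  have h2 : ∀ k, g⁻¹ ∈ H k := fun k => by
    have h3 : (⟨k, (g * 1 : G)⟩ : Σ k, G ⧸ H k) = ⟨k, (1 : G)⟩ :=
      Equiv.ext_iff.1 hg ⟨k, (1 : G)⟩
    simpa using QuotientGroup.eq.1 (eq_of_heq (Sigma.mk.inj_iff.1 h3).2)
  choose W hW hW' using h2
  have h3 : ∀ k, W 0 = W k := fun k => by
    have h4 := fun x => lift_iff.1 ((hL _ _ (hW' 0) x).comp (hL _ _ (hW' k) x).symm)
    rw [← RingHom.mapMatrix_apply, ← RingHom.mapMatrix_apply, ← RingHom.map_adjugate,
      ← map_mul] at h4
    have h5 : ((W k).adjugate * W 0).map (evs P 1) = 1 := by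
      rw [Matrix.map_mul, hΓ1 k _ (hadj k _ (hW k)), hΓ1 0 _ (hW 0), one_mul]
    have h6 : ((W k).adjugate * W 0).det = 1 := by simp [det_adjugate, (hW k).1, (hW 0).1]
    have h7 : W 0 = W k * ((W k).adjugate * W 0) := by
      rw [← mul_assoc, mul_adjugate, (hW k).1, one_smul, one_mul]
    rw [h7]
    generalize (W k).adjugate * W 0 = N at h4 h5 h6
    have a1 : N 1 0 = 0 := by simpa using h4 0
    have a2 : N 0 1 = 0 := by simpa [← div_eq_mul_inv] using h4 2⁻¹
    have a3 : N 0 0 = N 1 1 := by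
      have := h4 4⁻¹
      simp only [← div_eq_mul_inv, cos_pi_div_four, sin_pi_div_four, RingHom.mapMatrix_apply,
        map_apply, a1, a2, map_zero, Subring.subtype_apply] at this
      have h2 : (√2 / 2) * (√2 / 2) ≠ 0 := by positivity
      exact Subtype.ext (mul_right_cancel₀ h2 (by linear_combination this))
    rw [det_fin_two, a1, mul_zero, sub_zero, ← a3, mul_self_eq_one_iff] at h6
    have a4 : evs P 1 (N 0 0) = 1 := congrFun (congrFun h5 0) 0
    have a5 : N 0 0 = 1 := h6.resolve_right fun h => by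
      rw [h, map_neg, map_one] at a4; norm_num at a4
    have : N = 1 := by
      ext a b; fin_cases a <;> fin_cases b <;> simp [a1, a2, ← a3, a5]
    rw [this, mul_one]
  have h4 : W 0 = 1 := by
    ext a b
    have := hsep _ fun k => h3 k ▸ (hW k).2 a b
    rcases eq_or_ne a b with rfl | h
    · simpa [sub_eq_zero] using this
    · simpa [h] using this
  exact inv_eq_one.1 (h4 ▸ hW' 0).one

end Pool.Agent.H2.UL
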