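import Mathlib

set_option autoImplicit false

namespace Pool.Agent.H2.UR

/-! ### field plus finite rank over `F_2` is unit-regular -/

structure D (K A : Type) [Field K] [Ring A] where
  m : K →+* A
  ρ : K → K → A
  μ : K → ZMod 2
  μ1 : μ 1 = 1
  addl : ∀ p p' q, ρ (p + p') q = ρ p q + ρ p' q
  addr : ∀ p q q', ρ p (q + q') = ρ p q + ρ p q'
  two : ∀ p q, ρ p q + ρ p q = 0
  h0 : ∀ p q p' q', μ (q * p') = 0 → ρ p q * ρ p' q' = 0
  h1 : ∀ p q p' q', μ (q * p') = 1 → ρ p q * ρ p' q' = ρ p q'
  hl : ∀ r p q, m r * ρ p q = ρ (r * p) q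
  hr : ∀ r p q, ρ p q * m r = ρ p (q * r)

variable {K A : Type} [Field K] [Ring A] (d : D K A)

inductive InS : A → Prop
  | base (r : K) : InS (d.m r)
  | step {x : A} (p q : K) : InS x → InS (x + d.ρ p q)

lemma z01 (c : ZMod 2) : c = 0 ∨ c = 1 := by revert c; decide

variable {d}

lemma r0l (q : K) : d.ρ 0 q = 0 := by simpa using d.addl 0 0 q
lemma r0r (p : K) : d.ρ p 0 = 0 := by simpa using d.addr p 0 0

lemma InS.actL {x : A} (h : InS d x) (p : K) : ∃ p', ∀ q, x * d.ρ p q = d.ρ p' q := by
  induction h with
  | base r => exact ⟨_, fun q => d.hl r p q⟩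
  | step a b _ ih =>
    obtain ⟨p', e⟩ := ih
    rcases z01 (d.μ (b * p)) with h | h
    · exact ⟨p', fun q => by rw [add_mul, e, d.h0 _ _ _ _ h, add_zero]⟩
    · exact ⟨p' + a, fun q => by rw [add_mul, e, d.h1 _ _ _ _ h, d.addl]⟩

lemma InS.actR {x : A} (h : InS d x) (q : K) : ∃ q', ∀ p, d.ρ p q * x = d.ρ p q' := by
  induction h with
  | base r => exact ⟨_, fun p => d.hr r p q⟩
  | step a b _ ih =>
    obtain ⟨q', e⟩ := ih
    rcases z01 (d.μ (q * a)) with h | h
    · exact ⟨q', fun p => by rw [mul_add, e, d.h0 _ _ _ _ h, add_zero]⟩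
    · exact ⟨q' + b, fun p => by rw [mul_add, e, d.h1 _ _ _ _ h, d.addr]⟩

variable (d) in
def S : Subring A where
  carrier := {x | InS d x}
  zero_mem' := by simpa using InS.base (d := d) 0
  one_mem' := by simpa using InS.base (d := d) 1
  add_mem' := fun {x y} hx hy => by
    induction hy with
    | base r =>
      induction hx with
      | base s => exact map_add d.m s r ▸ InS.base _
      | step p q _ ih => rw [add_right_comm]; exact InS.step p q ih
    | step p q _ ih => rw [← add_assoc]; exact InS.step p q ih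
  neg_mem' := fun {x} hx => by
    induction hx with
    | base s => exact map_neg d.m s ▸ InS.base _
    | step p q _ ih =>
      rw [neg_add, neg_eq_of_add_eq_zero_right (d.two p q)]; exact InS.step p q ih
  mul_mem' := fun {x y} hx hy => by
    induction hy with
    | base r =>
      induction hx with
      | base s => exact map_mul d.m s r ▸ InS.base _
      | step p q _ ih => rw [add_mul, d.hr]; exact InS.step p _ ih
    | step p q _ ih =>
      obtain ⟨p', e⟩ := InS.actL hx p
      rw [mul_add, e]; exact InS.step p' q ih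

variable (d) in
def Rk (z : A) : Prop := ∃ p q, z = d.ρ p q

lemma Rk.mem {z : A} (h : Rk d z) : z ∈ S d := by
  obtain ⟨p, q, rfl⟩ := h
  exact zero_add (d.ρ p q) ▸ InS.step p q (S d).zero_mem

lemma Rk.ml {x z : A} (h : Rk d z) (hx : x ∈ S d) : Rk d (x * z) := by
  obtain ⟨p, q, rfl⟩ := h
  obtain ⟨p', e⟩ := InS.actL hx p
  exact ⟨p', q, e q⟩

lemma Rk.mr {x z : A} (h : Rk d z) (hx : x ∈ S d) : Rk d (z * x) := by
  obtain ⟨p, q, rfl⟩ := h
  obtain ⟨q', e⟩ := InS.actR hx q
  exact ⟨p, q', e p⟩

lemma Rk.sq {z : A} (h : Rk d z) : z * z = 0 ∨ z * z = z := by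
  obtain ⟨p, q, rfl⟩ := h
  exact (z01 (d.μ (q * p))).imp (d.h0 _ _ _ _) (d.h1 _ _ _ _)

lemma Rk.two {z : A} (h : Rk d z) : z + z = 0 := by
  obtain ⟨p, q, rfl⟩ := h
  exact d.two p q

lemma Rk.tri {z x x' : A} (h : Rk d z) (hx : x ∈ S d) (hx' : x' ∈ S d) :
    x * z = 0 ∨ z * x' = 0 ∨ ∃ y, Rk d y ∧ z * x' * y * (x * z) = z := by
  obtain ⟨p, q, rfl⟩ := h
  obtain ⟨p', e⟩ := InS.actL hx p
  obtain ⟨q', e'⟩ := InS.actR hx' q
  by_cases hp : p' = 0
  · left; rw [e, hp, r0l]
  by_cases hq : q' = 0
  · right; left; rw [e', hq, r0r]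
  refine Or.inr (Or.inr ⟨_, ⟨q'⁻¹, p'⁻¹, rfl⟩, ?_⟩)
  rw [e, e', d.h1 _ _ _ _ (by rw [mul_inv_cancel₀ hq, d.μ1]),
    d.h1 _ _ _ _ (by rw [inv_mul_cancel₀ hp, d.μ1])]

variable (d) in
def UR (x : A) : Prop := ∃ u ∈ S d, ∃ v ∈ S d, u * v = 1 ∧ v * u = 1 ∧ x * u * x = x

lemma UR.mr {x u v : A} (hu : u ∈ S d) (hv : v ∈ S d) (h1 : u * v = 1) (h2 : v * u = 1)
    (h : UR d (x * u)) : UR d x := by
  obtain ⟨s, hs, t, ht, e1, e2, e3⟩ := h
  refine ⟨u * s, mul_mem hu hs, t * v, mul_mem ht hv, ?_, ?_, ?_⟩
  · linear_combination (norm := noncomm_ring) u * e1 * v + h1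
  · linear_combination (norm := noncomm_ring) t * h2 * s + e2
  · linear_combination (norm := noncomm_ring) e3 * v + x * h1 - x * u * s * x * h1

lemma UR.ml {x u v : A} (hu : u ∈ S d) (hv : v ∈ S d) (h1 : u * v = 1) (h2 : v * u = 1)
    (h : UR d (u * x)) : UR d x := by
  obtain ⟨s, hs, t, ht, e1, e2, e3⟩ := h
  refine ⟨s * u, mul_mem hs hu, v * t, mul_mem hv ht, ?_, ?_, ?_⟩
  · linear_combination (norm := noncomm_ring) s * h1 * t + e1
  · linear_combination (norm := noncomm_ring) v * e2 * u + h2
  · linear_combination (norm := noncomm_ring) v * e3 + h2 * x - h2 * (x * s * u * x)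

lemma UR.nr {x n : A} (hn : n ∈ S d) (h0 : n * n = 0) (h : UR d (x * (1 - n))) : UR d x :=
  h.mr (sub_mem (one_mem _) hn) (add_mem (one_mem _) hn)
    (by linear_combination (norm := noncomm_ring) -h0)
    (by linear_combination (norm := noncomm_ring) -h0)

lemma UR.nl {x n : A} (hn : n ∈ S d) (h0 : n * n = 0) (h : UR d ((1 - n) * x)) : UR d x :=
  h.ml (sub_mem (one_mem _) hn) (add_mem (one_mem _) hn)
    (by linear_combination (norm := noncomm_ring) -h0)
    (by linear_combination (norm := noncomm_ring) -h0)

lemma UR.idem {e : A} (h : e * e = e) : UR d e :=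
  ⟨1, one_mem _, 1, one_mem _, mul_one _, mul_one _, by rw [mul_one, h]⟩

lemma UR.congr {x y : A} (h : UR d y) (e : x = y) : UR d x := e ▸ h

lemma corner {e w y : A} (he : e * e = e) (hw : Rk d w) (hy : Rk d y) (ew : e * w = 0)
    (we : w * e = 0) (ey : e * y = 0) (ye : y * e = 0) (wyw : w * y * w = w)
    (ywy : y * w * y = y) : UR d (e + w) := by
  rcases hw.sq with h | h
  · have fin : ∀ n ∈ S d, n * n = 0 → e * n = 0 → n * e = 0 → w * n * w = w → UR d (e + w) :=
      fun n hn nn en ne wnw => ⟨1 + n, add_mem (one_mem _) hn, 1 - n, sub_mem (one_mem _) hn,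
        by linear_combination (norm := noncomm_ring) -nn,
        by linear_combination (norm := noncomm_ring) -nn,
        by linear_combination (norm := noncomm_ring) he + ew + we + h + en * (e + w) + w * ne + wnw⟩
    rcases hy.sq with k | k
    · exact fin y hy.mem k ey ye wyw
    · exact fin (y - w * y) (sub_mem hy.mem (mul_mem hw.mem hy.mem))
        (by linear_combination (norm := noncomm_ring) k - ywy - w * k + w * ywy)
        (by linear_combination (norm := noncomm_ring) ey - ew * y)
        (by linear_combination (norm := noncomm_ring) ye - w * ye)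
        (by linear_combination (norm := noncomm_ring) wyw - h * (y * w))
  · exact UR.idem (by linear_combination (norm := noncomm_ring) he + ew + we + h)

lemma both {e z : A} (he : e * e = e) (hz : Rk d z) (h1 : (1 - e) * z = 0)
    (h2 : z * (1 - e) = 0) : UR d (e + z) := by
  rcases hz.sq with h | h
  · exact UR.nr hz.mem h ((UR.idem he).congr
      (by linear_combination (norm := noncomm_ring) h1 - h))
  · exact UR.idem (by linear_combination (norm := noncomm_ring) he - h1 - h2 + h + hz.two)

lemma add_rk {e z : A} (hS : e ∈ S d) (he : e * e = e) (hz : Rk d z) : UR d (e + z) := by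
  have hf : 1 - e ∈ S d := sub_mem (one_mem _) hS
  have ef : e * (1 - e) = 0 := by linear_combination (norm := noncomm_ring) -he
  have fe : (1 - e) * e = 0 := by linear_combination (norm := noncomm_ring) -he
  have ff : (1 - e) * (1 - e) = 1 - e := by linear_combination (norm := noncomm_ring) he
  have ef1 : e + (1 - e) = 1 := by noncomm_ring
  generalize hfe : 1 - e = f at hf ef fe ff ef1
  rcases hz.tri hf hf with h | h | ⟨y, hy, h⟩
  · rcases hz.tri (one_mem _) hf with k | k | ⟨y, hy, k⟩
    · rw [one_mul] at k; rw [k, add_zero]; exact UR.idem he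
    · exact both he hz (hfe ▸ h) (hfe ▸ k)
    · refine UR.nr (n := f * y * z * e)
        (mul_mem (mul_mem (mul_mem hf hy.mem) hz.mem) hS)
        (by linear_combination (norm := noncomm_ring) f * y * z * ef * (y * z * e)) ?_
      refine UR.nr (n := z * f) (mul_mem hz.mem hf)
        (by linear_combination (norm := noncomm_ring) z * h * f) ((UR.idem he).congr ?_)
      have a1 : (e + z) * (1 - f * y * z * e) = e + z * f := by
        linear_combination (norm := noncomm_ring) -(ef * (y * z * e)) - k * e - z * ef1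
      rw [a1]
      linear_combination (norm := noncomm_ring) -(z * h * f) - ef1 * (z * f) + h * f
  · rcases hz.tri hf (one_mem _) with k | k | ⟨y, hy, k⟩
    · exact both he hz (hfe ▸ k) (hfe ▸ h)
    · rw [mul_one] at k; rw [k, add_zero]; exact UR.idem he
    · refine UR.nl (n := e * z * y * f)
        (mul_mem (mul_mem (mul_mem hS hz.mem) hy.mem) hf)
        (by linear_combination (norm := noncomm_ring) e * z * y * fe * (z * y * f)) ?_
      refine UR.nl (n := f * z) (mul_mem hf hz.mem)
        (by linear_combination (norm := noncomm_ring) f * h * z) ((UR.idem he).congr ?_)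
      have a1 : (1 - e * z * y * f) * (e + z) = e + f * z := by
        linear_combination (norm := noncomm_ring) -(e * z * y * fe) - e * k - ef1 * z
      rw [a1]
      linear_combination (norm := noncomm_ring) -(f * h * z) - f * z * ef1 + f * h
  · have hy1 : Rk d (f * y * f) := (hy.ml hf).mr hf
    have ey : e * (f * y * f) = 0 := by linear_combination (norm := noncomm_ring) ef * (y * f)
    have ye : f * y * f * e = 0 := by linear_combination (norm := noncomm_ring) f * y * fe
    have fy : f * (f * y * f) = f * y * f := by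
      linear_combination (norm := noncomm_ring) ff * (y * f)
    have yf : f * y * f * f = f * y * f := by linear_combination (norm := noncomm_ring) f * y * ff
    have zyz : z * (f * y * f) * z = z := by linear_combination (norm := noncomm_ring) h
    generalize f * y * f = y at hy1 ey ye fy yf zyz
    refine UR.nl (n := e * z * y) (mul_mem (mul_mem hS hz.mem) hy1.mem)
      (by linear_combination (norm := noncomm_ring) e * z * ye * (z * y)) ?_
    refine UR.nr (n := y * z * e) (mul_mem (mul_mem hy1.mem hz.mem) hS)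
      (by linear_combination (norm := noncomm_ring) y * z * ey * (z * e)) ?_
    have a1 : (1 - e * z * y) * (e + z) = e + f * z := by
      linear_combination (norm := noncomm_ring) -(e * z * ye) - e * zyz - ef1 * z
    have a2 : (e + f * z) * (1 - y * z * e) = e + f * z * f := by
      linear_combination (norm := noncomm_ring) -(ey * (z * e)) - f * zyz * e - f * z * ef1
    rw [a1, a2]
    have hw : Rk d (f * z * f) := (hz.ml hf).mr hf
    have wyw : f * z * f * y * (f * z * f) = f * z * f := by
      linear_combination (norm := noncomm_ring)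
        f * z * fy * (f * z * f) + f * z * yf * (z * f) + f * zyz * f
    have ew : e * (f * z * f) = 0 := by linear_combination (norm := noncomm_ring) ef * (z * f)
    have we : f * z * f * e = 0 := by linear_combination (norm := noncomm_ring) f * z * fe
    generalize f * z * f = w at hw wyw ew we
    exact corner (y := y * w * y) he hw ((hy1.mr hw.mem).mr hy1.mem) ew we
      (by linear_combination (norm := noncomm_ring) ey * (w * y))
      (by linear_combination (norm := noncomm_ring) y * w * ye)
      (by linear_combination (norm := noncomm_ring) wyw * (y * w) + wyw)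
      (by linear_combination (norm := noncomm_ring) y * wyw * (y * w * y) + y * wyw * y)

lemma InS.ur {x : A} (h : InS d x) : UR d x := by
  induction h with
  | base r =>
    by_cases hr : r = 0
    · exact UR.idem (by simp [hr])
    · exact ⟨d.m r⁻¹, InS.base _, d.m r, InS.base _,
        by rw [← map_mul, inv_mul_cancel₀ hr, map_one],
        by rw [← map_mul, mul_inv_cancel₀ hr, map_one],
        by rw [← map_mul, mul_inv_cancel₀ hr, map_one, one_mul]⟩
  | @step x p q hx ih =>
    obtain ⟨u, hu, v, hv, e1, e2, e3⟩ := ih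
    refine UR.mr hu hv e1 e2 ?_
    rw [add_mul]
    exact add_rk (mul_mem hx hu) (by linear_combination (norm := noncomm_ring) e3 * u)
      (Rk.mr ⟨p, q, rfl⟩ hu)

end Pool.Agent.H2.UR
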