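import Mathlib

set_option autoImplicit false

namespace Pool.Agent.H2.WTR

open Cardinal Set

/-- the first uncountable ordinal -/
abbrev Om : Type := (Order.succ ℵ₀ : Cardinal.{0}).ord.ToType

/-- the second uncountable ordinal -/
def W : Type := (Order.succ (Order.succ ℵ₀) : Cardinal.{0}).ord.ToType

noncomputable instance : LinearOrder W :=
  inferInstanceAs (LinearOrder (Order.succ (Order.succ ℵ₀) : Cardinal.{0}).ord.ToType)

instance : WellFoundedLT W :=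
  inferInstanceAs (WellFoundedLT (Order.succ (Order.succ ℵ₀) : Cardinal.{0}).ord.ToType)

lemma W_bdd (S : Set W) (hS : #S ≤ Order.succ ℵ₀) : ∃ β, ∀ s ∈ S, s < β := by
  have h : ¬ IsCofinal S := by
    intro h
    have h1 := Order.cof_le h
    have h2 : Order.cof W = Order.succ (Order.succ ℵ₀) :=
      (Ordinal.cof_toType _).trans (isRegular_succ (Order.le_succ _)).cof_ord
    rw [h2] at h1
    exact (Order.lt_succ _).not_ge (h1.trans hS)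
  exact not_isCofinal_iff.mp h

lemma W_Iio (y : W) : #(Iio y) ≤ Order.succ ℵ₀ :=
  Order.lt_succ_iff.mp (mk_Iio_toType_ord_lt y)

lemma W_Iic (y : W) : #(Iic y) ≤ Order.succ ℵ₀ := by
  obtain ⟨β, hβ⟩ := W_bdd {y} (by
    rw [mk_singleton]; exact one_le_aleph0.trans (Order.le_succ _))
  exact (mk_le_mk_of_subset (Iic_subset_Iio.mpr (hβ y rfl))).trans (W_Iio β)

lemma Om_Iio (x : Om) : (Iio x).Countable :=
  le_aleph0_iff_set_countable.mp (Order.lt_succ_iff.mp (mk_Iio_toType_ord_lt x))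

lemma Om_Iic (x : Om) : (Iic x).Countable := by
  rw [← Iio_insert]; exact (Om_Iio x).insert x

/-- points of uncountable cofinality -/
def Lim (y : W) : Prop := ∀ S : Set W, S.Countable → S ⊆ Iio y → ∃ β < y, ∀ s ∈ S, s < β

lemma thin {y : W} (hy : Lim y) (E : Set W) (hE : ∀ β < y, ∃ x ∈ E, β < x ∧ x < y) :
    ∃ T ⊆ E, T ⊆ Iio y ∧ (∀ β < y, ∃ x ∈ T, β < x) ∧ ∀ β < y, (T ∩ Iic β).Countable := by
  obtain ⟨β0, hβ0, -⟩ := hy ∅ countable_empty (empty_subset _)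
  have : Nonempty (Iio y) := ⟨⟨β0, hβ0⟩⟩
  obtain ⟨j⟩ : Nonempty (Iio y ↪ Om) := by
    rw [← Cardinal.le_def, mk_ord_toType]; exact W_Iio y
  let e : Om → Iio y := Function.invFun j
  have he : Function.Surjective e := Function.invFun_surjective j.injective
  have h1 : ∀ ξ : Om, ∃ x ∈ E, x < y ∧ ∀ η ≤ ξ, (e η : W) < x := by
    intro ξ
    obtain ⟨β, hβ, h⟩ := hy ((fun η => (e η : W)) '' Iic ξ) ((Om_Iic ξ).image _)
      (by rintro _ ⟨η, -, rfl⟩; exact (e η).2)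
    obtain ⟨x, hx, h2, h3⟩ := hE β hβ
    exact ⟨x, hx, h3, fun η hη => (h _ ⟨η, hη, rfl⟩).trans h2⟩
  choose t h1 h2 h3 using h1
  refine ⟨range t, by rintro _ ⟨ξ, rfl⟩; exact h1 ξ, by rintro _ ⟨ξ, rfl⟩; exact h2 ξ, ?_, ?_⟩
  · intro β hβ
    obtain ⟨η, hη⟩ := he ⟨β, hβ⟩
    exact ⟨t η, ⟨η, rfl⟩, by have := h3 η η le_rfl; rwa [hη] at this⟩
  · intro β hβ
    obtain ⟨η, hη⟩ := he ⟨β, hβ⟩
    refine ((Om_Iio η).image t).mono ?_
    rintro _ ⟨⟨ξ, rfl⟩, h⟩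
    refine ⟨ξ, ?_, rfl⟩
    by_contra h'
    have := h3 ξ η (not_lt.mp h')
    rw [hη] at this
    exact this.not_ge h

lemma closing (G : W → W) : ∃ y, Lim y ∧ ∀ x < y, G x < y := by
  let C : Set W := {y | ∀ x < y, G x < y}
  have hC : ∀ β, ∃ c ∈ C, β < c := by
    have h1 : ∀ β : W, ∃ γ, β < γ ∧ ∀ x ≤ β, G x < γ := by
      intro β
      obtain ⟨γ, hγ⟩ := W_bdd (G '' Iic β) (mk_image_le.trans (W_Iic β))
      obtain ⟨δ, hδ⟩ := W_bdd (Iic β) (W_Iic β)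
      exact ⟨max γ δ, lt_max_of_lt_right (hδ β self_mem_Iic),
        fun x hx => lt_max_of_lt_left (hγ _ ⟨x, hx, rfl⟩)⟩
    choose g h1 h2 using h1
    intro β
    obtain ⟨γ, hγ⟩ := W_bdd (range fun k : ℕ => g^[k] β)
      ((le_aleph0_iff_set_countable.mpr (countable_range _)).trans (Order.le_succ _))
    obtain ⟨z, hz, hmin⟩ := wellFounded_lt.has_min {z : W | ∀ k : ℕ, g^[k] β ≤ z}
      ⟨γ, fun k => (hγ _ ⟨k, rfl⟩).le⟩
    refine ⟨z, fun x hx => ?_, (h1 β).trans_le (hz 1)⟩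
    have : ¬ ∀ k : ℕ, g^[k] β ≤ x := fun h => hmin x h hx
    push Not at this
    obtain ⟨k, hk⟩ := this
    refine (h2 _ x hk.le).trans_le ?_
    have := hz (k + 1)
    rwa [Function.iterate_succ_apply'] at this
  have hC' : Order.succ ℵ₀ ≤ #C := by
    by_contra h
    obtain ⟨β, hβ⟩ := W_bdd C (not_le.mp h).le
    obtain ⟨c, hc, h'⟩ := hC β
    exact (hβ c hc).not_gt h'
  obtain ⟨C', h1, h2⟩ := le_mk_iff_exists_subset.mp hC'
  obtain ⟨z0, hz0⟩ := W_bdd C' h2.le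
  obtain ⟨z, hz, hmin⟩ := wellFounded_lt.has_min {z : W | ¬ (C ∩ Iio z).Countable} ⟨z0, fun h => by
    have := le_aleph0_iff_set_countable.mpr
      (h.mono (show C' ⊆ C ∩ Iio z0 from fun c hc => ⟨h1 hc, hz0 c hc⟩))
    rw [h2] at this
    exact (Order.lt_succ _).not_ge this⟩
  have key : ∀ S : Set W, S.Countable → S ⊆ Iio z → ∃ c ∈ C, c < z ∧ ∀ s ∈ S, s < c := by
    intro S hS hSz
    by_contra h
    push Not at h
    apply hz
    refine (hS.biUnion (t := fun s _ => insert s (C ∩ Iio s)) fun s hs => ?_).mono ?_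
    · exact (not_not.mp fun h' => hmin s h' (hSz hs)).insert s
    · rintro c ⟨hc1, hc2⟩
      obtain ⟨s, hs, hcs⟩ := h c hc1 hc2
      refine mem_biUnion hs ?_
      rcases hcs.eq_or_lt with rfl | h'
      · exact mem_insert _ _
      · exact mem_insert_of_mem _ ⟨hc1, h'⟩
  refine ⟨z, fun S hS hSz => ?_, fun x hx => ?_⟩
  · obtain ⟨c, -, h1, h2⟩ := key S hS hSz
    exact ⟨c, h1, h2⟩
  · obtain ⟨c, hc, h1, h2⟩ := key {x} (countable_singleton x) (singleton_subset_iff.mpr hx)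
    exact (hc x (h2 x rfl)).trans h1

instance : TopologicalSpace W where
  IsOpen O := ∀ y ∈ O, Lim y → ∃ β < y, Ioc β y ⊆ O
  isOpen_univ y _ hy := by
    obtain ⟨β, h, -⟩ := hy ∅ countable_empty (empty_subset _)
    exact ⟨β, h, subset_univ _⟩
  isOpen_inter s t hs ht y hy hl := by
    obtain ⟨β, h1, h2⟩ := hs y hy.1 hl
    obtain ⟨γ, h3, h4⟩ := ht y hy.2 hl
    exact ⟨max β γ, max_lt h1 h3, fun x hx => ⟨h2 ⟨(le_max_left _ _).trans_lt hx.1, hx.2⟩,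
      h4 ⟨(le_max_right _ _).trans_lt hx.1, hx.2⟩⟩⟩
  isOpen_sUnion s hs y hy hl := by
    obtain ⟨t, ht, hyt⟩ := hy
    obtain ⟨β, h1, h2⟩ := hs t ht y hyt hl
    exact ⟨β, h1, h2.trans (subset_sUnion_of_mem ht)⟩

lemma isOpen_W {O : Set W} : IsOpen O ↔ ∀ y ∈ O, Lim y → ∃ β < y, Ioc β y ⊆ O := Iff.rfl

lemma open_Iic (a : W) : IsOpen (Iic a) := fun y hy hl => by
  obtain ⟨β, h, -⟩ := hl ∅ countable_empty (empty_subset _)
  exact ⟨β, h, fun x hx => hx.2.trans hy⟩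

lemma open_Ioi (a : W) : IsOpen (Ioi a) := fun _ hy _ => ⟨a, hy, fun _ hx => hx.1⟩

lemma open_Iio {a : W} : IsOpen (Iio a) := fun y hy hl => by
  obtain ⟨β, h, -⟩ := hl ∅ countable_empty (empty_subset _)
  exact ⟨β, h, fun x hx => hx.2.trans_lt hy⟩

instance : T2Space W := ⟨fun a b hab => by
  rcases lt_or_gt_of_ne hab with h | h
  · exact ⟨Iic a, Ioi a, open_Iic a, open_Ioi a, self_mem_Iic, h, Iic_disjoint_Ioi le_rfl⟩
  · exact ⟨Ioi b, Iic b, open_Ioi b, open_Iic b, h, self_mem_Iic, (Iic_disjoint_Ioi le_rfl).symm⟩⟩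

lemma clopen_nhd (y : W) (O : Set W) (hO : IsOpen O) (hy : y ∈ O) :
    ∃ U, IsClopen U ∧ y ∈ U ∧ U ⊆ O := by
  by_cases hl : Lim y
  · obtain ⟨β, h1, h2⟩ := hO y hy hl
    refine ⟨Ioc β y, ⟨⟨?_⟩, (open_Ioi β).inter (open_Iic y)⟩, ⟨h1, le_rfl⟩, h2⟩
    rw [← Ioi_inter_Iic, compl_inter, compl_Ioi, compl_Iic]
    exact (open_Iic β).union (open_Ioi y)
  · refine ⟨{y}, ⟨isClosed_singleton, ?_⟩, rfl, singleton_subset_iff.mpr hy⟩
    rintro z rfl h; exact absurd h hl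

instance : RegularSpace W := RegularSpace.of_exists_mem_nhds_isClosed_subset fun y s hs => by
  obtain ⟨O, h1, h2, h3⟩ := mem_nhds_iff.mp hs
  obtain ⟨U, h4, h5, h6⟩ := clopen_nhd y O h2 h3
  exact ⟨U, h4.2.mem_nhds h5, h4.1, h6.trans h1⟩

/-- weak theta-refinability -/
def Wtr (X : Type) [TopologicalSpace X] : Prop :=
  ∀ 𝒰 : Set (Set X), (∀ U ∈ 𝒰, IsOpen U) → ⋃₀ 𝒰 = Set.univ →
    ∃ 𝒱 : ℕ → Set (Set X), (∀ n, ∀ V ∈ 𝒱 n, IsOpen V ∧ ∃ U ∈ 𝒰, V ⊆ U) ∧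
      ∀ x, ∃ n, {V ∈ 𝒱 n | x ∈ V}.Nonempty ∧ {V ∈ 𝒱 n | x ∈ V}.Finite

theorem not_WTR : ¬ Wtr W := by
  intro h
  obtain ⟨𝒱, h1, h2⟩ := h (range Iic) (by rintro _ ⟨a, rfl⟩; exact open_Iic a)
    (eq_univ_of_forall fun x => ⟨Iic x, ⟨x, rfl⟩, self_mem_Iic⟩)
  have h3 : ∀ (x : W) (n : ℕ), ∃ γ : W,
      ({V ∈ 𝒱 n | x ∈ V}.Finite → ∀ V ∈ 𝒱 n, x ∈ V → V ⊆ Iic γ) ∧
      ((∃ z, x < z ∧ {V ∈ 𝒱 n | z ∈ V}.Finite) → ∃ z, x < z ∧ z ≤ γ ∧ {V ∈ 𝒱 n | z ∈ V}.Finite) := by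
    intro x n
    have a1 : ∃ γ : W, {V ∈ 𝒱 n | x ∈ V}.Finite → ∀ V ∈ 𝒱 n, x ∈ V → V ⊆ Iic γ := by
      by_cases hf : {V ∈ 𝒱 n | x ∈ V}.Finite
      · have : ∀ V : {V ∈ 𝒱 n | x ∈ V}, ∃ a, (V : Set W) ⊆ Iic a := fun V => by
          obtain ⟨-, _, ⟨a, rfl⟩, h⟩ := h1 n V V.2.1
          exact ⟨a, h⟩
        choose b hb using this
        have := hf.to_subtype
        obtain ⟨γ, hγ⟩ := W_bdd (range b)
          ((le_aleph0_iff_set_countable.mpr (countable_range _)).trans (Order.le_succ _))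
        exact ⟨γ, fun _ V hV hx => (hb ⟨V, hV, hx⟩).trans (Iic_subset_Iic.mpr (hγ _ ⟨_, rfl⟩).le)⟩
      · exact ⟨x, fun h => absurd h hf⟩
    obtain ⟨γ, hγ⟩ := a1
    by_cases hz : ∃ z, x < z ∧ {V ∈ 𝒱 n | z ∈ V}.Finite
    · obtain ⟨z, hz1, hz2⟩ := hz
      exact ⟨max γ z, fun hf V hV hx => (hγ hf V hV hx).trans (Iic_subset_Iic.mpr (le_max_left _ _)),
        fun _ => ⟨z, hz1, le_max_right _ _, hz2⟩⟩
    · exact ⟨γ, hγ, fun h => absurd h hz⟩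
  choose g h3 h4 using h3
  have h5 : ∀ x, ∃ γ, ∀ n, g x n < γ := fun x => by
    obtain ⟨γ, hγ⟩ := W_bdd (range (g x))
      ((le_aleph0_iff_set_countable.mpr (countable_range _)).trans (Order.le_succ _))
    exact ⟨γ, fun n => hγ _ ⟨n, rfl⟩⟩
  choose G hG using h5
  obtain ⟨y, hy, hc⟩ := closing G
  obtain ⟨n, ⟨V, hV, hyV⟩, hf⟩ := h2 y
  obtain ⟨β, hβ, hsub⟩ := (h1 n V hV).1 y hyV hy
  obtain ⟨z, hz1, hz2, hz3⟩ := h4 β n ⟨y, hβ, hf⟩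
  have hzy : z < y := (hz2.trans_lt (hG β n)).trans (hc β hβ)
  have := h3 z n hz3 V hV (hsub ⟨hz1, hzy.le⟩) hyV
  exact ((hG z n).trans (hc z hzy)).not_ge this

end Pool.Agent.H2.WTR
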