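import Pool.Agent.H2.WTR1

set_option autoImplicit false

namespace Pool.Agent.H2.WTR

open Set Filter

/-- admissible ultrafilters -/
def Good {T : Type} (f : T → W) (q : Ultrafilter T × W) : Prop :=
  Lim q.2 ∧ (∀ β < q.2, {x | β < f x} ∈ q.1) ∧
    ∃ S ∈ q.1, InjOn f S ∧ (∀ x ∈ S, f x < q.2) ∧ ∀ β < q.2, (f '' S ∩ Iic β).Countable

/-- the levels -/
def Lv : ℕ → Σ T : Type, T → W
  | 0 => ⟨W, id⟩
  | n + 1 => ⟨{q : Ultrafilter (Lv n).1 × W // Good (Lv n).2 q}, fun q => q.1.2⟩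

/-- the space -/
def XX : Type := Σ n : ℕ, (Lv n).1

/-- the map -/
def ff (a : XX) : W := (Lv a.1).2 a.2

/-- inclusion of a level -/
def inc (n : ℕ) (x : (Lv n).1) : XX := ⟨n, x⟩

lemma inc_inj (n : ℕ) : Function.Injective (inc n) :=
  sigma_mk_injective (β := fun n => (Lv n).1)

/-- the punctured filters -/
def NN : XX → Filter XX
  | ⟨0, _⟩ => ⊥
  | ⟨n + 1, q⟩ => Filter.map (inc n) q.1.1

instance : TopologicalSpace XX where
  IsOpen U := ∀ a ∈ U, U ∈ NN a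
  isOpen_univ _ _ := univ_mem
  isOpen_inter _ _ hs ht a ha := inter_mem (hs a ha.1) (ht a ha.2)
  isOpen_sUnion _ hs a := fun ⟨t, ht, hat⟩ => mem_of_superset (hs t ht a hat) (subset_sUnion_of_mem ht)

lemma open_insert {a : XX} {O : Set XX} (hO : IsOpen O) (ha : O ∈ NN a) : IsOpen (insert a O) := by
  rintro b (rfl | hb)
  · exact mem_of_superset ha (subset_insert _ _)
  · exact mem_of_superset (hO b hb) (subset_insert _ _)

lemma NN_lev (a : XX) : {x : XX | x.1 + 1 = a.1} ∈ NN a := by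
  obtain ⟨_ | n, q⟩ := a
  · exact mem_bot
  · exact mem_map.mpr (univ_mem' fun _ => rfl)

lemma NN_thin (a : XX) : ∃ S ∈ NN a, InjOn ff S ∧ (∀ x ∈ S, ff x < ff a) ∧
    ∀ β < ff a, (ff '' S ∩ Iic β).Countable := by
  obtain ⟨_ | n, q⟩ := a
  · exact ⟨∅, mem_bot, injOn_empty _, by simp, by simp⟩
  · obtain ⟨-, -, S, h1, h2, h3, h4⟩ := q.2
    refine ⟨inc n '' S, image_mem_map h1, ?_, ?_, ?_⟩
    · rintro _ ⟨x, hx, rfl⟩ _ ⟨y, hy, rfl⟩ h
      rw [h2 hx hy h]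
    · rintro _ ⟨x, hx, rfl⟩; exact h3 x hx
    · intro β hβ
      rw [image_image]; exact h4 β hβ

lemma NN_disj {a b : XX} (hab : a ≠ b) (h : ff a = ff b) : ∃ A ∈ NN a, ∃ B ∈ NN b, Disjoint A B := by
  by_cases hl : a.1 = b.1
  · obtain ⟨n, p⟩ := a
    obtain ⟨m, q⟩ := b
    obtain rfl : n = m := hl
    rcases n with _ | n
    · exact ⟨∅, mem_bot, ∅, mem_bot, disjoint_bot_left⟩
    · have hpq : p.1.1 ≠ q.1.1 := fun h' => hab (congrArg (inc (n + 1))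
        (Subtype.ext (Prod.ext h' h)))
      have : ¬ ∀ s, s ∈ p.1.1 ↔ s ∈ q.1.1 := fun h' => hpq (Ultrafilter.ext h')
      push Not at this
      obtain ⟨s, hs | hs⟩ := this
      · exact ⟨inc n '' s, image_mem_map hs.1, inc n '' sᶜ,
          image_mem_map (Ultrafilter.compl_mem_iff_notMem.mpr hs.2),
          disjoint_image_of_injective (inc_inj n) disjoint_compl_right⟩
      · exact ⟨inc n '' sᶜ, image_mem_map (Ultrafilter.compl_mem_iff_notMem.mpr hs.1), inc n '' s,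
          image_mem_map hs.2, disjoint_image_of_injective (inc_inj n) disjoint_compl_left⟩
  · exact ⟨_, NN_lev a, _, NN_lev b, disjoint_left.mpr fun x h1 h2 => hl (h1.symm.trans h2)⟩

lemma ff_cont : Continuous ff := by
  refine ⟨fun O hO a ha => ?_⟩
  obtain ⟨_ | n, q⟩ := a
  · exact mem_bot
  · obtain ⟨h1, h2, S, h3, -, h4, -⟩ := q.2
    obtain ⟨β, hβ, hsub⟩ := hO _ ha h1
    refine mem_map.mpr (mem_of_superset (inter_mem (h2 β hβ) h3) fun x hx => ?_)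
    exact hsub ⟨hx.1, (h4 x hx.2).le⟩

lemma ff_surj : Function.Surjective ff := fun y => ⟨⟨0, y⟩, rfl⟩

lemma ff_closed : IsClosedMap ff := by
  intro F hF
  refine ⟨fun y hy hl => ?_⟩
  by_contra hcon
  push Not at hcon
  have h1 : ∃ n, ∀ β < y, ∃ x ∈ (Lv n).2 '' (inc n ⁻¹' F), β < x ∧ x < y := by
    by_contra h
    push Not at h
    choose b hb1 hb2 using h
    obtain ⟨β, hβ, h3⟩ := hl (range b) (countable_range b) (by rintro _ ⟨n, rfl⟩; exact hb1 n)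
    obtain ⟨z, hz1, hz2⟩ := not_subset.mp (hcon β hβ)
    obtain ⟨⟨n, x⟩, hx, rfl⟩ := not_not.mp hz2
    have := hb2 n _ ⟨x, hx, rfl⟩ ((h3 _ ⟨n, rfl⟩).trans hz1.1)
    exact hy ⟨⟨n, x⟩, hx, le_antisymm hz1.2 this⟩
  obtain ⟨n, hn⟩ := h1
  obtain ⟨T, hT1, hT2, hT3, hT4⟩ := thin hl _ hn
  obtain ⟨S, hS1, hS2, hS3⟩ : ∃ S ⊆ inc n ⁻¹' F, (Lv n).2 '' S = T ∧ InjOn (Lv n).2 S := by
    obtain ⟨S, h1, h2⟩ := (show SurjOn (Lv n).2 (inc n ⁻¹' F) T from hT1).exists_subset_injOn_image_eq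
    exact ⟨S, h1, h2.2, h2.1⟩
  obtain ⟨β0, hβ0, -⟩ := hl ∅ countable_empty (empty_subset _)
  have : Nonempty (Iio y) := ⟨⟨β0, hβ0⟩⟩
  have hne : (⨅ β : Iio y, 𝓟 (S ∩ {x | β.1 < (Lv n).2 x})).NeBot := by
    apply iInf_neBot_of_directed'
    · intro β γ
      refine ⟨max β γ, principal_mono.mpr fun x hx => ⟨hx.1, ?_⟩,
        principal_mono.mpr fun x hx => ⟨hx.1, ?_⟩⟩
      · exact lt_of_le_of_lt (Subtype.coe_le_coe.mpr (le_max_left β γ)) hx.2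
      · exact lt_of_le_of_lt (Subtype.coe_le_coe.mpr (le_max_right β γ)) hx.2
    · intro β
      obtain ⟨t, ht, h⟩ := hT3 β β.2
      rw [← hS2] at ht
      obtain ⟨x, hx, rfl⟩ := ht
      exact principal_neBot_iff.mpr ⟨x, hx, h⟩
  let p := Ultrafilter.of (⨅ β : Iio y, 𝓟 (S ∩ {x | β.1 < (Lv n).2 x}))
  have hp : ∀ β < y, S ∩ {x | β < (Lv n).2 x} ∈ p := fun β hβ =>
    Ultrafilter.of_le _ (mem_iInf_of_mem ⟨β, hβ⟩ (mem_principal_self _))
  have hSp : S ∈ p := mem_of_superset (hp β0 hβ0) inter_subset_left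
  have hg : Good (Lv n).2 (p, y) := ⟨hl, fun β hβ => mem_of_superset (hp β hβ) inter_subset_right,
    S, hSp, hS3, fun x hx => hT2 (hS2 ▸ mem_image_of_mem _ hx), fun β hβ => hS2 ▸ hT4 β hβ⟩
  have h2 : (⟨n + 1, ⟨(p, y), hg⟩⟩ : XX) ∈ Fᶜ := fun h => hy ⟨_, h, rfl⟩
  have h3 : inc n ⁻¹' Fᶜ ∈ p := hF.isOpen_compl _ h2
  obtain ⟨x, hx1, hx2⟩ := p.nonempty_of_mem (inter_mem hSp h3)
  exact hx2 (hS1 hx1)

lemma sep (y : W) : ∀ a b : XX, ff a = y → ff b = y → a ≠ b →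
    ∃ U V : Set XX, IsOpen U ∧ IsOpen V ∧ a ∈ U ∧ b ∈ V ∧ Disjoint U V := by
  induction y using WellFoundedLT.induction with
  | ind y ih =>
  intro a b ha hb hab
  obtain ⟨A0, hA0, B0, hB0, hd⟩ := NN_disj hab (ha.trans hb.symm)
  obtain ⟨S, s1, s2, s3, s4⟩ := NN_thin a
  obtain ⟨T, t1, t2, t3, t4⟩ := NN_thin b
  rw [ha] at s3 s4
  rw [hb] at t3 t4
  have h1 : ∀ α, α < y → ∃ U V : Set XX, IsOpen U ∧ IsOpen V ∧ Disjoint U V ∧
      (∀ x ∈ A0 ∩ S, ff x = α → x ∈ U) ∧ ∀ x ∈ B0 ∩ T, ff x = α → x ∈ V := by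
    intro α hα
    by_cases h : ∃ x ∈ A0 ∩ S, ff x = α
    · by_cases h' : ∃ x ∈ B0 ∩ T, ff x = α
      · obtain ⟨x, hx, hx'⟩ := h
        obtain ⟨z, hz, hz'⟩ := h'
        obtain ⟨U, V, u1, u2, u3, u4, u5⟩ := ih α hα x z hx' hz'
          (fun e => disjoint_left.mp hd hx.1 (e ▸ hz.1))
        refine ⟨U, V, u1, u2, u5, fun w hw hw' => ?_, fun w hw hw' => ?_⟩
        · rwa [s2 hw.2 hx.2 (hw'.trans hx'.symm)]
        · rwa [t2 hw.2 hz.2 (hw'.trans hz'.symm)]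
      · exact ⟨univ, ∅, isOpen_univ, isOpen_empty, disjoint_bot_right, fun _ _ _ => trivial,
          fun x hx hx' => h' ⟨x, hx, hx'⟩⟩
    · exact ⟨∅, univ, isOpen_empty, isOpen_univ, disjoint_bot_left,
        fun x hx hx' => h ⟨x, hx, hx'⟩, fun _ _ _ => trivial⟩
  have h2 : ∀ α, α < y → ∃ I : Set W, IsOpen I ∧ α ∈ I ∧ I ⊆ Iic α ∧
      ∀ γ ∈ ff '' S ∪ ff '' T, γ < α → ∀ z ∈ I, γ < z := by
    intro α hα
    by_cases hl : Lim α
    · obtain ⟨β, hβ, h⟩ := hl ((ff '' S ∪ ff '' T) ∩ Iio α) (by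
        refine ((s4 α hα).union (t4 α hα)).mono ?_
        rintro z ⟨hz | hz, hz'⟩
        · exact Or.inl ⟨hz, Iio_subset_Iic_self hz'⟩
        · exact Or.inr ⟨hz, Iio_subset_Iic_self hz'⟩) inter_subset_right
      exact ⟨Ioc β α, (open_Ioi β).inter (open_Iic α), ⟨hβ, le_rfl⟩, Ioc_subset_Iic_self,
        fun γ hγ hγ' z hz => (h γ ⟨hγ, hγ'⟩).trans hz.1⟩
    · refine ⟨{α}, ?_, rfl, singleton_subset_iff.mpr self_mem_Iic, ?_⟩
      · rintro z rfl h; exact absurd h hl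
      · rintro γ - hγ z rfl; exact hγ
  choose! U V u1 u2 u3 u4 u5 using h1
  choose! I i1 i2 i3 i4 using h2
  have hR : ∀ α ∈ ff '' S ∪ ff '' T, α < y := by
    rintro _ (⟨x, hx, rfl⟩ | ⟨x, hx, rfl⟩)
    exacts [s3 x hx, t3 x hx]
  refine ⟨insert a (⋃ α ∈ ff '' S ∪ ff '' T, U α ∩ ff ⁻¹' I α),
    insert b (⋃ α ∈ ff '' S ∪ ff '' T, V α ∩ ff ⁻¹' I α), ?_, ?_, mem_insert _ _, mem_insert _ _, ?_⟩
  · refine open_insert (isOpen_biUnion fun α hα =>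
      (u1 α (hR α hα)).inter ((i1 α (hR α hα)).preimage ff_cont)) ?_
    filter_upwards [inter_mem hA0 s1] with x hx
    exact mem_biUnion (Or.inl (mem_image_of_mem _ hx.2))
      ⟨u4 _ (s3 x hx.2) x hx rfl, i2 _ (s3 x hx.2)⟩
  · refine open_insert (isOpen_biUnion fun α hα =>
      (u2 α (hR α hα)).inter ((i1 α (hR α hα)).preimage ff_cont)) ?_
    filter_upwards [inter_mem hB0 t1] with x hx
    exact mem_biUnion (Or.inr (mem_image_of_mem _ hx.2))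
      ⟨u5 _ (t3 x hx.2) x hx rfl, i2 _ (t3 x hx.2)⟩
  · rw [disjoint_left]
    rintro x (rfl | hx) (h | hx')
    · exact hab h
    · obtain ⟨α, hα, -, h⟩ := mem_iUnion₂.mp hx'
      exact (hR α hα).not_ge (ha ▸ i3 α (hR α hα) h)
    · obtain ⟨α, hα, -, h'⟩ := mem_iUnion₂.mp hx
      exact (hR α hα).not_ge (hb ▸ h ▸ i3 α (hR α hα) h')
    · obtain ⟨α, hα, h1, h2⟩ := mem_iUnion₂.mp hx
      obtain ⟨γ, hγ, h3, h4⟩ := mem_iUnion₂.mp hx'
      rcases lt_trichotomy α γ with h | rfl | h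
      · exact (i4 γ (hR γ hγ) α hα h _ h4).not_ge (i3 α (hR α hα) h2)
      · exact disjoint_left.mp (u3 α (hR α hα)) h1 h3
      · exact (i4 α (hR α hα) γ hγ h _ h2).not_ge (i3 γ (hR γ hγ) h4)

instance : T2Space XX := ⟨fun a b hab => by
  by_cases h : ff a = ff b
  · exact sep _ a b h rfl hab
  · exact separated_by_continuous ff_cont h⟩

theorem wtr_XX : Wtr XX := by
  intro 𝒰 h1 h2
  have : ∀ x : XX, ∃ U ∈ 𝒰, x ∈ U := fun x => by
    have : x ∈ ⋃₀ 𝒰 := h2 ▸ mem_univ x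
    exact this
  choose U hU hx using this
  have ho : ∀ n : ℕ, IsOpen {z : XX | z.1 < n} := fun n a ha =>
    mem_of_superset (NN_lev a) fun z hz => by
      simp only [mem_setOf_eq] at hz ha ⊢; omega
  refine ⟨fun n => (fun x => U x ∩ insert x {z : XX | z.1 < x.1}) '' {x | x.1 = n}, ?_, ?_⟩
  · rintro n _ ⟨x, -, rfl⟩
    refine ⟨(h1 _ (hU x)).inter (open_insert (ho _) ?_), U x, hU x, inter_subset_left⟩
    exact mem_of_superset (NN_lev x) fun z hz => by simp only [mem_setOf_eq] at hz ⊢; omega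
  · intro x
    refine ⟨x.1, ⟨_, ⟨x, rfl, rfl⟩, hx x, mem_insert _ _⟩, ?_⟩
    refine (finite_singleton (U x ∩ insert x {z : XX | z.1 < x.1})).subset ?_
    rintro _ ⟨⟨w, hw, rfl⟩, -, rfl | h⟩
    · rfl
    · exact absurd hw (ne_of_gt h)

end Pool.Agent.H2.WTR
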