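import Mathlib

set_option autoImplicit false

namespace Pool.Agent.H2.Zer

/-- the field with eight elements, additively -/
abbrev F : Type := ZMod 2 × ZMod 2 × ZMod 2

/-- multiplication by the generator -/
def T (x : F) : F := (x.2.2, x.1 + x.2.2, x.2.1)

/-- field multiplication -/
def ml (x y : F) : F := x.1 • y + x.2.1 • T y + x.2.2 • T (T y)

/-- action on the top -/
def A (i : ZMod 7) (x : F) : F := T^[i.val] x

/-- action on the centre -/
def S (i : ZMod 7) (x : F) : F := A (3 * i) x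

/-- the cocycle -/
def f (x y : F) : F := ml (ml x x) y

lemma A_add : ∀ i x y, A i (x + y) = A i x + A i y := by decide +kernel
lemma A_A : ∀ i j x, A i (A j x) = A (i + j) x := by decide +kernel
lemma A_zero : ∀ x, A 0 x = x := by decide +kernel
lemma A_zero' : ∀ i, A i 0 = 0 := by decide +kernel
lemma S_add : ∀ i x y, S i (x + y) = S i x + S i y := by decide +kernel
lemma S_S : ∀ i j x, S i (S j x) = S (i + j) x := by decide +kernel
lemma S_zero : ∀ x, S 0 x = x := by decide +kernel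
lemma S_zero' : ∀ i, S i 0 = 0 := by decide +kernel
lemma f_add_l : ∀ x y z, f (x + y) z = f x z + f y z := by decide +kernel
lemma f_add_r : ∀ x y z, f x (y + z) = f x y + f x z := by decide +kernel
lemma f_zero_l : ∀ x, f 0 x = 0 := by decide +kernel
lemma f_zero_r : ∀ x, f x 0 = 0 := by decide +kernel
lemma f_A : ∀ i x y, S i (f x y) = f (A i x) (A i y) := by decide +kernel
lemma add_self : ∀ x : F, x + x = 0 := by decide +kernel
lemma A_surj : ∀ i, i ≠ 0 → ∀ x, ∃ y, A i y = y + x := by decide +kernel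
lemma S_surj : ∀ i, i ≠ 0 → ∀ x, ∃ y, S i y = y + x := by decide +kernel
lemma odd_count : ∀ u x : F, (∑ i : ZMod 7, if ∀ y : F,
    u.1 * (f (A i x) y + f y (A i x)).1 + u.2.1 * (f (A i x) y + f y (A i x)).2.1
      + u.2.2 * (f (A i x) y + f y (A i x)).2.2 = 0 then (1 : ZMod 2) else 0) = 1 := by
  decide +kernel

/-- the group -/
@[ext] structure GG (k : ℕ) where
  /-- top coordinate -/
  x : F
  /-- central coordinates -/
  z : Fin (k + 1) → F
  /-- complement coordinate -/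
  i : ZMod 7

variable {k : ℕ}

/-- first coordinate vector -/
def e0 (c : F) : Fin (k + 1) → F := fun l => if l = 0 then c else 0

/-- diagonal action -/
def SS (i : ZMod 7) (z : Fin (k + 1) → F) : Fin (k + 1) → F := fun l => S i (z l)

lemma e0_add (a b : F) : (e0 (a + b) : Fin (k + 1) → F) = e0 a + e0 b := by
  ext l : 1; simp only [e0, Pi.add_apply]; split_ifs <;> simp

lemma e0_zero : (e0 0 : Fin (k + 1) → F) = 0 := by
  ext l : 1; simp [e0]

lemma SS_add (i : ZMod 7) (a b : Fin (k + 1) → F) : SS i (a + b) = SS i a + SS i b := by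
  ext l : 1; simp [SS, S_add]

lemma SS_SS (i j : ZMod 7) (a : Fin (k + 1) → F) : SS i (SS j a) = SS (i + j) a := by
  ext l : 1; simp [SS, S_S]

lemma SS_zero (a : Fin (k + 1) → F) : SS 0 a = a := by
  ext l : 1; simp [SS, S_zero]

lemma SS_zero' (i : ZMod 7) : SS i (0 : Fin (k + 1) → F) = 0 := by
  ext l : 1; simp [SS, S_zero']

lemma SS_e0 (i : ZMod 7) (c : F) : SS i (e0 c : Fin (k + 1) → F) = e0 (S i c) := by
  ext l : 1; simp only [SS, e0]; split_ifs <;> simp [S_zero']

lemma add_self' (a : Fin (k + 1) → F) : a + a = 0 := by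
  ext l : 1; simp [add_self]

lemma SS_surj (i : ZMod 7) (hi : i ≠ 0) (a : Fin (k + 1) → F) : ∃ b, SS i b = b + a := by
  choose g hg using S_surj i hi
  exact ⟨fun l => g (a l), by ext l : 1; simp [SS, hg]⟩

instance : Mul (GG k) :=
  ⟨fun a b => ⟨a.x + A a.i b.x, a.z + SS a.i b.z + e0 (f a.x (A a.i b.x)), a.i + b.i⟩⟩

instance : One (GG k) := ⟨⟨0, 0, 0⟩⟩

instance : Inv (GG k) :=
  ⟨fun a => ⟨A (-a.i) a.x, SS (-a.i) a.z + e0 (f (A (-a.i) a.x) (A (-a.i) a.x)), -a.i⟩⟩

lemma mul_def (a b : GG k) :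
    a * b = ⟨a.x + A a.i b.x, a.z + SS a.i b.z + e0 (f a.x (A a.i b.x)), a.i + b.i⟩ := rfl

lemma one_def : (1 : GG k) = ⟨0, 0, 0⟩ := rfl

lemma inv_def (a : GG k) :
    a⁻¹ = ⟨A (-a.i) a.x, SS (-a.i) a.z + e0 (f (A (-a.i) a.x) (A (-a.i) a.x)), -a.i⟩ := rfl

instance : Group (GG k) := Group.ofLeftAxioms
  (by
    intro a b c
    simp only [mul_def, A_add, A_A, SS_add, SS_SS, SS_e0, f_A, f_add_l, f_add_r, e0_add,
      GG.mk.injEq]
    refine ⟨by abel, by abel, by abel⟩)
  (by
    intro a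
    simp only [mul_def, one_def, A_zero, SS_zero, f_zero_l, e0_zero, zero_add, add_zero])
  (by
    intro a
    simp only [mul_def, one_def, inv_def, GG.mk.injEq, add_self, neg_add_cancel, true_and,
      and_true]
    have := add_self' (SS (-a.i) a.z + e0 (f (A (-a.i) a.x) (A (-a.i) a.x)))
    rw [← this]; abel)

/-- coordinates -/
def eqv : GG k ≃ F × (Fin (k + 1) → F) × ZMod 7 where
  toFun a := (a.x, a.z, a.i)
  invFun p := ⟨p.1, p.2.1, p.2.2⟩
  left_inv _ := rfl
  right_inv _ := rfl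

instance : Finite (GG k) := Finite.of_equiv _ eqv.symm

lemma card_GG : Nat.card (GG k) = 8 * (8 ^ (k + 1) * 7) := by
  rw [Nat.card_congr eqv]; simp

/-- projection to the complement -/
def pr : GG k →* Multiplicative (ZMod 7) where
  toFun a := Multiplicative.ofAdd a.i
  map_one' := rfl
  map_mul' _ _ := rfl

lemma ker_nilp : Group.IsNilpotent (pr (k := k)).ker := by
  have : Fact (Nat.Prime 2) := ⟨Nat.prime_two⟩
  apply IsPGroup.isNilpotent (p := 2)
  rintro ⟨⟨x, z, i⟩, hi⟩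
  have hi' : i = 0 := hi
  subst hi'
  refine ⟨2, Subtype.ext ?_⟩
  show (⟨x, z, 0⟩ : GG k) ^ (2 ^ 2) = 1
  have h1 : (⟨x, z, 0⟩ : GG k) * ⟨x, z, 0⟩ = ⟨0, e0 (f x x), 0⟩ := by
    simp only [mul_def, A_zero, SS_zero, add_self, add_self', zero_add]
  rw [show 2 ^ 2 = 2 * 2 from rfl, pow_mul, sq, sq, h1]
  simp only [mul_def, A_zero, SS_zero, add_self', zero_add, f_zero_l, e0_zero, one_def]

lemma conj_out (g : GG k) (hg : g.i ≠ 0) : IsConj (⟨0, 0, g.i⟩ : GG k) g := by
  obtain ⟨x, z, i⟩ := g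
  obtain ⟨y, hy⟩ := A_surj i hg x
  obtain ⟨w, hw⟩ := SS_surj i hg (z + e0 (f x (A i y)))
  rw [isConj_iff]
  refine ⟨⟨y, w, 0⟩, ?_⟩
  rw [mul_inv_eq_iff_eq_mul]
  simp only [mul_def, A_zero, SS_zero, add_zero, zero_add, f_zero_r, e0_zero, GG.mk.injEq, and_true,
    hw]
  constructor
  · rw [hy, add_left_comm, add_self, add_zero]
  · have := add_self' (z + e0 (f x (A i y)))
    calc w = w + 0 := (add_zero _).symm
      _ = _ := by rw [← this]; abel

end Pool.Agent.H2.Zer
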