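import Pool.Agent.H2.Zer1

set_option autoImplicit false

namespace Pool.Agent.H2.Zer

open Module

variable {V : Type} [AddCommGroup V] [Module ℂ V]

lemma chr_sq {M : Type} [AddCommGroup M] (h2 : ∀ a : M, a + a = 0) (ψ : AddChar M ℂ) (a : M) :
    ψ a * ψ a = 1 := by rw [← AddChar.map_add_eq_mul, h2, AddChar.map_zero_eq_one]

/-- Fourier dichotomy for an elementary abelian 2-group of operators -/
lemma fourier {M : Type} [AddCommGroup M] [Fintype M] (h2 : ∀ a : M, a + a = 0)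
    (σ : M → End ℂ V) (h0 : σ 0 = 1) (hadd : ∀ a b, σ (a + b) = σ a * σ b) :
    (∀ a, σ a = 1) ∨ ∃ (ψ : AddChar M ℂ) (e : End ℂ V), (∃ a, ψ a ≠ 1) ∧ e ≠ 0 ∧ e * e = e ∧
      (∀ a, σ a * e = ψ a • e) ∧ (∀ Y : End ℂ V, (∀ a, Commute Y (σ a)) → Commute Y e) := by
  classical
  let e : AddChar M ℂ → End ℂ V := fun ψ => (Fintype.card M : ℂ)⁻¹ • ∑ b, ψ b • σ b
  have hc : (Fintype.card M : ℂ) ≠ 0 := Nat.cast_ne_zero.2 Fintype.card_ne_zero
  have h1 : ∀ ψ a, σ a * e ψ = ψ a • e ψ := by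
    intro ψ a
    simp only [e, mul_smul_comm, Finset.mul_sum, smul_comm (ψ a)]
    congr 1
    rw [Finset.smul_sum]
    refine Fintype.sum_equiv (Equiv.addLeft a) _ _ fun b => ?_
    rw [Equiv.coe_addLeft, ← hadd, smul_smul, AddChar.map_add_eq_mul, ← mul_assoc, chr_sq h2,
      one_mul]
  have h3 : ∀ ψ, e ψ * e ψ = e ψ := by
    intro ψ
    conv_lhs => rw [show e ψ * e ψ = ((Fintype.card M : ℂ)⁻¹ • ∑ b, ψ b • σ b) * e ψ from rfl]
    rw [smul_mul_assoc, Finset.sum_mul]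
    simp only [smul_mul_assoc, h1, smul_smul, chr_sq h2, one_smul, Finset.sum_const,
      Finset.card_univ]
    rw [← Nat.cast_smul_eq_nsmul ℂ, smul_smul, inv_mul_cancel₀ hc, one_smul]
  have h4 : ∑ ψ, e ψ = 1 := by
    simp only [e]
    rw [← Finset.smul_sum, Finset.sum_comm]
    simp only [← Finset.sum_smul, AddChar.sum_apply_eq_ite, ite_smul, zero_smul]
    rw [Finset.sum_ite_eq' Finset.univ (0 : M), if_pos (Finset.mem_univ _), h0, smul_smul,
      inv_mul_cancel₀ hc, one_smul]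
  by_cases h : ∃ ψ : AddChar M ℂ, (∃ a, ψ a ≠ 1) ∧ e ψ ≠ 0
  · obtain ⟨ψ, hψ, he⟩ := h
    refine Or.inr ⟨ψ, e ψ, hψ, he, h3 ψ, h1 ψ, fun Y hY => ?_⟩
    exact (Commute.sum_right _ _ _ fun b _ => (hY b).smul_right _).smul_right _
  · left
    intro a
    push Not at h
    rw [← mul_one (σ a), ← h4, Finset.mul_sum]
    refine Finset.sum_congr rfl fun ψ _ => ?_
    rw [h1]
    by_cases ha : ψ a = 1
    · rw [ha, one_smul]
    · rw [h ψ ⟨a, ha⟩, smul_zero]

variable {k : ℕ} (ρ : Representation ℂ (GG k) V)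

/-- elements of the complement -/
def tt (i : ZMod 7) : GG k := ⟨0, 0, i⟩

lemma tt_mul (i j : ZMod 7) : (tt i * tt j : GG k) = tt (i + j) := by
  simp only [tt, mul_def, A_zero', SS_zero', f_zero_l, e0_zero, add_zero]

lemma tt_conj (i : ZMod 7) (x : F) (z : Fin (k + 1) → F) :
    (tt i * ⟨x, z, 0⟩ : GG k) = ⟨A i x, SS i z, 0⟩ * tt i := by
  simp only [tt, mul_def, A_zero', SS_zero', f_zero_l, f_zero_r, e0_zero, add_zero, zero_add]

lemma orth {M : Type} [AddCommGroup M] (ψ : AddChar M ℂ) (hψ : ∃ a, ψ a ≠ 1) (e : End ℂ V)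
    (b : M → GG k) (hb : ∀ a, ρ (b a) * e = ψ a • e) (hb' : ∀ a, e * ρ (b a) = ψ a • e)
    (i : ZMod 7) (R : M → M) (hR : ∀ a, ∃ c, R c = c + a) (hc : ∀ c, tt i * b c = b (R c) * tt i) :
    e * ρ (tt i) * e = 0 := by
  obtain ⟨a, ha⟩ := hψ
  obtain ⟨c, hc'⟩ := hR a
  have h1 : e * ρ (tt i * b c) * e = ψ c • (e * ρ (tt i) * e) := by
    rw [map_mul, mul_assoc, mul_assoc, hb, mul_smul_comm, mul_smul_comm, mul_assoc]
  have h2 : e * ρ (b (R c) * tt i) * e = (ψ c * ψ a) • (e * ρ (tt i) * e) := by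
    rw [map_mul, ← mul_assoc, hb', smul_mul_assoc, smul_mul_assoc, hc', AddChar.map_add_eq_mul]
  rw [hc, h2, ← sub_eq_zero, ← sub_smul, smul_eq_zero] at h1
  refine h1.resolve_left fun h => ha ?_
  have h3 : ψ c ≠ 0 := fun h0 => by
    have := ψ.map_add_eq_mul c (-c)
    rw [add_neg_cancel, AddChar.map_zero_eq_one, h0, zero_mul] at this
    exact one_ne_zero this
  apply mul_left_cancel₀ h3
  linear_combination h

lemma schur [FiniteDimensional ℂ V] [ρ.IsIrreducible] (X : End ℂ V) (hX : ∀ g, Commute X (ρ g)) :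
    ∃ s : ℂ, X = s • 1 := by
  obtain ⟨s, hs⟩ := (Representation.IsIrreducible.algebraMap_intertwiningMap_bijective_of_isAlgClosed
    (ρ := ρ)).2 ⟨X, fun g => (hX g).eq⟩
  refine ⟨s, ?_⟩
  have := congrArg Representation.IntertwiningMap.toLinearMap hs
  exact this.symm

lemma gauss (s : ℂ) (h : s * s = 1 ∨ s * s = -1) :
    ∃ a b : ℤ, s = a + b * Complex.I ∧ ((a + b : ℤ) : ZMod 2) = 1 := by
  rcases h with h | h
  · rcases mul_self_eq_one_iff.mp h with rfl | rfl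
    · exact ⟨1, 0, by simp, by decide⟩
    · exact ⟨-1, 0, by simp, by decide⟩
  · rw [← Complex.I_mul_I] at h
    rcases mul_self_eq_mul_self_iff.mp h with rfl | rfl
    · exact ⟨0, 1, by simp, by decide⟩
    · exact ⟨0, -1, by simp, by decide⟩

lemma lin (l : F → ℂ) (hl : ∀ a b, l (a + b) = l a * l b) (h0 : l 0 = 1) :
    ∃ u : F, ∀ c : F, l c = 1 ↔ u.1 * c.1 + u.2.1 * c.2.1 + u.2.2 * c.2.2 = 0 := by
  classical
  have hsq : ∀ a, l a = 1 ∨ l a = -1 := fun a =>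
    mul_self_eq_one_iff.mp (by rw [← hl, add_self, h0])
  let κ : F → ZMod 2 := fun a => if l a = 1 then 0 else 1
  have hκ : ∀ a b, κ (a + b) = κ a + κ b := by
    intro a b
    simp only [κ, hl]
    rcases hsq a with ha | ha <;> rcases hsq b with hb | hb <;> rw [ha, hb] <;> norm_num <;> decide
  have hκ0 : κ 0 = 0 := by simp [κ, h0]
  have hs : ∀ (t : ZMod 2) (a : F), κ (t • a) = t * κ a := by
    intro t a
    rcases (by decide : ∀ t : ZMod 2, t = 0 ∨ t = 1) t with rfl | rfl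
    · rw [zero_smul, zero_mul, hκ0]
    · rw [one_smul, one_mul]
  refine ⟨(κ (1, 0, 0), κ (0, 1, 0), κ (0, 0, 1)), fun c => ?_⟩
  have e : c = c.1 • (1, 0, 0) + c.2.1 • (0, 1, 0) + c.2.2 • (0, 0, 1) := by
    ext <;> simp
  have : κ c = κ (1, 0, 0) * c.1 + κ (0, 1, 0) * c.2.1 + κ (0, 0, 1) * c.2.2 := by
    conv_lhs => rw [e]
    rw [hκ, hκ, hs, hs, hs]; ring
  rw [← this]
  simp [κ]

lemma core [FiniteDimensional ℂ V] [ρ.IsIrreducible] (e : End ℂ V) (he0 : e ≠ 0) (hee : e * e = e)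
    (hN : ∀ x z, Commute (ρ ⟨x, z, 0⟩) e) (ho : ∀ i, i ≠ 0 → e * ρ (tt i) * e = 0)
    (ψ : AddChar (Fin (k + 1) → F) ℂ) (hψ : ∀ z, ρ ⟨0, z, 0⟩ * e = ψ z • e) (x : F)
    (z : Fin (k + 1) → F) : ρ.character ⟨x, z, 0⟩ ≠ 0 := by
  classical
  have tinv : ∀ i : ZMod 7, ρ (tt i) * ρ (tt (-i)) = 1 := fun i => by
    rw [← map_mul, tt_mul, add_neg_cancel]; exact map_one ρ
  have tinv' : ∀ i : ZMod 7, ρ (tt (-i)) * ρ (tt i) = 1 := fun i => by
    rw [← map_mul, tt_mul, neg_add_cancel]; exact map_one ρ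
  have key : ∀ Y : End ℂ V, (∀ x z, Commute (ρ ⟨x, z, 0⟩) Y) → e * Y = Y →
      ∃ s : ℂ, ∑ i, ρ (tt (-i)) * Y * ρ (tt i) = s • 1 ∧ Y = s • e := by
    intro Y hY h1
    obtain ⟨s, hs⟩ := schur ρ (∑ i, ρ (tt (-i)) * Y * ρ (tt i)) (by
      rintro ⟨x, z, j⟩
      have e1 : (⟨x, z, j⟩ : GG k) = ⟨x, z, 0⟩ * tt j := by
        simp only [tt, mul_def, A_zero', SS_zero', f_zero_r, e0_zero, add_zero, zero_add]
      rw [e1, map_mul]
      apply Commute.mul_right
      · refine Commute.sum_left _ _ _ fun i _ => ?_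
        have c1 := congrArg ρ (tt_conj i x z)
        have c2 := congrArg ρ (tt_conj (-i) (A i x) (SS i z))
        rw [A_A, SS_SS, neg_add_cancel, A_zero, SS_zero] at c2
        rw [map_mul, map_mul] at c1 c2
        show _ * _ = _ * _
        rw [mul_assoc, c1, ← mul_assoc, mul_assoc _ Y, ← (hY _ _).eq, ← mul_assoc, c2]
        simp only [mul_assoc]
      · show _ * _ = _ * _
        rw [Finset.sum_mul, Finset.mul_sum]
        refine Fintype.sum_equiv (Equiv.addRight j) _ _ fun i => ?_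
        rw [Equiv.coe_addRight, mul_assoc, ← map_mul, tt_mul, ← mul_assoc, ← mul_assoc, ← map_mul,
          tt_mul]
        congr 4
        ring)
    refine ⟨s, hs, ?_⟩
    have h2 := congrArg (fun X => e * X) hs
    simp only [Finset.mul_sum, mul_smul_comm, mul_one] at h2
    rw [← h2, Finset.sum_eq_single 0]
    · have : (tt 0 : GG k) = 1 := rfl
      rw [neg_zero, this, map_one, one_mul, mul_one, h1]
    · intro i _ hi
      rw [← h1, ← mul_assoc, ← mul_assoc, ← mul_assoc, ho _ (neg_ne_zero.mpr hi), zero_mul, zero_mul]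
    · simp
  obtain ⟨s1, hs1, hs1'⟩ := key e hN hee
  have hs1'' : s1 = 1 := by
    have : (s1 - 1) • e = 0 := by rw [sub_smul, ← hs1', one_smul, sub_self]
    exact sub_eq_zero.mp ((smul_eq_zero.mp this).resolve_right he0)
  rw [hs1'', one_smul] at hs1
  have hd : LinearMap.trace ℂ V e ≠ 0 := fun h =>
    he0 (LinearMap.IsIdempotentElem.eq_zero_of_trace_eq_zero hee h)
  have hχ : ρ.character ⟨x, z, 0⟩ = ∑ i, LinearMap.trace ℂ V (ρ ⟨A i x, SS i z, 0⟩ * e) := by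
    rw [Representation.character, ← mul_one (ρ _), ← hs1, Finset.mul_sum, map_sum]
    refine Finset.sum_congr rfl fun i _ => ?_
    have c1 := congrArg ρ (tt_conj i x z)
    rw [map_mul, map_mul] at c1
    rw [← mul_assoc, LinearMap.trace_mul_comm, ← mul_assoc, c1, ← mul_assoc, mul_assoc _ (ρ (tt i)),
      tinv, mul_one]
  obtain ⟨u, hu⟩ := lin (fun c => ψ (e0 c)) (fun a b => by rw [e0_add, AddChar.map_add_eq_mul])
    (by rw [e0_zero, AddChar.map_zero_eq_one])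
  have comm : ∀ (x y : F) (z w : Fin (k + 1) → F), ρ ⟨y, w, 0⟩ * (ρ ⟨x, z, 0⟩ * e)
      = ψ (e0 (f x y + f y x)) • (ρ ⟨x, z, 0⟩ * e * ρ ⟨y, w, 0⟩) := by
    intro x y z w
    have e1 : (⟨y, w, 0⟩ * ⟨x, z, 0⟩ : GG k)
        = ⟨x, z, 0⟩ * ⟨y, w, 0⟩ * ⟨0, e0 (f x y + f y x), 0⟩ := by
      simp only [mul_def, A_zero, SS_zero, add_zero, f_zero_r, e0_zero, e0_add, GG.mk.injEq,
        and_true]
      refine ⟨add_comm _ _, ?_⟩
      calc _ = w + z + e0 (f y x) + 0 := (add_zero _).symm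
        _ = _ := by rw [← add_self' (e0 (f x y))]; abel
    rw [← mul_assoc, ← map_mul, e1, map_mul, map_mul, mul_assoc, hψ, mul_smul_comm, mul_assoc,
      (hN y w).eq, mul_assoc]
  have term : ∀ (x : F) (z : Fin (k + 1) → F), ∃ a b : ℤ,
      LinearMap.trace ℂ V (ρ ⟨x, z, 0⟩ * e) = (a + b * Complex.I) * LinearMap.trace ℂ V e ∧
      ((a + b : ℤ) : ZMod 2) = if ∀ y : F, u.1 * (f x y + f y x).1 + u.2.1 * (f x y + f y x).2.1
        + u.2.2 * (f x y + f y x).2.2 = 0 then (1 : ZMod 2) else 0 := by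
    intro x z
    split_ifs with h
    · obtain ⟨s, -, hs⟩ := key (ρ ⟨x, z, 0⟩ * e) (fun y w => by
        show _ * _ = _ * _
        rw [comm, (hu _).mpr (h y), one_smul]) (by
        rw [← mul_assoc, ← (hN x z).eq, mul_assoc, hee])
      have h1 : ρ ⟨x, z, 0⟩ * (ρ ⟨x, z, 0⟩ * e) = ψ (e0 (f x x)) • e := by
        rw [← mul_assoc, ← map_mul, ← hψ]
        simp only [mul_def, A_zero, SS_zero, add_self, add_self', zero_add]
      rw [hs, mul_smul_comm, hs, smul_smul, ← sub_eq_zero, ← sub_smul] at h1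
      have h2 := sub_eq_zero.mp ((smul_eq_zero.mp h1).resolve_right he0)
      obtain ⟨a, b, h3, h4⟩ := gauss s (by
        rw [h2]; exact mul_self_eq_one_iff.mp (chr_sq add_self' ψ _))
      exact ⟨a, b, by rw [hs, map_smul, smul_eq_mul, h3], h4⟩
    · push Not at h
      obtain ⟨y, hy⟩ := h
      refine ⟨0, 0, ?_, by simp⟩
      have h1 : ψ (e0 (f x y + f y x)) ≠ 1 := fun h' => hy ((hu _).mp h')
      have h2 := congrArg (fun X => LinearMap.trace ℂ V (X * ρ (⟨y, 0, 0⟩ : GG k)⁻¹)) (comm x y z 0)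
      simp only [smul_mul_assoc, map_smul, smul_eq_mul] at h2
      rw [LinearMap.trace_mul_comm, ← mul_assoc, ← map_mul, inv_mul_cancel, map_one, one_mul,
        mul_assoc _ (ρ _), ← map_mul, mul_inv_cancel, map_one, mul_one] at h2
      have h3 : (ψ (e0 (f x y + f y x)) - 1) * LinearMap.trace ℂ V (ρ ⟨x, z, 0⟩ * e) = 0 := by
        linear_combination -h2
      rw [(mul_eq_zero.mp h3).resolve_left (sub_ne_zero.mpr h1)]
      simp
  choose a b h1 h2 using term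
  rw [hχ]
  simp only [h1]
  rw [← Finset.sum_mul]
  refine mul_ne_zero (fun h0 => ?_) hd
  have h3 := odd_count u x
  rw [Finset.sum_congr rfl fun i _ => (h2 (A i x) (SS i z)).symm] at h3
  have h4 : ((∑ i, a (A i x) (SS i z) : ℤ) : ℂ) + ((∑ i, b (A i x) (SS i z) : ℤ) : ℂ) * Complex.I
      = 0 := by
    rw [← h0, Finset.sum_add_distrib, ← Finset.sum_mul]; push_cast; rfl
  have h5 := congrArg Complex.re h4
  have h6 := congrArg Complex.im h4
  simp only [Complex.add_re, Complex.intCast_re, Complex.mul_re, Complex.I_re, mul_zero,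
    Complex.intCast_im, Complex.I_im, mul_one, sub_self, add_zero, Complex.zero_re,
    Int.cast_eq_zero, Complex.add_im, Complex.mul_im, zero_add, Complex.zero_im] at h5 h6
  rw [← Int.cast_sum, Finset.sum_add_distrib, h5, h6] at h3
  simp at h3

theorem nonvanishing [FiniteDimensional ℂ V] [ρ.IsIrreducible] (x : F) (z : Fin (k + 1) → F) :
    ρ.character ⟨x, z, 0⟩ ≠ 0 := by
  have m1 : ∀ (x y : F) (z w : Fin (k + 1) → F), (⟨x, z, 0⟩ * ⟨y, w, 0⟩ : GG k)
      = ⟨x + y, z + w + e0 (f x y), 0⟩ := by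
    intro x y z w
    simp only [mul_def, A_zero, SS_zero, add_zero]
  rcases fourier add_self' (fun z : Fin (k + 1) → F => ρ ⟨0, z, 0⟩) (map_one ρ) (fun a b => by
    rw [← map_mul, m1, add_zero, f_zero_l, e0_zero, add_zero]) with hB | ⟨ψ, e, hψ, h0, hee, h1, h2⟩
  · have hB' : ∀ x z, ρ ⟨x, z, 0⟩ = ρ ⟨x, 0, 0⟩ := by
      intro x z
      rw [← mul_one (ρ ⟨x, 0, 0⟩), ← hB z, ← map_mul, m1, add_zero, zero_add, f_zero_r, e0_zero,
        add_zero]
    have hadd : ∀ a b, ρ ⟨a + b, 0, 0⟩ = ρ ⟨a, 0, 0⟩ * ρ ⟨b, 0, 0⟩ := fun a b => by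
      rw [← map_mul, m1, hB' _ (0 + 0 + _)]
    rcases fourier add_self (fun x : F => ρ ⟨x, 0, 0⟩) (map_one ρ) hadd with
      hP | ⟨ψ, e, hψ, h0, hee, h1, h2⟩
    · rw [Representation.character, hB', hP, LinearMap.trace_one]
      have : Nontrivial V := by
        by_contra hV
        rw [not_nontrivial_iff_subsingleton] at hV
        have : (⊥ : Subrepresentation ρ) = ⊤ :=
          Subrepresentation.ext (Subsingleton.elim _ _)
        exact bot_ne_top this
      exact Nat.cast_ne_zero.mpr Module.finrank_pos.ne'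
    · have hN : ∀ x z, Commute (ρ ⟨x, z, 0⟩) e := fun x z => h2 _ fun a => by
        show _ * _ = _ * _
        rw [hB', ← hadd, ← hadd, add_comm]
      refine core ρ e h0 hee hN (fun i hi => ?_) 1 (fun z => by rw [hB, one_mul]; simp) x z
      refine orth ρ ψ hψ e (fun a => ⟨a, 0, 0⟩) h1 (fun a => by rw [← (hN a 0).eq, h1]) i (A i)
        (A_surj i hi) fun c => ?_
      rw [tt_conj, SS_zero']
  · have hN : ∀ x z, Commute (ρ ⟨x, z, 0⟩) e := fun x z => h2 _ fun a => by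
      show _ * _ = _ * _
      rw [← map_mul, ← map_mul, m1, m1, add_zero, zero_add, f_zero_l, f_zero_r, add_comm z]
    refine core ρ e h0 hee hN (fun i hi => ?_) ψ h1 x z
    refine orth ρ ψ hψ e (fun a => ⟨0, a, 0⟩) h1 (fun a => by rw [← (hN 0 a).eq, h1]) i (SS i)
      (SS_surj i hi) fun c => ?_
    rw [tt_conj, A_zero']

end Pool.Agent.H2.Zer
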