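import Mathlib

set_option autoImplicit false

namespace Pool.Agent.H2.Zig

open Set

/-- one excursion of length `x` with a zigzag between `b x` and `(b + c) x` -/
noncomputable def psi (b c x s : ℝ) : ℝ :=
  min (min s (max (2 * (b + c) * x - s) (s - 2 * c * x))) ((2 + 2 * c) * x - s)

theorem psi_lip (b c x s s' : ℝ) : |psi b c x s - psi b c x s'| ≤ |s - s'| := by
  unfold psi
  have e1 : ∀ k : ℝ, |(k - s) - (k - s')| ≤ |s - s'| := fun k => by
    rw [show (k - s) - (k - s') = -(s - s') by ring, abs_neg]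
  have e2 : ∀ k : ℝ, |(s - k) - (s' - k)| ≤ |s - s'| := fun k => by
    rw [show (s - k) - (s' - k) = s - s' by ring]
  refine (abs_min_sub_min_le_max _ _ _ _).trans (max_le ?_ (e1 _))
  refine (abs_min_sub_min_le_max _ _ _ _).trans (max_le le_rfl ?_)
  exact (abs_max_sub_max_le_max _ _ _ _).trans (max_le (e1 _) (e2 _))

theorem psi_level (b c x s h : ℝ) (H : psi b c x s = h) :
    s = h ∨ s = 2 * (b + c) * x - h ∨ s = h + 2 * c * x ∨ s = (2 + 2 * c) * x - h := by
  unfold psi at H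
  rcases min_choice (min s (max (2 * (b + c) * x - s) (s - 2 * c * x))) ((2 + 2 * c) * x - s)
    with h1 | h1
  · rw [h1] at H
    rcases min_choice s (max (2 * (b + c) * x - s) (s - 2 * c * x)) with h2 | h2
    · rw [h2] at H; exact Or.inl H
    · rw [h2] at H
      rcases max_choice (2 * (b + c) * x - s) (s - 2 * c * x) with h3 | h3
      · rw [h3] at H; right; left; linarith
      · rw [h3] at H; right; right; left; linarith
  · rw [h1] at H; right; right; right; linarith

theorem psiA {b c x h : ℝ} (hc : 0 ≤ c) (hx : 0 ≤ x) (h1 : h ≤ (b + c) * x) (h2 : h ≤ x) :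
    psi b c x h = h := by
  unfold psi
  have : 0 ≤ c * x := mul_nonneg hc hx
  rw [min_eq_left (le_max_of_le_left (by linarith)), min_eq_left (by linarith)]

theorem psiB {b c x h : ℝ} (hb : b ≤ 1) (hx : 0 ≤ x) (h1 : b * x ≤ h) (h2 : h ≤ (b + c) * x) :
    psi b c x (2 * (b + c) * x - h) = h := by
  unfold psi
  have : b * x ≤ x := by nlinarith
  rw [max_eq_left (by linarith), min_eq_right (a := 2 * (b + c) * x - h) (by linarith),
    min_eq_left (by linarith)]; ring

theorem psiC {b c x h : ℝ} (hc : 0 ≤ c) (hx : 0 ≤ x) (h1 : b * x ≤ h) (h2 : h ≤ x) :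
    psi b c x (h + 2 * c * x) = h := by
  unfold psi
  have : 0 ≤ c * x := mul_nonneg hc hx
  rw [max_eq_right (by linarith), min_eq_right (a := h + 2 * c * x) (by linarith),
    min_eq_left (by linarith)]; ring

theorem psiD {b c x h : ℝ} (hc : 0 ≤ c) (hx : 0 ≤ x) (h2 : h ≤ x) :
    psi b c x ((2 + 2 * c) * x - h) = h := by
  unfold psi
  have : 0 ≤ c * x := mul_nonneg hc hx
  rw [min_eq_right (le_min (by linarith) (le_max_of_le_right (by linarith)))]; ring

/-- start time of excursion `i` -/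
noncomputable def T (a c : ℝ) (i : ℤ) : ℝ := (2 + 2 * c) / (a - 1) * a ^ i

/-- the trajectory -/
noncomputable def S (a b c t : ℝ) : ℝ :=
  if 0 < t then
    (-1) ^ ⌊Real.logb a (t / ((2 + 2 * c) / (a - 1)))⌋ *
      psi b c (a ^ ⌊Real.logb a (t / ((2 + 2 * c) / (a - 1)))⌋)
        (t - T a c ⌊Real.logb a (t / ((2 + 2 * c) / (a - 1)))⌋)
  else 0

section
variable {a b c : ℝ} (ha : 1 < a) (hb : 0 ≤ b) (hc : 0 ≤ c)
include ha hc

theorem tau_pos : 0 < (2 + 2 * c) / (a - 1) := div_pos (by linarith) (by linarith)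

theorem T_pos (i : ℤ) : 0 < T a c i := mul_pos (tau_pos ha hc) (zpow_pos (by linarith) _)

omit hc in
theorem T_succ (i : ℤ) : T a c (i + 1) = T a c i + (2 + 2 * c) * a ^ i := by
  unfold T
  have : a - 1 ≠ 0 := by linarith
  rw [zpow_add_one₀ (by linarith)]; field_simp; ring

theorem T_mono {i j : ℤ} (h : i ≤ j) : T a c i ≤ T a c j :=
  mul_le_mul_of_nonneg_left (zpow_le_zpow_right₀ ha.le h) (tau_pos ha hc).le

theorem block (t : ℝ) (ht : 0 < t) : ∃ i : ℤ, T a c i ≤ t ∧ t < T a c (i + 1) := by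
  obtain ⟨i, h1, h2⟩ := exists_mem_Ico_zpow (div_pos ht (tau_pos ha hc)) ha
  refine ⟨i, ?_, ?_⟩
  · rw [le_div_iff₀ (tau_pos ha hc)] at h1; unfold T; linarith
  · rw [div_lt_iff₀ (tau_pos ha hc)] at h2; unfold T; linarith

theorem S_eq' (i : ℤ) (t : ℝ) (h1 : T a c i ≤ t) (h2 : t < T a c (i + 1)) :
    S a b c t = (-1) ^ i * psi b c (a ^ i) (t - T a c i) := by
  have ht : 0 < t := (T_pos ha hc i).trans_le h1
  have hq := div_pos ht (tau_pos ha hc)
  have : ⌊Real.logb a (t / ((2 + 2 * c) / (a - 1)))⌋ = i := by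
    rw [Int.floor_eq_iff]
    constructor
    · rw [Real.le_logb_iff_rpow_le ha hq, Real.rpow_intCast, le_div_iff₀ (tau_pos ha hc)]
      unfold T at h1; linarith
    · rw [Real.logb_lt_iff_lt_rpow ha hq, show (i : ℝ) + 1 = ((i + 1 : ℤ) : ℝ) by push_cast; ring,
        Real.rpow_intCast, div_lt_iff₀ (tau_pos ha hc)]
      unfold T at h2; linarith
  unfold S
  rw [if_pos ht, this]

include hb in
theorem S_eq (i : ℤ) (t : ℝ) (h1 : T a c i ≤ t) (h2 : t ≤ T a c (i + 1)) :
    S a b c t = (-1) ^ i * psi b c (a ^ i) (t - T a c i) := by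
  rcases h2.lt_or_eq with h | h
  · exact S_eq' ha hc i t h1 h
  have hx : ∀ j : ℤ, 0 < a ^ j := fun j => zpow_pos (by linarith) _
  rw [S_eq' ha hc (i + 1) t h.ge (by rw [h, T_succ ha (i + 1)]; have := hx (i + 1); nlinarith), h,
    sub_self, psiA hc (hx _).le (by have := hx (i + 1); positivity) (hx _).le, T_succ ha i,
    show T a c i + (2 + 2 * c) * a ^ i - T a c i = (2 + 2 * c) * a ^ i - 0 by ring,
    psiD hc (hx _).le (hx _).le]
  simp

omit ha hc in
theorem abs_sgn (i : ℤ) : |(-1 : ℝ) ^ i| = 1 := by rw [abs_zpow]; simp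

include hb in
theorem S_block_lip (i : ℤ) (t t' : ℝ) (h1 : T a c i ≤ t) (h2 : t ≤ T a c (i + 1))
    (h1' : T a c i ≤ t') (h2' : t' ≤ T a c (i + 1)) : |S a b c t - S a b c t'| ≤ |t - t'| := by
  rw [S_eq ha hb hc i t h1 h2, S_eq ha hb hc i t' h1' h2', ← mul_sub, abs_mul, abs_sgn, one_mul]
  refine (psi_lip _ _ _ _ _).trans (le_of_eq ?_)
  congr 1; ring

include hb in
theorem S_T (i : ℤ) : S a b c (T a c i) = 0 := by
  have hx : ∀ j : ℤ, 0 < a ^ j := fun j => zpow_pos (by linarith) _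
  rw [S_eq ha hb hc i _ le_rfl (T_mono ha hc (by omega)), sub_self,
    psiA hc (hx _).le (by have := hx i; positivity) (hx _).le, mul_zero]

include hb in
theorem S_bound (i : ℤ) (t : ℝ) (h1 : T a c i ≤ t) (h2 : t ≤ T a c (i + 1)) :
    |S a b c t| ≤ t - T a c i ∧ |S a b c t| ≤ T a c (i + 1) - t := by
  have m := T_mono ha hc (show i ≤ i + 1 by omega)
  have k1 := S_block_lip ha hb hc i t _ h1 h2 le_rfl m
  have k2 := S_block_lip ha hb hc i t _ h1 h2 m le_rfl
  rw [S_T ha hb hc, sub_zero] at k1 k2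
  rw [abs_of_nonneg (by linarith : 0 ≤ t - T a c i)] at k1
  rw [abs_of_nonpos (by linarith : t - T a c (i + 1) ≤ 0)] at k2
  exact ⟨k1, by linarith⟩

omit ha hc in
theorem S_zero : S a b c 0 = 0 := by simp [S]

include hb in
theorem S_lip (t t' : ℝ) (ht : 0 ≤ t) (ht' : 0 ≤ t') : |S a b c t - S a b c t'| ≤ |t - t'| := by
  wlog h : t ≤ t' generalizing t t'
  · rw [abs_sub_comm, abs_sub_comm t]; exact this t' t ht' ht (not_le.1 h).le
  rcases ht'.eq_or_lt with h0 | h0
  · have : t = 0 := by linarith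
    rw [this, ← h0]; simp
  obtain ⟨j, j1, j2⟩ := block ha hc t' h0
  have bj := (S_bound ha hb hc j t' j1 j2.le).1
  rcases ht.eq_or_lt with h1 | h1
  · rw [← h1, S_zero, zero_sub, zero_sub, abs_neg, abs_neg, abs_of_pos h0]
    linarith [T_pos ha hc j]
  obtain ⟨i, i1, i2⟩ := block ha hc t h1
  by_cases hij : t' ≤ T a c (i + 1)
  · exact S_block_lip ha hb hc i t t' i1 i2.le (i1.trans h) hij
  have bi := (S_bound ha hb hc i t i1 i2.le).2
  have : i + 1 ≤ j := by
    by_contra hh
    have := T_mono ha hc (show j + 1 ≤ i + 1 by omega)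
    linarith [not_le.1 hij]
  have := T_mono ha hc this
  rw [abs_of_nonpos (by linarith : t - t' ≤ 0)]
  linarith [abs_sub (S a b c t) (S a b c t')]

include hb in
theorem level_finite (H : ℝ) (hH : H ≠ 0) (R : ℝ) :
    {t | 0 ≤ t ∧ S a b c t = H ∧ t ≤ R}.Finite := by
  have hx : ∀ j : ℤ, 0 < a ^ j := fun j => zpow_pos (by linarith) _
  obtain ⟨i0, -, hi0⟩ := block ha hc (max R 1) (by positivity)
  obtain ⟨i1, hi1, -⟩ := block ha hc |H| (abs_pos.2 hH)
  refine ((finite_Icc (i1 - 1) i0).biUnion (t := fun i => {T a c i + (-1) ^ i * H,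
    T a c i + (2 * (b + c) * a ^ i - (-1) ^ i * H), T a c i + ((-1) ^ i * H + 2 * c * a ^ i),
    T a c i + ((2 + 2 * c) * a ^ i - (-1) ^ i * H)}) fun i _ => toFinite _).subset ?_
  rintro t ⟨h0, h1, h2⟩
  have ht : 0 < t := by
    rcases h0.eq_or_lt with h | h
    · rw [← h, S_zero] at h1; exact absurd h1.symm hH
    · exact h
  obtain ⟨i, j1, j2⟩ := block ha hc t ht
  have bj := (S_bound ha hb hc i t j1 j2.le).1
  simp only [mem_iUnion]
  refine ⟨i, ⟨?_, ?_⟩, ?_⟩
  · by_contra hh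
    have := T_mono ha hc (show i + 1 ≤ i1 by omega)
    rw [h1] at bj
    linarith [T_pos ha hc i]
  · by_contra hh
    have := T_mono ha hc (show i0 + 1 ≤ i by omega)
    linarith [le_max_left R 1]
  · rw [S_eq' ha hc i t j1 j2] at h1
    have e : ((-1 : ℝ) ^ i) * (-1) ^ i = 1 := by rw [← mul_zpow]; simp
    have h3 : psi b c (a ^ i) (t - T a c i) = (-1) ^ i * H := by
      rw [← h1, ← mul_assoc, e, one_mul]
    simp only [mem_insert_iff, mem_singleton_iff]
    rcases psi_level _ _ _ _ _ h3 with h | h | h | h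
    · left; linarith
    · right; left; linarith
    · right; right; left; linarith
    · right; right; right; linarith

end

theorem comp_single (Z : Set ℝ) (hZ : ∀ R, (Z ∩ Iic R).Finite) (s : ℝ) (hs : s ∈ Z) :
    connectedComponentIn Z s = {s} := by
  refine Subset.antisymm (fun t ht => ?_) (singleton_subset_iff.2 (mem_connectedComponentIn hs))
  by_contra hne
  have hpc := (isPreconnected_connectedComponentIn (F := Z) (x := s)).ordConnected
  have hsub := connectedComponentIn_subset Z s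
  have hs' := mem_connectedComponentIn hs
  rcases lt_or_gt_of_ne (show t ≠ s from hne) with h | h
  · exact Icc_infinite h ((hZ s).subset fun y hy => ⟨hsub (hpc.out ht hs' hy), hy.2⟩)
  · exact Icc_infinite h ((hZ t).subset fun y hy => ⟨hsub (hpc.out hs' ht hy), hy.2⟩)

end Pool.Agent.H2.Zig
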